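import Pool.Agent.SK.BDefs
import Pool.Agent.H32.MZ.KDefs
import Pool.Agent.H32.MZ.T8K

/-!
# Malle's conjecture for 8T8 over number fields: from homomorphisms to fields
-/

set_option autoImplicit false

open scoped BigOperators Topology
open Filter NumberField IsDedekindDomain

namespace Pool.Agent.SK

open Pool.Agent.H98.MF
open Pool.Agent.H32.MA (SD T8 mInd mInd_T8)
open Pool.Agent.H32.MZ

/-- Malle's conjecture for 8T8 over `k` from the count of homomorphisms -/
theorem malle_of {k : Type} [Field k] [NumberField k] (h : StY7 k) : MalleK k T8 := by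
  obtain ⟨l, hl, ht⟩ := h
  obtain ⟨κ, hκ, hN⟩ := NK_T8
  refine ⟨κ * l, mul_pos hκ hl, ?_⟩
  refine (ht.const_mul κ).congr fun X => ?_
  rw [hN k X, bM_T8K k, mInd_T8]
  have e1 : {ρ : Gm k →* SD | ρ ∈ Hs k ∧ (dsc ρ : ℝ) ≤ X} =
      {ρ : Gm k →* SD | Function.Surjective ρ ∧ IsLocallyConstant ρ ∧
        (rdN (fld k (SD.H0.comap ρ)) : ℝ) ≤ X} := by
    ext ρ
    exact and_assoc
  rw [e1]
  norm_num
  ring

end Pool.Agent.SK
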