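import Pool.Agent.SK.TP
import Pool.Agent.H98.MF.L.InV

/-!
# Malle's conjecture for 8T8 over number fields: elements near 1 at a prime
-/

set_option autoImplicit false
set_option linter.unusedSectionVars false

open scoped BigOperators
open NumberField IsDedekindDomain

namespace Pool.Agent.SK.TP

open Pool.Agent.H98.MF

section

variable {k : Type} [Field k] [NumberField k] {P : HeightOneSpectrum (𝓞 k)}

theorem tpj_iff (P : HeightOneSpectrum (𝓞 k)) (x : Om k) :
    InM P x ↔ x = 0 ∨ ¬ InV P x⁻¹ := by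
  constructor
  · rintro ⟨a, b, ha, hb, h1⟩
    by_contra h
    push Not at h
    obtain ⟨hx, c, d, hd, h2⟩ := h
    have h3 : ((b * d : 𝓞 (Om k)) : Om k) = ((a * c : 𝓞 (Om k)) : Om k) := by
      rw [iv_cmul, iv_cmul, ← h1, ← h2]
      field_simp
    have h4 : b * d = a * c := RingOfIntegers.coe_injective h3
    exact iv_mul_notMem hb hd (by rw [h4]; exact (top P).mul_mem_right _ ha)
  · intro h
    by_cases hx : x = 0
    · refine ⟨0, 1, (top P).zero_mem, iv_one_notMem P, ?_⟩
      rw [hx, zero_mul, iv_czero]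
    · have h1 : ¬ InV P x⁻¹ := by
        rcases h with h | h
        · exact absurd h hx
        · exact h
      rcases InV.total P hx with ⟨a, b, hb, h2⟩ | h2
      · refine ⟨a, b, ?_, hb, h2⟩
        by_contra ha
        apply h1
        refine ⟨b, a, ha, ?_⟩
        rw [← h2]
        field_simp
      · exact absurd h2 h1

theorem tpj_zero (P : HeightOneSpectrum (𝓞 k)) : InM P (0 : Om k) :=
  (tpj_iff P 0).2 (Or.inl rfl)

theorem tpj_inV {x : Om k} (h : InM P x) : InV P x := by
  obtain ⟨a, b, _, hb, h1⟩ := h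
  exact ⟨a, b, hb, h1⟩

theorem tpj_mul {x y : Om k} (hx : InM P x) (hy : InV P y) : InM P (x * y) := by
  obtain ⟨a, b, ha, hb, h1⟩ := hx
  obtain ⟨c, d, hd, h2⟩ := hy
  refine ⟨a * c, b * d, (top P).mul_mem_right _ ha, iv_mul_notMem hb hd, ?_⟩
  rw [iv_cmul, iv_cmul, ← h1, ← h2]
  ring

theorem tpj_add {x y : Om k} (hx : InM P x) (hy : InM P y) : InM P (x + y) := by
  obtain ⟨a, b, ha, hb, h1⟩ := hx
  obtain ⟨c, d, hc, hd, h2⟩ := hy
  refine ⟨a * d + c * b, b * d,
    (top P).add_mem ((top P).mul_mem_right _ ha) ((top P).mul_mem_right _ hc),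
    iv_mul_notMem hb hd, ?_⟩
  rw [iv_cadd, iv_cmul, iv_cmul, iv_cmul, ← h1, ← h2]
  ring

theorem tpj_neg {x : Om k} (hx : InM P x) : InM P (-x) := by
  have h := tpj_mul hx (InV.one P).neg
  rwa [mul_neg, mul_one] at h

theorem tpj_one (P : HeightOneSpectrum (𝓞 k)) : ¬ InM P (1 : Om k) := by
  intro h
  rcases (tpj_iff P 1).1 h with h1 | h1
  · exact one_ne_zero h1
  · rw [inv_one] at h1
    exact h1 (InV.one P)

/-- units of the valuation ring -/
theorem tpj_unit {x : Om k} (h : ¬ InM P x) : x ≠ 0 ∧ InV P x⁻¹ := by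
  rw [tpj_iff] at h
  push Not at h
  exact h

theorem tpj_unit1 {m : Om k} (h : InM P m) : 1 + m ≠ 0 ∧ InV P (1 + m)⁻¹ := by
  apply tpj_unit
  intro h1
  have h2 := tpj_add h1 (tpj_neg h)
  rw [add_neg_cancel_right] at h2
  exact tpj_one P h2

theorem tpj_ord {t : k} (h : 1 ≤ ord P t) : InM P (algebraMap k (Om k) t) := by
  rw [tpj_iff]
  by_cases ht : t = 0
  · left
    rw [ht, map_zero]
  · right
    rw [← map_inv₀, inV_base, ord_inv]
    omega

theorem tpj_dec {σ : Gm k} (hσ : σ ∈ Dec P) {x : Om k} (h : InM P x) : InM P (σ x) := by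
  rw [tpj_iff] at h ⊢
  rcases h with h | h
  · left
    rw [h, map_zero]
  · right
    rw [← map_inv₀, inV_dec hσ]
    exact h

theorem tpj_int {x q : Om k} (h : x * (x + 1) = q) (hq : InV P q) : InV P x := by
  by_contra hx
  have hx0 : x ≠ 0 := by
    rintro rfl
    exact hx (InV.zero P)
  have h1 : InM P x⁻¹ := by
    rw [tpj_iff]
    right
    rw [inv_inv]
    exact hx
  have h2 := tpj_mul (tpj_mul h1 (tpj_inV h1)) hq
  have h3 : x⁻¹ * x⁻¹ * q = 1 + x⁻¹ := by
    rw [← h]
    field_simp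
  rw [h3] at h2
  have h4 := tpj_add h2 (tpj_neg h1)
  rw [add_neg_cancel_right] at h4
  exact tpj_one P h4

end

/-- TP10: elements of `k` close to zero -/
theorem spVa (k : Type) [Field k] [NumberField k] : SpVa k := by
  intro P l
  obtain ⟨c, hc, h1⟩ := inV_bdd P l
  refine ⟨ord P c + 1, fun z hz => ?_⟩
  by_cases hz0 : z = 0
  · rw [hz0, map_zero, zero_mul]
    exact tpj_zero P
  · have hz1 : ord P c + 1 ≤ ord P z := by
      rcases hz with h | h
      · exact absurd h hz0
      · exact h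
    have h2 : 1 ≤ ord P (z * c⁻¹) := by
      rw [ord_mul P hz0 (inv_ne_zero hc), ord_inv]
      omega
    have h3 := tpj_mul (tpj_ord h2) h1
    have hc2 : algebraMap k (Om k) c ≠ 0 := (map_ne_zero _).2 hc
    have h4 : algebraMap k (Om k) (z * c⁻¹) * (l * algebraMap k (Om k) c) =
        algebraMap k (Om k) z * l := by
      rw [map_mul, map_inv₀]
      field_simp
    rwa [h4] at h3

/-- TP10: the elements near `1` -/
theorem spUn (k : Type) [Field k] [NumberField k] : SpUn k := by
  intro P z hz h2z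
  have hZ0 : algebraMap k (Om k) z ≠ 0 := (map_ne_zero _).2 hz
  have h20 : (2 : k) ≠ 0 := two_ne_zero
  have h2O : (2 : Om k) ≠ 0 := two_ne_zero
  have h2n : 0 ≤ ord P (2 : k) := by
    have h := ord_int_nonneg P (2 : 𝓞 k)
    exact h
  have hZ : InV P (algebraMap k (Om k) z) := inV_base.2 (h2n.trans h2z)
  have hZ2 : InV P (algebraMap k (Om k) z / 2) := by
    have h3 : InV P (algebraMap k (Om k) (z * 2⁻¹)) := by
      rw [inV_base, ord_mul P hz (inv_ne_zero h20), ord_inv]
      omega
    have h4 : algebraMap k (Om k) (z * 2⁻¹) = algebraMap k (Om k) z / 2 := by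
      rw [map_mul, map_inv₀, map_ofNat, div_eq_mul_inv]
    rwa [h4] at h3
  refine ⟨?_, ?_, ?_, ?_, ?_, ?_, ?_⟩
  · show InM P _
    rw [sub_self, zero_div]
    exact tpj_zero P
  · intro κ κ' h h'
    have h1 : InM P ((κ - 1) / algebraMap k (Om k) z) := h
    have h2 : InM P ((κ' - 1) / algebraMap k (Om k) z) := h'
    have h3 := tpj_add (tpj_add h1 h2) (tpj_mul h1 ((tpj_inV h2).mul hZ))
    have h4 : (κ - 1) / algebraMap k (Om k) z + (κ' - 1) / algebraMap k (Om k) z +
        (κ - 1) / algebraMap k (Om k) z * ((κ' - 1) / algebraMap k (Om k) z *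
          algebraMap k (Om k) z) = (κ * κ' - 1) / algebraMap k (Om k) z := by
      field_simp
      ring
    rw [h4] at h3
    exact h3
  · intro κ h
    have h1 : InM P ((κ - 1) / algebraMap k (Om k) z) := h
    have h2 := tpj_unit1 (tpj_mul h1 hZ)
    have h3 : 1 + (κ - 1) / algebraMap k (Om k) z * algebraMap k (Om k) z = κ := by
      rw [div_mul_cancel₀ _ hZ0]
      ring
    rw [h3] at h2
    refine ⟨h2.1, ?_⟩
    have h4 := tpj_neg (tpj_mul h1 h2.2)
    have h5 : -((κ - 1) / algebraMap k (Om k) z * κ⁻¹) = (κ⁻¹ - 1) / algebraMap k (Om k) z := by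
      have h6 := h2.1
      field_simp
      ring
    rw [h5] at h4
    exact h4
  · intro σ hσ κ h
    have h1 : InM P ((κ - 1) / algebraMap k (Om k) z) := h
    have h2 := tpj_dec hσ h1
    rw [map_div₀, map_sub, map_one, AlgEquiv.commutes] at h2
    exact h2
  · intro z' κ hz' hle h
    have h1 : InM P ((κ - 1) / algebraMap k (Om k) z') := h
    have h3 : InV P (algebraMap k (Om k) (z' * z⁻¹)) := by
      rw [inV_base, ord_mul P hz' (inv_ne_zero hz), ord_inv]
      omega
    have hz2 : algebraMap k (Om k) z' ≠ 0 := (map_ne_zero _).2 hz'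
    have h4 := tpj_mul h1 h3
    have h5 : (κ - 1) / algebraMap k (Om k) z' * algebraMap k (Om k) (z' * z⁻¹) =
        (κ - 1) / algebraMap k (Om k) z := by
      rw [map_mul, map_inv₀]
      field_simp
    rw [h5] at h4
    exact h4
  · intro κ h
    have h1 : InM P ((κ ^ 2 - 1) / algebraMap k (Om k) (2 * z)) := h
    rw [map_mul, map_ofNat] at h1
    set Z := algebraMap k (Om k) z with hZd
    set m := (κ ^ 2 - 1) / (2 * Z) with hm
    have e0 : κ ^ 2 - 1 = m * (2 * Z) := by
      rw [hm]
      field_simp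
    have e1 : (κ - 1) / 2 * ((κ - 1) / 2 + 1) = m * (Z / 2) := by
      have e2 : (κ - 1) / 2 * ((κ - 1) / 2 + 1) = (κ ^ 2 - 1) / 4 := by ring
      rw [e2, e0]
      ring
    have hq : InM P (m * (Z / 2)) := tpj_mul h1 hZ2
    have hu : InV P ((κ - 1) / 2) := tpj_int e1 (tpj_inV hq)
    by_cases hu2 : InM P ((κ - 1) / 2)
    · left
      have h3 := tpj_unit1 hu2
      have h4 := tpj_mul h1 h3.2
      have h5 : m * (1 + (κ - 1) / 2)⁻¹ = (κ - 1) / Z := by
        have h6 : 1 + (κ - 1) / 2 ≠ 0 := h3.1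
        rw [← div_eq_mul_inv, div_eq_div_iff h6 hZ0]
        have h7 : 2 * (m * Z) = 2 * ((κ - 1) * (1 + (κ - 1) / 2)) := by
          linear_combination (-1 : Om k) * e0
        exact mul_left_cancel₀ h2O h7
      rw [h5] at h4
      exact h4
    · right
      have h3 := tpj_unit hu2
      have h4 := tpj_neg (tpj_mul h1 h3.2)
      have h5 : -(m * ((κ - 1) / 2)⁻¹) = (-κ - 1) / Z := by
        have h6 : (κ - 1) / 2 ≠ 0 := h3.1
        rw [← div_eq_mul_inv, ← neg_div, div_eq_div_iff h6 hZ0]
        have h7 : 2 * (-m * Z) = 2 * ((-κ - 1) * ((κ - 1) / 2)) := by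
          linear_combination e0
        exact mul_left_cancel₀ h2O h7
      rw [h5] at h4
      exact h4
  · intro w hw j h
    by_contra hj
    have h1 : InM P ((w ^ j.val - 1) / algebraMap k (Om k) z) := h
    have hwV : InV P w := by
      apply inV_pow (n := 8) (by norm_num)
      have h3 : w ^ 8 = 1 := by
        calc w ^ 8 = (w ^ 4) ^ 2 := by ring
          _ = 1 := by rw [hw]; ring
      rw [h3]
      exact InV.one P
    have hpow : ∀ n : ℕ, InV P (w ^ n) := by
      intro n
      induction n with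
      | zero => rw [pow_zero]; exact InV.one P
      | succ n ih => rw [pow_succ]; exact ih.mul hwV
    have hs : ∃ s : Om k, InV P s ∧ (w ^ j.val - 1) * s = 2 := by
      have hc : ∀ j : ZMod 8, j ≠ 0 → (j.val % 2 = 1 ∨ j.val = 2 ∨ j.val = 6 ∨ j.val = 4) := by
        decide
      have hV := hpow j.val
      have hodd : ∀ n : ℕ, n % 2 = 1 → (w ^ n) ^ 4 = -1 := by
        intro n hn
        rw [← pow_mul, mul_comm, pow_mul, hw]
        exact (Nat.odd_iff.2 hn).neg_one_pow
      rcases hc j hj with h2 | h2 | h2 | h2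
      · refine ⟨-((w ^ j.val) * (w ^ j.val) * (w ^ j.val) + (w ^ j.val) * (w ^ j.val) +
          w ^ j.val + 1), (((hV.mul hV).mul hV).add (hV.mul hV) |>.add hV |>.add
            (InV.one P)).neg, ?_⟩
        have h3 := hodd _ h2
        linear_combination -h3
      · refine ⟨-(w ^ 2 + 1), ((hpow 2).add (InV.one P)).neg, ?_⟩
        rw [h2]
        linear_combination -hw
      · refine ⟨-(w ^ 6 + 1), ((hpow 6).add (InV.one P)).neg, ?_⟩
        rw [h2]
        have h3 : w ^ 12 = -1 := by
          calc w ^ 12 = (w ^ 4) ^ 3 := by ring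
            _ = -1 := by rw [hw]; ring
        linear_combination -h3
      · refine ⟨-1, (InV.one P).neg, ?_⟩
        rw [h2, hw]
        ring
    obtain ⟨s, hsV, hs2⟩ := hs
    have h3 := tpj_mul (tpj_mul h1 hZ2) hsV
    have h4 : (w ^ j.val - 1) / algebraMap k (Om k) z * (algebraMap k (Om k) z / 2) * s = 1 := by
      have h5 : (w ^ j.val - 1) / algebraMap k (Om k) z * (algebraMap k (Om k) z / 2) * s =
          (w ^ j.val - 1) * s / 2 := by
        field_simp
      rw [h5, hs2]
      field_simp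
    rw [h4] at h3
    exact tpj_one P h3

end Pool.Agent.SK.TP
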