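import Pool.Agent.SK.TPf
import Pool.Agent.SK.TPj

/-!
# Malle's conjecture for 8T8 over number fields, comparison of two homomorphisms: the values at
the tame generator and the Frobenius element for odd exponent of the trace (row TP8)
-/

set_option autoImplicit false
set_option linter.unusedSectionVars false

open scoped BigOperators
open NumberField IsDedekindDomain

namespace Pool.Agent.SK.TP

open Pool.Agent.H98.MF
open Pool.Agent.H32.MA (SD)
open Pool.Agent.D8 (pm p5 bit3 so IsTh IsF ob RxF TF Two2 obn_so_mul obn_so_sq obn_chi_act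
  obn_two_notMem)

section

variable {k : Type} [Field k] [NumberField k]

theorem t8_bit (g : ZMod 2) : (-(pm 0 * (0 - bit3 0 1 g)) : ZMod 8) = bit3 0 1 g := by
  revert g; decide

theorem t8_zp {w : Om k} (hw : w ^ 4 = -1) (g : ZMod 2) : zp w (bit3 0 1 g) = w ^ 2 * so g := by
  have h : g = 0 ∨ g = 1 := by revert g; decide
  rcases h with rfl | rfl
  · have e : (bit3 0 1 0 : ZMod 8).val = 2 := by decide
    unfold zp so
    rw [e, if_pos rfl, mul_one]
  · have e : (bit3 0 1 1 : ZMod 8).val = 6 := by decide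
    unfold zp so
    rw [e, if_neg one_ne_zero]
    calc w ^ 6 = w ^ 2 * w ^ 4 := by ring
      _ = w ^ 2 * -1 := by rw [hw]

/-- the action of the tame generator if the homomorphism is trivial and the exponent of the
trace is odd -/
theorem t8_act {w r : Om k} {d c n : kˣ} {y : k} {ρ : Gm k →* SD} {θ θ' ε : Om k}
    {g : Gm k → ZMod 2} (hE : Ex w r d c n y ρ θ θ' ε g) {τ φ : Gm k}
    {P : HeightOneSpectrum (𝓞 k)} (hT : TF P τ φ) (hρ : ρ τ = 1)
    (hc : Odd (ord P (c : k))) : τ ε = w ^ 2 * so (g τ) * ε := by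
  have hd : chi (d : k) τ = 0 := by
    rw [← hE.pd, hρ]
    rfl
  have hn : chi (n : k) τ = 0 := by
    have h := hE.pa τ
    rw [hρ, hd, zero_add] at h
    exact h.symm
  have h1 : chi (-1 : k) τ = 0 := (hT.chi0 (-1 : k) (neg_ne_zero.2 one_ne_zero) (by
    rw [ord_neg, ord_one]
    exact Even.zero)).1
  have hcc : chi (c : k) τ = 1 := hT.chi1 (c : k) hc
  have hun : un d n τ = 0 := by
    unfold un
    rw [h1, hn, hd]
    rfl
  have h := hE.act τ
  have hK : Kf c ρ g τ = 0 - bit3 0 1 (g τ) := by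
    unfold Kf
    rw [hρ, hcc]
    rfl
  rw [hun, hK, t8_bit, t8_zp hE.w4] at h
  rw [h]
  unfold ep
  rw [if_pos rfl]

variable {P : HeightOneSpectrum (𝓞 k)}

/-- units are not in the maximal ideal -/
theorem t8_not {x : Om k} (hx : UV P x) (h : InM P x) : False := by
  have h1 := tpj_mul h hx.j
  rw [mul_inv_cancel₀ hx.ne] at h1
  exact tpj_one P h1

/-- the maximal ideal is prime -/
theorem t8_or {x y : Om k} (h : InM P (x * y)) : InM P x ∨ InM P y := by
  by_cases hx : InM P x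
  · exact Or.inl hx
  · right
    obtain ⟨hx0, hx1⟩ := tpj_unit hx
    have h1 := tpj_mul h hx1
    have h2 : x * y * x⁻¹ = y := by
      rw [mul_comm x y, mul_assoc, mul_inv_cancel₀ hx0, mul_one]
    rwa [h2] at h1

theorem t8_so_i (x : ZMod 2) : InV P (so x : Om k) := by
  unfold so
  split_ifs
  · exact InV.one P
  · exact (InV.one P).neg

/-- signs congruent modulo the maximal ideal -/
theorem t8_sg (h2 : ord P (2 : k) = 0) {X : Om k} (hX : UV P X) {x y : ZMod 2}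
    (h : InM P ((so x - so y) * X)) : x = y := by
  have h3 : ∀ z : ZMod 2, z = 0 ∨ z = 1 := by decide
  have h4 : (so 0 : Om k) = 1 := if_pos rfl
  have h5 : (so 1 : Om k) = -1 := if_neg one_ne_zero
  have h6 : UV P (2 : Om k) := tpf_unit_two h2
  rcases h3 x with rfl | rfl <;> rcases h3 y with rfl | rfl
  · rfl
  · exfalso
    rw [h4, h5] at h
    refine t8_not (h6.mul hX) ?_
    have e : (1 - -1) * X = 2 * X := by ring
    rwa [e] at h
  · exfalso
    rw [h4, h5] at h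
    refine t8_not (h6.mul hX).neg ?_
    have e : (-1 - 1) * X = -(2 * X) := by ring
    rwa [e] at h
  · rfl

/-- square roots of elements of the base, approximately -/
theorem t8_root {X : Om k} (hX : UV P X) (a : kˣ) (ha : ord P (a : k) = 0)
    (h : InM P (X ^ 2 - algebraMap k (Om k) (a : k))) {σ : Gm k} (hσ : σ ∈ Dec P) :
    InM P (σ X - so (chi (a : k) σ) * X) := by
  set α : Om k := Pool.Agent.H98.MF.sq (a : k) with hα
  have hα2 : α ^ 2 = algebraMap k (Om k) (a : k) := sq_sq _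
  have hαu : UV P α := UV.of_pow two_ne_zero (by rw [hα2]; exact UV.base a.ne_zero ha)
  have hσα : σ α = so (chi (a : k) σ) * α := obn_chi_act a σ
  have h1 : InM P ((X - α) * (X + α)) := by
    have e : (X - α) * (X + α) = X ^ 2 - algebraMap k (Om k) (a : k) := by
      rw [← hα2]
      ring
    rwa [e]
  rcases t8_or h1 with h2 | h2
  · have h3 := tpj_dec hσ h2
    rw [map_sub, hσα] at h3
    have h4 := tpj_neg (tpj_mul h2 (t8_so_i (P := P) (chi (a : k) σ)))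
    have h5 := tpj_add h3 h4
    have e : σ X - so (chi (a : k) σ) * α + -((X - α) * so (chi (a : k) σ)) =
        σ X - so (chi (a : k) σ) * X := by ring
    rwa [e] at h5
  · have h3 := tpj_dec hσ h2
    rw [map_add, hσα] at h3
    have h4 := tpj_neg (tpj_mul h2 (t8_so_i (P := P) (chi (a : k) σ)))
    have h5 := tpj_add h3 h4
    have e : σ X + so (chi (a : k) σ) * α + -((X + α) * so (chi (a : k) σ)) =
        σ X - so (chi (a : k) σ) * X := by ring
    rwa [e] at h5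

/-- the data at the prime: one of the two factors is a unit, the other one is in the maximal
ideal -/
theorem t8_ab {w r : Om k} {d c n : kˣ} {y : k} {ρ : Gm k →* SD} {θ θ' ε : Om k}
    {g : Gm k → ZMod 2} (hE : Ex w r d c n y ρ θ θ' ε g) (hP2 : ord P (2 : k) = 0)
    (hd : ord P (d : k) = 0) (hc : 0 < ord P (c : k)) (hy : y ≠ 0) (hy0 : ord P y = 0) :
    UV P θ ∧ UV P θ' ∧ InM P (θ ^ 2 - algebraMap k (Om k) y * Pool.Agent.H98.MF.sq (d : k)) ∧
      ((UV P (θ + w ^ 2 * θ') ∧ InM P (θ - w ^ 2 * θ')) ∨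
        (UV P (θ - w ^ 2 * θ') ∧ InM P (θ + w ^ 2 * θ'))) := by
  have hx : 0 < ord P ((c : k) / 2) := by
    rw [ord_div P c.ne_zero two_ne_zero, hP2, sub_zero]
    exact hc
  have hw : UV P w := tpf_unit_w hE.w4
  have h2u : UV P (2 : Om k) := tpf_unit_two hP2
  have hyu : UV P (algebraMap k (Om k) y) := UV.base hy hy0
  have hdu : UV P (Pool.Agent.H98.MF.sq (d : k)) :=
    UV.of_pow two_ne_zero (by rw [sq_sq]; exact UV.base d.ne_zero hd)
  have hθu : UV P θ := by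
    refine UV.of_pow two_ne_zero ?_
    rw [hE.th]
    exact tpu_add (hyu.mul hdu) (Or.inr hx)
  have hθu' : UV P θ' := by
    refine UV.of_pow two_ne_zero ?_
    rw [hE.th', sub_eq_add_neg]
    exact tpu_add (hyu.mul hdu).neg (Or.inr hx)
  have hAi : InV P (θ + w ^ 2 * θ') := hθu.i.add ((hw.pow 2).i.mul hθu'.i)
  have hBi : InV P (θ - w ^ 2 * θ') := hθu.i.sub ((hw.pow 2).i.mul hθu'.i)
  have hSu : UV P ((θ + w ^ 2 * θ') + (θ - w ^ 2 * θ')) := by
    have e : (θ + w ^ 2 * θ') + (θ - w ^ 2 * θ') = 2 * θ := by ring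
    rw [e]
    exact h2u.mul hθu
  have hM : InM P ((θ + w ^ 2 * θ') * (θ - w ^ 2 * θ')) := by
    rw [tpf_prod hE]
    exact tpj_ord (by omega)
  refine ⟨hθu, hθu', ?_, ?_⟩
  · rw [hE.th, add_sub_cancel_right]
    exact tpj_ord (by omega)
  · rcases tpu_or hAi hBi hSu with h3 | h3
    · left
      refine ⟨h3, ?_⟩
      rcases t8_or hM with h4 | h4
      · exact absurd h4 (t8_not h3)
      · exact h4
    · right
      refine ⟨h3, ?_⟩
      rcases t8_or hM with h4 | h4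
      · exact h4
      · exact absurd h4 (t8_not h3)

/-- the products of the conjugate roots, modulo the maximal ideal -/
theorem t8_core {w r : Om k} {d c n₁ n₂ : kˣ} {y₁ y₂ : k} {ρ₁ ρ₂ : Gm k →* SD}
    {θ₁ θ₁' ε₁ θ₂ θ₂' ε₂ : Om k} {g₁ g₂ : Gm k → ZMod 2}
    (h1 : Ex w r d c n₁ y₁ ρ₁ θ₁ θ₁' ε₁ g₁) (h2 : Ex w r d c n₂ y₂ ρ₂ θ₂ θ₂' ε₂ g₂)
    (hP2 : ord P (2 : k) = 0) (hd : ord P (d : k) = 0) (hc : 0 < ord P (c : k))
    (hco : Odd (ord P (c : k))) (hy1 : y₁ ≠ 0) (hy2 : y₂ ≠ 0) (hy1' : ord P y₁ = 0)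
    (hy2' : ord P y₂ = 0) {τ φ : Gm k} (hT : TF P τ φ) (hρ1 : ρ₁ τ = 1) (hρ2 : ρ₂ τ = 1) :
    InM P (θ₁' * θ₂' + so (g₁ τ + g₂ τ) * (θ₁ * θ₂)) := by
  obtain ⟨hu1, hu1', -, hc1⟩ := t8_ab h1 hP2 hd hc hy1 hy1'
  obtain ⟨hu2, hu2', -, hc2⟩ := t8_ab h2 hP2 hd hc hy2 hy2'
  obtain ⟨hTw, -, -, -, hTε1⟩ := tpf_T2 h1
  obtain ⟨-, -, -, -, hTε2⟩ := tpf_T2 h2
  have hw : UV P w := tpf_unit_w h1.w4
  have hcO : algebraMap k (Om k) (c : k) ≠ 0 := (map_ne_zero _).2 c.ne_zero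
  have hr0 : r ≠ 0 := by
    intro h
    have h3 := h1.r2
    rw [h, zero_pow two_ne_zero] at h3
    exact hcO h3.symm
  have e1 := t8_act h1 hT hρ1 hco
  have e2 := t8_act h2 hT hρ2 hco
  have hp1 := tpf_prod h1
  have hp2 := tpf_prod h2
  have he1 := h1.eps
  have he2 := h2.eps
  have hw4 := h1.w4
  set A₁ := θ₁ + w ^ 2 * θ₁' with hA1
  set B₁ := θ₁ - w ^ 2 * θ₁' with hB1
  set A₂ := θ₂ + w ^ 2 * θ₂' with hA2
  set B₂ := θ₂ - w ^ 2 * θ₂' with hB2
  have hA1n : A₁ ≠ 0 := fun h => hcO (by rw [← hp1, h, zero_mul])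
  have hA2n : A₂ ≠ 0 := fun h => hcO (by rw [← hp2, h, zero_mul])
  have hB1n : B₁ ≠ 0 := fun h => hcO (by rw [← hp1, h, mul_zero])
  have hB2n : B₂ ≠ 0 := fun h => hcO (by rw [← hp2, h, mul_zero])
  have hε1n : ε₁ ≠ 0 := fun h => hA1n (by rw [← he1, h, zero_pow two_ne_zero, zero_mul])
  have hε2n : ε₂ ≠ 0 := fun h => hA2n (by rw [← he2, h, zero_pow two_ne_zero, zero_mul])
  have h3 : ∀ z : ZMod 2, z = 0 ∨ z = 1 := by decide
  have hs0 : (so 0 : Om k) = 1 := if_pos rfl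
  have hs1 : (so 1 : Om k) = -1 := if_neg one_ne_zero
  -- the case of equal signs
  have key0 : UV P (A₁ / A₂) → g₁ τ + g₂ τ = 0 := by
    intro hu
    rcases h3 (g₁ τ + g₂ τ) with h4 | h4
    · exact h4
    · exfalso
      have h5 : UV P (ε₁ / ε₂) := by
        refine UV.of_pow two_ne_zero ?_
        have e : (ε₁ / ε₂) ^ 2 = A₁ / A₂ := by
          rw [← he1, ← he2]
          field_simp
        rw [e]
        exact hu
      refine tpu_unit hT hP2 (hTε1.div hTε2) h5 ?_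
      rw [map_div₀, e1, e2]
      have h6 : (so (g₁ τ) : Om k) = -so (g₂ τ) := by
        have h7 : g₁ τ = 1 + g₂ τ := by
          have h8 : ∀ u v : ZMod 2, u + v = 1 → u = 1 + v := by decide
          exact h8 _ _ h4
        rw [h7, obn_so_mul, hs1, neg_one_mul]
      rw [h6]
      have h9 : (so (g₂ τ) : Om k) ≠ 0 := by
        intro h
        have := obn_so_sq (k := k) (g₂ τ)
        rw [h, mul_zero] at this
        exact zero_ne_one this
      have h10 : w ≠ 0 := hw.ne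
      field_simp
  have key1 : UV P (A₁ * A₂ / algebraMap k (Om k) (c : k)) → g₁ τ + g₂ τ = 1 := by
    intro hu
    rcases h3 (g₁ τ + g₂ τ) with h4 | h4
    · exfalso
      have h5 : UV P (ε₁ * ε₂) := by
        refine UV.of_pow two_ne_zero ?_
        have e : (ε₁ * ε₂) ^ 2 = A₁ * A₂ / algebraMap k (Om k) (c : k) := by
          rw [← he1, ← he2, ← h1.r2]
          field_simp
        rw [e]
        exact hu
      refine tpu_unit hT hP2 (hTε1.mul hTε2) h5 ?_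
      rw [map_mul, e1, e2]
      have h6 : (so (g₁ τ) : Om k) * so (g₂ τ) = 1 := by
        rw [← obn_so_mul, h4, hs0]
      calc w ^ 2 * so (g₁ τ) * ε₁ * (w ^ 2 * so (g₂ τ) * ε₂)
          = w ^ 4 * (so (g₁ τ) * so (g₂ τ)) * (ε₁ * ε₂) := by ring
        _ = -(ε₁ * ε₂) := by rw [h6, hw4]; ring
    · exact h4
  rcases hc1 with ⟨hA, hB⟩ | ⟨hA, hB⟩ <;> rcases hc2 with ⟨hA', hB'⟩ | ⟨hA', hB'⟩
  · rw [key0 (hA.div hA'), hs0, one_mul]
    have h5 := tpj_add (tpj_mul hB (hw.pow 2 |>.mul hu2').i) (tpj_mul hB' hu1.i)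
    have e : B₁ * (w ^ 2 * θ₂') + B₂ * θ₁ = θ₁' * θ₂' + θ₁ * θ₂ := by
      rw [hB1, hB2]
      linear_combination (-(θ₁' * θ₂')) * hw4
    rwa [e] at h5
  · have h6 : UV P (A₁ * A₂ / algebraMap k (Om k) (c : k)) := by
      have e : A₁ * A₂ / algebraMap k (Om k) (c : k) = A₁ / B₂ := by
        rw [← hp2]
        field_simp
      rw [e]
      exact hA.div hA'
    rw [key1 h6, hs1]
    have h5 := tpj_add (tpj_mul hB (hw.pow 2 |>.mul hu2').i) (tpj_neg (tpj_mul hB' hu1.i))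
    have e : B₁ * (w ^ 2 * θ₂') + -(A₂ * θ₁) = θ₁' * θ₂' + -1 * (θ₁ * θ₂) := by
      rw [hB1, hA2]
      linear_combination (-(θ₁' * θ₂')) * hw4
    rwa [e] at h5
  · have h6 : UV P (A₁ * A₂ / algebraMap k (Om k) (c : k)) := by
      have e : A₁ * A₂ / algebraMap k (Om k) (c : k) = A₂ / B₁ := by
        rw [← hp1]
        field_simp
      rw [e]
      exact hA'.div hA
    rw [key1 h6, hs1]
    have h5 := tpj_add (tpj_neg (tpj_mul hB ((hw.pow 2).mul hu2').i))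
      (tpj_neg (tpj_mul hB' hu1.i))
    have e : -(A₁ * (w ^ 2 * θ₂')) + -(B₂ * θ₁) = θ₁' * θ₂' + -1 * (θ₁ * θ₂) := by
      rw [hA1, hB2]
      linear_combination (-(θ₁' * θ₂')) * hw4
    rwa [e] at h5
  · have h6 : UV P (A₁ / A₂) := by
      have e : A₁ / A₂ = B₂ / B₁ := by
        rw [div_eq_div_iff hA2n hB1n, hp1, mul_comm, hp2]
      rw [e]
      exact hA'.div hA
    rw [key0 h6, hs0, one_mul]
    have h5 := tpj_add (tpj_neg (tpj_mul hB ((hw.pow 2).mul hu2').i)) (tpj_mul hB' hu1.i)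
    have e : -(A₁ * (w ^ 2 * θ₂')) + A₂ * θ₁ = θ₁' * θ₂' + θ₁ * θ₂ := by
      rw [hA1, hA2]
      linear_combination (-(θ₁' * θ₂')) * hw4
    rwa [e] at h5

/-- TP8: the values at the tame generator and the Frobenius element, odd positive exponent of
the trace -/
theorem spOd (k : Type) [Field k] [NumberField k] : SpOd k := by
  intro Fr Rk w r d c n₁ n₂ y₁ y₂ ρ₁ ρ₂ θ₁ θ₁' ε₁ θ₂ θ₂' ε₂ g₁ g₂ h1 h2 hy1 hy2 p hd hc hco
    hy1' hy2' hρ1 hρ2
  set P := Fr.pl p with hP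
  have hP2 : ord P (2 : k) = 0 := Fr.ord_pl_two p
  have hT : TF P (Rk.tau P) (Rk.phi P) := Rk.tf _ hP2
  have hcore := t8_core h1 h2 hP2 hd hc hco hy1 hy2 hy1' hy2' hT hρ1 hρ2
  obtain ⟨hu1, -, hm1, -⟩ := t8_ab h1 hP2 hd hc hy1 hy1'
  obtain ⟨hu2, -, hm2, -⟩ := t8_ab h2 hP2 hd hc hy2 hy2'
  set τ := Rk.tau P
  set φ := Rk.phi P
  have hyu1 : UV P (algebraMap k (Om k) y₁) := UV.base hy1 hy1'
  have hdu : UV P (Pool.Agent.H98.MF.sq (d : k)) :=
    UV.of_pow two_ne_zero (by rw [sq_sq]; exact UV.base d.ne_zero hd)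
  have hX : UV P (θ₁ * θ₂) := hu1.mul hu2
  set a : kˣ := Units.mk0 y₁ hy1 * Units.mk0 y₂ hy2 * d with ha
  have hav : (a : k) = y₁ * y₂ * d := rfl
  have hao : ord P (a : k) = 0 := by
    rw [hav, ord_mul P (mul_ne_zero hy1 hy2) d.ne_zero, ord_mul P hy1 hy2, hy1', hy2', hd]
    rfl
  have hXa : InM P ((θ₁ * θ₂) ^ 2 - algebraMap k (Om k) (a : k)) := by
    have h5 := tpj_add (tpj_mul hm1 (hu2.pow 2).i) (tpj_mul hm2 (hyu1.mul hdu).i)
    have e : (θ₁ ^ 2 - algebraMap k (Om k) y₁ * Pool.Agent.H98.MF.sq (d : k)) * θ₂ ^ 2 +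
        (θ₂ ^ 2 - algebraMap k (Om k) y₂ * Pool.Agent.H98.MF.sq (d : k)) *
          (algebraMap k (Om k) y₁ * Pool.Agent.H98.MF.sq (d : k)) =
        (θ₁ * θ₂) ^ 2 - algebraMap k (Om k) (a : k) := by
      have h6 : algebraMap k (Om k) (a : k) = algebraMap k (Om k) y₁ *
          algebraMap k (Om k) y₂ * Pool.Agent.H98.MF.sq (d : k) ^ 2 := by
        rw [hav, map_mul, map_mul, sq_sq]
      rw [h6]
      ring
    rwa [e] at h5
  have hR := t8_root hX a hao hXa hT.decφ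
  have hchi : chi (a : k) φ = qr y₁ P + qr y₂ P + qr (d : k) P := by
    rw [hav, ← (hT.chi0 y₁ hy1 (by rw [hy1']; exact Even.zero)).2,
      ← (hT.chi0 y₂ hy2 (by rw [hy2']; exact Even.zero)).2,
      ← (hT.chi0 (d : k) d.ne_zero (by rw [hd]; exact Even.zero)).2]
    rw [Pool.Agent.H98.MF.chi_mul (mul_ne_zero hy1 hy2) d.ne_zero,
      Pool.Agent.H98.MF.chi_mul hy1 hy2]
  have hqd : qr (d : k) P = chi (d : k) φ :=
    (hT.chi0 (d : k) d.ne_zero (by rw [hd]; exact Even.zero)).2.symm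
  have h3 : ∀ z : ZMod 2, z = 0 ∨ z = 1 := by decide
  have hs1 : (so 1 : Om k) = -1 := if_neg one_ne_zero
  rcases h3 (chi (d : k) φ) with h0 | h0
  · have e1 := h1.f0 φ h0
    have e2 := h2.f0 φ h0
    have h5 : InM P ((so (fS ρ₁ ρ₂ φ) - so (chi (a : k) φ)) * (θ₁ * θ₂)) := by
      have e : (so (fS ρ₁ ρ₂ φ) - so (chi (a : k) φ)) * (θ₁ * θ₂) =
          φ (θ₁ * θ₂) - so (chi (a : k) φ) * (θ₁ * θ₂) := by
        rw [map_mul, e1, e2]
        unfold fS
        rw [obn_so_mul]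
        ring
      rw [e]
      exact hR
    have h6 := t8_sg hP2 hX h5
    rw [h6, hchi, hqd, h0, zero_mul, add_zero, add_zero]
  · have e1 := h1.f1 φ h0
    have e2 := h2.f1 φ h0
    have h7 := tpj_mul hcore (t8_so_i (P := P) (fS ρ₁ ρ₂ φ))
    have h8 := tpj_add hR (tpj_neg h7)
    have h5 : InM P ((so (fS ρ₁ ρ₂ φ + (g₁ τ + g₂ τ)) - so (1 + chi (a : k) φ)) *
        (θ₁ * θ₂)) := by
      have e : (so (fS ρ₁ ρ₂ φ + (g₁ τ + g₂ τ)) - so (1 + chi (a : k) φ)) * (θ₁ * θ₂) =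
          -(φ (θ₁ * θ₂) - so (chi (a : k) φ) * (θ₁ * θ₂) +
          -((θ₁' * θ₂' + so (g₁ τ + g₂ τ) * (θ₁ * θ₂)) * so (fS ρ₁ ρ₂ φ))) := by
        rw [map_mul, e1, e2, obn_so_mul (fS ρ₁ ρ₂ φ), obn_so_mul 1, hs1]
        unfold fS
        rw [obn_so_mul (ρ₁ φ).pf]
        ring
      rw [e]
      exact tpj_neg h8
    have h6 := t8_sg hP2 hX h5
    rw [hqd, h0, one_mul, h6, hchi, hqd, h0]
    have h9 : ∀ u v : ZMod 2, 1 + (u + v + 1) = u + v := by decide
    exact h9 _ _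

end

end Pool.Agent.SK.TP
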