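import Pool.Agent.SK.Final
import Pool.Agent.SK.Malle
import Pool.Agent.SKT.Fin4
import Pool.Agent.D8.ARx

/-!
# Malle's conjecture for 8T8 over every number field
-/

set_option autoImplicit false

open scoped BigOperators
open NumberField IsDedekindDomain

namespace Pool.Agent.SK

open Pool.Agent.H98.MF
open Pool.Agent.H32.MA (T8)
open Pool.Agent.H32.MZ
open Pool.Agent.D8 (RxF)

/-- Malle's conjecture for 8T8 over every number field -/
theorem malle8 (k : Type) [Field k] [NumberField k] : MalleK k T8 := by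
  obtain ⟨Rk⟩ : Nonempty (RxF k) := Pool.Agent.D8.arx k
  exact malle_of (cY7 Rk.toRx (Pool.Agent.SKT.rxI Rk) fun L _ _ _ F X hM j hau hbig hj =>
    ⟨Pool.Agent.SKT.slc4 F Rk X hM j hau hbig hj, Pool.Agent.SKT.cjs F X hM⟩)

end Pool.Agent.SK
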