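import Pool.Agent.SK.AStm
import Pool.Agent.H98.MF.L.ChiB

/-!
# Malle's conjecture for 8T8 over number fields, row A2: the action on the field, fixed elements
-/

set_option autoImplicit false

open scoped BigOperators
open NumberField IsDedekindDomain

namespace Pool.Agent.SK

open Pool.Agent.H98.MF

section

variable {k : Type} [Field k] [NumberField k] {L : Type} [Field L] [NumberField L] [Algebra k L]

theorem act_sq (Q : QK k L) (j : L →ₐ[k] Om k) :
    (j Q.α) ^ 2 = algebraMap k (Om k) (Q.a : k) := by
  rw [← map_pow, Q.qe.sq, j.commutes]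

end

/-- **Row A2.** -/
theorem aAct {k : Type} [Field k] [NumberField k] {L : Type} [Field L] [NumberField L]
    [Algebra k L] (Q : QK k L) (j : L →ₐ[k] Om k) : AAct Q j := by
  intro σ b
  obtain ⟨x, y, rfl⟩ := Pool.Agent.H98.MF.B.qe_repr Q.qe b
  constructor
  · intro h
    have h1 := (chi_eq_zero_iff (act_sq Q j) σ).1 h
    rw [map_add, map_mul, j.commutes, j.commutes, map_add, map_mul, σ.commutes, σ.commutes, h1]
  · intro h
    have h1 := (chi_eq_one_iff Q.a.ne_zero (act_sq Q j) σ).1 h
    have h2 : Q.sig (algebraMap k L x + algebraMap k L y * Q.α) =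
        algebraMap k L x - algebraMap k L y * Q.α := by
      rw [map_add, map_mul, Q.sig.commutes, Q.sig.commutes, Q.sig_α]
      ring
    rw [h2, map_sub, map_add, map_mul, j.commutes, j.commutes, map_add, map_mul, σ.commutes,
      σ.commutes, h1]
    ring

/-- **Row A2.** -/
theorem aFix {k : Type} [Field k] [NumberField k] {L : Type} [Field L] [NumberField L]
    [Algebra k L] (Q : QK k L) (j : L →ₐ[k] Om k) : AFix Q j := by
  intro y hy
  have hg : IsGalois k (Om k) := om_galois
  have h1 : y ∈ IntermediateField.fixedField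
      (IntermediateField.adjoin k {j Q.α}).fixingSubgroup := by
    rintro ⟨σ, hσ⟩
    apply hy
    rw [chi_eq_zero_iff (act_sq Q j) σ]
    exact hσ ⟨j Q.α, IntermediateField.mem_adjoin_simple_self k _⟩
  rw [InfiniteGalois.fixedField_fixingSubgroup] at h1
  have h2 : IntermediateField.adjoin k {j Q.α} ≤ j.fieldRange := by
    rw [IntermediateField.adjoin_le_iff]
    rintro _ rfl
    exact ⟨Q.α, rfl⟩
  obtain ⟨b, hb⟩ := h2 h1
  exact ⟨b, hb.symm⟩

end Pool.Agent.SK
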