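import Pool.Agent.SK.AStm
import Pool.Agent.H98.MF.L.Top

/-!
# Malle's conjecture for 8T8 over number fields, block A, row A11: approximate square roots
(helper30)
-/

set_option autoImplicit false

open scoped BigOperators Pointwise
open NumberField IsDedekindDomain

namespace Pool.Agent.SK

open Pool.Agent.H98.MF

section

variable {k : Type} [Field k] [NumberField k]

private theorem apx_smul_coe (σ : Gm k) (x : 𝓞 (Om k)) :
    ((σ • x : 𝓞 (Om k)) : Om k) = σ (x : Om k) := rfl

private theorem apx_mem (P : HeightOneSpectrum (𝓞 k)) (σ : Gm k) (hσ : σ ∈ Dec P)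
    (x : 𝓞 (Om k)) : σ • x ∈ top P ↔ x ∈ top P := by
  have h0 : σ • top P = top P := hσ
  conv_lhs => rw [← h0]
  exact Ideal.smul_mem_pointwise_smul_iff

private theorem apx_int (s x : 𝓞 (Om k)) (y : Om k)
    (h : y ^ 2 + (s : Om k) * y = (s : Om k) * (x : Om k)) : IsIntegral ℤ y := by
  have h1 : IsIntegral (𝓞 (Om k)) y := by
    have hd : (Polynomial.X ^ 2 + Polynomial.C s * Polynomial.X - Polynomial.C (s * x) :
        Polynomial (𝓞 (Om k))).Monic := by
      monicity!
    refine ⟨_, hd, ?_⟩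
    have h2 : algebraMap (𝓞 (Om k)) (Om k) (s * x) = (s : Om k) * (x : Om k) := by
      rw [map_mul]
    have h3 : algebraMap (𝓞 (Om k)) (Om k) s = (s : Om k) := rfl
    rw [Polynomial.eval₂_sub, Polynomial.eval₂_add, Polynomial.eval₂_mul, Polynomial.eval₂_pow,
      Polynomial.eval₂_X, Polynomial.eval₂_C, Polynomial.eval₂_C, h2, h3, h, sub_self]
  exact isIntegral_trans (R := ℤ) (A := 𝓞 (Om k)) y h1

end

/-- **Row A11**: approximate square roots. -/
theorem aApx (k : Type) [Field k] [NumberField k] : AApx k := by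
  intro P
  have hp := top_prime P
  refine ⟨{θ : Om k | ∃ s x : 𝓞 (Om k), s ∉ top P ∧ x ∈ top P ∧
    (s : Om k) * (θ - 1) = 2 * (x : Om k)}, ?_, ?_, ?_⟩
  · rintro σ hσ θ ⟨s, x, hs, hx, h⟩
    refine ⟨σ • s, σ • x, fun hh => hs ((apx_mem P σ hσ s).1 hh), (apx_mem P σ hσ x).2 hx, ?_⟩
    rw [apx_smul_coe, apx_smul_coe, ← map_one σ, ← map_sub, ← map_mul, h, map_mul, map_ofNat]
  · rintro θ ⟨s, x, hs, hx, h⟩ ⟨t, y, ht, hy, h'⟩
    have h1 : s * t = -(t * x + s * y) := by
      apply RingOfIntegers.coe_injective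
      have h2 : (2 : Om k) ≠ 0 := two_ne_zero
      apply mul_left_cancel₀ h2
      simp only [map_mul, map_neg, map_add]
      linear_combination (-(t : Om k)) * h - (s : Om k) * h'
    have h2 : s * t ∈ top P := by
      rw [h1]
      exact (top P).neg_mem ((top P).add_mem ((top P).mul_mem_left _ hx)
        ((top P).mul_mem_left _ hy))
    rcases hp.mem_or_mem h2 with h3 | h3
    · exact hs h3
    · exact ht h3
  · rintro θ ⟨s, x, hs, hx, h⟩
    have h2 : (2 : Om k) ≠ 0 := two_ne_zero
    have hy : ((s : Om k) * (θ - 1) / 2) ^ 2 + (s : Om k) * ((s : Om k) * (θ - 1) / 2)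
        = (s : Om k) * (x : Om k) := by
      have h4 : (4 : Om k) ≠ 0 := by norm_num
      apply mul_left_cancel₀ h4
      have h5 : 4 * (((s : Om k) * (θ - 1) / 2) ^ 2 + (s : Om k) * ((s : Om k) * (θ - 1) / 2))
          = (s : Om k) * ((s : Om k) * (θ ^ 2 - 1)) := by
        field_simp
        ring
      rw [h5, h]
      ring
    obtain ⟨y, hy0⟩ : ∃ y : 𝓞 (Om k), (y : Om k) = (s : Om k) * (θ - 1) / 2 :=
      ⟨⟨_, apx_int s x _ hy⟩, rfl⟩
    rw [← hy0] at hy
    have h3 : y * (y + s) = s * x := by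
      apply RingOfIntegers.coe_injective
      simp only [map_mul, map_add]
      linear_combination hy
    have h4 : y * (y + s) ∈ top P := by
      rw [h3]
      exact (top P).mul_mem_left _ hx
    rcases hp.mem_or_mem h4 with h5 | h5
    · left
      refine ⟨s, y, hs, h5, ?_⟩
      rw [hy0]
      field_simp
    · right
      refine ⟨s, -(y + s), hs, (top P).neg_mem h5, ?_⟩
      have h6 : ((-(y + s) : 𝓞 (Om k)) : Om k) = -((y : Om k) + (s : Om k)) := by
        simp only [map_neg, map_add]
      rw [h6, hy0]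
      field_simp
      ring

end Pool.Agent.SK
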