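import Pool.Agent.H32.MQ.QfInst
import Pool.Agent.H32.MA.A0

/-!
# Malle's conjecture for 8T8 over number fields: homomorphisms to the semidihedral group of
order 16, basic definitions
-/

set_option autoImplicit false

open scoped BigOperators Topology
open Filter NumberField IsDedekindDomain

namespace Pool.Agent.SK

open Pool.Agent.H98.MF
open Pool.Agent.H32.MQ
open Pool.Agent.H32.MA (SD)

section

variable (k : Type) [Field k] [NumberField k]

/-- continuous surjective homomorphisms -/
def Hs : Set (Gm k →* SD) := {ρ | Function.Surjective ρ ∧ IsLocallyConstant ρ}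

variable {k}

/-- the norm of the relative discriminant of the octic field -/
noncomputable def dsc (ρ : Gm k →* SD) : ℕ := rdN (fld k (SD.H0.comap ρ))

/-- the size of a homomorphism -/
noncomputable def sz (ρ : Gm k →* SD) : ℝ := (dsc ρ : ℝ) ^ (1 / 3 : ℝ)

/-- the sum with exponential weight over a set of homomorphisms -/
noncomputable def LH (H : Set (Gm k →* SD)) (x : ℝ) : ℝ := ∑' ρ : H, Real.exp (-(sz ρ.1 / x))

/-- absolute convergence -/
def SmH (H : Set (Gm k →* SD)) : Prop :=
  ∀ x : ℝ, 0 < x → Summable fun ρ : H => Real.exp (-(sz ρ.1 / x))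

/-- type `1` or `C` at `P` -/
def tC (RL : Rx k) (ρ : Gm k →* SD) (P : HeightOneSpectrum (𝓞 k)) : Prop :=
  ρ (RL.tau P) = 1 ∨ SD.clC (ρ (RL.tau P))

/-- the homomorphisms with the other types exactly at `R`, outside the frame -/
def HR (Fr : Frm k) (RL : Rx k) (R : Finset Fr.sys.P) : Set (Gm k →* SD) :=
  {ρ | ρ ∈ Hs k ∧ ∀ p, p ∈ R ↔ ¬ tC RL ρ (Fr.pl p)}

/-- the homomorphisms over the quadratic extension of the class `c` -/
def HRc (Fr : Frm k) (RL : Rx k) (R : Finset Fr.sys.P) (c : El Fr.sys) : Set (Gm k →* SD) :=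
  {ρ | ρ ∈ HR Fr RL R ∧ ∀ σ, (ρ σ).pd = chi (rep Fr c : k) σ}

end

end Pool.Agent.SK
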