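import Pool.Agent.SK.QcI
import Pool.Agent.H32.MQ.XDefs
import Pool.Agent.H32.MQ.BOf
import Pool.Agent.H32.MA.A0
import Pool.Agent.SK.HDefs

/-!
# Malle's conjecture for 8T8 over number fields: homomorphisms to the semidihedral group of
order 16, definitions and statements of the assembly
-/

set_option autoImplicit false

open scoped BigOperators Topology
open Filter NumberField IsDedekindDomain

namespace Pool.Agent.SK

open Pool.Agent.H98.MF
open Pool.Agent.H32.MQ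
open Pool.Agent.H32.MA (SD)

/-! ### statements -/

section

variable {k : Type} [Field k] [NumberField k]

/-- A-U (block A): the bound by the main sums -/
def StAU (Fr : Frm k) (RL : Rx k) : Prop := ∀ (R : Finset Fr.sys.P) (C K : ℝ), 0 ≤ C → 1 ≤ K →
  (∀ (L : Type) [Field L] [NumberField L] [Algebra k L] (X : HX Fr L), X.M = R →
    (gdN (Qof X)).Lin K ∧ ∀ y : ℝ, 0 < y → TT (Qof X) (fun _ => 1) (fun _ => 1) y ≤ C * y) →
  SmH (HR Fr RL R) ∧ ∀ x : ℝ, 0 < x → LH (HR Fr RL R) x ≤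
    2 * 4 ^ (Fr.sys.m + R.card) * C * x / (Fr.sys.nm R : ℝ) ^ (4 / 3 : ℝ)

/-- finitely many ramified primes (block A) -/
def StFin (Fr : Frm k) (RL : Rx k) : Prop := ∀ ρ ∈ Hs k, {p | ¬ tC RL ρ (Fr.pl p)}.Finite

/-- the quadratic subfield (block A): the first bit is a nontrivial character, unramified
outside `R` and the frame -/
def StCl (Fr : Frm k) (RL : Rx k) : Prop := ∀ R : Finset Fr.sys.P, ∀ ρ ∈ HR Fr RL R,
  ∃ c : El Fr.sys, c ≠ (0, ∅) ∧ c.2 ⊆ R ∧ ρ ∈ HRc Fr RL R c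

/-- Y1: from the exponential weight to the number of homomorphisms -/
def StY1 (k : Type) [Field k] [NumberField k] : Prop := ∀ l : ℝ, SmH (Hs k) →
  Tendsto (fun x => LH (Hs k) x / x) atTop (𝓝 l) →
    Tendsto (fun X : ℝ => ({ρ : Gm k →* SD | ρ ∈ Hs k ∧ (dsc ρ : ℝ) ≤ X}.ncard : ℝ) /
      X ^ (1 / 3 : ℝ)) atTop (𝓝 l)

/-- Y2: dominated convergence -/
def StY2 (Fr : Frm k) (RL : Rx k) : Prop := ∀ B l : Finset Fr.sys.P → ℝ, Summable B →
  (∀ R, SmH (HR Fr RL R) ∧ ∀ x : ℝ, 0 < x → LH (HR Fr RL R) x ≤ B R * x) →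
  (∀ R, Tendsto (fun x => LH (HR Fr RL R) x / x) atTop (𝓝 (l R))) →
    SmH (Hs k) ∧ Summable l ∧ Tendsto (fun x => LH (Hs k) x / x) atTop (𝓝 (∑' R, l R))

/-- Y3: the uniform bound -/
def StY3 (Fr : Frm k) (RL : Rx k) : Prop := ∃ B : Finset Fr.sys.P → ℝ, Summable B ∧
  ∀ R, SmH (HR Fr RL R) ∧ ∀ x : ℝ, 0 < x → LH (HR Fr RL R) x ≤ B R * x

/-- Y4: the limit for a fixed quadratic extension -/
def StY4 (Fr : Frm k) (RL : Rx k) : Prop := ∀ (R : Finset Fr.sys.P) (c : El Fr.sys),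
  c ≠ (0, ∅) → c.2 ⊆ R → ∃ l : ℝ, 0 ≤ l ∧
    Tendsto (fun x => LH (HRc Fr RL R c) x / x) atTop (𝓝 l) ∧
    ((HRc Fr RL R c).Nonempty → 0 < l)

/-- Y5: the limit for fixed `R` -/
def StY5 (Fr : Frm k) (RL : Rx k) : Prop := ∀ R : Finset Fr.sys.P, ∃ l : ℝ, 0 ≤ l ∧
  Tendsto (fun x => LH (HR Fr RL R) x / x) atTop (𝓝 l) ∧ ((HR Fr RL R).Nonempty → 0 < l)

/-- Y6: existence of a homomorphism -/
def StEx (k : Type) [Field k] [NumberField k] : Prop := (Hs k).Nonempty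

/-- Y7: the asymptotic formula for the homomorphisms -/
def StY7 (k : Type) [Field k] [NumberField k] : Prop := ∃ l : ℝ, 0 < l ∧
  Tendsto (fun X : ℝ => ({ρ : Gm k →* SD | ρ ∈ Hs k ∧ (dsc ρ : ℝ) ≤ X}.ncard : ℝ) /
    X ^ (1 / 3 : ℝ)) atTop (𝓝 l)

end

end Pool.Agent.SK
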