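import Pool.Agent.SK.AStm
import Pool.Agent.SK.BDefs
import Pool.Agent.H98.MF.ParK

/-!
# Malle's conjecture for 8T8 over number fields, block A: the statements of the assembly
-/

set_option autoImplicit false

open scoped BigOperators
open NumberField IsDedekindDomain

namespace Pool.Agent.SK

open Pool.Agent.H98.MF
open Pool.Agent.H32.MA (SD)
open Pool.Agent.H32.MQ

section

variable {k : Type} [Field k] [NumberField k] (Fr : Frm k) (RL : Rx k)

theorem stAU_of (h : FUni RL Fr) : StAU Fr RL := by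
  intro R C K hC hK hall
  have key := h R C K hC (by linarith) (fun L _ _ _ X hX _ => hall L X hX)
  exact ⟨fun x hx => (key x hx).1, fun x hx => (key x hx).2⟩

theorem stFin_of (h : AFinR RL) : StFin Fr RL := by
  intro ρ hρ
  refine ((h ρ hρ.2).preimage Fr.pl_inj.injOn).subset fun p hp => ?_
  exact ⟨hb_two Fr p, fun h1 => hp (Or.inl h1)⟩

theorem abr_mul (g g' : SD) : (g * g').pd = g.pd + g'.pd := SD.pd_mul g g'

theorem abr_pd (g : SD) (h : g = 1 ∨ SD.clC g) : g.pd = 0 := by
  revert g; decide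

/-- the quadratic subfield -/
theorem stCl : StCl Fr RL := by
  intro R ρ hρ
  have hlc : IsLocallyConstant (fun σ : Gm k => (ρ σ).pd) := hρ.1.2.comp SD.pd
  obtain ⟨a, ha⟩ := ParK.exists_chi1 (fun σ => (ρ σ).pd) hlc (fun σ τ => by
    show (ρ (σ * τ)).pd = _
    rw [map_mul, SD.pd_mul])
  have hsq := h_co Fr a
  have hchi : ∀ σ : Gm k, chi (rep Fr (co Fr a) : k) σ = chi (a : k) σ := by
    intro σ
    obtain ⟨b, hb⟩ := hsq
    have h1 : chi ((a : k) * (rep Fr (co Fr a) : k)) σ = 0 := by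
      have h2 : (a : k) * (rep Fr (co Fr a) : k) = (b : k) ^ 2 := by
        rw [← Units.val_mul, hb, Units.val_mul, pow_two]
      rw [h2, chi_sq]
    rw [chi_mul a.ne_zero (Units.ne_zero _)] at h1
    have h3 : ∀ x y : ZMod 2, x + y = 0 → y = x := by decide
    exact h3 _ _ h1
  have hpd : ∀ σ : Gm k, (ρ σ).pd = chi (rep Fr (co Fr a) : k) σ := fun σ => by
    rw [hchi]
    exact ha σ
  refine ⟨co Fr a, ?_, ?_, hρ, hpd⟩
  · intro h0
    obtain ⟨σ, hσ⟩ := hρ.1.1 ⟨1, 0⟩
    have h1 := hpd σ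
    have h2 : rep Fr (co Fr a) = 1 := by
      rw [h0]
      unfold rep
      simp
    have h3 : chi (1 : k) σ = 0 := by
      have h4 := chi_sq (1 : k) σ
      rwa [one_pow] at h4
    rw [hσ, h2, Units.val_one, h3] at h1
    revert h1
    decide
  · intro p hp
    rw [hρ.2 p]
    intro ht
    have h1 := abr_pd _ ht
    have h2 := h_repO Fr (co Fr a) p
    rw [if_pos hp] at h2
    rw [hpd, RL.chi (Fr.pl p) (hb_two Fr p), h2] at h1
    revert h1
    decide

theorem stEx_of (h : AEx k) : StEx k := h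

end

end Pool.Agent.SK
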