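import Pool.Agent.SK.AStm

/-!
# Malle's conjecture for 8T8 over number fields, block A, row A28: the exponents of a class and
the classes of the tame generators (helper40)
-/

set_option autoImplicit false

open scoped BigOperators
open NumberField IsDedekindDomain

namespace Pool.Agent.SK

open Pool.Agent.H98.MF
open Pool.Agent.H32.MA (SD)
open Pool.Agent.H32.MQ (HX El Qof)

variable {k : Type} [Field k] [NumberField k] {Fr : Frm k} {L : Type} [Field L]
  [NumberField L] [Algebra k L]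

/-- a good set contains at most one prime above each prime -/
private theorem bse_gd (X : HX Fr L) (g : Finset X.PX) (hg : (Qof X).Gd g) (b b' : X.PX)
    (hb : b ∈ g) (hb' : b' ∈ g) (h : X.shX b = X.shX b') : b = b' := hg b hb b' hb' h

theorem aBsE (X : HX Fr L) : ABsE X := by
  classical
  intro g hg γ hγ
  have hγ' : ∀ Q : HeightOneSpectrum (𝓞 L), X.Out Q →
      (Odd (ord Q ((HX.out γ : Lˣ) : L)) ↔ ∃ b ∈ g, b.1 = Q) := hγ
  constructor
  · intro Q hQ
    constructor
    · exact (hγ' Q.1 Q.2.1).2 ⟨Q, hQ, rfl⟩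
    · rw [← Int.not_odd_iff_even, hγ' (X.cjX Q).1 (X.cjX Q).2.1]
      rintro ⟨b, hb, hbQ⟩
      have h1 : b = X.cjX Q := Subtype.ext hbQ
      have h2 : X.shX (X.cjX Q) = X.shX Q := X.shX_eq _ ((X.shX_over Q).cj X.sig)
      have h3 : X.cjX Q = Q := bse_gd X g hg _ _ (h1 ▸ hb) hQ h2
      exact Q.2.2 (congrArg Subtype.val h3)
  · intro p hp hps P' hP'
    rw [← Int.not_odd_iff_even, hγ' P' ⟨p, hp, hP'⟩]
    rintro ⟨b, hb, hbP⟩
    apply hps
    have h1 : X.shX b = p := X.shX_eq b (hbP ▸ hP')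
    have h2 : p ∈ g.image X.shX := Finset.mem_image.2 ⟨b, hb, h1⟩
    exact h2

private theorem bse_zz : ¬ SD.clC (SD.zz 1) := by decide

theorem aTy (R0 : Rx k) (X : HX Fr L) (j : L →ₐ[k] Om k) (hB : ABsE X) (hT : ATyp R0 X j) :
    ATy R0 X j := by
  classical
  intro g hg γ hγ ρ hρ p hp
  obtain ⟨hd, hcl⟩ := hρ
  obtain ⟨t1, t2, -⟩ := hT p hp (HX.out γ) ρ hcl
  obtain ⟨b1, b2⟩ := hB g hg γ hγ
  constructor
  · intro hps
    have h1 : p ∈ g.image X.shX := hps
    obtain ⟨Q, hQ, hQp⟩ := Finset.mem_image.1 h1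
    have hov : Over (Fr.pl p) Q.1 := hQp ▸ X.shX_over Q
    exact t2 Q.1 hov (b1 Q hQ).1 (b1 Q hQ).2
  · intro hps
    rcases t1 (b2 p hp hps) with h | h
    · exact h
    · rcases hd.2.2 p hp with h' | h'
      · exact h'
      · rw [h] at h'
        exact absurd h' bse_zz

end Pool.Agent.SK
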