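import Pool.Agent.SK.ACoc_a

/-!
# Malle's conjecture for 8T8 over number fields, A6: the explicit cochain
-/

set_option autoImplicit false

open scoped BigOperators
open NumberField IsDedekindDomain

namespace Pool.Agent.SK

open Pool.Agent.H98.MF
open Pool.Agent.H32.MA (bit3 pm p5)

section

variable {k : Type} [Field k] [NumberField k] {L : Type} [Field L] [NumberField L] [Algebra k L]

/-- the trace -/
theorem coc_tr (Q : QK k L) (z : L) :
    algebraMap k L (Algebra.trace k L z) = z + Q.sig z := by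
  classical
  have hL := Q.qe.deg
  have : Algebra.IsQuadraticExtension k L := { finrank_eq_two' := hL }
  have : FiniteDimensional k L := inferInstance
  rw [trace_eq_sum_automorphisms]
  have hne : (1 : L ≃ₐ[k] L) ≠ Q.sig := by
    intro h
    have h1 := Q.sig_α
    rw [← h] at h1
    have h2 : Q.α = -Q.α := h1
    have h3 : Q.α = 0 := self_eq_neg.1 h2
    have h4 := Q.qe.sq
    rw [h3, zero_pow two_ne_zero] at h4
    exact Q.a.ne_zero ((map_eq_zero (algebraMap k L)).1 h4.symm)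
  have hall : ∀ τ : L ≃ₐ[k] L, τ = 1 ∨ τ = Q.sig :=
    (Pool.Agent.H98.MF.B.qe_conj Q.qe).choose_spec.2.2.1
  have hu : (Finset.univ : Finset (L ≃ₐ[k] L)) = {1, Q.sig} := by
    ext τ
    simpa using hall τ
  rw [hu, Finset.sum_pair hne]
  rfl

/-! ### the element of order four -/

theorem coc_key (Q : QK k L) (j : L →ₐ[k] Om k) (b : Lˣ) (f : Gm k → ZMod 2)
    (hT : Algebra.trace k L (b : L) ≠ 0) (hf : Q.IsF j b f) :
    ∃ w ε : Om k, w ^ 4 = -1 ∧ ε ≠ 0 ∧ ∀ σ : Gm k, ∃ q : ZMod 8,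
      σ ε = coc_zp w q * coc_ep (chi (-1 : k) σ + chi ((QK.nr (k := k) b : kˣ) : k) σ + chi (Q.a : k) σ) ε ∧
      (q = coc_m (chi (Q.a : k) σ) (f σ + chi (Algebra.trace k L (b : L)) σ) (chi (-1 : k) σ + chi ((QK.nr (k := k) b : kˣ) : k) σ) ∨
       q = coc_m (chi (Q.a : k) σ) (f σ + chi (Algebra.trace k L (b : L)) σ) (chi (-1 : k) σ + chi ((QK.nr (k := k) b : kˣ) : k) σ) + 4) := by
  obtain ⟨θ, θ', hθ, hθ', h0, h1⟩ := hf
  obtain ⟨w, hw⟩ := IsAlgClosed.exists_pow_nat_eq (-1 : Om k) (n := 4) (by norm_num)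
  have hi2 : (w ^ 2) ^ 2 = algebraMap k (Om k) (-1) := by
    rw [map_neg, map_one, ← pow_mul]
    exact hw
  obtain ⟨r, hr2⟩ : ∃ r : Om k, r ^ 2 = algebraMap k (Om k) (Algebra.trace k L (b : L)) :=
    ⟨_, sq_sq (Algebra.trace k L (b : L))⟩
  set i : Om k := w ^ 2 with hi
  have hii : i * i = -1 := by
    have := hi2
    rw [map_neg, map_one] at this
    linear_combination this
  have hTO : algebraMap k (Om k) (Algebra.trace k L (b : L)) ≠ 0 := by
    rw [Ne, map_eq_zero]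
    exact hT
  have hr0 : r ≠ 0 := by
    intro h
    rw [h] at hr2
    apply hTO
    rw [← hr2]
    ring
  have hjk : ∀ c : k, algebraMap k (Om k) c = j (algebraMap k L c) := fun c =>
    (j.commutes c).symm
  have hprod0 : j (b : L) * j (Q.sig (b : L)) =
      algebraMap k (Om k) ((QK.nr (k := k) b : kˣ) : k) := by
    rw [hjk, ← map_mul]
    congr 1
    exact (Q.nm_eq (b : L)).symm
  have hjb : j (b : L) ≠ 0 := by
    rw [Ne, map_eq_zero]
    exact b.ne_zero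
  have hjb' : j (Q.sig (b : L)) ≠ 0 := by
    rw [Ne, map_eq_zero, map_eq_zero]
    exact b.ne_zero
  have hθ0 : θ ≠ 0 := by
    intro h
    rw [h] at hθ
    apply hjb
    rw [← hθ]
    ring
  have hθ'0 : θ' ≠ 0 := by
    intro h
    rw [h] at hθ'
    apply hjb'
    rw [← hθ']
    ring
  have hsum : θ ^ 2 + θ' ^ 2 = r ^ 2 := by
    rw [hθ, hθ', hr2, hjk, coc_tr Q, map_add]
  have hprod : (θ * θ') ^ 2 = algebraMap k (Om k) ((QK.nr (k := k) b : kˣ) : k) := by
    rw [mul_pow, hθ, hθ', hprod0]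
  have hmul : (θ + i * θ') * (θ - i * θ') = r ^ 2 := by
    linear_combination hsum - θ' ^ 2 * hii
  have hnum : θ + i * θ' ≠ 0 := by
    intro h
    rw [h, zero_mul] at hmul
    exact (pow_ne_zero 2 hr0) hmul.symm
  have hζ0 : (θ + i * θ') / r ≠ 0 := div_ne_zero hnum hr0
  have hζi : ((θ + i * θ') / r)⁻¹ = (θ - i * θ') / r := by
    apply inv_eq_of_mul_eq_one_right
    rw [div_mul_div_comm, hmul, pow_two, div_self (mul_ne_zero hr0 hr0)]
  have hep : ∀ y : ZMod 2, coc_ep y ((θ + i * θ') / r) = (θ + sgO y * (i * θ')) / r := by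
    intro y
    rcases coc_z2 y with rfl | rfl
    · rw [coc_ep_zero, coc_sg_zero, one_mul]
    · rw [coc_ep_one, hζi, coc_sg_one]
      ring
  obtain ⟨ε, hε⟩ := IsAlgClosed.exists_pow_nat_eq ((θ + i * θ') / r) (n := 2) two_pos
  have hε0 : ε ≠ 0 := by
    intro h
    rw [h] at hε
    apply hζ0
    rw [← hε]
    ring
  refine ⟨w, ε, hw, hε0, ?_⟩
  intro σ
  have hσi := coc_root (-1) (neg_ne_zero.2 one_ne_zero) i hi2 σ
  have hσr := coc_root (Algebra.trace k L (b : L)) hT r hr2 σ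
  have hσp := coc_root ((QK.nr (k := k) b : kˣ) : k) (QK.nr (k := k) b).ne_zero (θ * θ') hprod σ
  rw [map_mul] at hσp
  have hF := coc_sg_sq (k := k) (f σ)
  have hA1 := coc_sg_sq (k := k) (chi (-1 : k) σ)
  have hN1 := coc_sg_sq (k := k) (chi ((QK.nr (k := k) b : kˣ) : k) σ)
  have hT1 := coc_sg_sq (k := k) (chi (Algebra.trace k L (b : L)) σ)
  have hF0 := coc_sg_ne (k := k) (f σ)
  have hT0 := coc_sg_ne (k := k) (chi (Algebra.trace k L (b : L)) σ)
  have key : σ ((θ + i * θ') / r) =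
      coc_zp w (2 * coc_m (chi (Q.a : k) σ) (f σ + chi (Algebra.trace k L (b : L)) σ)
        (chi (-1 : k) σ + chi ((QK.nr (k := k) b : kˣ) : k) σ)) *
      coc_ep (chi (-1 : k) σ + chi ((QK.nr (k := k) b : kˣ) : k) σ + chi (Q.a : k) σ) ((θ + i * θ') / r) := by
    rw [map_div₀, map_add, map_mul, hσi, hσr, hep]
    rcases coc_z2 (chi (Q.a : k) σ) with hd | hd
    · have h2 := h0 σ hd
      have h3 : σ θ' = sgO (f σ) * sgO (chi ((QK.nr (k := k) b : kˣ) : k) σ) * θ' := by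
        rw [h2] at hσp
        apply mul_left_cancel₀ (mul_ne_zero hF0 hθ0)
        rw [hσp]
        linear_combination (-(sgO (chi ((QK.nr (k := k) b : kˣ) : k) σ) * θ * θ')) * hF
      rw [h2, h3, hd, coc_zm0 hw, add_zero, coc_sg_add, coc_sg_add]
      rw [div_eq_iff (mul_ne_zero hT0 hr0), coc_aux _ _ _ _ hr0]
      linear_combination (-(sgO (f σ) * (θ + sgO (chi (-1 : k) σ) * sgO (chi ((QK.nr (k := k) b : kˣ) : k) σ) *
        (i * θ')))) * hT1
    · have h2 := h1 σ hd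
      have h3 : σ θ' = sgO (f σ) * sgO (chi ((QK.nr (k := k) b : kˣ) : k) σ) * θ := by
        rw [h2] at hσp
        apply mul_left_cancel₀ (mul_ne_zero hF0 hθ'0)
        rw [hσp]
        linear_combination (-(sgO (chi ((QK.nr (k := k) b : kˣ) : k) σ) * θ * θ')) * hF
      rw [h2, h3, hd, coc_zm1 hw]
      simp only [coc_sg_add, coc_sg_one]
      rw [div_eq_iff (mul_ne_zero hT0 hr0), ← hi, coc_aux _ _ _ _ hr0]
      linear_combination (-(sgO (f σ) * (sgO (chi (-1 : k) σ) * sgO (chi ((QK.nr (k := k) b : kˣ) : k) σ) * i * θ -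
        (sgO (chi (-1 : k) σ) * sgO (chi ((QK.nr (k := k) b : kˣ) : k) σ)) ^ 2 * i ^ 2 * θ'))) * hT1 +
        sgO (f σ) * θ' * sgO (chi ((QK.nr (k := k) b : kˣ) : k) σ) ^ 2 * i ^ 2 * hA1 + sgO (f σ) * θ' * i ^ 2 * hN1 +
        sgO (f σ) * θ' * hii
  set m : ZMod 8 := coc_m (chi (Q.a : k) σ) (f σ + chi (Algebra.trace k L (b : L)) σ)
    (chi (-1 : k) σ + chi ((QK.nr (k := k) b : kˣ) : k) σ) with hm
  set u : ZMod 2 := chi (-1 : k) σ + chi ((QK.nr (k := k) b : kˣ) : k) σ + chi (Q.a : k) σ with hu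
  have hsq : (σ ε) ^ 2 = (coc_zp w m * coc_ep u ε) ^ 2 := by
    rw [← map_pow, hε, key, two_mul, coc_zp_add hw, ← hε, pow_two ε, coc_ep_mul]
    ring
  rcases sq_eq_sq_iff_eq_or_eq_neg.1 hsq with h | h
  · exact ⟨m, h, Or.inl rfl⟩
  · refine ⟨m + 4, ?_, Or.inr rfl⟩
    rw [h, coc_zp_add hw, coc_zp_four hw]
    ring

end

theorem aCoc {k : Type} [Field k] [NumberField k] {L : Type} [Field L] [NumberField L]
    [Algebra k L] (Q : QK k L) (j : L →ₐ[k] Om k) (_hA : AAct Q j) : ACoc Q j := by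
  intro b f hT hf
  obtain ⟨w, ε, hw, hε0, hk⟩ := coc_key Q j b f hT hf
  choose q hk1 hk2 using hk
  have hcoc : ∀ σ τ : Gm k, q (σ * τ) = pm (chi (-1 : k) σ) * p5 (chi (2 : k) σ) * q τ +
      pm (chi (-1 : k) τ + chi ((QK.nr (k := k) b : kˣ) : k) τ + chi (Q.a : k) τ) * q σ := by
    intro σ τ
    have h1 := hk1 (σ * τ)
    rw [AlgEquiv.mul_apply, hk1 τ, map_mul, coc_map_zp hw, coc_map_ep, hk1 σ, coc_ep_mul,
      coc_ep_zp hw, coc_ep_ep, ← mul_assoc, ← coc_zp_add hw] at h1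
    have h2 : chi (-1 : k) (σ * τ) + chi ((QK.nr (k := k) b : kˣ) : k) (σ * τ) + chi (Q.a : k) (σ * τ) =
        (chi (-1 : k) τ + chi ((QK.nr (k := k) b : kˣ) : k) τ + chi (Q.a : k) τ) +
          (chi (-1 : k) σ + chi ((QK.nr (k := k) b : kˣ) : k) σ + chi (Q.a : k) σ) := by
      rw [B.chi_hom, B.chi_hom, B.chi_hom]
      ring
    rw [h2] at h1
    exact (coc_zp_inj hw (mul_right_cancel₀ (coc_ep_ne _ hε0) h1)).symm
  set c : Gm k → ZMod 8 := fun σ =>
    -(pm (chi (-1 : k) σ + chi ((QK.nr (k := k) b : kˣ) : k) σ + chi (Q.a : k) σ) * q σ) with hc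
  have hbit : ∀ σ : Gm k, bit3 (chi (Q.a : k) σ) (f σ + chi (Algebra.trace k L (b : L)) σ) (coc_B (c σ)) = c σ :=
    fun σ => coc_bits _ _ _ _ (hk2 σ)
  refine ⟨fun σ => coc_B (c σ), ?_, ?_⟩
  · classical
    apply IsLocallyConstant.comp (f := c) _ coc_B
    apply B.loc_of_values {ε, Pool.Agent.H98.MF.sq (-1 : k), Pool.Agent.H98.MF.sq ((QK.nr (k := k) b : kˣ) : k),
      Pool.Agent.H98.MF.sq (Q.a : k)}
    intro σ τ h
    have h1 : σ ε = τ ε := h _ (by simp)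
    have h2 : chi (-1 : k) σ = chi (-1 : k) τ := by
      unfold chi
      rw [h (Pool.Agent.H98.MF.sq (-1 : k)) (by simp)]
    have h3 : chi ((QK.nr (k := k) b : kˣ) : k) σ = chi ((QK.nr (k := k) b : kˣ) : k) τ := by
      unfold chi
      rw [h (Pool.Agent.H98.MF.sq ((QK.nr (k := k) b : kˣ) : k)) (by simp)]
    have h4 : chi (Q.a : k) σ = chi (Q.a : k) τ := by
      unfold chi
      rw [h (Pool.Agent.H98.MF.sq (Q.a : k)) (by simp)]
    rw [hk1 σ, hk1 τ, h2, h3, h4] at h1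
    have h5 := coc_zp_inj hw (mul_right_cancel₀ (coc_ep_ne _ hε0) h1)
    simp only [hc, h2, h3, h4, h5]
  · intro σ τ
    rw [hbit, hbit, hbit]
    simp only [hc]
    rw [hcoc σ τ, B.chi_hom, B.chi_hom, B.chi_hom]
    simp only [coc_pm_add]
    have e1 := coc_pm_sq (chi (-1 : k) σ)
    have e2 := coc_pm_sq (chi (-1 : k) τ)
    have e3 := coc_pm_sq (chi ((QK.nr (k := k) b : kˣ) : k) τ)
    have e4 := coc_pm_sq (chi (Q.a : k) τ)
    linear_combination (-(pm (chi (-1 : k) τ) * pm (chi ((QK.nr (k := k) b : kˣ) : k) σ) * pm (chi ((QK.nr (k := k) b : kˣ) : k) τ) *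
      pm (chi (Q.a : k) σ) * pm (chi (Q.a : k) τ) * p5 (chi (2 : k) σ) * q τ)) *
        (coc_pm_sq (chi (-1 : k) σ)) -
      pm (chi (-1 : k) σ) * pm (chi ((QK.nr (k := k) b : kˣ) : k) σ) * pm (chi (Q.a : k) σ) * q σ *
        (pm (chi ((QK.nr (k := k) b : kˣ) : k) τ) ^ 2 * pm (chi (Q.a : k) τ) ^ 2 * e2 +
          pm (chi (Q.a : k) τ) ^ 2 * e3 + e4)

end Pool.Agent.SK
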