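import Pool.Agent.SK.AStm
import Pool.Agent.H98.MF.C.H0

/-!
# Malle's conjecture for 8T8 over number fields, A6: the explicit cochain, preparations
-/

set_option autoImplicit false
set_option linter.unusedSectionVars false

open scoped BigOperators
open NumberField IsDedekindDomain

namespace Pool.Agent.SK

open Pool.Agent.H98.MF
open Pool.Agent.H32.MA (bit3 pm p5)

section

variable {k : Type} [Field k] [NumberField k]

/-! ### signs -/

theorem coc_z2 (x : ZMod 2) : x = 0 ∨ x = 1 := by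
  revert x; decide

theorem coc_one_ne : (1 : ZMod 2) ≠ 0 := by decide

theorem coc_sg_zero : (sgO 0 : Om k) = 1 := by simp [sgO]

theorem coc_sg_one : (sgO 1 : Om k) = -1 := by simp [sgO]

theorem coc_sg_add (x y : ZMod 2) : (sgO (x + y) : Om k) = sgO x * sgO y := by
  have h2 : (1 : ZMod 2) + 1 = 0 := by decide
  rcases coc_z2 x with rfl | rfl <;> rcases coc_z2 y with rfl | rfl
  · simp [coc_sg_zero]
  · simp [coc_sg_zero]
  · simp [coc_sg_zero]
  · rw [h2, coc_sg_zero, coc_sg_one]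
    ring

theorem coc_sg_sq (x : ZMod 2) : (sgO x * sgO x : Om k) = 1 := by
  unfold sgO
  split_ifs <;> ring

theorem coc_sg_ne (x : ZMod 2) : (sgO x : Om k) ≠ 0 := by
  intro h
  have := coc_sg_sq (k := k) x
  rw [h] at this
  simp at this

theorem coc_root (q : k) (hq : q ≠ 0) (y : Om k) (hy : y ^ 2 = algebraMap k (Om k) q)
    (σ : Gm k) : σ y = sgO (chi q σ) * y := by
  rcases coc_z2 (chi q σ) with h1 | h1
  · have h2 := (B.chi_eq_zero_iff q y hy σ).1 h1
    rw [h1, h2, coc_sg_zero, one_mul]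
  · have h2 := (B.chi_eq_one_iff q hq y hy σ).1 h1
    rw [h1, h2, coc_sg_one, neg_one_mul]

/-! ### powers of an eighth root of unity -/

noncomputable def coc_zp (w : Om k) (x : ZMod 8) : Om k := w ^ x.val

theorem coc_pow8 {w : Om k} (hw : w ^ 4 = -1) : w ^ 8 = 1 := by
  rw [show (8 : ℕ) = 4 * 2 from rfl, pow_mul, hw]
  ring

theorem coc_zp_add {w : Om k} (hw : w ^ 4 = -1) (x y : ZMod 8) :
    coc_zp w (x + y) = coc_zp w x * coc_zp w y := by
  unfold coc_zp
  rw [ZMod.val_add, ← pow_eq_pow_mod _ (coc_pow8 hw), pow_add]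

theorem coc_zp_mul {w : Om k} (hw : w ^ 4 = -1) (x y : ZMod 8) :
    coc_zp w (x * y) = (coc_zp w x) ^ y.val := by
  unfold coc_zp
  rw [ZMod.val_mul, ← pow_eq_pow_mod _ (coc_pow8 hw), pow_mul]

theorem coc_zp_zero (w : Om k) : coc_zp w 0 = 1 := by
  unfold coc_zp
  rw [ZMod.val_zero, pow_zero]

theorem coc_v1 : (1 : ZMod 8).val = 1 := rfl
theorem coc_v2 : (2 : ZMod 8).val = 2 := rfl
theorem coc_v3 : (3 : ZMod 8).val = 3 := rfl
theorem coc_v4 : (4 : ZMod 8).val = 4 := rfl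
theorem coc_v5 : (5 : ZMod 8).val = 5 := rfl
theorem coc_v7 : (7 : ZMod 8).val = 7 := rfl

theorem coc_zp_one (w : Om k) : coc_zp w 1 = w := by
  unfold coc_zp
  rw [coc_v1, pow_one]

theorem coc_zp_two (w : Om k) : coc_zp w 2 = w ^ 2 := by
  unfold coc_zp
  rw [coc_v2]

theorem coc_zp_four {w : Om k} (hw : w ^ 4 = -1) : coc_zp w 4 = -1 := by
  unfold coc_zp
  rw [coc_v4, hw]

theorem coc_ne {w : Om k} (hw : w ^ 4 = -1) : w ≠ 0 := by
  intro h
  rw [h] at hw
  norm_num at hw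

theorem coc_zp_ne {w : Om k} (hw : w ^ 4 = -1) (x : ZMod 8) : coc_zp w x ≠ 0 :=
  pow_ne_zero _ (coc_ne hw)

theorem coc_zp_neg {w : Om k} (hw : w ^ 4 = -1) (x : ZMod 8) :
    coc_zp w (-x) = (coc_zp w x)⁻¹ := by
  apply eq_inv_of_mul_eq_one_left
  rw [← coc_zp_add hw, neg_add_cancel, coc_zp_zero]

theorem coc_zp_inj {w : Om k} (hw : w ^ 4 = -1) {x y : ZMod 8}
    (h : coc_zp w x = coc_zp w y) : x = y := by
  have h1 : orderOf w = 2 ^ (2 + 1) := by
    apply orderOf_eq_prime_pow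
    · rw [show (2 : ℕ) ^ 2 = 4 from rfl, hw]
      intro h3
      have h4 : (2 : Om k) = 0 := by linear_combination -h3
      exact two_ne_zero h4
    · rw [show (2 : ℕ) ^ (2 + 1) = 8 from rfl, coc_pow8 hw]
  have h2 : IsPrimitiveRoot w 8 := by
    have h3 := IsPrimitiveRoot.orderOf w
    rw [h1] at h3
    exact h3
  unfold coc_zp at h
  exact ZMod.val_injective 8 (h2.pow_inj (ZMod.val_lt x) (ZMod.val_lt y) h)

/-- the action on the root of unity -/
theorem coc_kap {w : Om k} (hw : w ^ 4 = -1) (σ : Gm k) :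
    σ w = coc_zp w (pm (chi (-1 : k) σ) * p5 (chi (2 : k) σ)) := by
  have hi : (w ^ 2) ^ 2 = algebraMap k (Om k) (-1) := by
    rw [map_neg, map_one, ← pow_mul]
    exact hw
  have hs : (w - w ^ 3) ^ 2 = algebraMap k (Om k) 2 := by
    rw [map_ofNat]
    linear_combination (w ^ 2 - 2) * hw
  have h1 := coc_root (-1) (by norm_num) _ hi σ
  have h2 := coc_root 2 (by norm_num) _ hs σ
  rw [map_pow] at h1
  rw [map_sub, map_pow] at h2
  set v := σ w with hv
  have hz : (2 : Om k) ≠ 0 := two_ne_zero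
  have h01 : pm (0 : ZMod 2) * p5 0 = 1 := by decide
  have h02 : pm (0 : ZMod 2) * p5 1 = 5 := by decide
  have h03 : pm (1 : ZMod 2) * p5 0 = 7 := by decide
  have h04 : pm (1 : ZMod 2) * p5 1 = 3 := by decide
  rcases coc_z2 (chi (-1 : k) σ) with e1 | e1 <;> rcases coc_z2 (chi (2 : k) σ) with e2 | e2 <;>
    rw [e1] at h1 ⊢ <;> rw [e2] at h2 ⊢
  · rw [coc_sg_zero] at h1 h2
    rw [h01]
    unfold coc_zp
    rw [coc_v1, pow_one]
    apply mul_left_cancel₀ hz
    linear_combination (1 + w ^ 2) * h2 + v * (1 + w ^ 2) * h1 + (v - w) * hw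
  · rw [coc_sg_zero] at h1
    rw [coc_sg_one] at h2
    rw [h02]
    unfold coc_zp
    rw [coc_v5]
    apply mul_left_cancel₀ hz
    linear_combination (1 + w ^ 2) * h2 + v * (1 + w ^ 2) * h1 + (v - w) * hw
  · rw [coc_sg_one] at h1
    rw [coc_sg_zero] at h2
    rw [h03]
    unfold coc_zp
    rw [coc_v7]
    apply mul_left_cancel₀ hz
    linear_combination (1 - w ^ 2) * h2 + v * (1 - w ^ 2) * h1 + (v + w - 2 * w ^ 3) * hw
  · rw [coc_sg_one] at h1 h2
    rw [h04]
    unfold coc_zp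
    rw [coc_v3]
    apply mul_left_cancel₀ hz
    linear_combination (1 - w ^ 2) * h2 + v * (1 - w ^ 2) * h1 + (v - w) * hw

/-- the action on the powers of the root of unity -/
theorem coc_map_zp {w : Om k} (hw : w ^ 4 = -1) (σ : Gm k) (x : ZMod 8) :
    σ (coc_zp w x) = coc_zp w (pm (chi (-1 : k) σ) * p5 (chi (2 : k) σ) * x) := by
  rw [coc_zp_mul hw, ← coc_kap hw σ, ← map_pow]
  rfl

/-! ### exponents `1` and `-1` -/

noncomputable def coc_ep (y : ZMod 2) (e : Om k) : Om k := if y = 0 then e else e⁻¹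

theorem coc_ep_zero (e : Om k) : coc_ep 0 e = e := by
  unfold coc_ep
  rw [if_pos rfl]

theorem coc_ep_one (e : Om k) : coc_ep 1 e = e⁻¹ := by
  unfold coc_ep
  rw [if_neg coc_one_ne]

theorem coc_ep_mul (y : ZMod 2) (e e' : Om k) :
    coc_ep y (e * e') = coc_ep y e * coc_ep y e' := by
  unfold coc_ep
  split_ifs
  · rfl
  · exact mul_inv e e'

theorem coc_ep_zp {w : Om k} (hw : w ^ 4 = -1) (y : ZMod 2) (x : ZMod 8) :
    coc_ep y (coc_zp w x) = coc_zp w (pm y * x) := by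
  have h0 : pm (0 : ZMod 2) = 1 := by decide
  have h1 : pm (1 : ZMod 2) = -1 := by decide
  rcases coc_z2 y with rfl | rfl
  · rw [coc_ep_zero, h0, one_mul]
  · rw [coc_ep_one, h1, neg_one_mul, coc_zp_neg hw]

theorem coc_ep_ep (y y' : ZMod 2) (e : Om k) :
    coc_ep y (coc_ep y' e) = coc_ep (y + y') e := by
  have h2 : (1 : ZMod 2) + 1 = 0 := by decide
  rcases coc_z2 y with rfl | rfl <;> rcases coc_z2 y' with rfl | rfl
  · rw [add_zero, coc_ep_zero]
  · rw [zero_add, coc_ep_zero]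
  · rw [add_zero, coc_ep_zero]
  · rw [h2, coc_ep_zero, coc_ep_one, coc_ep_one, inv_inv]

theorem coc_map_ep (σ : Gm k) (y : ZMod 2) (e : Om k) :
    σ (coc_ep y e) = coc_ep y (σ e) := by
  unfold coc_ep
  split_ifs
  · rfl
  · exact map_inv₀ σ e

theorem coc_ep_ne (y : ZMod 2) {e : Om k} (he : e ≠ 0) : coc_ep y e ≠ 0 := by
  unfold coc_ep
  split_ifs
  · exact he
  · exact inv_ne_zero he

/-! ### finite computations -/

/-- half of the exponent -/
def coc_m (x y z : ZMod 2) : ZMod 8 :=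
  if x = 0 then (if y = 0 then 0 else 2) else (if y + z = 0 then 1 else 3)

/-- the third bit -/
def coc_B (c : ZMod 8) : ZMod 2 := if c = 4 ∨ c = 5 ∨ c = 6 ∨ c = 7 then 1 else 0

theorem coc_bits : ∀ (x y z : ZMod 2) (q : ZMod 8), (q = coc_m x y z ∨
    q = coc_m x y z + 4) → bit3 x y (coc_B (-(pm (z + x) * q))) = -(pm (z + x) * q) := by
  decide

theorem coc_pm_add : ∀ x y : ZMod 2, pm (x + y) = pm x * pm y := by decide

theorem coc_pm_sq : ∀ x : ZMod 2, pm x * pm x = 1 := by decide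

theorem coc_zm0 {w : Om k} (hw : w ^ 4 = -1) (x z : ZMod 2) :
    coc_zp w (2 * coc_m 0 x z) = sgO x := by
  have h0 : coc_m 0 0 z = 0 := by revert z; decide
  have h1 : 2 * coc_m 0 1 z = 4 := by revert z; decide
  rcases coc_z2 x with rfl | rfl
  · rw [h0, mul_zero, coc_zp_zero, coc_sg_zero]
  · rw [h1, coc_zp_four hw, coc_sg_one]

theorem coc_zm1 {w : Om k} (hw : w ^ 4 = -1) (x z : ZMod 2) :
    coc_zp w (2 * coc_m 1 x z) = sgO (x + z) * w ^ 2 := by
  have h0 : x + z = 0 → 2 * coc_m 1 x z = 2 := by revert x z; decide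
  have h1 : x + z = 1 → 2 * coc_m 1 x z = 4 + 2 := by revert x z; decide
  rcases coc_z2 (x + z) with h | h
  · rw [h0 h, h, coc_zp_two, coc_sg_zero, one_mul]
  · rw [h1 h, h, coc_zp_add hw, coc_zp_four hw, coc_zp_two, coc_sg_one]

theorem coc_aux (a X T r : Om k) (hr : r ≠ 0) : a * (X / r) * (T * r) = a * X * T := by
  field_simp

end

end Pool.Agent.SK
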