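import Pool.Agent.SK.AStm
import Pool.Agent.H98.MF.L.ChiB
import Pool.Agent.H98.MF.C.Main
import Pool.Agent.H98.MF.C.Lin
import Pool.Agent.H98.MF.NNin

/-!
# Malle's conjecture for 8T8 over number fields, row A9: the criterion for lifts
-/

set_option autoImplicit false

open scoped BigOperators
open NumberField IsDedekindDomain

namespace Pool.Agent.SK

open Pool.Agent.H98.MF
open Pool.Agent.H32.MQ (HX)

private theorem crt_z2 {x y : ZMod 2} (h : x + y = 0) : x = y := by
  revert x y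
  decide

section

variable {k : Type} [Field k] [NumberField k] {L : Type} [Field L] [NumberField L] [Algebra k L]

/-- the symbol of an element with itself -/
theorem crt_self (v : Pl k) (T : kˣ) : hv v (T : k) (T : k) = hv v (T : k) ((-1 : kˣ) : k) := by
  have hl := Pool.Agent.H98.MF.B.lin k
  have h1 : hv v (T : k) ((-T : kˣ) : k) = 0 := hl.nm v T (-T) 0 1 (by push_cast; ring)
  have h2 : (-T : kˣ) = -1 * T := by rw [neg_mul, one_mul]
  rw [h2, hl.mulR] at h1
  exact (crt_z2 h1).symm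

/-- the sum of the three symbols -/
theorem crt_sum (v : Pl k) (a n T tw : kˣ) :
    hv v ((a * n : kˣ) : k) (T : k) + hv v (T : k) (T : k) +
      hv v ((tw * a * n : kˣ) : k) (a : k) =
      hv v (a : k) ((tw * a * n : kˣ) : k) + hv v (T : k) ((-(a * n) : kˣ) : k) := by
  have hl := Pool.Agent.H98.MF.B.lin k
  have h2 : (-(a * n) : kˣ) = a * n * -1 := by rw [mul_neg, mul_one]
  rw [crt_self, hl.symm v (a * n) T, hl.symm v (tw * a * n) a, h2, hl.mulR v T (a * n) (-1)]
  ring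

theorem crt_nr (b : Lˣ) : ((QK.nr (k := k) b : kˣ) : k) = Algebra.norm k (b : L) := rfl

/-- there is a multiple by a square with nonzero trace -/
theorem crt_tr (b : Lˣ) : ∃ z : Lˣ, Algebra.trace k L ((b * z ^ 2 : Lˣ) : L) ≠ 0 := by
  by_contra hn
  push Not at hn
  have h1 : ∀ z : L, Algebra.trace k L ((b : L) * z ^ 2) = 0 := by
    intro z
    by_cases hz : z = 0
    · rw [hz, zero_pow two_ne_zero, mul_zero, map_zero]
    · have h2 := hn (Units.mk0 z hz)
      simpa using h2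
  have h3 := h1 ((b : L)⁻¹ + 1)
  have h4 := h1 ((b : L)⁻¹ - 1)
  have h5 : (b : L) * ((b : L)⁻¹ + 1) ^ 2 - (b : L) * ((b : L)⁻¹ - 1) ^ 2 =
      algebraMap k L 4 := by
    have hb : (b : L) * (b : L)⁻¹ = 1 := mul_inv_cancel₀ b.ne_zero
    rw [map_ofNat]
    linear_combination 4 * hb
  have h6 := congrArg (Algebra.trace k L) h5
  rw [map_sub, h3, h4, sub_zero, Algebra.trace_algebraMap] at h6
  have h7 : 0 < Module.finrank k L := by
    have : FiniteDimensional ℚ L := inferInstance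
    have : FiniteDimensional k L := FiniteDimensional.right ℚ k L
    exact Module.finrank_pos
  rw [nsmul_eq_mul] at h6
  rcases mul_eq_zero.1 h6.symm with h8 | h8
  · exact h7.ne' (Nat.cast_eq_zero.1 h8)
  · norm_num at h8

theorem crt_chi (b z : Lˣ) (σ : Gm k) : chi ((QK.nr (k := k) (b * z ^ 2) : kˣ) : k) σ =
    chi ((QK.nr (k := k) b : kˣ) : k) σ := by
  have h1 : (QK.nr (k := k) (b * z ^ 2) : kˣ) = QK.nr (k := k) b * QK.nr (k := k) z ^ 2 := by
    unfold QK.nr HX.nrX
    rw [map_mul, map_pow]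
  rw [h1, Units.val_mul, Units.val_pow_eq_pow_val, chi_mul (Units.ne_zero _)
    (pow_ne_zero 2 (Units.ne_zero _)), chi_sq, add_zero]

theorem crt_hasL (Q : QK k L) (D : Subgroup (Gm k)) (b z : Lˣ) (f : Gm k → ZMod 2) :
    Q.HasL D (b * z ^ 2) f ↔ Q.HasL D b f := by
  unfold QK.HasL
  simp only [crt_chi]

/-- the elements of the criterion as units -/
theorem crt_fst (Q : QK k L) (b : Lˣ) (T : kˣ) :
    (fun i => ((![Q.a * QK.nr (k := k) b, T,
      Units.mk0 (2 : k) two_ne_zero * Q.a * QK.nr (k := k) b] : Fin 3 → kˣ) i : k)) =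
      (![(Q.a : k) * Algebra.norm k (b : L), (T : k),
        2 * (Q.a : k) * Algebra.norm k (b : L)] : Fin 3 → k) := by
  funext i
  fin_cases i
  · rfl
  · rfl
  · rfl

theorem crt_snd (Q : QK k L) (T : kˣ) :
    (fun i => ((![T, T, Q.a] : Fin 3 → kˣ) i : k)) =
      (![(T : k), (T : k), (Q.a : k)] : Fin 3 → k) := by
  funext i
  fin_cases i
  · rfl
  · rfl
  · rfl

/-- the local condition, if the trace is not zero -/
theorem crt_loc (Q : QK k L) (v : Pl k) (b : Lˣ) (T : kˣ)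
    (hT : (T : k) = Algebra.trace k L (b : L)) :
    Triv (DecP v) (![(Q.a : k) * Algebra.norm k (b : L), (T : k),
        2 * (Q.a : k) * Algebra.norm k (b : L)] : Fin 3 → k)
      (![(T : k), (T : k), (Q.a : k)] : Fin 3 → k) ↔ Q.kap v b = 0 := by
  have hl := Pool.Agent.H98.MF.B.lin k
  rw [← crt_fst Q b T, ← crt_snd Q T]
  have h1 : Triv (DecP v) (fun i => ((![Q.a * QK.nr (k := k) b, T,
      Units.mk0 (2 : k) two_ne_zero * Q.a * QK.nr (k := k) b] : Fin 3 → kˣ) i : k))
      (fun i => ((![T, T, Q.a] : Fin 3 → kˣ) i : k)) ↔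
      ∑ i, hv v ((![Q.a * QK.nr (k := k) b, T,
        Units.mk0 (2 : k) two_ne_zero * Q.a * QK.nr (k := k) b] : Fin 3 → kˣ) i : k)
        ((![T, T, Q.a] : Fin 3 → kˣ) i : k) = 0 := by
    rcases v with P | φ
    · exact hl.triv P _ _
    · exact hl.trivR φ _ _
  rw [h1, Fin.sum_univ_three]
  have h2 := crt_sum v Q.a (QK.nr (k := k) b) T (Units.mk0 (2 : k) two_ne_zero)
  have h3 : Q.kap v b = hv v (Q.a : k)
      ((Units.mk0 (2 : k) two_ne_zero * Q.a * QK.nr (k := k) b : kˣ) : k) +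
      hv v (T : k) ((-(Q.a * QK.nr (k := k) b) : kˣ) : k) := by
    unfold QK.kap
    rw [if_neg (by rw [← hT]; exact T.ne_zero), ← hT]
    rfl
  rw [h3, ← h2]
  rfl

end

/-- **Row A9.** The local criterion. -/
theorem aCritV {k : Type} [Field k] [NumberField k] {L : Type} [Field L] [NumberField L]
    [Algebra k L] (Q : QK k L) (j : L →ₐ[k] Om k) (hL : ALift Q j) (hS : AFSq Q j)
    (hK : AKSq Q) : ACritV Q j := by
  intro v b f hf
  obtain ⟨z, hz⟩ := crt_tr (k := k) b
  rw [← crt_hasL Q (DecP v) b z f, ← hK v b z, hL (DecP v) (b * z ^ 2) f hz (hS b z f hf)]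
  exact crt_loc Q v (b * z ^ 2) (Units.mk0 _ hz) rfl

/-- **Row A9.** The global criterion. -/
theorem aCrit {k : Type} [Field k] [NumberField k] {L : Type} [Field L] [NumberField L]
    [Algebra k L] (Q : QK k L) (j : L →ₐ[k] Om k) (hL : ALift Q j) (hS : AFSq Q j)
    (hK : AKSq Q) : ACrit Q j := by
  intro b f hf
  have hV := aCritV Q j hL hS hK
  constructor
  · rintro ⟨h, hlc, hh⟩ v
    exact (hV v b f hf).1 ⟨h, hlc, fun σ _ τ _ => hh σ trivial τ trivial⟩
  · intro hall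
    obtain ⟨z, hz⟩ := crt_tr (k := k) b
    rw [← crt_hasL Q ⊤ b z f, hL ⊤ (b * z ^ 2) f hz (hS b z f hf)]
    have h1 : ∀ v : Pl k, Triv (DecP v)
        (fun i => ((![Q.a * QK.nr (k := k) (b * z ^ 2), Units.mk0 _ hz,
          Units.mk0 (2 : k) two_ne_zero * Q.a * QK.nr (k := k) (b * z ^ 2)] :
            Fin 3 → kˣ) i : k))
        (fun i => ((![Units.mk0 _ hz, Units.mk0 _ hz, Q.a] : Fin 3 → kˣ) i : k)) := by
      intro v
      rw [crt_fst Q (b * z ^ 2) (Units.mk0 _ hz), crt_snd Q (Units.mk0 _ hz)]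
      exact (crt_loc Q v (b * z ^ 2) (Units.mk0 _ hz) rfl).2 (by rw [hK v b z]; exact hall v)
    have h2 := Pool.Agent.H98.MF.B.hpSt (nin k) 3 _ _ (fun P => h1 (Sum.inl P))
      (fun φ => h1 (Sum.inr φ))
    rw [crt_fst Q (b * z ^ 2) (Units.mk0 _ hz), crt_snd Q (Units.mk0 _ hz)] at h2
    exact h2

end Pool.Agent.SK
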