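import Pool.Agent.SK.LDefs
import Pool.Agent.H32.MQ.BFStm

/-!
# Malle's conjecture for 8T8 over number fields: the main sum of a quadratic extension
(definitions and statements of the uniform bound)
-/

set_option autoImplicit false

open scoped BigOperators Topology
open Filter

namespace Pool.Agent.SK

open Pool.Agent.H98.MK (sg)
open Pool.Agent.H98.MF
open Pool.Agent.H32.MQ (Qd Od El AlSt RepSt BFaSt BFbSt)

section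

variable {S : Sys} (Q : Qd S)

/-- the good sets with their norms -/
noncomputable def gdN : Nm where
  I := {g : Finset Q.P // Q.Gd g}
  n := fun g => Q.nq g.1
  one_le := fun g => by
    show 0 < ∏ p ∈ Q.shd g.1, S.N p
    exact Finset.prod_pos fun p _ => S.one_le_N p
  fin := fun N => by
    refine Set.Finite.of_finite_image (f := Subtype.val) ?_ Subtype.val_injective.injOn
    refine (Q.fin_gb N).subset ?_
    rintro _ ⟨g, hg, rfl⟩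
    exact ⟨g.2, by exact_mod_cast hg⟩

/-- the sign `(γ/e')`: the symbols of `γ` at the conjugates of the primes of `e` -/
noncomputable def sgc (γ : Q.G) (e : Finset Q.P) : ℝ := ((sg (∑ p ∈ e, Q.sy γ (Q.cj p)) : ℤ) : ℝ)

/-- the factor `∏ (1 + (γ/P'))` -/
noncomputable def prc (γ : Q.G) (g : Finset Q.P) : ℝ :=
  ∏ p ∈ g, (1 + ((sg (Q.sy γ (Q.cj p)) : ℤ) : ℝ))

open Classical in
/-- the kernel of a pair of good sets, with a weight -/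
noncomputable def GG (Θ : Q.G → ℝ) (e f : Finset Q.P) : ℝ :=
  if Disjoint (Q.shd e) (Q.shd f) then ∑ γ ∈ Q.B (e ∪ f), Θ γ * sgc Q γ e else 0

/-- the term of the main sum: weights `Θ` of the classes and `w` of the primes -/
noncomputable def tT (Θ : Q.G → ℝ) (w : Q.P → ℝ) (g : Finset Q.P) : ℝ :=
  (∏ p ∈ g, w p) * ∑ γ ∈ Q.B g, Θ γ * prc Q γ g

/-- the main sum -/
noncomputable def TT (Θ : Q.G → ℝ) (w : Q.P → ℝ) (x : ℝ) : ℝ :=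
  ∑' g : (gdN Q).I, tT Q Θ w g.1 * Real.exp (-((Q.nq g.1 : ℝ) / x))

/-- the sum over the pairs -/
noncomputable def PP (Θ : Q.G → ℝ) (w : Q.P → ℝ) (x : ℝ) : ℝ :=
  ∑' z : (gdN Q).I × (gdN Q).I, (∏ p ∈ z.1.1, w p) * (∏ p ∈ z.2.1, w p) * GG Q Θ z.1.1 z.2.1 *
    Real.exp (-((Q.nq z.1.1 : ℝ) * (Q.nq z.2.1 : ℝ) / x))

end

/-- G1: the main sum is a sum over pairs -/
def SG1 : Prop := ∀ (S : Sys) (Q : Qd S) (Θ : Q.G → ℝ) (A K : ℝ) (w : Q.P → ℝ),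
  (∀ γ, |Θ γ| ≤ A) → (∀ p, |w p| ≤ 1) → 0 ≤ K → (gdN Q).Lin K → ∀ x : ℝ, 0 < x →
    (Summable fun g : (gdN Q).I => tT Q Θ w g.1 * Real.exp (-((Q.nq g.1 : ℝ) / x))) ∧
    (Summable fun z : (gdN Q).I × (gdN Q).I => (∏ p ∈ z.1.1, w p) * (∏ p ∈ z.2.1, w p) *
      GG Q Θ z.1.1 z.2.1 * Real.exp (-((Q.nq z.1.1 : ℝ) * (Q.nq z.2.1 : ℝ) / x))) ∧
    TT Q Θ w x = PP Q Θ w x

/-- G2: the kernel is bounded -/
def SG2 : Prop := ∀ (S : Sys) (Q : Qd S) (Θ : Q.G → ℝ) (A : ℝ), 0 ≤ A → (∀ γ, |Θ γ| ≤ A) →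
  ∀ e f : Finset Q.P, |GG Q Θ e f| ≤ A * 4 ^ (S.m + Q.M.card)

/-- G3: the bilinear estimate for the kernel without weight -/
def SG3 : Prop := ∀ (S : Sys) (n B : ℕ), 1 ≤ n → ∃ C : ℝ, 0 < C ∧
  ∀ (Q : Qd S) (c K : ℕ), 1 ≤ c → 1 ≤ K → Od Q n c B K →
    Bil (gdN Q) (gdN Q) (fun e f => GG Q (fun _ => 1) e.1 f.1)
      (C * (K : ℝ) ^ 4 * (c : ℝ) ^ (n + 3) * 4 ^ (S.m + Q.M.card)) (1 / (24 * n : ℝ))

/-- G4: the number of exceptional primes -/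
def SG4 : Prop := ∀ (S : Sys) (b : ℝ), 1 ≤ b → ∀ ε : ℝ, 0 < ε → ∃ C : ℝ, 0 < C ∧
  ∀ x : Finset S.P, b ^ x.card ≤ C * (S.nm x : ℝ) ^ ε

/-- G5: the uniform bound -/
def SG5 : Prop := ∀ (S : Sys) (n B : ℕ), 1 ≤ n → ∀ (C0 A0 : ℕ) (ε : ℝ), 0 < ε →
  ∃ C : ℝ, 0 < C ∧ ∀ (Q : Qd S) (c K : ℕ), 1 ≤ c → 1 ≤ K → c ≤ C0 * S.nm Q.M ^ A0 →
    K ≤ C0 * S.nm Q.M ^ A0 → Od Q n c B K → ∀ K1 : ℝ, 1 ≤ K1 → (gdN Q).Lin K1 →
      ∀ x : ℝ, 0 < x → TT Q (fun _ => 1) (fun _ => 1) x ≤ C * K1 ^ 2 * (S.nm Q.M : ℝ) ^ ε * x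

end Pool.Agent.SK
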