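import Pool.Agent.H32.MA.A0
import Pool.Agent.H32.MQ.QfInst
import Pool.Agent.SK.GDefs
import Pool.Agent.SK.HDefs

/-!
# Malle's conjecture for 8T8 over number fields, block A: definitions

Homomorphisms of the absolute Galois group of a number field `k` to the semidihedral group of
order 16, the quadratic functions attached to elements of a quadratic extension, obstructions,
twists, and the sums over the twists.
-/

set_option autoImplicit false

open scoped BigOperators
open NumberField IsDedekindDomain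

namespace Pool.Agent.SK

open Pool.Agent.H98.MF
open Pool.Agent.H98.MK (sg)
open Pool.Agent.H98.ML (norb hind)
open Pool.Agent.H32.MA (SD bit3 pm p5 pw)
open Pool.Agent.H32.MQ (HX El Qof rep co lrp)

/-! ### the group -/

/-- the maps `b ↦ u b` -/
def au (u : ZMod 8) : SD →* SD where
  toFun g := ⟨u * g.b, g.a⟩
  map_one' := by
    apply SD.ext
    · exact mul_zero u
    · rfl
  map_mul' x y := by
    apply SD.ext
    · show u * (x.b + pw x.a * y.b) = u * x.b + pw x.a * (u * y.b)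
      ring
    · rfl

theorem au_a (u : ZMod 8) (g : SD) : (au u g).a = g.a := rfl

theorem au_pd (u : ZMod 8) (g : SD) (hu : u * u = 1) : (au u g).pd = g.pd := by
  revert u g; decide

theorem au_au (u : ZMod 8) (g : SD) (hu : u * u = 1) : au u (au u g) = g := by
  revert u g; decide

theorem au_mul (u v : ZMod 8) (g : SD) : au u (au v g) = au (u * v) g := by
  revert u v g; decide

theorem au_zz (u : ZMod 8) (x : ZMod 2) (hu : u * u = 1) : au u (SD.zz x) = SD.zz x := by
  revert u x; decide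

theorem au_C (u : ZMod 8) (g : SD) (hu : u * u = 1) : SD.clC (au u g) ↔ SD.clC g := by
  revert u g; decide

theorem au_H0 (u : ZMod 8) (g : SD) (hu : u * u = 1) : (au u g).b = 0 ↔ g.b = 0 := by
  revert u g; decide

theorem au_one (g : SD) : au 1 g = g := by
  revert g; decide

theorem au_three_pf (g : SD) : (au 3 g).pf = g.pf + g.pd := by
  revert g; decide

theorem au_three (g : SD) : au 3 g = SD.ss * g * SD.ss⁻¹ := by
  revert g; decide

theorem au_five (g : SD) : au 5 g = g * SD.zz g.pd := by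
  revert g; decide

/-- the element with given bits -/
def sdO (d n f h : ZMod 2) : SD := ⟨bit3 d f h, d + n⟩

theorem sdO_pd (d n f h : ZMod 2) : (sdO d n f h).pd = d := by
  revert d n f h; decide

theorem sdO_a (d n f h : ZMod 2) : (sdO d n f h).a = d + n := rfl

theorem sdO_pf (d n f h : ZMod 2) : (sdO d n f h).pf = f := by
  revert d n f h; decide

theorem sdO_ph (d n f h : ZMod 2) : (sdO d n f h).ph = h := by
  revert d n f h; decide

/-! ### homomorphisms -/

section

variable {k : Type} [Field k] [NumberField k]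

/-- `1` or `-1` -/
noncomputable def sgO (x : ZMod 2) : Om k := if x = 0 then 1 else -1

/-- the norm of the relative discriminant of the octic field -/
noncomputable def dS (ρ : Gm k →* SD) : ℕ := rdN (fld k (SD.H0.comap ρ))

/-- the twist by a quadratic character -/
noncomputable def twS (ρ : Gm k →* SD) (c : kˣ) : Gm k →* SD :=
  MonoidHom.mk' (fun σ => ρ σ * SD.zz (chi (c : k) σ)) (fun σ τ => by
    rw [map_mul, chi_hom (c : k) σ τ, SD.zz_add]
    calc ρ σ * ρ τ * (SD.zz (chi (c : k) σ) * SD.zz (chi (c : k) τ))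
        = ρ σ * (ρ τ * SD.zz (chi (c : k) σ)) * SD.zz (chi (c : k) τ) := by
          simp only [mul_assoc]
      _ = ρ σ * (SD.zz (chi (c : k) σ) * ρ τ) * SD.zz (chi (c : k) τ) := by rw [SD.zz_comm]
      _ = ρ σ * SD.zz (chi (c : k) σ) * (ρ τ * SD.zz (chi (c : k) τ)) := by
          simp only [mul_assoc])

theorem twS_apply (ρ : Gm k →* SD) (c : kˣ) (σ : Gm k) :
    twS ρ c σ = ρ σ * SD.zz (chi (c : k) σ) := rfl

/-- the conjugate by `x ↦ 3 x` -/
noncomputable def cjS (ρ : Gm k →* SD) : Gm k →* SD := (au 3).comp ρ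

omit [NumberField k] in
theorem cjS_apply (ρ : Gm k →* SD) (σ : Gm k) : cjS ρ σ = au 3 (ρ σ) := rfl

/-- the tame generators act trivially modulo the prime, on extensions of two-power degree -/
def RxI (R : Rx k) : Prop := ∀ P : HeightOneSpectrum (𝓞 k), ord P (2 : k) = 0 →
  ∀ (U : Subgroup (Gm k)) [U.Normal], IsOpen (U : Set (Gm k)) → (∃ j, U.index = 2 ^ j) →
    ∀ x : 𝓞 (Om k), (∀ σ ∈ U, σ (x : Om k) = (x : Om k)) →
      ∃ y ∈ top P, ((y : 𝓞 (Om k)) : Om k) = R.tau P (x : Om k) - (x : Om k)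

/-- the homomorphisms such that the tame generators outside `S` and `R` have classes `1` or `C`,
and those at `R` do not -/
def HsR (R0 : Rx k) (Fr : Frm k) (R : Finset Fr.sys.P) : Set (Gm k →* SD) :=
  {ρ | ρ ∈ Hs k ∧ ∀ p : Fr.sys.P, p ∈ R ↔
    ¬ (ρ (R0.tau (Fr.pl p)) = 1 ∨ SD.clC (ρ (R0.tau (Fr.pl p))))}

/-- equality at the places of `S` up to the automorphisms `b ↦ u b` -/
def EqS (Fr : Frm k) (ρ ρ' : Gm k →* SD) : Prop := ∀ v ∈ pls Fr.S,
  ∃ u : ZMod 8, u * u = 1 ∧ ∀ σ ∈ DecP v, ρ' σ = au u (ρ σ)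

/-- functions of the restrictions to the places of `S` -/
def SLoc (Fr : Frm k) (w : (Gm k →* SD) → ℝ) : Prop := ∀ ρ ∈ Hs k, ∀ ρ' ∈ Hs k,
  EqS Fr ρ ρ' → w ρ = w ρ'

/-- the part of the discriminant at `S` -/
noncomputable def qS (R0 : Rx k) (Fr : Frm k) (ρ : Gm k →* SD) : ℕ :=
  ∏ P ∈ Fr.S, nrm P ^ R0.rex P (SD.H0.comap ρ)

end

/-! ### quadratic extensions -/

/-- a quadratic extension -/
structure QK (k L : Type) [Field k] [NumberField k] [Field L] [NumberField L] [Algebra k L] where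
  a : kˣ
  α : L
  qe : QE a α

section

variable {k : Type} [Field k] [NumberField k] {L : Type} [Field L] [NumberField L] [Algebra k L]

namespace QK

variable (Q : QK k L)

/-- the conjugation -/
noncomputable def sig : L ≃ₐ[k] L := (Pool.Agent.H98.MF.B.qe_conj Q.qe).choose

theorem sig_α : Q.sig Q.α = -Q.α := (Pool.Agent.H98.MF.B.qe_conj Q.qe).choose_spec.1

theorem sig_sig (z : L) : Q.sig (Q.sig z) = z :=
  (Pool.Agent.H98.MF.B.qe_conj Q.qe).choose_spec.2.1 z

theorem nm_eq (z : L) : algebraMap k L (Algebra.norm k z) = z * Q.sig z :=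
  (Pool.Agent.H98.MF.B.qe_conj Q.qe).choose_spec.2.2.2 z

/-- the norm of a unit -/
noncomputable abbrev nr (b : Lˣ) : kˣ := HX.nrX (k := k) b

/-- the action on a square root of `b` -/
def IsF (j : L →ₐ[k] Om k) (b : Lˣ) (f : Gm k → ZMod 2) : Prop :=
  ∃ θ θ' : Om k, θ ^ 2 = j (b : L) ∧ θ' ^ 2 = j (Q.sig (b : L)) ∧
    (∀ σ : Gm k, chi (Q.a : k) σ = 0 → σ θ = sgO (f σ) * θ) ∧
    (∀ σ : Gm k, chi (Q.a : k) σ = 1 → σ θ = sgO (f σ) * θ')

/-- the homomorphisms attached to `b` -/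
structure Cl (j : L →ₐ[k] Om k) (b : Lˣ) (ρ : Gm k →* SD) : Prop where
  lc : IsLocallyConstant ρ
  pd : ∀ σ, (ρ σ).pd = chi (Q.a : k) σ
  pf : Q.IsF j b (fun σ => (ρ σ).pf)

open Classical in
/-- the obstruction at a place -/
noncomputable def kap (v : Pl k) (b : Lˣ) : ZMod 2 :=
  hv v (Q.a : k) (2 * (Q.a : k) * Algebra.norm k (b : L)) +
    if Algebra.trace k L (b : L) = 0 then 0
    else hv v (Algebra.trace k L (b : L)) (-((Q.a : k) * Algebra.norm k (b : L)))

/-- there is a lift on the subgroup `D` -/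
def HasL (D : Subgroup (Gm k)) (b : Lˣ) (f : Gm k → ZMod 2) : Prop :=
  ∃ h : Gm k → ZMod 2, IsLocallyConstant h ∧ ∀ σ ∈ D, ∀ τ ∈ D,
    sdO (chi (Q.a : k) (σ * τ)) (chi ((nr (k := k) b : kˣ) : k) (σ * τ)) (f (σ * τ)) (h (σ * τ)) =
      sdO (chi (Q.a : k) σ) (chi ((nr (k := k) b : kˣ) : k) σ) (f σ) (h σ) *
      sdO (chi (Q.a : k) τ) (chi ((nr (k := k) b : kˣ) : k) τ) (f τ) (h τ)

end QK

end

/-! ### frames -/

section

variable {k : Type} [Field k] [NumberField k] {Fr : Frm k} {L : Type} [Field L]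
  [NumberField L] [Algebra k L]

/-- the quadratic extension of the data of block H -/
def qk (X : HX Fr L) : QK k L := ⟨X.a, X.α, X.qe⟩

theorem qk_sig (X : HX Fr L) : (qk X).sig = X.sig := rfl

theorem qk_a (X : HX Fr L) : (qk X).a = X.a := rfl

variable (R0 : Rx k) (X : HX Fr L) (j : L →ₐ[k] Om k)

/-- the homomorphisms over `L` such that the tame generators outside `S` and `M` have classes
`1` or `C` -/
def Hd : Set (Gm k →* SD) := {ρ | ρ ∈ Hs k ∧ (∀ σ, (ρ σ).pd = chi (X.a : k) σ) ∧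
  ∀ p, p ∉ X.M → ρ (R0.tau (Fr.pl p)) = 1 ∨ SD.clC (ρ (R0.tau (Fr.pl p)))}

/-- those attached to a class -/
def Hc (γ : HX.GX L) : Set (Gm k →* SD) := {ρ | ρ ∈ Hd R0 X ∧ (qk X).Cl j (HX.out γ) ρ}

/-- those attached to the classes of a set -/
def Hg (g : Finset X.PX) : Set (Gm k →* SD) := {ρ | ∃ γ ∈ X.Bs g, ρ ∈ Hc R0 X j γ}

/-- the sum over the twists at `S` with a character -/
noncomputable def twi (w : (Gm k →* SD) → ℝ) (b : Fr.sys.T) (ρ : Gm k →* SD) : ℝ :=
  ∑ c : Fr.sys.T × Fr.sys.T, ((sg (b ⬝ᵥ c.2) : ℤ) : ℝ) * w (twS ρ (lrp Fr c.1 c.2))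

open Classical in
/-- the Fourier coefficients -/
noncomputable def tauW (w : (Gm k →* SD) → ℝ) (b : Fr.sys.T) (γ : HX.GX L) : ℝ :=
  if h : ∃ ρ, ρ ∈ Hc R0 X j γ then twi w b h.choose else 0

/-- unit coordinates and type of a class -/
noncomputable def coL (FL : Frm L) (γ : HX.GX L) : FL.sys.T × FL.sys.T :=
  Pool.Agent.H32.MQ.coX FL γ

open Classical in
/-- the local factor as a function of the local classes -/
noncomputable def thW (FL : Frm L) (w : (Gm k →* SD) → ℝ) (z : FL.sys.T × FL.sys.T) : ℝ :=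
  if h : ∃ ρ, ∃ g γ, (Qof X).Gd g ∧ γ ∈ X.Bs g ∧ coL FL γ = z ∧ ρ ∈ Hc R0 X j γ
  then twi w (0 : Fr.sys.T) h.choose else 0

open Classical in
/-- the sum of the obstructions as a function of the local classes -/
noncomputable def hsW (FL : Frm L) (z : FL.sys.T × FL.sys.T) : ZMod 2 :=
  if h : ∃ γ, ∃ g, (Qof X).Gd g ∧ γ ∈ X.Bs g ∧ coL FL γ = z
  then ∑ v ∈ pls Fr.S, (qk X).kap v (HX.out h.choose) else 0

end

end Pool.Agent.SK
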