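import Pool.Agent.SK.AStm
import Pool.Agent.H32.MA.AHind
import Pool.Agent.H98.MF.C.Cheb

/-!
# Malle's conjecture for 8T8 over number fields, row A33: the discriminants
-/

set_option autoImplicit false

open scoped BigOperators
open NumberField IsDedekindDomain

namespace Pool.Agent.SK

open Pool.Agent.H98.MF
open Pool.Agent.H98.ML (norb hind)
open Pool.Agent.H32.MA (SD saHind)
open Pool.Agent.H32.MQ (HX Qof)

private theorem ads_one : hind SD.H0 (1 : SD) = 0 := by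
  rw [saHind, if_pos rfl]

private theorem ads_C (g : SD) (h : SD.clC g) : hind SD.H0 g = 3 := by
  rw [saHind]
  split_ifs with h1
  · subst h1
    exact absurd h (by decide)
  · rfl

private theorem ads_ge (g : SD) (h1 : g ≠ 1) (h2 : ¬ SD.clC g) : 4 ≤ hind SD.H0 g := by
  rw [saHind, if_neg h1, if_neg h2]
  split_ifs <;> norm_num

section

variable {k : Type} [Field k] [NumberField k] {Fr : Frm k}

omit [NumberField k] in
private theorem ads_open (ρ : Gm k →* SD) (h : IsLocallyConstant ρ) :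
    IsOpen ((SD.H0.comap ρ : Subgroup (Gm k)) : Set (Gm k)) := h (SD.H0 : Set SD)

private theorem ads_prod (R0 : Rx k) (hr : ARex R0) (ρ : Gm k →* SD) (hρ : ρ ∈ Hs k)
    (R : Finset Fr.sys.P) (h1 : ∀ p, p ∉ R → ρ (R0.tau (Fr.pl p)) = 1) :
    dS ρ = qS R0 Fr ρ * ∏ p ∈ R, Fr.sys.N p ^ hind SD.H0 (ρ (R0.tau (Fr.pl p))) := by
  classical
  have h2 : ∀ q : Fr.sys.P, ord (Fr.pl q) (2 : k) = 0 := fun q =>
    Pool.Agent.H32.MQ.hb_two Fr q
  unfold dS qS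
  rw [R0.prod _ (ads_open ρ hρ.2), finprod_eq_prod_of_mulSupport_subset
    (s := Fr.S ∪ R.map ⟨Fr.pl, Fr.pl_inj⟩)]
  · have hdis : Disjoint Fr.S (R.map ⟨Fr.pl, Fr.pl_inj⟩) := by
      rw [Finset.disjoint_left]
      intro P hP hP'
      obtain ⟨q, -, rfl⟩ := Finset.mem_map.1 hP'
      exact (Fr.pl_iff _).1 ⟨q, rfl⟩ hP
    rw [Finset.prod_union hdis, Finset.prod_map]
    refine congrArg _ (Finset.prod_congr rfl fun q _ => ?_)
    rw [Fr.N_eq, ← hr ρ hρ _ (h2 q)]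
    rfl
  · intro P hP
    rw [Function.mem_mulSupport] at hP
    rw [Finset.mem_coe, Finset.mem_union]
    by_contra hcon
    rw [not_or] at hcon
    obtain ⟨q, rfl⟩ := (Fr.pl_iff P).2 hcon.1
    refine hP ?_
    have hq : q ∉ R := fun hq => hcon.2 (Finset.mem_map.2 ⟨q, hq, rfl⟩)
    rw [hr ρ hρ _ (h2 q), h1 q hq, ads_one, pow_zero]

end

theorem aDsE {k : Type} [Field k] [NumberField k] {Fr : Frm k} {L : Type} [Field L]
    [NumberField L] [Algebra k L] (R0 : Rx k) (X : HX Fr L) (j : L →ₐ[k] Om k)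
    (hr : ARex R0) (hy : ATy R0 X j) : ADsE R0 X j := by
  intro hM g hg γ hγ ρ hρ
  have hρH : ρ ∈ Hs k := hρ.1.1
  have hty := hy g hg γ hγ ρ hρ
  have hM' : ∀ p, p ∉ X.M := by
    intro p
    rw [hM]
    exact Finset.notMem_empty p
  rw [ads_prod R0 hr ρ hρH ((Qof X).shd g) (fun p hp => (hty p (hM' p)).2 hp)]
  refine congrArg _ ?_
  show _ = (∏ p ∈ (Qof X).shd g, Fr.sys.N p) ^ 3
  rw [← Finset.prod_pow]
  refine Finset.prod_congr rfl fun p hp => ?_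
  rw [ads_C _ ((hty p (hM' p)).1 hp)]

theorem aDsR {k : Type} [Field k] [NumberField k] {Fr : Frm k} {L : Type} [Field L]
    [NumberField L] [Algebra k L] (R0 : Rx k) (X : HX Fr L) (j : L →ₐ[k] Om k)
    (hr : ARex R0) (hy : ATy R0 X j) : ADsR R0 X j := by
  classical
  intro g hg γ hγ ρ hρ hR
  have hρH : ρ ∈ Hs k := hρ.1.1
  have hty := hy g hg γ hγ ρ hρ
  have hdis : Disjoint X.M ((Qof X).shd g) := by
    rw [Finset.disjoint_left]
    intro p hp hp'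
    obtain ⟨a, -, rfl⟩ := Finset.mem_image.1 hp'
    exact (Qof X).sh_not a hp
  rw [ads_prod R0 hr ρ hρH (X.M ∪ (Qof X).shd g) (fun p hp => by
    rw [Finset.mem_union, not_or] at hp
    exact (hty p hp.1).2 hp.2), Finset.prod_union hdis]
  have e1 : Fr.sys.nm X.M ^ 4 ≤
      ∏ p ∈ X.M, Fr.sys.N p ^ hind SD.H0 (ρ (R0.tau (Fr.pl p))) := by
    show (∏ p ∈ X.M, Fr.sys.N p) ^ 4 ≤ _
    rw [← Finset.prod_pow]
    refine Finset.prod_le_prod' fun p hp => ?_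
    have h1 := (hR.2 p).1 hp
    rw [not_or] at h1
    exact Nat.pow_le_pow_right (Fr.sys.one_le_N p) (ads_ge _ h1.1 h1.2)
  have e2 : ∏ p ∈ (Qof X).shd g, Fr.sys.N p ^ hind SD.H0 (ρ (R0.tau (Fr.pl p))) =
      (Qof X).nq g ^ 3 := by
    show _ = (∏ p ∈ (Qof X).shd g, Fr.sys.N p) ^ 3
    rw [← Finset.prod_pow]
    refine Finset.prod_congr rfl fun p hp => ?_
    rw [ads_C _ ((hty p (fun h => (Finset.disjoint_left.1 hdis) h hp)).1 hp)]
  have e3 : 1 ≤ qS R0 Fr ρ := by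
    unfold qS
    exact Nat.one_le_iff_ne_zero.2 (Finset.prod_ne_zero_iff.2 fun P _ =>
      pow_ne_zero _ (Pool.Agent.H98.MF.B.nrm_pos P).ne')
  rw [e2]
  calc Fr.sys.nm X.M ^ 4 * (Qof X).nq g ^ 3
      ≤ (∏ p ∈ X.M, Fr.sys.N p ^ hind SD.H0 (ρ (R0.tau (Fr.pl p)))) * (Qof X).nq g ^ 3 :=
        Nat.mul_le_mul_right _ e1
    _ ≤ qS R0 Fr ρ * ((∏ p ∈ X.M, Fr.sys.N p ^ hind SD.H0 (ρ (R0.tau (Fr.pl p)))) *
        (Qof X).nq g ^ 3) := Nat.le_mul_of_pos_left _ e3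

end Pool.Agent.SK
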