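import Pool.Agent.SK.AStm
import Pool.Agent.H32.MQ.LNd
import Pool.Agent.H98.MF.NNin

/-!
# Malle's conjecture for 8T8 over number fields, row A22: duality between the units and the
complement of a frame
-/

set_option autoImplicit false

open scoped BigOperators
open NumberField IsDedekindDomain

namespace Pool.Agent.SK

open Pool.Agent.H98.MF
open Pool.Agent.H32.MQ

variable {k : Type} [Field k] [NumberField k]

/-- the symbol as a homomorphism in the second variable -/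
private noncomputable def dua_hom (v : Pl k) (a : kˣ) : kˣ →* Multiplicative (ZMod 2) where
  toFun b := Multiplicative.ofAdd (hv v (a : k) (b : k))
  map_one' := by
    have h := (B.lin k).mulR v a 1 1
    rw [mul_one] at h
    have h2 : ∀ x : ZMod 2, x = x + x → x = 0 := by decide
    rw [h2 _ h]
    rfl
  map_mul' b c := by
    rw [(B.lin k).mulR v a b c]
    rfl

private theorem dua_prod {m : ℕ} (v : Pl k) (a : kˣ) (w : Fin m → kˣ) (z : Fin m → ZMod 2) :
    hv v (a : k) ((∏ j, w j ^ (z j).val : kˣ) : k) = ∑ j, hv v (a : k) (w j : k) * z j := by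
  have h1 : Multiplicative.toAdd (dua_hom v a (∏ j, w j ^ (z j).val)) =
      ∑ j, Multiplicative.toAdd (dua_hom v a (w j ^ (z j).val)) := by
    rw [map_prod, toAdd_prod]
  have h2 : hv v (a : k) ((∏ j, w j ^ (z j).val : kˣ) : k) =
      Multiplicative.toAdd (dua_hom v a (∏ j, w j ^ (z j).val)) := rfl
  rw [h2, h1]
  refine Finset.sum_congr rfl fun j _ => ?_
  rw [map_pow, toAdd_pow]
  show (z j).val • hv v (a : k) (w j : k) = _
  rw [nsmul_eq_mul, ZMod.natCast_val, ZMod.cast_id, mul_comm]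

private theorem dua_u (Fr : Frm k) (b : Fr.sys.T) : (∏ j, Fr.u j ^ (b j).val) ∈ US Fr.S :=
  Subgroup.prod_mem _ fun j _ => Subgroup.pow_mem _ (Fr.u_mem j) _

/-- at a prime outside the frame -/
private theorem dua_p (Fr : Frm k) (b : Fr.sys.T) (p : Fr.sys.P) :
    ∑ v ∈ pls Fr.S, hv v ((∏ j, Fr.u j ^ (b j).val : kˣ) : k) (Fr.pi p : k) =
      b ⬝ᵥ Fr.sys.ty p := by
  classical
  have hpS := hb_notMem Fr p
  have hmono : ∀ x : kˣ, (∀ P, P ∉ insert (Fr.pl p) Fr.S → ord P (x : k) = 0) →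
      x ∈ US (insert (Fr.pl p) Fr.S) := fun x hx => B.mem_US.2 hx
  have hrec := B.recSt (nin k) (insert (Fr.pl p) Fr.S)
    (fun P hP => Finset.mem_insert_of_mem (Fr.adm.two P hP))
    (∏ j, Fr.u j ^ (b j).val) (hmono _ fun P hP => by
      rw [Finset.mem_insert, not_or] at hP
      exact B.mem_US.1 (dua_u Fr b) P hP.2)
    (Fr.pi p) (hmono _ fun P hP => by
      rw [Finset.mem_insert, not_or] at hP
      obtain ⟨q, hq⟩ := (Fr.pl_iff P).2 hP.2
      rw [← hq]
      refine Fr.pi_other p q fun h => hP.1 ?_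
      rw [← hq, h])
  unfold pls at hrec ⊢
  rw [Finset.sum_disjSum, Finset.sum_insert hpS] at hrec
  rw [Finset.sum_disjSum]
  have h1 : hv (Sum.inl (Fr.pl p) : Pl k) ((∏ j, Fr.u j ^ (b j).val : kˣ) : k) (Fr.pi p : k) =
      b ⬝ᵥ Fr.sys.ty p := by
    show hs (Fr.pl p) _ _ = _
    rw [(B.lin k).unt (Fr.pl p) (hb_two Fr p) _ (Fr.pi p)
      (B.mem_US.1 (dua_u Fr b) _ hpS), Fr.pi_self]
    have h2 := h_repQ Fr (b, ∅) p (Finset.notMem_empty _)
    have h3 : rep Fr (b, ∅) = ∏ j, Fr.u j ^ (b j).val := by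
      unfold rep
      rw [Finset.prod_empty, mul_one]
    rw [h3] at h2
    rw [h2]
    show ((1 : ℤ) : ZMod 2) * (∑ q ∈ (∅ : Finset Fr.sys.P), Fr.sys.J q p + b ⬝ᵥ Fr.sys.ty p) = _
    rw [Finset.sum_empty, zero_add, Int.cast_one, one_mul]
  rw [h1] at hrec
  have h4 : ∀ x y z : ZMod 2, x + y + z = 0 → y + z = x := by decide
  exact h4 _ _ _ hrec

/-- duality between the units and the complement of a frame -/
theorem aDual (Fr : Frm k) : ADual Fr := by
  intro b y z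
  have h0 : lrp Fr b 0 = ∏ j, Fr.u j ^ (b j).val := by
    unfold lrp
    have h1 : ∏ j, Fr.w j ^ ((0 : Fr.sys.T) j).val = 1 := by
      refine Finset.prod_eq_one fun j _ => ?_
      show Fr.w j ^ (0 : ZMod 2).val = 1
      rw [ZMod.val_zero, pow_zero]
    rw [h1, mul_one]
  rw [h0]
  have h1 : ∑ v ∈ pls Fr.S, hv v ((∏ j, Fr.u j ^ (b j).val : kˣ) : k)
      ((∏ j, Fr.u j ^ (y j).val : kˣ) : k) = 0 :=
    B.recSt (nin k) Fr.S Fr.adm.two _ (dua_u Fr b) _ (dua_u Fr y)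
  have h2 : ∀ z : Fr.sys.T, ∑ v ∈ pls Fr.S, hv v ((∏ j, Fr.u j ^ (b j).val : kˣ) : k)
      ((∏ j, Fr.w j ^ (z j).val : kˣ) : k) =
      (fun j => ∑ v ∈ pls Fr.S, hv v ((∏ j, Fr.u j ^ (b j).val : kˣ) : k) (Fr.w j : k)) ⬝ᵥ z := by
    intro z
    rw [Finset.sum_congr rfl fun v _ => dua_prod v _ Fr.w z, Finset.sum_comm]
    unfold dotProduct
    refine Finset.sum_congr rfl fun j _ => ?_
    rw [Finset.sum_mul]
  have h3 : (fun j => ∑ v ∈ pls Fr.S, hv v ((∏ j, Fr.u j ^ (b j).val : kˣ) : k)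
      (Fr.w j : k)) = b := by
    rw [← sub_eq_zero]
    refine nd_k Fr.sys _ fun p => ?_
    rw [sub_dotProduct, ← h2, ← dua_p Fr b p, sub_eq_zero]
    refine Finset.sum_congr rfl fun v hv' => ?_
    have h4 := (B.lin k).mulR v (∏ j, Fr.u j ^ (b j).val) (Fr.pi p)
      (∏ j, Fr.w j ^ (Fr.sys.ty p j).val)
    have h5 : hv v ((∏ j, Fr.u j ^ (b j).val : kˣ) : k)
        ((Fr.pi p * ∏ j, Fr.w j ^ (Fr.sys.ty p j).val : kˣ) : k) = 0 := by
      rw [(B.lin k).symm]
      exact ((B.lin k).nd v _).2 (Fr.loc p v hv') _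
    rw [h5] at h4
    have h6 : ∀ x y : ZMod 2, 0 = x + y → y = x := by decide
    exact h6 _ _ h4
  have h4 : ∀ v : Pl k, hv v ((∏ j, Fr.u j ^ (b j).val : kˣ) : k) (lrp Fr y z : k) =
      hv v ((∏ j, Fr.u j ^ (b j).val : kˣ) : k) ((∏ j, Fr.u j ^ (y j).val : kˣ) : k) +
        hv v ((∏ j, Fr.u j ^ (b j).val : kˣ) : k) ((∏ j, Fr.w j ^ (z j).val : kˣ) : k) :=
    fun v => (B.lin k).mulR v _ _ _
  rw [Finset.sum_congr rfl fun v _ => h4 v, Finset.sum_add_distrib, h1, h2, h3, zero_add]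

end Pool.Agent.SK
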