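import Pool.Agent.SK.AStm
import Pool.Agent.H98.MF.L.KIn
import Pool.Agent.H98.MF.L.ChiB

/-!
# Malle's conjecture for 8T8 over number fields, block A, row A34: classes that agree at the frame
-/

set_option autoImplicit false

open scoped BigOperators
open NumberField IsDedekindDomain

namespace Pool.Agent.SK

open Pool.Agent.H98.MF
open Pool.Agent.H32.MA (SD bit3 pm p5 pw)
open Pool.Agent.H32.MQ (HX El Qof rep co lrp)

/-! ### local classes -/

section

variable {k : Type} [Field k] [NumberField k] {Fr : Frm k} {L : Type} [Field L]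
  [NumberField L] [Algebra k L] (FL : Frm L)

/-- a class and the representative of its coordinates -/
theorem aeq_lrp (γ : HX.GX L) {w : Pl L} (hw : w ∈ pls FL.S) :
    HX.out γ * lrp FL (coL FL γ).1 (coL FL γ).2 ∈ LS w := by
  have h1 := Pool.Agent.H32.MQ.rep_lrp FL hw (co FL (HX.out γ))
  obtain ⟨z, hz⟩ := Pool.Agent.H32.MQ.h_co FL (HX.out γ)
  have h2 : HX.out γ * lrp FL (coL FL γ).1 (coL FL γ).2 =
      z ^ 2 * (rep FL (co FL (HX.out γ)))⁻¹ ^ 2 *
        (rep FL (co FL (HX.out γ)) *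
          lrp FL (co FL (HX.out γ)).1 (FL.sys.tys (co FL (HX.out γ)).2)) := by
    have h3 : z ^ 2 = HX.out γ * rep FL (co FL (HX.out γ)) := by rw [pow_two, ← hz]
    have h4 : lrp FL (coL FL γ).1 (coL FL γ).2 =
      lrp FL (co FL (HX.out γ)).1 (FL.sys.tys (co FL (HX.out γ)).2) := rfl
    rw [h3, h4, pow_two]
    group
  rw [h2]
  exact mul_mem (mul_mem (B.sq_mem_LS w _) (B.sq_mem_LS w _)) h1

/-- the quotient of two elements with the same local classes -/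
theorem aeq_loc {γ γ' : HX.GX L} (h : coL FL γ = coL FL γ') {w : Pl L} (hw : w ∈ pls FL.S) :
    LocP w (((HX.out γ)⁻¹ * HX.out γ' : Lˣ) : L) := by
  rw [← (B.lin L).memLS]
  have h1 := aeq_lrp FL γ hw
  have h2 := aeq_lrp FL γ' hw
  rw [← h] at h2
  have h3 : (HX.out γ)⁻¹ * HX.out γ' =
      (HX.out γ)⁻¹ ^ 2 * (lrp FL (coL FL γ).1 (coL FL γ).2)⁻¹ ^ 2 *
        ((HX.out γ * lrp FL (coL FL γ).1 (coL FL γ).2) *
          (HX.out γ' * lrp FL (coL FL γ).1 (coL FL γ).2)) := by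
    have hc : ∀ x y t : Lˣ, x⁻¹ * y = x⁻¹ ^ 2 * t⁻¹ ^ 2 * ((x * t) * (y * t)) := by
      intro x y t
      apply Units.ext
      have hx : (x : L) ≠ 0 := x.ne_zero
      have ht : (t : L) ≠ 0 := t.ne_zero
      push_cast
      field_simp
    exact hc _ _ _
  rw [h3]
  exact mul_mem (mul_mem (B.sq_mem_LS w _) (B.sq_mem_LS w _)) (mul_mem h1 h2)

theorem aeq_ov (hF : Ovr Fr.S FL.S) {v : Pl k} (hv : v ∈ pls Fr.S) {w : Pl L} (h : OvP v w) :
    w ∈ pls FL.S := by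
  rcases v with P | φ
  · rcases w with P' | ψ
    · rw [B.inl_mem_pls] at hv ⊢
      exact (hF P').2 ⟨P, hv, h⟩
    · exact B.inr_mem_pls _ _
  · rcases w with P' | ψ
    · exact absurd h id
    · exact B.inr_mem_pls _ _

end

/-! ### the theorems -/

section

variable {k : Type} [Field k] [NumberField k] {Fr : Frm k} {L : Type} [Field L]
  [NumberField L] [Algebra k L]

/-- the obstructions at the frame -/
theorem aKapS (X : HX Fr L) (FL : Frm L) (hK : AKapL (qk X)) : AKapS X FL := by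
  intro hF γ γ' h v hv
  have h1 := hK v (HX.out γ) ((HX.out γ)⁻¹ * HX.out γ') fun w hw =>
    aeq_loc FL h (aeq_ov FL hF hv hw)
  rw [mul_inv_cancel_left] at h1
  exact h1.symm

theorem aeq_zz {x y : ZMod 2} (h : SD.zz x = SD.zz y) : x = y := by
  revert x y; decide

theorem aeq_z2 : ∀ e : ZMod 2, e = 0 ∨ e = 1 := by decide

theorem aeq_comm (a b : SD) (x y : ZMod 2) :
    (a * SD.zz x) * (b * SD.zz y) = a * b * SD.zz (x + y) := by
  rw [SD.zz_add]
  calc a * SD.zz x * (b * SD.zz y) = a * (SD.zz x * b) * SD.zz y := by simp only [mul_assoc]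
    _ = a * (b * SD.zz x) * SD.zz y := by rw [SD.zz_comm]
    _ = a * b * (SD.zz x * SD.zz y) := by simp only [mul_assoc]

/-- two homomorphisms with the same image modulo the centre on a subgroup -/
theorem aeq_two {v : Pl k} (hK : KIn k) {ρ ρ' : Gm k →* SD} (hρ : IsLocallyConstant ρ)
    (hρ' : IsLocallyConstant ρ') (u : ZMod 8)
    (ha : ∀ σ ∈ DecP v, (au u (ρ σ)).a = (ρ' σ).a)
    (hd : ∀ σ ∈ DecP v, (au u (ρ σ)).pd = (ρ' σ).pd)
    (hf : ∀ σ ∈ DecP v, (au u (ρ σ)).pf = (ρ' σ).pf) :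
    ∃ c : kˣ, ∀ σ ∈ DecP v, ρ' σ = au u (ρ σ) * SD.zz (chi (c : k) σ) := by
  set H : Gm k → ZMod 2 := fun σ => (au u (ρ σ)).ph + (ρ' σ).ph with hH
  have h : ∀ σ ∈ DecP v, ρ' σ = au u (ρ σ) * SD.zz (H σ) := fun σ hσ =>
    SD.eq_mul_zz _ _ (ha σ hσ) (hd σ hσ) (hf σ hσ)
  have hlc : IsLocallyConstant H := by
    have h1 : IsLocallyConstant fun σ => (ρ σ, ρ' σ) := hρ.prodMk hρ'
    exact h1.comp fun t : SD × SD => (au u t.1).ph + t.2.ph
  have hadd : ∀ σ ∈ DecP v, ∀ τ ∈ DecP v, H (σ * τ) = H σ + H τ := by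
    intro σ hσ τ hτ
    have key : au u (ρ (σ * τ)) * SD.zz (H (σ * τ)) =
        au u (ρ (σ * τ)) * SD.zz (H σ + H τ) :=
      calc au u (ρ (σ * τ)) * SD.zz (H (σ * τ)) = ρ' (σ * τ) := (h _ (mul_mem hσ hτ)).symm
        _ = ρ' σ * ρ' τ := map_mul ρ' σ τ
        _ = (au u (ρ σ) * SD.zz (H σ)) * (au u (ρ τ) * SD.zz (H τ)) :=
          congrArg₂ (fun a b : SD => a * b) (h σ hσ) (h τ hτ)
        _ = au u (ρ σ) * au u (ρ τ) * SD.zz (H σ + H τ) := aeq_comm _ _ _ _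
        _ = au u (ρ (σ * τ)) * SD.zz (H σ + H τ) := by rw [map_mul ρ, map_mul (au u)]
    exact aeq_zz (mul_left_cancel key)
  obtain ⟨c, hc⟩ := hK.two v H hlc hadd
  refine ⟨c, fun σ hσ => ?_⟩
  rw [← hc σ hσ]
  exact h σ hσ

theorem aeq_pf3 (g : SD) : (au 3 g).pf = g.pf + g.pd := au_three_pf g

theorem aeq_one (g : SD) : au 1 g = g := au_one g

/-- the comparison at one place -/
theorem aeq_place {X : HX Fr L} {j : L →ₐ[k] Om k} (hA : AAb (qk X) j)
    {b l : Lˣ} {ρ ρ' : Gm k →* SD} (h : (qk X).Cl j b ρ) (h' : (qk X).Cl j (b * l) ρ')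
    {g : Gm k → ZMod 2} (hf' : (fun σ => (ρ σ).pf + g σ) = (fun σ => (ρ' σ).pf) ∨
      (fun σ => (ρ σ).pf + g σ) = fun σ => (ρ' σ).pf + chi ((qk X).a : k) σ)
    {v : Pl k} (hg : (∀ σ ∈ DecP v, g σ = 0) ∨ ∀ σ ∈ DecP v, g σ = chi ((qk X).a : k) σ)
    (hn : ∀ σ ∈ DecP v, chi ((QK.nr (k := k) l : kˣ) : k) σ = 0) :
    ∃ (u : ZMod 8) (c : kˣ), u * u = 1 ∧
      ∀ σ ∈ DecP v, ρ' σ = au u (ρ σ) * SD.zz (chi (c : k) σ) := by
  have ha : ∀ σ ∈ DecP v, (ρ σ).a = (ρ' σ).a := by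
    intro σ hσ
    rw [hA b ρ h σ, hA (b * l) ρ' h' σ]
    have h1 : QK.nr (k := k) (b * l) = QK.nr (k := k) b * QK.nr (k := k) l := map_mul _ _ _
    rw [h1, Units.val_mul, chi_mul (Units.ne_zero _) (Units.ne_zero _), hn σ hσ, add_zero]
  have hd : ∀ σ, (ρ σ).pd = (ρ' σ).pd := fun σ => (h.pd σ).trans (h'.pd σ).symm
  have hf : (∀ σ ∈ DecP v, (ρ σ).pf = (ρ' σ).pf) ∨
      ∀ σ ∈ DecP v, (ρ σ).pf + (ρ σ).pd = (ρ' σ).pf := by
    have e1 : ∀ x y z : ZMod 2, x + y = z + y → x = z := by decide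
    have e2 : ∀ x y z : ZMod 2, x + 0 = z + y → x + y = z := by decide
    rcases hf' with e | e <;> rcases hg with hg | hg
    · left
      intro σ hσ
      have e' := congrFun e σ
      rw [hg σ hσ, add_zero] at e'
      exact e'
    · right
      intro σ hσ
      have e' := congrFun e σ
      rw [hg σ hσ] at e'
      rw [h.pd σ]
      exact e'
    · right
      intro σ hσ
      have e' := congrFun e σ
      rw [hg σ hσ] at e'
      rw [h.pd σ]
      exact e2 _ _ _ e'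
    · left
      intro σ hσ
      have e' := congrFun e σ
      rw [hg σ hσ] at e'
      exact e1 _ _ _ e'
  rcases hf with hf | hf
  · obtain ⟨c, hc⟩ := aeq_two (v := v) (kin k) h.lc h'.lc 1
      (fun σ hσ => by rw [au_one]; exact ha σ hσ) (fun σ _ => by rw [au_one]; exact hd σ)
      (fun σ hσ => by rw [au_one]; exact hf σ hσ)
    exact ⟨1, c, by decide, hc⟩
  · have h3 : (3 : ZMod 8) * 3 = 1 := by decide
    obtain ⟨c, hc⟩ := aeq_two (v := v) (kin k) h.lc h'.lc 3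
      (fun σ hσ => by rw [au_a]; exact ha σ hσ) (fun σ _ => by rw [au_pd _ _ h3]; exact hd σ)
      (fun σ hσ => by rw [au_three_pf]; exact hf σ hσ)
    exact ⟨3, c, h3, hc⟩

/-- homomorphisms attached to classes which agree at the frame -/
theorem aEq (R0 : Rx k) (X : HX Fr L) (j : L →ₐ[k] Om k) (FL : Frm L) (hE : AFEx (qk X) j)
    (hM : AFMul (qk X) j) (hT : AFTwo (qk X) j) (hA : AAb (qk X) j) (hq : ALq (qk X) j) :
    AEq R0 X j FL := by
  classical
  intro hF γ γ' hγ ρ hρ ρ' hρ'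
  have hC := hρ.2
  have hC' := hρ'.2
  set b : Lˣ := HX.out γ with hb
  set l : Lˣ := (HX.out γ)⁻¹ * HX.out γ' with hl
  have hbl : HX.out γ' = b * l := by rw [hl, hb, mul_inv_cancel_left]
  rw [hbl] at hC'
  obtain ⟨g, hg⟩ := hE l
  have hf1 := hM b l _ g hC.pf hg
  have hf2 := (hT (b * l) _ (fun σ => (ρ σ).pf + g σ) hC'.pf).1 hf1
  have hpl : ∀ v ∈ pls Fr.S, ∃ (u : ZMod 8) (c : kˣ), u * u = 1 ∧
      ∀ σ ∈ DecP v, ρ' σ = au u (ρ σ) * SD.zz (chi (c : k) σ) := by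
    intro v hv
    obtain ⟨h1, h2⟩ := hq v l g (fun w hw => aeq_loc FL hγ (aeq_ov FL hF hv hw)) hg
    exact aeq_place hA hC hC' hf2 h1 h2
  let cc : Pl k → kˣ := fun v => if h : v ∈ pls Fr.S then (hpl v h).choose_spec.choose else 1
  obtain ⟨y, z, hyz⟩ := Fr.gen cc
  refine ⟨(y, z), fun v hv => ?_⟩
  have h1 := (hpl v hv).choose_spec.choose_spec
  have hcc : cc v = (hpl v hv).choose_spec.choose := dif_pos hv
  refine ⟨(hpl v hv).choose, h1.1, fun σ hσ => ?_⟩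
  have h2 := h1.2 σ hσ
  rw [← hcc] at h2
  have h3 := ((kin k).one v _).2 (hyz v hv) σ hσ
  have h4 : (cc v * (∏ i, Fr.u i ^ (y i).val) * ∏ i, Fr.w i ^ (z i).val : kˣ) =
      cc v * lrp Fr y z := mul_assoc _ _ _
  rw [h4, Units.val_mul, chi_mul (Units.ne_zero _) (Units.ne_zero _)] at h3
  have h5 : chi (cc v : k) σ = chi (lrp Fr y z : k) σ := by
    have e : ∀ x y : ZMod 2, x + y = 0 → x = y := by decide
    exact e _ _ h3
  rw [h2, twS_apply, map_mul, au_zz _ _ h1.1, h5]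

end

end Pool.Agent.SK
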