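import Pool.Agent.SK.AStm
import Pool.Agent.H98.MF.L.KIn
import Pool.Agent.H98.MF.C.Main

/-!
# Malle's conjecture for 8T8 over number fields, block A, row A21: relations at `S`
-/

set_option autoImplicit false

open scoped BigOperators
open NumberField IsDedekindDomain

namespace Pool.Agent.SK

open Pool.Agent.H98.MF
open Pool.Agent.H32.MA (SD bit3 pm p5 pw)
open Pool.Agent.H32.MQ (HX El Qof rep co lrp rep_lrp)

private theorem eqt_z (x y : ZMod 2) (h : x + y = 0) : x = y := by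
  revert x y; decide

private theorem eqt_uu (u v : ZMod 8) (hu : u * u = 1) (hv : v * v = 1) :
    (v * u) * (v * u) = 1 := by
  rw [mul_mul_mul_comm, hu, hv, one_mul]

private theorem eqt_refl {k : Type} [Field k] [NumberField k] (Fr : Frm k) (ρ : Gm k →* SD) :
    EqS Fr ρ ρ := fun _ _ => ⟨1, one_mul 1, fun σ _ => (au_one (ρ σ)).symm⟩

private theorem eqt_tw {k : Type} [Field k] [NumberField k] (Fr : Frm k)
    (ρ ρ' : Gm k →* SD) (c c' : kˣ) (h : EqS Fr ρ ρ') (hc : ∀ v ∈ pls Fr.S, c * c' ∈ LS v) :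
    EqS Fr (twS ρ c) (twS ρ' c') := by
  intro v hv
  obtain ⟨u, hu, h1⟩ := h v hv
  refine ⟨u, hu, fun σ hσ => ?_⟩
  have h2 : chi (c : k) σ = chi (c' : k) σ := by
    have h3 := ((kin k).one v (c * c')).2 (((B.lin k).memLS v _).1 (hc v hv)) σ hσ
    rw [Units.val_mul, chi_mul c.ne_zero c'.ne_zero σ] at h3
    exact eqt_z _ _ h3
  rw [twS_apply, twS_apply, h1 σ hσ, map_mul, au_zz u _ hu, h2]

/-- A21: relations between homomorphisms at `S` -/
theorem aEqT {k : Type} [Field k] [NumberField k] (Fr : Frm k) : AEqT Fr := by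
  refine ⟨eqt_refl Fr, ?_, ?_, ?_, eqt_tw Fr, ?_⟩
  · intro ρ ρ' h v hv
    obtain ⟨u, hu, h1⟩ := h v hv
    exact ⟨u, hu, fun σ hσ => by rw [h1 σ hσ, au_au u _ hu]⟩
  · intro ρ ρ' ρ'' h h' v hv
    obtain ⟨u, hu, h1⟩ := h v hv
    obtain ⟨w, hw, h2⟩ := h' v hv
    exact ⟨w * u, eqt_uu u w hu hw, fun σ hσ => by rw [h2 σ hσ, h1 σ hσ, au_mul]⟩
  · intro ρ v _
    exact ⟨3, by decide, fun σ _ => rfl⟩
  · intro ρ c
    exact eqt_tw Fr ρ ρ _ _ (eqt_refl Fr ρ) fun v hv => rep_lrp Fr hv c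

end Pool.Agent.SK
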