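import Pool.Agent.SK.AStm

/-!
# Malle's conjecture for 8T8 over number fields, block A: there is a homomorphism
-/

set_option autoImplicit false

open scoped BigOperators
open NumberField IsDedekindDomain

namespace Pool.Agent.SK

open Pool.Agent.H98.MF
open Pool.Agent.H32.MA (SD bit3 pm p5 pw)

/-- the numbers -/
private theorem aex_num (N : ℕ) : ∃ l q x : ℕ, l.Prime ∧ q.Prime ∧ N < l ∧ N < q ∧
    (l : ℤ) ∣ 4 - ((x : ℤ) ^ 2 + 2 * (l : ℤ) ^ 2) ∧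
    ¬ (l : ℤ) ^ 2 ∣ 4 - ((x : ℤ) ^ 2 + 2 * (l : ℤ) ^ 2) ∧
    ¬ (l : ℤ) ∣ (x : ℤ) ^ 2 + 2 * (l : ℤ) ^ 2 ∧
    (q : ℤ) ∣ (x : ℤ) ^ 2 + 2 * (l : ℤ) ^ 2 ∧
    ¬ (q : ℤ) ^ 2 ∣ (x : ℤ) ^ 2 + 2 * (l : ℤ) ^ 2 := by
  obtain ⟨l, hl, hlp⟩ := Nat.exists_infinite_primes (max N 2 + 1)
  have hu : IsUnit (3 : ZMod 8) := by decide
  obtain ⟨q, hq, hqp, hq3⟩ := Nat.forall_exists_prime_gt_and_eq_mod hu (max N l)
  have hl2 : 2 < l := by omega
  have hNl : N < l := by omega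
  have hNq : N < q := by omega
  have hlq : l < q := by omega
  have hqF : Fact q.Prime := ⟨hqp⟩
  have hq8 : q % 8 = 3 := by
    have h1 : ((q : ℕ) : ZMod 8) = ((3 : ℕ) : ZMod 8) := by
      rw [hq3]
      rfl
    rw [ZMod.natCast_eq_natCast_iff] at h1
    exact h1
  obtain ⟨r, hr⟩ := (ZMod.exists_sq_eq_neg_two_iff (p := q) (by omega)).2 (Or.inr hq8)
  have hcop : Nat.Coprime q (l ^ 2) :=
    Nat.Coprime.pow_right 2 ((Nat.coprime_primes hqp hlp).2 (by omega))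
  obtain ⟨x0, hx1, hx2⟩ := Nat.chineseRemainder hcop (r.val * l) (2 + l)
  have hlI : Prime (l : ℤ) := Nat.prime_iff_prime_int.1 hlp
  have hqI : Prime (q : ℤ) := Nat.prime_iff_prime_int.1 hqp
  have hl4 : ¬ (l : ℤ) ∣ 4 := by
    intro h
    have h1 : l ∣ 4 := by exact_mod_cast h
    have h2 : l ∣ 2 ^ 2 := h1
    have h3 := (Nat.prime_dvd_prime_iff_eq hlp Nat.prime_two).1 (hlp.dvd_of_dvd_pow h2)
    omega
  have hd0 : (q : ℤ) ∣ (x0 : ℤ) ^ 2 + 2 * (l : ℤ) ^ 2 := by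
    rw [← ZMod.intCast_zmod_eq_zero_iff_dvd]
    have h1 : ((x0 : ℕ) : ZMod q) = ((r.val * l : ℕ) : ZMod q) :=
      (ZMod.natCast_eq_natCast_iff _ _ _).2 hx1
    push_cast at h1 ⊢
    rw [h1, ZMod.natCast_zmod_val]
    linear_combination -(l : ZMod q) ^ 2 * hr
  have hx2' : ∃ t : ℤ, (x0 : ℤ) = 2 + l + (l : ℤ) ^ 2 * t := by
    have h1 : ((x0 : ℕ) : ℤ) ≡ ((2 + l : ℕ) : ℤ) [ZMOD ((l ^ 2 : ℕ) : ℤ)] :=
      (Int.natCast_modEq_iff).2 hx2
    obtain ⟨t, ht⟩ := h1.symm.dvd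
    refine ⟨t, ?_⟩
    push_cast at ht
    linear_combination ht
  have hqx : ¬ (q : ℤ) ∣ (x0 : ℤ) := by
    intro h
    have h1 : (q : ℤ) ∣ 2 * (l : ℤ) ^ 2 := by
      have h2 : (q : ℤ) ∣ (x0 : ℤ) ^ 2 := dvd_pow h two_ne_zero
      have h3 := dvd_sub hd0 h2
      have h4 : (x0 : ℤ) ^ 2 + 2 * (l : ℤ) ^ 2 - (x0 : ℤ) ^ 2 = 2 * (l : ℤ) ^ 2 := by ring
      rwa [h4] at h3
    rcases hqI.dvd_or_dvd h1 with h2 | h2
    · have h3 : q ∣ 2 := by exact_mod_cast h2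
      have := Nat.le_of_dvd (by norm_num) h3
      omega
    · have h3 : q ∣ l := by exact_mod_cast hqI.dvd_of_dvd_pow h2
      have := Nat.le_of_dvd (by omega) h3
      omega
  -- the choice of `x`
  obtain ⟨x, t, hxt, hxq, hxq2⟩ : ∃ (x : ℕ) (t : ℤ), (x : ℤ) = 2 + l + (l : ℤ) ^ 2 * t ∧
      (q : ℤ) ∣ (x : ℤ) ^ 2 + 2 * (l : ℤ) ^ 2 ∧
      ¬ (q : ℤ) ^ 2 ∣ (x : ℤ) ^ 2 + 2 * (l : ℤ) ^ 2 := by
    obtain ⟨t, ht⟩ := hx2'
    by_cases hc : (q : ℤ) ^ 2 ∣ (x0 : ℤ) ^ 2 + 2 * (l : ℤ) ^ 2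
    · refine ⟨x0 + q * l ^ 2, t + q, ?_, ?_, ?_⟩
      · push_cast
        linear_combination ht
      · push_cast
        have h1 : ((x0 : ℤ) + q * (l : ℤ) ^ 2) ^ 2 + 2 * (l : ℤ) ^ 2 =
            ((x0 : ℤ) ^ 2 + 2 * (l : ℤ) ^ 2) +
              q * (2 * x0 * (l : ℤ) ^ 2 + q * (l : ℤ) ^ 4) := by ring
        rw [h1]
        exact dvd_add hd0 (dvd_mul_right _ _)
      · push_cast
        intro h
        have h1 : (q : ℤ) ^ 2 ∣ q * (2 * x0 * (l : ℤ) ^ 2) := by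
          have h2 := dvd_sub (dvd_sub h hc) (dvd_mul_right ((q : ℤ) ^ 2) ((l : ℤ) ^ 4))
          have h3 : ((x0 : ℤ) + q * (l : ℤ) ^ 2) ^ 2 + 2 * (l : ℤ) ^ 2 -
              ((x0 : ℤ) ^ 2 + 2 * (l : ℤ) ^ 2) - (q : ℤ) ^ 2 * (l : ℤ) ^ 4 =
              q * (2 * x0 * (l : ℤ) ^ 2) := by ring
          rwa [h3] at h2
        rw [pow_two] at h1
        have h4 := (mul_dvd_mul_iff_left hqI.ne_zero).1 h1
        rcases hqI.dvd_or_dvd h4 with h5 | h5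
        · rcases hqI.dvd_or_dvd h5 with h6 | h6
          · have h7 : q ∣ 2 := by exact_mod_cast h6
            have := Nat.le_of_dvd (by norm_num) h7
            omega
          · exact hqx h6
        · have h7 : q ∣ l := by exact_mod_cast hqI.dvd_of_dvd_pow h5
          have := Nat.le_of_dvd (by omega) h7
          omega
    · exact ⟨x0, t, ht, hd0, hc⟩
  have e1 : 4 - ((x : ℤ) ^ 2 + 2 * (l : ℤ) ^ 2) =
      l * (-4) + (l : ℤ) ^ 2 * (-(1 + 2 * t * (2 + l) + (l : ℤ) ^ 2 * t ^ 2) - 2) := by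
    rw [hxt]
    ring
  refine ⟨l, q, x, hlp, hqp, hNl, hNq, ?_, ?_, ?_, hxq, hxq2⟩
  · rw [e1]
    exact dvd_add (dvd_mul_right _ _) ((dvd_pow_self _ two_ne_zero).mul_right _)
  · intro h
    rw [e1] at h
    have h1 := (dvd_add_left (dvd_mul_right ((l : ℤ) ^ 2) _)).1 h
    rw [pow_two] at h1
    have h2 := (mul_dvd_mul_iff_left hlI.ne_zero).1 h1
    exact hl4 ((dvd_neg).1 h2)
  · intro h
    have h1 : (l : ℤ) ∣ 4 - ((x : ℤ) ^ 2 + 2 * (l : ℤ) ^ 2) := by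
      rw [e1]
      exact dvd_add (dvd_mul_right _ _) ((dvd_pow_self _ two_ne_zero).mul_right _)
    have h2 := dvd_add h1 h
    rw [sub_add_cancel] at h2
    exact hl4 h2

section

variable (k : Type) [Field k] [NumberField k]

/-- integers exactly divisible by an unramified prime are not squares -/
private theorem aex_ns {q : ℕ} (hq : q.Prime) (hd : ¬ (q : ℤ) ∣ NumberField.discr k) {m : ℤ}
    (h1 : (q : ℤ) ∣ m) (h2 : ¬ (q : ℤ) ^ 2 ∣ m) (s : k) : s ^ 2 ≠ (m : k) := by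
  intro hs
  have hqI : Prime (q : ℤ) := Nat.prime_iff_prime_int.1 hq
  have hmax : (Ideal.span {(q : ℤ)}).IsMaximal :=
    PrincipalIdealRing.isMaximal_of_irreducible hqI.irreducible
  obtain ⟨P, hPm, hPl⟩ := Ideal.exists_maximal_ideal_liesOver_of_isIntegral (S := 𝓞 k)
    (Ideal.span {(q : ℤ)})
  have hqP : ((q : ℤ) : 𝓞 k) ∈ P := by
    have h3 : (q : ℤ) ∈ P.under ℤ := by
      rw [← hPl.over]
      exact Ideal.mem_span_singleton_self _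
    exact h3
  have hun : Algebra.IsUnramifiedAt ℤ P :=
    (NumberField.not_dvd_discr_iff_forall_mem k (𝓞 k) hqI).1 hd P hPm.isPrime hqP
  have he : P.ramificationIdx ℤ = 1 := Ideal.ramificationIdx_eq_one_of_isUnramifiedAt
  have hnot : ((q : ℤ) : 𝓞 k) ∉ P ^ 2 := by
    intro h3
    have hu : P.under ℤ = Ideal.span {(q : ℤ)} := hPl.over.symm
    have hp0 : P.under ℤ ≠ ⊥ := by
      rw [hu, Ne, Ideal.span_singleton_eq_bot]
      exact hqI.ne_zero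
    have h4 : (P.under ℤ).ramificationIdx' P = 1 := by
      rw [Ideal.ramificationIdx'_eq_ramificationIdx _ _ hp0, he]
    have h5 : Ideal.map (algebraMap ℤ (𝓞 k)) (P.under ℤ) ≤ P ^ 2 := by
      rw [hu, Ideal.map_span, Set.image_singleton, Ideal.span_le, Set.singleton_subset_iff]
      exact h3
    have h6 : Ideal.map (algebraMap ℤ (𝓞 k)) (P.under ℤ) ≤ P := Ideal.map_comap_le
    exact (Ideal.ramificationIdx'_ne_one_iff h6).2 h5 h4
  have hint : IsIntegral ℤ s := by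
    refine IsIntegral.of_pow (n := 2) (by norm_num) ?_
    rw [hs]
    exact isIntegral_algebraMap
  obtain ⟨z, hz⟩ : ∃ z : 𝓞 k, (z : k) = s := ⟨⟨s, hint⟩, rfl⟩
  have hz2 : z ^ 2 = ((m : ℤ) : 𝓞 k) := by
    apply RingOfIntegers.ext
    rw [← hz] at hs
    push_cast
    exact hs
  obtain ⟨m', hm'⟩ := h1
  have hzP : z ∈ P := by
    apply hPm.isPrime.mem_of_pow_mem 2
    rw [hz2, hm']
    push_cast
    exact P.mul_mem_right _ (by exact_mod_cast hqP)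
  have hmP : ((m : ℤ) : 𝓞 k) ∈ P ^ 2 := by
    rw [← hz2]
    exact Ideal.pow_mem_pow hzP 2
  have hcop : IsCoprime (q : ℤ) m' := by
    rw [hqI.coprime_iff_not_dvd]
    rintro ⟨w, hw⟩
    apply h2
    exact ⟨w, by rw [hm', hw]; ring⟩
  obtain ⟨u, v, huv⟩ := hcop
  apply hnot
  have e1 : ((q : ℤ) : 𝓞 k) = ((u : ℤ) : 𝓞 k) * ((q : ℤ) : 𝓞 k) ^ 2 +
      ((v : ℤ) : 𝓞 k) * ((m : ℤ) : 𝓞 k) := by
    have h3 : (q : ℤ) = u * (q : ℤ) ^ 2 + v * m := by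
      rw [hm']
      linear_combination (-(q : ℤ)) * huv
    exact_mod_cast congrArg (Int.cast : ℤ → 𝓞 k) h3
  rw [e1]
  exact Ideal.add_mem _ (Ideal.mul_mem_left _ _ (Ideal.pow_mem_pow hqP 2))
    (Ideal.mul_mem_left _ _ hmP)

/-- a quadratic extension with a square root of `a` -/
private theorem aex_quad {k : Type} [Field k] [NumberField k] {a : k} (ha : ¬ IsSquare a) :
    ∃ (L : Type) (_ : Field L) (_ : NumberField L) (_ : Algebra k L) (s : L),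
      s ^ 2 = algebraMap k L a ∧ Module.finrank k L = 2 := by
  have hirr : Irreducible (Polynomial.X ^ 2 - Polynomial.C a) := by
    apply X_pow_sub_C_irreducible_of_prime Nat.prime_two
    intro b hb
    exact ha ⟨b, by rw [← hb, pow_two]⟩
  have : Fact (Irreducible (Polynomial.X ^ 2 - Polynomial.C a)) := ⟨hirr⟩
  have hfin : Module.Finite k (AdjoinRoot (Polynomial.X ^ 2 - Polynomial.C a)) :=
    (AdjoinRoot.powerBasis hirr.ne_zero).finite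
  refine ⟨AdjoinRoot (Polynomial.X ^ 2 - Polynomial.C a), inferInstance,
    NumberField.of_module_finite k _, inferInstance, AdjoinRoot.root _, ?_, ?_⟩
  · have h := AdjoinRoot.eval₂_root (Polynomial.X ^ 2 - Polynomial.C a)
    rw [Polynomial.eval₂_sub, Polynomial.eval₂_pow, Polynomial.eval₂_X, Polynomial.eval₂_C,
      sub_eq_zero] at h
    exact h
  · rw [(AdjoinRoot.powerBasis hirr.ne_zero).finrank, AdjoinRoot.powerBasis_dim,
      Polynomial.natDegree_X_pow_sub_C]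

end

section

variable {k : Type} [Field k] [NumberField k] {L : Type} [Field L] [NumberField L]
  [Algebra k L]

private theorem aex_norm (Q : QK k L) : Algebra.norm k (2 + Q.α) = 4 - (Q.a : k) := by
  apply (algebraMap k L).injective
  rw [Q.nm_eq, map_add, Q.sig_α, map_ofNat, map_sub, map_ofNat, ← Q.qe.sq]
  ring

private theorem aex_trace (Q : QK k L) : Algebra.trace k L (2 + Q.α) = 4 := by
  have h1 : Algebra.trace k L Q.α = 0 := by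
    have h2 := Algebra.trace_eq_of_algEquiv Q.sig Q.α
    rw [Q.sig_α, map_neg] at h2
    have h3 : (2 : k) * Algebra.trace k L Q.α = 0 := by linear_combination -h2
    exact (mul_eq_zero.1 h3).resolve_left two_ne_zero
  have h4 : (2 : L) = algebraMap k L 2 := (map_ofNat (algebraMap k L) 2).symm
  rw [map_add, h1, h4, Algebra.trace_algebraMap, Q.qe.deg]
  norm_num

/-- the obstructions vanish -/
private theorem aex_kap (Q : QK k L) (x l : k) (hl : l ≠ 0) (hD : (Q.a : k) = x ^ 2 + 2 * l ^ 2)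
    (hn : 4 - (Q.a : k) ≠ 0) (b : Lˣ) (hb : (b : L) = 2 + Q.α) (v : Pl k) : Q.kap v b = 0 := by
  unfold QK.kap
  rw [hb, aex_norm, aex_trace, if_neg (by norm_num)]
  have ha := Q.a.ne_zero
  have h1 : hv v (Q.a : k) (2 * (Q.a : k) * (4 - (Q.a : k))) = 0 := by
    have h2 : (2 * (Q.a : k) * (4 - (Q.a : k))) ≠ 0 :=
      mul_ne_zero (mul_ne_zero two_ne_zero ha) hn
    refine (Pool.Agent.H98.MF.B.lin k).nm v Q.a (Units.mk0 _ h2)
      ((Q.a : k) * (2 + x) / l) ((2 * x + (Q.a : k)) / l) ?_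
    rw [Units.val_mk0]
    field_simp
    rw [hD]
    ring
  have h3 : hv v (4 : k) (-((Q.a : k) * (4 - (Q.a : k)))) = 0 := by
    have h4 : (4 : k) ≠ 0 := by norm_num
    have h5 : (-((Q.a : k) * (4 - (Q.a : k)))) ≠ 0 := neg_ne_zero.2 (mul_ne_zero ha hn)
    refine (Pool.Agent.H98.MF.B.lin k).nm v (Units.mk0 _ h4) (Units.mk0 _ h5)
      ((-((Q.a : k) * (4 - (Q.a : k))) + 1) / 2) ((-((Q.a : k) * (4 - (Q.a : k))) - 1) / 4) ?_
    rw [Units.val_mk0, Units.val_mk0]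
    ring
  rw [h1, h3, add_zero]

end

theorem aEx (k : Type) [Field k] [NumberField k] (hE : ∀ (L : Type) (_ : Field L)
    (_ : NumberField L) (_ : Algebra k L) (Q : QK k L) (j : L →ₐ[k] Om k),
      AFEx Q j ∧ ACrit Q j ∧ AHasL Q j ∧ ASur2 Q j) : AEx k := by
  obtain ⟨l, q, x, hl, hq, hNl, hNq, h1, h2, h3, h4, h5⟩ :=
    aex_num (NumberField.discr k).natAbs
  have hdis : ∀ r : ℕ, (NumberField.discr k).natAbs < r → ¬ (r : ℤ) ∣ NumberField.discr k := by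
    intro r hr h
    have h6 : (r : ℕ) ∣ (NumberField.discr k).natAbs := Int.natCast_dvd.1 h
    have h7 := Nat.le_of_dvd (Int.natAbs_pos.2 (NumberField.discr_ne_zero k)) h6
    omega
  have hlI : Prime (l : ℤ) := Nat.prime_iff_prime_int.1 hl
  have nsD := aex_ns k hq (hdis q hNq) h4 h5
  have nsN := aex_ns k hl (hdis l hNl) h1 h2
  have nsDN := aex_ns k hl (hdis l hNl) (h1.mul_left ((x : ℤ) ^ 2 + 2 * (l : ℤ) ^ 2))
    (fun h => h2 (hlI.pow_dvd_of_dvd_mul_left 2 h3 h))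
  have hD0 : (((x : ℤ) ^ 2 + 2 * (l : ℤ) ^ 2 : ℤ) : k) ≠ 0 := by
    intro h
    exact nsD 0 (by rw [h]; ring)
  have hN0 : ((4 - ((x : ℤ) ^ 2 + 2 * (l : ℤ) ^ 2) : ℤ) : k) ≠ 0 := by
    intro h
    exact nsN 0 (by rw [h]; ring)
  obtain ⟨a, ha⟩ : ∃ a : kˣ, (a : k) = (((x : ℤ) ^ 2 + 2 * (l : ℤ) ^ 2 : ℤ) : k) :=
    ⟨Units.mk0 _ hD0, rfl⟩
  have nsa : ¬ IsSquare (a : k) := by
    rintro ⟨s, hs⟩
    exact nsD s (by rw [← ha, hs, pow_two])
  have nsa' : ¬ IsSquare a := by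
    rintro ⟨s, hs⟩
    exact nsa ⟨s, by rw [hs, Units.val_mul]⟩
  obtain ⟨L, iF, iN, iA, α, hα, hdeg⟩ := aex_quad nsa
  have hfin : Module.Finite k L := Module.finite_of_finrank_pos (by rw [hdeg]; norm_num)
  obtain ⟨Q, hQa, hQα⟩ : ∃ Q : QK k L, Q.a = a ∧ Q.α = α := ⟨⟨a, α, ⟨hdeg, hα, nsa'⟩⟩, rfl, rfl⟩
  obtain ⟨j⟩ : Nonempty (L →ₐ[k] Om k) := ⟨IsAlgClosed.lift⟩
  obtain ⟨hFE, hCr, hHL, hS2⟩ := hE L iF iN iA Q j
  have hN : 4 - (Q.a : k) = ((4 - ((x : ℤ) ^ 2 + 2 * (l : ℤ) ^ 2) : ℤ) : k) := by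
    rw [hQa, ha]
    push_cast
    ring
  have hN1 : 4 - (Q.a : k) ≠ 0 := by
    rw [hN]
    exact hN0
  have hb0 : 2 + Q.α ≠ 0 := by
    intro h
    have h6 := aex_norm Q
    rw [h, Algebra.norm_zero] at h6
    exact hN1 h6.symm
  obtain ⟨b, hb⟩ : ∃ b : Lˣ, (b : L) = 2 + Q.α := ⟨Units.mk0 _ hb0, rfl⟩
  have hk : ∀ v : Pl k, Q.kap v b = 0 := by
    refine aex_kap Q (x : k) (l : k) ?_ ?_ hN1 b hb
    · exact Nat.cast_ne_zero.2 hl.ne_zero
    · rw [hQa, ha]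
      push_cast
      ring
  obtain ⟨f, hf⟩ := hFE b
  obtain ⟨ρ, hρ, -⟩ := hHL.1 b f hf ((hCr b f hf).2 hk)
  have hnr : ((QK.nr (k := k) b : kˣ) : k) =
      ((4 - ((x : ℤ) ^ 2 + 2 * (l : ℤ) ^ 2) : ℤ) : k) := by
    rw [← hN, ← aex_norm Q, ← hb]
    rfl
  refine ⟨ρ, (hS2 b ρ hρ).2 ⟨?_, ?_⟩, hρ.lc⟩
  · rintro ⟨s, hs⟩
    refine nsN (s : k) ?_
    rw [← hnr, hs, Units.val_mul, pow_two]
  · rintro ⟨s, hs⟩
    refine nsDN (s : k) ?_
    rw [Int.cast_mul, ← hnr, ← ha, ← hQa, ← Units.val_mul, hs, Units.val_mul, pow_two]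

end Pool.Agent.SK
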