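import Pool.Agent.SK.AStm

/-!
# Malle's conjecture for 8T8 over number fields, row A25: quadratic extensions with given data
-/

set_option autoImplicit false

open scoped BigOperators
open NumberField IsDedekindDomain

namespace Pool.Agent.SK

open Pool.Agent.H98.MF
open Pool.Agent.H32.MQ (HX)

/-- a quadratic extension with a square root of `a` -/
private theorem exx_quad {k : Type} [Field k] [NumberField k] {a : k} (ha : ¬ IsSquare a) :
    ∃ (L : Type) (_ : Field L) (_ : NumberField L) (_ : Algebra k L) (s : L)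
      (_ : L →ₐ[k] Om k), s ^ 2 = algebraMap k L a ∧ Module.finrank k L = 2 := by
  have hirr : Irreducible (Polynomial.X ^ 2 - Polynomial.C a) := by
    apply X_pow_sub_C_irreducible_of_prime Nat.prime_two
    intro b hb
    exact ha ⟨b, by rw [← hb, pow_two]⟩
  have : Fact (Irreducible (Polynomial.X ^ 2 - Polynomial.C a)) := ⟨hirr⟩
  have hfin : Module.Finite k (AdjoinRoot (Polynomial.X ^ 2 - Polynomial.C a)) :=
    (AdjoinRoot.powerBasis hirr.ne_zero).finite
  refine ⟨AdjoinRoot (Polynomial.X ^ 2 - Polynomial.C a), inferInstance,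
    NumberField.of_module_finite k _, inferInstance, AdjoinRoot.root _,
    IsAlgClosed.lift, ?_, ?_⟩
  · have h := AdjoinRoot.eval₂_root (Polynomial.X ^ 2 - Polynomial.C a)
    rw [Polynomial.eval₂_sub, Polynomial.eval₂_pow, Polynomial.eval₂_X, Polynomial.eval₂_C,
      sub_eq_zero] at h
    exact h
  · rw [(AdjoinRoot.powerBasis hirr.ne_zero).finrank, AdjoinRoot.powerBasis_dim,
      Polynomial.natDegree_X_pow_sub_C]

/-- A37: quadratic extensions with given data -/
theorem aExX {k : Type} [Field k] [NumberField k] (Fr : Frm k) : AExX Fr := by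
  intro a R ha hR
  have ha' : ¬ IsSquare (a : k) := by
    rintro ⟨b, hb⟩
    have hb0 : b ≠ 0 := by
      rintro rfl
      exact a.ne_zero (by rw [hb, mul_zero])
    refine ha ⟨Units.mk0 b hb0, Units.ext ?_⟩
    rw [Units.val_mul, Units.val_mk0]
    exact hb
  obtain ⟨L, _, _, _, s, j, hs, hL⟩ := exx_quad ha'
  exact ⟨L, inferInstance, inferInstance, inferInstance,
    { a := a, α := s, qe := ⟨hL, hs, ha⟩, δ := 1, M := R, unr := hR,
      evd := fun p _ Q _ => by rw [Units.val_one, ord_one]; exact Even.zero },
    j, rfl, rfl, rfl⟩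

end Pool.Agent.SK
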