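import Pool.Agent.SK.AStm

/-!
# Malle's conjecture for 8T8 over number fields, block A, row A38: discriminants, decomposition
-/

set_option autoImplicit false

open scoped BigOperators
open NumberField IsDedekindDomain

namespace Pool.Agent.SK

open Pool.Agent.H98.MF
open Pool.Agent.H98.MK (sg)
open Pool.Agent.H98.ML (norb hind)
open Pool.Agent.H32.MA (SD bit3 pm p5 pw)
open Pool.Agent.H32.MQ (HX El Qof rep co lrp)

theorem fdc_qS {k : Type} [Field k] [NumberField k] {Fr : Frm k} (R0 : Rx k)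
    (hR : ARexL R0 Fr) {ρ ρ' : Gm k →* SD} (h : ρ ∈ Hs k) (h' : ρ' ∈ Hs k)
    (he : EqS Fr ρ ρ') : qS R0 Fr ρ = qS R0 Fr ρ' := by
  unfold qS
  exact Finset.prod_congr rfl fun P hP => by rw [hR ρ h ρ' h' he P hP]

theorem fDsc {k : Type} [Field k] [NumberField k] {Fr : Frm k} {L : Type} [Field L]
    [NumberField L] [Algebra k L] (R0 : Rx k) (X : HX Fr L) (j : L →ₐ[k] Om k) (FL : Frm L)
    (hD : ADsE R0 X j) (hR : ARexL R0 Fr) (hG : AGd R0 X j) (hE : AEq R0 X j FL)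
    (hS : ATwS k) : FDsc R0 X j FL := by
  intro hO hM
  refine ⟨?_, ?_, ?_, ?_⟩
  · rintro g hg ρ ⟨γ, hγ, hρ⟩
    exact hD hM g hg γ hγ ρ hρ
  · intro φ ρ hρ ρ' hρ' he
    show φ (qS R0 Fr ρ) = φ (qS R0 Fr ρ')
    rw [fdc_qS R0 hR hρ hρ' he]
  · intro P hP φ ρ hρ ρ' hρ' he
    show φ (R0.rex P (SD.H0.comap ρ)) = φ (R0.rex P (SD.H0.comap ρ'))
    rw [hR ρ hρ ρ' hρ' he P hP]
  · classical
    let F : (FL.sys.T × FL.sys.T) × (Fr.sys.T × Fr.sys.T) → ℕ := fun q =>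
      if h : ∃ ρ : Gm k →* SD, ∃ γ, coL FL γ = q.1 ∧ ρ ∈ Hc R0 X j γ then
        qS R0 Fr (twS h.choose (lrp Fr q.2.1 q.2.2)) else 0
    refine (Set.finite_range F).subset ?_
    rintro _ ⟨ρ, hρ, rfl⟩
    obtain ⟨g, γ, hg, hγ, hc⟩ := hG ρ hρ
    have h : ∃ ρ : Gm k →* SD, ∃ γ', coL FL γ' = coL FL γ ∧ ρ ∈ Hc R0 X j γ' :=
      ⟨ρ, γ, rfl, hc⟩
    obtain ⟨γ', h1, h2⟩ := h.choose_spec
    obtain ⟨c, hcc⟩ := hE hO γ' γ h1 h.choose h2 ρ hc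
    refine ⟨(coL FL γ, c), ?_⟩
    show (if h : ∃ ρ : Gm k →* SD, ∃ γ', coL FL γ' = coL FL γ ∧ ρ ∈ Hc R0 X j γ' then
        qS R0 Fr (twS h.choose (lrp Fr c.1 c.2)) else 0) = qS R0 Fr ρ
    rw [dif_pos h]
    exact fdc_qS R0 hR ((hS _ h2.1.1).1 _) hρ.1 hcc

theorem fDec {k : Type} [Field k] [NumberField k] {Fr : Frm k} {L : Type} [Field L]
    [NumberField L] [Algebra k L] (R0 : Rx k) (X : HX Fr L) (j : L →ₐ[k] Om k)
    (hG : AGd R0 X j) (hq : AUq R0 X j) : FDec R0 X j := by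
  refine ⟨?_, ?_, ?_⟩
  · intro ρ hρ
    obtain ⟨g, γ, hg, hγ, hc⟩ := hG ρ hρ
    exact ⟨g, hg, γ, hγ, hc⟩
  · rintro g ρ ⟨γ, _, hc⟩
    exact hc.1
  · rintro g g' ρ ⟨γ, hγ, hc⟩ ⟨γ', hγ', hc'⟩
    have h1 : γ = γ' := hq.1 ρ γ γ' hc hc'
    subst h1
    exact hq.2 g g' γ hγ hγ'

end Pool.Agent.SK
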