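import Pool.Agent.SK.AStm
import Pool.Agent.H98.MF.L.ChiB

/-!
# Malle's conjecture for 8T8 over number fields, block A, row A3: the functions attached to an
element: existence, local constancy and the cocycle relation
-/

set_option autoImplicit false

open scoped BigOperators
open NumberField IsDedekindDomain

namespace Pool.Agent.SK

open Pool.Agent.H98.MF
open Pool.Agent.H32.MQ (HX)

section

variable {k : Type} [Field k] [NumberField k]

/-! ### signs -/

theorem fex_cases (x : ZMod 2) : x = 0 ∨ x = 1 := by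
  revert x; decide

omit [NumberField k] in
theorem fex_zero : sgO (k := k) 0 = 1 := if_pos rfl

omit [NumberField k] in
theorem fex_one : sgO (k := k) 1 = -1 := if_neg (by decide)

theorem fex_add (x y : ZMod 2) : sgO (k := k) (x + y) = sgO x * sgO y := by
  have h2 : (1 : ZMod 2) + 1 = 0 := by decide
  rcases fex_cases x with rfl | rfl <;> rcases fex_cases y with rfl | rfl
  · rw [add_zero, fex_zero, mul_one]
  · rw [zero_add, fex_zero, one_mul]
  · rw [add_zero, fex_zero, mul_one]
  · rw [h2, fex_zero, fex_one]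
    ring

theorem fex_sq (x : ZMod 2) : sgO (k := k) x * sgO x = 1 := by
  rcases fex_cases x with rfl | rfl
  · rw [fex_zero]; ring
  · rw [fex_one]; ring

theorem fex_ne (x : ZMod 2) : sgO (k := k) x ≠ 0 := by
  intro h
  have h1 := fex_sq (k := k) x
  rw [h, zero_mul] at h1
  exact zero_ne_one h1

theorem fex_inj {x y : ZMod 2} {c : Om k} (hc : c ≠ 0) (h : sgO x * c = sgO y * c) :
    x = y := by
  have h1 := mul_right_cancel₀ hc h
  have h5 : (1 : Om k) ≠ -1 := by
    intro h
    have h6 : (2 : Om k) = 0 := by linear_combination h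
    exact two_ne_zero h6
  rcases fex_cases x with rfl | rfl <;> rcases fex_cases y with rfl | rfl
  · rfl
  · rw [fex_zero, fex_one] at h1
    exact absurd h1 h5
  · rw [fex_zero, fex_one] at h1
    exact absurd h1.symm h5
  · rfl

theorem fex_map (σ : Gm k) (x : ZMod 2) : σ (sgO x) = sgO x := by
  rcases fex_cases x with rfl | rfl
  · rw [fex_zero]; exact map_one σ
  · rw [fex_one, map_neg, map_one]

theorem fex_chi (d : k) (σ : Gm k) :
    σ (Pool.Agent.H98.MF.sq d) = sgO (chi d σ) * Pool.Agent.H98.MF.sq d := by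
  have h4 : (1 : ZMod 2) ≠ 0 := by decide
  have h1 : σ (Pool.Agent.H98.MF.sq d) ^ 2 = Pool.Agent.H98.MF.sq d ^ 2 := by
    rw [← map_pow, sq_sq, AlgEquiv.commutes]
  unfold chi sgO
  by_cases h : σ (Pool.Agent.H98.MF.sq d) = Pool.Agent.H98.MF.sq d
  · rw [if_pos h, if_pos rfl, h, one_mul]
  · rw [if_neg h, if_neg h4]
    rcases sq_eq_sq_iff_eq_or_eq_neg.1 h1 with h2 | h2
    · exact absurd h2 h
    · rw [h2]
      ring

/-- any square root of an element of `k` transforms with the same character -/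
theorem fex_root {d : k} {s : Om k} (hs : s ^ 2 = algebraMap k (Om k) d) (σ : Gm k) :
    σ s = sgO (chi d σ) * s := by
  have h1 : s ^ 2 = Pool.Agent.H98.MF.sq d ^ 2 := by rw [hs, sq_sq]
  rcases sq_eq_sq_iff_eq_or_eq_neg.1 h1 with h2 | h2
  · rw [h2, fex_chi]
  · rw [h2, map_neg, fex_chi]
    ring

omit [NumberField k] in
/-- functions depending on finitely many values are locally constant -/
theorem fex_loc {β : Type} (s : Finset (Om k)) (f : Gm k → β)
    (hf : ∀ σ τ : Gm k, (∀ x ∈ s, σ x = τ x) → f σ = f τ) : IsLocallyConstant f := by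
  rw [IsLocallyConstant.iff_exists_open]
  intro σ
  have hfin : FiniteDimensional k (IntermediateField.adjoin k (s : Set (Om k))) := by
    apply IntermediateField.finiteDimensional_adjoin
    intro x _
    exact Algebra.IsIntegral.isIntegral x
  have hopen := IntermediateField.fixingSubgroup_isOpen
    (IntermediateField.adjoin k (s : Set (Om k)))
  refine ⟨(fun τ : Gm k => σ⁻¹ * τ) ⁻¹'
    ((IntermediateField.adjoin k (s : Set (Om k))).fixingSubgroup : Set (Gm k)),
    hopen.preimage (continuous_const.mul continuous_id), ?_, ?_⟩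
  · show σ⁻¹ * σ ∈ (IntermediateField.adjoin k (s : Set (Om k))).fixingSubgroup
    rw [inv_mul_cancel]
    exact Subgroup.one_mem _
  · intro τ hτ
    apply hf
    intro x hx
    have h1 : (σ⁻¹ * τ) x = x := by
      have h2 := (IntermediateField.mem_fixingSubgroup_iff _ _).1 hτ x
      exact h2 (IntermediateField.subset_adjoin k _ hx)
    have h3 : σ ((σ⁻¹ * τ) x) = τ x := by
      rw [← AlgEquiv.mul_apply, ← mul_assoc, mul_inv_cancel, one_mul]
    rw [← h3, h1]

end

/-! ### the functions -/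

section

variable {k : Type} [Field k] [NumberField k] {L : Type} [Field L] [NumberField L]
  [Algebra k L]

theorem fex_nm (Q : QK k L) (j : L →ₐ[k] Om k) (b : L) :
    j b * j (Q.sig b) = algebraMap k (Om k) (Algebra.norm k b) := by
  rw [← map_mul, ← Q.nm_eq, AlgHom.commutes]

/-- A3: existence of the functions -/
theorem aFEx (Q : QK k L) (j : L →ₐ[k] Om k) (hA : AAct Q j) : AFEx Q j := by
  classical
  intro b
  have hz4 : (1 : ZMod 2) ≠ 0 := by decide
  have hjb : j (b : L) ≠ 0 := (map_ne_zero j).2 b.ne_zero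
  obtain ⟨θ, hθ⟩ := IsAlgClosed.exists_pow_nat_eq (j (b : L)) (n := 2) two_pos
  have hθ0 : θ ≠ 0 := by
    intro h
    apply hjb
    rw [← hθ, h]
    exact zero_pow two_ne_zero
  set q : Om k := Pool.Agent.H98.MF.sq (Algebra.norm k (b : L)) / θ with hq
  have hθ2 : q ^ 2 = j (Q.sig (b : L)) := by
    rw [hq, div_pow, sq_sq, hθ, ← fex_nm Q j b]
    field_simp
  refine ⟨fun σ => if chi (Q.a : k) σ = 0 then (if σ θ = θ then 0 else 1)
    else (if σ θ = q then 0 else 1), θ, q, hθ, hθ2, ?_, ?_⟩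
  · intro σ hσ
    have h2 := (hA σ b).1 hσ
    have h3 : (σ θ) ^ 2 = θ ^ 2 := by rw [← map_pow, hθ, h2]
    show σ θ = sgO (if chi (Q.a : k) σ = 0 then (if σ θ = θ then 0 else 1)
      else (if σ θ = q then 0 else 1)) * θ
    rw [if_pos hσ]
    by_cases h4 : σ θ = θ
    · rw [if_pos h4, h4, fex_zero, one_mul]
    · rw [if_neg h4, fex_one]
      rcases sq_eq_sq_iff_eq_or_eq_neg.1 h3 with h5 | h5
      · exact absurd h5 h4
      · rw [h5]
        ring
  · intro σ hσ
    have h2 := (hA σ b).2 hσ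
    have h3 : (σ θ) ^ 2 = q ^ 2 := by rw [← map_pow, hθ, h2, hθ2]
    show σ θ = sgO (if chi (Q.a : k) σ = 0 then (if σ θ = θ then 0 else 1)
      else (if σ θ = q then 0 else 1)) * q
    rw [if_neg (by rw [hσ]; exact hz4)]
    by_cases h4 : σ θ = q
    · rw [if_pos h4, h4, fex_zero, one_mul]
    · rw [if_neg h4, fex_one]
      rcases sq_eq_sq_iff_eq_or_eq_neg.1 h3 with h5 | h5
      · exact absurd h5 h4
      · rw [h5]
        ring

/-- A3: the functions are locally constant and satisfy the cocycle relation -/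
theorem aFCo (Q : QK k L) (j : L →ₐ[k] Om k) (hA : AAct Q j) : AFCo Q j := by
  classical
  have _ := hA
  intro b f hf
  obtain ⟨θ, θ', hθ, hθ', hf0, hf1⟩ := hf
  have hjb : j (b : L) ≠ 0 := (map_ne_zero j).2 b.ne_zero
  have hjc : j (Q.sig (b : L)) ≠ 0 := (map_ne_zero j).2 ((map_ne_zero Q.sig).2 b.ne_zero)
  have hθ0 : θ ≠ 0 := by
    intro h
    apply hjb
    rw [← hθ, h]
    exact zero_pow two_ne_zero
  have hθ'0 : θ' ≠ 0 := by
    intro h
    apply hjc
    rw [← hθ', h]
    exact zero_pow two_ne_zero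
  have hs : (θ * θ') ^ 2 = algebraMap k (Om k) ((QK.nr (k := k) b : kˣ) : k) := by
    rw [mul_pow, hθ, hθ', fex_nm]
    rfl
  have hg0 : ∀ σ : Gm k, chi (Q.a : k) σ = 0 →
      σ θ' = sgO (chi ((QK.nr (k := k) b : kˣ) : k) σ) * sgO (f σ) * θ' := by
    intro σ hσ
    have h1 := fex_root hs σ
    rw [map_mul, hf0 σ hσ] at h1
    have h2 := fex_sq (k := k) (f σ)
    apply mul_left_cancel₀ (mul_ne_zero (fex_ne (f σ)) hθ0)
    rw [h1]
    linear_combination -sgO (chi ((QK.nr (k := k) b : kˣ) : k) σ) * θ * θ' * h2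
  have hg1 : ∀ σ : Gm k, chi (Q.a : k) σ = 1 →
      σ θ' = sgO (chi ((QK.nr (k := k) b : kˣ) : k) σ) * sgO (f σ) * θ := by
    intro σ hσ
    have h1 := fex_root hs σ
    rw [map_mul, hf1 σ hσ] at h1
    have h2 := fex_sq (k := k) (f σ)
    apply mul_left_cancel₀ (mul_ne_zero (fex_ne (f σ)) hθ'0)
    rw [h1]
    linear_combination -sgO (chi ((QK.nr (k := k) b : kˣ) : k) σ) * θ * θ' * h2
  refine ⟨?_, ?_⟩
  · refine fex_loc {Pool.Agent.H98.MF.sq (Q.a : k), θ} f ?_
    intro σ τ h
    have h2 : σ (Pool.Agent.H98.MF.sq (Q.a : k)) = τ (Pool.Agent.H98.MF.sq (Q.a : k)) :=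
      h _ (by simp)
    have h3 : σ θ = τ θ := h θ (by simp)
    have h4 : chi (Q.a : k) σ = chi (Q.a : k) τ := by
      unfold chi
      rw [h2]
    rcases fex_cases (chi (Q.a : k) σ) with hσ | hσ
    · apply fex_inj hθ0
      rw [← hf0 σ hσ, ← hf0 τ (h4 ▸ hσ), h3]
    · apply fex_inj hθ'0
      rw [← hf1 σ hσ, ← hf1 τ (h4 ▸ hσ), h3]
  · intro σ τ
    have hm := chi_hom (Q.a : k) σ τ
    rcases fex_cases (chi (Q.a : k) σ) with hσ | hσ <;>
      rcases fex_cases (chi (Q.a : k) τ) with hτ | hτ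
    · rw [hτ, mul_zero, add_zero]
      rw [hσ, hτ, add_zero] at hm
      apply fex_inj hθ0
      rw [← hf0 _ hm, AlgEquiv.mul_apply, hf0 τ hτ, map_mul, fex_map, hf0 σ hσ, fex_add]
      ring
    · rw [hτ, mul_one]
      rw [hσ, hτ, zero_add] at hm
      apply fex_inj hθ'0
      rw [← hf1 _ hm, AlgEquiv.mul_apply, hf1 τ hτ, map_mul, fex_map, hg0 σ hσ, fex_add,
        fex_add]
      ring
    · rw [hτ, mul_zero, add_zero]
      rw [hσ, hτ, add_zero] at hm
      apply fex_inj hθ'0
      rw [← hf1 _ hm, AlgEquiv.mul_apply, hf0 τ hτ, map_mul, fex_map, hf1 σ hσ, fex_add]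
      ring
    · rw [hτ, mul_one]
      rw [hσ, hτ] at hm
      have hm' : chi (Q.a : k) (σ * τ) = 0 := by
        rw [hm]
        decide
      apply fex_inj hθ0
      rw [← hf0 _ hm', AlgEquiv.mul_apply, hf1 τ hτ, map_mul, fex_map, hg1 σ hσ, fex_add,
        fex_add]
      ring

end

end Pool.Agent.SK
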