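import Pool.Agent.SK.AFibU

/-!
# Malle's conjecture for 8T8 over number fields, block A, row A36: bounds, vanishing and
comparison of the Fourier coefficients
-/

set_option autoImplicit false

open scoped BigOperators
open NumberField IsDedekindDomain

namespace Pool.Agent.SK

open Pool.Agent.H98.MF
open Pool.Agent.H98.MK (sg)
open Pool.Agent.H32.MA (SD)
open Pool.Agent.H32.MQ (HX El Qof rep co odp mem_odp h_co h_coU h_repO hb_two lrp)

section

variable {k : Type} [Field k] [NumberField k] {Fr : Frm k} {L : Type} [Field L]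
  [NumberField L] [Algebra k L] (R0 : Rx k) (X : HX Fr L) (j : L →ₐ[k] Om k)

theorem frs_prc_nonneg {S : Pool.Agent.H98.MF.Sys} (Q : Pool.Agent.H32.MQ.Qd S) (γ : Q.G)
    (g : Finset Q.P) : 0 ≤ prc Q γ g := by
  unfold prc
  refine Finset.prod_nonneg fun b _ => ?_
  have h := abs_sgr (Q.sy γ (Q.cj b))
  have h1 := neg_abs_le (((sg (Q.sy γ (Q.cj b)) : ℤ) : ℝ))
  rw [h] at h1
  linarith

theorem frs_prc_one {S : Pool.Agent.H98.MF.Sys} (Q : Pool.Agent.H32.MQ.Qd S) (γ : Q.G)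
    (g : Finset Q.P) (h : ∀ b ∈ g, Q.sy γ (Q.cj b) = 0) : prc Q γ g = 2 ^ g.card := by
  unfold prc
  rw [← Finset.prod_const]
  refine Finset.prod_congr rfl fun b hb => ?_
  rw [h b hb, sg_zero]
  norm_num

theorem frs_twi (w : (Gm k →* SD) → ℝ) (A : ℝ) (hA : ∀ ρ, |w ρ| ≤ A) (b : Fr.sys.T)
    (ρ : Gm k →* SD) : |twi (Fr := Fr) w b ρ| ≤ 4 ^ Fr.sys.m * A := by
  unfold twi
  refine (Finset.abs_sum_le_sum_abs _ _).trans ?_
  have h1 : ∀ c ∈ (Finset.univ : Finset (Fr.sys.T × Fr.sys.T)),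
      |((sg (b ⬝ᵥ c.2) : ℤ) : ℝ) * w (twS ρ (lrp Fr c.1 c.2))| ≤ A := by
    intro c _
    rw [abs_mul, abs_sgr, one_mul]
    exact hA _
  refine (Finset.sum_le_sum h1).trans ?_
  rw [Finset.sum_const, nsmul_eq_mul, Finset.card_univ, Fintype.card_prod, Fintype.card_fun,
    ZMod.card, Fintype.card_fin]
  push_cast
  rw [← mul_pow]
  norm_num

/-- F3 -/
theorem fBd (hQ : AQz X j) : FBd R0 X j := by
  intro hM w A hA g hg γ hγ b
  have hA0 : 0 ≤ A := (abs_nonneg _).trans (hA 1)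
  have hγ' : γ ∈ X.Bs g :=
    (Pool.Agent.H32.MQ.hi_mem X (Pool.Agent.H32.MQ.h_cardB X)).1 hγ
  have h4 : (0 : ℝ) ≤ 4 ^ Fr.sys.m * A := mul_nonneg (by positivity) hA0
  unfold tauW
  split_ifs with h
  · have h5 := hQ g hg γ hγ' h.choose h.choose_spec.2
    have h6 : prc (Qof X) γ g = 2 ^ g.card := frs_prc_one (Qof X) γ g fun b hb => h5 b hb
    rw [h6]
    exact mul_le_mul_of_nonneg_right (frs_twi w A hA b _) (by positivity)
  · rw [abs_zero, zero_mul]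
    exact mul_nonneg h4 (frs_prc_nonneg (Qof X) γ g)

/-- F4 -/
theorem fVan (hv : AVan Fr) : FVan R0 X j := by
  intro hM w hw b hsq hne γ
  unfold tauW
  split_ifs with h
  · have h1 := h.choose_spec
    exact hv w hw _ h1.1.1 X.a b h1.1.2.1 hsq hne
  · rfl

/-- F8 -/
theorem fTau (hx : ATwEx (qk X) j) (hy : ATy R0 X j) (hA : ATwA k) (hT : ATwT R0)
    (hE : AEqT Fr) (hw : ATwi Fr) : FTau R0 X j := by
  classical
  intro hM w hsl g hg γ hγ ρ hρ b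
  have hγ' : γ ∈ X.Bs g :=
    (Pool.Agent.H32.MQ.hi_mem X (Pool.Agent.H32.MQ.h_cardB X)).1 hγ
  have hex : ∃ ρ, ρ ∈ Hc R0 X j γ := ⟨ρ, hρ⟩
  have ht : tauW R0 X j w b γ = twi (Fr := Fr) w b hex.choose := by
    unfold tauW
    rw [dif_pos hex]
  have hc := hex.choose_spec
  rw [ht]
  set ρ0 := hex.choose with hρ0
  obtain ⟨c, hcc⟩ := hx _ ρ ρ0 hρ.2 hc.2
  have hco : co Fr c = ((co Fr c).1, (co Fr c).2) := rfl
  have hev : ∀ p, p ∉ (Qof X).shd g → Even (ord (Fr.pl p) (c : k)) := by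
    intro p hp
    have hpM : p ∉ X.M := by rw [hM]; exact Finset.notMem_empty p
    have h1 := (hy g hg γ hγ' ρ hρ p hpM).2 hp
    have h2 := (hy g hg γ hγ' ρ0 hc p hpM).2 hp
    rcases hcc with h | h
    · rw [h, hT ρ c (Fr.pl p) (hb_two Fr p), h1, one_mul] at h2
      exact ZMod.intCast_eq_zero_iff_even.1 (fbu_zz1 _ h2)
    · rw [h, hT (cjS ρ) c (Fr.pl p) (hb_two Fr p), cjS_apply, h1, map_one, one_mul] at h2
      exact ZMod.intCast_eq_zero_iff_even.1 (fbu_zz1 _ h2)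
  have e1 : EqS Fr (twS ρ (lrp Fr (co Fr c).1 (Fr.sys.tys (co Fr c).2))) (twS ρ c) := by
    have h3 := hE.2.2.2.2.2 ρ (co Fr c)
    rw [← fbu_co hA ρ c] at h3
    exact hE.2.1 _ _ h3
  have e2 : EqS Fr (twS ρ (lrp Fr (co Fr c).1 (Fr.sys.tys (co Fr c).2))) ρ0 := by
    rcases hcc with h | h
    · rw [h]
      exact e1
    · rw [h, ← (hA ρ c 1).2.1]
      exact hE.2.2.1 _ _ _ e1 (hE.2.2.2.1 _)
  refine ⟨(co Fr c).2, ?_, ?_⟩
  · intro p hp
    by_contra hcon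
    have h1 : Odd (ord (Fr.pl p) (c : k)) := (mem_odp Fr).1 hp
    exact (Int.not_even_iff_odd.2 h1) (hev p hcon)
  · exact hw w hsl ρ hρ.1.1 ρ0 hc.1.1 b ((co Fr c).1, Fr.sys.tys (co Fr c).2) e2

end

end Pool.Agent.SK
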