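import Pool.Agent.SK.AStm

/-!
# Malle's conjecture for 8T8 over number fields, block A: the product formula for the symbols at
the conjugate primes
-/

set_option autoImplicit false

open scoped BigOperators
open NumberField IsDedekindDomain

namespace Pool.Agent.SK

open Pool.Agent.H98.MF
open Pool.Agent.H98.MK (sg)
open Pool.Agent.H32.MQ (HX El Qof rep co lrp hi_mem h_cardB hb_two hb_notMem)

private theorem fsp_two : ∀ a b : ZMod 2, a + b = 0 → b = a := by decide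

/-- F5: the product formula for the symbols at the conjugate primes -/
theorem fSpin {k : Type} [Field k] [NumberField k] {Fr : Frm k} {L : Type} [Field L]
    [NumberField L] [Algebra k L] (X : HX Fr L) (FL : Frm L) (hB : ABsE X) (ha : AKapA X)
    (hb : AKapB X) (hF : AKapF (qk X)) (hK : AKapS X FL) : FSpin X FL := by
  classical
  intro hO hM g hg γ hγ
  have hγ' : γ ∈ X.Bs g := (hi_mem X (h_cardB X)).1 hγ
  obtain ⟨hB1, hB2⟩ := hB g hg γ hγ'
  have hex : ∃ γ₁, ∃ g₁, (Qof X).Gd g₁ ∧ γ₁ ∈ X.Bs g₁ ∧ coL FL γ₁ = coL FL γ :=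
    ⟨γ, g, hg, hγ', rfl⟩
  have h1 : hsW X FL (coL FL γ) = ∑ v ∈ pls Fr.S, (qk X).kap v (HX.out γ) := by
    unfold hsW
    rw [dif_pos hex]
    obtain ⟨_, _, _, h2⟩ := hex.choose_spec
    exact Finset.sum_congr rfl fun v hv => hK hO _ _ h2 v hv
  obtain ⟨S2, hS2⟩ : ∃ S2, S2 = Fr.S ∪ g.image (fun Q : X.PX => Fr.pl (X.shX Q)) := ⟨_, rfl⟩
  have hnot : ∀ P : HeightOneSpectrum (𝓞 k), P ∉ Fr.S → ∃ p, Fr.pl p = P :=
    fun P hP => (Fr.pl_iff P).2 hP
  have h2S : ∀ P : HeightOneSpectrum (𝓞 k), 0 < ord P (2 : k) → P ∈ S2 := by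
    intro P hP
    by_contra hc
    obtain ⟨p, rfl⟩ := hnot P fun h => hc (by rw [hS2]; exact Finset.mem_union_left _ h)
    rw [hb_two Fr p] at hP
    exact lt_irrefl _ hP
  have hout : ∀ P : HeightOneSpectrum (𝓞 k), P ∉ S2 →
      (qk X).kap (Sum.inl P) (HX.out γ) = 0 := by
    intro P hP
    rw [hS2, Finset.mem_union, not_or] at hP
    obtain ⟨p, rfl⟩ := hnot P hP.1
    have hpM : p ∉ X.M := by rw [hM]; exact Finset.notMem_empty p
    refine ha p hpM (HX.out γ) (hB2 p hpM fun h => hP.2 ?_)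
    unfold Pool.Agent.H32.MQ.Qd.shd at h
    obtain ⟨Q, hQ, hQp⟩ := Finset.mem_image.1 h
    refine Finset.mem_image.2 ⟨Q, hQ, ?_⟩
    exact congrArg Fr.pl hQp
  have h2 := hF S2 (HX.out γ) h2S hout
  have hinj : ∀ Q ∈ g, ∀ Q' ∈ g, (fun Q : X.PX => Fr.pl (X.shX Q)) Q =
      (fun Q : X.PX => Fr.pl (X.shX Q)) Q' → Q = Q' := fun Q hQ Q' hQ' h =>
    hg Q hQ Q' hQ' (Fr.pl_inj h)
  have hdis : Disjoint Fr.S (g.image (fun Q : X.PX => Fr.pl (X.shX Q))) := by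
    rw [Finset.disjoint_left]
    intro P hP hP'
    obtain ⟨Q, _, rfl⟩ := Finset.mem_image.1 hP'
    exact hb_notMem Fr _ hP
  have h3 : ∑ v ∈ pls S2, (qk X).kap v (HX.out γ) =
      ∑ v ∈ pls Fr.S, (qk X).kap v (HX.out γ) +
        ∑ Q ∈ g, (qk X).kap (Sum.inl (Fr.pl (X.shX Q))) (HX.out γ) := by
    have himg : ∀ F : HeightOneSpectrum (𝓞 k) → ZMod 2,
        ∑ P ∈ g.image (fun Q : X.PX => Fr.pl (X.shX Q)), F P =
          ∑ Q ∈ g, F (Fr.pl (X.shX Q)) := fun F => Finset.sum_image hinj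
    unfold pls
    rw [Finset.sum_disjSum, Finset.sum_disjSum, hS2, Finset.sum_union hdis]
    erw [himg]
    ring
  rw [h3] at h2
  have h4 : ∑ Q ∈ g, (qk X).kap (Sum.inl (Fr.pl (X.shX Q))) (HX.out γ) =
      ∑ Q ∈ g, (Qof X).sy γ ((Qof X).cj Q) :=
    Finset.sum_congr rfl fun Q hQ => hb Q (HX.out γ) (hB1 Q hQ).1 (hB1 Q hQ).2
  rw [h1, ← h4]
  exact fsp_two _ _ h2

end Pool.Agent.SK
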