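import Pool.Agent.SK.AStm
import Pool.Agent.H98.MF.SClassSum

/-!
# Malle's conjecture for 8T8 over number fields, block A, row A35: the sum over the homomorphisms
attached to a good set
-/

set_option autoImplicit false

open scoped BigOperators
open NumberField IsDedekindDomain

namespace Pool.Agent.SK

open Pool.Agent.H98.MF
open Pool.Agent.H98.MK (sg)
open Pool.Agent.H98.ML (norb hind)
open Pool.Agent.H32.MA (SD bit3 pm p5 pw)
open Pool.Agent.H32.MQ (HX El Qof rep co lrp)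

theorem fsm_sgr (a b : ZMod 2) : ((sg (a + b) : ℤ) : ℝ) = ((sg a : ℤ) : ℝ) * ((sg b : ℤ) : ℝ) := by
  rw [sg_add]
  push_cast
  rfl

theorem fsm_orth {m : ℕ} (k k' : Fin m → ZMod 2) :
    ∑ c : Fin m → ZMod 2, ((sg (c ⬝ᵥ k') : ℤ) : ℝ) * ((sg (c ⬝ᵥ k) : ℤ) : ℝ) =
      if k' = k then 2 ^ m else 0 := by
  have h1 : ∀ c : Fin m → ZMod 2, ((sg (c ⬝ᵥ k') : ℤ) : ℝ) * ((sg (c ⬝ᵥ k) : ℤ) : ℝ) =
      ((sg (c ⬝ᵥ (k' + k)) : ℤ) : ℝ) := by
    intro c
    rw [dotProduct_add, sg_add]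
    push_cast
    rfl
  rw [Finset.sum_congr rfl fun c _ => h1 c, ← Int.cast_sum, cls_sum_T]
  have h2 : k' + k = 0 ↔ k' = k := by
    constructor
    · intro h
      funext i
      exact CharTwo.add_eq_zero.1 (congrFun h i)
    · rintro rfl
      funext i
      exact CharTwo.add_self_eq_zero _
  by_cases h : k' = k
  · rw [if_pos h, if_pos (h2.2 h)]
    push_cast
    rfl
  · rw [if_neg h, if_neg fun h3 => h (h2.1 h3)]
    push_cast
    rfl

open Classical in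
/-- the product of the factors as a sum over the subsets -/
theorem fsm_prod {k : Type} [Field k] [NumberField k] (Fr : Frm k) (b : Fr.sys.T)
    (s : Finset Fr.sys.P) : ∏ p ∈ s, (1 + ((sg (b ⬝ᵥ Fr.sys.ty p) : ℤ) : ℝ)) =
      ∑ x ∈ s.powerset, ((sg (b ⬝ᵥ Fr.sys.tys x) : ℤ) : ℝ) := by
  rw [Finset.prod_one_add]
  refine Finset.sum_congr rfl fun x _ => ?_
  have h1 : b ⬝ᵥ Fr.sys.tys x = ∑ p ∈ x, b ⬝ᵥ Fr.sys.ty p := by
    unfold Sys.tys
    rw [dotProduct_sum]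
  rw [h1, sg_sum]
  push_cast
  rfl

open Classical in
/-- the Fourier inversion -/
theorem fsm_four {k : Type} [Field k] [NumberField k] (Fr : Frm k) (w : (Gm k →* SD) → ℝ)
    (ρ : Gm k →* SD) (s : Finset Fr.sys.P) :
    ∑ b : Fr.sys.T, twi (Fr := Fr) w b ρ *
        ∏ p ∈ s, (1 + ((sg (b ⬝ᵥ Fr.sys.ty p) : ℤ) : ℝ)) =
      2 ^ Fr.sys.m * ∑ t : Fr.sys.T, ∑ x ∈ s.powerset, w (twS ρ (lrp Fr t (Fr.sys.tys x))) := by
  have h1 : ∀ b : Fr.sys.T, twi (Fr := Fr) w b ρ *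
      ∏ p ∈ s, (1 + ((sg (b ⬝ᵥ Fr.sys.ty p) : ℤ) : ℝ)) =
      ∑ t : Fr.sys.T, ∑ x ∈ s.powerset, ∑ κ : Fr.sys.T,
        (((sg (b ⬝ᵥ κ) : ℤ) : ℝ) * ((sg (b ⬝ᵥ Fr.sys.tys x) : ℤ) : ℝ)) *
          w (twS ρ (lrp Fr t κ)) := by
    intro b
    unfold twi
    rw [fsm_prod, Fintype.sum_prod_type, Finset.sum_mul]
    refine Finset.sum_congr rfl fun t _ => ?_
    rw [Finset.sum_mul_sum, Finset.sum_comm]
    refine Finset.sum_congr rfl fun x _ => Finset.sum_congr rfl fun κ _ => ?_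
    ring
  rw [Finset.sum_congr rfl fun b _ => h1 b, Finset.sum_comm, Finset.mul_sum]
  refine Finset.sum_congr rfl fun t _ => ?_
  rw [Finset.sum_comm, Finset.mul_sum]
  refine Finset.sum_congr rfl fun x _ => ?_
  rw [Finset.sum_comm]
  have h2 : ∀ κ : Fr.sys.T, ∑ b : Fr.sys.T,
      (((sg (b ⬝ᵥ κ) : ℤ) : ℝ) * ((sg (b ⬝ᵥ Fr.sys.tys x) : ℤ) : ℝ)) *
        w (twS ρ (lrp Fr t κ)) =
      if κ = Fr.sys.tys x then 2 ^ Fr.sys.m * w (twS ρ (lrp Fr t κ)) else 0 := by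
    intro κ
    rw [← Finset.sum_mul, fsm_orth]
    split_ifs
    · rfl
    · rw [zero_mul]
  rw [Finset.sum_congr rfl fun κ _ => h2 κ, Finset.sum_ite_eq', if_pos (Finset.mem_univ _)]

theorem fSum {k : Type} [Field k] [NumberField k] {Fr : Frm k} {L : Type} [Field L]
    [NumberField L] [Algebra k L] (R0 : Rx k) (X : HX Fr L) (j : L →ₐ[k] Om k)
    (hU : AFibU R0 X j) (hF : AFibE R0 X j) (hE : AEqT Fr) (hA : ATwA k) (hS : ATwS k)
    (hq : AUq R0 X j) : FSum R0 X j := by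
  classical
  intro hM w hw g hg
  have key : ∀ B : Finset (HX.GX L), (∀ γ, γ ∈ B ↔ γ ∈ X.Bs g) →
      (Hg R0 X j g).Finite ∧
      ∑ᶠ ρ ∈ Hg R0 X j g, w ρ = 2 * ((2 : ℝ) ^ Fr.sys.m)⁻¹ * ∑ b : Fr.sys.T,
        ∑ γ ∈ B, tauW R0 X j w b γ *
          ∏ p ∈ (Qof X).shd g, (1 + ((sg (b ⬝ᵥ Fr.sys.ty p) : ℤ) : ℝ)) := by
    intro B hmem
    have hun : Hg R0 X j g = ⋃ γ ∈ (B : Set (HX.GX L)), Hc R0 X j γ := by
      ext ρ
      rw [Set.mem_iUnion₂]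
      constructor
      · rintro ⟨γ, hγ, hc⟩
        exact ⟨γ, Finset.mem_coe.2 ((hmem γ).2 hγ), hc⟩
      · rintro ⟨γ, hγ, hc⟩
        exact ⟨γ, (hmem γ).1 (Finset.mem_coe.1 hγ), hc⟩
    have hfin : ∀ γ ∈ (B : Set (HX.GX L)), (Hc R0 X j γ).Finite := fun γ hγ =>
      (hU g hg γ ((hmem γ).1 (Finset.mem_coe.1 hγ))).1
    have hfinB : (B : Set (HX.GX L)).Finite := Finset.finite_toSet _
    refine ⟨?_, ?_⟩
    · rw [hun]
      exact Set.Finite.biUnion hfinB hfin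
    have hdis : (B : Set (HX.GX L)).PairwiseDisjoint (fun γ => Hc R0 X j γ) := by
      intro γ _ γ' _ hne
      rw [Function.onFun, Set.disjoint_left]
      intro ρ h1 h2
      exact hne (hq.1 ρ γ γ' h1 h2)
    rw [hun, finsum_mem_biUnion hdis hfinB hfin, finsum_mem_coe_finset]
    -- one class
    have hone : ∀ γ ∈ B, ∑ᶠ ρ ∈ Hc R0 X j γ, w ρ =
        2 * ((2 : ℝ) ^ Fr.sys.m)⁻¹ * ∑ b : Fr.sys.T, tauW R0 X j w b γ *
          ∏ p ∈ (Qof X).shd g, (1 + ((sg (b ⬝ᵥ Fr.sys.ty p) : ℤ) : ℝ)) := by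
      intro γ hγ
      by_cases h : ∃ ρ, ρ ∈ Hc R0 X j γ
      · have ht : ∀ b : Fr.sys.T, tauW R0 X j w b γ = twi (Fr := Fr) w b h.choose := fun b => by
          unfold tauW
          rw [dif_pos h]
        have hc := h.choose_spec
        set ρ := h.choose with hρ
        have e1 : ∑ b : Fr.sys.T, tauW R0 X j w b γ *
            ∏ p ∈ (Qof X).shd g, (1 + ((sg (b ⬝ᵥ Fr.sys.ty p) : ℤ) : ℝ)) =
            ∑ b : Fr.sys.T, twi (Fr := Fr) w b ρ *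
            ∏ p ∈ (Qof X).shd g, (1 + ((sg (b ⬝ᵥ Fr.sys.ty p) : ℤ) : ℝ)) :=
          Finset.sum_congr rfl fun b _ => by rw [ht b]
        rw [hF hM g hg γ ((hmem γ).1 hγ) ρ hc w, e1, fsm_four]
        have hHs : ρ ∈ Hs k := hc.1.1
        have h0 : ∀ c : kˣ, twS ρ c ∈ Hs k := (hS ρ hHs).1
        have h3 : ∀ (t : Fr.sys.T) (x : Finset Fr.sys.P),
            w (twS ρ (rep Fr (t, x))) + w (twS (cjS ρ) (rep Fr (t, x))) =
              2 * w (twS ρ (lrp Fr t (Fr.sys.tys x))) := by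
          intro t x
          have h4 : w (twS ρ (rep Fr (t, x))) = w (twS ρ (lrp Fr t (Fr.sys.tys x))) :=
            hw _ (h0 _) _ (h0 _) (hE.2.2.2.2.2 ρ (t, x))
          have h5 : w (twS (cjS ρ) (rep Fr (t, x))) = w (twS ρ (rep Fr (t, x))) := by
            rw [← (hA ρ (rep Fr (t, x)) 1).2.1]
            exact (hw _ (h0 _) _ ((hS _ (h0 _)).2.1) (hE.2.2.2.1 _)).symm
          rw [h5, h4]
          ring
        have e2 : ∑ t : Fr.sys.T, ∑ x ∈ ((Qof X).shd g).powerset,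
            (w (twS ρ (rep Fr (t, x))) + w (twS (cjS ρ) (rep Fr (t, x)))) =
            ∑ t : Fr.sys.T, ∑ x ∈ ((Qof X).shd g).powerset,
              2 * w (twS ρ (lrp Fr t (Fr.sys.tys x))) :=
          Finset.sum_congr rfl fun t _ => Finset.sum_congr rfl fun x _ => h3 t x
        rw [e2]
        simp only [← Finset.mul_sum]
        have h6 : (2 : ℝ) ^ Fr.sys.m ≠ 0 := by positivity
        field_simp
      · have h7 : Hc R0 X j γ = ∅ := Set.eq_empty_iff_forall_notMem.2 fun ρ hρ => h ⟨ρ, hρ⟩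
        have ht : ∀ b : Fr.sys.T, tauW R0 X j w b γ = 0 := fun b => by
          unfold tauW
          rw [dif_neg h]
        have e3 : ∑ b : Fr.sys.T, tauW R0 X j w b γ *
            ∏ p ∈ (Qof X).shd g, (1 + ((sg (b ⬝ᵥ Fr.sys.ty p) : ℤ) : ℝ)) = 0 :=
          Finset.sum_eq_zero fun b _ => by rw [ht b, zero_mul]
        rw [h7, finsum_mem_empty, e3, mul_zero]
    rw [Finset.sum_congr rfl hone, ← Finset.mul_sum, Finset.sum_comm]
  exact key ((Qof X).B g) fun γ =>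
    Pool.Agent.H32.MQ.hi_mem X (Pool.Agent.H32.MQ.h_cardB X)

end Pool.Agent.SK
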