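import Pool.Agent.SK.AStm
import Pool.Agent.H98.MF.C.H0

/-!
# Malle's conjecture for 8T8 over number fields, block A, row A4: the functions attached to an
element of a quadratic extension
-/

set_option autoImplicit false
set_option linter.unusedSectionVars false

open scoped BigOperators
open NumberField IsDedekindDomain

namespace Pool.Agent.SK

open Pool.Agent.H98.MF

private theorem ftw_cases (x : ZMod 2) : x = 0 ∨ x = 1 := by
  revert x; decide

private theorem ftw_add_self (x : ZMod 2) : x + x = 0 := by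
  revert x; decide

section

variable {k : Type} [Field k] [NumberField k]

private theorem ftw_zero : (sgO 0 : Om k) = 1 := if_pos rfl

private theorem ftw_one : (sgO 1 : Om k) = -1 := if_neg one_ne_zero

private theorem ftw_add (x y : ZMod 2) : (sgO (x + y) : Om k) = sgO x * sgO y := by
  have h11 : (1 : ZMod 2) + 1 = 0 := by decide
  rcases ftw_cases x with rfl | rfl <;> rcases ftw_cases y with rfl | rfl
  · rw [zero_add, ftw_zero, one_mul]
  · rw [zero_add, ftw_zero, one_mul]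
  · rw [add_zero, ftw_zero, mul_one]
  · rw [h11, ftw_zero, ftw_one]
    ring

private theorem ftw_ne (x : ZMod 2) : (sgO x : Om k) ≠ 0 := by
  rcases ftw_cases x with rfl | rfl
  · rw [ftw_zero]
    exact one_ne_zero
  · rw [ftw_one]
    exact neg_ne_zero.mpr one_ne_zero

private theorem ftw_inj {x y : ZMod 2} (h : (sgO x : Om k) = sgO y) : x = y := by
  have hne : (1 : Om k) ≠ -1 := by
    intro h
    have h2 : (2 : Om k) = 0 := by linear_combination h
    exact two_ne_zero h2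
  rcases ftw_cases x with rfl | rfl <;> rcases ftw_cases y with rfl | rfl
  · rfl
  · rw [ftw_zero, ftw_one] at h
    exact absurd h hne
  · rw [ftw_zero, ftw_one] at h
    exact absurd h.symm hne
  · rfl

private theorem ftw_map (σ : Gm k) (x : ZMod 2) : σ (sgO x) = sgO x := by
  rcases ftw_cases x with rfl | rfl
  · rw [ftw_zero, map_one]
  · rw [ftw_one, map_neg, map_one]

private theorem ftw_root {x y : Om k} (h : x ^ 2 = y ^ 2) : ∃ e : ZMod 2, x = sgO e * y := by
  rcases sq_eq_sq_iff_eq_or_eq_neg.mp h with h1 | h1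
  · exact ⟨0, by rw [ftw_zero, one_mul, h1]⟩
  · exact ⟨1, by rw [ftw_one, h1]; ring⟩

private theorem ftw_chi (t : k) (σ : Gm k) : σ (H98.MF.sq t) = sgO (chi t σ) * H98.MF.sq t :=
  Pool.Agent.H98.MF.B.map_sq_eq t σ

end

section

variable {k : Type} [Field k] [NumberField k] {L : Type} [Field L] [NumberField L] [Algebra k L]

private theorem ftw_jne (j : L →ₐ[k] Om k) {b : L} (hb : b ≠ 0) {θ : Om k} (h : θ ^ 2 = j b) :
    θ ≠ 0 := by
  rintro rfl
  rw [zero_pow two_ne_zero] at h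
  exact hb ((map_eq_zero j).mp h.symm)

theorem aFTwo (Q : QK k L) (j : L →ₐ[k] Om k) (hA : AAct Q j) : AFTwo Q j := by
  have _ := hA
  intro b f f' hf
  obtain ⟨θ, θ', h1, h2, h3, h4⟩ := hf
  constructor
  · rintro ⟨η, η', k1, k2, k3, k4⟩
    have hθ := ftw_jne j b.ne_zero h1
    have hθ' := ftw_jne j (fun h => b.ne_zero ((map_eq_zero Q.sig).mp h)) h2
    obtain ⟨e, he⟩ := ftw_root (k1.trans h1.symm)
    obtain ⟨e', he'⟩ := ftw_root (k2.trans h2.symm)
    have g0 : ∀ σ, chi (Q.a : k) σ = 0 → f' σ = f σ := by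
      intro σ hσ
      have l1 := k3 σ hσ
      rw [he, map_mul, ftw_map, h3 σ hσ] at l1
      have l2 : sgO (f' σ) * (sgO e * θ) = sgO (f σ) * (sgO e * θ) := by
        rw [← l1]
        ring
      exact ftw_inj (mul_right_cancel₀ (mul_ne_zero (ftw_ne e) hθ) l2)
    have g1 : ∀ σ, chi (Q.a : k) σ = 1 → f' σ = f σ + (e + e') := by
      intro σ hσ
      have l1 := k4 σ hσ
      rw [he, he', map_mul, ftw_map, h4 σ hσ] at l1
      have l2 : sgO (f' σ + e') * θ' = sgO (f σ + e) * θ' := by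
        rw [ftw_add, ftw_add, mul_assoc, ← l1]
        ring
      have l3 := ftw_inj (mul_right_cancel₀ hθ' l2)
      have l4 : e' + e' = 0 := ftw_add_self e'
      calc f' σ = f' σ + e' + e' := by rw [add_assoc, l4, add_zero]
        _ = f σ + (e + e') := by rw [l3, add_assoc]
    rcases ftw_cases (e + e') with h | h
    · left
      funext σ
      rcases ftw_cases (chi (Q.a : k) σ) with hσ | hσ
      · exact g0 σ hσ
      · rw [g1 σ hσ, h, add_zero]
    · right
      funext σ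
      rcases ftw_cases (chi (Q.a : k) σ) with hσ | hσ
      · rw [g0 σ hσ, hσ, add_zero]
      · rw [g1 σ hσ, h, hσ]
  · rintro (rfl | rfl)
    · exact ⟨θ, θ', h1, h2, h3, h4⟩
    · refine ⟨θ, -θ', h1, by rw [neg_sq, h2], fun σ hσ => ?_, fun σ hσ => ?_⟩
      · simp only [hσ, add_zero]
        exact h3 σ hσ
      · simp only [hσ]
        rw [h4 σ hσ, ftw_add, ftw_one]
        ring

theorem aFMul (Q : QK k L) (j : L →ₐ[k] Om k) : AFMul Q j := by
  intro b b' f f' hf hf'
  obtain ⟨θ, θ', h1, h2, h3, h4⟩ := hf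
  obtain ⟨η, η', k1, k2, k3, k4⟩ := hf'
  refine ⟨θ * η, θ' * η', ?_, ?_, fun σ hσ => ?_, fun σ hσ => ?_⟩
  · rw [mul_pow, h1, k1, Units.val_mul, map_mul]
  · rw [mul_pow, h2, k2, Units.val_mul, map_mul, map_mul]
  · rw [map_mul, h3 σ hσ, k3 σ hσ, ftw_add]
    ring
  · rw [map_mul, h4 σ hσ, k4 σ hσ, ftw_add]
    ring

theorem aFRat (Q : QK k L) (j : L →ₐ[k] Om k) (hA : AAct Q j) : AFRat Q j := by
  have _ := hA
  intro t
  have h0 : ((Units.map (algebraMap k L : k →* L) t : Lˣ) : L) = algebraMap k L (t : k) := rfl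
  refine ⟨H98.MF.sq (t : k), H98.MF.sq (t : k), ?_, ?_, fun σ _ => ftw_chi _ σ, fun σ _ => ftw_chi _ σ⟩
  · rw [h0, AlgHom.commutes, sq_sq]
  · rw [h0, AlgEquiv.commutes, AlgHom.commutes, sq_sq]

theorem aFSq (Q : QK k L) (j : L →ₐ[k] Om k) (hA : AAct Q j) : AFSq Q j := by
  intro b z f hf
  obtain ⟨θ, θ', h1, h2, h3, h4⟩ := hf
  refine ⟨θ * j (z : L), θ' * j (Q.sig (z : L)), ?_, ?_, fun σ hσ => ?_, fun σ hσ => ?_⟩
  · rw [mul_pow, h1, Units.val_mul, Units.val_pow_eq_pow_val, map_mul, map_pow]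
  · rw [mul_pow, h2, Units.val_mul, Units.val_pow_eq_pow_val, map_mul, map_mul, map_pow, map_pow]
  · rw [map_mul, h3 σ hσ, (hA σ (z : L)).1 hσ]
    ring
  · rw [map_mul, h4 σ hσ, (hA σ (z : L)).2 hσ]
    ring

theorem aFInj (Q : QK k L) (j : L →ₐ[k] Om k) (hA : AAct Q j) (hF : AFix Q j) : AFInj Q j := by
  have _ := hA
  intro b b' f hf hf'
  obtain ⟨θ, θ', h1, h2, h3, h4⟩ := hf
  obtain ⟨η, η', k1, k2, k3, k4⟩ := hf'
  obtain ⟨c, hc⟩ := hF (θ * η) (fun σ hσ => by
    rw [map_mul, h3 σ hσ, k3 σ hσ]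
    have : (sgO (f σ) : Om k) * sgO (f σ) = 1 := by
      rw [← ftw_add, ftw_add_self, ftw_zero]
    linear_combination (θ * η) * this)
  have h5 : (b : L) * (b' : L) = c ^ 2 := by
    apply j.toRingHom.injective
    show j ((b : L) * (b' : L)) = j (c ^ 2)
    rw [map_mul, map_pow, ← hc, mul_pow, h1, k1]
  have hc0 : c ≠ 0 := by
    rintro rfl
    rw [zero_pow two_ne_zero] at h5
    exact mul_ne_zero b.ne_zero b'.ne_zero h5
  refine ⟨Units.mk0 c hc0 * b⁻¹, ?_⟩
  have h6 : b * b' = Units.mk0 c hc0 ^ 2 := by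
    apply Units.ext
    rw [Units.val_mul, Units.val_pow_eq_pow_val, Units.val_mk0, h5]
  rw [mul_pow, ← h6]
  rw [show b * (b * b' * b⁻¹ ^ 2) = b' * (b * b⁻¹) ^ 2 by
    rw [mul_pow, pow_two b]
    ac_rfl]
  rw [mul_inv_cancel, one_pow, mul_one]

end

end Pool.Agent.SK
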