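import Pool.Agent.SK.AStm
import Pool.Agent.H98.MF.ParK

/-!
# Malle's conjecture for 8T8 over number fields, block A: the uniform bound (row A39)
-/

set_option autoImplicit false

open scoped BigOperators
open NumberField IsDedekindDomain

namespace Pool.Agent.SK

open Pool.Agent.H98.MF
open Pool.Agent.H98.MK (sg)
open Pool.Agent.H32.MA (SD)
open Pool.Agent.H32.MQ (HX El Qof rep co h_co h_repO hb_two hi_mem h_cardB)

theorem fun_pd1 : SD.pd (⟨1, 0⟩ : SD) = 1 := by decide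

theorem fun_pdC (g : SD) (h : g = 1 ∨ SD.clC g) : g.pd = 0 := by
  rcases h with h | h
  · rw [h]
    decide
  · revert g
    decide

section

variable {k : Type} [Field k] [NumberField k]

/-- the class of a homomorphism -/
theorem fun_cls (R0 : Rx k) (Fr : Frm k) (R : Finset Fr.sys.P) (ρ : Gm k →* SD)
    (hρ : ρ ∈ HsR R0 Fr R) : ∃ c : El Fr.sys, c.2 ⊆ R ∧ ¬ IsSquare (rep Fr c) ∧
      (∀ p, p ∉ R → Even (ord (Fr.pl p) (rep Fr c : k))) ∧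
      ∀ σ, (ρ σ).pd = chi (rep Fr c : k) σ := by
  obtain ⟨⟨hs, hlc⟩, hR⟩ := hρ
  obtain ⟨a, ha⟩ := ParK.exists_chi1 (fun σ => (ρ σ).pd) (hlc.comp SD.pd)
    (fun σ τ => by
      show (ρ (σ * τ)).pd = _
      rw [map_mul, SD.pd_mul])
  have h2 : ∀ (s : kˣ) (σ : Gm k), chi ((s * s : kˣ) : k) σ = 0 := by
    intro s σ
    rw [Units.val_mul, chi_mul s.ne_zero s.ne_zero]
    exact CharTwo.add_self_eq_zero _
  have hchi : ∀ σ, (ρ σ).pd = chi (rep Fr (co Fr a) : k) σ := by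
    intro σ
    obtain ⟨s, hs1⟩ := h_co Fr a
    have h3 := h2 s σ
    rw [← hs1, Units.val_mul, chi_mul a.ne_zero (Units.ne_zero _)] at h3
    have h4 := ha σ
    beta_reduce at h4
    rw [h4]
    exact CharTwo.add_eq_zero.1 h3
  have hev : ∀ p, p ∉ R → Even (ord (Fr.pl p) (rep Fr (co Fr a) : k)) := by
    intro p hp
    have h3 : ρ (R0.tau (Fr.pl p)) = 1 ∨ SD.clC (ρ (R0.tau (Fr.pl p))) := by
      by_contra h
      exact hp ((hR p).2 h)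
    have h4 := fun_pdC _ h3
    rw [hchi, R0.chi _ (hb_two Fr p)] at h4
    exact even_iff_two_dvd.2 (by exact_mod_cast (ZMod.intCast_zmod_eq_zero_iff_dvd _ 2).1 h4)
  refine ⟨co Fr a, ?_, ?_, hev, hchi⟩
  · intro p hp
    by_contra h
    have h3 := hev p h
    rw [h_repO Fr (co Fr a) p, if_pos hp] at h3
    exact absurd h3 (by decide)
  · rintro ⟨s, hs1⟩
    obtain ⟨σ, hσ⟩ := hs ⟨1, 0⟩
    have h3 := hchi σ
    rw [hσ, fun_pd1, hs1, h2] at h3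
    exact absurd h3 (by decide)

/-- the cube root of the discriminant -/
theorem fun_rt {a b d : ℕ} (h : a ^ 4 * b ^ 3 ≤ d) :
    (a : ℝ) ^ (4 / 3 : ℝ) * b ≤ (d : ℝ) ^ (1 / 3 : ℝ) := by
  have h1 : ((a : ℝ) ^ (4 / 3 : ℝ) * b) = ((a : ℝ) ^ 4 * (b : ℝ) ^ 3) ^ (1 / 3 : ℝ) := by
    rw [Real.mul_rpow (by positivity) (by positivity), ← Real.rpow_natCast (a : ℝ) 4,
      ← Real.rpow_natCast (b : ℝ) 3, ← Real.rpow_mul (by positivity),
      ← Real.rpow_mul (by positivity)]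
    norm_num
  rw [h1]
  exact Real.rpow_le_rpow (by positivity) (by exact_mod_cast h) (by norm_num)

theorem fun_sg (z : ZMod 2) : (0 : ℝ) ≤ 1 + ((sg z : ℤ) : ℝ) := by
  have h : sg z = 1 ∨ sg z = -1 := by
    revert z
    decide
  rcases h with h | h <;> rw [h] <;> norm_num

variable {R0 : Rx k} {Fr : Frm k} {L : Type} [Field L] [NumberField L] [Algebra k L]

theorem fun_prc0 (X : HX Fr L) (γ : HX.GX L) (g : Finset X.PX) : 0 ≤ prc (Qof X) γ g :=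
  Finset.prod_nonneg fun _ _ => fun_sg _

theorem fun_prc (X : HX Fr L) (γ : HX.GX L) (g : Finset X.PX)
    (h : ∀ Q ∈ g, qr ((HX.out γ : Lˣ) : L) (X.cjX Q).1 = 0) :
    prc (Qof X) γ g = 2 ^ g.card := by
  unfold prc
  rw [Finset.prod_congr rfl (g := fun _ => (2 : ℝ))]
  · exact Finset.prod_const _
  · intro Q hQ
    have h1 : (Qof X).sy γ ((Qof X).cj Q) = 0 := h Q hQ
    rw [h1]
    have h2 : sg 0 = 1 := by decide
    rw [h2]
    norm_num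

/-- the homomorphisms attached to one class -/
theorem fun_fib (X : HX Fr L) (j : L →ₐ[k] Om k) (hQz : AQz X j) (hFib : AFibU R0 X j)
    (hDs : ADsR R0 X j) {x : ℝ} (hx : 0 < x) (g : Finset X.PX) (hg : (Qof X).Gd g)
    (γ : HX.GX L) (hγ : γ ∈ X.Bs g) (F : Finset (HsR R0 Fr X.M))
    (hF : ∀ ρ ∈ F, ρ.1 ∈ Hc R0 X j γ) :
    ∑ ρ ∈ F, Real.exp (-((dS ρ.1 : ℝ) ^ (1 / 3 : ℝ) / x)) ≤
      2 * 2 ^ (Fr.sys.m + X.M.card) * (prc (Qof X) γ g *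
        Real.exp (-(((Qof X).nq g : ℝ) / (x / (Fr.sys.nm X.M : ℝ) ^ (4 / 3 : ℝ))))) := by
  classical
  have hN0 : 0 < (Fr.sys.nm X.M : ℝ) ^ (4 / 3 : ℝ) :=
    Real.rpow_pos_of_pos (by exact_mod_cast Fr.sys.one_le_nm X.M) _
  rcases F.eq_empty_or_nonempty with h0 | ⟨ρ0, hρ0⟩
  · rw [h0, Finset.sum_empty]
    exact mul_nonneg (by positivity) (mul_nonneg (fun_prc0 X γ g) (Real.exp_nonneg _))
  · rw [fun_prc X γ g (hQz g hg γ hγ ρ0.1 (hF ρ0 hρ0).2)]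
    have h1 : ∀ ρ ∈ F, Real.exp (-((dS ρ.1 : ℝ) ^ (1 / 3 : ℝ) / x)) ≤
        Real.exp (-(((Qof X).nq g : ℝ) / (x / (Fr.sys.nm X.M : ℝ) ^ (4 / 3 : ℝ)))) := by
      intro ρ hρ
      refine Real.exp_le_exp.2 (neg_le_neg ?_)
      have h2 := fun_rt (hDs g hg γ hγ ρ.1 (hF ρ hρ) ρ.2)
      rw [div_div_eq_mul_div]
      refine div_le_div_of_nonneg_right ?_ hx.le
      rw [mul_comm]
      exact h2
    have h3 : (F.card : ℝ) ≤ 2 * 2 ^ (Fr.sys.m + X.M.card + g.card) := by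
      have h4 : F.card ≤ (Hc R0 X j γ).ncard := by
        rw [← Finset.card_image_of_injective F Subtype.val_injective, ← Set.ncard_coe_finset]
        refine Set.ncard_le_ncard ?_ (hFib g hg γ hγ).1
        intro ρ hρ
        obtain ⟨ρ', h5, rfl⟩ := Finset.mem_image.1 (Finset.mem_coe.1 hρ)
        exact hF ρ' h5
      exact_mod_cast h4.trans (hFib g hg γ hγ).2
    calc ∑ ρ ∈ F, Real.exp (-((dS ρ.1 : ℝ) ^ (1 / 3 : ℝ) / x))
        ≤ ∑ _ρ ∈ F, Real.exp (-(((Qof X).nq g : ℝ) /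
            (x / (Fr.sys.nm X.M : ℝ) ^ (4 / 3 : ℝ)))) := Finset.sum_le_sum h1
      _ = F.card * Real.exp (-(((Qof X).nq g : ℝ) /
            (x / (Fr.sys.nm X.M : ℝ) ^ (4 / 3 : ℝ)))) := by
          rw [Finset.sum_const, nsmul_eq_mul]
      _ ≤ 2 * 2 ^ (Fr.sys.m + X.M.card + g.card) * Real.exp (-(((Qof X).nq g : ℝ) /
            (x / (Fr.sys.nm X.M : ℝ) ^ (4 / 3 : ℝ)))) :=
          mul_le_mul_of_nonneg_right h3 (Real.exp_nonneg _)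
      _ = _ := by
          rw [pow_add _ (Fr.sys.m + X.M.card)]
          ring

/-- the homomorphisms attached to a good set -/
theorem fun_good (X : HX Fr L) (j : L →ₐ[k] Om k) (hQz : AQz X j) (hFib : AFibU R0 X j)
    (hDs : ADsR R0 X j) {x : ℝ} (hx : 0 < x) (g : Finset X.PX) (hg : (Qof X).Gd g)
    (F : Finset (HsR R0 Fr X.M)) (γ : HsR R0 Fr X.M → HX.GX L)
    (hγ : ∀ ρ ∈ F, γ ρ ∈ X.Bs g ∧ ρ.1 ∈ Hc R0 X j (γ ρ)) :
    ∑ ρ ∈ F, Real.exp (-((dS ρ.1 : ℝ) ^ (1 / 3 : ℝ) / x)) ≤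
      2 * 2 ^ (Fr.sys.m + X.M.card) * (tT (Qof X) (fun _ => 1) (fun _ => 1) g *
        Real.exp (-(((Qof X).nq g : ℝ) / (x / (Fr.sys.nm X.M : ℝ) ^ (4 / 3 : ℝ))))) := by
  classical
  have hB : ∀ γ', γ' ∈ (Qof X).B g ↔ γ' ∈ X.Bs g := fun γ' =>
    hi_mem X (h_cardB X)
  have h1 : ∀ ρ ∈ F, γ ρ ∈ (Qof X).B g := fun ρ hρ => (hB _).2 (hγ ρ hρ).1
  have h2 : tT (Qof X) (fun _ => 1) (fun _ => 1) g = ∑ γ' ∈ (Qof X).B g, prc (Qof X) γ' g := by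
    unfold tT
    rw [Finset.prod_const_one, one_mul]
    exact Finset.sum_congr rfl fun _ _ => one_mul _
  rw [← Finset.sum_fiberwise_of_maps_to h1, h2, Finset.sum_mul, Finset.mul_sum]
  refine Finset.sum_le_sum fun γ' hγ' => ?_
  refine fun_fib X j hQz hFib hDs hx g hg γ' ((hB γ').1 hγ') _ fun ρ hρ => ?_
  obtain ⟨h3, h4⟩ := Finset.mem_filter.1 hρ
  rw [← h4]
  exact (hγ ρ h3).2

/-- the homomorphisms attached to a quadratic extension -/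
theorem fun_one (hG1 : SG1) (X : HX Fr L) (j : L →ₐ[k] Om k) (hGd : AGd R0 X j)
    (hQz : AQz X j) (hFib : AFibU R0 X j) (hDs : ADsR R0 X j) {C K : ℝ} (hK : 0 ≤ K)
    (hLin : (gdN (Qof X)).Lin K)
    (hT : ∀ y : ℝ, 0 < y → TT (Qof X) (fun _ => 1) (fun _ => 1) y ≤ C * y) {x : ℝ}
    (hx : 0 < x) (R : Finset Fr.sys.P) (hM : X.M = R) (F : Finset (HsR R0 Fr R))
    (hF : ∀ ρ ∈ F, ρ.1 ∈ Hd R0 X) :
    ∑ ρ ∈ F, Real.exp (-((dS ρ.1 : ℝ) ^ (1 / 3 : ℝ) / x)) ≤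
      2 * 2 ^ (Fr.sys.m + R.card) * (C * (x / (Fr.sys.nm R : ℝ) ^ (4 / 3 : ℝ))) := by
  classical
  subst hM
  have hN0 : 0 < (Fr.sys.nm X.M : ℝ) ^ (4 / 3 : ℝ) :=
    Real.rpow_pos_of_pos (by exact_mod_cast Fr.sys.one_le_nm X.M) _
  have hy : 0 < x / (Fr.sys.nm X.M : ℝ) ^ (4 / 3 : ℝ) := div_pos hx hN0
  have h : ∀ ρ : HsR R0 Fr X.M, ∃ (g : (gdN (Qof X)).I) (γ : HX.GX L), ρ ∈ F →
      (γ ∈ X.Bs g.1 ∧ ρ.1 ∈ Hc R0 X j γ) := by
    intro ρ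
    by_cases hρ : ρ ∈ F
    · obtain ⟨g, γ, h1, h2, h3⟩ := hGd ρ.1 (hF ρ hρ)
      exact ⟨⟨g, h1⟩, γ, fun _ => ⟨h2, h3⟩⟩
    · exact ⟨⟨∅, fun a ha => absurd ha (Finset.notMem_empty a)⟩, 1, fun h => absurd h hρ⟩
  choose g γ hγ using h
  have h1 : ∀ ρ ∈ F, g ρ ∈ F.image g := fun ρ hρ => Finset.mem_image_of_mem _ hρ
  rw [← Finset.sum_fiberwise_of_maps_to h1]
  obtain ⟨s1, -, -⟩ := hG1 Fr.sys (Qof X) (fun _ => 1) 1 K (fun _ => 1) (fun _ => by simp)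
    (fun _ => by simp) hK hLin _ hy
  have h2 : ∀ g' ∈ F.image g, ∑ ρ ∈ F with g ρ = g',
      Real.exp (-((dS ρ.1 : ℝ) ^ (1 / 3 : ℝ) / x)) ≤
      2 * 2 ^ (Fr.sys.m + X.M.card) * (tT (Qof X) (fun _ => 1) (fun _ => 1) g'.1 *
        Real.exp (-(((Qof X).nq g'.1 : ℝ) / (x / (Fr.sys.nm X.M : ℝ) ^ (4 / 3 : ℝ))))) := by
    intro g' _
    refine fun_good X j hQz hFib hDs hx g'.1 g'.2 _ γ fun ρ hρ => ?_
    obtain ⟨h3, h4⟩ := Finset.mem_filter.1 hρ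
    rw [← h4]
    exact hγ ρ h3
  refine (Finset.sum_le_sum h2).trans ?_
  rw [← Finset.mul_sum]
  refine mul_le_mul_of_nonneg_left ?_ (by positivity)
  refine (s1.sum_le_tsum _ fun g' _ => ?_).trans (hT _ hy)
  refine mul_nonneg ?_ (Real.exp_nonneg _)
  unfold tT
  refine mul_nonneg (Finset.prod_nonneg fun _ _ => zero_le_one) ?_
  exact Finset.sum_nonneg fun γ' _ => mul_nonneg zero_le_one (fun_prc0 X γ' g'.1)

end

/-- F9: the uniform bound -/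
theorem fUni {k : Type} [Field k] [NumberField k] (R0 : Rx k) (Fr : Frm k) (hG1 : SG1)
    (hX : AExX Fr)
    (hall : ∀ (L : Type) (_ : Field L) (_ : NumberField L) (_ : Algebra k L) (X : HX Fr L)
      (j : L →ₐ[k] Om k),
      AGd R0 X j ∧ AUq R0 X j ∧ AQz X j ∧ AFibU R0 X j ∧ ADsR R0 X j) : FUni R0 Fr := by
  classical
  intro R C K hC hK hyp x hx
  have hN0 : 0 < (Fr.sys.nm R : ℝ) ^ (4 / 3 : ℝ) :=
    Real.rpow_pos_of_pos (by exact_mod_cast Fr.sys.one_le_nm R) _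
  have key : ∀ F : Finset (HsR R0 Fr R),
      ∑ ρ ∈ F, Real.exp (-((dS ρ.1 : ℝ) ^ (1 / 3 : ℝ) / x)) ≤
        2 * 4 ^ (Fr.sys.m + R.card) * C * x / (Fr.sys.nm R : ℝ) ^ (4 / 3 : ℝ) := by
    intro F
    choose c hc using fun ρ : HsR R0 Fr R => fun_cls R0 Fr R ρ.1 ρ.2
    have h1 : ∀ ρ ∈ F, c ρ ∈ (Finset.univ : Finset Fr.sys.T) ×ˢ R.powerset := fun ρ _ =>
      Finset.mem_product.2 ⟨Finset.mem_univ _, Finset.mem_powerset.2 (hc ρ).1⟩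
    rw [← Finset.sum_fiberwise_of_maps_to h1]
    have h2 : ∀ c' ∈ (Finset.univ : Finset Fr.sys.T) ×ˢ R.powerset,
        ∑ ρ ∈ F with c ρ = c', Real.exp (-((dS ρ.1 : ℝ) ^ (1 / 3 : ℝ) / x)) ≤
        2 * 2 ^ (Fr.sys.m + R.card) * (C * (x / (Fr.sys.nm R : ℝ) ^ (4 / 3 : ℝ))) := by
      intro c' _
      rcases (F.filter fun ρ => c ρ = c').eq_empty_or_nonempty with h0 | ⟨ρ0, hρ0⟩
      · rw [h0, Finset.sum_empty]
        exact mul_nonneg (by positivity) (mul_nonneg hC (div_nonneg hx.le hN0.le))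
      · obtain ⟨_, h3⟩ := Finset.mem_filter.1 hρ0
        obtain ⟨_, h4, h5, _⟩ := hc ρ0
        rw [h3] at h4 h5
        obtain ⟨L, i1, i2, i3, X, j, hXa, hXM, hXδ⟩ := hX (rep Fr c') R h4 h5
        obtain ⟨g1, _, g3, g4, g5⟩ := hall L i1 i2 i3 X j
        obtain ⟨g6, g7⟩ := hyp L i1 i2 i3 X hXM hXδ
        refine fun_one hG1 X j g1 g3 g4 g5 hK g6 g7 hx R hXM _ fun ρ hρ => ?_
        obtain ⟨_, h6⟩ := Finset.mem_filter.1 hρ
        refine ⟨ρ.2.1, fun σ => ?_, fun p hp => ?_⟩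
        · rw [hXa, ← h6]
          exact (hc ρ).2.2.2 σ
        · rw [hXM] at hp
          by_contra h
          exact hp ((ρ.2.2 p).2 h)
    refine (Finset.sum_le_sum h2).trans (le_of_eq ?_)
    rw [Finset.sum_const, Finset.card_product, Finset.card_powerset, Finset.card_univ,
      nsmul_eq_mul]
    have h3 : Fintype.card Fr.sys.T = 2 ^ Fr.sys.m := by
      rw [Fintype.card_fun, ZMod.card, Fintype.card_fin]
    rw [h3]
    have h4 : (4 : ℝ) ^ (Fr.sys.m + R.card) =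
        2 ^ (Fr.sys.m + R.card) * 2 ^ (Fr.sys.m + R.card) := by
      rw [← mul_pow]
      norm_num
    rw [h4]
    push_cast
    rw [← pow_add]
    ring
  have h0 : ∀ ρ : HsR R0 Fr R, 0 ≤ Real.exp (-((dS ρ.1 : ℝ) ^ (1 / 3 : ℝ) / x)) :=
    fun _ => Real.exp_nonneg _
  exact ⟨summable_of_sum_le h0 key, Real.tsum_le_of_sum_le h0 key⟩

end Pool.Agent.SK
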