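import Pool.Agent.SK.AFibU

/-!
# Malle's conjecture for 8T8 over number fields, row A32: the fibre
-/

set_option autoImplicit false

open scoped BigOperators
open NumberField IsDedekindDomain

namespace Pool.Agent.SK

open Pool.Agent.H98.MF
open Pool.Agent.H32.MA (SD)
open Pool.Agent.H32.MQ (HX El Qof rep co odp mem_odp h_co h_coU h_repO hb_two)

/-- A33: the fibre -/
theorem aFibE {k : Type} [Field k] [NumberField k] {Fr : Frm k} {L : Type} [Field L]
    [NumberField L] [Algebra k L] (R0 : Rx k) (X : HX Fr L) (j : L →ₐ[k] Om k)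
    (hA : ATwA k) (hS : ATwS k) (hT : ATwT R0) (hC : ATwC (qk X) j) (hE : ATwEx (qk X) j)
    (hTy : ATy R0 X j) : AFibE R0 X j := by
  classical
  intro hM g hg γ hγ ρ hρ φ
  set A : Finset (El Fr.sys) := (Finset.univ : Finset Fr.sys.T) ×ˢ
    ((Qof X).shd g).powerset with hAdef
  have hρ' := fbu_cj hS hC hTy hg hγ hρ
  have hMA : (Finset.univ : Finset Fr.sys.T) ×ˢ (X.M ∪ (Qof X).shd g).powerset = A := by
    rw [hM, Finset.empty_union]
  have hmem : ∀ ρ₁ ∈ Hc R0 X j γ, ∀ z ∈ A, twS ρ₁ (rep Fr z) ∈ Hc R0 X j γ := by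
    intro ρ₁ h1 z hz
    rw [fbu_mem hS hT hC hTy hg hγ h1]
    intro p _ hp
    rw [h_repO Fr z p, if_neg]
    · exact Even.zero
    · exact fun h => hp (Finset.mem_powerset.1 (Finset.mem_product.1 hz).2 h)
  have hset : Hc R0 X j γ = (fun z => twS ρ (rep Fr z)) '' (A : Set (El Fr.sys)) ∪
      (fun z => twS (cjS ρ) (rep Fr z)) '' (A : Set (El Fr.sys)) := by
    ext ρ'
    constructor
    · intro h
      obtain ⟨c, rfl | rfl⟩ := hE _ ρ ρ' hρ.2 h.2
      · obtain ⟨z, hz, hz'⟩ := fbu_sub hS hT hC hTy hA hg hγ hρ c h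
        rw [hMA] at hz
        exact Or.inl ⟨z, hz, hz'⟩
      · obtain ⟨z, hz, hz'⟩ := fbu_sub hS hT hC hTy hA hg hγ hρ' c h
        rw [hMA] at hz
        exact Or.inr ⟨z, hz, hz'⟩
    · rintro (⟨z, hz, rfl⟩ | ⟨z, hz, rfl⟩)
      · exact hmem ρ hρ z hz
      · exact hmem _ hρ' z hz
  have hinj : ∀ ρ₁ : Gm k →* SD, Set.InjOn (fun z => twS ρ₁ (rep Fr z)) (A : Set (El Fr.sys)) := by
    intro ρ₁ z _ z' _ h
    exact h_coU Fr z z' (((hA ρ₁ _ _).2.2.2).1 h)
  have hdis : Disjoint ((fun z => twS ρ (rep Fr z)) '' (A : Set (El Fr.sys)))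
      ((fun z => twS (cjS ρ) (rep Fr z)) '' (A : Set (El Fr.sys))) := by
    rw [Set.disjoint_left]
    rintro _ ⟨z, _, rfl⟩ ⟨z', _, h⟩
    exact (hS ρ hρ.1.1).2.2.1 _ _ h
  rw [hset, finsum_mem_union hdis ((Finset.finite_toSet A).image _)
    ((Finset.finite_toSet A).image _), finsum_mem_image (hinj ρ),
    finsum_mem_image (hinj (cjS ρ)), finsum_mem_coe_finset, finsum_mem_coe_finset,
    ← Finset.sum_add_distrib, hAdef, Finset.sum_product]

end Pool.Agent.SK
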