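import Pool.Agent.SK.AStm

/-!
# Malle's conjecture for 8T8 over number fields, row A31: upper bound for the fibre
-/

set_option autoImplicit false

open scoped BigOperators
open NumberField IsDedekindDomain

namespace Pool.Agent.SK

open Pool.Agent.H98.MF
open Pool.Agent.H32.MA (SD)
open Pool.Agent.H32.MQ (HX El Qof rep co odp mem_odp h_co h_coU h_repO hb_two)

theorem fbu_zz1 (x : ZMod 2) (h : SD.zz x = 1) : x = 0 := by
  revert x; decide

theorem fbu_C (g : SD) (x : ZMod 2) (h : SD.clC g) : SD.clC (g * SD.zz x) := by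
  revert g x; decide

section

variable {k : Type} [Field k] [NumberField k] {Fr : Frm k} {L : Type} [Field L]
  [NumberField L] [Algebra k L] {R0 : Rx k} {X : HX Fr L} {j : L →ₐ[k] Om k}

/-- the twists which stay in the fibre -/
theorem fbu_mem (hS : ATwS k) (hT : ATwT R0) (hC : ATwC (qk X) j) (hTy : ATy R0 X j)
    {g : Finset X.PX} (hg : (Qof X).Gd g) {γ : HX.GX L} (hγ : γ ∈ X.Bs g) {ρ : Gm k →* SD}
    (hρ : ρ ∈ Hc R0 X j γ) (c : kˣ) : twS ρ c ∈ Hc R0 X j γ ↔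
      ∀ p, p ∉ X.M → p ∉ (Qof X).shd g → Even (ord (Fr.pl p) (c : k)) := by
  constructor
  · intro h p hp hpg
    have h1 := (hTy g hg γ hγ _ h p hp).2 hpg
    have h2 := (hTy g hg γ hγ _ hρ p hp).2 hpg
    rw [hT ρ c (Fr.pl p) (hb_two Fr p), h2, one_mul] at h1
    exact ZMod.intCast_eq_zero_iff_even.1 (fbu_zz1 _ h1)
  · intro h
    have h1 := (hC _ ρ hρ.2).1 c
    refine ⟨⟨(hS ρ hρ.1.1).1 c, h1.pd, fun p hp => ?_⟩, h1⟩
    rw [hT ρ c (Fr.pl p) (hb_two Fr p)]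
    by_cases hpg : p ∈ (Qof X).shd g
    · exact Or.inr (fbu_C _ _ ((hTy g hg γ hγ _ hρ p hp).1 hpg))
    · left
      rw [(hTy g hg γ hγ _ hρ p hp).2 hpg, one_mul,
        ZMod.intCast_eq_zero_iff_even.2 (h p hp hpg)]
      rfl

/-- the conjugate stays in the fibre -/
theorem fbu_cj (hS : ATwS k) (hC : ATwC (qk X) j) (hTy : ATy R0 X j) {g : Finset X.PX}
    (hg : (Qof X).Gd g) {γ : HX.GX L} (hγ : γ ∈ X.Bs g) {ρ : Gm k →* SD}
    (hρ : ρ ∈ Hc R0 X j γ) : cjS ρ ∈ Hc R0 X j γ := by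
  have h1 := (hC _ ρ hρ.2).2
  refine ⟨⟨(hS ρ hρ.1.1).2.1, h1.pd, fun p hp => ?_⟩, h1⟩
  rw [cjS_apply]
  by_cases hpg : p ∈ (Qof X).shd g
  · exact Or.inr ((au_C 3 _ (by decide)).2 ((hTy g hg γ hγ _ hρ p hp).1 hpg))
  · left
    rw [(hTy g hg γ hγ _ hρ p hp).2 hpg, map_one]

/-- twists depend on the class modulo squares -/
theorem fbu_co (hA : ATwA k) (ρ : Gm k →* SD) (c : kˣ) :
    twS ρ c = twS ρ (rep Fr (co Fr c)) := ((hA ρ c _).2.2.2).2 (h_co Fr c)

open Classical in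
/-- the twists in the fibre have coordinates in a finite set -/
theorem fbu_sub (hS : ATwS k) (hT : ATwT R0) (hC : ATwC (qk X) j) (hTy : ATy R0 X j)
    (hA : ATwA k) {g : Finset X.PX} (hg : (Qof X).Gd g) {γ : HX.GX L} (hγ : γ ∈ X.Bs g)
    {ρ : Gm k →* SD} (hρ : ρ ∈ Hc R0 X j γ) (c : kˣ) (h : twS ρ c ∈ Hc R0 X j γ) :
    ∃ z ∈ (Finset.univ : Finset Fr.sys.T) ×ˢ (X.M ∪ (Qof X).shd g).powerset,
      twS ρ (rep Fr z) = twS ρ c := by
  refine ⟨co Fr c, Finset.mem_product.2 ⟨Finset.mem_univ _, Finset.mem_powerset.2 ?_⟩,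
    (fbu_co hA ρ c).symm⟩
  intro p hp
  have h1 : Odd (ord (Fr.pl p) (c : k)) := (mem_odp Fr).1 hp
  rw [Finset.mem_union]
  by_contra h2
  push Not at h2
  exact (Int.not_even_iff_odd.2 h1)
    ((fbu_mem hS hT hC hTy hg hγ hρ c).1 h p h2.1 h2.2)

theorem fbu_card {g : Finset (Qof X).P} : ((Qof X).shd g).card ≤ g.card := Finset.card_image_le

end

/-- A32: upper bound for the fibre -/
theorem aFibU {k : Type} [Field k] [NumberField k] {Fr : Frm k} {L : Type} [Field L]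
    [NumberField L] [Algebra k L] (R0 : Rx k) (X : HX Fr L) (j : L →ₐ[k] Om k)
    (hA : ATwA k) (hS : ATwS k) (hT : ATwT R0) (hC : ATwC (qk X) j) (hE : ATwEx (qk X) j)
    (hTy : ATy R0 X j) : AFibU R0 X j := by
  classical
  intro g hg γ hγ
  rcases Set.eq_empty_or_nonempty (Hc R0 X j γ) with h0 | ⟨ρ, hρ⟩
  · rw [h0]
    exact ⟨Set.finite_empty, by rw [Set.ncard_empty]; exact Nat.zero_le _⟩
  set A : Finset (El Fr.sys) := (Finset.univ : Finset Fr.sys.T) ×ˢ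
    (X.M ∪ (Qof X).shd g).powerset with hAdef
  have hρ' := fbu_cj hS hC hTy hg hγ hρ
  have hsub : Hc R0 X j γ ⊆ ((A.image fun z => twS ρ (rep Fr z)) ∪
      (A.image fun z => twS (cjS ρ) (rep Fr z)) : Finset (Gm k →* SD)) := by
    intro ρ' h
    obtain ⟨c, rfl | rfl⟩ := hE _ ρ ρ' hρ.2 h.2
    · obtain ⟨z, hz, hz'⟩ := fbu_sub hS hT hC hTy hA hg hγ hρ c h
      rw [Finset.mem_coe, Finset.mem_union]
      exact Or.inl (Finset.mem_image.2 ⟨z, hz, hz'⟩)
    · obtain ⟨z, hz, hz'⟩ := fbu_sub hS hT hC hTy hA hg hγ hρ' c h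
      rw [Finset.mem_coe, Finset.mem_union]
      exact Or.inr (Finset.mem_image.2 ⟨z, hz, hz'⟩)
  refine ⟨(Finset.finite_toSet _).subset hsub, ?_⟩
  have h1 := Set.ncard_le_ncard hsub (Finset.finite_toSet _)
  rw [Set.ncard_coe_finset] at h1
  refine h1.trans ((Finset.card_union_le _ _).trans ?_)
  have h2 : A.card ≤ 2 ^ (Fr.sys.m + X.M.card + g.card) := by
    rw [hAdef, Finset.card_product, Finset.card_powerset, Finset.card_univ]
    have h3 : Fintype.card Fr.sys.T = 2 ^ Fr.sys.m := by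
      show Fintype.card (Fin Fr.sys.m → ZMod 2) = _
      rw [Fintype.card_fun, ZMod.card, Fintype.card_fin]
    rw [h3, ← pow_add]
    refine Nat.pow_le_pow_right (by norm_num) ?_
    have h4 := Finset.card_union_le X.M ((Qof X).shd g)
    have h5 := fbu_card (X := X) (g := g)
    omega
  have h3 := Finset.card_image_le (s := A) (f := fun z => twS ρ (rep Fr z))
  have h4 := Finset.card_image_le (s := A) (f := fun z => twS (cjS ρ) (rep Fr z))
  omega

end Pool.Agent.SK
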