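import Pool.Agent.SK.AStm

/-!
# Malle's conjecture for 8T8 over number fields, row A29: the good set of a homomorphism
-/

set_option autoImplicit false

open scoped BigOperators
open NumberField IsDedekindDomain

namespace Pool.Agent.SK

open Pool.Agent.H98.MF
open Pool.Agent.H98.MK (sg)
open Pool.Agent.H32.MA (SD)
open Pool.Agent.H32.MQ (HX El Qof rep co lrp)

section

variable {k : Type} [Field k] [NumberField k] {Fr : Frm k} {L : Type} [Field L]
  [NumberField L] [Algebra k L] (R0 : Rx k) (X : HX Fr L) (j : L →ₐ[k] Om k)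

/-- not all primes above a prime outside `M` have odd exponent -/
theorem agd_not (hT : ATyp R0 X j) {ρ : Gm k →* SD} (hρ : ρ ∈ Hd R0 X) {b : Lˣ}
    (hc : (qk X).Cl j b ρ) {p : Fr.sys.P} (hp : p ∉ X.M)
    (h : ∀ P', Over (Fr.pl p) P' → Odd (ord P' (b : L))) : False := by
  have h1 := (hT p hp b ρ hc).2.2 h
  rcases hρ.2.2 p hp with h2 | h2
  · rw [h2] at h1
    exact absurd h1 (by decide)
  · rw [SD.clT_iff] at h1
    rw [SD.clC_iff] at h2
    rw [h1.2.1] at h2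
    exact absurd h2.2 (by decide)

theorem agd_fin (b : Lˣ) : {Q : X.PX | Odd (ord Q.1 (b : L))}.Finite := by
  refine ((Pool.Agent.H98.MF.B.ord_finite (b : L) b.ne_zero).preimage
    Subtype.val_injective.injOn).subset fun Q hQ => ?_
  show ord Q.1 (b : L) ≠ 0
  intro h
  have h1 : Odd (ord Q.1 (b : L)) := hQ
  rw [h] at h1
  exact absurd h1 (by decide)

/-- A29: the good set of a homomorphism -/
theorem aGd_aux (hK : AKum (qk X) j) (hS : AFSq (qk X) j) (hT : ATyp R0 X j) :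
    AGd R0 X j := by
  classical
  intro ρ hρ
  obtain ⟨b, hb⟩ := hK ρ hρ.1.2 hρ.2.1
  obtain ⟨y, hy⟩ := HX.out_mk b
  obtain ⟨c, hcd⟩ : ∃ c : Lˣ, c = HX.out (b : HX.GX L) := ⟨_, rfl⟩
  rw [← hcd] at hy
  have hc : (qk X).Cl j c ρ := ⟨hb.lc, hb.pd, by rw [hy]; exact hS b y _ hb.pf⟩
  have hfin := agd_fin X c
  have hov : ∀ Q : HeightOneSpectrum (𝓞 L), X.Out Q → Odd (ord Q (c : L)) →
      cj X.sig Q ≠ Q ∧ Even (ord (cj X.sig Q) (c : L)) := by
    rintro Q ⟨p, hp, hQ⟩ hodd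
    constructor
    · intro hcj
      refine agd_not R0 X j hT hρ hc hp fun P' hP' => ?_
      rcases Pool.Agent.H98.MF.B.qe_over X.qe X.sig X.sig_α hQ hP' with h | h
      · rw [h]
        exact hodd
      · rw [h, hcj]
        exact hodd
    · by_contra hne
      rw [Int.not_even_iff_odd] at hne
      refine agd_not R0 X j hT hρ hc hp fun P' hP' => ?_
      rcases Pool.Agent.H98.MF.B.qe_over X.qe X.sig X.sig_α hQ hP' with h | h
      · rw [h]
        exact hodd
      · rw [h]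
        exact hne
  refine ⟨hfin.toFinset, (b : HX.GX L), ?_, ?_, hρ, by rw [← hcd]; exact hc⟩
  · intro Q hQ Q' hQ' hs
    have hQ1 : Odd (ord Q.1 (c : L)) := hfin.mem_toFinset.1 hQ
    have hQ1' : Odd (ord Q'.1 (c : L)) := hfin.mem_toFinset.1 hQ'
    have hs' : X.shX Q = X.shX Q' := hs
    have h1 := X.shX_over Q
    have h2 : Over (Fr.pl (X.shX Q)) Q'.1 := by
      rw [hs']
      exact X.shX_over Q'
    rcases Pool.Agent.H98.MF.B.qe_over X.qe X.sig X.sig_α h1 h2 with h | h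
    · exact (Subtype.ext h).symm
    · exfalso
      have h3 := (hov Q.1 Q.2.1 hQ1).2
      rw [← h] at h3
      exact (Int.not_even_iff_odd.2 hQ1') h3
  · intro Q hQ
    rw [← hcd]
    constructor
    · intro hodd
      exact ⟨⟨Q, hQ, (hov Q hQ hodd).1⟩, hfin.mem_toFinset.2 hodd, rfl⟩
    · rintro ⟨Q', hQ', rfl⟩
      exact hfin.mem_toFinset.1 hQ'

end

/-- A29: the good set of a homomorphism -/
theorem aGd {k : Type} [Field k] [NumberField k] {Fr : Frm k} {L : Type} [Field L]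
    [NumberField L] [Algebra k L] (R0 : Rx k) (X : HX Fr L) (j : L →ₐ[k] Om k)
    (hK : AKum (qk X) j) (hS : AFSq (qk X) j) (hT : ATyp R0 X j) : AGd R0 X j :=
  aGd_aux R0 X j hK hS hT

/-- A29: uniqueness -/
theorem aUq {k : Type} [Field k] [NumberField k] {Fr : Frm k} {L : Type} [Field L]
    [NumberField L] [Algebra k L] (R0 : Rx k) (X : HX Fr L) (j : L →ₐ[k] Om k)
    (hI : AFInj (qk X) j) : AUq R0 X j := by
  constructor
  · intro ρ γ γ' h h'
    obtain ⟨z, hz⟩ := hI _ _ _ h.2.pf h'.2.pf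
    rw [← Pool.Agent.H32.MQ.mk_out γ, ← Pool.Agent.H32.MQ.mk_out γ',
      Pool.Agent.H32.MQ.cls_eq, hz]
    exact ⟨HX.out γ * z, by rw [← mul_assoc, pow_two, mul_mul_mul_comm]⟩
  · intro g g' γ h h'
    ext Q
    constructor
    · intro hQ
      obtain ⟨b, hb, hbQ⟩ := (h' Q.1 Q.2.1).1 ((h Q.1 Q.2.1).2 ⟨Q, hQ, rfl⟩)
      exact (Subtype.ext hbQ : b = Q) ▸ hb
    · intro hQ
      obtain ⟨b, hb, hbQ⟩ := (h Q.1 Q.2.1).1 ((h' Q.1 Q.2.1).2 ⟨Q, hQ, rfl⟩)
      exact (Subtype.ext hbQ : b = Q) ▸ hb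

end Pool.Agent.SK
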