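import Pool.Agent.SK.AStm

/-!
# Malle's conjecture for 8T8 over number fields, block A, row A8: lifts and surjectivity
-/

set_option autoImplicit false

open scoped BigOperators
open NumberField IsDedekindDomain

namespace Pool.Agent.SK

open Pool.Agent.H98.MF
open Pool.Agent.H32.MA (SD)
open Pool.Agent.H32.MQ (HX)

section

variable {k : Type} [Field k] [NumberField k]

private theorem hsl_nsq {x : kˣ} (hx : ¬ IsSquare x) : ∃ σ : Gm k, chi (x : k) σ = 1 := by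
  by_contra hc
  push Not at hc
  have h2 : ∀ t : ZMod 2, t = 0 ∨ t = 1 := by decide
  have hc' : ∀ σ : Gm k, chi (x : k) σ = 0 := fun σ => (h2 _).resolve_right (hc σ)
  obtain ⟨q, hq⟩ := Pool.Agent.H98.MF.B.chi_isSquare (x : k) hc'
  refine hx ?_
  have hq0 : q ≠ 0 := by
    rintro rfl
    rw [mul_zero] at hq
    exact x.ne_zero hq
  refine ⟨Units.mk0 q hq0, ?_⟩
  apply Units.ext
  rw [Units.val_mul]
  exact hq

private theorem hsl_sq {x : kˣ} (hx : IsSquare x) (σ : Gm k) : chi (x : k) σ = 0 := by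
  obtain ⟨y, rfl⟩ := hx
  rw [Units.val_mul, ← pow_two]
  exact Pool.Agent.H98.MF.B.chi_sq _ σ

variable {L : Type} [Field L] [NumberField L] [Algebra k L]

theorem aAb (Q : QK k L) (j : L →ₐ[k] Om k) (hF : AFCo Q j) : AAb Q j := by
  intro b ρ hρ σ
  obtain ⟨τ, hτ⟩ := hsl_nsq Q.qe.ns
  have h1 := (hF b _ hρ.pf).2 σ τ
  rw [map_mul, SD.pf_mul, hρ.pd, hρ.pd, hτ, mul_one, mul_one] at h1
  have h2 : (ρ σ).a + chi (Q.a : k) σ = chi ((QK.nr (k := k) b : kˣ) : k) σ :=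
    add_left_cancel h1
  rw [← h2]
  generalize (ρ σ).a = x
  generalize chi (Q.a : k) σ = y
  revert x y
  decide

theorem aHasL (Q : QK k L) (j : L →ₐ[k] Om k) (hF : AFCo Q j) (hA : AAb Q j) : AHasL Q j := by
  refine ⟨fun b f hf hh => ?_, fun D b ρ hρ => ?_⟩
  · obtain ⟨h, hlc, hmul⟩ := hh
    refine ⟨MonoidHom.mk' (fun σ => sdO (chi (Q.a : k) σ)
      (chi ((QK.nr (k := k) b : kˣ) : k) σ) (f σ) (h σ))
      (fun σ τ => hmul σ (Subgroup.mem_top σ) τ (Subgroup.mem_top τ)), ⟨?_, ?_, ?_⟩, ?_⟩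
    · exact ((Pool.Agent.H98.MF.B.chi_lc (Q.a : k)).prodMk
        ((Pool.Agent.H98.MF.B.chi_lc ((QK.nr (k := k) b : kˣ) : k)).prodMk
          ((hF b f hf).1.prodMk hlc))).comp
        (fun t : ZMod 2 × ZMod 2 × ZMod 2 × ZMod 2 => sdO t.1 t.2.1 t.2.2.1 t.2.2.2)
    · intro σ
      exact sdO_pd _ _ _ _
    · have h1 : (fun σ : Gm k => (sdO (chi (Q.a : k) σ)
          (chi ((QK.nr (k := k) b : kˣ) : k) σ) (f σ) (h σ)).pf) = f :=
        funext fun σ => sdO_pf _ _ _ _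
      show Q.IsF j b (fun σ : Gm k => (sdO (chi (Q.a : k) σ)
          (chi ((QK.nr (k := k) b : kˣ) : k) σ) (f σ) (h σ)).pf)
      rw [h1]
      exact hf
    · intro σ
      exact sdO_pf _ _ _ _
  · have key : ∀ σ : Gm k, sdO (chi (Q.a : k) σ) (chi ((QK.nr (k := k) b : kˣ) : k) σ)
        (ρ σ).pf (ρ σ).ph = ρ σ := by
      intro σ
      apply SD.bits_ext
      · rw [sdO_a]
        exact (hA b ρ hρ σ).symm
      · rw [sdO_pd]
        exact (hρ.pd σ).symm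
      · exact sdO_pf _ _ _ _
      · exact sdO_ph _ _ _ _
    refine ⟨fun σ => (ρ σ).ph, hρ.lc.comp SD.ph, fun σ _ τ _ => ?_⟩
    show sdO (chi (Q.a : k) (σ * τ)) (chi ((QK.nr (k := k) b : kˣ) : k) (σ * τ))
        (ρ (σ * τ)).pf (ρ (σ * τ)).ph =
      sdO (chi (Q.a : k) σ) (chi ((QK.nr (k := k) b : kˣ) : k) σ) (ρ σ).pf (ρ σ).ph *
      sdO (chi (Q.a : k) τ) (chi ((QK.nr (k := k) b : kˣ) : k) τ) (ρ τ).pf (ρ τ).ph
    rw [key, key, key, map_mul]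

theorem aSur2 (Q : QK k L) (j : L →ₐ[k] Om k) (hA : AAb Q j) (hS : ASurG) : ASur2 Q j := by
  intro b ρ hρ
  have ha := hA b ρ hρ
  have hmul : ∀ σ : Gm k, chi ((Q.a * QK.nr (k := k) b : kˣ) : k) σ =
      chi (Q.a : k) σ + chi ((QK.nr (k := k) b : kˣ) : k) σ := fun σ =>
    Pool.Agent.H98.MF.B.chi_mul_units Q.a (QK.nr (k := k) b) σ
  have hhom : ∀ (x : k) (σ τ : Gm k), chi x (σ * τ) = chi x σ + chi x τ := fun x σ τ =>
    Pool.Agent.H98.MF.B.chi_hom x σ τ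
  rw [hS (Gm k) ρ]
  simp only [hρ.pd, ha]
  have z : ∀ x y : ZMod 2, (x = 1 ∧ x + y = 0 ↔ x = 1 ∧ y = 1) ∧
      (x = 0 ∧ x + y = 1 ↔ x = 0 ∧ y = 1) := by decide
  simp only [(z _ _).1, (z _ _).2]
  have dich : ∀ x : ZMod 2, x = 0 ∨ x = 1 := by decide
  constructor
  · rintro ⟨⟨σ, h1, h2⟩, ⟨τ, h3, h4⟩⟩
    refine ⟨fun h => ?_, fun h => ?_⟩
    · rw [hsl_sq h] at h2
      exact zero_ne_one h2
    · have h5 := hmul τ
      rw [hsl_sq h, h3, h4] at h5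
      exact absurd h5 (by decide)
  · rintro ⟨h1, h2⟩
    obtain ⟨σ1, hσ1⟩ := hsl_nsq h1
    obtain ⟨σ2, hσ2⟩ := hsl_nsq h2
    obtain ⟨σ3, hσ3⟩ := hsl_nsq Q.qe.ns
    rw [hmul] at hσ2
    rcases dich (chi (Q.a : k) σ1) with h3 | h3
    · refine ⟨?_, σ1, h3, hσ1⟩
      rcases dich (chi ((QK.nr (k := k) b : kˣ) : k) σ3) with h4 | h4
      · exact ⟨σ1 * σ3, by rw [hhom, h3, hσ3]; rfl, by rw [hhom, hσ1, h4]; rfl⟩
      · exact ⟨σ3, hσ3, h4⟩
    · refine ⟨⟨σ1, h3, hσ1⟩, ?_⟩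
      rcases dich (chi (Q.a : k) σ2) with h4 | h4
      · rw [h4, zero_add] at hσ2
        exact ⟨σ2, h4, hσ2⟩
      · have h5 : chi ((QK.nr (k := k) b : kˣ) : k) σ2 = 0 := by
          rw [h4] at hσ2
          generalize chi ((QK.nr (k := k) b : kˣ) : k) σ2 = x at hσ2
          revert x
          decide
        exact ⟨σ1 * σ2, by rw [hhom, h3, h4]; rfl, by rw [hhom, hσ1, h5]; rfl⟩

end

end Pool.Agent.SK
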