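import Pool.Agent.SK.AStm

/-!
# Malle's conjecture for 8T8 over number fields, block A, file AKSq: the obstruction does not change
under squares
-/

set_option autoImplicit false

open scoped BigOperators
open NumberField IsDedekindDomain

namespace Pool.Agent.SK

open Pool.Agent.H98.MF
open Pool.Agent.H98.ML (norb hind)
open Pool.Agent.H32.MQ (HX El Qof rep co lrp)

section

variable {k : Type} [Field k] [NumberField k]

private theorem ksq_z2 (t : ZMod 2) : t + t = 0 := by
  revert t
  decide

private theorem ksq_eq (s t : ZMod 2) (h : s + t = 0) : s = t := by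
  revert s t
  decide

private theorem ksq_sq (v : Pl k) (A c : kˣ) : hv v (A : k) ((c * c : kˣ) : k) = 0 := by
  rw [(B.lin k).mulR, ksq_z2]

private theorem ksq_mul (v : Pl k) (A M c : kˣ) :
    hv v (A : k) ((M * (c * c) : kˣ) : k) = hv v (A : k) (M : k) := by
  rw [(B.lin k).mulR, ksq_sq, add_zero]

variable {L : Type} [Field L] [NumberField L] [Algebra k L]

private theorem ksq_tr {a : kˣ} {α : L} (h : QE a α) (x y : k) :
    Algebra.trace k L (algebraMap k L x + algebraMap k L y * α) = 2 * x := by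
  obtain ⟨σ, h1, -, -, -⟩ := B.qe_conj h
  have h2 : Algebra.trace k L α = 0 := by
    have h3 : Algebra.trace k L (σ α) = Algebra.trace k L α := Algebra.trace_eq_of_algEquiv σ α
    rw [h1, map_neg] at h3
    have h4 : (2 : k) * Algebra.trace k L α = 0 := by linear_combination -h3
    rcases mul_eq_zero.1 h4 with h5 | h5
    · exact absurd h5 two_ne_zero
    · exact h5
  have h6 : algebraMap k L y * α = y • α := (Algebra.smul_def y α).symm
  rw [map_add, h6, map_smul, h2, smul_zero, add_zero, Algebra.trace_algebraMap, h.deg,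
    nsmul_eq_mul]
  norm_num

private theorem ksq_two (v : Pl k) {A m : kˣ} {A' : kˣ} {X Y : k}
    (h : (A : k) * (A' : k) = X ^ 2 - (m : k) * Y ^ 2) :
    hv v (A : k) (m : k) = hv v (A' : k) (m : k) := by
  apply ksq_eq
  rw [(B.lin k).symm v A m, (B.lin k).symm v A' m, ← (B.lin k).mulR]
  apply (B.lin k).nm v m (A * A') X Y
  rw [Units.val_mul]
  exact h

/-- A9: the obstruction and squares -/
theorem aKSq (Q : QK k L) : AKSq Q := by
  intro v b z
  obtain ⟨x, y, hb⟩ := B.qe_repr Q.qe (b : L)
  obtain ⟨u, w, hz⟩ := B.qe_repr Q.qe (z : L)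
  have hα : Q.α ^ 2 = algebraMap k L Q.a := Q.qe.sq
  have hbz : ((b * z ^ 2 : Lˣ) : L) =
      algebraMap k L (x * (u ^ 2 + Q.a * w ^ 2) + 2 * Q.a * y * u * w) +
      algebraMap k L (y * (u ^ 2 + Q.a * w ^ 2) + 2 * x * u * w) * Q.α := by
    rw [Units.val_mul, Units.val_pow_eq_pow_val, hb, hz]
    simp only [map_add, map_mul, map_pow, map_ofNat]
    linear_combination (algebraMap k L x * algebraMap k L w ^ 2 +
      2 * algebraMap k L y * algebraMap k L u * algebraMap k L w +
      algebraMap k L y * algebraMap k L w ^ 2 * Q.α) * hα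
  set n : kˣ := QK.nr (k := k) b with hn
  set c : kˣ := QK.nr (k := k) z with hc
  have hN : Algebra.norm k (b : L) = (n : k) := rfl
  have hN' : Algebra.norm k ((b * z ^ 2 : Lˣ) : L) = ((n * (c * c) : kˣ) : k) := by
    rw [Units.val_mul, Units.val_pow_eq_pow_val, map_mul, map_pow, hN]
    have h1 : Algebra.norm k (z : L) = (c : k) := rfl
    rw [h1]
    push_cast
    ring
  have hn2 : (n : k) = x ^ 2 - Q.a * y ^ 2 := by
    rw [← hN, hb, B.qe_norm_form Q.qe]
  have hT : Algebra.trace k L (b : L) = 2 * x := by rw [hb, ksq_tr Q.qe]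
  have hT' : Algebra.trace k L ((b * z ^ 2 : Lˣ) : L) =
      2 * (x * (u ^ 2 + Q.a * w ^ 2) + 2 * Q.a * y * u * w) := by
    rw [hbz, ksq_tr Q.qe]
  have hN2 : ((n * (c * c) : kˣ) : k) =
      (x * (u ^ 2 + Q.a * w ^ 2) + 2 * Q.a * y * u * w) ^ 2 -
        Q.a * (y * (u ^ 2 + Q.a * w ^ 2) + 2 * x * u * w) ^ 2 := by
    rw [← hN', hbz, B.qe_norm_form Q.qe]
  have h2 : (2 : k) ≠ 0 := two_ne_zero
  unfold QK.kap
  congr 1
  · rw [hN, hN']
    have e1 : (2 : k) * (Q.a : k) * ((n * (c * c) : kˣ) : k) =
        ((Units.mk0 (2 : k) h2 * Q.a * n * (c * c) : kˣ) : k) := by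
      push_cast
      rw [Units.val_mk0]
      ring
    have e2 : (2 : k) * (Q.a : k) * (n : k) = ((Units.mk0 (2 : k) h2 * Q.a * n : kˣ) : k) := by
      push_cast
      rw [Units.val_mk0]
    rw [e1, e2, ksq_mul]
  · rw [hN, hN']
    have e3 : -((Q.a : k) * ((n * (c * c) : kˣ) : k)) = ((-(Q.a * n) * (c * c) : kˣ) : k) := by
      push_cast
      ring
    have e4 : -((Q.a : k) * (n : k)) = ((-(Q.a * n) : kˣ) : k) := by
      push_cast
      ring
    rw [e3, e4]
    have hc0 : (c : k) ≠ 0 := c.ne_zero
    have hn0 : (n : k) ≠ 0 := n.ne_zero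
    by_cases h1 : Algebra.trace k L ((b * z ^ 2 : Lˣ) : L) = 0
    · rw [if_pos h1]
      by_cases h3 : Algebra.trace k L (b : L) = 0
      · rw [if_pos h3]
      · rw [if_neg h3]
        rw [hT', mul_eq_zero] at h1
        have h5 : x * (u ^ 2 + Q.a * w ^ 2) + 2 * Q.a * y * u * w = 0 := h1.resolve_left h2
        set Y : k := y * (u ^ 2 + Q.a * w ^ 2) + 2 * x * u * w with hY
        have hY0 : Y ≠ 0 := by
          intro h0
          rw [h0, h5] at hN2
          apply (n * (c * c)).ne_zero
          rw [hN2]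
          ring
        have e5 : ((-(Q.a * n) : kˣ) : k) =
            (((Q.a * Units.mk0 Y hY0 * c⁻¹) * (Q.a * Units.mk0 Y hY0 * c⁻¹) : kˣ) : k) := by
          have e6 : (n : k) * ((c : k) * c) = 0 ^ 2 - Q.a * Y ^ 2 := by
            rw [← h5, ← hN2]
            push_cast
            ring
          push_cast
          rw [Units.val_mk0]
          field_simp
          linear_combination -e6
        have e7 : Algebra.trace k L (b : L) = ((Units.mk0 _ h3 : kˣ) : k) := rfl
        rw [e5, e7, ksq_sq]
    · rw [if_neg h1]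
      have e8 : Algebra.trace k L ((b * z ^ 2 : Lˣ) : L) = ((Units.mk0 _ h1 : kˣ) : k) := rfl
      by_cases h3 : Algebra.trace k L (b : L) = 0
      · rw [if_pos h3]
        rw [hT, mul_eq_zero] at h3
        have h5 : x = 0 := h3.resolve_left h2
        have hy0 : y ≠ 0 := by
          rintro rfl
          rw [h5] at hn2
          apply hn0
          rw [hn2]
          ring
        have e5 : (-(Q.a * n) * (c * c) : kˣ) =
            (Q.a * Units.mk0 y hy0 * c) * (Q.a * Units.mk0 y hy0 * c) := by
          apply Units.ext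
          push_cast
          rw [Units.val_mk0, hn2, h5]
          ring
        rw [e5, e8, ksq_sq]
      · rw [if_neg h3]
        have e7 : Algebra.trace k L (b : L) = ((Units.mk0 _ h3 : kˣ) : k) := rfl
        rw [e8, ksq_mul, e7]
        apply ksq_two v (X := 2 * (x * u + Q.a * y * w)) (Y := 2 * w)
        rw [← e8, ← e7, hT, hT']
        push_cast
        rw [hn2]
        ring

end

end Pool.Agent.SK
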