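import Pool.Agent.SK.AStm

/-!
# Malle's conjecture for 8T8 over number fields, block A: the obstruction at the primes of the
first type
-/

set_option autoImplicit false

open scoped BigOperators
open NumberField IsDedekindDomain

namespace Pool.Agent.SK

open Pool.Agent.H98.MF
open Pool.Agent.H32.MQ (HX El Qof rep co lrp)

section

variable {k : Type} [Field k] [NumberField k] {L : Type} [Field L] [NumberField L] [Algebra k L]

/-- the trace of an element of a quadratic extension -/
theorem kpa_trace_sig (Q : QK k L) (b : L) :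
    algebraMap k L (Algebra.trace k L b) = b + Q.sig b := by
  classical
  have hdeg : Module.finrank k L = 2 := Q.qe.deg
  have : Algebra.IsQuadraticExtension k L := { finrank_eq_two' := hdeg }
  have : FiniteDimensional k L := inferInstance
  have hall : ∀ τ : L ≃ₐ[k] L, τ = 1 ∨ τ = Q.sig :=
    (Pool.Agent.H98.MF.B.qe_conj Q.qe).choose_spec.2.2.1
  have hα : Q.α ≠ 0 := by
    intro h
    have h1 := Q.qe.sq
    rw [h, zero_pow two_ne_zero] at h1
    exact Q.a.ne_zero ((map_eq_zero _).1 h1.symm)
  have hne : (1 : L ≃ₐ[k] L) ≠ Q.sig := by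
    intro h
    have h1 := Q.sig_α
    rw [← h] at h1
    have h2 : Q.α = -Q.α := h1
    exact hα (self_eq_neg.1 h2)
  have hu : (Finset.univ : Finset (L ≃ₐ[k] L)) = {1, Q.sig} := by
    ext τ
    simpa using hall τ
  rw [trace_eq_sum_automorphisms, hu, Finset.sum_pair hne]
  rfl

theorem kpa_sig (Q : QK k L) (x y : k) :
    Q.sig (algebraMap k L x + algebraMap k L y * Q.α) =
      algebraMap k L x - algebraMap k L y * Q.α := by
  rw [map_add, map_mul, Q.sig_α, AlgEquiv.commutes, AlgEquiv.commutes]
  ring

theorem kpa_trace (Q : QK k L) (x y : k) :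
    Algebra.trace k L (algebraMap k L x + algebraMap k L y * Q.α) = 2 * x := by
  apply (algebraMap k L).injective
  rw [kpa_trace_sig, kpa_sig, map_mul, map_ofNat]
  ring

theorem kpa_cast {n : ℤ} (h : Even n) : ((n : ℤ) : ZMod 2) = 0 := by
  rw [ZMod.intCast_zmod_eq_zero_iff_dvd]
  exact h.two_dvd

end

/-- A26 -/
theorem aKapA {k : Type} [Field k] [NumberField k] {Fr : Frm k} {L : Type} [Field L]
    [NumberField L] [Algebra k L] (X : HX Fr L) : AKapA X := by
  intro p hp b hb
  have h2 : ord (Fr.pl p) (2 : k) = 0 := Pool.Agent.H32.MQ.hb_two Fr p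
  have hae : Even (ord (Fr.pl p) (X.a : k)) := X.unr p hp
  have ha0 : (X.a : k) ≠ 0 := X.a.ne_zero
  obtain ⟨Q, hQ⟩ := exists_over (L := L) (Fr.pl p)
  have hoQ : ∀ x : k, ord Q (algebraMap k L x) = ord (Fr.pl p) x :=
    (Pool.Agent.H32.MQ.h_ord X p Q hp hQ).2
  have hb0 : (b : L) ≠ 0 := b.ne_zero
  have hbQ : Even (ord Q (b : L)) := hb Q hQ
  have hbQ' : Even (ord (cj X.sig Q) (b : L)) := hb _ (hQ.cj X.sig)
  have hNe : Even (ord (Fr.pl p) (Algebra.norm k (b : L))) := by
    have h3 := Pool.Agent.H32.MQ.h_ordN X p Q hp hQ b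
    have h4 : ord (Fr.pl p) (Algebra.norm k (b : L)) =
        ord Q (b : L) + ord (cj X.sig Q) (b : L) := h3
    rw [h4]
    exact hbQ.add hbQ'
  have hN0 : Algebra.norm k (b : L) ≠ 0 := Algebra.norm_ne_zero_iff.2 hb0
  obtain ⟨x, y, hxy⟩ := Pool.Agent.H98.MF.B.qe_repr X.qe (b : L)
  have hN : Algebra.norm k (b : L) = x ^ 2 - (X.a : k) * y ^ 2 := by
    rw [hxy]
    exact Pool.Agent.H98.MF.B.qe_norm_form X.qe x y
  have hT : Algebra.trace k L (b : L) = 2 * x := by
    rw [hxy]
    exact kpa_trace (qk X) x y
  have haN : Even (ord (Fr.pl p) ((X.a : k) * Algebra.norm k (b : L))) := by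
    rw [ord_mul _ ha0 hN0]
    exact hae.add hNe
  have haN0 : (X.a : k) * Algebra.norm k (b : L) ≠ 0 := mul_ne_zero ha0 hN0
  have hfst : hs (Fr.pl p) (X.a : k) (2 * (X.a : k) * Algebra.norm k (b : L)) = 0 := by
    have h20 : (2 : k) ≠ 0 := two_ne_zero
    have h3 : 2 * (X.a : k) * Algebra.norm k (b : L) =
        2 * ((X.a : k) * Algebra.norm k (b : L)) := by ring
    rw [h3, hs_even h2 ha0 (mul_ne_zero h20 haN0) hae, ord_mul _ h20 haN0, h2, zero_add,
      kpa_cast haN, zero_mul]
  have hsnd : Algebra.trace k L (b : L) ≠ 0 → hs (Fr.pl p) (Algebra.trace k L (b : L))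
      (-((X.a : k) * Algebra.norm k (b : L))) = 0 := by
    intro hT0
    have hneg0 : -((X.a : k) * Algebra.norm k (b : L)) ≠ 0 := neg_ne_zero.2 haN0
    rw [hT] at hT0 ⊢
    have hx0 : x ≠ 0 := by
      rintro rfl
      exact hT0 (mul_zero _)
    have h20 : (2 : k) ≠ 0 := two_ne_zero
    have hord2x : ord (Fr.pl p) (2 * x) = ord (Fr.pl p) x := by
      rw [ord_mul _ h20 hx0, h2, zero_add]
    by_cases hxe : Even (ord (Fr.pl p) x)
    · rw [hs_even h2 hT0 hneg0 (by rw [hord2x]; exact hxe), ord_neg, kpa_cast haN, zero_mul]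
    · by_cases hc : y ≠ 0 ∧ ord (Fr.pl p) ((X.a : k) * y ^ 2) < ord (Fr.pl p) (x ^ 2)
      · obtain ⟨hy0, hlt⟩ := hc
        have hay0 : (X.a : k) * y ^ 2 ≠ 0 := mul_ne_zero ha0 (pow_ne_zero 2 hy0)
        have h4 : LocSq (Fr.pl p) (1 + -(x ^ 2) / ((X.a : k) * y ^ 2)) := by
          refine locSq_one_add _ (Or.inr ?_)
          rw [h2, ord_div _ (neg_ne_zero.2 (pow_ne_zero 2 hx0)) hay0, ord_neg]
          omega
        have h5 : -((X.a : k) * Algebra.norm k (b : L)) =
            ((X.a : k) * y) ^ 2 * (1 + -(x ^ 2) / ((X.a : k) * y ^ 2)) := by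
          rw [hN]
          field_simp
          ring
        rw [h5]
        exact ((locSq_sq _ (mul_ne_zero ha0 hy0)).mul h4).hs_right _
      · exfalso
        have hle : algebraMap k L y * X.α = 0 ∨
            ord (Fr.pl p) x ≤ ord Q (algebraMap k L y * X.α) := by
          by_cases hy0 : y = 0
          · left
            rw [hy0, map_zero, zero_mul]
          · right
            have h6 : ¬ ord (Fr.pl p) ((X.a : k) * y ^ 2) < ord (Fr.pl p) (x ^ 2) :=
              fun h => hc ⟨hy0, h⟩
            have h7 : (algebraMap k L y * X.α) ^ 2 = algebraMap k L ((X.a : k) * y ^ 2) := by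
              rw [mul_pow, X.qe.sq, map_mul, map_pow]
              ring
            have h8 : 2 * ord Q (algebraMap k L y * X.α) =
                ord (Fr.pl p) ((X.a : k) * y ^ 2) := by
              rw [← hoQ, ← h7, ord_pow]
              push_cast
              ring
            rw [ord_pow] at h6
            push_cast at h6
            omega
        have hle' : -(algebraMap k L y * X.α) = 0 ∨
            ord (Fr.pl p) x ≤ ord Q (-(algebraMap k L y * X.α)) := by
          rcases hle with h | h
          · left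
            rw [h, neg_zero]
          · right
            rw [ord_neg]
            exact h
        have hxQ : algebraMap k L x = 0 ∨ ord (Fr.pl p) x ≤ ord Q (algebraMap k L x) :=
          Or.inr (by rw [hoQ])
        have hsb : X.sig (b : L) = algebraMap k L x + -(algebraMap k L y * X.α) := by
          rw [hxy, ← sub_eq_add_neg]
          exact kpa_sig (qk X) x y
        have hsb0 : X.sig (b : L) ≠ 0 := by
          intro h
          exact hb0 ((map_eq_zero _).1 h)
        have h9 : ord (Fr.pl p) x ≤ ord Q (b : L) := by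
          have h := le_ord_add Q (ord (Fr.pl p) x) hxQ hle
          rw [← hxy] at h
          exact h.resolve_left hb0
        have h10 : ord (Fr.pl p) x ≤ ord Q (X.sig (b : L)) := by
          have h := le_ord_add Q (ord (Fr.pl p) x) hxQ hle'
          rw [← hsb] at h
          exact h.resolve_left hsb0
        have h11 : Even (ord Q (X.sig (b : L))) := by
          rw [← ord_cj]
          exact hbQ'
        have h12 : ord (Fr.pl p) x + 1 ≤ ord Q (b : L) := by
          rcases lt_or_eq_of_le h9 with h | h
          · omega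
          · exact absurd (by rw [h]; exact hbQ) hxe
        have h13 : ord (Fr.pl p) x + 1 ≤ ord Q (X.sig (b : L)) := by
          rcases lt_or_eq_of_le h10 with h | h
          · omega
          · exact absurd (by rw [h]; exact h11) hxe
        have h14 := le_ord_add Q (ord (Fr.pl p) x + 1) (Or.inr h12) (Or.inr h13)
        have h15 : (b : L) + X.sig (b : L) = algebraMap k L (2 * x) := by
          rw [hsb, hxy, map_mul, map_ofNat]
          ring
        rw [h15, hoQ, hord2x] at h14
        rcases h14 with h | h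
        · exact hT0 ((map_eq_zero _).1 h)
        · omega
  unfold QK.kap
  have e1 : hv (Sum.inl (Fr.pl p)) ((qk X).a : k)
      (2 * ((qk X).a : k) * Algebra.norm k (b : L)) = 0 := hfst
  rw [e1, zero_add]
  split_ifs with h
  · rfl
  · exact hsnd h

end Pool.Agent.SK
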