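import Pool.Agent.SK.AStm

/-!
# Malle's conjecture for 8T8 over number fields, block A, row A27: the obstruction at the primes
of the second type
-/

set_option autoImplicit false

open scoped BigOperators
open NumberField IsDedekindDomain

namespace Pool.Agent.SK

open Pool.Agent.H98.MF
open Pool.Agent.H32.MQ (HX El Qof rep co lrp)

section

variable {k : Type} [Field k] [NumberField k] {Fr : Frm k} {L : Type} [Field L]
  [NumberField L] [Algebra k L] (X : HX Fr L)

private theorem kpb_trace (z : L) :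
    algebraMap k L (Algebra.trace k L z) = z + X.sig z := by
  classical
  have : Algebra.IsQuadraticExtension k L := { finrank_eq_two' := X.qe.deg }
  have : FiniteDimensional k L := inferInstance
  rw [trace_eq_sum_automorphisms]
  have hne : (1 : L ≃ₐ[k] L) ≠ X.sig := by
    intro h
    have h2 : X.α = -X.α := by
      have h3 := X.sig_α
      rw [← h] at h3
      simpa using h3
    exact B.qe_ne_zero X.qe (self_eq_neg.1 h2)
  have hu : (Finset.univ : Finset (L ≃ₐ[k] L)) = {1, X.sig} := by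
    ext τ
    simpa using X.sig_all τ
  rw [hu, Finset.sum_pair hne]
  rfl

/-- the symbol of elements of `k` at a prime of degree one -/
private theorem kpb_hs (Q : X.PX) (x y : kˣ) :
    hs (Fr.pl (X.shX Q)) (x : k) (y : k) =
      hs Q.1 (algebraMap k L (x : k)) (algebraMap k L (y : k)) := by
  set P := Fr.pl (X.shX Q) with hP
  have h2 : ord P (2 : k) = 0 := Pool.Agent.H32.MQ.hb_two Fr _
  obtain ⟨h2', ho⟩ := Pool.Agent.H32.MQ.h_ord X _ _ (X.shX_not Q) (X.shX_over Q)
  have hne : ∀ z : kˣ, algebraMap k L (z : k) ≠ 0 := fun z =>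
    (map_ne_zero (algebraMap k L)).2 z.ne_zero
  have key : ∀ x y : kˣ, Even (ord P (x : k)) → hs P (x : k) (y : k) =
      hs Q.1 (algebraMap k L (x : k)) (algebraMap k L (y : k)) := by
    intro x y hx
    rw [hs_even h2 x.ne_zero y.ne_zero hx, hs_even h2' (hne x) (hne y) (by rw [ho]; exact hx),
      ho, Pool.Agent.H32.MQ.h_qm X x Q hx]
  rcases Int.even_or_odd (ord P (x : k)) with hx | hx
  · exact key x y hx
  rcases Int.even_or_odd (ord P (y : k)) with hy | hy
  · rw [hs_symm P x.ne_zero y.ne_zero, hs_symm Q.1 (hne x) (hne y)]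
    exact key y x hy
  · rw [hs_odd_odd h2 x.ne_zero y.ne_zero hx hy, hs_odd_odd h2' (hne x) (hne y)
      (by rw [ho]; exact hx) (by rw [ho]; exact hy)]
    have h3 : Even (ord P ((-(x * y) : kˣ) : k)) := by
      rw [Units.val_neg, Units.val_mul, ord_neg, ord_mul P x.ne_zero y.ne_zero]
      exact hx.add_odd hy
    have h4 := Pool.Agent.H32.MQ.h_qm X (-(x * y)) Q h3
    rw [Units.val_neg, Units.val_mul, map_neg, map_mul] at h4
    exact h4.symm

/-- the symbol of a sum and a product -/
private theorem kpb_sum {Q : HeightOneSpectrum (𝓞 L)} (h2 : ord Q (2 : L) = 0) {b b' : L}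
    (hb : b ≠ 0) (hb' : b' ≠ 0) (he : Even (ord Q b)) (ho : Odd (ord Q b')) :
    b + b' ≠ 0 ∧ hs Q (b + b') (-(b * b')) = qr b Q := by
  have hne : b + b' ≠ 0 := by
    intro h
    have h1 : b' = -b := by linear_combination h
    rw [h1, ord_neg, ← Int.not_even_iff_odd] at ho
    exact ho he
  refine ⟨hne, ?_⟩
  -- the symbol of `x` and `-(x y)`, if the sum is `x` up to a square
  have key : ∀ x y : L, x ≠ 0 → y ≠ 0 → ord Q x < ord Q y →
      hs Q (x + y) (-(x * y)) = hs Q x y := by
    intro x y hx hy hlt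
    have h3 : LocSq Q ((x + y) * x) := by
      have h4 : LocSq Q (1 + y / x) := by
        refine locSq_one_add Q (Or.inr ?_)
        rw [h2, ord_div Q hy hx]
        linarith
      have h5 : (x + y) * x = (1 + y / x) * x ^ 2 := by
        field_simp
      rw [h5]
      exact h4.mul (locSq_sq Q hx)
    have h6 : LocSq Q (-(x * y) * -(x * y)) := by
      have h7 : -(x * y) * -(x * y) = (x * y) ^ 2 := by ring
      rw [h7]
      exact locSq_sq Q (mul_ne_zero hx hy)
    rw [hs_congr h3 h6]
    have h8 : -(x * y) = y * -x := by ring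
    rw [h8, hs_mul_right Q hx hy (neg_ne_zero.2 hx), hs_neg Q hx, add_zero]
  have hodd : ((ord Q b' : ℤ) : ZMod 2) = 1 := by
    obtain ⟨m, hm⟩ := ho
    rw [hm]
    push_cast
    have h3 : (2 : ZMod 2) = 0 := by decide
    rw [h3, zero_mul, zero_add]
  have h1 : hs Q b b' = qr b Q := by
    rw [hs_even h2 hb hb' he, hodd, one_mul]
  rcases lt_trichotomy (ord Q b) (ord Q b') with h | h | h
  · rw [key b b' hb hb' h, h1]
  · rw [← h, ← Int.not_even_iff_odd] at ho
    exact absurd he ho
  · rw [add_comm, mul_comm, key b' b hb' hb h, hs_symm Q hb' hb, h1]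

theorem aKapB {k : Type} [Field k] [NumberField k] {Fr : Frm k} {L : Type} [Field L]
    [NumberField L] [Algebra k L] (X : HX Fr L) : AKapB X := by
  intro Q b hodd heven
  set P := Fr.pl (X.shX Q) with hP
  have hov : Over P (X.cjX Q).1 := (X.shX_over Q).cj X.sig
  have hsh : X.shX (X.cjX Q) = X.shX Q := X.shX_eq (X.cjX Q) hov
  have hloc : LocSq P (X.a : k) :=
    (B.qe_split_iff X.qe X.sig X.sig_α (X.shX_over Q)).2 Q.2.2
  obtain ⟨h2', ho⟩ := Pool.Agent.H32.MQ.h_ord X _ _ (X.shX_not Q) hov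
  have hb0 : (b : L) ≠ 0 := b.ne_zero
  have hsb0 : X.sig (b : L) ≠ 0 := (map_ne_zero X.sig).2 hb0
  have hsodd : Odd (ord (X.cjX Q).1 (X.sig (b : L))) := by
    have h3 : ord (X.cjX Q).1 (X.sig (b : L)) = ord Q.1 (b : L) := by
      show ord (cj X.sig Q.1) (X.sig (b : L)) = ord Q.1 (b : L)
      rw [ord_cj, X.sig_sig]
    rw [h3]
    exact hodd
  obtain ⟨hne, hsum⟩ := kpb_sum h2' hb0 hsb0 heven hsodd
  have htr := kpb_trace X (b : L)
  have htr0 : Algebra.trace k L (b : L) ≠ 0 := by
    intro h0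
    rw [h0, map_zero] at htr
    exact hne htr.symm
  have hn0 : Algebra.norm k (b : L) ≠ 0 := Algebra.norm_ne_zero_iff.2 hb0
  have hnm := X.nm_eq (b : L)
  have ha0 : (X.a : k) ≠ 0 := X.a.ne_zero
  have h20 : (2 : k) ≠ 0 := two_ne_zero
  have hk : (qk X).kap (Sum.inl P) b =
      hs P (X.a : k) (2 * (X.a : k) * Algebra.norm k (b : L)) +
        hs P (Algebra.trace k L (b : L)) (-((X.a : k) * Algebra.norm k (b : L))) := by
    unfold QK.kap
    rw [if_neg htr0]
    rfl
  rw [hk, hloc.hs_left (mul_ne_zero (mul_ne_zero h20 ha0) hn0), zero_add]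
  have h3 := kpb_hs X (X.cjX Q) (Units.mk0 _ htr0)
    (Units.mk0 _ (neg_ne_zero.2 (mul_ne_zero ha0 hn0)))
  rw [hsh, Units.val_mk0, Units.val_mk0] at h3
  rw [h3, ← hsum, htr]
  have hl1 : LocSq (X.cjX Q).1 (((b : L) + X.sig (b : L)) * ((b : L) + X.sig (b : L))) := by
    rw [← pow_two]
    exact locSq_sq _ hne
  refine hs_congr hl1 ?_
  have h4 : algebraMap k L (-((X.a : k) * Algebra.norm k (b : L))) * -((b : L) * X.sig (b : L)) =
      (X.α * ((b : L) * X.sig (b : L))) ^ 2 := by
    rw [map_neg, map_mul, hnm, mul_pow, X.qe.sq]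
    ring
  rw [h4]
  exact locSq_sq _ (mul_ne_zero (B.qe_ne_zero X.qe) (mul_ne_zero hb0 hsb0))

end

end Pool.Agent.SK
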