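import Pool.Agent.SK.AStm
import Pool.Agent.H98.MF.C.Main
import Pool.Agent.H98.MF.NNin

/-!
# Malle's conjecture for 8T8 over number fields: the product formula for the obstruction
-/

set_option autoImplicit false

open scoped BigOperators
open NumberField IsDedekindDomain

namespace Pool.Agent.SK

open Pool.Agent.H98.MF

section

variable {k : Type} [Field k] [NumberField k]

/-- the product formula for a pair of units, over any large set -/
private theorem kpf_pair (x y : kˣ) (S S1 : Finset (HeightOneSpectrum (𝓞 k)))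
    (h2 : ∀ P : HeightOneSpectrum (𝓞 k), 0 < ord P (2 : k) → P ∈ S) (hS : S ⊆ S1)
    (hx : x ∈ US S1) (hy : y ∈ US S1) : ∑ v ∈ pls S1, hv v (x : k) (y : k) = 0 :=
  B.recSt (nin k) S1 (fun P hP => hS (h2 P hP)) x hx y hy

/-- the sum over the places of a smaller set -/
private theorem kpf_sub (f : Pl k → ZMod 2) (S S1 : Finset (HeightOneSpectrum (𝓞 k)))
    (hS : S ⊆ S1) (hf : ∀ P : HeightOneSpectrum (𝓞 k), P ∉ S → f (Sum.inl P) = 0) :
    ∑ v ∈ pls S, f v = ∑ v ∈ pls S1, f v := by
  unfold pls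
  rw [Finset.sum_disjSum, Finset.sum_disjSum]
  have h : ∑ P ∈ S, f (Sum.inl P) = ∑ P ∈ S1, f (Sum.inl P) :=
    Finset.sum_subset hS fun P _ hP => hf P hP
  rw [h]

end

variable {k : Type} [Field k] [NumberField k] {L : Type} [Field L] [NumberField L] [Algebra k L]

/-- A13: the product formula for the obstruction -/
theorem aKapF (Q : QK k L) : AKapF Q := by
  classical
  intro S b h2 hS
  have h20 : (2 : k) ≠ 0 := two_ne_zero
  set n : kˣ := QK.nr (k := k) b with hn
  have hnv : (n : k) = Algebra.norm k (b : L) := rfl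
  set t : kˣ := if h : Algebra.trace k L (b : L) = 0 then 1
    else Units.mk0 (Algebra.trace k L (b : L)) h with ht
  set u : kˣ := Units.mk0 2 h20 * Q.a * n with hu
  set w : kˣ := -(Q.a * n) with hw
  have huv : (u : k) = 2 * (Q.a : k) * Algebra.norm k (b : L) := by
    rw [hu, Units.val_mul, Units.val_mul, Units.val_mk0, hnv]
  have hwv : (w : k) = -((Q.a : k) * Algebra.norm k (b : L)) := by
    rw [hw, Units.val_neg, Units.val_mul, hnv]
  obtain ⟨S0, hS0⟩ := B.exists_mem_US ({Q.a, u, t, w} : Finset kˣ)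
  have hsub : S ⊆ S ∪ S0 := Finset.subset_union_left
  have hsub0 : S0 ⊆ S ∪ S0 := Finset.subset_union_right
  have hm : ∀ x ∈ ({Q.a, u, t, w} : Finset kˣ), x ∈ US (S ∪ S0) :=
    fun x hx => B.US_mono hsub0 (hS0 x hx)
  have ha : Q.a ∈ US (S ∪ S0) := hm _ (by simp)
  have hu1 : u ∈ US (S ∪ S0) := hm _ (by simp)
  have ht1 : t ∈ US (S ∪ S0) := hm _ (by simp)
  have hw1 : w ∈ US (S ∪ S0) := hm _ (by simp)
  rw [kpf_sub (fun v => Q.kap v b) S (S ∪ S0) hsub hS]
  have e1 := kpf_pair Q.a u S (S ∪ S0) h2 hsub ha hu1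
  have e2 := kpf_pair t w S (S ∪ S0) h2 hsub ht1 hw1
  simp only [QK.kap]
  rw [Finset.sum_add_distrib]
  rw [huv] at e1
  rw [e1, zero_add]
  by_cases h : Algebra.trace k L (b : L) = 0
  · refine Finset.sum_eq_zero fun v _ => ?_
    rw [if_pos h]
  · have htv : (t : k) = Algebra.trace k L (b : L) := by
      rw [ht, dif_neg h, Units.val_mk0]
    rw [htv, hwv] at e2
    rw [← e2]
    refine Finset.sum_congr rfl fun v _ => ?_
    rw [if_neg h]

end Pool.Agent.SK
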