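import Pool.Agent.SK.AStm
import Pool.Agent.H98.MF.L.CobN

/-!
# Malle's conjecture for 8T8 over number fields, block A: the obstruction is local (row A13)
-/

set_option autoImplicit false

open scoped BigOperators
open NumberField IsDedekindDomain

namespace Pool.Agent.SK

open Pool.Agent.H98.MF
open Pool.Agent.H32.MA (SD bit3 pm p5 pw)
open Pool.Agent.H32.MQ (HX El Qof rep co lrp)

theorem kpl_au (d n f h : ZMod 2) :
    sdO d n (f + d) (au 3 (sdO d n f h)).ph = au 3 (sdO d n f h) := by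
  revert d n f h; decide

theorem kpl_z (x y : ZMod 2) (h : x = 0 ↔ y = 0) : x = y := by
  revert x y; decide

theorem kpl_add (x y : ZMod 2) : x + y + y = x := by
  revert x y; decide

section

variable {k : Type} [Field k] [NumberField k]

theorem kpl_cn (x : Om k) : IsLocallyConstant (fun σ : Gm k => σ x) := cn_ev x

theorem kpl_sg {θ : Om k} (hθ : θ ≠ 0) (c : ZMod 2) : sgO c * θ = θ ↔ c = 0 := by
  unfold sgO
  split_ifs with h
  · simp [h]
  · constructor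
    · intro h1
      rw [neg_one_mul, neg_eq_iff_add_eq_zero, ← two_mul] at h1
      exact absurd ((mul_eq_zero.1 h1).resolve_left two_ne_zero) hθ
    · exact fun h1 => absurd h1 h

variable {L : Type} [Field L] [NumberField L] [Algebra k L] (Q : QK k L) (j : L →ₐ[k] Om k)

open Classical in
theorem kpl_lc {b : Lˣ} {f : Gm k → ZMod 2} (hf : Q.IsF j b f) : IsLocallyConstant f := by
  obtain ⟨θ, θ', h1, h2, h3, h4⟩ := hf
  have hb : j (b : L) ≠ 0 := by simp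
  have hb' : j (Q.sig (b : L)) ≠ 0 := by simp
  have hθ : θ ≠ 0 := by
    rintro rfl
    rw [zero_pow two_ne_zero] at h1
    exact hb h1.symm
  have hθ' : θ' ≠ 0 := by
    rintro rfl
    rw [zero_pow two_ne_zero] at h2
    exact hb' h2.symm
  have h5 : IsLocallyConstant (fun σ : Gm k => (σ θ, chi (Q.a : k) σ)) :=
    (kpl_cn θ).prodMk (chi_lc (Q.a : k))
  have h6 : f = (fun t : Om k × ZMod 2 => if t.2 = 0 then (if t.1 = θ then (0 : ZMod 2) else 1)
      else (if t.1 = θ' then 0 else 1)) ∘ (fun σ : Gm k => (σ θ, chi (Q.a : k) σ)) := by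
    funext σ
    have hz : ∀ x : ZMod 2, x ≠ 0 → x = 1 := by decide
    show f σ = if chi (Q.a : k) σ = 0 then (if σ θ = θ then (0 : ZMod 2) else 1)
      else (if σ θ = θ' then 0 else 1)
    by_cases hc : chi (Q.a : k) σ = 0
    · rw [if_pos hc, h3 σ hc]
      by_cases h7 : f σ = 0
      · rw [if_pos ((kpl_sg hθ _).2 h7), h7]
      · rw [if_neg fun h8 => h7 ((kpl_sg hθ _).1 h8), hz _ h7]
    · rw [if_neg hc, h4 σ (hz _ hc)]
      by_cases h7 : f σ = 0
      · rw [if_pos ((kpl_sg hθ' _).2 h7), h7]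
      · rw [if_neg fun h8 => h7 ((kpl_sg hθ' _).1 h8), hz _ h7]
  rw [h6]
  exact h5.comp _

omit [NumberField k] in
theorem kpl_dir {D : Subgroup (Gm k)} {d n f n' f' : Gm k → ZMod 2} (hd : IsLocallyConstant d)
    (hn : IsLocallyConstant n) (hf : IsLocallyConstant f) (h1 : ∀ σ ∈ D, n' σ = n σ)
    (h2 : (∀ σ ∈ D, f' σ = f σ) ∨ ∀ σ ∈ D, f' σ = f σ + d σ)
    (h : ∃ h : Gm k → ZMod 2, IsLocallyConstant h ∧ ∀ σ ∈ D, ∀ τ ∈ D,
      sdO (d (σ * τ)) (n (σ * τ)) (f (σ * τ)) (h (σ * τ)) =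
        sdO (d σ) (n σ) (f σ) (h σ) * sdO (d τ) (n τ) (f τ) (h τ)) :
    ∃ h : Gm k → ZMod 2, IsLocallyConstant h ∧ ∀ σ ∈ D, ∀ τ ∈ D,
      sdO (d (σ * τ)) (n' (σ * τ)) (f' (σ * τ)) (h (σ * τ)) =
        sdO (d σ) (n' σ) (f' σ) (h σ) * sdO (d τ) (n' τ) (f' τ) (h τ) := by
  obtain ⟨h, hlc, hh⟩ := h
  rcases h2 with h2 | h2
  · refine ⟨h, hlc, fun σ hσ τ hτ => ?_⟩
    have hστ := D.mul_mem hσ hτ
    rw [h1 _ hστ, h1 _ hσ, h1 _ hτ, h2 _ hστ, h2 _ hσ, h2 _ hτ]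
    exact hh σ hσ τ hτ
  · refine ⟨fun σ => (au 3 (sdO (d σ) (n σ) (f σ) (h σ))).ph, ?_, fun σ hσ τ hτ => ?_⟩
    · exact ((hd.prodMk hn).prodMk (hf.prodMk hlc)).comp
        fun t : (ZMod 2 × ZMod 2) × (ZMod 2 × ZMod 2) =>
          (au 3 (sdO t.1.1 t.1.2 t.2.1 t.2.2)).ph
    · have hστ := D.mul_mem hσ hτ
      show sdO (d (σ * τ)) (n' (σ * τ)) (f' (σ * τ))
          (au 3 (sdO (d (σ * τ)) (n (σ * τ)) (f (σ * τ)) (h (σ * τ)))).ph =
        sdO (d σ) (n' σ) (f' σ) (au 3 (sdO (d σ) (n σ) (f σ) (h σ))).ph *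
          sdO (d τ) (n' τ) (f' τ) (au 3 (sdO (d τ) (n τ) (f τ) (h τ))).ph
      rw [h1 _ hστ, h1 _ hσ, h1 _ hτ, h2 _ hστ, h2 _ hσ, h2 _ hτ, kpl_au, kpl_au, kpl_au,
        hh σ hσ τ hτ, map_mul]

/-- A12: the obstruction is local -/
theorem aKapL {k : Type} [Field k] [NumberField k] {L : Type} [Field L] [NumberField L]
    [Algebra k L] (Q : QK k L) (j : L →ₐ[k] Om k) (hE : AFEx Q j) (hM : AFMul Q j)
    (hq : ALq Q j) (hV : ACritV Q j) : AKapL Q := by
  intro v b l hl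
  obtain ⟨f, hf⟩ := hE b
  obtain ⟨g, hg⟩ := hE l
  obtain ⟨h1, h2⟩ := hq v l g hl hg
  have hfg := hM b l f g hf hg
  have hn : ∀ σ ∈ DecP v, chi ((QK.nr (k := k) (b * l) : kˣ) : k) σ =
      chi ((QK.nr (k := k) b : kˣ) : k) σ := by
    intro σ hσ
    have h3 : QK.nr (k := k) (b * l) = QK.nr (k := k) b * QK.nr (k := k) l := map_mul _ _ _
    rw [h3, Units.val_mul, chi_mul (Units.ne_zero _) (Units.ne_zero _), h2 σ hσ, add_zero]
  have ha := chi_lc (Q.a : k)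
  have key : Q.HasL (DecP v) (b * l) (fun σ => f σ + g σ) ↔ Q.HasL (DecP v) b f := by
    constructor
    · intro h
      refine kpl_dir (f := fun σ => f σ + g σ) (f' := f) ha (chi_lc _)
        ((kpl_lc Q j hf).add (kpl_lc Q j hg)) (fun σ hσ => (hn σ hσ).symm) ?_ h
      rcases h1 with h1 | h1
      · exact Or.inl fun σ hσ => by rw [h1 σ hσ, add_zero]
      · exact Or.inr fun σ hσ => by rw [h1 σ hσ, kpl_add]
    · intro h
      refine kpl_dir (f := f) (f' := fun σ => f σ + g σ) ha (chi_lc _) (kpl_lc Q j hf) hn ?_ h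
      rcases h1 with h1 | h1
      · exact Or.inl fun σ hσ => by rw [h1 σ hσ, add_zero]
      · exact Or.inr fun σ hσ => by rw [h1 σ hσ]
  exact kpl_z _ _ ((hV v (b * l) _ hfg).symm.trans (key.trans (hV v b f hf)))

end

end Pool.Agent.SK
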