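import Pool.Agent.SK.AStm
import Pool.Agent.H98.MF.L.ChiB

/-!
# Malle's conjecture for 8T8 over number fields, row A5: every homomorphism is attached to an
element (Kummer)
-/

set_option autoImplicit false

open scoped BigOperators
open NumberField IsDedekindDomain

namespace Pool.Agent.SK

open Pool.Agent.H98.MF
open Pool.Agent.H32.MA (SD)

/-- the elements with vanishing first two bits -/
private def kum_S : Subgroup SD where
  carrier := {g | g.pd = 0 ∧ g.pf = 0}
  mul_mem' := by
    intro g h hg hh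
    revert g h
    decide
  one_mem' := by
    show (1 : SD).pd = 0 ∧ (1 : SD).pf = 0
    decide
  inv_mem' := by
    intro g hg
    revert g
    decide

private theorem kum_conj (g h : SD) (hg : g.pd = 0) (hh : h.pd = 0 ∧ h.pf = 0) :
    (g⁻¹ * h * g).pd = 0 ∧ (g⁻¹ * h * g).pf = 0 := by
  revert g h; decide

private theorem kum_inv_mul (g h : SD) (hg : g.pd = 0) (hh : h.pd = 0) :
    (g⁻¹ * h).pd = 0 ∧ (g⁻¹ * h).pf = g.pf + h.pf := by
  revert g h; decide

private theorem kum_mul (g h : SD) (hh : h.pd = 0) :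
    (g * h).pf = g.pf + h.pf := by
  revert g h; decide

private theorem kum_z (x : ZMod 2) : x = 0 ∨ x = 1 := by
  revert x; decide

section

variable {k : Type} [Field k] [NumberField k]

omit [NumberField k] in
private theorem kum_sg_zero : sgO (k := k) 0 = 1 := by
  rw [sgO, if_pos rfl]

omit [NumberField k] in
private theorem kum_sg_one : sgO (k := k) 1 = -1 := by
  rw [sgO, if_neg one_ne_zero]

omit [NumberField k] in
private theorem kum_sg_add (x y : ZMod 2) : sgO (k := k) (x + y) = sgO x * sgO y := by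
  rcases kum_z x with rfl | rfl <;> rcases kum_z y with rfl | rfl
  · rw [add_zero, kum_sg_zero, one_mul]
  · rw [zero_add, kum_sg_zero, one_mul]
  · rw [add_zero, kum_sg_zero, mul_one]
  · have h : (1 : ZMod 2) + 1 = 0 := by decide
    rw [h, kum_sg_zero, kum_sg_one]
    ring

omit [NumberField k] in
private theorem kum_sg_sq (x : ZMod 2) : sgO (k := k) x ^ 2 = 1 := by
  rcases kum_z x with rfl | rfl
  · rw [kum_sg_zero, one_pow]
  · rw [kum_sg_one]
    ring

omit [NumberField k] in
private theorem kum_sg_fix (σ : Gm k) (x : ZMod 2) : σ (sgO x) = sgO x := by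
  rcases kum_z x with rfl | rfl
  · rw [kum_sg_zero, map_one]
  · rw [kum_sg_one, map_neg, map_one]

end

theorem aKum {k : Type} [Field k] [NumberField k] {L : Type} [Field L] [NumberField L]
    [Algebra k L] (Q : QK k L) (j : L →ₐ[k] Om k) (hA : AAct Q j) (hF : AFix Q j) :
    AKum Q j := by
  intro ρ hlc hpd
  have hgal := om_galois (k := k)
  -- an automorphism moving the square root
  have hτ : ∃ τ0 : Gm k, chi (Q.a : k) τ0 = 1 := by
    by_contra hno
    push Not at hno
    have h0 : ∀ σ, chi (Q.a : k) σ = 0 := fun σ => (kum_z _).resolve_right (hno σ)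
    obtain ⟨r, hr⟩ := chi_isSquare h0
    have hr0 : r ≠ 0 := by
      rintro rfl
      rw [mul_zero] at hr
      exact Q.a.ne_zero hr
    exact Q.qe.ns ⟨Units.mk0 r hr0, Units.ext hr⟩
  obtain ⟨τ0, hτ0⟩ := hτ
  -- the element θ
  have key : ∃ θ : Om k, θ ≠ 0 ∧
      ∀ σ : Gm k, chi (Q.a : k) σ = 0 → σ θ = sgO (ρ σ).pf * θ := by
    by_cases hall : ∀ σ : Gm k, chi (Q.a : k) σ = 0 → (ρ σ).pf = 0
    · refine ⟨1, one_ne_zero, fun σ hσ => ?_⟩
      rw [hall σ hσ, map_one, kum_sg_zero, one_mul]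
    · push Not at hall
      obtain ⟨s, hs, hs1⟩ := hall
      have hs1 : (ρ s).pf = 1 := (kum_z _).resolve_left hs1
      have hspd : (ρ s).pd = 0 := by rw [hpd, hs]
      have hmem : ∀ σ : Gm k, σ ∈ kum_S.comap ρ ↔ (ρ σ).pd = 0 ∧ (ρ σ).pf = 0 :=
        fun σ => Iff.rfl
      have hclosed : IsClosed ((kum_S.comap ρ : Subgroup (Gm k)) : Set (Gm k)) := by
        have h1 : ((kum_S.comap ρ : Subgroup (Gm k)) : Set (Gm k)) =
            ρ ⁻¹' {g | g.pd = 0 ∧ g.pf = 0} := rfl
        rw [h1, ← isOpen_compl_iff, ← Set.preimage_compl]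
        exact hlc _
      let H : ClosedSubgroup (Gm k) := ⟨kum_S.comap ρ, hclosed⟩
      have hH : (IntermediateField.fixedField (H : Subgroup (Gm k))).fixingSubgroup =
          (H : Subgroup (Gm k)) :=
        InfiniteGalois.fixingSubgroup_fixedField H
      have hsH : s ∉ (IntermediateField.fixedField (H : Subgroup (Gm k))).fixingSubgroup := by
        rw [hH]
        intro h
        have h2 : s ∈ kum_S.comap ρ := h
        rw [hmem, hs1] at h2
        exact one_ne_zero h2.2
      rw [IntermediateField.mem_fixingSubgroup_iff] at hsH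
      push Not at hsH
      obtain ⟨y, hy, hsy⟩ := hsH
      have hyf : ∀ σ ∈ kum_S.comap ρ, σ y = y := by
        intro σ hσ
        rw [IntermediateField.mem_fixedField_iff] at hy
        exact hy σ hσ
      refine ⟨y - s y, sub_ne_zero.2 (Ne.symm hsy), fun σ hσ => ?_⟩
      have hσpd : (ρ σ).pd = 0 := by rw [hpd, hσ]
      rcases kum_z (ρ σ).pf with h0 | h1
      · -- σ in H
        have h1 : σ ∈ kum_S.comap ρ := (hmem σ).2 ⟨hσpd, h0⟩
        have h2 : s⁻¹ * σ * s ∈ kum_S.comap ρ := by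
          rw [hmem, map_mul, map_mul, map_inv]
          exact kum_conj _ _ hspd ⟨hσpd, h0⟩
        have h3 : σ (s y) = s y := by
          have h4 := hyf _ h2
          have h5 : (s * (s⁻¹ * σ * s)) y = s y := by
            rw [AlgEquiv.mul_apply, h4]
          have h6 : s * (s⁻¹ * σ * s) = σ * s := by group
          rw [h6, AlgEquiv.mul_apply] at h5
          exact h5
        rw [h0, map_sub, hyf σ h1, h3, kum_sg_zero, one_mul]
      · have h2 : s⁻¹ * σ ∈ kum_S.comap ρ := by
          rw [hmem, map_mul, map_inv]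
          have h3 := kum_inv_mul _ _ hspd hσpd
          refine ⟨h3.1, ?_⟩
          rw [h3.2, hs1, h1]
          decide
        have h3 : σ * s ∈ kum_S.comap ρ := by
          rw [hmem, map_mul, SD.pd_mul, kum_mul _ _ hspd, h1, hs1, hσpd, hspd]
          decide
        have h4 : σ y = s y := by
          have h5 := hyf _ h2
          have h6 : (s * (s⁻¹ * σ)) y = s y := by rw [AlgEquiv.mul_apply, h5]
          rwa [mul_inv_cancel_left] at h6
        have h5 : σ (s y) = y := by
          have h6 := hyf _ h3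
          rwa [AlgEquiv.mul_apply] at h6
        rw [h1, map_sub, h4, h5, kum_sg_one]
        ring
  obtain ⟨θ, hθ0, hθ⟩ := key
  obtain ⟨b, hb⟩ := hF (θ ^ 2) (fun σ hσ => by
    rw [map_pow, hθ σ hσ, mul_pow, kum_sg_sq, one_mul])
  have hb0 : b ≠ 0 := by
    rintro rfl
    rw [map_zero] at hb
    exact hθ0 (pow_eq_zero_iff (two_ne_zero) |>.1 hb)
  refine ⟨Units.mk0 b hb0, hlc, hpd, θ, sgO (ρ τ0).pf * τ0 θ, hb, ?_, hθ, ?_⟩
  · rw [mul_pow, kum_sg_sq, one_mul, ← map_pow, hb]
    exact (hA τ0 b).2 hτ0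
  · intro σ hσ
    have h1 : chi (Q.a : k) (τ0⁻¹ * σ) = 0 := by
      have h2 : chi (Q.a : k) (τ0 * (τ0⁻¹ * σ)) = chi (Q.a : k) τ0 + chi (Q.a : k) (τ0⁻¹ * σ) :=
        chi_hom _ _ _
      rw [mul_inv_cancel_left, hσ, hτ0] at h2
      rcases kum_z (chi (Q.a : k) (τ0⁻¹ * σ)) with h | h
      · exact h
      · rw [h] at h2
        exact absurd h2 (by decide)
    have h2 : (ρ σ).pf = (ρ τ0).pf + (ρ (τ0⁻¹ * σ)).pf := by
      have h3 : ρ σ = ρ τ0 * ρ (τ0⁻¹ * σ) := by rw [← map_mul, mul_inv_cancel_left]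
      rw [h3]
      exact kum_mul _ _ (by rw [hpd, h1])
    have h3 : σ θ = τ0 ((τ0⁻¹ * σ) θ) := by
      rw [← AlgEquiv.mul_apply, mul_inv_cancel_left]
    show σ θ = sgO (ρ σ).pf * (sgO (ρ τ0).pf * τ0 θ)
    rw [h3, hθ _ h1, map_mul, kum_sg_fix, h2, kum_sg_add]
    have h4 := kum_sg_sq (k := k) (ρ τ0).pf
    linear_combination (-(sgO (ρ (τ0⁻¹ * σ)).pf * τ0 θ)) * h4

end Pool.Agent.SK
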