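import Pool.Agent.SK.AStm
import Pool.Agent.H32.MA.ALift

/-!
# Malle's conjecture for 8T8 over number fields, block A, row A7: lifts and cup products
-/

set_option autoImplicit false

open scoped BigOperators
open NumberField IsDedekindDomain

namespace Pool.Agent.SK

open Pool.Agent.H98.MF
open Pool.Agent.H32.MA (SD bit3 pm p5 pw a11_iff a11_chi2)
open Pool.Agent.H32.MQ (HX El Qof rep co lrp)

private theorem lft_lc {G : Type} [TopologicalSpace G] (T f h g : G → ZMod 2)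
    (hT : IsLocallyConstant T) (hf : IsLocallyConstant f) (hh : IsLocallyConstant h)
    (hg : IsLocallyConstant g) : IsLocallyConstant (fun σ => h σ + (f σ + 1) * T σ + g σ) := by
  have h1 : IsLocallyConstant (fun σ => (f σ, T σ, h σ, g σ)) :=
    hf.prodMk (hT.prodMk (hh.prodMk hg))
  exact h1.comp (fun x : ZMod 2 × ZMod 2 × ZMod 2 × ZMod 2 => x.2.2.1 + (x.1 + 1) * x.2.1 + x.2.2.2)

/-- A7: lifts and cup products on a subgroup -/
theorem aLift {k : Type} [Field k] [NumberField k] {L : Type} [Field L] [NumberField L]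
    [Algebra k L] (Q : QK k L) (j : L →ₐ[k] Om k) (hC : ACoc Q j) (hF : AFCo Q j) :
    ALift Q j := by
  intro D b f hb hf
  obtain ⟨hflc, hfco⟩ := hF b f hf
  obtain ⟨h, hhlc, hh⟩ := hC b f hb hf
  have hn : Algebra.norm k (b : L) ≠ 0 := (QK.nr (k := k) b).ne_zero
  have hnr : ((QK.nr (k := k) b : kˣ) : k) = Algebra.norm k (b : L) := rfl
  have hd : (Q.a : k) ≠ 0 := Q.a.ne_zero
  have hD := chi_hom (Q.a : k)
  have hN := chi_hom (Algebra.norm k (b : L))
  have hTT := chi_hom (Algebra.trace k L (b : L))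
  have h2 : (2 : k) ≠ 0 := two_ne_zero
  rw [hnr] at hfco hh
  have hdn : ∀ σ, chi ((Q.a : k) * Algebra.norm k (b : L)) σ =
      chi (Q.a : k) σ + chi (Algebra.norm k (b : L)) σ := fun σ => chi_mul hd hn σ
  have h2dn : ∀ σ, chi (2 * (Q.a : k) * Algebra.norm k (b : L)) σ =
      chi (2 : k) σ + chi (Q.a : k) σ + chi (Algebra.norm k (b : L)) σ := by
    intro σ
    rw [chi_mul (mul_ne_zero h2 hd) hn σ, chi_mul h2 hd σ]
  have hB : ∀ σ τ : Gm k,
      bit3 (chi (Q.a : k) σ + chi (Q.a : k) τ)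
        (f σ + f τ + chi (Algebra.norm k (b : L)) σ * chi (Q.a : k) τ +
        (chi (Algebra.trace k L (b : L)) σ + chi (Algebra.trace k L (b : L)) τ)) (h (σ * τ)) =
      bit3 (chi (Q.a : k) σ) (f σ + chi (Algebra.trace k L (b : L)) σ) (h σ) +
      pm (chi (Q.a : k) σ + chi (Algebra.norm k (b : L)) σ) * p5 (chi (2 : k) σ) *
        bit3 (chi (Q.a : k) τ) (f τ + chi (Algebra.trace k L (b : L)) τ) (h τ) := by
    intro σ τ
    have := hh σ τ
    rwa [hD, hfco, hTT] at this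
  have hz : ∀ x : ZMod 2, x + x = 0 := CharTwo.add_self_eq_zero
  unfold QK.HasL Triv
  rw [hnr]
  constructor
  · rintro ⟨g, hglc, hg⟩
    refine ⟨fun σ => h σ + (f σ + 1) * chi (Algebra.trace k L (b : L)) σ + g σ,
      lft_lc _ _ _ _ (chi_lc _) hflc hhlc hglc, ?_⟩
    intro σ hσ τ hτ
    have e3 : ∀ σ, g σ = h σ + (f σ + 1) * chi (Algebra.trace k L (b : L)) σ +
        (h σ + (f σ + 1) * chi (Algebra.trace k L (b : L)) σ + g σ) := by
      intro σ
      have := hz (h σ + (f σ + 1) * chi (Algebra.trace k L (b : L)) σ)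
      linear_combination -this
    have h4 : bit3 (chi (Q.a : k) (σ * τ)) (f (σ * τ)) (g (σ * τ)) =
        bit3 (chi (Q.a : k) σ) (f σ) (g σ) + pw (chi (Q.a : k) σ +
          chi (Algebra.norm k (b : L)) σ) * bit3 (chi (Q.a : k) τ) (f τ) (g τ) :=
      congrArg SD.b (hg σ hσ τ hτ)
    rw [hD, hfco] at h4
    have h5 := (a11_iff (chi (Q.a : k) σ) (chi (Q.a : k) τ) (chi (Algebra.norm k (b : L)) σ)
      (chi (Algebra.trace k L (b : L)) σ)
      (chi (Algebra.trace k L (b : L)) τ) (chi (2 : k) σ) (f σ) (f τ) (h σ) (h τ) (h (σ * τ))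
      (h σ + (f σ + 1) * chi (Algebra.trace k L (b : L)) σ + g σ)
      (h τ + (f τ + 1) * chi (Algebra.trace k L (b : L)) τ + g τ)
      (h (σ * τ) + (f (σ * τ) + 1) * chi (Algebra.trace k L (b : L)) (σ * τ) + g (σ * τ))
      (hB σ τ)).mp (by
        rw [← e3 σ, ← e3 τ]
        rw [e3 (σ * τ), hfco, hTT] at h4
        rw [hfco, hTT]
        exact h4)
    show h (σ * τ) + (f (σ * τ) + 1) * chi (Algebra.trace k L (b : L)) (σ * τ) + g (σ * τ) = _
    rw [h5, Fin.sum_univ_three]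
    show _ = _ + (chi ((Q.a : k) * Algebra.norm k (b : L)) σ *
      chi (Algebra.trace k L (b : L)) τ + chi (Algebra.trace k L (b : L)) σ *
      chi (Algebra.trace k L (b : L)) τ + chi (2 * (Q.a : k) * Algebra.norm k (b : L)) σ *
      chi (Q.a : k) τ)
    rw [hdn, h2dn]
  · rintro ⟨g, hglc, hg⟩
    refine ⟨fun σ => h σ + (f σ + 1) * chi (Algebra.trace k L (b : L)) σ + g σ,
      lft_lc _ _ _ _ (chi_lc _) hflc hhlc hglc, ?_⟩
    intro σ hσ τ hτ
    have hg1 : g (σ * τ) = g σ + g τ + ((chi (Q.a : k) σ + chi (Algebra.norm k (b : L)) σ) *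
        chi (Algebra.trace k L (b : L)) τ + chi (Algebra.trace k L (b : L)) σ *
        chi (Algebra.trace k L (b : L)) τ + (chi (2 : k) σ + chi (Q.a : k) σ +
        chi (Algebra.norm k (b : L)) σ) * chi (Q.a : k) τ) := by
      have h6 := hg σ hσ τ hτ
      rw [Fin.sum_univ_three] at h6
      rw [← hdn, ← h2dn]
      exact h6
    have h5 := (a11_iff (chi (Q.a : k) σ) (chi (Q.a : k) τ) (chi (Algebra.norm k (b : L)) σ)
      (chi (Algebra.trace k L (b : L)) σ)
      (chi (Algebra.trace k L (b : L)) τ) (chi (2 : k) σ) (f σ) (f τ) (h σ) (h τ) (h (σ * τ))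
      (g σ) (g τ) (g (σ * τ)) (hB σ τ)).mpr hg1
    apply SD.ext
    · rw [SD.mul_b]
      show bit3 (chi (Q.a : k) (σ * τ)) (f (σ * τ)) (h (σ * τ) + (f (σ * τ) + 1) *
        chi (Algebra.trace k L (b : L)) (σ * τ) + g (σ * τ)) = _
      rw [hD, hfco, hTT]
      exact h5
    · rw [SD.mul_a]
      show chi (Q.a : k) (σ * τ) + chi (Algebra.norm k (b : L)) (σ * τ) =
        chi (Q.a : k) σ + chi (Algebra.norm k (b : L)) σ +
          (chi (Q.a : k) τ + chi (Algebra.norm k (b : L)) τ)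
      rw [hD, hN]
      ring

end Pool.Agent.SK
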