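import Pool.Agent.SK.AStm
import Pool.Agent.H98.MF.L.Real
import Pool.Agent.H98.MF.L.InV
import Pool.Agent.H98.MF.C.C3a

/-!
# Malle's conjecture for 8T8 over number fields, block A: local squares (row A12)
-/

set_option autoImplicit false

open scoped BigOperators
open NumberField IsDedekindDomain

namespace Pool.Agent.SK

open Pool.Agent.H98.MF

section

variable {k : Type} [Field k] [NumberField k] {L : Type} [Field L] [NumberField L] [Algebra k L]

private theorem lq_pm {x y : Om k} (h : x ^ 2 = y ^ 2) : x = y ∨ x = -y :=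
  sq_eq_sq_iff_eq_or_eq_neg.1 h

/-- the embedding of the integers -/
noncomputable def lqR (j : L →ₐ[k] Om k) : 𝓞 L →+* 𝓞 (Om k) :=
  RingOfIntegers.mapRingHom (j : L →+* Om k)

theorem lqR_coe (j : L →ₐ[k] Om k) (x : 𝓞 L) : ((lqR j x : 𝓞 (Om k)) : Om k) = j (x : L) := rfl

theorem lq_prime (P : HeightOneSpectrum (𝓞 k)) (j : L →ₐ[k] Om k) :
    ∃ w : HeightOneSpectrum (𝓞 L), w.asIdeal = (top P).comap (lqR j) ∧ Over P w := by
  have h1 : (lqR j).comp (algebraMap (𝓞 k) (𝓞 L)) = algebraMap (𝓞 k) (𝓞 (Om k)) := by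
    apply RingHom.ext
    intro x
    apply RingOfIntegers.ext
    rw [RingHom.comp_apply, lqR_coe]
    exact j.commutes (x : k)
  have h2 : ((top P).comap (lqR j)).comap (algebraMap (𝓞 k) (𝓞 L)) = P.asIdeal := by
    rw [Ideal.comap_comap, h1, top_comap]
  haveI := top_prime P
  refine ⟨⟨(top P).comap (lqR j), Ideal.comap_isPrime _ _, ?_⟩, rfl, h2⟩
  intro h3
  apply P.ne_bot
  rw [← h2, h3, eq_bot_iff]
  intro x hx
  rw [Ideal.mem_comap, Ideal.mem_bot] at hx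
  rw [Ideal.mem_bot]
  exact (FaithfulSMul.algebraMap_injective (𝓞 k) (𝓞 L)) (by rw [hx, map_zero])

/-- integral form of a good approximation -/
theorem lq_int (w : HeightOneSpectrum (𝓞 L)) {d : L}
    (hd : d = 0 ∨ ((2 * (ord w (2 : L)).toNat + 1 : ℕ) : ℤ) ≤ ord w d) :
    ∃ s x : 𝓞 L, s ∉ w.asIdeal ∧ x ∈ w.asIdeal ∧ (s : L) * d = 4 * (x : L) := by
  by_cases h0 : d = 0
  · refine ⟨1, 0, fun h => w.isPrime.ne_top ((Ideal.eq_top_iff_one _).2 h), w.asIdeal.zero_mem, ?_⟩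
    rw [h0, mul_zero, iv_czero, mul_zero]
  have hd2 := hd.resolve_left h0
  have h4 : (4 : L) ≠ 0 := by norm_num
  have h2 : 0 ≤ ord w (2 : L) := by
    have h1 := ord_int_nonneg w (2 : 𝓞 L)
    have h3 : ((2 : 𝓞 L) : L) = 2 := map_ofNat (algebraMap (𝓞 L) L) 2
    rwa [h3] at h1
  have h5 : ord w (4 : L) = 2 * ord w (2 : L) := by
    have : (4 : L) = 2 ^ 2 := by norm_num
    rw [this, ord_pow]
    push_cast
    ring
  have h6 : 1 ≤ ord w (d / 4) := by
    rw [ord_div w h0 h4, h5]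
    push_cast at hd2
    rw [Int.toNat_of_nonneg h2] at hd2
    linarith
  obtain ⟨x, y, hy, hxy⟩ := (ord_nonneg_iff w (d / 4)).1 (by linarith)
  have hy0 : (y : L) ≠ 0 := by
    intro h
    apply hy
    have : y = 0 := RingOfIntegers.coe_injective (h.trans iv_czero.symm)
    rw [this]
    exact w.asIdeal.zero_mem
  refine ⟨y, x, hy, ?_, ?_⟩
  · have h7 : ((1 : ℕ) : ℤ) ≤ ord w (x : L) := by
      rw [← hxy, ord_mul w (div_ne_zero h0 h4) hy0]
      have := ord_int_nonneg w y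
      push_cast
      linarith
    have h8 := (le_ord_iff w x 1).1 (Or.inr h7)
    rwa [pow_one] at h8
  · rw [← hxy]
    field_simp

/-- square roots of local squares, finite places -/
theorem lq_fin (hX : AApx k) (P : HeightOneSpectrum (𝓞 k)) (j : L →ₐ[k] Om k) (l : L)
    (hl : ∀ w : HeightOneSpectrum (𝓞 L), Over P w → LocSq w l) {σ : Gm k} (hσ : σ ∈ Dec P)
    (hfix : ∀ b : L, σ (j b) = j b) {θ : Om k} (hθ : θ ^ 2 = j l) : σ θ = θ := by
  obtain ⟨w, hw, hov⟩ := lq_prime P j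
  obtain ⟨A, hA1, hA2, hA3⟩ := hX P
  obtain ⟨c, hc⟩ := hl w hov (2 * (ord w (2 : L)).toNat + 1)
  have hc0 : c ≠ 0 := by
    rintro rfl
    rw [zero_pow two_ne_zero, mul_zero, zero_sub, ord_neg, ord_one] at hc
    rcases hc with hc | hc
    · exact zero_ne_one hc
    · push_cast at hc
      omega
  obtain ⟨s, x, hs, hx, hsx⟩ := lq_int w (d := l * c ^ 2 - 1) (by
    rcases hc with hc | hc
    · left
      rw [hc, sub_self]
    · exact Or.inr hc)
  have h1 : (θ * j c) ^ 2 = j (l * c ^ 2) := by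
    rw [mul_pow, hθ, map_mul, map_pow]
  have h2 : (θ * j c) ∈ A ∨ -(θ * j c) ∈ A := by
    refine hA3 _ ⟨lqR j s, lqR j x, ?_, ?_, ?_⟩
    · intro h
      apply hs
      rw [hw]
      exact h
    · have h : x ∈ (top P).comap (lqR j) := hw ▸ hx
      exact h
    · rw [lqR_coe, lqR_coe, h1]
      have h3 := congrArg j hsx
      simp only [map_mul, map_sub, map_one, map_ofNat, map_pow] at h3 ⊢
      exact h3
  have h3 : σ (θ * j c) = θ * j c ∨ σ (θ * j c) = -(θ * j c) := by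
    apply lq_pm
    rw [← map_pow, h1, hfix]
  have h4 : σ (θ * j c) = θ * j c := by
    rcases h3 with h3 | h3
    · exact h3
    · exfalso
      rcases h2 with h2 | h2
      · have h5 := hA1 σ hσ _ h2
        rw [h3] at h5
        exact hA2 _ h2 h5
      · have h5 := hA1 σ hσ _ h2
        rw [map_neg, h3] at h5
        exact hA2 _ h2 h5
  rw [map_mul, hfix] at h4
  exact mul_right_cancel₀ (by simpa using hc0) h4

/-- square roots of totally positive elements, real places -/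
theorem lq_real (Q : QK k L) (φ : k →+* ℝ) (j : L →ₐ[k] Om k) (l : Lˣ)
    (hl : ∀ ψ : L →+* ℝ, ψ.comp (algebraMap k L) = φ → 0 < ψ (l : L))
    (ha : chi (Q.a : k) (cconj φ) = 0)
    (hfix : ∀ b : L, cconj φ (j b) = j b) {θ : Om k} (hθ : θ ^ 2 = j (l : L)) :
    cconj φ θ = θ := by
  have ha0 : 0 < φ (Q.a : k) := by
    rw [chi_cconj φ Q.a.ne_zero] at ha
    have h1 : ¬ φ (Q.a : k) < 0 := by
      intro h
      rw [if_pos h] at ha
      exact one_ne_zero ha
    exact lt_of_le_of_ne (not_lt.1 h1) ((map_ne_zero φ).2 Q.a.ne_zero).symm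
  obtain ⟨ψ, hψ⟩ : ∃ ψ : L →+* ℝ, ψ.comp (algebraMap k L) = φ := by
    have h1 := B.c3a_fib Q.qe φ
    rw [B.c3a_two ha0] at h1
    have h2 : Nonempty {ψ : L →+* ℝ // ψ.comp (algebraMap k L) = φ} := by
      by_contra h3
      rw [not_nonempty_iff] at h3
      rw [Nat.card_of_isEmpty] at h1
      omega
    exact ⟨h2.some.1, h2.some.2⟩
  have hψa : ∀ x : k, ψ (algebraMap k L x) = φ x := fun x => RingHom.congr_fun hψ x
  have hl1 : 0 < ψ (l : L) := hl ψ hψ
  have hl2 : 0 < ψ (Q.sig (l : L)) := by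
    refine hl (ψ.comp (Q.sig : L →+* L)) ?_
    apply RingHom.ext
    intro x
    show ψ (Q.sig (algebraMap k L x)) = φ x
    rw [Q.sig.commutes, hψa]
  obtain ⟨x, y, hxy⟩ := B.qe_repr Q.qe (l : L)
  have hT : (l : L) + Q.sig (l : L) = algebraMap k L (2 * x) := by
    rw [hxy, map_add, map_mul, Q.sig.commutes, Q.sig.commutes, Q.sig_α, map_mul, map_ofNat]
    ring
  have hT0 : 0 < φ (2 * x) := by
    rw [← hψa, ← hT, map_add]
    exact add_pos hl1 hl2
  have hn0 : 0 < φ (Algebra.norm k (l : L)) := by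
    rw [← hψa, Q.nm_eq, map_mul]
    exact mul_pos hl1 hl2
  set c := cconj φ with hc
  have hcc : ∀ z : Om k, c (c z) = z := by
    intro z
    have h1 := cconj_mul φ
    rw [← AlgEquiv.mul_apply, h1, AlgEquiv.one_apply]
  have hchi : ∀ t : k, 0 < φ t → chi t c = 0 := by
    intro t ht
    have ht0 : t ≠ 0 := by
      rintro rfl
      rw [map_zero] at ht
      exact lt_irrefl _ ht
    rw [chi_cconj φ ht0, if_neg (not_lt.2 ht.le)]
  have hchi1 : chi (-1 : k) c = 1 := by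
    rw [chi_cconj φ (neg_ne_zero.2 one_ne_zero), map_neg, map_one, if_pos (by norm_num)]
  obtain ⟨u, hi2, hi⟩ : ∃ u : Om k, u ^ 2 = (-1 : Om k) ∧ c u = -u := by
    refine ⟨Pool.Agent.H98.MF.sq (-1 : k), ?_,
      (chi_eq_one_iff (neg_ne_zero.2 one_ne_zero) (sq_sq (-1 : k)) c).1 hchi1⟩
    rw [sq_sq, map_neg, map_one]
  have hi0 : u ≠ 0 := by
    intro h
    rw [h, zero_pow two_ne_zero] at hi2
    exact (neg_ne_zero.2 one_ne_zero) hi2.symm
  obtain ⟨r, hr2, hr⟩ : ∃ r : Om k, r ^ 2 = algebraMap k (Om k) (2 * x) ∧ c r = r :=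
    ⟨Pool.Agent.H98.MF.sq (2 * x), sq_sq _, (chi_eq_zero_iff (sq_sq _) c).1 (hchi _ hT0)⟩
  have hr0 : r ≠ 0 := by
    intro h
    have h1 := hr2
    rw [h, zero_pow two_ne_zero] at h1
    have h2 : (2 * x) = 0 := (algebraMap k (Om k)).injective (by rw [← h1, map_zero])
    rw [h2, map_zero] at hT0
    exact lt_irrefl _ hT0
  have hθ0 : θ ≠ 0 := by
    rintro rfl
    rw [zero_pow two_ne_zero] at hθ
    exact l.ne_zero ((map_eq_zero j).1 hθ.symm)
  rcases lq_pm (x := c θ) (y := θ) (by rw [← map_pow, hθ, hfix]) with h1 | h1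
  · exact h1
  exfalso
  obtain ⟨θ2, hθ2⟩ := IsAlgClosed.exists_pow_nat_eq (j (Q.sig (l : L))) (n := 2) two_pos
  have h2 : c (θ * θ2) = θ * θ2 := by
    refine (chi_eq_zero_iff (a := Algebra.norm k (l : L)) ?_ c).1 (hchi _ hn0)
    rw [mul_pow, hθ, hθ2, ← map_mul, ← Q.nm_eq, j.commutes]
  have h3 : c θ2 = -θ2 := by
    rw [map_mul, h1] at h2
    apply mul_left_cancel₀ hθ0
    rw [mul_neg, ← h2]
    ring
  obtain ⟨z, hz⟩ := IsAlgClosed.exists_pow_nat_eq
    (u * θ + u * (u * θ2)) (n := 2) two_pos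
  have hcz : (c z) ^ 2 = u * θ - u * (u * θ2) := by
    rw [← map_pow, hz, map_add, map_mul, map_mul, map_mul, hi, h1, h3]
    ring
  have hT' : θ ^ 2 + θ2 ^ 2 = r ^ 2 := by
    rw [hθ, hθ2, ← map_add, hT, j.commutes, hr2]
  have hm : (z * c z) ^ 2 = (u * r) ^ 2 := by
    rw [mul_pow, hz, hcz, mul_pow, ← hT']
    linear_combination (-u ^ 2 * θ2 ^ 2) * hi2
  have hcm : c (z * c z) = z * c z := by
    rw [map_mul, hcc, mul_comm]
  have hcr : c (u * r) = -(u * r) := by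
    rw [map_mul, hi, hr, neg_mul]
  have hne : u * r ≠ 0 := mul_ne_zero hi0 hr0
  rcases lq_pm hm with h4 | h4
  · rw [h4, hcr] at hcm
    exact hne (self_eq_neg.1 hcm.symm)
  · rw [h4, map_neg, hcr, neg_neg] at hcm
    exact hne (self_eq_neg.1 hcm)

/-- square roots of local squares -/
theorem lq_star (hX : AApx k) (Q : QK k L) (v : Pl k) (j : L →ₐ[k] Om k) (l : Lˣ)
    (hl : ∀ w : Pl L, OvP v w → LocP w (l : L)) {σ : Gm k} (hσ : σ ∈ DecP v)
    (ha : chi (Q.a : k) σ = 0)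
    (hfix : ∀ b : L, σ (j b) = j b) {θ : Om k} (hθ : θ ^ 2 = j (l : L)) : σ θ = θ := by
  rcases v with P | φ
  · exact lq_fin hX P j l (fun w hw => hl (Sum.inl w) hw) hσ hfix hθ
  · rcases (mem_decR φ σ).1 hσ with rfl | rfl
    · rfl
    · exact lq_real Q φ j l (fun ψ hψ => hl (Sum.inr ψ) hψ) ha hfix hθ

private theorem lq_two (x : ZMod 2) : x = 0 ∨ x = 1 := by
  revert x
  decide

/-- A12 -/
theorem aLq (Q : QK k L) (j : L →ₐ[k] Om k) (hA : AAct Q j) (hC : AFCo Q j) (hX : AApx k) :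
    ALq Q j := by
  intro v l f hl hf
  obtain ⟨-, hco⟩ := hC l f hf
  obtain ⟨θ, θ', hθ, hθ', h0, h1⟩ := hf
  have hθ0 : θ ≠ 0 := by
    rintro rfl
    rw [zero_pow two_ne_zero] at hθ
    exact l.ne_zero ((map_eq_zero j).1 hθ.symm)
  have e1 : ∀ σ ∈ DecP v, chi (Q.a : k) σ = 0 → σ θ = θ := fun σ hσ h =>
    lq_star hX Q v j l hl hσ h (fun b => (hA σ b).1 h) hθ
  have e2 : ∀ σ ∈ DecP v, chi (Q.a : k) σ = 0 → σ θ' = θ' := fun σ hσ h =>
    lq_star hX Q v (j.comp (Q.sig : L →ₐ[k] L)) l hl hσ h (fun b => (hA σ _).1 h) hθ'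
  have key0 : ∀ σ ∈ DecP v, chi (Q.a : k) σ = 0 → f σ = 0 := by
    intro σ hσ h
    by_contra hne
    have e3 := h0 σ h
    rw [e1 σ hσ h] at e3
    unfold sgO at e3
    rw [if_neg hne, neg_one_mul] at e3
    exact hθ0 (self_eq_neg.1 e3)
  have keyn0 : ∀ σ ∈ DecP v, chi (Q.a : k) σ = 0 →
      chi ((QK.nr (k := k) l : kˣ) : k) σ = 0 := by
    intro σ hσ h
    refine (chi_eq_zero_iff (a := ((QK.nr (k := k) l : kˣ) : k)) (y := θ * θ') ?_ σ).2 ?_
    · have e3 : ((QK.nr (k := k) l : kˣ) : k) = Algebra.norm k (l : L) := rfl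
      rw [mul_pow, hθ, hθ', ← map_mul, ← Q.nm_eq, j.commutes, e3]
    · rw [map_mul, e1 σ hσ h, e2 σ hσ h]
  have keyn : ∀ σ ∈ DecP v, chi ((QK.nr (k := k) l : kˣ) : k) σ = 0 := by
    intro σ hσ
    rcases lq_two (chi (Q.a : k) σ) with h | h
    · exact keyn0 σ hσ h
    · have e3 := hco σ σ
      have e4 : chi (Q.a : k) (σ * σ) = 0 := by
        rw [chi_hom, h]
        decide
      rw [key0 _ ((DecP v).mul_mem hσ hσ) e4, h, mul_one] at e3
      have e5 : ∀ x y : ZMod 2, 0 = x + x + y → y = 0 := by decide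
      exact e5 _ _ e3
  refine ⟨?_, keyn⟩
  by_cases hall : ∀ σ ∈ DecP v, f σ = 0
  · exact Or.inl hall
  right
  push Not at hall
  obtain ⟨σ0, hσ0, hf0⟩ := hall
  have hf1 : f σ0 = 1 := (lq_two (f σ0)).resolve_left hf0
  have hc1 : chi (Q.a : k) σ0 = 1 :=
    (lq_two (chi (Q.a : k) σ0)).resolve_left fun h => hf0 (key0 σ0 hσ0 h)
  intro σ hσ
  rcases lq_two (chi (Q.a : k) σ) with h | h
  · rw [key0 σ hσ h, h]
  · have e3 := hco σ σ0
    have e4 : chi (Q.a : k) (σ * σ0) = 0 := by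
      rw [chi_hom, h, hc1]
      decide
    rw [key0 _ ((DecP v).mul_mem hσ hσ0) e4, keyn σ hσ, zero_mul, hf1] at e3
    rw [h]
    have e5 : ∀ x : ZMod 2, 0 = x + 1 + 0 → x = 1 := by decide
    exact e5 _ e3

end

end Pool.Agent.SK
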