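import Pool.Agent.SK.AStm

/-!
# Malle's conjecture for 8T8 over number fields, block A, row A30: normalised lifts
-/

set_option autoImplicit false
set_option linter.unusedVariables false

open scoped BigOperators
open NumberField IsDedekindDomain

namespace Pool.Agent.SK

open Pool.Agent.H98.MF
open Pool.Agent.H32.MA (SD)
open Pool.Agent.H32.MQ (HX El Qof rep)

section

variable {k : Type} [Field k] [NumberField k] {Fr : Frm k} {L : Type} [Field L]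
  [NumberField L] [Algebra k L]

private theorem nor_C (g : SD) (x : ZMod 2) (h : SD.clC g) : SD.clC (g * SD.zz x) := by
  revert g x; decide

private theorem nor_C1 (g : SD) (h : SD.clC g) : g ≠ SD.zz 1 := by
  revert g; decide

/-- a prime of the shadow -/
private theorem nor_shd {X : HX Fr L} {g : Finset (Qof X).P} {p : Fr.sys.P}
    (hp : p ∈ (Qof X).shd g) : ∃ Q : X.PX, Q ∈ (show Finset X.PX from g) ∧ X.shX Q = p := by
  classical
  obtain ⟨Q, hQ, hQp⟩ := Finset.mem_image.1 hp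
  exact ⟨Q, hQ, hQp⟩

theorem aQz (R0 : Rx k) (X : HX Fr L) (j : L →ₐ[k] Om k) (hB : ABsE X)
    (hH : AHasL (qk X) j) (hV : ACritV (qk X) j) (hb : AKapB X) : AQz X j := by
  intro g hg γ hγ ρ hρ Q hQ
  obtain ⟨h1, h2⟩ := (hB g hg γ hγ).1 Q hQ
  have h3 := hH.2 (DecP (Sum.inl (Fr.pl (X.shX Q)))) (HX.out γ) ρ hρ
  have h4 := (hV (Sum.inl (Fr.pl (X.shX Q))) (HX.out γ) _ hρ.pf).1 h3
  rw [← hb Q (HX.out γ) h1 h2]
  exact h4

theorem aNor (R0 : Rx k) (X : HX Fr L) (j : L →ₐ[k] Om k) (hB : ABsE X) (hT : ATyp R0 X j)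
    (hC : ATwC (qk X) j) (hS : ATwS k) (hw : ATwT R0) (hF : AFinR R0) : ANor R0 X j := by
  classical
  intro g hg γ hγ ρ hρ hcl
  have hfin : {p : Fr.sys.P | ρ (R0.tau (Fr.pl p)) = SD.zz 1}.Finite := by
    refine ((hF ρ hcl.lc).preimage Fr.pl_inj.injOn).subset fun p hp => ?_
    have hp' : ρ (R0.tau (Fr.pl p)) = SD.zz 1 := hp
    refine ⟨Pool.Agent.H32.MQ.hb_two Fr p, ?_⟩
    rw [hp']
    decide
  set F : Finset Fr.sys.P := hfin.toFinset with hFd
  have hmem : ∀ p, p ∈ F ↔ ρ (R0.tau (Fr.pl p)) = SD.zz 1 := by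
    intro p
    rw [hFd, Set.Finite.mem_toFinset]
    rfl
  refine ⟨rep Fr (0, F), ⟨(hS ρ hρ).1 _, ((hC _ ρ hcl).1 _).pd, ?_⟩, (hC _ ρ hcl).1 _⟩
  intro p hp
  rw [hw ρ (rep Fr (0, F)) (Fr.pl p) (Pool.Agent.H32.MQ.hb_two Fr p),
    Pool.Agent.H32.MQ.h_repO Fr (0, F) p]
  obtain ⟨t1, t2, _⟩ := hT p hp (HX.out γ) ρ hcl
  by_cases hs : p ∈ (Qof X).shd g
  · right
    obtain ⟨Q, hQ, hQp⟩ := nor_shd hs
    obtain ⟨h1, h2⟩ := (hB g hg γ hγ).1 Q hQ
    apply nor_C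
    exact t2 Q.1 (hQp ▸ X.shX_over Q) h1 h2
  · left
    rcases t1 ((hB g hg γ hγ).2 p hp hs) with h | h
    · have h3 : p ∉ F := by
        rw [hmem, h]
        decide
      rw [if_neg h3, h]
      decide
    · rw [if_pos ((hmem p).2 h), h]
      decide

/-- squares have even exponents -/
private theorem nor_sq (P : HeightOneSpectrum (𝓞 k)) (x : kˣ) (h : IsSquare x) :
    Even (ord P (x : k)) := by
  obtain ⟨y, rfl⟩ := h
  rw [Units.val_mul, Pool.Agent.H98.MF.B.ord_mul _ (Units.ne_zero _) (Units.ne_zero _)]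
  exact ⟨_, rfl⟩

theorem aLf (R0 : Rx k) (X : HX Fr L) (j : L →ₐ[k] Om k) (hB : ABsE X) (hE : AFEx (qk X) j)
    (hH : AHasL (qk X) j) (hC : ACrit (qk X) j) (hS : ASur2 (qk X) j) (ha : AKapA X)
    (hb : AKapB X) (hN : ANor R0 X j) : ALf R0 X j := by
  classical
  intro hM g hg hne γ hγ hk hq
  have hp : ∀ p : Fr.sys.P, p ∉ X.M := fun p => by
    rw [hM]
    exact Finset.notMem_empty p
  have hB1 := (hB g hg γ hγ).1
  have hB2 := (hB g hg γ hγ).2
  have hkap : ∀ v : Pl k, (qk X).kap v (HX.out γ) = 0 := by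
    intro v
    rcases v with P | φ
    · by_cases hP : P ∈ Fr.S
      · exact hk _ (Finset.inl_mem_disjSum.2 hP)
      · obtain ⟨p, rfl⟩ := (Fr.pl_iff P).2 hP
        by_cases hs : p ∈ (Qof X).shd g
        · obtain ⟨Q, hQ, hQp⟩ := nor_shd hs
          obtain ⟨h1, h2⟩ := hB1 Q hQ
          rw [← hQp, hb Q (HX.out γ) h1 h2]
          exact hq Q hQ
        · exact ha p (hp p) (HX.out γ) (hB2 p (hp p) hs)
    · exact hk _ (Finset.inr_mem_disjSum.2 (Finset.mem_univ φ))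
  obtain ⟨f, hf⟩ := hE (HX.out γ)
  obtain ⟨ρ, hρ, _⟩ := hH.1 (HX.out γ) f hf ((hC (HX.out γ) f hf).2 hkap)
  obtain ⟨Q, hQ⟩ := hne
  obtain ⟨h1, h2⟩ := hB1 Q hQ
  have h3 : Odd (ord (Fr.pl (X.shX Q)) (HX.nrX (k := k) (HX.out γ) : k)) := by
    rw [Pool.Agent.H32.MQ.h_ordN X (X.shX Q) Q.1 (hp _) (X.shX_over Q) (HX.out γ)]
    exact h1.add_even h2
  have hsur : Function.Surjective ρ := by
    rw [hS (HX.out γ) ρ hρ]
    constructor
    · intro h
      exact (Int.not_even_iff_odd.2 h3) (nor_sq _ _ h)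
    · intro h
      have h4 := nor_sq (Fr.pl (X.shX Q)) _ h
      rw [Units.val_mul, Pool.Agent.H98.MF.B.ord_mul _ (Units.ne_zero _) (Units.ne_zero _)] at h4
      exact (Int.not_even_iff_odd.2 ((X.unr (X.shX Q) (hp _)).add_odd h3)) h4
  obtain ⟨c, hc⟩ := hN g hg γ hγ ρ ⟨hsur, hρ.lc⟩ hρ
  exact ⟨_, hc⟩

end

end Pool.Agent.SK
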