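import Pool.Agent.SK.AStm
import Pool.Agent.H98.ML.LhTau

/-!
# Malle's conjecture for 8T8 over number fields, rows A19, A20, A22: exponents of the discriminant
-/

set_option autoImplicit false

open scoped BigOperators
open NumberField IsDedekindDomain

namespace Pool.Agent.SK

open Pool.Agent.H98.MF
open Pool.Agent.H98.ML (norb hind m3_norb m3_norb_lt)
open Pool.Agent.H32.MA (SD)

theorem rex_card : Nat.card SD = 2 ^ 4 := by
  rw [Nat.card_congr SD.equivProd, Nat.card_prod, Nat.card_eq_fintype_card,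
    Nat.card_eq_fintype_card, ZMod.card, ZMod.card]
  norm_num

theorem rex_finite : Finite SD := Nat.finite_of_card_ne_zero (by rw [rex_card]; norm_num)

section

variable {k : Type} [Field k] [NumberField k]

omit [NumberField k] in
theorem rex_ker (ρ : Gm k →* SD) : ∃ j, ρ.ker.index = 2 ^ j := by
  have h : ρ.ker.index ∣ 2 ^ 4 := by
    rw [Subgroup.index_ker]
    have h1 := Subgroup.card_subgroup_dvd_card ρ.range
    rwa [rex_card] at h1
  obtain ⟨j, -, hj⟩ := (Nat.dvd_prime_pow Nat.prime_two).1 h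
  exact ⟨j, hj⟩

omit [NumberField k] in
theorem rex_open (ρ : Gm k →* SD) (hρ : IsLocallyConstant ρ) :
    IsOpen (ρ.ker : Set (Gm k)) := by
  have h := hρ.isOpen_fiber (1 : SD)
  have h2 : (ρ.ker : Set (Gm k)) = {x | ρ x = 1} := by
    ext x
    exact MonoidHom.mem_ker
  rw [h2]
  exact h

end

/-- **Row A19.** -/
theorem aRex {k : Type} [Field k] [NumberField k] (R0 : Rx k) : ARex R0 := by
  rintro ρ ⟨hs, hρ⟩ P hP
  have h1 := R0.disc P hP ρ.ker (rex_open ρ hρ) (rex_ker ρ) (SD.H0.comap ρ) (by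
    intro x hx
    rw [Subgroup.mem_comap, MonoidHom.mem_ker.1 hx]
    exact SD.H0.one_mem)
  rw [m3_norb ρ hs, Subgroup.index_comap_of_surjective SD.H0 hs] at h1
  unfold hind
  omega

/-- **Row A20.** -/
theorem aFinR {k : Type} [Field k] [NumberField k] (R0 : Rx k) : AFinR R0 := by
  intro ρ hρ
  refine Set.Finite.subset (R0.fin ρ.ker (rex_open ρ hρ)) fun P hP => ?_
  obtain ⟨hP, h1⟩ := hP
  have h2 := R0.disc P hP ρ.ker (rex_open ρ hρ) (rex_ker ρ) ρ.ker le_rfl
  have h3 : norb ρ.ker (R0.tau P) < ρ.ker.index := by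
    apply m3_norb_lt
    · obtain ⟨j, hj⟩ := rex_ker ρ
      rw [hj]
      positivity
    · intro h
      exact h1 (MonoidHom.mem_ker.1 h)
  show R0.rex P ρ.ker ≠ 0
  omega

/-- **Row A22.** -/
theorem aRexL {k : Type} [Field k] [NumberField k] (R0 : Rx k) (Fr : Frm k) (hT : ATwS k) :
    ARexL R0 Fr := by
  intro ρ hρ ρ' hρ' hE P hP
  obtain ⟨u, hu, h1⟩ := hE (Sum.inl P) (Finset.inl_mem_disjSum.2 hP)
  have hu2 := (hT ρ hρ).2.2.2 u hu
  have := rex_finite
  have h2 := R0.loc SD ρ' ((au u).comp ρ) SD.H0 hρ'.2 hu2.2 hρ'.1 hu2.1 P h1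
  have h3 : SD.H0.comap ((au u).comp ρ) = SD.H0.comap ρ := by
    ext σ
    exact au_H0 u (ρ σ) hu
  rw [h2, h3]

end Pool.Agent.SK
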