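import Pool.Agent.SK.AStm
import Pool.Agent.H98.MF.D.ExRx

/-!
# Malle's conjecture for 8T8 over number fields, block A: tame generators in the inertia groups
-/

set_option autoImplicit false
set_option linter.unusedSectionVars false

open scoped BigOperators Pointwise
open NumberField IsDedekindDomain

namespace Pool.Agent.SK

open Pool.Agent.H98.MF
open Pool.Agent.H67.MU (vexp)
open Pool.Agent.H98.ML (norb gd_mem_diff m3_norb)

section

variable {k : Type} [Field k] [NumberField k]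

/-- trivial modulo the prime, on the integers fixed by `U` -/
def rxi_In (P : HeightOneSpectrum (𝓞 k)) (U : Subgroup (Gm k)) (τ : Gm k) : Prop :=
  ∀ x : 𝓞 (Om k), (∀ σ ∈ U, σ (x : Om k) = (x : Om k)) →
    ∃ y ∈ top P, ((y : 𝓞 (Om k)) : Om k) = τ (x : Om k) - (x : Om k)

/-- the pairs good for `U` -/
def rxi_C (P : HeightOneSpectrum (𝓞 k)) (U : Subgroup (Gm k)) : Set (Gm k × Gm k) :=
  {x | x ∈ d8_C P U ∧ rxi_In P U x.1}

theorem rxi_mono (P : HeightOneSpectrum (𝓞 k)) {U U' : Subgroup (Gm k)} (h : U' ≤ U) :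
    rxi_C P U' ⊆ rxi_C P U := by
  rintro x ⟨h1, h2⟩
  exact ⟨d8_mono P h h1, fun y hy => h2 y fun σ hσ => hy σ (h hσ)⟩

theorem rxi_inv (P : HeightOneSpectrum (𝓞 k)) {U : Subgroup (Gm k)} [hn : U.Normal]
    {x y : Gm k × Gm k} (hx : x ∈ rxi_C P U) (h1 : x.1⁻¹ * y.1 ∈ U) (h2 : x.2⁻¹ * y.2 ∈ U)
    (hy1 : y.1 ∈ Dec P) (hy2 : y.2 ∈ Dec P) : y ∈ rxi_C P U := by
  refine ⟨d8_inv P hx.1 h1 h2 hy1 hy2, fun z hz => ?_⟩
  obtain ⟨w, hw, he⟩ := hx.2 z hz
  refine ⟨w, hw, ?_⟩
  rw [he]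
  have h3 : y.1 = x.1 * (x.1⁻¹ * y.1) := by group
  have h4 : y.1 (z : Om k) = x.1 ((x.1⁻¹ * y.1) (z : Om k)) := by
    conv_lhs => rw [h3]
    rfl
  rw [h4, hz _ h1]

theorem rxi_closed (P : HeightOneSpectrum (𝓞 k)) {U : Subgroup (Gm k)} [hn : U.Normal]
    (hU : IsOpen (U : Set (Gm k))) : IsClosed (rxi_C P U) := by
  rw [← isOpen_compl_iff, isOpen_iff_mem_nhds]
  intro x hx
  by_cases hxD : x.1 ∈ Dec P ∧ x.2 ∈ Dec P
  · have h1 : IsOpen {y : Gm k × Gm k | x.1⁻¹ * y.1 ∈ U ∧ x.2⁻¹ * y.2 ∈ U} := by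
      have ha : IsOpen ((fun y : Gm k × Gm k => x.1⁻¹ * y.1) ⁻¹' (U : Set (Gm k))) :=
        hU.preimage (continuous_const.mul continuous_fst)
      have hb : IsOpen ((fun y : Gm k × Gm k => x.2⁻¹ * y.2) ⁻¹' (U : Set (Gm k))) :=
        hU.preimage (continuous_const.mul continuous_snd)
      exact ha.inter hb
    refine Filter.mem_of_superset (h1.mem_nhds ?_) ?_
    · refine ⟨?_, ?_⟩
      · rw [inv_mul_cancel]
        exact one_mem _
      · rw [inv_mul_cancel]
        exact one_mem _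
    · rintro y ⟨ha, hb⟩ hy
      refine hx (rxi_inv P hy ?_ ?_ hxD.1 hxD.2)
      · have := U.inv_mem ha
        rwa [mul_inv_rev, inv_inv] at this
      · have := U.inv_mem hb
        rwa [mul_inv_rev, inv_inv] at this
  · have hcl : IsClosed {y : Gm k × Gm k | y.1 ∈ Dec P ∧ y.2 ∈ Dec P} := by
      have ha : IsClosed ((fun y : Gm k × Gm k => y.1) ⁻¹' (Dec P : Set (Gm k))) :=
        (dec_closed P).preimage continuous_fst
      have hb : IsClosed ((fun y : Gm k × Gm k => y.2) ⁻¹' (Dec P : Set (Gm k))) :=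
        (dec_closed P).preimage continuous_snd
      exact ha.inter hb
    refine Filter.mem_of_superset (hcl.isOpen_compl.mem_nhds hxD) ?_
    intro y hy hyC
    exact hy ⟨hyC.1.1, hyC.1.2.1⟩

/-- tame generators at a finite layer, in the inertia group -/
theorem rxi_fin (P : HeightOneSpectrum (𝓞 k)) (h2 : ord P (2 : k) = 0) (U : Subgroup (Gm k))
    [U.Normal] (hU : IsOpen (U : Set (Gm k))) (j : ℕ) (hj : U.index = 2 ^ j) :
    (rxi_C P U).Nonempty := by
  have hfin : Module.finrank k (fld k U) = 2 ^ j := (fldK_finrank U hU).trans hj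
  have hFD : FiniteDimensional k (fld k U) := fldK_finite U hU
  have hNU : NumberField (fld k U) := fldK_nf U hU
  have hGal : IsGalois k (fld k U) := fldK_galois U hU
  have hQp : (low P (fld k U)).IsPrime := low_prime P (fld k U)
  have hQc := low_comap P (fld k U)
  obtain ⟨τ0, φ0, hz, hφ0, hφQ, hrel⟩ := rd_gen j hfin P h2 (low P (fld k U)) hQc
  have hin0 : τ0 ∈ (low P (fld k U)).inertia (fld k U ≃ₐ[k] fld k U) := by
    rw [← hz]
    exact Subgroup.mem_zpowers _
  obtain ⟨π, hπs, hπk, hπ⟩ := exists_resK U hU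
  obtain ⟨τ, hτD, hτ0⟩ := dec_surj P (fld k U) τ0 (Ideal.inertia_le_stabilizer _ hin0)
  obtain ⟨φ, hφD, hφ1⟩ := dec_surj P (fld k U) φ0 hφQ
  have hres : ∀ σ : Gm k, π σ = AlgEquiv.restrictNormal σ (fld k U) := by
    intro σ
    apply AlgEquiv.ext
    intro x
    apply Subtype.ext
    rw [hπ]
    exact (AlgEquiv.restrictNormal_commutes σ (fld k U) x).symm
  have hτ : π τ = τ0 := (hres τ).trans hτ0
  have hφ : π φ = φ0 := (hres φ).trans hφ1
  subst hτ hφ
  have key : ∀ a : k, ∀ h : Pool.Agent.H98.MF.sq a ∈ fld k U,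
      (⟨Pool.Agent.H98.MF.sq a, h⟩ : fld k U) ^ 2 = algebraMap k (fld k U) a := by
    intro a h
    apply Subtype.ext
    exact sq_sq a
  refine ⟨(τ, φ), ⟨hτD, hφD, ?_, ?_, ?_, ?_⟩, ?_⟩
  · show φ * τ * φ⁻¹ * (τ ^ Ideal.absNorm P.asIdeal)⁻¹ ∈ U
    rw [← hπk, MonoidHom.mem_ker, map_mul, map_mul, map_mul, map_inv, map_inv, map_pow, hrel,
      mul_inv_cancel]
  · intro W hUW
    show rexp P (fld k W) + norb W τ = W.index
    have hWc : (W.map π).comap π = W := by
      rw [Subgroup.comap_map_eq, hπk, sup_eq_left.2 hUW]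
    have h1 := rd_orb j hfin P h2 (low P (fld k U)) hQc (π τ) hz (W.map π)
    have h2 : norb W τ = norb (W.map π) (π τ) := by
      conv_lhs => rw [← hWc]
      exact m3_norb π hπs (W.map π) τ
    have h3 : W.index = (W.map π).index := by
      conv_lhs => rw [← hWc]
      exact Subgroup.index_comap_of_surjective _ hπs
    rw [fin_rexp_eq P U W hUW π hπ, h2, h3]
    exact h1
  · intro a ha hev hσ
    show chi a τ = 0 ∧ chi a φ = qr a P
    have hmem : Pool.Agent.H98.MF.sq a ∈ fld k U := fin_sq_mem hσ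
    have h1 := rd_quad_inertia P h2 (low P (fld k U)) hQc ha hev (key a hmem) (π τ) hin0
    have h3 := rd_quad_frob P h2 (low P (fld k U)) hQc ha hev (key a hmem) (π φ) hφ0
    have h1' : τ (Pool.Agent.H98.MF.sq a) = Pool.Agent.H98.MF.sq a := by
      have := congrArg (fun z : fld k U => (z : Om k)) h1
      simpa only [hπ] using this
    refine ⟨(chi_eq_zero_iff (sq_sq a) τ).2 h1', ?_⟩
    unfold qr
    by_cases hl : LocSq P a
    · rw [if_pos hl]
      have h4 := h3.1 hl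
      have h4' : φ (Pool.Agent.H98.MF.sq a) = Pool.Agent.H98.MF.sq a := by
        have := congrArg (fun z : fld k U => (z : Om k)) h4
        simpa only [hπ] using this
      exact (chi_eq_zero_iff (sq_sq a) φ).2 h4'
    · rw [if_neg hl]
      have h4 := h3.2 hl
      have h4' : φ (Pool.Agent.H98.MF.sq a) = -Pool.Agent.H98.MF.sq a := by
        have := congrArg (fun z : fld k U => (z : Om k)) h4
        simp only [hπ] at this
        exact this
      exact (chi_eq_one_iff ha (sq_sq a) φ).2 h4'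
  · intro a hod hσ
    show chi a τ = 1
    have ha : a ≠ 0 := by
      rintro rfl
      unfold ord at hod
      rw [FractionalIdeal.spanSingleton_zero, FractionalIdeal.count_zero] at hod
      exact absurd hod (by decide)
    have hmem : Pool.Agent.H98.MF.sq a ∈ fld k U := fin_sq_mem hσ
    have h1 := rd_quad_ram P (low P (fld k U)) hQc hod (key a hmem) (π τ) hz
    have h1' : τ (Pool.Agent.H98.MF.sq a) = -Pool.Agent.H98.MF.sq a := by
      have := congrArg (fun z : fld k U => (z : Om k)) h1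
      simp only [hπ] at this
      exact this
    exact (chi_eq_one_iff ha (sq_sq a) τ).2 h1'
  · intro x hx
    have hxm : (x : Om k) ∈ fld k U := (IntermediateField.mem_fixedField_iff U (x : Om k)).2 hx
    have hxi : IsIntegral ℤ (⟨(x : Om k), hxm⟩ : fld k U) := by
      have h3 : IsIntegral ℤ (algebraMap (fld k U) (Om k) ⟨(x : Om k), hxm⟩) := x.2
      exact (isIntegral_algebraMap_iff (algebraMap (fld k U) (Om k)).injective).1 h3
    obtain ⟨x', hx'⟩ : ∃ x' : 𝓞 (fld k U), (x' : fld k U) = ⟨(x : Om k), hxm⟩ :=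
      ⟨⟨⟨(x : Om k), hxm⟩, hxi⟩, rfl⟩
    have h5 : π τ • x' - x' ∈ low P (fld k U) := hin0 x'
    refine ⟨algebraMap (𝓞 (fld k U)) (𝓞 (Om k)) (π τ • x' - x'), h5, ?_⟩
    show ((π τ (x' : fld k U) : fld k U) : Om k) - ((x' : fld k U) : Om k) =
      τ (x : Om k) - (x : Om k)
    rw [hx', hπ τ ⟨(x : Om k), hxm⟩]

/-- a universal tame generator in the inertia group -/
theorem rxi_tau (P : HeightOneSpectrum (𝓞 k)) (h2 : ord P (2 : k) = 0) :
    ∃ τ : Gm k, (∃ φ, IsTauK P τ φ) ∧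
      ∀ (U : Subgroup (Gm k)) [U.Normal], IsOpen (U : Set (Gm k)) → (∃ j, U.index = 2 ^ j) →
        rxi_In P U τ := by
  have : CompactSpace (Gm k) := gm_compact
  have : Nonempty (D8I k) := ⟨⟨⊤, inferInstance, isOpen_univ, 0, by simp⟩⟩
  have key : (⋂ i : D8I k, rxi_C P i.1).Nonempty := by
    refine IsCompact.nonempty_iInter_of_directed_nonempty_isCompact_isClosed
      (fun i : D8I k => rxi_C P i.1) ?_ ?_ ?_ ?_
    · intro U V
      obtain ⟨T, h1, h2⟩ := d8_inf U V
      exact ⟨T, rxi_mono P h1, rxi_mono P h2⟩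
    · rintro ⟨U, hU1, hU2, j, hj⟩
      exact rxi_fin P h2 U hU2 j hj
    · rintro ⟨U, hU1, hU2, j, hj⟩
      exact (rxi_closed P hU2).isCompact
    · rintro ⟨U, hU1, hU2, j, hj⟩
      exact rxi_closed P hU2
  obtain ⟨⟨τ, φ⟩, hx⟩ := key
  rw [Set.mem_iInter] at hx
  refine ⟨τ, ⟨φ, ⟨(hx (d8_kI 1)).1.1, (hx (d8_kI 1)).1.2.1, ?_, ?_, ?_, ?_⟩⟩, ?_⟩
  · intro U hU1 hU2 hk
    exact (hx ⟨U, hU1, hU2, hk⟩).1.2.2.1
  · intro U hU1 hU2 hk W hW
    exact (hx ⟨U, hU1, hU2, hk⟩).1.2.2.2.1 W hW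
  · intro a ha hev
    exact (hx (d8_kI a)).1.2.2.2.2.1 a ha hev fun σ hσ => hσ
  · intro a ha
    exact (hx (d8_kI a)).1.2.2.2.2.2 a ha fun σ hσ => hσ
  · intro U hU1 hU2 hk
    exact (hx ⟨U, hU1, hU2, hk⟩).2

open Classical in
/-- a universal tame generator in the inertia group -/
noncomputable def rxi_t (P : HeightOneSpectrum (𝓞 k)) : Gm k :=
  if h : ord P (2 : k) = 0 then (rxi_tau P h).choose else 1

theorem rxi_t_spec (P : HeightOneSpectrum (𝓞 k)) (h : ord P (2 : k) = 0) :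
    (∃ φ, IsTauK P (rxi_t P) φ) ∧
      ∀ (U : Subgroup (Gm k)) [U.Normal], IsOpen (U : Set (Gm k)) → (∃ j, U.index = 2 ^ j) →
        rxi_In P U (rxi_t P) := by
  have h1 : rxi_t P = (rxi_tau P h).choose := dif_pos h
  rw [h1]
  exact (rxi_tau P h).choose_spec

end

/-- tame generators in the inertia groups -/
theorem aRxI (k : Type) [Field k] [NumberField k] : ARxI k := by
  refine ⟨{
    rex := fun P U => rexp P (fld k U)
    tau := rxi_t
    fin := fun U _ => rexp_finite (fld k U)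
    prod := fun U hU => ?_
    loc := fun G _ _ ρ ρ' H hc hc' hs hs' P h => ?_
    disc := fun P h2 U hn hU hj W hUW => ?_
    chi := fun P h2 a => ?_ }, ?_⟩
  · have := fldK_finite U hU
    exact rdN_eq (fld k U)
  · refine rexp_dec P H ρ ρ' (ker_openK ρ hc) (ker_openK ρ' hc') hs hs' 1 fun σ hσ => ?_
    rw [h σ hσ, one_mul, inv_one, mul_one]
  · obtain ⟨φ, hφ⟩ := (rxi_t_spec P h2).1
    exact hφ.disc U hn hU hj W hUW
  · obtain ⟨φ, hφ⟩ := (rxi_t_spec P h2).1
    rcases Int.even_or_odd (ord P (a : k)) with he | ho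
    · rw [(hφ.chi0 (a : k) a.ne_zero he).1]
      exact ((ZMod.intCast_eq_zero_iff_even).2 he).symm
    · rw [hφ.chi1 (a : k) ho]
      exact ((ZMod.intCast_eq_one_iff_odd).2 ho).symm
  · intro P h2 U hn hU hj x hx
    exact (rxi_t_spec P h2).2 U hU hj x hx

end Pool.Agent.SK
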