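import Pool.Agent.SK.AStm
import Pool.Agent.H98.MF.ParK

/-!
# Project SK (MP_a9b340), block A, row A18: twists
-/

set_option autoImplicit false

open scoped BigOperators
open NumberField IsDedekindDomain

namespace Pool.Agent.SK

open Pool.Agent.H98.MF
open Pool.Agent.H32.MA (SD)

theorem twa_zz_inj (x y : ZMod 2) (h : SD.zz x = SD.zz y) : x = y := by
  revert x y; decide

theorem twa_tw_lc {k : Type} [Field k] [NumberField k] (ρ : Gm k →* SD)
    (h : IsLocallyConstant ρ) (c : kˣ) : IsLocallyConstant (twS ρ c) :=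
  h.comp₂ (chi_lc (c : k)) (fun g x => g * SD.zz x)

theorem twa_cj_lc {k : Type} [Field k] [NumberField k] (ρ : Gm k →* SD)
    (h : IsLocallyConstant ρ) : IsLocallyConstant (cjS ρ) :=
  h.comp (fun g => au 3 g)

theorem twa_surj (u : ZMod 8) (hu : u * u = 1) : Function.Surjective (au u) :=
  fun g => ⟨au u g, au_au u g hu⟩

/-- A17: twists and products -/
theorem aTwA (k : Type) [Field k] [NumberField k] : ATwA k := by
  intro ρ c c'
  refine ⟨?_, ?_, ?_, ?_, ?_⟩
  · ext1 σ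
    rw [twS_apply, twS_apply, twS_apply, Units.val_mul, chi_mul c.ne_zero c'.ne_zero, SD.zz_add,
      mul_assoc]
  · ext1 σ
    rw [cjS_apply, twS_apply, twS_apply, cjS_apply, map_mul, au_zz 3 _ (by decide)]
  · ext1 σ
    rw [cjS_apply, cjS_apply, au_au 3 _ (by decide)]
  · intro h
    have h1 : ∀ σ, chi (c : k) σ = chi (c' : k) σ := by
      intro σ
      have h2 := DFunLike.congr_fun h σ
      rw [twS_apply, twS_apply] at h2
      exact twa_zz_inj _ _ (mul_left_cancel h2)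
    have h2 : IsSquare ((c : k) * (c' : k)) := by
      refine chi_isSquare fun σ => ?_
      rw [chi_mul c.ne_zero c'.ne_zero, h1 σ]
      exact CharTwo.add_self_eq_zero _
    obtain ⟨r, hr⟩ := h2
    have hr0 : r ≠ 0 := by
      rintro rfl
      rw [mul_zero] at hr
      exact mul_ne_zero c.ne_zero c'.ne_zero hr
    refine ⟨Units.mk0 r hr0, ?_⟩
    ext
    rw [Units.val_mul, Units.val_mul, Units.val_mk0, hr]
  · rintro ⟨r, hr⟩
    have h1 : ∀ σ, chi (c : k) σ = chi (c' : k) σ := by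
      intro σ
      have h2 := chi_mul c.ne_zero c'.ne_zero σ
      rw [← Units.val_mul, hr, Units.val_mul, ← pow_two, chi_sq] at h2
      have key : ∀ x y : ZMod 2, 0 = x + y → x = y := by decide
      exact key _ _ h2
    ext1 σ
    rw [twS_apply, twS_apply, h1]

/-- A17: twists of surjective homomorphisms -/
theorem aTwS (k : Type) [Field k] [NumberField k] (hS : ASurG) : ATwS k := by
  intro ρ hρ
  obtain ⟨⟨σ, hσ1, hσ2⟩, τ, hτ1, hτ2⟩ := (hS (Gm k) ρ).1 hρ.1
  have hcj : cjS ρ ∈ Hs k := ⟨(twa_surj 3 (by decide)).comp hρ.1, twa_cj_lc ρ hρ.2⟩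
  refine ⟨fun c => ⟨(hS (Gm k) _).2 ⟨⟨σ, ?_, ?_⟩, τ, ?_, ?_⟩, twa_tw_lc ρ hρ.2 c⟩, hcj,
    fun c c' h => ?_, fun u hu => ⟨(twa_surj u hu).comp hρ.1, hρ.2.comp (fun g => au u g)⟩⟩
  · rw [twS_apply, SD.mul_zz_pd, hσ1]
  · rw [twS_apply, SD.mul_zz_a, hσ2]
  · rw [twS_apply, SD.mul_zz_pd, hτ1]
  · rw [twS_apply, SD.mul_zz_a, hτ2]
  · have h1 := congrArg SD.pf (DFunLike.congr_fun h σ)
    rw [twS_apply, twS_apply, SD.mul_zz_pf, SD.mul_zz_pf, cjS_apply, au_three_pf, hσ1] at h1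
    exact one_ne_zero (add_eq_left.mp h1)

/-- A17: twists at the tame generators -/
theorem aTwT {k : Type} [Field k] [NumberField k] (R0 : Rx k) : ATwT R0 := by
  intro ρ c P h2
  rw [twS_apply, R0.chi P h2 c]

end Pool.Agent.SK
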