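import Pool.Agent.SK.AStm
import Pool.Agent.H98.MF.ParK

/-!
# Project SK (MP_a9b340), block A, row A19: twists of the homomorphisms attached to an element
-/

set_option autoImplicit false

open scoped BigOperators
open NumberField IsDedekindDomain

namespace Pool.Agent.SK

open Pool.Agent.H98.MF
open Pool.Agent.H32.MA (SD)

theorem twc_zz_inj (x y : ZMod 2) (h : SD.zz x = SD.zz y) : x = y := by
  revert x y; decide

theorem twc_tw_lc {k : Type} [Field k] [NumberField k] (ρ : Gm k →* SD)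
    (h : IsLocallyConstant ρ) (c : kˣ) : IsLocallyConstant (twS ρ c) :=
  h.comp₂ (chi_lc (c : k)) (fun g x => g * SD.zz x)

theorem twc_cj_lc {k : Type} [Field k] [NumberField k] (ρ : Gm k →* SD)
    (h : IsLocallyConstant ρ) : IsLocallyConstant (cjS ρ) :=
  h.comp (fun g => au 3 g)

/-- homomorphisms with the same image modulo the centre -/
theorem twc_core {k : Type} [Field k] [NumberField k] (ρ ρ' : Gm k →* SD)
    (h1 : IsLocallyConstant ρ) (h2 : IsLocallyConstant ρ')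
    (ha : ∀ σ, (ρ σ).a = (ρ' σ).a) (hd : ∀ σ, (ρ σ).pd = (ρ' σ).pd)
    (hf : ∀ σ, (ρ σ).pf = (ρ' σ).pf) : ∃ c : kˣ, ρ' = twS ρ c := by
  set h : Gm k → ZMod 2 := fun σ => (ρ σ).ph + (ρ' σ).ph with hh
  have hz : ∀ σ, ρ' σ = ρ σ * SD.zz (h σ) := fun σ =>
    SD.eq_mul_zz (ρ σ) (ρ' σ) (ha σ) (hd σ) (hf σ)
  have hadd : ∀ σ τ, h (σ * τ) = h σ + h τ := by
    intro σ τ
    apply twc_zz_inj
    have h3 := hz (σ * τ)
    rw [map_mul, map_mul, hz σ, hz τ] at h3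
    have h4 : ρ σ * SD.zz (h σ) * (ρ τ * SD.zz (h τ)) = ρ σ * ρ τ * SD.zz (h σ + h τ) := by
      rw [SD.zz_add (h σ) (h τ)]
      calc ρ σ * SD.zz (h σ) * (ρ τ * SD.zz (h τ))
          = ρ σ * (SD.zz (h σ) * ρ τ) * SD.zz (h τ) := by simp only [mul_assoc]
        _ = ρ σ * (ρ τ * SD.zz (h σ)) * SD.zz (h τ) := by rw [SD.zz_comm (h σ) (ρ τ)]
        _ = ρ σ * ρ τ * (SD.zz (h σ) * SD.zz (h τ)) := by simp only [mul_assoc]
    rw [h4] at h3
    exact (mul_left_cancel h3).symm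
  have hlc : IsLocallyConstant h := h1.comp₂ h2 (fun g g' => g.ph + g'.ph)
  obtain ⟨c, hc⟩ := ParK.exists_chi1 h hlc hadd
  refine ⟨c, ?_⟩
  ext1 σ
  rw [twS_apply, ← hc, hz σ]

/-- A18: twists of the homomorphisms attached to an element -/
theorem aTwC {k : Type} [Field k] [NumberField k] {L : Type} [Field L] [NumberField L]
    [Algebra k L] (Q : QK k L) (j : L →ₐ[k] Om k) (hT : AFTwo Q j) : ATwC Q j := by
  intro b ρ hcl
  refine ⟨fun c => ⟨twc_tw_lc ρ hcl.lc c, fun σ => ?_, ?_⟩, ⟨twc_cj_lc ρ hcl.lc, fun σ => ?_, ?_⟩⟩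
  · rw [twS_apply, SD.mul_zz_pd, hcl.pd]
  · have : (fun σ => (twS ρ c σ).pf) = fun σ => (ρ σ).pf := by
      funext σ; rw [twS_apply, SD.mul_zz_pf]
    rw [this]
    exact hcl.pf
  · rw [cjS_apply, au_pd 3 _ (by decide), hcl.pd]
  · refine (hT b _ _ hcl.pf).2 (Or.inr ?_)
    funext σ
    rw [cjS_apply, au_three_pf, hcl.pd]

/-- A18: all homomorphisms attached to an element -/
theorem aTwEx {k : Type} [Field k] [NumberField k] {L : Type} [Field L] [NumberField L]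
    [Algebra k L] (Q : QK k L) (j : L →ₐ[k] Om k) (hT : AFTwo Q j) (hA : AAb Q j) :
    ATwEx Q j := by
  intro b ρ ρ' hcl hcl'
  rcases (hT b _ _ hcl.pf).1 hcl'.pf with h | h
  · obtain ⟨c, hc⟩ := twc_core ρ ρ' hcl.lc hcl'.lc
      (fun σ => by rw [hA b ρ hcl, hA b ρ' hcl'])
      (fun σ => by rw [hcl.pd, hcl'.pd]) (fun σ => (congrFun h σ).symm)
    exact ⟨c, Or.inl hc⟩
  · obtain ⟨c, hc⟩ := twc_core (cjS ρ) ρ' (twc_cj_lc ρ hcl.lc) hcl'.lc
      (fun σ => by rw [cjS_apply, au_a, hA b ρ hcl, hA b ρ' hcl'])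
      (fun σ => by rw [cjS_apply, au_pd 3 _ (by decide), hcl.pd, hcl'.pd])
      (fun σ => by
        rw [cjS_apply, au_three_pf, hcl.pd]
        exact (congrFun h σ).symm)
    exact ⟨c, Or.inr hc⟩

end Pool.Agent.SK
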