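import Pool.Agent.SK.AStm
import Pool.Agent.H98.MF.L.KIn
import Pool.Agent.H98.MF.SBase

/-!
# Malle's conjecture for 8T8 over number fields, block A, rows A24, A25: change of the
homomorphism, vanishing
-/

set_option autoImplicit false

open scoped BigOperators
open NumberField IsDedekindDomain

namespace Pool.Agent.SK

open Pool.Agent.H98.MF
open Pool.Agent.H98.MK (sg)
open Pool.Agent.H32.MA (SD bit3 pm p5 pw)
open Pool.Agent.H32.MQ (HX El Qof rep co lrp hv_congr)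

section

variable {k : Type} [Field k] [NumberField k]

omit [NumberField k] in
private theorem twi_sq_prod {n : ℕ} (u : Fin n → kˣ) (x y : Fin n → ZMod 2) :
    IsSquare (((∏ j, u j ^ (x j).val) * ∏ j, u j ^ (y j).val) *
      ∏ j, u j ^ ((x + y) j).val) := by
  rw [← Finset.prod_mul_distrib, ← Finset.prod_mul_distrib]
  refine ⟨∏ j, u j ^ (((x j).val + (y j).val + ((x + y) j).val) / 2), ?_⟩
  rw [← Finset.prod_mul_distrib]
  refine Finset.prod_congr rfl fun j _ => ?_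
  rw [← pow_add, ← pow_add, ← pow_add]
  congr 1
  show (x j).val + (y j).val + (x j + y j).val = _
  have h : ∀ s t : ZMod 2, s.val + t.val + (s + t).val =
      (s.val + t.val + (s + t).val) / 2 + (s.val + t.val + (s + t).val) / 2 := by decide
  exact h (x j) (y j)

private theorem twi_lrp_add (Fr : Frm k) (c d : Fr.sys.T × Fr.sys.T) :
    IsSquare ((lrp Fr c.1 c.2 * lrp Fr d.1 d.2) * lrp Fr (c + d).1 (c + d).2) := by
  obtain ⟨y, hy⟩ := twi_sq_prod Fr.u c.1 d.1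
  obtain ⟨z, hz⟩ := twi_sq_prod Fr.w c.2 d.2
  refine ⟨y * z, ?_⟩
  have h1 : (lrp Fr c.1 c.2 * lrp Fr d.1 d.2) * lrp Fr (c + d).1 (c + d).2 =
      (((∏ j, Fr.u j ^ (c.1 j).val) * ∏ j, Fr.u j ^ (d.1 j).val) *
        ∏ j, Fr.u j ^ ((c.1 + d.1) j).val) *
      (((∏ j, Fr.w j ^ (c.2 j).val) * ∏ j, Fr.w j ^ (d.2 j).val) *
        ∏ j, Fr.w j ^ ((c.2 + d.2) j).val) := by
    unfold lrp
    rw [Prod.fst_add, Prod.snd_add]
    rw [mul_mul_mul_comm (∏ j, Fr.u j ^ (c.1 j).val), mul_mul_mul_comm]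
  rw [h1, hy, hz, mul_mul_mul_comm]

private theorem twi_sq_mem {v : Pl k} {x : kˣ} (h : IsSquare x) : x ∈ LS v := by
  obtain ⟨y, rfl⟩ := h
  rw [← pow_two]
  exact Pool.Agent.H98.MF.B.sq_mem_LS v y

theorem aTwi (Fr : Frm k) (hT : ATwA k) (hS : ATwS k) (hE : AEqT Fr) : ATwi Fr := by
  intro w hw ρ hρ ρ' hρ' b c hc
  obtain ⟨hr, hs, ht, hcj, htw, hrep⟩ := hE
  have key : ∀ d : Fr.sys.T × Fr.sys.T,
      w (twS ρ' (lrp Fr d.1 d.2)) = w (twS ρ (lrp Fr (c + d).1 (c + d).2)) := by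
    intro d
    have h1 : EqS Fr (twS (twS ρ (lrp Fr c.1 c.2)) (lrp Fr d.1 d.2))
        (twS ρ' (lrp Fr d.1 d.2)) := by
      refine htw _ _ _ _ hc fun v _ => ?_
      exact twi_sq_mem ⟨_, rfl⟩
    rw [(hT ρ (lrp Fr c.1 c.2) (lrp Fr d.1 d.2)).1] at h1
    have h2 : EqS Fr (twS ρ (lrp Fr c.1 c.2 * lrp Fr d.1 d.2))
        (twS ρ (lrp Fr (c + d).1 (c + d).2)) :=
      htw _ _ _ _ (hr ρ) fun v _ => twi_sq_mem (twi_lrp_add Fr c d)
    have h3 := hw _ ((hS ρ hρ).1 _) _ ((hS ρ' hρ').1 _) h1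
    have h4 := hw _ ((hS ρ hρ).1 _) _ ((hS ρ hρ).1 _) h2
    rw [← h3, h4]
  unfold twi
  rw [Finset.mul_sum]
  have h5 : ∀ d : Fr.sys.T × Fr.sys.T, c + (c + d) = d := by
    intro d
    rw [← add_assoc]
    have h6 : c + c = 0 := by
      refine Prod.ext ?_ ?_
      · funext i
        exact CharTwo.add_self_eq_zero _
      · funext i
        exact CharTwo.add_self_eq_zero _
    rw [h6, zero_add]
  rw [← Equiv.sum_comp (Equiv.addLeft c) fun e : Fr.sys.T × Fr.sys.T =>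
    ((sg (b ⬝ᵥ c.2) : ℤ) : ℝ) * (((sg (b ⬝ᵥ e.2) : ℤ) : ℝ) * w (twS ρ (lrp Fr e.1 e.2)))]
  refine Finset.sum_congr rfl fun d _ => ?_
  rw [key d, Equiv.coe_addLeft, ← mul_assoc]
  congr 1
  rw [Prod.snd_add, dotProduct_add, ← Int.cast_mul, ← sg_add, ← add_assoc,
    CharTwo.add_self_eq_zero, zero_add]

theorem aVan (Fr : Frm k) (hE : AEqT Fr) (hD : ADual Fr) (hw : ATwi Fr) : AVan Fr := by
  intro w hloc ρ hρ a b hpd hsq hv0
  obtain ⟨v, hv0⟩ := hv0
  have hL : LIn k := B.lin k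
  have hab : ∀ v : Pl k, lrp Fr b 0 * a ∈ LS v := fun v => by
    rw [mul_comm]
    exact twi_sq_mem hsq
  have h11 : ∀ v : Pl k, (-1 : kˣ) * (-1) ∈ LS v := fun v => twi_sq_mem ⟨-1, rfl⟩
  -- the place is in `S`
  have hvS : v ∈ pls Fr.S := by
    rcases v with P | φ
    · by_contra hP
      have hP' : P ∉ Fr.S := fun h => hP (B.inl_mem_pls.2 h)
      obtain ⟨p, rfl⟩ := (Fr.pl_iff P).2 hP'
      apply hv0
      rw [hv_congr (by rw [mul_comm]; exact hab (Sum.inl (Fr.pl p))) (h11 _)]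
      have h1 : ord (Fr.pl p) (lrp Fr b 0 : k) = 0 := by
        have h2 : lrp Fr b 0 = ∏ j, Fr.u j ^ (b j).val := by
          unfold lrp
          have h3 : ∏ j, Fr.w j ^ ((0 : Fr.sys.T) j).val = 1 := by
            refine Finset.prod_eq_one fun j _ => ?_
            show Fr.w j ^ (0 : ZMod 2).val = 1
            rw [ZMod.val_zero, pow_zero]
          rw [h3, mul_one]
        rw [h2]
        exact Pool.Agent.H32.MQ.hb_ord_U Fr p b
      have h4 := hL.unt (Fr.pl p) (Pool.Agent.H32.MQ.hb_two Fr p) (lrp Fr b 0) (-1) h1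
      show hs (Fr.pl p) (lrp Fr b 0 : k) ((-1 : kˣ) : k) = 0
      rw [h4, Units.val_neg, Units.val_one, B.ord_neg_one, Int.cast_zero, zero_mul]
    · exact B.inr_mem_pls _ _
  classical
  obtain ⟨y, z, hyz⟩ := Fr.gen (fun v' => if v' = v then a else 1)
  have hv1 : lrp Fr y z * a ∈ LS v := by
    have h1 := hyz v hvS
    rw [if_pos rfl, mul_assoc] at h1
    rw [mul_comm]
    exact (hL.memLS v _).2 h1
  have hv2 : ∀ v' ∈ pls Fr.S, v' ≠ v → lrp Fr y z ∈ LS v' := by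
    intro v' hv' hne
    have h1 := hyz v' hv'
    rw [if_neg hne, one_mul] at h1
    exact (hL.memLS v' _).2 h1
  have hEq : EqS Fr (twS ρ (lrp Fr y z)) ρ := by
    intro v' hv'
    by_cases hne : v' = v
    · refine ⟨5, by decide, fun σ hσ => ?_⟩
      rw [hne] at hσ
      have h1 := ((kin k).one v (lrp Fr y z * a)).2 ((hL.memLS v _).1 hv1) σ hσ
      rw [Units.val_mul, chi_mul (Units.ne_zero _) (Units.ne_zero _)] at h1
      have h2 : chi (lrp Fr y z : k) σ = (ρ σ).pd := by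
        rw [hpd σ]
        exact CharTwo.add_eq_zero.1 h1
      rw [twS_apply, h2, ← au_five, au_mul]
      have h3 : (5 : ZMod 8) * 5 = 1 := by decide
      rw [h3, au_one]
    · refine ⟨1, by decide, fun σ hσ => ?_⟩
      have h1 := ((kin k).one v' (lrp Fr y z)).2 ((hL.memLS v' _).1 (hv2 v' hv' hne)) σ hσ
      rw [twS_apply, h1, au_one]
      have h3 : SD.zz 0 = 1 := by decide
      rw [h3, mul_one]
  have h1 := hw w hloc ρ hρ ρ hρ b (y, z) hEq
  have h2 : b ⬝ᵥ z = 1 := by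
    rw [← hD b y z, Finset.sum_eq_single_of_mem v hvS]
    · rw [hv_congr (hab v) hv1]
      -- `hv a a = hv a (-1)`
      have h3 := hL.mulR v a (-1) (-a)
      have h4 : (-1 : kˣ) * (-a) = a := by rw [neg_mul_neg, one_mul]
      have h5 : hv v (a : k) ((-a : kˣ) : k) = 0 := by
        refine hL.nm v a (-a) 0 1 ?_
        rw [Units.val_neg]
        ring
      rw [h4, h5, add_zero] at h3
      rw [h3]
      have h6 : ∀ t : ZMod 2, t ≠ 0 → t = 1 := by decide
      exact h6 _ hv0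
    · intro v' hv' hne
      exact B.hv_of_loc hL v' _ _ (hv2 v' hv' hne)
  have h3 : (((sg (b ⬝ᵥ z) : ℤ)) : ℝ) = -1 := by
    rw [h2, sg_one]
    norm_num
  have h4 : (((sg (b ⬝ᵥ ((y, z) : Fr.sys.T × Fr.sys.T).2) : ℤ)) : ℝ) = -1 := h3
  rw [h4] at h1
  linarith

end

end Pool.Agent.SK
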