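import Pool.Agent.SK.AStm
import Pool.Agent.H32.MQ.ADefs
import Pool.Agent.H98.MF.LhTauK
import Pool.Agent.H98.MF.L.Top
import Pool.Agent.H98.MF.L.Ord

/-!
# Malle's conjecture for 8T8 over number fields, row SK-A16: even exponents

The function attached to an element with even exponents at the primes above `P` vanishes at the
tame generator of `P`.
-/

set_option autoImplicit false

open scoped BigOperators
open NumberField IsDedekindDomain

namespace Pool.Agent.SK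

open Pool.Agent.H98.MF
open Pool.Agent.H98.ML (Dt Ext)
open Pool.Agent.H32.MQ (D4 HX)

section

variable {k : Type} [Field k] [NumberField k] {L : Type} [Field L] [NumberField L] [Algebra k L]

/-- the prime of `L` below `top P` -/
private theorem unr_prime (P : HeightOneSpectrum (𝓞 k)) (j : L →ₐ[k] Om k) :
    ∃ P' : HeightOneSpectrum (𝓞 L), Over P P' ∧ ∀ (x : 𝓞 L) (y : 𝓞 (Om k)),
      (y : Om k) = j (x : L) → (y ∈ top P ↔ x ∈ P'.asIdeal) := by
  set φ : 𝓞 L →+* 𝓞 (Om k) := RingOfIntegers.mapRingHom (j : L →+* Om k) with hφ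
  have hφa : ∀ x : 𝓞 L, ((φ x : 𝓞 (Om k)) : Om k) = j (x : L) := fun x => rfl
  have hc : ∀ x : 𝓞 k, φ (algebraMap (𝓞 k) (𝓞 L) x) = algebraMap (𝓞 k) (𝓞 (Om k)) x := by
    intro x
    apply RingOfIntegers.ext
    rw [hφa]
    exact j.commutes (x : k)
  have h1 : ((top P).comap φ).IsPrime := by
    have := top_prime P
    exact Ideal.comap_isPrime _ _
  have h2 : ((top P).comap φ).comap (algebraMap (𝓞 k) (𝓞 L)) = P.asIdeal := by
    rw [← top_comap P]
    ext x
    rw [Ideal.mem_comap, Ideal.mem_comap, Ideal.mem_comap, hc]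
  refine ⟨⟨(top P).comap φ, h1, ?_⟩, h2, ?_⟩
  · intro h
    apply P.ne_bot
    rw [eq_bot_iff, ← h2, h]
    intro x hx
    rw [Ideal.mem_comap, Ideal.mem_bot] at hx
    rw [Ideal.mem_bot]
    exact (FaithfulSMul.algebraMap_injective (𝓞 k) (𝓞 L)) (by rw [hx, map_zero])
  · intro x y hxy
    have h3 : y = φ x := RingOfIntegers.ext (by rw [hxy, hφa])
    rw [h3]
    exact Iff.rfl

/-- a square multiple that is integral and not in the prime -/
private theorem unr_elt (P' : HeightOneSpectrum (𝓞 L)) (b : Lˣ) (hb : Even (ord P' (b : L))) :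
    ∃ (z : L) (x : 𝓞 L), (b : L) * z ^ 2 = (x : L) ∧ x ∉ P'.asIdeal := by
  obtain ⟨π, hπ⟩ := exists_unif P'
  have hπ0 : (π : L) ≠ 0 := by
    intro h
    rw [h, ord_zero] at hπ
    exact zero_ne_one hπ
  obtain ⟨r, hr⟩ := hb
  have hw0 : ((π : L) ^ r)⁻¹ ≠ 0 := inv_ne_zero (zpow_ne_zero r hπ0)
  have hw : ord P' ((π : L) ^ r)⁻¹ = -r := by
    rw [ord_inv, Pool.Agent.H98.MF.B.ord_zpow, hπ, mul_one]
  have hc0 : (b : L) * (((π : L) ^ r)⁻¹) ^ 2 ≠ 0 := mul_ne_zero b.ne_zero (pow_ne_zero 2 hw0)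
  have hc : ord P' ((b : L) * (((π : L) ^ r)⁻¹) ^ 2) = 0 := by
    rw [ord_mul P' b.ne_zero (pow_ne_zero 2 hw0), ord_pow, hw, hr]
    push_cast
    ring
  obtain ⟨x, y, hy, hxy⟩ := (ord_nonneg_iff P' _).1 hc.ge
  have hy0 : (y : L) ≠ 0 := by
    intro h
    have h1 : y = 0 := by exact_mod_cast h
    exact hy (h1 ▸ P'.asIdeal.zero_mem)
  have hx0 : (x : L) ≠ 0 := by
    rw [← hxy]
    exact mul_ne_zero hc0 hy0
  have hx : x ∉ P'.asIdeal := by
    intro h
    have h1 := (le_ord_iff P' x 1).2 (by rwa [pow_one])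
    rcases h1 with h1 | h1
    · apply hx0
      rw [h1]
      exact map_zero (algebraMap (𝓞 L) L)
    · rw [← hxy, ord_mul P' hc0 hy0, hc, ord_unit P' hy] at h1
      norm_num at h1
  refine ⟨((π : L) ^ r)⁻¹ * (y : L), x * y, ?_, ?_⟩
  · rw [show ((x * y : 𝓞 L) : L) = (x : L) * (y : L) from map_mul (algebraMap (𝓞 L) L) x y, ← hxy]
    ring
  · intro h
    rcases P'.isPrime.mem_or_mem h with h1 | h1
    · exact hx h1
    · exact hy h1

/-- the homomorphism to the dihedral group -/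
private noncomputable def unr_hom (a n : k) (f : Gm k → ZMod 2)
    (h : ∀ σ τ, f (σ * τ) = f σ + f τ + chi n σ * chi a τ) : Gm k →* Ext D4 :=
  MonoidHom.mk' (fun σ => ⟨![chi n σ, chi a σ], ![f σ]⟩) (fun σ τ => by
    apply Ext.ext
    · show (![chi n (σ * τ), chi a (σ * τ)] : Fin 2 → ZMod 2) =
        ![chi n σ, chi a σ] + ![chi n τ, chi a τ]
      rw [chi_hom, chi_hom]
      funext i
      fin_cases i <;> rfl
    · funext i
      have hi : i = (0 : Fin 1) := @Subsingleton.elim (Fin 1) _ i 0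
      subst hi
      exact h σ τ)

private theorem unr_ker (a n : k) (f : Gm k → ZMod 2)
    (h : ∀ σ τ, f (σ * τ) = f σ + f τ + chi n σ * chi a τ) (σ : Gm k)
    (hσ : σ ∈ (unr_hom a n f h).ker) : chi a σ = 0 ∧ f σ = 0 := by
  rw [MonoidHom.mem_ker] at hσ
  have h1 : (⟨![chi n σ, chi a σ], ![f σ]⟩ : Ext D4) = 1 := hσ
  have h2 := congrArg (fun g : Ext D4 => g.v (1 : Fin 2)) h1
  have h3 := congrArg (fun g : Ext D4 => g.z (0 : Fin 1)) h1
  exact ⟨h2, h3⟩

private theorem unr_lc (a n : k) (f : Gm k → ZMod 2)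
    (h : ∀ σ τ, f (σ * τ) = f σ + f τ + chi n σ * chi a τ) (hf : IsLocallyConstant f) :
    IsLocallyConstant (unr_hom a n f h) := by
  have h1 : IsLocallyConstant (fun σ : Gm k => ((chi n σ, chi a σ), f σ)) :=
    ((chi_lc n).prodMk (chi_lc a)).prodMk hf
  exact h1.comp (fun t : (ZMod 2 × ZMod 2) × ZMod 2 => (⟨![t.1.1, t.1.2], ![t.2]⟩ : Ext D4))

end

theorem aUnr {k : Type} [Field k] [NumberField k] {L : Type} [Field L] [NumberField L]
    [Algebra k L] (Q : QK k L) (j : L →ₐ[k] Om k) (R0 : Rx k) (hR : RxI R0) (hA : AAct Q j)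
    (hC : AFCo Q j) : AUnr Q j R0 := by
  intro P hP2 hPa b f hf hev
  obtain ⟨hlc, hco⟩ := hC b f hf
  obtain ⟨θ, θ', hθ, -, h1, -⟩ := hf
  have hτ : chi (Q.a : k) (R0.tau P) = 0 := by
    rw [R0.chi P hP2 Q.a, ZMod.intCast_zmod_eq_zero_iff_dvd]
    exact_mod_cast hPa.two_dvd
  obtain ⟨P', hP', hmem⟩ := unr_prime P j
  obtain ⟨z, x, hzx, hx⟩ := unr_elt P' b (hev P' hP')
  have hy2 : (θ * j z) ^ 2 = j (x : L) := by
    rw [mul_pow, hθ, ← map_pow, ← map_mul, hzx]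
  have hint : IsIntegral ℤ (θ * j z) := by
    refine IsIntegral.of_pow (n := 2) two_pos ?_
    rw [hy2]
    exact map_isIntegral_int (j : L →+* Om k) x.isIntegral_coe
  obtain ⟨y, hy⟩ : ∃ y : 𝓞 (Om k), (y : Om k) = θ * j z := ⟨⟨_, hint⟩, rfl⟩
  have hyP : y ∉ top P := by
    intro h
    refine hx ((hmem x (y ^ 2) ?_).1 ?_)
    · rw [show ((y ^ 2 : 𝓞 (Om k)) : Om k) = (y : Om k) ^ 2 from
        map_pow (algebraMap (𝓞 (Om k)) (Om k)) y 2, hy, hy2]
    · rw [pow_two]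
      exact (top P).mul_mem_left _ h
  have hfix : ∀ σ ∈ (unr_hom (Q.a : k) ((QK.nr (k := k) b : kˣ) : k) f hco).ker,
      σ (y : Om k) = (y : Om k) := by
    intro σ hσ
    obtain ⟨h2, h3⟩ := unr_ker _ _ f hco σ hσ
    rw [hy, map_mul, h1 σ h2, (hA σ z).1 h2, h3]
    simp [sgO]
  obtain ⟨t, ht, hty⟩ := hR P hP2 _ (LTK.ker_open _ (unr_lc _ _ f hco hlc))
    (LTK.ker_index _) y hfix
  by_contra hne
  have h4 : R0.tau P (y : Om k) = -(y : Om k) := by
    rw [hy, map_mul, h1 _ hτ, (hA _ z).1 hτ]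
    simp [sgO, hne]
  have h5 : t = -(2 * y) := by
    apply RingOfIntegers.ext
    rw [hty, h4]
    have e : ((-(2 * y) : 𝓞 (Om k)) : Om k) = -(2 * (y : Om k)) := by
      push_cast
      rfl
    rw [e]
    ring
  rw [h5, neg_mem_iff] at ht
  rcases (top_prime P).mem_or_mem ht with h6 | h6
  · have h7 : (2 : 𝓞 k) ∈ P.asIdeal := by
      rw [← top_comap P, Ideal.mem_comap, map_ofNat]
      exact h6
    have h8 := (le_ord_iff P (2 : 𝓞 k) 1).2 (by rwa [pow_one])
    rcases h8 with h8 | h8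
    · exact two_ne_zero h8
    · rw [show ((2 : 𝓞 k) : k) = 2 from map_ofNat (algebraMap (𝓞 k) k) 2, hP2] at h8
      norm_num at h8
  · exact hyP h6

end Pool.Agent.SK
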