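import Pool.Agent.SK.GDefs

/-!
# Malle's conjecture for 8T8 over number fields: the main sum is a sum over pairs (row G1)
-/

set_option autoImplicit false

open scoped BigOperators Topology
open Filter

namespace Pool.Agent.SK

open Pool.Agent.H98.MK (sg)
open Pool.Agent.H98.MF
open Pool.Agent.H32.MQ (Qd Od El AlSt RepSt BFaSt BFbSt)

section

variable {S : Sys} (Q : Qd S)

theorem g1_gd {g e : Finset Q.P} (hg : Q.Gd g) (he : e ⊆ g) : Q.Gd e :=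
  fun a ha b hb h => hg a (he ha) b (he hb) h

theorem g1_dj {g e : Finset Q.P} (hg : Q.Gd g) (he : e ⊆ g) :
    Disjoint (Q.shd e) (Q.shd (g \ e)) := by
  classical
  rw [Finset.disjoint_left]
  intro p hp hp'
  unfold Qd.shd at hp hp'
  rw [Finset.mem_image] at hp hp'
  obtain ⟨a, ha, rfl⟩ := hp
  obtain ⟨b, hb, hab⟩ := hp'
  rw [Finset.mem_sdiff] at hb
  have h := hg a (he ha) b hb.1 hab.symm
  subst h
  exact hb.2 ha

theorem g1_shd (e f : Finset Q.P) : Q.shd (e ∪ f) = Q.shd e ∪ Q.shd f := by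
  classical
  unfold Qd.shd
  ext p
  simp only [Finset.mem_image, Finset.mem_union]
  constructor
  · rintro ⟨a, ha | ha, rfl⟩
    · exact Or.inl ⟨a, ha, rfl⟩
    · exact Or.inr ⟨a, ha, rfl⟩
  · rintro (⟨a, ha, rfl⟩ | ⟨a, ha, rfl⟩)
    · exact ⟨a, Or.inl ha, rfl⟩
    · exact ⟨a, Or.inr ha, rfl⟩

theorem g1_nq {g e : Finset Q.P} (hg : Q.Gd g) (he : e ⊆ g) :
    Q.nq g = Q.nq e * Q.nq (g \ e) := by
  unfold Qd.nq
  rw [← S.nm_union (g1_dj Q hg he), ← g1_shd, Finset.union_sdiff_of_subset he]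

theorem g1_sgc (γ : Q.G) (e : Finset Q.P) :
    sgc Q γ e = ∏ p ∈ e, ((sg (Q.sy γ (Q.cj p)) : ℤ) : ℝ) := by
  unfold sgc
  rw [sg_sum, Int.cast_prod]

theorem g1_prc (γ : Q.G) (g : Finset Q.P) : prc Q γ g = ∑ e ∈ g.powerset, sgc Q γ e := by
  unfold prc
  rw [Finset.prod_one_add]
  exact Finset.sum_congr rfl fun e _ => (g1_sgc Q γ e).symm

theorem g1_abs_sgc (γ : Q.G) (e : Finset Q.P) : |sgc Q γ e| = 1 := by
  unfold sgc
  exact abs_sgr _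

theorem g1_GG {Θ : Q.G → ℝ} {A : ℝ} (hA : 0 ≤ A) (hΘ : ∀ γ, |Θ γ| ≤ A) (e f : Finset Q.P) :
    |GG Q Θ e f| ≤ A * 4 ^ (S.m + Q.M.card) := by
  unfold GG
  split_ifs
  · refine (Finset.abs_sum_le_sum_abs _ _).trans ?_
    have h1 : ∑ γ ∈ Q.B (e ∪ f), |Θ γ * sgc Q γ e| ≤ ∑ _γ ∈ Q.B (e ∪ f), A := by
      refine Finset.sum_le_sum fun γ _ => ?_
      rw [abs_mul, g1_abs_sgc, mul_one]
      exact hΘ γ
    refine h1.trans ?_
    rw [Finset.sum_const, nsmul_eq_mul, mul_comm]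
    refine mul_le_mul_of_nonneg_left ?_ hA
    exact_mod_cast Q.card_B (e ∪ f)
  · rw [abs_zero]
    positivity

theorem g1_w {w : Q.P → ℝ} (hw : ∀ p, |w p| ≤ 1) (e : Finset Q.P) : |∏ p ∈ e, w p| ≤ 1 := by
  rw [Finset.abs_prod]
  exact Finset.prod_le_one (fun p _ => abs_nonneg _) fun p _ => hw p

/-- the term of a pair -/
noncomputable def g1F (Θ : Q.G → ℝ) (w : Q.P → ℝ) (x : ℝ)
    (z : (gdN Q).I × (gdN Q).I) : ℝ :=
  (∏ p ∈ z.1.1, w p) * (∏ p ∈ z.2.1, w p) * GG Q Θ z.1.1 z.2.1 *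
    Real.exp (-((Q.nq z.1.1 : ℝ) * (Q.nq z.2.1 : ℝ) / x))

theorem g1_summ (h5 : SL5) {Θ : Q.G → ℝ} {A K : ℝ} {w : Q.P → ℝ} (hΘ : ∀ γ, |Θ γ| ≤ A)
    (hw : ∀ p, |w p| ≤ 1) (hK : 0 ≤ K) (hL : (gdN Q).Lin K) {x : ℝ} (hx : 0 < x) :
    Summable (g1F Q Θ w x) := by
  have h1 := (h5 (gdN Q) (gdN Q) K hK hL hL x hx).mul_left
    (max A 0 * 4 ^ (S.m + Q.M.card))
  refine Summable.of_norm_bounded h1 fun z => ?_
  unfold g1F
  rw [norm_mul, norm_mul, norm_mul, Real.norm_eq_abs, Real.norm_eq_abs, Real.norm_eq_abs,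
    Real.norm_eq_abs, abs_of_pos (Real.exp_pos _)]
  refine mul_le_mul_of_nonneg_right ?_ (Real.exp_pos _).le
  have h2 : |∏ p ∈ z.1.1, w p| * |∏ p ∈ z.2.1, w p| ≤ 1 := by
    have h3 := g1_w Q hw z.1.1
    have h4 := g1_w Q hw z.2.1
    calc |∏ p ∈ z.1.1, w p| * |∏ p ∈ z.2.1, w p| ≤ 1 * 1 :=
          mul_le_mul h3 h4 (abs_nonneg _) zero_le_one
      _ = 1 := one_mul 1
  have h3 := g1_GG Q (le_max_right A 0) (fun γ => (hΘ γ).trans (le_max_left A 0)) z.1.1 z.2.1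
  calc |∏ p ∈ z.1.1, w p| * |∏ p ∈ z.2.1, w p| * |GG Q Θ z.1.1 z.2.1|
      ≤ 1 * |GG Q Θ z.1.1 z.2.1| := mul_le_mul_of_nonneg_right h2 (abs_nonneg _)
    _ = |GG Q Θ z.1.1 z.2.1| := one_mul _
    _ ≤ max A 0 * 4 ^ (S.m + Q.M.card) := h3

/-- the pairs above a good set -/
noncomputable def g1E (c : Σ g : (gdN Q).I, {e : Finset Q.P // e ∈ g.1.powerset}) :
    (gdN Q).I × (gdN Q).I :=
  (⟨c.2.1, g1_gd Q c.1.2 (Finset.mem_powerset.1 c.2.2)⟩,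
    ⟨c.1.1 \ c.2.1, g1_gd Q c.1.2 Finset.sdiff_subset⟩)

theorem g1_inj : Function.Injective (g1E Q) := by
  rintro ⟨g, e⟩ ⟨g', e'⟩ h
  have h1 : e.1 = e'.1 := congrArg (fun z => z.1.1) h
  have h2 : g.1 \ e.1 = g'.1 \ e'.1 := congrArg (fun z => z.2.1) h
  have h3 : g.1 = g'.1 := by
    have k1 : e.1 ∪ g.1 \ e.1 = g.1 :=
      Finset.union_sdiff_of_subset (Finset.mem_powerset.1 e.2)
    have k2 : e'.1 ∪ g'.1 \ e'.1 = g'.1 :=
      Finset.union_sdiff_of_subset (Finset.mem_powerset.1 e'.2)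
    calc g.1 = e.1 ∪ g.1 \ e.1 := k1.symm
      _ = e'.1 ∪ g'.1 \ e'.1 := by rw [h2, h1]
      _ = g'.1 := k2
  obtain ⟨g, hg⟩ := g
  obtain ⟨g', hg'⟩ := g'
  obtain ⟨e, he⟩ := e
  obtain ⟨e', he'⟩ := e'
  simp only at h1 h3
  subst h3
  subst h1
  rfl

theorem g1_supp (Θ : Q.G → ℝ) (w : Q.P → ℝ) (x : ℝ) :
    Function.support (g1F Q Θ w x) ⊆ Set.range (g1E Q) := by
  classical
  intro z hz
  rw [Function.mem_support] at hz
  have hd : Disjoint (Q.shd z.1.1) (Q.shd z.2.1) := by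
    by_contra h
    apply hz
    unfold g1F GG
    rw [if_neg h, mul_zero, zero_mul]
  have h1 : ∀ a ∈ z.1.1, ∀ b ∈ z.2.1, Q.sh a ≠ Q.sh b := by
    intro a ha b hb hab
    have h2 : Q.sh a ∈ Q.shd z.1.1 := by
      unfold Qd.shd
      exact Finset.mem_image_of_mem _ ha
    have h3 : Q.sh a ∈ Q.shd z.2.1 := by
      unfold Qd.shd
      rw [hab]
      exact Finset.mem_image_of_mem _ hb
    exact Finset.disjoint_left.1 hd h2 h3
  have hg : Q.Gd (z.1.1 ∪ z.2.1) := by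
    intro a ha b hb hab
    rw [Finset.mem_union] at ha hb
    rcases ha with ha | ha <;> rcases hb with hb | hb
    · exact z.1.2 a ha b hb hab
    · exact absurd hab (h1 a ha b hb)
    · exact absurd hab.symm (h1 b hb a ha)
    · exact z.2.2 a ha b hb hab
  have hdd : Disjoint z.1.1 z.2.1 := by
    rw [Finset.disjoint_left]
    intro a ha hb
    exact h1 a ha a hb rfl
  refine ⟨⟨⟨z.1.1 ∪ z.2.1, hg⟩, ⟨z.1.1, Finset.mem_powerset.2 Finset.subset_union_left⟩⟩, ?_⟩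
  unfold g1E
  refine Prod.ext (Subtype.ext rfl) (Subtype.ext ?_)
  show (z.1.1 ∪ z.2.1) \ z.1.1 = z.2.1
  rw [Finset.union_sdiff_cancel_left hdd]

theorem g1_term (Θ : Q.G → ℝ) (w : Q.P → ℝ) (x : ℝ) (g : (gdN Q).I) :
    ∑' e : {e : Finset Q.P // e ∈ g.1.powerset}, g1F Q Θ w x (g1E Q ⟨g, e⟩) =
      tT Q Θ w g.1 * Real.exp (-((Q.nq g.1 : ℝ) / x)) := by
  classical
  have h1 : ∀ e : {e : Finset Q.P // e ∈ g.1.powerset}, g1F Q Θ w x (g1E Q ⟨g, e⟩) =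
      (fun e : Finset Q.P => (∏ p ∈ g.1, w p) * (∑ γ ∈ Q.B g.1, Θ γ * sgc Q γ e) *
        Real.exp (-((Q.nq g.1 : ℝ) / x))) e.1 := by
    intro e
    have he := Finset.mem_powerset.1 e.2
    have hn : ((Q.nq e.1 : ℝ) * (Q.nq (g.1 \ e.1) : ℝ)) = (Q.nq g.1 : ℝ) := by
      rw [g1_nq Q g.2 he]
      push_cast
      rfl
    have hG : GG Q Θ e.1 (g.1 \ e.1) = ∑ γ ∈ Q.B g.1, Θ γ * sgc Q γ e.1 := by
      unfold GG
      rw [if_pos (g1_dj Q g.2 he)]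
      have h2 : e.1 ∪ g.1 \ e.1 = g.1 := Finset.union_sdiff_of_subset he
      rw [h2]
    have hw : (∏ p ∈ e.1, w p) * (∏ p ∈ g.1 \ e.1, w p) = ∏ p ∈ g.1, w p := by
      rw [mul_comm]
      exact Finset.prod_sdiff he
    show (∏ p ∈ e.1, w p) * (∏ p ∈ g.1 \ e.1, w p) * GG Q Θ e.1 (g.1 \ e.1) *
      Real.exp (-((Q.nq e.1 : ℝ) * (Q.nq (g.1 \ e.1) : ℝ) / x)) = _
    rw [hn, hG, hw]
  rw [tsum_congr h1, Finset.tsum_subtype g.1.powerset (fun e : Finset Q.P =>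
    (∏ p ∈ g.1, w p) * (∑ γ ∈ Q.B g.1, Θ γ * sgc Q γ e) *
        Real.exp (-((Q.nq g.1 : ℝ) / x)))]
  rw [← Finset.sum_mul, ← Finset.mul_sum, Finset.sum_comm]
  unfold tT
  congr 2
  refine Finset.sum_congr rfl fun γ _ => ?_
  rw [← Finset.mul_sum, g1_prc]

end

/-- G1: the main sum is a sum over pairs. -/
theorem g1 (_h4 : SL4) (h5 : SL5) : SG1 := by
  intro S Q Θ A K w hΘ hw hK hL x hx
  have hs := g1_summ Q h5 hΘ hw hK hL hx
  have hs' : Summable fun c => g1F Q Θ w x (g1E Q c) := hs.comp_injective (g1_inj Q)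
  have h1 : ∑' c, g1F Q Θ w x (g1E Q c) = ∑' z, g1F Q Θ w x z :=
    (g1_inj Q).tsum_eq (g1_supp Q Θ w x)
  have h2 : ∑' c, g1F Q Θ w x (g1E Q c) =
      ∑' g : (gdN Q).I, ∑' e : {e : Finset Q.P // e ∈ g.1.powerset},
        g1F Q Θ w x (g1E Q ⟨g, e⟩) := hs'.tsum_sigma
  have h3 : Summable fun g : (gdN Q).I => ∑' e : {e : Finset Q.P // e ∈ g.1.powerset},
      g1F Q Θ w x (g1E Q ⟨g, e⟩) := hs'.sigma
  refine ⟨h3.congr fun g => ?_, hs, ?_⟩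
  · exact g1_term Q Θ w x g
  · unfold TT PP
    rw [tsum_congr fun g => (g1_term Q Θ w x g).symm, ← h2, h1]
    rfl

end Pool.Agent.SK
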