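import Pool.Agent.SK.LDefs

/-!
# Malle's conjecture for 8T8 over number fields: dyadic sums of exponentials
-/

set_option autoImplicit false

open scoped BigOperators Topology
open Filter

namespace Pool.Agent.SK

private theorem l3_key (c x y : ℝ) (hc : 0 < c) (hx : 0 < x) (hy : 0 < y) :
    y * Real.exp (-(c * y / x)) ≤
      x * (1 + 3 / c + 4 / c ^ 2) * (2 * y / (x + 2 * y) - y / (x + y)) := by
  set D : ℝ := 1 + 3 / c + 4 / c ^ 2 with hD
  have hu : 0 ≤ c * y / x := by positivity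
  have h1 : 1 + c * y / x + (c * y / x) ^ 2 / 2 ≤ Real.exp (c * y / x) :=
    Real.quadratic_le_exp_of_nonneg hu
  have h2 : D * x ^ 2 * (1 + c * y / x + (c * y / x) ^ 2 / 2) =
      D * x ^ 2 + D * c * (x * y) + D * c ^ 2 / 2 * y ^ 2 := by
    field_simp
  have h3 : D * c = c + 3 + 4 / c := by
    rw [hD]
    field_simp
  have h4 : D * c ^ 2 = c ^ 2 + 3 * c + 4 := by
    rw [hD]
    field_simp
  have h5 : (x + 2 * y) * (x + y) ≤ D * x ^ 2 * Real.exp (c * y / x) := by
    have hD0 : 0 ≤ D * x ^ 2 := by positivity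
    refine le_trans ?_ (mul_le_mul_of_nonneg_left h1 hD0)
    rw [h2, h3, h4]
    have e1 : 0 ≤ 3 / c + 4 / c ^ 2 := by positivity
    have e2 : 0 ≤ 4 / c := by positivity
    have e3 : 0 ≤ x * y := by positivity
    have e4 : x ^ 2 ≤ D * x ^ 2 := by
      have : 1 ≤ D := by rw [hD]; linarith
      nlinarith [sq_nonneg x]
    have e5 : 3 * (x * y) ≤ (c + 3 + 4 / c) * (x * y) :=
      mul_le_mul_of_nonneg_right (by linarith) e3
    have e6 : 2 * y ^ 2 ≤ (c ^ 2 + 3 * c + 4) / 2 * y ^ 2 :=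
      mul_le_mul_of_nonneg_right (by nlinarith [sq_nonneg c]) (sq_nonneg y)
    nlinarith
  have h6 : 2 * y / (x + 2 * y) - y / (x + y) = x * y / ((x + 2 * y) * (x + y)) := by
    field_simp
    ring
  have hE : 0 < Real.exp (c * y / x) := Real.exp_pos _
  have hp : 0 < (x + 2 * y) * (x + y) := by positivity
  rw [h6, Real.exp_neg, ← div_eq_mul_inv, ← mul_div_assoc, div_le_div_iff₀ hE hp]
  calc y * ((x + 2 * y) * (x + y)) ≤ y * (D * x ^ 2 * Real.exp (c * y / x)) :=
        mul_le_mul_of_nonneg_left h5 hy.le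
    _ = x * D * (x * y) * Real.exp (c * y / x) := by ring

/-- L3: dyadic sums of exponentials -/
theorem l3 : SL3 := by
  intro c hc
  refine ⟨1 + 3 / c + 4 / c ^ 2, by positivity, fun x hx => ?_⟩
  set D : ℝ := 1 + 3 / c + 4 / c ^ 2 with hD
  have hD0 : 0 < D := by positivity
  have h0 : ∀ p : ℕ, 0 ≤ (2 : ℝ) ^ p * Real.exp (-(c * 2 ^ p / x)) := fun p => by positivity
  have h1 : ∀ n : ℕ, ∑ p ∈ Finset.range n, (2 : ℝ) ^ p * Real.exp (-(c * 2 ^ p / x)) ≤
      x * D * (2 ^ n / (x + 2 ^ n) - 1 / (x + 1)) := by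
    intro n
    induction n with
    | zero => simp
    | succ n ih =>
      rw [Finset.sum_range_succ]
      have h2 := l3_key c x (2 ^ n) hc hx (by positivity)
      have h3 : (2 : ℝ) ^ (n + 1) = 2 * 2 ^ n := by ring
      rw [h3]
      nlinarith
  have h2 : ∀ n : ℕ, ∑ p ∈ Finset.range n, (2 : ℝ) ^ p * Real.exp (-(c * 2 ^ p / x)) ≤
      D * x := by
    intro n
    refine (h1 n).trans ?_
    have h3 : (2 : ℝ) ^ n / (x + 2 ^ n) ≤ 1 := by
      rw [div_le_one (by positivity)]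
      linarith
    have h4 : 0 ≤ 1 / (x + 1) := by positivity
    have h5 : 0 < x * D := by positivity
    nlinarith
  exact ⟨summable_of_sum_range_le h0 h2, Real.tsum_le_of_sum_range_le h0 h2⟩

end Pool.Agent.SK
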