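import Pool.Agent.SK.LDefs

/-!
# Malle's conjecture for 8T8 over number fields: row L4, one variable
-/

set_option autoImplicit false

open scoped BigOperators Topology
open Filter

namespace Pool.Agent.SK

theorem l4 (h : SL3) : SL4 := by
  obtain ⟨C, hC, h3⟩ := h 1 one_pos
  refine ⟨2 * C, by linarith, fun A K hK0 hK x hx => ?_⟩
  obtain ⟨hs, hle⟩ := h3 x hx
  have hfin : ∀ u : Finset A.I, ∑ i ∈ u, Real.exp (-((A.n i : ℝ) / x)) ≤ 2 * C * K * x := by
    intro u
    obtain ⟨P, hP⟩ : ∃ P : ℕ, P = u.sup (fun i => Nat.log 2 (A.n i)) + 1 := ⟨_, rfl⟩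
    have hmap : ∀ i ∈ u, Nat.log 2 (A.n i) ∈ Finset.range P := fun i hi => by
      rw [hP]
      exact Finset.mem_range.2 (Nat.lt_succ_of_le
        (Finset.le_sup (f := fun i => Nat.log 2 (A.n i)) hi))
    rw [← Finset.sum_fiberwise_of_maps_to hmap]
    have hfib : ∀ p ∈ Finset.range P,
        ∑ i ∈ u.filter (fun i => Nat.log 2 (A.n i) = p), Real.exp (-((A.n i : ℝ) / x)) ≤
          2 * K * ((2 : ℝ) ^ p * Real.exp (-(1 * 2 ^ p / x))) := by
      intro p _
      have hterm : ∀ i ∈ u.filter (fun i => Nat.log 2 (A.n i) = p),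
          Real.exp (-((A.n i : ℝ) / x)) ≤ Real.exp (-(1 * 2 ^ p / x)) := by
        intro i hi
        have hi2 := (Finset.mem_filter.1 hi).2
        have h1 : 2 ^ p ≤ A.n i := by
          rw [← hi2]
          exact Nat.pow_log_le_self 2 (by have := A.one_le i; omega)
        have h2 : (2 : ℝ) ^ p ≤ A.n i := by exact_mod_cast h1
        rw [Real.exp_le_exp, one_mul]
        have h3 : (2 : ℝ) ^ p / x ≤ (A.n i : ℝ) / x := div_le_div_of_nonneg_right h2 hx.le
        linarith
      have hcard : ((u.filter (fun i => Nat.log 2 (A.n i) = p)).card : ℝ) ≤ K * 2 ^ (p + 1) := by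
        have h1 : u.filter (fun i => Nat.log 2 (A.n i) = p) ⊆ A.le (2 ^ (p + 1)) := by
          intro i hi
          have hi2 := (Finset.mem_filter.1 hi).2
          rw [A.mem_le (by positivity)]
          have h2 : A.n i < 2 ^ (p + 1) := by
            rw [← hi2]
            exact Nat.lt_pow_succ_log_self one_lt_two _
          exact_mod_cast h2.le
        have h2 := hK (2 ^ (p + 1)) (one_le_pow₀ one_le_two)
        refine le_trans ?_ h2
        exact_mod_cast Finset.card_le_card h1
      calc ∑ i ∈ u.filter (fun i => Nat.log 2 (A.n i) = p), Real.exp (-((A.n i : ℝ) / x))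
          ≤ ∑ i ∈ u.filter (fun i => Nat.log 2 (A.n i) = p), Real.exp (-(1 * 2 ^ p / x)) :=
            Finset.sum_le_sum hterm
        _ = ((u.filter (fun i => Nat.log 2 (A.n i) = p)).card : ℝ) *
              Real.exp (-(1 * 2 ^ p / x)) := by
            rw [Finset.sum_const, nsmul_eq_mul]
        _ ≤ (K * 2 ^ (p + 1)) * Real.exp (-(1 * 2 ^ p / x)) :=
            mul_le_mul_of_nonneg_right hcard (Real.exp_pos _).le
        _ = _ := by rw [pow_succ]; ring
    calc ∑ p ∈ Finset.range P, ∑ i ∈ u.filter (fun i => Nat.log 2 (A.n i) = p),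
          Real.exp (-((A.n i : ℝ) / x))
        ≤ ∑ p ∈ Finset.range P, 2 * K * ((2 : ℝ) ^ p * Real.exp (-(1 * 2 ^ p / x))) :=
          Finset.sum_le_sum hfib
      _ = 2 * K * ∑ p ∈ Finset.range P, (2 : ℝ) ^ p * Real.exp (-(1 * 2 ^ p / x)) := by
          rw [Finset.mul_sum]
      _ ≤ 2 * K * ∑' p : ℕ, (2 : ℝ) ^ p * Real.exp (-(1 * 2 ^ p / x)) :=
          mul_le_mul_of_nonneg_left (hs.sum_le_tsum _ fun p _ => by positivity) (by linarith)
      _ ≤ 2 * K * (C * x) := mul_le_mul_of_nonneg_left hle (by linarith)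
      _ = _ := by ring
  have h0 : 0 ≤ 2 * C * K * x := by positivity
  refine ⟨summable_of_sum_le (fun i => (Real.exp_pos _).le) hfin, ?_⟩
  exact Real.tsum_le_of_sum_le (fun i => (Real.exp_pos _).le) hfin

end Pool.Agent.SK
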