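import Pool.Agent.SK.LDefs

/-!
# Malle's conjecture for 8T8 over number fields, row L5: absolute convergence of the double series
-/

set_option autoImplicit false

open scoped BigOperators Topology
open Filter

namespace Pool.Agent.SK

theorem l5_one (A : Nm) {K : ℝ} (hK : 0 ≤ K) (hA : A.Lin K) :
    Summable fun i => ((A.n i : ℝ) ^ 2)⁻¹ := by
  classical
  refine summable_of_sum_le (c := 2 * K * 2) (fun i => by positivity) fun u => ?_
  have hmaps : ∀ i ∈ u, Nat.log 2 (A.n i) ∈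
      Finset.range (u.sup (fun i => Nat.log 2 (A.n i)) + 1) := by
    intro i hi
    rw [Finset.mem_range]
    exact Nat.lt_succ_of_le (Finset.le_sup (f := fun i => Nat.log 2 (A.n i)) hi)
  rw [← Finset.sum_fiberwise_of_maps_to hmaps]
  have hp : ∀ p : ℕ, ∑ i ∈ u.filter (fun i => Nat.log 2 (A.n i) = p), ((A.n i : ℝ) ^ 2)⁻¹ ≤
      2 * K * (1 / 2 : ℝ) ^ p := by
    intro p
    have h1 : ∀ i ∈ u.filter (fun i => Nat.log 2 (A.n i) = p),
        ((A.n i : ℝ) ^ 2)⁻¹ ≤ ((4 : ℝ) ^ p)⁻¹ := by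
      intro i hi
      obtain ⟨-, h2⟩ := Finset.mem_filter.1 hi
      have h3 : 2 ^ p ≤ A.n i := by
        rw [← h2]
        exact Nat.pow_log_le_self 2 (by have := A.one_le i; omega)
      have h4 : (2 : ℝ) ^ p ≤ A.n i := by exact_mod_cast h3
      have h5 : (4 : ℝ) ^ p ≤ (A.n i : ℝ) ^ 2 := by
        calc (4 : ℝ) ^ p = ((2 : ℝ) ^ p) ^ 2 := by
              rw [← pow_mul, mul_comm, pow_mul]
              norm_num
          _ ≤ (A.n i : ℝ) ^ 2 := pow_le_pow_left₀ (by positivity) h4 2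
      exact inv_anti₀ (by positivity) h5
    refine (Finset.sum_le_sum h1).trans ?_
    rw [Finset.sum_const, nsmul_eq_mul]
    have h2 : u.filter (fun i => Nat.log 2 (A.n i) = p) ⊆ A.le (2 ^ (p + 1)) := by
      intro i hi
      obtain ⟨-, h3⟩ := Finset.mem_filter.1 hi
      rw [A.mem_le (by positivity)]
      have h4 : A.n i < 2 ^ (p + 1) := by
        rw [← h3]
        exact Nat.lt_pow_succ_log_self (by norm_num) _
      exact_mod_cast h4.le
    have h3 : ((u.filter (fun i => Nat.log 2 (A.n i) = p)).card : ℝ) ≤ K * 2 ^ (p + 1) :=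
      le_trans (by exact_mod_cast Finset.card_le_card h2) (hA _ (one_le_pow₀ (by norm_num)))
    refine (mul_le_mul_of_nonneg_right h3 (by positivity)).trans (le_of_eq ?_)
    have h4 : (4 : ℝ) ^ p = 2 ^ p * 2 ^ p := by
      rw [← mul_pow]
      norm_num
    rw [h4, pow_succ, one_div, inv_pow]
    field_simp
  refine (Finset.sum_le_sum fun p _ => hp p).trans ?_
  rw [← Finset.mul_sum]
  exact mul_le_mul_of_nonneg_left (sum_geometric_two_le _) (by positivity)

/-- L5: two variables, absolute convergence -/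
theorem l5 : SL5 := by
  intro A A' K hK hA hA' x hx
  have h1 := l5_one A hK hA
  have h2 := l5_one A' hK hA'
  have h3 : Summable fun z : A.I × A'.I => ((A.n z.1 : ℝ) ^ 2)⁻¹ * ((A'.n z.2 : ℝ) ^ 2)⁻¹ :=
    h1.mul_of_nonneg h2 (fun i => by positivity) fun i => by positivity
  refine Summable.of_nonneg_of_le (fun z => (Real.exp_pos _).le) (fun z => ?_)
    (h3.mul_left (2 * x ^ 2))
  have hn : (0 : ℝ) < A.n z.1 := by exact_mod_cast A.one_le z.1
  have hn' : (0 : ℝ) < A'.n z.2 := by exact_mod_cast A'.one_le z.2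
  have h4 := Real.quadratic_le_exp_of_nonneg
    (x := (A.n z.1 : ℝ) * (A'.n z.2 : ℝ) / x) (by positivity)
  have h5 : ((A.n z.1 : ℝ) * (A'.n z.2 : ℝ) / x) ^ 2 / 2 ≤
      Real.exp ((A.n z.1 : ℝ) * (A'.n z.2 : ℝ) / x) := by
    have h6 : 0 ≤ (A.n z.1 : ℝ) * (A'.n z.2 : ℝ) / x := by positivity
    linarith
  rw [Real.exp_neg]
  refine (inv_anti₀ (by positivity) h5).trans (le_of_eq ?_)
  field_simp

end Pool.Agent.SK
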