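import Pool.Agent.SK.ABr
import Pool.Agent.SK.ASurG
import Pool.Agent.SK.AAct
import Pool.Agent.SK.AFEx
import Pool.Agent.SK.AFTwo
import Pool.Agent.SK.AKum
import Pool.Agent.SK.ACoc
import Pool.Agent.SK.ALift
import Pool.Agent.SK.AHasL
import Pool.Agent.SK.AKSq
import Pool.Agent.SK.ACrit
import Pool.Agent.SK.AApx
import Pool.Agent.SK.ALq
import Pool.Agent.SK.AKapL
import Pool.Agent.SK.AKapF
import Pool.Agent.SK.ARxI
import Pool.Agent.SK.AUnr
import Pool.Agent.SK.ATyp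
import Pool.Agent.SK.ATwA
import Pool.Agent.SK.ATwC
import Pool.Agent.SK.ARex
import Pool.Agent.SK.AEqT
import Pool.Agent.SK.ADual
import Pool.Agent.SK.ATwi
import Pool.Agent.SK.AEx
import Pool.Agent.SK.AExX
import Pool.Agent.SK.AKapA
import Pool.Agent.SK.AKapB
import Pool.Agent.SK.ABsE
import Pool.Agent.SK.AGd
import Pool.Agent.SK.ANor
import Pool.Agent.SK.AFibU
import Pool.Agent.SK.AFibE
import Pool.Agent.SK.ADs
import Pool.Agent.SK.AEq
import Pool.Agent.SK.AFSum
import Pool.Agent.SK.AFMain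
import Pool.Agent.SK.AFRest
import Pool.Agent.SK.AFSpin
import Pool.Agent.SK.AFDsc
import Pool.Agent.SK.AFUni
import Pool.Agent.SK.G1
import Pool.Agent.SK.L3
import Pool.Agent.SK.L4
import Pool.Agent.SK.L5

/-!
# Malle's conjecture for 8T8 over number fields, block A: assembly
-/

set_option autoImplicit false

open scoped BigOperators
open NumberField IsDedekindDomain

namespace Pool.Agent.SK

open Pool.Agent.H98.MF
open Pool.Agent.H32.MA (SD)
open Pool.Agent.H32.MQ (HX El Qof rep co lrp)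

/-! ### quadratic extensions -/

section

variable {k : Type} [Field k] [NumberField k] {L : Type} [Field L] [NumberField L] [Algebra k L]
  (Q : QK k L) (j : L →ₐ[k] Om k)

theorem eAct : AAct Q j := aAct Q j

theorem eFix : AFix Q j := aFix Q j

theorem eFEx : AFEx Q j := aFEx Q j (eAct Q j)

theorem eFCo : AFCo Q j := aFCo Q j (eAct Q j)

theorem eFTwo : AFTwo Q j := aFTwo Q j (eAct Q j)

theorem eFMul : AFMul Q j := aFMul Q j

theorem eFRat : AFRat Q j := aFRat Q j (eAct Q j)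

theorem eFSq : AFSq Q j := aFSq Q j (eAct Q j)

theorem eFInj : AFInj Q j := aFInj Q j (eAct Q j) (eFix Q j)

theorem eKum : AKum Q j := aKum Q j (eAct Q j) (eFix Q j)

theorem eLift : ALift Q j := aLift Q j (aCoc Q j (eAct Q j)) (eFCo Q j)

theorem eAb : AAb Q j := aAb Q j (eFCo Q j)

theorem eHasL : AHasL Q j := aHasL Q j (eFCo Q j) (eAb Q j)

theorem eSur2 : ASur2 Q j := aSur2 Q j (eAb Q j) aSurG

theorem eCritV : ACritV Q j := aCritV Q j (eLift Q j) (eFSq Q j) (aKSq Q)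

theorem eCrit : ACrit Q j := aCrit Q j (eLift Q j) (eFSq Q j) (aKSq Q)

theorem eLq : ALq Q j := aLq Q j (eAct Q j) (eFCo Q j) (aApx k)

include j in
theorem eKapL : AKapL Q := aKapL Q j (eFEx Q j) (eFMul Q j) (eLq Q j) (eCritV Q j)

theorem eTwC : ATwC Q j := aTwC Q j (eFTwo Q j)

theorem eTwEx : ATwEx Q j := aTwEx Q j (eFTwo Q j) (eAb Q j)

theorem eUnr (R0 : Rx k) (hR : RxI R0) : AUnr Q j R0 := aUnr Q j R0 hR (eAct Q j) (eFCo Q j)

end

/-! ### homomorphisms over `k` -/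

section

variable {k : Type} [Field k] [NumberField k] (R0 : Rx k) (Fr : Frm k)

theorem eTwS (k : Type) [Field k] [NumberField k] : ATwS k := aTwS k aSurG

theorem eRexL : ARexL R0 Fr := aRexL R0 Fr (eTwS k)

theorem eTwi : ATwi Fr := aTwi Fr (aTwA k) (eTwS k) (aEqT Fr)

theorem eVan : AVan Fr := aVan Fr (aEqT Fr) (aDual Fr) (eTwi Fr)

/-- there is a homomorphism -/
theorem eEx (k : Type) [Field k] [NumberField k] : AEx k :=
  aEx k fun _ _ _ _ Q j => ⟨eFEx Q j, eCrit Q j, eHasL Q j, eSur2 Q j⟩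

end

/-! ### frames -/

section

variable {k : Type} [Field k] [NumberField k] {Fr : Frm k} {L : Type} [Field L]
  [NumberField L] [Algebra k L] (R0 : Rx k) (hR : RxI R0) (X : HX Fr L) (j : L →ₐ[k] Om k)

include hR in
theorem eTyp : ATyp R0 X j :=
  aTyp R0 X j (eUnr (qk X) j R0 hR) (eAb (qk X) j) (eFMul (qk X) j) (eFRat (qk X) j)

include hR in
theorem eTy : ATy R0 X j := aTy R0 X j (aBsE X) (eTyp R0 hR X j)

include hR in
theorem eGd : AGd R0 X j := aGd R0 X j (eKum (qk X) j) (eFSq (qk X) j) (eTyp R0 hR X j)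

theorem eUq : AUq R0 X j := aUq R0 X j (eFInj (qk X) j)

include R0 in
theorem eQz : AQz X j := aQz R0 X j (aBsE X) (eHasL (qk X) j) (eCritV (qk X) j) (aKapB X)

include hR in
theorem eNor : ANor R0 X j :=
  aNor R0 X j (aBsE X) (eTyp R0 hR X j) (eTwC (qk X) j) (eTwS k) (aTwT R0) (aFinR R0)

include hR in
theorem eLf : ALf R0 X j :=
  aLf R0 X j (aBsE X) (eFEx (qk X) j) (eHasL (qk X) j) (eCrit (qk X) j) (eSur2 (qk X) j)
    (aKapA X) (aKapB X) (eNor R0 hR X j)

include hR in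
theorem eFibU : AFibU R0 X j :=
  aFibU R0 X j (aTwA k) (eTwS k) (aTwT R0) (eTwC (qk X) j) (eTwEx (qk X) j) (eTy R0 hR X j)

include hR in
theorem eFibE : AFibE R0 X j :=
  aFibE R0 X j (aTwA k) (eTwS k) (aTwT R0) (eTwC (qk X) j) (eTwEx (qk X) j) (eTy R0 hR X j)

include hR in
theorem eDsR : ADsR R0 X j := aDsR R0 X j (aRex R0) (eTy R0 hR X j)

include hR in
theorem eDsE : ADsE R0 X j := aDsE R0 X j (aRex R0) (eTy R0 hR X j)

variable (FL : Frm L)

theorem eEq : AEq R0 X j FL :=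
  aEq R0 X j FL (eFEx (qk X) j) (eFMul (qk X) j) (eFTwo (qk X) j) (eAb (qk X) j) (eLq (qk X) j)

include j in
theorem eKapS : AKapS X FL := aKapS X FL (eKapL (qk X) j)

/-! ### the results -/

include hR in
theorem eFSum : FSum R0 X j :=
  fSum R0 X j (eFibU R0 hR X j) (eFibE R0 hR X j) (aEqT Fr) (aTwA k) (eTwS k) (eUq R0 X j)

include hR in
theorem eFMain : FMain R0 X j FL :=
  fMain R0 X j FL (eQz R0 X j) (eEq R0 X j FL) (eKapS X j FL) (eLf R0 hR X j)
    (eHasL (qk X) j) (eCritV (qk X) j) (eTwi Fr) (eFibU R0 hR X j)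

theorem eFBd : FBd R0 X j := fBd R0 X j (eQz R0 X j)

theorem eFVan : FVan R0 X j := fVan R0 X j (eVan Fr)

include hR in
theorem eFTau : FTau R0 X j :=
  fTau R0 X j (eTwEx (qk X) j) (eTy R0 hR X j) (aTwA k) (aTwT R0) (aEqT Fr) (eTwi Fr)

include j in
theorem eFSpin : FSpin X FL :=
  fSpin X FL (aBsE X) (aKapA X) (aKapB X) (aKapF (qk X)) (eKapS X j FL)

include hR in
theorem eFDsc : FDsc R0 X j FL :=
  fDsc R0 X j FL (eDsE R0 hR X j) (eRexL R0 Fr) (eGd R0 hR X j) (eEq R0 X j FL) (eTwS k)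

include hR in
theorem eFDec : FDec R0 X j := fDec R0 X j (eGd R0 hR X j) (eUq R0 X j)

end

section

variable {k : Type} [Field k] [NumberField k] (R0 : Rx k) (hR : RxI R0) (Fr : Frm k)

include hR in
/-- the uniform bound -/
theorem eFUni : FUni R0 Fr :=
  fUni R0 Fr (g1 (l4 l3) l5) (aExX Fr) fun _ _ _ _ X j =>
    ⟨eGd R0 hR X j, eUq R0 X j, eQz R0 X j, eFibU R0 hR X j, eDsR R0 hR X j⟩

include hR in
theorem eStAU : StAU Fr R0 := stAU_of Fr R0 (eFUni R0 hR Fr)

theorem eStFin : StFin Fr R0 := stFin_of Fr R0 (aFinR R0)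

theorem eStCl : StCl Fr R0 := stCl Fr R0

theorem eStEx : StEx k := stEx_of (eEx k)

end

end Pool.Agent.SK
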