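import Pool.Agent.SK.AFRest
import Pool.Agent.H98.MF.L.ChiB

/-!
# Malle's conjecture for 8T8 over number fields, block A, row A36: the main term
-/

set_option autoImplicit false

open scoped BigOperators
open NumberField IsDedekindDomain

namespace Pool.Agent.SK

open Pool.Agent.H98.MF
open Pool.Agent.H98.MK (sg)
open Pool.Agent.H32.MA (SD)
open Pool.Agent.H32.MQ (HX El Qof rep co lrp)

section

variable {k : Type} [Field k] [NumberField k] {Fr : Frm k} {L : Type} [Field L]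
  [NumberField L] [Algebra k L]

theorem fmn_lrp (Fr : Frm k) : lrp Fr 0 0 = 1 := by
  unfold lrp
  simp

theorem fmn_twS (ρ : Gm k →* SD) : twS ρ 1 = ρ := by
  ext1 σ
  rw [twS_apply]
  have h1 : chi (((1 : kˣ) : kˣ) : k) σ = 0 := by
    have h3 := chi_sq (1 : k) σ
    rw [one_pow] at h3
    rw [Units.val_one]
    exact h3
  rw [h1]
  have h2 : SD.zz 0 = 1 := rfl
  rw [h2, mul_one]

theorem fmn_nonneg (w : (Gm k →* SD) → ℝ) (h0 : ∀ ρ, 0 ≤ w ρ) (ρ : Gm k →* SD) :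
    0 ≤ twi (Fr := Fr) w 0 ρ := by
  unfold twi
  refine Finset.sum_nonneg fun c _ => ?_
  rw [zero_dotProduct, sg_zero]
  push_cast
  rw [one_mul]
  exact h0 _

theorem fmn_pos (w : (Gm k →* SD) → ℝ) (h0 : ∀ ρ, 0 ≤ w ρ) (ρ : Gm k →* SD) (h : 0 < w ρ) :
    0 < twi (Fr := Fr) w 0 ρ := by
  refine lt_of_lt_of_le h ?_
  have h1 := Finset.single_le_sum (f := fun c : Fr.sys.T × Fr.sys.T =>
    ((sg ((0 : Fr.sys.T) ⬝ᵥ c.2) : ℤ) : ℝ) * w (twS ρ (lrp Fr c.1 c.2))) (s := Finset.univ)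
    (fun c _ => by
      rw [zero_dotProduct, sg_zero]
      push_cast
      rw [one_mul]
      exact h0 _) (Finset.mem_univ ((0 : Fr.sys.T), (0 : Fr.sys.T)))
  have h2 : ((sg ((0 : Fr.sys.T) ⬝ᵥ (0 : Fr.sys.T)) : ℤ) : ℝ) * w (twS ρ (lrp Fr 0 0)) = w ρ := by
    rw [zero_dotProduct, sg_zero, fmn_lrp, fmn_twS]
    push_cast
    rw [one_mul]
  unfold twi
  exact h2 ▸ h1

/-- F2 -/
theorem fMain (R0 : Rx k) (X : HX Fr L) (j : L →ₐ[k] Om k) (FL : Frm L) (hQ : AQz X j)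
    (hE : AEq R0 X j FL) (hK : AKapS X FL) (hL : ALf R0 X j) (hH : AHasL (qk X) j)
    (hV : ACritV (qk X) j) (hw : ATwi Fr) (hU : AFibU R0 X j) : FMain R0 X j FL := by
  classical
  intro hov hM w hsl
  -- the value of the local factor
  have hth : ∀ g, (Qof X).Gd g → ∀ γ ∈ X.Bs g, ∀ ρ ∈ Hc R0 X j γ,
      thW R0 X j FL w (coL FL γ) = twi (Fr := Fr) w 0 ρ := by
    intro g hg γ hγ ρ hρ
    have hex : ∃ ρ', ∃ g' γ', (Qof X).Gd g' ∧ γ' ∈ X.Bs g' ∧ coL FL γ' = coL FL γ ∧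
        ρ' ∈ Hc R0 X j γ' := ⟨ρ, g, γ, hg, hγ, rfl, hρ⟩
    unfold thW
    rw [dif_pos hex]
    obtain ⟨g', γ', hg', hγ', hco, hρ'⟩ := hex.choose_spec
    obtain ⟨c, hc⟩ := hE hov γ' γ hco _ hρ' ρ hρ
    rw [hw w hsl _ hρ'.1.1 ρ hρ.1.1 0 c hc, zero_dotProduct, sg_zero]
    push_cast
    rw [one_mul]
  refine ⟨?_, ?_⟩
  · intro g hg hgne γ hγ0
    have hγ : γ ∈ X.Bs g :=
      (Pool.Agent.H32.MQ.hi_mem X (Pool.Agent.H32.MQ.h_cardB X)).1 hγ0
    by_cases h : ∃ ρ, ρ ∈ Hc R0 X j γ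
    · have ht : tauW R0 X j w 0 γ = twi (Fr := Fr) w 0 h.choose := by
        unfold tauW
        rw [dif_pos h]
      have h5 := hQ g hg γ hγ h.choose h.choose_spec.2
      have h6 : prc (Qof X) γ g = 2 ^ g.card := frs_prc_one (Qof X) γ g fun b hb => h5 b hb
      rw [ht, hth g hg γ hγ _ h.choose_spec, h6]
    · have ht : tauW R0 X j w 0 γ = 0 := by
        unfold tauW
        rw [dif_neg h]
      rw [ht, zero_mul, eq_comm]
      by_contra hcon
      have h1 : thW R0 X j FL w (coL FL γ) ≠ 0 := left_ne_zero_of_mul hcon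
      have h2 : prc (Qof X) γ g ≠ 0 := right_ne_zero_of_mul hcon
      have hex : ∃ ρ', ∃ g' γ', (Qof X).Gd g' ∧ γ' ∈ X.Bs g' ∧ coL FL γ' = coL FL γ ∧
          ρ' ∈ Hc R0 X j γ' := by
        by_contra h3
        apply h1
        unfold thW
        rw [dif_neg h3]
      obtain ⟨ρ', g', γ', hg', hγ', hco, hρ'⟩ := hex
      have hk : ∀ v ∈ pls Fr.S, (qk X).kap v (HX.out γ) = 0 := by
        intro v hv
        rw [← hK hov γ' γ hco v hv]
        exact (hV v (HX.out γ') _ hρ'.2.pf).1 (hH.2 (DecP v) (HX.out γ') ρ' hρ'.2)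
      have hs : ∀ Q ∈ g, qr ((HX.out γ : Lˣ) : L) (X.cjX Q).1 = 0 := by
        intro Q hQg
        have h3 := Finset.prod_ne_zero_iff.1 h2 Q hQg
        have h4 : ∀ z : ZMod 2, 1 + ((sg z : ℤ) : ℝ) ≠ 0 → z = 0 := by
          intro z hz
          rcases zm2 z with h | h
          · exact h
          · exfalso
            apply hz
            rw [h, sg_one]
            norm_num
        exact h4 _ h3
      obtain ⟨ρ, hρ⟩ := hL hM g hg hgne γ hγ hk hs
      exact h ⟨ρ, hρ⟩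
  · intro h0
    refine ⟨?_, ?_⟩
    · intro z
      unfold thW
      split_ifs with h
      · exact fmn_nonneg w h0 _
      · exact le_refl _
    · intro g hg γ hγ0 ρ hρ hpos
      have hγ : γ ∈ X.Bs g :=
        (Pool.Agent.H32.MQ.hi_mem X (Pool.Agent.H32.MQ.h_cardB X)).1 hγ0
      rw [hth g hg γ hγ ρ hρ]
      exact fmn_pos w h0 ρ hpos

end

end Pool.Agent.SK
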