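import Pool.Agent.SK.ADefs

/-!
# Malle's conjecture for 8T8 over number fields, block A: statements of the rows
-/

set_option autoImplicit false

open scoped BigOperators
open NumberField IsDedekindDomain

namespace Pool.Agent.SK

open Pool.Agent.H98.MF
open Pool.Agent.H98.MK (sg)
open Pool.Agent.H98.ML (norb hind)
open Pool.Agent.H32.MA (SD bit3 pm p5 pw)
open Pool.Agent.H32.MQ (HX El Qof rep co lrp)

/-! ### the group -/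

/-- A1: surjectivity -/
def ASurG : Prop := ∀ (G : Type) [Group G] (ρ : G →* SD), Function.Surjective ρ ↔
  (∃ σ, (ρ σ).pd = 1 ∧ (ρ σ).a = 0) ∧ ∃ σ, (ρ σ).pd = 0 ∧ (ρ σ).a = 1

/-! ### quadratic extensions -/

section

variable {k : Type} [Field k] [NumberField k] {L : Type} [Field L] [NumberField L] [Algebra k L]
  (Q : QK k L) (j : L →ₐ[k] Om k)

/-- A2: the action on the field -/
def AAct : Prop := ∀ (σ : Gm k) (b : L),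
  (chi (Q.a : k) σ = 0 → σ (j b) = j b) ∧ (chi (Q.a : k) σ = 1 → σ (j b) = j (Q.sig b))

/-- A2: elements fixed by the automorphisms over the field -/
def AFix : Prop := ∀ y : Om k, (∀ σ : Gm k, chi (Q.a : k) σ = 0 → σ y = y) → ∃ b : L, y = j b

/-- A3: existence of the functions -/
def AFEx : Prop := ∀ b : Lˣ, ∃ f : Gm k → ZMod 2, Q.IsF j b f

/-- A3: the functions are locally constant and satisfy the cocycle relation -/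
def AFCo : Prop := ∀ (b : Lˣ) (f : Gm k → ZMod 2), Q.IsF j b f → IsLocallyConstant f ∧
  ∀ σ τ, f (σ * τ) = f σ + f τ + chi ((QK.nr (k := k) b : kˣ) : k) σ * chi (Q.a : k) τ

/-- A4: the two functions attached to an element -/
def AFTwo : Prop := ∀ (b : Lˣ) (f f' : Gm k → ZMod 2), Q.IsF j b f →
  (Q.IsF j b f' ↔ f' = f ∨ f' = fun σ => f σ + chi (Q.a : k) σ)

/-- A4: products -/
def AFMul : Prop := ∀ (b b' : Lˣ) (f f' : Gm k → ZMod 2), Q.IsF j b f → Q.IsF j b' f' →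
  Q.IsF j (b * b') (fun σ => f σ + f' σ)

/-- A4: elements of `k` -/
def AFRat : Prop := ∀ t : kˣ,
  Q.IsF j (Units.map (algebraMap k L : k →* L) t) (fun σ => chi (t : k) σ)

/-- A4: squares -/
def AFSq : Prop := ∀ (b z : Lˣ) (f : Gm k → ZMod 2), Q.IsF j b f → Q.IsF j (b * z ^ 2) f

/-- A4: the class is determined -/
def AFInj : Prop := ∀ (b b' : Lˣ) (f : Gm k → ZMod 2), Q.IsF j b f → Q.IsF j b' f →
  ∃ z : Lˣ, b' = b * z ^ 2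

/-- A5: every homomorphism is attached to an element -/
def AKum : Prop := ∀ ρ : Gm k →* SD, IsLocallyConstant ρ →
  (∀ σ, (ρ σ).pd = chi (Q.a : k) σ) → ∃ b : Lˣ, Q.Cl j b ρ

/-- A6: the explicit cochain -/
def ACoc : Prop := ∀ (b : Lˣ) (f : Gm k → ZMod 2), Algebra.trace k L (b : L) ≠ 0 →
  Q.IsF j b f → ∃ h : Gm k → ZMod 2, IsLocallyConstant h ∧ ∀ σ τ,
    bit3 (chi (Q.a : k) (σ * τ)) (f (σ * τ) + chi (Algebra.trace k L (b : L)) (σ * τ))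
        (h (σ * τ)) =
      bit3 (chi (Q.a : k) σ) (f σ + chi (Algebra.trace k L (b : L)) σ) (h σ) +
      pm (chi (Q.a : k) σ + chi ((QK.nr (k := k) b : kˣ) : k) σ) * p5 (chi (2 : k) σ) *
        bit3 (chi (Q.a : k) τ) (f τ + chi (Algebra.trace k L (b : L)) τ) (h τ)

/-- A7: lifts and cup products on a subgroup -/
def ALift : Prop := ∀ (D : Subgroup (Gm k)) (b : Lˣ) (f : Gm k → ZMod 2),
  Algebra.trace k L (b : L) ≠ 0 → Q.IsF j b f → (Q.HasL D b f ↔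
    Triv D (![(Q.a : k) * Algebra.norm k (b : L), Algebra.trace k L (b : L),
        2 * (Q.a : k) * Algebra.norm k (b : L)] : Fin 3 → k)
      (![Algebra.trace k L (b : L), Algebra.trace k L (b : L), (Q.a : k)] : Fin 3 → k))

/-- A8: homomorphisms and lifts -/
def AHasL : Prop := (∀ (b : Lˣ) (f : Gm k → ZMod 2), Q.IsF j b f → Q.HasL ⊤ b f →
    ∃ ρ : Gm k →* SD, Q.Cl j b ρ ∧ ∀ σ, (ρ σ).pf = f σ) ∧
  ∀ (D : Subgroup (Gm k)) (b : Lˣ) (ρ : Gm k →* SD), Q.Cl j b ρ →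
    Q.HasL D b (fun σ => (ρ σ).pf)

/-- A8: the last coordinate -/
def AAb : Prop := ∀ (b : Lˣ) (ρ : Gm k →* SD), Q.Cl j b ρ →
  ∀ σ, (ρ σ).a = chi (Q.a : k) σ + chi ((QK.nr (k := k) b : kˣ) : k) σ

/-- A8: surjectivity in terms of the norm -/
def ASur2 : Prop := ∀ (b : Lˣ) (ρ : Gm k →* SD), Q.Cl j b ρ →
  (Function.Surjective ρ ↔ ¬ IsSquare (QK.nr (k := k) b) ∧ ¬ IsSquare (Q.a * QK.nr (k := k) b))

/-- A9: the obstruction and squares -/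
def AKSq : Prop := ∀ (v : Pl k) (b z : Lˣ), Q.kap v (b * z ^ 2) = Q.kap v b

/-- A9: the local criterion -/
def ACritV : Prop := ∀ (v : Pl k) (b : Lˣ) (f : Gm k → ZMod 2), Q.IsF j b f →
  (Q.HasL (DecP v) b f ↔ Q.kap v b = 0)

/-- A9: the global criterion -/
def ACrit : Prop := ∀ (b : Lˣ) (f : Gm k → ZMod 2), Q.IsF j b f →
  (Q.HasL ⊤ b f ↔ ∀ v : Pl k, Q.kap v b = 0)

/-- a place of `L` above a place of `k` -/
def OvP : Pl k → Pl L → Prop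
  | Sum.inl P, Sum.inl P' => Over P P'
  | Sum.inr φ, Sum.inr ψ => ψ.comp (algebraMap k L) = φ
  | _, _ => False

/-- A10: approximate square roots at a prime -/
def AApx (k : Type) [Field k] [NumberField k] : Prop := ∀ P : HeightOneSpectrum (𝓞 k),
  ∃ A : Set (Om k), (∀ σ ∈ Dec P, ∀ θ ∈ A, σ θ ∈ A) ∧ (∀ θ ∈ A, -θ ∉ A) ∧
    ∀ θ : Om k, (∃ s x : 𝓞 (Om k), s ∉ top P ∧ x ∈ top P ∧
      (s : Om k) * (θ ^ 2 - 1) = 4 * (x : Om k)) → θ ∈ A ∨ -θ ∈ A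

/-- A11: the functions attached to local squares -/
def ALq : Prop := ∀ (v : Pl k) (l : Lˣ) (f : Gm k → ZMod 2),
  (∀ w : Pl L, OvP v w → LocP w (l : L)) → Q.IsF j l f →
    ((∀ σ ∈ DecP v, f σ = 0) ∨ ∀ σ ∈ DecP v, f σ = chi (Q.a : k) σ) ∧
      ∀ σ ∈ DecP v, chi ((QK.nr (k := k) l : kˣ) : k) σ = 0

/-- A12: the obstruction is local -/
def AKapL : Prop := ∀ (v : Pl k) (b l : Lˣ), (∀ w : Pl L, OvP v w → LocP w (l : L)) →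
  Q.kap v (b * l) = Q.kap v b

/-- A13: the product formula for the obstruction -/
def AKapF : Prop := ∀ (S : Finset (HeightOneSpectrum (𝓞 k))) (b : Lˣ),
  (∀ P : HeightOneSpectrum (𝓞 k), 0 < ord P (2 : k) → P ∈ S) →
  (∀ P : HeightOneSpectrum (𝓞 k), P ∉ S → Q.kap (Sum.inl P) b = 0) →
    ∑ v ∈ pls S, Q.kap v b = 0

/-- A18: twists and conjugates are attached to the same element -/
def ATwC : Prop := ∀ (b : Lˣ) (ρ : Gm k →* SD), Q.Cl j b ρ →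
  (∀ c : kˣ, Q.Cl j b (twS ρ c)) ∧ Q.Cl j b (cjS ρ)

/-- A18: all homomorphisms attached to an element -/
def ATwEx : Prop := ∀ (b : Lˣ) (ρ ρ' : Gm k →* SD), Q.Cl j b ρ → Q.Cl j b ρ' →
  ∃ c : kˣ, ρ' = twS ρ c ∨ ρ' = twS (cjS ρ) c

variable (R0 : Rx k)

/-- A15: the functions at the tame generators, even exponents -/
def AUnr : Prop := ∀ (P : HeightOneSpectrum (𝓞 k)), ord P (2 : k) = 0 →
  Even (ord P (Q.a : k)) → ∀ (b : Lˣ) (f : Gm k → ZMod 2), Q.IsF j b f →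
    (∀ P' : HeightOneSpectrum (𝓞 L), Over P P' → Even (ord P' (b : L))) → f (R0.tau P) = 0

end

/-! ### homomorphisms over `k` -/

section

variable {k : Type} [Field k] [NumberField k] (R0 : Rx k)

/-- A14: tame generators in the inertia groups -/
def ARxI (k : Type) [Field k] [NumberField k] : Prop := ∃ R : Rx k, RxI R

/-- A17: composition of twists -/
def ATwA (k : Type) [Field k] [NumberField k] : Prop := ∀ (ρ : Gm k →* SD) (c c' : kˣ),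
  twS (twS ρ c) c' = twS ρ (c * c') ∧ cjS (twS ρ c) = twS (cjS ρ) c ∧ cjS (cjS ρ) = ρ ∧
    (twS ρ c = twS ρ c' ↔ IsSquare (c * c'))

/-- A17: twists of surjective homomorphisms -/
def ATwS (k : Type) [Field k] [NumberField k] : Prop := ∀ ρ ∈ Hs k,
  (∀ c : kˣ, twS ρ c ∈ Hs k) ∧ cjS ρ ∈ Hs k ∧ (∀ c c' : kˣ, twS (cjS ρ) c ≠ twS ρ c') ∧
    ∀ u : ZMod 8, u * u = 1 → (au u).comp ρ ∈ Hs k

/-- A17: twists at the tame generators -/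
def ATwT : Prop := ∀ (ρ : Gm k →* SD) (c : kˣ) (P : HeightOneSpectrum (𝓞 k)),
  ord P (2 : k) = 0 →
    twS ρ c (R0.tau P) = ρ (R0.tau P) * SD.zz ((ord P (c : k) : ℤ) : ZMod 2)

/-- A19: the exponents of the discriminant at the odd primes -/
def ARex : Prop := ∀ ρ ∈ Hs k, ∀ P : HeightOneSpectrum (𝓞 k), ord P (2 : k) = 0 →
  R0.rex P (SD.H0.comap ρ) = hind SD.H0 (ρ (R0.tau P))

/-- A20: finitely many ramified primes -/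
def AFinR : Prop := ∀ ρ : Gm k →* SD, IsLocallyConstant ρ →
  {P : HeightOneSpectrum (𝓞 k) | ord P (2 : k) = 0 ∧ ρ (R0.tau P) ≠ 1}.Finite

variable (Fr : Frm k)

/-- A21: relations between homomorphisms at `S` -/
def AEqT : Prop := (∀ ρ : Gm k →* SD, EqS Fr ρ ρ) ∧
  (∀ ρ ρ' : Gm k →* SD, EqS Fr ρ ρ' → EqS Fr ρ' ρ) ∧
  (∀ ρ ρ' ρ'' : Gm k →* SD, EqS Fr ρ ρ' → EqS Fr ρ' ρ'' → EqS Fr ρ ρ'') ∧
  (∀ ρ : Gm k →* SD, EqS Fr ρ (cjS ρ)) ∧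
  (∀ (ρ ρ' : Gm k →* SD) (c c' : kˣ), EqS Fr ρ ρ' → (∀ v ∈ pls Fr.S, c * c' ∈ LS v) →
    EqS Fr (twS ρ c) (twS ρ' c')) ∧
  ∀ (ρ : Gm k →* SD) (c : El Fr.sys),
    EqS Fr (twS ρ (rep Fr c)) (twS ρ (lrp Fr c.1 (Fr.sys.tys c.2)))

/-- A22: the exponents at `S` are functions of the restrictions -/
def ARexL : Prop := ∀ ρ ∈ Hs k, ∀ ρ' ∈ Hs k, EqS Fr ρ ρ' → ∀ P ∈ Fr.S,
  R0.rex P (SD.H0.comap ρ) = R0.rex P (SD.H0.comap ρ')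

/-- A23: duality between the units and the complement of a frame -/
def ADual : Prop := ∀ b y z : Fr.sys.T,
  ∑ v ∈ pls Fr.S, hv v (lrp Fr b 0 : k) (lrp Fr y z : k) = b ⬝ᵥ z

/-- A24: change of the homomorphism -/
def ATwi : Prop := ∀ w : (Gm k →* SD) → ℝ, SLoc Fr w → ∀ ρ ∈ Hs k, ∀ ρ' ∈ Hs k,
  ∀ (b : Fr.sys.T) (c : Fr.sys.T × Fr.sys.T), EqS Fr (twS ρ (lrp Fr c.1 c.2)) ρ' →
    twi (Fr := Fr) w b ρ' = ((sg (b ⬝ᵥ c.2) : ℤ) : ℝ) * twi (Fr := Fr) w b ρ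

/-- A25: vanishing -/
def AVan : Prop := ∀ w : (Gm k →* SD) → ℝ, SLoc Fr w → ∀ ρ ∈ Hs k, ∀ (a : kˣ) (b : Fr.sys.T),
  (∀ σ, (ρ σ).pd = chi (a : k) σ) → IsSquare (a * lrp Fr b 0) →
  (∃ v : Pl k, hv v (a : k) ((-1 : kˣ) : k) ≠ 0) → twi (Fr := Fr) w b ρ = 0

/-- A36: there is a homomorphism -/
def AEx (k : Type) [Field k] [NumberField k] : Prop := (Hs k).Nonempty

end

/-! ### frames -/

section

variable {k : Type} [Field k] [NumberField k] (Fr : Frm k)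

/-- A37: quadratic extensions with given data -/
def AExX : Prop := ∀ (a : kˣ) (R : Finset Fr.sys.P), ¬ IsSquare a →
  (∀ p, p ∉ R → Even (ord (Fr.pl p) (a : k))) →
  ∃ (L : Type) (_ : Field L) (_ : NumberField L) (_ : Algebra k L) (X : HX Fr L)
    (_ : L →ₐ[k] Om k), X.a = a ∧ X.M = R ∧ X.δ = 1

variable {Fr} {L : Type} [Field L] [NumberField L] [Algebra k L] (R0 : Rx k) (X : HX Fr L)
  (j : L →ₐ[k] Om k)

/-- A16: the classes of the tame generators -/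
def ATyp : Prop := ∀ p, p ∉ X.M → ∀ (b : Lˣ) (ρ : Gm k →* SD), (qk X).Cl j b ρ →
  ((∀ P', Over (Fr.pl p) P' → Even (ord P' (b : L))) →
    ρ (R0.tau (Fr.pl p)) = 1 ∨ ρ (R0.tau (Fr.pl p)) = SD.zz 1) ∧
  (∀ P', Over (Fr.pl p) P' → Odd (ord P' (b : L)) → Even (ord (cj X.sig P') (b : L)) →
    SD.clC (ρ (R0.tau (Fr.pl p)))) ∧
  ((∀ P', Over (Fr.pl p) P' → Odd (ord P' (b : L))) → SD.clT (ρ (R0.tau (Fr.pl p))))

/-- A26: the obstruction at the primes of the first type -/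
def AKapA : Prop := ∀ p, p ∉ X.M → ∀ b : Lˣ,
  (∀ P', Over (Fr.pl p) P' → Even (ord P' (b : L))) → (qk X).kap (Sum.inl (Fr.pl p)) b = 0

/-- A27: the obstruction at the primes of the second type -/
def AKapB : Prop := ∀ (Q : X.PX) (b : Lˣ), Odd (ord Q.1 (b : L)) →
  Even (ord (X.cjX Q).1 (b : L)) →
    (qk X).kap (Sum.inl (Fr.pl (X.shX Q))) b = qr (b : L) (X.cjX Q).1

/-- A28: the exponents of a class -/
def ABsE : Prop := ∀ g, (Qof X).Gd g → ∀ γ ∈ X.Bs g,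
  (∀ Q ∈ g, Odd (ord Q.1 ((HX.out γ : Lˣ) : L)) ∧
    Even (ord (X.cjX Q).1 ((HX.out γ : Lˣ) : L))) ∧
  ∀ p, p ∉ X.M → p ∉ (Qof X).shd g → ∀ P', Over (Fr.pl p) P' →
    Even (ord P' ((HX.out γ : Lˣ) : L))

/-- A29: the good set of a homomorphism -/
def AGd : Prop := ∀ ρ ∈ Hd R0 X, ∃ g γ, (Qof X).Gd g ∧ γ ∈ X.Bs g ∧ ρ ∈ Hc R0 X j γ

/-- A29: uniqueness -/
def AUq : Prop := (∀ (ρ : Gm k →* SD) (γ γ' : HX.GX L), ρ ∈ Hc R0 X j γ → ρ ∈ Hc R0 X j γ' →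
  γ = γ') ∧ ∀ (g g' : Finset X.PX) (γ : HX.GX L), γ ∈ X.Bs g → γ ∈ X.Bs g' → g = g'

/-- A30: the classes of the tame generators, in terms of the good set -/
def ATy : Prop := ∀ g, (Qof X).Gd g → ∀ γ ∈ X.Bs g, ∀ ρ ∈ Hc R0 X j γ, ∀ p, p ∉ X.M →
  (p ∈ (Qof X).shd g → SD.clC (ρ (R0.tau (Fr.pl p)))) ∧
  (p ∉ (Qof X).shd g → ρ (R0.tau (Fr.pl p)) = 1)

/-- A30: the symbols at the conjugate primes vanish if there is a lift -/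
def AQz : Prop := ∀ g, (Qof X).Gd g → ∀ γ ∈ X.Bs g, ∀ ρ : Gm k →* SD,
  (qk X).Cl j (HX.out γ) ρ → ∀ Q ∈ g, qr ((HX.out γ : Lˣ) : L) (X.cjX Q).1 = 0

/-- A31: normalised lifts -/
def ANor : Prop := ∀ g, (Qof X).Gd g → ∀ γ ∈ X.Bs g, ∀ ρ ∈ Hs k,
  (qk X).Cl j (HX.out γ) ρ → ∃ c : kˣ, twS ρ c ∈ Hc R0 X j γ

/-- A31: existence of lifts -/
def ALf : Prop := X.M = ∅ → ∀ g, (Qof X).Gd g → g.Nonempty → ∀ γ ∈ X.Bs g,
  (∀ v ∈ pls Fr.S, (qk X).kap v (HX.out γ) = 0) →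
  (∀ Q ∈ g, qr ((HX.out γ : Lˣ) : L) (X.cjX Q).1 = 0) → ∃ ρ, ρ ∈ Hc R0 X j γ

/-- A32: upper bound for the fibre -/
def AFibU : Prop := ∀ g, (Qof X).Gd g → ∀ γ ∈ X.Bs g, (Hc R0 X j γ).Finite ∧
  (Hc R0 X j γ).ncard ≤ 2 * 2 ^ (Fr.sys.m + X.M.card + g.card)

open Classical in
/-- A33: the fibre -/
def AFibE : Prop := X.M = ∅ → ∀ g, (Qof X).Gd g → ∀ γ ∈ X.Bs g, ∀ ρ ∈ Hc R0 X j γ,
  ∀ φ : (Gm k →* SD) → ℝ, ∑ᶠ ρ' ∈ Hc R0 X j γ, φ ρ' =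
    ∑ t : Fr.sys.T, ∑ x ∈ ((Qof X).shd g).powerset,
      (φ (twS ρ (rep Fr (t, x))) + φ (twS (cjS ρ) (rep Fr (t, x))))

/-- A34: lower bound for the discriminant -/
def ADsR : Prop := ∀ g, (Qof X).Gd g → ∀ γ ∈ X.Bs g, ∀ ρ ∈ Hc R0 X j γ,
  ρ ∈ HsR R0 Fr X.M → Fr.sys.nm X.M ^ 4 * (Qof X).nq g ^ 3 ≤ dS ρ

/-- A34: the discriminant -/
def ADsE : Prop := X.M = ∅ → ∀ g, (Qof X).Gd g → ∀ γ ∈ X.Bs g, ∀ ρ ∈ Hc R0 X j γ,
  dS ρ = qS R0 Fr ρ * (Qof X).nq g ^ 3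

variable (FL : Frm L)

/-- A35: homomorphisms attached to classes which agree at `S` -/
def AEq : Prop := Ovr Fr.S FL.S → ∀ γ γ' : HX.GX L, coL FL γ = coL FL γ' →
  ∀ ρ ∈ Hc R0 X j γ, ∀ ρ' ∈ Hc R0 X j γ', ∃ c : Fr.sys.T × Fr.sys.T,
    EqS Fr (twS ρ (lrp Fr c.1 c.2)) ρ'

/-- A35: the obstructions at `S` -/
def AKapS : Prop := Ovr Fr.S FL.S → ∀ γ γ' : HX.GX L, coL FL γ = coL FL γ' →
  ∀ v ∈ pls Fr.S, (qk X).kap v (HX.out γ) = (qk X).kap v (HX.out γ')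

/-! ### the results for the analysis -/

open Classical in
/-- F1: the sum over the homomorphisms attached to a good set -/
def FSum : Prop := X.M = ∅ → ∀ w : (Gm k →* SD) → ℝ, SLoc Fr w → ∀ g, (Qof X).Gd g →
  (Hg R0 X j g).Finite ∧
  ∑ᶠ ρ ∈ Hg R0 X j g, w ρ = 2 * ((2 : ℝ) ^ Fr.sys.m)⁻¹ * ∑ b : Fr.sys.T,
    ∑ γ ∈ (Qof X).B g, tauW R0 X j w b γ *
      ∏ p ∈ (Qof X).shd g, (1 + ((sg (b ⬝ᵥ Fr.sys.ty p) : ℤ) : ℝ))

/-- F2: the main term -/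
def FMain : Prop := Ovr Fr.S FL.S → X.M = ∅ → ∀ w : (Gm k →* SD) → ℝ, SLoc Fr w →
  (∀ g, (Qof X).Gd g → g.Nonempty → ∀ γ ∈ (Qof X).B g,
    tauW R0 X j w 0 γ * 2 ^ g.card = thW R0 X j FL w (coL FL γ) * prc (Qof X) γ g) ∧
  ((∀ ρ, 0 ≤ w ρ) → (∀ z, 0 ≤ thW R0 X j FL w z) ∧
    ∀ g, (Qof X).Gd g → ∀ γ ∈ (Qof X).B g, ∀ ρ ∈ Hc R0 X j γ, 0 < w ρ →
      0 < thW R0 X j FL w (coL FL γ))

/-- F3: the bound for the coefficients -/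
def FBd : Prop := X.M = ∅ → ∀ (w : (Gm k →* SD) → ℝ) (A : ℝ), (∀ ρ, |w ρ| ≤ A) →
  ∀ g, (Qof X).Gd g → ∀ γ ∈ (Qof X).B g, ∀ b : Fr.sys.T,
    |tauW R0 X j w b γ| * 2 ^ g.card ≤ 4 ^ Fr.sys.m * A * prc (Qof X) γ g

/-- F4: vanishing of the coefficients -/
def FVan : Prop := X.M = ∅ → ∀ w : (Gm k →* SD) → ℝ, SLoc Fr w → ∀ b : Fr.sys.T,
  IsSquare (X.a * lrp Fr b 0) → (∃ v : Pl k, hv v (X.a : k) ((-1 : kˣ) : k) ≠ 0) →
    ∀ γ : HX.GX L, tauW R0 X j w b γ = 0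

/-- F5: the product formula for the symbols at the conjugate primes -/
def FSpin : Prop := Ovr Fr.S FL.S → X.M = ∅ → ∀ g, (Qof X).Gd g → ∀ γ ∈ (Qof X).B g,
  ∑ Q ∈ g, (Qof X).sy γ ((Qof X).cj Q) = hsW X FL (coL FL γ)

/-- F6: the discriminant -/
def FDsc : Prop := Ovr Fr.S FL.S → X.M = ∅ → (∀ g, (Qof X).Gd g → ∀ ρ ∈ Hg R0 X j g,
    dS ρ = qS R0 Fr ρ * (Qof X).nq g ^ 3) ∧
  (∀ φ : ℕ → ℝ, SLoc Fr (fun ρ => φ (qS R0 Fr ρ))) ∧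
  (∀ P ∈ Fr.S, ∀ φ : ℕ → ℝ, SLoc Fr (fun ρ => φ (R0.rex P (SD.H0.comap ρ)))) ∧
  (qS R0 Fr '' Hd R0 X).Finite

/-- F7: decomposition -/
def FDec : Prop := (∀ ρ ∈ Hd R0 X, ∃ g, (Qof X).Gd g ∧ ρ ∈ Hg R0 X j g) ∧
  (∀ g ρ, ρ ∈ Hg R0 X j g → ρ ∈ Hd R0 X) ∧
  ∀ g g' ρ, ρ ∈ Hg R0 X j g → ρ ∈ Hg R0 X j g' → g = g'

/-- F8: the coefficients in terms of any homomorphism attached to the class -/
def FTau : Prop := X.M = ∅ → ∀ w : (Gm k →* SD) → ℝ, SLoc Fr w → ∀ g, (Qof X).Gd g →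
  ∀ γ ∈ (Qof X).B g, ∀ ρ ∈ Hc R0 X j γ, ∀ b : Fr.sys.T, ∃ x ⊆ (Qof X).shd g,
    tauW R0 X j w b γ = ((sg (b ⬝ᵥ Fr.sys.tys x) : ℤ) : ℝ) * twi (Fr := Fr) w b ρ

end

/-- F9: the uniform bound -/
def FUni {k : Type} [Field k] [NumberField k] (R0 : Rx k) (Fr : Frm k) : Prop :=
  ∀ (R : Finset Fr.sys.P) (C K : ℝ), 0 ≤ C → 0 ≤ K →
    (∀ (L : Type) (_ : Field L) (_ : NumberField L) (_ : Algebra k L) (X : HX Fr L),
      X.M = R → X.δ = 1 → (gdN (Qof X)).Lin K ∧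
        ∀ y : ℝ, 0 < y → TT (Qof X) (fun _ => 1) (fun _ => 1) y ≤ C * y) →
    ∀ x : ℝ, 0 < x →
      (Summable fun ρ : HsR R0 Fr R => Real.exp (-((dS ρ.1 : ℝ) ^ (1 / 3 : ℝ) / x))) ∧
      ∑' ρ : HsR R0 Fr R, Real.exp (-((dS ρ.1 : ℝ) ^ (1 / 3 : ℝ) / x)) ≤
        2 * 4 ^ (Fr.sys.m + R.card) * C * x / (Fr.sys.nm R : ℝ) ^ (4 / 3 : ℝ)

end Pool.Agent.SK
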