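import Pool.Agent.SK.AStm
import Pool.Agent.H32.MQ.HMain

/-!
# Malle's conjecture for 8T8 over number fields, row A17: the classes of the tame generators
-/

set_option autoImplicit false

open scoped BigOperators
open NumberField IsDedekindDomain

namespace Pool.Agent.SK

open Pool.Agent.H98.MF
open Pool.Agent.H32.MA (SD)
open Pool.Agent.H32.MQ (HX h_ord h_ordN hb_two)

private theorem typ_even {n : ℤ} (h : Even n) : ((n : ℤ) : ZMod 2) = 0 := by
  rw [ZMod.intCast_zmod_eq_zero_iff_dvd]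
  exact_mod_cast h.two_dvd

private theorem typ_odd {n : ℤ} (h : Odd n) : ((n : ℤ) : ZMod 2) = 1 := by
  obtain ⟨k, rfl⟩ := h
  push_cast
  have h4 : (2 : ZMod 2) = 0 := rfl
  rw [h4, zero_mul, zero_add]

theorem aTyp {k : Type} [Field k] [NumberField k] {Fr : Frm k} {L : Type} [Field L]
    [NumberField L] [Algebra k L] (R0 : Rx k) (X : HX Fr L) (j : L →ₐ[k] Om k)
    (hU : AUnr (qk X) j R0) (hA : AAb (qk X) j) (hM : AFMul (qk X) j) (hR : AFRat (qk X) j) :
    ATyp R0 X j := by
  intro p hp b ρ hcl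
  set P := Fr.pl p with hP
  set τ := R0.tau P with hτ
  have h2 : ord P (2 : k) = 0 := hb_two Fr p
  have hev : Even (ord P ((qk X).a : k)) := X.unr p hp
  have hchi : chi ((qk X).a : k) τ = 0 := by
    rw [hτ, R0.chi P h2, typ_even hev]
  have hpd : (ρ τ).pd = 0 := by rw [hcl.pd, hchi]
  have ha : ∀ P', Over P P' → (ρ τ).a =
      ((ord P' (b : L) + ord (cj X.sig P') (b : L) : ℤ) : ZMod 2) := by
    intro P' hP'
    rw [hA b ρ hcl τ, hchi, zero_add, hτ, R0.chi P h2]
    congr 1
    exact h_ordN X p P' hp hP' b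
  obtain ⟨P0, hP0⟩ := exists_over (L := L) P
  refine ⟨fun hty => ?_, fun P' hP' h1 h3 => ?_, fun hty => ?_⟩
  · rw [← SD.central_iff]
    refine ⟨hpd, ?_, ?_⟩
    · rw [ha P0 hP0]
      exact typ_even ((hty P0 hP0).add (hty _ (hP0.cj X.sig)))
    · exact hU P h2 hev b (fun σ => (ρ σ).pf) hcl.pf hty
  · rw [SD.clC_iff]
    refine ⟨hpd, ?_⟩
    rw [ha P' hP']
    exact typ_odd (h1.add_even h3)
  · rw [SD.clT_iff]
    refine ⟨hpd, ?_, ?_⟩
    · rw [ha P0 hP0]
      exact typ_even ((hty P0 hP0).add_odd (hty _ (hP0.cj X.sig)))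
    · have h5 := hU P h2 hev _ _ (hM b _ _ _ hcl.pf (hR (Fr.pi p))) (by
        intro P' hP'
        have h6 : ((b * Units.map (algebraMap k L : k →* L) (Fr.pi p) : Lˣ) : L) =
            (b : L) * algebraMap k L (Fr.pi p : k) := rfl
        have h7 : ord P' (algebraMap k L (Fr.pi p : k)) = 1 := by
          rw [(h_ord X p P' hp hP').2]
          exact Fr.pi_self p
        rw [h6, Pool.Agent.H98.MF.B.ord_mul _ b.ne_zero
          (by rw [Ne, map_eq_zero]; exact (Fr.pi p).ne_zero), h7]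
        exact (hty P' hP').add_one)
      have h8 : chi ((Fr.pi p : kˣ) : k) τ = 1 := by
        rw [hτ, R0.chi P h2, hP, Fr.pi_self]
        rfl
      have h9 : (ρ τ).pf + chi ((Fr.pi p : kˣ) : k) τ = 0 := h5
      rw [h8] at h9
      generalize (ρ τ).pf = x at h9
      revert x
      decide

end Pool.Agent.SK
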