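import Pool.Agent.SK.Cheb0
import Mathlib.NumberTheory.Harmonic.Bounds

/-!
# Malle's conjecture for 8T8 over number fields: Chebyshev's bound for a system of primes
-/

set_option autoImplicit false

open scoped BigOperators

namespace Pool.Agent.SK

open Pool.Agent.H98.MF

theorem chb_tel {a : ℕ} (M : ℕ) (h : a ≤ M) :
    ∑ n ∈ Finset.Ico a M, (1 / (n : ℝ) - 1 / ((n : ℝ) + 1)) = 1 / (a : ℝ) - 1 / (M : ℝ) := by
  induction M, h using Nat.le_induction with
  | base => simp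
  | succ M h ih =>
    rw [Finset.sum_Ico_succ_top h, ih]
    push_cast
    ring

section

variable (S : Pre)

/-- partial summation -/
theorem chb_abel {R : ℝ} (hR : 1 ≤ R) {c : ℝ} (hc : 0 ≤ c)
    (hcb : ∀ t : ℝ, 1 ≤ t → c * t ≤ ((S.bx t).card : ℝ)) :
    c / 2 * Real.log R ≤ chbU S R := by
  obtain ⟨M, hM⟩ : ∃ M : ℕ, M = ⌊R⌋₊ := ⟨_, rfl⟩
  have hMR : (M : ℝ) ≤ R := by rw [hM]; exact Nat.floor_le (by linarith)
  have hRM : R < M + 1 := by rw [hM]; exact Nat.lt_floor_add_one R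
  have ha : ∀ n ∈ Finset.Ico 1 (M + 1), (0 : ℝ) ≤ 1 / (n : ℝ) - 1 / ((n : ℝ) + 1) := by
    intro n hn
    rw [Finset.mem_Ico] at hn
    have h1 : (1 : ℝ) ≤ n := by exact_mod_cast hn.1
    rw [sub_nonneg]
    exact one_div_le_one_div_of_le (by linarith) (by linarith)
  -- the upper bound
  have h1 : ∑ n ∈ Finset.Ico 1 (M + 1), ((S.bx n).card : ℝ) *
      (1 / (n : ℝ) - 1 / ((n : ℝ) + 1)) ≤ chbU S R := by
    have h2 : ∀ n ∈ Finset.Ico 1 (M + 1), ((S.bx n).card : ℝ) *
        (1 / (n : ℝ) - 1 / ((n : ℝ) + 1)) = ∑ c ∈ S.bx R,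
          if S.nm c ≤ n then (1 / (n : ℝ) - 1 / ((n : ℝ) + 1)) else 0 := by
      intro n hn
      rw [Finset.mem_Ico] at hn
      have h3 : S.bx n = (S.bx R).filter fun c => S.nm c ≤ n := by
        ext c
        rw [Finset.mem_filter, S.mem_bx, S.mem_bx]
        constructor
        · intro h
          refine ⟨h.trans ?_, by exact_mod_cast h⟩
          have : (n : ℝ) ≤ M := by exact_mod_cast Nat.lt_succ_iff.1 hn.2
          linarith
        · rintro ⟨-, h⟩
          exact_mod_cast h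
      rw [← Finset.sum_filter, Finset.sum_const, nsmul_eq_mul, ← h3]
    rw [Finset.sum_congr rfl h2, Finset.sum_comm]
    unfold chbU
    refine Finset.sum_le_sum fun c hcc => ?_
    rw [S.mem_bx] at hcc
    have h3 : S.nm c ≤ M := by rw [hM]; exact Nat.le_floor hcc
    have h4 : (Finset.Ico 1 (M + 1)).filter (fun n => S.nm c ≤ n) =
        Finset.Ico (S.nm c) (M + 1) := by
      ext n
      rw [Finset.mem_filter, Finset.mem_Ico, Finset.mem_Ico]
      have := S.one_le_nm c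
      constructor
      · rintro ⟨⟨_, h6⟩, h7⟩
        exact ⟨h7, h6⟩
      · rintro ⟨h6, h7⟩
        exact ⟨⟨this.trans h6, h7⟩, h6⟩
    rw [← Finset.sum_filter, h4, chb_tel (M + 1) (by omega)]
    have : (0 : ℝ) ≤ 1 / ((M + 1 : ℕ) : ℝ) := by positivity
    linarith
  -- the lower bound
  have h2 : c / 2 * ∑ n ∈ Finset.Ico 1 (M + 1), (1 / (n : ℝ)) ≤
      ∑ n ∈ Finset.Ico 1 (M + 1), ((S.bx n).card : ℝ) *
        (1 / (n : ℝ) - 1 / ((n : ℝ) + 1)) := by
    rw [Finset.mul_sum]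
    refine Finset.sum_le_sum fun n hn => ?_
    have h3 := ha n hn
    rw [Finset.mem_Ico] at hn
    have h4 : (1 : ℝ) ≤ n := by exact_mod_cast hn.1
    have h5 := mul_le_mul_of_nonneg_right (hcb n h4) h3
    refine le_trans ?_ h5
    have h6 : c * n * (1 / (n : ℝ) - 1 / ((n : ℝ) + 1)) = c * (1 / ((n : ℝ) + 1)) := by
      field_simp
      ring
    rw [h6, div_mul_eq_mul_div, mul_div_assoc]
    refine mul_le_mul_of_nonneg_left ?_ hc
    rw [div_div, div_le_div_iff₀ (by linarith) (by linarith)]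
    linarith
  have h3 : Real.log R ≤ ∑ n ∈ Finset.Ico 1 (M + 1), (1 / (n : ℝ)) := by
    have h4 := log_add_one_le_harmonic M
    have h5 : ((harmonic M : ℚ) : ℝ) = ∑ n ∈ Finset.Ico 1 (M + 1), (1 / (n : ℝ)) := by
      rw [harmonic_eq_sum_Icc]
      push_cast
      refine Finset.sum_congr ?_ fun n _ => by rw [one_div]
      ext n
      rw [Finset.mem_Icc, Finset.mem_Ico]
      omega
    rw [← h5]
    refine le_trans (Real.log_le_log (by linarith) ?_) h4
    push_cast
    exact hRM.le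
  calc c / 2 * Real.log R ≤ c / 2 * ∑ n ∈ Finset.Ico 1 (M + 1), (1 / (n : ℝ)) :=
        mul_le_mul_of_nonneg_left h3 (by linarith)
    _ ≤ _ := h2.trans h1

open Classical in
/-- the number of primes larger than `R` -/
theorem chb_count {R X : ℝ} (hR : 1 ≤ R) :
    (((S.pr X).filter fun p => R < S.N p).card : ℝ) ≤ ∑ f ∈ S.idl X, chbs S R f ^ 2 := by
  have hinj : Set.InjOn (fun p : S.P => Finsupp.single p 1)
      (((S.pr X).filter fun p => R < S.N p : Finset S.P) : Set S.P) := by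
    intro p _ q _ h
    exact Finsupp.single_left_injective one_ne_zero h
  have h1 : (((S.pr X).filter fun p => R < S.N p).card : ℝ) =
      ∑ f ∈ ((S.pr X).filter fun p => R < S.N p).image (fun p : S.P => Finsupp.single p 1),
        chbs S R f ^ 2 := by
    rw [Finset.sum_image hinj]
    have h2 : ∀ p ∈ (S.pr X).filter fun p => R < S.N p,
        chbs S R (Finsupp.single p 1) ^ 2 = 1 := by
      intro p hp
      rw [chb_one S R hR (Finset.mem_filter.1 hp).2, one_pow]
    rw [Finset.sum_congr rfl h2, Finset.sum_const, nsmul_eq_mul, mul_one]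
  rw [h1]
  refine Finset.sum_le_sum_of_subset_of_nonneg ?_ fun f _ _ => sq_nonneg _
  intro f hf
  obtain ⟨p, hp, rfl⟩ := Finset.mem_image.1 hf
  obtain ⟨hp1, hp2⟩ := Finset.mem_filter.1 hp
  have hX : 0 ≤ X := by
    by_contra hX
    rw [not_le] at hX
    unfold Pre.pr at hp1
    rw [Set.Finite.mem_toFinset] at hp1
    have h3 : S.N p ≤ ⌊X⌋₊ := hp1
    rw [Nat.floor_of_nonpos hX.le] at h3
    have := S.two_le p
    omega
  rw [S.mem_pr hX] at hp1
  rw [S.mem_idl, S.nf_single, pow_one]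
  exact hp1

end

/-- the number of sets of primes is at least linear -/
theorem chb_low (F : Sys) : ∃ c : ℝ, 0 < c ∧ ∀ t : ℝ, 1 ≤ t → c * t ≤ ((F.bx t).card : ℝ) := by
  obtain ⟨κ, C, hκ, h⟩ := cnt_sqf F
  have hdl := F.dl_pos
  obtain ⟨t0, ht0⟩ : ∃ t0 : ℝ, t0 = max 1 ((2 * |C| / κ) ^ (1 / F.dl)) := ⟨_, rfl⟩
  have ht01 : 1 ≤ t0 := by rw [ht0]; exact le_max_left _ _
  refine ⟨min (κ / 2) (1 / t0), lt_min (by linarith) (by positivity), fun t ht => ?_⟩
  rcases le_or_gt t0 t with h1 | h1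
  · have h2 := h ∅ t ht
    rw [Finset.prod_empty, mul_one, Finset.filter_true_of_mem
      fun x _ => Finset.disjoint_empty_right x] at h2
    have h3 := (abs_le.1 h2).1
    have h4 : F.hs ∅ = 1 := by
      unfold Pre.hs
      rw [Finset.prod_empty]
    rw [h4, mul_one] at h3
    have h5 : C * t ^ (1 - F.dl) ≤ κ / 2 * t := by
      have h6 : (2 * |C| / κ) ≤ t ^ F.dl := by
        have h7 : (2 * |C| / κ) ^ (1 / F.dl) ≤ t := (le_max_right _ _).trans (ht0 ▸ h1)
        have h8 := Real.rpow_le_rpow (by positivity) h7 hdl.le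
        rwa [← Real.rpow_mul (by positivity), one_div, inv_mul_cancel₀ hdl.ne',
          Real.rpow_one] at h8
      have h7 : t ^ (1 - F.dl) * t ^ F.dl = t := by
        rw [← Real.rpow_add (by linarith), sub_add_cancel, Real.rpow_one]
      have h8 : 0 ≤ t ^ (1 - F.dl) := by positivity
      rw [div_le_iff₀ hκ] at h6
      calc C * t ^ (1 - F.dl) ≤ |C| * t ^ (1 - F.dl) :=
            mul_le_mul_of_nonneg_right (le_abs_self C) h8
        _ ≤ (t ^ F.dl * κ / 2) * t ^ (1 - F.dl) := by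
            refine mul_le_mul_of_nonneg_right ?_ h8
            linarith
        _ = κ / 2 * (t ^ (1 - F.dl) * t ^ F.dl) := by ring
        _ = κ / 2 * t := by rw [h7]
    have h6 : min (κ / 2) (1 / t0) * t ≤ κ / 2 * t :=
      mul_le_mul_of_nonneg_right (min_le_left _ _) (by linarith)
    linarith
  · have h2 : (1 : ℝ) ≤ ((F.bx t).card : ℝ) := by
      exact_mod_cast Finset.card_pos.2 ⟨∅, F.empty_mem_bx ht⟩
    have h3 : min (κ / 2) (1 / t0) * t ≤ 1 / t0 * t :=
      mul_le_mul_of_nonneg_right (min_le_right _ _) (by linarith)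
    have h4 : 1 / t0 * t ≤ 1 := by
      rw [one_div, inv_mul_le_iff₀ (by linarith), mul_one]
      exact h1.le
    linarith

/-- the number of ideals, with an error term in a larger variable -/
theorem chb_idl (F : Sys) {t X : ℝ} (ht : 0 < t) (htX : t ≤ X) (hX : 1 ≤ X) :
    |((F.idl t).card : ℝ) - F.κ * t| ≤ max F.C F.κ * X ^ (1 - F.dl) := by
  have hd : 0 ≤ 1 - F.dl := by linarith [F.dl_le]
  have hX1 : 1 ≤ X ^ (1 - F.dl) := Real.one_le_rpow hX hd
  rcases le_or_gt 1 t with h1 | h1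
  · refine (F.cnt' t h1).trans (mul_le_mul (le_max_left _ _)
      (Real.rpow_le_rpow ht.le htX hd) (by positivity) (le_max_of_le_left F.C_nonneg))
  · rw [F.cop_idl_empty h1, Finset.card_empty, Nat.cast_zero, zero_sub, abs_neg,
      abs_of_nonneg (mul_nonneg F.κ_pos.le ht.le)]
    calc F.κ * t ≤ F.κ * 1 := mul_le_mul_of_nonneg_left h1.le F.κ_pos.le
      _ ≤ max F.C F.κ * X ^ (1 - F.dl) :=
        mul_le_mul (le_max_right _ _) hX1 (by norm_num) (le_max_of_le_left F.C_nonneg)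

/-- Selberg's sieve -/
theorem chb_sieve (F : Sys) {R X : ℝ} (hR : 1 ≤ R) (hX : 1 ≤ X) :
    ∑ f ∈ F.idl X, chbs F.toPre R f ^ 2 ≤ F.κ * X / chbU F.toPre R +
      max F.C F.κ * X ^ (1 - F.dl) * (((F.bx R).card : ℝ) * R) ^ 2 := by
  have hC0 : 0 ≤ max F.C F.κ := le_max_of_le_left F.C_nonneg
  have hX0 : 0 ≤ X ^ (1 - F.dl) := by positivity
  rw [chb_quad]
  have h1 : ∀ d ∈ F.bx R, ∀ e ∈ F.bx R, chbw F.toPre R d * chbw F.toPre R e *
      ((F.idl (X / F.nm (d ∪ e))).card : ℝ) ≤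
      F.κ * X * (chbw F.toPre R d * chbw F.toPre R e * (1 / (F.nm (d ∪ e) : ℝ))) +
        max F.C F.κ * X ^ (1 - F.dl) * (R * R) := by
    intro d hd e he
    rw [F.mem_bx] at hd he
    have n1 := F.nm_posr (d ∪ e)
    have n2 := F.one_le_nmr (d ∪ e)
    have h2 := chb_idl F (t := X / F.nm (d ∪ e)) (by positivity)
      (div_le_self (by linarith) n2) hX
    obtain ⟨E, hE⟩ : ∃ E : ℝ, E = ((F.idl (X / F.nm (d ∪ e))).card : ℝ) -
      F.κ * (X / F.nm (d ∪ e)) := ⟨_, rfl⟩
    have h3 : ((F.idl (X / F.nm (d ∪ e))).card : ℝ) = F.κ * (X / F.nm (d ∪ e)) + E := by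
      rw [hE]; ring
    rw [← hE] at h2
    rw [h3]
    have h4 : chbw F.toPre R d * chbw F.toPre R e * E ≤
        max F.C F.κ * X ^ (1 - F.dl) * (R * R) := by
      refine (le_abs_self _).trans ?_
      rw [abs_mul, abs_mul, mul_comm (max F.C F.κ * X ^ (1 - F.dl))]
      refine mul_le_mul (mul_le_mul ((chb_wle F.toPre R hR d).trans hd)
        ((chb_wle F.toPre R hR e).trans he) (abs_nonneg _) (by linarith)) h2 (abs_nonneg _)
        (by positivity)
    calc chbw F.toPre R d * chbw F.toPre R e * (F.κ * (X / F.nm (d ∪ e)) + E) =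
        F.κ * X * (chbw F.toPre R d * chbw F.toPre R e * (1 / (F.nm (d ∪ e) : ℝ))) +
          chbw F.toPre R d * chbw F.toPre R e * E := by ring
      _ ≤ _ := by linarith
  refine (Finset.sum_le_sum fun d hd => Finset.sum_le_sum fun e he => h1 d hd e he).trans ?_
  have h2 : ∑ d ∈ F.bx R, ∑ e ∈ F.bx R,
      (F.κ * X * (chbw F.toPre R d * chbw F.toPre R e * (1 / (F.nm (d ∪ e) : ℝ))) +
        max F.C F.κ * X ^ (1 - F.dl) * (R * R)) =
      F.κ * X * (∑ d ∈ F.bx R, ∑ e ∈ F.bx R,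
        chbw F.toPre R d * chbw F.toPre R e * (1 / (F.nm (d ∪ e) : ℝ))) +
        max F.C F.κ * X ^ (1 - F.dl) * (((F.bx R).card : ℝ) * R) ^ 2 := by
    simp only [Finset.sum_add_distrib, Finset.sum_const, nsmul_eq_mul, ← Finset.mul_sum]
    ring
  rw [h2]
  have h3 := mul_le_mul_of_nonneg_left (chb_form F.toPre R hR)
    (mul_nonneg F.κ_pos.le (by linarith : (0 : ℝ) ≤ X))
  have h4 : F.κ * X * (1 / chbU F.toPre R) = F.κ * X / chbU F.toPre R := by ring
  rw [h4] at h3
  linarith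

/-- Chebyshev's bound for a system of primes -/
theorem chebSys (F : Sys) : ∃ C : ℝ, 0 ≤ C ∧ ∀ x : ℝ, 2 ≤ x →
    ((F.pr x).card : ℝ) ≤ C * x / Real.log x := by
  obtain ⟨c, hc, hcb⟩ := chb_low F
  obtain ⟨Cb, hCb⟩ := card_bx_le F
  have hCb0 : 0 ≤ Cb := by
    have h := hCb 1 le_rfl
    have h1 : (0 : ℝ) ≤ ((F.bx 1).card : ℝ) := Nat.cast_nonneg _
    linarith
  have hdl := F.dl_pos
  have hdl4 := F.dl_le
  have hC0 : 0 ≤ max F.C F.κ := le_max_of_le_left F.C_nonneg
  have hκ := F.κ_pos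
  refine ⟨2 * Cb + F.κ / (c / 2 * (F.dl / 8)) + max F.C F.κ * Cb ^ 2 * (2 / F.dl),
    by positivity, fun x hx => ?_⟩
  have hx0 : 0 < x := by linarith
  have hx1 : 1 ≤ x := by linarith
  have hlog : 0 < Real.log x := Real.log_pos (by linarith)
  obtain ⟨R, hRd⟩ : ∃ R : ℝ, R = x ^ (F.dl / 8) := ⟨_, rfl⟩
  have hR : 1 ≤ R := by rw [hRd]; exact Real.one_le_rpow hx1 (by positivity)
  have hlR : Real.log R = F.dl / 8 * Real.log x := by rw [hRd, Real.log_rpow hx0]
  -- splitting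
  have h1 : ((F.pr x).card : ℝ) ≤ ((F.bx R).card : ℝ) +
      (((F.pr x).filter fun p => R < F.N p).card : ℝ) := by
    have h2 : (F.pr x).card ≤ (F.pr R).card + ((F.pr x).filter fun p => R < F.N p).card := by
      rw [← Finset.card_filter_add_card_filter_not (s := F.pr x) fun p => R < F.N p]
      have h3 : ((F.pr x).filter fun p => ¬ R < F.N p).card ≤ (F.pr R).card := by
        refine Finset.card_le_card fun p hp => ?_
        rw [F.mem_pr (by linarith)]
        exact not_lt.1 (Finset.mem_filter.1 hp).2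
      omega
    have h3 : (F.pr R).card ≤ (F.bx R).card := a1_card_pr_le_bx F.toPre (by linarith)
    exact_mod_cast h2.trans (by omega)
  have h2 := chb_count F.toPre (X := x) hR
  have h3 := chb_sieve F hR hx1
  have h4 := chb_abel F.toPre hR hc.le hcb
  rw [hlR] at h4
  have hU : 0 < c / 2 * (F.dl / 8 * Real.log x) := by positivity
  have h5 : F.κ * x / chbU F.toPre R ≤ F.κ / (c / 2 * (F.dl / 8)) * x / Real.log x := by
    have h6 : F.κ * x / chbU F.toPre R ≤ F.κ * x / (c / 2 * (F.dl / 8 * Real.log x)) :=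
      div_le_div_of_nonneg_left (by positivity) hU h4
    refine h6.trans (le_of_eq ?_)
    field_simp
  have hbR := hCb R hR
  have h6 : max F.C F.κ * x ^ (1 - F.dl) * (((F.bx R).card : ℝ) * R) ^ 2 ≤
      max F.C F.κ * Cb ^ 2 * (2 / F.dl) * x / Real.log x := by
    have h7 : (((F.bx R).card : ℝ) * R) ^ 2 ≤ (Cb * R * R) ^ 2 :=
      pow_le_pow_left₀ (by positivity) (mul_le_mul_of_nonneg_right hbR (by linarith)) 2
    have h8 : (Cb * R * R) ^ 2 = Cb ^ 2 * x ^ (F.dl / 2) := by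
      have h9 : R ^ 4 = x ^ (F.dl / 2) := by
        rw [hRd, ← Real.rpow_natCast, ← Real.rpow_mul hx0.le]
        congr 1
        push_cast
        ring
      rw [← h9]
      ring
    rw [h8] at h7
    have h9 : x ^ (1 - F.dl) * x ^ (F.dl / 2) * Real.log x ≤ 2 / F.dl * x := by
      have h10 := Real.log_le_rpow_div hx0.le (ε := F.dl / 2) (by positivity)
      have h11 : x ^ (1 - F.dl) * x ^ (F.dl / 2) * x ^ (F.dl / 2) = x := by
        rw [← Real.rpow_add hx0, ← Real.rpow_add hx0]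
        have : 1 - F.dl + F.dl / 2 + F.dl / 2 = 1 := by ring
        rw [this, Real.rpow_one]
      calc x ^ (1 - F.dl) * x ^ (F.dl / 2) * Real.log x ≤
          x ^ (1 - F.dl) * x ^ (F.dl / 2) * (x ^ (F.dl / 2) / (F.dl / 2)) :=
            mul_le_mul_of_nonneg_left h10 (by positivity)
        _ = (x ^ (1 - F.dl) * x ^ (F.dl / 2) * x ^ (F.dl / 2)) * (2 / F.dl) := by
            field_simp
        _ = 2 / F.dl * x := by rw [h11]; ring
    rw [le_div_iff₀ hlog]
    calc max F.C F.κ * x ^ (1 - F.dl) * (((F.bx R).card : ℝ) * R) ^ 2 * Real.log x ≤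
        max F.C F.κ * x ^ (1 - F.dl) * (Cb ^ 2 * x ^ (F.dl / 2)) * Real.log x := by
          refine mul_le_mul_of_nonneg_right ?_ hlog.le
          exact mul_le_mul_of_nonneg_left h7 (by positivity)
      _ = max F.C F.κ * Cb ^ 2 * (x ^ (1 - F.dl) * x ^ (F.dl / 2) * Real.log x) := by ring
      _ ≤ max F.C F.κ * Cb ^ 2 * (2 / F.dl * x) :=
          mul_le_mul_of_nonneg_left h9 (by positivity)
      _ = max F.C F.κ * Cb ^ 2 * (2 / F.dl) * x := by ring
  have h7 : ((F.bx R).card : ℝ) ≤ 2 * Cb * x / Real.log x := by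
    rw [le_div_iff₀ hlog]
    have h8 : R ≤ x ^ (1 / 2 : ℝ) := by
      rw [hRd]
      exact Real.rpow_le_rpow_of_exponent_le hx1 (by linarith)
    have h9 := Real.log_le_rpow_div hx0.le (ε := 1 / 2) (by norm_num)
    have h10 : x ^ (1 / 2 : ℝ) * x ^ (1 / 2 : ℝ) = x := by
      rw [← Real.rpow_add hx0]
      norm_num
    calc ((F.bx R).card : ℝ) * Real.log x ≤ (Cb * x ^ (1 / 2 : ℝ)) *
        (x ^ (1 / 2 : ℝ) / (1 / 2)) := by
          refine mul_le_mul (hbR.trans (mul_le_mul_of_nonneg_left h8 hCb0)) h9 hlog.le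
            (by positivity)
      _ = 2 * Cb * (x ^ (1 / 2 : ℝ) * x ^ (1 / 2 : ℝ)) := by ring
      _ = 2 * Cb * x := by rw [h10]
  have h8 : (2 * Cb + F.κ / (c / 2 * (F.dl / 8)) + max F.C F.κ * Cb ^ 2 * (2 / F.dl)) * x /
      Real.log x = 2 * Cb * x / Real.log x + F.κ / (c / 2 * (F.dl / 8)) * x / Real.log x +
        max F.C F.κ * Cb ^ 2 * (2 / F.dl) * x / Real.log x := by ring
  rw [h8]
  linarith

/-- Chebyshev's bound with logarithms -/
theorem chebLog (F : Sys) : ∃ C : ℝ, 0 ≤ C ∧ ∀ x : ℝ, 0 ≤ x →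
    ∑ p ∈ F.pr x, Real.log (F.N p) ≤ C * x := by
  obtain ⟨C, hC, h⟩ := chebSys F
  refine ⟨C, hC, fun x hx => ?_⟩
  rcases le_or_gt 2 x with h1 | h1
  · have hlog : 0 < Real.log x := Real.log_pos (by linarith)
    have h2 : ∑ p ∈ F.pr x, Real.log (F.N p) ≤ ∑ _p ∈ F.pr x, Real.log x := by
      refine Finset.sum_le_sum fun p hp => ?_
      rw [F.mem_pr hx] at hp
      have h3 : (2 : ℝ) ≤ F.N p := by exact_mod_cast F.two_le p
      exact Real.log_le_log (by linarith) hp
    rw [Finset.sum_const, nsmul_eq_mul] at h2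
    have h3 := h x h1
    rw [le_div_iff₀ hlog] at h3
    exact h2.trans h3
  · have h2 : F.pr x = ∅ := by
      rw [Finset.eq_empty_iff_forall_notMem]
      intro p hp
      rw [F.mem_pr hx] at hp
      have h3 : (2 : ℝ) ≤ F.N p := by exact_mod_cast F.two_le p
      linarith
    rw [h2, Finset.sum_empty]
    positivity

end Pool.Agent.SK
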