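import Pool.Agent.H98.MF.SCntSqf

/-!
# Malle's conjecture for 8T8 over number fields: Selberg's sieve for a system of primes
-/

set_option autoImplicit false

open scoped BigOperators

namespace Pool.Agent.SK

open Pool.Agent.H98.MF

section

variable (S : Pre)

/-- the ideals divisible by all primes of a set -/
theorem chb_div (D : Finset S.P) (X : ℝ) :
    ((S.idl X).filter fun f => D ⊆ f.support).card = (S.idl (X / S.nm D)).card := by
  refine Finset.card_nbij' (fun f => f - S.idf D) (fun f => f + S.idf D) ?_ ?_ ?_ ?_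
  · intro f hf
    rw [Finset.mem_coe, Finset.mem_filter, S.mem_idl] at hf
    have h1 : S.idf D ≤ f := by
      intro p
      rw [S.idf_apply]
      split_ifs with hp
      · exact Nat.one_le_iff_ne_zero.2 (Finsupp.mem_support_iff.1 (hf.2 hp))
      · exact Nat.zero_le _
    have h2 : f - S.idf D + S.idf D = f := tsub_add_cancel_of_le h1
    have h3 : S.nf (f - S.idf D + S.idf D) = S.nf (f - S.idf D) * S.nm D := by
      rw [S.nf_add, S.nf_idf]
    rw [h2] at h3
    rw [Finset.mem_coe, S.mem_idl, le_div_iff₀ (S.nm_posr D)]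
    have h4 := hf.1
    rw [h3] at h4
    exact_mod_cast h4
  · intro f hf
    rw [Finset.mem_coe, S.mem_idl, le_div_iff₀ (S.nm_posr D)] at hf
    rw [Finset.mem_coe, Finset.mem_filter, S.mem_idl, S.nf_add, S.nf_idf]
    refine ⟨by exact_mod_cast hf, fun p hp => ?_⟩
    rw [Finsupp.mem_support_iff, Finsupp.add_apply, S.idf_apply, if_pos hp]
    omega
  · intro f hf
    rw [Finset.mem_coe, Finset.mem_filter] at hf
    have h1 : S.idf D ≤ f := by
      intro p
      rw [S.idf_apply]
      split_ifs with hp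
      · exact Nat.one_le_iff_ne_zero.2 (Finsupp.mem_support_iff.1 (hf.2 hp))
      · exact Nat.zero_le _
    exact tsub_add_cancel_of_le h1
  · intro f _
    exact add_tsub_cancel_right f _

/-- the alternating sum over an interval of sets -/
theorem chb_mob (c e : Finset S.P) :
    ∑ d ∈ e.powerset.filter (fun d => c ⊆ d), (-1 : ℝ) ^ d.card =
      if e = c then (-1 : ℝ) ^ c.card else 0 := by
  by_cases hce : c ⊆ e
  · have h1 : ∑ d ∈ e.powerset.filter (fun d => c ⊆ d), (-1 : ℝ) ^ d.card =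
        ∑ t ∈ (e \ c).powerset, (-1 : ℝ) ^ c.card * (-1 : ℝ) ^ t.card := by
      refine Finset.sum_nbij' (fun d => d \ c) (fun t => c ∪ t) ?_ ?_ ?_ ?_ ?_
      · intro d hd
        rw [Finset.mem_filter, Finset.mem_powerset] at hd
        exact Finset.mem_powerset.2 (Finset.sdiff_subset_sdiff hd.1 (Finset.Subset.refl c))
      · intro t ht
        rw [Finset.mem_powerset] at ht
        rw [Finset.mem_filter, Finset.mem_powerset]
        exact ⟨Finset.union_subset hce (ht.trans Finset.sdiff_subset),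
          Finset.subset_union_left⟩
      · intro d hd
        rw [Finset.mem_filter] at hd
        exact Finset.union_sdiff_of_subset hd.2
      · intro t ht
        rw [Finset.mem_powerset] at ht
        rw [Finset.union_sdiff_left]
        exact Finset.sdiff_eq_self_of_disjoint
          (Finset.disjoint_of_subset_left ht Finset.sdiff_disjoint)
      · intro d hd
        rw [Finset.mem_filter] at hd
        have h2 := Finset.card_sdiff_add_card_eq_card hd.2
        rw [← pow_add]
        congr 1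
        omega
    rw [h1, ← Finset.mul_sum]
    have h2 : ∑ t ∈ (e \ c).powerset, (-1 : ℝ) ^ t.card = if e \ c = ∅ then 1 else 0 := by
      have h3 := Finset.sum_powerset_neg_one_pow_card (x := e \ c)
      have h4 : ∑ t ∈ (e \ c).powerset, (-1 : ℝ) ^ t.card =
          ((∑ t ∈ (e \ c).powerset, (-1 : ℤ) ^ t.card : ℤ) : ℝ) := by push_cast; rfl
      rw [h4, h3]
      split_ifs <;> simp
    rw [h2]
    by_cases h : e = c
    · rw [if_pos h, if_pos (by rw [h]; exact Finset.sdiff_self c), mul_one]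
    · rw [if_neg h, if_neg, mul_zero]
      intro h3
      exact h (Finset.Subset.antisymm (Finset.sdiff_eq_empty_iff_subset.1 h3) hce)
  · rw [if_neg (show ¬ e = c from fun h => hce (by rw [h]))]
    refine Finset.sum_eq_zero fun d hd => ?_
    rw [Finset.mem_filter, Finset.mem_powerset] at hd
    exact absurd (hd.2.trans hd.1) hce

variable (R : ℝ)

/-- the sum of the reciprocals of the norms -/
noncomputable def chbU : ℝ := ∑ c ∈ S.bx R, 1 / (S.nm c : ℝ)

/-- Selberg's weights -/
noncomputable def chbw (d : Finset S.P) : ℝ :=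
  (-1) ^ d.card * S.nm d * (∑ c ∈ (S.bx R).filter (fun c => d ⊆ c), 1 / (S.nm c : ℝ)) / chbU S R

theorem chb_U1 (hR : 1 ≤ R) : 1 ≤ chbU S R := by
  unfold chbU
  have h1 : (1 : ℝ) / (S.nm ∅ : ℝ) ≤ ∑ c ∈ S.bx R, 1 / (S.nm c : ℝ) :=
    Finset.single_le_sum (f := fun c => 1 / (S.nm c : ℝ)) (fun c _ => by positivity)
      (S.empty_mem_bx hR)
  rwa [S.nm_empty, Nat.cast_one, div_one] at h1

theorem chb_w0 (hR : 1 ≤ R) : chbw S R ∅ = 1 := by
  have h1 := chb_U1 S R hR
  unfold chbw
  rw [Finset.card_empty, pow_zero, one_mul, S.nm_empty, Nat.cast_one, one_mul,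
    Finset.filter_true_of_mem fun c _ => Finset.empty_subset c]
  exact div_self (by unfold chbU at h1; linarith)

theorem chb_wle (hR : 1 ≤ R) (d : Finset S.P) : |chbw S R d| ≤ S.nm d := by
  have h1 := chb_U1 S R hR
  have h0 : 0 < chbU S R := by linarith
  have h2 : ∑ c ∈ (S.bx R).filter (fun c => d ⊆ c), 1 / (S.nm c : ℝ) ≤ chbU S R :=
    Finset.sum_le_sum_of_subset_of_nonneg (Finset.filter_subset _ _)
      fun c _ _ => by positivity
  have h3 : 0 ≤ ∑ c ∈ (S.bx R).filter (fun c => d ⊆ c), 1 / (S.nm c : ℝ) :=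
    Finset.sum_nonneg fun c _ => by positivity
  have h4 := S.nm_posr d
  unfold chbw
  rw [abs_div, abs_mul, abs_mul, abs_pow, abs_neg, abs_one, one_pow, one_mul,
    abs_of_pos h4, abs_of_nonneg h3, abs_of_pos h0, div_le_iff₀ h0]
  exact mul_le_mul_of_nonneg_left h2 h4.le

/-- the sum of the weights of the divisors -/
noncomputable def chbs (f : S.P →₀ ℕ) : ℝ :=
  ∑ d ∈ S.bx R, if d ⊆ f.support then chbw S R d else 0

theorem chb_one (hR : 1 ≤ R) {p : S.P} (hp : R < S.N p) :
    chbs S R (Finsupp.single p 1) = 1 := by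
  unfold chbs
  rw [Finset.sum_eq_single_of_mem ∅ (S.empty_mem_bx hR)]
  · rw [if_pos (Finset.empty_subset _), chb_w0 S R hR]
  · intro d hd hne
    refine if_neg fun h => ?_
    rw [Finsupp.support_single p one_ne_zero, Finset.subset_singleton_iff] at h
    rcases h with h | h
    · exact hne h
    · rw [S.mem_bx, h] at hd
      unfold Pre.nm at hd
      rw [Finset.prod_singleton] at hd
      linarith

theorem chb_quad (X : ℝ) : ∑ f ∈ S.idl X, chbs S R f ^ 2 =
    ∑ d ∈ S.bx R, ∑ e ∈ S.bx R, chbw S R d * chbw S R e *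
      ((S.idl (X / S.nm (d ∪ e))).card : ℝ) := by
  have h1 : ∀ f : S.P →₀ ℕ, chbs S R f ^ 2 = ∑ d ∈ S.bx R, ∑ e ∈ S.bx R,
      (if d ∪ e ⊆ f.support then chbw S R d * chbw S R e else 0) := by
    intro f
    unfold chbs
    rw [pow_two, Finset.sum_mul_sum]
    refine Finset.sum_congr rfl fun d _ => Finset.sum_congr rfl fun e _ => ?_
    by_cases hd : d ⊆ f.support
    · by_cases he : e ⊆ f.support
      · rw [if_pos hd, if_pos he, if_pos (Finset.union_subset hd he)]
      · rw [if_neg he, if_neg fun h => he (Finset.union_subset_iff.1 h).2, mul_zero]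
    · rw [if_neg hd, if_neg fun h => hd (Finset.union_subset_iff.1 h).1, zero_mul]
  rw [Finset.sum_congr rfl fun f _ => h1 f, Finset.sum_comm]
  refine Finset.sum_congr rfl fun d _ => ?_
  rw [Finset.sum_comm]
  refine Finset.sum_congr rfl fun e _ => ?_
  rw [← Finset.sum_filter, Finset.sum_const, nsmul_eq_mul, chb_div, mul_comm]

/-- the multiplicative function `∏ (N p - 1)` -/
noncomputable def chbp (c : Finset S.P) : ℝ := ∏ p ∈ c, ((S.N p : ℝ) - 1)

theorem chb_p0 (c : Finset S.P) : 0 ≤ chbp S c :=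
  Finset.prod_nonneg fun p _ => by
    have h : (2 : ℝ) ≤ S.N p := by exact_mod_cast S.two_le p
    linarith

theorem chb_ple (c : Finset S.P) : chbp S c ≤ S.nm c := by
  unfold chbp Pre.nm
  push_cast
  refine Finset.prod_le_prod (fun p _ => ?_) fun p _ => ?_
  · have h : (2 : ℝ) ≤ S.N p := by exact_mod_cast S.two_le p
    linarith
  · linarith

theorem chb_psum (x : Finset S.P) : (S.nm x : ℝ) = ∑ c ∈ x.powerset, chbp S c := by
  unfold chbp Pre.nm
  rw [← Finset.prod_one_add]
  push_cast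
  refine Finset.prod_congr rfl fun p _ => ?_
  ring

theorem chb_T (hR : 1 ≤ R) {c : Finset S.P} (hc : c ∈ S.bx R) :
    ∑ d ∈ S.bx R, (if c ⊆ d then chbw S R d / S.nm d else 0) =
      (-1) ^ c.card * (1 / S.nm c) / chbU S R := by
  have h0 := chb_U1 S R hR
  have h1 : ∀ d : Finset S.P, chbw S R d / S.nm d =
      ∑ e ∈ S.bx R, if d ⊆ e then (-1) ^ d.card * (1 / (S.nm e : ℝ)) / chbU S R else 0 := by
    intro d
    have h2 := S.nm_posr d
    rw [← Finset.sum_filter, ← Finset.sum_div, ← Finset.mul_sum]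
    unfold chbw
    field_simp
  have h2 : ∀ d : Finset S.P, (if c ⊆ d then chbw S R d / S.nm d else 0) =
      ∑ e ∈ S.bx R, if c ⊆ d ∧ d ⊆ e then (-1) ^ d.card * (1 / (S.nm e : ℝ)) / chbU S R
        else 0 := by
    intro d
    split_ifs with hcd
    · rw [h1]
      refine Finset.sum_congr rfl fun e _ => ?_
      by_cases hde : d ⊆ e
      · rw [if_pos hde, if_pos ⟨hcd, hde⟩]
      · rw [if_neg hde, if_neg fun h => hde h.2]
    · exact (Finset.sum_eq_zero fun e _ => if_neg fun h => hcd h.1).symm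
  rw [Finset.sum_congr rfl fun d _ => h2 d, Finset.sum_comm]
  have h3 : ∀ e ∈ S.bx R, ∑ d ∈ S.bx R, (if c ⊆ d ∧ d ⊆ e then
      (-1) ^ d.card * (1 / (S.nm e : ℝ)) / chbU S R else 0) =
      if e = c then (-1) ^ c.card * (1 / (S.nm e : ℝ)) / chbU S R else 0 := by
    intro e he
    have h4 : (S.bx R).filter (fun d => c ⊆ d ∧ d ⊆ e) =
        e.powerset.filter (fun d => c ⊆ d) := by
      ext d
      rw [Finset.mem_filter, Finset.mem_filter, Finset.mem_powerset]
      constructor
      · rintro ⟨-, h5, h6⟩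
        exact ⟨h6, h5⟩
      · rintro ⟨h6, h5⟩
        refine ⟨?_, h5, h6⟩
        rw [S.mem_bx] at he ⊢
        exact (by exact_mod_cast S.nm_mono h6 : (S.nm d : ℝ) ≤ S.nm e).trans he
    rw [← Finset.sum_filter, h4]
    have h5 : ∑ d ∈ e.powerset.filter (fun d => c ⊆ d),
        (-1 : ℝ) ^ d.card * (1 / (S.nm e : ℝ)) / chbU S R =
        (∑ d ∈ e.powerset.filter (fun d => c ⊆ d), (-1 : ℝ) ^ d.card) *
          (1 / (S.nm e : ℝ)) / chbU S R := by
      rw [Finset.sum_mul, Finset.sum_div]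
    rw [h5, chb_mob]
    split_ifs
    · rfl
    · rw [zero_mul, zero_div]
  rw [Finset.sum_congr rfl h3, Finset.sum_ite_eq' (S.bx R) c, if_pos hc]

/-- the quadratic form of Selberg's weights -/
theorem chb_form (hR : 1 ≤ R) : ∑ d ∈ S.bx R, ∑ e ∈ S.bx R,
    chbw S R d * chbw S R e * (1 / (S.nm (d ∪ e) : ℝ)) ≤ 1 / chbU S R := by
  have h0 := chb_U1 S R hR
  have h00 : 0 < chbU S R := by linarith
  have h1 : ∀ d ∈ S.bx R, ∀ e : Finset S.P, chbw S R d * chbw S R e *
      (1 / (S.nm (d ∪ e) : ℝ)) = ∑ c ∈ S.bx R, chbp S c *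
        ((if c ⊆ d then chbw S R d / S.nm d else 0) *
          (if c ⊆ e then chbw S R e / S.nm e else 0)) := by
    intro d hd e
    have h2 : (S.nm (d ∪ e) : ℝ) * S.nm (d ∩ e) = S.nm d * S.nm e := by
      have h3 := Finset.prod_union_inter (f := S.N) (s₁ := d) (s₂ := e)
      exact_mod_cast h3
    have h3 : (1 / (S.nm (d ∪ e) : ℝ)) = S.nm (d ∩ e) / (S.nm d * S.nm e) := by
      have n1 := S.nm_posr (d ∪ e)
      have n2 := S.nm_posr d
      have n3 := S.nm_posr e
      rw [div_eq_div_iff n1.ne' (by positivity), one_mul, ← h2]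
      ring
    have h4 : (d ∩ e).powerset = (S.bx R).filter fun c => c ⊆ d ∧ c ⊆ e := by
      ext c
      rw [Finset.mem_powerset, Finset.subset_inter_iff, Finset.mem_filter]
      refine ⟨fun h => ⟨?_, h⟩, fun h => h.2⟩
      rw [S.mem_bx] at hd ⊢
      exact (by exact_mod_cast S.nm_mono h.1 : (S.nm c : ℝ) ≤ S.nm d).trans hd
    rw [h3, chb_psum S (d ∩ e), h4, Finset.sum_filter, Finset.sum_div, Finset.mul_sum]
    refine Finset.sum_congr rfl fun c _ => ?_
    have n2 := S.nm_posr d
    have n3 := S.nm_posr e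
    by_cases hcd : c ⊆ d
    · by_cases hce : c ⊆ e
      · rw [if_pos ⟨hcd, hce⟩, if_pos hcd, if_pos hce]
        field_simp
      · rw [if_neg fun h => hce h.2, if_neg hce]
        ring
    · rw [if_neg fun h => hcd h.1, if_neg hcd]
      ring
  have h2 : ∑ d ∈ S.bx R, ∑ e ∈ S.bx R, chbw S R d * chbw S R e *
      (1 / (S.nm (d ∪ e) : ℝ)) = ∑ c ∈ S.bx R, chbp S c *
        ((∑ d ∈ S.bx R, (if c ⊆ d then chbw S R d / S.nm d else 0)) *
          ∑ e ∈ S.bx R, (if c ⊆ e then chbw S R e / S.nm e else 0)) := by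
    rw [Finset.sum_congr rfl fun d hd => Finset.sum_congr rfl fun e _ => h1 d hd e]
    rw [Finset.sum_congr rfl fun d _ => Finset.sum_comm, Finset.sum_comm]
    refine Finset.sum_congr rfl fun c _ => ?_
    rw [Finset.sum_mul_sum, Finset.mul_sum]
    refine Finset.sum_congr rfl fun d _ => ?_
    rw [Finset.mul_sum]
  rw [h2]
  have h3 : ∀ c ∈ S.bx R, chbp S c *
        ((∑ d ∈ S.bx R, (if c ⊆ d then chbw S R d / S.nm d else 0)) *
          ∑ e ∈ S.bx R, (if c ⊆ e then chbw S R e / S.nm e else 0)) ≤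
      (1 / (S.nm c : ℝ)) / chbU S R ^ 2 := by
    intro c hc
    rw [chb_T S R hR hc]
    have n1 := S.nm_posr c
    have h4 : ((-1 : ℝ) ^ c.card) * (-1) ^ c.card = 1 := by
      rw [← pow_add, ← two_mul, pow_mul]
      norm_num
    have h5 : (-1 : ℝ) ^ c.card * (1 / S.nm c) / chbU S R *
        ((-1) ^ c.card * (1 / S.nm c) / chbU S R) =
        (1 / (S.nm c : ℝ)) * (1 / S.nm c) / chbU S R ^ 2 := by
      calc (-1 : ℝ) ^ c.card * (1 / S.nm c) / chbU S R *
          ((-1) ^ c.card * (1 / S.nm c) / chbU S R) =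
          ((-1 : ℝ) ^ c.card * (-1) ^ c.card) *
            ((1 / (S.nm c : ℝ)) * (1 / S.nm c) / chbU S R ^ 2) := by
            rw [pow_two]
            field_simp
        _ = _ := by rw [h4, one_mul]
    rw [h5]
    have h6 := chb_ple S c
    have h7 : chbp S c * ((1 / (S.nm c : ℝ)) * (1 / S.nm c) / chbU S R ^ 2) ≤
        S.nm c * ((1 / (S.nm c : ℝ)) * (1 / S.nm c) / chbU S R ^ 2) :=
      mul_le_mul_of_nonneg_right h6 (by positivity)
    refine h7.trans (le_of_eq ?_)
    field_simp
  refine (Finset.sum_le_sum h3).trans (le_of_eq ?_)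
  rw [← Finset.sum_div]
  show chbU S R / chbU S R ^ 2 = 1 / chbU S R
  rw [pow_two]
  field_simp

end

end Pool.Agent.SK
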