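import Pool.Agent.SK.FDefs
import Pool.Agent.H98.MF.SBox
import Pool.Agent.H98.MF.SBox0

/-!
# Malle's conjecture for 8T8 over number fields, row F1: the bilinear estimate without logarithms
-/

set_option autoImplicit false

open scoped BigOperators Topology
open Filter

namespace Pool.Agent.SK

open Pool.Agent.H98.MK (sg)
open Pool.Agent.H98.MF

/-- logarithms are absorbed by a small power -/
theorem f1_log {B c : ℝ} (hB : 0 ≤ B) (hc : 0 < c) (E : ℕ) : ∃ C : ℝ, 0 ≤ C ∧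
    ∀ Y : ℝ, 1 ≤ Y → (1 + B * Real.log Y) ^ E ≤ C * Y ^ c := by
  have hε : 0 < c / ((E : ℝ) + 1) := by positivity
  refine ⟨(1 + B / (c / ((E : ℝ) + 1))) ^ E, by positivity, fun Y hY => ?_⟩
  have hY0 : 0 < Y := by linarith
  have h1 : Real.log Y ≤ Y ^ (c / ((E : ℝ) + 1)) / (c / ((E : ℝ) + 1)) :=
    Real.log_le_rpow_div hY0.le hε
  have h2 : (1 : ℝ) ≤ Y ^ (c / ((E : ℝ) + 1)) := Real.one_le_rpow hY hε.le
  have h3 : 0 ≤ Real.log Y := Real.log_nonneg hY
  have h4 : 1 + B * Real.log Y ≤ (1 + B / (c / ((E : ℝ) + 1))) * Y ^ (c / ((E : ℝ) + 1)) := by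
    have h5 := mul_le_mul_of_nonneg_left h1 hB
    have h6 : B * (Y ^ (c / ((E : ℝ) + 1)) / (c / ((E : ℝ) + 1))) =
        B / (c / ((E : ℝ) + 1)) * Y ^ (c / ((E : ℝ) + 1)) := by ring
    rw [h6] at h5
    linarith
  have h7 : 0 ≤ 1 + B * Real.log Y := by positivity
  refine (pow_le_pow_left₀ h7 h4 E).trans ?_
  rw [mul_pow]
  refine mul_le_mul_of_nonneg_left ?_ (by positivity)
  rw [← Real.rpow_natCast, ← Real.rpow_mul hY0.le]
  refine Real.rpow_le_rpow_of_exponent_le hY ?_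
  rw [div_mul_eq_mul_div, div_le_iff₀ (by positivity)]
  nlinarith

/-- Cauchy and Schwarz and the mean square over ideals -/
theorem f1_sieve (F : Sys) : ∃ C : ℝ, 0 ≤ C ∧ ∀ (a b : Finset F.P → ℝ), (∀ x, |a x| ≤ 1) →
    (∀ y, |b y| ≤ 1) → ∀ X Y : ℝ, 1 ≤ X → 1 ≤ Y → Y ^ (2 * F.A + 2) ≤ X ^ F.dl →
    |∑ x ∈ F.bx X, ∑ y ∈ F.bx Y, (if Disjoint x y then a x * b y * (F.jj x y : ℝ) else 0)| ≤
      C * X * Y ^ (1 / 2 : ℝ) := by
  obtain ⟨C1, h1⟩ := sieve F
  obtain ⟨C2, h2⟩ := card_bx_le F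
  refine ⟨Real.sqrt (|C2| * (2 * |C1|)), Real.sqrt_nonneg _, fun a b ha hb X Y hX hY hXY => ?_⟩
  have hX0 : 0 < X := by linarith
  have hY0 : 0 < Y := by linarith
  set T : Finset F.P → ℝ := fun x => ∑ y ∈ F.bx Y, b y * (F.chv y (F.ex y 0) (F.idf x) : ℝ)
    with hT
  have hrow : ∀ x, ∑ y ∈ F.bx Y, (if Disjoint x y then a x * b y * (F.jj x y : ℝ) else 0) =
      a x * T x := by
    intro x
    rw [hT, Finset.mul_sum]
    refine Finset.sum_congr rfl fun y _ => ?_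
    rw [a11_chv_idf]
    split_ifs
    · ring
    · simp
  have hsum : |∑ x ∈ F.bx X, ∑ y ∈ F.bx Y,
      (if Disjoint x y then a x * b y * (F.jj x y : ℝ) else 0)| ≤ ∑ x ∈ F.bx X, |T x| := by
    refine (Finset.abs_sum_le_sum_abs _ _).trans (Finset.sum_le_sum fun x _ => ?_)
    rw [hrow, abs_mul]
    exact mul_le_of_le_one_left (abs_nonneg _) (ha x)
  have hcs : (∑ x ∈ F.bx X, |T x|) ^ 2 ≤ ((F.bx X).card : ℝ) * ∑ x ∈ F.bx X, T x ^ 2 := by
    have h := sq_sum_le_card_mul_sum_sq (s := F.bx X) (f := fun x => |T x|)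
    simpa only [sq_abs] using h
  have hidl : ∑ x ∈ F.bx X, T x ^ 2 ≤ ∑ f ∈ F.idl X,
      (∑ y ∈ F.bx Y, b y * (F.chv y (F.ex y 0) f : ℝ)) ^ 2 := by
    have h3 : ∑ x ∈ F.bx X, T x ^ 2 = ∑ f ∈ (F.bx X).image F.idf,
        (∑ y ∈ F.bx Y, b y * (F.chv y (F.ex y 0) f : ℝ)) ^ 2 := by
      rw [Finset.sum_image fun x _ y _ h => F.idf_inj h]
    rw [h3]
    refine Finset.sum_le_sum_of_subset_of_nonneg ?_ fun f _ _ => sq_nonneg _
    intro f hf
    obtain ⟨x, hx, rfl⟩ := Finset.mem_image.1 hf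
    rw [F.mem_idl, F.nf_idf]
    exact F.mem_bx.1 hx
  have hs : ∑ f ∈ F.idl X, (∑ y ∈ F.bx Y, b y * (F.chv y (F.ex y 0) f : ℝ)) ^ 2 ≤
      2 * |C1| * (X * Y) := by
    refine (h1 X Y b hX hY hb).trans ?_
    have h3 : Y ^ (2 * F.A + 2) * X ^ (1 - F.dl) ≤ X * Y := by
      have h4 : X ^ (1 - F.dl) = X / X ^ F.dl := by
        rw [Real.rpow_sub hX0, Real.rpow_one]
      have h5 : 0 < X ^ F.dl := Real.rpow_pos_of_pos hX0 _
      rw [h4]
      calc Y ^ (2 * F.A + 2) * (X / X ^ F.dl) ≤ X ^ F.dl * (X / X ^ F.dl) :=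
            mul_le_mul_of_nonneg_right hXY (div_nonneg hX0.le h5.le)
        _ = X := by field_simp
        _ ≤ X * Y := le_mul_of_one_le_right hX0.le hY
    have h6 : 0 ≤ Y ^ (2 * F.A + 2) * X ^ (1 - F.dl) :=
      mul_nonneg (Real.rpow_nonneg hY0.le _) (Real.rpow_nonneg hX0.le _)
    have h7 : 0 ≤ X * Y := (mul_pos hX0 hY0).le
    calc C1 * (X * Y + Y ^ (2 * F.A + 2) * X ^ (1 - F.dl))
        ≤ |C1| * (X * Y + Y ^ (2 * F.A + 2) * X ^ (1 - F.dl)) :=
          mul_le_mul_of_nonneg_right (le_abs_self _) (by linarith)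
      _ ≤ |C1| * (X * Y + X * Y) := mul_le_mul_of_nonneg_left (by linarith) (abs_nonneg _)
      _ = _ := by ring
  have hcard : ((F.bx X).card : ℝ) ≤ |C2| * X :=
    (h2 X hX).trans (mul_le_mul_of_nonneg_right (le_abs_self _) hX0.le)
  have hfin : (∑ x ∈ F.bx X, |T x|) ^ 2 ≤
      (Real.sqrt (|C2| * (2 * |C1|)) * X * Y ^ (1 / 2 : ℝ)) ^ 2 := by
    have h8 : (Y ^ (1 / 2 : ℝ)) ^ 2 = Y := by
      rw [← Real.sqrt_eq_rpow, Real.sq_sqrt hY0.le]
    rw [mul_pow, mul_pow, h8, Real.sq_sqrt (by positivity)]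
    calc (∑ x ∈ F.bx X, |T x|) ^ 2 ≤ ((F.bx X).card : ℝ) * ∑ x ∈ F.bx X, T x ^ 2 := hcs
      _ ≤ (|C2| * X) * (2 * |C1| * (X * Y)) :=
          mul_le_mul hcard (hidl.trans hs) (Finset.sum_nonneg fun x _ => sq_nonneg _)
            (by positivity)
      _ = _ := by ring
  refine hsum.trans ?_
  exact le_of_sq_le_sq hfin (by positivity)

/-- the shorter variable on the right -/
theorem f1_short (F : Sys) : ∃ C : ℝ, 0 ≤ C ∧ ∀ (a b : Finset F.P → ℝ), (∀ x, |a x| ≤ 1) →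
    (∀ y, |b y| ≤ 1) → ∀ X Y : ℝ, 1 ≤ Y → Y ≤ X →
    |∑ x ∈ F.bx X, ∑ y ∈ F.bx Y, (if Disjoint x y then a x * b y * (F.jj x y : ℝ) else 0)| ≤
      C * (X * Y) * Y ^ (-F.c0) := by
  obtain ⟨C1, hC1, h1⟩ := f1_sieve F
  obtain ⟨C2, E, h2⟩ := box F
  have hdl := F.dl_pos
  have hA := F.A_nonneg
  have hc0 := F.c0_pos
  have hc1 := F.c0_le
  obtain ⟨C3, hC3, h3⟩ := f1_log (B := (2 * F.A + 2) / F.dl) (by positivity) hc0 E
  refine ⟨C1 + |C2| * C3, by positivity, fun a b ha hb X Y hY hYX => ?_⟩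
  have hX : 1 ≤ X := hY.trans hYX
  have hX0 : 0 < X := by linarith
  have hY0 : 0 < Y := by linarith
  have hpos : 0 ≤ (X * Y) * Y ^ (-F.c0) := by positivity
  rcases le_or_gt (Y ^ (2 * F.A + 2)) (X ^ F.dl) with h | h
  · refine (h1 a b ha hb X Y hX hY h).trans ?_
    have h4 : X * Y ^ (1 / 2 : ℝ) ≤ (X * Y) * Y ^ (-F.c0) := by
      have h5 : (X * Y) * Y ^ (-F.c0) = X * Y ^ (1 - F.c0) := by
        rw [sub_eq_add_neg, Real.rpow_add hY0, Real.rpow_one]
        ring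
      rw [h5]
      exact mul_le_mul_of_nonneg_left
        (Real.rpow_le_rpow_of_exponent_le hY (by linarith)) hX0.le
    calc C1 * X * Y ^ (1 / 2 : ℝ) = C1 * (X * Y ^ (1 / 2 : ℝ)) := by ring
      _ ≤ C1 * ((X * Y) * Y ^ (-F.c0)) := mul_le_mul_of_nonneg_left h4 hC1
      _ ≤ (C1 + |C2| * C3) * ((X * Y) * Y ^ (-F.c0)) :=
          mul_le_mul_of_nonneg_right (by nlinarith [mul_nonneg (abs_nonneg C2) hC3]) hpos
      _ = _ := by ring
  · have hlog : Real.log X ≤ (2 * F.A + 2) / F.dl * Real.log Y := by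
      have h4 := Real.log_lt_log (Real.rpow_pos_of_pos hX0 _) h
      rw [Real.log_rpow hX0, Real.log_rpow hY0] at h4
      rw [div_mul_eq_mul_div, le_div_iff₀ hdl]
      linarith
    have h5 : (1 + Real.log X) ^ E ≤ C3 * Y ^ F.c0 := by
      refine (pow_le_pow_left₀ ?_ ?_ E).trans (h3 Y hY)
      · have := Real.log_nonneg hX
        linarith
      · linarith
    refine (h2 X Y a b hY hYX ha hb).trans ?_
    have h6 : Y ^ (1 - 2 * F.c0) * Y ^ F.c0 = Y * Y ^ (-F.c0) := by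
      rw [← Real.rpow_add hY0]
      have e : 1 - 2 * F.c0 + F.c0 = 1 + -F.c0 := by ring
      rw [e, Real.rpow_add hY0, Real.rpow_one]
    have h7 : 0 ≤ X * Y ^ (1 - 2 * F.c0) := by positivity
    have h8 : 0 ≤ (1 + Real.log X) ^ E := by
      have := Real.log_nonneg hX
      positivity
    calc C2 * X * Y ^ (1 - 2 * F.c0) * (1 + Real.log X) ^ E
        = C2 * ((X * Y ^ (1 - 2 * F.c0)) * (1 + Real.log X) ^ E) := by ring
      _ ≤ |C2| * ((X * Y ^ (1 - 2 * F.c0)) * (1 + Real.log X) ^ E) :=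
          mul_le_mul_of_nonneg_right (le_abs_self _) (mul_nonneg h7 h8)
      _ ≤ |C2| * ((X * Y ^ (1 - 2 * F.c0)) * (C3 * Y ^ F.c0)) :=
          mul_le_mul_of_nonneg_left (mul_le_mul_of_nonneg_left h5 h7) (abs_nonneg _)
      _ = |C2| * C3 * (X * (Y ^ (1 - 2 * F.c0) * Y ^ F.c0)) := by ring
      _ = |C2| * C3 * ((X * Y) * Y ^ (-F.c0)) := by rw [h6]; ring
      _ ≤ (C1 + |C2| * C3) * ((X * Y) * Y ^ (-F.c0)) :=
          mul_le_mul_of_nonneg_right (by linarith) hpos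
      _ = _ := by ring

theorem f1 : SF1 := by
  intro F
  obtain ⟨C, hC, h0⟩ := f1_short F
  have hc0 := F.c0_pos
  have hc1 := F.c0_le
  refine ⟨3 * C, F.c0, by positivity, hc0, by linarith, fun a b ha hb X Y hX hY => ?_⟩
  have hX0 : 0 < X := by linarith
  have hY0 : 0 < Y := by linarith
  rcases le_or_gt Y X with h | h
  · rw [min_eq_right h]
    refine (h0 a b ha hb X Y hY h).trans ?_
    have h1 : 0 ≤ C * (X * Y) * Y ^ (-F.c0) := by positivity
    linarith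
  · rw [min_eq_left h.le]
    set a1 : Finset F.P → ℝ := fun x => if F.l ⬝ᵥ F.tys x = 1 then a x else 0 with ha1
    set b1 : Finset F.P → ℝ := fun y => if F.l ⬝ᵥ F.tys y = 1 then b y else 0 with hb1
    have hterm : ∀ x y : Finset F.P,
        (if Disjoint x y then a x * b y * (F.jj x y : ℝ) else 0) =
          (if Disjoint y x then b y * a x * (F.jj y x : ℝ) else 0) -
            2 * (if Disjoint y x then b1 y * a1 x * (F.jj y x : ℝ) else 0) := by
      intro x y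
      by_cases hd : Disjoint x y
      · rw [if_pos hd, if_pos hd.symm, if_pos hd.symm, F.jj_recip hd, sg_mul]
        by_cases hx : F.l ⬝ᵥ F.tys x = 1
        · by_cases hy : F.l ⬝ᵥ F.tys y = 1
          · simp only [ha1, hb1, hx, hy, if_true]
            push_cast
            ring
          · simp only [ha1, hb1, hx, hy, if_true, if_false]
            push_cast
            ring
        · simp only [ha1, hx, if_false]
          push_cast
          ring
      · rw [if_neg hd, if_neg (fun h => hd h.symm), if_neg (fun h => hd h.symm)]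
        ring
    have ha1' : ∀ x, |a1 x| ≤ 1 := by
      intro x
      simp only [ha1]
      split_ifs
      · exact ha x
      · simp
    have hb1' : ∀ y, |b1 y| ≤ 1 := by
      intro y
      simp only [hb1]
      split_ifs
      · exact hb y
      · simp
    have hsum : ∑ x ∈ F.bx X, ∑ y ∈ F.bx Y,
        (if Disjoint x y then a x * b y * (F.jj x y : ℝ) else 0) =
        (∑ y ∈ F.bx Y, ∑ x ∈ F.bx X, if Disjoint y x then b y * a x * (F.jj y x : ℝ) else 0) -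
        2 * ∑ y ∈ F.bx Y, ∑ x ∈ F.bx X,
          (if Disjoint y x then b1 y * a1 x * (F.jj y x : ℝ) else 0) := by
      rw [Finset.sum_comm, Finset.mul_sum, ← Finset.sum_sub_distrib]
      refine Finset.sum_congr rfl fun y _ => ?_
      rw [Finset.mul_sum, ← Finset.sum_sub_distrib]
      exact Finset.sum_congr rfl fun x _ => hterm x y
    rw [hsum]
    have h1 := h0 b a hb ha Y X hX h.le
    have h3 := h0 b1 a1 hb1' ha1' Y X hX h.le
    rw [mul_comm Y X] at h1 h3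
    refine (abs_sub _ _).trans ?_
    rw [abs_mul, abs_two]
    linarith

end Pool.Agent.SK
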