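import Pool.Agent.SK.FDefs
import Pool.Agent.H32.MQ.EPM

/-!
# Malle's conjecture for 8T8 over number fields: logarithmic sums of the weights `wb`
-/

set_option autoImplicit false

open scoped BigOperators Topology
open Filter

namespace Pool.Agent.SK

open Pool.Agent.H98.MK (sg)
open Pool.Agent.H98.MF
open Pool.Agent.H32.MQ

section

variable {S SF : Sys} (F : Qc S SF)

theorem f10_bd (b : S.T) (p : F.Q.P) : 0 ≤ wb F b p ∧ wb F b p ≤ 1 := by
  have h := abs_le.1 (abs_sgr (b ⬝ᵥ S.ty (F.Q.sh p))).le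
  unfold wb
  constructor <;> linarith [h.1, h.2]

theorem f10_abs (b : S.T) (p : F.Q.P) : |wb F b p| ≤ 1 := by
  obtain ⟨h1, h2⟩ := f10_bd F b p
  rw [abs_of_nonneg h1]
  exact h2

/-- the exponent of the weights `wb` is `1/2` -/
theorem f10_pf (hp1 : SPf1) (hp0 : SPf0) (h5 : SEG5) (b : S.T) (hb : F.em (b, ∅) ≠ 0) :
    Pf F.Q (wb F b) (1 / 2) := by
  obtain ⟨h, hio⟩ := h5 S SF F.toQf
  obtain ⟨K1, hK1⟩ := hp1 S F.Q
  obtain ⟨K0, hK0⟩ := hp0 S F.Q SF h ∅ (F.em (b, ∅)) (Or.inr hb)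
  refine ⟨(K1 + K0) / 2, fun s hs1 hs2 => ?_⟩
  have h1 := hK1 s hs1 hs2
  have h2 := hK0 s hs1 hs2
  have hsum := epm_summable S F.Q hs1
  have he : ∀ p : F.Q.P, b ⬝ᵥ S.ty (F.Q.sh p) = SF.ex ∅ (F.em (b, ∅)) (h.io p) := by
    intro p
    have h3 := F.em_s (b, ∅) p (Finset.notMem_empty _)
    rw [hio]
    rw [Finset.biUnion_empty] at h3
    rw [← h3]
    unfold Sys.ex
    rw [Finset.sum_empty, zero_add]
  have h4 : ∀ p : F.Q.P, wb F b p * (S.N (F.Q.sh p) : ℝ) ^ (-s) =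
      1 / 2 * ((1 : ℝ) * (S.N (F.Q.sh p) : ℝ) ^ (-s)) + 1 / 2 *
        ((if h.io p ∈ (∅ : Finset SF.P) then 0
          else ((sg (SF.ex ∅ (F.em (b, ∅)) (h.io p)) : ℤ) : ℝ)) *
            (S.N (F.Q.sh p) : ℝ) ^ (-s)) := by
    intro p
    rw [if_neg (Finset.notMem_empty _), ← he p]
    unfold wb
    ring
  have h6 : Summable fun p : F.Q.P => (if h.io p ∈ (∅ : Finset SF.P) then 0
      else ((sg (SF.ex ∅ (F.em (b, ∅)) (h.io p)) : ℤ) : ℝ)) *
        (S.N (F.Q.sh p) : ℝ) ^ (-s) := by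
    refine Summable.of_norm_bounded hsum fun p => ?_
    rw [if_neg (Finset.notMem_empty _), norm_mul, Real.norm_eq_abs, Real.norm_eq_abs,
      abs_sgr, one_mul, abs_of_nonneg (Real.rpow_nonneg (Nat.cast_nonneg _) _)]
  have h7 : Summable fun p : F.Q.P => (1 : ℝ) * (S.N (F.Q.sh p) : ℝ) ^ (-s) := by
    simpa using hsum
  rw [tsum_congr h4, (h7.mul_left (1 / 2)).tsum_add (h6.mul_left (1 / 2)),
    h7.tsum_mul_left (1 / 2), h6.tsum_mul_left (1 / 2)]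
  rw [one_mul] at h1
  rw [zero_mul, sub_zero] at h2
  beta_reduce at h1 h2
  obtain ⟨h8, h9⟩ := abs_le.1 h1
  obtain ⟨h10, h11⟩ := abs_le.1 h2
  rw [abs_le]
  constructor <;> linarith

/-- the norm of a good set as a product over its primes -/
theorem f10_nq (g : Finset F.Q.P) (hg : F.Q.Gd g) (s : ℝ) :
    ∏ a ∈ g, (S.N (F.Q.sh a) : ℝ) ^ (-s) = (F.Q.nq g : ℝ) ^ (-s) := by
  classical
  rw [Real.finsetProd_rpow _ _ fun a _ => Nat.cast_nonneg _]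
  congr 1
  unfold Qd.nq Pre.nm Qd.shd
  rw [Finset.prod_image fun a ha c hc h => hg a ha c hc h, Nat.cast_prod]

/-- the term of a tuple with one entry -/
theorem f10_tG (b : S.T) (s : ℝ) (g : Finset F.Q.P) (hg : F.Q.Gd g) :
    tG F.toQf (u := 0) (v := 1) (fun i => i.elim0) (fun _ => wb F b) ∅ s
      (fun i => i.elim0, fun _ => g) = (∏ p ∈ g, wb F b p) * (F.Q.nq g : ℝ) ^ (-s) := by
  unfold tG
  rw [if_pos]
  · rw [Finset.univ_eq_empty, Finset.prod_empty, one_mul, Fin.prod_univ_one,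
      Finset.prod_mul_distrib, f10_nq F g hg]
  · refine ⟨fun i => i.elim0, fun _ => Finset.disjoint_empty_right _, fun _ => hg,
      fun i => i.elim0, fun j j' h => absurd (Subsingleton.elim j j') h, fun i => i.elim0⟩

theorem f10_nn (b : S.T) (s : ℝ) (w : (Fin 0 → Finset S.P) × (Fin 1 → Finset F.Q.P)) :
    0 ≤ tG F.toQf (fun i => i.elim0) (fun _ => wb F b) ∅ s w := by
  unfold tG
  split_ifs
  · rw [Finset.univ_eq_empty, Finset.prod_empty, one_mul]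
    refine Finset.prod_nonneg fun j _ => Finset.prod_nonneg fun a _ => ?_
    exact mul_nonneg (f10_bd F b a).1 (Real.rpow_nonneg (Nat.cast_nonneg _) _)
  · exact le_refl _

/-- the finite sum is bounded by the series -/
theorem f10_le (h2 : SEG2) (b : S.T) (X : ℝ) {s : ℝ} (hs : 1 < s) :
    ∑ f ∈ F.Q.gb X, (∏ p ∈ f, wb F b p) * (F.Q.nq f : ℝ) ^ (-s) ≤
      ∑' w, tG F.toQf (u := 0) (v := 1) (fun i => i.elim0) (fun _ => wb F b) ∅ s w := by
  classical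
  obtain ⟨hsum, -⟩ := h2 S SF F.toQf 0 1 (fun i => i.elim0) (fun _ => wb F b)
    (fun i => i.elim0) (fun _ a => f10_abs F b a) ∅ s hs
  have h3 : ∑ f ∈ F.Q.gb X, (∏ p ∈ f, wb F b p) * (F.Q.nq f : ℝ) ^ (-s) =
      ∑ w ∈ (F.Q.gb X).image (fun f => ((fun i => i.elim0, fun _ => f) :
        (Fin 0 → Finset S.P) × (Fin 1 → Finset F.Q.P))),
        tG F.toQf (u := 0) (v := 1) (fun i => i.elim0) (fun _ => wb F b) ∅ s w := by
    rw [Finset.sum_image]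
    · refine Finset.sum_congr rfl fun f hf => ?_
      rw [f10_tG F b s f (F.Q.mem_gb.1 hf).1]
    · intro f _ f' _ h
      exact congrFun (congrArg Prod.snd h) 0
  rw [h3]
  exact hsum.sum_le_tsum _ fun w _ => f10_nn F b s w

end

/-- F10 -/
theorem f10 (h4 : Pool.Agent.H32.MQ.SEG4) (hp1 : Pool.Agent.H32.MQ.SPf1)
    (hp0 : Pool.Agent.H32.MQ.SPf0) (h5 : Pool.Agent.H32.MQ.SEG5)
    (h2 : Pool.Agent.H32.MQ.SEG2) : SF10 := by
  intro S SF F b hb
  obtain ⟨C, hC⟩ := h4 S SF F.toQf 0 1 (fun i => i.elim0) (fun _ => wb F b)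
    (fun i => i.elim0) (fun _ a => f10_abs F b a) ∅ (fun i => i.elim0) (fun _ => 1 / 2)
    (fun i => i.elim0) (fun _ => f10_pf F hp1 hp0 h5 b hb)
  have hl2 : 0 < Real.log 2 := Real.log_pos (by norm_num)
  have hl21 : Real.log 2 ≤ 1 := by
    have := Real.log_two_lt_d9
    linarith
  refine ⟨Real.exp 1 * |C| / Real.log 2 ^ (1 / 2 : ℝ), fun X hX => ?_⟩
  have hlX : Real.log 2 ≤ Real.log X := Real.log_le_log (by norm_num) hX
  set Y : ℝ := max X (Real.exp 1) with hY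
  have hYX : X ≤ Y := le_max_left _ _
  have hYe : Real.exp 1 ≤ Y := le_max_right _ _
  have hY0 : 0 < Y := lt_of_lt_of_le (Real.exp_pos 1) hYe
  have hlY : 1 ≤ Real.log Y := by
    have := Real.log_le_log (Real.exp_pos 1) hYe
    rwa [Real.log_exp] at this
  have hlY0 : 0 < Real.log Y := by linarith
  have hlYX : Real.log Y ≤ Real.log X / Real.log 2 := by
    rw [le_div_iff₀ hl2]
    rcases max_cases X (Real.exp 1) with h | h
    · rw [hY, h.1]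
      exact mul_le_of_le_one_right (by linarith) hl21
    · rw [hY, h.1, Real.log_exp, one_mul]
      exact hlX
  set σ : ℝ := (Real.log Y)⁻¹ with hσ
  have hσ0 : 0 < σ := inv_pos.2 hlY0
  have hσ1 : σ ≤ 1 := inv_le_one_of_one_le₀ hlY
  have h6 := hC σ hσ0 hσ1
  have h7 := f10_le F h2 b X (s := 1 + σ) (by linarith)
  have h8 : ∑ f ∈ F.Q.gb X, (∏ p ∈ f, wb F b p) / (F.Q.nq f : ℝ) ≤
      Real.exp 1 * ∑ f ∈ F.Q.gb X, (∏ p ∈ f, wb F b p) * (F.Q.nq f : ℝ) ^ (-(1 + σ)) := by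
    rw [Finset.mul_sum]
    refine Finset.sum_le_sum fun f hf => ?_
    have hn : (F.Q.nq f : ℝ) ≤ Y := (F.Q.mem_gb.1 hf).2.trans hYX
    have hn1 : (1 : ℝ) ≤ F.Q.nq f := S.one_le_nmr _
    have hn0 : (0 : ℝ) < F.Q.nq f := by linarith
    have h9 : (F.Q.nq f : ℝ) ^ σ ≤ Real.exp 1 := by
      rw [Real.rpow_def_of_pos hn0]
      refine Real.exp_le_exp.2 ?_
      rw [hσ, ← div_eq_mul_inv, div_le_one hlY0]
      exact Real.log_le_log hn0 hn
    have h10 : 0 ≤ ∏ p ∈ f, wb F b p := Finset.prod_nonneg fun p _ => (f10_bd F b p).1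
    have h11 : (F.Q.nq f : ℝ)⁻¹ = (F.Q.nq f : ℝ) ^ σ * (F.Q.nq f : ℝ) ^ (-(1 + σ)) := by
      rw [← Real.rpow_add hn0, ← Real.rpow_neg_one]
      congr 1
      ring
    rw [div_eq_mul_inv, h11, ← mul_assoc, mul_comm (∏ p ∈ f, wb F b p), mul_assoc]
    exact mul_le_mul_of_nonneg_right h9
      (mul_nonneg h10 (Real.rpow_nonneg hn0.le _))
  have h12 : σ ^ (-(∑ i : Fin 0, (fun i : Fin 0 => (i.elim0 : ℝ)) i +
      ∑ j : Fin 1, (fun _ : Fin 1 => (1 / 2 : ℝ)) j)) = Real.log Y ^ (1 / 2 : ℝ) := by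
    rw [Finset.univ_eq_empty, Finset.sum_empty, zero_add, Fin.sum_univ_one, hσ,
      Real.inv_rpow hlY0.le, Real.rpow_neg hlY0.le, inv_inv]
  rw [h12] at h6
  have h13 : Real.log Y ^ (1 / 2 : ℝ) ≤ Real.log X ^ (1 / 2 : ℝ) / Real.log 2 ^ (1 / 2 : ℝ) := by
    rw [← Real.div_rpow (by linarith) hl2.le]
    exact Real.rpow_le_rpow hlY0.le hlYX (by norm_num)
  have h14 : ∑ f ∈ F.Q.gb X, (∏ p ∈ f, wb F b p) * (F.Q.nq f : ℝ) ^ (-(1 + σ)) ≤
      |C| * Real.log Y ^ (1 / 2 : ℝ) := by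
    refine h7.trans ((le_abs_self _).trans (h6.trans ?_))
    exact mul_le_mul_of_nonneg_right (le_abs_self C) (Real.rpow_nonneg hlY0.le _)
  calc ∑ f ∈ F.Q.gb X, (∏ p ∈ f, wb F b p) / (F.Q.nq f : ℝ)
      ≤ Real.exp 1 * (|C| * Real.log Y ^ (1 / 2 : ℝ)) :=
        h8.trans (mul_le_mul_of_nonneg_left h14 (Real.exp_pos 1).le)
    _ ≤ Real.exp 1 * (|C| * (Real.log X ^ (1 / 2 : ℝ) / Real.log 2 ^ (1 / 2 : ℝ))) :=
        mul_le_mul_of_nonneg_left (mul_le_mul_of_nonneg_left h13 (abs_nonneg C))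
          (Real.exp_pos 1).le
    _ = Real.exp 1 * |C| / Real.log 2 ^ (1 / 2 : ℝ) * Real.log X ^ (1 / 2 : ℝ) := by ring

end Pool.Agent.SK
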