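import Pool.Agent.SK.FDefs
import Pool.Agent.H32.MQ.BAl
import Pool.Agent.H98.MF.SCount
import Pool.Agent.H98.MF.SCop

/-!
# Malle's conjecture for 8T8 over number fields: row F11, the weights `wb` have mean zero

For a finite set `z` of primes of `SF` with character value `-1` the sets with nonzero weight are
coprime to `z`; the density of these sets is at most `κ ∏ (1 - 1 / N P)`, and the sum of the
`1 / N P` over all primes with character value `-1` diverges.
-/

set_option autoImplicit false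

open scoped BigOperators Topology
open Filter

namespace Pool.Agent.SK

open Pool.Agent.H98.MK (sg)
open Pool.Agent.H98.MF
open Pool.Agent.H32.MQ (Qd El Qf bal_nq)

/-- the sum of `1 / N P` over the primes with character value `-1` diverges -/
theorem f11_div (SF : Sys) (c : SF.T) (hc : c ≠ 0) (B : ℝ) :
    ∃ z : Finset SF.P, (∀ P ∈ z, SF.ex ∅ c P = 1) ∧ B < ∑ P ∈ z, ((SF.N P : ℝ))⁻¹ := by
  classical
  by_contra hcon
  push Not at hcon
  obtain ⟨K0, hK0⟩ := SF.prm0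
  obtain ⟨K1, hK1⟩ := SF.prm ∅ c (Or.inr hc)
  have hN : ∀ p : SF.P, (2 : ℝ) ≤ SF.N p := fun p => by exact_mod_cast SF.two_le p
  have hchp : ∀ p : SF.P,
      ((SF.chp ∅ (fun p => ∑ q ∈ (∅ : Finset SF.P), SF.J q p + c ⬝ᵥ SF.ty p) p : ℤ) : ℝ) =
        ((sg (SF.ex ∅ c p) : ℤ) : ℝ) := by
    intro p
    unfold Pre.chp
    rw [if_neg (Finset.notMem_empty p)]
    rfl
  -- the bound
  have hb : ∀ s : ℝ, 1 < s → s ≤ 2 → Real.log (1 / (s - 1)) ≤ 2 * B + K0 + K1 := by
    intro s hs1 hs2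
    have hN0 : ∀ p : SF.P, 0 ≤ (SF.N p : ℝ) ^ (-s) := fun p =>
      Real.rpow_nonneg (by linarith [hN p]) _
    have hS := summable_N SF s hs1
    have hX : Summable fun p : SF.P => ((sg (SF.ex ∅ c p) : ℤ) : ℝ) * (SF.N p : ℝ) ^ (-s) := by
      refine Summable.of_norm_bounded hS fun p => ?_
      rw [Real.norm_eq_abs, abs_mul, abs_sgr, one_mul, abs_of_nonneg (hN0 p)]
    have h0 := (abs_le.1 (hK0 s hs1 hs2)).1
    have h1 := (abs_le.1 (hK1 s hs1 hs2)).2
    rw [tsum_congr fun p => by rw [hchp p]] at h1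
    have h2 : ∑' p : SF.P, (SF.N p : ℝ) ^ (-s) -
        ∑' p : SF.P, ((sg (SF.ex ∅ c p) : ℤ) : ℝ) * (SF.N p : ℝ) ^ (-s) =
        ∑' p : SF.P, ((SF.N p : ℝ) ^ (-s) -
          ((sg (SF.ex ∅ c p) : ℤ) : ℝ) * (SF.N p : ℝ) ^ (-s)) := (hS.tsum_sub hX).symm
    have h3 : ∑' p : SF.P, ((SF.N p : ℝ) ^ (-s) -
          ((sg (SF.ex ∅ c p) : ℤ) : ℝ) * (SF.N p : ℝ) ^ (-s)) ≤ 2 * B := by
      refine Real.tsum_le_of_sum_le (fun p => ?_) fun u => ?_
      · have h4 := abs_le.1 (abs_sgr (SF.ex ∅ c p)).le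
        have h5 := mul_le_mul_of_nonneg_right h4.2 (hN0 p)
        show (0 : ℝ) ≤ (SF.N p : ℝ) ^ (-s) - ((sg (SF.ex ∅ c p) : ℤ) : ℝ) * (SF.N p : ℝ) ^ (-s)
        linarith
      · have h4 : ∑ p ∈ u, ((SF.N p : ℝ) ^ (-s) -
            ((sg (SF.ex ∅ c p) : ℤ) : ℝ) * (SF.N p : ℝ) ^ (-s)) ≤
            ∑ p ∈ u.filter (fun p => SF.ex ∅ c p = 1), 2 * ((SF.N p : ℝ))⁻¹ := by
          rw [Finset.sum_filter]
          refine Finset.sum_le_sum fun p _ => ?_
          split_ifs with h5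
          · rw [h5, sg_one]
            have h6 : (SF.N p : ℝ) ^ (-s) ≤ ((SF.N p : ℝ))⁻¹ := by
              rw [← Real.rpow_neg_one]
              exact Real.rpow_le_rpow_of_exponent_le (by linarith [hN p]) (by linarith)
            push_cast
            linarith
          · have h6 : SF.ex ∅ c p = 0 := (zm2 _).resolve_right h5
            rw [h6, sg_zero]
            push_cast
            linarith
        refine h4.trans ?_
        rw [← Finset.mul_sum]
        have h5 := hcon (u.filter fun p => SF.ex ∅ c p = 1) fun P hP => (Finset.mem_filter.1 hP).2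
        linarith
    linarith
  -- contradiction
  have ht : Tendsto (fun s : ℝ => Real.log (1 / (s - 1))) (𝓝[>] 1) atTop := by
    refine Real.tendsto_log_atTop.comp ?_
    have h1 : Tendsto (fun s : ℝ => s - 1) (𝓝[>] 1) (𝓝[>] 0) := by
      refine tendsto_nhdsWithin_iff.2 ⟨?_, ?_⟩
      · have h2 : Tendsto (fun s : ℝ => s - 1) (𝓝 1) (𝓝 (1 - 1)) :=
          (continuous_id.sub continuous_const).tendsto 1
        rw [sub_self] at h2
        exact h2.mono_left nhdsWithin_le_nhds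
      · filter_upwards [self_mem_nhdsWithin] with s hs
        have hs' : (1 : ℝ) < s := hs
        exact Set.mem_Ioi.2 (sub_pos.2 hs')
    refine ((tendsto_inv_nhdsGT_zero (𝕜 := ℝ)).comp h1).congr fun s => ?_
    rw [Function.comp_apply, one_div]
  have h1 := ht.eventually_gt_atTop (2 * B + K0 + K1)
  have h2 : ∀ᶠ s : ℝ in 𝓝[>] 1, s ≤ 2 := by
    refine eventually_nhdsWithin_of_eventually_nhds ?_
    exact (continuous_id.tendsto (1 : ℝ)).eventually (eventually_le_nhds (by norm_num))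
  obtain ⟨s, ⟨hs1, hs2⟩, hs3⟩ := ((h1.and h2).and self_mem_nhdsWithin).exists
  have h4 := hb s hs3 hs2
  linarith

/-- the product of the local densities is small -/
theorem f11_prod (SF : Sys) (c : SF.T) (hc : c ≠ 0) (ε : ℝ) (hε : 0 < ε) :
    ∃ z : Finset SF.P, (∀ P ∈ z, SF.ex ∅ c P = 1) ∧ ∏ P ∈ z, (1 - 1 / (SF.N P : ℝ)) < ε := by
  obtain ⟨z, hz, hB⟩ := f11_div SF c hc (-Real.log ε)
  refine ⟨z, hz, ?_⟩
  have hN : ∀ p : SF.P, (2 : ℝ) ≤ SF.N p := fun p => by exact_mod_cast SF.two_le p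
  calc ∏ P ∈ z, (1 - 1 / (SF.N P : ℝ)) ≤ ∏ P ∈ z, Real.exp (-((SF.N P : ℝ))⁻¹) := by
        refine Finset.prod_le_prod (fun P _ => ?_) fun P _ => ?_
        · have h1 : 1 / (SF.N P : ℝ) ≤ 1 := by
            rw [div_le_one (by linarith [hN P])]
            linarith [hN P]
          linarith
        · have h1 := Real.add_one_le_exp (-((SF.N P : ℝ))⁻¹)
          rw [one_div]
          linarith
    _ = Real.exp (-∑ P ∈ z, ((SF.N P : ℝ))⁻¹) := by
        rw [← Real.exp_sum, Finset.sum_neg_distrib]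
    _ < Real.exp (Real.log ε) := Real.exp_lt_exp.2 (by linarith)
    _ = ε := Real.exp_log hε

section

variable {S SF : Sys} (F : Qc S SF)

open Classical in
/-- the image in `SF` of a good set has the same norm -/
theorem f11_nm {f : Finset F.Q.P} (hf : F.Q.Gd f) : SF.nm (f.image F.io) = F.Q.nq f := by
  unfold Pre.nm
  rw [Finset.prod_image fun a _ a' _ h => F.io_inj h, bal_nq hf]
  exact Finset.prod_congr rfl fun a _ => F.N_io a

theorem f11_wb0 (b : S.T) (p : F.Q.P) : 0 ≤ wb F b p := by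
  unfold wb
  have h1 := (abs_le.1 (abs_sgr (b ⬝ᵥ S.ty (F.Q.sh p))).le).1
  linarith

theorem f11_wb1 (b : S.T) (p : F.Q.P) : wb F b p ≤ 1 := by
  unfold wb
  have h1 := (abs_le.1 (abs_sgr (b ⬝ᵥ S.ty (F.Q.sh p))).le).2
  linarith

theorem f11_ex (b : S.T) (p : F.Q.P) (h : SF.ex ∅ (F.em (b, ∅)) (F.io p) = 1) :
    wb F b p = 0 := by
  have h1 := F.em_s (b, ∅) p (Finset.notMem_empty _)
  simp only [Finset.biUnion_empty] at h1
  rw [h] at h1
  have h2 : b ⬝ᵥ S.ty (F.Q.sh p) = 1 := by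
    unfold Sys.ex at h1
    rwa [Finset.sum_empty, zero_add] at h1
  unfold wb
  rw [h2, sg_one]
  norm_num

open Classical in
/-- the sum is bounded by the number of ideals coprime to `z` -/
theorem f11_le (b : S.T) (z : Finset SF.P) (hz : ∀ P ∈ z, SF.ex ∅ (F.em (b, ∅)) P = 1) (X : ℝ) :
    ∑ f ∈ F.Q.gb X, ∏ p ∈ f, wb F b p ≤
      (((SF.idl X).filter fun f => Disjoint f.support z).card : ℝ) := by
  have h1 : ∑ f ∈ F.Q.gb X, ∏ p ∈ f, wb F b p ≤
      ∑ f ∈ (F.Q.gb X).filter (fun f => Disjoint (f.image F.io) z), (1 : ℝ) := by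
    rw [Finset.sum_filter]
    refine Finset.sum_le_sum fun f _ => ?_
    split_ifs with h
    · exact Finset.prod_le_one (fun p _ => f11_wb0 F b p) fun p _ => f11_wb1 F b p
    · refine le_of_eq ?_
      rw [Finset.not_disjoint_iff] at h
      obtain ⟨P, hP1, hP2⟩ := h
      obtain ⟨p, hp, rfl⟩ := Finset.mem_image.1 hP1
      exact Finset.prod_eq_zero hp (f11_ex F b p (hz _ hP2))
  refine h1.trans ?_
  rw [Finset.sum_const, nsmul_eq_mul, mul_one]
  refine Nat.cast_le.2 ?_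
  refine Finset.card_le_card_of_injOn (fun f => SF.idf (f.image F.io)) ?_ ?_
  · intro f hf
    have h2 := Finset.mem_filter.1 (Finset.mem_coe.1 hf)
    have h3 := F.Q.mem_gb.1 h2.1
    refine Finset.mem_coe.2 (Finset.mem_filter.2 ⟨SF.mem_idl.2 ?_, ?_⟩)
    · rw [SF.nf_idf, f11_nm F h3.1]
      exact h3.2
    · rw [SF.idf_support]
      exact h2.2
  · intro x _ y _ h
    exact Finset.image_injective F.io_inj (SF.idf_inj h)

end

theorem f11 (_h10 : SF10) : SF11 := by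
  classical
  intro S SF F b hb
  have hnn : ∀ X : ℝ, 0 ≤ ∑ f ∈ F.Q.gb X, ∏ p ∈ f, wb F b p := fun X =>
    Finset.sum_nonneg fun f _ => Finset.prod_nonneg fun p _ => f11_wb0 F b p
  obtain ⟨C, hC0, hC⟩ := cnt_cop SF
  rw [Metric.tendsto_atTop]
  intro ε hε
  have hκ := SF.κ_pos
  obtain ⟨z, hz, hzε⟩ := f11_prod SF (F.em (b, ∅)) hb (ε / (2 * SF.κ)) (by positivity)
  have hlim : Tendsto (fun X : ℝ => C * SF.hs z * X ^ (-SF.dl)) atTop (𝓝 0) := by
    have h1 := (tendsto_rpow_neg_atTop SF.dl_pos).const_mul (C * SF.hs z)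
    rwa [mul_zero] at h1
  obtain ⟨X0, hX0⟩ := ((hlim.eventually (gt_mem_nhds (half_pos hε))).and
    (eventually_ge_atTop (1 : ℝ))).exists_forall_of_atTop
  refine ⟨X0, fun X hX => ?_⟩
  obtain ⟨h1, h2⟩ := hX0 X hX
  have hX1 : 0 < X := by linarith
  rw [Real.dist_eq, sub_zero, abs_of_nonneg (div_nonneg (hnn X) hX1.le), div_lt_iff₀ hX1]
  have h3 := f11_le F b z hz X
  have h4 := (abs_le.1 (hC z X h2)).2
  have h5 : X ^ (1 - SF.dl) = X ^ (-SF.dl) * X := by
    rw [← Real.rpow_add_one hX1.ne']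
    congr 1
    ring
  have h6 : SF.κ * (∏ P ∈ z, (1 - 1 / (SF.N P : ℝ))) < ε / 2 := by
    have h7 := mul_lt_mul_of_pos_left hzε hκ
    have h8 : SF.κ * (ε / (2 * SF.κ)) = ε / 2 := by
      field_simp
    rwa [h8] at h7
  calc ∑ f ∈ F.Q.gb X, ∏ p ∈ f, wb F b p
      ≤ (((SF.idl X).filter fun f => Disjoint f.support z).card : ℝ) := h3
    _ ≤ SF.κ * (∏ P ∈ z, (1 - 1 / (SF.N P : ℝ))) * X + C * SF.hs z * X ^ (1 - SF.dl) := by
        convert (sub_le_iff_le_add'.1 h4) using 2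
    _ = (SF.κ * (∏ P ∈ z, (1 - 1 / (SF.N P : ℝ))) + C * SF.hs z * X ^ (-SF.dl)) * X := by
        rw [h5]
        ring
    _ < ε * X := by
        refine mul_lt_mul_of_pos_right ?_ hX1
        linarith

end Pool.Agent.SK
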