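import Pool.Agent.SK.FDefs
import Pool.Agent.H98.MF.SClassSum

/-!
# Malle's conjecture for 8T8 over number fields, row F12: the limit for fixed `e`
-/

set_option autoImplicit false

open scoped BigOperators Topology
open Filter

namespace Pool.Agent.SK

open Pool.Agent.H98.MK (sg)
open Pool.Agent.H98.MF
open Pool.Agent.H32.MQ (Qd El Qf)

theorem f12_orth {m : ℕ} (k k' : Fin m → ZMod 2) :
    ∑ c : Fin m → ZMod 2, ((sg (c ⬝ᵥ k') : ℤ) : ℝ) * ((sg (c ⬝ᵥ k) : ℤ) : ℝ) =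
      if k' = k then 2 ^ m else 0 := by
  have h1 : ∀ c : Fin m → ZMod 2, ((sg (c ⬝ᵥ k') : ℤ) : ℝ) * ((sg (c ⬝ᵥ k) : ℤ) : ℝ) =
      ((sg (c ⬝ᵥ (k' + k)) : ℤ) : ℝ) := by
    intro c
    rw [dotProduct_add, sg_add]
    push_cast
    rfl
  rw [Finset.sum_congr rfl fun c _ => h1 c, ← Int.cast_sum, cls_sum_T]
  have h2 : k' + k = 0 ↔ k' = k := by
    constructor
    · intro h
      funext i
      exact CharTwo.add_eq_zero.1 (congrFun h i)
    · rintro rfl
      funext i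
      exact CharTwo.add_self_eq_zero _
  by_cases h : k' = k
  · rw [if_pos h, if_pos (h2.2 h)]
    push_cast
    rfl
  · rw [if_neg h, if_neg fun h3 => h (h2.1 h3)]
    push_cast
    rfl

/-- the Fourier coefficients -/
noncomputable def f12F {m : ℕ} (h : (Fin m → ZMod 2) → ℝ) (c : Fin m → ZMod 2) : ℝ :=
  (∑ τ : Fin m → ZMod 2, h τ * ((sg (c ⬝ᵥ τ) : ℤ) : ℝ)) / 2 ^ m

theorem f12_four {m : ℕ} (h : (Fin m → ZMod 2) → ℝ) (τ : Fin m → ZMod 2) :
    h τ = ∑ c : Fin m → ZMod 2, f12F h c * ((sg (c ⬝ᵥ τ) : ℤ) : ℝ) := by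
  have h0 : (2 : ℝ) ^ m ≠ 0 := by positivity
  have h1 : ∀ c : Fin m → ZMod 2, f12F h c * ((sg (c ⬝ᵥ τ) : ℤ) : ℝ) =
      ∑ τ' : Fin m → ZMod 2, h τ' / 2 ^ m *
        (((sg (c ⬝ᵥ τ') : ℤ) : ℝ) * ((sg (c ⬝ᵥ τ) : ℤ) : ℝ)) := by
    intro c
    unfold f12F
    rw [Finset.sum_div, Finset.sum_mul]
    refine Finset.sum_congr rfl fun τ' _ => ?_
    ring
  rw [Finset.sum_congr rfl fun c _ => h1 c, Finset.sum_comm]
  have h2 : ∀ τ' : Fin m → ZMod 2, ∑ c : Fin m → ZMod 2, h τ' / 2 ^ m *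
        (((sg (c ⬝ᵥ τ') : ℤ) : ℝ) * ((sg (c ⬝ᵥ τ) : ℤ) : ℝ)) =
      if τ' = τ then h τ' else 0 := by
    intro τ'
    rw [← Finset.mul_sum, f12_orth]
    by_cases h3 : τ' = τ
    · rw [if_pos h3, if_pos h3]
      field_simp
    · rw [if_neg h3, if_neg h3, mul_zero]
  rw [Finset.sum_congr rfl fun τ' _ => h2 τ']
  simp

theorem f12_abs (x : ZMod 2) : |((sg x : ℤ) : ℝ)| = 1 := by
  have h : sg x = 1 ∨ sg x = -1 := by
    revert x; decide
  rcases h with h | h <;> rw [h] <;> norm_num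

section

variable {S SF : Sys} (F : Qc S SF)

theorem f12_dj {e f : Finset F.Q.P} (h : Disjoint (F.Q.shd e) (F.Q.shd f)) :
    Disjoint (ic F e) (f.image F.io) := by
  classical
  rw [Finset.disjoint_left]
  intro P hP hP'
  unfold ic at hP
  obtain ⟨a', ha', rfl⟩ := Finset.mem_image.1 hP
  obtain ⟨a, ha, rfl⟩ := Finset.mem_image.1 ha'
  obtain ⟨b, hb, hab⟩ := Finset.mem_image.1 hP'
  have h1 := F.io_inj hab
  have h2 : F.Q.sh b = F.Q.sh a := by
    rw [h1]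
    exact F.Q.sh_cj a
  refine (Finset.disjoint_left.1 h) (a := F.Q.sh a) ?_ ?_
  · exact Finset.mem_image_of_mem _ ha
  · rw [← h2]
    exact Finset.mem_image_of_mem _ hb

theorem f12_sub (e : Finset F.Q.P) : ic F e ⊆ (F.Q.shd e).biUnion F.up := by
  classical
  intro P hP
  unfold ic at hP
  obtain ⟨a', ha', rfl⟩ := Finset.mem_image.1 hP
  obtain ⟨a, ha, rfl⟩ := Finset.mem_image.1 ha'
  rw [Finset.mem_biUnion]
  refine ⟨F.Q.sh a, Finset.mem_image_of_mem _ ha, ?_⟩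
  rw [F.up_s a]
  exact Finset.mem_insert_of_mem (Finset.mem_singleton_self _)

/-- the kernel as a function of the type of `f` -/
noncomputable def f12h (θ : SF.T → SF.T → ℝ) (e : Finset F.Q.P) (τ : SF.T) : ℝ :=
  ∑ a : SF.T, θ a (typ F e + τ) *
    ((SF.jj (ic F e) (e.image F.io) * sg (a ⬝ᵥ SF.tys (ic F e)) : ℤ) : ℝ)

/-- the shift -/
noncomputable def f12w (e : Finset F.Q.P) : SF.T := (SF.l ⬝ᵥ SF.tys (ic F e)) • SF.l

open Classical in
theorem f12_GG (h4 : SF4) (θ : SF.T → SF.T → ℝ) {e f : Finset F.Q.P} (he : F.Q.Gd e)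
    (hf : F.Q.Gd f) : GG F.Q (th F θ) e f = ∑ c : SF.T, f12F (f12h F θ e) c *
      (if Disjoint (F.Q.shd f) (F.Q.shd e) then
        ((sg (SF.JJ (f.image F.io) (ic F e) + (c + f12w F e) ⬝ᵥ SF.tys (f.image F.io)) : ℤ) : ℝ)
        else 0) := by
  rw [h4 S SF F θ e f he hf, ← Finset.sum_mul]
  have h1 : ∑ a : SF.T, θ a (typ F e + typ F f) *
      ((SF.jj (ic F e) (e.image F.io) * sg (a ⬝ᵥ SF.tys (ic F e)) : ℤ) : ℝ) =
      f12h F θ e (typ F f) := rfl
  rw [h1, f12_four (f12h F θ e) (typ F f), Finset.sum_mul]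
  refine Finset.sum_congr rfl fun c _ => ?_
  unfold jk
  by_cases hd : Disjoint (F.Q.shd e) (F.Q.shd f)
  · rw [if_pos hd, if_pos hd.symm, SF.jj_recip (f12_dj F hd), mul_assoc]
    congr 1
    rw [add_dotProduct]
    have h2 : f12w F e ⬝ᵥ SF.tys (f.image F.io) =
        (SF.l ⬝ᵥ SF.tys (ic F e)) * (SF.l ⬝ᵥ SF.tys (f.image F.io)) := by
      unfold f12w
      rw [smul_dotProduct, smul_eq_mul]
    rw [h2]
    have h3 : SF.jj (f.image F.io) (ic F e) = sg (SF.JJ (f.image F.io) (ic F e)) := rfl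
    have h5 : typ F f = SF.tys (f.image F.io) := rfl
    rw [h3, h5, sg_add, sg_add]
    push_cast
    ring
  · rw [if_neg hd, if_neg fun h => hd h.symm, mul_zero, mul_zero]

theorem f12_sum (h4 : SF4) (θ : SF.T → SF.T → ℝ) {e : Finset F.Q.P} (he : F.Q.Gd e) (X : ℝ) :
    ∑ f ∈ F.Q.gb X, GG F.Q (th F θ) e f = ∑ c : SF.T, f12F (f12h F θ e) c *
      cF F (F.Q.shd e) (c + f12w F e, ic F e) X := by
  classical
  rw [Finset.sum_congr rfl fun f hf => f12_GG F h4 θ he (F.Q.mem_gb.1 hf).1, Finset.sum_comm]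
  refine Finset.sum_congr rfl fun c _ => ?_
  unfold cF
  rw [Finset.mul_sum]

theorem f12_bd (h4 : SF4) (θ : SF.T → SF.T → ℝ) {e : Finset F.Q.P} (he : F.Q.Gd e)
    {f : Finset F.Q.P} (hf : F.Q.Gd f) :
    |GG F.Q (th F θ) e f| ≤ ∑ c : SF.T, |f12F (f12h F θ e) c| := by
  classical
  rw [f12_GG F h4 θ he hf]
  refine (Finset.abs_sum_le_sum_abs _ _).trans (Finset.sum_le_sum fun c _ => ?_)
  rw [abs_mul]
  refine mul_le_of_le_one_right (abs_nonneg _) ?_
  split_ifs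
  · exact (f12_abs _).le
  · rw [abs_zero]
    exact zero_le_one

/-- the sum over the good sets -/
theorem f12_le (b : Finset F.Q.P → ℝ) {X : ℝ} (hX : 0 ≤ X) :
    ∑ i ∈ (gdN F.Q).le X, b i.1 = ∑ f ∈ F.Q.gb X, b f := by
  refine Finset.sum_bij (fun i _ => i.1) (fun i hi => ?_) (fun i _ j _ h => Subtype.ext h)
    (fun f hf => ?_) fun _ _ => rfl
  · exact F.Q.mem_gb.2 ⟨i.2, ((gdN F.Q).mem_le hX).1 hi⟩
  · have h1 := F.Q.mem_gb.1 hf
    exact ⟨⟨f, h1.1⟩, ((gdN F.Q).mem_le hX).2 h1.2, rfl⟩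

theorem f12_lim (h4 : SF4) (h2 : SF2) (hl : SL7) (θ : SF.T → SF.T → ℝ) {e : Finset F.Q.P}
    (he : F.Q.Gd e) (l : SF.T → ℝ)
    (h : ∀ c : SF.T, Tendsto (fun X => cF F (F.Q.shd e) (c + f12w F e, ic F e) X / X) atTop
      (𝓝 (l c))) :
    Tendsto (fun x : ℝ => (∑' f : (gdN F.Q).I, GG F.Q (th F θ) e f.1 *
      Real.exp (-((F.Q.nq f.1 : ℝ) / x))) / x) atTop
      (𝓝 (∑ c : SF.T, f12F (f12h F θ e) c * l c)) := by
  obtain ⟨K, hK, hLin⟩ := h2 S SF F
  refine hl (gdN F.Q) (fun f => GG F.Q (th F θ) e f.1)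
    (∑ c : SF.T, |f12F (f12h F θ e) c|) K _ (fun f => f12_bd F h4 θ he f.2) hLin ?_
  have h3 : Tendsto (fun X : ℝ => ∑ c : SF.T, f12F (f12h F θ e) c *
      (cF F (F.Q.shd e) (c + f12w F e, ic F e) X / X)) atTop
      (𝓝 (∑ c : SF.T, f12F (f12h F θ e) c * l c)) :=
    tendsto_finset_sum _ fun c _ => (h c).const_mul _
  refine h3.congr' ?_
  filter_upwards [eventually_ge_atTop (0 : ℝ)] with X hX
  rw [f12_le F (fun f => GG F.Q (th F θ) e f) hX, f12_sum F h4 θ he X, Finset.sum_div]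
  refine Finset.sum_congr rfl fun c _ => ?_
  rw [mul_div_assoc]

end

theorem f12 (h4 : SF4) (h8 : SF8) (h2 : SF2) (hl : SL7) : SF12 := by
  intro S SF F θ
  refine ⟨fun e he => ?_, fun l hlim => ?_⟩
  · have hic : ic F e.1 ≠ ∅ := by
      intro h
      apply he
      unfold ic at h
      rwa [Finset.image_eq_empty, Finset.image_eq_empty] at h
    have h1 := f12_lim F h4 h2 hl θ e.2 (fun _ => 0) fun c => by
      obtain ⟨l, hl1, hl2⟩ := h8 S SF F (F.Q.shd e.1) (c + f12w F e.1, ic F e.1)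
        (f12_sub F e.1)
      rw [← hl2 fun h => hic (congrArg Prod.snd h)]
      exact hl1
    simp only [mul_zero, Finset.sum_const_zero] at h1
    have hn : (0 : ℝ) < F.Q.nq e.1 := by
      exact_mod_cast (gdN F.Q).one_le e
    have h3 : Tendsto (fun x : ℝ => x / (F.Q.nq e.1 : ℝ)) atTop atTop :=
      tendsto_id.atTop_div_const hn
    have h5 := (h1.comp h3).const_mul (1 / (F.Q.nq e.1 : ℝ))
    rw [mul_zero] at h5
    refine h5.congr fun x => ?_
    have h6 : ∀ f : (gdN F.Q).I, (F.Q.nq f.1 : ℝ) / (x / (F.Q.nq e.1 : ℝ)) =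
        (F.Q.nq e.1 : ℝ) * (F.Q.nq f.1 : ℝ) / x := by
      intro f
      rw [div_div_eq_mul_div, mul_comm]
    show 1 / (F.Q.nq e.1 : ℝ) * ((∑' f : (gdN F.Q).I, GG F.Q (th F θ) e.1 f.1 *
      Real.exp (-((F.Q.nq f.1 : ℝ) / (x / (F.Q.nq e.1 : ℝ))))) / (x / (F.Q.nq e.1 : ℝ))) = _
    simp only [h6]
    rw [div_div_eq_mul_div]
    field_simp
  · have hg : F.Q.Gd (∅ : Finset F.Q.P) := fun a ha => absurd ha (Finset.notMem_empty a)
    have hic : ic F (∅ : Finset F.Q.P) = ∅ := by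
      unfold ic
      rw [Finset.image_empty, Finset.image_empty]
    have hsh : F.Q.shd (∅ : Finset F.Q.P) = ∅ := by
      unfold Qd.shd
      rw [Finset.image_empty]
    have hw : f12w F (∅ : Finset F.Q.P) = 0 := by
      unfold f12w
      rw [hic]
      have h1 : SF.tys (∅ : Finset SF.P) = 0 := rfl
      rw [h1, dotProduct_zero, zero_smul]
    have h1 := f12_lim F h4 h2 hl θ hg (fun c => if c = 0 then l else 0) fun c => by
      rw [hic, hsh, hw, add_zero]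
      by_cases hc : c = 0
      · rw [if_pos hc, hc]
        exact hlim
      · rw [if_neg hc]
        obtain ⟨l', hl1, hl2⟩ := h8 S SF F ∅ (c, ∅) (Finset.empty_subset _)
        rw [← hl2 fun h => hc (congrArg Prod.fst h)]
        exact hl1
    have h3 : ∑ c : SF.T, f12F (f12h F θ (∅ : Finset F.Q.P)) c * (if c = 0 then l else 0) =
        l * (∑ a : SF.T, ∑ τ : SF.T, θ a τ) / 2 ^ SF.m := by
      rw [Finset.sum_eq_single (0 : SF.T)]
      · rw [if_pos rfl]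
        unfold f12F
        have h5 : ∀ τ : SF.T, f12h F θ (∅ : Finset F.Q.P) τ *
            ((sg ((0 : SF.T) ⬝ᵥ τ) : ℤ) : ℝ) = ∑ a : SF.T, θ a τ := by
          intro τ
          unfold f12h
          have h6 : typ F (∅ : Finset F.Q.P) = 0 := by
            unfold typ
            rw [Finset.image_empty]
            rfl
          rw [hic, h6, zero_dotProduct, SF.jj_empty_left]
          have h7 : SF.tys (∅ : Finset SF.P) = 0 := rfl
          have h8 : sg 0 = 1 := rfl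
          rw [h7, h8, Int.cast_one, mul_one]
          refine Finset.sum_congr rfl fun a _ => ?_
          rw [dotProduct_zero, h8, zero_add, mul_one, Int.cast_one, mul_one]
        have h9 : (∑ τ : Fin SF.m → ZMod 2, f12h F θ (∅ : Finset F.Q.P) τ *
            ((sg ((0 : Fin SF.m → ZMod 2) ⬝ᵥ τ) : ℤ) : ℝ)) =
            ∑ a : SF.T, ∑ τ : SF.T, θ a τ := by
          rw [Finset.sum_comm]
          exact Finset.sum_congr rfl fun τ _ => h5 τ
        rw [h9]
        ring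
      · intro c _ hc
        rw [if_neg hc, mul_zero]
      · intro h
        exact absurd (Finset.mem_univ _) h
    rw [h3] at h1
    exact h1

end Pool.Agent.SK
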