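import Pool.Agent.SK.FDefs
import Pool.Agent.SK.L3
import Pool.Agent.SK.L4

/-!
# Malle's conjecture for 8T8 over number fields: row F13: the limit for fixed `e` with the
weights `wb`
-/

set_option autoImplicit false

open scoped BigOperators Topology
open Filter

namespace Pool.Agent.SK

open Pool.Agent.H98.MK (sg)
open Pool.Agent.H98.MF
open Pool.Agent.H32.MQ (Qd El Qf)

theorem f13_sg (x : ZMod 2) : 0 ≤ (1 + ((sg x : ℤ) : ℝ)) / 2 ∧ (1 + ((sg x : ℤ) : ℝ)) / 2 ≤ 1 := by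
  have h : x = 0 ∨ x = 1 := by revert x; decide
  rcases h with rfl | rfl
  · have h1 : sg 0 = 1 := rfl
    rw [h1]; norm_num
  · have h1 : sg 1 = -1 := by decide
    rw [h1]; norm_num

theorem f13_sum {S : Sys} (Q : Qd S) (β : Finset Q.P → ℝ) {X : ℝ} (hX : 0 ≤ X) :
    ∑ i ∈ (gdN Q).le X, β i.1 = ∑ f ∈ Q.gb X, β f := by
  refine Finset.sum_bij (fun i _ => i.1) ?_ ?_ ?_ ?_
  · intro i hi
    rw [Q.mem_gb]
    exact ⟨i.2, ((gdN Q).mem_le hX).1 hi⟩
  · intro i _ j _ hij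
    exact Subtype.ext hij
  · intro f hf
    rw [Q.mem_gb] at hf
    exact ⟨⟨f, hf.1⟩, ((gdN Q).mem_le hX).2 hf.2, rfl⟩
  · intro i _
    rfl

/-- F13 -/
theorem f13 (h11 : SF11) (h2 : SF2) (hg : SG2) (hl : SL7) : SF13 := by
  classical
  intro S SF F θ b hb e
  obtain ⟨K, hK1, hK⟩ := h2 S SF F
  obtain ⟨C4, -, h4⟩ := l4 l3
  let A : ℝ := ∑ a : SF.T, ∑ τ : SF.T, |θ a τ|
  have hA : 0 ≤ A := Finset.sum_nonneg fun a _ => Finset.sum_nonneg fun τ _ => abs_nonneg _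
  have hθ : ∀ γ, |th F θ γ| ≤ A := by
    intro γ
    have e1 : |θ (F.co γ).1 (F.co γ).2| ≤ ∑ τ : SF.T, |θ (F.co γ).1 τ| :=
      Finset.single_le_sum (f := fun τ => |θ (F.co γ).1 τ|) (fun τ _ => abs_nonneg _)
        (Finset.mem_univ _)
    have e2 : ∑ τ : SF.T, |θ (F.co γ).1 τ| ≤ A :=
      Finset.single_le_sum (f := fun a => ∑ τ : SF.T, |θ a τ|)
        (fun a _ => Finset.sum_nonneg fun τ _ => abs_nonneg _) (Finset.mem_univ _)
    exact e1.trans e2
  set M : ℝ := A * 4 ^ (S.m + F.Q.M.card) with hM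
  have hM0 : 0 ≤ M := by positivity
  have hGG : ∀ e f : Finset F.Q.P, |GG F.Q (th F θ) e f| ≤ M := hg S F.Q (th F θ) A hA hθ
  let β : Finset F.Q.P → ℝ := fun f => ∏ p ∈ f, wb F b p
  have hβ0 : ∀ f, 0 ≤ β f := fun f => Finset.prod_nonneg fun p _ => (f13_sg _).1
  have hβ1 : ∀ f, β f ≤ 1 := fun f => Finset.prod_le_one (fun p _ => (f13_sg _).1)
    fun p _ => (f13_sg _).2
  have hlim : Tendsto (fun X : ℝ => (∑ i ∈ (gdN F.Q).le X, β i.1) / X) atTop (𝓝 0) := by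
    refine (h11 S SF F b hb).congr' ?_
    filter_upwards [eventually_ge_atTop (0 : ℝ)] with X hX
    rw [f13_sum F.Q β hX]
  have h7 := hl (gdN F.Q) (fun i => β i.1) 1 K 0
    (fun i => by rw [abs_of_nonneg (hβ0 _)]; exact hβ1 _) hK hlim
  have hN : (1 : ℝ) ≤ (F.Q.nq e.1 : ℝ) := by exact_mod_cast (gdN F.Q).one_le e
  set N : ℝ := (F.Q.nq e.1 : ℝ) with hNdef
  have hN0 : 0 < N := by linarith
  have h8 := ((h7.comp (tendsto_id.atTop_div_const hN0)).const_mul (M / N))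
  rw [mul_zero] at h8
  refine squeeze_zero' ?_ ?_ h8
  · filter_upwards [eventually_gt_atTop (0 : ℝ)] with x hx
    refine div_nonneg (tsum_nonneg fun f => ?_) hx.le
    exact mul_nonneg (abs_nonneg _) (Real.exp_pos _).le
  · filter_upwards [eventually_gt_atTop (0 : ℝ)] with x hx
    have hxN : 0 < x / N := div_pos hx hN0
    have hs := (h4 (gdN F.Q) K (by linarith) hK (x / N) hxN).1
    have hexp : ∀ f : (gdN F.Q).I, Real.exp (-(N * (F.Q.nq f.1 : ℝ) / x)) =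
        Real.exp (-(((gdN F.Q).n f : ℝ) / (x / N))) := by
      intro f
      have e1 : ((gdN F.Q).n f : ℝ) = (F.Q.nq f.1 : ℝ) := rfl
      rw [e1, div_div_eq_mul_div, mul_comm N]
    have hle : ∀ f : (gdN F.Q).I, |(∏ p ∈ f.1, wb F b p) * GG F.Q (th F θ) e.1 f.1| *
        Real.exp (-(N * (F.Q.nq f.1 : ℝ) / x)) ≤
        M * (β f.1 * Real.exp (-(((gdN F.Q).n f : ℝ) / (x / N)))) := by
      intro f
      rw [hexp f, abs_mul, abs_of_nonneg (hβ0 f.1)]
      calc β f.1 * |GG F.Q (th F θ) e.1 f.1| * Real.exp (-(((gdN F.Q).n f : ℝ) / (x / N)))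
          ≤ β f.1 * M * Real.exp (-(((gdN F.Q).n f : ℝ) / (x / N))) :=
            mul_le_mul_of_nonneg_right (mul_le_mul_of_nonneg_left (hGG _ _) (hβ0 _))
              (Real.exp_pos _).le
        _ = _ := by ring
    have hs2 : Summable fun f : (gdN F.Q).I =>
        β f.1 * Real.exp (-(((gdN F.Q).n f : ℝ) / (x / N))) := by
      refine Summable.of_nonneg_of_le (fun f => mul_nonneg (hβ0 _) (Real.exp_pos _).le)
        (fun f => ?_) hs
      exact mul_le_of_le_one_left (Real.exp_pos _).le (hβ1 _)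
    have hs3 : Summable fun f : (gdN F.Q).I =>
        |(∏ p ∈ f.1, wb F b p) * GG F.Q (th F θ) e.1 f.1| *
          Real.exp (-(N * (F.Q.nq f.1 : ℝ) / x)) :=
      Summable.of_nonneg_of_le (fun f => mul_nonneg (abs_nonneg _) (Real.exp_pos _).le) hle
        (hs2.mul_left M)
    have h9 := hs3.tsum_le_tsum hle (hs2.mul_left M)
    rw [tsum_mul_left] at h9
    simp only [Function.comp_apply, id_eq]
    calc (∑' f : (gdN F.Q).I, |(∏ p ∈ f.1, wb F b p) * GG F.Q (th F θ) e.1 f.1| *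
          Real.exp (-(N * (F.Q.nq f.1 : ℝ) / x))) / x
        ≤ (M * ∑' f : (gdN F.Q).I, β f.1 *
            Real.exp (-(((gdN F.Q).n f : ℝ) / (x / N)))) / x :=
          div_le_div_of_nonneg_right h9 hx.le
      _ = M / N * ((∑' f : (gdN F.Q).I, β f.1 *
            Real.exp (-(((gdN F.Q).n f : ℝ) / (x / N)))) / (x / N)) := by
          generalize (∑' f : (gdN F.Q).I, β f.1 *
            Real.exp (-(((gdN F.Q).n f : ℝ) / (x / N)))) = T
          field_simp

end Pool.Agent.SK
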