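import Pool.Agent.SK.FDefs

/-!
# Malle's conjecture for 8T8 over number fields: the limit of the main sum of a fixed quadratic
extension
-/

set_option autoImplicit false

open scoped BigOperators Topology
open Filter

namespace Pool.Agent.SK

open Pool.Agent.H98.MK (sg)
open Pool.Agent.H98.MF
open Pool.Agent.H32.MQ (Qd El Qf Pk Pf)

open Classical in
private theorem f14_split {I : Type} (u : I × I → ℝ) (hu : Summable u) (T : Finset I) :
    ∑' z, u z = (∑ e ∈ T, ∑' f, u (e, f)) +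
      (∑ f ∈ T, (∑' e, u (e, f) - ∑ e ∈ T, u (e, f))) +
      ∑' z : I × I, (if z.1 ∉ T ∧ z.2 ∉ T then u z else 0) := by
  obtain ⟨v1, hv1⟩ : ∃ v : I × I → ℝ, ∀ z, v z = if z.1 ∈ T then u z else 0 :=
    ⟨_, fun _ => rfl⟩
  obtain ⟨v2, hv2⟩ : ∃ v : I × I → ℝ, ∀ z, v z = if z.1 ∉ T ∧ z.2 ∈ T then u z else 0 :=
    ⟨_, fun _ => rfl⟩
  obtain ⟨v3, hv3⟩ : ∃ v : I × I → ℝ, ∀ z, v z = if z.1 ∉ T ∧ z.2 ∉ T then u z else 0 :=
    ⟨_, fun _ => rfl⟩
  have hbd : ∀ v : I × I → ℝ, (∀ z, ‖v z‖ ≤ ‖u z‖) → Summable v := fun v hv =>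
    Summable.of_norm_bounded hu.norm hv
  have hs1 : Summable v1 := hbd v1 fun z => by
    rw [hv1]
    split_ifs
    · exact le_rfl
    · rw [norm_zero]; exact norm_nonneg _
  have hs2 : Summable v2 := hbd v2 fun z => by
    rw [hv2]
    split_ifs
    · exact le_rfl
    · rw [norm_zero]; exact norm_nonneg _
  have hs3 : Summable v3 := hbd v3 fun z => by
    rw [hv3]
    split_ifs
    · exact le_rfl
    · rw [norm_zero]; exact norm_nonneg _
  have h0 : ∀ z, u z = v1 z + v2 z + v3 z := by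
    intro z
    rw [hv1, hv2, hv3]
    by_cases h1 : z.1 ∈ T
    · rw [if_pos h1, if_neg (fun h => h.1 h1), if_neg (fun h => h.1 h1)]
      ring
    · by_cases h2 : z.2 ∈ T
      · rw [if_neg h1, if_pos ⟨h1, h2⟩, if_neg (fun h => h.2 h2)]
        ring
      · rw [if_neg h1, if_neg (fun h => h2 h.2), if_pos ⟨h1, h2⟩]
        ring
  have h1 : ∑' z, u z = (∑' z, v1 z) + (∑' z, v2 z) + ∑' z, v3 z := by
    rw [← hs1.tsum_add hs2, ← (hs1.add hs2).tsum_add hs3]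
    exact tsum_congr h0
  have h2 : ∑' z, v1 z = ∑ e ∈ T, ∑' f, u (e, f) := by
    rw [hs1.tsum_prod, tsum_eq_sum (s := T)]
    · refine Finset.sum_congr rfl fun e he => ?_
      refine tsum_congr fun f => ?_
      rw [hv1]
      exact if_pos he
    · intro e he
      have : ∀ f : I, v1 (e, f) = 0 := fun f => by
        rw [hv1]
        exact if_neg he
      rw [tsum_congr this, tsum_zero]
  have h3 : ∑' z, v2 z = ∑ f ∈ T, (∑' e, u (e, f) - ∑ e ∈ T, u (e, f)) := by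
    obtain ⟨w, hw⟩ : ∃ w : I × I → ℝ, ∀ z, w z = v2 (z.2, z.1) := ⟨_, fun _ => rfl⟩
    have hw' : w = fun z => v2 ((Equiv.prodComm I I) z) := funext hw
    have hsw : Summable w := by
      rw [hw']
      exact (Equiv.prodComm I I).summable_iff.2 hs2
    have h4 : ∑' z, v2 z = ∑' z, w z := by
      rw [hw']
      exact ((Equiv.prodComm I I).tsum_eq v2).symm
    rw [h4, hsw.tsum_prod, tsum_eq_sum (s := T)]
    · refine Finset.sum_congr rfl fun f hf => ?_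
      have hfs : Summable fun e => u (e, f) :=
        ((Equiv.prodComm I I).summable_iff.2 hu).prod_factor f
      obtain ⟨y1, hy1⟩ : ∃ y : I → ℝ, ∀ e, y e = if e ∈ T then u (e, f) else 0 :=
        ⟨_, fun _ => rfl⟩
      have h5 : ∀ e : I, u (e, f) = w (f, e) + y1 e := by
        intro e
        rw [hw, hv2, hy1]
        by_cases he : e ∈ T
        · rw [if_neg (fun h => h.1 he), if_pos he, zero_add]
        · rw [if_pos ⟨he, hf⟩, if_neg he, add_zero]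
      have h6 : Summable y1 := by
        refine Summable.of_norm_bounded hfs.norm fun z => ?_
        rw [hy1]
        split_ifs
        · exact le_rfl
        · rw [norm_zero]; exact norm_nonneg _
      have h7 : Summable fun e : I => w (f, e) := hsw.prod_factor f
      have h8 : ∑' e : I, y1 e = ∑ e ∈ T, u (e, f) := by
        rw [tsum_eq_sum (s := T)]
        · refine Finset.sum_congr rfl fun e he => ?_
          rw [hy1]
          exact if_pos he
        · intro e he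
          rw [hy1]
          exact if_neg he
      have h9 : ∑' e, u (e, f) = (∑' e : I, w (f, e)) + ∑ e ∈ T, u (e, f) := by
        rw [← h8, ← h7.tsum_add h6]
        exact tsum_congr h5
      rw [h9, add_sub_cancel_right]
    · intro f hf
      have : ∀ e : I, w (f, e) = 0 := fun e => by
        rw [hw, hv2]
        exact if_neg fun h => hf h.2
      rw [tsum_congr this, tsum_zero]
  rw [h1, h2, h3]
  congr 1
  exact tsum_congr hv3

open Classical in
private theorem f14_abs {I : Type} (u : ℝ → I × I → ℝ) (tt : ℝ → ℝ) (T : ℕ → Finset I) (e0 : I)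
    (L1 L2 M D γ : ℝ) (hγ : 0 < γ)
    (hsum : ∀ x, 0 < x → Summable (u x) ∧ tt x = ∑' z, u x z)
    (he0 : ∀ E, 1 ≤ E → e0 ∈ T E) (hM : ∀ x, 0 < x → ∀ z, |u x z| ≤ M)
    (hr0 : Tendsto (fun x => (∑' f, u x (e0, f)) / x) atTop (𝓝 L1))
    (hr : ∀ e, e ≠ e0 → Tendsto (fun x => (∑' f, u x (e, f)) / x) atTop (𝓝 0))
    (hc0 : Tendsto (fun x => (∑' e, u x (e, e0)) / x) atTop (𝓝 L2))
    (hc : ∀ f, f ≠ e0 → Tendsto (fun x => (∑' e, u x (e, f)) / x) atTop (𝓝 0))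
    (htail : ∀ (E : ℕ) (x : ℝ), 0 < x →
      |∑' z : I × I, (if z.1 ∉ T E ∧ z.2 ∉ T E then u x z else 0)| ≤
        D * x * ((2 : ℝ) ^ E) ^ (-γ)) :
    Tendsto (fun x => tt x / x) atTop (𝓝 (L1 + L2)) := by
  -- the main part
  have hmain : ∀ E : ℕ, 1 ≤ E → Tendsto (fun x : ℝ => ((∑ e ∈ T E, ∑' f, u x (e, f)) +
      (∑ f ∈ T E, (∑' e, u x (e, f) - ∑ e ∈ T E, u x (e, f)))) / x) atTop (𝓝 (L1 + L2)) := by
    intro E hE
    have hsel : ∀ c : ℝ, ∑ e ∈ T E, (if e = e0 then c else 0) = c := by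
      intro c
      rw [Finset.sum_ite_eq' (T E) e0 fun _ => c, if_pos (he0 E hE)]
    have hA1 : Tendsto (fun x : ℝ => ∑ e ∈ T E, (∑' f, u x (e, f)) / x) atTop (𝓝 L1) := by
      have h8 : Tendsto (fun x : ℝ => ∑ e ∈ T E, (∑' f, u x (e, f)) / x) atTop
          (𝓝 (∑ e ∈ T E, (if e = e0 then L1 else 0))) := by
        refine tendsto_finsetSum _ fun e _ => ?_
        by_cases he : e = e0
        · rw [if_pos he, he]
          exact hr0
        · rw [if_neg he]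
          exact hr e he
      rwa [hsel] at h8
    have hA2 : Tendsto (fun x : ℝ => ∑ f ∈ T E, (∑' e, u x (e, f)) / x) atTop (𝓝 L2) := by
      have h8 : Tendsto (fun x : ℝ => ∑ f ∈ T E, (∑' e, u x (e, f)) / x) atTop
          (𝓝 (∑ f ∈ T E, (if f = e0 then L2 else 0))) := by
        refine tendsto_finsetSum _ fun f _ => ?_
        by_cases hf : f = e0
        · rw [if_pos hf, hf]
          exact hc0
        · rw [if_neg hf]
          exact hc f hf
      rwa [hsel] at h8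
    have hA3 : Tendsto (fun x : ℝ => ∑ f ∈ T E, ∑ e ∈ T E, u x (e, f) / x) atTop (𝓝 0) := by
      have h8 : Tendsto (fun x : ℝ => ∑ f ∈ T E, ∑ e ∈ T E, u x (e, f) / x) atTop
          (𝓝 (∑ f ∈ T E, ∑ e ∈ T E, (0 : ℝ))) := by
        refine tendsto_finsetSum _ fun f _ => tendsto_finsetSum _ fun e _ => ?_
        have h9 : Tendsto (fun x : ℝ => M * x⁻¹) atTop (𝓝 0) := by
          have := tendsto_inv_atTop_zero.const_mul M
          rwa [mul_zero] at this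
        refine squeeze_zero_norm' ?_ h9
        filter_upwards [eventually_gt_atTop (0 : ℝ)] with x hx
        rw [Real.norm_eq_abs, abs_div, abs_of_pos hx, div_eq_mul_inv]
        exact mul_le_mul_of_nonneg_right (hM x hx _) (inv_nonneg.2 hx.le)
      simpa using h8
    have h8 := (hA1.add hA2).sub hA3
    rw [sub_zero] at h8
    refine h8.congr fun x => ?_
    rw [← Finset.sum_div, ← Finset.sum_div, Finset.sum_congr rfl fun f _ =>
      (Finset.sum_div (T E) (fun e => u x (e, f)) x).symm, ← Finset.sum_div,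
      Finset.sum_sub_distrib]
    ring
  have htail' : ∀ (E : ℕ) (x : ℝ), 0 < x →
      |tt x / x - ((∑ e ∈ T E, ∑' f, u x (e, f)) +
        (∑ f ∈ T E, (∑' e, u x (e, f) - ∑ e ∈ T E, u x (e, f)))) / x| ≤
        D * ((2 : ℝ) ^ E) ^ (-γ) := by
    intro E x hx
    obtain ⟨hs1, hs2⟩ := hsum x hx
    rw [hs2, f14_split (u x) hs1 (T E), ← sub_div, add_sub_cancel_left, abs_div,
      abs_of_pos hx, div_le_iff₀ hx]
    refine (htail E x hx).trans (le_of_eq ?_)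
    ring
  have hdec : Tendsto (fun E : ℕ => D * ((2 : ℝ) ^ E) ^ (-γ)) atTop (𝓝 0) := by
    have h8 : Tendsto (fun E : ℕ => ((2 : ℝ) ^ E) ^ (-γ)) atTop (𝓝 0) :=
      (tendsto_rpow_neg_atTop hγ).comp (tendsto_pow_atTop_atTop_of_one_lt one_lt_two)
    have h9 := h8.const_mul D
    rwa [mul_zero] at h9
  rw [Metric.tendsto_atTop]
  intro δ hδ
  obtain ⟨E, hE1, hE2⟩ := ((hdec.eventually_lt_const (half_pos hδ)).and
    (eventually_ge_atTop 1)).exists
  have h8 := hmain E hE2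
  rw [Metric.tendsto_atTop] at h8
  obtain ⟨N, hN⟩ := h8 (δ / 2) (half_pos hδ)
  refine ⟨max N 1, fun x hx => ?_⟩
  have hx0 : 0 < x := lt_of_lt_of_le one_pos ((le_max_right _ _).trans hx)
  have h9 := hN x ((le_max_left _ _).trans hx)
  have h10 := htail' E x hx0
  rw [Real.dist_eq] at h9 ⊢
  have h11 := abs_sub_le (tt x / x)
    (((∑ e ∈ T E, ∑' f, u x (e, f)) +
      (∑ f ∈ T E, (∑' e, u x (e, f) - ∑ e ∈ T E, u x (e, f)))) / x) (L1 + L2)
  linarith

/-- F14: the limit of the main sum -/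
theorem f14 (h1 : SG1) (hg : SG2) (h2 : SF2) (h5 : SF5) (h6 : SF6) (h12 : SF12) (l6 : SL6)
    (_l5 : SL5) : SF14 := by
  classical
  intro S SF F θ hs hspn l hl
  obtain ⟨K, hK1, hLin⟩ := h2 S SF F
  obtain ⟨B, η, hB, hη, hBil⟩ := h5 S SF F θ
  -- the bound of the weight
  obtain ⟨A, hA⟩ : ∃ A : ℝ, A = ∑ a : SF.T, ∑ τ : SF.T, |θ a τ| := ⟨_, rfl⟩
  have hA0 : 0 ≤ A := by
    rw [hA]
    exact Finset.sum_nonneg fun a _ => Finset.sum_nonneg fun τ _ => abs_nonneg _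
  have hAθ : ∀ a τ, |θ a τ| ≤ A := by
    intro a τ
    rw [hA]
    calc |θ a τ| ≤ ∑ τ : SF.T, |θ a τ| :=
          Finset.single_le_sum (f := fun τ => |θ a τ|) (fun _ _ => abs_nonneg _)
            (Finset.mem_univ τ)
      _ ≤ _ := Finset.single_le_sum (f := fun a => ∑ τ : SF.T, |θ a τ|)
          (fun _ _ => Finset.sum_nonneg fun _ _ => abs_nonneg _) (Finset.mem_univ a)
  have hAth : ∀ γ, |th F θ γ| ≤ A := fun γ => hAθ _ _
  obtain ⟨M, hM⟩ : ∃ M : ℝ, M = A * 4 ^ (S.m + F.Q.M.card) := ⟨_, rfl⟩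
  have hM0 : 0 ≤ M := by rw [hM]; positivity
  have hGM : ∀ e f : Finset F.Q.P, |GG F.Q (th F θ) e f| ≤ M := by
    intro e f
    rw [hM]
    exact hg S F.Q (th F θ) A hA0 hAth e f
  obtain ⟨C6, hC6, h6'⟩ := l6 η (1 / 10) hη (by norm_num) le_rfl
  -- the terms
  obtain ⟨u, hu⟩ : ∃ u : ℝ → (gdN F.Q).I × (gdN F.Q).I → ℝ, ∀ x z,
      u x z = GG F.Q (th F θ) z.1.1 z.2.1 *
        Real.exp (-((F.Q.nq z.1.1 : ℝ) * (F.Q.nq z.2.1 : ℝ) / x)) := ⟨_, fun _ _ => rfl⟩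
  have hsum : ∀ x : ℝ, 0 < x → Summable (u x) ∧
      TT F.Q (th F θ) (fun _ => 1) x = ∑' z, u x z := by
    intro x hx
    obtain ⟨_, h8, h9⟩ := h1 S F.Q (th F θ) A K (fun _ => 1) hAth (fun _ => by simp)
      (by linarith) hLin x hx
    have h10 : ∀ z : (gdN F.Q).I × (gdN F.Q).I, (∏ p ∈ z.1.1, (fun _ => (1 : ℝ)) p) *
        (∏ p ∈ z.2.1, (fun _ => (1 : ℝ)) p) * GG F.Q (th F θ) z.1.1 z.2.1 *
        Real.exp (-((F.Q.nq z.1.1 : ℝ) * (F.Q.nq z.2.1 : ℝ) / x)) = u x z := by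
      intro z
      rw [hu, Finset.prod_const_one, Finset.prod_const_one, one_mul, one_mul]
    refine ⟨(summable_congr h10).1 h8, ?_⟩
    rw [h9]
    unfold PP
    exact tsum_congr h10
  -- the symmetric weight
  obtain ⟨θ', hθ'⟩ : ∃ θ' : SF.T → SF.T → ℝ, θ' = fun a τ => θ a τ * ((sg (hs a τ) : ℤ) : ℝ) :=
    ⟨_, rfl⟩
  have husym : ∀ x (e f : (gdN F.Q).I), u x (e, f) = GG F.Q (th F θ') f.1 e.1 *
      Real.exp (-((F.Q.nq f.1 : ℝ) * (F.Q.nq e.1 : ℝ) / x)) := by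
    intro x e f
    rw [hu, hθ', h6 S SF F θ hs hspn e.1 f.1 e.2 f.2, mul_comm (F.Q.nq e.1 : ℝ)]
  -- the limits for fixed `e`
  have hempty : F.Q.nq ∅ = 1 := by
    unfold Qd.nq Qd.shd
    rw [Finset.image_empty]
    exact S.nm_empty
  have hlim : ∀ (ψ : SF.T → SF.T → ℝ) (e : (gdN F.Q).I),
      Tendsto (fun x : ℝ => (∑' f : (gdN F.Q).I, GG F.Q (th F ψ) e.1 f.1 *
        Real.exp (-((F.Q.nq e.1 : ℝ) * (F.Q.nq f.1 : ℝ) / x))) / x) atTop
        (𝓝 (if e.1 = ∅ then l * (∑ a : SF.T, ∑ τ : SF.T, ψ a τ) / 2 ^ SF.m else 0)) := by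
    intro ψ e
    by_cases he : e.1 = ∅
    · rw [if_pos he]
      have h8 := (h12 S SF F ψ).2 l hl
      refine h8.congr fun x => ?_
      rw [he, hempty]
      congr 1
      refine tsum_congr fun f => ?_
      rw [Nat.cast_one, one_mul]
    · rw [if_neg he]
      exact (h12 S SF F ψ).1 e he
  obtain ⟨L1, hL1⟩ : ∃ L1 : ℝ, L1 = l * (∑ a : SF.T, ∑ τ : SF.T, θ a τ) / 2 ^ SF.m :=
    ⟨_, rfl⟩
  obtain ⟨L2, hL2⟩ : ∃ L2 : ℝ, L2 = l * (∑ a : SF.T, ∑ τ : SF.T, θ' a τ) / 2 ^ SF.m :=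
    ⟨_, rfl⟩
  have hL : l * (∑ a : SF.T, ∑ τ : SF.T, θ a τ * (1 + ((sg (hs a τ) : ℤ) : ℝ))) / 2 ^ SF.m =
      L1 + L2 := by
    have h8 : ∑ a : SF.T, ∑ τ : SF.T, θ a τ * (1 + ((sg (hs a τ) : ℤ) : ℝ)) =
        (∑ a : SF.T, ∑ τ : SF.T, θ a τ) + ∑ a : SF.T, ∑ τ : SF.T, θ' a τ := by
      rw [← Finset.sum_add_distrib]
      refine Finset.sum_congr rfl fun a _ => ?_
      rw [← Finset.sum_add_distrib]
      refine Finset.sum_congr rfl fun τ _ => ?_
      rw [hθ']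
      ring
    rw [h8, hL1, hL2]
    ring
  rw [hL]
  -- the empty set
  have hgd0 : F.Q.Gd ∅ := fun a ha => absurd ha (Finset.notMem_empty a)
  obtain ⟨e0, he0⟩ : ∃ e0 : (gdN F.Q).I, e0.1 = ∅ := ⟨⟨∅, hgd0⟩, rfl⟩
  have hne : ∀ e : (gdN F.Q).I, e ≠ e0 → e.1 ≠ ∅ := fun e he h =>
    he (Subtype.ext (h.trans he0.symm))
  have hne0 : (gdN F.Q).n e0 = 1 := by
    change F.Q.nq e0.1 = 1
    rw [he0, hempty]
  have hlim0 : ∀ ψ : SF.T → SF.T → ℝ,
      Tendsto (fun x : ℝ => (∑' f : (gdN F.Q).I, GG F.Q (th F ψ) e0.1 f.1 *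
        Real.exp (-((F.Q.nq e0.1 : ℝ) * (F.Q.nq f.1 : ℝ) / x))) / x) atTop
        (𝓝 (l * (∑ a : SF.T, ∑ τ : SF.T, ψ a τ) / 2 ^ SF.m)) := by
    intro ψ
    have h8 := hlim ψ e0
    rwa [if_pos he0] at h8
  have hlim1 : ∀ (ψ : SF.T → SF.T → ℝ) (e : (gdN F.Q).I), e ≠ e0 →
      Tendsto (fun x : ℝ => (∑' f : (gdN F.Q).I, GG F.Q (th F ψ) e.1 f.1 *
        Real.exp (-((F.Q.nq e.1 : ℝ) * (F.Q.nq f.1 : ℝ) / x))) / x) atTop (𝓝 0) := by
    intro ψ e he
    have h8 := hlim ψ e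
    rwa [if_neg (hne e he)] at h8
  -- the sets
  obtain ⟨T, hT⟩ : ∃ T : ℕ → Finset (gdN F.Q).I, ∀ E i, i ∈ T E ↔ (gdN F.Q).n i < 2 ^ E := by
    refine ⟨fun E => (((gdN F.Q).fin (2 ^ E)).toFinset).filter
      (fun i => (gdN F.Q).n i < 2 ^ E), fun E i => ?_⟩
    rw [Finset.mem_filter, Set.Finite.mem_toFinset]
    exact ⟨fun h => h.2, fun h => ⟨le_of_lt h, h⟩⟩
  refine f14_abs u (fun x => TT F.Q (th F θ) (fun _ => 1) x) T e0 L1 L2 M
    (C6 * B ^ (1 / 10 : ℝ) * (M * K ^ 2) ^ (1 - (1 / 10 : ℝ))) (η * (1 / 10)) (by positivity)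
    hsum ?_ ?_ ?_ ?_ ?_ ?_ ?_
  · intro E hE
    rw [hT, hne0]
    exact Nat.one_lt_two_pow (by omega)
  · intro x hx z
    rw [hu, abs_mul, Real.abs_exp]
    refine (mul_le_of_le_one_right (abs_nonneg _) ?_).trans (hGM _ _)
    rw [Real.exp_le_one_iff, neg_nonpos]
    positivity
  · rw [hL1]
    refine (hlim0 θ).congr fun x => ?_
    congr 1
    exact tsum_congr fun f => (hu x (e0, f)).symm
  · intro e he
    refine (hlim1 θ e he).congr fun x => ?_
    congr 1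
    exact tsum_congr fun f => (hu x (e, f)).symm
  · rw [hL2]
    refine (hlim0 θ').congr fun x => ?_
    congr 1
    exact tsum_congr fun e => (husym x e e0).symm
  · intro f hf
    refine (hlim1 θ' f hf).congr fun x => ?_
    congr 1
    exact tsum_congr fun e => (husym x e f).symm
  · intro E x hx
    have h9 := h6' (gdN F.Q) (gdN F.Q) (fun e f => GG F.Q (th F θ) e.1 f.1) B M K hB hM0
      (by linarith) hLin hLin (fun e f => hGM e.1 f.1) hBil (fun _ => 1) (fun _ => 1)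
      (fun _ => by simp) (fun _ => by simp) E x hx
    have h10 : ∑' z : (gdN F.Q).I × (gdN F.Q).I, (if z.1 ∉ T E ∧ z.2 ∉ T E then u x z else 0) =
        ∑' z : (gdN F.Q).I × (gdN F.Q).I,
          (if 2 ^ E ≤ (gdN F.Q).n z.1 ∧ 2 ^ E ≤ (gdN F.Q).n z.2 then
          (fun _ => (1 : ℝ)) z.1 * (fun _ => (1 : ℝ)) z.2 *
            (fun e f : (gdN F.Q).I => GG F.Q (th F θ) e.1 f.1) z.1 z.2 *
            Real.exp (-(((gdN F.Q).n z.1 : ℝ) * ((gdN F.Q).n z.2 : ℝ) / x)) else 0) := by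
      refine tsum_congr fun z => ?_
      have h11 := hT E z.1
      have h12 := hT E z.2
      by_cases hz : z.1 ∉ T E ∧ z.2 ∉ T E
      · rw [if_pos hz, if_pos ⟨not_lt.1 fun h => hz.1 (h11.2 h),
          not_lt.1 fun h => hz.2 (h12.2 h)⟩, hu, one_mul, one_mul]
        rfl
      · rw [if_neg hz, if_neg]
        exact fun h => hz ⟨fun h' => absurd (h11.1 h') (not_lt.2 h.1),
          fun h' => absurd (h12.1 h') (not_lt.2 h.2)⟩
    refine le_trans (le_of_eq (congrArg abs ?_)) (h9.trans (le_of_eq ?_))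
    · exact h10
    · ring

end Pool.Agent.SK
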