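import Pool.Agent.SK.FDefs

/-!
# Malle's conjecture for 8T8 over number fields: the main sum with weights (row F15)
-/

set_option autoImplicit false

open scoped BigOperators Topology
open Filter

namespace Pool.Agent.SK

open Pool.Agent.H98.MK (sg)
open Pool.Agent.H98.MF
open Pool.Agent.H32.MQ (Qd El Qf Pk Pf)

/-- a sum over pairs restricted to finitely many first coordinates -/
theorem f15_fst {I J : Type} (P : I × J → ℝ) (hP : Summable P) (T : Finset I)
    (Q : I × J → ℝ) (hQ : ∀ z : I × J, z.1 ∈ T → Q z = P z)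
    (hQ' : ∀ z : I × J, z.1 ∉ T → Q z = 0) :
    Summable Q ∧ ∑' z, Q z = ∑ e ∈ T, ∑' f, P (e, f) := by
  classical
  have e1 : Q = Set.indicator {z : I × J | z.1 ∈ T} P := by
    funext z
    by_cases h : z.1 ∈ T
    · rw [hQ z h, Set.indicator_of_mem (show z ∈ {z : I × J | z.1 ∈ T} from h)]
    · rw [hQ' z h, Set.indicator_of_notMem (show z ∉ {z : I × J | z.1 ∈ T} from h)]
  have hs : Summable Q := by
    rw [e1]
    exact hP.indicator _
  refine ⟨hs, ?_⟩
  rw [hs.tsum_prod, tsum_eq_sum (s := T)]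
  · refine Finset.sum_congr rfl fun e he => tsum_congr fun f => ?_
    exact hQ (e, f) he
  · intro e he
    have h0 : ∀ f, Q (e, f) = 0 := fun f => hQ' (e, f) he
    rw [tsum_congr h0, tsum_zero]

section

variable {S SF : Sys} (F : Qc S SF)

theorem f15_wb (b : S.T) (p : F.Q.P) : |wb F b p| ≤ 1 := by
  unfold wb sg
  split_ifs <;> norm_num

theorem f15_prod (b : S.T) (e : Finset F.Q.P) : |∏ p ∈ e, wb F b p| ≤ 1 := by
  rw [Finset.abs_prod]
  exact Finset.prod_le_one (fun p _ => abs_nonneg _) fun p _ => f15_wb F b p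

theorem f15_th (θ : SF.T → SF.T → ℝ) (γ : F.Q.G) : |th F θ γ| ≤ ∑ a, ∑ τ, |θ a τ| := by
  unfold th
  refine (Finset.single_le_sum (f := fun τ => |θ (F.co γ).1 τ|) (fun τ _ => abs_nonneg _)
    (Finset.mem_univ (F.co γ).2)).trans ?_
  exact Finset.single_le_sum (f := fun a => ∑ τ, |θ a τ|)
    (fun a _ => Finset.sum_nonneg fun τ _ => abs_nonneg _) (Finset.mem_univ (F.co γ).1)

end

/-- Row F15: the main sum with the weights `wb` -/
theorem f15 (h1 : SG1) (hg : SG2) (h2 : SF2) (h5 : SF5) (h6 : SF6) (h13 : SF13) (l6 : SL6)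
    (_l5 : SL5) : SF15 := by
  classical
  intro S SF F θ hs hsp b hb
  set Θ := th F θ with hΘ
  set w := wb F b with hw
  set A := ∑ a, ∑ τ, |θ a τ| with hA
  have hA0 : 0 ≤ A := Finset.sum_nonneg fun a _ => Finset.sum_nonneg fun τ _ => abs_nonneg _
  have hΘA : ∀ γ, |Θ γ| ≤ A := f15_th F θ
  obtain ⟨K, hK1, hK⟩ := h2 S SF F
  have hK0 : 0 ≤ K := le_trans zero_le_one hK1
  obtain ⟨B, η, hB, hη, hBil⟩ := h5 S SF F θ
  obtain ⟨C, hC, hL6⟩ := l6 η (1 / 10) hη (by norm_num) le_rfl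
  set M := A * 4 ^ (S.m + F.Q.M.card) with hM
  have hM0 : 0 ≤ M := by positivity
  have hGM : ∀ e f : (gdN F.Q).I, |GG F.Q Θ e.1 f.1| ≤ M := fun e f => hg S F.Q Θ A hA0 hΘA e.1 f.1
  set D := C * B ^ (1 / 10 : ℝ) * (M * K ^ 2) ^ (1 - 1 / 10 : ℝ) with hD
  have hD0 : 0 ≤ D := by positivity
  -- the term of a pair
  let P : ℝ → (gdN F.Q).I × (gdN F.Q).I → ℝ := fun x z =>
    (∏ p ∈ z.1.1, w p) * (∏ p ∈ z.2.1, w p) * GG F.Q Θ z.1.1 z.2.1 *
      Real.exp (-((F.Q.nq z.1.1 : ℝ) * (F.Q.nq z.2.1 : ℝ) / x))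
  let Se : (gdN F.Q).I → ℝ → ℝ := fun e x => ∑' f : (gdN F.Q).I,
    |(∏ p ∈ f.1, w p) * GG F.Q Θ e.1 f.1| *
      Real.exp (-((F.Q.nq e.1 : ℝ) * (F.Q.nq f.1 : ℝ) / x))
  let Sf : (gdN F.Q).I → ℝ → ℝ := fun e x => ∑' f : (gdN F.Q).I,
    |(∏ p ∈ f.1, w p) * GG F.Q (th F fun a τ => θ a τ * ((sg (hs a τ) : ℤ) : ℝ)) e.1 f.1| *
      Real.exp (-((F.Q.nq e.1 : ℝ) * (F.Q.nq f.1 : ℝ) / x))
  have hSe : ∀ e, Tendsto (fun x => Se e x / x) atTop (𝓝 0) := h13 S SF F θ b hb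
  have hSf : ∀ e, Tendsto (fun x => Sf e x / x) atTop (𝓝 0) :=
    h13 S SF F (fun a τ => θ a τ * ((sg (hs a τ) : ℤ) : ℝ)) b hb
  have key : ∀ (E : ℕ) (x : ℝ), 0 < x → |TT F.Q Θ w x| ≤
      D * x * ((2 : ℝ) ^ E) ^ (-(η * (1 / 10))) +
        (∑ e ∈ (gdN F.Q).le (2 ^ E), Se e x + ∑ e ∈ (gdN F.Q).le (2 ^ E), Sf e x) := by
    intro E x hx
    obtain ⟨-, hsum, hTT⟩ := h1 S F.Q Θ A K w hΘA (f15_wb F b) hK0 hK x hx
    have hsumP : Summable (P x) := hsum
    have hTP : TT F.Q Θ w x = ∑' z, P x z := hTT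
    set T := (gdN F.Q).le (2 ^ E) with hT
    have hmemT : ∀ e : (gdN F.Q).I, ¬ 2 ^ E ≤ (gdN F.Q).n e → e ∈ T := by
      intro e he
      rw [hT, (gdN F.Q).mem_le (by positivity)]
      exact_mod_cast (not_le.1 he).le
    -- the three parts
    let J : (gdN F.Q).I × (gdN F.Q).I → ℝ := fun z =>
      if 2 ^ E ≤ (gdN F.Q).n z.1 ∧ 2 ^ E ≤ (gdN F.Q).n z.2 then P x z else 0
    have hJs : Summable J := by
      have e1 : J = Set.indicator {z : (gdN F.Q).I × (gdN F.Q).I |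
          2 ^ E ≤ (gdN F.Q).n z.1 ∧ 2 ^ E ≤ (gdN F.Q).n z.2} (P x) := by
        funext z
        by_cases h : 2 ^ E ≤ (gdN F.Q).n z.1 ∧ 2 ^ E ≤ (gdN F.Q).n z.2
        · rw [Set.indicator_of_mem (show z ∈ {z : (gdN F.Q).I × (gdN F.Q).I |
            2 ^ E ≤ (gdN F.Q).n z.1 ∧ 2 ^ E ≤ (gdN F.Q).n z.2} from h)]
          exact if_pos h
        · rw [Set.indicator_of_notMem (show z ∉ {z : (gdN F.Q).I × (gdN F.Q).I |
            2 ^ E ≤ (gdN F.Q).n z.1 ∧ 2 ^ E ≤ (gdN F.Q).n z.2} from h)]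
          exact if_neg h
      rw [e1]
      exact hsumP.indicator _
    have hJ : |∑' z, J z| ≤ D * x * ((2 : ℝ) ^ E) ^ (-(η * (1 / 10))) := by
      have h3 := hL6 (gdN F.Q) (gdN F.Q) (fun e f => GG F.Q Θ e.1 f.1) B M K hB hM0 hK0 hK hK
        hGM hBil (fun e => ∏ p ∈ e.1, w p) (fun e => ∏ p ∈ e.1, w p)
        (fun e => f15_prod F b e.1) (fun e => f15_prod F b e.1) E x hx
      exact h3
    -- absolute values
    have habs : Summable fun z => |P x z| := hsumP.abs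
    obtain ⟨hs1, he1⟩ := f15_fst (fun z => |P x z|) habs T
      (fun z => if z.1 ∈ T then |P x z| else 0) (fun z hz => if_pos hz) fun z hz => if_neg hz
    have habs' : Summable fun z : (gdN F.Q).I × (gdN F.Q).I => |P x z.swap| :=
      (Equiv.prodComm (gdN F.Q).I (gdN F.Q).I).summable_iff.2 habs
    obtain ⟨hs2, he2⟩ := f15_fst (fun z => |P x z.swap|) habs' T
      (fun z => if z.1 ∈ T then |P x z.swap| else 0) (fun z hz => if_pos hz)
      fun z hz => if_neg hz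
    have hs2' : Summable fun z : (gdN F.Q).I × (gdN F.Q).I =>
        if z.2 ∈ T then |P x z| else 0 :=
      (Equiv.prodComm (gdN F.Q).I (gdN F.Q).I).summable_iff.1 hs2
    have he2' : ∑' z : (gdN F.Q).I × (gdN F.Q).I, (if z.2 ∈ T then |P x z| else 0) =
        ∑ e ∈ T, ∑' f, |P x (f, e)| := by
      refine Eq.trans ?_ he2
      exact ((Equiv.prodComm (gdN F.Q).I (gdN F.Q).I).tsum_eq
        (fun z => if z.2 ∈ T then |P x z| else 0)).symm
    have hrest : |∑' z, (P x z - J z)| ≤ ∑ e ∈ T, ∑' f, |P x (e, f)| +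
        ∑ e ∈ T, ∑' f, |P x (f, e)| := by
      rw [← he1, ← he2', ← hs1.tsum_add hs2']
      have hsub : Summable fun z => P x z - J z := hsumP.sub hJs
      have h4 : |∑' z, (P x z - J z)| ≤ ∑' z, |P x z - J z| := by
        have h5 := norm_tsum_le_tsum_norm (f := fun z => P x z - J z) hsub.norm
        exact h5
      refine h4.trans (hsub.abs.tsum_le_tsum ?_ (hs1.add hs2'))
      intro z
      show |P x z - J z| ≤ (if z.1 ∈ T then |P x z| else 0) + (if z.2 ∈ T then |P x z| else 0)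
      have hn1 : 0 ≤ (if z.1 ∈ T then |P x z| else 0) := by
        split_ifs
        · exact abs_nonneg _
        · exact le_rfl
      have hn2 : 0 ≤ (if z.2 ∈ T then |P x z| else 0) := by
        split_ifs
        · exact abs_nonneg _
        · exact le_rfl
      by_cases hz : 2 ^ E ≤ (gdN F.Q).n z.1 ∧ 2 ^ E ≤ (gdN F.Q).n z.2
      · have h7 : J z = P x z := if_pos hz
        rw [h7, sub_self, abs_zero]
        exact add_nonneg hn1 hn2
      · have h7 : J z = 0 := if_neg hz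
        rw [h7, sub_zero]
        rw [not_and_or] at hz
        rcases hz with hz | hz
        · have h8 : (if z.1 ∈ T then |P x z| else 0) = |P x z| := if_pos (hmemT _ hz)
          rw [h8]
          exact le_add_of_nonneg_right hn2
        · have h8 : (if z.2 ∈ T then |P x z| else 0) = |P x z| := if_pos (hmemT _ hz)
          rw [h8]
          exact le_add_of_nonneg_left hn1
    have hexp := _l5 (gdN F.Q) (gdN F.Q) K hK0 hK hK x hx
    have hw1 : ∀ e : (gdN F.Q).I, |∏ p ∈ e.1, w p| ≤ 1 := fun e => f15_prod F b e.1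
    have hfib1 : ∀ e : (gdN F.Q).I, ∑' f, |P x (e, f)| ≤ Se e x := by
      intro e
      refine (habs.prod_factor e).tsum_le_tsum ?_ ?_
      · intro f
        show |(∏ p ∈ e.1, w p) * (∏ p ∈ f.1, w p) * GG F.Q Θ e.1 f.1 *
          Real.exp (-((F.Q.nq e.1 : ℝ) * (F.Q.nq f.1 : ℝ) / x))| ≤
          |(∏ p ∈ f.1, w p) * GG F.Q Θ e.1 f.1| *
            Real.exp (-((F.Q.nq e.1 : ℝ) * (F.Q.nq f.1 : ℝ) / x))
        rw [abs_mul, abs_of_pos (Real.exp_pos _)]
        refine mul_le_mul_of_nonneg_right ?_ (Real.exp_pos _).le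
        rw [mul_assoc, abs_mul]
        exact mul_le_of_le_one_left (abs_nonneg _) (hw1 e)
      · refine Summable.of_nonneg_of_le (fun f => by positivity) (fun f => ?_)
          ((hexp.prod_factor e).mul_left M)
        refine mul_le_mul_of_nonneg_right ?_ (Real.exp_pos _).le
        rw [abs_mul]
        exact (mul_le_of_le_one_left (abs_nonneg _) (hw1 f)).trans (hGM e f)
    have hsym : ∀ e f : (gdN F.Q).I, GG F.Q Θ f.1 e.1 =
        GG F.Q (th F fun a τ => θ a τ * ((sg (hs a τ) : ℤ) : ℝ)) e.1 f.1 := fun e f =>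
      h6 S SF F θ hs hsp f.1 e.1 f.2 e.2
    have hfib2 : ∀ e : (gdN F.Q).I, ∑' f, |P x (f, e)| ≤ Sf e x := by
      intro e
      refine (habs'.prod_factor e).tsum_le_tsum ?_ ?_
      · intro f
        show |(∏ p ∈ f.1, w p) * (∏ p ∈ e.1, w p) * GG F.Q Θ f.1 e.1 *
          Real.exp (-((F.Q.nq f.1 : ℝ) * (F.Q.nq e.1 : ℝ) / x))| ≤
          |(∏ p ∈ f.1, w p) *
            GG F.Q (th F fun a τ => θ a τ * ((sg (hs a τ) : ℤ) : ℝ)) e.1 f.1| *
            Real.exp (-((F.Q.nq e.1 : ℝ) * (F.Q.nq f.1 : ℝ) / x))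
        rw [abs_mul, abs_of_pos (Real.exp_pos _), mul_comm (F.Q.nq f.1 : ℝ), ← hsym e f]
        refine mul_le_mul_of_nonneg_right ?_ (Real.exp_pos _).le
        rw [mul_comm (∏ p ∈ f.1, w p), mul_assoc, abs_mul]
        exact mul_le_of_le_one_left (abs_nonneg _) (hw1 e)
      · refine Summable.of_nonneg_of_le (fun f => by positivity) (fun f => ?_)
          ((hexp.prod_factor e).mul_left M)
        refine mul_le_mul_of_nonneg_right ?_ (Real.exp_pos _).le
        rw [← hsym e f, abs_mul]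
        exact (mul_le_of_le_one_left (abs_nonneg _) (hw1 f)).trans (hGM f e)
    have hsplit : ∑' z, P x z = ∑' z, J z + ∑' z, (P x z - J z) := by
      rw [← hJs.tsum_add (hsumP.sub hJs)]
      exact tsum_congr fun z => by ring
    rw [hTP, hsplit]
    refine (abs_add_le _ _).trans (add_le_add hJ (hrest.trans (add_le_add ?_ ?_)))
    · exact Finset.sum_le_sum fun e _ => hfib1 e
    · exact Finset.sum_le_sum fun e _ => hfib2 e
  -- the limit
  rw [Metric.tendsto_atTop]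
  intro ε hε
  have hr0 : (0 : ℝ) ≤ (2 : ℝ) ^ (-(η * (1 / 10))) := by positivity
  have hr1 : (2 : ℝ) ^ (-(η * (1 / 10))) < 1 :=
    Real.rpow_lt_one_of_one_lt_of_neg one_lt_two (by
      have : 0 < η * (1 / 10) := by positivity
      linarith)
  have hlim : Tendsto (fun E : ℕ => D * ((2 : ℝ) ^ (-(η * (1 / 10)))) ^ E) atTop (𝓝 0) := by
    have := (tendsto_pow_atTop_nhds_zero_of_lt_one hr0 hr1).const_mul D
    rwa [mul_zero] at this
  obtain ⟨E, hE⟩ := (hlim.eventually (gt_mem_nhds (half_pos hε))).exists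
  have hEE : ((2 : ℝ) ^ E) ^ (-(η * (1 / 10))) = ((2 : ℝ) ^ (-(η * (1 / 10)))) ^ E := by
    rw [← Real.rpow_natCast, ← Real.rpow_natCast, ← Real.rpow_mul two_pos.le,
      ← Real.rpow_mul two_pos.le, mul_comm]
  have hlim2 : Tendsto (fun x : ℝ => ∑ e ∈ (gdN F.Q).le (2 ^ E), Se e x / x +
      ∑ e ∈ (gdN F.Q).le (2 ^ E), Sf e x / x) atTop (𝓝 0) := by
    have h3 := (tendsto_finsetSum ((gdN F.Q).le (2 ^ E)) fun e _ => hSe e).add
      (tendsto_finsetSum ((gdN F.Q).le (2 ^ E)) fun e _ => hSf e)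
    simpa using h3
  obtain ⟨x0, hx0⟩ := ((hlim2.eventually (gt_mem_nhds (half_pos hε))).and
    (eventually_gt_atTop 0)).exists_forall_of_atTop
  refine ⟨x0, fun x hx => ?_⟩
  obtain ⟨h3, hx1⟩ := hx0 x hx
  rw [Real.dist_eq, sub_zero, abs_div, abs_of_pos hx1]
  have h4 := key E x hx1
  rw [hEE] at h4
  rw [div_lt_iff₀ hx1]
  have h5 : ∑ e ∈ (gdN F.Q).le (2 ^ E), Se e x + ∑ e ∈ (gdN F.Q).le (2 ^ E), Sf e x =
      (∑ e ∈ (gdN F.Q).le (2 ^ E), Se e x / x +
        ∑ e ∈ (gdN F.Q).le (2 ^ E), Sf e x / x) * x := by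
    rw [← Finset.sum_div, ← Finset.sum_div, add_mul, div_mul_cancel₀ _ hx1.ne',
      div_mul_cancel₀ _ hx1.ne']
  rw [h5] at h4
  calc |TT F.Q Θ w x| ≤ _ := h4
    _ = (D * ((2 : ℝ) ^ (-(η * (1 / 10)))) ^ E + (∑ e ∈ (gdN F.Q).le (2 ^ E), Se e x / x +
        ∑ e ∈ (gdN F.Q).le (2 ^ E), Sf e x / x)) * x := by ring
    _ < (ε / 2 + ε / 2) * x := by
        refine mul_lt_mul_of_pos_right ?_ hx1
        exact add_lt_add hE h3
    _ = ε * x := by ring

end Pool.Agent.SK
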