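import Pool.Agent.SK.FDefs
import Pool.Agent.H98.MF.SCount

/-!
# Malle's conjecture for 8T8 over number fields: good sets have linear growth (row F2)
-/

set_option autoImplicit false

open scoped BigOperators Topology
open Filter

namespace Pool.Agent.SK

open Pool.Agent.H98.MK (sg)
open Pool.Agent.H98.MF
open Pool.Agent.H32.MQ (Qd El Qf Pk Pf)

open Classical in
theorem f2_nm {S SF : Sys} (F : Qc S SF) (g : Finset F.Q.P) (hg : F.Q.Gd g) :
    SF.nm (g.image F.io) = F.Q.nq g := by
  show ∏ p ∈ g.image F.io, SF.N p = ∏ p ∈ g.image F.Q.sh, S.N p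
  rw [Finset.prod_image fun a _ b _ h => F.io_inj h, Finset.prod_image fun a ha b hb h =>
    hg a ha b hb h]
  exact Finset.prod_congr rfl fun a _ => F.N_io a

theorem f2 : SF2 := by
  classical
  intro S SF F
  obtain ⟨C, hC⟩ := card_bx_le SF
  refine ⟨max C 1, le_max_right _ _, fun X hX => ?_⟩
  have hX0 : 0 ≤ X := zero_le_one.trans hX
  have h1 : ((gdN F.Q).le X).card ≤ (SF.bx X).card := by
    refine Finset.card_le_card_of_injOn (fun g => g.1.image F.io) ?_ ?_
    · intro g hg
      have h2 : (F.Q.nq g.1 : ℝ) ≤ X := ((gdN F.Q).mem_le hX0).1 (Finset.mem_coe.1 hg)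
      refine Finset.mem_coe.2 (SF.mem_bx.2 ?_)
      rw [f2_nm F g.1 g.2]
      exact h2
    · intro g _ g' _ h
      exact Subtype.ext (Finset.image_injective F.io_inj h)
  have h3 : ((SF.bx X).card : ℝ) ≤ C * X := hC X hX
  have h4 : C * X ≤ max C 1 * X := mul_le_mul_of_nonneg_right (le_max_left _ _) hX0
  exact le_trans (le_trans (by exact_mod_cast h1) h3) h4

end Pool.Agent.SK
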