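import Pool.Agent.SK.F4
import Pool.Agent.H32.MQ.EQc

/-!
# Malle's conjecture for 8T8 over number fields, row F3: the bilinear estimate for good sets with
disjoint shadows
-/

set_option autoImplicit false

open scoped BigOperators Topology
open Filter

namespace Pool.Agent.SK

open Pool.Agent.H98.MK (sg)
open Pool.Agent.H98.MF
open Pool.Agent.H32.MQ (Qd El Qf Pk Pf)

section

variable {S SF : Sys} (F : Qc S SF)

open Classical in
/-- the symbol, zero if the sets meet -/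
noncomputable def f3_kk (SF : Sys) (x y : Finset SF.P) : ℝ :=
  if Disjoint x y then ((SF.jj x y : ℤ) : ℝ) else 0

theorem f3_kk_pos {SF : Sys} {x y : Finset SF.P} (h : Disjoint x y) :
    f3_kk SF x y = ((SF.jj x y : ℤ) : ℝ) := by
  unfold f3_kk
  rw [if_pos h]

theorem f3_kk_neg {SF : Sys} {x y : Finset SF.P} (h : ¬ Disjoint x y) : f3_kk SF x y = 0 := by
  unfold f3_kk
  rw [if_neg h]

theorem f3_kk_abs (SF : Sys) (x y : Finset SF.P) : |f3_kk SF x y| ≤ 1 := by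
  by_cases h : Disjoint x y
  · rw [f3_kk_pos h, SF.abs_jj]
  · rw [f3_kk_neg h, abs_zero]
    exact zero_le_one

theorem f3_kk_left {SF : Sys} {x x' : Finset SF.P} (y : Finset SF.P) (h : Disjoint x x') :
    f3_kk SF (x ∪ x') y = f3_kk SF x y * f3_kk SF x' y := by
  by_cases h1 : Disjoint x y
  · by_cases h2 : Disjoint x' y
    · rw [f3_kk_pos h1, f3_kk_pos h2, f3_kk_pos (Finset.disjoint_union_left.2 ⟨h1, h2⟩)]
      unfold Sys.jj
      rw [SF.JJ_union_left y h, sg_add]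
      push_cast
      rfl
    · rw [f3_kk_neg h2, mul_zero, f3_kk_neg fun h3 => h2 (Finset.disjoint_union_left.1 h3).2]
  · rw [f3_kk_neg h1, zero_mul, f3_kk_neg fun h3 => h1 (Finset.disjoint_union_left.1 h3).1]

theorem f3_kk_right {SF : Sys} (x : Finset SF.P) {y y' : Finset SF.P} (h : Disjoint y y') :
    f3_kk SF x (y ∪ y') = f3_kk SF x y * f3_kk SF x y' := by
  by_cases h1 : Disjoint x y
  · by_cases h2 : Disjoint x y'
    · rw [f3_kk_pos h1, f3_kk_pos h2, f3_kk_pos (Finset.disjoint_union_right.2 ⟨h1, h2⟩)]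
      unfold Sys.jj
      rw [SF.JJ_union_right x h, sg_add]
      push_cast
      rfl
    · rw [f3_kk_neg h2, mul_zero, f3_kk_neg fun h3 => h2 (Finset.disjoint_union_right.1 h3).2]
  · rw [f3_kk_neg h1, zero_mul, f3_kk_neg fun h3 => h1 (Finset.disjoint_union_right.1 h3).1]

/-! ### images -/

theorem f3_mem_ic {e : Finset F.Q.P} {P : SF.P} :
    P ∈ ic F e ↔ ∃ p ∈ e, F.io (F.Q.cj p) = P := by
  unfold ic
  rw [Finset.mem_image]
  constructor
  · rintro ⟨q, hq, rfl⟩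
    obtain ⟨p, hp, rfl⟩ := Finset.mem_image.1 hq
    exact ⟨p, hp, rfl⟩
  · rintro ⟨p, hp, rfl⟩
    exact ⟨F.Q.cj p, Finset.mem_image_of_mem _ hp, rfl⟩

theorem f3_ic_inj {e e' : Finset F.Q.P} (h : ic F e = ic F e') : e = e' := by
  have key : ∀ u v : Finset F.Q.P, ic F u = ic F v → u ⊆ v := by
    intro u v huv p hp
    have h1 : F.io (F.Q.cj p) ∈ ic F v := huv ▸ (f3_mem_ic F).2 ⟨p, hp, rfl⟩
    obtain ⟨q, hq, hqp⟩ := (f3_mem_ic F).1 h1
    have h2 := f4_cj_inj F (F.io_inj hqp)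
    rw [← h2]
    exact hq
  exact Finset.Subset.antisymm (key _ _ h) (key _ _ h.symm)

theorem f3_io_inj {e e' : Finset F.Q.P} (h : e.image F.io = e'.image F.io) : e = e' :=
  Finset.image_injective F.io_inj h

theorem f3_ic_union (e e' : Finset F.Q.P) : ic F (e ∪ e') = ic F e ∪ ic F e' := by
  ext P
  rw [Finset.mem_union, f3_mem_ic, f3_mem_ic, f3_mem_ic]
  constructor
  · rintro ⟨p, hp, rfl⟩
    rcases Finset.mem_union.1 hp with h | h
    · exact Or.inl ⟨p, h, rfl⟩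
    · exact Or.inr ⟨p, h, rfl⟩
  · rintro (⟨p, hp, rfl⟩ | ⟨p, hp, rfl⟩)
    · exact ⟨p, Finset.mem_union_left _ hp, rfl⟩
    · exact ⟨p, Finset.mem_union_right _ hp, rfl⟩

theorem f3_ic_disj {e e' : Finset F.Q.P} (h : Disjoint e e') : Disjoint (ic F e) (ic F e') := by
  rw [Finset.disjoint_left]
  intro P h1 h2
  obtain ⟨p, hp, rfl⟩ := (f3_mem_ic F).1 h1
  obtain ⟨q, hq, hqp⟩ := (f3_mem_ic F).1 h2
  have h3 := f4_cj_inj F (F.io_inj hqp)
  exact Finset.disjoint_left.1 h hp (h3 ▸ hq)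

theorem f3_gd_sub {e e' : Finset F.Q.P} (h : F.Q.Gd e) (hs : e' ⊆ e) : F.Q.Gd e' :=
  fun a ha b hb hab => h a (hs ha) b (hs hb) hab

theorem f3_nm_io {g : Finset F.Q.P} (hg : F.Q.Gd g) : SF.nm (g.image F.io) = F.Q.nq g := by
  show ∏ p ∈ g.image F.io, SF.N p = ∏ p ∈ F.Q.shd g, S.N p
  unfold Qd.shd
  rw [Finset.prod_image fun a _ b _ h => F.io_inj h, Finset.prod_image fun a ha b hb h =>
    hg a ha b hb h]
  exact Finset.prod_congr rfl fun a _ => F.N_io a

theorem f3_nm_ic {g : Finset F.Q.P} (hg : F.Q.Gd g) : SF.nm (ic F g) = F.Q.nq g := by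
  show ∏ p ∈ ic F g, SF.N p = ∏ p ∈ F.Q.shd g, S.N p
  unfold Qd.shd ic
  rw [Finset.prod_image fun a _ b _ h => F.io_inj h,
    Finset.prod_image fun a _ b _ h => f4_cj_inj F h, Finset.prod_image fun a ha b hb h =>
    hg a ha b hb h]
  exact Finset.prod_congr rfl fun a _ => by rw [F.N_io, F.Q.sh_cj]

theorem f3_nq_sdiff {g h : Finset F.Q.P} (hg : F.Q.Gd g) (hs : h ⊆ g) :
    F.Q.nq (g \ h) * F.Q.nq h = F.Q.nq g := by
  have h1 := f3_nm_io F hg
  have h2 := f3_nm_io F (f3_gd_sub F hg hs)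
  have h3 := f3_nm_io F (f3_gd_sub F hg (Finset.sdiff_subset : g \ h ⊆ g))
  rw [← h1, ← h2, ← h3]
  unfold Pre.nm
  rw [Finset.prod_image fun a _ b _ h => F.io_inj h, Finset.prod_image fun a _ b _ h =>
    F.io_inj h, Finset.prod_image fun a _ b _ h => F.io_inj h]
  exact Finset.prod_sdiff hs

theorem f3_nq_pos (g : Finset F.Q.P) : 1 ≤ F.Q.nq g := by
  show 0 < ∏ p ∈ F.Q.shd g, S.N p
  exact Finset.prod_pos fun p _ => S.one_le_N p

/-- the kernel -/
theorem f3_jk {e f : Finset F.Q.P} (he : F.Q.Gd e) (hf : F.Q.Gd f) :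
    jk F e f = (∑ h ∈ (e ∩ f).powerset, (-1 : ℝ) ^ h.card) *
      f3_kk SF (ic F e) (f.image F.io) := by
  have h0 : (∑ h ∈ (e ∩ f).powerset, (-1 : ℝ) ^ h.card) = if e ∩ f = ∅ then 1 else 0 := by
    have h1 := Finset.sum_powerset_neg_one_pow_card (x := e ∩ f)
    have h2 : (((∑ h ∈ (e ∩ f).powerset, (-1 : ℤ) ^ h.card) : ℤ) : ℝ) =
        ((if e ∩ f = ∅ then 1 else 0 : ℤ) : ℝ) := by rw [h1]
    push_cast at h2
    exact h2
  rw [h0]
  unfold jk
  by_cases h : Disjoint (F.Q.shd e) (F.Q.shd f)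
  · have h1 := f4_disj F h
    have h2 : Disjoint (ic F e) (f.image F.io) := by
      rw [Finset.disjoint_left]
      intro P hP hP2
      obtain ⟨p, hp, rfl⟩ := (f3_mem_ic F).1 hP
      obtain ⟨q, hq, hqp⟩ := Finset.mem_image.1 hP2
      have h3 := F.io_inj hqp
      refine Finset.disjoint_left.1 h (Finset.mem_image_of_mem F.Q.sh hp) ?_
      rw [← F.Q.sh_cj p, ← h3]
      exact Finset.mem_image_of_mem F.Q.sh hq
    rw [if_pos h, if_pos (Finset.disjoint_iff_inter_eq_empty.1 h1), one_mul, f3_kk_pos h2]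
  · rw [if_neg h]
    symm
    by_cases h1 : Disjoint e f
    · by_cases h2 : Disjoint (ic F e) (f.image F.io)
      · exfalso
        apply h
        rw [Finset.disjoint_left]
        intro P hP hP2
        obtain ⟨p, hp, rfl⟩ := Finset.mem_image.1 hP
        obtain ⟨q, hq, hqp⟩ := Finset.mem_image.1 hP2
        rcases F.Q.fib p q hqp.symm with h3 | h3
        · exact Finset.disjoint_left.1 h1 hp (h3 ▸ hq)
        · refine Finset.disjoint_left.1 h2 ((f3_mem_ic F).2 ⟨p, hp, rfl⟩) ?_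
          rw [← h3]
          exact Finset.mem_image_of_mem F.io hq
      · rw [f3_kk_neg h2, mul_zero]
    · rw [if_neg fun h2 => h1 (Finset.disjoint_iff_inter_eq_empty.2 h2), zero_mul]

/-- the kernel for unions -/
theorem f3_split {h e f : Finset F.Q.P} (he : h ⊆ e) (hf : h ⊆ f) :
    f3_kk SF (ic F e) (f.image F.io) = f3_kk SF (ic F h) (h.image F.io) *
      f3_kk SF (ic F (e \ h)) (h.image F.io) * f3_kk SF (ic F h) ((f \ h).image F.io) *
      f3_kk SF (ic F (e \ h)) ((f \ h).image F.io) := by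
  have h1 : ic F e = ic F h ∪ ic F (e \ h) := by
    rw [← f3_ic_union, Finset.union_sdiff_of_subset he]
  have h2 : f.image F.io = h.image F.io ∪ (f \ h).image F.io := by
    rw [← Finset.image_union, Finset.union_sdiff_of_subset hf]
  rw [h1, h2, f3_kk_left _ (f3_ic_disj F Finset.disjoint_sdiff),
    f3_kk_right _ (f4_img F Finset.disjoint_sdiff), f3_kk_right _ (f4_img F
      Finset.disjoint_sdiff)]
  ring

/-- transport of a weight -/
theorem f3_tr {h : Finset F.Q.P} (φ : Finset F.Q.P → Finset SF.P)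
    (hφ : ∀ e, F.Q.Gd e → h ⊆ e → SF.nm (φ e) * F.Q.nq h = F.Q.nq e)
    (hinj : ∀ e e', h ⊆ e → h ⊆ e' → φ e = φ e' → e = e') (α : Finset F.Q.P → ℝ)
    (hα : ∀ e, |α e| ≤ 1) : ∃ A : Finset SF.P → ℝ, (∀ x, |A x| ≤ 1) ∧
      ∀ (X : ℝ) (G : Finset SF.P → ℝ), ∑ x ∈ SF.bx (X / (F.Q.nq h : ℝ)), A x * G x =
        ∑ e ∈ (F.Q.gb X).filter (fun e => h ⊆ e), α e * G (φ e) := by
  classical
  refine ⟨fun x => if H : ∃ e, F.Q.Gd e ∧ h ⊆ e ∧ φ e = x then α H.choose else 0, ?_, ?_⟩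
  · intro x
    show |if H : ∃ e, F.Q.Gd e ∧ h ⊆ e ∧ φ e = x then α H.choose else 0| ≤ 1
    by_cases H : ∃ e, F.Q.Gd e ∧ h ⊆ e ∧ φ e = x
    · rw [dif_pos H]
      exact hα _
    · rw [dif_neg H, abs_zero]
      exact zero_le_one
  · intro X G
    have hn : (0 : ℝ) < (F.Q.nq h : ℝ) := by exact_mod_cast f3_nq_pos F h
    symm
    refine Finset.sum_of_injOn φ ?_ ?_ ?_ ?_
    · intro e he e' he' hee
      exact hinj e e' (Finset.mem_filter.1 (Finset.mem_coe.1 he)).2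
        (Finset.mem_filter.1 (Finset.mem_coe.1 he')).2 hee
    · intro e he
      have h1 := Finset.mem_filter.1 (Finset.mem_coe.1 he)
      have h2 := F.Q.mem_gb.1 h1.1
      refine Finset.mem_coe.2 (SF.mem_bx.2 ?_)
      rw [le_div_iff₀ hn]
      have h3 := hφ e h2.1 h1.2
      have h4 : (SF.nm (φ e) : ℝ) * (F.Q.nq h : ℝ) = (F.Q.nq e : ℝ) := by exact_mod_cast h3
      rw [h4]
      exact h2.2
    · intro x hx hx2
      show (if H : ∃ e, F.Q.Gd e ∧ h ⊆ e ∧ φ e = x then α H.choose else 0) * G x = 0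
      rw [dif_neg, zero_mul]
      rintro ⟨e, he, hhe, rfl⟩
      apply hx2
      refine ⟨e, Finset.mem_coe.2 (Finset.mem_filter.2 ⟨F.Q.mem_gb.2 ⟨he, ?_⟩, hhe⟩), rfl⟩
      have h5 := SF.mem_bx.1 hx
      rw [le_div_iff₀ hn] at h5
      have h3 := hφ e he hhe
      have h4 : (SF.nm (φ e) : ℝ) * (F.Q.nq h : ℝ) = (F.Q.nq e : ℝ) := by exact_mod_cast h3
      rw [h4] at h5
      exact h5
    · intro e he
      have h1 := Finset.mem_filter.1 he
      have h2 := F.Q.mem_gb.1 h1.1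
      have H : ∃ e', F.Q.Gd e' ∧ h ⊆ e' ∧ φ e' = φ e := ⟨e, h2.1, h1.2, rfl⟩
      show α e * G (φ e) = (if H : ∃ e', F.Q.Gd e' ∧ h ⊆ e' ∧ φ e' = φ e then
        α H.choose else 0) * G (φ e)
      rw [dif_pos H, hinj _ _ H.choose_spec.2.1 h1.2 H.choose_spec.2.2]

/-- sums over good sets as elements of a subtype -/
theorem f3_sub {X : ℝ} (hX : 0 ≤ X) (G : Finset F.Q.P → ℝ) :
    ∑ i ∈ (gdN F.Q).le X, G i.1 = ∑ e ∈ F.Q.gb X, G e := by
  refine Finset.sum_of_injOn (fun i : (gdN F.Q).I => (i.1 : Finset F.Q.P)) ?_ ?_ ?_ ?_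
  · intro i _ j _ hij
    exact Subtype.ext hij
  · intro i hi
    exact Finset.mem_coe.2 (F.Q.mem_gb.2 ⟨i.2, ((gdN F.Q).mem_le hX).1 (Finset.mem_coe.1 hi)⟩)
  · intro e he he2
    exfalso
    have h1 := F.Q.mem_gb.1 he
    exact he2 ⟨⟨e, h1.1⟩, Finset.mem_coe.2 (((gdN F.Q).mem_le hX).2 h1.2), rfl⟩
  · intro i _
    rfl

end

/-- F3: the bilinear estimate for good sets with disjoint shadows -/
theorem f3 (h1 : SF1) : SF3 := by
  classical
  intro S SF F
  obtain ⟨C0, η, hC0, hη, hη2, hB⟩ := h1 SF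
  have hsum := Pool.Agent.H32.MQ.EQc.summable_nm SF (2 - η) (by linarith)
  have hZ : 0 ≤ ∑' x : Finset SF.P, (SF.nm x : ℝ) ^ (-(2 - η)) :=
    tsum_nonneg fun x => Real.rpow_nonneg (Nat.cast_nonneg _) _
  refine ⟨C0 * ∑' x : Finset SF.P, (SF.nm x : ℝ) ^ (-(2 - η)), η, mul_nonneg hC0 hZ, hη, ?_⟩
  intro a b ha hb X Y hX hY
  have hX0 : 0 ≤ X := by linarith
  have hY0 : 0 ≤ Y := by linarith
  obtain ⟨a', ha'⟩ : ∃ a' : Finset F.Q.P → ℝ, a' = fun e => if he : F.Q.Gd e then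
    a ⟨e, he⟩ else 0 := ⟨_, rfl⟩
  obtain ⟨b', hb'⟩ : ∃ b' : Finset F.Q.P → ℝ, b' = fun e => if he : F.Q.Gd e then
    b ⟨e, he⟩ else 0 := ⟨_, rfl⟩
  have ha1 : ∀ e, |a' e| ≤ 1 := by
    intro e
    rw [ha']
    by_cases he : F.Q.Gd e
    · simp only [dif_pos he]
      exact ha _
    · simp only [dif_neg he, abs_zero]
      exact zero_le_one
  have hb1 : ∀ e, |b' e| ≤ 1 := by
    intro e
    rw [hb']
    by_cases he : F.Q.Gd e
    · simp only [dif_pos he]
      exact hb _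
    · simp only [dif_neg he, abs_zero]
      exact zero_le_one
  have ha2 : ∀ i : (gdN F.Q).I, a i = a' i.1 := by
    intro i
    rw [ha']
    simp only [dif_pos i.2]
    rfl
  have hb2 : ∀ i : (gdN F.Q).I, b i = b' i.1 := by
    intro i
    rw [hb']
    simp only [dif_pos i.2]
    rfl
  have e1 : ∑ i ∈ (gdN F.Q).le X, ∑ j ∈ (gdN F.Q).le Y, a i * b j * jk F i.1 j.1 =
      ∑ e ∈ F.Q.gb X, ∑ f ∈ F.Q.gb Y, a' e * b' f * jk F e f := by
    rw [← f3_sub F hX0 (fun e => ∑ f ∈ F.Q.gb Y, a' e * b' f * jk F e f)]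
    refine Finset.sum_congr rfl fun i _ => ?_
    rw [← f3_sub F hY0 (fun f => a' i.1 * b' f * jk F i.1 f)]
    refine Finset.sum_congr rfl fun j _ => ?_
    rw [ha2, hb2]
  rw [e1]
  -- the sum over the common part
  have e2 : ∑ e ∈ F.Q.gb X, ∑ f ∈ F.Q.gb Y, a' e * b' f * jk F e f =
      ∑ h ∈ F.Q.gb (min X Y), (-1 : ℝ) ^ h.card *
        ∑ e ∈ (F.Q.gb X).filter (fun e => h ⊆ e), ∑ f ∈ (F.Q.gb Y).filter (fun f => h ⊆ f),
          a' e * b' f * f3_kk SF (ic F e) (f.image F.io) := by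
    have e3 : ∀ e ∈ F.Q.gb X, ∀ f ∈ F.Q.gb Y, a' e * b' f * jk F e f =
        ∑ h ∈ F.Q.gb (min X Y), (if h ⊆ e then (if h ⊆ f then (-1 : ℝ) ^ h.card *
          (a' e * b' f * f3_kk SF (ic F e) (f.image F.io)) else 0) else 0) := by
      intro e he f hf
      have he1 := F.Q.mem_gb.1 he
      have hf1 := F.Q.mem_gb.1 hf
      have hsub : (e ∩ f).powerset ⊆ F.Q.gb (min X Y) := by
        intro h hh
        have hh1 := Finset.mem_powerset.1 hh
        have hhe : h ⊆ e := hh1.trans Finset.inter_subset_left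
        have hhf : h ⊆ f := hh1.trans Finset.inter_subset_right
        refine F.Q.mem_gb.2 ⟨f3_gd_sub F he1.1 hhe, le_min ?_ ?_⟩
        · have h2 := f3_nq_sdiff F he1.1 hhe
          have h3 : F.Q.nq h ≤ F.Q.nq e := by
            rw [← h2]
            exact Nat.le_mul_of_pos_left _ (f3_nq_pos F _)
          exact le_trans (by exact_mod_cast h3) he1.2
        · have h2 := f3_nq_sdiff F hf1.1 hhf
          have h3 : F.Q.nq h ≤ F.Q.nq f := by
            rw [← h2]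
            exact Nat.le_mul_of_pos_left _ (f3_nq_pos F _)
          exact le_trans (by exact_mod_cast h3) hf1.2
      rw [← Finset.sum_subset hsub, f3_jk F he1.1 hf1.1, Finset.sum_mul, Finset.mul_sum]
      · refine Finset.sum_congr rfl fun h hh => ?_
        have hh1 := Finset.mem_powerset.1 hh
        rw [if_pos (hh1.trans Finset.inter_subset_left),
          if_pos (hh1.trans Finset.inter_subset_right)]
        ring
      · intro h _ hh
        by_cases h2 : h ⊆ e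
        · rw [if_pos h2, if_neg fun h3 => hh (Finset.mem_powerset.2 (Finset.subset_inter h2 h3))]
        · rw [if_neg h2]
    have e4 : ∑ e ∈ F.Q.gb X, ∑ f ∈ F.Q.gb Y, a' e * b' f * jk F e f =
        ∑ e ∈ F.Q.gb X, ∑ f ∈ F.Q.gb Y, ∑ h ∈ F.Q.gb (min X Y), (if h ⊆ e then
          (if h ⊆ f then (-1 : ℝ) ^ h.card *
          (a' e * b' f * f3_kk SF (ic F e) (f.image F.io)) else 0) else 0) :=
      Finset.sum_congr rfl fun e he => Finset.sum_congr rfl fun f hf => e3 e he f hf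
    rw [e4]
    have e5 : ∀ e ∈ F.Q.gb X, ∑ f ∈ F.Q.gb Y, ∑ h ∈ F.Q.gb (min X Y), (if h ⊆ e then
          (if h ⊆ f then (-1 : ℝ) ^ h.card *
          (a' e * b' f * f3_kk SF (ic F e) (f.image F.io)) else 0) else 0) =
        ∑ h ∈ F.Q.gb (min X Y), ∑ f ∈ F.Q.gb Y, (if h ⊆ e then
          (if h ⊆ f then (-1 : ℝ) ^ h.card *
          (a' e * b' f * f3_kk SF (ic F e) (f.image F.io)) else 0) else 0) :=
      fun e _ => Finset.sum_comm
    rw [Finset.sum_congr rfl e5, Finset.sum_comm]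
    refine Finset.sum_congr rfl fun h _ => ?_
    rw [Finset.mul_sum, Finset.sum_filter]
    refine Finset.sum_congr rfl fun e _ => ?_
    by_cases h2 : h ⊆ e
    · rw [if_pos h2, Finset.mul_sum, Finset.sum_filter]
      refine Finset.sum_congr rfl fun f _ => ?_
      rw [if_pos h2]
    · rw [if_neg h2]
      refine Finset.sum_eq_zero fun f _ => ?_
      rw [if_neg h2]
  rw [e2]
  have hm : 1 ≤ min X Y := le_min hX hY
  have hm0 : 0 < min X Y := by linarith
  -- one common part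
  have e6 : ∀ h ∈ F.Q.gb (min X Y), |(-1 : ℝ) ^ h.card *
      ∑ e ∈ (F.Q.gb X).filter (fun e => h ⊆ e), ∑ f ∈ (F.Q.gb Y).filter (fun f => h ⊆ f),
        a' e * b' f * f3_kk SF (ic F e) (f.image F.io)| ≤
      C0 * (X * Y) * min X Y ^ (-η) * (SF.nm (h.image F.io) : ℝ) ^ (-(2 - η)) := by
    intro h hh
    have hh1 := F.Q.mem_gb.1 hh
    have hn1 : (1 : ℝ) ≤ (F.Q.nq h : ℝ) := by exact_mod_cast f3_nq_pos F h
    have hn : (0 : ℝ) < (F.Q.nq h : ℝ) := by linarith
    obtain ⟨A, hA, hA2⟩ := f3_tr F (h := h) (fun e => ic F (e \ h))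
      (fun e he hhe => by
        show SF.nm (ic F (e \ h)) * F.Q.nq h = F.Q.nq e
        rw [f3_nm_ic F (f3_gd_sub F he Finset.sdiff_subset), f3_nq_sdiff F he hhe])
      (fun e e' he he' hee => by
        have h2 : e \ h = e' \ h := f3_ic_inj F hee
        rw [← Finset.sdiff_union_of_subset he, ← Finset.sdiff_union_of_subset he', h2])
      (fun e => a' e * f3_kk SF (ic F (e \ h)) (h.image F.io))
      (fun e => by
        rw [abs_mul]
        exact mul_le_one₀ (ha1 e) (abs_nonneg _) (f3_kk_abs SF _ _))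
    obtain ⟨B, hB1, hB2⟩ := f3_tr F (h := h) (fun f => (f \ h).image F.io)
      (fun e he hhe => by
        show SF.nm ((e \ h).image F.io) * F.Q.nq h = F.Q.nq e
        rw [f3_nm_io F (f3_gd_sub F he Finset.sdiff_subset), f3_nq_sdiff F he hhe])
      (fun e e' he he' hee => by
        have h2 : e \ h = e' \ h := f3_io_inj F hee
        rw [← Finset.sdiff_union_of_subset he, ← Finset.sdiff_union_of_subset he', h2])
      (fun f => b' f * f3_kk SF (ic F h) ((f \ h).image F.io))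
      (fun f => by
        rw [abs_mul]
        exact mul_le_one₀ (hb1 f) (abs_nonneg _) (f3_kk_abs SF _ _))
    have e7 : ∑ e ∈ (F.Q.gb X).filter (fun e => h ⊆ e),
        ∑ f ∈ (F.Q.gb Y).filter (fun f => h ⊆ f),
          a' e * b' f * f3_kk SF (ic F e) (f.image F.io) =
        f3_kk SF (ic F h) (h.image F.io) * ∑ x ∈ SF.bx (X / (F.Q.nq h : ℝ)),
          ∑ y ∈ SF.bx (Y / (F.Q.nq h : ℝ)),
            (if Disjoint x y then A x * B y * (SF.jj x y : ℝ) else 0) := by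
      have e8 : ∑ x ∈ SF.bx (X / (F.Q.nq h : ℝ)), ∑ y ∈ SF.bx (Y / (F.Q.nq h : ℝ)),
            (if Disjoint x y then A x * B y * (SF.jj x y : ℝ) else 0) =
          ∑ x ∈ SF.bx (X / (F.Q.nq h : ℝ)), A x * ∑ y ∈ SF.bx (Y / (F.Q.nq h : ℝ)),
            B y * f3_kk SF x y := by
        refine Finset.sum_congr rfl fun x _ => ?_
        rw [Finset.mul_sum]
        refine Finset.sum_congr rfl fun y _ => ?_
        by_cases hxy : Disjoint x y
        · rw [if_pos hxy, f3_kk_pos hxy]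
          ring
        · rw [if_neg hxy, f3_kk_neg hxy]
          ring
      rw [e8, hA2 X (fun x => ∑ y ∈ SF.bx (Y / (F.Q.nq h : ℝ)), B y * f3_kk SF x y),
        Finset.mul_sum]
      refine Finset.sum_congr rfl fun e he => ?_
      have he1 := (Finset.mem_filter.1 he).2
      show _ = f3_kk SF (ic F h) (h.image F.io) * (a' e * f3_kk SF (ic F (e \ h))
        (h.image F.io) * ∑ y ∈ SF.bx (Y / (F.Q.nq h : ℝ)), B y * f3_kk SF (ic F (e \ h)) y)
      rw [hB2 Y (fun y => f3_kk SF (ic F (e \ h)) y), Finset.mul_sum, Finset.mul_sum]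
      refine Finset.sum_congr rfl fun f hf => ?_
      have hf1 := (Finset.mem_filter.1 hf).2
      show _ = f3_kk SF (ic F h) (h.image F.io) * (a' e * f3_kk SF (ic F (e \ h))
        (h.image F.io) * (b' f * f3_kk SF (ic F h) ((f \ h).image F.io) *
          f3_kk SF (ic F (e \ h)) ((f \ h).image F.io)))
      rw [f3_split F he1 hf1]
      ring
    rw [e7, abs_mul, abs_mul, abs_pow, abs_neg, abs_one, one_pow, one_mul]
    have h2 : 1 ≤ X / (F.Q.nq h : ℝ) := by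
      rw [le_div_iff₀ hn, one_mul]
      exact hh1.2.trans (min_le_left _ _)
    have h3 : 1 ≤ Y / (F.Q.nq h : ℝ) := by
      rw [le_div_iff₀ hn, one_mul]
      exact hh1.2.trans (min_le_right _ _)
    have h4 := hB A B hA hB1 _ _ h2 h3
    refine (mul_le_of_le_one_left (abs_nonneg _) (f3_kk_abs SF _ _)).trans (h4.trans ?_)
    rw [min_div_div_right hn.le, f3_nm_io F hh1.1]
    have h5 : (min X Y / (F.Q.nq h : ℝ)) ^ (-η) =
        min X Y ^ (-η) * (F.Q.nq h : ℝ) ^ η := by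
      rw [Real.div_rpow hm0.le hn.le, Real.rpow_neg hn.le, div_inv_eq_mul]
    have h6 : (F.Q.nq h : ℝ) ^ (-(2 - η)) = (F.Q.nq h : ℝ) ^ η / (F.Q.nq h : ℝ) ^ 2 := by
      have h7 : -(2 - η) = η - 2 := by ring
      rw [h7, Real.rpow_sub hn, Real.rpow_two]
    rw [h5, h6]
    have h8 : C0 * (X / (F.Q.nq h : ℝ) * (Y / (F.Q.nq h : ℝ))) *
        (min X Y ^ (-η) * (F.Q.nq h : ℝ) ^ η) =
        C0 * (X * Y) * min X Y ^ (-η) * ((F.Q.nq h : ℝ) ^ η / (F.Q.nq h : ℝ) ^ 2) := by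
      field_simp
    exact h8.le
  refine (Finset.abs_sum_le_sum_abs _ _).trans ((Finset.sum_le_sum e6).trans ?_)
  rw [← Finset.mul_sum]
  have e9 : ∑ h ∈ F.Q.gb (min X Y), (SF.nm (h.image F.io) : ℝ) ^ (-(2 - η)) ≤
      ∑' x : Finset SF.P, (SF.nm x : ℝ) ^ (-(2 - η)) := by
    have e10 : ∑ h ∈ F.Q.gb (min X Y), (SF.nm (h.image F.io) : ℝ) ^ (-(2 - η)) =
        ∑ x ∈ (F.Q.gb (min X Y)).image (fun h => h.image F.io),
          (SF.nm x : ℝ) ^ (-(2 - η)) := by
      rw [Finset.sum_image]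
      intro u _ v _ huv
      exact f3_io_inj F huv
    rw [e10]
    exact hsum.sum_le_tsum _ fun x _ => Real.rpow_nonneg (Nat.cast_nonneg _) _
  have h10 : 0 ≤ C0 * (X * Y) * min X Y ^ (-η) := by positivity
  calc C0 * (X * Y) * min X Y ^ (-η) *
        ∑ h ∈ F.Q.gb (min X Y), (SF.nm (h.image F.io) : ℝ) ^ (-(2 - η)) ≤
        C0 * (X * Y) * min X Y ^ (-η) * ∑' x : Finset SF.P, (SF.nm x : ℝ) ^ (-(2 - η)) :=
      mul_le_mul_of_nonneg_left e9 h10
    _ = C0 * (∑' x : Finset SF.P, (SF.nm x : ℝ) ^ (-(2 - η))) * (X * Y) *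
        min X Y ^ (-η) := by ring

end Pool.Agent.SK
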