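import Pool.Agent.SK.FDefs

/-!
# Malle's conjecture for 8T8 over number fields, row F4: the kernel in terms of the symbols
-/

set_option autoImplicit false

open scoped BigOperators

namespace Pool.Agent.SK

open Pool.Agent.H98.MK (sg)
open Pool.Agent.H98.MF
open Pool.Agent.H32.MQ (Qd El Qf Pk Pf)

section

variable {S SF : Sys} (F : Qc S SF)

theorem f4_cj_inj : Function.Injective F.Q.cj := fun a b h => by
  rw [← F.Q.cj_cj a, h, F.Q.cj_cj]

theorem f4_disj {e f : Finset F.Q.P} (h : Disjoint (F.Q.shd e) (F.Q.shd f)) : Disjoint e f := by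
  rw [Finset.disjoint_left]
  intro p hp hq
  exact Finset.disjoint_left.1 h (Finset.mem_image_of_mem F.Q.sh hp)
    (Finset.mem_image_of_mem F.Q.sh hq)

theorem f4_gd {e f : Finset F.Q.P} (he : F.Q.Gd e) (hf : F.Q.Gd f)
    (h : Disjoint (F.Q.shd e) (F.Q.shd f)) : F.Q.Gd (e ∪ f) := by
  intro a ha b hb hab
  rcases Finset.mem_union.1 ha with ha | ha
  · rcases Finset.mem_union.1 hb with hb | hb
    · exact he a ha b hb hab
    · exact absurd (hab ▸ Finset.mem_image_of_mem F.Q.sh hb)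
        (Finset.disjoint_left.1 h (Finset.mem_image_of_mem F.Q.sh ha))
  · rcases Finset.mem_union.1 hb with hb | hb
    · exact absurd (hab ▸ Finset.mem_image_of_mem F.Q.sh ha)
        (Finset.disjoint_left.1 h (Finset.mem_image_of_mem F.Q.sh hb))
    · exact hf a ha b hb hab

theorem f4_notMem {e f : Finset F.Q.P} (he : F.Q.Gd e)
    (h : Disjoint (F.Q.shd e) (F.Q.shd f)) {p : F.Q.P} (hp : p ∈ e) : F.Q.cj p ∉ e ∪ f := by
  intro h1
  rcases Finset.mem_union.1 h1 with h2 | h2
  · exact F.Q.cj_ne p (he _ h2 _ hp (F.Q.sh_cj p))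
  · have h3 : F.Q.sh (F.Q.cj p) ∈ F.Q.shd f := Finset.mem_image_of_mem F.Q.sh h2
    rw [F.Q.sh_cj] at h3
    exact Finset.disjoint_left.1 h (Finset.mem_image_of_mem F.Q.sh hp) h3

/-- sums over the conjugate primes -/
theorem f4_sum_ic (e : Finset F.Q.P) (t : SF.P → ZMod 2) :
    ∑ r ∈ ic F e, t r = ∑ p ∈ e, t (F.io (F.Q.cj p)) := by
  unfold ic
  rw [Finset.sum_image fun a _ b _ hab => F.io_inj hab,
    Finset.sum_image fun a _ b _ hab => f4_cj_inj F hab]

theorem f4_img {e f : Finset F.Q.P} (h : Disjoint e f) :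
    Disjoint (e.image F.io) (f.image F.io) :=
  (Finset.disjoint_image F.io_inj).2 h

/-- the symbols of a class at the conjugate primes -/
theorem f4_sy {e f : Finset F.Q.P} (he : F.Q.Gd e) (hf : F.Q.Gd f)
    (h : Disjoint (F.Q.shd e) (F.Q.shd f)) (a : SF.T) :
    ∑ p ∈ e, F.Q.sy (F.el a (e ∪ f)) (F.Q.cj p) =
      SF.JJ (ic F e) (e.image F.io) + a ⬝ᵥ SF.tys (ic F e) + SF.JJ (ic F e) (f.image F.io) := by
  have h1 : ∑ p ∈ e, F.Q.sy (F.el a (e ∪ f)) (F.Q.cj p) =
      ∑ p ∈ e, SF.ex ((e ∪ f).image F.io) a (F.io (F.Q.cj p)) :=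
    Finset.sum_congr rfl fun p hp =>
      F.sy_all a (e ∪ f) (F.Q.cj p) (f4_gd F he hf h) (f4_notMem F he h hp)
  rw [h1, ← f4_sum_ic F e (fun r => SF.ex ((e ∪ f).image F.io) a r), SF.sum_ex,
    Finset.image_union, SF.JJ_union_right _ (f4_img F (f4_disj F h))]
  ring

/-- the type of a union -/
theorem f4_typ {e f : Finset F.Q.P} (h : Disjoint (F.Q.shd e) (F.Q.shd f)) :
    SF.tys ((e ∪ f).image F.io) = typ F e + typ F f := by
  unfold typ
  rw [Finset.image_union, SF.tys_union (f4_img F (f4_disj F h))]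

end

/-- F4: the kernel in terms of the symbols -/
theorem f4 : SF4 := by
  classical
  intro S SF F θ e f he hf
  unfold GG jk
  by_cases h : Disjoint (F.Q.shd e) (F.Q.shd f)
  · have hg := f4_gd F he hf h
    rw [if_pos h, if_pos h, F.B_eq _ hg, Finset.sum_image]
    · refine Finset.sum_congr rfl fun a _ => ?_
      unfold th sgc
      rw [F.co_el a _ hg, f4_sy F he hf h, f4_typ F h, sg_add, sg_add]
      unfold Sys.jj
      push_cast
      ring
    · intro a _ a' _ haa
      exact (F.el_inj a a' _ _ hg hg haa).1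
  · rw [if_neg h, if_neg h, Finset.sum_eq_zero]
    intro a _
    rw [mul_zero]

end Pool.Agent.SK
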