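import Pool.Agent.SK.FDefs

/-!
# Malle's conjecture for 8T8 over number fields: the bilinear estimate for the kernel
-/

set_option autoImplicit false

open scoped BigOperators Topology
open Filter

namespace Pool.Agent.SK

open Pool.Agent.H98.MK (sg)
open Pool.Agent.H98.MF

/-- sums of bilinear kernels with bounded coefficients -/
theorem f5_sum {A A' : Nm} {G : A.I → A'.I → ℝ} {C η : ℝ} (hG : Bil A A' G C η) {ι : Type}
    (s : Finset ι) (c : ι → ℝ) (u : ι → A.I → ℝ) (v : ι → A'.I → ℝ)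
    (hu : ∀ k i, |u k i| ≤ 1) (hv : ∀ k j, |v k j| ≤ 1) :
    Bil A A' (fun i j => ∑ k ∈ s, c k * u k i * v k j * G i j) ((∑ k ∈ s, |c k|) * C) η := by
  intro a b ha hb X Y hX hY
  have h1 : ∑ i ∈ A.le X, ∑ j ∈ A'.le Y, a i * b j * ∑ k ∈ s, c k * u k i * v k j * G i j =
      ∑ k ∈ s, c k * ∑ i ∈ A.le X, ∑ j ∈ A'.le Y, (a i * u k i) * (b j * v k j) * G i j := by
    calc _ = ∑ i ∈ A.le X, ∑ j ∈ A'.le Y, ∑ k ∈ s,
            c k * ((a i * u k i) * (b j * v k j) * G i j) := by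
          refine Finset.sum_congr rfl fun i _ => Finset.sum_congr rfl fun j _ => ?_
          rw [Finset.mul_sum]
          exact Finset.sum_congr rfl fun k _ => by ring
      _ = ∑ i ∈ A.le X, ∑ k ∈ s, ∑ j ∈ A'.le Y, c k * ((a i * u k i) * (b j * v k j) * G i j) :=
          Finset.sum_congr rfl fun i _ => Finset.sum_comm
      _ = ∑ k ∈ s, ∑ i ∈ A.le X, ∑ j ∈ A'.le Y, c k * ((a i * u k i) * (b j * v k j) * G i j) :=
          Finset.sum_comm
      _ = _ := by simp only [Finset.mul_sum]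
  rw [h1]
  have hm : ∀ x y : ℝ, |x| ≤ 1 → |y| ≤ 1 → |x * y| ≤ 1 := by
    intro x y hx hy
    rw [abs_mul]
    exact mul_le_one₀ hx (abs_nonneg _) hy
  calc |∑ k ∈ s, c k * ∑ i ∈ A.le X, ∑ j ∈ A'.le Y, (a i * u k i) * (b j * v k j) * G i j|
      ≤ ∑ k ∈ s, |c k * ∑ i ∈ A.le X, ∑ j ∈ A'.le Y, (a i * u k i) * (b j * v k j) * G i j| :=
        Finset.abs_sum_le_sum_abs _ _
    _ ≤ ∑ k ∈ s, |c k| * (C * (X * Y) * min X Y ^ (-η)) := by
        refine Finset.sum_le_sum fun k _ => ?_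
        rw [abs_mul]
        exact mul_le_mul_of_nonneg_left (hG (fun i => a i * u k i) (fun j => b j * v k j)
          (fun i => hm _ _ (ha i) (hu k i)) (fun j => hm _ _ (hb j) (hv k j)) X Y hX hY)
          (abs_nonneg _)
    _ = (∑ k ∈ s, |c k|) * C * (X * Y) * min X Y ^ (-η) := by
        rw [← Finset.sum_mul]
        ring

open Classical in
/-- **F5**: the bilinear estimate for the kernel -/
theorem f5 (h3 : SF3) (h4 : SF4) : SF5 := by
  intro S SF F θ
  obtain ⟨C, η, hC, hη, hB⟩ := h3 S SF F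
  have h := f5_sum hB (Finset.univ : Finset (SF.T × SF.T × SF.T))
    (fun k => θ k.1 (k.2.1 + k.2.2))
    (fun k e => if typ F e.1 = k.2.1 then
      ((SF.jj (ic F e.1) (e.1.image F.io) * sg (k.1 ⬝ᵥ SF.tys (ic F e.1)) : ℤ) : ℝ) else 0)
    (fun k f => if typ F f.1 = k.2.2 then 1 else 0)
    (by
      intro k e
      beta_reduce
      split_ifs
      · rw [Int.cast_mul, abs_mul, SF.abs_jj, one_mul]
        exact (abs_sgr _).le
      · rw [abs_zero]
        exact zero_le_one)
    (by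
      intro k f
      beta_reduce
      split_ifs
      · rw [abs_one]
      · rw [abs_zero]
        exact zero_le_one)
  refine ⟨(∑ k : SF.T × SF.T × SF.T, |θ k.1 (k.2.1 + k.2.2)|) * C, η,
    mul_nonneg (Finset.sum_nonneg fun k _ => abs_nonneg _) hC, hη, ?_⟩
  intro a b ha hb X Y hX hY
  have h2 := h a b ha hb X Y hX hY
  refine le_trans (le_of_eq ?_) h2
  congr 1
  refine Finset.sum_congr rfl fun e _ => Finset.sum_congr rfl fun f _ => ?_
  congr 1
  beta_reduce
  rw [h4 S SF F θ e.1 f.1 e.2 f.2, Fintype.sum_prod_type]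
  refine Finset.sum_congr rfl fun x _ => ?_
  rw [Finset.sum_eq_single (typ F e.1, typ F f.1)]
  · rw [if_pos rfl, if_pos rfl, mul_one]
  · rintro ⟨y, y'⟩ - hy
    by_cases h5 : typ F e.1 = y
    · by_cases h6 : typ F f.1 = y'
      · exact absurd (Prod.ext h5.symm h6.symm) hy
      · simp only [if_neg h6, mul_zero, zero_mul]
    · simp only [if_neg h5, mul_zero, zero_mul]
  · intro hn
    exact absurd (Finset.mem_univ _) hn

end Pool.Agent.SK
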