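import Pool.Agent.SK.FDefs
import Pool.Agent.H98.MF.SBase

/-!
# Malle's conjecture for 8T8 over number fields, row F6: the symmetry of the kernel
-/

set_option autoImplicit false

open scoped BigOperators Topology
open Filter

namespace Pool.Agent.SK

open Pool.Agent.H98.MK (sg)
open Pool.Agent.H98.MF
open Pool.Agent.H32.MQ (Qd El Qf Pk Pf)

section

variable {S SF : Sys} (F : Qc S SF)

open Classical in
theorem f6_gd {e f : Finset F.Q.P} (he : F.Q.Gd e) (hf : F.Q.Gd f)
    (h : Disjoint (F.Q.shd e) (F.Q.shd f)) : F.Q.Gd (e ∪ f) := by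
  have hx : ∀ a ∈ e, ∀ b ∈ f, F.Q.sh a ≠ F.Q.sh b := by
    intro a ha b hb hab
    have h1 : F.Q.sh a ∈ F.Q.shd e := Finset.mem_image_of_mem _ ha
    have h2 : F.Q.sh a ∈ F.Q.shd f := by
      rw [hab]
      exact Finset.mem_image_of_mem _ hb
    exact Finset.disjoint_left.1 h h1 h2
  intro a ha b hb hab
  rcases Finset.mem_union.1 ha with ha' | ha' <;> rcases Finset.mem_union.1 hb with hb' | hb'
  · exact he a ha' b hb' hab
  · exact absurd hab (hx a ha' b hb')
  · exact absurd hab.symm (hx b hb' a ha')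
  · exact hf a ha' b hb' hab

theorem f6_dj {e f : Finset F.Q.P} (h : Disjoint (F.Q.shd e) (F.Q.shd f)) : Disjoint e f := by
  rw [Finset.disjoint_left] at h ⊢
  intro a ha hb
  exact h (Finset.mem_image_of_mem F.Q.sh ha) (Finset.mem_image_of_mem F.Q.sh hb)

end

theorem f6 : SF6 := by
  classical
  intro S SF F θ hs hS e f he hf
  unfold GG
  by_cases h : Disjoint (F.Q.shd e) (F.Q.shd f)
  · rw [if_pos h, if_pos h.symm, Finset.union_comm f e]
    have hg := f6_gd F he hf h
    have hd := f6_dj F h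
    refine Finset.sum_congr rfl fun γ hγ => ?_
    rw [F.B_eq _ hg, Finset.mem_image] at hγ
    obtain ⟨a, -, rfl⟩ := hγ
    have h1 := hS a _ hg
    rw [Finset.sum_union hd] at h1
    have h2 : ((sg (∑ p ∈ e, F.Q.sy (F.el a (e ∪ f)) (F.Q.cj p)) : ℤ) : ℝ) =
        ((sg (hs a (typ F (e ∪ f))) : ℤ) : ℝ) *
          ((sg (∑ p ∈ f, F.Q.sy (F.el a (e ∪ f)) (F.Q.cj p)) : ℤ) : ℝ) := by
      rw [← h1]
      have h3 : ∀ x y : ZMod 2, sg x = sg (x + y) * sg y := by decide
      exact_mod_cast h3 _ _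
    unfold sgc
    rw [h2]
    unfold th
    rw [F.co_el a _ hg]
    unfold typ
    ring
  · rw [if_neg h, if_neg fun h' => h h'.symm]

end Pool.Agent.SK
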