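import Pool.Agent.SK.FDefs

/-!
# Malle's conjecture for 8T8 over number fields: good sets among all finite sets of primes
-/

set_option autoImplicit false

open scoped BigOperators Topology
open Filter

namespace Pool.Agent.SK

open Pool.Agent.H98.MK (sg)
open Pool.Agent.H98.MF
open Pool.Agent.H32.MQ (Qd El Qf Pk Pf)

section

variable {S SF : Sys} (F : Qc S SF)

/-- the character -/
noncomputable def f7c (Y : El SF) (B : Finset SF.P) : ℝ :=
  ((sg (SF.JJ B Y.2 + Y.1 ⬝ᵥ SF.tys B) : ℤ) : ℝ)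

theorem f7c_union [DecidableEq SF.P] (Y : El SF) {A B : Finset SF.P} (h : Disjoint A B) :
    f7c Y (A ∪ B) = f7c Y A * f7c Y B := by
  unfold f7c
  rw [← Int.cast_mul, ← sg_add]
  congr 2
  have h1 : SF.JJ (A ∪ B) Y.2 = SF.JJ A Y.2 + SF.JJ B Y.2 := by
    unfold Sys.JJ
    exact Finset.sum_union h
  have h2 : SF.tys (A ∪ B) = SF.tys A + SF.tys B := by
    unfold Sys.tys
    exact Finset.sum_union h
  rw [h1, h2, dotProduct_add]
  ring

theorem f7_up_ne (p : S.P) : (F.up p).Nonempty := by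
  by_cases h : ∃ a, F.Q.sh a = p
  · obtain ⟨a, rfl⟩ := h
    exact ⟨F.io a, by rw [F.up_s]; exact Finset.mem_insert_self _ _⟩
  · push Not at h
    obtain ⟨P, hP, _⟩ := F.up_i p h
    exact ⟨P, by rw [hP]; exact Finset.mem_singleton_self P⟩

theorem f7_io_up (a : F.Q.P) : F.io a ∈ F.up (F.Q.sh a) := by
  rw [F.up_s]
  exact Finset.mem_insert_self _ _

theorem f7_nm_up (p : S.P) : SF.nm (F.up p) = S.N p ^ 2 := by
  unfold Pre.nm
  by_cases h : ∃ a, F.Q.sh a = p
  · obtain ⟨a, rfl⟩ := h
    rw [F.up_s, Finset.prod_pair, F.N_io, F.N_io, F.Q.sh_cj, sq]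
    intro h1
    exact F.Q.cj_ne a (F.io_inj h1).symm
  · push Not at h
    obtain ⟨P, hP, hN⟩ := F.up_i p h
    rw [hP, Finset.prod_singleton, hN]

open Classical in
theorem f7_nm (h : Finset S.P) : SF.nm (h.biUnion F.up) = S.nm h ^ 2 := by
  rw [SF.nm_biUnion]
  · rw [Finset.prod_congr rfl fun p _ => f7_nm_up F p]
    unfold Pre.nm
    rw [Finset.prod_pow]
  · intro p _ p' _ hpp
    rw [Finset.disjoint_left]
    intro P hP hP'
    exact hpp (F.up_d P p p' hP hP')

open Classical in
theorem f7_disj (h z : Finset S.P) :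
    Disjoint (h.biUnion F.up) (z.biUnion F.up) ↔ Disjoint h z := by
  constructor
  · intro h1
    rw [Finset.disjoint_left]
    intro p hp hp'
    obtain ⟨P, hP⟩ := f7_up_ne F p
    exact Finset.disjoint_left.1 h1 (Finset.mem_biUnion.2 ⟨p, hp, hP⟩)
      (Finset.mem_biUnion.2 ⟨p, hp', hP⟩)
  · intro h1
    rw [Finset.disjoint_left]
    intro P hP hP'
    obtain ⟨p, hp, hpP⟩ := Finset.mem_biUnion.1 hP
    obtain ⟨p', hp', hpP'⟩ := Finset.mem_biUnion.1 hP'
    have h2 := F.up_d P p p' hpP hpP'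
    rw [h2] at hp
    exact Finset.disjoint_left.1 h1 hp hp'

/-- sets containing no full fibre -/
def f7n (B : Finset SF.P) : Prop := ∀ p, ¬ F.up p ⊆ B

open Classical in
theorem f7_good_n {f : Finset F.Q.P} (hf : F.Q.Gd f) : f7n F (f.image F.io) := by
  intro p hp
  by_cases h : ∃ a, F.Q.sh a = p
  · obtain ⟨a, rfl⟩ := h
    rw [F.up_s] at hp
    have h1 := hp (Finset.mem_insert_self _ _)
    have h2 := hp (Finset.mem_insert_of_mem (Finset.mem_singleton_self _))
    rw [Finset.mem_image] at h1 h2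
    obtain ⟨b, hb, hb1⟩ := h1
    obtain ⟨c, hc, hc1⟩ := h2
    rw [F.io_inj hb1] at hb
    rw [F.io_inj hc1] at hc
    exact F.Q.cj_ne a (hf _ hc _ hb (F.Q.sh_cj a))
  · push Not at h
    obtain ⟨P, hP, _⟩ := F.up_i p h
    have h1 : P ∈ F.up p := by
      rw [hP]
      exact Finset.mem_singleton_self P
    obtain ⟨b, _, hb1⟩ := Finset.mem_image.1 (hp h1)
    have h2 := f7_io_up F b
    rw [hb1] at h2
    exact h b (F.up_d P _ _ h2 h1)

open Classical in
theorem f7_n_good {B : Finset SF.P} (hB : f7n F B) : ∃ f : Finset F.Q.P, F.Q.Gd f ∧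
    f.image F.io = B := by
  have h1 : ∀ P ∈ B, ∃ a, F.io a = P := by
    intro P hP
    obtain ⟨p, hp⟩ := F.up_c P
    by_cases h : ∃ a, F.Q.sh a = p
    · obtain ⟨a, rfl⟩ := h
      rw [F.up_s, Finset.mem_insert, Finset.mem_singleton] at hp
      rcases hp with hp | hp
      · exact ⟨a, hp.symm⟩
      · exact ⟨F.Q.cj a, hp.symm⟩
    · push Not at h
      obtain ⟨P', hP', _⟩ := F.up_i p h
      rw [hP', Finset.mem_singleton] at hp
      exfalso
      apply hB p
      rw [hP', Finset.singleton_subset_iff, ← hp]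
      exact hP
  refine ⟨B.preimage F.io F.io_inj.injOn, ?_, ?_⟩
  · intro a ha b hb hab
    rw [Finset.mem_preimage] at ha hb
    rcases F.Q.fib a b hab with h2 | h2
    · exact h2.symm
    · exfalso
      apply hB (F.Q.sh a)
      rw [F.up_s]
      intro P hP
      rw [Finset.mem_insert, Finset.mem_singleton] at hP
      rcases hP with rfl | rfl
      · exact ha
      · rw [← h2]
        exact hb
  · ext P
    rw [Finset.mem_image]
    constructor
    · rintro ⟨a, ha, rfl⟩
      exact Finset.mem_preimage.1 ha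
    · intro hP
      obtain ⟨a, rfl⟩ := h1 P hP
      exact ⟨a, Finset.mem_preimage.2 hP, rfl⟩

open Classical in
theorem f7_nm_good {f : Finset F.Q.P} (hf : F.Q.Gd f) :
    SF.nm (f.image F.io) = F.Q.nq f := by
  unfold Qd.nq Qd.shd Pre.nm
  rw [Finset.prod_image (fun a _ b _ h => F.io_inj h),
    Finset.prod_image (fun a ha b hb h => hf a ha b hb h)]
  exact Finset.prod_congr rfl fun a _ => F.N_io a

open Classical in
theorem f7_disj_good (f : Finset F.Q.P) (z : Finset S.P) :
    Disjoint (f.image F.io) (z.biUnion F.up) ↔ Disjoint (F.Q.shd f) z := by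
  unfold Qd.shd
  constructor
  · intro h1
    rw [Finset.disjoint_left]
    intro p hp hp'
    obtain ⟨a, ha, rfl⟩ := Finset.mem_image.1 hp
    exact Finset.disjoint_left.1 h1 (Finset.mem_image_of_mem _ ha)
      (Finset.mem_biUnion.2 ⟨_, hp', f7_io_up F a⟩)
  · intro h1
    rw [Finset.disjoint_left]
    intro P hP hP'
    obtain ⟨a, ha, rfl⟩ := Finset.mem_image.1 hP
    obtain ⟨p, hp, hpP⟩ := Finset.mem_biUnion.1 hP'
    have h2 := F.up_d _ _ _ (f7_io_up F a) hpP
    rw [← h2] at hp
    exact Finset.disjoint_left.1 h1 (Finset.mem_image_of_mem _ ha) hp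

open Classical in
/-- the sum over good sets as a sum over sets without full fibres -/
theorem f7_cF (z : Finset S.P) (Y : El SF) (X : ℝ) :
    cF F z Y X = ∑ B ∈ SF.bx X, if Disjoint B (z.biUnion F.up) ∧ f7n F B then f7c Y B else 0 := by
  unfold cF
  rw [← Finset.sum_filter, ← Finset.sum_filter]
  refine Finset.sum_bij (fun f _ => f.image F.io) ?_ ?_ ?_ ?_
  · intro f hf
    rw [Finset.mem_filter, F.Q.mem_gb] at hf
    rw [Finset.mem_filter, SF.mem_bx, f7_nm_good F hf.1.1]
    exact ⟨hf.1.2, (f7_disj_good F f z).2 hf.2, f7_good_n F hf.1.1⟩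
  · intro f hf f' hf' h
    exact Finset.image_injective F.io_inj h
  · intro B hB
    rw [Finset.mem_filter, SF.mem_bx] at hB
    obtain ⟨f, hf, rfl⟩ := f7_n_good F hB.2.2
    refine ⟨f, ?_, rfl⟩
    rw [Finset.mem_filter, F.Q.mem_gb, ← f7_nm_good F hf]
    exact ⟨⟨hf, hB.1⟩, (f7_disj_good F f z).1 hB.2.1⟩
  · intro f hf
    rfl

open Classical in
/-- inclusion and exclusion -/
theorem f7_incl {X : ℝ} (B : Finset SF.P) (hB : B ∈ SF.bx X) :
    ∑ h ∈ S.bx (Real.sqrt X), (if h.biUnion F.up ⊆ B then (-1 : ℝ) ^ h.card else 0) =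
      if f7n F B then 1 else 0 := by
  have hbx : ∀ h : Finset S.P, h.biUnion F.up ⊆ B → h ∈ S.bx (Real.sqrt X) := by
    intro h hh
    rw [S.mem_bx]
    refine Real.le_sqrt_of_sq_le ?_
    have h1 := SF.nm_mono hh
    rw [f7_nm] at h1
    have h2 : ((S.nm h ^ 2 : ℕ) : ℝ) ≤ SF.nm B := by exact_mod_cast h1
    rw [Nat.cast_pow] at h2
    exact h2.trans (SF.mem_bx.1 hB)
  set PB : Finset S.P := (((S.bx (Real.sqrt X)).filter (fun h => h.biUnion F.up ⊆ B)).biUnion id)
    with hPB
  have hmem : ∀ p, p ∈ PB ↔ F.up p ⊆ B := by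
    intro p
    rw [hPB, Finset.mem_biUnion]
    constructor
    · rintro ⟨h, hh, hp⟩
      rw [Finset.mem_filter] at hh
      exact (Finset.subset_biUnion_of_mem F.up hp).trans hh.2
    · intro hp
      have h1 : ({p} : Finset S.P).biUnion F.up ⊆ B := by
        rw [Finset.singleton_biUnion]
        exact hp
      exact ⟨{p}, Finset.mem_filter.2 ⟨hbx _ h1, h1⟩, Finset.mem_singleton_self p⟩
  have hpow : (S.bx (Real.sqrt X)).filter (fun h => h.biUnion F.up ⊆ B) = PB.powerset := by
    ext h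
    rw [Finset.mem_filter, Finset.mem_powerset]
    constructor
    · rintro ⟨_, h2⟩ p hp
      exact (hmem p).2 ((Finset.subset_biUnion_of_mem F.up hp).trans h2)
    · intro h1
      have h2 : h.biUnion F.up ⊆ B := by
        rw [Finset.biUnion_subset]
        exact fun p hp => (hmem p).1 (h1 hp)
      exact ⟨hbx h h2, h2⟩
  rw [← Finset.sum_filter, hpow]
  have h3 := Finset.sum_powerset_neg_one_pow_card (x := PB)
  have h4 : ∑ h ∈ PB.powerset, (-1 : ℝ) ^ h.card =
      ((∑ h ∈ PB.powerset, (-1 : ℤ) ^ h.card : ℤ) : ℝ) := by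
    push_cast
    rfl
  rw [h4, h3]
  have h5 : PB = ∅ ↔ f7n F B := by
    unfold f7n
    rw [Finset.eq_empty_iff_forall_notMem]
    exact forall_congr' fun p => not_congr (hmem p)
  by_cases h6 : f7n F B
  · rw [if_pos h6, if_pos (h5.2 h6), Int.cast_one]
  · rw [if_neg h6, if_neg (fun h => h6 (h5.1 h)), Int.cast_zero]

open Classical in
/-- the sets containing given fibres -/
theorem f7_inner (z h : Finset S.P) (Y : El SF) (X : ℝ) :
    ∑ B ∈ SF.bx X, (if Disjoint B (z.biUnion F.up) ∧ h.biUnion F.up ⊆ B then f7c Y B else 0) =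
      if Disjoint h z then f7c Y (h.biUnion F.up) *
        ∑ A ∈ SF.bx (X / (S.nm h : ℝ) ^ 2),
          (if Disjoint A ((h ∪ z).biUnion F.up) then f7c Y A else 0) else 0 := by
  by_cases hz : Disjoint h z
  · rw [if_pos hz, Finset.mul_sum]
    simp_rw [mul_ite, mul_zero]
    rw [← Finset.sum_filter, ← Finset.sum_filter]
    have hpos : (0 : ℝ) < (S.nm h : ℝ) ^ 2 := by
      have := S.nm_posr h
      positivity
    refine Finset.sum_bij' (fun B _ => B \ h.biUnion F.up) (fun A _ => h.biUnion F.up ∪ A)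
      ?_ ?_ ?_ ?_ ?_
    · intro B hB
      rw [Finset.mem_filter, SF.mem_bx] at hB
      obtain ⟨hB1, hB2, hB3⟩ := hB
      rw [Finset.mem_filter, SF.mem_bx, le_div_iff₀ hpos]
      constructor
      · have h1 : SF.nm B = SF.nm (h.biUnion F.up) * SF.nm (B \ h.biUnion F.up) := by
          rw [← SF.nm_union Finset.disjoint_sdiff, Finset.union_sdiff_of_subset hB3]
        rw [f7_nm] at h1
        have h2 : (SF.nm B : ℝ) = (S.nm h : ℝ) ^ 2 * SF.nm (B \ h.biUnion F.up) := by
          rw [h1]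
          push_cast
          rfl
        rw [mul_comm, ← h2]
        exact hB1
      · rw [Finset.union_biUnion, Finset.disjoint_union_right]
        exact ⟨Finset.sdiff_disjoint, Finset.disjoint_of_subset_left Finset.sdiff_subset hB2⟩
    · intro A hA
      rw [Finset.mem_filter, SF.mem_bx, le_div_iff₀ hpos, Finset.union_biUnion,
        Finset.disjoint_union_right] at hA
      obtain ⟨hA1, hA2, hA3⟩ := hA
      rw [Finset.mem_filter, SF.mem_bx]
      refine ⟨?_, ?_, Finset.subset_union_left⟩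
      · rw [SF.nm_union hA2.symm, f7_nm]
        push_cast
        rw [mul_comm]
        exact hA1
      · rw [Finset.disjoint_union_left]
        exact ⟨(f7_disj F h z).2 hz, hA3⟩
    · intro B hB
      exact Finset.union_sdiff_of_subset (Finset.mem_filter.1 hB).2.2
    · intro A hA
      rw [Finset.mem_filter, Finset.union_biUnion, Finset.disjoint_union_right] at hA
      rw [Finset.union_sdiff_cancel_left hA.2.1.symm]
    · intro B hB
      have hB3 := (Finset.mem_filter.1 hB).2.2
      rw [← f7c_union Y Finset.disjoint_sdiff, Finset.union_sdiff_of_subset hB3]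
  · rw [if_neg hz]
    refine Finset.sum_eq_zero fun B _ => if_neg ?_
    rintro ⟨h1, h2⟩
    apply hz
    rw [← f7_disj F]
    exact Finset.disjoint_of_subset_left h2 h1

end

theorem f7 : SF7 := by
  classical
  intro S SF F z Y X _
  rw [f7_cF]
  have h1 : ∀ B ∈ SF.bx X, (if Disjoint B (z.biUnion F.up) ∧ f7n F B then f7c Y B else 0) =
      ∑ h ∈ S.bx (Real.sqrt X), (-1 : ℝ) ^ h.card *
        (if Disjoint B (z.biUnion F.up) ∧ h.biUnion F.up ⊆ B then f7c Y B else 0) := by
    intro B hB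
    by_cases hd : Disjoint B (z.biUnion F.up)
    · have h2 := f7_incl F B hB
      have h3 : (if Disjoint B (z.biUnion F.up) ∧ f7n F B then f7c Y B else 0) =
          (if f7n F B then (1 : ℝ) else 0) * f7c Y B := by
        by_cases h4 : f7n F B
        · rw [if_pos ⟨hd, h4⟩, if_pos h4, one_mul]
        · rw [if_neg fun h => h4 h.2, if_neg h4, zero_mul]
      rw [h3, ← h2, Finset.sum_mul]
      refine Finset.sum_congr rfl fun h _ => ?_
      by_cases h5 : h.biUnion F.up ⊆ B
      · rw [if_pos h5, if_pos ⟨hd, h5⟩]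
      · rw [if_neg h5, if_neg fun h => h5 h.2, zero_mul, mul_zero]
    · rw [if_neg fun h => hd h.1]
      symm
      refine Finset.sum_eq_zero fun h _ => ?_
      rw [if_neg fun h => hd h.1, mul_zero]
  rw [Finset.sum_congr rfl h1, Finset.sum_comm]
  refine Finset.sum_congr rfl fun h _ => ?_
  rw [← Finset.mul_sum, f7_inner]
  by_cases hz : Disjoint h z
  · rw [if_pos hz, if_pos hz, ← mul_assoc]
    rfl
  · rw [if_neg hz, if_neg hz, mul_zero]

end Pool.Agent.SK
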