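import Pool.Agent.SK.FDefs
import Pool.Agent.H98.MF.SChrSqf
import Pool.Agent.H98.MF.SCntSqf

/-!
# Malle's conjecture for 8T8 over number fields: the density of good sets with a character (F8)
-/

set_option autoImplicit false

open scoped BigOperators Topology
open Filter

namespace Pool.Agent.SK

open Pool.Agent.H98.MK (sg)
open Pool.Agent.H98.MF
open Pool.Agent.H32.MQ (Qd El Qf Pk Pf)

section

variable {S SF : Sys} (F : Qc S SF)

theorem f8_hs_single (T : Pre) (x : T.P) : T.hs {x} = T.shf x := by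
  unfold Pre.hs Pre.shf
  rw [Finset.prod_singleton]

theorem f8_up (p : S.P) : SF.hs (F.up p) ≤ S.shf p ^ 2 := by
  by_cases h : ∃ a, F.Q.sh a = p
  · obtain ⟨a, rfl⟩ := h
    rw [F.up_s, Finset.insert_eq]
    refine (SF.hs_union_le _ _).trans ?_
    rw [f8_hs_single, f8_hs_single, pow_two]
    have e1 : SF.shf (F.io a) = S.shf (F.Q.sh a) := by
      unfold Pre.shf
      rw [F.N_io]
    have e2 : SF.shf (F.io (F.Q.cj a)) = S.shf (F.Q.sh a) := by
      unfold Pre.shf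
      rw [F.N_io, F.Q.sh_cj]
    rw [e1, e2]
  · obtain ⟨P, hP, hN⟩ := F.up_i p (fun a ha => h ⟨a, ha⟩)
    rw [hP, f8_hs_single]
    have h1 : SF.shf P ≤ S.shf p := by
      unfold Pre.shf
      have h2 : (2 : ℝ) ≤ S.N p := by exact_mod_cast S.two_le p
      have h3 : (S.N p : ℝ) ≤ SF.N P := by
        rw [hN]
        push_cast
        nlinarith
      have h4 : (SF.N P : ℝ) ^ (-(1 / 2) : ℝ) ≤ (S.N p : ℝ) ^ (-(1 / 2) : ℝ) :=
        Real.rpow_le_rpow_of_nonpos (by linarith) h3 (by norm_num)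
      have h5 := S.sh_root p
      exact inv_anti₀ (by linarith) (by linarith)
    have h6 := S.sh_one_le p
    nlinarith

theorem f8_hs (h : Finset S.P) : SF.hs (h.biUnion F.up) ≤ S.hs h ^ 2 := by
  induction h using Finset.induction_on with
  | empty =>
    rw [Finset.biUnion_empty]
    unfold Pre.hs
    simp
  | insert p h hp ih =>
    rw [Finset.biUnion_insert]
    refine (SF.hs_union_le _ _).trans ?_
    have e : S.hs (insert p h) = S.shf p * S.hs h := by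
      unfold Pre.hs Pre.shf
      rw [Finset.prod_insert hp]
    rw [e, mul_pow]
    exact mul_le_mul (f8_up F p) ih (le_trans zero_le_one (SF.one_le_hs _)) (by positivity)

open Classical in
/-- the inner sum of F7 -/
noncomputable def f8_in (z : Finset S.P) (Y : El SF) (h : Finset S.P) (t : ℝ) : ℝ :=
  ∑ A ∈ SF.bx t, (if Disjoint A ((h ∪ z).biUnion F.up) then
        ((sg (SF.JJ A Y.2 + Y.1 ⬝ᵥ SF.tys A) : ℤ) : ℝ) else 0)

open Classical in
/-- the sign in front of the inner sum -/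
noncomputable def f8_s (z : Finset S.P) (Y : El SF) (h : Finset S.P) : ℝ :=
  if Disjoint h z then
    (-1 : ℝ) ^ h.card *
      ((sg (SF.JJ (h.biUnion F.up) Y.2 + Y.1 ⬝ᵥ SF.tys (h.biUnion F.up)) : ℤ) : ℝ) else 0

theorem f8_abs_s (z : Finset S.P) (Y : El SF) (h : Finset S.P) : |f8_s F z Y h| ≤ 1 := by
  unfold f8_s
  split_ifs
  · rw [abs_mul, abs_pow, abs_neg, abs_one, one_pow, one_mul, abs_sgr]
  · rw [abs_zero]
    exact zero_le_one

theorem f8_cF (h7 : SF7) (z : Finset S.P) (Y : El SF) (X : ℝ) (hX : 1 ≤ X) :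
    cF F z Y X = ∑ h ∈ S.bx (Real.sqrt X), f8_s F z Y h * f8_in F z Y h (X / (S.nm h : ℝ) ^ 2) := by
  rw [h7 S SF F z Y X hX]
  refine Finset.sum_congr rfl fun h _ => ?_
  unfold f8_s f8_in
  split_ifs
  · rfl
  · rw [zero_mul]

theorem f8_tail (z : Finset S.P) (Y : El SF) (κ C : ℝ) (hC : 0 ≤ C) (W : Finset S.P → ℝ)
    (hin : ∀ h t, 1 ≤ t → |f8_in F z Y h t - κ * W h * t| ≤
      C * SF.hs ((h ∪ z).biUnion F.up) * t ^ (1 - SF.dl)) (h7 : SF7) :
    ∃ B : ℝ, ∀ X : ℝ, 1 ≤ X → |cF F z Y X / X - ∑ h ∈ S.bx (Real.sqrt X),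
      f8_s F z Y h * (κ * W h) / (S.nm h : ℝ) ^ 2| ≤ B * X ^ (-SF.dl) := by
  have hs1 : 1 < 2 * (1 - SF.dl) := by linarith [SF.dl_le]
  obtain ⟨C2, h2⟩ := hs_tail S 1 zero_le_one 2 (2 * (1 - SF.dl)) hs1
  have hz0 : 0 ≤ SF.hs (z.biUnion F.up) := le_trans zero_le_one (SF.one_le_hs _)
  refine ⟨C * SF.hs (z.biUnion F.up) * C2, fun X hX => ?_⟩
  have hX0 : 0 < X := by linarith
  have e1 : cF F z Y X / X - ∑ h ∈ S.bx (Real.sqrt X),
      f8_s F z Y h * (κ * W h) / (S.nm h : ℝ) ^ 2 =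
      ∑ h ∈ S.bx (Real.sqrt X), f8_s F z Y h *
        (f8_in F z Y h (X / (S.nm h : ℝ) ^ 2) - κ * W h * (X / (S.nm h : ℝ) ^ 2)) / X := by
    rw [f8_cF F h7 z Y X hX, Finset.sum_div, ← Finset.sum_sub_distrib]
    refine Finset.sum_congr rfl fun h _ => ?_
    have hn : (0 : ℝ) < S.nm h := S.nm_posr h
    field_simp
  rw [e1]
  have hterm : ∀ h ∈ S.bx (Real.sqrt X), |f8_s F z Y h *
      (f8_in F z Y h (X / (S.nm h : ℝ) ^ 2) - κ * W h * (X / (S.nm h : ℝ) ^ 2)) / X| ≤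
      C * SF.hs (z.biUnion F.up) * X ^ (-SF.dl) *
        (1 ^ h.card * S.hs h ^ 2 * (S.nm h : ℝ) ^ (-(2 * (1 - SF.dl)))) := by
    intro h hh
    have hn : (0 : ℝ) < S.nm h := S.nm_posr h
    have hh1 : (S.nm h : ℝ) ^ 2 ≤ X := by
      have h3 := S.mem_bx.1 hh
      calc (S.nm h : ℝ) ^ 2 ≤ (Real.sqrt X) ^ 2 := by gcongr
        _ = X := Real.sq_sqrt hX0.le
    have hXn : 1 ≤ X / (S.nm h : ℝ) ^ 2 := (one_le_div (by positivity)).2 hh1
    have e2 : (X / (S.nm h : ℝ) ^ 2) ^ (1 - SF.dl) =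
        X * X ^ (-SF.dl) * (S.nm h : ℝ) ^ (-(2 * (1 - SF.dl))) := by
      have e3 : X ^ (1 - SF.dl) = X * X ^ (-SF.dl) := by
        rw [sub_eq_add_neg, Real.rpow_add hX0, Real.rpow_one]
      rw [Real.div_rpow hX0.le (by positivity), Real.rpow_neg hn.le, div_eq_mul_inv,
        Real.rpow_mul hn.le, e3]
      norm_num
    have h4 := hin h _ hXn
    rw [e2] at h4
    have h5 : SF.hs ((h ∪ z).biUnion F.up) ≤ S.hs h ^ 2 * SF.hs (z.biUnion F.up) := by
      rw [Finset.union_biUnion]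
      exact (SF.hs_union_le _ _).trans (mul_le_mul_of_nonneg_right (f8_hs F h) hz0)
    have h6 : 0 ≤ X * X ^ (-SF.dl) * (S.nm h : ℝ) ^ (-(2 * (1 - SF.dl))) := by positivity
    rw [abs_div, abs_mul, abs_of_pos hX0, div_le_iff₀ hX0]
    calc |f8_s F z Y h| * |f8_in F z Y h (X / (S.nm h : ℝ) ^ 2) -
          κ * W h * (X / (S.nm h : ℝ) ^ 2)|
        ≤ 1 * (C * SF.hs ((h ∪ z).biUnion F.up) *
          (X * X ^ (-SF.dl) * (S.nm h : ℝ) ^ (-(2 * (1 - SF.dl))))) :=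
          mul_le_mul (f8_abs_s F z Y h) h4 (abs_nonneg _) zero_le_one
      _ ≤ 1 * (C * (S.hs h ^ 2 * SF.hs (z.biUnion F.up)) *
          (X * X ^ (-SF.dl) * (S.nm h : ℝ) ^ (-(2 * (1 - SF.dl))))) := by
          apply mul_le_mul_of_nonneg_left _ zero_le_one
          apply mul_le_mul_of_nonneg_right _ h6
          exact mul_le_mul_of_nonneg_left h5 hC
      _ = C * SF.hs (z.biUnion F.up) * X ^ (-SF.dl) *
          (1 ^ h.card * S.hs h ^ 2 * (S.nm h : ℝ) ^ (-(2 * (1 - SF.dl)))) * X := by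
          rw [one_pow]
          ring
  refine (Finset.abs_sum_le_sum_abs _ _).trans ((Finset.sum_le_sum hterm).trans ?_)
  rw [← Finset.mul_sum]
  have h8 := h2 (Real.sqrt X)
  have h9 : 0 ≤ C * SF.hs (z.biUnion F.up) * X ^ (-SF.dl) := by positivity
  calc _ ≤ C * SF.hs (z.biUnion F.up) * X ^ (-SF.dl) * C2 := mul_le_mul_of_nonneg_left h8 h9
    _ = C * SF.hs (z.biUnion F.up) * C2 * X ^ (-SF.dl) := by ring

theorem f8_summable (z : Finset S.P) (Y : El SF) (κ : ℝ) (W : Finset S.P → ℝ)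
    (hW : ∀ h, |W h| ≤ 1) :
    Summable fun h => f8_s F z Y h * (κ * W h) / (S.nm h : ℝ) ^ 2 := by
  have h1 := (a8_summable_nm S.toPre (summable_N S (3 / 2) (by norm_num))).mul_left |κ|
  refine Summable.of_norm_bounded h1 fun h => ?_
  have hn : (1 : ℝ) ≤ S.nm h := S.one_le_nmr h
  have hn0 : (0 : ℝ) < S.nm h := by linarith
  rw [Real.norm_eq_abs, abs_div, abs_mul, abs_mul, abs_of_pos (by positivity : (0 : ℝ) <
    (S.nm h : ℝ) ^ 2), div_eq_mul_inv]
  have h2 : ((S.nm h : ℝ) ^ 2)⁻¹ ≤ (S.nm h : ℝ) ^ (-(3 / 2) : ℝ) := by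
    have e : ((S.nm h : ℝ) ^ 2)⁻¹ = (S.nm h : ℝ) ^ (-2 : ℝ) := by
      rw [Real.rpow_neg hn0.le]
      norm_num
    rw [e]
    exact Real.rpow_le_rpow_of_exponent_le hn (by norm_num)
  have h3 : |f8_s F z Y h| * (|κ| * |W h|) ≤ |κ| := by
    have h4 := f8_abs_s F z Y h
    have h5 := hW h
    have h6 := abs_nonneg κ
    have h7 : |κ| * |W h| ≤ |κ| := mul_le_of_le_one_right h6 h5
    calc |f8_s F z Y h| * (|κ| * |W h|) ≤ 1 * (|κ| * |W h|) :=
          mul_le_mul_of_nonneg_right h4 (by positivity)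
      _ ≤ |κ| := by rw [one_mul]; exact h7
  exact mul_le_mul h3 h2 (by positivity) (abs_nonneg _)

theorem f8_box : Tendsto (fun X : ℝ => S.bx (Real.sqrt X)) atTop atTop := by
  apply tendsto_atTop_finset_of_monotone
  · intro X Y h
    exact S.bx_mono (Real.sqrt_le_sqrt h)
  · intro h
    refine ⟨(S.nm h : ℝ) ^ 2, ?_⟩
    rw [S.mem_bx, Real.sqrt_sq (Nat.cast_nonneg _)]

theorem f8_lim (h7 : SF7) (z : Finset S.P) (Y : El SF) (κ C : ℝ) (hC : 0 ≤ C)
    (W : Finset S.P → ℝ) (hW : ∀ h, |W h| ≤ 1)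
    (hin : ∀ h t, 1 ≤ t → |f8_in F z Y h t - κ * W h * t| ≤
      C * SF.hs ((h ∪ z).biUnion F.up) * t ^ (1 - SF.dl)) :
    Tendsto (fun X => cF F z Y X / X) atTop
      (𝓝 (∑' h, f8_s F z Y h * (κ * W h) / (S.nm h : ℝ) ^ 2)) := by
  obtain ⟨B, hB⟩ := f8_tail F z Y κ C hC W hin h7
  have h1 := (f8_summable F z Y κ W hW).hasSum.comp (f8_box (S := S))
  have h2 : Tendsto (fun X : ℝ => B * X ^ (-SF.dl)) atTop (𝓝 0) := by
    have h3 := (tendsto_rpow_neg_atTop SF.dl_pos).const_mul B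
    rwa [mul_zero] at h3
  have h4 : Tendsto (fun X : ℝ => cF F z Y X / X - ∑ h ∈ S.bx (Real.sqrt X),
      f8_s F z Y h * (κ * W h) / (S.nm h : ℝ) ^ 2) atTop (𝓝 0) := by
    refine squeeze_zero_norm' ?_ h2
    filter_upwards [eventually_ge_atTop (1 : ℝ)] with X hX
    rw [Real.norm_eq_abs]
    exact hB X hX
  have h5 := h4.add h1
  rw [zero_add] at h5
  refine h5.congr fun X => ?_
  exact sub_add_cancel _ _

theorem f8_W (z : Finset SF.P) : |∏ p ∈ z, (1 + 1 / (SF.N p : ℝ))⁻¹| ≤ 1 := by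
  rw [Finset.abs_prod]
  refine Finset.prod_le_one (fun p _ => abs_nonneg _) fun p _ => ?_
  have h1 : (0 : ℝ) ≤ 1 / (SF.N p : ℝ) := by positivity
  rw [abs_of_nonneg (by positivity)]
  exact inv_le_one_of_one_le₀ (by linarith)

end

theorem f8 (h7 : SF7) : SF8 := by
  intro S SF F z Y hY
  by_cases hY0 : Y = (0, ∅)
  · subst hY0
    obtain ⟨κ, C, hκ, hc⟩ := cnt_sqf SF
    refine ⟨_, f8_lim F h7 z (0, ∅) κ (max C 0) (le_max_right _ _)
      (fun h => ∏ p ∈ (h ∪ z).biUnion F.up, (1 + 1 / (SF.N p : ℝ))⁻¹)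
      (fun h => f8_W _) ?_, fun h => absurd rfl h⟩
    intro h t ht
    have e : f8_in F z (0, ∅) h t =
        (((SF.bx t).filter fun x => Disjoint x ((h ∪ z).biUnion F.up)).card : ℝ) := by
      unfold f8_in
      rw [Finset.card_filter]
      push_cast
      refine Finset.sum_congr rfl fun A _ => ?_
      rw [SF.JJ_empty_right, zero_dotProduct, add_zero, sg_zero, Int.cast_one]
    rw [e]
    have h0 : 0 ≤ SF.hs ((h ∪ z).biUnion F.up) * t ^ (1 - SF.dl) :=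
      mul_nonneg (le_trans zero_le_one (SF.one_le_hs _)) (Real.rpow_nonneg (by linarith) _)
    refine (hc _ t ht).trans ?_
    rw [mul_assoc, mul_assoc]
    exact mul_le_mul_of_nonneg_right (le_max_left _ _) h0
  · obtain ⟨C, hC, hc⟩ := chr_sqf SF
    have hA : 0 ≤ (SF.nm Y.2 : ℝ) ^ SF.A := Real.rpow_nonneg (Nat.cast_nonneg _) _
    have hne : Y.2.Nonempty ∨ Y.1 ≠ 0 := by
      by_contra hcon
      rw [not_or, Finset.not_nonempty_iff_eq_empty, not_not] at hcon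
      exact hY0 (Prod.ext hcon.2 hcon.1)
    have hl := f8_lim F h7 z Y 0 (C * (SF.nm Y.2 : ℝ) ^ SF.A) (mul_nonneg hC hA)
      (fun _ => 0) (fun _ => by rw [abs_zero]; exact zero_le_one) ?_
    · refine ⟨_, hl, fun _ => ?_⟩
      have e : ∀ h, f8_s F z Y h * (0 * 0) / (S.nm h : ℝ) ^ 2 = 0 := fun h => by
        rw [mul_zero, mul_zero, zero_div]
      rw [tsum_congr e, tsum_zero]
    · intro h t ht
      have h1 := hc Y.2 ((h ∪ z).biUnion F.up) Y.1 hne t ht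
      have h2 : Y.2 ∪ (h ∪ z).biUnion F.up = (h ∪ z).biUnion F.up := by
        apply Finset.union_eq_right.2
        rw [Finset.union_biUnion]
        exact hY.trans Finset.subset_union_right
      rw [h2] at h1
      rw [zero_mul, zero_mul, sub_zero]
      exact h1

end Pool.Agent.SK
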