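import Pool.Agent.SK.FDefs
import Pool.Agent.H32.MQ.LW1

/-!
# Malle's conjecture for 8T8 over number fields: the density of the good sets is positive
-/

set_option autoImplicit false

open scoped BigOperators Topology
open Filter

namespace Pool.Agent.SK

open Pool.Agent.H98.MK (sg)
open Pool.Agent.H98.MF
open Pool.Agent.H32.MQ

theorem f9_pow {σ : ℝ} (h0 : 0 < σ) (h1 : σ ≤ 1) : (2 : ℝ) ^ (-σ) ≤ 1 - σ / 2 := by
  have h := _root_.rpow_one_add_le_one_add_mul_self (s := -(1 / 2 : ℝ)) (by norm_num) h0.le h1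
  have h2 : (1 + -(1 / 2 : ℝ)) ^ σ = (2 : ℝ) ^ (-σ) := by
    rw [Real.rpow_neg (by norm_num), ← Real.inv_rpow (by norm_num)]
    norm_num
  rw [h2] at h
  linarith

theorem f9_geo {r : ℝ} (h0 : 0 ≤ r) (h1 : r < 1) (P : ℕ) :
    ∑ p ∈ Finset.range P, r ^ p ≤ 1 / (1 - r) := by
  have h := (summable_geometric_of_lt_one h0 h1).sum_le_tsum (Finset.range P)
    (fun i _ => pow_nonneg h0 i)
  rw [tsum_geometric_of_lt_one h0 h1] at h
  rwa [one_div]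

/-- dyadic decomposition of a finite sum of powers -/
theorem f9_dy {ι : Type*} (T : Finset ι) (n : ι → ℕ) (hn : ∀ i, 1 ≤ n i) (ε C : ℝ) (hε : 0 ≤ ε)
    (hC : 0 ≤ C) (hT : ∀ p : ℕ, ((T.filter fun i => n i ≤ 2 ^ p).card : ℝ) ≤ ε * 2 ^ p + C)
    {σ : ℝ} (h0 : 0 < σ) (h1 : σ ≤ 1) :
    ∑ i ∈ T, (n i : ℝ) ^ (-(1 + σ)) ≤ 4 * ε / σ + 2 * C := by
  classical
  obtain ⟨P, hP⟩ : ∃ P : ℕ, ∀ i ∈ T, Nat.log 2 (n i) < P := by
    refine ⟨T.sup (fun i => Nat.log 2 (n i)) + 1, fun i hi => ?_⟩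
    have := Finset.le_sup (f := fun i => Nat.log 2 (n i)) hi
    exact Nat.lt_succ_of_le this
  rw [← Finset.sum_fiberwise_of_maps_to (t := Finset.range P) (g := fun i => Nat.log 2 (n i))
    (fun i hi => Finset.mem_range.2 (hP i hi))]
  have hr0 : (0 : ℝ) ≤ (2 : ℝ) ^ (-σ) := Real.rpow_nonneg (by norm_num) _
  have hr := f9_pow h0 h1
  have hr1 : (2 : ℝ) ^ (-σ) < 1 := by linarith
  have hb : ∀ p ∈ Finset.range P, ∑ i ∈ T.filter (fun i => Nat.log 2 (n i) = p),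
      (n i : ℝ) ^ (-(1 + σ)) ≤ 2 * ε * ((2 : ℝ) ^ (-σ)) ^ p + C * (1 / 2 : ℝ) ^ p := by
    intro p _
    have e1 : ∀ i ∈ T.filter (fun i => Nat.log 2 (n i) = p),
        (n i : ℝ) ^ (-(1 + σ)) ≤ ((2 : ℝ) ^ p) ^ (-(1 + σ)) := by
      intro i hi
      have h2 : 2 ^ p ≤ n i := by
        rw [← (Finset.mem_filter.1 hi).2]
        exact Nat.pow_log_le_self 2 (by have := hn i; omega)
      exact Real.rpow_le_rpow_of_nonpos (by positivity) (by exact_mod_cast h2) (by linarith)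
    have e2 : ((T.filter (fun i => Nat.log 2 (n i) = p)).card : ℝ) ≤ ε * 2 ^ (p + 1) + C := by
      refine le_trans ?_ (hT (p + 1))
      exact_mod_cast Finset.card_le_card fun i hi => by
        rw [Finset.mem_filter] at hi ⊢
        refine ⟨hi.1, ?_⟩
        rw [← hi.2]
        exact (Nat.lt_pow_succ_log_self (by norm_num) (n i)).le
    refine (Finset.sum_le_sum e1).trans ?_
    rw [Finset.sum_const, nsmul_eq_mul]
    have e3 : ((2 : ℝ) ^ p) ^ (-(1 + σ)) = (1 / 2 : ℝ) ^ p * ((2 : ℝ) ^ (-σ)) ^ p := by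
      rw [← Real.rpow_natCast (2 : ℝ) p, ← Real.rpow_mul (by norm_num),
        ← Real.rpow_natCast ((2 : ℝ) ^ (-σ)) p, ← Real.rpow_mul (by norm_num),
        one_div, inv_pow, ← Real.rpow_natCast (2 : ℝ) p, ← Real.rpow_neg (by norm_num),
        ← Real.rpow_add (by norm_num)]
      congr 1
      ring
    rw [e3]
    have e4 : (0 : ℝ) ≤ (1 / 2 : ℝ) ^ p * ((2 : ℝ) ^ (-σ)) ^ p := by positivity
    refine (mul_le_mul_of_nonneg_right e2 e4).trans ?_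
    have e5 : (2 : ℝ) ^ (p + 1) * (1 / 2 : ℝ) ^ p = 2 := by
      rw [pow_succ, one_div, inv_pow]
      field_simp
    have e6 : ((2 : ℝ) ^ (-σ)) ^ p ≤ 1 := pow_le_one₀ hr0 hr1.le
    have e7 : (ε * 2 ^ (p + 1) + C) * ((1 / 2 : ℝ) ^ p * ((2 : ℝ) ^ (-σ)) ^ p) =
        ε * ((2 : ℝ) ^ (p + 1) * (1 / 2 : ℝ) ^ p) * ((2 : ℝ) ^ (-σ)) ^ p +
          C * (1 / 2 : ℝ) ^ p * ((2 : ℝ) ^ (-σ)) ^ p := by ring
    rw [e7, e5]
    have e8 : C * (1 / 2 : ℝ) ^ p * ((2 : ℝ) ^ (-σ)) ^ p ≤ C * (1 / 2 : ℝ) ^ p * 1 :=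
      mul_le_mul_of_nonneg_left e6 (by positivity)
    linarith
  refine (Finset.sum_le_sum hb).trans ?_
  rw [Finset.sum_add_distrib, ← Finset.mul_sum, ← Finset.mul_sum]
  have g1 := f9_geo hr0 hr1 P
  have g2 := f9_geo (r := 1 / 2) (by norm_num) (by norm_num) P
  have g3 : 1 / (1 - (2 : ℝ) ^ (-σ)) ≤ 2 / σ := by
    rw [div_le_div_iff₀ (by linarith) h0]
    linarith
  have g4 : 2 * ε * ∑ p ∈ Finset.range P, ((2 : ℝ) ^ (-σ)) ^ p ≤ 2 * ε * (2 / σ) :=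
    mul_le_mul_of_nonneg_left (g1.trans g3) (by positivity)
  have g5 : C * ∑ p ∈ Finset.range P, (1 / 2 : ℝ) ^ p ≤ C * 2 := by
    refine mul_le_mul_of_nonneg_left (g2.trans ?_) hC
    norm_num
  have g6 : 2 * ε * (2 / σ) = 4 * ε / σ := by ring
  linarith

section

variable {S SF : Sys} (F : Qf S SF)

open Classical in
/-- the terms of one good set -/
noncomputable def f9t (s : ℝ) (w : Fin 1 → Finset F.Q.P) : ℝ :=
  if F.Q.Gd (w 0) then pw s (F.Q.shd (w 0)) else 0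

theorem f9t_nonneg (s : ℝ) (w : Fin 1 → Finset F.Q.P) : 0 ≤ f9t F s w := by
  unfold f9t
  split_ifs
  · exact lw1_pw0 _
  · exact le_rfl

theorem f9_sum1 (hS : SES) {s : ℝ} (hs : 1 < s) :
    (Summable fun x : Fin 1 → Finset S.P => pw s (x 0)) ∧
      ∑' x : Fin 1 → Finset S.P, pw s (x 0) =
        ES F (fun _ : Fin 1 => ((0 : S.T), (∅ : Finset S.P)))
          (fun _ : Fin 0 => ((0 : SF.T), (∅ : Finset SF.P))) ∅ s := by
  have h1 := hS S SF F 1 0 (fun _ => (0, ∅)) (fun _ => (0, ∅)) ∅ s hs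
  have h2 : (fun w => tE F (fun _ : Fin 1 => ((0 : S.T), (∅ : Finset S.P)))
      (fun _ : Fin 0 => ((0 : SF.T), (∅ : Finset SF.P))) ∅ s w) =
      (fun x : Fin 1 → Finset S.P => pw s (x 0)) ∘
        (Equiv.prodUnique (Fin 1 → Finset S.P) (Fin 0 → Finset F.Q.P)) := by
    funext w
    rw [lw1_tE1]
    rfl
  rw [h2] at h1
  refine ⟨(Equiv.summable_iff _).1 h1, ?_⟩
  unfold ES
  rw [h2]
  exact ((Equiv.prodUnique (Fin 1 → Finset S.P) (Fin 0 → Finset F.Q.P)).tsum_eq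
    (fun x : Fin 1 → Finset S.P => pw s (x 0))).symm

theorem f9_sum2 (hS : SES) {s : ℝ} (hs : 1 < s) : Summable (f9t F s) := by
  have h1 := hS S SF F 0 1 (fun _ => (0, ∅)) (fun _ => (0, ∅)) ∅ s hs
  have h2 : (fun w => tE F (fun _ : Fin 0 => ((0 : S.T), (∅ : Finset S.P)))
      (fun _ : Fin 1 => ((0 : SF.T), (∅ : Finset SF.P))) ∅ s w) =
      (f9t F s) ∘ (Equiv.uniqueProd (Fin 1 → Finset F.Q.P) (Fin 0 → Finset S.P)) := by
    funext w
    rw [lw1_tE2]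
    rfl
  rw [h2] at h1
  exact (Equiv.summable_iff _).1 h1

theorem f9_ES (hS : SES) {s : ℝ} (hs : 1 < s) :
    ES F (fun _ : Fin 1 => ((0 : S.T), (∅ : Finset S.P)))
      (fun _ : Fin 1 => ((0 : SF.T), (∅ : Finset SF.P))) ∅ s ≤
    ES F (fun _ : Fin 1 => ((0 : S.T), (∅ : Finset S.P)))
      (fun _ : Fin 0 => ((0 : SF.T), (∅ : Finset SF.P))) ∅ s * ∑' w, f9t F s w := by
  classical
  obtain ⟨h1, h2⟩ := f9_sum1 F hS hs
  have h3 := f9_sum2 F hS hs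
  have h4 : Summable fun z : (Fin 1 → Finset S.P) × (Fin 1 → Finset F.Q.P) =>
      pw s (z.1 0) * f9t F s z.2 :=
    h1.mul_of_nonneg h3 (fun x => lw1_pw0 _) (f9t_nonneg F s)
  rw [← h2, h1.tsum_mul_tsum h3 h4]
  unfold ES
  refine (hS S SF F 1 1 (fun _ => (0, ∅)) (fun _ => (0, ∅)) ∅ s hs).tsum_le_tsum ?_ h4
  intro w
  unfold tE
  by_cases h : okE F ∅ w
  · rw [if_pos h]
    have hg : F.Q.Gd (w.2 0) := h.2.2.1 0
    unfold f9t
    rw [if_pos hg]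
    simp [Sys.JJ_empty_right, sg_zero]
  · rw [if_neg h]
    exact mul_nonneg (lw1_pw0 _) (f9t_nonneg F s _)

theorem f9_card (F' : Qc S SF) (X : ℝ) : cF F' ∅ (0, ∅) X = ((F'.Q.gb X).card : ℝ) := by
  unfold cF
  rw [Finset.sum_congr rfl (g := fun _ => (1 : ℝ))]
  · simp
  · intro f _
    rw [if_pos (Finset.disjoint_empty_right _)]
    simp [Sys.JJ_empty_right, sg_zero]

theorem f9_gb {X Y : ℝ} (h : X ≤ Y) : F.Q.gb X ⊆ F.Q.gb Y := fun g hg => by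
  rw [F.Q.mem_gb] at hg ⊢
  exact ⟨hg.1, hg.2.trans h⟩

theorem f9_nq (g : Finset F.Q.P) : 1 ≤ F.Q.nq g := by
  show 0 < ∏ p ∈ F.Q.shd g, S.N p
  exact Finset.prod_pos fun p _ => S.one_le_N p

theorem f9_G (hS : SES) (ε C : ℝ) (hε : 0 ≤ ε) (hC : 0 ≤ C)
    (h : ∀ X : ℝ, 0 ≤ X → ((F.Q.gb X).card : ℝ) ≤ ε * X + C) {σ : ℝ} (h0 : 0 < σ) (h1 : σ ≤ 1) :
    ∑' w, f9t F (1 + σ) w ≤ 4 * ε / σ + 2 * C := by
  classical
  refine (f9_sum2 F hS (by linarith : (1 : ℝ) < 1 + σ)).tsum_le_of_sum_le fun T => ?_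
  have e1 : ∑ w ∈ T, f9t F (1 + σ) w =
      ∑ g ∈ (T.image fun w => w 0).filter (fun g => F.Q.Gd g), (F.Q.nq g : ℝ) ^ (-(1 + σ)) := by
    rw [Finset.sum_filter, Finset.sum_image]
    · rfl
    · intro w _ w' _ hw
      funext i
      rw [Subsingleton.elim i 0]
      exact hw
  rw [e1]
  refine f9_dy _ (fun g => F.Q.nq g) (f9_nq F) ε C hε hC (fun p => ?_) h0 h1
  have e2 := h (2 ^ p) (by positivity)
  refine le_trans ?_ e2
  exact_mod_cast Finset.card_le_card fun g hg => by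
    rw [Finset.mem_filter, Finset.mem_filter] at hg
    rw [F.Q.mem_gb]
    refine ⟨hg.1.2, ?_⟩
    exact_mod_cast hg.2

end

/-- F9: the density of the good sets is positive -/
theorem f9 (h8 : SF8) (hc : Pool.Agent.H32.MQ.SEC) (hb : Pool.Agent.H32.MQ.SEB)
    (hs : Pool.Agent.H32.MQ.SES) : SF9 := by
  intro S SF F
  obtain ⟨l, hl, -⟩ := h8 S SF F ∅ (0, ∅) (Finset.empty_subset _)
  have hl0 : 0 ≤ l := by
    refine ge_of_tendsto' hl fun X => ?_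
    rw [f9_card]
    by_cases hX : 0 ≤ X
    · positivity
    · have : F.Q.gb X = ∅ := by
        rw [Finset.eq_empty_iff_forall_notMem]
        intro g hg
        rw [F.Q.mem_gb] at hg
        exact hX ((Nat.cast_nonneg _).trans hg.2)
      rw [this]
      simp
  refine ⟨l, lt_of_le_of_ne hl0 fun h => ?_, hl⟩
  subst h
  obtain ⟨c0, hc0, hc1⟩ := hc S SF F.toQf
  obtain ⟨C, hC⟩ := lw1_e1 F.toQf hb
  -- the counting function
  have hN : ∀ ε : ℝ, 0 < ε → ∃ D : ℝ, 0 ≤ D ∧ ∀ X : ℝ, 0 ≤ X →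
      ((F.Q.gb X).card : ℝ) ≤ ε * X + D := by
    intro ε hε
    have h1 := (hl.eventually_lt_const hε)
    obtain ⟨X0, hX0⟩ := (h1.and (eventually_gt_atTop (0 : ℝ))).exists_forall_of_atTop
    refine ⟨((F.Q.gb X0).card : ℝ), Nat.cast_nonneg _, fun X hX => ?_⟩
    by_cases h2 : X0 ≤ X
    · obtain ⟨h3, h4⟩ := hX0 X h2
      rw [f9_card, div_lt_iff₀ h4] at h3
      have : (0 : ℝ) ≤ ((F.Q.gb X0).card : ℝ) := Nat.cast_nonneg _
      linarith
    · have h3 : ((F.Q.gb X).card : ℝ) ≤ ((F.Q.gb X0).card : ℝ) := by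
        exact_mod_cast Finset.card_le_card (f9_gb F.toQf (not_le.1 h2).le)
      have : 0 ≤ ε * X := by positivity
      linarith
  have hC0 : 0 ≤ C := by
    have h1 := hC 1 one_pos le_rfl
    rw [Real.one_rpow, mul_one] at h1
    exact (abs_nonneg _).trans h1
  -- the bound
  have hk : ∀ ε : ℝ, 0 < ε → c0 ≤ C * (4 * ε) := by
    intro ε hε
    obtain ⟨D, hD, hD1⟩ := hN ε hε
    have h1 : Tendsto (fun σ : ℝ => C * (4 * ε + 2 * D * σ)) (𝓝[>] 0)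
        (𝓝 (C * (4 * ε + 2 * D * 0))) := by
      refine Tendsto.mono_left ?_ nhdsWithin_le_nhds
      exact (Continuous.tendsto (by fun_prop) 0)
    rw [mul_zero, add_zero] at h1
    refine le_of_tendsto_of_tendsto hc1 h1 ?_
    have h2 : ∀ᶠ σ : ℝ in 𝓝[>] 0, σ ∈ Set.Ioc (0 : ℝ) 1 := Ioc_mem_nhdsGT one_pos
    filter_upwards [h2] with σ hσ
    have h3 := f9_ES F.toQf hs (by linarith [hσ.1] : (1 : ℝ) < 1 + σ)
    have h4 := f9_G F.toQf hs ε D hε.le hD hD1 hσ.1 hσ.2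
    have h5 := (le_abs_self _).trans (hC σ hσ.1 hσ.2)
    have h6 : 0 ≤ ∑' w, f9t F.toQf (1 + σ) w := tsum_nonneg (f9t_nonneg F.toQf _)
    have h7 : (0 : ℝ) ≤ 4 * ε / σ + 2 * D := h6.trans h4
    have h8 : (0 : ℝ) ≤ C * σ ^ (-(1 : ℝ)) := mul_nonneg hC0 (Real.rpow_nonneg hσ.1.le _)
    have h9 := h3.trans (mul_le_mul h5 h4 h6 h8)
    have h10 : σ ^ 2 * (C * σ ^ (-(1 : ℝ)) * (4 * ε / σ + 2 * D)) = C * (4 * ε + 2 * D * σ) := by
      rw [Real.rpow_neg_one]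
      have := hσ.1.ne'
      field_simp
    rw [← h10]
    exact mul_le_mul_of_nonneg_left h9 (sq_nonneg σ)
  have h1 := hk (c0 / (8 * (C + 1))) (by positivity)
  have h2 : C * (4 * (c0 / (8 * (C + 1)))) = c0 * (C / (C + 1)) / 2 := by
    field_simp
    ring
  have h3 : C / (C + 1) ≤ 1 := by
    rw [div_le_one (by linarith)]
    linarith
  have h4 : c0 * (C / (C + 1)) ≤ c0 * 1 := mul_le_mul_of_nonneg_left h3 hc0.le
  rw [h2] at h1
  linarith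

end Pool.Agent.SK
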