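import Pool.Agent.SK.GDefs
import Pool.Agent.H32.MQ.EGStm

/-!
# Malle's conjecture for 8T8 over number fields: a fixed quadratic extension
(definitions and statements)
-/

set_option autoImplicit false

open scoped BigOperators Topology
open Filter

namespace Pool.Agent.SK

open Pool.Agent.H98.MK (sg)
open Pool.Agent.H98.MF
open Pool.Agent.H32.MQ (Qd El Qf Pk Pf)

/-- a quadratic extension without exceptional primes, with the symbols of the classes at all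
primes of degree one outside the class -/
structure Qc (S SF : Sys) extends Qf S SF where
  sy_all : ∀ a g b, Q.Gd g → b ∉ g → Q.sy (el a g) b = SF.ex (g.image io) a (io b)

section

variable {S SF : Sys} (F : Qc S SF)

/-- the weight of a class given by a function of the unit coordinates and the type -/
def th (θ : SF.T → SF.T → ℝ) (γ : F.Q.G) : ℝ := θ (F.co γ).1 (F.co γ).2

open Classical in
/-- the type of a good set -/
noncomputable def typ (g : Finset F.Q.P) : SF.T := SF.tys (g.image F.io)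

/-- the product formula: the product of the symbols at the conjugate primes is local -/
def Spn (hs : SF.T → SF.T → ZMod 2) : Prop := ∀ a g, F.Q.Gd g →
  ∑ p ∈ g, F.Q.sy (F.el a g) (F.Q.cj p) = hs a (typ F g)

/-- the weight `(1 + (u^b/p)) / 2` -/
noncomputable def wb (b : S.T) (p : F.Q.P) : ℝ :=
  (1 + ((sg (b ⬝ᵥ S.ty (F.Q.sh p)) : ℤ) : ℝ)) / 2

open Classical in
/-- the conjugate of a set of primes, as a set of primes of `SF` -/
noncomputable def ic (e : Finset F.Q.P) : Finset SF.P := (e.image F.Q.cj).image F.io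

open Classical in
/-- the symbol of `f` at `e'`, zero if the shadows meet -/
noncomputable def jk (e f : Finset F.Q.P) : ℝ :=
  if Disjoint (F.Q.shd e) (F.Q.shd f) then ((SF.jj (ic F e) (f.image F.io) : ℤ) : ℝ) else 0

open Classical in
/-- the number of good sets of norm at most `X` with shadows disjoint from `z`, with a
character -/
noncomputable def cF (z : Finset S.P) (Y : El SF) (X : ℝ) : ℝ :=
  ∑ f ∈ F.Q.gb X, if Disjoint (F.Q.shd f) z then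
    ((sg (SF.JJ (f.image F.io) Y.2 + Y.1 ⬝ᵥ SF.tys (f.image F.io)) : ℤ) : ℝ) else 0

end

/-- F1: the bilinear estimate of a system of primes, without logarithms -/
def SF1 : Prop := ∀ F : Sys, ∃ C η : ℝ, 0 ≤ C ∧ 0 < η ∧ η ≤ 1 / 2 ∧
  ∀ (a b : Finset F.P → ℝ), (∀ x, |a x| ≤ 1) → (∀ y, |b y| ≤ 1) → ∀ X Y : ℝ, 1 ≤ X → 1 ≤ Y →
    |∑ x ∈ F.bx X, ∑ y ∈ F.bx Y, (if Disjoint x y then a x * b y * (F.jj x y : ℝ) else 0)| ≤
      C * (X * Y) * min X Y ^ (-η)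

/-- F2: good sets have linear growth -/
def SF2 : Prop := ∀ (S SF : Sys) (F : Qc S SF), ∃ K : ℝ, 1 ≤ K ∧ (gdN F.Q).Lin K

/-- F3: the bilinear estimate for good sets with disjoint shadows -/
def SF3 : Prop := ∀ (S SF : Sys) (F : Qc S SF), ∃ C η : ℝ, 0 ≤ C ∧ 0 < η ∧
  Bil (gdN F.Q) (gdN F.Q) (fun e f => jk F e.1 f.1) C η

/-- F4: the kernel in terms of the symbols -/
def SF4 : Prop := ∀ (S SF : Sys) (F : Qc S SF) (θ : SF.T → SF.T → ℝ) (e f : Finset F.Q.P),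
  F.Q.Gd e → F.Q.Gd f → GG F.Q (th F θ) e f =
    ∑ a : SF.T, θ a (typ F e + typ F f) *
      ((SF.jj (ic F e) (e.image F.io) * sg (a ⬝ᵥ SF.tys (ic F e)) : ℤ) : ℝ) * jk F e f

/-- F5: the bilinear estimate for the kernel -/
def SF5 : Prop := ∀ (S SF : Sys) (F : Qc S SF) (θ : SF.T → SF.T → ℝ), ∃ C η : ℝ, 0 ≤ C ∧
  0 < η ∧ Bil (gdN F.Q) (gdN F.Q) (fun e f => GG F.Q (th F θ) e.1 f.1) C η

/-- F6: the symmetry of the kernel -/
def SF6 : Prop := ∀ (S SF : Sys) (F : Qc S SF) (θ : SF.T → SF.T → ℝ)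
  (hs : SF.T → SF.T → ZMod 2), Spn F hs → ∀ e f : Finset F.Q.P, F.Q.Gd e → F.Q.Gd f →
    GG F.Q (th F θ) e f = GG F.Q (th F fun a τ => θ a τ * ((sg (hs a τ) : ℤ) : ℝ)) f e

open Classical in
/-- F7: good sets among all finite sets of primes -/
def SF7 : Prop := ∀ (S SF : Sys) (F : Qc S SF) (z : Finset S.P) (Y : El SF) (X : ℝ), 1 ≤ X →
  cF F z Y X = ∑ h ∈ S.bx (Real.sqrt X), if Disjoint h z then
    (-1 : ℝ) ^ h.card *
      ((sg (SF.JJ (h.biUnion F.up) Y.2 + Y.1 ⬝ᵥ SF.tys (h.biUnion F.up)) : ℤ) : ℝ) *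
      ∑ A ∈ SF.bx (X / (S.nm h : ℝ) ^ 2), (if Disjoint A ((h ∪ z).biUnion F.up) then
        ((sg (SF.JJ A Y.2 + Y.1 ⬝ᵥ SF.tys A) : ℤ) : ℝ) else 0) else 0

/-- F8: the limit of the number of good sets with a character -/
def SF8 : Prop := ∀ (S SF : Sys) (F : Qc S SF) (z : Finset S.P) (Y : El SF),
  Y.2 ⊆ z.biUnion F.up → ∃ l : ℝ, Tendsto (fun X => cF F z Y X / X) atTop (𝓝 l) ∧
    (Y ≠ (0, ∅) → l = 0)

/-- F9: the density of the good sets is positive -/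
def SF9 : Prop := ∀ (S SF : Sys) (F : Qc S SF), ∃ l : ℝ, 0 < l ∧
  Tendsto (fun X => cF F ∅ (0, ∅) X / X) atTop (𝓝 l)

/-- F10: the weights `wb` have mean zero, logarithmic sums -/
def SF10 : Prop := ∀ (S SF : Sys) (F : Qc S SF) (b : S.T), F.em (b, ∅) ≠ 0 → ∃ C : ℝ,
  ∀ X : ℝ, 2 ≤ X → ∑ f ∈ F.Q.gb X, (∏ p ∈ f, wb F b p) / (F.Q.nq f : ℝ) ≤
    C * Real.log X ^ (1 / 2 : ℝ)

/-- F11: the weights `wb` have mean zero -/
def SF11 : Prop := ∀ (S SF : Sys) (F : Qc S SF) (b : S.T), F.em (b, ∅) ≠ 0 →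
  Tendsto (fun X => (∑ f ∈ F.Q.gb X, ∏ p ∈ f, wb F b p) / X) atTop (𝓝 0)

/-- F12: the limit for fixed `e` -/
def SF12 : Prop := ∀ (S SF : Sys) (F : Qc S SF) (θ : SF.T → SF.T → ℝ),
  (∀ e : (gdN F.Q).I, e.1 ≠ ∅ → Tendsto (fun x : ℝ => (∑' f : (gdN F.Q).I,
    GG F.Q (th F θ) e.1 f.1 * Real.exp (-((F.Q.nq e.1 : ℝ) * (F.Q.nq f.1 : ℝ) / x))) / x)
      atTop (𝓝 0)) ∧
  ∀ l : ℝ, Tendsto (fun X => cF F ∅ (0, ∅) X / X) atTop (𝓝 l) →
    Tendsto (fun x : ℝ => (∑' f : (gdN F.Q).I, GG F.Q (th F θ) ∅ f.1 *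
      Real.exp (-((F.Q.nq f.1 : ℝ) / x))) / x) atTop
      (𝓝 (l * (∑ a : SF.T, ∑ τ : SF.T, θ a τ) / 2 ^ SF.m))

/-- F13: the limit for fixed `e` with the weights `wb` -/
def SF13 : Prop := ∀ (S SF : Sys) (F : Qc S SF) (θ : SF.T → SF.T → ℝ) (b : S.T),
  F.em (b, ∅) ≠ 0 → ∀ e : (gdN F.Q).I, Tendsto (fun x : ℝ => (∑' f : (gdN F.Q).I,
    |(∏ p ∈ f.1, wb F b p) * GG F.Q (th F θ) e.1 f.1| *
      Real.exp (-((F.Q.nq e.1 : ℝ) * (F.Q.nq f.1 : ℝ) / x))) / x) atTop (𝓝 0)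

/-- F14: the limit of the main sum -/
def SF14 : Prop := ∀ (S SF : Sys) (F : Qc S SF) (θ : SF.T → SF.T → ℝ)
  (hs : SF.T → SF.T → ZMod 2), Spn F hs →
    ∀ l : ℝ, Tendsto (fun X => cF F ∅ (0, ∅) X / X) atTop (𝓝 l) →
      Tendsto (fun x : ℝ => TT F.Q (th F θ) (fun _ => 1) x / x) atTop
        (𝓝 (l * (∑ a : SF.T, ∑ τ : SF.T, θ a τ * (1 + ((sg (hs a τ) : ℤ) : ℝ))) / 2 ^ SF.m))

/-- F15: the main sum with the weights `wb` -/
def SF15 : Prop := ∀ (S SF : Sys) (F : Qc S SF) (θ : SF.T → SF.T → ℝ)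
  (hs : SF.T → SF.T → ZMod 2), Spn F hs → ∀ b : S.T, F.em (b, ∅) ≠ 0 →
    Tendsto (fun x : ℝ => TT F.Q (th F θ) (wb F b) x / x) atTop (𝓝 0)

end Pool.Agent.SK
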