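import Pool.Agent.SK.GDefs

/-!
# Malle's conjecture for 8T8 over number fields, row G2: the kernel is bounded
-/

set_option autoImplicit false

open scoped BigOperators

namespace Pool.Agent.SK

open Pool.Agent.H98.MK (sg)
open Pool.Agent.H98.MF
open Pool.Agent.H32.MQ (Qd Od El)

/-- the kernel is bounded -/
theorem g2 : SG2 := by
  classical
  intro S Q Θ A hA hΘ e f
  have h0 : 0 ≤ A * 4 ^ (S.m + Q.M.card) := mul_nonneg hA (by positivity)
  unfold GG
  split_ifs with h
  · refine (Finset.abs_sum_le_sum_abs _ _).trans ?_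
    have h1 : ∀ γ ∈ Q.B (e ∪ f), |Θ γ * sgc Q γ e| ≤ A := by
      intro γ _
      have h2 : |sgc Q γ e| = 1 := abs_sgr _
      rw [abs_mul, h2, mul_one]
      exact hΘ γ
    refine (Finset.sum_le_card_nsmul _ _ A h1).trans ?_
    rw [nsmul_eq_mul, mul_comm]
    refine mul_le_mul_of_nonneg_left ?_ hA
    exact_mod_cast Q.card_B (e ∪ f)
  · rw [abs_zero]
    exact h0

end Pool.Agent.SK
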