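import Pool.Agent.SK.GDefs
import Pool.Agent.H32.MQ.BFin
import Pool.Agent.H32.MQ.BLb

/-!
# Malle's conjecture for 8T8 over number fields, row G3: the bilinear estimate for the kernel
-/

set_option autoImplicit false

open scoped BigOperators Topology
open Filter

namespace Pool.Agent.SK

open Pool.Agent.H98.MK (sg)
open Pool.Agent.H98.MF
open Pool.Agent.H32.MQ (Qd Od El AlSt RepSt BFaSt BFbSt)

section

variable {S : Sys} (Q : Qd S)

/-- the conjugate of a set of primes -/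
noncomputable def g3_cj (e : Finset Q.P) : Finset Q.P := e.image Q.cj

theorem g3_inj : Function.Injective Q.cj := fun a b h => by
  rw [← Q.cj_cj a, h, Q.cj_cj]

theorem g3_cj_cj (e : Finset Q.P) : g3_cj Q (g3_cj Q e) = e := by
  unfold g3_cj
  rw [Finset.image_image]
  have h1 : Q.cj ∘ Q.cj = id := funext fun a => Q.cj_cj a
  rw [h1, Finset.image_id]

theorem g3_shd (e : Finset Q.P) : Q.shd (g3_cj Q e) = Q.shd e := by
  unfold g3_cj Qd.shd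
  rw [Finset.image_image]
  exact Finset.image_congr fun a _ => Q.sh_cj a

theorem g3_nq (e : Finset Q.P) : Q.nq (g3_cj Q e) = Q.nq e := by
  unfold Qd.nq
  rw [g3_shd]

theorem g3_gd {e : Finset Q.P} (h : Q.Gd e) : Q.Gd (g3_cj Q e) := by
  intro a ha b hb hab
  obtain ⟨a', ha', rfl⟩ := Finset.mem_image.1 ha
  obtain ⟨b', hb', rfl⟩ := Finset.mem_image.1 hb
  rw [Q.sh_cj, Q.sh_cj] at hab
  rw [h a' ha' b' hb' hab]

theorem g3_mem {X : ℝ} {e : Finset Q.P} (h : e ∈ Q.gb X) : g3_cj Q e ∈ Q.gb X := by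
  rw [Q.mem_gb] at h ⊢
  exact ⟨g3_gd Q h.1, by rw [g3_nq]; exact h.2⟩

theorem g3_sum (X : ℝ) (F : Finset Q.P → ℝ) :
    ∑ e ∈ Q.gb X, F e = ∑ e ∈ Q.gb X, F (g3_cj Q e) := by
  refine Finset.sum_nbij' (fun e => g3_cj Q e) (fun e => g3_cj Q e)
    (fun e he => g3_mem Q he) (fun e he => g3_mem Q he) (fun e _ => g3_cj_cj Q e)
    (fun e _ => g3_cj_cj Q e) fun e _ => ?_
  rw [g3_cj_cj]

theorem g3_le {X : ℝ} (hX : 0 ≤ X) (F : Finset Q.P → ℝ) :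
    ∑ i ∈ (gdN Q).le X, F i.1 = ∑ e ∈ Q.gb X, F e := by
  refine Finset.sum_bij (fun (i : (gdN Q).I) _ => i.1) (fun i hi => ?_)
    (fun i _ j _ h => Subtype.ext h) (fun e he => ?_) fun i _ => rfl
  · rw [Q.mem_gb]
    exact ⟨i.2, ((gdN Q).mem_le hX).1 hi⟩
  · rw [Q.mem_gb] at he
    exact ⟨⟨e, he.1⟩, ((gdN Q).mem_le hX).2 he.2, rfl⟩

/-- the kernel for a fixed label -/
theorem g3_ker {n c B K : ℕ} (O : Od Q n c B K) (al : Finset Q.P → O.A) {e f : Finset Q.P}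
    (he : Q.Gd e) (hd : Disjoint (Q.shd e) (Q.shd f)) (Y : Finset O.U)
    (hB : ∀ F : Q.G → ℝ, ∑ γ ∈ Q.B (f ∪ e), F γ = ∑ y ∈ Y, F (O.cl (O.io (al f) + y)))
    (hsy : ∀ y ∈ Y, ∀ a, a ∉ f ∪ e → Q.sy (O.cl (O.io (al f) + y)) a =
        O.chi (O.em a) (O.io (al f)) + O.chi (O.em a) y) :
    GG Q (fun _ => 1) e f =
      O.sgs (g3_cj Q e) (O.io (al f)) * ∑ y ∈ Y, O.sgs (g3_cj Q e) y := by
  unfold GG
  rw [if_pos hd, Finset.union_comm e f, hB (fun γ => 1 * sgc Q γ e), Finset.mul_sum]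
  refine Finset.sum_congr rfl fun y hy => ?_
  rw [one_mul, ← O.sgs_add]
  unfold sgc Od.sgs
  congr 2
  unfold g3_cj
  rw [Finset.sum_image fun a _ b _ h => g3_inj Q h]
  refine Finset.sum_congr rfl fun p hp => ?_
  have hp' : Q.cj p ∉ f ∪ e := by
    intro hp2
    have hp3 : Q.sh p ∈ Q.shd e := Finset.mem_image_of_mem _ hp
    rcases Finset.mem_union.1 hp2 with hp4 | hp4
    · have hp5 : Q.sh (Q.cj p) ∈ Q.shd f := Finset.mem_image_of_mem _ hp4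
      rw [Q.sh_cj] at hp5
      exact Finset.disjoint_left.1 hd hp3 hp5
    · exact Q.cj_ne p (he (Q.cj p) hp4 p hp (Q.sh_cj p))
  rw [hsy y hy (Q.cj p) hp', map_add]

end

open Classical in
/-- one label -/
theorem g3_label (h2 : RepSt) (h3 : BFaSt) (h4 : BFbSt) (S : Sys) (n B : ℕ) (hn : 1 ≤ n) :
    ∃ C : ℝ, 0 < C ∧ ∀ (Q : Qd S) (c K : ℕ), 1 ≤ c → 1 ≤ K → ∀ (O : Od Q n c B K)
      (al : Finset Q.P → O.A), O.Al al → ∀ (l : O.V →₀ ℕ)
      (a b : Finset Q.P → ℝ), (∀ e, |a e| ≤ 1) → (∀ f, |b f| ≤ 1) → ∀ X Y : ℝ, 1 ≤ X → 1 ≤ Y →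
      |∑ e ∈ Q.gb X, ∑ f ∈ (Q.gb Y).filter (fun f => O.lab al f = l),
        a e * b f * GG Q (fun _ => 1) e f| ≤
        4 ^ (S.m + Q.M.card) * (C * (K : ℝ) ^ 3 * (c : ℝ) ^ (n + 3) * (X * Y) *
          min X Y ^ (-(1 / (24 * n : ℝ)))) := by
  obtain ⟨Ca, hCa, ha3⟩ := h3 S n B hn
  obtain ⟨Cb, hCb, hb4⟩ := h4 S n B hn
  refine ⟨Ca + Cb, by positivity, ?_⟩
  intro Q c K hc hK O al hal l a b ha hb X Y hX hY
  choose Yf hYc hYf using fun e : Finset Q.P => h2 S Q n c B K O al hal e l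
  have hX0 : 0 < X := by linarith
  have hY0 : 0 < Y := by linarith
  have hc1 : (1 : ℝ) ≤ (c : ℝ) ^ (n + 3) := one_le_pow₀ (by exact_mod_cast hc)
  have hK1 : (1 : ℝ) ≤ (K : ℝ) ^ 3 := one_le_pow₀ (by exact_mod_cast hK)
  obtain ⟨D, hD⟩ : ∃ D : ℝ, D = 4 ^ (S.m + Q.M.card) := ⟨_, rfl⟩
  have hD0 : 0 < D := by
    rw [hD]
    positivity
  obtain ⟨ce, hce⟩ : ∃ ce : Finset Q.P → ℝ,
      ce = fun e => ∑ y ∈ Yf e, O.sgs (g3_cj Q e) y := ⟨_, rfl⟩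
  have hceb : ∀ e, |ce e| ≤ D := by
    intro e
    rw [hce]
    refine (Finset.abs_sum_le_sum_abs _ _).trans ?_
    have h5 : ∑ y ∈ Yf e, |O.sgs (g3_cj Q e) y| = ((Yf e).card : ℝ) := by
      rw [Finset.sum_congr rfl fun y _ => O.abs_sgs _ y, Finset.sum_const, nsmul_eq_mul, mul_one]
    rw [h5, hD]
    exact_mod_cast hYc e
  obtain ⟨A, hA⟩ : ∃ A : Finset Q.P → ℝ,
      A = fun e' => a (g3_cj Q e') * ce (g3_cj Q e') / D := ⟨_, rfl⟩
  have hA1 : ∀ e, |A e| ≤ 1 := by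
    intro e
    rw [hA]
    show |a (g3_cj Q e) * ce (g3_cj Q e) / D| ≤ 1
    rw [abs_div, abs_mul, abs_of_pos hD0, div_le_one hD0]
    calc |a (g3_cj Q e)| * |ce (g3_cj Q e)| ≤ 1 * D :=
          mul_le_mul (ha _) (hceb _) (abs_nonneg _) zero_le_one
      _ = D := one_mul _
  have hid : ∑ e ∈ Q.gb X, ∑ f ∈ (Q.gb Y).filter (fun f => O.lab al f = l),
        a e * b f * GG Q (fun _ => 1) e f =
      D * ∑ e ∈ Q.gb X, ∑ f ∈ (Q.gb Y).filter (fun f => O.lab al f = l),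
        if Disjoint (Q.shd e) (Q.shd f) then A e * b f * O.sgs e (O.io (al f)) else 0 := by
    rw [g3_sum Q X (fun e => ∑ f ∈ (Q.gb Y).filter (fun f => O.lab al f = l),
        a e * b f * GG Q (fun _ => 1) e f), Finset.mul_sum]
    refine Finset.sum_congr rfl fun e he => ?_
    rw [Finset.mul_sum]
    refine Finset.sum_congr rfl fun f hf => ?_
    obtain ⟨hf1, hf2⟩ := Finset.mem_filter.1 hf
    have hGe : Q.Gd (g3_cj Q e) := g3_gd Q (Q.mem_gb.1 he).1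
    have hGf : Q.Gd f := (Q.mem_gb.1 hf1).1
    by_cases hd : Disjoint (Q.shd e) (Q.shd f)
    · have hd' : Disjoint (Q.shd (g3_cj Q e)) (Q.shd f) := by
        rw [g3_shd]
        exact hd
      obtain ⟨hB, hsy⟩ := hYf (g3_cj Q e) f hGf hf2 hd'.symm
      rw [if_pos hd, g3_ker Q O al hGe hd' (Yf (g3_cj Q e)) hB hsy, g3_cj_cj, hA, hce]
      show a (g3_cj Q e) * b f * (O.sgs e (O.io (al f)) * ∑ y ∈ Yf (g3_cj Q e), O.sgs e y) =
        D * (a (g3_cj Q e) * (∑ y ∈ Yf (g3_cj Q e), O.sgs (g3_cj Q (g3_cj Q e)) y) / D * b f *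
          O.sgs e (O.io (al f)))
      rw [g3_cj_cj]
      field_simp
    · have hd' : ¬ Disjoint (Q.shd (g3_cj Q e)) (Q.shd f) := by
        rw [g3_shd]
        exact hd
      rw [if_neg hd, mul_zero]
      unfold GG
      rw [if_neg hd', mul_zero]
  rw [hid, abs_mul, abs_of_pos hD0, ← hD]
  refine mul_le_mul_of_nonneg_left ?_ hD0.le
  rcases le_total X Y with hXY | hXY
  · have h6 := ha3 Q c K O al hal l X Y hX hXY A b hA1 hb
    refine h6.trans ?_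
    rw [min_eq_left hXY]
    have h7 : X ^ (1 - 1 / (24 * n : ℝ)) = X * X ^ (-(1 / (24 * n : ℝ))) := by
      rw [sub_eq_add_neg, Real.rpow_add hX0, Real.rpow_one]
    rw [h7]
    have h8 : 0 ≤ (c : ℝ) ^ (n + 3) * (X * Y) * X ^ (-(1 / (24 * n : ℝ))) := by
      positivity
    have h10 : Ca ≤ (Ca + Cb) * (K : ℝ) ^ 3 := by nlinarith
    calc Ca * (c : ℝ) ^ (n + 3) * Y * (X * X ^ (-(1 / (24 * n : ℝ))))
        = Ca * ((c : ℝ) ^ (n + 3) * (X * Y) * X ^ (-(1 / (24 * n : ℝ)))) := by ring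
      _ ≤ (Ca + Cb) * (K : ℝ) ^ 3 *
          ((c : ℝ) ^ (n + 3) * (X * Y) * X ^ (-(1 / (24 * n : ℝ)))) :=
          mul_le_mul_of_nonneg_right h10 h8
      _ = _ := by ring
  · have h6 := hb4 Q c K O al hal l Y X hY hXY b A hb hA1
    have h9 : ∑ e ∈ Q.gb X, ∑ f ∈ (Q.gb Y).filter (fun f => O.lab al f = l),
        (if Disjoint (Q.shd e) (Q.shd f) then A e * b f * O.sgs e (O.io (al f)) else 0) =
        ∑ f ∈ (Q.gb Y).filter (fun f => O.lab al f = l), ∑ e ∈ Q.gb X,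
          if Disjoint (Q.shd e) (Q.shd f) then b f * A e * O.sgs e (O.io (al f)) else 0 := by
      rw [Finset.sum_comm]
      apply Finset.sum_congr rfl
      intro f _
      apply Finset.sum_congr rfl
      intro e _
      rw [mul_comm (A e) (b f)]
    rw [h9]
    refine h6.trans ?_
    rw [min_eq_right hXY]
    have h7 : Y ^ (1 - 1 / (24 * n : ℝ)) = Y * Y ^ (-(1 / (24 * n : ℝ))) := by
      rw [sub_eq_add_neg, Real.rpow_add hY0, Real.rpow_one]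
    rw [h7]
    have h8 : 0 ≤ (K : ℝ) ^ 3 * (c : ℝ) ^ (n + 3) * (X * Y) * Y ^ (-(1 / (24 * n : ℝ))) := by
      positivity
    nlinarith

/-- G3: the bilinear estimate for the kernel without weight -/
theorem g3 (h1 : AlSt) (h2 : RepSt) (h3 : BFaSt) (h4 : BFbSt) : SG3 := by
  classical
  intro S n B hn
  obtain ⟨C, hC, hmain⟩ := g3_label h2 h3 h4 S n B hn
  refine ⟨C, hC, ?_⟩
  intro Q c K hc hK O
  obtain ⟨al, hal⟩ := h1 S Q n c B K O
  intro a b ha hb X Y hX hY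
  obtain ⟨Φ, hΦc, hΦ⟩ := O.cntV
  obtain ⟨a', ha'⟩ : ∃ a' : Finset Q.P → ℝ,
      a' = fun e => if h : Q.Gd e then a ⟨e, h⟩ else 0 := ⟨_, rfl⟩
  obtain ⟨b', hb'⟩ : ∃ b' : Finset Q.P → ℝ,
      b' = fun e => if h : Q.Gd e then b ⟨e, h⟩ else 0 := ⟨_, rfl⟩
  have ha1 : ∀ e, |a' e| ≤ 1 := by
    intro e
    rw [ha']
    show |if h : Q.Gd e then a ⟨e, h⟩ else 0| ≤ 1
    split_ifs
    · exact ha _
    · simp
  have hb1 : ∀ e, |b' e| ≤ 1 := by
    intro e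
    rw [hb']
    show |if h : Q.Gd e then b ⟨e, h⟩ else 0| ≤ 1
    split_ifs
    · exact hb _
    · simp
  have haa : ∀ i : (gdN Q).I, a' i.1 = a i := fun i => by
    rw [ha']
    exact dif_pos i.2
  have hbb : ∀ i : (gdN Q).I, b' i.1 = b i := fun i => by
    rw [hb']
    exact dif_pos i.2
  have hsum : ∑ i ∈ (gdN Q).le X, ∑ j ∈ (gdN Q).le Y, a i * b j * GG Q (fun _ => 1) i.1 j.1 =
      ∑ e ∈ Q.gb X, ∑ f ∈ Q.gb Y, a' e * b' f * GG Q (fun _ => 1) e f := by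
    have e1 : ∀ e, ∑ j ∈ (gdN Q).le Y, a' e * b' j.1 * GG Q (fun _ => 1) e j.1 =
        ∑ f ∈ Q.gb Y, a' e * b' f * GG Q (fun _ => 1) e f := fun e =>
      g3_le Q (by linarith) (fun f => a' e * b' f * GG Q (fun _ => 1) e f)
    rw [← g3_le Q (by linarith : (0 : ℝ) ≤ X)
      (fun e => ∑ f ∈ Q.gb Y, a' e * b' f * GG Q (fun _ => 1) e f)]
    refine Finset.sum_congr rfl fun i _ => ?_
    rw [← e1]
    refine Finset.sum_congr rfl fun j _ => ?_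
    rw [haa, hbb]
  rw [hsum]
  have hmaps : ∀ f ∈ Q.gb Y, O.lab al f ∈ Φ := by
    intro f hf
    exact hΦ _ (Pool.Agent.H32.MQ.lbSt S Q n c B K O al hal f (Q.mem_gb.1 hf).1).2.1
  have hsplit : ∑ e ∈ Q.gb X, ∑ f ∈ Q.gb Y, a' e * b' f * GG Q (fun _ => 1) e f =
      ∑ l ∈ Φ, ∑ e ∈ Q.gb X, ∑ f ∈ (Q.gb Y).filter (fun f => O.lab al f = l),
        a' e * b' f * GG Q (fun _ => 1) e f := by
    rw [Finset.sum_comm (s := Φ)]
    refine Finset.sum_congr rfl fun e _ => ?_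
    exact (Finset.sum_fiberwise_of_maps_to hmaps _).symm
  rw [hsplit]
  refine (Finset.abs_sum_le_sum_abs _ _).trans ?_
  have hone := fun l (_ : l ∈ Φ) => hmain Q c K hc hK O al hal l a' b' ha1 hb1 X Y hX hY
  refine (Finset.sum_le_sum hone).trans ?_
  rw [Finset.sum_const, nsmul_eq_mul]
  have h0 : 0 < min X Y := lt_min (by linarith) (by linarith)
  have h6 : (0 : ℝ) ≤ 4 ^ (S.m + Q.M.card) * (C * (K : ℝ) ^ 3 * (c : ℝ) ^ (n + 3) * (X * Y) *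
      min X Y ^ (-(1 / (24 * n : ℝ)))) := by positivity
  have h7 : (Φ.card : ℝ) ≤ K := by exact_mod_cast hΦc
  refine (mul_le_mul_of_nonneg_right h7 h6).trans (le_of_eq ?_)
  ring

end Pool.Agent.SK
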