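import Pool.Agent.SK.GDefs

/-!
# Malle's conjecture for 8T8 over number fields: the number of exceptional primes
-/

set_option autoImplicit false

open scoped BigOperators Topology
open Filter

namespace Pool.Agent.SK

open Pool.Agent.H98.MF

/-- G4: the number of exceptional primes -/
theorem g4 : SG4 := by
  classical
  intro S b hb ε hε
  have hb0 : 0 < b := lt_of_lt_of_le one_pos hb
  obtain ⟨T, hT⟩ : ∃ T : Finset S.P, T = S.pr (b ^ (1 / ε)) := ⟨_, rfl⟩
  refine ⟨b ^ T.card, by positivity, fun x => ?_⟩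
  have hN : ∀ p : S.P, (1 : ℝ) ≤ S.N p := fun p => by exact_mod_cast S.one_le_N p
  have hp : ∀ p : S.P, b ≤ (if p ∈ T then b else 1) * (S.N p : ℝ) ^ ε := by
    intro p
    by_cases h : p ∈ T
    · rw [if_pos h]
      exact le_mul_of_one_le_right hb0.le (Real.one_le_rpow (hN p) hε.le)
    · rw [if_neg h, one_mul]
      rw [hT, S.mem_pr (Real.rpow_nonneg hb0.le _), not_le] at h
      calc b = (b ^ (1 / ε)) ^ ε := by
            rw [← Real.rpow_mul hb0.le, one_div, inv_mul_cancel₀ hε.ne', Real.rpow_one]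
        _ ≤ (S.N p : ℝ) ^ ε := Real.rpow_le_rpow (Real.rpow_nonneg hb0.le _) h.le hε.le
  have h1 : b ^ x.card ≤ ∏ p ∈ x, ((if p ∈ T then b else 1) * (S.N p : ℝ) ^ ε) := by
    rw [← Finset.prod_const]
    exact Finset.prod_le_prod (fun _ _ => hb0.le) fun p _ => hp p
  have h2 : ∏ p ∈ x, (if p ∈ T then b else 1) ≤ b ^ T.card := by
    rw [← Finset.prod_filter, Finset.prod_const]
    refine pow_le_pow_right₀ hb (Finset.card_le_card fun p h => ?_)
    exact (Finset.mem_filter.1 h).2
  have h3 : ∏ p ∈ x, (S.N p : ℝ) ^ ε = (S.nm x : ℝ) ^ ε := by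
    unfold Pre.nm
    rw [Nat.cast_prod, Real.finsetProd_rpow _ _ fun i _ => Nat.cast_nonneg _]
  rw [Finset.prod_mul_distrib, h3] at h1
  exact h1.trans (mul_le_mul_of_nonneg_right h2 (Real.rpow_nonneg (Nat.cast_nonneg _) _))

end Pool.Agent.SK
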