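import Pool.Agent.SK.GDefs

/-!
# Malle's conjecture for 8T8 over number fields: the uniform bound for the main sum
-/

set_option autoImplicit false

open scoped BigOperators Topology
open Filter

namespace Pool.Agent.SK

open Pool.Agent.H98.MK (sg)
open Pool.Agent.H98.MF
open Pool.Agent.H32.MQ (Qd Od El AlSt RepSt BFaSt BFbSt)

/-- the numerical inequality -/
private theorem g5_num {n A0 m μ : ℕ} {C0 C3 C4 C6 N K c K1 t ε x : ℝ} (hC0 : 0 ≤ C0)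
    (hC3 : 0 < C3) (_ : 0 < C4) (hC6 : 0 < C6) (hN : 1 ≤ N) (hK0 : 0 ≤ K) (hc0 : 0 ≤ c)
    (hK : K ≤ C0 * N ^ A0) (hc : c ≤ C0 * N ^ A0) (hK1 : 1 ≤ K1) (ht0 : 0 < t) (ht1 : t ≤ 1)
    (ht2 : ((A0 * (n + 7) : ℕ) : ℝ) * t ≤ ε / 2) (hμ : (4 : ℝ) ^ μ ≤ C4 * N ^ (ε / 2))
    (hx : 0 < x) :
    C6 * (C3 * K ^ 4 * c ^ (n + 3) * 4 ^ (m + μ)) ^ t * (4 ^ (m + μ) * K1 ^ 2) ^ (1 - t) * x ≤
      C6 * C3 ^ t * (C0 + 1) ^ (n + 7) * (4 ^ m * C4) * K1 ^ 2 * N ^ ε * x := by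
  have hN0 : 0 < N := lt_of_lt_of_le one_pos hN
  obtain ⟨U, hU⟩ : ∃ U, U = (C0 + 1) * N ^ A0 := ⟨_, rfl⟩
  have hNA : 1 ≤ N ^ A0 := one_le_pow₀ hN
  have hU0 : C0 * N ^ A0 ≤ U := by
    rw [hU]
    exact mul_le_mul_of_nonneg_right (by linarith) (by positivity)
  have hUp : 0 ≤ U := le_trans hK0 (hK.trans hU0)
  have hP : K ^ 4 * c ^ (n + 3) ≤ U ^ (n + 7) := by
    have h1 : K ^ 4 ≤ U ^ 4 := pow_le_pow_left₀ hK0 (hK.trans hU0) 4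
    have h2 : c ^ (n + 3) ≤ U ^ (n + 3) := pow_le_pow_left₀ hc0 (hc.trans hU0) _
    calc K ^ 4 * c ^ (n + 3) ≤ U ^ 4 * U ^ (n + 3) :=
          mul_le_mul h1 h2 (pow_nonneg hc0 _) (pow_nonneg hUp _)
      _ = U ^ (n + 7) := by rw [← pow_add]; congr 1; ring
  have hP0 : 0 ≤ K ^ 4 * c ^ (n + 3) := mul_nonneg (pow_nonneg hK0 _) (pow_nonneg hc0 _)
  have hUt : (U ^ (n + 7)) ^ t ≤ (C0 + 1) ^ (n + 7) * N ^ (ε / 2) := by
    have h1 : U ^ (n + 7) = (C0 + 1) ^ (n + 7) * N ^ (A0 * (n + 7)) := by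
      rw [hU, mul_pow, ← pow_mul]
    rw [h1, Real.mul_rpow (by positivity) (by positivity)]
    have h2 : (((C0 + 1) ^ (n + 7) : ℝ)) ^ t ≤ (C0 + 1) ^ (n + 7) := by
      have h3 : (1 : ℝ) ≤ (C0 + 1) ^ (n + 7) := one_le_pow₀ (by linarith)
      calc (((C0 + 1) ^ (n + 7) : ℝ)) ^ t ≤ (((C0 + 1) ^ (n + 7) : ℝ)) ^ (1 : ℝ) :=
            Real.rpow_le_rpow_of_exponent_le h3 ht1
        _ = _ := Real.rpow_one _
    have h4 : (N ^ (A0 * (n + 7))) ^ t ≤ N ^ (ε / 2) := by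
      rw [← Real.rpow_natCast N, ← Real.rpow_mul hN0.le]
      exact Real.rpow_le_rpow_of_exponent_le hN ht2
    exact mul_le_mul h2 h4 (by positivity) (by positivity)
  obtain ⟨M, hM⟩ : ∃ M : ℝ, M = 4 ^ (m + μ) := ⟨_, rfl⟩
  have hM0 : 0 < M := by rw [hM]; positivity
  have hMle : M ≤ 4 ^ m * (C4 * N ^ (ε / 2)) := by
    rw [hM, pow_add]
    exact mul_le_mul_of_nonneg_left hμ (by positivity)
  rw [← hM]
  have h1 : (C3 * K ^ 4 * c ^ (n + 3) * M) ^ t = C3 ^ t * (K ^ 4 * c ^ (n + 3)) ^ t * M ^ t := by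
    rw [mul_assoc C3, Real.mul_rpow (mul_nonneg hC3.le hP0) hM0.le, Real.mul_rpow hC3.le hP0]
  have h2 : M ^ t * (M * K1 ^ 2) ^ (1 - t) ≤ M * K1 ^ 2 := by
    rw [Real.mul_rpow hM0.le (by positivity), ← mul_assoc, ← Real.rpow_add hM0]
    have h3 : t + (1 - t) = 1 := by ring
    rw [h3, Real.rpow_one]
    refine mul_le_mul_of_nonneg_left ?_ hM0.le
    have h4 : 1 ≤ K1 ^ 2 := one_le_pow₀ hK1
    calc (K1 ^ 2) ^ (1 - t) ≤ (K1 ^ 2) ^ (1 : ℝ) :=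
          Real.rpow_le_rpow_of_exponent_le h4 (by linarith)
      _ = K1 ^ 2 := Real.rpow_one _
  have h3 : (K ^ 4 * c ^ (n + 3)) ^ t ≤ (C0 + 1) ^ (n + 7) * N ^ (ε / 2) :=
    (Real.rpow_le_rpow hP0 hP ht0.le).trans hUt
  have h5 : N ^ (ε / 2) * N ^ (ε / 2) = N ^ ε := by
    rw [← Real.rpow_add hN0]
    congr 1
    ring
  rw [h1]
  have h6 : 0 ≤ M ^ t * (M * K1 ^ 2) ^ (1 - t) := by positivity
  calc C6 * (C3 ^ t * (K ^ 4 * c ^ (n + 3)) ^ t * M ^ t) * (M * K1 ^ 2) ^ (1 - t) * x =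
      C6 * C3 ^ t * ((K ^ 4 * c ^ (n + 3)) ^ t * (M ^ t * (M * K1 ^ 2) ^ (1 - t))) * x := by ring
    _ ≤ C6 * C3 ^ t * (((C0 + 1) ^ (n + 7) * N ^ (ε / 2)) *
        ((4 ^ m * (C4 * N ^ (ε / 2))) * K1 ^ 2)) * x := by
        refine mul_le_mul_of_nonneg_right ?_ hx.le
        refine mul_le_mul_of_nonneg_left ?_ (by positivity)
        refine mul_le_mul h3 (h2.trans ?_) h6 (by positivity)
        exact mul_le_mul_of_nonneg_right hMle (by positivity)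
    _ = C6 * C3 ^ t * (C0 + 1) ^ (n + 7) * (4 ^ m * C4) * K1 ^ 2 *
        (N ^ (ε / 2) * N ^ (ε / 2)) * x := by ring
    _ = _ := by rw [h5]

/-- G5: the uniform bound -/
theorem g5 (h1 : SG1) (h2 : SG2) (h3 : SG3) (h4 : SG4) (h6 : SL6) : SG5 := by
  intro S n B hn C0 A0 ε hε
  obtain ⟨C3, hC3, h3'⟩ := h3 S n B hn
  obtain ⟨D, hD⟩ : ∃ D : ℝ, D = ((A0 * (n + 7) : ℕ) : ℝ) := ⟨_, rfl⟩
  have hD0 : 0 ≤ D := by rw [hD]; positivity
  obtain ⟨t, ht0, ht1, ht2⟩ : ∃ t : ℝ, 0 < t ∧ t ≤ 1 / 10 ∧ D * t ≤ ε / 2 := by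
    refine ⟨min (1 / 10) (ε / (2 * (D + 1))), lt_min (by norm_num) (by positivity),
      min_le_left _ _, ?_⟩
    calc D * min (1 / 10) (ε / (2 * (D + 1))) ≤ D * (ε / (2 * (D + 1))) :=
          mul_le_mul_of_nonneg_left (min_le_right _ _) hD0
      _ ≤ ε / 2 := by
          rw [← mul_div_assoc, div_le_div_iff₀ (by positivity) (by norm_num)]
          nlinarith
  rw [hD] at ht2
  have hn' : (0 : ℝ) < n := by exact_mod_cast hn
  have hη : (0 : ℝ) < 1 / (24 * n : ℝ) := by positivity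
  obtain ⟨C6, hC6, h6'⟩ := h6 (1 / (24 * n : ℝ)) t hη ht0 ht1
  obtain ⟨C4, hC4, h4'⟩ := h4 S 4 (by norm_num) (ε / 2) (by positivity)
  refine ⟨C6 * C3 ^ t * ((C0 : ℝ) + 1) ^ (n + 7) * (4 ^ S.m * C4), by positivity, ?_⟩
  intro Q c K hc hK hc' hK' hOd K1 hK1 hLin x hx
  have hK10 : 0 ≤ K1 := by linarith
  have hE := h6' (gdN Q) (gdN Q) (fun e f => GG Q (fun _ => 1) e.1 f.1)
    (C3 * (K : ℝ) ^ 4 * (c : ℝ) ^ (n + 3) * 4 ^ (S.m + Q.M.card)) (4 ^ (S.m + Q.M.card)) K1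
    (by positivity) (by positivity) hK10 hLin hLin
    (fun i j => by
      have h := h2 S Q (fun _ => 1) 1 zero_le_one (fun _ => by simp) i.1 j.1
      rwa [one_mul] at h)
    (h3' Q c K hc hK hOd) (fun _ => 1) (fun _ => 1) (fun _ => by simp) (fun _ => by simp)
    0 x hx
  have hN : (1 : ℝ) ≤ S.nm Q.M := by exact_mod_cast S.one_le_nm Q.M
  have hnum := g5_num (n := n) (A0 := A0) (m := S.m) (μ := Q.M.card) (C0 := C0) (C3 := C3)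
    (C4 := C4) (C6 := C6) (N := S.nm Q.M) (K := K) (c := c) (K1 := K1) (t := t) (ε := ε)
    (x := x) (Nat.cast_nonneg _) hC3 hC4 hC6 hN (Nat.cast_nonneg _) (Nat.cast_nonneg _)
    (by exact_mod_cast hK') (by exact_mod_cast hc') hK1 ht0 (by linarith) ht2 (h4' Q.M) hx
  refine le_trans (le_of_eq ?_) ((le_abs_self _).trans (hE.trans ?_))
  · rw [(h1 S Q (fun _ => 1) 1 K1 (fun _ => 1) (fun _ => by simp) (fun _ => by simp) hK10 hLin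
      x hx).2.2]
    unfold PP
    refine tsum_congr fun z => ?_
    rw [if_pos]
    · rw [Finset.prod_const_one, Finset.prod_const_one]
      rfl
    · rw [pow_zero]
      exact ⟨(gdN Q).one_le _, (gdN Q).one_le _⟩
  · rw [pow_zero, Real.one_rpow, mul_one]
    exact hnum

end Pool.Agent.SK
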