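import Pool.Agent.SK.LDefs

/-!
# SK, row L1: a dyadic block with exponential weight, from the bilinear estimate
-/

set_option autoImplicit false

open scoped BigOperators Topology
open Filter

namespace Pool.Agent.SK

theorem l1_hasSum_exp (y : ℝ) : HasSum (fun r : ℕ => y ^ r / (r.factorial : ℝ)) (Real.exp y) := by
  rw [Real.exp_eq_exp_ℝ]
  exact NormedSpace.expSeries_div_hasSum_exp y

/-- weights cut to a block -/
theorem l1_weight {I : Type} (n : I → ℕ) (a : I → ℝ) (ha : ∀ i, |a i| ≤ 1) (s : Finset I) (X : ℝ)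
    (hX : 0 < X) (hs : ∀ i ∈ s, (n i : ℝ) ≤ X) (dec : ∀ i, Decidable (i ∈ s)) (r : ℕ) (i : I) :
    |if i ∈ s then a i * ((n i : ℝ) / X) ^ r else 0| ≤ 1 := by
  by_cases h : i ∈ s
  · rw [if_pos h, abs_mul]
    have h1 : 0 ≤ (n i : ℝ) / X := div_nonneg (Nat.cast_nonneg _) hX.le
    have h2 : (n i : ℝ) / X ≤ 1 := (div_le_one hX).2 (hs i h)
    have h3 : |((n i : ℝ) / X) ^ r| ≤ 1 := by
      rw [abs_of_nonneg (pow_nonneg h1 r)]
      exact pow_le_one₀ h1 h2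
    exact mul_le_one₀ (ha i) (abs_nonneg _) h3
  · rw [if_neg h, abs_zero]
    exact zero_le_one

theorem l1_blk_le (A : Nm) (p : ℕ) : A.blk p ⊆ A.le (2 ^ (p + 1)) := by
  unfold Nm.blk
  exact Finset.filter_subset _ _

theorem l1 : SL1 := by
  intro A A' G B η hB hη hBil a b ha hb p q x hx
  classical
  have hX0 : (0 : ℝ) < 2 ^ (p + 1) := by positivity
  have hY0 : (0 : ℝ) < 2 ^ (q + 1) := by positivity
  have hX1 : (1 : ℝ) ≤ 2 ^ (p + 1) := one_le_pow₀ (by norm_num)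
  have hY1 : (1 : ℝ) ≤ 2 ^ (q + 1) := one_le_pow₀ (by norm_num)
  have hXs : ∀ i ∈ A.blk p, (A.n i : ℝ) ≤ 2 ^ (p + 1) := fun i hi =>
    (A.mem_le hX0.le).1 (l1_blk_le A p hi)
  have hYs : ∀ j ∈ A'.blk q, (A'.n j : ℝ) ≤ 2 ^ (q + 1) := fun j hj =>
    (A'.mem_le hY0.le).1 (l1_blk_le A' q hj)
  obtain ⟨X, hX⟩ : ∃ X : ℝ, X = 2 ^ (p + 1) := ⟨_, rfl⟩
  obtain ⟨Y, hY⟩ : ∃ Y : ℝ, Y = 2 ^ (q + 1) := ⟨_, rfl⟩
  have hsX : A.blk p ⊆ A.le X := by
    rw [hX]
    exact l1_blk_le A p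
  have hsY : A'.blk q ⊆ A'.le Y := by
    rw [hY]
    exact l1_blk_le A' q
  rw [← hX] at hX0 hX1 hXs
  rw [← hY] at hY0 hY1 hYs
  obtain ⟨D, hD⟩ : ∃ D : ℝ, D = B * (X * Y) * min X Y ^ (-η) := ⟨_, rfl⟩
  obtain ⟨T, hT⟩ : ∃ T : ℕ → ℝ, T = fun r => ∑ i ∈ A.blk p, ∑ j ∈ A'.blk q, a i * b j * G i j *
    ((-((A.n i : ℝ) * (A'.n j : ℝ) / x)) ^ r / (r.factorial : ℝ)) := ⟨_, rfl⟩
  have hTs : HasSum T (∑ i ∈ A.blk p, ∑ j ∈ A'.blk q, a i * b j * G i j *
      Real.exp (-((A.n i : ℝ) * (A'.n j : ℝ) / x))) := by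
    rw [hT]
    exact hasSum_sum fun i _ => hasSum_sum fun j _ => (l1_hasSum_exp _).mul_left _
  have hTb : ∀ r, |T r| ≤ (X * Y / x) ^ r / (r.factorial : ℝ) * D := by
    intro r
    have h1 : T r = (-1) ^ r * ((X * Y / x) ^ r / (r.factorial : ℝ)) *
        ∑ i ∈ A.le X, ∑ j ∈ A'.le Y, (if i ∈ A.blk p then a i * ((A.n i : ℝ) / X) ^ r else 0) *
          (if j ∈ A'.blk q then b j * ((A'.n j : ℝ) / Y) ^ r else 0) * G i j := by
      have h2 : ∑ i ∈ A.le X, ∑ j ∈ A'.le Y,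
          (if i ∈ A.blk p then a i * ((A.n i : ℝ) / X) ^ r else 0) *
          (if j ∈ A'.blk q then b j * ((A'.n j : ℝ) / Y) ^ r else 0) * G i j =
          ∑ i ∈ A.blk p, ∑ j ∈ A'.blk q, (a i * ((A.n i : ℝ) / X) ^ r) *
            (b j * ((A'.n j : ℝ) / Y) ^ r) * G i j := by
        rw [← Finset.sum_subset hsX (fun i _ hi => by
          refine Finset.sum_eq_zero fun j _ => ?_
          rw [if_neg hi, zero_mul, zero_mul])]
        refine Finset.sum_congr rfl fun i hi => ?_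
        rw [← Finset.sum_subset hsY (fun j _ hj => by
          rw [if_neg hj, mul_zero, zero_mul])]
        refine Finset.sum_congr rfl fun j hj => ?_
        rw [if_pos hi, if_pos hj]
      rw [h2, hT, Finset.mul_sum]
      refine Finset.sum_congr rfl fun i _ => ?_
      rw [Finset.mul_sum]
      refine Finset.sum_congr rfl fun j _ => ?_
      have h3 : (-((A.n i : ℝ) * (A'.n j : ℝ) / x)) ^ r =
          (-1) ^ r * (X * Y / x) ^ r * ((A.n i : ℝ) / X) ^ r * ((A'.n j : ℝ) / Y) ^ r := by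
        rw [← mul_pow, ← mul_pow, ← mul_pow]
        congr 1
        field_simp
      rw [h3]
      ring
    have h4 := hBil (fun i => if i ∈ A.blk p then a i * ((A.n i : ℝ) / X) ^ r else 0)
      (fun j => if j ∈ A'.blk q then b j * ((A'.n j : ℝ) / Y) ^ r else 0)
      (fun i => l1_weight A.n a ha (A.blk p) X hX0 hXs (fun i => inferInstance) r i)
      (fun j => l1_weight A'.n b hb (A'.blk q) Y hY0 hYs (fun i => inferInstance) r j)
      X Y hX1 hY1
    have h5 : 0 ≤ (X * Y / x) ^ r / (r.factorial : ℝ) := by positivity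
    rw [h1, abs_mul, abs_mul, abs_pow, abs_neg, abs_one, one_pow, one_mul, abs_of_nonneg h5, hD]
    exact mul_le_mul_of_nonneg_left h4 h5
  have hDs : HasSum (fun r : ℕ => (X * Y / x) ^ r / (r.factorial : ℝ) * D)
      (Real.exp (X * Y / x) * D) := (l1_hasSum_exp _).mul_right _
  have h6 : |∑ i ∈ A.blk p, ∑ j ∈ A'.blk q, a i * b j * G i j *
      Real.exp (-((A.n i : ℝ) * (A'.n j : ℝ) / x))| ≤ Real.exp (X * Y / x) * D := by
    rw [← hTs.tsum_eq, ← hDs.tsum_eq]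
    have h7 : Summable fun r => |T r| :=
      Summable.of_nonneg_of_le (fun r => abs_nonneg _) hTb hDs.summable
    have h8 : |∑' r, T r| ≤ ∑' r, |T r| := by
      have h9 := norm_tsum_le_tsum_norm (f := T) h7
      exact h9
    exact h8.trans (h7.tsum_le_tsum hTb hDs.summable)
  refine h6.trans ?_
  have h10 : X * Y = 4 * 2 ^ (p + q) := by
    rw [hX, hY, pow_succ, pow_succ, pow_add]
    ring
  have h11 : (2 : ℝ) ^ min p q ≤ min X Y := by
    refine le_min ?_ ?_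
    · rw [hX]
      exact pow_le_pow_right₀ (by norm_num) (by omega)
    · rw [hY]
      exact pow_le_pow_right₀ (by norm_num) (by omega)
  have h12 : min X Y ^ (-η) ≤ ((2 : ℝ) ^ min p q) ^ (-η) :=
    Real.rpow_le_rpow_of_nonpos (by positivity) h11 (by linarith)
  rw [hD, h10]
  have h13 : B * (4 * 2 ^ (p + q)) * min X Y ^ (-η) ≤
      B * (4 * 2 ^ (p + q)) * ((2 : ℝ) ^ min p q) ^ (-η) :=
    mul_le_mul_of_nonneg_left h12 (by positivity)
  calc Real.exp (4 * 2 ^ (p + q) / x) * (B * (4 * 2 ^ (p + q)) * min X Y ^ (-η)) ≤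
        Real.exp (4 * 2 ^ (p + q) / x) * (B * (4 * 2 ^ (p + q)) *
          ((2 : ℝ) ^ min p q) ^ (-η)) := mul_le_mul_of_nonneg_left h13 (Real.exp_pos _).le
    _ = 4 * B * 2 ^ (p + q) * ((2 : ℝ) ^ min p q) ^ (-η) * Real.exp (4 * 2 ^ (p + q) / x) := by
        ring

end Pool.Agent.SK
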