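import Pool.Agent.SK.LDefs

/-!
# Malle's conjecture for 8T8 over number fields: a dyadic block, trivially (L2)
-/

open scoped BigOperators Topology

namespace Pool.Agent.SK

theorem l2_card (B : Nm) (K : ℝ) (hB : B.Lin K) (r : ℕ) :
    ((B.blk r).card : ℝ) ≤ K * 2 ^ (r + 1) := by
  have h1 : (B.blk r).card ≤ (B.le (2 ^ (r + 1))).card := Finset.card_filter_le _ _
  have h2 := hB (2 ^ (r + 1)) (one_le_pow₀ (by norm_num))
  have h3 : ((B.blk r).card : ℝ) ≤ ((B.le (2 ^ (r + 1))).card : ℝ) := by exact_mod_cast h1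
  exact h3.trans h2

theorem l2 : SL2 := by
  intro A A' G M K hM hK hA hA' hG a b ha hb p q x hx
  have he : 0 < Real.exp (-(2 ^ (p + q) / x)) := Real.exp_pos _
  have hterm : ∀ i ∈ A.blk p, ∀ j ∈ A'.blk q, |a i * b j * G i j *
      Real.exp (-((A.n i : ℝ) * (A'.n j : ℝ) / x))| ≤ M * Real.exp (-(2 ^ (p + q) / x)) := by
    intro i hi j hj
    have hi1 := (A.mem_blk.1 hi).1
    have hj1 := (A'.mem_blk.1 hj).1
    have hi2 : (2 : ℝ) ^ p ≤ (A.n i : ℝ) := by exact_mod_cast hi1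
    have hj2 : (2 : ℝ) ^ q ≤ (A'.n j : ℝ) := by exact_mod_cast hj1
    have hmul : (2 : ℝ) ^ (p + q) ≤ (A.n i : ℝ) * (A'.n j : ℝ) := by
      rw [pow_add]
      exact mul_le_mul hi2 hj2 (by positivity) (by positivity)
    have hexp : Real.exp (-((A.n i : ℝ) * (A'.n j : ℝ) / x)) ≤
        Real.exp (-(2 ^ (p + q) / x)) := by
      apply Real.exp_le_exp.2
      apply neg_le_neg
      exact div_le_div_of_nonneg_right hmul hx.le
    rw [abs_mul, abs_mul, abs_mul, abs_of_pos (Real.exp_pos _)]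
    have h1 : |a i| * |b j| ≤ 1 := by
      have := mul_le_mul (ha i) (hb j) (abs_nonneg _) zero_le_one
      rwa [mul_one] at this
    have h2 : |a i| * |b j| * |G i j| ≤ M := by
      have := mul_le_mul h1 (hG i j) (abs_nonneg _) zero_le_one
      rwa [one_mul] at this
    exact mul_le_mul h2 hexp (Real.exp_pos _).le hM
  have hp := l2_card A K hA p
  have hq := l2_card A' K hA' q
  have hMe : 0 ≤ M * Real.exp (-(2 ^ (p + q) / x)) := mul_nonneg hM he.le
  calc ∑ i ∈ A.blk p, ∑ j ∈ A'.blk q, |a i * b j * G i j *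
        Real.exp (-((A.n i : ℝ) * (A'.n j : ℝ) / x))|
      ≤ ∑ i ∈ A.blk p, ∑ j ∈ A'.blk q, M * Real.exp (-(2 ^ (p + q) / x)) :=
        Finset.sum_le_sum fun i hi => Finset.sum_le_sum fun j hj => hterm i hi j hj
    _ = ((A.blk p).card : ℝ) * (((A'.blk q).card : ℝ) *
          (M * Real.exp (-(2 ^ (p + q) / x)))) := by
        rw [Finset.sum_const, Finset.sum_const, nsmul_eq_mul, nsmul_eq_mul]
    _ ≤ (K * 2 ^ (p + 1)) * ((K * 2 ^ (q + 1)) * (M * Real.exp (-(2 ^ (p + q) / x)))) := by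
        apply mul_le_mul hp _ (by positivity) (by positivity)
        exact mul_le_mul_of_nonneg_right hq hMe
    _ = 4 * (M * K ^ 2) * 2 ^ (p + q) * Real.exp (-(2 ^ (p + q) / x)) := by
        rw [pow_add, pow_add, pow_add]
        ring

end Pool.Agent.SK
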