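import Pool.Agent.SK.LDefs

/-!
# Malle's conjecture for 8T8 over number fields, row L6: sums with exponential weights, both
variables large
-/

set_option autoImplicit false

open scoped BigOperators Topology
open Filter

namespace Pool.Agent.SK

/-- interpolation between two bounds -/
theorem l6_itp {D u v t : ℝ} (hD : 0 ≤ D) (hu : D ≤ u) (hv : D ≤ v) (ht0 : 0 < t)
    (ht1 : t < 1) : D ≤ u ^ t * v ^ (1 - t) := by
  rcases hD.eq_or_lt with h | h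
  · rw [← h]
    exact mul_nonneg (Real.rpow_nonneg (hD.trans hu) _) (Real.rpow_nonneg (hD.trans hv) _)
  · have h1 : D ^ t * D ^ (1 - t) = D := by
      rw [← Real.rpow_add h, add_sub_cancel, Real.rpow_one]
    calc D = D ^ t * D ^ (1 - t) := h1.symm
      _ ≤ u ^ t * v ^ (1 - t) :=
        mul_le_mul (Real.rpow_le_rpow hD hu ht0.le) (Real.rpow_le_rpow hD hv (by linarith))
          (Real.rpow_nonneg hD _) (Real.rpow_nonneg (hD.trans hu) _)

theorem l6_pow (s : ℝ) (k : ℕ) : ((2 : ℝ) ^ k) ^ (-s) = ((2 : ℝ) ^ (-s)) ^ k := by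
  rw [← Real.rpow_natCast 2 k, ← Real.rpow_mul (by norm_num), mul_comm,
    Real.rpow_mul (by norm_num), Real.rpow_natCast]

/-- the product of the powers of the two bounds -/
theorem l6_uv {B N P m e1 e2 η t : ℝ} (hB : 0 ≤ B) (hN : 0 ≤ N) (hP : 0 < P) (hm : 0 < m) :
    (4 * B * P * m ^ (-η) * Real.exp e1) ^ t * (4 * N * P * Real.exp e2) ^ (1 - t) =
      4 * (B ^ t * N ^ (1 - t)) * (m ^ (-(η * t)) * (P * Real.exp (e1 * t + e2 * (1 - t)))) := by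
  have h4 : (0 : ℝ) < 4 := by norm_num
  have e4 : (4 : ℝ) ^ t * 4 ^ (1 - t) = 4 := by
    rw [← Real.rpow_add h4, add_sub_cancel, Real.rpow_one]
  have eP : P ^ t * P ^ (1 - t) = P := by
    rw [← Real.rpow_add hP, add_sub_cancel, Real.rpow_one]
  have em : (m ^ (-η)) ^ t = m ^ (-(η * t)) := by
    rw [← Real.rpow_mul hm.le, neg_mul]
  have ee : Real.exp e1 ^ t * Real.exp e2 ^ (1 - t) = Real.exp (e1 * t + e2 * (1 - t)) := by
    rw [Real.exp_add, Real.exp_mul, Real.exp_mul]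
  rw [Real.mul_rpow (by positivity) (Real.exp_pos _).le,
    Real.mul_rpow (by positivity) (Real.rpow_nonneg hm.le _),
    Real.mul_rpow (by positivity) hP.le, Real.mul_rpow h4.le hB,
    Real.mul_rpow (by positivity) (Real.exp_pos _).le, Real.mul_rpow (by positivity) hP.le,
    Real.mul_rpow h4.le hN, em]
  calc 4 ^ t * B ^ t * P ^ t * m ^ (-(η * t)) * Real.exp e1 ^ t *
        (4 ^ (1 - t) * N ^ (1 - t) * P ^ (1 - t) * Real.exp e2 ^ (1 - t)) =
      (4 ^ t * 4 ^ (1 - t)) * (B ^ t * N ^ (1 - t)) * (m ^ (-(η * t)) *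
        ((P ^ t * P ^ (1 - t)) * (Real.exp e1 ^ t * Real.exp e2 ^ (1 - t)))) := by ring
    _ = _ := by rw [e4, eP, ee]

/-- the bound of a block -/
theorem l6_blk {D B N P x η t r : ℝ} (p q : ℕ) (hB : 0 ≤ B) (hN : 0 ≤ N) (hP : 0 < P)
    (hx : 0 < x) (ht0 : 0 < t) (ht1 : t ≤ 1 / 10) (hr : r = (2 : ℝ) ^ (-(η * t)))
    (hD : 0 ≤ D)
    (hu : D ≤ 4 * B * P * ((2 : ℝ) ^ min p q) ^ (-η) * Real.exp (4 * P / x))
    (hv : D ≤ 4 * N * P * Real.exp (-(P / x))) :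
    D ≤ 4 * (B ^ t * N ^ (1 - t)) *
      (r ^ p * (P * Real.exp (-(1 / 2 * P / x))) + r ^ q * (P * Real.exp (-(1 / 2 * P / x)))) := by
  have h1 := l6_itp hD hu hv ht0 (by linarith)
  rw [l6_uv hB hN hP (by positivity), l6_pow, ← hr] at h1
  refine h1.trans (mul_le_mul_of_nonneg_left ?_
    (mul_nonneg (by norm_num) (mul_nonneg (Real.rpow_nonneg hB _) (Real.rpow_nonneg hN _))))
  have hr0 : 0 ≤ r := by
    rw [hr]
    positivity
  have h2 : r ^ min p q ≤ r ^ p + r ^ q := by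
    rcases min_choice p q with h | h
    · rw [h]
      exact le_add_of_nonneg_right (pow_nonneg hr0 _)
    · rw [h]
      exact le_add_of_nonneg_left (pow_nonneg hr0 _)
  have h3 : Real.exp (4 * P / x * t + -(P / x) * (1 - t)) ≤
      Real.exp (-(1 / 2 * P / x)) := by
    apply Real.exp_le_exp.2
    have h4 : 0 < P / x := div_pos hP hx
    have h5 : 4 * P / x * t + -(P / x) * (1 - t) = (5 * t - 1) * (P / x) := by ring
    have h6 : -(1 / 2 * P / x) = (-(1 / 2)) * (P / x) := by ring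
    rw [h5, h6]
    exact mul_le_mul_of_nonneg_right (by linarith) h4.le
  rw [← add_mul]
  exact mul_le_mul h2 (mul_le_mul_of_nonneg_left h3 hP.le)
    (mul_nonneg hP.le (Real.exp_pos _).le) (add_nonneg (pow_nonneg hr0 _) (pow_nonneg hr0 _))

/-- the sum over the pairs of blocks -/
theorem l6_sum {C r x : ℝ} (E : ℕ) (hC : 0 < C) (hr0 : 0 ≤ r) (hr1 : r < 1) (hx : 0 < x)
    (h : ∀ x : ℝ, 0 < x →
      (Summable fun p : ℕ => (2 : ℝ) ^ p * Real.exp (-(1 / 2 * 2 ^ p / x))) ∧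
        ∑' p : ℕ, (2 : ℝ) ^ p * Real.exp (-(1 / 2 * 2 ^ p / x)) ≤ C * x) :
    (Summable fun z : ℕ × ℕ => if E ≤ z.1 then
      r ^ z.1 * ((2 : ℝ) ^ (z.1 + z.2) * Real.exp (-(1 / 2 * 2 ^ (z.1 + z.2) / x))) else 0) ∧
    ∑' z : ℕ × ℕ, (if E ≤ z.1 then
      r ^ z.1 * ((2 : ℝ) ^ (z.1 + z.2) * Real.exp (-(1 / 2 * 2 ^ (z.1 + z.2) / x))) else 0) ≤
      C * x * (r ^ E / (1 - r)) := by
  have hin : ∀ p : ℕ,
      (Summable fun q : ℕ => (2 : ℝ) ^ (p + q) * Real.exp (-(1 / 2 * 2 ^ (p + q) / x))) ∧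
      ∑' q : ℕ, (2 : ℝ) ^ (p + q) * Real.exp (-(1 / 2 * 2 ^ (p + q) / x)) ≤ C * x := by
    intro p
    have hp : (0 : ℝ) < 2 ^ p := by positivity
    have h1 := h (x / 2 ^ p) (div_pos hx hp)
    have h2 : ∀ q : ℕ, (2 : ℝ) ^ (p + q) * Real.exp (-(1 / 2 * 2 ^ (p + q) / x)) =
        2 ^ p * (2 ^ q * Real.exp (-(1 / 2 * 2 ^ q / (x / 2 ^ p)))) := by
      intro q
      have h3 : 1 / 2 * (2 : ℝ) ^ (p + q) / x = 1 / 2 * 2 ^ q / (x / 2 ^ p) := by
        rw [pow_add]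
        field_simp
      rw [h3, pow_add]
      ring
    constructor
    · refine (h1.1.mul_left (2 ^ p)).congr fun q => (h2 q).symm
    · rw [tsum_congr h2, tsum_mul_left]
      calc (2 : ℝ) ^ p * ∑' q : ℕ, 2 ^ q * Real.exp (-(1 / 2 * 2 ^ q / (x / 2 ^ p))) ≤
          2 ^ p * (C * (x / 2 ^ p)) := mul_le_mul_of_nonneg_left h1.2 hp.le
        _ = C * x := by
          field_simp
  have hpos : ∀ z : ℕ × ℕ, 0 ≤ (if E ≤ z.1 then
      r ^ z.1 * ((2 : ℝ) ^ (z.1 + z.2) * Real.exp (-(1 / 2 * 2 ^ (z.1 + z.2) / x))) else 0) := by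
    intro z
    split_ifs
    · exact mul_nonneg (pow_nonneg hr0 _) (by positivity)
    · exact le_rfl
  have hfib : ∀ p : ℕ, (Summable fun q : ℕ => if E ≤ p then
      r ^ p * ((2 : ℝ) ^ (p + q) * Real.exp (-(1 / 2 * 2 ^ (p + q) / x))) else 0) := by
    intro p
    by_cases hE : E ≤ p
    · simp only [if_pos hE]
      exact (hin p).1.mul_left _
    · simp only [if_neg hE]
      exact summable_zero
  have hle : ∀ p : ℕ, ∑' q : ℕ, (if E ≤ p then
      r ^ p * ((2 : ℝ) ^ (p + q) * Real.exp (-(1 / 2 * 2 ^ (p + q) / x))) else 0) ≤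
      C * x * (if E ≤ p then r ^ p else 0) := by
    intro p
    by_cases hE : E ≤ p
    · simp only [if_pos hE]
      rw [tsum_mul_left, mul_comm (C * x)]
      exact mul_le_mul_of_nonneg_left (hin p).2 (pow_nonneg hr0 _)
    · simp only [if_neg hE]
      rw [tsum_zero, mul_zero]
  have hge : ∀ p : ℕ, 0 ≤ ∑' q : ℕ, (if E ≤ p then
      r ^ p * ((2 : ℝ) ^ (p + q) * Real.exp (-(1 / 2 * 2 ^ (p + q) / x))) else 0) :=
    fun p => tsum_nonneg fun q => hpos (p, q)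
  have hg : Summable fun p : ℕ => (if E ≤ p then r ^ p else 0 : ℝ) := by
    refine Summable.of_nonneg_of_le (fun p => ?_) (fun p => ?_)
      (summable_geometric_of_lt_one hr0 hr1)
    · split_ifs
      · exact pow_nonneg hr0 _
      · exact le_rfl
    · split_ifs
      · exact le_rfl
      · exact pow_nonneg hr0 _
  have hgs : ∑' p : ℕ, (if E ≤ p then r ^ p else 0 : ℝ) = r ^ E / (1 - r) := by
    rw [← hg.sum_add_tsum_nat_add E, Finset.sum_eq_zero, zero_add]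
    · have h3 : ∀ i : ℕ, (if E ≤ i + E then r ^ (i + E) else 0 : ℝ) = r ^ E * r ^ i := by
        intro i
        rw [if_pos (Nat.le_add_left _ _), pow_add, mul_comm]
      rw [tsum_congr h3, tsum_mul_left, tsum_geometric_of_lt_one hr0 hr1, div_eq_mul_inv]
    · intro i hi
      rw [if_neg]
      have := Finset.mem_range.1 hi
      omega
  have hout : Summable fun p : ℕ => ∑' q : ℕ, (if E ≤ p then
      r ^ p * ((2 : ℝ) ^ (p + q) * Real.exp (-(1 / 2 * 2 ^ (p + q) / x))) else 0) :=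
    Summable.of_nonneg_of_le hge hle (hg.mul_left _)
  have hs := (summable_prod_of_nonneg hpos).2 ⟨hfib, hout⟩
  refine ⟨hs, ?_⟩
  rw [hs.tsum_prod, ← hgs, ← tsum_mul_left]
  exact hout.tsum_le_tsum hle (hg.mul_left _)

theorem l6_log {n : ℕ} (hn : 1 ≤ n) (p : ℕ) :
    Nat.log 2 n = p ↔ 2 ^ p ≤ n ∧ n < 2 ^ (p + 1) :=
  Nat.log_eq_iff (Or.inr ⟨Nat.one_lt_two, Nat.one_le_iff_ne_zero.1 hn⟩)

open Classical in
/-- the sum over a block -/
theorem l6_fib (A A' : Nm) (f : A.I → A'.I → ℝ) (E p q : ℕ) :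
    ∑' z : (fun z : A.I × A'.I => (Nat.log 2 (A.n z.1), Nat.log 2 (A'.n z.2))) ⁻¹' {(p, q)},
      (if 2 ^ E ≤ A.n z.1.1 ∧ 2 ^ E ≤ A'.n z.1.2 then f z.1.1 z.1.2 else 0) =
    if E ≤ p ∧ E ≤ q then ∑ i ∈ A.blk p, ∑ j ∈ A'.blk q, f i j else 0 := by
  have h1 : (fun z : A.I × A'.I => (Nat.log 2 (A.n z.1), Nat.log 2 (A'.n z.2))) ⁻¹' {(p, q)} =
      ((A.blk p ×ˢ A'.blk q : Finset (A.I × A'.I)) : Set (A.I × A'.I)) := by
    ext z
    rw [Set.mem_preimage, Set.mem_singleton_iff, Prod.mk.injEq, l6_log (A.one_le _),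
      l6_log (A'.one_le _), Finset.mem_coe, Finset.mem_product, A.mem_blk, A'.mem_blk]
  rw [h1, Finset.tsum_subtype' (A.blk p ×ˢ A'.blk q) fun z : A.I × A'.I =>
    if 2 ^ E ≤ A.n z.1 ∧ 2 ^ E ≤ A'.n z.2 then f z.1 z.2 else 0]
  have h2 : ∀ n s : ℕ, 2 ^ s ≤ n → n < 2 ^ (s + 1) → (2 ^ E ≤ n ↔ E ≤ s) := by
    intro n s h3 h4
    constructor
    · intro h5
      have h6 := (Nat.pow_lt_pow_iff_right Nat.one_lt_two).1 (lt_of_le_of_lt h5 h4)
      omega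
    · intro h5
      exact (Nat.pow_le_pow_right (by norm_num) h5).trans h3
  have h3 : ∀ z ∈ A.blk p ×ˢ A'.blk q,
      (2 ^ E ≤ A.n z.1 ∧ 2 ^ E ≤ A'.n z.2 ↔ E ≤ p ∧ E ≤ q) := by
    intro z hz
    rw [Finset.mem_product, A.mem_blk, A'.mem_blk] at hz
    rw [h2 _ _ hz.1.1 hz.1.2, h2 _ _ hz.2.1 hz.2.2]
  by_cases hE : E ≤ p ∧ E ≤ q
  · rw [if_pos hE, ← Finset.sum_product']
    exact Finset.sum_congr rfl fun z hz => if_pos ((h3 z hz).2 hE)
  · rw [if_neg hE]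
    exact Finset.sum_eq_zero fun z hz => if_neg fun h4 => hE ((h3 z hz).1 h4)

theorem l6 (h1 : SL1) (h2 : SL2) (h3 : SL3) (h5 : SL5) : SL6 := by
  classical
  intro η t hη ht0 ht1
  obtain ⟨C, hC, hCs⟩ := h3 (1 / 2) (by norm_num)
  obtain ⟨r, hr⟩ : ∃ r : ℝ, r = (2 : ℝ) ^ (-(η * t)) := ⟨_, rfl⟩
  have hr0 : 0 < r := by
    rw [hr]
    positivity
  have hr1 : r < 1 := by
    rw [hr]
    exact Real.rpow_lt_one_of_one_lt_of_neg (by norm_num) (by nlinarith)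
  refine ⟨8 * C / (1 - r), div_pos (by positivity) (by linarith), ?_⟩
  intro A A' G B M K hB hM hK hA hA' hG hBil a b ha hb E x hx
  have hN : 0 ≤ M * K ^ 2 := by positivity
  have hab : ∀ i j, |a i * b j * G i j| ≤ M := by
    intro i j
    rw [abs_mul, abs_mul]
    calc |a i| * |b j| * |G i j| ≤ 1 * 1 * M :=
          mul_le_mul (mul_le_mul (ha i) (hb j) (abs_nonneg _) zero_le_one) (hG i j)
            (abs_nonneg _) (by norm_num)
      _ = M := by ring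
  have hsF : Summable fun z : A.I × A'.I => (if 2 ^ E ≤ A.n z.1 ∧ 2 ^ E ≤ A'.n z.2 then
      a z.1 * b z.2 * G z.1 z.2 *
        Real.exp (-((A.n z.1 : ℝ) * (A'.n z.2 : ℝ) / x)) else 0) := by
    refine Summable.of_norm_bounded ((h5 A A' K hK hA hA' x hx).mul_left M) fun z => ?_
    rw [Real.norm_eq_abs]
    split_ifs
    · rw [abs_mul, abs_of_pos (Real.exp_pos _)]
      exact mul_le_mul_of_nonneg_right (hab _ _) (Real.exp_pos _).le
    · rw [abs_zero]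
      exact mul_nonneg hM (Real.exp_pos _).le
  have hsum := l6_sum E hC hr0.le hr1 hx hCs
  obtain ⟨H, hH⟩ : ∃ H : ℕ × ℕ → ℝ, H = fun z : ℕ × ℕ => if E ≤ z.1 then
      r ^ z.1 * ((2 : ℝ) ^ (z.1 + z.2) * Real.exp (-(1 / 2 * 2 ^ (z.1 + z.2) / x))) else 0 :=
    ⟨_, rfl⟩
  have hH1 : Summable H := by
    rw [hH]
    exact hsum.1
  have hH2 : ∑' z, H z ≤ C * x * (r ^ E / (1 - r)) := by
    rw [hH]
    exact hsum.2
  have hH3 : Summable fun z : ℕ × ℕ => H z.swap := hH1.prod_symm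
  have hH4 : ∑' z : ℕ × ℕ, H z.swap = ∑' z, H z := (Equiv.prodComm ℕ ℕ).tsum_eq H
  obtain ⟨c0, hc0⟩ : ∃ c0 : ℝ, c0 = 4 * (B ^ t * (M * K ^ 2) ^ (1 - t)) := ⟨_, rfl⟩
  have hc : 0 ≤ c0 := by
    rw [hc0]
    exact mul_nonneg (by norm_num) (mul_nonneg (Real.rpow_nonneg hB _)
      (Real.rpow_nonneg hN _))
  have hH0 : ∀ z, 0 ≤ H z := by
    intro z
    rw [hH]
    show 0 ≤ (if E ≤ z.1 then _ else (0 : ℝ))
    split_ifs
    · exact mul_nonneg (pow_nonneg hr0.le _) (by positivity)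
    · exact le_rfl
  have hbl : ∀ p q : ℕ, |∑ i ∈ A.blk p, ∑ j ∈ A'.blk q, a i * b j * G i j *
      Real.exp (-((A.n i : ℝ) * (A'.n j : ℝ) / x))| ≤
      c0 * (r ^ p * ((2 : ℝ) ^ (p + q) * Real.exp (-(1 / 2 * 2 ^ (p + q) / x))) +
        r ^ q * ((2 : ℝ) ^ (p + q) * Real.exp (-(1 / 2 * 2 ^ (p + q) / x)))) := by
    intro p q
    rw [hc0]
    refine l6_blk p q hB hN (by positivity) hx ht0 ht1 hr (abs_nonneg _)
      (h1 A A' G B η hB hη.le hBil a b ha hb p q x hx) ?_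
    refine le_trans ?_ (h2 A A' G M K hM hK hA hA' hG a b ha hb p q x hx)
    refine (Finset.abs_sum_le_sum_abs _ _).trans (Finset.sum_le_sum fun i _ => ?_)
    exact Finset.abs_sum_le_sum_abs _ _
  have hfib := hsF.hasSum.tsum_fiberwise
    (fun z : A.I × A'.I => (Nat.log 2 (A.n z.1), Nat.log 2 (A'.n z.2)))
  have hbd : ∀ c : ℕ × ℕ, |∑' z : (fun z : A.I × A'.I =>
      (Nat.log 2 (A.n z.1), Nat.log 2 (A'.n z.2))) ⁻¹' {c},
      (if 2 ^ E ≤ A.n z.1.1 ∧ 2 ^ E ≤ A'.n z.1.2 then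
        a z.1.1 * b z.1.2 * G z.1.1 z.1.2 *
          Real.exp (-((A.n z.1.1 : ℝ) * (A'.n z.1.2 : ℝ) / x)) else 0)| ≤
      c0 * (H c + H c.swap) := by
    rintro ⟨p, q⟩
    have h6 := l6_fib A A' (fun i j => a i * b j * G i j *
      Real.exp (-((A.n i : ℝ) * (A'.n j : ℝ) / x))) E p q
    have h7 : 0 ≤ c0 * (H (p, q) + H (p, q).swap) :=
      mul_nonneg hc (add_nonneg (hH0 _) (hH0 _))
    by_cases hE : E ≤ p ∧ E ≤ q
    · rw [if_pos hE] at h6
      refine (le_of_eq (congrArg abs h6)).trans ((hbl p q).trans (le_of_eq ?_))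
      rw [hH]
      show _ = c0 * ((if E ≤ p then
        r ^ p * ((2 : ℝ) ^ (p + q) * Real.exp (-(1 / 2 * 2 ^ (p + q) / x))) else 0) +
        (if E ≤ q then
        r ^ q * ((2 : ℝ) ^ (q + p) * Real.exp (-(1 / 2 * 2 ^ (q + p) / x))) else 0))
      rw [if_pos hE.1, if_pos hE.2, add_comm q p]
    · rw [if_neg hE] at h6
      refine (le_of_eq (congrArg abs h6)).trans ?_
      rw [abs_zero]
      exact h7
  have hbs : Summable fun c : ℕ × ℕ => c0 * (H c + H c.swap) := (hH1.add hH3).mul_left c0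
  rw [← hfib.tsum_eq]
  have h8 := tsum_of_norm_bounded (f := fun c : ℕ × ℕ => ∑' z : (fun z : A.I × A'.I =>
      (Nat.log 2 (A.n z.1), Nat.log 2 (A'.n z.2))) ⁻¹' {c},
      (if 2 ^ E ≤ A.n z.1.1 ∧ 2 ^ E ≤ A'.n z.1.2 then
        a z.1.1 * b z.1.2 * G z.1.1 z.1.2 *
          Real.exp (-((A.n z.1.1 : ℝ) * (A'.n z.1.2 : ℝ) / x)) else 0)) hbs.hasSum
    (fun c => (Real.norm_eq_abs _).le.trans (hbd c))
  rw [Real.norm_eq_abs] at h8
  refine h8.trans ?_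
  rw [tsum_mul_left, hH1.tsum_add hH3, hH4, l6_pow, ← hr, hc0]
  have h9 : 8 * C / (1 - r) * B ^ t * (M * K ^ 2) ^ (1 - t) * x * r ^ E =
      4 * (B ^ t * (M * K ^ 2) ^ (1 - t)) *
        (C * x * (r ^ E / (1 - r)) + C * x * (r ^ E / (1 - r))) := by
    ring
  rw [h9, ← hc0]
  exact mul_le_mul_of_nonneg_left (add_le_add hH2 hH2) hc

end Pool.Agent.SK
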