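import Pool.Agent.SK.LDefs

/-!
# Malle's conjecture for 8T8 over number fields: row L7, from a counting function to exponential
weights
-/

set_option autoImplicit false

open scoped BigOperators Topology
open Filter

namespace Pool.Agent.SK

section

variable (A : Nm)

/-- the summatory function at the naturals -/
noncomputable def l7_s (b : A.I → ℝ) (n : ℕ) : ℝ := ∑ i ∈ A.le n, b i

theorem l7_mem (n : ℕ) (i : A.I) : i ∈ A.le (n : ℝ) ↔ A.n i ≤ n := by
  rw [A.mem_le (Nat.cast_nonneg _)]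
  exact Nat.cast_le

theorem l7_le_zero : A.le ((0 : ℕ) : ℝ) = ∅ := by
  rw [Finset.eq_empty_iff_forall_notMem]
  intro i hi
  rw [l7_mem] at hi
  have := A.one_le i
  omega

/-- one more level -/
theorem l7_succ (f : A.I → ℝ) (N : ℕ) : ∑ i ∈ A.le ((N + 1 : ℕ) : ℝ), f i =
    ∑ i ∈ A.le (N : ℝ), f i +
      ∑ i ∈ (A.le ((N + 1 : ℕ) : ℝ)).filter (fun i => ¬ A.n i ≤ N), f i := by
  rw [← Finset.sum_filter_add_sum_filter_not (A.le ((N + 1 : ℕ) : ℝ)) (fun i => A.n i ≤ N)]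
  congr 1
  refine Finset.sum_congr ?_ fun _ _ => rfl
  ext i
  rw [Finset.mem_filter, l7_mem, l7_mem]
  omega

/-- Abel summation -/
theorem l7_abel (b : A.I → ℝ) (q : ℝ) (N : ℕ) :
    ∑ i ∈ A.le (N : ℝ), b i * q ^ A.n i =
      (1 - q) * ∑ n ∈ Finset.range (N + 1), l7_s A b n * q ^ n + l7_s A b N * q ^ (N + 1) := by
  induction N with
  | zero =>
    have h0 : l7_s A b 0 = 0 := by
      unfold l7_s
      rw [l7_le_zero, Finset.sum_empty]
    rw [l7_le_zero, Finset.sum_empty, zero_add, Finset.sum_range_one, h0]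
    ring
  | succ N ih =>
    have h1 : ∑ i ∈ (A.le ((N + 1 : ℕ) : ℝ)).filter (fun i => ¬ A.n i ≤ N), b i * q ^ A.n i =
        (∑ i ∈ (A.le ((N + 1 : ℕ) : ℝ)).filter (fun i => ¬ A.n i ≤ N), b i) * q ^ (N + 1) := by
      rw [Finset.sum_mul]
      refine Finset.sum_congr rfl fun i hi => ?_
      rw [Finset.mem_filter, l7_mem] at hi
      have h2 : A.n i = N + 1 := by omega
      rw [h2]
    have h3 : l7_s A b (N + 1) = l7_s A b N +
        ∑ i ∈ (A.le ((N + 1 : ℕ) : ℝ)).filter (fun i => ¬ A.n i ≤ N), b i := l7_succ A b N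
    rw [l7_succ, ih, h1, Finset.sum_range_succ _ (N + 1), h3]
    ring

theorem l7_tendsto (f : A.I → ℝ) (hf : Summable f) :
    Tendsto (fun N : ℕ => ∑ i ∈ A.le (N : ℝ), f i) atTop (𝓝 (∑' i, f i)) := by
  have h1 : Tendsto (fun N : ℕ => A.le (N : ℝ)) atTop atTop := by
    refine tendsto_atTop_finset_of_monotone ?_ ?_
    · intro a b hab i hi
      rw [l7_mem] at hi ⊢
      exact hi.trans hab
    · intro i
      exact ⟨A.n i, (l7_mem A _ i).2 le_rfl⟩
  exact hf.hasSum.comp h1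

/-- the bound for the series -/
theorem l7_bound (b : A.I → ℝ) (L D δ q : ℝ) (hD : 0 ≤ D) (hq0 : 0 < q)
    (hq1 : q < 1) (he : ∀ n : ℕ, |l7_s A b n - L * n| ≤ D + δ * n)
    (hs : Summable fun i => b i * q ^ A.n i) :
    |∑' i, b i * q ^ A.n i - L * (q / (1 - q))| ≤ D + δ * (q / (1 - q)) := by
  have h1q : 0 < 1 - q := by linarith
  have hg : HasSum (fun n : ℕ => (n : ℝ) * q ^ n) (q / (1 - q) ^ 2) :=
    hasSum_coe_mul_geometric_of_norm_lt_one (by
      rw [Real.norm_eq_abs, abs_of_pos hq0]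
      exact hq1)
  have hg1 : Tendsto (fun N : ℕ => ∑ n ∈ Finset.range (N + 1), (n : ℝ) * q ^ n) atTop
      (𝓝 (q / (1 - q) ^ 2)) := hg.tendsto_sum_nat.comp (tendsto_add_atTop_nat 1)
  have hg2 : Tendsto (fun N : ℕ => (N : ℝ) * q ^ N) atTop (𝓝 0) :=
    hg.summable.tendsto_atTop_zero
  have hg3 : Tendsto (fun N : ℕ => q ^ N) atTop (𝓝 0) :=
    tendsto_pow_atTop_nhds_zero_of_lt_one hq0.le hq1
  have hgeo : ∀ N : ℕ, (1 - q) * ∑ n ∈ Finset.range (N + 1), q ^ n ≤ 1 := by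
    intro N
    have h := mul_neg_geom_sum q (N + 1)
    rw [h]
    have := pow_nonneg hq0.le (N + 1)
    linarith
  -- the finite inequality
  have hfin : ∀ N : ℕ, |∑ i ∈ A.le (N : ℝ), b i * q ^ A.n i -
      L * ((1 - q) * ∑ n ∈ Finset.range (N + 1), (n : ℝ) * q ^ n)| ≤
      D + δ * ((1 - q) * ∑ n ∈ Finset.range (N + 1), (n : ℝ) * q ^ n) +
        (D * q ^ N + (δ + |L|) * ((N : ℝ) * q ^ N)) := by
    intro N
    have e1 : ∑ i ∈ A.le (N : ℝ), b i * q ^ A.n i -
        L * ((1 - q) * ∑ n ∈ Finset.range (N + 1), (n : ℝ) * q ^ n) =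
        (1 - q) * ∑ n ∈ Finset.range (N + 1), (l7_s A b n - L * n) * q ^ n +
          l7_s A b N * q ^ (N + 1) := by
      rw [l7_abel]
      have e2 : ∑ n ∈ Finset.range (N + 1), (l7_s A b n - L * n) * q ^ n =
          ∑ n ∈ Finset.range (N + 1), l7_s A b n * q ^ n -
            L * ∑ n ∈ Finset.range (N + 1), (n : ℝ) * q ^ n := by
        rw [Finset.mul_sum, ← Finset.sum_sub_distrib]
        exact Finset.sum_congr rfl fun n _ => by ring
      rw [e2]
      ring
    rw [e1]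
    refine (abs_add_le _ _).trans (add_le_add ?_ ?_)
    · rw [abs_mul, abs_of_pos h1q]
      have e3 : |∑ n ∈ Finset.range (N + 1), (l7_s A b n - L * n) * q ^ n| ≤
          D * ∑ n ∈ Finset.range (N + 1), q ^ n +
            δ * ∑ n ∈ Finset.range (N + 1), (n : ℝ) * q ^ n := by
        refine (Finset.abs_sum_le_sum_abs _ _).trans ?_
        rw [Finset.mul_sum, Finset.mul_sum, ← Finset.sum_add_distrib]
        refine Finset.sum_le_sum fun n _ => ?_
        rw [abs_mul, abs_of_nonneg (pow_nonneg hq0.le n)]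
        have := mul_le_mul_of_nonneg_right (he n) (pow_nonneg hq0.le n)
        linarith
      calc (1 - q) * |∑ n ∈ Finset.range (N + 1), (l7_s A b n - L * n) * q ^ n|
          ≤ (1 - q) * (D * ∑ n ∈ Finset.range (N + 1), q ^ n +
            δ * ∑ n ∈ Finset.range (N + 1), (n : ℝ) * q ^ n) :=
            mul_le_mul_of_nonneg_left e3 h1q.le
        _ = D * ((1 - q) * ∑ n ∈ Finset.range (N + 1), q ^ n) +
            δ * ((1 - q) * ∑ n ∈ Finset.range (N + 1), (n : ℝ) * q ^ n) := by ring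
        _ ≤ D * 1 + δ * ((1 - q) * ∑ n ∈ Finset.range (N + 1), (n : ℝ) * q ^ n) :=
            add_le_add (mul_le_mul_of_nonneg_left (hgeo N) hD) le_rfl
        _ = _ := by ring
    · rw [abs_mul, abs_of_nonneg (pow_nonneg hq0.le _)]
      have e4 : |l7_s A b N| ≤ D + (δ + |L|) * N := by
        have e5 : l7_s A b N = (l7_s A b N - L * N) + L * N := by ring
        rw [e5]
        refine (abs_add_le _ _).trans ?_
        rw [abs_mul L, Nat.abs_cast]
        have := he N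
        linarith
      have e6 : q ^ (N + 1) ≤ q ^ N := pow_le_pow_of_le_one hq0.le hq1.le (Nat.le_succ N)
      have e7 : 0 ≤ D + (δ + |L|) * N := (abs_nonneg _).trans e4
      calc |l7_s A b N| * q ^ (N + 1) ≤ (D + (δ + |L|) * N) * q ^ N :=
            mul_le_mul e4 e6 (pow_nonneg hq0.le _) e7
        _ = _ := by ring
  have hlim1 : Tendsto (fun N : ℕ => |∑ i ∈ A.le (N : ℝ), b i * q ^ A.n i -
      L * ((1 - q) * ∑ n ∈ Finset.range (N + 1), (n : ℝ) * q ^ n)|) atTop
      (𝓝 |∑' i, b i * q ^ A.n i - L * ((1 - q) * (q / (1 - q) ^ 2))|) :=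
    ((l7_tendsto A _ hs).sub ((hg1.const_mul _).const_mul _)).abs
  have hlim2 : Tendsto (fun N : ℕ =>
      D + δ * ((1 - q) * ∑ n ∈ Finset.range (N + 1), (n : ℝ) * q ^ n) +
        (D * q ^ N + (δ + |L|) * ((N : ℝ) * q ^ N))) atTop
      (𝓝 (D + δ * ((1 - q) * (q / (1 - q) ^ 2)) + (D * 0 + (δ + |L|) * 0))) :=
    (((hg1.const_mul _).const_mul _).const_add _).add ((hg3.const_mul _).add (hg2.const_mul _))
  have hle := le_of_tendsto_of_tendsto' hlim1 hlim2 hfin
  have e8 : (1 - q) * (q / (1 - q) ^ 2) = q / (1 - q) := by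
    field_simp
  rw [e8] at hle
  linarith

/-- the size of `q/(1-q)` -/
theorem l7_w {x : ℝ} (hx : 1 ≤ x) : |Real.exp (-(1 / x)) / (1 - Real.exp (-(1 / x))) - x| ≤ 1 := by
  have hx0 : 0 < x := by linarith
  obtain ⟨y, hy⟩ : ∃ y, y = 1 / x := ⟨_, rfl⟩
  have hy0 : 0 < y := by rw [hy]; positivity
  have hy1 : y ≤ 1 := by rw [hy, div_le_one hx0]; exact hx
  have hxy : x = 1 / y := by rw [hy, one_div_one_div]
  rw [← hy]
  have h1 : y + 1 ≤ Real.exp y := Real.add_one_le_exp y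
  have h2 : Real.exp y - 1 - y ≤ y ^ 2 := by
    have := Real.abs_exp_sub_one_sub_id_le (x := y) (by rw [abs_of_pos hy0]; exact hy1)
    exact (le_abs_self _).trans this
  have h3 : 0 < Real.exp y - 1 := by linarith
  have h4 : Real.exp (-y) / (1 - Real.exp (-y)) = 1 / (Real.exp y - 1) := by
    rw [Real.exp_neg]
    have h5 : Real.exp y ≠ 0 := (Real.exp_pos y).ne'
    have h6 : 1 - (Real.exp y)⁻¹ ≠ 0 := by
      have h7 : (Real.exp y)⁻¹ < 1 := inv_lt_one_of_one_lt₀ (by linarith)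
      linarith
    rw [div_eq_div_iff h6 h3.ne']
    field_simp
  rw [h4, hxy, abs_le]
  constructor
  · -- `1/y - 1 ≤ 1/(e^y - 1)`
    have h8 : (1 - y) / y ≤ 1 / (Real.exp y - 1) := by
      rw [div_le_div_iff₀ hy0 h3]
      nlinarith
    have h9 : (1 - y) / y = 1 / y - 1 := by
      rw [sub_div, div_self hy0.ne']
    linarith
  · have h8 : 1 / (Real.exp y - 1) ≤ 1 / y := one_div_le_one_div_of_le hy0 (by linarith)
    linarith

end

theorem l7 (h : SL4) : SL7 := by
  intro A b M K L hb hK hlim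
  obtain ⟨C, -, h4⟩ := h
  have hK0 : 0 ≤ K := by
    have h1 := hK 1 le_rfl
    have h2 : (0 : ℝ) ≤ ((A.le 1).card : ℝ) := Nat.cast_nonneg _
    linarith
  rw [Metric.tendsto_atTop]
  intro ε hε
  have hlim' : Tendsto (fun n : ℕ => (∑ i ∈ A.le (n : ℝ), b i) / (n : ℝ)) atTop (𝓝 L) :=
    hlim.comp tendsto_natCast_atTop_atTop
  rw [Metric.tendsto_atTop] at hlim'
  obtain ⟨n0, hn0⟩ := hlim' (ε / 2) (by linarith)
  obtain ⟨D, hD⟩ : ∃ D : ℝ, D = ∑ n ∈ Finset.range (n0 + 1), |l7_s A b n - L * n| := ⟨_, rfl⟩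
  have hD0 : 0 ≤ D := by
    rw [hD]
    exact Finset.sum_nonneg fun _ _ => abs_nonneg _
  have he : ∀ n : ℕ, |l7_s A b n - L * n| ≤ D + ε / 2 * n := by
    intro n
    rcases Nat.lt_or_ge n (n0 + 1) with h1 | h1
    · have h2 := Finset.single_le_sum (f := fun n : ℕ => |l7_s A b n - L * n|)
        (fun _ _ => abs_nonneg _) (Finset.mem_range.2 h1)
      rw [← hD] at h2
      have h3 : 0 ≤ ε / 2 * (n : ℝ) := by positivity
      linarith
    · have h2 := hn0 n (by omega)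
      have hn : (0 : ℝ) < n := by
        have : 0 < n := by omega
        exact_mod_cast this
      rw [Real.dist_eq] at h2
      have h3 : l7_s A b n - L * n = ((∑ i ∈ A.le (n : ℝ), b i) / (n : ℝ) - L) * n := by
        unfold l7_s
        field_simp
      rw [h3, abs_mul, abs_of_pos hn]
      have h4 := mul_le_mul_of_nonneg_right h2.le hn.le
      linarith
  refine ⟨max 1 (2 * (D + |L| * 1 + ε) / ε), fun x hx => ?_⟩
  have hx1 : 1 ≤ x := (le_max_left _ _).trans hx
  have hx2 : 2 * (D + |L| * 1 + ε) / ε ≤ x := (le_max_right _ _).trans hx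
  have hx0 : 0 < x := by linarith
  obtain ⟨q, hq⟩ : ∃ q, q = Real.exp (-(1 / x)) := ⟨_, rfl⟩
  have hq0 : 0 < q := by rw [hq]; exact Real.exp_pos _
  have hq1 : q < 1 := by
    rw [hq, Real.exp_lt_one_iff]
    have : 0 < 1 / x := by positivity
    linarith
  have hpow : ∀ n : ℕ, Real.exp (-((n : ℝ) / x)) = q ^ n := by
    intro n
    rw [hq, ← Real.exp_nat_mul]
    congr 1
    ring
  have hsum : Summable fun i => b i * q ^ A.n i := by
    have h1 := (h4 A K hK0 hK x hx0).1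
    refine Summable.of_norm_bounded (h1.mul_left M) fun i => ?_
    rw [Real.norm_eq_abs, abs_mul, hpow, abs_of_nonneg (pow_nonneg hq0.le _)]
    exact mul_le_mul_of_nonneg_right (hb i) (pow_nonneg hq0.le _)
  have h5 := l7_bound A b L D (ε / 2) q hD0 hq0 hq1 he hsum
  have h6 := l7_w hx1
  rw [← hq] at h6
  have h7 : ∑' i, b i * Real.exp (-((A.n i : ℝ) / x)) = ∑' i, b i * q ^ A.n i :=
    tsum_congr fun i => by rw [hpow]
  rw [h7, Real.dist_eq]
  obtain ⟨T, hT⟩ : ∃ T, T = ∑' i, b i * q ^ A.n i := ⟨_, rfl⟩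
  obtain ⟨w, hw⟩ : ∃ w, w = q / (1 - q) := ⟨_, rfl⟩
  rw [← hT] at h5 ⊢
  rw [← hw] at h5 h6
  -- `w ≤ x + 1` would lose; use `w ≤ x + |w - x|`
  have h8 : |T - L * x| ≤ D + ε / 2 * (x + 1) + |L| * 1 := by
    have e1 : T - L * x = (T - L * w) + L * (w - x) := by ring
    rw [e1]
    refine (abs_add_le _ _).trans ?_
    rw [abs_mul L]
    have e2 := mul_le_mul_of_nonneg_left h6 (abs_nonneg L)
    have e3 : w ≤ x + 1 := by
      have := (abs_le.1 h6).2
      linarith
    have e4 : ε / 2 * w ≤ ε / 2 * (x + 1) := mul_le_mul_of_nonneg_left e3 (by linarith)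
    linarith
  have h9 : T / x - L = (T - L * x) / x := by
    field_simp
  rw [h9, abs_div, abs_of_pos hx0, div_lt_iff₀ hx0]
  have h10 : 2 * (D + |L| * 1 + ε) ≤ x * ε := by
    rwa [div_le_iff₀ hε] at hx2
  linarith

end Pool.Agent.SK
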