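import Pool.Agent.SK.NDefs
import Pool.Agent.SK.G1

/-!
# Malle's conjecture for 8T8 over number fields: the decomposition of the sum (row N1)
-/

set_option autoImplicit false

open scoped BigOperators Topology
open Filter

namespace Pool.Agent.SK

open Pool.Agent.H98.MK (sg)
open Pool.Agent.H98.MF
open Pool.Agent.H32.MQ (Qd El Qf Pk Pf)

section

variable {S SF : Sys} (F : Qc S SF)

/-- the term of a good set with its exponential weight -/
noncomputable def n1T (τ : F.Q.G → ℝ) (x : ℝ) (g : Finset F.Q.P) : ℝ :=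
  tN F τ g * Real.exp (-((F.Q.nq g : ℝ) / x))

theorem n1_tN {τ : F.Q.G → ℝ} {C : ℝ} (hτ : ∀ γ, |τ γ| ≤ C) (g : Finset F.Q.P) :
    |tN F τ g| ≤ 2 ^ g.card * ((Fintype.card SF.T : ℝ) * C) := by
  unfold tN
  rw [abs_mul, abs_of_nonneg (by positivity : (0 : ℝ) ≤ 2 ^ g.card)]
  refine mul_le_mul_of_nonneg_left ?_ (by positivity)
  refine (Finset.abs_sum_le_sum_abs _ _).trans ?_
  refine (Finset.sum_le_sum fun a _ => hτ (F.el a g)).trans ?_
  rw [Finset.sum_const, nsmul_eq_mul, Finset.card_univ]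

theorem n1_sumT (h2 : SF2) (l5 : SL5) {τ : F.Q.G → ℝ} {C : ℝ} (hτ : ∀ γ, |τ γ| ≤ C) {x : ℝ}
    (hx : 0 < x) : Summable fun g : (gdN F.Q).I => |n1T F τ x g.1| := by
  classical
  obtain ⟨K, hK, hL⟩ := h2 S SF F
  have hs : Summable fun c : (gdN F.Q).I × (gdN F.Q).I =>
      Real.exp (-((F.Q.nq c.1.1 : ℝ) * (F.Q.nq c.2.1 : ℝ) / x)) :=
    l5 (gdN F.Q) (gdN F.Q) K (zero_le_one.trans hK) hL hL x hx
  have hs0 : Summable fun c : (Σ g : (gdN F.Q).I, {e : Finset F.Q.P // e ∈ g.1.powerset}) =>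
      Real.exp (-((F.Q.nq (g1E F.Q c).1.1 : ℝ) * (F.Q.nq (g1E F.Q c).2.1 : ℝ) / x)) :=
    hs.comp_injective (g1_inj F.Q)
  have hs1 : Summable fun c : (Σ g : (gdN F.Q).I, {e : Finset F.Q.P // e ∈ g.1.powerset}) =>
      Real.exp (-((F.Q.nq c.2.1 : ℝ) * (F.Q.nq (c.1.1 \ c.2.1) : ℝ) / x)) := hs0
  have hs2 : Summable fun g : (gdN F.Q).I =>
      ∑' e : {e : Finset F.Q.P // e ∈ g.1.powerset},
        Real.exp (-((F.Q.nq e.1 : ℝ) * (F.Q.nq (g.1 \ e.1) : ℝ) / x)) := hs1.sigma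
  have hval : ∀ g : (gdN F.Q).I, ∑' e : {e : Finset F.Q.P // e ∈ g.1.powerset},
        Real.exp (-((F.Q.nq e.1 : ℝ) * (F.Q.nq (g.1 \ e.1) : ℝ) / x)) =
      2 ^ g.1.card * Real.exp (-((F.Q.nq g.1 : ℝ) / x)) := by
    intro g
    have h1 : ∀ e : {e : Finset F.Q.P // e ∈ g.1.powerset},
        Real.exp (-((F.Q.nq e.1 : ℝ) * (F.Q.nq (g.1 \ e.1) : ℝ) / x)) =
          Real.exp (-((F.Q.nq g.1 : ℝ) / x)) := by
      intro e
      have hn : ((F.Q.nq e.1 : ℝ) * (F.Q.nq (g.1 \ e.1) : ℝ)) = (F.Q.nq g.1 : ℝ) := by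
        rw [g1_nq F.Q g.2 (Finset.mem_powerset.1 e.2)]
        push_cast
        rfl
      rw [hn]
    rw [tsum_congr h1, tsum_fintype, Finset.sum_const, nsmul_eq_mul]
    congr 1
    rw [Finset.card_univ, Fintype.card_coe, Finset.card_powerset]
    push_cast
    rfl
  have hs3 : Summable fun g : (gdN F.Q).I =>
      ((Fintype.card SF.T : ℝ) * C) * (2 ^ g.1.card * Real.exp (-((F.Q.nq g.1 : ℝ) / x))) :=
    (hs2.congr hval).mul_left _
  refine Summable.of_nonneg_of_le (fun g => abs_nonneg _) (fun g => ?_) hs3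
  unfold n1T
  rw [abs_mul, abs_of_pos (Real.exp_pos _)]
  refine (mul_le_mul_of_nonneg_right (n1_tN F hτ g.1) (Real.exp_pos _).le).trans (le_of_eq ?_)
  ring

open Classical in
/-- the large primes of `Pp` in a set -/
noncomputable def n1L (Pp : Set F.Q.P) (z : ℝ) (g : Finset F.Q.P) : Finset F.Q.P :=
  g.filter fun p => p ∈ Pp ∧ z ≤ (S.N (F.Q.sh p) : ℝ)

theorem n1_nz (Pp : Set F.Q.P) (z : ℝ) (g : Finset F.Q.P) :
    nz F Pp z g = (n1L F Pp z g).card := rfl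

theorem n1_memL {Pp : Set F.Q.P} {z : ℝ} {g : Finset F.Q.P} {p : F.Q.P} :
    p ∈ n1L F Pp z g ↔ p ∈ g ∧ p ∈ Pp ∧ z ≤ (S.N (F.Q.sh p) : ℝ) := by
  simp only [n1L, Finset.mem_filter]

/-- the fibre index -/
abbrev n1S (Pp : Set F.Q.P) (z : ℝ) : Type :=
  Σ g : (gdN F.Q).I, (Fin 3 ↪ {p // p ∈ n1L F Pp z g.1})

/-- the three primes -/
def n1P {Pp : Set F.Q.P} {z : ℝ} {g : Finset F.Q.P} (e : Fin 3 ↪ {p // p ∈ n1L F Pp z g}) :
    Fin 3 → F.Q.P := fun i => (e i).1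

/-- the rest -/
noncomputable def n1R {Pp : Set F.Q.P} {z : ℝ} {g : Finset F.Q.P}
    (e : Fin 3 ↪ {p // p ∈ n1L F Pp z g}) : Finset F.Q.P :=
  g \ Finset.univ.image (n1P F e)

theorem n1_sub {Pp : Set F.Q.P} {z : ℝ} {g : Finset F.Q.P}
    (e : Fin 3 ↪ {p // p ∈ n1L F Pp z g}) : Finset.univ.image (n1P F e) ⊆ n1L F Pp z g := by
  intro p hp
  rw [Finset.mem_image] at hp
  obtain ⟨i, -, rfl⟩ := hp
  exact (e i).2

theorem n1_subg {Pp : Set F.Q.P} {z : ℝ} {g : Finset F.Q.P}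
    (e : Fin 3 ↪ {p // p ∈ n1L F Pp z g}) : Finset.univ.image (n1P F e) ⊆ g :=
  fun _ hp => ((n1_memL F).1 (n1_sub F e hp)).1

theorem n1_injP {Pp : Set F.Q.P} {z : ℝ} {g : Finset F.Q.P}
    (e : Fin 3 ↪ {p // p ∈ n1L F Pp z g}) : Function.Injective (n1P F e) :=
  fun _ _ h => e.injective (Subtype.ext h)

theorem n1_card {Pp : Set F.Q.P} {z : ℝ} {g : Finset F.Q.P}
    (e : Fin 3 ↪ {p // p ∈ n1L F Pp z g}) : (Finset.univ.image (n1P F e)).card = 3 := by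
  rw [Finset.card_image_of_injective _ (n1_injP F e), Finset.card_univ, Fintype.card_fin]

theorem n1_uT {Pp : Set F.Q.P} {z : ℝ} {g : Finset F.Q.P}
    (e : Fin 3 ↪ {p // p ∈ n1L F Pp z g}) : uT F (n1R F e) (n1P F e) = g := by
  classical
  have h : uT F (n1R F e) (n1P F e) = n1R F e ∪ Finset.univ.image (n1P F e) := by
    unfold uT
    ext p
    simp only [Finset.mem_union, Finset.mem_image]
  rw [h]
  unfold n1R
  exact Finset.sdiff_union_of_subset (n1_subg F e)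

/-- the pair of a point of the fibre -/
noncomputable def n1E (Pp : Set F.Q.P) (z : ℝ) (c : n1S F Pp z) :
    (gdN F.Q).I × (Fin 3 → F.Q.P) :=
  (⟨n1R F c.2, g1_gd F.Q c.1.2 Finset.sdiff_subset⟩, n1P F c.2)

theorem n1_inj (Pp : Set F.Q.P) (z : ℝ) : Function.Injective (n1E F Pp z) := by
  rintro ⟨⟨g, hg⟩, e⟩ ⟨⟨g', hg'⟩, e'⟩ h
  have h1 : n1R F e = n1R F e' := congrArg (fun z => z.1.1) h
  have h2 : n1P F e = n1P F e' := congrArg (fun z => z.2) h
  have h3 : g = g' := by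
    calc g = uT F (n1R F e) (n1P F e) := (n1_uT F e).symm
      _ = uT F (n1R F e') (n1P F e') := by rw [h1, h2]
      _ = g' := n1_uT F e'
  subst h3
  have h4 : e = e' := by
    ext i
    exact congrFun h2 i
  subst h4
  rfl

theorem n1_tri {Pp : Set F.Q.P} {z : ℝ} {g : Finset F.Q.P} (hg : F.Q.Gd g)
    (e : Fin 3 ↪ {p // p ∈ n1L F Pp z g}) :
    Tri F Pp (n1R F e) (n1P F e) ∧ ∀ i, z ≤ (S.N (F.Q.sh (n1P F e i)) : ℝ) := by
  have hm : ∀ i, n1P F e i ∈ g ∧ n1P F e i ∈ Pp ∧ z ≤ (S.N (F.Q.sh (n1P F e i)) : ℝ) :=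
    fun i => (n1_memL F).1 (e i).2
  refine ⟨⟨fun i => (hm i).2.1, ?_, ?_⟩, fun i => (hm i).2.2⟩
  · intro i j hij h
    exact hij (n1_injP F e (hg _ (hm i).1 _ (hm j).1 h))
  · intro i q hq h
    unfold n1R at hq
    rw [Finset.mem_sdiff] at hq
    have h1 := hg q hq.1 _ (hm i).1 h
    apply hq.2
    rw [h1]
    exact Finset.mem_image_of_mem _ (Finset.mem_univ i)

open Classical in
/-- the term of three primes -/
noncomputable def n1G (Pp : Set F.Q.P) (τ : F.Q.G → ℝ) (z x : ℝ) (R : Finset F.Q.P)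
    (P : Fin 3 → F.Q.P) : ℝ :=
  if Tri F Pp R P ∧ (∀ i, z ≤ (S.N (F.Q.sh (P i)) : ℝ)) then
    tN F τ (uT F R P) * Real.exp (-((F.Q.nq (uT F R P) : ℝ) / x)) else 0

open Classical in
/-- the term of a pair -/
noncomputable def n1F (Pp : Set F.Q.P) (τ : F.Q.G → ℝ) (z x : ℝ) (w : Finset F.Q.P → ℝ)
    (c : (gdN F.Q).I × (Fin 3 → F.Q.P)) : ℝ :=
  w c.1.1 * (if Tri F Pp c.1.1 c.2 ∧ (∀ i, z ≤ (S.N (F.Q.sh (c.2 i)) : ℝ)) then
    tN F τ (uT F c.1.1 c.2) * Real.exp (-((F.Q.nq (uT F c.1.1 c.2) : ℝ) / x)) else 0)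

theorem n1_Fmk (Pp : Set F.Q.P) (τ : F.Q.G → ℝ) (z x : ℝ) (w : Finset F.Q.P → ℝ)
    (R : (gdN F.Q).I) (P : Fin 3 → F.Q.P)
    (h : Tri F Pp R.1 P ∧ ∀ i, z ≤ (S.N (F.Q.sh (P i)) : ℝ)) :
    n1F F Pp τ z x w (R, P) = w R.1 * n1T F τ x (uT F R.1 P) := by
  unfold n1F n1T
  simp only [if_pos h]

theorem n1_FE (Pp : Set F.Q.P) (τ : F.Q.G → ℝ) (z x : ℝ) (w : Finset F.Q.P → ℝ)
    (c : n1S F Pp z) : n1F F Pp τ z x w (n1E F Pp z c) = w (n1R F c.2) * n1T F τ x c.1.1 := by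
  obtain ⟨⟨g, hg⟩, e⟩ := c
  have h := n1_tri F hg e
  have h1 := n1_Fmk F Pp τ z x w ⟨n1R F e, g1_gd F.Q hg Finset.sdiff_subset⟩ (n1P F e) h
  exact h1.trans (congrArg (fun u => w (n1R F e) * n1T F τ x u) (n1_uT F e))

theorem n1_supp (Pp : Set F.Q.P) (τ : F.Q.G → ℝ) (z x : ℝ) (w : Finset F.Q.P → ℝ) :
    Function.support (n1F F Pp τ z x w) ⊆ Set.range (n1E F Pp z) := by
  classical
  rintro ⟨⟨R, hR⟩, P⟩ hc
  rw [Function.mem_support] at hc
  have h : Tri F Pp R P ∧ (∀ i, z ≤ (S.N (F.Q.sh (P i)) : ℝ)) := by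
    by_contra h
    apply hc
    unfold n1F
    rw [if_neg h, mul_zero]
  obtain ⟨ht, hz⟩ := h
  have hPinj : Function.Injective P := by
    intro i j hij
    by_contra hne
    exact ht.ne i j hne (by rw [hij])
  have hPR : ∀ i, P i ∉ R := fun i hi => ht.out i _ hi rfl
  have hg : F.Q.Gd (R ∪ Finset.univ.image P) := by
    intro a ha b hb hab
    rw [Finset.mem_union, Finset.mem_image] at ha hb
    rcases ha with ha | ⟨i, -, rfl⟩ <;> rcases hb with hb | ⟨j, -, rfl⟩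
    · exact hR a ha b hb hab
    · exact absurd hab (ht.out j a ha)
    · exact absurd hab.symm (ht.out i b hb)
    · by_cases hij : i = j
      · rw [hij]
      · exact absurd hab (ht.ne i j hij)
  have hmem : ∀ i, P i ∈ n1L F Pp z (R ∪ Finset.univ.image P) := by
    intro i
    rw [n1_memL]
    exact ⟨Finset.mem_union_right _ (Finset.mem_image_of_mem _ (Finset.mem_univ i)), ht.mem i,
      hz i⟩
  let e : Fin 3 ↪ {p // p ∈ n1L F Pp z (R ∪ Finset.univ.image P)} :=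
    ⟨fun i => ⟨P i, hmem i⟩, fun i j h => hPinj (congrArg Subtype.val h)⟩
  refine ⟨⟨⟨R ∪ Finset.univ.image P, hg⟩, e⟩, ?_⟩
  refine Prod.ext (Subtype.ext ?_) rfl
  show (R ∪ Finset.univ.image P) \ Finset.univ.image P = R
  have hd : Disjoint R (Finset.univ.image P) := by
    rw [Finset.disjoint_left]
    intro a ha hb
    rw [Finset.mem_image] at hb
    obtain ⟨i, -, rfl⟩ := hb
    exact hPR i ha
  exact Finset.union_sdiff_cancel_right hd

/-- the number of points of the fibre -/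
noncomputable def n1D (Pp : Set F.Q.P) (z : ℝ) (g : Finset F.Q.P) : ℝ :=
  ((nz F Pp z g).descFactorial 3 : ℕ)

theorem n1_fib (Pp : Set F.Q.P) (z : ℝ) (g : Finset F.Q.P) (r : ℝ) :
    ∑' _e : Fin 3 ↪ {p // p ∈ n1L F Pp z g}, r = n1D F Pp z g * r := by
  classical
  rw [tsum_fintype, Finset.sum_const, nsmul_eq_mul, Finset.card_univ,
    Fintype.card_embedding_eq, Fintype.card_fin, Fintype.card_coe]
  rfl

theorem n1_main (Pp : Set F.Q.P) (τ : F.Q.G → ℝ) (z x : ℝ) (w v : Finset F.Q.P → ℝ)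
    (hv : ∀ (g : Finset F.Q.P) (e : Fin 3 ↪ {p // p ∈ n1L F Pp z g}), w (n1R F e) = v g)
    (hv0 : ∀ g, 0 ≤ n1D F Pp z g * v g) (hv1 : ∀ g, n1D F Pp z g * v g ≤ 1)
    (hT : Summable fun g : (gdN F.Q).I => |n1T F τ x g.1|) :
    (Summable fun R : (gdN F.Q).I => w R.1 * tri F Pp τ z x R.1) ∧
    ∑' R : (gdN F.Q).I, w R.1 * tri F Pp τ z x R.1 =
      ∑' g : (gdN F.Q).I, n1D F Pp z g.1 * v g.1 * n1T F τ x g.1 := by
  classical
  have hE : ∀ c : n1S F Pp z, n1F F Pp τ z x w (n1E F Pp z c) = v c.1.1 * n1T F τ x c.1.1 := by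
    intro c
    rw [n1_FE, hv]
  have hfib : ∀ g : (gdN F.Q).I, ∀ r : ℝ,
      ∑' _e : Fin 3 ↪ {p // p ∈ n1L F Pp z g.1}, r = n1D F Pp z g.1 * r :=
    fun g r => n1_fib F Pp z g.1 r
  have hsE : Summable fun c : n1S F Pp z => n1F F Pp τ z x w (n1E F Pp z c) := by
    rw [← summable_abs_iff]
    have h1 : ∀ c : n1S F Pp z, |n1F F Pp τ z x w (n1E F Pp z c)| =
        |v c.1.1 * n1T F τ x c.1.1| := fun c => by rw [hE]
    refine Summable.congr ?_ fun c => (h1 c).symm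
    refine (summable_sigma_of_nonneg fun c => abs_nonneg _).2 ⟨fun g => ?_, ?_⟩
    · exact (hasSum_fintype _).summable
    · refine Summable.of_nonneg_of_le (fun g => tsum_nonneg fun e => abs_nonneg _)
        (fun g => ?_) hT
      show ∑' _e : Fin 3 ↪ {p // p ∈ n1L F Pp z g.1}, |v g.1 * n1T F τ x g.1| ≤ _
      rw [hfib g, abs_mul, ← mul_assoc]
      have h2 : n1D F Pp z g.1 * |v g.1| ≤ 1 := by
        have h3 : n1D F Pp z g.1 * |v g.1| = |n1D F Pp z g.1 * v g.1| := by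
          rw [abs_mul, abs_of_nonneg (show 0 ≤ n1D F Pp z g.1 from Nat.cast_nonneg _)]
        rw [h3, abs_of_nonneg (hv0 g.1)]
        exact hv1 g.1
      calc n1D F Pp z g.1 * |v g.1| * |n1T F τ x g.1| ≤ 1 * |n1T F τ x g.1| :=
            mul_le_mul_of_nonneg_right h2 (abs_nonneg _)
        _ = |n1T F τ x g.1| := one_mul _
  have hs : Summable (n1F F Pp τ z x w) := by
    refine ((n1_inj F Pp z).summable_iff ?_).1 hsE
    intro c hc
    by_contra hne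
    exact hc (n1_supp F Pp τ z x w hne)
  have htri : ∀ R : (gdN F.Q).I, ∑' P : Fin 3 → F.Q.P, n1F F Pp τ z x w (R, P) =
      w R.1 * tri F Pp τ z x R.1 := by
    intro R
    have k0 : ∀ P : Fin 3 → F.Q.P, n1F F Pp τ z x w (R, P) = w R.1 * n1G F Pp τ z x R.1 P :=
      fun P => rfl
    have k1 : tri F Pp τ z x R.1 = ∑' P : Fin 3 → F.Q.P, n1G F Pp τ z x R.1 P := rfl
    have k2 : ∑' P : Fin 3 → F.Q.P, w R.1 * n1G F Pp τ z x R.1 P =
        w R.1 * ∑' P : Fin 3 → F.Q.P, n1G F Pp τ z x R.1 P := tsum_mul_left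
    rw [k1, ← k2]
    exact tsum_congr k0
  have hs1 : Summable fun R : (gdN F.Q).I => w R.1 * tri F Pp τ z x R.1 :=
    hs.prod.congr htri
  refine ⟨hs1, ?_⟩
  calc ∑' R : (gdN F.Q).I, w R.1 * tri F Pp τ z x R.1
      = ∑' R : (gdN F.Q).I, ∑' P : Fin 3 → F.Q.P, n1F F Pp τ z x w (R, P) :=
        tsum_congr fun R => (htri R).symm
    _ = ∑' c, n1F F Pp τ z x w c := (hs.tsum_prod).symm
    _ = ∑' c : n1S F Pp z, n1F F Pp τ z x w (n1E F Pp z c) :=
        ((n1_inj F Pp z).tsum_eq (n1_supp F Pp τ z x w)).symm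
    _ = ∑' g : (gdN F.Q).I, ∑' e : Fin 3 ↪ {p // p ∈ n1L F Pp z g.1},
          n1F F Pp τ z x w (n1E F Pp z ⟨g, e⟩) := hsE.tsum_sigma
    _ = ∑' g : (gdN F.Q).I, n1D F Pp z g.1 * v g.1 * n1T F τ x g.1 := by
        refine tsum_congr fun g => ?_
        have h1 : ∑' e : Fin 3 ↪ {p // p ∈ n1L F Pp z g.1},
            n1F F Pp τ z x w (n1E F Pp z ⟨g, e⟩) =
            ∑' _e : Fin 3 ↪ {p // p ∈ n1L F Pp z g.1}, v g.1 * n1T F τ x g.1 :=
          tsum_congr fun e => hE ⟨g, e⟩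
        exact h1.trans ((hfib g _).trans (mul_assoc _ _ _).symm)

theorem n1_om {n : ℕ} (hn : 3 ≤ n) : ((n.descFactorial 3 : ℕ) : ℝ) * om (n - 3) = 1 := by
  obtain ⟨m, rfl⟩ := Nat.exists_eq_add_of_le hn
  have h1 : 3 + m - 3 = m := by omega
  have h2 : (3 + m).descFactorial 3 = (m + 1) * (m + 2) * (m + 3) := by
    simp only [Nat.descFactorial]
    have e1 : 3 + m - 2 = m + 1 := by omega
    have e2 : 3 + m - 1 = m + 2 := by omega
    have e3 : 3 + m - 0 = m + 3 := by omega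
    rw [e1, e2, e3]
    ring
  rw [h1, h2]
  unfold om
  push_cast
  have k1 : ((m : ℝ) + 1) ≠ 0 := by positivity
  have k2 : ((m : ℝ) + 2) ≠ 0 := by positivity
  have k3 : ((m : ℝ) + 3) ≠ 0 := by positivity
  field_simp

theorem n1_om0 (n : ℕ) : 0 ≤ om n ∧ om n ≤ 1 := by
  unfold om
  refine ⟨by positivity, ?_⟩
  rw [div_le_one (by positivity)]
  have h : (0 : ℝ) ≤ n := Nat.cast_nonneg n
  nlinarith [mul_nonneg h h, mul_nonneg (mul_nonneg h h) h]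

theorem n1_desc {n : ℕ} (hn : n ≤ 2) : n.descFactorial 3 = 0 :=
  Nat.descFactorial_of_lt (by omega)

theorem n1_nzR {Pp : Set F.Q.P} {z : ℝ} {g : Finset F.Q.P}
    (e : Fin 3 ↪ {p // p ∈ n1L F Pp z g}) : nz F Pp z (n1R F e) = nz F Pp z g - 3 := by
  classical
  rw [n1_nz, n1_nz]
  have h1 : n1L F Pp z (n1R F e) = n1L F Pp z g \ Finset.univ.image (n1P F e) := by
    ext p
    rw [n1_memL, Finset.mem_sdiff, n1_memL]
    unfold n1R
    rw [Finset.mem_sdiff]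
    tauto
  rw [h1, Finset.card_sdiff_of_subset (n1_sub F e), n1_card]

theorem n1_nzR' {Pp : Set F.Q.P} {z : ℝ} {g : Finset F.Q.P}
    (e : Fin 3 ↪ {p // p ∈ n1L F Ppᶜ z g}) : nz F Pp z (n1R F e) = nz F Pp z g := by
  classical
  rw [n1_nz, n1_nz]
  congr 1
  ext p
  rw [n1_memL, n1_memL]
  unfold n1R
  rw [Finset.mem_sdiff]
  constructor
  · rintro ⟨⟨h1, _⟩, h3⟩
    exact ⟨h1, h3⟩
  · rintro ⟨h1, h3⟩
    refine ⟨⟨h1, fun h => ?_⟩, h3⟩
    exact ((n1_memL F).1 (n1_sub F e h)).2.1 h3.1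

end

/-- N1: the decomposition of the sum. -/
theorem n1 (h2 : SF2) (_l4 : SL4) (l5 : SL5) : SN1 := by
  classical
  intro S SF F Pp τ C hτ z x _ hx
  have hT := n1_sumT F h2 l5 hτ hx
  have hT' : Summable fun g : (gdN F.Q).I => n1T F τ x g.1 := summable_abs_iff.1 hT
  set w1 : Finset F.Q.P → ℝ := fun R => om (nz F Pp z R) with hw1
  set w2 : Finset F.Q.P → ℝ := fun R => if nz F Pp z R ≤ 2 then om (nz F Ppᶜ z R) else 0
    with hw2
  set v1 : Finset F.Q.P → ℝ := fun g => om (nz F Pp z g - 3) with hv1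
  set v2 : Finset F.Q.P → ℝ := fun g => if nz F Pp z g ≤ 2 then om (nz F Ppᶜ z g - 3) else 0
    with hv2
  have e1 : ∀ g, n1D F Pp z g * v1 g = if 3 ≤ nz F Pp z g then 1 else 0 := by
    intro g
    by_cases h : 3 ≤ nz F Pp z g
    · rw [if_pos h]
      exact n1_om h
    · rw [if_neg h]
      unfold n1D
      rw [n1_desc (by omega), Nat.cast_zero, zero_mul]
  have e2 : ∀ g, n1D F Ppᶜ z g * v2 g =
      if nz F Pp z g ≤ 2 ∧ 3 ≤ nz F Ppᶜ z g then 1 else 0 := by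
    intro g
    by_cases h : 3 ≤ nz F Ppᶜ z g
    · by_cases h' : nz F Pp z g ≤ 2
      · rw [if_pos ⟨h', h⟩]
        simp only [hv2, if_pos h']
        exact n1_om h
      · rw [if_neg fun k => h' k.1]
        simp only [hv2, if_neg h', mul_zero]
    · rw [if_neg fun k => h k.2]
      unfold n1D
      rw [n1_desc (by omega), Nat.cast_zero, zero_mul]
  have m1 := n1_main F Pp τ z x w1 v1 (fun g e => by
      simp only [hw1, hv1]
      rw [n1_nzR]) (fun g => by rw [e1]; split_ifs <;> norm_num)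
      (fun g => by rw [e1]; split_ifs <;> norm_num) hT
  have m2 := n1_main F Ppᶜ τ z x w2 v2 (fun g e => by
      simp only [hw2, hv2]
      rw [n1_nzR, n1_nzR']) (fun g => by rw [e2]; split_ifs <;> norm_num)
      (fun g => by rw [e2]; split_ifs <;> norm_num) hT
  refine ⟨w1, w2, fun R => n1_om0 _, fun R => ?_, hT', m1.1, m2.1, ?_⟩
  · simp only [hw2]
    split_ifs
    · exact n1_om0 _
    · exact ⟨le_rfl, zero_le_one⟩
  rw [m1.2, m2.2]
  have hdom : ∀ (f : (gdN F.Q).I → ℝ), (∀ g, |f g| ≤ |n1T F τ x g.1|) → Summable f :=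
    fun f hf => Summable.of_norm_bounded hT hf
  have hf0 : Summable fun g : (gdN F.Q).I =>
      if nz F Pp z g.1 ≤ 2 ∧ nz F Ppᶜ z g.1 ≤ 2 then n1T F τ x g.1 else 0 := by
    refine hdom _ fun g => ?_
    split_ifs
    · exact le_rfl
    · rw [abs_zero]
      exact abs_nonneg _
  have hf1 : Summable fun g : (gdN F.Q).I => n1D F Pp z g.1 * v1 g.1 * n1T F τ x g.1 := by
    refine hdom _ fun g => ?_
    rw [e1]
    split_ifs
    · rw [one_mul]
    · rw [zero_mul, abs_zero]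
      exact abs_nonneg _
  have hf2 : Summable fun g : (gdN F.Q).I => n1D F Ppᶜ z g.1 * v2 g.1 * n1T F τ x g.1 := by
    refine hdom _ fun g => ?_
    rw [e2]
    split_ifs
    · rw [one_mul]
    · rw [zero_mul, abs_zero]
      exact abs_nonneg _
  have hfew : few F Pp τ z x = ∑' g : (gdN F.Q).I,
      if nz F Pp z g.1 ≤ 2 ∧ nz F Ppᶜ z g.1 ≤ 2 then n1T F τ x g.1 else 0 := rfl
  rw [hfew, ← hf0.tsum_add hf1, ← (hf0.add hf1).tsum_add hf2]
  refine tsum_congr fun g => ?_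
  rw [e1, e2]
  show n1T F τ x g.1 = _
  by_cases h1 : nz F Pp z g.1 ≤ 2
  · have h1' : ¬ 3 ≤ nz F Pp z g.1 := by omega
    by_cases h3 : nz F Ppᶜ z g.1 ≤ 2
    · have h3' : ¬ 3 ≤ nz F Ppᶜ z g.1 := by omega
      rw [if_pos ⟨h1, h3⟩, if_neg h1', if_neg fun k => h3' k.2]
      ring
    · have h3' : 3 ≤ nz F Ppᶜ z g.1 := by omega
      rw [if_neg fun k => h3 k.2, if_neg h1', if_pos ⟨h1, h3'⟩]
      ring
  · have h1' : 3 ≤ nz F Pp z g.1 := by omega
    rw [if_neg fun k => h1 k.1, if_pos h1', if_neg fun k => h1 k.1]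
    ring

end Pool.Agent.SK
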