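import Pool.Agent.SK.NDefs
import Pool.Agent.H98.MF.SBase

/-!
# Malle's conjecture for 8T8 over number fields: bilinear sums over primes
-/

set_option autoImplicit false

open scoped BigOperators Topology
open Filter

namespace Pool.Agent.SK

open Pool.Agent.H98.MK (sg)
open Pool.Agent.H98.MF
open Pool.Agent.H32.MQ (Qd El Qf Pk Pf)

section

variable {S SF : Sys} (F : Qc S SF)

/-- a prime as a good set -/
def n2i (p : F.Q.P) : (gdN F.Q).I := ⟨{p}, by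
  intro a ha b hb _
  rw [Finset.mem_singleton] at ha hb
  rw [ha, hb]⟩

theorem n2i_inj : Function.Injective (n2i F) := by
  intro p q h
  exact Finset.singleton_injective (congrArg Subtype.val h)

theorem n2i_n (p : F.Q.P) : (gdN F.Q).n (n2i F p) = S.N (F.Q.sh p) := by
  show S.nm (F.Q.shd {p}) = S.N (F.Q.sh p)
  unfold Pre.nm Qd.shd
  rw [Finset.image_singleton, Finset.prod_singleton]

theorem n2_jk (p q : F.Q.P) : jk F {p} {q} = if F.Q.sh q ≠ F.Q.sh p then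
    ((sg (SF.J (F.io q) (F.io (F.Q.cj p))) : ℤ) : ℝ) else 0 := by
  classical
  unfold jk ic Qd.shd Sys.jj Sys.JJ
  simp only [Finset.image_singleton, Finset.sum_singleton, Finset.disjoint_singleton]
  by_cases h : F.Q.sh q = F.Q.sh p
  · rw [if_neg (fun h' => h' h.symm), if_neg (fun h' => h' h)]
  · rw [if_pos (fun h' => h h'.symm), if_pos h]

theorem n2_jk_le (e f : Finset F.Q.P) : |jk F e f| ≤ 1 := by
  unfold jk
  split_ifs
  · exact (abs_sgr _).le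
  · rw [abs_zero]
    exact zero_le_one

open Classical in
/-- coefficients supported on the primes -/
noncomputable def n2c (a : F.Q.P → ℝ) (i : (gdN F.Q).I) : ℝ :=
  if h : ∃ p, n2i F p = i then a h.choose else 0

theorem n2c_eq (a : F.Q.P → ℝ) (p : F.Q.P) : n2c F a (n2i F p) = a p := by
  unfold n2c
  have h : ∃ q, n2i F q = n2i F p := ⟨p, rfl⟩
  rw [dif_pos h]
  congr 1
  exact n2i_inj F h.choose_spec

theorem n2c_zero (a : F.Q.P → ℝ) {i : (gdN F.Q).I} (h : ¬ ∃ p, n2i F p = i) : n2c F a i = 0 := by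
  unfold n2c
  rw [dif_neg h]

theorem n2c_le (a : F.Q.P → ℝ) (ha : ∀ p, |a p| ≤ 1) (i : (gdN F.Q).I) : |n2c F a i| ≤ 1 := by
  unfold n2c
  split_ifs
  · exact ha _
  · rw [abs_zero]
    exact zero_le_one

open Classical in
/-- the terms over pairs of good sets -/
noncomputable def n2f (a b : F.Q.P → ℝ) (E : ℕ) (x : ℝ) (z : (gdN F.Q).I × (gdN F.Q).I) : ℝ :=
  if 2 ^ E ≤ (gdN F.Q).n z.1 ∧ 2 ^ E ≤ (gdN F.Q).n z.2 then
    n2c F b z.1 * n2c F a z.2 * jk F z.1.1 z.2.1 *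
      Real.exp (-(((gdN F.Q).n z.1 : ℝ) * ((gdN F.Q).n z.2 : ℝ) / x)) else 0

open Classical in
theorem n2_sum (a b : F.Q.P → ℝ) (E : ℕ) (x : ℝ) :
    ∑' z : F.Q.P × F.Q.P, (if F.Q.sh z.1 ≠ F.Q.sh z.2 ∧ 2 ^ E ≤ S.N (F.Q.sh z.1) ∧
      2 ^ E ≤ S.N (F.Q.sh z.2) then a z.1 * b z.2 *
        ((sg (SF.J (F.io z.1) (F.io (F.Q.cj z.2))) : ℤ) : ℝ) *
        Real.exp (-((S.N (F.Q.sh z.1) : ℝ) * (S.N (F.Q.sh z.2) : ℝ) / x)) else 0) =
      ∑' z, n2f F a b E x z := by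
  let g : F.Q.P × F.Q.P → (gdN F.Q).I × (gdN F.Q).I := fun z => (n2i F z.2, n2i F z.1)
  have hg : Function.Injective g := by
    rintro ⟨p, q⟩ ⟨p', q'⟩ h
    have h1 : n2i F q = n2i F q' := congrArg Prod.fst h
    have h2 : n2i F p = n2i F p' := congrArg Prod.snd h
    rw [n2i_inj F h1, n2i_inj F h2]
  have hs : Function.support (n2f F a b E x) ⊆ Set.range g := by
    rintro ⟨i, j⟩ hz
    by_contra hn
    apply hz
    have h1 : ¬ ((∃ p, n2i F p = i) ∧ ∃ p, n2i F p = j) := by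
      rintro ⟨⟨q, hq⟩, p, hp⟩
      exact hn ⟨(p, q), by show (n2i F q, n2i F p) = (i, j); rw [hq, hp]⟩
    unfold n2f
    split_ifs
    · rcases not_and_or.1 h1 with h2 | h2
      · rw [n2c_zero F b h2, zero_mul, zero_mul, zero_mul]
      · rw [n2c_zero F a h2, mul_zero, zero_mul, zero_mul]
    · rfl
  rw [← hg.tsum_eq hs]
  refine tsum_congr fun z => ?_
  have e1 : n2f F a b E x (g z) = if 2 ^ E ≤ S.N (F.Q.sh z.2) ∧ 2 ^ E ≤ S.N (F.Q.sh z.1) then
      b z.2 * a z.1 * jk F {z.2} {z.1} *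
      Real.exp (-((S.N (F.Q.sh z.2) : ℝ) * (S.N (F.Q.sh z.1) : ℝ) / x)) else 0 := by
    unfold n2f
    show (if 2 ^ E ≤ (gdN F.Q).n (n2i F z.2) ∧ 2 ^ E ≤ (gdN F.Q).n (n2i F z.1) then
      n2c F b (n2i F z.2) * n2c F a (n2i F z.1) * jk F {z.2} {z.1} *
      Real.exp (-(((gdN F.Q).n (n2i F z.2) : ℝ) * ((gdN F.Q).n (n2i F z.1) : ℝ) / x))
        else 0) = _
    rw [n2i_n, n2i_n, n2c_eq, n2c_eq]
  rw [e1, n2_jk]
  by_cases h1 : F.Q.sh z.1 = F.Q.sh z.2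
  · simp only [ne_eq, h1, not_true_eq_false, false_and, if_false, mul_zero, zero_mul, ite_self]
  · by_cases h2 : 2 ^ E ≤ S.N (F.Q.sh z.1) ∧ 2 ^ E ≤ S.N (F.Q.sh z.2)
    · simp only [ne_eq, h1, h2.1, h2.2, not_false_eq_true, and_self, if_true]
      rw [mul_comm (S.N (F.Q.sh z.2) : ℝ) (S.N (F.Q.sh z.1) : ℝ)]
      ring
    · have h3 : ¬ (2 ^ E ≤ S.N (F.Q.sh z.2) ∧ 2 ^ E ≤ S.N (F.Q.sh z.1)) := fun h => h2 h.symm
      have h4 : ¬ (F.Q.sh z.1 ≠ F.Q.sh z.2 ∧ 2 ^ E ≤ S.N (F.Q.sh z.1) ∧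
        2 ^ E ≤ S.N (F.Q.sh z.2)) := fun h => h2 h.2
      rw [if_neg h3, if_neg h4]

/-- the terms for small `x` -/
theorem n2f_le (a b : F.Q.P → ℝ) (ha : ∀ p, |a p| ≤ 1) (hb : ∀ p, |b p| ≤ 1) (E : ℕ) {x : ℝ}
    (hx : 0 < x) (hx1 : x < 1) (z : (gdN F.Q).I × (gdN F.Q).I) :
    |n2f F a b E x z| ≤ 4 * x * ((2 : ℝ) ^ E) ^ (-(1 : ℝ)) * Real.exp (-(1 / (4 * x))) *
      Real.exp (-(((gdN F.Q).n z.1 : ℝ) * ((gdN F.Q).n z.2 : ℝ) / 2)) := by
  have hE : (1 : ℝ) ≤ 2 ^ E := one_le_pow₀ (by norm_num)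
  have hE0 : (0 : ℝ) < 2 ^ E := lt_of_lt_of_le one_pos hE
  unfold n2f
  split_ifs with h
  · have h1 : (2 : ℝ) ^ E ≤ ((gdN F.Q).n z.1 : ℝ) := by exact_mod_cast h.1
    have h2 : (2 : ℝ) ^ E ≤ ((gdN F.Q).n z.2 : ℝ) := by exact_mod_cast h.2
    set m : ℝ := ((gdN F.Q).n z.1 : ℝ) * ((gdN F.Q).n z.2 : ℝ) with hm
    have h3 : (2 : ℝ) ^ E * 2 ^ E ≤ m := mul_le_mul h1 h2 hE0.le (hE0.le.trans h1)
    have h4 : (2 : ℝ) ^ E ≤ m := by nlinarith
    have h5 : |n2c F b z.1 * n2c F a z.2 * jk F z.1.1 z.2.1| ≤ 1 := by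
      rw [abs_mul, abs_mul]
      exact mul_le_one₀ (mul_le_one₀ (n2c_le F b hb _) (abs_nonneg _) (n2c_le F a ha _))
        (abs_nonneg _) (n2_jk_le F _ _)
    rw [abs_mul, Real.abs_exp]
    have h6 : Real.exp (-(m / x)) ≤ 4 * x * ((2 : ℝ) ^ E) ^ (-(1 : ℝ)) *
        Real.exp (-(1 / (4 * x))) * Real.exp (-(m / 2)) := by
      have h7 : Real.exp (-(m / x)) = Real.exp (-(m / (4 * x))) * Real.exp (-(m / (4 * x))) *
          Real.exp (-(m / (2 * x))) := by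
        rw [← Real.exp_add, ← Real.exp_add]
        congr 1
        field_simp
        ring
      have h8 : Real.exp (-(m / (4 * x))) ≤ 4 * x * ((2 : ℝ) ^ E) ^ (-(1 : ℝ)) := by
        have h9 : m / (4 * x) ≤ Real.exp (m / (4 * x)) := by
          have := Real.add_one_le_exp (m / (4 * x))
          linarith
        have h10 : 0 < m / (4 * x) := div_pos (lt_of_lt_of_le hE0 h4) (by linarith)
        rw [Real.exp_neg, Real.rpow_neg_one]
        calc (Real.exp (m / (4 * x)))⁻¹ ≤ (m / (4 * x))⁻¹ := inv_anti₀ h10 h9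
          _ = 4 * x * m⁻¹ := by rw [inv_div]; ring
          _ ≤ 4 * x * ((2 : ℝ) ^ E)⁻¹ := by
            apply mul_le_mul_of_nonneg_left (inv_anti₀ hE0 h4)
            linarith
      have h11 : Real.exp (-(m / (4 * x))) ≤ Real.exp (-(1 / (4 * x))) := by
        apply Real.exp_le_exp.2
        apply neg_le_neg
        apply div_le_div_of_nonneg_right (hE.trans h4)
        linarith
      have h12 : Real.exp (-(m / (2 * x))) ≤ Real.exp (-(m / 2)) := by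
        apply Real.exp_le_exp.2
        apply neg_le_neg
        apply div_le_div_of_nonneg_left (hE0.le.trans h4)
        · linarith
        · linarith
      rw [h7]
      have h13 : (0 : ℝ) ≤ 4 * x * ((2 : ℝ) ^ E) ^ (-(1 : ℝ)) := by positivity
      exact mul_le_mul (mul_le_mul h8 h11 (Real.exp_nonneg _) h13) h12 (Real.exp_nonneg _)
        (mul_nonneg h13 (Real.exp_nonneg _))
    calc |n2c F b z.1 * n2c F a z.2 * jk F z.1.1 z.2.1| * Real.exp (-(m / x))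
        ≤ 1 * Real.exp (-(m / x)) := mul_le_mul_of_nonneg_right h5 (Real.exp_nonneg _)
      _ ≤ _ := by rw [one_mul]; exact h6
  · rw [abs_zero]
    positivity

end

theorem n2 (h3 : SF3) (h2 : SF2) (l6 : SL6) (l5 : SL5) : SN2 := by
  classical
  intro S SF F
  obtain ⟨K, hK1, hK⟩ := h2 S SF F
  obtain ⟨C0, η0, hC0, hη0, hB⟩ := h3 S SF F
  obtain ⟨C1, hC1, h6⟩ := l6 η0 (1 / 10) hη0 (by norm_num) le_rfl
  have hK0 : 0 ≤ K := zero_le_one.trans hK1
  have h5 := l5 (gdN F.Q) (gdN F.Q) K hK0 hK hK 2 two_pos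
  set D1 : ℝ := C1 * C0 ^ ((1 : ℝ) / 10) * (1 * K ^ 2) ^ (1 - (1 : ℝ) / 10) with hD1
  set D2 : ℝ := ∑' z : (gdN F.Q).I × (gdN F.Q).I,
    Real.exp (-(((gdN F.Q).n z.1 : ℝ) * ((gdN F.Q).n z.2 : ℝ) / 2)) with hD2
  have hD10 : 0 ≤ D1 := by positivity
  have hD20 : 0 ≤ D2 := tsum_nonneg fun z => Real.exp_nonneg _
  refine ⟨D1 * Real.exp (1 / 4) + 4 * D2, min (η0 * (1 / 10)) 1, by positivity,
    lt_min (by positivity) one_pos, min_le_right _ _, ?_⟩
  intro a b ha hb E x hx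
  rw [n2_sum F a b E x]
  have hE : (1 : ℝ) ≤ 2 ^ E := one_le_pow₀ (by norm_num)
  have hp1 : ((2 : ℝ) ^ E) ^ (-(η0 * (1 / 10))) ≤
      ((2 : ℝ) ^ E) ^ (-(min (η0 * (1 / 10)) 1)) :=
    Real.rpow_le_rpow_of_exponent_le hE (neg_le_neg (min_le_left _ _))
  have hp2 : ((2 : ℝ) ^ E) ^ (-(1 : ℝ)) ≤ ((2 : ℝ) ^ E) ^ (-(min (η0 * (1 / 10)) 1)) :=
    Real.rpow_le_rpow_of_exponent_le hE (neg_le_neg (min_le_right _ _))
  set W : ℝ := ((2 : ℝ) ^ E) ^ (-(min (η0 * (1 / 10)) 1)) with hW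
  have hW0 : 0 ≤ W := by positivity
  rcases le_or_gt 1 x with hx1 | hx1
  · have h7 := h6 (gdN F.Q) (gdN F.Q) (fun e f => jk F e.1 f.1) C0 1 K hC0 zero_le_one hK0 hK hK
      (fun i j => n2_jk_le F i.1 j.1) hB (n2c F b) (n2c F a) (n2c_le F b hb) (n2c_le F a ha)
      E x hx
    have h8 : |∑' z, n2f F a b E x z| ≤ D1 * x * ((2 : ℝ) ^ E) ^ (-(η0 * (1 / 10))) := by
      refine le_trans (le_of_eq ?_) h7
      congr 1
    have h9 : 1 ≤ Real.exp (1 / 4) * Real.exp (-(1 / (4 * x))) := by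
      rw [← Real.exp_add]
      apply Real.one_le_exp
      have : 1 / (4 * x) ≤ 1 / 4 := by
        apply one_div_le_one_div_of_le (by norm_num)
        linarith
      linarith
    calc |∑' z, n2f F a b E x z| ≤ D1 * x * ((2 : ℝ) ^ E) ^ (-(η0 * (1 / 10))) := h8
      _ ≤ D1 * x * W := mul_le_mul_of_nonneg_left hp1 (by positivity)
      _ ≤ D1 * x * W * (Real.exp (1 / 4) * Real.exp (-(1 / (4 * x)))) :=
        le_mul_of_one_le_right (by positivity) h9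
      _ = D1 * Real.exp (1 / 4) * x * W * Real.exp (-(1 / (4 * x))) := by ring
      _ ≤ (D1 * Real.exp (1 / 4) + 4 * D2) * x * W * Real.exp (-(1 / (4 * x))) := by
        apply mul_le_mul_of_nonneg_right _ (Real.exp_nonneg _)
        apply mul_le_mul_of_nonneg_right _ hW0
        apply mul_le_mul_of_nonneg_right _ hx.le
        linarith
  · set c : ℝ := 4 * x * ((2 : ℝ) ^ E) ^ (-(1 : ℝ)) * Real.exp (-(1 / (4 * x))) with hc
    have h7 : HasSum (fun z : (gdN F.Q).I × (gdN F.Q).I =>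
        c * Real.exp (-(((gdN F.Q).n z.1 : ℝ) * ((gdN F.Q).n z.2 : ℝ) / 2))) (c * D2) :=
      h5.hasSum.mul_left c
    have h8 := tsum_of_norm_bounded h7 (f := fun z => n2f F a b E x z)
      (fun z => (Real.norm_eq_abs _).le.trans (n2f_le F a b ha hb E hx hx1 z))
    rw [Real.norm_eq_abs] at h8
    calc |∑' z, n2f F a b E x z| ≤ c * D2 := h8
      _ = 4 * D2 * x * ((2 : ℝ) ^ E) ^ (-(1 : ℝ)) * Real.exp (-(1 / (4 * x))) := by
        rw [hc]; ring
      _ ≤ 4 * D2 * x * W * Real.exp (-(1 / (4 * x))) := by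
        apply mul_le_mul_of_nonneg_right _ (Real.exp_nonneg _)
        exact mul_le_mul_of_nonneg_left hp2 (by positivity)
      _ ≤ (D1 * Real.exp (1 / 4) + 4 * D2) * x * W * Real.exp (-(1 / (4 * x))) := by
        apply mul_le_mul_of_nonneg_right _ (Real.exp_nonneg _)
        apply mul_le_mul_of_nonneg_right _ hW0
        apply mul_le_mul_of_nonneg_right _ hx.le
        have : 0 ≤ D1 * Real.exp (1 / 4) := by positivity
        linarith

end Pool.Agent.SK
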