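import Pool.Agent.SK.N3_e

/-!
# Malle's conjecture for 8T8 over number fields, block N, row N3: three primes, fixed rest
-/

set_option autoImplicit false

open scoped BigOperators Topology
open Filter

namespace Pool.Agent.SK

open Pool.Agent.H98.MK (sg)
open Pool.Agent.H98.MF
open Pool.Agent.H32.MQ (Qd El Qf Pk Pf)

section

variable {S SF : Sys} (F : Qc S SF)

/-- the indicator of an index -/
def d3 (I : Finset (Fin 3)) (m : Fin 3) : ZMod 2 := if m ∈ I then 1 else 0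

/-- the part of the exponent depending on one prime -/
noncomputable def U3 (a : SF.T) (R : Finset F.Q.P) (e : Finset F.Q.P) (I : Finset (Fin 3))
    (m : Fin 3) (p : F.Q.P) : ZMod 2 :=
  ∑ p' ∈ e, n3_v F p' p + d3 I m * (∑ q ∈ R, n3_v F p q + w3 F a p + n3_v F p p)

/-- the constant part -/
noncomputable def K3 (a : SF.T) (R : Finset F.Q.P) (e : Finset F.Q.P) : ZMod 2 :=
  ∑ p ∈ e, (∑ q ∈ R, n3_v F p q + w3 F a p)

/-- the part depending on two primes -/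
def V3 (I : Finset (Fin 3)) (i j : Fin 3) (p q : F.Q.P) : ZMod 2 :=
  d3 I i * n3_v F p q + d3 I j * n3_v F q p + n3_v F q p

/-- the difference of the two symbols -/
def M3 (c : F.Q.P → SF.T) (t : SF.T) (q : F.Q.P) : ZMod 2 :=
  (SF.l ⬝ᵥ t) * (SF.l ⬝ᵥ SF.ty (F.io (F.Q.cj q))) + c q ⬝ᵥ t

theorem n3_X (a : SF.T) (R : Finset F.Q.P) (e : Finset F.Q.P) (I : Finset (Fin 3))
    (P : Fin 3 → F.Q.P) : X3 F a R e I P =
      K3 F a R e + (U3 F a R e I 0 (P 0) + U3 F a R e I 1 (P 1) + U3 F a R e I 2 (P 2)) +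
        (V3 F I 0 1 (P 0) (P 1) + V3 F I 0 2 (P 0) (P 2) + V3 F I 1 2 (P 1) (P 2)) := by
  classical
  have h1 : ∑ m ∈ I, (∑ q ∈ R, n3_v F (P m) q + ∑ m', n3_v F (P m) (P m') + w3 F a (P m)) =
      ∑ m, d3 I m * (∑ q ∈ R, n3_v F (P m) q + ∑ m', n3_v F (P m) (P m') + w3 F a (P m)) := by
    unfold d3
    simp only [ite_mul, one_mul, zero_mul]
    rw [Finset.sum_ite_mem, Finset.univ_inter]
  have h2 : ∑ p ∈ e, (∑ q ∈ R, n3_v F p q + ∑ m, n3_v F p (P m) + w3 F a p) =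
      K3 F a R e + (∑ p ∈ e, n3_v F p (P 0) + ∑ p ∈ e, n3_v F p (P 1) + ∑ p ∈ e, n3_v F p (P 2)) := by
    unfold K3
    rw [← Finset.sum_add_distrib, ← Finset.sum_add_distrib, ← Finset.sum_add_distrib]
    refine Finset.sum_congr rfl fun p _ => ?_
    rw [Fin.sum_univ_three]
    ring
  unfold X3 U3 V3
  rw [h1, h2, Fin.sum_univ_three, Fin.sum_univ_three, Fin.sum_univ_three, Fin.sum_univ_three]
  ring

/-- the relation between the two symbols -/
theorem n3_M (c : F.Q.P → SF.T) (hc : ∀ q p : F.Q.P, F.Q.sh q ≠ F.Q.sh p →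
    SF.J (F.io q) (F.io (F.Q.cj p)) = SF.J (F.io (F.Q.cj q)) (F.io p) + c q ⬝ᵥ SF.ty (F.io p))
    (p q : F.Q.P) (h : F.Q.sh p ≠ F.Q.sh q) :
    n3_v F p q = n3_v F q p + M3 F c (SF.ty (F.io p)) q := by
  have h1 := hc q p h.symm
  have hne : F.io (F.Q.cj q) ≠ F.io p := by
    intro h2
    have h3 := F.io_inj h2
    apply h
    rw [← h3, F.Q.sh_cj]
  have h2 := SF.recip (F.io (F.Q.cj q)) (F.io p) hne
  unfold n3_v M3
  rw [h1]
  have h3 : ∀ x y z w : ZMod 2, x + y = z * w → ∀ u : ZMod 2, x + u = y + (w * z + u) := by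
    decide
  exact h3 _ _ _ _ h2 _

theorem n3_dbl : ∀ d m v : ZMod 2, d * (v + m) + d * v + v = v + d * m := by decide

open Classical in
/-- summability -/
theorem n3_summ (l4 : SL4) (K : ℝ) (hK : 0 ≤ K) (hL : (gdN F.Q).Lin K) (x : ℝ) (hx : 0 < x)
    (e : F.Q.P × (F.Q.P × F.Q.P) ≃ (Fin 3 → F.Q.P)) (i j l : Fin 3) (hij : i ≠ j) (hil : i ≠ l)
    (hjl : j ≠ l) (he : ∀ z, e z l = z.1 ∧ e z i = z.2.1 ∧ e z j = z.2.2)
    (Pp : Set F.Q.P) (R : Finset F.Q.P) (t : Fin 3 → SF.T) (E : ℕ)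
    (h : (Fin 3 → F.Q.P) → ℝ) (hh : ∀ P, |h P| ≤ 1) :
    Summable fun P : Fin 3 → F.Q.P => (if W3 F Pp R t E P then
      h P * Real.exp (-((F.Q.nq (uT F R P) : ℝ) / x)) else 0) := by
  refine Summable.of_norm_bounded (n3_sum_e F l4 K hK hL x hx e i j l hij hil hjl he)
    fun P => ?_
  rw [Real.norm_eq_abs]
  split_ifs with hW
  · rw [abs_mul, abs_of_pos (Real.exp_pos _)]
    calc |h P| * Real.exp (-((F.Q.nq (uT F R P) : ℝ) / x))
        ≤ 1 * Real.exp (-((F.Q.nq (uT F R P) : ℝ) / x)) :=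
          mul_le_mul_of_nonneg_right (hh P) (Real.exp_pos _).le
      _ ≤ n3_g F x P := by
          rw [one_mul]
          exact n3_le_g F Pp R P hW.1 x hx
  · rw [abs_zero]
    exact Finset.prod_nonneg fun m _ => (Real.exp_pos _).le

/-- the third index first: `l = 2` -/
def eq2 : F.Q.P × (F.Q.P × F.Q.P) ≃ (Fin 3 → F.Q.P) where
  toFun z := ![z.2.1, z.2.2, z.1]
  invFun P := (P 2, (P 0, P 1))
  left_inv _ := rfl
  right_inv P := by
    funext m
    fin_cases m <;> rfl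

/-- the third index first: `l = 1` -/
def eq1 : F.Q.P × (F.Q.P × F.Q.P) ≃ (Fin 3 → F.Q.P) where
  toFun z := ![z.2.1, z.1, z.2.2]
  invFun P := (P 1, (P 0, P 2))
  left_inv _ := rfl
  right_inv P := by
    funext m
    fin_cases m <;> rfl

/-- the third index first: `l = 0` -/
def eq0 : F.Q.P × (F.Q.P × F.Q.P) ≃ (Fin 3 → F.Q.P) where
  toFun z := ![z.1, z.2.1, z.2.2]
  invFun P := (P 0, (P 1, P 2))
  left_inv _ := rfl
  right_inv P := by
    funext m
    fin_cases m <;> rfl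

theorem n3_bd (u v : ℝ) (a : ZMod 2) (hu : |u| ≤ 1) (hv : |v| ≤ 1) :
    |u * v * ((sg a : ℤ) : ℝ)| ≤ 1 := by
  rw [abs_mul, abs_mul, n3_sg, mul_one]
  exact mul_le_one₀ hu (abs_nonneg _) hv

theorem n3_bd1 (u : ℝ) (a : ZMod 2) (hu : |u| ≤ 1) : |u * ((sg a : ℤ) : ℝ)| ≤ 1 := by
  rw [abs_mul, n3_sg, mul_one]
  exact hu

open Classical in
/-- one term of the expansion -/
theorem n3_one_term (_C' _η : ℝ) (Pp : Set F.Q.P) (R : Finset F.Q.P) (t : Fin 3 → SF.T) (E : ℕ)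
    (x B : ℝ)
    (hcore : ∀ (e : F.Q.P × (F.Q.P × F.Q.P) ≃ (Fin 3 → F.Q.P))
    (i j l : Fin 3), i ≠ j → i ≠ l → j ≠ l →
    (∀ z, e z l = z.1 ∧ e z i = z.2.1 ∧ e z j = z.2.2) →
    ∀ (f g : F.Q.P → F.Q.P → ℝ), (∀ p q, |f p q| ≤ 1) → (∀ p q, |g p q| ≤ 1) →
      |∑' P : Fin 3 → F.Q.P, (if W3 F Pp R t E P then f (P l) (P i) * g (P l) (P j) *
        ((sg (SF.J (F.io (P i)) (F.io (F.Q.cj (P j)))) : ℤ) : ℝ) *
          Real.exp (-((F.Q.nq (uT F R P) : ℝ) / x)) else 0)| ≤ B)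
    (c : F.Q.P → SF.T) (hc : ∀ q p : F.Q.P, F.Q.sh q ≠ F.Q.sh p →
    SF.J (F.io q) (F.io (F.Q.cj p)) = SF.J (F.io (F.Q.cj q)) (F.io p) + c q ⬝ᵥ SF.ty (F.io p))
    (a : SF.T) (e : Finset F.Q.P) (I : Finset (Fin 3)) (α : Fin 3 → F.Q.P → ℝ)
    (hα : ∀ i p, |α i p| ≤ 1) :
    |∑' P : Fin 3 → F.Q.P, (if W3 F Pp R t E P then
      ((∏ i, α i (P i)) * ((sg (X3 F a R e I P) : ℤ) : ℝ)) *
          Real.exp (-((F.Q.nq (uT F R P) : ℝ) / x)) else 0)| ≤ B := by
  have hpair : ∀ (P : Fin 3 → F.Q.P), W3 F Pp R t E P → ∀ i j : Fin 3, i ≠ j →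
      d3 I i = d3 I j → V3 F I i j (P i) (P j) = n3_v F (P j) (P i) + d3 I i * M3 F c (t i) (P j) := by
    intro P hW i j hij hd
    have h1 := n3_M F c hc (P i) (P j) (hW.1.ne i j hij)
    rw [hW.2.2 i] at h1
    unfold V3
    rw [← hd, h1, n3_dbl]
  have hcases : d3 I 0 = d3 I 1 ∨ d3 I 0 = d3 I 2 ∨ d3 I 1 = d3 I 2 := by
    generalize d3 I 0 = u
    generalize d3 I 1 = v
    generalize d3 I 2 = w
    revert u v w
    decide
  have hJ : ∀ p q : F.Q.P, SF.J (F.io p) (F.io (F.Q.cj q)) = n3_v F q p := fun _ _ => rfl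
  rcases hcases with hd | hd | hd
  · have h1 := hcore (eq2 F) 0 1 2 (by decide) (by decide) (by decide)
      (fun z => ⟨rfl, rfl, rfl⟩)
      (fun q p => α 2 q * α 0 p * ((sg (K3 F a R e + U3 F a R e I 2 q + U3 F a R e I 0 p +
        V3 F I 0 2 p q) : ℤ) : ℝ))
      (fun q p => α 1 p * ((sg (U3 F a R e I 1 p + V3 F I 1 2 p q + d3 I 0 * M3 F c (t 0) p)
        : ℤ) : ℝ))
      (fun p q => n3_bd _ _ _ (hα _ _) (hα _ _)) (fun p q => n3_bd1 _ _ (hα _ _))
    refine le_trans (le_of_eq ?_) h1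
    congr 1
    refine tsum_congr fun P => ?_
    by_cases hW : W3 F Pp R t E P
    · rw [if_pos hW, if_pos hW, n3_X, hpair P hW 0 1 (by decide) hd, Fin.prod_univ_three, hJ]
      simp only [n3_sgadd]
      ring
    · rw [if_neg hW, if_neg hW]
  · have h1 := hcore (eq1 F) 0 2 1 (by decide) (by decide) (by decide)
      (fun z => ⟨rfl, rfl, rfl⟩)
      (fun q p => α 1 q * α 0 p * ((sg (K3 F a R e + U3 F a R e I 1 q + U3 F a R e I 0 p +
        V3 F I 0 1 p q) : ℤ) : ℝ))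
      (fun q p => α 2 p * ((sg (U3 F a R e I 2 p + V3 F I 1 2 q p + d3 I 0 * M3 F c (t 0) p)
        : ℤ) : ℝ))
      (fun p q => n3_bd _ _ _ (hα _ _) (hα _ _)) (fun p q => n3_bd1 _ _ (hα _ _))
    refine le_trans (le_of_eq ?_) h1
    congr 1
    refine tsum_congr fun P => ?_
    by_cases hW : W3 F Pp R t E P
    · rw [if_pos hW, if_pos hW, n3_X, hpair P hW 0 2 (by decide) hd, Fin.prod_univ_three, hJ]
      simp only [n3_sgadd]
      ring
    · rw [if_neg hW, if_neg hW]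
  · have h1 := hcore (eq0 F) 1 2 0 (by decide) (by decide) (by decide)
      (fun z => ⟨rfl, rfl, rfl⟩)
      (fun q p => α 0 q * α 1 p * ((sg (K3 F a R e + U3 F a R e I 0 q + U3 F a R e I 1 p +
        V3 F I 0 1 q p) : ℤ) : ℝ))
      (fun q p => α 2 p * ((sg (U3 F a R e I 2 p + V3 F I 0 2 q p + d3 I 1 * M3 F c (t 1) p)
        : ℤ) : ℝ))
      (fun p q => n3_bd _ _ _ (hα _ _) (hα _ _)) (fun p q => n3_bd1 _ _ (hα _ _))
    refine le_trans (le_of_eq ?_) h1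
    congr 1
    refine tsum_congr fun P => ?_
    by_cases hW : W3 F Pp R t E P
    · rw [if_pos hW, if_pos hW, n3_X, hpair P hW 1 2 (by decide) hd, Fin.prod_univ_three, hJ]
      simp only [n3_sgadd]
      ring
    · rw [if_neg hW, if_neg hW]

end

/-- N3: three primes, fixed rest, arbitrary coefficients -/
theorem n3 (n2 : SN2) (h2 : SF2) (l4 : SL4) : SN3 := by
  classical
  intro S SF F hcj
  obtain ⟨c, hc⟩ := hcj
  obtain ⟨C, η, hC, hη, hη1, hn2⟩ := n2 S SF F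
  obtain ⟨K, hK, hL⟩ := h2 S SF F
  obtain ⟨C', hC', hcore⟩ := n3_core F C η hC (fun a b ha hb E x hx => by
    have h := hn2 a b ha hb E x hx
    refine le_trans (le_of_eq ?_) h
    rfl) l4 K (by linarith) hL
  refine ⟨8 * C', η, by positivity, hη, hη1, ?_⟩
  intro Pp a R hR t α hα E x hx
  have hterm := fun (e : Finset F.Q.P) (I : Finset (Fin 3)) =>
    n3_one_term F C' η Pp R t E x _ (fun e i j l hij hil hjl he f g hf hg =>
      hcore Pp R t E e i j l hij hil hjl he f g hf hg x hx) c hc a e I α hα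
  have hs := fun (e : Finset F.Q.P) (I : Finset (Fin 3)) =>
    n3_summ F l4 K (by linarith) hL x hx (eq2 F) 0 1 2 (by decide) (by decide) (by decide)
      (fun z => ⟨rfl, rfl, rfl⟩) Pp R t E
      (fun P => (∏ i, α i (P i)) * ((sg (X3 F a R e I P) : ℤ) : ℝ)) (fun P => by
        refine n3_bd1 _ _ ?_
        rw [Finset.abs_prod]
        exact Finset.prod_le_one (fun i _ => abs_nonneg _) fun i _ => hα _ _)
  have heq : (fun P : Fin 3 → F.Q.P => (if Tri F Pp R P ∧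
      (∀ i, 2 ^ E ≤ S.N (F.Q.sh (P i))) ∧ (∀ i, SF.ty (F.io (P i)) = t i) then
        prc F.Q (F.el a (uT F R P)) (uT F R P) * (∏ i, α i (P i)) * kT F P *
          Real.exp (-((F.Q.nq (uT F R P) : ℝ) / x)) else 0)) =
      fun P => ∑ e ∈ R.powerset, ∑ I ∈ (Finset.univ : Finset (Fin 3)).powerset,
        (if W3 F Pp R t E P then
          ((∏ i, α i (P i)) * ((sg (X3 F a R e I P) : ℤ) : ℝ)) *
            Real.exp (-((F.Q.nq (uT F R P) : ℝ) / x)) else 0) := by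
    funext P
    by_cases hW : W3 F Pp R t E P
    · rw [if_pos (show Tri F Pp R P ∧ (∀ i, 2 ^ E ≤ S.N (F.Q.sh (P i))) ∧
        (∀ i, SF.ty (F.io (P i)) = t i) from hW)]
      simp only [if_pos hW]
      have h3 := n3_expand F Pp a R hR P hW.1
      calc _ = (∏ i, α i (P i)) * (prc F.Q (F.el a (uT F R P)) (uT F R P) * kT F P) *
            Real.exp (-((F.Q.nq (uT F R P) : ℝ) / x)) := by ring
        _ = _ := by
          rw [h3, Finset.mul_sum, Finset.sum_mul]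
          refine Finset.sum_congr rfl fun e _ => ?_
          rw [Finset.mul_sum, Finset.sum_mul]
    · rw [if_neg (show ¬ (Tri F Pp R P ∧ (∀ i, 2 ^ E ≤ S.N (F.Q.sh (P i))) ∧
        (∀ i, SF.ty (F.io (P i)) = t i)) from hW)]
      simp only [if_neg hW, Finset.sum_const_zero]
  have hgoal : |∑' P : Fin 3 → F.Q.P, ∑ e ∈ R.powerset,
      ∑ I ∈ (Finset.univ : Finset (Fin 3)).powerset,
        (if W3 F Pp R t E P then
          ((∏ i, α i (P i)) * ((sg (X3 F a R e I P) : ℤ) : ℝ)) *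
            Real.exp (-((F.Q.nq (uT F R P) : ℝ) / x)) else 0)| ≤
      8 * C' * 2 ^ R.card * ((2 : ℝ) ^ E) ^ (-η) *
          (x / F.Q.nq R * (1 + Real.log (1 + x / F.Q.nq R)) *
            Real.exp (-((F.Q.nq R : ℝ) / (8 * x)))) := by
    rw [Summable.tsum_finsetSum fun e _ => summable_sum fun I _ => hs e I]
    have h3 : ∀ e ∈ R.powerset, ∑' P : Fin 3 → F.Q.P,
        ∑ I ∈ (Finset.univ : Finset (Fin 3)).powerset,
        (if W3 F Pp R t E P then
          ((∏ i, α i (P i)) * ((sg (X3 F a R e I P) : ℤ) : ℝ)) *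
            Real.exp (-((F.Q.nq (uT F R P) : ℝ) / x)) else 0) =
        ∑ I ∈ (Finset.univ : Finset (Fin 3)).powerset, ∑' P : Fin 3 → F.Q.P,
        (if W3 F Pp R t E P then
          ((∏ i, α i (P i)) * ((sg (X3 F a R e I P) : ℤ) : ℝ)) *
            Real.exp (-((F.Q.nq (uT F R P) : ℝ) / x)) else 0) :=
      fun e _ => Summable.tsum_finsetSum fun I _ => hs e I
    rw [Finset.sum_congr rfl h3]
    refine (Finset.abs_sum_le_sum_abs _ _).trans ?_
    have h4 : ∀ e ∈ R.powerset, |∑ I ∈ (Finset.univ : Finset (Fin 3)).powerset,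
        ∑' P : Fin 3 → F.Q.P, (if W3 F Pp R t E P then
          ((∏ i, α i (P i)) * ((sg (X3 F a R e I P) : ℤ) : ℝ)) *
            Real.exp (-((F.Q.nq (uT F R P) : ℝ) / x)) else 0)| ≤
        8 * (C' * ((2 : ℝ) ^ E) ^ (-η) * (x / F.Q.nq R * (1 + Real.log (1 + x / F.Q.nq R)) *
          Real.exp (-((F.Q.nq R : ℝ) / (8 * x))))) := by
      intro e _
      refine (Finset.abs_sum_le_sum_abs _ _).trans ?_
      refine (Finset.sum_le_sum fun I _ => hterm e I).trans ?_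
      rw [Finset.sum_const, Finset.card_powerset, Finset.card_univ, Fintype.card_fin,
        nsmul_eq_mul]
      norm_num
    refine (Finset.sum_le_sum h4).trans ?_
    rw [Finset.sum_const, Finset.card_powerset, nsmul_eq_mul]
    push_cast
    refine le_of_eq ?_
    ring
  rw [← heq] at hgoal
  exact hgoal

end Pool.Agent.SK
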