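import Pool.Agent.SK.NDefs
import Pool.Agent.H32.MQ.UA

/-!
# Malle's conjecture for 8T8 over number fields: the sum over the rest (row N4)
-/

set_option autoImplicit false

open scoped BigOperators Topology
open Filter

namespace Pool.Agent.SK

open Pool.Agent.H98.MK (sg)
open Pool.Agent.H98.MF
open Pool.Agent.H32.MQ (Qd El Qf Pk Pf ua_summable_sh)

theorem n4_sum3 {ι : Type*} (h : ι → ℝ) (h0 : ∀ p, 0 ≤ h p) (hs : Summable h) :
    Summable fun P : Fin 3 → ι => ∏ i, h (P i) := by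
  classical
  refine summable_of_sum_le (c := (∑' p, h p) ^ 3)
    (fun P => Finset.prod_nonneg fun i _ => h0 _) fun s => ?_
  calc ∑ P ∈ s, ∏ i, h (P i) ≤
        ∑ P ∈ Fintype.piFinset (fun i : Fin 3 => s.image fun P => P i), ∏ i, h (P i) := by
        refine Finset.sum_le_sum_of_subset_of_nonneg (fun P hP => ?_)
          fun P _ _ => Finset.prod_nonneg fun i _ => h0 _
        rw [Fintype.mem_piFinset]
        exact fun i => Finset.mem_image_of_mem _ hP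
    _ = ∏ i : Fin 3, ∑ p ∈ s.image (fun P => P i), h p := by
        rw [Finset.prod_univ_sum]
    _ ≤ ∏ _i : Fin 3, ∑' p, h p :=
        Finset.prod_le_prod (fun i _ => Finset.sum_nonneg fun p _ => h0 p)
          fun i _ => hs.sum_le_tsum _ fun p _ => h0 p
    _ = (∑' p, h p) ^ 3 := by simp

theorem n4_exp {m n x : ℝ} (hm : 0 < m) (hn : m ≤ n) (hx : 0 < x) :
    Real.exp (-(n / x)) ≤ 2 * x ^ 2 * m ^ (-(2 : ℝ)) := by
  have h1 : Real.exp (-(n / x)) ≤ Real.exp (-(m / x)) := by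
    refine Real.exp_le_exp.2 (neg_le_neg ?_)
    exact div_le_div_of_nonneg_right hn hx.le
  have h2 : 0 < m / x := div_pos hm hx
  have h3 := Real.quadratic_le_exp_of_nonneg h2.le
  have h4 : (m / x) ^ 2 / 2 ≤ Real.exp (m / x) := by linarith
  have h5 : Real.exp (-(m / x)) ≤ ((m / x) ^ 2 / 2)⁻¹ := by
    rw [Real.exp_neg]
    exact inv_anti₀ (by positivity) h4
  refine h1.trans (h5.trans (le_of_eq ?_))
  rw [Real.rpow_neg hm.le]
  norm_cast
  field_simp

section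

variable {S SF : Sys} (F : Qc S SF)

theorem n4_inj {Pp : Set F.Q.P} {R : Finset F.Q.P} {P : Fin 3 → F.Q.P} (h : Tri F Pp R P) :
    Function.Injective fun i => F.Q.sh (P i) := fun i j hij => by
  by_contra hne
  exact h.ne i j hne hij

theorem n4_nq {Pp : Set F.Q.P} {R : Finset F.Q.P} {P : Fin 3 → F.Q.P} (h : Tri F Pp R P) :
    ∏ i, (S.N (F.Q.sh (P i)) : ℝ) ≤ (F.Q.nq (uT F R P) : ℝ) := by
  classical
  have h1 : ∏ i, S.N (F.Q.sh (P i)) = S.nm (Finset.univ.image fun i => F.Q.sh (P i)) := by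
    show _ = ∏ p ∈ Finset.univ.image (fun i => F.Q.sh (P i)), S.N p
    rw [Finset.prod_image fun i _ j _ hij => n4_inj F h hij]
  have h2 : (Finset.univ.image fun i => F.Q.sh (P i)) ⊆ F.Q.shd (uT F R P) := by
    intro p hp
    obtain ⟨i, _, rfl⟩ := Finset.mem_image.1 hp
    refine Finset.mem_image_of_mem _ ?_
    exact Finset.mem_union_right _ (Finset.mem_image_of_mem _ (Finset.mem_univ i))
  have h3 : ∏ i, S.N (F.Q.sh (P i)) ≤ F.Q.nq (uT F R P) := by
    rw [h1]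
    exact S.nm_mono h2
  exact_mod_cast h3

theorem n4_card (R : Finset F.Q.P) (P : Fin 3 → F.Q.P) : (uT F R P).card ≤ R.card + 3 := by
  classical
  have h1 : (R ∪ Finset.univ.image P).card ≤ R.card + (Finset.univ.image P).card :=
    Finset.card_union_le _ _
  have h2 : (Finset.univ.image P).card ≤ 3 := by
    simpa using Finset.card_image_le (s := (Finset.univ : Finset (Fin 3))) (f := P)
  have h3 : (uT F R P).card ≤ R.card + (Finset.univ.image P).card := by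
    refine le_trans (le_of_eq ?_) h1
    unfold uT
    congr 1
  omega

theorem n4_sg (z : ZMod 2) : |((sg z : ℤ) : ℝ)| = 1 := by
  have h : ∀ z : ZMod 2, z = 0 ∨ z = 1 := by decide
  rcases h z with rfl | rfl <;> simp [sg]

theorem n4_prc (γ : F.Q.G) (g : Finset F.Q.P) : |prc F.Q γ g| ≤ 2 ^ g.card := by
  unfold prc
  rw [Finset.abs_prod, ← Finset.prod_const]
  refine Finset.prod_le_prod (fun p _ => abs_nonneg _) fun p _ => ?_
  refine (abs_add_le _ _).trans ?_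
  rw [n4_sg, abs_one]
  norm_num

open Classical in
/-- the summand -/
noncomputable def n4T (Pp : Set F.Q.P) (E : ℕ) (x : ℝ) (a : SF.T) (R : Finset F.Q.P)
    (t : Fin 3 → SF.T) (α : Fin 3 → F.Q.P → ℝ) (P : Fin 3 → F.Q.P) : ℝ :=
  if Tri F Pp R P ∧ (∀ i, 2 ^ E ≤ S.N (F.Q.sh (P i))) ∧ (∀ i, SF.ty (F.io (P i)) = t i) then
    prc F.Q (F.el a (uT F R P)) (uT F R P) * (∏ i, α i (P i)) * kT F P *
      Real.exp (-((F.Q.nq (uT F R P) : ℝ) / x)) else 0

theorem n4_summ (Pp : Set F.Q.P) (E : ℕ) {x : ℝ} (hx : 0 < x) (a : SF.T) (R : Finset F.Q.P)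
    (t : Fin 3 → SF.T) (α : Fin 3 → F.Q.P → ℝ) (hα : ∀ i p, |α i p| ≤ 1) :
    Summable (n4T F Pp E x a R t α) := by
  have h1 := ua_summable_sh F.Q 2 one_lt_two
  have h2 := n4_sum3 (fun p : F.Q.P => (S.N (F.Q.sh p) : ℝ) ^ (-(2 : ℝ)))
    (fun p => Real.rpow_nonneg (Nat.cast_nonneg _) _) h1
  refine Summable.of_norm_bounded (h2.mul_left (2 ^ (R.card + 3) * (2 * x ^ 2))) fun P => ?_
  rw [Real.norm_eq_abs]
  have h0 : (0 : ℝ) ≤ ∏ i, (S.N (F.Q.sh (P i)) : ℝ) ^ (-(2 : ℝ)) :=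
    Finset.prod_nonneg fun i _ => Real.rpow_nonneg (Nat.cast_nonneg _) _
  unfold n4T
  split_ifs with h
  · have hm : (0 : ℝ) < ∏ i, (S.N (F.Q.sh (P i)) : ℝ) :=
      Finset.prod_pos fun i _ => by exact_mod_cast S.one_le_N _
    have h3 := n4_exp hm (n4_nq F h.1) hx
    have h4 : (∏ i, (S.N (F.Q.sh (P i)) : ℝ)) ^ (-(2 : ℝ)) =
        ∏ i, (S.N (F.Q.sh (P i)) : ℝ) ^ (-(2 : ℝ)) :=
      (Real.finsetProd_rpow _ _ (fun i _ => Nat.cast_nonneg _) _).symm
    rw [h4] at h3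
    have h5 : |prc F.Q (F.el a (uT F R P)) (uT F R P)| ≤ 2 ^ (R.card + 3) :=
      (n4_prc F _ _).trans (pow_le_pow_right₀ (by norm_num) (n4_card F R P))
    have h6 : |∏ i, α i (P i)| ≤ 1 := by
      rw [Finset.abs_prod]
      exact Finset.prod_le_one (fun i _ => abs_nonneg _) fun i _ => hα i _
    have h7 : |kT F P| = 1 := n4_sg _
    rw [abs_mul, abs_mul, abs_mul, h7, mul_one, abs_of_pos (Real.exp_pos _), mul_assoc _ _
      (∏ i, (S.N (F.Q.sh (P i)) : ℝ) ^ (-(2 : ℝ)))]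
    refine mul_le_mul ?_ h3 (Real.exp_pos _).le (by positivity)
    calc |prc F.Q (F.el a (uT F R P)) (uT F R P)| * |∏ i, α i (P i)| ≤
          2 ^ (R.card + 3) * 1 := mul_le_mul h5 h6 (abs_nonneg _) (by positivity)
      _ = 2 ^ (R.card + 3) := mul_one _
  · rw [abs_zero]
    positivity

/-- the sum over three primes in terms of the slices -/
theorem n4_tri (Pp : Set F.Q.P) (τ : F.Q.G → ℝ) (E : ℕ) {x : ℝ} (hx : 0 < x)
    (R : Finset F.Q.P) (κ : SF.T → (Fin 3 → SF.T) → ℝ)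
    (α : SF.T → (Fin 3 → SF.T) → Fin 3 → F.Q.P → ℝ) (hα : ∀ a t i p, |α a t i p| ≤ 1)
    (hP : ∀ a t, ∀ P : Fin 3 → F.Q.P, Tri F Pp R P → (∀ i, SF.ty (F.io (P i)) = t i) →
      2 ^ (uT F R P).card * τ (F.el a (uT F R P)) =
        κ a t * prc F.Q (F.el a (uT F R P)) (uT F R P) * (∏ i, α a t i (P i)) * kT F P) :
    tri F Pp τ (2 ^ E) x R = ∑ a, ∑ t, κ a t * ∑' P, n4T F Pp E x a R t (α a t) P := by
  classical
  have h1 : ∀ P : Fin 3 → F.Q.P, (∑ a, ∑ t, κ a t * n4T F Pp E x a R t (α a t) P) =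
      if Tri F Pp R P ∧ (∀ i, (2 : ℝ) ^ E ≤ (S.N (F.Q.sh (P i)) : ℝ)) then
        tN F τ (uT F R P) * Real.exp (-((F.Q.nq (uT F R P) : ℝ) / x)) else 0 := by
    intro P
    split_ifs with h
    · have h2 : ∀ i, 2 ^ E ≤ S.N (F.Q.sh (P i)) := fun i => by exact_mod_cast h.2 i
      unfold tN
      rw [Finset.mul_sum, Finset.sum_mul]
      refine Finset.sum_congr rfl fun a _ => ?_
      rw [Finset.sum_eq_single (fun i => SF.ty (F.io (P i)))]
      · unfold n4T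
        rw [if_pos ⟨h.1, h2, fun _ => rfl⟩, hP a _ P h.1 (fun _ => rfl)]
        ring
      · intro t _ ht
        unfold n4T
        rw [if_neg (fun h3 => ht (funext fun i => (h3.2.2 i).symm)), mul_zero]
      · intro h3
        exact absurd (Finset.mem_univ _) h3
    · refine Finset.sum_eq_zero fun a _ => Finset.sum_eq_zero fun t _ => ?_
      unfold n4T
      rw [if_neg (fun h3 => h ⟨h3.1, fun i => by exact_mod_cast h3.2.1 i⟩), mul_zero]
  have h2 : tri F Pp τ (2 ^ E) x R =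
      ∑' P : Fin 3 → F.Q.P, ∑ a, ∑ t, κ a t * n4T F Pp E x a R t (α a t) P := by
    unfold tri
    refine tsum_congr fun P => ?_
    rw [h1 P]
  have h3 : ∀ a t, Summable fun P => κ a t * n4T F Pp E x a R t (α a t) P := fun a t =>
    (n4_summ F Pp E hx a R t (α a t) (hα a t)).mul_left _
  rw [h2, Summable.tsum_finsetSum fun a _ => summable_sum fun t _ => h3 a t]
  refine Finset.sum_congr rfl fun a _ => ?_
  rw [Summable.tsum_finsetSum fun t _ => h3 a t]
  exact Finset.sum_congr rfl fun t _ => tsum_mul_left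

end

/-- N4: the sum over the rest for given `z` -/
theorem n4 (n3 : SN3) (n5 : SN5) : SN4 := by
  classical
  intro S SF F hcj
  obtain ⟨C, η, hC, hη, _, h3⟩ := n3 S SF F hcj
  obtain ⟨C5, hC5, h5⟩ := n5 S SF F
  obtain ⟨M, hM⟩ : ∃ M : ℝ, M = (Fintype.card SF.T : ℝ) * (Fintype.card (Fin 3 → SF.T) : ℝ) :=
    ⟨_, rfl⟩
  have hM0 : 0 ≤ M := by
    rw [hM]
    positivity
  refine ⟨M * C * C5, η, by positivity, hη, ?_⟩
  intro Pp τ D hD _ hS w hw E x hx
  have hx0 : 0 < x := by linarith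
  obtain ⟨s5, t5⟩ := h5 x hx
  have hE : (0 : ℝ) ≤ ((2 : ℝ) ^ E) ^ (-η) := Real.rpow_nonneg (by positivity) _
  have key : ∀ R : (gdN F.Q).I, |tri F Pp τ (2 ^ E) x R.1| ≤ M * D * C * ((2 : ℝ) ^ E) ^ (-η) *
      ((2 : ℝ) ^ R.1.card * (x / F.Q.nq R.1 * (1 + Real.log (1 + x / F.Q.nq R.1)) *
        Real.exp (-((F.Q.nq R.1 : ℝ) / (8 * x))))) := by
    intro R
    choose κ α hκ hα hP using fun a t => hS a R.1 R.2 t
    rw [n4_tri F Pp τ E hx0 R.1 κ α hα hP]
    have h1 : ∀ a t, |κ a t * ∑' P, n4T F Pp E x a R.1 t (α a t) P| ≤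
        D * (C * 2 ^ R.1.card * ((2 : ℝ) ^ E) ^ (-η) *
          (x / F.Q.nq R.1 * (1 + Real.log (1 + x / F.Q.nq R.1)) *
            Real.exp (-((F.Q.nq R.1 : ℝ) / (8 * x))))) := by
      intro a t
      rw [abs_mul]
      refine mul_le_mul (hκ a t) ?_ (abs_nonneg _) hD
      have h2 := h3 Pp a R.1 R.2 t (α a t) (hα a t) E x hx0
      refine le_trans (le_of_eq ?_) h2
      congr 1
    refine (Finset.abs_sum_le_sum_abs _ _).trans ?_
    refine (Finset.sum_le_sum fun a _ => (Finset.abs_sum_le_sum_abs _ _).trans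
      (Finset.sum_le_sum fun t _ => h1 a t)).trans (le_of_eq ?_)
    rw [Finset.sum_const, Finset.sum_const, nsmul_eq_mul, nsmul_eq_mul, Finset.card_univ,
      Finset.card_univ, hM]
    ring
  have h6 : Summable fun R : (gdN F.Q).I => M * D * C * ((2 : ℝ) ^ E) ^ (-η) *
      ((2 : ℝ) ^ R.1.card * (x / F.Q.nq R.1 * (1 + Real.log (1 + x / F.Q.nq R.1)) *
        Real.exp (-((F.Q.nq R.1 : ℝ) / (8 * x))))) := s5.mul_left _
  have h7 : ∀ R : (gdN F.Q).I, |w R.1 * tri F Pp τ (2 ^ E) x R.1| ≤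
      M * D * C * ((2 : ℝ) ^ E) ^ (-η) *
      ((2 : ℝ) ^ R.1.card * (x / F.Q.nq R.1 * (1 + Real.log (1 + x / F.Q.nq R.1)) *
        Real.exp (-((F.Q.nq R.1 : ℝ) / (8 * x))))) := by
    intro R
    rw [abs_mul, abs_of_nonneg (hw R.1).1]
    calc w R.1 * |tri F Pp τ (2 ^ E) x R.1| ≤ 1 * |tri F Pp τ (2 ^ E) x R.1| :=
          mul_le_mul_of_nonneg_right (hw R.1).2 (abs_nonneg _)
      _ ≤ _ := by
          rw [one_mul]
          exact key R
  have h8 : |∑' R : (gdN F.Q).I, w R.1 * tri F Pp τ (2 ^ E) x R.1| ≤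
      ∑' R : (gdN F.Q).I, M * D * C * ((2 : ℝ) ^ E) ^ (-η) *
      ((2 : ℝ) ^ R.1.card * (x / F.Q.nq R.1 * (1 + Real.log (1 + x / F.Q.nq R.1)) *
        Real.exp (-((F.Q.nq R.1 : ℝ) / (8 * x))))) := by
    have h9 := tsum_of_norm_bounded h6.hasSum (f := fun R : (gdN F.Q).I =>
      w R.1 * tri F Pp τ (2 ^ E) x R.1) (fun R => by rw [Real.norm_eq_abs]; exact h7 R)
    rwa [Real.norm_eq_abs] at h9
  refine h8.trans ?_
  rw [tsum_mul_left]
  have h10 : 0 ≤ M * D * C * ((2 : ℝ) ^ E) ^ (-η) := by positivity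
  refine (mul_le_mul_of_nonneg_left t5 h10).trans (le_of_eq ?_)
  ring

end Pool.Agent.SK
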