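import Pool.Agent.SK.NDefs
import Pool.Agent.SK.G1

/-!
# Malle's conjecture for 8T8 over number fields, row N5: sums over good sets with the number of
divisors
-/

set_option autoImplicit false

open scoped BigOperators Topology
open Filter

namespace Pool.Agent.SK

open Pool.Agent.H98.MF
open Pool.Agent.H32.MQ (Qd)

/-- one variable, exponent `1 + σ` -/
private theorem n5_one (A : Nm) {K σ : ℝ} (hK : 0 ≤ K) (hA : A.Lin K) (hσ : 0 < σ) :
    (Summable fun i => (A.n i : ℝ) ^ (-(1 + σ))) ∧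
      ∑' i, (A.n i : ℝ) ^ (-(1 + σ)) ≤ 2 * K * (1 - (2 : ℝ) ^ (-σ))⁻¹ := by
  classical
  set r : ℝ := (2 : ℝ) ^ (-σ) with hr
  have hr0 : 0 ≤ r := (Real.rpow_pos_of_pos two_pos _).le
  have hr1 : r < 1 := Real.rpow_lt_one_of_one_lt_of_neg one_lt_two (by linarith)
  have hfin : ∀ u : Finset A.I, ∑ i ∈ u, (A.n i : ℝ) ^ (-(1 + σ)) ≤ 2 * K * (1 - r)⁻¹ := by
    intro u
    have hmaps : ∀ i ∈ u, Nat.log 2 (A.n i) ∈
        Finset.range (u.sup (fun i => Nat.log 2 (A.n i)) + 1) := by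
      intro i hi
      rw [Finset.mem_range]
      exact Nat.lt_succ_of_le (Finset.le_sup (f := fun i => Nat.log 2 (A.n i)) hi)
    rw [← Finset.sum_fiberwise_of_maps_to hmaps]
    have hp : ∀ p : ℕ, ∑ i ∈ u.filter (fun i => Nat.log 2 (A.n i) = p),
        (A.n i : ℝ) ^ (-(1 + σ)) ≤ 2 * K * r ^ p := by
      intro p
      have h1 : ∀ i ∈ u.filter (fun i => Nat.log 2 (A.n i) = p),
          (A.n i : ℝ) ^ (-(1 + σ)) ≤ ((2 : ℝ) ^ p) ^ (-(1 + σ)) := by
        intro i hi
        obtain ⟨-, h2⟩ := Finset.mem_filter.1 hi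
        have h3 : 2 ^ p ≤ A.n i := by
          rw [← h2]
          exact Nat.pow_log_le_self 2 (by have := A.one_le i; omega)
        have h4 : (2 : ℝ) ^ p ≤ A.n i := by exact_mod_cast h3
        exact Real.rpow_le_rpow_of_nonpos (by positivity) h4 (by linarith)
      refine (Finset.sum_le_sum h1).trans ?_
      rw [Finset.sum_const, nsmul_eq_mul]
      have h2 : u.filter (fun i => Nat.log 2 (A.n i) = p) ⊆ A.le (2 ^ (p + 1)) := by
        intro i hi
        obtain ⟨-, h3⟩ := Finset.mem_filter.1 hi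
        rw [A.mem_le (by positivity)]
        have h4 : A.n i < 2 ^ (p + 1) := by
          rw [← h3]
          exact Nat.lt_pow_succ_log_self (by norm_num) _
        exact_mod_cast h4.le
      have h3 : ((u.filter (fun i => Nat.log 2 (A.n i) = p)).card : ℝ) ≤ K * 2 ^ (p + 1) :=
        le_trans (by exact_mod_cast Finset.card_le_card h2) (hA _ (one_le_pow₀ (by norm_num)))
      refine (mul_le_mul_of_nonneg_right h3 (by positivity)).trans (le_of_eq ?_)
      have h4 : ((2 : ℝ) ^ p) ^ (-(1 + σ)) = ((2 : ℝ) ^ p)⁻¹ * r ^ p := by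
        rw [neg_add, Real.rpow_add (by positivity), Real.rpow_neg_one, hr,
          ← Real.rpow_natCast 2 p, ← Real.rpow_mul zero_le_two, ← Real.rpow_natCast,
          ← Real.rpow_mul zero_le_two, mul_comm (p : ℝ)]
      rw [h4, pow_succ]
      field_simp
    refine (Finset.sum_le_sum fun p _ => hp p).trans ?_
    rw [← Finset.mul_sum, ← tsum_geometric_of_lt_one hr0 hr1]
    exact mul_le_mul_of_nonneg_left ((summable_geometric_of_lt_one hr0 hr1).sum_le_tsum _
      fun p _ => pow_nonneg hr0 p) (by linarith)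
  exact ⟨summable_of_sum_le (fun i => by positivity) hfin,
    Real.tsum_le_of_sum_le (fun i => by positivity) hfin⟩

/-- `2 ^ (-σ) ≤ 1 - σ / 2` -/
private theorem n5_pow {σ : ℝ} (h0 : 0 < σ) (h1 : σ ≤ 1) : (2 : ℝ) ^ (-σ) ≤ 1 - σ / 2 := by
  have hc := convexOn_exp
  have h2 := hc.2 (Set.mem_univ (0 : ℝ)) (Set.mem_univ (-Real.log 2))
    (sub_nonneg.2 h1) h0.le (sub_add_cancel 1 σ)
  simp only [smul_eq_mul, mul_zero, zero_add, Real.exp_zero, mul_one] at h2
  rw [Real.exp_neg, Real.exp_log two_pos] at h2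
  rw [Real.rpow_def_of_pos two_pos]
  have h3 : Real.log 2 * -σ = σ * -Real.log 2 := by ring
  rw [h3]
  linarith

/-- the weight is bounded by a power -/
private theorem n5_w {x n : ℝ} (hx : 2 ≤ x) (hn : 1 ≤ n) :
    x / n * (1 + Real.log (1 + x / n)) * Real.exp (-(n / (8 * x))) ≤
      64 * x * Real.log x * n ^ (-(1 + 1 / (2 * Real.log x))) := by
  have hx0 : 0 < x := by linarith
  have hn0 : 0 < n := by linarith
  have hl2 : (0.69 : ℝ) ≤ Real.log 2 := by
    have := Real.log_two_gt_d9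
    linarith
  have hl : Real.log 2 ≤ Real.log x := Real.log_le_log two_pos hx
  have hl0 : 0 < Real.log x := by linarith
  set σ : ℝ := 1 / (2 * Real.log x) with hσ
  have hσ0 : 0 < σ := by positivity
  have hσ1 : σ ≤ 1 := by
    rw [hσ, div_le_one (by positivity)]
    linarith
  -- the logarithm
  have h1 : 1 + Real.log (1 + x / n) ≤ 4 * Real.log x := by
    have h2 : 1 + x / n ≤ 2 * x := by
      have h3 : x / n ≤ x := div_le_self hx0.le hn
      linarith
    have h3 : Real.log (1 + x / n) ≤ Real.log (2 * x) :=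
      Real.log_le_log (by positivity) h2
    rw [Real.log_mul two_ne_zero hx0.ne'] at h3
    linarith
  have h1' : 0 ≤ 1 + Real.log (1 + x / n) := by
    have h2 : 0 ≤ Real.log (1 + x / n) := Real.log_nonneg (by
      have : 0 ≤ x / n := by positivity
      linarith)
    linarith
  -- the exponential
  have h2 : Real.exp (-(n / (8 * x))) ≤ 16 * n ^ (-σ) := by
    set t : ℝ := n / x with ht
    have ht0 : 0 < t := by positivity
    have e1 : n / (8 * x) = t / 8 := by
      rw [ht]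
      field_simp
    have e2 : n ^ σ = x ^ σ * t ^ σ := by
      rw [← Real.mul_rpow hx0.le ht0.le, ht]
      congr 1
      field_simp
    have e3 : x ^ σ ≤ 2 := by
      have h3 : x ^ σ = Real.exp (1 / 2) := by
        rw [Real.rpow_def_of_pos hx0, hσ]
        congr 1
        field_simp
      rw [h3]
      have h4 : Real.exp (1 / 2) * Real.exp (1 / 2) = Real.exp 1 := by
        rw [← Real.exp_add]
        norm_num
      have h5 := Real.exp_one_lt_d9
      nlinarith [Real.exp_pos (1 / 2)]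
    have e4 : t ^ σ ≤ 1 + t := by
      rcases le_total t 1 with h | h
      · have := Real.rpow_le_one ht0.le h hσ0.le
        linarith
      · have h3 := Real.rpow_le_rpow_of_exponent_le h hσ1
        rw [Real.rpow_one] at h3
        linarith
    have e5 : 1 + t ≤ 8 * Real.exp (t / 8) := by
      have := Real.add_one_le_exp (t / 8)
      linarith
    have e6 : n ^ σ ≤ 16 * Real.exp (t / 8) := by
      rw [e2]
      calc x ^ σ * t ^ σ ≤ 2 * (8 * Real.exp (t / 8)) :=
            mul_le_mul e3 (e4.trans e5) (by positivity) zero_le_two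
        _ = 16 * Real.exp (t / 8) := by ring
    rw [e1, Real.exp_neg, Real.rpow_neg hn0.le]
    have h5 : (Real.exp (t / 8))⁻¹ ≤ 16 * (n ^ σ)⁻¹ := by
      rw [← div_eq_mul_inv, le_div_iff₀ (by positivity), inv_mul_le_iff₀ (Real.exp_pos _),
        mul_comm]
      exact e6
    exact h5
  have h3 : n ^ (-(1 + σ)) = n⁻¹ * n ^ (-σ) := by
    rw [neg_add, Real.rpow_add hn0, Real.rpow_neg_one]
  calc x / n * (1 + Real.log (1 + x / n)) * Real.exp (-(n / (8 * x)))
      ≤ x / n * (4 * Real.log x) * (16 * n ^ (-σ)) := by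
        apply mul_le_mul _ h2 (Real.exp_pos _).le (by positivity)
        exact mul_le_mul_of_nonneg_left h1 (by positivity)
    _ = 64 * x * Real.log x * n ^ (-(1 + σ)) := by
        rw [h3]
        field_simp
        ring

theorem n5 (h2 : SF2) : SN5 := by
  classical
  intro S SF F
  obtain ⟨K, hK1, hK⟩ := h2 S SF F
  have hK0 : 0 ≤ K := by linarith
  refine ⟨4096 * K ^ 2, by positivity, fun x hx => ?_⟩
  have hx0 : 0 < x := by linarith
  have hl2 : (0.69 : ℝ) ≤ Real.log 2 := by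
    have := Real.log_two_gt_d9
    linarith
  have hl : Real.log 2 ≤ Real.log x := Real.log_le_log two_pos hx
  have hl0 : 0 < Real.log x := by linarith
  set σ : ℝ := 1 / (2 * Real.log x) with hσ
  have hσ0 : 0 < σ := by positivity
  have hσ1 : σ ≤ 1 := by
    rw [hσ, div_le_one (by positivity)]
    linarith
  set A := gdN F.Q with hA
  obtain ⟨hs, hle⟩ := n5_one A hK0 hK hσ0
  set D : ℝ := ∑' i, (A.n i : ℝ) ^ (-(1 + σ)) with hD
  have hD0 : 0 ≤ D := tsum_nonneg fun i => by positivity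
  have hDle : D ≤ 8 * K * Real.log x := by
    refine hle.trans ?_
    have h1 : σ / 2 ≤ 1 - (2 : ℝ) ^ (-σ) := by
      have := n5_pow hσ0 hσ1
      linarith
    have h3 : (1 - (2 : ℝ) ^ (-σ))⁻¹ ≤ (σ / 2)⁻¹ := inv_anti₀ (by positivity) h1
    have h4 : (σ / 2)⁻¹ = 4 * Real.log x := by
      rw [hσ]
      field_simp
      norm_num
    rw [h4] at h3
    calc 2 * K * (1 - (2 : ℝ) ^ (-σ))⁻¹ ≤ 2 * K * (4 * Real.log x) :=
          mul_le_mul_of_nonneg_left h3 (by positivity)
      _ = 8 * K * Real.log x := by ring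
  -- the sum over the pairs
  let φ : ℝ → ℝ := fun t => x / t * (1 + Real.log (1 + x / t)) * Real.exp (-(t / (8 * x)))
  have hφ0 : ∀ t, 1 ≤ t → 0 ≤ φ t := by
    intro t ht
    have h1 : 0 ≤ Real.log (1 + x / t) := Real.log_nonneg (by
      have : 0 ≤ x / t := by positivity
      linarith)
    have h3 : 0 ≤ x / t := by positivity
    have h4 : 0 ≤ 1 + Real.log (1 + x / t) := by linarith
    exact mul_nonneg (mul_nonneg h3 h4) (Real.exp_pos _).le
  let G : A.I × A.I → ℝ := fun z => φ ((A.n z.1 : ℝ) * (A.n z.2 : ℝ))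
  have hn1 : ∀ i : A.I, (1 : ℝ) ≤ A.n i := fun i => by exact_mod_cast A.one_le i
  have hG0 : ∀ z, 0 ≤ G z := fun z => hφ0 _ (one_le_mul_of_one_le_of_one_le (hn1 _) (hn1 _))
  have hGle : ∀ z, G z ≤ 64 * x * Real.log x *
      ((A.n z.1 : ℝ) ^ (-(1 + σ)) * (A.n z.2 : ℝ) ^ (-(1 + σ))) := by
    intro z
    rw [← Real.mul_rpow (by positivity) (by positivity)]
    exact n5_w hx (one_le_mul_of_one_le_of_one_le (hn1 _) (hn1 _))
  have hprod : Summable fun z : A.I × A.I =>
      (A.n z.1 : ℝ) ^ (-(1 + σ)) * (A.n z.2 : ℝ) ^ (-(1 + σ)) :=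
    hs.mul_of_nonneg hs (fun i => by positivity) fun i => by positivity
  have hGs : Summable G := Summable.of_nonneg_of_le hG0 hGle (hprod.mul_left _)
  have hGt : ∑' z, G z ≤ 64 * x * Real.log x * (D * D) := by
    refine (hGs.tsum_le_tsum hGle (hprod.mul_left _)).trans (le_of_eq ?_)
    rw [tsum_mul_left, hD, hs.tsum_mul_tsum hs hprod]
  -- the sum over the good sets
  have hs' : Summable fun c => G (g1E F.Q c) := hGs.comp_injective (g1_inj F.Q)
  have hterm : ∀ g : A.I, ∑' e : {e : Finset F.Q.P // e ∈ g.1.powerset},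
      G (g1E F.Q ⟨g, e⟩) = (2 : ℝ) ^ g.1.card * φ (F.Q.nq g.1) := by
    intro g
    have h1 : ∀ e : {e : Finset F.Q.P // e ∈ g.1.powerset}, G (g1E F.Q ⟨g, e⟩) =
        (fun _ : Finset F.Q.P => φ (F.Q.nq g.1)) e.1 := by
      intro e
      have he := Finset.mem_powerset.1 e.2
      have hn : ((F.Q.nq e.1 : ℝ) * (F.Q.nq (g.1 \ e.1) : ℝ)) = (F.Q.nq g.1 : ℝ) := by
        rw [g1_nq F.Q g.2 he]
        push_cast
        rfl
      show φ ((F.Q.nq e.1 : ℝ) * (F.Q.nq (g.1 \ e.1) : ℝ)) = φ (F.Q.nq g.1)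
      rw [hn]
    rw [tsum_congr h1, Finset.tsum_subtype g.1.powerset (fun _ : Finset F.Q.P =>
      φ (F.Q.nq g.1)), Finset.sum_const, Finset.card_powerset, nsmul_eq_mul]
    push_cast
    rfl
  have h3 : Summable fun g : A.I => ∑' e : {e : Finset F.Q.P // e ∈ g.1.powerset},
      G (g1E F.Q ⟨g, e⟩) := hs'.sigma
  have h4 : ∑' g : A.I, (2 : ℝ) ^ g.1.card * φ (F.Q.nq g.1) = ∑' c, G (g1E F.Q c) := by
    rw [hs'.tsum_sigma]
    exact tsum_congr fun g => (hterm g).symm
  have h5 : ∑' c, G (g1E F.Q c) ≤ ∑' z, G z :=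
    hs'.tsum_le_tsum_of_inj (g1E F.Q) (g1_inj F.Q) (fun z _ => hG0 z) (fun _ => le_rfl) hGs
  refine ⟨h3.congr fun g => hterm g, ?_⟩
  have h6 : D * D ≤ (8 * K * Real.log x) * (8 * K * Real.log x) :=
    mul_le_mul hDle hDle hD0 (by positivity)
  calc ∑' R : (gdN F.Q).I, (2 : ℝ) ^ R.1.card * (x / F.Q.nq R.1 *
        (1 + Real.log (1 + x / F.Q.nq R.1)) * Real.exp (-((F.Q.nq R.1 : ℝ) / (8 * x))))
      = ∑' c, G (g1E F.Q c) := h4
    _ ≤ 64 * x * Real.log x * (D * D) := h5.trans hGt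
    _ ≤ 64 * x * Real.log x * ((8 * K * Real.log x) * (8 * K * Real.log x)) :=
        mul_le_mul_of_nonneg_left h6 (by positivity)
    _ = 4096 * K ^ 2 * x * Real.log x ^ 3 := by ring

end Pool.Agent.SK
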