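import Pool.Agent.SK.NDefs
import Pool.Agent.H32.MQ.EPM

/-!
# Malle's conjecture for 8T8 over number fields: good sets with few large primes, logarithmic sums
-/

set_option autoImplicit false

open scoped BigOperators Topology
open Filter

namespace Pool.Agent.SK

open Pool.Agent.H98.MK (sg)
open Pool.Agent.H98.MF
open Pool.Agent.H32.MQ

/-- Mertens' upper bound for the primes of degree one -/
theorem n6_mert {S : Sys} (Q : Qd S) (hp : Pf Q (fun _ => 1) 1) :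
    ∃ C : ℝ, 0 ≤ C ∧ ∀ t : ℝ, 1 ≤ t → ∀ T : Finset Q.P, (∀ a ∈ T, (S.N (Q.sh a) : ℝ) ≤ t) →
      ∑ a ∈ T, 1 / (S.N (Q.sh a) : ℝ) ≤ Real.log (1 + Real.log t) + C := by
  obtain ⟨K, hK⟩ := hp
  have hK0 : 0 ≤ K := (abs_nonneg _).trans (hK 2 (by norm_num) le_rfl)
  have hl2 : 0 < Real.log 2 := Real.log_pos (by norm_num)
  have he : 0 < Real.exp 1 := Real.exp_pos 1
  refine ⟨K + Real.log 2 + Real.exp 1 * (Real.log 2 + 2 * K), by positivity,
    fun t ht T hT => ?_⟩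
  have hlt : 0 ≤ Real.log t := Real.log_nonneg ht
  set L : ℝ := max (Real.log t) 2 with hL
  have hL2 : 2 ≤ L := le_max_right _ _
  have hLt : Real.log t ≤ L := le_max_left _ _
  have hL0 : 0 < L := by linarith
  have hLle : L ≤ 2 * (1 + Real.log t) := by
    rw [hL]
    exact max_le (by linarith) (by linarith)
  set σ : ℝ := 1 / L with hσ
  have hσ0 : 0 < σ := by positivity
  have hσ1 : σ ≤ 1 / 2 := by
    rw [hσ]
    exact one_div_le_one_div_of_le (by norm_num) hL2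
  have hinv : 1 / σ = L := by rw [hσ, one_div_one_div]
  have h1 := abs_le.1 (hK (1 + σ) (by linarith) (by linarith))
  have h2 := abs_le.1 (hK (1 + 2 * σ) (by linarith) (by linarith))
  simp only [one_mul, add_sub_cancel_left] at h1 h2
  have hs1 := epm_summable S Q (s := 1 + σ) (by linarith)
  have hs2 := epm_summable S Q (s := 1 + 2 * σ) (by linarith)
  set A1 : ℝ := ∑' a : Q.P, (S.N (Q.sh a) : ℝ) ^ (-(1 + σ)) with hA1
  set A2 : ℝ := ∑' a : Q.P, (S.N (Q.sh a) : ℝ) ^ (-(1 + 2 * σ)) with hA2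
  have hlog : Real.log (1 / (2 * σ)) = Real.log (1 / σ) - Real.log 2 := by
    rw [one_div, one_div, Real.log_inv, Real.log_inv, Real.log_mul (by norm_num) hσ0.ne']
    ring
  have h3 : A1 ≤ Real.log L + K := by
    rw [← hinv]
    linarith [h1.2]
  have h4 : A1 - A2 ≤ Real.log 2 + 2 * K := by
    have e1 := h1.2
    have e2 := h2.1
    rw [hlog] at e2
    linarith
  have h5 : Real.log L ≤ Real.log 2 + Real.log (1 + Real.log t) := by
    rw [← Real.log_mul (by norm_num) (by linarith)]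
    exact Real.log_le_log hL0 hLle
  have hN1 : ∀ a : Q.P, (1 : ℝ) ≤ S.N (Q.sh a) := fun a => by exact_mod_cast S.one_le_N _
  have hmono : ∀ a : Q.P, (S.N (Q.sh a) : ℝ) ^ (-(1 + 2 * σ)) ≤
      (S.N (Q.sh a) : ℝ) ^ (-(1 + σ)) := fun a =>
    Real.rpow_le_rpow_of_exponent_le (hN1 a) (by linarith)
  have h6 : ∀ a ∈ T, 1 / (S.N (Q.sh a) : ℝ) ≤ (S.N (Q.sh a) : ℝ) ^ (-(1 + σ)) +
      Real.exp 1 * ((S.N (Q.sh a) : ℝ) ^ (-(1 + σ)) - (S.N (Q.sh a) : ℝ) ^ (-(1 + 2 * σ))) := by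
    intro a ha
    have hn1 := hN1 a
    have hn0 : (0 : ℝ) < S.N (Q.sh a) := by linarith
    have hpow : (S.N (Q.sh a) : ℝ) ^ σ ≤ Real.exp 1 := by
      rw [Real.rpow_def_of_pos hn0]
      refine Real.exp_le_exp.2 ?_
      rw [hσ, mul_one_div, div_le_one hL0]
      exact (Real.log_le_log hn0 (hT a ha)).trans hLt
    have e1 : 1 / (S.N (Q.sh a) : ℝ) = (S.N (Q.sh a) : ℝ) ^ (-(1 + σ)) +
        (S.N (Q.sh a) : ℝ) ^ σ * ((S.N (Q.sh a) : ℝ) ^ (-(1 + σ)) -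
          (S.N (Q.sh a) : ℝ) ^ (-(1 + 2 * σ))) := by
      rw [mul_sub, ← Real.rpow_add hn0, ← Real.rpow_add hn0, one_div, ← Real.rpow_neg_one,
        show σ + -(1 + σ) = -1 by ring, show σ + -(1 + 2 * σ) = -(1 + σ) by ring]
      ring
    rw [e1]
    have e2 := mul_le_mul_of_nonneg_right hpow (sub_nonneg.2 (hmono a))
    linarith
  have h7 : Summable fun a : Q.P => (S.N (Q.sh a) : ℝ) ^ (-(1 + σ)) +
      Real.exp 1 * ((S.N (Q.sh a) : ℝ) ^ (-(1 + σ)) - (S.N (Q.sh a) : ℝ) ^ (-(1 + 2 * σ))) :=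
    hs1.add ((hs1.sub hs2).mul_left _)
  have h8 : ∑' a : Q.P, ((S.N (Q.sh a) : ℝ) ^ (-(1 + σ)) +
      Real.exp 1 * ((S.N (Q.sh a) : ℝ) ^ (-(1 + σ)) - (S.N (Q.sh a) : ℝ) ^ (-(1 + 2 * σ)))) =
        A1 + Real.exp 1 * (A1 - A2) := by
    rw [hs1.tsum_add ((hs1.sub hs2).mul_left _), tsum_mul_left, hs1.tsum_sub hs2]
  have h9 : ∑ a ∈ T, 1 / (S.N (Q.sh a) : ℝ) ≤ A1 + Real.exp 1 * (A1 - A2) := by
    rw [← h8]
    refine (Finset.sum_le_sum h6).trans (h7.sum_le_tsum T fun a _ => ?_)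
    have e1 : (0 : ℝ) ≤ (S.N (Q.sh a) : ℝ) ^ (-(1 + σ)) :=
      Real.rpow_nonneg (by linarith [hN1 a]) _
    have e2 := mul_nonneg he.le (sub_nonneg.2 (hmono a))
    linarith
  have h10 := mul_le_mul_of_nonneg_left h4 he.le
  linarith

/-- the norm of a good set -/
theorem n6_nq {S : Sys} (Q : Qd S) (g : Finset Q.P) (hg : Q.Gd g) :
    (Q.nq g : ℝ) = ∏ a ∈ g, (S.N (Q.sh a) : ℝ) := by
  classical
  unfold Qd.nq Pre.nm Qd.shd
  rw [Finset.prod_image fun a ha c hc h => hg a ha c hc h, Nat.cast_prod]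

/-- N6 -/
theorem n6 (hp1 : Pool.Agent.H32.MQ.SPf1) : SN6 := by
  classical
  intro S SF F Pp
  obtain ⟨C, hC0, hC⟩ := n6_mert F.Q (hp1 S F.Q)
  refine ⟨Real.exp (2 * C + 1) * (2 + 2 * C) ^ 4, by positivity, fun z x hz hx => ?_⟩
  have hlz : 0 ≤ Real.log z := Real.log_nonneg (by linarith)
  have hlx : 0 ≤ Real.log x := Real.log_nonneg (by linarith)
  have hll : 0 ≤ Real.log (1 + Real.log x) := Real.log_nonneg (by linarith)
  set y : ℝ := (2 + 2 * C) * (1 + Real.log (1 + Real.log x)) with hy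
  have hy1 : 1 ≤ y := by
    rw [hy]
    nlinarith
  have hy2 : 2 * (Real.log (1 + Real.log x) + C) ≤ y := by
    rw [hy]
    nlinarith
  have hy0 : 0 < y := by linarith
  obtain ⟨T, hT⟩ : ∃ T : Finset F.Q.P, T = (F.Q.gb x).biUnion id := ⟨_, rfl⟩
  have hTx : ∀ a ∈ T, (S.N (F.Q.sh a) : ℝ) ≤ x := by
    intro a ha
    rw [hT, Finset.mem_biUnion] at ha
    obtain ⟨g, hg, hag⟩ := ha
    have h1 : S.N (F.Q.sh a) ≤ F.Q.nq g := S.N_le_nm (Finset.mem_image_of_mem _ hag)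
    exact le_trans (by exact_mod_cast h1) (F.Q.mem_gb.1 hg).2
  have hsub : F.Q.gb x ⊆ T.powerset := by
    intro g hg
    rw [Finset.mem_powerset, hT]
    intro a ha
    exact Finset.mem_biUnion.2 ⟨g, hg, ha⟩
  obtain ⟨c, hc⟩ : ∃ c : F.Q.P → ℝ, c = fun a => if z ≤ (S.N (F.Q.sh a) : ℝ) then
      2 / (S.N (F.Q.sh a) : ℝ) / y else 2 / (S.N (F.Q.sh a) : ℝ) := ⟨_, rfl⟩
  have hN1 : ∀ a : F.Q.P, (1 : ℝ) ≤ S.N (F.Q.sh a) := fun a => by exact_mod_cast S.one_le_N _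
  have hN0 : ∀ a : F.Q.P, (0 : ℝ) < S.N (F.Q.sh a) := fun a => by linarith [hN1 a]
  have hc0 : ∀ a, 0 ≤ c a := by
    intro a
    have h1 := hN0 a
    rw [hc]
    beta_reduce
    split_ifs <;> positivity
  have hcy : ∀ a, 2 / (S.N (F.Q.sh a) : ℝ) = c a * if z ≤ (S.N (F.Q.sh a) : ℝ) then y else 1 := by
    intro a
    rw [hc]
    beta_reduce
    split_ifs
    · rw [div_mul_cancel₀ _ hy0.ne']
    · rw [mul_one]
  have h1 : ∀ g ∈ F.Q.gb x, (if nz F Pp z g ≤ 2 ∧ nz F Ppᶜ z g ≤ 2 then (2 : ℝ) ^ g.card else 0) /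
      F.Q.nq g ≤ y ^ 4 * ∏ a ∈ g, c a := by
    intro g hg
    have hp : 0 ≤ ∏ a ∈ g, c a := Finset.prod_nonneg fun a _ => hc0 a
    split_ifs with hf
    · have e1 : (2 : ℝ) ^ g.card / F.Q.nq g = (∏ a ∈ g, c a) *
          y ^ (g.filter fun a => z ≤ (S.N (F.Q.sh a) : ℝ)).card := by
        rw [n6_nq F.Q g (F.Q.mem_gb.1 hg).1, ← Finset.prod_const, ← Finset.prod_div_distrib,
          Finset.prod_congr rfl fun a _ => hcy a, Finset.prod_mul_distrib, Finset.prod_ite,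
          Finset.prod_const, Finset.prod_const_one, mul_one]
      have e2 : (g.filter fun a => z ≤ (S.N (F.Q.sh a) : ℝ)).card ≤ 4 := by
        have e4 : (g.filter fun a => z ≤ (S.N (F.Q.sh a) : ℝ)).card ≤
            nz F Pp z g + nz F Ppᶜ z g := by
          unfold nz
          refine le_trans (Finset.card_le_card ?_) (Finset.card_union_le _ _)
          intro a ha
          rw [Finset.mem_filter] at ha
          simp only [Finset.mem_union, Finset.mem_filter]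
          by_cases h : a ∈ Pp
          · exact Or.inl ⟨ha.1, h, ha.2⟩
          · exact Or.inr ⟨ha.1, h, ha.2⟩
        have e5 := hf.1
        have e6 := hf.2
        omega
      rw [e1, mul_comm]
      exact mul_le_mul_of_nonneg_right (pow_le_pow_right₀ hy1 e2) hp
    · rw [zero_div]
      positivity
  have h2 : ∑ g ∈ F.Q.gb x, ∏ a ∈ g, c a ≤ ∏ a ∈ T, (1 + c a) := by
    rw [Finset.prod_one_add]
    exact Finset.sum_le_sum_of_subset_of_nonneg hsub fun g _ _ =>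
      Finset.prod_nonneg fun a _ => hc0 a
  have h3 : ∏ a ∈ T, (1 + c a) ≤ Real.exp (∑ a ∈ T, c a) := by
    rw [Real.exp_sum]
    refine Finset.prod_le_prod (fun a _ => by linarith [hc0 a]) fun a _ => ?_
    have := Real.add_one_le_exp (c a)
    linarith
  have h4 : ∑ a ∈ T, c a ≤ 2 * Real.log (1 + Real.log z) + (2 * C + 1) := by
    have e1 : ∑ a ∈ T, c a = (∑ a ∈ T.filter fun a => z ≤ (S.N (F.Q.sh a) : ℝ),
        2 / (S.N (F.Q.sh a) : ℝ) / y) + ∑ a ∈ T.filter fun a => ¬ z ≤ (S.N (F.Q.sh a) : ℝ),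
          2 / (S.N (F.Q.sh a) : ℝ) := by
      rw [hc]
      exact Finset.sum_ite _ _
    have e2 := hC x (by linarith) (T.filter fun a => z ≤ (S.N (F.Q.sh a) : ℝ))
      fun a ha => hTx a (Finset.mem_filter.1 ha).1
    have e3 := hC z (by linarith) (T.filter fun a => ¬ z ≤ (S.N (F.Q.sh a) : ℝ))
      fun a ha => (not_le.1 (Finset.mem_filter.1 ha).2).le
    have e4 : (∑ a ∈ T.filter fun a => z ≤ (S.N (F.Q.sh a) : ℝ),
        2 / (S.N (F.Q.sh a) : ℝ) / y) ≤ 1 := by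
      have e5 : ∀ a : F.Q.P, 2 / (S.N (F.Q.sh a) : ℝ) / y = 2 / y * (1 / (S.N (F.Q.sh a) : ℝ)) := by
        intro a
        ring
      rw [Finset.sum_congr rfl fun a _ => e5 a, ← Finset.mul_sum, div_mul_eq_mul_div,
        div_le_one hy0]
      linarith
    have e6 : ∑ a ∈ T.filter fun a => ¬ z ≤ (S.N (F.Q.sh a) : ℝ),
        2 / (S.N (F.Q.sh a) : ℝ) ≤ 2 * (Real.log (1 + Real.log z) + C) := by
      have e5 : ∀ a : F.Q.P, 2 / (S.N (F.Q.sh a) : ℝ) = 2 * (1 / (S.N (F.Q.sh a) : ℝ)) := by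
        intro a
        ring
      rw [Finset.sum_congr rfl fun a _ => e5 a, ← Finset.mul_sum]
      linarith
    rw [e1]
    linarith
  have h5 : Real.exp (2 * Real.log (1 + Real.log z) + (2 * C + 1)) =
      (1 + Real.log z) ^ 2 * Real.exp (2 * C + 1) := by
    rw [Real.exp_add]
    congr 1
    rw [show 2 * Real.log (1 + Real.log z) = Real.log (1 + Real.log z) + Real.log (1 + Real.log z)
      by ring, Real.exp_add, Real.exp_log (by linarith)]
    ring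
  calc ∑ g ∈ F.Q.gb x, (if nz F Pp z g ≤ 2 ∧ nz F Ppᶜ z g ≤ 2 then (2 : ℝ) ^ g.card else 0) /
      F.Q.nq g ≤ ∑ g ∈ F.Q.gb x, y ^ 4 * ∏ a ∈ g, c a := Finset.sum_le_sum h1
    _ = y ^ 4 * ∑ g ∈ F.Q.gb x, ∏ a ∈ g, c a := by rw [Finset.mul_sum]
    _ ≤ y ^ 4 * ((1 + Real.log z) ^ 2 * Real.exp (2 * C + 1)) := by
        refine mul_le_mul_of_nonneg_left ?_ (by positivity)
        rw [← h5]
        exact (h2.trans h3).trans (Real.exp_le_exp.2 h4)
    _ = Real.exp (2 * C + 1) * (2 + 2 * C) ^ 4 * (1 + Real.log z) ^ 2 *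
        (1 + Real.log (1 + Real.log x)) ^ 4 := by
        rw [hy]
        ring

end Pool.Agent.SK
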