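import Pool.Agent.SK.NDefs
import Pool.Agent.SK.Cheb
import Pool.Agent.SK.F2
import Pool.Agent.H32.MQ.BCnt
import Pool.Agent.H32.MQ.BAl

/-!
# Malle's conjecture for 8T8 over number fields, row N7: good sets with few large primes
-/

set_option autoImplicit false

open scoped BigOperators Topology
open Filter

namespace Pool.Agent.SK

open Pool.Agent.H98.MK (sg)
open Pool.Agent.H98.MF
open Pool.Agent.H32.MQ (Qd El Qf Pk Pf)
open Pool.Agent.H32.MQ.BCnt (two_pow_card)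

section

variable {S SF : Sys} (F : Qc S SF)

/-- the primes of degree one of norm at most `t` -/
noncomputable def n7P (t : ℝ) : Finset F.Q.P := (SF.pr t).preimage F.io F.io_inj.injOn

theorem n7_memP {t : ℝ} (ht : 0 ≤ t) {p : F.Q.P} :
    p ∈ n7P F t ↔ (S.N (F.Q.sh p) : ℝ) ≤ t := by
  unfold n7P
  rw [Finset.mem_preimage, SF.mem_pr ht, F.N_io]

theorem n7_log {C : ℝ} (hC : ∀ x : ℝ, 0 ≤ x → ∑ p ∈ SF.pr x, Real.log (SF.N p) ≤ C * x)
    {t : ℝ} (ht : 0 ≤ t) : ∑ p ∈ n7P F t, Real.log (S.N (F.Q.sh p)) ≤ C * t := by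
  classical
  have h1 : ∑ p ∈ n7P F t, Real.log (S.N (F.Q.sh p)) =
      ∑ P ∈ (n7P F t).image F.io, Real.log (SF.N P) := by
    rw [Finset.sum_image F.io_inj.injOn]
    exact Finset.sum_congr rfl fun p _ => by rw [F.N_io]
  rw [h1]
  refine (Finset.sum_le_sum_of_subset_of_nonneg ?_ ?_).trans (hC t ht)
  · intro P hP
    obtain ⟨p, hp, rfl⟩ := Finset.mem_image.1 hP
    exact Finset.mem_preimage.1 hp
  · intro P _ _
    exact Real.log_natCast_nonneg _

open Classical in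
/-- the weight of the good sets with few large primes -/
noncomputable def n7a (Pp : Set F.Q.P) (z : ℝ) (g : Finset F.Q.P) : ℝ :=
  if nz F Pp z g ≤ 2 ∧ nz F Ppᶜ z g ≤ 2 then (2 : ℝ) ^ g.card else 0

theorem n7_a0 (Pp : Set F.Q.P) (z : ℝ) (g : Finset F.Q.P) : 0 ≤ n7a F Pp z g := by
  unfold n7a
  split_ifs
  · positivity
  · exact le_rfl

theorem n7_a1 (Pp : Set F.Q.P) (z : ℝ) (g : Finset F.Q.P) : n7a F Pp z g ≤ 2 ^ g.card := by
  unfold n7a
  split_ifs
  · exact le_rfl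
  · positivity

theorem n7_nz (Pp : Set F.Q.P) (z : ℝ) (g : Finset F.Q.P) (p : F.Q.P) :
    nz F Pp z (g.erase p) ≤ nz F Pp z g := by
  classical
  unfold nz
  exact Finset.card_le_card (Finset.filter_subset_filter _ (Finset.erase_subset p g))

theorem n7_erase (Pp : Set F.Q.P) (z : ℝ) {g : Finset F.Q.P} {p : F.Q.P} (hp : p ∈ g) :
    n7a F Pp z g ≤ 2 * n7a F Pp z (g.erase p) := by
  classical
  by_cases h : nz F Pp z g ≤ 2 ∧ nz F Ppᶜ z g ≤ 2
  · have h' : nz F Pp z (g.erase p) ≤ 2 ∧ nz F Ppᶜ z (g.erase p) ≤ 2 :=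
      ⟨(n7_nz F Pp z g p).trans h.1, (n7_nz F Ppᶜ z g p).trans h.2⟩
    have h1 : g.card = (g.erase p).card + 1 := (Finset.card_erase_add_one hp).symm
    unfold n7a
    rw [if_pos h, if_pos h', h1, pow_succ, mul_comm]
  · have h1 := n7_a0 F Pp z (g.erase p)
    have h2 : n7a F Pp z g = 0 := by
      unfold n7a
      rw [if_neg h]
    rw [h2]
    linarith

theorem n7_nq {g : Finset F.Q.P} (hg : F.Q.Gd g) {p : F.Q.P} (hp : p ∈ g) :
    F.Q.Gd (g.erase p) ∧ F.Q.nq (g.erase p) * S.N (F.Q.sh p) = F.Q.nq g := by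
  have h1 : F.Q.Gd (g.erase p) := fun a ha b hb h =>
    hg a (Finset.mem_of_mem_erase ha) b (Finset.mem_of_mem_erase hb) h
  refine ⟨h1, ?_⟩
  rw [Pool.Agent.H32.MQ.bal_nq h1, Pool.Agent.H32.MQ.bal_nq hg, Finset.prod_erase_mul _ _ hp]

theorem n7_nq1 (g : Finset F.Q.P) : 1 ≤ F.Q.nq g := S.one_le_nm _

/-- the sum with logarithms -/
theorem n7_sum (Pp : Set F.Q.P) (z x : ℝ) :
    ∑ g ∈ F.Q.gb x, n7a F Pp z g * Real.log (F.Q.nq g) ≤
      ∑ g ∈ F.Q.gb x, ∑ p ∈ n7P F (x / F.Q.nq g),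
        2 * n7a F Pp z g * Real.log (S.N (F.Q.sh p)) := by
  classical
  have hlog : ∀ p : F.Q.P, 0 ≤ Real.log (S.N (F.Q.sh p)) := fun p => Real.log_natCast_nonneg _
  obtain ⟨H, hH⟩ : ∃ H : (Σ _ : Finset F.Q.P, F.Q.P) → ℝ, H = fun s =>
    2 * n7a F Pp z s.1 * Real.log (S.N (F.Q.sh s.2)) := ⟨_, rfl⟩
  obtain ⟨e, he⟩ : ∃ e : (Σ _ : Finset F.Q.P, F.Q.P) → (Σ _ : Finset F.Q.P, F.Q.P), e = fun s =>
    ⟨s.1.erase s.2, s.2⟩ := ⟨_, rfl⟩
  have h1 : ∑ g ∈ F.Q.gb x, n7a F Pp z g * Real.log (F.Q.nq g) =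
      ∑ s ∈ (F.Q.gb x).sigma (fun g => g), n7a F Pp z s.1 * Real.log (S.N (F.Q.sh s.2)) := by
    rw [Finset.sum_sigma]
    refine Finset.sum_congr rfl fun g hg => ?_
    simp only
    rw [← Finset.mul_sum, Pool.Agent.H32.MQ.bal_nq (F.Q.mem_gb.1 hg).1]
    push_cast
    rw [Real.log_prod fun p _ => by
      have := S.two_le (F.Q.sh p)
      positivity]
  have h2 : ∑ s ∈ (F.Q.gb x).sigma (fun g => g),
      n7a F Pp z s.1 * Real.log (S.N (F.Q.sh s.2)) ≤
      ∑ s ∈ (F.Q.gb x).sigma (fun g => g), H (e s) := by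
    refine Finset.sum_le_sum fun s hs => ?_
    rw [Finset.mem_sigma] at hs
    rw [hH, he]
    exact mul_le_mul_of_nonneg_right (n7_erase F Pp z hs.2) (hlog _)
  have hinj : Set.InjOn e (((F.Q.gb x).sigma (fun g => g) :
      Finset (Σ _ : Finset F.Q.P, F.Q.P)) : Set (Σ _ : Finset F.Q.P, F.Q.P)) := by
    rintro ⟨g, p⟩ hs ⟨g', p'⟩ hs' h
    rw [Finset.mem_coe, Finset.mem_sigma] at hs hs'
    rw [he] at h
    simp only [Sigma.mk.injEq, heq_eq_eq] at h
    obtain ⟨h3, rfl⟩ := h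
    have hp1 : p ∈ g := hs.2
    have hp2 : p ∈ g' := hs'.2
    have h4 : g = g' := by
      rw [← Finset.insert_erase hp1, h3, Finset.insert_erase hp2]
    subst h4
    rfl
  have h3 : ∑ g ∈ F.Q.gb x, ∑ p ∈ n7P F (x / F.Q.nq g),
        2 * n7a F Pp z g * Real.log (S.N (F.Q.sh p)) =
      ∑ s ∈ (F.Q.gb x).sigma (fun g => n7P F (x / F.Q.nq g)), H s := by
    rw [Finset.sum_sigma, hH]
  rw [h1, h3]
  refine h2.trans ?_
  rw [← Finset.sum_image hinj]
  refine Finset.sum_le_sum_of_subset_of_nonneg ?_ fun s _ _ => ?_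
  · intro s hs
    obtain ⟨⟨g, p⟩, hs1, rfl⟩ := Finset.mem_image.1 hs
    rw [Finset.mem_sigma] at hs1
    obtain ⟨hg, hp⟩ := hs1
    obtain ⟨hg1, hg2⟩ := F.Q.mem_gb.1 hg
    obtain ⟨h4, h5⟩ := n7_nq F hg1 hp
    have h6 := n7_nq1 F (g.erase p)
    have h7 : (0 : ℝ) < F.Q.nq (g.erase p) := by exact_mod_cast h6
    have h8 : (F.Q.nq (g.erase p) : ℝ) * S.N (F.Q.sh p) = F.Q.nq g := by exact_mod_cast h5
    have h9 : (1 : ℝ) ≤ S.N (F.Q.sh p) := by exact_mod_cast S.one_le_N _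
    have hx0 : 0 ≤ x := le_trans (Nat.cast_nonneg _) hg2
    rw [he, Finset.mem_sigma]
    refine ⟨F.Q.mem_gb.2 ⟨h4, ?_⟩, (n7_memP F (by positivity)).2 ?_⟩
    · simp only
      refine le_trans ?_ hg2
      rw [← h8]
      exact le_mul_of_one_le_right h7.le h9
    · simp only
      rw [le_div_iff₀ h7, mul_comm, h8]
      exact hg2
  · rw [hH]
    have := n7_a0 F Pp z s.1
    have := hlog s.2
    positivity

/-- the good sets of small norm, trivially -/
theorem n7_small : ∃ C : ℝ, 0 ≤ C ∧ ∀ X : ℝ, 1 ≤ X →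
    ∑ g ∈ F.Q.gb X, (2 : ℝ) ^ g.card ≤ C * X ^ (5 / 4 : ℝ) := by
  classical
  obtain ⟨C, hC⟩ := card_bx_le SF
  have hC0 : 0 ≤ C := by
    have h := hC 1 le_rfl
    have h1 : (0 : ℝ) ≤ ((SF.bx 1).card : ℝ) := Nat.cast_nonneg _
    linarith
  obtain ⟨K, hK⟩ : ∃ K : ℝ, K = 2 ^ (SF.pr (2 ^ (1 / (1 / 4 : ℝ)))).card := ⟨_, rfl⟩
  have hK0 : 0 ≤ K := by rw [hK]; positivity
  refine ⟨K * C, mul_nonneg hK0 hC0, fun X hX => ?_⟩
  have hX0 : 0 < X := by linarith
  have h1 : ∀ g ∈ F.Q.gb X, (2 : ℝ) ^ g.card ≤ K * X ^ (1 / 4 : ℝ) := by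
    intro g hg
    obtain ⟨hg1, hg2⟩ := F.Q.mem_gb.1 hg
    have h2 := two_pow_card SF (1 / 4) (by norm_num) (g.image F.io)
    rw [Finset.card_image_of_injective _ F.io_inj, f2_nm F g hg1, ← hK] at h2
    refine h2.trans (mul_le_mul_of_nonneg_left ?_ hK0)
    exact Real.rpow_le_rpow (Nat.cast_nonneg _) hg2 (by norm_num)
  have h2 : ((F.Q.gb X).card : ℝ) ≤ C * X := by
    refine le_trans ?_ (hC X hX)
    have h3 : (F.Q.gb X).card ≤ (SF.bx X).card := by
      refine Finset.card_le_card_of_injOn (fun g => g.image F.io) ?_ ?_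
      · intro g hg
        obtain ⟨hg1, hg2⟩ := F.Q.mem_gb.1 (Finset.mem_coe.1 hg)
        refine Finset.mem_coe.2 (SF.mem_bx.2 ?_)
        rw [f2_nm F g hg1]
        exact hg2
      · intro g _ g' _ h
        exact Finset.image_injective F.io_inj h
    exact_mod_cast h3
  refine (Finset.sum_le_sum h1).trans ?_
  rw [Finset.sum_const, nsmul_eq_mul]
  calc ((F.Q.gb X).card : ℝ) * (K * X ^ (1 / 4 : ℝ)) ≤ C * X * (K * X ^ (1 / 4 : ℝ)) :=
        mul_le_mul_of_nonneg_right h2 (by positivity)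
    _ = K * C * (X ^ (1 : ℝ) * X ^ (1 / 4 : ℝ)) := by rw [Real.rpow_one]; ring
    _ = K * C * X ^ (5 / 4 : ℝ) := by
        rw [← Real.rpow_add hX0]
        norm_num

end

/-- N7: the good sets with few large primes -/
theorem n7 (n6 : SN6) (_h2 : SF2) : SN7 := by
  classical
  intro S SF F Pp
  obtain ⟨C6, hC6, h6⟩ := n6 S SF F Pp
  obtain ⟨Ch, hCh, hch⟩ := chebLog SF
  obtain ⟨Cs, hCs, hs⟩ := n7_small F
  refine ⟨Cs * (8 / 3) + 4 * Ch * C6, by positivity, fun z x hz hx => ?_⟩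
  have hx2 : 2 ≤ x := hz.trans hx
  have hx0 : 0 < x := by linarith
  have hlog : 0 < Real.log x := Real.log_pos (by linarith)
  have hlz : 0 < Real.log z := Real.log_pos (by linarith)
  obtain ⟨W, hW⟩ : ∃ W : ℝ, W = (1 + Real.log z) ^ 2 * (1 + Real.log (1 + Real.log x)) ^ 4 :=
    ⟨_, rfl⟩
  have hll : 0 ≤ Real.log (1 + Real.log x) := Real.log_nonneg (by linarith)
  have hW1 : 1 ≤ W := by
    rw [hW]
    have h1 : (1 : ℝ) ≤ (1 + Real.log z) ^ 2 := one_le_pow₀ (by linarith)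
    have h2 : (1 : ℝ) ≤ (1 + Real.log (1 + Real.log x)) ^ 4 := one_le_pow₀ (by linarith)
    exact one_le_mul_of_one_le_of_one_le h1 h2
  have h6' : ∑ g ∈ F.Q.gb x, n7a F Pp z g / F.Q.nq g ≤ C6 * W := by
    have h := h6 z x hz hx
    rw [mul_assoc, ← hW] at h
    exact h
  show ∑ g ∈ F.Q.gb x, n7a F Pp z g ≤ (Cs * (8 / 3) + 4 * Ch * C6) * x / Real.log x *
    (1 + Real.log z) ^ 2 * (1 + Real.log (1 + Real.log x)) ^ 4
  rw [mul_assoc _ ((1 + Real.log z) ^ 2), ← hW]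
  -- the sum with logarithms
  have h7 : ∑ g ∈ F.Q.gb x, n7a F Pp z g * Real.log (F.Q.nq g) ≤ 2 * Ch * C6 * x * W := by
    refine (n7_sum F Pp z x).trans ?_
    have h8 : ∀ g ∈ F.Q.gb x, ∑ p ∈ n7P F (x / F.Q.nq g),
        2 * n7a F Pp z g * Real.log (S.N (F.Q.sh p)) ≤
        2 * Ch * x * (n7a F Pp z g / F.Q.nq g) := by
      intro g _
      have hn : (0 : ℝ) < F.Q.nq g := by exact_mod_cast n7_nq1 F g
      rw [← Finset.mul_sum]
      have h9 := mul_le_mul_of_nonneg_left (n7_log F hch (t := x / F.Q.nq g) (by positivity))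
        (mul_nonneg (by norm_num : (0 : ℝ) ≤ 2) (n7_a0 F Pp z g))
      refine h9.trans (le_of_eq ?_)
      ring
    refine (Finset.sum_le_sum h8).trans ?_
    rw [← Finset.mul_sum]
    calc 2 * Ch * x * ∑ g ∈ F.Q.gb x, n7a F Pp z g / F.Q.nq g ≤ 2 * Ch * x * (C6 * W) :=
          mul_le_mul_of_nonneg_left h6' (by positivity)
      _ = 2 * Ch * C6 * x * W := by ring
  -- the splitting
  have h8 : ∑ g ∈ F.Q.gb x, n7a F Pp z g ≤ ∑ g ∈ F.Q.gb (Real.sqrt x), (2 : ℝ) ^ g.card +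
      2 / Real.log x * ∑ g ∈ F.Q.gb x, n7a F Pp z g * Real.log (F.Q.nq g) := by
    rw [← Finset.sum_filter_add_sum_filter_not (F.Q.gb x)
      (fun g => (F.Q.nq g : ℝ) ≤ Real.sqrt x)]
    refine add_le_add ?_ ?_
    · calc ∑ g ∈ (F.Q.gb x).filter (fun g => (F.Q.nq g : ℝ) ≤ Real.sqrt x), n7a F Pp z g ≤
          ∑ g ∈ (F.Q.gb x).filter (fun g => (F.Q.nq g : ℝ) ≤ Real.sqrt x), (2 : ℝ) ^ g.card :=
            Finset.sum_le_sum fun g _ => n7_a1 F Pp z g
        _ ≤ ∑ g ∈ F.Q.gb (Real.sqrt x), (2 : ℝ) ^ g.card := by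
            refine Finset.sum_le_sum_of_subset_of_nonneg (fun g hg => ?_) fun g _ _ => by
              positivity
            rw [Finset.mem_filter, F.Q.mem_gb] at hg
            exact F.Q.mem_gb.2 ⟨hg.1.1, hg.2⟩
    · rw [Finset.mul_sum]
      have hl : ∀ g : Finset F.Q.P, 0 ≤ Real.log (F.Q.nq g) := fun g =>
        Real.log_natCast_nonneg _
      calc ∑ g ∈ (F.Q.gb x).filter (fun g => ¬ (F.Q.nq g : ℝ) ≤ Real.sqrt x), n7a F Pp z g ≤
          ∑ g ∈ (F.Q.gb x).filter (fun g => ¬ (F.Q.nq g : ℝ) ≤ Real.sqrt x),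
            2 / Real.log x * (n7a F Pp z g * Real.log (F.Q.nq g)) := by
            refine Finset.sum_le_sum fun g hg => ?_
            have h9 := (Finset.mem_filter.1 hg).2
            rw [not_le] at h9
            have h10 : Real.log x / 2 ≤ Real.log (F.Q.nq g) := by
              rw [← Real.log_sqrt hx0.le]
              exact Real.log_le_log (Real.sqrt_pos.2 hx0) h9.le
            have h11 : 1 ≤ 2 / Real.log x * Real.log (F.Q.nq g) := by
              rw [div_mul_eq_mul_div, le_div_iff₀ hlog]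
              linarith
            calc n7a F Pp z g = n7a F Pp z g * 1 := (mul_one _).symm
              _ ≤ n7a F Pp z g * (2 / Real.log x * Real.log (F.Q.nq g)) :=
                mul_le_mul_of_nonneg_left h11 (n7_a0 F Pp z g)
              _ = _ := by ring
        _ ≤ ∑ g ∈ F.Q.gb x, 2 / Real.log x * (n7a F Pp z g * Real.log (F.Q.nq g)) := by
            refine Finset.sum_le_sum_of_subset_of_nonneg (Finset.filter_subset _ _)
              fun g _ _ => ?_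
            have := n7_a0 F Pp z g
            have := hl g
            positivity
  have h9 : ∑ g ∈ F.Q.gb (Real.sqrt x), (2 : ℝ) ^ g.card ≤ Cs * (8 / 3) * (x / Real.log x) := by
    have h10 := hs (Real.sqrt x) (by rw [Real.one_le_sqrt]; linarith)
    have h11 : Real.sqrt x ^ (5 / 4 : ℝ) = x ^ (5 / 8 : ℝ) := by
      rw [Real.sqrt_eq_rpow, ← Real.rpow_mul hx0.le]
      norm_num
    rw [h11] at h10
    refine h10.trans ?_
    rw [mul_assoc]
    refine mul_le_mul_of_nonneg_left ?_ hCs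
    rw [← mul_div_assoc, le_div_iff₀ hlog]
    have h12 := Real.log_le_rpow_div hx0.le (ε := 3 / 8) (by norm_num)
    calc x ^ (5 / 8 : ℝ) * Real.log x ≤ x ^ (5 / 8 : ℝ) * (x ^ (3 / 8 : ℝ) / (3 / 8)) :=
          mul_le_mul_of_nonneg_left h12 (by positivity)
      _ = 8 / 3 * (x ^ (5 / 8 : ℝ) * x ^ (3 / 8 : ℝ)) := by ring
      _ = 8 / 3 * x := by
          rw [← Real.rpow_add hx0]
          norm_num
  have h10 : 2 / Real.log x * ∑ g ∈ F.Q.gb x, n7a F Pp z g * Real.log (F.Q.nq g) ≤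
      4 * Ch * C6 * (x / Real.log x) * W := by
    calc 2 / Real.log x * ∑ g ∈ F.Q.gb x, n7a F Pp z g * Real.log (F.Q.nq g) ≤
        2 / Real.log x * (2 * Ch * C6 * x * W) := mul_le_mul_of_nonneg_left h7 (by positivity)
      _ = _ := by ring
  have h11 : Cs * (8 / 3) * (x / Real.log x) ≤ Cs * (8 / 3) * (x / Real.log x) * W :=
    le_mul_of_one_le_right (by positivity) hW1
  calc ∑ g ∈ F.Q.gb x, n7a F Pp z g ≤ _ := h8
    _ ≤ Cs * (8 / 3) * (x / Real.log x) * W + 4 * Ch * C6 * (x / Real.log x) * W :=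
      add_le_add (h9.trans h11) h10
    _ = _ := by ring

end Pool.Agent.SK
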