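import Pool.Agent.SK.NDefs

/-!
# Malle's conjecture for 8T8 over number fields, row N8: good sets with few large primes,
exponential weights
-/

set_option autoImplicit false

open scoped BigOperators Topology
open Filter

namespace Pool.Agent.SK

open Pool.Agent.H98.MK (sg)
open Pool.Agent.H98.MF
open Pool.Agent.H32.MQ (Qd El Qf Pk Pf)

private theorem n8_emb {I J : Type} (e : I → J) (he : Function.Injective e) (v : Finset I)
    (B : Finset J) (c : J → ℝ) (hc : ∀ g, 0 ≤ c g) (h : ∀ g ∈ v, e g ∈ B) :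
    ∑ g ∈ v, c (e g) ≤ ∑ g ∈ B, c g := by
  classical
  have h5 : ∑ g ∈ v, c (e g) = ∑ g ∈ v.image e, c g :=
    (Finset.sum_image fun a _ b _ hab => he hab).symm
  rw [h5]
  refine Finset.sum_le_sum_of_subset_of_nonneg ?_ fun g _ _ => hc g
  intro g hg
  obtain ⟨g', hg', rfl⟩ := Finset.mem_image.1 hg
  exact h g' hg'

/-- dyadic decomposition, abstract form -/
private theorem n8_abs {I : Type} (u : Finset I) (c n : I → ℝ) (W M : ℝ) (hc : ∀ g, 0 ≤ c g)
    (hn : ∀ g, 0 ≤ n g) (hW : 0 ≤ W)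
    (h : ∀ k : ℕ, ∑ g ∈ u.filter (fun g => ⌊n g⌋₊ = k), c g ≤ W * (k + 1) ^ 5)
    (hM : ∀ K : ℕ, ∑ k ∈ Finset.range K, ((k : ℝ) + 1) ^ 5 * Real.exp (-(k : ℝ)) ≤ M) :
    ∑ g ∈ u, c g * Real.exp (-(n g)) ≤ W * M := by
  classical
  have hmaps : ∀ g ∈ u, ⌊n g⌋₊ ∈ Finset.range (u.sup (fun g => ⌊n g⌋₊) + 1) := by
    intro g hg
    rw [Finset.mem_range]
    exact Nat.lt_succ_of_le (Finset.le_sup (f := fun g => ⌊n g⌋₊) hg)
  rw [← Finset.sum_fiberwise_of_maps_to hmaps]
  have h1 : ∀ k : ℕ, ∑ g ∈ u.filter (fun g => ⌊n g⌋₊ = k), c g * Real.exp (-(n g)) ≤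
        W * (((k : ℝ) + 1) ^ 5 * Real.exp (-(k : ℝ))) := by
    intro k
    have h2 : ∀ g ∈ u.filter (fun g => ⌊n g⌋₊ = k),
        c g * Real.exp (-(n g)) ≤ c g * Real.exp (-(k : ℝ)) := by
      intro g hg
      obtain ⟨-, h3⟩ := Finset.mem_filter.1 hg
      refine mul_le_mul_of_nonneg_left ?_ (hc g)
      apply Real.exp_le_exp.2
      have h4 : (k : ℝ) ≤ n g := by
        rw [← h3]
        exact Nat.floor_le (hn g)
      linarith
    refine (Finset.sum_le_sum h2).trans ?_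
    rw [← Finset.sum_mul, ← mul_assoc]
    exact mul_le_mul_of_nonneg_right (h k) (Real.exp_pos _).le
  refine (Finset.sum_le_sum fun k _ => h1 k).trans ?_
  rw [← Finset.mul_sum]
  exact mul_le_mul_of_nonneg_left (hM _) hW

section

variable {S SF : Sys} (F : Qc S SF)

open Classical in
/-- the weight of a good set with few large primes -/
private noncomputable def n8c (Pp : Set F.Q.P) (z : ℝ) (g : Finset F.Q.P) : ℝ :=
  if nz F Pp z g ≤ 2 ∧ nz F Ppᶜ z g ≤ 2 then (2 : ℝ) ^ g.card else 0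

private theorem n8_nonneg (Pp : Set F.Q.P) (z : ℝ) (g : Finset F.Q.P) : 0 ≤ n8c F Pp z g := by
  unfold n8c
  split_ifs
  · positivity
  · exact le_refl 0

private theorem n8_nz (Pp : Set F.Q.P) {z z' : ℝ} (h : z ≤ z') (g : Finset F.Q.P) :
    nz F Pp z' g ≤ nz F Pp z g := by
  classical
  unfold nz
  refine Finset.card_le_card fun p hp => ?_
  rw [Finset.mem_filter] at hp ⊢
  exact ⟨hp.1, hp.2.1, h.trans hp.2.2⟩

private theorem n8_mono (Pp : Set F.Q.P) {z z' : ℝ} (h : z ≤ z') (g : Finset F.Q.P) :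
    n8c F Pp z g ≤ n8c F Pp z' g := by
  by_cases h1 : nz F Pp z g ≤ 2 ∧ nz F Ppᶜ z g ≤ 2
  · have h2 : nz F Pp z' g ≤ 2 ∧ nz F Ppᶜ z' g ≤ 2 :=
      ⟨(n8_nz F Pp h g).trans h1.1, (n8_nz F Ppᶜ h g).trans h1.2⟩
    unfold n8c
    rw [if_pos h1, if_pos h2]
  · have h2 : n8c F Pp z g = 0 := if_neg h1
    rw [h2]
    exact n8_nonneg F Pp z' g

private theorem n8_tN (τ : F.Q.G → ℝ) {D : ℝ} (hτ : ∀ γ, |τ γ| ≤ D) (g : Finset F.Q.P) :
    |tN F τ g| ≤ (Fintype.card SF.T * D) * 2 ^ g.card := by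
  unfold tN
  rw [abs_mul, abs_of_nonneg (by positivity : (0 : ℝ) ≤ 2 ^ g.card), mul_comm]
  refine mul_le_mul_of_nonneg_right ?_ (by positivity)
  refine (Finset.abs_sum_le_sum_abs _ _).trans ?_
  refine (Finset.sum_le_sum fun a _ => hτ (F.el a g)).trans (le_of_eq ?_)
  rw [Finset.sum_const, nsmul_eq_mul, Finset.card_univ]

/-- the sum with exponential weight -/
private theorem n8_sum (Pp : Set F.Q.P) (z x W M : ℝ) (hx : 0 < x) (hW : 0 ≤ W)
    (h : ∀ k : ℕ, ∑ g ∈ F.Q.gb ((k + 1) * x), n8c F Pp z g ≤ W * (k + 1) ^ 5)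
    (hM : ∀ K : ℕ, ∑ k ∈ Finset.range K, ((k : ℝ) + 1) ^ 5 * Real.exp (-(k : ℝ)) ≤ M)
    (u : Finset (gdN F.Q).I) :
    ∑ g ∈ u, n8c F Pp z g.1 * Real.exp (-((F.Q.nq g.1 : ℝ) / x)) ≤ W * M := by
  classical
  refine n8_abs u (fun g => n8c F Pp z g.1) (fun g => (F.Q.nq g.1 : ℝ) / x) W M
    (fun g => n8_nonneg F Pp z g.1) (fun g => by positivity) hW (fun k => ?_) hM
  refine le_trans ?_ (h k)
  refine n8_emb (fun g : (gdN F.Q).I => g.1) (fun a b h => Subtype.ext h) _ _ (n8c F Pp z)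
    (n8_nonneg F Pp z) fun g' hg' => ?_
  obtain ⟨-, h3⟩ := Finset.mem_filter.1 hg'
  rw [Qd.mem_gb]
  refine ⟨g'.2, ?_⟩
  have h4 : (F.Q.nq g'.1 : ℝ) / x < k + 1 := by
    rw [← h3]
    exact Nat.lt_floor_add_one _
  rw [div_lt_iff₀ hx] at h4
  exact h4.le

/-- the bound for the sum with few large primes -/
private theorem n8_few (Pp : Set F.Q.P) (τ : F.Q.G → ℝ) {D : ℝ} (hD : 0 ≤ D)
    (hτ : ∀ γ, |τ γ| ≤ D) (z' z x W M : ℝ) (hz : z' ≤ z) (hx : 0 < x) (hW : 0 ≤ W)
    (h : ∀ k : ℕ, ∑ g ∈ F.Q.gb ((k + 1) * x), n8c F Pp z g ≤ W * (k + 1) ^ 5)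
    (hM : ∀ K : ℕ, ∑ k ∈ Finset.range K, ((k : ℝ) + 1) ^ 5 * Real.exp (-(k : ℝ)) ≤ M) :
    |few F Pp τ z' x| ≤ Fintype.card SF.T * D * (W * M) := by
  classical
  have hT : (0 : ℝ) ≤ Fintype.card SF.T * D := mul_nonneg (Nat.cast_nonneg _) hD
  have h1 : ∀ g : (gdN F.Q).I, ‖(if nz F Pp z' g.1 ≤ 2 ∧ nz F Ppᶜ z' g.1 ≤ 2 then
      tN F τ g.1 * Real.exp (-((F.Q.nq g.1 : ℝ) / x)) else 0)‖ ≤
      (Fintype.card SF.T * D) * (n8c F Pp z g.1 * Real.exp (-((F.Q.nq g.1 : ℝ) / x))) := by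
    intro g
    have h3 : (Fintype.card SF.T * D) *
        (n8c F Pp z' g.1 * Real.exp (-((F.Q.nq g.1 : ℝ) / x))) ≤
        (Fintype.card SF.T * D) * (n8c F Pp z g.1 * Real.exp (-((F.Q.nq g.1 : ℝ) / x))) :=
      mul_le_mul_of_nonneg_left (mul_le_mul_of_nonneg_right (n8_mono F Pp hz g.1)
        (Real.exp_pos _).le) hT
    refine le_trans ?_ h3
    by_cases h2 : nz F Pp z' g.1 ≤ 2 ∧ nz F Ppᶜ z' g.1 ≤ 2
    · have h4 : n8c F Pp z' g.1 = 2 ^ g.1.card := if_pos h2
      rw [if_pos h2, h4, Real.norm_eq_abs, abs_mul, abs_of_nonneg (Real.exp_pos _).le, ← mul_assoc]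
      exact mul_le_mul_of_nonneg_right (n8_tN F τ hτ g.1) (Real.exp_pos _).le
    · rw [if_neg h2, norm_zero]
      exact mul_nonneg hT (mul_nonneg (n8_nonneg F Pp z' g.1) (Real.exp_pos _).le)
  have h2 : ∀ u : Finset (gdN F.Q).I, ∑ g ∈ u, ‖(if nz F Pp z' g.1 ≤ 2 ∧ nz F Ppᶜ z' g.1 ≤ 2 then
      tN F τ g.1 * Real.exp (-((F.Q.nq g.1 : ℝ) / x)) else 0)‖ ≤
      Fintype.card SF.T * D * (W * M) := by
    intro u
    refine (Finset.sum_le_sum fun g _ => h1 g).trans ?_
    rw [← Finset.mul_sum]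
    exact mul_le_mul_of_nonneg_left (n8_sum F Pp z x W M hx hW h hM u) hT
  have h3 := summable_of_sum_le (fun g => norm_nonneg _) h2
  unfold few
  rw [← Real.norm_eq_abs]
  exact (norm_tsum_le_tsum_norm h3).trans (h3.tsum_le_of_sum_le h2)

end

private theorem n8_M : ∃ M : ℝ, 0 ≤ M ∧ ∀ K : ℕ,
    ∑ k ∈ Finset.range K, ((k : ℝ) + 1) ^ 5 * Real.exp (-(k : ℝ)) ≤ M := by
  have h1 := Real.summable_pow_mul_exp_neg_nat_mul 5 (r := 1) one_pos
  have h2 : Summable fun k : ℕ => ((k : ℝ) + 1) ^ 5 * Real.exp (-(k : ℝ)) := by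
    have h3 := ((summable_nat_add_iff 1).2 h1).mul_left (Real.exp 1)
    refine h3.congr fun k => ?_
    have h4 : Real.exp (-(k : ℝ)) = Real.exp 1 * Real.exp (-1 * ((k + 1 : ℕ) : ℝ)) := by
      rw [← Real.exp_add]
      congr 1
      push_cast
      ring
    rw [h4]
    push_cast
    ring
  exact ⟨_, tsum_nonneg fun k => by positivity,
    fun K => h2.sum_le_tsum _ fun k _ => by positivity⟩

private theorem n8_lim : Tendsto (fun x : ℝ => (1 + Real.log (1 + Real.log x)) ^ 6 /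
    Real.log x) atTop (𝓝 0) := by
  have h1 : Tendsto (fun x : ℝ => (1 + Real.log (1 + x)) ^ 6 / x) atTop (𝓝 0) := by
    have ht : Tendsto (fun x : ℝ => Real.exp 1 * (1 + x)) atTop atTop :=
      Tendsto.const_mul_atTop (Real.exp_pos 1) (tendsto_atTop_add_const_left _ _ tendsto_id)
    have h2 := (Real.isLittleO_pow_log_id_atTop (n := 6)).comp_tendsto ht
    have h3 : Tendsto (fun x : ℝ => Real.log (Real.exp 1 * (1 + x)) ^ 6 /
        (Real.exp 1 * (1 + x))) atTop (𝓝 0) := h2.tendsto_div_nhds_zero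
    have h4 : Tendsto (fun x : ℝ => Real.exp 1 * (1 + x) / x) atTop (𝓝 (Real.exp 1 * (0 + 1))) := by
      have h5 : Tendsto (fun x : ℝ => Real.exp 1 * (x⁻¹ + 1)) atTop (𝓝 (Real.exp 1 * (0 + 1))) :=
        (tendsto_inv_atTop_zero.add_const 1).const_mul _
      refine h5.congr' ?_
      filter_upwards [eventually_gt_atTop 0] with x hx
      field_simp
    have h5 := h3.mul h4
    rw [zero_mul] at h5
    refine h5.congr' ?_
    filter_upwards [eventually_gt_atTop 0] with x hx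
    have h6 : Real.log (Real.exp 1 * (1 + x)) = 1 + Real.log (1 + x) := by
      rw [Real.log_mul (Real.exp_pos 1).ne' (by positivity), Real.log_exp]
    rw [h6]
    have h7 : (0 : ℝ) < Real.exp 1 := Real.exp_pos 1
    field_simp
  exact h1.comp Real.tendsto_log_atTop

private theorem n8_pow (B : ℝ) : ∀ᶠ x : ℝ in atTop, 2 * (1 + Real.log x) ^ B ≤ x := by
  have h1 := isLittleO_log_rpow_rpow_atTop (s := 1) B one_pos
  have ht : Tendsto (fun x : ℝ => Real.exp 1 * x) atTop atTop :=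
    Tendsto.const_mul_atTop (Real.exp_pos 1) tendsto_id
  have h2 := (h1.comp_tendsto ht).def (c := 1 / (2 * Real.exp 1)) (by positivity)
  filter_upwards [h2, eventually_ge_atTop 1] with x hx hx1
  have h3 : Real.log (Real.exp 1 * x) = 1 + Real.log x := by
    rw [Real.log_mul (Real.exp_pos 1).ne' (by positivity), Real.log_exp]
  have h4 : 0 ≤ Real.log x := Real.log_nonneg hx1
  simp only [Function.comp_apply, h3, Real.rpow_one, Real.norm_eq_abs] at hx
  rw [abs_of_nonneg (by positivity), abs_of_nonneg (by positivity)] at hx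
  have h5 : 1 / (2 * Real.exp 1) * (Real.exp 1 * x) = x / 2 := by
    have h7 : (0 : ℝ) < Real.exp 1 := Real.exp_pos 1
    field_simp
  rw [h5] at hx
  linarith

/-- N8: good sets with few large primes -/
theorem n8 (n7 : SN7) (h2 : SF2) (l5 : SL5) : SN8 := by
  intro S SF F Pp τ D hτ E hE
  obtain ⟨B, hB⟩ := hE
  obtain ⟨C, hC0, hC⟩ := n7 S SF F Pp
  obtain ⟨M, hM0, hM⟩ := n8_M
  have hD : 0 ≤ D := (abs_nonneg _).trans (hτ (F.el 0 ∅))
  set B' : ℝ := max B 0 with hB'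
  have hB0 : 0 ≤ B' := le_max_right _ _
  have key : ∀ᶠ x : ℝ in atTop, |few F Pp τ (2 ^ E x) x / x| ≤
      Fintype.card SF.T * D * M * C * (2 + B') ^ 2 *
        ((1 + Real.log (1 + Real.log x)) ^ 6 / Real.log x) := by
    filter_upwards [n8_pow B', eventually_ge_atTop (Real.exp 1),
      eventually_ge_atTop 2] with x hx1 hx2 hx3
    have hx0 : 0 < x := by linarith
    have hl : 1 ≤ Real.log x := by
      rw [← Real.log_exp 1]
      exact Real.log_le_log (Real.exp_pos 1) hx2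
    set y : ℝ := Real.log (1 + Real.log x) with hy
    have hy0 : 0 ≤ y := Real.log_nonneg (by linarith)
    have h1B : (1 : ℝ) ≤ (1 + Real.log x) ^ B' := Real.one_le_rpow (by linarith) hB0
    set z : ℝ := max 2 (2 ^ E x) with hz
    have hz2 : 2 ≤ z := le_max_left _ _
    have hzB : z ≤ 2 * (1 + Real.log x) ^ B' := by
      refine max_le (by linarith) ((hB x hx3).trans ?_)
      refine mul_le_mul_of_nonneg_left ?_ two_pos.le
      exact Real.rpow_le_rpow_of_exponent_le (by linarith) (le_max_left _ _)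
    have hzx : z ≤ x := hzB.trans hx1
    have hlz : 1 + Real.log z ≤ (2 + B') * (1 + y) := by
      have h3 : Real.log z ≤ Real.log 2 + B' * y := by
        refine (Real.log_le_log (by linarith) hzB).trans (le_of_eq ?_)
        rw [Real.log_mul two_ne_zero (by positivity), Real.log_rpow (by linarith)]
      have h4 : Real.log 2 ≤ 1 := by linarith [Real.log_two_lt_d9]
      nlinarith [mul_nonneg hB0 hy0]
    have hlz0 : 0 ≤ 1 + Real.log z := by
      have := Real.log_nonneg (by linarith : (1 : ℝ) ≤ z)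
      linarith
    set W : ℝ := C * x / Real.log x * ((2 + B') * (1 + y)) ^ 2 * (1 + y) ^ 4 with hW
    have hW0 : 0 ≤ W := by positivity
    have h3 : ∀ k : ℕ, ∑ g ∈ F.Q.gb ((k + 1) * x), n8c F Pp z g ≤ W * (k + 1) ^ 5 := by
      intro k
      have hk : (0 : ℝ) ≤ k := Nat.cast_nonneg k
      have hkx : x ≤ (k + 1) * x := by nlinarith
      have h4 := hC z ((k + 1) * x) hz2 (hzx.trans hkx)
      have h5 : Real.log x ≤ Real.log ((k + 1) * x) := Real.log_le_log hx0 hkx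
      have h6 : 1 + Real.log (1 + Real.log ((k + 1) * x)) ≤ (k + 1) * (1 + y) := by
        have h7 : Real.log ((k + 1) * x) = Real.log (k + 1) + Real.log x :=
          Real.log_mul (by positivity) hx0.ne'
        have h8 : Real.log ((k : ℝ) + 1) ≤ k := by
          have := Real.log_le_sub_one_of_pos (by positivity : (0 : ℝ) < (k : ℝ) + 1)
          linarith
        have h9 : 1 + Real.log ((k + 1) * x) ≤ (k + 1) * (1 + Real.log x) := by
          rw [h7]
          nlinarith [mul_nonneg hk (zero_le_one.trans hl)]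
        have h10 : Real.log (1 + Real.log ((k + 1) * x)) ≤ Real.log (k + 1) + y := by
          refine (Real.log_le_log (by linarith) h9).trans (le_of_eq ?_)
          rw [Real.log_mul (by positivity) (by positivity)]
        nlinarith [mul_nonneg hk hy0]
      have h60 : 0 ≤ 1 + Real.log (1 + Real.log ((k + 1) * x)) := by
        have := Real.log_nonneg (by linarith : (1 : ℝ) ≤ 1 + Real.log ((k + 1) * x))
        linarith
      refine h4.trans ?_
      have e1 : C * ((k + 1) * x) / Real.log ((k + 1) * x) ≤ C * ((k + 1) * x) / Real.log x :=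
        div_le_div_of_nonneg_left (by positivity) (by linarith) h5
      have e2 : (1 + Real.log z) ^ 2 ≤ ((2 + B') * (1 + y)) ^ 2 := pow_le_pow_left₀ hlz0 hlz 2
      have e3 : (1 + Real.log (1 + Real.log ((k + 1) * x))) ^ 4 ≤ ((k + 1) * (1 + y)) ^ 4 :=
        pow_le_pow_left₀ h60 h6 4
      have e4 : C * ((k + 1) * x) / Real.log ((k + 1) * x) * (1 + Real.log z) ^ 2 *
          (1 + Real.log (1 + Real.log ((k + 1) * x))) ^ 4 ≤
          C * ((k + 1) * x) / Real.log x * ((2 + B') * (1 + y)) ^ 2 * ((k + 1) * (1 + y)) ^ 4 := by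
        refine mul_le_mul (mul_le_mul e1 e2 (by positivity) (by positivity)) e3 (by positivity)
          (by positivity)
      refine e4.trans (le_of_eq ?_)
      rw [hW]
      ring
    have h4 := n8_few F Pp τ hD hτ (2 ^ E x) z x W M (le_max_right _ _) hx0 hW0 h3 hM
    rw [abs_div, abs_of_pos hx0, div_le_iff₀ hx0]
    refine h4.trans (le_of_eq ?_)
    rw [hW]
    have hl0 : Real.log x ≠ 0 := by linarith
    field_simp
  have hlim := n8_lim.const_mul (Fintype.card SF.T * D * M * C * (2 + B') ^ 2)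
  rw [mul_zero] at hlim
  exact squeeze_zero_norm' key hlim

end Pool.Agent.SK
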