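import Pool.Agent.SK.VDefs

/-!
# Malle's conjecture for 8T8 over number fields: the classes which become squares in the
quadratic extension
-/

set_option autoImplicit false

open scoped BigOperators Topology
open Filter NumberField IsDedekindDomain

namespace Pool.Agent.SK

open Pool.Agent.H98.MF
open Pool.Agent.H98.MK (sg)
open Pool.Agent.H32.MA (SD)
open Pool.Agent.H32.MQ

theorem slc_mono {S SF : Sys} (F : Qc S SF) {Pp : Set F.Q.P} {τ : F.Q.G → ℝ} {C D : ℝ}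
    (h : Slc F Pp τ C) (hCD : C ≤ D) : Slc F Pp τ D := by
  intro a R hR t
  obtain ⟨κ, α, h1, h2, h3⟩ := h a R hR t
  exact ⟨κ, α, h1.trans hCD, h2, h3⟩

theorem td_abs_sg (x : ZMod 2) : |((sg x : ℤ) : ℝ)| = 1 := by
  have h : sg x = 1 ∨ sg x = -1 := by
    revert x
    decide
  rcases h with h | h
  · rw [h]
    simp
  · rw [h]
    simp

theorem abs_twi {k : Type} [Field k] [NumberField k] {Fr : Frm k} (w : (Gm k →* SD) → ℝ)
    (A : ℝ) (hw : ∀ ρ, |w ρ| ≤ A) (b : Fr.sys.T) (ρ : Gm k →* SD) :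
    |twi (Fr := Fr) w b ρ| ≤ (Fintype.card (Fr.sys.T × Fr.sys.T) : ℝ) * A := by
  unfold twi
  refine (Finset.abs_sum_le_sum_abs _ _).trans ?_
  have h1 : ∀ c ∈ (Finset.univ : Finset (Fr.sys.T × Fr.sys.T)),
      |((sg (b ⬝ᵥ c.2) : ℤ) : ℝ) * w (twS ρ (lrp Fr c.1 c.2))| ≤ A := by
    intro c _
    rw [abs_mul, td_abs_sg, one_mul]
    exact hw _
  refine (Finset.sum_le_sum h1).trans ?_
  rw [Finset.sum_const, Finset.card_univ, nsmul_eq_mul]

theorem td {k L : Type} [Field k] [NumberField k] [Field L] [NumberField L] [Algebra k L]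
    (F : FrP k L) (R0 : Rx k) (X : HX F.Fr L) (hM : X.M = ∅) (j : L →ₐ[k] Om k)
    (h1 : StSlc F R0 X hM j) (h2 : StCjs F X hM) (h9 : SN9) : StTD F R0 X j := by
  intro w A hw hl b hb hv0
  obtain ⟨Pp, D, hD, hs1, hs2⟩ := h1 w A hw hl b hb hv0
  have hA : 0 ≤ A := (abs_nonneg _).trans (hw 1)
  have hK : 0 ≤ (Fintype.card (F.Fr.sys.T × F.Fr.sys.T) : ℝ) * A :=
    mul_nonneg (Nat.cast_nonneg _) hA
  have hbd : ∀ γ, |tauW R0 X j w b γ| ≤
      max D ((Fintype.card (F.Fr.sys.T × F.Fr.sys.T) : ℝ) * A) := by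
    intro γ
    refine le_trans ?_ (le_max_right _ _)
    unfold tauW
    split_ifs with h
    · exact abs_twi w A hw b _
    · rw [abs_zero]
      exact hK
  have key := h9 F.Fr.sys F.FL.sys (Qcof X F.FL F.ov hM) h2 Pp (tauW R0 X j w b)
    (max D ((Fintype.card (F.Fr.sys.T × F.Fr.sys.T) : ℝ) * A)) (le_trans hD (le_max_left _ _))
    hbd (slc_mono _ hs1 (le_max_left _ _)) (slc_mono _ hs2 (le_max_left _ _))
  have e : ∀ x : ℝ, TDs F R0 X j w b x = ∑' g : (gdN (Qcof X F.FL F.ov hM).Q).I,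
      tN (Qcof X F.FL F.ov hM) (tauW R0 X j w b) g.1 *
        Real.exp (-(((Qcof X F.FL F.ov hM).Q.nq g.1 : ℝ) / x)) := by
    intro x
    unfold TDs
    refine tsum_congr fun g => ?_
    refine congrArg₂ (· * ·) ?_ rfl
    unfold tN
    refine congrArg₂ (· * ·) rfl ?_
    have hB := (Qcof X F.FL F.ov hM).B_eq g.1 g.2
    have hB' : (Qof X).B g.1 = Finset.univ.image fun a => (Qcof X F.FL F.ov hM).el a g.1 := hB
    rw [hB']
    exact Finset.sum_image fun a _ a' _ h => ((Qcof X F.FL F.ov hM).el_inj a a' g.1 g.1 g.2 g.2 h).1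
  simp only [e]
  exact key

end Pool.Agent.SK
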