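import Pool.Agent.SK.VDefs

/-!
# Malle's conjecture for 8T8 over number fields: the classes which become squares in the
quadratic extension
-/

set_option autoImplicit false

open scoped BigOperators
open NumberField IsDedekindDomain

namespace Pool.Agent.SK

open Pool.Agent.H98.MF
open Pool.Agent.H32.MQ

section

/-- an element of `k` which is a square in the quadratic extension -/
theorem v1_sq {k L : Type} [Field k] [NumberField k] [Field L] [NumberField L] [Algebra k L]
    {a : kˣ} {α : L} (hq : QE a α) (c : kˣ)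
    (h : IsSquare (Units.map (algebraMap k L : k →* L) c)) : IsSquare c ∨ IsSquare (a * c) := by
  obtain ⟨z, hz⟩ := h
  obtain ⟨x, y, hxy⟩ := Pool.Agent.H98.MF.B.qe_repr hq (z : L)
  have h1 : algebraMap k L (c : k) = (z : L) * (z : L) := congrArg Units.val hz
  rw [hxy] at h1
  have h2 : algebraMap k L ((c : k) - x ^ 2 - a * y ^ 2) = algebraMap k L (2 * x * y) * α := by
    rw [map_sub, map_sub, map_mul, map_mul, map_mul, map_pow, map_pow, map_ofNat]
    linear_combination h1 + algebraMap k L y ^ 2 * hq.sq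
  have h3 : x * y = 0 := by
    by_contra hne
    have h4 : (2 * x * y : k) ≠ 0 := by
      rw [mul_assoc]
      exact mul_ne_zero two_ne_zero hne
    apply qx_not_range hq.sq (Pool.Agent.H98.MF.B.qe_ns hq)
      (((c : k) - x ^ 2 - a * y ^ 2) / (2 * x * y))
    rw [map_div₀, h2, mul_comm, mul_div_assoc, div_self, mul_one]
    exact (map_ne_zero (algebraMap k L)).2 h4
  have h5 : (c : k) = x ^ 2 + a * y ^ 2 := by
    have h6 : algebraMap k L ((c : k) - x ^ 2 - a * y ^ 2) = 0 := by
      rw [h2, mul_assoc, h3, mul_zero, map_zero, zero_mul]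
    have h7 := (map_eq_zero (algebraMap k L)).1 h6
    linear_combination h7
  rcases mul_eq_zero.1 h3 with h6 | h6
  · right
    have hy : y ≠ 0 := by
      rintro rfl
      rw [h6] at h5
      exact c.ne_zero (by rw [h5]; ring)
    refine ⟨a * Units.mk0 y hy, Units.ext ?_⟩
    push_cast
    rw [Units.val_mk0, h5, h6]
    ring
  · left
    have hx : x ≠ 0 := by
      rintro rfl
      rw [h6] at h5
      exact c.ne_zero (by rw [h5]; ring)
    refine ⟨Units.mk0 x hx, Units.ext ?_⟩
    push_cast
    rw [Units.val_mk0, h5, h6]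
    ring

theorem v1_rep {k : Type} [Field k] [NumberField k] (Fr : Frm k) (b : Fr.sys.T) :
    rep Fr (b, ∅) = ∏ j, Fr.u j ^ (b j).val := by
  unfold rep
  rw [Finset.prod_empty, mul_one]

theorem v1_lrp {k : Type} [Field k] [NumberField k] (Fr : Frm k) (b : Fr.sys.T) :
    lrp Fr b 0 = ∏ j, Fr.u j ^ (b j).val := by
  unfold lrp
  simp

end

theorem v1 {k L : Type} [Field k] [NumberField k] [Field L] [NumberField L] [Algebra k L]
    (F : FrP k L) (X : HX F.Fr L) (hM : X.M = ∅) : StV1 F X hM := by
  classical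
  intro b hb
  have h0 : emX F.FL F.Fr (b, ∅) = 0 := hb
  have h1 := co_em X F.FL F.ov hM (b, ∅)
  rw [h0, Finset.biUnion_empty] at h1
  have h2 := h_co F.FL (Units.map (algebraMap k L : k →* L) (rep F.Fr (b, ∅)))
  rw [h1, v1_rep F.FL] at h2
  have h3 : ∏ j, F.FL.u j ^ ((0 : F.FL.sys.T) j).val = 1 := by simp
  rw [h3, mul_one] at h2
  rcases v1_sq X.qe _ h2 with h4 | h4
  · left
    rw [v1_rep F.Fr] at h4
    exact F.Fr.u_ind b h4
  · right
    rw [v1_lrp F.Fr, ← v1_rep F.Fr]
    exact h4

end Pool.Agent.SK
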