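import Pool.Agent.SK.VDefs

/-!
# Malle's conjecture for 8T8 over number fields: the part of the trivial character (row V2)
-/

set_option autoImplicit false

open scoped BigOperators Topology
open Filter NumberField IsDedekindDomain

namespace Pool.Agent.SK

open Pool.Agent.H98.MF
open Pool.Agent.H98.MK (sg)
open Pool.Agent.H98.ML (norb hind)
open Pool.Agent.H32.MA (SD)
open Pool.Agent.H32.MQ

section

variable {k L : Type} [Field k] [NumberField k] [Field L] [NumberField L] [Algebra k L]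
  (F : FrP k L) (R0 : Rx k) (X : HX F.Fr L) (hM : X.M = ∅) (j : L →ₐ[k] Om k)

/-- membership in the two descriptions -/
theorem v2_mem (g : Finset X.PX) (γ : HX.GX L) : γ ∈ (Qof X).B g ↔ γ ∈ X.Bs g :=
  hi_mem X (h_cardB X)

include hM in
/-- the spin hypothesis -/
theorem v2_spn (hs : FSpin X F.FL) :
    Spn (Qcof X F.FL F.ov hM) (fun a t => hsW X F.FL (a, t)) := by
  classical
  intro a g hg
  have hmem : (Qcof X F.FL F.ov hM).el a g ∈ (Qof X).B g := by
    have h := (Qcof X F.FL F.ov hM).B_eq g hg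
    have h2 : (Qcof X F.FL F.ov hM).el a g ∈ (Qcof X F.FL F.ov hM).Q.B g := by
      rw [h]
      exact Finset.mem_image_of_mem _ (Finset.mem_univ _)
    exact h2
  have h1 := hs F.ov hM g hg _ hmem
  have h2 : coL F.FL ((Qcof X F.FL F.ov hM).el a g) = (a, typ (Qcof X F.FL F.ov hM) g) :=
    (Qcof X F.FL F.ov hM).co_el a g hg
  rw [h2] at h1
  exact h1

theorem v2_card {g : Finset X.PX} (hg : (Qof X).Gd g) : ((Qof X).shd g).card = g.card := by
  classical
  unfold Qd.shd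
  exact Finset.card_image_of_injOn fun a ha b hb h => hg a ha b hb h

include hM in
theorem v2_coef (hm : FMain R0 X j F.FL) (w : (Gm k →* SD) → ℝ) (hsl : SLoc F.Fr w)
    (g : Finset X.PX) (hg : (Qof X).Gd g) (hne : g.Nonempty) :
    (∑ γ ∈ (Qof X).B g, tauW R0 X j w 0 γ *
      ∏ p ∈ (Qof X).shd g, (1 + ((sg ((0 : F.Fr.sys.T) ⬝ᵥ F.Fr.sys.ty p) : ℤ) : ℝ))) =
    tT (Qof X) (fun γ => thW R0 X j F.FL w (coL F.FL γ)) (fun _ => 1) g := by
  classical
  unfold tT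
  rw [Finset.prod_const_one, one_mul]
  refine Finset.sum_congr rfl fun γ hγ => ?_
  rw [← (hm F.ov hM w hsl).1 g hg hne γ hγ]
  congr 1
  have h1 : ∀ p ∈ (Qof X).shd g,
      (1 + ((sg ((0 : F.Fr.sys.T) ⬝ᵥ F.Fr.sys.ty p) : ℤ) : ℝ)) = 2 := by
    intro p _
    rw [zero_dotProduct]
    norm_num [Pool.Agent.H98.MK.sg]
  rw [Finset.prod_congr rfl h1, Finset.prod_const, v2_card F X hg]
  rfl

include hM in
theorem v2 (hm : FMain R0 X j F.FL) (hs : FSpin X F.FL) (hd : FDec R0 X j) (hq : AQz X j)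
    (f2 : SF2) (g1 : SG1) (f9 : SF9) (f14 : SF14) : StV2 F R0 X j := by
  classical
  intro w A hw hsl
  obtain ⟨K, hK1, hK⟩ := f2 _ _ (Qcof X F.FL F.ov hM)
  obtain ⟨l, hl0, hl⟩ := f9 _ _ (Qcof X F.FL F.ov hM)
  have hSpn := v2_spn F X hM hs
  have h14 := f14 _ _ (Qcof X F.FL F.ov hM) (fun a t => thW R0 X j F.FL w (a, t)) _ hSpn l hl
  have hth := (hm F.ov hM w hsl).2 fun ρ => (hw ρ).1
  obtain ⟨S, hS⟩ : ∃ S : ℝ, S = ∑ a : F.FL.sys.T, ∑ τ : F.FL.sys.T, thW R0 X j F.FL w (a, τ) *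
      (1 + ((sg (hsW X F.FL (a, τ)) : ℤ) : ℝ)) := ⟨_, rfl⟩
  have hsg : ∀ z : ZMod 2, (0 : ℝ) ≤ 1 + ((sg z : ℤ) : ℝ) := by
    intro z
    unfold Pool.Agent.H98.MK.sg
    split_ifs <;> norm_num
  have hS0 : 0 ≤ S := by
    rw [hS]
    exact Finset.sum_nonneg fun a _ => Finset.sum_nonneg fun τ _ =>
      mul_nonneg (hth.1 _) (hsg _)
  refine ⟨l * S / 2 ^ F.FL.sys.m, by positivity, ?_, ?_⟩
  · -- the limit
    obtain ⟨Θ, hΘ⟩ : ∃ Θ : (Qof X).G → ℝ, Θ = fun γ => thW R0 X j F.FL w (coL F.FL γ) :=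
      ⟨_, rfl⟩
    obtain ⟨A', hA'⟩ : ∃ A' : ℝ, ∀ γ, |Θ γ| ≤ A' := by
      refine ⟨∑ z : F.FL.sys.T × F.FL.sys.T, |thW R0 X j F.FL w z|, fun γ => ?_⟩
      rw [hΘ]
      exact Finset.single_le_sum (f := fun z => |thW R0 X j F.FL w z|)
        (fun z _ => abs_nonneg _) (Finset.mem_univ (coL F.FL γ))
    have hG := fun x hx => g1 _ (Qof X) Θ A' K (fun _ => 1) hA' (fun _ => by simp)
      (by linarith) hK x hx
    obtain ⟨f, hf⟩ : ∃ f : Finset X.PX → ℝ, f = fun g => (∑ γ ∈ (Qof X).B g,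
      tauW R0 X j w 0 γ * ∏ p ∈ (Qof X).shd g,
        (1 + ((sg ((0 : F.Fr.sys.T) ⬝ᵥ F.Fr.sys.ty p) : ℤ) : ℝ))) := ⟨_, rfl⟩
    have hGd0 : (Qof X).Gd ∅ := fun a ha => absurd ha (Finset.notMem_empty _)
    obtain ⟨D, hD⟩ : ∃ D : ℝ, D = f ∅ - tT (Qof X) Θ (fun _ => 1) ∅ := ⟨_, rfl⟩
    have key : ∀ x : ℝ, 0 < x → Ab F R0 X j w 0 x =
        TT (Qof X) Θ (fun _ => 1) x + D * Real.exp (-(((Qof X).nq ∅ : ℝ) / x)) := by
      intro x hx
      have e1 : ∀ g : (gdN (Qof X)).I, f g.1 * Real.exp (-(((Qof X).nq g.1 : ℝ) / x)) =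
          tT (Qof X) Θ (fun _ => 1) g.1 * Real.exp (-(((Qof X).nq g.1 : ℝ) / x)) +
          if g = (⟨∅, hGd0⟩ : (gdN (Qof X)).I) then
            D * Real.exp (-(((Qof X).nq ∅ : ℝ) / x)) else 0 := by
        intro g
        by_cases h0 : g = (⟨∅, hGd0⟩ : (gdN (Qof X)).I)
        · rw [if_pos h0, h0, hD]
          show f ∅ * Real.exp (-(((Qof X).nq ∅ : ℝ) / x)) = tT (Qof X) Θ (fun _ => 1) ∅ *
            Real.exp (-(((Qof X).nq ∅ : ℝ) / x)) + _
          ring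
        · rw [if_neg h0, add_zero]
          have h1 : (g.1 : Finset X.PX).Nonempty := by
            rw [Finset.nonempty_iff_ne_empty]
            intro h
            exact h0 (Subtype.ext h)
          have h2 : f g.1 = tT (Qof X) Θ (fun _ => 1) g.1 := by
            rw [hf, hΘ]
            exact v2_coef F R0 X hM j hm w hsl g.1 g.2 h1
          rw [h2]
      have e2 : Ab F R0 X j w 0 x = ∑' g : (gdN (Qof X)).I,
          f g.1 * Real.exp (-(((Qof X).nq g.1 : ℝ) / x)) := by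
        rw [hf]
        rfl
      rw [e2, tsum_congr e1, Summable.tsum_add (hG x hx).1
        (summable_of_ne_finset_zero (s := {(⟨∅, hGd0⟩ : (gdN (Qof X)).I)}) fun g hg =>
          if_neg fun h => hg (by rw [h]; exact Finset.mem_singleton_self _)), tsum_ite_eq]
      rfl
    have h15 : Tendsto (fun x : ℝ => TT (Qof X) Θ (fun _ => 1) x / x) atTop
        (𝓝 (l * S / 2 ^ F.FL.sys.m)) := by
      rw [hΘ, hS]
      exact h14
    have h16 : Tendsto (fun x : ℝ => D * Real.exp (-(((Qof X).nq ∅ : ℝ) / x)) / x) atTop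
        (𝓝 0) := by
      refine squeeze_zero_norm' (a := fun x : ℝ => |D| / x) ?_ ?_
      · filter_upwards [eventually_gt_atTop 0] with x hx
        rw [norm_div, norm_mul, Real.norm_eq_abs, Real.norm_eq_abs, Real.norm_eq_abs,
          Real.abs_exp, abs_of_pos hx]
        refine div_le_div_of_nonneg_right ?_ hx.le
        refine mul_le_of_le_one_right (abs_nonneg _) (Real.exp_le_one_iff.2 ?_)
        rw [neg_nonpos]
        positivity
      · exact tendsto_const_nhds.div_atTop tendsto_id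
    have h17 := h15.add h16
    rw [add_zero] at h17
    refine h17.congr' ?_
    filter_upwards [eventually_gt_atTop 0] with x hx
    rw [key x hx, add_div]
  · -- positivity
    rintro ⟨ρ, hρ, hwρ⟩
    obtain ⟨g, hg, γ, hγ, hργ⟩ := hd.1 ρ hρ
    have hγB : γ ∈ (Qof X).B g := (v2_mem F X g γ).2 hγ
    have h1 := hth.2 g hg γ hγB ρ hργ hwρ
    have h2 : hsW X F.FL (coL F.FL γ) = 0 := by
      rw [← hs F.ov hM g hg γ hγB]
      exact Finset.sum_eq_zero fun Q hQ => hq g hg γ hγ ρ hργ.2 Q hQ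
    have h3 : 0 < S := by
      rw [hS]
      refine Finset.sum_pos' (fun a _ => Finset.sum_nonneg fun τ _ =>
        mul_nonneg (hth.1 _) (hsg _)) ⟨(coL F.FL γ).1, Finset.mem_univ _, ?_⟩
      refine Finset.sum_pos' (fun τ _ => mul_nonneg (hth.1 _) (hsg _))
        ⟨(coL F.FL γ).2, Finset.mem_univ _, ?_⟩
      show 0 < thW R0 X j F.FL w (coL F.FL γ) * (1 + ((sg (hsW X F.FL (coL F.FL γ)) : ℤ) : ℝ))
      rw [h2]
      have : (1 : ℝ) + ((sg 0 : ℤ) : ℝ) = 2 := by norm_num [Pool.Agent.H98.MK.sg]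
      rw [this]
      positivity
    positivity

end

end Pool.Agent.SK
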