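import Pool.Agent.SK.VDefs

/-!
# Malle's conjecture for 8T8 over number fields: the parts of the nontrivial characters (row V3)
-/

set_option autoImplicit false

open scoped BigOperators Topology
open Filter NumberField IsDedekindDomain

namespace Pool.Agent.SK

open Pool.Agent.H98.MF
open Pool.Agent.H98.MK (sg)
open Pool.Agent.H98.ML (norb hind)
open Pool.Agent.H32.MA (SD)
open Pool.Agent.H32.MQ

section

variable {S SF : Sys} (G : Qc S SF)

theorem v3_card (g : Finset G.Q.P) (hg : G.Q.Gd g) : (G.Q.shd g).card = g.card := by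
  classical
  unfold Qd.shd
  refine Finset.card_image_of_injOn ?_
  intro a ha b hb h
  exact hg a ha b hb h

theorem v3_prod (g : Finset G.Q.P) (hg : G.Q.Gd g) (f : S.P → ℝ) :
    ∏ p ∈ G.Q.shd g, f p = ∏ q ∈ g, f (G.Q.sh q) := by
  classical
  unfold Qd.shd
  refine Finset.prod_image ?_
  intro a ha b hb h
  exact hg a ha b hb h

theorem v3_wb (b : S.T) (g : Finset G.Q.P) (hg : G.Q.Gd g) :
    ∏ p ∈ G.Q.shd g, (1 + ((sg (b ⬝ᵥ S.ty p) : ℤ) : ℝ)) =
      2 ^ g.card * ∏ q ∈ g, wb G b q := by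
  rw [v3_prod G g hg, ← Finset.prod_const, ← Finset.prod_mul_distrib]
  refine Finset.prod_congr rfl fun q _ => ?_
  unfold wb
  ring

theorem v3_wb_nonneg (b : S.T) (q : G.Q.P) : 0 ≤ wb G b q ∧ wb G b q ≤ 1 := by
  unfold wb sg
  split_ifs <;> norm_num

theorem v3_em (b : S.T) (h : G.em (b, ∅) = 0) (q : G.Q.P) : b ⬝ᵥ S.ty (G.Q.sh q) = 0 := by
  classical
  have h1 := G.em_s (b, ∅) q (Finset.notMem_empty _)
  unfold Sys.ex at h1
  rw [h] at h1
  simpa using h1

theorem v3_em_prod (b : S.T) (h : G.em (b, ∅) = 0) (g : Finset G.Q.P) (hg : G.Q.Gd g) :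
    ∏ p ∈ G.Q.shd g, (1 + ((sg (b ⬝ᵥ S.ty p) : ℤ) : ℝ)) = 2 ^ g.card := by
  rw [v3_prod G g hg, ← Finset.prod_const]
  refine Finset.prod_congr rfl fun q _ => ?_
  rw [v3_em G b h q]
  unfold sg
  norm_num

end

section

variable {k L : Type} [Field k] [NumberField k] [Field L] [NumberField L] [Algebra k L]

/-- Row V3: the parts of the other characters -/
theorem v3 (F : FrP k L) (R0 : Rx k) (X : HX F.Fr L) (hM : X.M = ∅) (j : L →ₐ[k] Om k)
    (hb : FBd R0 X j) (hv : FVan R0 X j) (hs : FSpin X F.FL) (h1 : StV1 F X hM)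
    (ht : StTD F R0 X j) (f2 : SF2) (g1 : SG1) (f15 : SF15) : StV3 F R0 X j := by
  classical
  intro w A hw hloc b hb0
  by_cases hem : (Qcof X F.FL F.ov hM).em (b, ∅) = 0
  · -- the sum is `TDs`
    have e1 : ∀ x, Ab F R0 X j w b x = TDs F R0 X j w b x := by
      intro x
      unfold Ab TDs
      refine tsum_congr fun g => ?_
      congr 1
      have h2 := v3_em_prod (Qcof X F.FL F.ov hM) b hem g.1 g.2
      have h3 : ∏ p ∈ (Qof X).shd g.1, (1 + ((sg (b ⬝ᵥ F.Fr.sys.ty p) : ℤ) : ℝ)) =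
          2 ^ g.1.card := h2
      rw [Finset.mul_sum]
      refine Finset.sum_congr rfl fun γ _ => ?_
      rw [h3, mul_comm]
    have hsq : IsSquare (X.a * lrp F.Fr b 0) := (h1 b hem).resolve_left hb0
    by_cases hall : ∀ v : Pl k, Pool.Agent.H98.MF.hv v (X.a : k) ((-1 : kˣ) : k) = 0
    · have h2 := ht w A hw hloc b hsq hall
      refine h2.congr fun x => ?_
      rw [e1]
    · push Not at hall
      have h2 := hv hM w hloc b hsq hall
      have e2 : ∀ x, Ab F R0 X j w b x = 0 := by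
        intro x
        unfold Ab
        have h3 : ∀ g : (gdN (Qof X)).I, (∑ γ ∈ (Qof X).B g.1, tauW R0 X j w b γ *
            ∏ p ∈ (Qof X).shd g.1, (1 + ((sg (b ⬝ᵥ F.Fr.sys.ty p) : ℤ) : ℝ))) *
              Real.exp (-(((Qof X).nq g.1 : ℝ) / x)) = 0 := by
          intro g
          rw [Finset.sum_eq_zero fun γ _ => by rw [h2 γ, zero_mul], zero_mul]
        rw [tsum_congr h3, tsum_zero]
      refine tendsto_const_nhds.congr fun x => ?_
      rw [e2, zero_div]
  · -- the bound by the main sum with weights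
    have hA : 0 ≤ A := le_trans (abs_nonneg _) (hw 1)
    have hsp : Spn (Qcof X F.FL F.ov hM) (fun a τ => hsW X F.FL (a, τ)) := by
      intro a g hg
      have h2 : (Qcof X F.FL F.ov hM).el a g ∈ (Qcof X F.FL F.ov hM).Q.B g := by
        rw [(Qcof X F.FL F.ov hM).B_eq g hg]
        exact Finset.mem_image_of_mem _ (Finset.mem_univ a)
      have h3 := hs F.ov hM g hg _ h2
      have h4 := (Qcof X F.FL F.ov hM).co_el a g hg
      have h5 : coL F.FL ((Qcof X F.FL F.ov hM).el a g) =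
          (a, F.FL.sys.tys (g.image (Qcof X F.FL F.ov hM).io)) := h4
      rw [h5] at h3
      exact h3
    have h15 := f15 _ _ (Qcof X F.FL F.ov hM) (fun _ _ => 1) _ hsp b hem
    obtain ⟨K, hK1, hK⟩ := f2 _ _ (Qcof X F.FL F.ov hM)
    set D : ℝ := 4 ^ F.Fr.sys.m * A with hD
    have hD0 : 0 ≤ D := by positivity
    have hbd : ∀ x : ℝ, 0 < x → |Ab F R0 X j w b x| ≤
        D * TT (Qcof X F.FL F.ov hM).Q (th (Qcof X F.FL F.ov hM) fun _ _ => 1)
          (wb (Qcof X F.FL F.ov hM) b) x := by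
      intro x hx
      have hsum := (g1 _ (Qcof X F.FL F.ov hM).Q (th (Qcof X F.FL F.ov hM) fun _ _ => 1) 1 K
        (wb (Qcof X F.FL F.ov hM) b) (fun γ => by unfold th; norm_num)
        (fun p => by
          have h := v3_wb_nonneg (Qcof X F.FL F.ov hM) b p
          rw [abs_of_nonneg h.1]
          exact h.2) (le_trans zero_le_one hK1) hK x hx).1
      have h2 := (hsum.mul_left D).hasSum
      rw [tsum_mul_left] at h2
      have h3 : ∀ g : (gdN (Qof X)).I, ‖(∑ γ ∈ (Qof X).B g.1, tauW R0 X j w b γ *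
          ∏ p ∈ (Qof X).shd g.1, (1 + ((sg (b ⬝ᵥ F.Fr.sys.ty p) : ℤ) : ℝ))) *
            Real.exp (-(((Qof X).nq g.1 : ℝ) / x))‖ ≤
          D * (tT (Qcof X F.FL F.ov hM).Q (th (Qcof X F.FL F.ov hM) fun _ _ => 1)
            (wb (Qcof X F.FL F.ov hM) b) g.1 *
              Real.exp (-(((Qcof X F.FL F.ov hM).Q.nq g.1 : ℝ) / x))) := by
        intro g
        rw [norm_mul, Real.norm_of_nonneg (Real.exp_nonneg _), ← mul_assoc]
        refine mul_le_mul_of_nonneg_right ?_ (Real.exp_nonneg _)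
        have h4 := v3_wb (Qcof X F.FL F.ov hM) b g.1 g.2
        have h5 : ∏ p ∈ (Qof X).shd g.1, (1 + ((sg (b ⬝ᵥ F.Fr.sys.ty p) : ℤ) : ℝ)) =
            2 ^ g.1.card * ∏ q ∈ g.1, wb (Qcof X F.FL F.ov hM) b q := h4
        have hw0 : 0 ≤ ∏ q ∈ g.1, wb (Qcof X F.FL F.ov hM) b q :=
          Finset.prod_nonneg fun q _ => (v3_wb_nonneg (Qcof X F.FL F.ov hM) b q).1
        unfold tT
        rw [Finset.mul_sum, Finset.mul_sum]
        refine (norm_sum_le _ _).trans ?_
        refine Finset.sum_le_sum fun γ hγ => ?_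
        have h6 := hb hM w A hw g.1 g.2 γ hγ b
        rw [h5, norm_mul, Real.norm_eq_abs, Real.norm_eq_abs, abs_mul, abs_of_nonneg hw0,
          abs_of_nonneg (show (0 : ℝ) ≤ 2 ^ g.1.card by positivity)]
        calc |tauW R0 X j w b γ| * (2 ^ g.1.card * ∏ q ∈ g.1, wb (Qcof X F.FL F.ov hM) b q)
            = (|tauW R0 X j w b γ| * 2 ^ g.1.card) *
                ∏ q ∈ g.1, wb (Qcof X F.FL F.ov hM) b q := by ring
          _ ≤ (4 ^ F.Fr.sys.m * A * prc (Qof X) γ g.1) *
                ∏ q ∈ g.1, wb (Qcof X F.FL F.ov hM) b q :=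
              mul_le_mul_of_nonneg_right h6 hw0
          _ = D * ((∏ q ∈ g.1, wb (Qcof X F.FL F.ov hM) b q) *
                (1 * prc (Qof X) γ g.1)) := by rw [hD]; ring
      have h7 := tsum_of_norm_bounded h2 h3
      rw [Real.norm_eq_abs] at h7
      exact h7
    have hlim : Tendsto (fun x => D * (TT (Qcof X F.FL F.ov hM).Q
        (th (Qcof X F.FL F.ov hM) fun _ _ => 1) (wb (Qcof X F.FL F.ov hM) b) x / x)) atTop
          (𝓝 0) := by
      have h := h15.const_mul D
      rwa [mul_zero] at h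
    refine squeeze_zero_norm' ?_ hlim
    filter_upwards [eventually_gt_atTop 0] with x hx
    rw [Real.norm_eq_abs, abs_div, abs_of_pos hx, ← mul_div_assoc]
    exact div_le_div_of_nonneg_right (hbd x hx) hx.le

end

end Pool.Agent.SK
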