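import Pool.Agent.SK.VDefs

/-!
# Malle's conjecture for 8T8 over number fields: the limit for a weight with constant `qS`
(row V4)
-/

set_option autoImplicit false

open scoped BigOperators Topology
open Filter NumberField IsDedekindDomain

namespace Pool.Agent.SK

open Pool.Agent.H98.MF
open Pool.Agent.H98.MK (sg)
open Pool.Agent.H98.ML (norb hind)
open Pool.Agent.H32.MA (SD)
open Pool.Agent.H32.MQ

section

variable {k L : Type} [Field k] [NumberField k] [Field L] [NumberField L] [Algebra k L]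
  (F : FrP k L) (R0 : Rx k) (X : HX F.Fr L) (j : L →ₐ[k] Om k)

/-- sums over `Hd` as sums over the good sets -/
theorem v4_key (hd : FDec R0 X j) (hf : ∀ g, (Qof X).Gd g → (Hg R0 X j g).Finite)
    (u : (Gm k →* SD) → ℝ) (hu : ∀ ρ, 0 ≤ u ρ)
    (hs : Summable fun g : (gdN (Qof X)).I => ∑ᶠ ρ ∈ Hg R0 X j g.1, u ρ) :
    Summable (fun ρ : Hd R0 X => u ρ.1) ∧
      ∑' ρ : Hd R0 X, u ρ.1 = ∑' g : (gdN (Qof X)).I, ∑ᶠ ρ ∈ Hg R0 X j g.1, u ρ := by
  classical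
  obtain ⟨h1, h2, h3⟩ := hd
  let fm : (Σ g : (gdN (Qof X)).I, (Hg R0 X j g.1 : Set (Gm k →* SD))) → Hd R0 X :=
    fun z => ⟨z.2.1, h2 _ _ z.2.2⟩
  have hbij : Function.Bijective fm := by
    constructor
    · rintro ⟨g, ρ, hρ⟩ ⟨g', ρ', hρ'⟩ h
      have e1 : ρ = ρ' := congrArg Subtype.val h
      subst e1
      have e2 : g = g' := Subtype.ext (h3 _ _ ρ hρ hρ')
      subst e2
      rfl
    · rintro ⟨ρ, hρ⟩
      obtain ⟨g, hg, hρg⟩ := h1 ρ hρ
      exact ⟨⟨⟨g, hg⟩, ⟨ρ, hρg⟩⟩, rfl⟩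
  have hfin : ∀ g : (gdN (Qof X)).I, Finite (Hg R0 X j g.1) := fun g =>
    (hf g.1 g.2).to_subtype
  have hin : ∀ g : (gdN (Qof X)).I,
      ∑' ρ : Hg R0 X j g.1, u ρ.1 = ∑ᶠ ρ ∈ Hg R0 X j g.1, u ρ := by
    intro g
    have := hfin g
    rw [← finsum_set_coe_eq_finsum_mem, tsum_eq_finsum (Set.toFinite _)]
  have hsig : Summable fun z : (Σ g : (gdN (Qof X)).I, (Hg R0 X j g.1 : Set (Gm k →* SD))) =>
      u z.2.1 := by
    rw [summable_sigma_of_nonneg fun z => hu _]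
    constructor
    · intro g
      have := hfin g
      exact Summable.of_finite
    · refine hs.congr fun g => ?_
      exact (hin g).symm
  let e := Equiv.ofBijective fm hbij
  have hc : (fun ρ : Hd R0 X => u ρ.1) ∘ e =
      fun z : (Σ g : (gdN (Qof X)).I, (Hg R0 X j g.1 : Set (Gm k →* SD))) => u z.2.1 := rfl
  refine ⟨?_, ?_⟩
  · rw [← e.summable_iff, hc]
    exact hsig
  · rw [← e.tsum_eq]
    show ∑' z : (Σ g : (gdN (Qof X)).I, (Hg R0 X j g.1 : Set (Gm k →* SD))), u z.2.1 = _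
    rw [hsig.tsum_sigma' fun g => by
      have := hfin g
      exact Summable.of_finite]
    exact tsum_congr hin

/-- the size -/
theorem v4_sz {ρ : Gm k →* SD} {q n : ℕ} (h : dS ρ = q * n ^ 3) :
    sz ρ = (q : ℝ) ^ (1 / 3 : ℝ) * n := by
  have h1 : dsc ρ = q * n ^ 3 := h
  unfold sz
  rw [h1]
  push_cast
  rw [Real.mul_rpow (by positivity) (by positivity)]
  congr 1
  rw [← Real.rpow_natCast, ← Real.rpow_mul (by positivity)]
  norm_num

/-- absolute convergence of the parts -/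
theorem v4_sum (hb : FBd R0 X j) (f2 : SF2) (g1 : SG1) (w : (Gm k →* SD) → ℝ) (A : ℝ)
    (hw : ∀ ρ, |w ρ| ≤ A) (b : F.Fr.sys.T) (hM : X.M = ∅) (y : ℝ) (hy : 0 < y) :
    Summable fun g : (gdN (Qof X)).I => (∑ γ ∈ (Qof X).B g.1, tauW R0 X j w b γ *
      ∏ p ∈ (Qof X).shd g.1, (1 + ((sg (b ⬝ᵥ F.Fr.sys.ty p) : ℤ) : ℝ))) *
        Real.exp (-(((Qof X).nq g.1 : ℝ) / y)) := by
  classical
  obtain ⟨K, hK1, hK⟩ := f2 _ _ (Qcof X F.FL F.ov hM)
  have h1 := (g1 _ (Qof X) (fun _ => 1) 1 K (fun _ => 1) (fun _ => by simp) (fun _ => by simp)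
    (by linarith) hK y hy).1
  have h2 := h1.mul_left ((4 : ℝ) ^ F.Fr.sys.m * A)
  refine Summable.of_norm_bounded h2 fun g => ?_
  rw [Real.norm_eq_abs, abs_mul, Real.abs_exp, ← mul_assoc]
  refine mul_le_mul_of_nonneg_right ?_ (Real.exp_pos _).le
  unfold tT
  rw [Finset.prod_const_one, one_mul, Finset.mul_sum]
  refine (Finset.abs_sum_le_sum_abs _ _).trans (Finset.sum_le_sum fun γ hγ => ?_)
  rw [abs_mul]
  have h3 : |∏ p ∈ (Qof X).shd g.1, (1 + ((sg (b ⬝ᵥ F.Fr.sys.ty p) : ℤ) : ℝ))| ≤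
      2 ^ g.1.card := by
    have hc : ((Qof X).shd g.1).card ≤ g.1.card := by
      unfold Qd.shd
      exact Finset.card_image_le
    rw [Finset.abs_prod]
    refine (Finset.prod_le_prod (fun _ _ => abs_nonneg _) (g := fun _ => (2 : ℝ))
      fun p _ => ?_).trans ?_
    · unfold Pool.Agent.H98.MK.sg
      split_ifs <;> norm_num
    · rw [Finset.prod_const]
      exact pow_le_pow_right₀ (by norm_num) hc
  calc |tauW R0 X j w b γ| *
        |∏ p ∈ (Qof X).shd g.1, (1 + ((sg (b ⬝ᵥ F.Fr.sys.ty p) : ℤ) : ℝ))|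
      ≤ |tauW R0 X j w b γ| * 2 ^ g.1.card := mul_le_mul_of_nonneg_left h3 (abs_nonneg _)
    _ ≤ 4 ^ F.Fr.sys.m * A * prc (Qof X) γ g.1 := hb hM w A hw g.1 g.2 γ hγ b
    _ = 4 ^ F.Fr.sys.m * A * (1 * prc (Qof X) γ g.1) := by rw [one_mul]

/-- V4: the limit for a weight with constant `qS` -/
theorem v4 (hM : X.M = ∅) (hf : FSum R0 X j) (hd : FDec R0 X j) (hds : FDsc R0 X j F.FL)
    (hb : FBd R0 X j) (f2 : SF2) (g1 : SG1) (h2 : StV2 F R0 X j) (h3 : StV3 F R0 X j) :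
    StV4 F R0 X := by
  classical
  intro w A q hw hsl hq hqw
  have hA : ∀ ρ, |w ρ| ≤ A := fun ρ => by
    rw [abs_of_nonneg (hw ρ).1]
    exact (hw ρ).2
  obtain ⟨c, hc⟩ : ∃ c : ℝ, c = (q : ℝ) ^ (1 / 3 : ℝ) := ⟨_, rfl⟩
  have hc0 : 0 < c := by
    rw [hc]
    have : (0 : ℝ) < q := by exact_mod_cast hq
    positivity
  -- the sum over a good set
  have hcell : ∀ x : ℝ, 0 < x → ∀ g : (gdN (Qof X)).I,
      ∑ᶠ ρ ∈ Hg R0 X j g.1, w ρ * Real.exp (-(sz ρ / x)) =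
        2 * ((2 : ℝ) ^ F.Fr.sys.m)⁻¹ * ∑ b : F.Fr.sys.T, (∑ γ ∈ (Qof X).B g.1,
          tauW R0 X j w b γ *
            ∏ p ∈ (Qof X).shd g.1, (1 + ((sg (b ⬝ᵥ F.Fr.sys.ty p) : ℤ) : ℝ))) *
              Real.exp (-(((Qof X).nq g.1 : ℝ) / (x / c))) := by
    intro x hx g
    have e1 : ∑ᶠ ρ ∈ Hg R0 X j g.1, w ρ * Real.exp (-(sz ρ / x)) =
        ∑ᶠ ρ ∈ Hg R0 X j g.1, w ρ * Real.exp (-(((Qof X).nq g.1 : ℝ) / (x / c))) := by
      refine finsum_mem_congr rfl fun ρ hρ => ?_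
      by_cases h0 : w ρ = 0
      · rw [h0, zero_mul, zero_mul]
      · have e2 : sz ρ = (q : ℝ) ^ (1 / 3 : ℝ) * (Qof X).nq g.1 := by
          apply v4_sz
          rw [(hds F.ov hM).1 g.1 g.2 ρ hρ, hqw ρ h0]
        rw [e2, ← hc]
        congr 3
        field_simp
    rw [e1, ← finsum_mem_mul, (hf hM w hsl g.1 g.2).2, mul_assoc, Finset.sum_mul]
  -- summability
  have hsb : ∀ x : ℝ, 0 < x → ∀ b : F.Fr.sys.T, Summable fun g : (gdN (Qof X)).I =>
      (∑ γ ∈ (Qof X).B g.1, tauW R0 X j w b γ *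
        ∏ p ∈ (Qof X).shd g.1, (1 + ((sg (b ⬝ᵥ F.Fr.sys.ty p) : ℤ) : ℝ))) *
          Real.exp (-(((Qof X).nq g.1 : ℝ) / (x / c))) := fun x hx b =>
    v4_sum F R0 X j hb f2 g1 w A hA b hM (x / c) (by positivity)
  have hall : ∀ x : ℝ, 0 < x →
      Summable (fun ρ : Hd R0 X => w ρ.1 * Real.exp (-(sz ρ.1 / x))) ∧
        LW F R0 X w x = 2 * ((2 : ℝ) ^ F.Fr.sys.m)⁻¹ *
          ∑ b : F.Fr.sys.T, Ab F R0 X j w b (x / c) := by
    intro x hx
    have hs1 : Summable fun g : (gdN (Qof X)).I =>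
        ∑ᶠ ρ ∈ Hg R0 X j g.1, w ρ * Real.exp (-(sz ρ / x)) := by
      rw [summable_congr (hcell x hx)]
      exact (summable_sum fun b _ => hsb x hx b).mul_left _
    obtain ⟨k1, k2⟩ := v4_key F R0 X j hd (fun g hg => (hf hM w hsl g hg).1)
      (fun ρ => w ρ * Real.exp (-(sz ρ / x)))
      (fun ρ => mul_nonneg (hw ρ).1 (Real.exp_pos _).le) hs1
    refine ⟨k1, ?_⟩
    unfold LW
    rw [k2, tsum_congr (hcell x hx), tsum_mul_left,
      Summable.tsum_finsetSum fun b _ => hsb x hx b]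
    rfl
  refine ⟨fun x hx => (hall x hx).1, ?_⟩
  obtain ⟨l, hl0, hl, hlp⟩ := h2 w A hw hsl
  have hAb : ∀ b : F.Fr.sys.T, Tendsto (fun x => Ab F R0 X j w b x / x) atTop
      (𝓝 (if b = 0 then l else 0)) := by
    intro b
    split_ifs with h
    · rw [h]
      exact hl
    · exact h3 w A hA hsl b h
  have hlim : Tendsto (fun x => ∑ b : F.Fr.sys.T, Ab F R0 X j w b x / x) atTop (𝓝 l) := by
    have := tendsto_finsetSum (Finset.univ : Finset F.Fr.sys.T) fun b _ => hAb b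
    rw [Finset.sum_ite_eq' Finset.univ (0 : F.Fr.sys.T) fun _ => l,
      if_pos (Finset.mem_univ _)] at this
    exact this
  have hdiv : Tendsto (fun x : ℝ => x / c) atTop atTop := tendsto_id.atTop_div_const hc0
  refine ⟨2 * ((2 : ℝ) ^ F.Fr.sys.m)⁻¹ * c⁻¹ * l, by positivity, ?_, fun h => ?_⟩
  · have h5 := (hlim.comp hdiv).const_mul (2 * ((2 : ℝ) ^ F.Fr.sys.m)⁻¹ * c⁻¹)
    refine h5.congr' ?_
    filter_upwards [eventually_gt_atTop 0] with x hx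
    rw [(hall x hx).2]
    show _ * ∑ b : F.Fr.sys.T, Ab F R0 X j w b (x / c) / (x / c) = _
    rw [← Finset.sum_div]
    field_simp
  · have := hlp h
    positivity

end

end Pool.Agent.SK
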