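import Pool.Agent.SK.VDefs

/-!
# Malle's conjecture for 8T8 over number fields: the limit for a weight (row V5)
-/

set_option autoImplicit false

open scoped BigOperators Topology
open Filter NumberField IsDedekindDomain

namespace Pool.Agent.SK

open Pool.Agent.H98.MF
open Pool.Agent.H98.MK (sg)
open Pool.Agent.H98.ML (norb hind)
open Pool.Agent.H32.MA (SD)
open Pool.Agent.H32.MQ

section

variable {k L : Type} [Field k] [NumberField k] [Field L] [NumberField L] [Algebra k L]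

theorem v5_nrm (P : HeightOneSpectrum (𝓞 k)) : 1 ≤ nrm P := by
  unfold nrm
  have h : Ideal.absNorm P.asIdeal ≠ 0 := by
    rw [Ne, Ideal.absNorm_eq_zero_iff]
    exact P.ne_bot
  omega

theorem v5_qS (R0 : Rx k) (Fr : Frm k) (ρ : Gm k →* SD) : 1 ≤ qS R0 Fr ρ := by
  unfold qS
  refine Finset.one_le_prod' fun P _ => ?_
  exact Nat.one_le_pow _ _ (v5_nrm P)

/-- Row V5: the limit for a weight -/
theorem v5 (F : FrP k L) (R0 : Rx k) (X : HX F.Fr L) (hM : X.M = ∅) (j : L →ₐ[k] Om k)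
    (hds : FDsc R0 X j F.FL) (h4 : StV4 F R0 X) : StV5 F R0 X := by
  classical
  intro w A hw hloc
  obtain ⟨-, hphi, -, hfin⟩ := hds F.ov hM
  set V : Finset ℕ := hfin.toFinset with hV
  set W : ℕ → (Gm k →* SD) → ℝ := fun q ρ => w ρ * (if qS R0 F.Fr ρ = q then 1 else 0) with hW
  have hWw : ∀ q ρ, 0 ≤ W q ρ ∧ W q ρ ≤ A := by
    intro q ρ
    simp only [hW]
    have h1 := hw ρ
    split_ifs
    · rw [mul_one]; exact h1
    · rw [mul_zero]; exact ⟨le_rfl, h1.1.trans h1.2⟩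
  have hWl : ∀ q, SLoc F.Fr (W q) := by
    intro q ρ hρ ρ' hρ' he
    have h1 := hloc ρ hρ ρ' hρ' he
    have h2 := hphi (fun n => if n = q then 1 else 0) ρ hρ ρ' hρ' he
    simp only [hW]
    rw [h1]
    exact congrArg _ h2
  have h5 : ∀ q ∈ V, (∀ x : ℝ, 0 < x →
      Summable fun ρ : Hd R0 X => W q ρ.1 * Real.exp (-(sz ρ.1 / x))) ∧
      ∃ l : ℝ, 0 ≤ l ∧ Tendsto (fun x => LW F R0 X (W q) x / x) atTop (𝓝 l) ∧
        ((∃ ρ ∈ Hd R0 X, 0 < W q ρ) → 0 < l) := by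
    intro q hq
    refine h4 (W q) A q (hWw q) (hWl q) ?_ ?_
    · rw [hV, Set.Finite.mem_toFinset] at hq
      obtain ⟨ρ, -, rfl⟩ := hq
      exact v5_qS R0 F.Fr ρ
    · intro ρ h
      by_contra h1
      apply h
      simp only [hW]
      rw [if_neg h1, mul_zero]
  have hdec : ∀ ρ : Hd R0 X, w ρ.1 = ∑ q ∈ V, W q ρ.1 := by
    intro ρ
    have h1 : qS R0 F.Fr ρ.1 ∈ V := by
      rw [hV, Set.Finite.mem_toFinset]
      exact ⟨ρ.1, ρ.2, rfl⟩
    simp only [hW]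
    rw [← Finset.mul_sum, Finset.sum_ite_eq V (qS R0 F.Fr ρ.1), if_pos h1, mul_one]
  have hterm : ∀ (x : ℝ) (ρ : Hd R0 X), w ρ.1 * Real.exp (-(sz ρ.1 / x)) =
      ∑ q ∈ V, W q ρ.1 * Real.exp (-(sz ρ.1 / x)) := by
    intro x ρ
    rw [← Finset.sum_mul, ← hdec]
  have hsum : ∀ x : ℝ, 0 < x →
      Summable fun ρ : Hd R0 X => w ρ.1 * Real.exp (-(sz ρ.1 / x)) := by
    intro x hx
    have h1 : Summable fun ρ : Hd R0 X => ∑ q ∈ V, W q ρ.1 * Real.exp (-(sz ρ.1 / x)) :=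
      summable_sum fun q hq => (h5 q hq).1 x hx
    exact h1.congr fun ρ => (hterm x ρ).symm
  have hLW : ∀ x : ℝ, 0 < x → LW F R0 X w x = ∑ q ∈ V, LW F R0 X (W q) x := by
    intro x hx
    unfold LW
    rw [tsum_congr (hterm x), Summable.tsum_finsetSum fun q hq => (h5 q hq).1 x hx]
  refine ⟨hsum, ?_⟩
  choose! l hl0 hl1 hl2 using fun q hq => (h5 q hq).2
  refine ⟨∑ q ∈ V, l q, Finset.sum_nonneg hl0, ?_, ?_⟩
  · have h1 : Tendsto (fun x => ∑ q ∈ V, LW F R0 X (W q) x / x) atTop (𝓝 (∑ q ∈ V, l q)) :=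
      tendsto_finsetSum V hl1
    refine h1.congr' ?_
    filter_upwards [eventually_gt_atTop 0] with x hx
    rw [hLW x hx, Finset.sum_div]
  · rintro ⟨ρ, hρ, hpos⟩
    have h1 : qS R0 F.Fr ρ ∈ V := by
      rw [hV, Set.Finite.mem_toFinset]
      exact ⟨ρ, hρ, rfl⟩
    refine Finset.sum_pos' hl0 ⟨qS R0 F.Fr ρ, h1, hl2 _ h1 ⟨ρ, hρ, ?_⟩⟩
    simp only [hW]
    rw [if_pos trivial, mul_one]
    exact hpos

end

end Pool.Agent.SK
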