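import Pool.Agent.SK.VDefs

/-!
# Malle's conjecture for 8T8 over number fields, row Y4: the limit for a fixed quadratic extension
-/

set_option autoImplicit false

open scoped BigOperators Topology
open Filter NumberField IsDedekindDomain

namespace Pool.Agent.SK

open Pool.Agent.H98.MF
open Pool.Agent.H98.MK (sg)
open Pool.Agent.H98.ML (norb hind)
open Pool.Agent.H32.MA (SD)
open Pool.Agent.H32.MQ

/-- Row Y4. -/
theorem y4 {k : Type} [Field k] [NumberField k] (Fr : Frm k) (RL : Rx k) (h6 : StV6 Fr RL)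
    (h5 : ∀ (L : Type) [Field L] [NumberField L] [Algebra k L] (F : FrP k L) (X : HX F.Fr L)
      (_ : L →ₐ[k] Om k), X.M = ∅ → StV5 F RL X) : StY4 Fr RL := by
  intro R c hc hcR
  obtain ⟨L, _, _, _, F, X, j, w, hM, hw, h01, hiff⟩ := h6 R c hc hcR
  obtain ⟨_, l, hl0, hl, hlp⟩ := h5 L F X j hM w 1 (fun ρ => by
    rcases h01 ρ with h | h
    · rw [h]
      exact ⟨le_rfl, zero_le_one⟩
    · rw [h]
      exact ⟨zero_le_one, le_rfl⟩) hw
  have he : ∀ x : ℝ, LH (HRc Fr RL R c) x = LW F RL X w x := by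
    intro x
    unfold LH LW
    rw [tsum_subtype (HRc Fr RL R c) (fun ρ => Real.exp (-(sz ρ / x))),
      tsum_subtype (Hd RL X) (fun ρ => w ρ * Real.exp (-(sz ρ / x)))]
    refine tsum_congr fun ρ => ?_
    by_cases h : ρ ∈ HRc Fr RL R c
    · obtain ⟨h1, h2⟩ := (hiff ρ).1 h
      rw [Set.indicator_of_mem h, Set.indicator_of_mem h1, h2, one_mul]
    · rw [Set.indicator_of_notMem h]
      by_cases h1 : ρ ∈ Hd RL X
      · rw [Set.indicator_of_mem h1]
        rcases h01 ρ with h2 | h2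
        · rw [h2, zero_mul]
        · exact absurd ((hiff ρ).2 ⟨h1, h2⟩) h
      · rw [Set.indicator_of_notMem h1]
  refine ⟨l, hl0, ?_, ?_⟩
  · have h1 : (fun x => LH (HRc Fr RL R c) x / x) = fun x => LW F RL X w x / x := by
      funext x
      rw [he]
    rw [h1]
    exact hl
  · rintro ⟨ρ, hρ⟩
    obtain ⟨h1, h2⟩ := (hiff ρ).1 hρ
    exact hlp ⟨ρ, h1, by rw [h2]; exact zero_lt_one⟩

end Pool.Agent.SK
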