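import Pool.Agent.SK.V6
import Pool.Agent.SK.Y4
import Pool.Agent.H32.MA.AHind
import Pool.Agent.H32.MQ.XFrm

/-!
# Malle's conjecture for 8T8 over number fields, row V6: the homomorphisms over a quadratic
extension in a bigger frame
-/

set_option autoImplicit false

open scoped BigOperators Topology
open Filter NumberField IsDedekindDomain

namespace Pool.Agent.SK

open Pool.Agent.H98.MF
open Pool.Agent.H98.MK (sg)
open Pool.Agent.H98.ML (norb hind)
open Pool.Agent.H32.MA (SD)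
open Pool.Agent.H32.MQ

/-- V6 with the conditions of TD -/
def StV6b {k : Type} [Field k] [NumberField k] (Fr : Frm k) (R0 : Rx k) : Prop :=
  ∀ (R : Finset Fr.sys.P) (c : El Fr.sys), c ≠ (0, ∅) → c.2 ⊆ R →
    ∃ (L : Type) (_ : Field L) (_ : NumberField L) (_ : Algebra k L) (F : FrP k L)
      (X : HX F.Fr L) (j : L →ₐ[k] Om k) (w : (Gm k →* SD) → ℝ), X.M = ∅ ∧
      ((∀ p : F.Fr.sys.P, ord (F.Fr.pl p) (X.a : k) = 0) ∧ (∀ p : F.Fr.sys.P,
        7 ≤ F.Fr.sys.N p) ∧ j X.α = Pool.Agent.H98.MF.sq (X.a : k)) ∧ SLoc F.Fr w ∧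
      (∀ ρ, w ρ = 0 ∨ w ρ = 1) ∧ ∀ ρ, ρ ∈ HRc Fr R0 R c ↔ ρ ∈ Hd R0 X ∧ w ρ = 1

/-- the embedding with a given square root -/
theorem v6_j {k L : Type} [Field k] [NumberField k] [Field L] [NumberField L] [Algebra k L]
    {Fr : Frm k} (X : HX Fr L) (j : L →ₐ[k] Om k) : ∃ j' : L →ₐ[k] Om k,
      j' X.α = Pool.Agent.H98.MF.sq (X.a : k) := by
  have h1 : j X.α ^ 2 = Pool.Agent.H98.MF.sq (X.a : k) ^ 2 := by
    rw [sq_sq, ← map_pow, X.qe.sq, AlgHom.commutes]
  rcases sq_eq_sq_iff_eq_or_eq_neg.1 h1 with h | h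
  · exact ⟨j, h⟩
  · refine ⟨j.comp (X.sig : L →ₐ[k] L), ?_⟩
    show j (X.sig X.α) = _
    rw [X.sig_α, map_neg, h, neg_neg]

/-- Row V6 with the conditions of TD. -/
theorem v6b {k : Type} [Field k] [NumberField k] (Fr : Frm k) (R0 : Rx k) (hA : AExX Fr)
    (hx : ARex R0) (hR : ∀ Fr' : Frm k, ARexL R0 Fr') : StV6b Fr R0 := by
  classical
  intro R c hc hcR
  have hsm : {p : Fr.sys.P | Fr.sys.N p ≤ 6}.Finite := Fr.sys.fin 6
  have hsq : ¬ IsSquare (rep Fr c) := by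
    intro h
    apply hc
    refine h_coU Fr c (0, ∅) ?_
    have h1 : rep Fr (0, ∅) = 1 := by
      unfold rep
      simp
    rw [h1, mul_one]
    exact h
  obtain ⟨L, _, _, _, X0, j, hXa, hXM, hXd⟩ := hA (rep Fr c) R hsq (fun p hp => by
    rw [h_repO Fr c p, if_neg (fun h => hp (hcR h))]
    exact Even.zero)
  obtain ⟨F, hF'⟩ := stFrE k L (Fr.S ∪ (R ∪ hsm.toFinset).image Fr.pl)
  have hF : Fr.S ∪ R.image Fr.pl ⊆ F.Fr.S := fun P hP => hF' (by
    rcases Finset.mem_union.1 hP with h | h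
    · exact Finset.mem_union_left _ h
    · obtain ⟨q, hq, hqP⟩ := Finset.mem_image.1 h
      exact Finset.mem_union_right _
        (Finset.mem_image.2 ⟨q, Finset.mem_union_left _ hq, hqP⟩))
  have hS : ∀ p : F.Fr.sys.P, ∃ q : Fr.sys.P, q ∉ R ∧ Fr.pl q = F.Fr.pl p := by
    intro p
    have h1 := hb_notMem F.Fr p
    have h2 : F.Fr.pl p ∉ Fr.S := fun h => h1 (hF (Finset.mem_union_left _ h))
    obtain ⟨q, hq⟩ := (Fr.pl_iff _).2 h2
    exact ⟨q, fun h => h1 (hF (Finset.mem_union_right _ (Finset.mem_image.2 ⟨q, h, hq⟩))), hq⟩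
  let X : HX F.Fr L := ⟨X0.a, X0.α, X0.qe, 1, ∅, fun p _ => by
      obtain ⟨q, hq, hqp⟩ := hS p
      rw [← hqp]
      exact X0.unr q (by rw [hXM]; exact hq), fun p _ Q _ => by
      rw [Units.val_one, Pool.Agent.H98.MF.B.ord_one]
      exact Even.zero⟩
  have hXa' : X.a = rep Fr c := hXa
  let W : (Gm k →* SD) → Prop := fun ρ => ∀ P ∈ F.Fr.S, P ∉ Fr.S →
    (P ∈ R.image Fr.pl ↔
      ¬ (R0.rex P (SD.H0.comap ρ) = 0 ∨ R0.rex P (SD.H0.comap ρ) = 3))
  obtain ⟨j', hj'⟩ := v6_j X j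
  refine ⟨L, _, _, _, F, X, j', fun ρ => if W ρ then 1 else 0, rfl, ⟨?_, ?_, hj'⟩, ?_, ?_, ?_⟩
  · intro p
    obtain ⟨q, hq, hqp⟩ := hS p
    rw [hXa', ← hqp, h_repO Fr c q, if_neg (fun h => hq (hcR h))]
  · intro p
    obtain ⟨q, hq, hqp⟩ := hS p
    have h1 : Fr.sys.N q = F.Fr.sys.N p := by
      rw [Fr.N_eq, F.Fr.N_eq, hqp]
    rw [← h1]
    by_contra h
    exact hb_notMem F.Fr p (hqp ▸ hF' (Finset.mem_union_right _ (Finset.mem_image.2
      ⟨q, Finset.mem_union_right _ (hsm.mem_toFinset.2 (by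
        show Fr.sys.N q ≤ 6
        omega)), rfl⟩)))
  · intro ρ hρ ρ' hρ' he
    refine if_congr ?_ rfl rfl
    refine forall_congr' fun P => forall_congr' fun hP => forall_congr' fun _ => ?_
    rw [hR F.Fr ρ hρ ρ' hρ' he P hP]
  · intro ρ
    by_cases h : W ρ
    · exact Or.inr (if_pos h)
    · exact Or.inl (if_neg h)
  · intro ρ
    constructor
    · rintro ⟨⟨hρ, hT⟩, hpd⟩
      refine ⟨⟨hρ, fun σ => ?_, fun p _ => ?_⟩, if_pos ?_⟩
      · rw [hpd σ, hXa']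
      · obtain ⟨q, hq, hqp⟩ := hS p
        rw [← hqp]
        by_contra h
        exact hq ((hT q).2 h)
      · intro P hP hPn
        obtain ⟨q, rfl⟩ := (Fr.pl_iff P).2 hPn
        rw [← v6_tC R0 hx ρ hρ _ (hb_two Fr q), ← hT q, Finset.mem_image]
        constructor
        · rintro ⟨q', hq', hqq⟩
          rwa [← Fr.pl_inj hqq]
        · intro h
          exact ⟨q, h, rfl⟩
    · rintro ⟨⟨hρ, hpd, hC⟩, hw⟩
      have hW : W ρ := by
        by_contra h
        have hw' : (if W ρ then (1 : ℝ) else 0) = 1 := hw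
        rw [if_neg h] at hw'
        exact zero_ne_one hw'
      refine ⟨⟨hρ, fun p => ?_⟩, fun σ => ?_⟩
      · by_cases hp : Fr.pl p ∈ F.Fr.S
        · have h1 := hW _ hp (hb_notMem Fr p)
          rw [← v6_tC R0 hx ρ hρ _ (hb_two Fr p)] at h1
          rw [← h1, Finset.mem_image]
          constructor
          · intro h
            exact ⟨p, h, rfl⟩
          · rintro ⟨q', hq', hqq⟩
            rwa [← Fr.pl_inj hqq]
        · obtain ⟨p', hp'⟩ := (F.Fr.pl_iff _).2 hp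
          have h1 := hC p' (Finset.notMem_empty _)
          rw [hp'] at h1
          constructor
          · intro h
            exact absurd (hF (Finset.mem_union_right _ (Finset.mem_image.2 ⟨p, h, rfl⟩))) hp
          · intro h
            exact absurd h1 h
      · rw [hpd σ, hXa']


/-- Row Y4 with the conditions of TD. -/
theorem y4b {k : Type} [Field k] [NumberField k] (Fr : Frm k) (RL : Rx k) (h6 : StV6b Fr RL)
    (h5 : ∀ (L : Type) [Field L] [NumberField L] [Algebra k L] (F : FrP k L) (X : HX F.Fr L)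
      (j : L →ₐ[k] Om k), X.M = ∅ → (∀ p : F.Fr.sys.P, ord (F.Fr.pl p) (X.a : k) = 0) →
        (∀ p : F.Fr.sys.P, 7 ≤ F.Fr.sys.N p) → j X.α = Pool.Agent.H98.MF.sq (X.a : k) → StV5 F RL X) :
    StY4 Fr RL := by
  intro R c hc hcR
  obtain ⟨L, _, _, _, F, X, j, w, hM, ⟨hau, hbig, hj⟩, hw, h01, hiff⟩ := h6 R c hc hcR
  obtain ⟨_, l, hl0, hl, hlp⟩ := h5 L F X j hM hau hbig hj w 1 (fun ρ => by
    rcases h01 ρ with h | h
    · rw [h]
      exact ⟨le_rfl, zero_le_one⟩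
    · rw [h]
      exact ⟨zero_le_one, le_rfl⟩) hw
  have he : ∀ x : ℝ, LH (HRc Fr RL R c) x = LW F RL X w x := by
    intro x
    unfold LH LW
    rw [tsum_subtype (HRc Fr RL R c) (fun ρ => Real.exp (-(sz ρ / x))),
      tsum_subtype (Hd RL X) (fun ρ => w ρ * Real.exp (-(sz ρ / x)))]
    refine tsum_congr fun ρ => ?_
    by_cases h : ρ ∈ HRc Fr RL R c
    · obtain ⟨h1, h2⟩ := (hiff ρ).1 h
      rw [Set.indicator_of_mem h, Set.indicator_of_mem h1, h2, one_mul]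
    · rw [Set.indicator_of_notMem h]
      by_cases h1 : ρ ∈ Hd RL X
      · rw [Set.indicator_of_mem h1]
        rcases h01 ρ with h2 | h2
        · rw [h2, zero_mul]
        · exact absurd ((hiff ρ).2 ⟨h1, h2⟩) h
      · rw [Set.indicator_of_notMem h1]
  refine ⟨l, hl0, ?_, ?_⟩
  · have h1 : (fun x => LH (HRc Fr RL R c) x / x) = fun x => LW F RL X w x / x := by
      funext x
      rw [he]
    rw [h1]
    exact hl
  · rintro ⟨ρ, hρ⟩
    obtain ⟨h1, h2⟩ := (hiff ρ).1 hρ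
    exact hlp ⟨ρ, h1, by rw [h2]; exact zero_lt_one⟩

end Pool.Agent.SK
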