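import Pool.Agent.SK.BDefs

/-!
# Malle's conjecture for 8T8 over number fields, row Y1: from the exponential weight to the number
of homomorphisms
-/

set_option autoImplicit false

open scoped BigOperators Topology
open Filter NumberField IsDedekindDomain

namespace Pool.Agent.SK

open Pool.Agent.H98.MF
open Pool.Agent.H32.MQ
open Pool.Agent.H32.MA (SD)

theorem y1 (hz : SZ1) (k : Type) [Field k] [NumberField k] : StY1 k := by
  intro l hS hl
  have hf : ∀ y : ℝ, {i : Hs k | sz i.1 ≤ y}.Finite := by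
    intro y
    have h1 := (hS 1 one_pos).tendsto_cofinite_zero
    have h2 := h1.eventually (gt_mem_nhds (Real.exp_pos (-y)))
    rw [Filter.eventually_cofinite] at h2
    refine h2.subset fun i hi => ?_
    have hi' : sz i.1 ≤ y := hi
    change ¬ Real.exp (-(sz i.1 / 1)) < Real.exp (-y)
    rw [not_lt, Real.exp_le_exp, div_one]
    linarith
  have h := hz (Hs k) (fun ρ => sz ρ.1) (fun _ => 1) l
    (fun ρ => Real.rpow_nonneg (Nat.cast_nonneg _) _) (fun _ => zero_le_one)
    (fun x hx => by simpa only [one_mul] using hS x hx)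
    (by
      have e : (fun x => LH (Hs k) x / x) =
          fun x => (∑' ρ : Hs k, 1 * Real.exp (-(sz ρ.1 / x))) / x := by
        funext x
        simp only [one_mul]
        rfl
      rw [e] at hl
      exact hl) hf
  have ht : Tendsto (fun X : ℝ => X ^ (1 / 3 : ℝ)) atTop atTop :=
    tendsto_rpow_atTop (by norm_num)
  refine (h.comp ht).congr' ?_
  filter_upwards [eventually_ge_atTop 0] with X hX
  have hset : {ρ : Gm k →* SD | ρ ∈ Hs k ∧ (dsc ρ : ℝ) ≤ X} =
      Subtype.val '' {i : Hs k | sz i.1 ≤ X ^ (1 / 3 : ℝ)} := by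
    ext ρ
    constructor
    · rintro ⟨h1, h2⟩
      refine ⟨⟨ρ, h1⟩, ?_, rfl⟩
      exact (Real.rpow_le_rpow_iff (Nat.cast_nonneg _) hX (by norm_num)).2 h2
    · rintro ⟨i, h1, rfl⟩
      exact ⟨i.2, (Real.rpow_le_rpow_iff (Nat.cast_nonneg _) hX (by norm_num)).1 h1⟩
  have hcard : {ρ : Gm k →* SD | ρ ∈ Hs k ∧ (dsc ρ : ℝ) ≤ X}.ncard =
      (hf (X ^ (1 / 3 : ℝ))).toFinset.card := by
    rw [hset, Set.ncard_image_of_injective _ Subtype.val_injective,
      Set.ncard_eq_toFinset_card _ (hf (X ^ (1 / 3 : ℝ)))]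
  rw [hcard]
  simp only [Function.comp_apply, Finset.sum_const, nsmul_eq_mul, mul_one]

end Pool.Agent.SK
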