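import Pool.Agent.SK.BDefs

/-!
# Malle's conjecture for 8T8 over number fields, row Y2: dominated convergence
-/

set_option autoImplicit false

open scoped BigOperators Topology
open Filter NumberField IsDedekindDomain

namespace Pool.Agent.SK

open Pool.Agent.H98.MF
open Pool.Agent.H32.MQ
open Pool.Agent.H32.MA (SD)

section

variable {k : Type} [Field k] [NumberField k] (Fr : Frm k) (RL : Rx k)

/-- the union -/
theorem y2_union (hf : StFin Fr RL) : Hs k = ⋃ R, HR Fr RL R := by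
  ext ρ
  rw [Set.mem_iUnion]
  constructor
  · intro h
    refine ⟨(hf ρ h).toFinset, h, fun p => ?_⟩
    rw [Set.Finite.mem_toFinset]
    rfl
  · rintro ⟨R, h, -⟩
    exact h

theorem y2_disj : Pairwise (Function.onFun Disjoint (HR Fr RL)) := by
  intro R R' hne
  rw [Function.onFun, Set.disjoint_left]
  intro ρ h h'
  apply hne
  ext p
  rw [h.2 p, h'.2 p]

theorem y2_lh_nonneg (H : Set (Gm k →* SD)) (x : ℝ) : 0 ≤ LH H x :=
  tsum_nonneg fun _ => (Real.exp_pos _).le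

/-- the sum over the sets -/
theorem y2_sum (hf : StFin Fr RL) {x : ℝ}
    (h1 : ∀ R, Summable fun ρ : HR Fr RL R => Real.exp (-(sz ρ.1 / x)))
    (h2 : Summable fun R => LH (HR Fr RL R) x) :
    (Summable fun ρ : Hs k => Real.exp (-(sz ρ.1 / x))) ∧
      LH (Hs k) x = ∑' R, LH (HR Fr RL R) x := by
  have hs : Summable fun z : (Σ R, HR Fr RL R) => Real.exp (-(sz z.2.1 / x)) :=
    (summable_sigma_of_nonneg fun z => (Real.exp_pos _).le).2 ⟨h1, h2⟩
  have h3 : (Summable fun ρ : (⋃ R, HR Fr RL R : Set (Gm k →* SD)) =>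
      Real.exp (-(sz ρ.1 / x))) ∧
      ∑' ρ : (⋃ R, HR Fr RL R : Set (Gm k →* SD)), Real.exp (-(sz ρ.1 / x)) =
        ∑' z : (Σ R, HR Fr RL R), Real.exp (-(sz z.2.1 / x)) := by
    set e := (Set.unionEqSigmaOfDisjoint (y2_disj Fr RL)).symm with he
    have h4 : ∀ z, ((e z : (⋃ R, HR Fr RL R : Set (Gm k →* SD))) : Gm k →* SD) = z.2.1 :=
      fun z => rfl
    constructor
    · rw [← e.summable_iff]
      exact hs
    · rw [← e.tsum_eq]
      exact tsum_congr fun z => by rw [h4]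
  have h5 : LH (Hs k) x = ∑' ρ : (⋃ R, HR Fr RL R : Set (Gm k →* SD)),
      Real.exp (-(sz ρ.1 / x)) := by
    unfold LH
    rw [y2_union Fr RL hf]
  refine ⟨?_, ?_⟩
  · rw [y2_union Fr RL hf]
    exact h3.1
  · rw [h5, h3.2, hs.tsum_sigma]
    rfl

end

/-- Y2 -/
theorem y2 {k : Type} [Field k] [NumberField k] (Fr : Frm k) (RL : Rx k) (hf : StFin Fr RL) :
    StY2 Fr RL := by
  intro B l hB h1 h2
  have hS : ∀ x : ℝ, 0 < x → Summable fun R => LH (HR Fr RL R) x := fun x hx =>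
    Summable.of_nonneg_of_le (fun R => y2_lh_nonneg _ x) (fun R => (h1 R).2 x hx)
      (hB.mul_right x)
  have h3 : ∀ x : ℝ, 0 < x → (Summable fun ρ : Hs k => Real.exp (-(sz ρ.1 / x))) ∧
      LH (Hs k) x = ∑' R, LH (HR Fr RL R) x := fun x hx =>
    y2_sum Fr RL hf (fun R => (h1 R).1 x hx) (hS x hx)
  have hb : ∀ R, ∀ x : ℝ, 0 < x → 0 ≤ LH (HR Fr RL R) x / x ∧ LH (HR Fr RL R) x / x ≤ B R :=
    fun R x hx => ⟨div_nonneg (y2_lh_nonneg _ x) hx.le, (div_le_iff₀ hx).2 ((h1 R).2 x hx)⟩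
  have hl0 : ∀ R, 0 ≤ l R := fun R => ge_of_tendsto (h2 R)
    (Filter.eventually_atTop.2 ⟨1, fun x hx => (hb R x (by linarith)).1⟩)
  have hl1 : ∀ R, l R ≤ B R := fun R => le_of_tendsto (h2 R)
    (Filter.eventually_atTop.2 ⟨1, fun x hx => (hb R x (by linarith)).2⟩)
  refine ⟨fun x hx => (h3 x hx).1, Summable.of_nonneg_of_le hl0 hl1 hB, ?_⟩
  have h4 : Tendsto (fun x : ℝ => ∑' R, LH (HR Fr RL R) x / x) atTop (𝓝 (∑' R, l R)) := by
    refine tendsto_tsum_of_dominated_convergence hB h2 ?_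
    refine Filter.eventually_atTop.2 ⟨1, fun x hx R => ?_⟩
    rw [Real.norm_eq_abs, abs_of_nonneg (hb R x (by linarith)).1]
    exact (hb R x (by linarith)).2
  refine h4.congr' ?_
  refine Filter.eventually_atTop.2 ⟨1, fun x hx => ?_⟩
  show ∑' R, LH (HR Fr RL R) x / x = LH (Hs k) x / x
  rw [(h3 x (by linarith)).2]
  exact tsum_div_const

end Pool.Agent.SK
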