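import Pool.Agent.SK.BDefs
import Pool.Agent.H32.MQ.UA
import Pool.Agent.H32.MQ.KCard

/-!
# Malle's conjecture for 8T8 over number fields, row Y3: the uniform bound
-/

set_option autoImplicit false

open scoped BigOperators Topology
open Filter NumberField IsDedekindDomain

namespace Pool.Agent.SK

open Pool.Agent.H98.MF
open Pool.Agent.H32.MQ
open Pool.Agent.H32.MA (SD)

/-- linear growth of the good sets -/
theorem y3_lin {S : Sys} (Q : Qd S) (K : ℝ)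
    (h : ∀ X : ℝ, 1 ≤ X → ((Q.gb X).card : ℝ) ≤ K * X) : (gdN Q).Lin K := by
  classical
  intro X hX
  refine le_trans ?_ (h X hX)
  have h1 : (((gdN Q).le X).image fun g : (gdN Q).I => (g.1 : Finset Q.P)) ⊆ Q.gb X := by
    intro g hg
    obtain ⟨i, hi, rfl⟩ := Finset.mem_image.1 hg
    have h2 := ((gdN Q).mem_le (zero_le_one.trans hX)).1 hi
    exact Q.mem_gb.2 ⟨i.2, h2⟩
  have h2 : (((gdN Q).le X).image fun g : (gdN Q).I => (g.1 : Finset Q.P)).card =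
      ((gdN Q).le X).card :=
    Finset.card_image_of_injective _ fun a b hab => Subtype.ext hab
  have h3 := Finset.card_le_card h1
  rw [h2] at h3
  exact_mod_cast h3

theorem y3 {k : Type} [Field k] [NumberField k] (Fr : Frm k) (RL : Rx k) (hA : StAU Fr RL)
    (hO : OdSt Fr) (hS : SAsU Fr) (hN : ∀ (L : Type) [Field L] [NumberField L] [Algebra k L]
      (X : HX Fr L), StNrm X) (g4 : SG4) (g5 : SG5) : StY3 Fr RL := by
  classical
  have hε : (0 : ℝ) < 1 / 100 := by norm_num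
  obtain ⟨C1, hC1⟩ := skcard Fr.sys (1 / 100) hε
  obtain ⟨C0, A0, hC0, hOd⟩ := hO
  have hdg : 1 ≤ 2 * dg k := by
    have h1 : 1 ≤ dg k := by
      unfold dg
      exact Module.finrank_pos
    omega
  obtain ⟨C2, hC2, h5⟩ := g5 Fr.sys (2 * dg k) (2 * dg k) hdg C0 A0 (1 / 100) hε
  obtain ⟨C4, hC4, h4⟩ := g4 Fr.sys 4 (by norm_num) (1 / 100) hε
  -- the constants
  set C1' : ℝ := |C1| + 1 with hC1'
  have hC1p : 1 ≤ C1' := by
    rw [hC1']
    linarith [abs_nonneg C1]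
  let N : Finset Fr.sys.P → ℝ := fun R => (Fr.sys.nm R : ℝ)
  have hN1 : ∀ R, 1 ≤ N R := fun R => Fr.sys.one_le_nmr R
  have hN0 : ∀ R, 0 < N R := fun R => lt_of_lt_of_le one_pos (hN1 R)
  have hNe : ∀ R, 1 ≤ N R ^ (1 / 100 : ℝ) := fun R => Real.one_le_rpow (hN1 R) hε.le
  let K1 : Finset Fr.sys.P → ℝ := fun R => C1' * N R ^ (1 / 100 : ℝ)
  have hK1 : ∀ R, 1 ≤ K1 R := fun R => one_le_mul_of_one_le_of_one_le hC1p (hNe R)
  let CR : Finset Fr.sys.P → ℝ := fun R => C2 * K1 R ^ 2 * N R ^ (1 / 100 : ℝ)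
  have hCR : ∀ R, 0 ≤ CR R := fun R => by
    have h1 := hK1 R
    have h2 := hNe R
    show 0 ≤ C2 * K1 R ^ 2 * N R ^ (1 / 100 : ℝ)
    positivity
  have hmain : ∀ R : Finset Fr.sys.P, SmH (HR Fr RL R) ∧ ∀ x : ℝ, 0 < x → LH (HR Fr RL R) x ≤
      2 * 4 ^ (Fr.sys.m + R.card) * CR R * x / (Fr.sys.nm R : ℝ) ^ (4 / 3 : ℝ) := by
    intro R
    refine hA R (CR R) (K1 R) (hCR R) (hK1 R) ?_
    intro L _ _ _ X hX
    have hQM : (Qof X).M = R := hX
    have hlin : (gdN (Qof X)).Lin (K1 R) := by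
      refine y3_lin (Qof X) (K1 R) fun Y hY => ?_
      have h1 := hC1 (Qof X) Y hY
      rw [hQM] at h1
      refine h1.trans ?_
      have h2 : C1 ≤ C1' := by
        rw [hC1']
        linarith [le_abs_self C1]
      have h3 : (0 : ℝ) ≤ (Fr.sys.nm R : ℝ) ^ (1 / 100 : ℝ) :=
        Real.rpow_nonneg (Nat.cast_nonneg _) _
      exact mul_le_mul_of_nonneg_right (mul_le_mul_of_nonneg_right h2 h3) (by linarith)
    refine ⟨hlin, fun y hy => ?_⟩
    obtain ⟨c, K, hc, hK, hcN, hKN, ⟨O⟩⟩ := hOd L X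
    have h1 := h5 (Qof X) c K hc hK hcN hKN O (K1 R) (hK1 R) hlin y hy
    rw [hQM] at h1
    exact h1
  refine ⟨fun R => 2 * 4 ^ (Fr.sys.m + R.card) * CR R / (Fr.sys.nm R : ℝ) ^ (4 / 3 : ℝ), ?_, ?_⟩
  · -- summability
    have hs := ua_sum1 (S := Fr.sys) (4 / 3 - 4 / 100) (by norm_num) 1 zero_le_one
    have hb : ∀ R : Finset Fr.sys.P,
        2 * 4 ^ (Fr.sys.m + R.card) * CR R / (Fr.sys.nm R : ℝ) ^ (4 / 3 : ℝ) ≤
        (2 * 4 ^ Fr.sys.m * C4 * C2 * C1' ^ 2) *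
          ∏ p ∈ R, (1 * (Fr.sys.N p : ℝ) ^ (-(4 / 3 - 4 / 100) : ℝ)) := by
      intro R
      have e1 : ∏ p ∈ R, (1 * (Fr.sys.N p : ℝ) ^ (-(4 / 3 - 4 / 100) : ℝ)) =
          N R ^ (-(4 / 3 - 4 / 100) : ℝ) := by
        rw [show N R = (Fr.sys.nm R : ℝ) from rfl, ua_nm_rpow]
        exact Finset.prod_congr rfl fun p _ => one_mul _
      have e2 : N R ^ (-(4 / 3 - 4 / 100) : ℝ) =
          N R ^ (1 / 100 : ℝ) * (N R ^ (1 / 100 : ℝ)) ^ 2 * N R ^ (1 / 100 : ℝ) /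
            N R ^ (4 / 3 : ℝ) := by
        rw [← Real.rpow_natCast (N R ^ (1 / 100 : ℝ)) 2, ← Real.rpow_mul (hN0 R).le,
          ← Real.rpow_add (hN0 R), ← Real.rpow_add (hN0 R), ← Real.rpow_sub (hN0 R)]
        congr 1
        push_cast
        ring
      have e3 : (4 : ℝ) ^ R.card ≤ C4 * N R ^ (1 / 100 : ℝ) := h4 R
      have hp : 0 < N R ^ (4 / 3 : ℝ) := Real.rpow_pos_of_pos (hN0 R) _
      rw [e1, e2]
      show 2 * 4 ^ (Fr.sys.m + R.card) * CR R / N R ^ (4 / 3 : ℝ) ≤ _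
      rw [← mul_div_assoc]
      refine div_le_div_of_nonneg_right ?_ hp.le
      have h6 := hCR R
      calc 2 * 4 ^ (Fr.sys.m + R.card) * CR R
          = 2 * 4 ^ Fr.sys.m * CR R * 4 ^ R.card := by rw [pow_add]; ring
        _ ≤ 2 * 4 ^ Fr.sys.m * CR R * (C4 * N R ^ (1 / 100 : ℝ)) :=
          mul_le_mul_of_nonneg_left e3 (by positivity)
        _ = 2 * 4 ^ Fr.sys.m * C4 * C2 * C1' ^ 2 *
          (N R ^ (1 / 100 : ℝ) * (N R ^ (1 / 100 : ℝ)) ^ 2 * N R ^ (1 / 100 : ℝ)) := by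
          show 2 * 4 ^ Fr.sys.m * (C2 * (C1' * N R ^ (1 / 100 : ℝ)) ^ 2 * N R ^ (1 / 100 : ℝ)) *
            (C4 * N R ^ (1 / 100 : ℝ)) = _
          ring
    refine Summable.of_nonneg_of_le (fun R => ?_) hb (hs.mul_left _)
    have h6 := hCR R
    have h7 : (0 : ℝ) < (Fr.sys.nm R : ℝ) ^ (4 / 3 : ℝ) := Real.rpow_pos_of_pos (hN0 R) _
    positivity
  · intro R
    refine ⟨(hmain R).1, fun x hx => ((hmain R).2 x hx).trans (le_of_eq ?_)⟩
    ring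

end Pool.Agent.SK
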