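import Pool.Agent.SK.BDefs
import Pool.Agent.H98.MF.ParK
import Pool.Agent.H32.MQ.HBase

/-!
# Malle's conjecture for 8T8 over number fields, row Y5: the limit for fixed exceptional primes
-/

set_option autoImplicit false

open scoped BigOperators Topology
open Filter NumberField IsDedekindDomain

namespace Pool.Agent.SK

open Pool.Agent.H98.MF
open Pool.Agent.H32.MQ
open Pool.Agent.H32.MA (SD)

section

variable {k : Type} [Field k] [NumberField k] (Fr : Frm k) (RL : Rx k) (R : Finset Fr.sys.P)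

/-- the quadratic subfield is unique -/
theorem y5_uniq {c c' : El Fr.sys} {ρ : Gm k →* SD} (h : ρ ∈ HRc Fr RL R c)
    (h' : ρ ∈ HRc Fr RL R c') : c = c' := by
  apply h_coU Fr
  apply ParK.isSquare_of_chu
  intro σ
  rw [ParK.chu_mul, ← h.2 σ, ← h'.2 σ]
  exact CharTwo.add_self_eq_zero _

open Classical in
/-- the classes of the quadratic subfields -/
noncomputable def y5_cs : Finset (El Fr.sys) :=
  ((Finset.univ : Finset Fr.sys.T) ×ˢ R.powerset).filter fun c => c ≠ (0, ∅)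

theorem y5_mem {c : El Fr.sys} : c ∈ y5_cs Fr R ↔ c ≠ (0, ∅) ∧ c.2 ⊆ R := by
  unfold y5_cs
  rw [Finset.mem_filter, Finset.mem_product, Finset.mem_powerset]
  exact ⟨fun h => ⟨h.2, h.1.2⟩, fun h => ⟨⟨Finset.mem_univ _, h.2⟩, h.1⟩⟩

/-- the decomposition -/
theorem y5_sum (hc : StCl Fr RL) (hs : SmH (HR Fr RL R)) {x : ℝ} (hx : 0 < x) :
    LH (HR Fr RL R) x = ∑ c ∈ y5_cs Fr R, LH (HRc Fr RL R c) x := by
  classical
  set f : (Gm k →* SD) → ℝ := fun ρ => Real.exp (-(sz ρ / x)) with hf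
  have hf0 : ∀ ρ, 0 ≤ f ρ := fun ρ => (Real.exp_pos _).le
  have e1 : ∀ H : Set (Gm k →* SD), LH H x = ∑' ρ, H.indicator f ρ := fun H =>
    tsum_subtype H f
  have h1 : Summable ((HR Fr RL R).indicator f) := summable_subtype_iff_indicator.1 (hs x hx)
  have hsub : ∀ c, HRc Fr RL R c ⊆ HR Fr RL R := fun c ρ h => h.1
  have h2 : ∀ c, Summable ((HRc Fr RL R c).indicator f) := fun c =>
    Summable.of_nonneg_of_le (fun ρ => Set.indicator_nonneg (fun ρ _ => hf0 ρ) ρ)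
      (fun ρ => Set.indicator_le_indicator_of_subset (hsub c) (fun ρ => hf0 ρ) ρ) h1
  have e2 : ∀ ρ, (HR Fr RL R).indicator f ρ =
      ∑ c ∈ y5_cs Fr R, (HRc Fr RL R c).indicator f ρ := by
    intro ρ
    by_cases h3 : ρ ∈ HR Fr RL R
    · obtain ⟨c, hc1, hc2, hc3⟩ := hc R ρ h3
      rw [Set.indicator_of_mem h3, Finset.sum_eq_single c]
      · rw [Set.indicator_of_mem hc3]
      · intro c' _ hne
        exact Set.indicator_of_notMem (fun h4 => hne (y5_uniq Fr RL R h4 hc3)) _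
      · intro h4
        exact absurd ((y5_mem Fr R).2 ⟨hc1, hc2⟩) h4
    · rw [Set.indicator_of_notMem h3, Finset.sum_eq_zero]
      intro c _
      exact Set.indicator_of_notMem (fun h4 => h3 (hsub c h4)) _
  rw [e1, tsum_congr e2, Summable.tsum_finsetSum fun c _ => h2 c]
  exact Finset.sum_congr rfl fun c _ => (e1 _).symm

end

/-- Y5: the limit for fixed `R` -/
theorem y5 {k : Type} [Field k] [NumberField k] (Fr : Frm k) (RL : Rx k) (hc : StCl Fr RL)
    (h3 : StY3 Fr RL) (h4 : StY4 Fr RL) : StY5 Fr RL := by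
  classical
  intro R
  obtain ⟨B, -, hB⟩ := h3
  have hs := (hB R).1
  have h5 : ∀ c : El Fr.sys, ∃ l : ℝ, 0 ≤ l ∧ (c ∈ y5_cs Fr R →
      Tendsto (fun x => LH (HRc Fr RL R c) x / x) atTop (𝓝 l) ∧
      ((HRc Fr RL R c).Nonempty → 0 < l)) := by
    intro c
    by_cases h : c ∈ y5_cs Fr R
    · obtain ⟨h6, h7⟩ := (y5_mem Fr R).1 h
      obtain ⟨l, hl1, hl2, hl3⟩ := h4 R c h6 h7
      exact ⟨l, hl1, fun _ => ⟨hl2, hl3⟩⟩
    · exact ⟨0, le_rfl, fun h' => absurd h' h⟩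
  choose l hl0 hl using h5
  refine ⟨∑ c ∈ y5_cs Fr R, l c, Finset.sum_nonneg fun c _ => hl0 c, ?_, ?_⟩
  · have h6 : Tendsto (fun x => ∑ c ∈ y5_cs Fr R, LH (HRc Fr RL R c) x / x) atTop
        (𝓝 (∑ c ∈ y5_cs Fr R, l c)) := tendsto_finset_sum _ fun c hc' => (hl c hc').1
    refine h6.congr' ?_
    filter_upwards [eventually_gt_atTop (0 : ℝ)] with x hx
    rw [y5_sum Fr RL R hc hs hx, Finset.sum_div]
  · rintro ⟨ρ, hρ⟩
    obtain ⟨c, hc1, hc2, hc3⟩ := hc R ρ hρ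
    have hcm : c ∈ y5_cs Fr R := (y5_mem Fr R).2 ⟨hc1, hc2⟩
    exact Finset.sum_pos' (fun c _ => hl0 c) ⟨c, hcm, (hl c hcm).2 ⟨ρ, hc3⟩⟩

end Pool.Agent.SK
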