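import Pool.Agent.SK.BDefs

/-!
# Malle's conjecture for 8T8 over number fields, row Y7: the asymptotic formula for the
homomorphisms
-/

set_option autoImplicit false

open scoped BigOperators Topology
open Filter NumberField IsDedekindDomain

namespace Pool.Agent.SK

open Pool.Agent.H98.MF
open Pool.Agent.H32.MQ
open Pool.Agent.H32.MA (SD)

/-- Row Y7. -/
theorem y7 {k : Type} [Field k] [NumberField k] (Fr : Frm k) (RL : Rx k) (y1 : StY1 k)
    (y2 : StY2 Fr RL) (y3 : StY3 Fr RL) (y5 : StY5 Fr RL) (hf : StFin Fr RL) (he : StEx k) :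
    StY7 k := by
  obtain ⟨B, hB, hBR⟩ := y3
  choose l hl0 hl hlp using y5
  obtain ⟨h1, h2, h3⟩ := y2 B l hB hBR hl
  obtain ⟨ρ, hρ⟩ := he
  have hR : (HR Fr RL (hf ρ hρ).toFinset).Nonempty := by
    refine ⟨ρ, hρ, fun p => ?_⟩
    rw [Set.Finite.mem_toFinset]
    exact Iff.rfl
  exact ⟨∑' R, l R, h2.tsum_pos hl0 (hf ρ hρ).toFinset (hlp _ hR), y1 _ h1 h3⟩

end Pool.Agent.SK
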