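import Pool.Agent.SK.LDefs

/-!
# Malle's conjecture for 8T8 over number fields, row Z1: Karamata's theorem for exponential weights
-/

set_option autoImplicit false

open scoped BigOperators Topology
open Filter

namespace Pool.Agent.SK

/-- the functional `∫_0^1 P` -/
noncomputable def z1LI (P : Polynomial ℝ) : ℝ := P.sum fun k a => a / ((k : ℝ) + 1)

/-- the function `1/x` on `[1/e, 1]` -/
noncomputable def z1g (x : ℝ) : ℝ := if Real.exp (-1) ≤ x then 1 / x else 0

theorem z1_LI_add (P Q : Polynomial ℝ) : z1LI (P + Q) = z1LI P + z1LI Q := by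
  unfold z1LI
  refine Polynomial.sum_add_index P Q _ (fun k => ?_) fun k a b => ?_
  · exact zero_div _
  · exact add_div _ _ _

theorem z1_LI_mono (k : ℕ) (a : ℝ) :
    z1LI (Polynomial.monomial k a) = a / ((k : ℝ) + 1) := by
  unfold z1LI
  rw [Polynomial.sum_monomial_index]
  exact zero_div _

theorem z1_LI_int (P : Polynomial ℝ) : z1LI P = ∫ x in (0 : ℝ)..1, P.eval x := by
  induction P using Polynomial.induction_on' with
  | add P Q hP hQ =>
    rw [z1_LI_add, hP, hQ, ← intervalIntegral.integral_add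
      (P.continuous.intervalIntegrable _ _) (Q.continuous.intervalIntegrable _ _)]
    refine intervalIntegral.integral_congr fun x _ => ?_
    simp only [Polynomial.eval_add]
  | monomial k a =>
    rw [z1_LI_mono]
    have h : ∫ x in (0 : ℝ)..1, (Polynomial.monomial k a).eval x =
        ∫ x in (0 : ℝ)..1, a * x ^ k := by
      refine intervalIntegral.integral_congr fun x _ => ?_
      simp only [Polynomial.eval_monomial]
    rw [h, intervalIntegral.integral_const_mul, integral_pow, one_pow,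
      zero_pow (Nat.succ_ne_zero k), sub_zero, mul_one_div]

/-! ### polynomials -/

theorem z1_term (b a n x : ℝ) (k : ℕ) :
    b * Real.exp (-(n / x)) * (Polynomial.monomial k a).eval (Real.exp (-(n / x))) =
      a * (b * Real.exp (-(n / (x / ((k : ℝ) + 1))))) := by
  rw [Polynomial.eval_monomial]
  have hk : (k : ℝ) + 1 ≠ 0 := by positivity
  have h : Real.exp (-(n / (x / ((k : ℝ) + 1)))) =
      Real.exp (-(n / x)) * Real.exp (-(n / x)) ^ k := by
    rw [← Real.exp_nat_mul, ← Real.exp_add]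
    congr 1
    rw [div_div_eq_mul_div]
    ring
  rw [h]
  ring

theorem z1_scale (k : ℕ) : Tendsto (fun x : ℝ => x / ((k : ℝ) + 1)) atTop atTop :=
  tendsto_id.atTop_div_const (by positivity)

theorem z1_pol {X : Type} {n b : X → ℝ} {L : ℝ}
    (hs : ∀ x : ℝ, 0 < x → Summable fun i => b i * Real.exp (-(n i / x)))
    (hl : Tendsto (fun x : ℝ => (∑' i, b i * Real.exp (-(n i / x))) / x) atTop (𝓝 L))
    (P : Polynomial ℝ) :
    (∀ x : ℝ, 0 < x → Summable fun i => b i * Real.exp (-(n i / x)) *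
      P.eval (Real.exp (-(n i / x)))) ∧
    Tendsto (fun x : ℝ => (∑' i, b i * Real.exp (-(n i / x)) *
      P.eval (Real.exp (-(n i / x)))) / x) atTop (𝓝 (L * z1LI P)) := by
  induction P using Polynomial.induction_on' with
  | add P Q hP hQ =>
    have h1 : ∀ (x : ℝ) (i : X), b i * Real.exp (-(n i / x)) *
        (P + Q).eval (Real.exp (-(n i / x))) =
        b i * Real.exp (-(n i / x)) * P.eval (Real.exp (-(n i / x))) +
          b i * Real.exp (-(n i / x)) * Q.eval (Real.exp (-(n i / x))) := by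
      intro x i
      rw [Polynomial.eval_add, mul_add]
    refine ⟨fun x hx => ?_, ?_⟩
    · simp only [h1]
      exact (hP.1 x hx).add (hQ.1 x hx)
    · rw [z1_LI_add, mul_add]
      refine (hP.2.add hQ.2).congr' ?_
      filter_upwards [eventually_gt_atTop 0] with x hx
      simp only [h1]
      rw [(hP.1 x hx).tsum_add (hQ.1 x hx), add_div]
  | monomial k a =>
    have h1 : ∀ (x : ℝ) (i : X), b i * Real.exp (-(n i / x)) *
        (Polynomial.monomial k a).eval (Real.exp (-(n i / x))) =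
          a * (b i * Real.exp (-(n i / (x / ((k : ℝ) + 1))))) :=
      fun x i => z1_term (b i) a (n i) x k
    have hk : (0 : ℝ) < (k : ℝ) + 1 := by positivity
    refine ⟨fun x hx => ?_, ?_⟩
    · simp only [h1]
      exact (hs _ (div_pos hx hk)).mul_left a
    · rw [z1_LI_mono]
      have h2 := (hl.comp (z1_scale k)).const_mul (a / ((k : ℝ) + 1))
      have h3 : a / ((k : ℝ) + 1) * L = L * (a / ((k : ℝ) + 1)) := mul_comm _ _
      rw [h3] at h2
      refine h2.congr' ?_
      filter_upwards [eventually_gt_atTop 0] with x hx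
      simp only [h1, Function.comp_apply]
      rw [tsum_mul_left]
      field_simp

/-! ### approximation of `1/x` on `[1/e, 1]` -/

/-- the function `1/x` on `[v, 1]`, zero on `[0, u]` -/
private noncomputable def z1r (u v x : ℝ) : ℝ :=
  max 0 (min 1 ((x - u) / (v - u))) / max x u

private theorem z1r_cont (u v : ℝ) (hu : 0 < u) : Continuous (z1r u v) := by
  unfold z1r
  refine Continuous.div (by fun_prop) (by fun_prop) fun x => ?_
  exact (lt_of_lt_of_le hu (le_max_right _ _)).ne'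

private theorem z1r_nonneg {u : ℝ} (v : ℝ) (hu : 0 < u) (x : ℝ) : 0 ≤ z1r u v x :=
  div_nonneg (le_max_left _ _) (hu.le.trans (le_max_right _ _))

private theorem z1r_low {u v : ℝ} (huv : u < v) {x : ℝ} (hx : x ≤ u) : z1r u v x = 0 := by
  unfold z1r
  have h1 : (x - u) / (v - u) ≤ 0 := div_nonpos_of_nonpos_of_nonneg (by linarith) (by linarith)
  have h2 : min 1 ((x - u) / (v - u)) ≤ 0 := (min_le_right _ _).trans h1
  rw [max_eq_left h2, zero_div]

private theorem z1r_high {u v : ℝ} (huv : u < v) {x : ℝ} (hx : v ≤ x) :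
    z1r u v x = 1 / x := by
  unfold z1r
  have h1 : 1 ≤ (x - u) / (v - u) := by
    rw [le_div_iff₀ (by linarith)]
    linarith
  rw [min_eq_left h1, max_eq_right zero_le_one, max_eq_left (by linarith)]

private theorem z1r_le {u v : ℝ} {x : ℝ} (hu : 0 < u) (hx : u ≤ x) :
    z1r u v x ≤ 1 / x := by
  unfold z1r
  rw [max_eq_left hx]
  have h1 : max 0 (min 1 ((x - u) / (v - u))) ≤ 1 := max_le zero_le_one (min_le_left _ _)
  exact div_le_div_of_nonneg_right h1 (hu.le.trans hx)

private theorem z1_inv {c : ℝ} (hc : 0 < c) : ∫ x in c..1, 1 / x = - Real.log c := by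
  rw [integral_one_div_of_pos hc one_pos, Real.log_div one_ne_zero hc.ne', Real.log_one, zero_sub]

private theorem z1_inv_int {c : ℝ} (hc : 0 < c) (hc1 : c ≤ 1) :
    IntervalIntegrable (fun x => 1 / x) MeasureTheory.volume c 1 := by
  refine ContinuousOn.intervalIntegrable fun x hx => ?_
  rw [Set.uIcc_of_le hc1] at hx
  have hx0 : x ≠ 0 := (lt_of_lt_of_le hc hx.1).ne'
  refine ContinuousAt.continuousWithinAt ?_
  exact continuousAt_const.div continuousAt_id hx0

/-- both bounds for the integral of the ramp -/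
private theorem z1_ramp {u v : ℝ} (hu : 0 < u) (huv : u < v) (hv : v ≤ 1) :
    - Real.log v ≤ ∫ x in (0 : ℝ)..1, z1r u v x ∧
      ∫ x in (0 : ℝ)..1, z1r u v x ≤ - Real.log u := by
  have hc := z1r_cont u v hu
  have hi : ∀ a b : ℝ, IntervalIntegrable (z1r u v) MeasureTheory.volume a b :=
    fun a b => hc.intervalIntegrable a b
  constructor
  · rw [← intervalIntegral.integral_add_adjacent_intervals (hi 0 v) (hi v 1)]
    have h1 : 0 ≤ ∫ x in (0 : ℝ)..v, z1r u v x :=
      intervalIntegral.integral_nonneg (by linarith) fun x _ => z1r_nonneg v hu x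
    have h2 : ∫ x in v..1, z1r u v x = ∫ x in v..1, 1 / x := by
      refine intervalIntegral.integral_congr fun x hx => ?_
      rw [Set.uIcc_of_le hv] at hx
      exact z1r_high huv hx.1
    rw [h2, z1_inv (by linarith)]
    linarith
  · rw [← intervalIntegral.integral_add_adjacent_intervals (hi 0 u) (hi u 1)]
    have h1 : ∫ x in (0 : ℝ)..u, z1r u v x = 0 := by
      have h3 : ∫ x in (0 : ℝ)..u, z1r u v x = ∫ _x in (0 : ℝ)..u, (0 : ℝ) := by
        refine intervalIntegral.integral_congr fun x hx => ?_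
        rw [Set.uIcc_of_le hu.le] at hx
        exact z1r_low huv hx.2
      rw [h3, intervalIntegral.integral_zero]
    have h2 : ∫ x in u..1, z1r u v x ≤ ∫ x in u..1, 1 / x :=
      intervalIntegral.integral_mono_on (by linarith) (hi u 1)
        (z1_inv_int hu (by linarith)) fun x hx => z1r_le hu hx.1
    rw [z1_inv hu] at h2
    linarith

/-- comparison of polynomials with a continuous function -/
private theorem z1_cmp (P : Polynomial ℝ) {f : ℝ → ℝ} (hf : Continuous f) {α β : ℝ}
    (hP : ∀ x : ℝ, 0 ≤ x → x ≤ 1 → f x + α ≤ P.eval x ∧ P.eval x ≤ f x + β) :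
    (∫ x in (0 : ℝ)..1, f x) + α ≤ z1LI P ∧ z1LI P ≤ (∫ x in (0 : ℝ)..1, f x) + β := by
  have hPc : Continuous fun x => P.eval x := P.continuous
  have hsum : ∀ γ : ℝ, ∫ x in (0 : ℝ)..1, (f x + γ) = (∫ x in (0 : ℝ)..1, f x) + γ := by
    intro γ
    rw [intervalIntegral.integral_add (hf.intervalIntegrable 0 1)
      (continuous_const.intervalIntegrable 0 1), intervalIntegral.integral_const]
    simp
  rw [z1_LI_int P]
  constructor
  · rw [← hsum α]
    exact intervalIntegral.integral_mono_on zero_le_one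
      ((hf.add continuous_const).intervalIntegrable 0 1) (hPc.intervalIntegrable 0 1)
      fun x hx => (hP x hx.1 hx.2).1
  · rw [← hsum β]
    exact intervalIntegral.integral_mono_on zero_le_one (hPc.intervalIntegrable 0 1)
      ((hf.add continuous_const).intervalIntegrable 0 1) fun x hx => (hP x hx.1 hx.2).2

theorem z1_apx {ε : ℝ} (hε : 0 < ε) : ∃ P1 P2 : Polynomial ℝ,
    (∀ x : ℝ, 0 ≤ x → x ≤ 1 → P1.eval x ≤ z1g x ∧ z1g x ≤ P2.eval x) ∧
      |z1LI P1 - 1| ≤ ε ∧ |z1LI P2 - 1| ≤ ε := by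
  obtain ⟨θ, hθ0, hθ1, hθε⟩ : ∃ θ : ℝ, 0 < θ ∧ θ ≤ 1 / 2 ∧ 3 * θ ≤ ε :=
    ⟨min (1 / 2) (ε / 3), lt_min (by norm_num) (by linarith), min_le_left _ _, by
      have := min_le_right (1 / 2 : ℝ) (ε / 3)
      linarith⟩
  set a : ℝ := Real.exp (-1) with ha
  set c : ℝ := Real.exp (-(1 - θ)) with hc
  set c' : ℝ := Real.exp (-(1 + θ)) with hc'
  have ha0 : 0 < a := Real.exp_pos _
  have hc'0 : 0 < c' := Real.exp_pos _
  have hac : a < c := Real.exp_lt_exp.2 (by linarith)
  have hc'a : c' < a := Real.exp_lt_exp.2 (by linarith)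
  have hc1 : c ≤ 1 := Real.exp_le_one_iff.2 (by linarith)
  have ha1 : a ≤ 1 := hac.le.trans hc1
  have la : Real.log a = -1 := Real.log_exp _
  have lc : Real.log c = -(1 - θ) := Real.log_exp _
  have lc' : Real.log c' = -(1 + θ) := Real.log_exp _
  have f1 := z1r_cont a c ha0
  have f2 := z1r_cont c' a hc'0
  obtain ⟨P1, hP1⟩ := exists_polynomial_near_of_continuousOn 0 1 (fun x => z1r a c x - θ)
    (f1.sub continuous_const).continuousOn θ hθ0
  obtain ⟨P2, hP2⟩ := exists_polynomial_near_of_continuousOn 0 1 (fun x => z1r c' a x + θ)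
    (f2.add continuous_const).continuousOn θ hθ0
  have hb1 : ∀ x : ℝ, 0 ≤ x → x ≤ 1 → z1r a c x + (-(2 * θ)) ≤ P1.eval x ∧
      P1.eval x ≤ z1r a c x + 0 := by
    intro x h0 h1
    have h2 := abs_lt.1 (hP1 x ⟨h0, h1⟩)
    constructor <;> linarith [h2.1, h2.2]
  have hb2 : ∀ x : ℝ, 0 ≤ x → x ≤ 1 → z1r c' a x + 0 ≤ P2.eval x ∧
      P2.eval x ≤ z1r c' a x + 2 * θ := by
    intro x h0 h1
    have h2 := abs_lt.1 (hP2 x ⟨h0, h1⟩)
    constructor <;> linarith [h2.1, h2.2]
  obtain ⟨l1, l2⟩ := z1_cmp P1 f1 hb1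
  obtain ⟨l3, l4⟩ := z1_cmp P2 f2 hb2
  obtain ⟨i1, i2⟩ := z1_ramp ha0 hac hc1
  obtain ⟨i3, i4⟩ := z1_ramp hc'0 hc'a ha1
  rw [la] at i2 i3
  rw [lc] at i1
  rw [lc'] at i4
  refine ⟨P1, P2, fun x h0 h1 => ⟨?_, ?_⟩, ?_, ?_⟩
  · have h2 := (hb1 x h0 h1).2
    rw [add_zero] at h2
    refine h2.trans ?_
    unfold z1g
    by_cases hx : Real.exp (-1) ≤ x
    · rw [if_pos hx]
      exact z1r_le ha0 hx
    · rw [if_neg hx, z1r_low hac (not_le.1 hx).le]
  · have h2 := (hb2 x h0 h1).1
    rw [add_zero] at h2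
    refine le_trans ?_ h2
    unfold z1g
    by_cases hx : Real.exp (-1) ≤ x
    · rw [if_pos hx, z1r_high hc'a hx]
    · rw [if_neg hx]
      exact z1r_nonneg a hc'0 x
  · rw [abs_le]
    constructor <;> linarith
  · rw [abs_le]
    constructor <;> linarith

/-! ### Karamata's theorem -/

theorem z1_mem {n x : ℝ} (hn : 0 ≤ n) (hx : 0 < x) :
    0 ≤ Real.exp (-(n / x)) ∧ Real.exp (-(n / x)) ≤ 1 := by
  refine ⟨(Real.exp_pos _).le, Real.exp_le_one_iff.2 ?_⟩
  have := div_nonneg hn hx.le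
  linarith

theorem z1_trm {n x : ℝ} (hx : 0 < x) (b : ℝ) :
    b * Real.exp (-(n / x)) * z1g (Real.exp (-(n / x))) = if n ≤ x then b else 0 := by
  have hy : 0 < Real.exp (-(n / x)) := Real.exp_pos _
  have hiff : Real.exp (-1) ≤ Real.exp (-(n / x)) ↔ n ≤ x := by
    rw [Real.exp_le_exp, neg_le_neg_iff, div_le_one hx]
  unfold z1g
  by_cases h : n ≤ x
  · rw [if_pos h, if_pos (hiff.2 h), mul_assoc, mul_one_div, div_self hy.ne', mul_one]
  · rw [if_neg h, if_neg (fun h' => h (hiff.1 h')), mul_zero]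

theorem z1_sum {X : Type} (n b : X → ℝ) (hf : ∀ y : ℝ, {i | n i ≤ y}.Finite) {y : ℝ}
    (hy : 0 < y) : HasSum (fun i => b i * Real.exp (-(n i / y)) *
      z1g (Real.exp (-(n i / y)))) (∑ i ∈ (hf y).toFinset, b i) := by
  have hmem : ∀ i, i ∈ (hf y).toFinset ↔ n i ≤ y := by
    intro i
    rw [Set.Finite.mem_toFinset, Set.mem_ofPred_eq]
  have h2 : ∑ i ∈ (hf y).toFinset, b i = ∑ i ∈ (hf y).toFinset, b i * Real.exp (-(n i / y)) *
      z1g (Real.exp (-(n i / y))) := by
    refine Finset.sum_congr rfl fun i hi => ?_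
    rw [z1_trm hy, if_pos ((hmem i).1 hi)]
  rw [h2]
  refine hasSum_sum_of_ne_finset_zero fun i hi => ?_
  rw [z1_trm hy, if_neg (fun h => hi ((hmem i).2 h))]

theorem z1 : SZ1 := by
  intro X n b L hn hb hs hl hf
  have hpol := z1_pol hs hl
  have hL : 0 ≤ L := by
    refine ge_of_tendsto hl ?_
    filter_upwards [eventually_gt_atTop 0] with x hx
    exact div_nonneg (tsum_nonneg fun i => mul_nonneg (hb i) (Real.exp_pos _).le) hx.le
  rw [Metric.tendsto_nhds]
  intro δ hδ
  obtain ⟨P1, P2, hP, hl1, hl2⟩ := z1_apx (ε := δ / (2 * (L + 1))) (by positivity)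
  have hLe : L * (δ / (2 * (L + 1))) ≤ δ / 2 := by
    have e : L * (δ / (2 * (L + 1))) = δ / 2 * (L / (L + 1)) := by
      field_simp
    rw [e]
    have : L / (L + 1) ≤ 1 := by
      rw [div_le_one (by linarith)]
      linarith
    nlinarith
  have b1 : L - δ / 2 ≤ L * z1LI P1 := by
    have h3 := (abs_le.1 hl1).1
    nlinarith
  have b2 : L * z1LI P2 ≤ L + δ / 2 := by
    have h3 := (abs_le.1 hl2).2
    nlinarith
  have e1 := (hpol P1).2.eventually (lt_mem_nhds (show L - δ < L * z1LI P1 by linarith))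
  have e2 := (hpol P2).2.eventually (gt_mem_nhds (show L * z1LI P2 < L + δ by linarith))
  filter_upwards [eventually_gt_atTop 0, e1, e2] with y hy h3 h4
  have hS := z1_sum n b hf hy
  have c1 : ∑' i, b i * Real.exp (-(n i / y)) * P1.eval (Real.exp (-(n i / y))) ≤
      ∑ i ∈ (hf y).toFinset, b i := by
    refine hasSum_le (fun i => ?_) ((hpol P1).1 _ hy).hasSum hS
    have hm := z1_mem (hn i) hy
    exact mul_le_mul_of_nonneg_left (hP _ hm.1 hm.2).1 (mul_nonneg (hb i) hm.1)
  have c2 : ∑ i ∈ (hf y).toFinset, b i ≤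
      ∑' i, b i * Real.exp (-(n i / y)) * P2.eval (Real.exp (-(n i / y))) := by
    refine hasSum_le (fun i => ?_) hS ((hpol P2).1 _ hy).hasSum
    have hm := z1_mem (hn i) hy
    exact mul_le_mul_of_nonneg_left (hP _ hm.1 hm.2).2 (mul_nonneg (hb i) hm.1)
  have d1 := div_le_div_of_nonneg_right c1 hy.le
  have d2 := div_le_div_of_nonneg_right c2 hy.le
  rw [Real.dist_eq, abs_lt]
  constructor <;> linarith

end Pool.Agent.SK
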