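import Pool.Agent.SK.AEnd
import Pool.Agent.SK.F3
import Pool.Agent.SK.ABr
import Pool.Agent.SK.Z1
import Pool.Agent.SK.L1
import Pool.Agent.SK.L2
import Pool.Agent.SK.L3
import Pool.Agent.SK.L4
import Pool.Agent.SK.L5
import Pool.Agent.SK.L6
import Pool.Agent.SK.L7
import Pool.Agent.SK.G1
import Pool.Agent.SK.G2
import Pool.Agent.SK.G3
import Pool.Agent.SK.G4
import Pool.Agent.SK.G5
import Pool.Agent.SK.F1
import Pool.Agent.SK.F2
import Pool.Agent.SK.F4
import Pool.Agent.SK.F5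
import Pool.Agent.SK.F6
import Pool.Agent.SK.F7
import Pool.Agent.SK.F8
import Pool.Agent.SK.F9
import Pool.Agent.SK.F10
import Pool.Agent.SK.F11
import Pool.Agent.SK.F12
import Pool.Agent.SK.F13
import Pool.Agent.SK.F14
import Pool.Agent.SK.F15
import Pool.Agent.SK.N1
import Pool.Agent.SK.N2
import Pool.Agent.SK.N3
import Pool.Agent.SK.N4
import Pool.Agent.SK.N5
import Pool.Agent.SK.N6
import Pool.Agent.SK.N7
import Pool.Agent.SK.N8
import Pool.Agent.SK.N9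
import Pool.Agent.SK.V1
import Pool.Agent.SK.V2
import Pool.Agent.SK.V3
import Pool.Agent.SK.V4
import Pool.Agent.SK.V5
import Pool.Agent.SK.V6b
import Pool.Agent.SK.TD
import Pool.Agent.SK.Y1
import Pool.Agent.SK.Y2
import Pool.Agent.SK.Y3
import Pool.Agent.SK.Y5
import Pool.Agent.SK.Y7
import Pool.Agent.H32.MQ.EEnd
import Pool.Agent.H32.MQ.BMain
import Pool.Agent.H32.MQ.ANrm
import Pool.Agent.H32.MQ.AAsU

/-!
# Malle's conjecture for 8T8 over number fields: the number of homomorphisms to the semidihedral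
group of order 16
-/

set_option autoImplicit false

open scoped BigOperators Topology
open Filter NumberField IsDedekindDomain

namespace Pool.Agent.SK

open Pool.Agent.H98.MF
open Pool.Agent.H32.MQ

/-! ### the analytic statements -/

theorem cL4 : SL4 := l4 l3

theorem cL6 : SL6 := l6 l1 l2 l3 l5

theorem cL7 : SL7 := l7 cL4

theorem cG1 : SG1 := g1 cL4 l5

theorem cG3 : SG3 := g3 alSt (repSt lbSt) bf_a (bfbSt bf_a (rcSt lbSt) lbSt)

theorem cG5 : SG5 := g5 cG1 g2 cG3 g4 cL6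

theorem cF3 : SF3 := f3 f1

theorem cF5 : SF5 := f5 cF3 f4

theorem cF8 : SF8 := f8 f7

theorem cF9 : SF9 := f9 cF8 stmEC stmEB stmES

theorem cF10 : SF10 := f10 (eG4 eBd (eG2 eG1) eG3) pf1 pf0 eG5 (eG2 eG1)

theorem cF11 : SF11 := f11 cF10

theorem cF12 : SF12 := f12 f4 cF8 f2 cL7

theorem cF13 : SF13 := f13 cF11 f2 g2 cL7

theorem cF14 : SF14 := f14 cG1 g2 f2 cF5 f6 cF12 cL6 l5

theorem cF15 : SF15 := f15 cG1 g2 f2 cF5 f6 cF13 cL6 l5

theorem cN3 : SN3 := n3 (n2 cF3 f2 cL6 l5) f2 cL4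

theorem cN7 : SN7 := n7 (n6 pf1) f2

theorem cN9 : SN9 := n9 (n1 f2 cL4 l5) (n4 cN3 (n5 f2)) (n8 cN7 f2 l5)

/-! ### the assembly -/

/-- the data of (TD) -/
def StTDin (k : Type) [Field k] [NumberField k] (RL : Rx k) : Prop :=
  ∀ (L : Type) [Field L] [NumberField L] [Algebra k L] (F : FrP k L) (X : HX F.Fr L)
    (hM : X.M = ∅) (j : L →ₐ[k] Om k), (∀ p : F.Fr.sys.P, ord (F.Fr.pl p) (X.a : k) = 0) →
      (∀ p : F.Fr.sys.P, 7 ≤ F.Fr.sys.N p) → j X.α = Pool.Agent.H98.MF.sq (X.a : k) →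
        StSlc F RL X hM j ∧ StCjs F X hM

section

variable {k : Type} [Field k] [NumberField k]

/-- the limit for a quadratic extension -/
theorem cV5 (RL : Rx k) (hR : RxI RL) (hT : StTDin k RL) (L : Type) [Field L] [NumberField L]
    [Algebra k L] (F : FrP k L) (X : HX F.Fr L) (j : L →ₐ[k] Om k) (hM : X.M = ∅)
    (hau : ∀ p : F.Fr.sys.P, ord (F.Fr.pl p) (X.a : k) = 0)
    (hbig : ∀ p : F.Fr.sys.P, 7 ≤ F.Fr.sys.N p)
    (hj : j X.α = Pool.Agent.H98.MF.sq (X.a : k)) : StV5 F RL X := by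
  obtain ⟨h1, h2⟩ := hT L F X hM j hau hbig hj
  have htd : StTD F RL X j := td F RL X hM j h1 h2 cN9
  have hsp : FSpin X F.FL := eFSpin X j F.FL
  have hV2 : StV2 F RL X j := v2 F RL X hM j (eFMain RL hR X j F.FL) hsp (eFDec RL hR X j)
    (eQz RL X j) f2 cG1 cF9 cF14
  have hV3 : StV3 F RL X j := v3 F RL X hM j (eFBd RL X j) (eFVan RL X j) hsp (v1 F X hM) htd
    f2 cG1 cF15
  have hds : FDsc RL X j F.FL := eFDsc RL hR X j F.FL
  exact v5 F RL X hM j hds (v4 F RL X j hM (eFSum RL hR X j) (eFDec RL hR X j) hds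
    (eFBd RL X j) f2 cG1 hV2 hV3)

/-- the asymptotic formula for the homomorphisms, from (TD) -/
theorem cY7 (RL : Rx k) (hR : RxI RL) (hT : StTDin k RL) : StY7 k := by
  obtain ⟨Fr⟩ := exists_frm k
  have hfin : StFin Fr RL := eStFin RL Fr
  have hY3 : StY3 Fr RL := y3 Fr RL (eStAU RL hR Fr)
    (odSt Fr (bf_dg k) (bdSt Fr (szSt k) (pgSt k)) (latSt k (szSt k)) (fun L => ndSt L)
      (fun L => chSt L) (fun L _ _ _ X => pfSt X (B.recSt (nin L)) (B.lin L)) (lcSt Fr)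
      (fun L _ _ _ X => rsSt X) (fun L _ _ _ X => twSt X (rsSt X)) (fun L _ _ _ X => clSt X)
      (cvSt Fr) (fwSt Fr))
    (sAsU Fr fun _ _ _ _ X => stNrm X) (fun _ _ _ _ X => stNrm X) g4 cG5
  have hY4 : StY4 Fr RL := y4b Fr RL (v6b Fr RL (aExX Fr) (aRex RL) fun Fr' => eRexL RL Fr')
    fun L _ _ _ F X j hM hau hbig hj => cV5 RL hR hT L F X j hM hau hbig hj
  exact y7 Fr RL (y1 z1 k) (y2 Fr RL hfin) hY3 (y5 Fr RL (eStCl RL Fr) hY3 hY4) hfin
    (eStEx)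

end

end Pool.Agent.SK
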