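import Mathlib

/-!
# Malle's conjecture for 8T8 over number fields: sums with exponential weights (abstract part)
-/

set_option autoImplicit false

open scoped BigOperators Topology
open Filter

namespace Pool.Agent.SK

/-- a set with norms, finitely many elements of bounded norm -/
structure Nm where
  I : Type
  n : I → ℕ
  one_le : ∀ i, 1 ≤ n i
  fin : ∀ N : ℕ, {i | n i ≤ N}.Finite

namespace Nm

variable (A : Nm)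

/-- the elements of norm at most `X` -/
noncomputable def le (X : ℝ) : Finset A.I := (A.fin ⌊X⌋₊).toFinset

theorem mem_le {X : ℝ} (hX : 0 ≤ X) {i : A.I} : i ∈ A.le X ↔ (A.n i : ℝ) ≤ X := by
  unfold le
  rw [Set.Finite.mem_toFinset]
  exact Nat.le_floor_iff hX

/-- linear growth -/
def Lin (K : ℝ) : Prop := ∀ X : ℝ, 1 ≤ X → ((A.le X).card : ℝ) ≤ K * X

/-- the elements with `2 ^ p ≤ norm < 2 ^ (p + 1)` -/
noncomputable def blk (p : ℕ) : Finset A.I :=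
  (A.le (2 ^ (p + 1))).filter fun i => 2 ^ p ≤ A.n i ∧ A.n i < 2 ^ (p + 1)

theorem mem_blk {p : ℕ} {i : A.I} : i ∈ A.blk p ↔ 2 ^ p ≤ A.n i ∧ A.n i < 2 ^ (p + 1) := by
  unfold blk
  rw [Finset.mem_filter, A.mem_le (by positivity)]
  refine ⟨fun h => h.2, fun h => ⟨?_, h⟩⟩
  exact_mod_cast h.2.le

end Nm

/-- the bilinear estimate -/
def Bil (A A' : Nm) (G : A.I → A'.I → ℝ) (B η : ℝ) : Prop :=
  ∀ (a : A.I → ℝ) (b : A'.I → ℝ), (∀ i, |a i| ≤ 1) → (∀ j, |b j| ≤ 1) →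
    ∀ X Y : ℝ, 1 ≤ X → 1 ≤ Y →
      |∑ i ∈ A.le X, ∑ j ∈ A'.le Y, a i * b j * G i j| ≤ B * (X * Y) * min X Y ^ (-η)

/-- L1: a dyadic block with exponential weight, from the bilinear estimate -/
def SL1 : Prop := ∀ (A A' : Nm) (G : A.I → A'.I → ℝ) (B η : ℝ), 0 ≤ B → 0 ≤ η →
  Bil A A' G B η → ∀ (a : A.I → ℝ) (b : A'.I → ℝ), (∀ i, |a i| ≤ 1) → (∀ j, |b j| ≤ 1) →
    ∀ (p q : ℕ) (x : ℝ), 0 < x →
      |∑ i ∈ A.blk p, ∑ j ∈ A'.blk q, a i * b j * G i j *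
        Real.exp (-((A.n i : ℝ) * (A'.n j : ℝ) / x))| ≤
        4 * B * 2 ^ (p + q) * ((2 : ℝ) ^ min p q) ^ (-η) * Real.exp (4 * 2 ^ (p + q) / x)

/-- L2: a dyadic block, trivially -/
def SL2 : Prop := ∀ (A A' : Nm) (G : A.I → A'.I → ℝ) (M K : ℝ), 0 ≤ M → 0 ≤ K → A.Lin K →
  A'.Lin K → (∀ i j, |G i j| ≤ M) → ∀ (a : A.I → ℝ) (b : A'.I → ℝ), (∀ i, |a i| ≤ 1) →
    (∀ j, |b j| ≤ 1) → ∀ (p q : ℕ) (x : ℝ), 0 < x →
      ∑ i ∈ A.blk p, ∑ j ∈ A'.blk q, |a i * b j * G i j *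
        Real.exp (-((A.n i : ℝ) * (A'.n j : ℝ) / x))| ≤
        4 * (M * K ^ 2) * 2 ^ (p + q) * Real.exp (-(2 ^ (p + q) / x))

/-- L3: dyadic sums of exponentials -/
def SL3 : Prop := ∀ c : ℝ, 0 < c → ∃ C : ℝ, 0 < C ∧ ∀ x : ℝ, 0 < x →
  (Summable fun p : ℕ => (2 : ℝ) ^ p * Real.exp (-(c * 2 ^ p / x))) ∧
    ∑' p : ℕ, (2 : ℝ) ^ p * Real.exp (-(c * 2 ^ p / x)) ≤ C * x

/-- L4: one variable -/
def SL4 : Prop := ∃ C : ℝ, 0 < C ∧ ∀ (A : Nm) (K : ℝ), 0 ≤ K → A.Lin K → ∀ x : ℝ, 0 < x →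
  (Summable fun i => Real.exp (-((A.n i : ℝ) / x))) ∧
    ∑' i, Real.exp (-((A.n i : ℝ) / x)) ≤ C * K * x

/-- L5: two variables, absolute convergence -/
def SL5 : Prop := ∀ (A A' : Nm) (K : ℝ), 0 ≤ K → A.Lin K → A'.Lin K → ∀ x : ℝ, 0 < x →
  Summable fun z : A.I × A'.I => Real.exp (-((A.n z.1 : ℝ) * (A'.n z.2 : ℝ) / x))

open Classical in
/-- L6: both variables large -/
def SL6 : Prop := ∀ η t : ℝ, 0 < η → 0 < t → t ≤ 1 / 10 → ∃ C : ℝ, 0 < C ∧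
  ∀ (A A' : Nm) (G : A.I → A'.I → ℝ) (B M K : ℝ), 0 ≤ B → 0 ≤ M → 0 ≤ K → A.Lin K →
    A'.Lin K → (∀ i j, |G i j| ≤ M) → Bil A A' G B η → ∀ (a : A.I → ℝ) (b : A'.I → ℝ),
      (∀ i, |a i| ≤ 1) → (∀ j, |b j| ≤ 1) → ∀ (E : ℕ) (x : ℝ), 0 < x →
        |∑' z : A.I × A'.I, (if 2 ^ E ≤ A.n z.1 ∧ 2 ^ E ≤ A'.n z.2 then
          a z.1 * b z.2 * G z.1 z.2 *
            Real.exp (-((A.n z.1 : ℝ) * (A'.n z.2 : ℝ) / x)) else 0)| ≤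
          C * B ^ t * (M * K ^ 2) ^ (1 - t) * x * ((2 : ℝ) ^ E) ^ (-(η * t))

/-- L7: from a counting function to exponential weights -/
def SL7 : Prop := ∀ (A : Nm) (b : A.I → ℝ) (M K L : ℝ), (∀ i, |b i| ≤ M) → A.Lin K →
  Tendsto (fun X : ℝ => (∑ i ∈ A.le X, b i) / X) atTop (𝓝 L) →
    Tendsto (fun x : ℝ => (∑' i, b i * Real.exp (-((A.n i : ℝ) / x))) / x) atTop (𝓝 L)

/-- Z1: Karamata's theorem for exponential weights -/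
def SZ1 : Prop := ∀ (X : Type) (n b : X → ℝ) (L : ℝ), (∀ i, 0 ≤ n i) → (∀ i, 0 ≤ b i) →
  (∀ x : ℝ, 0 < x → Summable fun i => b i * Real.exp (-(n i / x))) →
  Tendsto (fun x : ℝ => (∑' i, b i * Real.exp (-(n i / x))) / x) atTop (𝓝 L) →
    ∀ hf : (∀ y : ℝ, {i | n i ≤ y}.Finite),
      Tendsto (fun y : ℝ => (∑ i ∈ (hf y).toFinset, b i) / y) atTop (𝓝 L)

end Pool.Agent.SK
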