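import Pool.Agent.SK.NDefs

/-!
# Malle's conjecture for 8T8 over number fields, block N, row N3: sums over primes
-/

set_option autoImplicit false

open scoped BigOperators Topology
open Filter

namespace Pool.Agent.SK

open Pool.Agent.H98.MK (sg)
open Pool.Agent.H98.MF
open Pool.Agent.H32.MQ (Qd El Qf Pk Pf)

/-- harmonic sums of a set of linear growth -/
theorem n3_harm (A : Nm) (K : ℝ) (hA : A.Lin K) (j : ℕ) :
    ∑ i ∈ A.le (2 ^ j), 1 / (A.n i : ℝ) ≤ K * (1 + 2 * j) := by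
  classical
  induction j with
  | zero =>
    have h1 := hA 1 le_rfl
    have h2 : ∑ i ∈ A.le (2 ^ 0), 1 / (A.n i : ℝ) ≤ ∑ i ∈ A.le (2 ^ 0), (1 : ℝ) := by
      refine Finset.sum_le_sum fun i _ => ?_
      have h3 : (1 : ℝ) ≤ A.n i := by exact_mod_cast A.one_le i
      rw [div_le_one (by linarith)]
      exact h3
    rw [Finset.sum_const, nsmul_eq_mul, mul_one, pow_zero] at h2
    rw [pow_zero]
    have h4 : K * (1 + 2 * ((0 : ℕ) : ℝ)) = K * 1 := by simp
    rw [h4]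
    exact h2.trans h1
  | succ j ih =>
    have h0 : A.le (2 ^ j) ⊆ A.le (2 ^ (j + 1)) := by
      intro i hi
      rw [A.mem_le (by positivity)] at hi ⊢
      refine hi.trans ?_
      exact pow_le_pow_right₀ (by norm_num) (Nat.le_succ j)
    rw [← Finset.sum_sdiff h0]
    have h1 : ∑ i ∈ A.le (2 ^ (j + 1)) \ A.le (2 ^ j), 1 / (A.n i : ℝ) ≤ 2 * K := by
      have h2 : ∑ i ∈ A.le (2 ^ (j + 1)) \ A.le (2 ^ j), 1 / (A.n i : ℝ) ≤
          ∑ i ∈ A.le (2 ^ (j + 1)) \ A.le (2 ^ j), 1 / (2 : ℝ) ^ j := by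
        refine Finset.sum_le_sum fun i hi => ?_
        rw [Finset.mem_sdiff, A.mem_le (by positivity), A.mem_le (by positivity), not_le] at hi
        exact one_div_le_one_div_of_le (by positivity) hi.2.le
      refine h2.trans ?_
      rw [Finset.sum_const, nsmul_eq_mul]
      have h3 : ((A.le (2 ^ (j + 1)) \ A.le (2 ^ j)).card : ℝ) ≤ K * 2 ^ (j + 1) := by
        refine le_trans ?_ (hA (2 ^ (j + 1)) (one_le_pow₀ (by norm_num)))
        exact_mod_cast Finset.card_le_card Finset.sdiff_subset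
      calc ((A.le (2 ^ (j + 1)) \ A.le (2 ^ j)).card : ℝ) * (1 / 2 ^ j)
          ≤ K * 2 ^ (j + 1) * (1 / 2 ^ j) :=
            mul_le_mul_of_nonneg_right h3 (by positivity)
        _ = 2 * K := by
            rw [pow_succ]
            field_simp
    have h2 : K * (1 + 2 * ((j + 1 : ℕ) : ℝ)) = 2 * K + K * (1 + 2 * j) := by
      push_cast
      ring
    rw [h2]
    exact add_le_add h1 ih

/-- one variable with the weight `1 / n` -/
theorem n3_one (l4 : SL4) : ∃ C : ℝ, 0 < C ∧ ∀ (A : Nm) (K : ℝ), 0 ≤ K → A.Lin K →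
    ∀ u : ℝ, 0 < u → (Summable fun i => 1 / (A.n i : ℝ) * Real.exp (-((A.n i : ℝ) / u))) ∧
      ∑' i, 1 / (A.n i : ℝ) * Real.exp (-((A.n i : ℝ) / u)) ≤
        C * K * (1 + Real.log (1 + u)) := by
  classical
  obtain ⟨C, hC, h⟩ := l4
  refine ⟨C + 7, by positivity, fun A K hK hA u hu => ?_⟩
  obtain ⟨h1, h2⟩ := h A K hK hA u hu
  have hn : ∀ i, (1 : ℝ) ≤ A.n i := fun i => by exact_mod_cast A.one_le i
  have hle : ∀ i, 1 / (A.n i : ℝ) * Real.exp (-((A.n i : ℝ) / u)) ≤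
      Real.exp (-((A.n i : ℝ) / u)) := by
    intro i
    have h3 : 1 / (A.n i : ℝ) ≤ 1 := by
      rw [div_le_one (by linarith [hn i])]
      exact hn i
    exact mul_le_of_le_one_left (Real.exp_pos _).le h3
  have hs : Summable fun i => 1 / (A.n i : ℝ) * Real.exp (-((A.n i : ℝ) / u)) :=
    Summable.of_nonneg_of_le (fun i => by positivity) hle h1
  refine ⟨hs, ?_⟩
  -- the threshold
  obtain ⟨j, hj1, hj2⟩ : ∃ j : ℕ, u ≤ 2 ^ j ∧ (j : ℝ) ≤ 1 + 2 * Real.log (1 + u) := by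
    refine ⟨Nat.clog 2 (⌈u⌉₊), ?_, ?_⟩
    · have h3 : ⌈u⌉₊ ≤ 2 ^ Nat.clog 2 (⌈u⌉₊) := Nat.le_pow_clog (by norm_num) _
      calc u ≤ (⌈u⌉₊ : ℝ) := Nat.le_ceil u
        _ ≤ 2 ^ Nat.clog 2 (⌈u⌉₊) := by exact_mod_cast h3
    · by_cases h4 : ⌈u⌉₊ ≤ 1
      · have h5 : Nat.clog 2 ⌈u⌉₊ = 0 := Nat.clog_of_right_le_one h4 2
        rw [h5]
        have := Real.log_nonneg (by linarith : (1 : ℝ) ≤ 1 + u)
        push_cast
        linarith
      · have h5 : 2 ^ (Nat.clog 2 ⌈u⌉₊).pred < ⌈u⌉₊ := Nat.pow_pred_clog_lt_self (by norm_num) (not_le.1 h4)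
        have h6 : (2 : ℝ) ^ (Nat.clog 2 ⌈u⌉₊).pred ≤ 1 + u := by
          have h7 : ((2 ^ (Nat.clog 2 ⌈u⌉₊).pred : ℕ) : ℝ) < (⌈u⌉₊ : ℝ) := by exact_mod_cast h5
          have h8 := Nat.ceil_lt_add_one hu.le
          push_cast at h7
          linarith
        have h9 : ((Nat.clog 2 ⌈u⌉₊).pred : ℝ) * Real.log 2 ≤ Real.log (1 + u) := by
          rw [← Real.log_pow]
          exact Real.log_le_log (by positivity) h6
        have h10 : (1 : ℝ) / 2 ≤ Real.log 2 := by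
          have := Real.log_two_gt_d9
          linarith
        have h11 : ((Nat.clog 2 ⌈u⌉₊ : ℕ) : ℝ) ≤ 1 + ((Nat.clog 2 ⌈u⌉₊).pred : ℝ) := by
          have h12 : Nat.clog 2 ⌈u⌉₊ ≤ 1 + (Nat.clog 2 ⌈u⌉₊).pred := by
            rw [Nat.pred_eq_sub_one]
            omega
          exact_mod_cast h12
        have h13 : (0 : ℝ) ≤ ((Nat.clog 2 ⌈u⌉₊).pred : ℝ) := Nat.cast_nonneg _
        nlinarith
  have hp : ∀ i, 1 / (A.n i : ℝ) * Real.exp (-((A.n i : ℝ) / u)) ≤
      (if i ∈ A.le (2 ^ j) then 1 / (A.n i : ℝ) else 0) +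
        1 / 2 ^ j * Real.exp (-((A.n i : ℝ) / u)) := by
    intro i
    have h3 : Real.exp (-((A.n i : ℝ) / u)) ≤ 1 := by
      rw [Real.exp_le_one_iff, neg_nonpos]
      have := hn i
      positivity
    by_cases h4 : i ∈ A.le (2 ^ j)
    · rw [if_pos h4]
      have h5 : 1 / (A.n i : ℝ) * Real.exp (-((A.n i : ℝ) / u)) ≤ 1 / (A.n i : ℝ) :=
        mul_le_of_le_one_right (by positivity) h3
      have h6 : 0 ≤ 1 / (2 : ℝ) ^ j * Real.exp (-((A.n i : ℝ) / u)) := by positivity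
      linarith
    · rw [if_neg h4, zero_add]
      rw [A.mem_le (by positivity), not_le] at h4
      exact mul_le_mul_of_nonneg_right (one_div_le_one_div_of_le (by positivity) h4.le)
        (Real.exp_pos _).le
  have hf : Summable fun i => (if i ∈ A.le (2 ^ j) then 1 / (A.n i : ℝ) else 0) :=
    summable_of_ne_finset_zero (s := A.le (2 ^ j)) fun i hi => if_neg hi
  have h3 : ∑' i, 1 / (A.n i : ℝ) * Real.exp (-((A.n i : ℝ) / u)) ≤
      ∑' i, ((if i ∈ A.le (2 ^ j) then 1 / (A.n i : ℝ) else 0) +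
        1 / 2 ^ j * Real.exp (-((A.n i : ℝ) / u))) :=
    hs.tsum_le_tsum hp (hf.add (h1.mul_left _))
  rw [hf.tsum_add (h1.mul_left _), tsum_mul_left,
    tsum_eq_sum (s := A.le (2 ^ j)) (fun i hi => if_neg hi)] at h3
  rw [Finset.sum_congr rfl fun i hi => if_pos hi] at h3
  have h4 := n3_harm A K hA j
  have h5 : 1 / (2 : ℝ) ^ j * ∑' i, Real.exp (-((A.n i : ℝ) / u)) ≤ C * K := by
    have h6 : 1 / (2 : ℝ) ^ j * ∑' i, Real.exp (-((A.n i : ℝ) / u)) ≤
        1 / (2 : ℝ) ^ j * (C * K * u) := mul_le_mul_of_nonneg_left h2 (by positivity)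
    have h7 : 1 / (2 : ℝ) ^ j * (C * K * u) ≤ 1 / (2 : ℝ) ^ j * (C * K * 2 ^ j) :=
      mul_le_mul_of_nonneg_left (mul_le_mul_of_nonneg_left hj1 (by positivity)) (by positivity)
    have h8 : 1 / (2 : ℝ) ^ j * (C * K * 2 ^ j) = C * K := by
      field_simp
    linarith
  have h9 : 0 ≤ Real.log (1 + u) := Real.log_nonneg (by linarith)
  have h10 : K * (1 + 2 * j) ≤ K * (3 + 4 * Real.log (1 + u)) :=
    mul_le_mul_of_nonneg_left (by linarith) hK
  have h11 : 0 ≤ K * Real.log (1 + u) := mul_nonneg hK h9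
  have h12 : 0 ≤ C * (K * Real.log (1 + u)) := mul_nonneg hC.le h11
  nlinarith

section

variable {S SF : Sys} (F : Qc S SF)

/-- the primes with their norms -/
noncomputable def prN : Nm where
  I := F.Q.P
  n := fun p => S.N (F.Q.sh p)
  one_le := fun p => S.one_le_N _
  fin := fun N => by
    classical
    refine Set.Finite.of_finite_image (f := fun p => ({p} : Finset F.Q.P)) ?_
      (fun a _ b _ h => Finset.singleton_injective h)
    refine (F.Q.fin_gb N).subset ?_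
    rintro _ ⟨p, hp, rfl⟩
    have hp' : S.N (F.Q.sh p) ≤ N := hp
    refine ⟨?_, ?_⟩
    · intro a ha b hb _
      rw [Finset.mem_singleton] at ha hb
      rw [ha, hb]
    · have h1 : F.Q.nq {p} = S.N (F.Q.sh p) := by
        show ∏ q ∈ ({p} : Finset F.Q.P).image F.Q.sh, S.N q = _
        rw [Finset.image_singleton, Finset.prod_singleton]
      rw [h1]
      exact_mod_cast hp'

theorem n3_good (p : F.Q.P) : F.Q.Gd {p} := by
  intro a ha b hb _
  rw [Finset.mem_singleton] at ha hb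
  rw [ha, hb]

theorem n3_nq (p : F.Q.P) : F.Q.nq {p} = S.N (F.Q.sh p) := by
  classical
  show ∏ q ∈ ({p} : Finset F.Q.P).image F.Q.sh, S.N q = _
  rw [Finset.image_singleton, Finset.prod_singleton]

theorem n3_lin (K : ℝ) (h : (gdN F.Q).Lin K) : (prN F).Lin K := by
  classical
  intro X hX
  refine le_trans ?_ (h X hX)
  norm_cast
  refine Finset.card_le_card_of_injOn (fun p => (⟨{p}, n3_good F p⟩ : (gdN F.Q).I)) ?_ ?_
  · intro p hp
    rw [Finset.mem_coe, (prN F).mem_le (by linarith)] at hp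
    refine ((gdN F.Q).mem_le (by linarith)).2 ?_
    show ((F.Q.nq {p} : ℕ) : ℝ) ≤ X
    have h1 : ((F.Q.nq {p} : ℕ) : ℝ) = (S.N (F.Q.sh p) : ℝ) := by exact_mod_cast n3_nq F p
    rw [h1]
    exact hp
  · intro a _ b _ hab
    exact Finset.singleton_injective (congrArg Subtype.val hab)

end

end Pool.Agent.SK
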