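import Pool.Agent.SK.N3_a

/-!
# Malle's conjecture for 8T8 over number fields, block N, row N3: three primes, the core
-/

set_option autoImplicit false

open scoped BigOperators Topology
open Filter

namespace Pool.Agent.SK

open Pool.Agent.H98.MK (sg)
open Pool.Agent.H98.MF
open Pool.Agent.H32.MQ (Qd El Qf Pk Pf)

theorem n3_all : ∀ i j l : Fin 3, i ≠ j → i ≠ l → j ≠ l → ∀ m, m = i ∨ m = j ∨ m = l := by
  decide

theorem n3_prod (f : Fin 3 → ℕ) : ∀ i j l : Fin 3, i ≠ j → i ≠ l → j ≠ l →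
    ∏ m, f m = f l * (f i * f j) := by
  intro i j l hij hil hjl
  have h : (Finset.univ : Finset (Fin 3)) = {l, i, j} := by
    ext m
    simp only [Finset.mem_univ, Finset.mem_insert, Finset.mem_singleton, true_iff]
    rcases n3_all i j l hij hil hjl m with h | h | h
    · exact Or.inr (Or.inl h)
    · exact Or.inr (Or.inr h)
    · exact Or.inl h
  rw [h, Finset.prod_insert (by simp [hil.symm, hjl.symm]), Finset.prod_insert (by simp [hij]),
    Finset.prod_singleton]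

section

variable {S SF : Sys} (F : Qc S SF)

/-- the conditions on three primes -/
def W3 (Pp : Set F.Q.P) (R : Finset F.Q.P) (t : Fin 3 → SF.T) (E : ℕ) (P : Fin 3 → F.Q.P) :
    Prop :=
  Tri F Pp R P ∧ (∀ i, 2 ^ E ≤ S.N (F.Q.sh (P i))) ∧ ∀ i, SF.ty (F.io (P i)) = t i

theorem n3_nqT (Pp : Set F.Q.P) (R : Finset F.Q.P) (P : Fin 3 → F.Q.P) (hP : Tri F Pp R P) :
    F.Q.nq (uT F R P) = F.Q.nq R * ∏ m, S.N (F.Q.sh (P m)) := by
  classical
  have h1 : F.Q.shd (uT F R P) = F.Q.shd R ∪ Finset.univ.image fun m => F.Q.sh (P m) := by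
    ext s
    simp only [Qd.shd, uT, Finset.mem_image, Finset.mem_union, Finset.mem_univ, true_and]
    constructor
    · rintro ⟨p, hp | ⟨m, rfl⟩, rfl⟩
      · exact Or.inl ⟨p, hp, rfl⟩
      · exact Or.inr ⟨m, rfl⟩
    · rintro (⟨p, hp, rfl⟩ | ⟨m, rfl⟩)
      · exact ⟨p, Or.inl hp, rfl⟩
      · exact ⟨P m, Or.inr ⟨m, rfl⟩, rfl⟩
  have h2 : Disjoint (F.Q.shd R) (Finset.univ.image fun m => F.Q.sh (P m)) := by
    rw [Finset.disjoint_left]
    intro s hs hs'
    obtain ⟨q, hq, rfl⟩ := Finset.mem_image.1 hs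
    obtain ⟨m, -, hm⟩ := Finset.mem_image.1 hs'
    exact hP.out m q hq hm.symm
  show ∏ p ∈ F.Q.shd (uT F R P), S.N p = (∏ p ∈ F.Q.shd R, S.N p) * _
  rw [h1, Finset.prod_union h2, Finset.prod_image]
  intro a _ b _ hab
  by_contra hne
  exact hP.ne a b hne hab

/-- the comparison function -/
noncomputable def n3_g (x : ℝ) (P : Fin 3 → F.Q.P) : ℝ :=
  ∏ m, Real.exp (-((S.N (F.Q.sh (P m)) : ℝ) / (3 * x)))

theorem n3_sum_e (l4 : SL4) (K : ℝ) (hK : 0 ≤ K) (hL : (gdN F.Q).Lin K) (x : ℝ) (hx : 0 < x)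
    (e : F.Q.P × (F.Q.P × F.Q.P) ≃ (Fin 3 → F.Q.P)) (i j l : Fin 3) (hij : i ≠ j) (hil : i ≠ l)
    (hjl : j ≠ l) (he : ∀ z, e z l = z.1 ∧ e z i = z.2.1 ∧ e z j = z.2.2) :
    Summable (n3_g F x) := by
  obtain ⟨C, -, h⟩ := l4
  have h1 : Summable fun p : F.Q.P => Real.exp (-((S.N (F.Q.sh p) : ℝ) / (3 * x))) :=
    (h (prN F) K hK (n3_lin F K hL) (3 * x) (by positivity)).1
  rw [← e.summable_iff]
  have h2 : Summable fun z : F.Q.P × F.Q.P =>
      Real.exp (-((S.N (F.Q.sh z.1) : ℝ) / (3 * x))) *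
        Real.exp (-((S.N (F.Q.sh z.2) : ℝ) / (3 * x))) :=
    h1.mul_of_nonneg h1 (fun _ => (Real.exp_pos _).le) (fun _ => (Real.exp_pos _).le)
  have h3 : Summable fun z : F.Q.P × (F.Q.P × F.Q.P) =>
      Real.exp (-((S.N (F.Q.sh z.1) : ℝ) / (3 * x))) *
        (Real.exp (-((S.N (F.Q.sh z.2.1) : ℝ) / (3 * x))) *
          Real.exp (-((S.N (F.Q.sh z.2.2) : ℝ) / (3 * x)))) :=
    Summable.mul_of_nonneg h1 h2 (fun _ => (Real.exp_pos _).le)
      (fun _ => (mul_pos (Real.exp_pos _) (Real.exp_pos _)).le)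
  refine h3.congr fun z => ?_
  obtain ⟨e1, e2, e3⟩ := he z
  show _ = ∏ m, Real.exp (-((S.N (F.Q.sh (e z m)) : ℝ) / (3 * x)))
  have h : (Finset.univ : Finset (Fin 3)) = {l, i, j} := by
    ext m
    simp only [Finset.mem_univ, Finset.mem_insert, Finset.mem_singleton, true_iff]
    rcases n3_all i j l hij hil hjl m with h | h | h
    · exact Or.inr (Or.inl h)
    · exact Or.inr (Or.inr h)
    · exact Or.inl h
  rw [h, Finset.prod_insert (by simp [hil.symm, hjl.symm]), Finset.prod_insert (by simp [hij]),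
    Finset.prod_singleton, e1, e2, e3]

/-- the weight is dominated -/
theorem n3_le_g (Pp : Set F.Q.P) (R : Finset F.Q.P) (P : Fin 3 → F.Q.P) (hP : Tri F Pp R P)
    (x : ℝ) (hx : 0 < x) :
    Real.exp (-((F.Q.nq (uT F R P) : ℝ) / x)) ≤ n3_g F x P := by
  unfold n3_g
  rw [← Real.exp_sum, Real.exp_le_exp, n3_nqT F Pp R P hP, Finset.sum_neg_distrib,
    neg_le_neg_iff, ← Finset.sum_div, Fin.sum_univ_three, Fin.prod_univ_three]
  have h0 : (1 : ℝ) ≤ S.N (F.Q.sh (P 0)) := by exact_mod_cast S.one_le_N _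
  have h1 : (1 : ℝ) ≤ S.N (F.Q.sh (P 1)) := by exact_mod_cast S.one_le_N _
  have h2 : (1 : ℝ) ≤ S.N (F.Q.sh (P 2)) := by exact_mod_cast S.one_le_N _
  have hR : (1 : ℝ) ≤ F.Q.nq R := by
    have : 0 < F.Q.nq R := Finset.prod_pos fun p _ => S.one_le_N p
    exact_mod_cast this
  push_cast
  generalize (S.N (F.Q.sh (P 0)) : ℝ) = u at h0 ⊢
  generalize (S.N (F.Q.sh (P 1)) : ℝ) = v at h1 ⊢
  generalize (S.N (F.Q.sh (P 2)) : ℝ) = w at h2 ⊢
  generalize (F.Q.nq R : ℝ) = r at hR ⊢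
  rw [div_le_div_iff₀ (by positivity) hx]
  have h3 : u ≤ u * v * w := by
    have : u * 1 ≤ u * (v * w) := mul_le_mul_of_nonneg_left (by nlinarith) (by linarith)
    linarith
  have h4 : v ≤ u * v * w := by
    have : v * 1 ≤ v * (u * w) := mul_le_mul_of_nonneg_left (by nlinarith) (by linarith)
    linarith
  have h5 : w ≤ u * v * w := by
    have : w * 1 ≤ w * (u * v) := mul_le_mul_of_nonneg_left (by nlinarith) (by linarith)
    linarith
  have h6 : u * v * w ≤ r * (u * v * w) := by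
    have : 1 * (u * v * w) ≤ r * (u * v * w) :=
      mul_le_mul_of_nonneg_right hR (by positivity)
    linarith
  have h7 : u + v + w ≤ 3 * (r * (u * v * w)) := by linarith
  calc (u + v + w) * x ≤ 3 * (r * (u * v * w)) * x := mul_le_mul_of_nonneg_right h7 hx.le
    _ = r * (u * v * w) * (3 * x) := by ring

end

end Pool.Agent.SK
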