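import Pool.Agent.SK.N3_b

/-!
# Malle's conjecture for 8T8 over number fields, block N, row N3: the core estimate
-/

set_option autoImplicit false

open scoped BigOperators Topology
open Filter

namespace Pool.Agent.SK

open Pool.Agent.H98.MK (sg)
open Pool.Agent.H98.MF
open Pool.Agent.H32.MQ (Qd El Qf Pk Pf)

section

variable {S SF : Sys} (F : Qc S SF)

/-- the conclusion of N2 for given constants -/
def N2c (C η : ℝ) : Prop := ∀ (a b : F.Q.P → ℝ), (∀ p, |a p| ≤ 1) → (∀ p, |b p| ≤ 1) →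
  ∀ (E : ℕ) (x : ℝ), 0 < x →
    |∑' z : F.Q.P × F.Q.P, (if F.Q.sh z.1 ≠ F.Q.sh z.2 ∧ 2 ^ E ≤ S.N (F.Q.sh z.1) ∧
      2 ^ E ≤ S.N (F.Q.sh z.2) then a z.1 * b z.2 *
        ((sg (SF.J (F.io z.1) (F.io (F.Q.cj z.2))) : ℤ) : ℝ) *
        Real.exp (-((S.N (F.Q.sh z.1) : ℝ) * (S.N (F.Q.sh z.2) : ℝ) / x)) else 0)| ≤
      C * x * ((2 : ℝ) ^ E) ^ (-η) * Real.exp (-(1 / (4 * x)))

open Classical in
/-- the coefficient of a prime -/
noncomputable def cf3 (Pp : Set F.Q.P) (R : Finset F.Q.P) (t : SF.T) (q : F.Q.P)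
    (f : F.Q.P → ℝ) (p : F.Q.P) : ℝ :=
  if p ∈ Pp ∧ SF.ty (F.io p) = t ∧ (∀ r ∈ R, F.Q.sh r ≠ F.Q.sh p) ∧ F.Q.sh p ≠ F.Q.sh q
  then f p else 0

open Classical in
/-- the coefficient of the fixed prime -/
noncomputable def cl3 (Pp : Set F.Q.P) (R : Finset F.Q.P) (t : SF.T) (E : ℕ) (q : F.Q.P) : ℝ :=
  if q ∈ Pp ∧ SF.ty (F.io q) = t ∧ (∀ r ∈ R, F.Q.sh r ≠ F.Q.sh q) ∧ 2 ^ E ≤ S.N (F.Q.sh q)
  then 1 else 0

theorem cf3_le (Pp : Set F.Q.P) (R : Finset F.Q.P) (t : SF.T) (q : F.Q.P)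
    (f : F.Q.P → ℝ) (hf : ∀ p, |f p| ≤ 1) (p : F.Q.P) : |cf3 F Pp R t q f p| ≤ 1 := by
  unfold cf3
  split_ifs
  · exact hf p
  · rw [abs_zero]
    exact zero_le_one

open Classical in
/-- one term for a fixed prime -/
theorem n3_term (Pp : Set F.Q.P) (R : Finset F.Q.P) (t : Fin 3 → SF.T) (E : ℕ)
    (e : F.Q.P × (F.Q.P × F.Q.P) ≃ (Fin 3 → F.Q.P)) (i j l : Fin 3) (hij : i ≠ j) (hil : i ≠ l)
    (hjl : j ≠ l) (he : ∀ z, e z l = z.1 ∧ e z i = z.2.1 ∧ e z j = z.2.2)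
    (f g : F.Q.P → F.Q.P → ℝ) (x : ℝ) (z : F.Q.P × (F.Q.P × F.Q.P)) :
    (if W3 F Pp R t E (e z) then f (e z l) (e z i) * g (e z l) (e z j) *
      ((sg (SF.J (F.io (e z i)) (F.io (F.Q.cj (e z j)))) : ℤ) : ℝ) *
        Real.exp (-((F.Q.nq (uT F R (e z)) : ℝ) / x)) else 0) =
    cl3 F Pp R (t l) E z.1 * (if F.Q.sh z.2.1 ≠ F.Q.sh z.2.2 ∧ 2 ^ E ≤ S.N (F.Q.sh z.2.1) ∧
      2 ^ E ≤ S.N (F.Q.sh z.2.2) then
        cf3 F Pp R (t i) z.1 (f z.1) z.2.1 * cf3 F Pp R (t j) z.1 (g z.1) z.2.2 *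
        ((sg (SF.J (F.io z.2.1) (F.io (F.Q.cj z.2.2))) : ℤ) : ℝ) *
        Real.exp (-((S.N (F.Q.sh z.2.1) : ℝ) * (S.N (F.Q.sh z.2.2) : ℝ) /
          (x / F.Q.nq R / S.N (F.Q.sh z.1)))) else 0) := by
  obtain ⟨e1, e2, e3⟩ := he z
  by_cases hW : W3 F Pp R t E (e z)
  · obtain ⟨hT, hE, ht⟩ := hW
    rw [if_pos ⟨hT, hE, ht⟩, n3_nqT F Pp R _ hT, n3_prod _ i j l hij hil hjl]
    have a1 : cl3 F Pp R (t l) E z.1 = 1 := by
      unfold cl3
      rw [if_pos]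
      have h1 := hT.mem l
      have h2 := ht l
      have h3 := hT.out l
      have h4 := hE l
      rw [e1] at h1 h2 h3 h4
      exact ⟨h1, h2, h3, h4⟩
    have a2 : cf3 F Pp R (t i) z.1 (f z.1) z.2.1 = f z.1 z.2.1 := by
      unfold cf3
      rw [if_pos]
      have h1 := hT.mem i
      have h2 := ht i
      have h3 := hT.out i
      have h4 := hT.ne i l hil
      rw [e2] at h1 h2 h3 h4
      rw [e1] at h4
      exact ⟨h1, h2, h3, h4⟩
    have a3 : cf3 F Pp R (t j) z.1 (g z.1) z.2.2 = g z.1 z.2.2 := by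
      unfold cf3
      rw [if_pos]
      have h1 := hT.mem j
      have h2 := ht j
      have h3 := hT.out j
      have h4 := hT.ne j l hjl
      rw [e3] at h1 h2 h3 h4
      rw [e1] at h4
      exact ⟨h1, h2, h3, h4⟩
    have a4 : F.Q.sh z.2.1 ≠ F.Q.sh z.2.2 ∧ 2 ^ E ≤ S.N (F.Q.sh z.2.1) ∧
        2 ^ E ≤ S.N (F.Q.sh z.2.2) := by
      have h1 := hT.ne i j hij
      have h2 := hE i
      have h3 := hE j
      rw [e2] at h1 h2
      rw [e3] at h1 h3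
      exact ⟨h1, h2, h3⟩
    rw [a1, a2, a3, if_pos a4, e1, e2, e3, one_mul]
    congr 2
    have hR : (0 : ℝ) < F.Q.nq R := by
      have : 0 < F.Q.nq R := Finset.prod_pos fun p _ => S.one_le_N p
      exact_mod_cast this
    have hl : (0 : ℝ) < S.N (F.Q.sh z.1) := by
      exact_mod_cast S.one_le_N _
    push_cast
    field_simp
  · rw [if_neg hW]
    symm
    by_contra hne
    apply hW
    have b1 := left_ne_zero_of_mul hne
    have b2 := right_ne_zero_of_mul hne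
    unfold cl3 at b1
    have c1 : z.1 ∈ Pp ∧ SF.ty (F.io z.1) = t l ∧ (∀ r ∈ R, F.Q.sh r ≠ F.Q.sh z.1) ∧
        2 ^ E ≤ S.N (F.Q.sh z.1) := by
      by_contra h
      rw [if_neg h] at b1
      exact b1 rfl
    have c2 : F.Q.sh z.2.1 ≠ F.Q.sh z.2.2 ∧ 2 ^ E ≤ S.N (F.Q.sh z.2.1) ∧
        2 ^ E ≤ S.N (F.Q.sh z.2.2) := by
      by_contra h
      rw [if_neg h] at b2
      exact b2 rfl
    rw [if_pos c2] at b2
    have b3 := left_ne_zero_of_mul (left_ne_zero_of_mul (left_ne_zero_of_mul b2))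
    have b4 := right_ne_zero_of_mul (left_ne_zero_of_mul (left_ne_zero_of_mul b2))
    have c3 : z.2.1 ∈ Pp ∧ SF.ty (F.io z.2.1) = t i ∧ (∀ r ∈ R, F.Q.sh r ≠ F.Q.sh z.2.1) ∧
        F.Q.sh z.2.1 ≠ F.Q.sh z.1 := by
      by_contra h
      unfold cf3 at b3
      rw [if_neg h] at b3
      exact b3 rfl
    have c4 : z.2.2 ∈ Pp ∧ SF.ty (F.io z.2.2) = t j ∧ (∀ r ∈ R, F.Q.sh r ≠ F.Q.sh z.2.2) ∧
        F.Q.sh z.2.2 ≠ F.Q.sh z.1 := by
      by_contra h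
      unfold cf3 at b4
      rw [if_neg h] at b4
      exact b4 rfl
    have hall := n3_all i j l hij hil hjl
    refine ⟨⟨?_, ?_, ?_⟩, ?_, ?_⟩
    · intro m
      rcases hall m with rfl | rfl | rfl
      · rw [e2]; exact c3.1
      · rw [e3]; exact c4.1
      · rw [e1]; exact c1.1
    · intro m m' hm
      rcases hall m with rfl | rfl | rfl <;> rcases hall m' with rfl | rfl | rfl
      · exact absurd rfl hm
      · rw [e2, e3]; exact c2.1
      · rw [e2, e1]; exact c3.2.2.2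
      · rw [e3, e2]; exact c2.1.symm
      · exact absurd rfl hm
      · rw [e3, e1]; exact c4.2.2.2
      · rw [e1, e2]; exact c3.2.2.2.symm
      · rw [e1, e3]; exact c4.2.2.2.symm
      · exact absurd rfl hm
    · intro m
      rcases hall m with rfl | rfl | rfl
      · rw [e2]; exact c3.2.2.1
      · rw [e3]; exact c4.2.2.1
      · rw [e1]; exact c1.2.2.1
    · intro m
      rcases hall m with rfl | rfl | rfl
      · rw [e2]; exact c2.2.1
      · rw [e3]; exact c2.2.2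
      · rw [e1]; exact c1.2.2.2
    · intro m
      rcases hall m with rfl | rfl | rfl
      · rw [e2]; exact c3.2.1
      · rw [e3]; exact c4.2.1
      · rw [e1]; exact c1.2.1

end

end Pool.Agent.SK
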