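import Pool.Agent.SK.N3_c

/-!
# Malle's conjecture for 8T8 over number fields, block N, row N3: the core estimate, conclusion
-/

set_option autoImplicit false

open scoped BigOperators Topology
open Filter

namespace Pool.Agent.SK

open Pool.Agent.H98.MK (sg)
open Pool.Agent.H98.MF
open Pool.Agent.H32.MQ (Qd El Qf Pk Pf)

section

variable {S SF : Sys} (F : Qc S SF)

theorem n3_sg (a : ZMod 2) : |((sg a : ℤ) : ℝ)| = 1 := by
  have h : ∀ a : ZMod 2, sg a = 1 ∨ sg a = -1 := by decide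
  rcases h a with h1 | h1
  · rw [h1]; norm_num
  · rw [h1]; norm_num

/-- the sum over the fixed prime -/
theorem n3_fix (l4 : SL4) (K : ℝ) (hK : 0 ≤ K) (hL : (gdN F.Q).Lin K) : ∃ C : ℝ, 0 < C ∧
    ∀ y : ℝ, 0 < y →
      (Summable fun q : F.Q.P => y / S.N (F.Q.sh q) *
        Real.exp (-(1 / (4 * (y / S.N (F.Q.sh q)))))) ∧
      ∑' q : F.Q.P, y / S.N (F.Q.sh q) * Real.exp (-(1 / (4 * (y / S.N (F.Q.sh q))))) ≤
        C * (y * (1 + Real.log (1 + y)) * Real.exp (-(1 / (8 * y)))) := by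
  obtain ⟨C1, hC1, h⟩ := n3_one l4
  refine ⟨4 * (C1 * K) + 1, by positivity, fun y hy => ?_⟩
  have hy8 : 0 < 8 * y := by positivity
  have h1 : Summable fun q : F.Q.P => 1 / (S.N (F.Q.sh q) : ℝ) *
      Real.exp (-((S.N (F.Q.sh q) : ℝ) / (8 * y))) :=
    (h (prN F) K hK (n3_lin F K hL) (8 * y) hy8).1
  have h2 : ∑' q : F.Q.P, 1 / (S.N (F.Q.sh q) : ℝ) *
      Real.exp (-((S.N (F.Q.sh q) : ℝ) / (8 * y))) ≤ C1 * K * (1 + Real.log (1 + 8 * y)) :=
    (h (prN F) K hK (n3_lin F K hL) (8 * y) hy8).2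
  have hN : ∀ q : F.Q.P, (1 : ℝ) ≤ S.N (F.Q.sh q) := fun q => by exact_mod_cast S.one_le_N _
  have h3 : ∀ q : F.Q.P, y / S.N (F.Q.sh q) * Real.exp (-(1 / (4 * (y / S.N (F.Q.sh q))))) ≤
      y * Real.exp (-(1 / (8 * y))) * (1 / (S.N (F.Q.sh q) : ℝ) *
        Real.exp (-((S.N (F.Q.sh q) : ℝ) / (8 * y)))) := by
    intro q
    have h4 : Real.exp (-(1 / (4 * (y / S.N (F.Q.sh q))))) ≤
        Real.exp (-(1 / (8 * y))) * Real.exp (-((S.N (F.Q.sh q) : ℝ) / (8 * y))) := by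
      rw [← Real.exp_add, Real.exp_le_exp]
      have h5 := hN q
      generalize (S.N (F.Q.sh q) : ℝ) = n at h5 ⊢
      have h6 : 1 / (4 * (y / n)) = n / (4 * y) := by
        field_simp
      rw [h6]
      have h7 : n / (4 * y) - n / (8 * y) = n / (8 * y) := by
        field_simp
        ring
      have h8 : 1 / (8 * y) ≤ n / (8 * y) := by
        gcongr
      linarith
    have h5 : (0 : ℝ) ≤ y / S.N (F.Q.sh q) := by positivity
    calc y / S.N (F.Q.sh q) * Real.exp (-(1 / (4 * (y / S.N (F.Q.sh q)))))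
        ≤ y / S.N (F.Q.sh q) * (Real.exp (-(1 / (8 * y))) *
          Real.exp (-((S.N (F.Q.sh q) : ℝ) / (8 * y)))) := mul_le_mul_of_nonneg_left h4 h5
      _ = _ := by ring
  have h4 : Summable fun q : F.Q.P => y / S.N (F.Q.sh q) *
      Real.exp (-(1 / (4 * (y / S.N (F.Q.sh q))))) :=
    Summable.of_nonneg_of_le (fun q => by positivity) h3 (h1.mul_left _)
  refine ⟨h4, ?_⟩
  have h5 := h4.tsum_le_tsum h3 (h1.mul_left _)
  rw [tsum_mul_left] at h5
  refine h5.trans ?_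
  have h6 : 1 + Real.log (1 + 8 * y) ≤ 4 * (1 + Real.log (1 + y)) := by
    have h7 : Real.log (1 + 8 * y) ≤ Real.log (8 * (1 + y)) :=
      Real.log_le_log (by positivity) (by linarith)
    rw [Real.log_mul (by norm_num) (by positivity)] at h7
    have h8 : Real.log 8 ≤ 3 := by
      have h9 : Real.log 8 = 3 * Real.log 2 := by
        rw [show (8 : ℝ) = 2 ^ 3 by norm_num, Real.log_pow]
        norm_num
      have := Real.log_two_lt_d9
      rw [h9]
      linarith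
    have h9 : 0 ≤ Real.log (1 + y) := Real.log_nonneg (by linarith)
    linarith
  have h7 : 0 ≤ Real.log (1 + y) := Real.log_nonneg (by linarith)
  have h8 : 0 < Real.exp (-(1 / (8 * y))) := Real.exp_pos _
  calc y * Real.exp (-(1 / (8 * y))) * ∑' q : F.Q.P, 1 / (S.N (F.Q.sh q) : ℝ) *
        Real.exp (-((S.N (F.Q.sh q) : ℝ) / (8 * y)))
      ≤ y * Real.exp (-(1 / (8 * y))) * (C1 * K * (4 * (1 + Real.log (1 + y)))) := by
        refine mul_le_mul_of_nonneg_left (h2.trans ?_) (by positivity)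
        exact mul_le_mul_of_nonneg_left h6 (by positivity)
    _ = 4 * (C1 * K) * (y * (1 + Real.log (1 + y)) * Real.exp (-(1 / (8 * y)))) := by ring
    _ ≤ (4 * (C1 * K) + 1) * (y * (1 + Real.log (1 + y)) * Real.exp (-(1 / (8 * y)))) := by
        refine mul_le_mul_of_nonneg_right (by linarith) ?_
        positivity

open Classical in
/-- the core estimate -/
theorem n3_core (C η : ℝ) (hC : 0 ≤ C) (hN : N2c F C η) (l4 : SL4) (K : ℝ) (hK : 0 ≤ K)
    (hL : (gdN F.Q).Lin K) : ∃ C' : ℝ, 0 ≤ C' ∧ ∀ (Pp : Set F.Q.P) (R : Finset F.Q.P)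
    (t : Fin 3 → SF.T) (E : ℕ) (e : F.Q.P × (F.Q.P × F.Q.P) ≃ (Fin 3 → F.Q.P))
    (i j l : Fin 3), i ≠ j → i ≠ l → j ≠ l →
    (∀ z, e z l = z.1 ∧ e z i = z.2.1 ∧ e z j = z.2.2) →
    ∀ (f g : F.Q.P → F.Q.P → ℝ), (∀ p q, |f p q| ≤ 1) → (∀ p q, |g p q| ≤ 1) →
    ∀ x : ℝ, 0 < x →
      |∑' P : Fin 3 → F.Q.P, (if W3 F Pp R t E P then f (P l) (P i) * g (P l) (P j) *
        ((sg (SF.J (F.io (P i)) (F.io (F.Q.cj (P j)))) : ℤ) : ℝ) *
          Real.exp (-((F.Q.nq (uT F R P) : ℝ) / x)) else 0)| ≤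
        C' * ((2 : ℝ) ^ E) ^ (-η) * (x / F.Q.nq R * (1 + Real.log (1 + x / F.Q.nq R)) *
          Real.exp (-((F.Q.nq R : ℝ) / (8 * x)))) := by
  obtain ⟨C1, hC1, h1⟩ := n3_fix F l4 K hK hL
  refine ⟨C * C1, by positivity, ?_⟩
  intro Pp R t E e i j l hij hil hjl he f g hf hg x hx
  have hR : (0 : ℝ) < F.Q.nq R := by
    have : 0 < F.Q.nq R := Finset.prod_pos fun p _ => S.one_le_N p
    exact_mod_cast this
  have hy : 0 < x / F.Q.nq R := by positivity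
  have hsum : Summable fun P : Fin 3 → F.Q.P =>
      (if W3 F Pp R t E P then f (P l) (P i) * g (P l) (P j) *
        ((sg (SF.J (F.io (P i)) (F.io (F.Q.cj (P j)))) : ℤ) : ℝ) *
          Real.exp (-((F.Q.nq (uT F R P) : ℝ) / x)) else 0) := by
    refine Summable.of_norm_bounded (n3_sum_e F l4 K hK hL x hx e i j l hij hil hjl he)
      fun P => ?_
    rw [Real.norm_eq_abs]
    split_ifs with hW
    · rw [abs_mul, abs_mul, abs_mul, n3_sg, mul_one, abs_of_pos (Real.exp_pos _)]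
      have h2 : |f (P l) (P i)| * |g (P l) (P j)| ≤ 1 :=
        mul_le_one₀ (hf _ _) (abs_nonneg _) (hg _ _)
      calc |f (P l) (P i)| * |g (P l) (P j)| * Real.exp (-((F.Q.nq (uT F R P) : ℝ) / x))
          ≤ 1 * Real.exp (-((F.Q.nq (uT F R P) : ℝ) / x)) :=
            mul_le_mul_of_nonneg_right h2 (Real.exp_pos _).le
        _ ≤ n3_g F x P := by
            rw [one_mul]
            exact n3_le_g F Pp R P hW.1 x hx
    · rw [abs_zero]
      exact Finset.prod_nonneg fun m _ => (Real.exp_pos _).le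
  have hsum2 := (e.summable_iff).2 hsum
  rw [← e.tsum_eq]
  have hfun := funext fun z => n3_term F Pp R t E e i j l hij hil hjl he f g x z
  have hsum3 : Summable fun z : F.Q.P × (F.Q.P × F.Q.P) =>
      cl3 F Pp R (t l) E z.1 * (if F.Q.sh z.2.1 ≠ F.Q.sh z.2.2 ∧ 2 ^ E ≤ S.N (F.Q.sh z.2.1) ∧
      2 ^ E ≤ S.N (F.Q.sh z.2.2) then
        cf3 F Pp R (t i) z.1 (f z.1) z.2.1 * cf3 F Pp R (t j) z.1 (g z.1) z.2.2 *
        ((sg (SF.J (F.io z.2.1) (F.io (F.Q.cj z.2.2))) : ℤ) : ℝ) *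
        Real.exp (-((S.N (F.Q.sh z.2.1) : ℝ) * (S.N (F.Q.sh z.2.2) : ℝ) /
          (x / F.Q.nq R / S.N (F.Q.sh z.1)))) else 0) := by
    rw [← hfun]
    exact hsum2
  rw [hfun, hsum3.tsum_prod]
  have hin : ∀ q : F.Q.P, |∑' z : F.Q.P × F.Q.P, cl3 F Pp R (t l) E q *
      (if F.Q.sh z.1 ≠ F.Q.sh z.2 ∧ 2 ^ E ≤ S.N (F.Q.sh z.1) ∧
      2 ^ E ≤ S.N (F.Q.sh z.2) then
        cf3 F Pp R (t i) q (f q) z.1 * cf3 F Pp R (t j) q (g q) z.2 *
        ((sg (SF.J (F.io z.1) (F.io (F.Q.cj z.2))) : ℤ) : ℝ) *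
        Real.exp (-((S.N (F.Q.sh z.1) : ℝ) * (S.N (F.Q.sh z.2) : ℝ) /
          (x / F.Q.nq R / S.N (F.Q.sh q)))) else 0)| ≤
      C * ((2 : ℝ) ^ E) ^ (-η) * (x / F.Q.nq R / S.N (F.Q.sh q) *
        Real.exp (-(1 / (4 * (x / F.Q.nq R / S.N (F.Q.sh q)))))) := by
    intro q
    rw [tsum_mul_left, abs_mul]
    have hq : (0 : ℝ) < S.N (F.Q.sh q) := by exact_mod_cast S.one_le_N _
    have h2 := hN _ _ (cf3_le F Pp R (t i) q (f q) (hf q)) (cf3_le F Pp R (t j) q (g q) (hg q)) E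
      (x / F.Q.nq R / S.N (F.Q.sh q)) (by positivity)
    have h3 : |cl3 F Pp R (t l) E q| ≤ 1 := by
      unfold cl3
      split_ifs
      · rw [abs_one]
      · rw [abs_zero]; exact zero_le_one
    calc _ ≤ 1 * _ := mul_le_mul_of_nonneg_right h3 (abs_nonneg _)
      _ ≤ _ := by
        rw [one_mul]
        refine h2.trans (le_of_eq ?_)
        ring
  obtain ⟨h2, h3⟩ := h1 (x / F.Q.nq R) hy
  have h4 := h2.mul_left (C * ((2 : ℝ) ^ E) ^ (-η))
  have h5 := tsum_of_norm_bounded h4.hasSum (fun q => (Real.norm_eq_abs _).le.trans (hin q))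
  rw [Real.norm_eq_abs, tsum_mul_left] at h5
  refine h5.trans ?_
  have h6 : 1 / (8 * (x / F.Q.nq R)) = (F.Q.nq R : ℝ) / (8 * x) := by
    field_simp
  rw [h6] at h3
  have h7 : 0 ≤ C * ((2 : ℝ) ^ E) ^ (-η) := by positivity
  calc _ ≤ C * ((2 : ℝ) ^ E) ^ (-η) * (C1 * (x / F.Q.nq R * (1 + Real.log (1 + x / F.Q.nq R)) *
        Real.exp (-((F.Q.nq R : ℝ) / (8 * x))))) := mul_le_mul_of_nonneg_left h3 h7
    _ = _ := by ring

end

end Pool.Agent.SK
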