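import Pool.Agent.SK.N3_d

/-!
# Malle's conjecture for 8T8 over number fields, block N, row N3: expansion of the product
-/

set_option autoImplicit false

open scoped BigOperators Topology
open Filter

namespace Pool.Agent.SK

open Pool.Agent.H98.MK (sg)
open Pool.Agent.H98.MF
open Pool.Agent.H32.MQ (Qd El Qf Pk Pf)

theorem n3_sgadd (a b : ZMod 2) : ((sg (a + b) : ℤ) : ℝ) = (sg a : ℝ) * (sg b : ℝ) := by
  have h : ∀ a b : ZMod 2, sg (a + b) = sg a * sg b := by decide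
  rw [h, Int.cast_mul]

theorem n3_sgsum {ι : Type} [DecidableEq ι] (s : Finset ι) (f : ι → ZMod 2) :
    ∏ i ∈ s, ((sg (f i) : ℤ) : ℝ) = ((sg (∑ i ∈ s, f i) : ℤ) : ℝ) := by
  induction s using Finset.induction_on with
  | empty =>
    rw [Finset.prod_empty, Finset.sum_empty]
    norm_num [sg]
  | insert a s ha ih => rw [Finset.prod_insert ha, Finset.sum_insert ha, n3_sgadd, ih]

section

variable {S SF : Sys} (F : Qc S SF)

/-- the symbol of `q` at the conjugate of `p` -/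
def n3_v (p q : F.Q.P) : ZMod 2 := SF.J (F.io q) (F.io (F.Q.cj p))

/-- the symbol of the unit part -/
def w3 (a : SF.T) (p : F.Q.P) : ZMod 2 := a ⬝ᵥ SF.ty (F.io (F.Q.cj p))

theorem n3_gdT (Pp : Set F.Q.P) (R : Finset F.Q.P) (hR : F.Q.Gd R) (P : Fin 3 → F.Q.P)
    (hP : Tri F Pp R P) : F.Q.Gd (uT F R P) := by
  classical
  intro p hp q hq h
  unfold uT at hp hq
  rw [Finset.mem_union, Finset.mem_image] at hp hq
  rcases hp with hp | ⟨m, -, rfl⟩ <;> rcases hq with hq | ⟨m', -, rfl⟩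
  · exact hR p hp q hq h
  · exact absurd h (hP.out m' p hp)
  · exact absurd h.symm (hP.out m q hq)
  · by_contra hne
    exact hP.ne m m' (fun h1 => hne (by rw [h1])) h

theorem n3_sumT (Pp : Set F.Q.P) (R : Finset F.Q.P) (P : Fin 3 → F.Q.P)
    (hP : Tri F Pp R P) (f : F.Q.P → ZMod 2) :
    ∑ q ∈ uT F R P, f q = ∑ q ∈ R, f q + ∑ m, f (P m) := by
  classical
  unfold uT
  rw [Finset.sum_union, Finset.sum_image]
  · intro m _ m' _ h
    by_contra hne
    exact hP.ne m m' hne (congrArg F.Q.sh h)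
  · rw [Finset.disjoint_left]
    intro q hq hq'
    obtain ⟨m, -, rfl⟩ := Finset.mem_image.1 hq'
    exact hP.out m _ hq rfl

theorem n3_prodT (Pp : Set F.Q.P) (R : Finset F.Q.P) (P : Fin 3 → F.Q.P)
    (hP : Tri F Pp R P) (f : F.Q.P → ℝ) :
    ∏ q ∈ uT F R P, f q = (∏ q ∈ R, f q) * ∏ m, f (P m) := by
  classical
  unfold uT
  rw [Finset.prod_union, Finset.prod_image]
  · intro m _ m' _ h
    by_contra hne
    exact hP.ne m m' hne (congrArg F.Q.sh h)
  · rw [Finset.disjoint_left]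
    intro q hq hq'
    obtain ⟨m, -, rfl⟩ := Finset.mem_image.1 hq'
    exact hP.out m _ hq rfl

theorem n3_sy (a : SF.T) (g : Finset F.Q.P) (hg : F.Q.Gd g) (p : F.Q.P) (hp : p ∈ g) :
    F.Q.sy (F.el a g) (F.Q.cj p) = ∑ q ∈ g, n3_v F p q + w3 F a p := by
  classical
  have h1 : F.Q.cj p ∉ g := fun h => F.Q.cj_ne p (hg _ h _ hp (F.Q.sh_cj p))
  rw [F.sy_all a g (F.Q.cj p) hg h1]
  show ∑ q ∈ g.image F.io, SF.J q (F.io (F.Q.cj p)) + _ = _
  rw [Finset.sum_image fun x _ y _ h => F.io_inj h]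
  rfl

/-- the exponent of a term of the expansion -/
noncomputable def X3 (a : SF.T) (R : Finset F.Q.P) (e : Finset F.Q.P) (I : Finset (Fin 3))
    (P : Fin 3 → F.Q.P) : ZMod 2 :=
  ∑ p ∈ e, (∑ q ∈ R, n3_v F p q + ∑ m, n3_v F p (P m) + w3 F a p) +
    ∑ m ∈ I, (∑ q ∈ R, n3_v F (P m) q + ∑ m', n3_v F (P m) (P m') + w3 F a (P m)) +
    (n3_v F (P 1) (P 0) + n3_v F (P 2) (P 0) + n3_v F (P 2) (P 1))

/-- expansion of the product -/
theorem n3_expand (Pp : Set F.Q.P) (a : SF.T) (R : Finset F.Q.P) (hR : F.Q.Gd R)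
    (P : Fin 3 → F.Q.P) (hP : Tri F Pp R P) :
    prc F.Q (F.el a (uT F R P)) (uT F R P) * kT F P =
      ∑ e ∈ R.powerset, ∑ I ∈ (Finset.univ : Finset (Fin 3)).powerset,
        ((sg (X3 F a R e I P) : ℤ) : ℝ) := by
  classical
  have hg := n3_gdT F Pp R hR P hP
  have h1 : prc F.Q (F.el a (uT F R P)) (uT F R P) =
      ∏ p ∈ uT F R P, (1 + ((sg (∑ q ∈ R, n3_v F p q + ∑ m, n3_v F p (P m) + w3 F a p) : ℤ) : ℝ)) := by
    unfold prc
    refine Finset.prod_congr rfl fun p hp => ?_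
    rw [n3_sy F a _ hg p hp, n3_sumT F Pp R P hP]
  rw [h1, n3_prodT F Pp R P hP, Finset.prod_one_add, Finset.prod_one_add]
  have h2 : kT F P = ((sg (n3_v F (P 1) (P 0) + n3_v F (P 2) (P 0) + n3_v F (P 2) (P 1)) : ℤ) : ℝ) := rfl
  rw [h2, Finset.sum_mul_sum, Finset.sum_mul]
  refine Finset.sum_congr rfl fun e _ => ?_
  rw [Finset.sum_mul]
  refine Finset.sum_congr rfl fun I _ => ?_
  rw [n3_sgsum, n3_sgsum, ← n3_sgadd, ← n3_sgadd]
  rfl

end

end Pool.Agent.SK
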