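import Pool.Agent.SK.NDefs

/-!
# Malle's conjecture for 8T8 over number fields: the analytic theorem for the sums `T_d`
-/

set_option autoImplicit false

open scoped BigOperators Topology
open Filter

namespace Pool.Agent.SK

open Pool.Agent.H98.MF

/-- a power of two near a given number -/
private theorem n9_pow {y : ℝ} (hy : 1 ≤ y) : ∃ n : ℕ, y ≤ (2 : ℝ) ^ n ∧ (2 : ℝ) ^ n ≤ 2 * y := by
  obtain ⟨n, h1, h2⟩ := exists_nat_pow_near hy one_lt_two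
  refine ⟨n + 1, h2.le, ?_⟩
  rw [pow_succ]
  linarith

private theorem n9_bd {η l : ℝ} {e : ℕ} (hη : 0 < η) (hl : 0 ≤ l)
    (h : (1 + l) ^ (4 / η) ≤ (2 : ℝ) ^ e) : l ^ 3 * ((2 : ℝ) ^ e) ^ (-η) ≤ (1 + l)⁻¹ := by
  have hl1 : 0 < 1 + l := by linarith
  have h1 : ((2 : ℝ) ^ e) ^ (-η) ≤ ((1 + l) ^ (4 / η)) ^ (-η) :=
    Real.rpow_le_rpow_of_nonpos (Real.rpow_pos_of_pos hl1 _) h (by linarith)
  have h2 : ((1 + l) ^ (4 / η)) ^ (-η) = ((1 + l) ^ 4)⁻¹ := by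
    rw [← Real.rpow_mul hl1.le]
    have h3 : 4 / η * -η = -((4 : ℕ) : ℝ) := by
      push_cast
      field_simp
    rw [h3, Real.rpow_neg hl1.le, Real.rpow_natCast]
  rw [h2] at h1
  calc l ^ 3 * ((2 : ℝ) ^ e) ^ (-η) ≤ (1 + l) ^ 3 * ((1 + l) ^ 4)⁻¹ :=
        mul_le_mul (pow_le_pow_left₀ hl (by linarith) 3) h1
          (Real.rpow_nonneg (by positivity) _) (by positivity)
    _ = (1 + l)⁻¹ := by
        field_simp

/-- N9: the analytic theorem for `T_d` -/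
theorem n9 (n1 : SN1) (n4 : SN4) (n8 : SN8) : SN9 := by
  intro S SF F hc Pp τ D hD hτ hs1 hs2
  obtain ⟨C, η, hC, hη, h4⟩ := n4 S SF F hc
  have hex : ∀ x : ℝ, ∃ n : ℕ, 2 ≤ x → (1 + Real.log x) ^ (4 / η) ≤ (2 : ℝ) ^ n ∧
      (2 : ℝ) ^ n ≤ 2 * (1 + Real.log x) ^ (4 / η) := by
    intro x
    by_cases hx : 2 ≤ x
    · have h0 : 0 ≤ Real.log x := Real.log_nonneg (by linarith)
      have h1 : 1 ≤ (1 + Real.log x) ^ (4 / η) :=
        Real.one_le_rpow (by linarith) (by positivity)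
      obtain ⟨n, hn⟩ := n9_pow h1
      exact ⟨n, fun _ => hn⟩
    · exact ⟨0, fun h => absurd h hx⟩
  choose E hE using hex
  have hfew := n8 S SF F Pp τ D hτ E ⟨4 / η, fun x hx => (hE x hx).2⟩
  have hdiff : Tendsto (fun x : ℝ => (∑' g : (gdN F.Q).I,
      tN F τ g.1 * Real.exp (-((F.Q.nq g.1 : ℝ) / x))) / x - few F Pp τ (2 ^ E x) x / x)
      atTop (𝓝 0) := by
    have h5 : Tendsto (fun x : ℝ => 2 * (C * D) * (1 + Real.log x)⁻¹) atTop (𝓝 0) := by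
      have h6 := (tendsto_inv_atTop_zero.comp
        (tendsto_atTop_add_const_left atTop (1 : ℝ) Real.tendsto_log_atTop)).const_mul
          (2 * (C * D))
      rw [mul_zero] at h6
      exact h6
    refine squeeze_zero_norm' ?_ h5
    filter_upwards [eventually_ge_atTop (2 : ℝ)] with x hx
    have hx0 : 0 < x := by linarith
    have hl0 : 0 ≤ Real.log x := Real.log_nonneg (by linarith)
    have hz1 : (1 : ℝ) ≤ 2 ^ E x := one_le_pow₀ one_le_two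
    obtain ⟨w1, w2, hw1, hw2, _, _, _, heq⟩ := n1 S SF F Pp τ D hτ (2 ^ E x) x hz1 hx0
    have e1 := h4 Pp τ D hD hτ hs1 w1 hw1 (E x) x hx
    have e2 := h4 Ppᶜ τ D hD hτ hs2 w2 hw2 (E x) x hx
    have e3 := n9_bd hη hl0 (hE x hx).1
    have e4 : C * D * x * Real.log x ^ 3 * ((2 : ℝ) ^ E x) ^ (-η) ≤
        C * D * x * (1 + Real.log x)⁻¹ := by
      rw [mul_assoc (C * D * x)]
      exact mul_le_mul_of_nonneg_left e3 (by positivity)
    rw [heq, Real.norm_eq_abs, ← sub_div, abs_div, abs_of_pos hx0, div_le_iff₀ hx0]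
    have e5 : few F Pp τ (2 ^ E x) x + ∑' R : (gdN F.Q).I, w1 R.1 * tri F Pp τ (2 ^ E x) x R.1 +
        ∑' R : (gdN F.Q).I, w2 R.1 * tri F Ppᶜ τ (2 ^ E x) x R.1 - few F Pp τ (2 ^ E x) x =
        ∑' R : (gdN F.Q).I, w1 R.1 * tri F Pp τ (2 ^ E x) x R.1 +
        ∑' R : (gdN F.Q).I, w2 R.1 * tri F Ppᶜ τ (2 ^ E x) x R.1 := by ring
    rw [e5]
    refine (abs_add_le _ _).trans ?_
    calc _ ≤ C * D * x * (1 + Real.log x)⁻¹ + C * D * x * (1 + Real.log x)⁻¹ :=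
          add_le_add (e1.trans e4) (e2.trans e4)
      _ = 2 * (C * D) * (1 + Real.log x)⁻¹ * x := by ring
  have h6 := hdiff.add hfew
  rw [add_zero] at h6
  refine h6.congr fun x => ?_
  ring

end Pool.Agent.SK
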