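import Pool.Agent.SK.FDefs

/-!
# Malle's conjecture for 8T8 over number fields: the sums `T_d`, analytic part
(definitions and statements)
-/

set_option autoImplicit false

open scoped BigOperators Topology
open Filter

namespace Pool.Agent.SK

open Pool.Agent.H98.MK (sg)
open Pool.Agent.H98.MF
open Pool.Agent.H32.MQ (Qd El Qf Pk Pf)

section

variable {S SF : Sys} (F : Qc S SF)

/-- the action of the conjugation on the generators -/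
def Cjs : Prop := ∃ c : F.Q.P → SF.T, ∀ q p : F.Q.P, F.Q.sh q ≠ F.Q.sh p →
  SF.J (F.io q) (F.io (F.Q.cj p)) = SF.J (F.io (F.Q.cj q)) (F.io p) + c q ⬝ᵥ SF.ty (F.io p)

/-- three primes of `Pp` with distinct shadows outside `R` -/
structure Tri (Pp : Set F.Q.P) (R : Finset F.Q.P) (P : Fin 3 → F.Q.P) : Prop where
  mem : ∀ i, P i ∈ Pp
  ne : ∀ i j, i ≠ j → F.Q.sh (P i) ≠ F.Q.sh (P j)
  out : ∀ i, ∀ q ∈ R, F.Q.sh q ≠ F.Q.sh (P i)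

open Classical in
/-- the union of `R` and three primes -/
noncomputable def uT (R : Finset F.Q.P) (P : Fin 3 → F.Q.P) : Finset F.Q.P :=
  R ∪ Finset.univ.image P

/-- the kernel of three primes -/
noncomputable def kT (P : Fin 3 → F.Q.P) : ℝ :=
  ((sg (SF.J (F.io (P 0)) (F.io (F.Q.cj (P 1))) + SF.J (F.io (P 0)) (F.io (F.Q.cj (P 2))) +
    SF.J (F.io (P 1)) (F.io (F.Q.cj (P 2)))) : ℤ) : ℝ)

/-- the slices: the function `τ` of the classes as a function of three primes -/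
def Slc (Pp : Set F.Q.P) (τ : F.Q.G → ℝ) (C : ℝ) : Prop :=
  ∀ (a : SF.T) (R : Finset F.Q.P), F.Q.Gd R → ∀ t : Fin 3 → SF.T,
    ∃ (κ : ℝ) (α : Fin 3 → F.Q.P → ℝ), |κ| ≤ C ∧ (∀ i p, |α i p| ≤ 1) ∧
      ∀ P : Fin 3 → F.Q.P, Tri F Pp R P → (∀ i, SF.ty (F.io (P i)) = t i) →
        2 ^ (uT F R P).card * τ (F.el a (uT F R P)) =
          κ * prc F.Q (F.el a (uT F R P)) (uT F R P) * (∏ i, α i (P i)) * kT F P

/-- the term of a good set -/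
noncomputable def tN (τ : F.Q.G → ℝ) (g : Finset F.Q.P) : ℝ :=
  2 ^ g.card * ∑ a : SF.T, τ (F.el a g)

open Classical in
/-- the number of primes of `Pp` of norm at least `z` -/
noncomputable def nz (Pp : Set F.Q.P) (z : ℝ) (g : Finset F.Q.P) : ℕ :=
  (g.filter fun p => p ∈ Pp ∧ z ≤ (S.N (F.Q.sh p) : ℝ)).card

open Classical in
/-- the good sets with few large primes -/
noncomputable def few (Pp : Set F.Q.P) (τ : F.Q.G → ℝ) (z x : ℝ) : ℝ :=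
  ∑' g : (gdN F.Q).I, if nz F Pp z g.1 ≤ 2 ∧ nz F Ppᶜ z g.1 ≤ 2 then
    tN F τ g.1 * Real.exp (-((F.Q.nq g.1 : ℝ) / x)) else 0

open Classical in
/-- the sum over three large primes of `Pp` with given rest -/
noncomputable def tri (Pp : Set F.Q.P) (τ : F.Q.G → ℝ) (z x : ℝ) (R : Finset F.Q.P) : ℝ :=
  ∑' P : Fin 3 → F.Q.P, if Tri F Pp R P ∧ (∀ i, z ≤ (S.N (F.Q.sh (P i)) : ℝ)) then
    tN F τ (uT F R P) * Real.exp (-((F.Q.nq (uT F R P) : ℝ) / x)) else 0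

/-- the weight of the rest -/
noncomputable def om (n : ℕ) : ℝ := 1 / (((n : ℝ) + 1) * ((n : ℝ) + 2) * ((n : ℝ) + 3))

end

/-- N1: the decomposition of the sum -/
def SN1 : Prop := ∀ (S SF : Sys) (F : Qc S SF) (Pp : Set F.Q.P) (τ : F.Q.G → ℝ) (C : ℝ),
  (∀ γ, |τ γ| ≤ C) → ∀ z x : ℝ, 1 ≤ z → 0 < x → ∃ w1 w2 : Finset F.Q.P → ℝ,
    (∀ R, 0 ≤ w1 R ∧ w1 R ≤ 1) ∧ (∀ R, 0 ≤ w2 R ∧ w2 R ≤ 1) ∧
    (Summable fun g : (gdN F.Q).I => tN F τ g.1 * Real.exp (-((F.Q.nq g.1 : ℝ) / x))) ∧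
    (Summable fun R : (gdN F.Q).I => w1 R.1 * tri F Pp τ z x R.1) ∧
    (Summable fun R : (gdN F.Q).I => w2 R.1 * tri F Ppᶜ τ z x R.1) ∧
    ∑' g : (gdN F.Q).I, tN F τ g.1 * Real.exp (-((F.Q.nq g.1 : ℝ) / x)) =
      few F Pp τ z x + ∑' R : (gdN F.Q).I, w1 R.1 * tri F Pp τ z x R.1 +
        ∑' R : (gdN F.Q).I, w2 R.1 * tri F Ppᶜ τ z x R.1

open Classical in
/-- N2: bilinear sums over primes -/
def SN2 : Prop := ∀ (S SF : Sys) (F : Qc S SF), ∃ C η : ℝ, 0 ≤ C ∧ 0 < η ∧ η ≤ 1 ∧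
  ∀ (a b : F.Q.P → ℝ), (∀ p, |a p| ≤ 1) → (∀ p, |b p| ≤ 1) → ∀ (E : ℕ) (x : ℝ), 0 < x →
    |∑' z : F.Q.P × F.Q.P, (if F.Q.sh z.1 ≠ F.Q.sh z.2 ∧ 2 ^ E ≤ S.N (F.Q.sh z.1) ∧
      2 ^ E ≤ S.N (F.Q.sh z.2) then a z.1 * b z.2 *
        ((sg (SF.J (F.io z.1) (F.io (F.Q.cj z.2))) : ℤ) : ℝ) *
        Real.exp (-((S.N (F.Q.sh z.1) : ℝ) * (S.N (F.Q.sh z.2) : ℝ) / x)) else 0)| ≤
      C * x * ((2 : ℝ) ^ E) ^ (-η) * Real.exp (-(1 / (4 * x)))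

open Classical in
/-- N3: three primes, fixed rest, arbitrary coefficients -/
def SN3 : Prop := ∀ (S SF : Sys) (F : Qc S SF), Cjs F → ∃ C η : ℝ, 0 ≤ C ∧ 0 < η ∧ η ≤ 1 ∧
  ∀ (Pp : Set F.Q.P) (a : SF.T) (R : Finset F.Q.P), F.Q.Gd R → ∀ (t : Fin 3 → SF.T)
    (α : Fin 3 → F.Q.P → ℝ), (∀ i p, |α i p| ≤ 1) → ∀ (E : ℕ) (x : ℝ), 0 < x →
      |∑' P : Fin 3 → F.Q.P, (if Tri F Pp R P ∧ (∀ i, 2 ^ E ≤ S.N (F.Q.sh (P i))) ∧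
          (∀ i, SF.ty (F.io (P i)) = t i) then
        prc F.Q (F.el a (uT F R P)) (uT F R P) * (∏ i, α i (P i)) * kT F P *
          Real.exp (-((F.Q.nq (uT F R P) : ℝ) / x)) else 0)| ≤
        C * 2 ^ R.card * ((2 : ℝ) ^ E) ^ (-η) *
          (x / F.Q.nq R * (1 + Real.log (1 + x / F.Q.nq R)) *
            Real.exp (-((F.Q.nq R : ℝ) / (8 * x))))

/-- N4: the sum over the rest for given `z` -/
def SN4 : Prop := ∀ (S SF : Sys) (F : Qc S SF), Cjs F → ∃ C η : ℝ, 0 ≤ C ∧ 0 < η ∧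
  ∀ (Pp : Set F.Q.P) (τ : F.Q.G → ℝ) (D : ℝ), 0 ≤ D → (∀ γ, |τ γ| ≤ D) → Slc F Pp τ D →
    ∀ w : Finset F.Q.P → ℝ, (∀ R, 0 ≤ w R ∧ w R ≤ 1) → ∀ (E : ℕ) (x : ℝ), 2 ≤ x →
      |∑' R : (gdN F.Q).I, w R.1 * tri F Pp τ (2 ^ E) x R.1| ≤
        C * D * x * Real.log x ^ 3 * ((2 : ℝ) ^ E) ^ (-η)

/-- N5: sums over good sets with the number of divisors -/
def SN5 : Prop := ∀ (S SF : Sys) (F : Qc S SF), ∃ C : ℝ, 0 ≤ C ∧ ∀ x : ℝ, 2 ≤ x →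
  (Summable fun R : (gdN F.Q).I => (2 : ℝ) ^ R.1.card * (x / F.Q.nq R.1 *
    (1 + Real.log (1 + x / F.Q.nq R.1)) * Real.exp (-((F.Q.nq R.1 : ℝ) / (8 * x))))) ∧
  ∑' R : (gdN F.Q).I, (2 : ℝ) ^ R.1.card * (x / F.Q.nq R.1 *
    (1 + Real.log (1 + x / F.Q.nq R.1)) * Real.exp (-((F.Q.nq R.1 : ℝ) / (8 * x)))) ≤
      C * x * Real.log x ^ 3

open Classical in
/-- N6: the good sets with few large primes, logarithmic sums -/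
def SN6 : Prop := ∀ (S SF : Sys) (F : Qc S SF) (Pp : Set F.Q.P), ∃ C : ℝ, 0 ≤ C ∧
  ∀ z x : ℝ, 2 ≤ z → z ≤ x →
    ∑ g ∈ F.Q.gb x, (if nz F Pp z g ≤ 2 ∧ nz F Ppᶜ z g ≤ 2 then (2 : ℝ) ^ g.card else 0) /
      F.Q.nq g ≤ C * (1 + Real.log z) ^ 2 * (1 + Real.log (1 + Real.log x)) ^ 4

open Classical in
/-- N7: the good sets with few large primes -/
def SN7 : Prop := ∀ (S SF : Sys) (F : Qc S SF) (Pp : Set F.Q.P), ∃ C : ℝ, 0 ≤ C ∧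
  ∀ z x : ℝ, 2 ≤ z → z ≤ x →
    ∑ g ∈ F.Q.gb x, (if nz F Pp z g ≤ 2 ∧ nz F Ppᶜ z g ≤ 2 then (2 : ℝ) ^ g.card else 0) ≤
      C * x / Real.log x * (1 + Real.log z) ^ 2 * (1 + Real.log (1 + Real.log x)) ^ 4

/-- N8: the same with exponential weight, `z` a power of the logarithm -/
def SN8 : Prop := ∀ (S SF : Sys) (F : Qc S SF) (Pp : Set F.Q.P) (τ : F.Q.G → ℝ) (D : ℝ),
  (∀ γ, |τ γ| ≤ D) → ∀ E : ℝ → ℕ, (∃ B : ℝ, ∀ x : ℝ, 2 ≤ x →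
    ((2 : ℝ) ^ E x) ≤ 2 * (1 + Real.log x) ^ B) →
    Tendsto (fun x => few F Pp τ (2 ^ E x) x / x) atTop (𝓝 0)

/-- N9: the analytic theorem for `T_d` -/
def SN9 : Prop := ∀ (S SF : Sys) (F : Qc S SF), Cjs F → ∀ (Pp : Set F.Q.P) (τ : F.Q.G → ℝ)
  (D : ℝ), 0 ≤ D → (∀ γ, |τ γ| ≤ D) → Slc F Pp τ D → Slc F Ppᶜ τ D →
    Tendsto (fun x : ℝ => (∑' g : (gdN F.Q).I,
      tN F τ g.1 * Real.exp (-((F.Q.nq g.1 : ℝ) / x))) / x) atTop (𝓝 0)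

end Pool.Agent.SK
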