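import Pool.Agent.SK.FDefs
import Pool.Agent.H32.MQ.QfInst

/-!
# Malle's conjecture for 8T8 over number fields: the structure `Qc` of a quadratic extension
-/

set_option autoImplicit false

open scoped BigOperators
open NumberField IsDedekindDomain

namespace Pool.Agent.SK

open Pool.Agent.H98.MF
open Pool.Agent.H32.MQ

section

variable {k : Type} [Field k] [NumberField k] {Fr : Frm k} {L : Type} [Field L]
  [NumberField L] [Algebra k L] (X : HX Fr L) (FL : Frm L) (hF : Ovr Fr.S FL.S) (hM : X.M = ∅)

open Classical in
/-- the structure `Qc` of a quadratic extension without exceptional primes -/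
noncomputable def Qcof : Qc Fr.sys FL.sys where
  toQf := Qfof X FL hF hM
  sy_all := by
    intro a g b _ hb
    have h1 := qr_el X FL hF a g (io X FL hF b) (by
      intro h
      obtain ⟨c, hc, hcb⟩ := Finset.mem_image.1 h
      exact hb (by rwa [← io_inj X FL hF hcb]))
    rw [pl_io] at h1
    exact h1

end

end Pool.Agent.SK
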