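import Pool.Agent.SK.TCDefs

/-!
# Malle's conjecture for 8T8 over number fields, common trace: finite fields (TC1)
-/

set_option autoImplicit false

namespace Pool.Agent.SK.TC

open Polynomial in
theorem tc1_root {F : Type} [Field F] [Finite F] (h2 : (2 : F) ≠ 0) (a b c : F) (ha : a ≠ 0)
    (hb : b ≠ 0) : ∃ u v : F, a * u ^ 2 + b * v ^ 2 = c := by
  classical
  haveI := Fintype.ofFinite F
  have hodd : Fintype.card F % 2 = 1 := by
    have h3 : ringChar F ≠ 2 := by
      intro h
      apply h2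
      have h4 := ringChar.Nat.cast_ringChar (R := F)
      rw [h] at h4
      exact_mod_cast h4
    exact FiniteField.odd_card_of_char_ne_two h3
  have h5 : (C a * X ^ 2 : F[X]).degree = 2 := degree_C_mul_X_pow 2 ha
  have h6 : (C b * X ^ 2 - C c : F[X]).degree = 2 := by
    rw [degree_sub_C]
    · exact degree_C_mul_X_pow 2 hb
    · rw [degree_C_mul_X_pow 2 hb]
      norm_num
  obtain ⟨u, v, huv⟩ := FiniteField.exists_root_sum_quadratic h5 h6 hodd
  refine ⟨u, v, ?_⟩
  simp only [eval_mul, eval_C, eval_pow, eval_X, eval_sub] at huv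
  linear_combination huv

open Polynomial in
theorem tc1_lam {F : Type} [Field F] [Finite F] (h7 : 7 ≤ Nat.card F) (b : F) :
    ∃ l : F, l ≠ 0 ∧ l ^ 2 ≠ b ∧ l ^ 2 ≠ -b := by
  have h1 : (X ^ 5 - C (b ^ 2) * X : F[X]).natDegree = 5 := by compute_degree!
  have h2 : (X ^ 5 - C (b ^ 2) * X : F[X]) ≠ 0 := by
    intro h
    rw [h, natDegree_zero] at h1
    exact absurd h1 (by norm_num)
  obtain ⟨l, hl⟩ := exists_eval_ne_zero_of_natDegree_lt_card _ h2 (by
    rw [h1, ← Nat.cast_card]
    exact_mod_cast (by omega : 5 < Nat.card F))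
  simp only [eval_sub, eval_pow, eval_X, eval_mul, eval_C] at hl
  refine ⟨l, ?_, ?_, ?_⟩
  · rintro rfl
    apply hl
    ring
  · intro h
    apply hl
    linear_combination (l * (l ^ 2 + b)) * h
  · intro h
    apply hl
    linear_combination (l * (l ^ 2 - b)) * h

/-- a conic with a square ratio -/
theorem tc1_sq {F : Type} [Field F] [Finite F] (h2 : (2 : F) ≠ 0) (h7 : 7 ≤ Nat.card F)
    (α r c : F) (hα : α ≠ 0) (hr : r ≠ 0) (hc : c ≠ 0) :
    ∃ s t Z : F, s ≠ 0 ∧ t ≠ 0 ∧ Z ≠ 0 ∧ c * α ^ 2 * s ^ 2 + r * t ^ 2 = c * Z ^ 2 := by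
  obtain ⟨l, hl0, hl1, hl2⟩ := tc1_lam h7 (r / c)
  have hb : r / c ≠ 0 := div_ne_zero hr hc
  refine ⟨(r / c / l - l) / (2 * α), 1, (r / c / l + l) / 2, ?_, one_ne_zero, ?_, ?_⟩
  · refine div_ne_zero ?_ (mul_ne_zero h2 hα)
    intro h
    apply hl1
    have h3 : r / c / l = l := sub_eq_zero.1 h
    rw [div_eq_iff hl0] at h3
    rw [h3]; ring
  · refine div_ne_zero ?_ h2
    intro h
    apply hl2
    have h3 : r / c / l = -l := eq_neg_of_add_eq_zero_left h
    rw [div_eq_iff hl0] at h3
    rw [h3]; ring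
  · field_simp
    ring

/-- a conic has a point with nonzero coordinates -/
theorem tc1_conic {F : Type} [Field F] [Finite F] (h2 : (2 : F) ≠ 0) (h7 : 7 ≤ Nat.card F)
    (p r c : F) (hp : p ≠ 0) (hr : r ≠ 0) (hc : c ≠ 0) :
    ∃ s t Z : F, s ≠ 0 ∧ t ≠ 0 ∧ Z ≠ 0 ∧ p * s ^ 2 + r * t ^ 2 = c * Z ^ 2 := by
  classical
  by_cases h3 : IsSquare (p / c)
  · obtain ⟨α, hα⟩ := h3
    have h4 : p = c * α ^ 2 := by
      rw [div_eq_iff hc] at hα
      rw [hα]; ring
    have hα0 : α ≠ 0 := by
      rintro rfl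
      apply hp
      rw [h4]; ring
    rw [h4]
    exact tc1_sq h2 h7 α r c hα0 hr hc
  by_cases h4 : IsSquare (r / c)
  · obtain ⟨α, hα⟩ := h4
    have h5 : r = c * α ^ 2 := by
      rw [div_eq_iff hc] at hα
      rw [hα]; ring
    have hα0 : α ≠ 0 := by
      rintro rfl
      apply hr
      rw [h5]; ring
    obtain ⟨s, t, Z, hs, ht, hZ, h⟩ := tc1_sq h2 h7 α p c hα0 hp hc
    refine ⟨t, s, Z, ht, hs, hZ, ?_⟩
    rw [h5, ← h]; ring
  haveI := Fintype.ofFinite F
  have hsq : IsSquare (p / c * (r / c)) := by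
    have hp' : p / c ≠ 0 := div_ne_zero hp hc
    have hr' : r / c ≠ 0 := div_ne_zero hr hc
    have h3' : quadraticChar F (p / c) = -1 := (quadraticChar_neg_one_iff_not_isSquare).2 h3
    have h4' : quadraticChar F (r / c) = -1 := (quadraticChar_neg_one_iff_not_isSquare).2 h4
    rw [← quadraticChar_one_iff_isSquare (mul_ne_zero hp' hr'), map_mul, h3', h4']
    norm_num
  obtain ⟨β, hβ⟩ := hsq
  -- `r / p = κ ^ 2`
  have hκ : r = p * (β * c / p) ^ 2 := by
    field_simp at hβ ⊢
    linear_combination hβ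
  have hβ0 : β * c / p ≠ 0 := by
    intro h
    rw [h] at hκ
    apply hr
    rw [hκ]; ring
  obtain ⟨s, t, hst⟩ := tc1_root h2 p p c hp hp
  have hs : s ≠ 0 := by
    rintro rfl
    apply h3
    have ht : t ≠ 0 := by
      rintro rfl
      apply hc
      rw [← hst]; ring
    refine ⟨1 / t, ?_⟩
    rw [← hst]
    field_simp
    ring
  have ht : t ≠ 0 := by
    rintro rfl
    apply h3
    refine ⟨1 / s, ?_⟩
    rw [← hst]
    field_simp
    ring
  refine ⟨s, t / (β * c / p), 1, hs, div_ne_zero ht hβ0, one_ne_zero, ?_⟩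
  have h5 : r * (t / (β * c / p)) ^ 2 = p * t ^ 2 := by
    rw [div_pow, mul_div_assoc', div_eq_iff (pow_ne_zero 2 hβ0)]
    linear_combination (t ^ 2) * hκ
  rw [h5, hst]; ring

theorem ff : StFF := by
  intro F _ _ h2 h7 d x y c hd hN hc
  by_cases hsq : IsSquare d
  · obtain ⟨e, he⟩ := hsq
    have he0 : e ≠ 0 := by
      rintro rfl
      apply hd
      rw [he]; ring
    have hp : x + y * e ≠ 0 := by
      intro h
      apply hN
      rw [he]
      linear_combination (x - y * e) * h
    have hr : x - y * e ≠ 0 := by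
      intro h
      apply hN
      rw [he]
      linear_combination (x + y * e) * h
    obtain ⟨s, t, Z, hs, ht, hZ, h⟩ := tc1_conic h2 h7 _ _ c hp hr hc
    refine ⟨(s + t) / 2, (s - t) / (2 * e), Z, ?_, hZ, ?_⟩
    · have h3 : ((s + t) / 2) ^ 2 - d * ((s - t) / (2 * e)) ^ 2 = s * t := by
        rw [he]
        field_simp
        ring
      rw [h3]
      exact mul_ne_zero hs ht
    · rw [← h, he]
      field_simp
      ring
  · have hns : ∀ A B : F, A ^ 2 - d * B ^ 2 = 0 → A = 0 ∧ B = 0 := by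
      intro A B h
      have hB : B = 0 := by
        by_contra hB
        apply hsq
        refine ⟨A / B, ?_⟩
        field_simp
        linear_combination -h
      refine ⟨?_, hB⟩
      rw [hB] at h
      have h3 : A ^ 2 = 0 := by linear_combination h
      exact pow_eq_zero_iff (two_ne_zero) |>.1 h3
    have key : ∀ A B : F, 2 * (x * A ^ 2 + 2 * d * y * A * B + d * x * B ^ 2) = c →
        ∃ A B Z : F, A ^ 2 - d * B ^ 2 ≠ 0 ∧ Z ≠ 0 ∧
          2 * (x * A ^ 2 + 2 * d * y * A * B + d * x * B ^ 2) = c * Z ^ 2 := by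
      intro A B h
      refine ⟨A, B, 1, fun h3 => hc ?_, one_ne_zero, by rw [h]; ring⟩
      obtain ⟨rfl, rfl⟩ := hns A B h3
      rw [← h]; ring
    by_cases hx : x = 0
    · have hy : y ≠ 0 := by
        rintro rfl
        apply hN
        rw [hx]; ring
      refine key 1 (c / (4 * d * y)) ?_
      have h4 : (4 : F) ≠ 0 := by
        have : (4 : F) = 2 * 2 := by norm_num
        rw [this]
        exact mul_ne_zero h2 h2
      rw [hx]
      field_simp
      ring
    · obtain ⟨u, v, huv⟩ := tc1_root h2 (2 * x) (2 * (d * (x ^ 2 - d * y ^ 2)) / x) c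
        (mul_ne_zero h2 hx) (div_ne_zero (mul_ne_zero h2 (mul_ne_zero hd hN)) hx)
      refine key (u - d * y / x * v) v ?_
      rw [← huv]
      field_simp
      ring

theorem fq : StFQ := by
  intro F _ h2 d x y e hd hN he
  by_cases hx : x = 0
  · refine ⟨1, 0, ?_, ?_⟩
    · intro h
      have : (1 : F) = 0 := by linear_combination h
      exact one_ne_zero this
    · rw [hx]; ring
  · have he0 : e ≠ 0 := by
      rintro rfl
      apply mul_ne_zero hd hN
      linear_combination -he
    have he1 : e - d * y ≠ 0 := by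
      intro h
      have h3 : d * x ^ 2 = 0 := by
        linear_combination -he - (e + d * y) * h
      exact mul_ne_zero hd (pow_ne_zero 2 hx) h3
    refine ⟨e - d * y, x, ?_, ?_⟩
    · have h3 : (e - d * y) ^ 2 - d * x ^ 2 = 2 * e * (e - d * y) := by
        linear_combination he
      rw [h3]
      exact mul_ne_zero (mul_ne_zero h2 he0) he1
    · linear_combination -x * he

end Pool.Agent.SK.TC
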