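import Pool.Agent.SK.TCDefs

/-!
# Malle's conjecture for 8T8 over number fields, the common trace: choice of the trace
-/

set_option autoImplicit false

open scoped BigOperators
open NumberField IsDedekindDomain

namespace Pool.Agent.SK.TC

open Pool.Agent.H98.MF
open Pool.Agent.H32.MQ (rep co odp mem_odp h_co h_repO)

theorem prc {k : Type} [Field k] [NumberField k] (hL : LIn k) (hg : G2St k) : StPr k := by
  classical
  intro Fr c₀ W
  have hS : Fr.S ⊆ Fr.S ∪ W.image Fr.pl := Finset.subset_union_left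
  obtain ⟨g, hg1⟩ := hL.weak (pls (Fr.S ∪ W.image Fr.pl))
    (fun v => if v ∈ pls Fr.S then c₀ else 1)
  obtain ⟨Q, q0, hQ, h1, h0, hq⟩ := hg _ (Pool.Agent.H98.MF.B.adm_mono Fr.adm hS) g
  obtain ⟨q, rfl⟩ := (Fr.pl_iff Q).2 fun h => hQ (hS h)
  have hqW : q ∉ W := fun h => hQ (Finset.mem_union_right _ (Finset.mem_image_of_mem _ h))
  have hpW : ∀ p ∈ W, (Sum.inl (Fr.pl p) : Pl k) ∈ pls (Fr.S ∪ W.image Fr.pl) := fun p hp =>
    Pool.Agent.H98.MF.B.inl_mem_pls.2 (Finset.mem_union_right _ (Finset.mem_image_of_mem _ hp))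
  have hpS : ∀ p : Fr.sys.P, (Sum.inl (Fr.pl p) : Pl k) ∉ pls Fr.S := fun p h =>
    (Fr.pl_iff _).1 ⟨p, rfl⟩ (Pool.Agent.H98.MF.B.inl_mem_pls.1 h)
  have hq0 : ∀ p ∈ W, q0 ∈ LS (Sum.inl (Fr.pl p) : Pl k) := by
    intro p hp
    have e1 := hq _ (hpW p hp)
    have e2 := hg1 _ (hpW p hp)
    rw [if_neg (hpS p), div_one] at e2
    have e3 := mul_mem e1 e2
    rwa [div_mul_cancel] at e3
  have hodp : odp Fr q0 = {q} := by
    ext p
    rw [mem_odp, Finset.mem_singleton]
    constructor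
    · intro h
      by_contra hne
      by_cases hp : p ∈ W
      · have h2 : LocSq (Fr.pl p) (q0 : k) := (hL.memLS _ _).1 (hq0 p hp)
        exact (Int.not_even_iff_odd.2 h) h2.even
      · have h2 : ord (Fr.pl p) (q0 : k) = 0 := by
          refine h0 _ (fun h3 => ?_) fun h3 => hne (Fr.pl_inj h3)
          rcases Finset.mem_union.1 h3 with h4 | h4
          · exact (Fr.pl_iff _).1 ⟨p, rfl⟩ h4
          · obtain ⟨r, hr, hr2⟩ := Finset.mem_image.1 h4
            rw [← Fr.pl_inj hr2] at hp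
            exact hp hr
        rw [h2] at h
        exact absurd h (by decide)
    · rintro rfl
      rw [h1]
      exact odd_one
  obtain ⟨w, hw⟩ := h_co Fr q0
  set c : kˣ := rep Fr (co Fr q0) with hc
  have hc2 : (co Fr q0).2 = {q} := hodp
  have hsq : ∀ v : Pl k, q0 * c ∈ LS v := fun v => by
    rw [hw, ← pow_two]
    exact Pool.Agent.H98.MF.B.sq_mem_LS v w
  refine ⟨q, c, hqW, ?_, ?_, ?_, ?_⟩
  · rw [hc, h_repO Fr, hc2, if_pos (Finset.mem_singleton_self q)]
  · intro p hp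
    rw [hc, h_repO Fr, hc2, if_neg (fun h => hp (Finset.mem_singleton.1 h))]
  · intro v hv
    have hv2 := Pool.Agent.H98.MF.B.pls_mono hS hv
    have e1 := hq v hv2
    have e2 := hg1 v hv2
    rw [if_pos hv] at e2
    have e3 := mul_mem (mul_mem (hsq v) (inv_mem e1)) (inv_mem e2)
    have e4 : q0 * c * (q0 / g)⁻¹ * (g / c₀)⁻¹ = c * c₀ := by
      have a1 : g / q0 * q0 = g := div_mul_cancel g q0
      have a2 : c₀ / g * g = c₀ := div_mul_cancel c₀ g
      rw [inv_div, inv_div]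
      calc q0 * c * (g / q0) * (c₀ / g) = c * (g / q0 * q0) * (c₀ / g) := by
            rw [mul_comm q0 c, mul_assoc c q0, mul_comm q0]
        _ = c * (c₀ / g * g) := by rw [a1, mul_assoc, mul_comm g]
        _ = c * c₀ := by rw [a2]
    rw [e4] at e3
    have e5 := (hL.memLS v (c * c₀)).1 e3
    rwa [Units.val_mul] at e5
  · intro p hp
    have e3 := mul_mem (hsq (Sum.inl (Fr.pl p))) (inv_mem (hq0 p hp))
    have e4 : q0 * c * q0⁻¹ = c := by
      rw [mul_comm q0 c, mul_inv_cancel_right]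
    rw [e4] at e3
    exact (hL.memLS _ _).1 e3

end Pool.Agent.SK.TC
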