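import Pool.Agent.SK.TC3
import Pool.Agent.H98.MF.L.Odd

/-!
# Malle's conjecture for 8T8 over number fields, part TD, row TC11: traces that do not vanish;
the local solution at a prime of `γ`
-/

set_option autoImplicit false

open scoped BigOperators
open NumberField IsDedekindDomain

namespace Pool.Agent.SK.TC

open Pool.Agent.H98.MF

section

variable {k L : Type} [Field k] [NumberField k] [Field L] [NumberField L] [Algebra k L]

/-- exponents of `γ` and its conjugate -/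
private theorem nz_gdp {Fr : Frm k} {σ : L ≃ₐ[k] L} {γ : Lˣ} (hg : Gdp Fr σ γ) {p : Fr.sys.P}
    {Q : HeightOneSpectrum (𝓞 L)} (hQ : Over (Fr.pl p) Q) (h : ord Q (γ : L) ≠ 0) :
    ord Q (γ : L) = 1 ∧ ord Q (σ (γ : L)) = 0 := by
  rcases hg.val p Q hQ with h1 | ⟨h1, _, h3⟩
  · exact absurd h1 h
  · exact ⟨h1, by rw [← ord_cj]; exact h3⟩

theorem nz : StNz k L := by
  intro Fr d δ h σ hσ γ hg z
  obtain ⟨p, Q, hQ, h1⟩ := hg.ex
  obtain ⟨h2, h3⟩ := nz_gdp hg hQ (by rw [h1]; exact one_ne_zero)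
  have hγ0 : (γ : L) ≠ 0 := γ.ne_zero
  have hz0 : (z : L) ≠ 0 := z.ne_zero
  set b : L := (γ : L) * z ^ 2 with hb
  have hb0 : b ≠ 0 := mul_ne_zero hγ0 (pow_ne_zero 2 hz0)
  have hsb0 : σ b ≠ 0 := (map_ne_zero σ).2 hb0
  have e1 : ord Q b = 1 + 2 * ord Q (z : L) := by
    rw [hb, ord_mul Q hγ0 (pow_ne_zero 2 hz0), h1, ord_pow]
    push_cast
    ring
  have e2 : ord Q (σ b) = 2 * ord Q (σ (z : L)) := by
    rw [hb, map_mul, map_pow, ord_mul Q ((map_ne_zero σ).2 hγ0)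
      (pow_ne_zero 2 ((map_ne_zero σ).2 hz0)), h3, ord_pow]
    push_cast
    ring
  have hne : ord Q b ≠ ord Q (σ b) := by omega
  refine ⟨fun h0 => ?_, fun h0 => ?_, fun h0 => ?_⟩
  · have h4 := tr_sig h σ hσ b
    rw [h0, map_zero] at h4
    have h5 : σ b = -b := by linear_combination -h4
    rw [h5, ord_neg] at hne
    exact hne rfl
  · have h4 := tr_sig h σ hσ (b ^ 2)
    rw [h0, map_zero, map_pow] at h4
    have h5 : σ b ^ 2 = -(b ^ 2) := by linear_combination -h4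
    have h6 : ord Q (σ b ^ 2) = ord Q (b ^ 2) := by rw [h5, ord_neg]
    rw [ord_pow, ord_pow] at h6
    push_cast at h6
    exact hne (by omega)
  · have h4 := tr_sig h σ hσ (b * δ)
    rw [h0, map_zero, map_mul, hσ] at h4
    have h5 : δ * (b - σ b) = 0 := by linear_combination -h4
    rcases mul_eq_zero.1 h5 with h6 | h6
    · exact B.qe_ne_zero h h6
    · rw [← sub_eq_zero.1 h6] at hne
      exact hne rfl

theorem sh (_hL : LIn k) : StSh k L := by
  intro Fr d δ h hd σ hσ γ hg hl p hs c hc hcl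
  obtain ⟨Q, hQ, hQ0⟩ := hs
  obtain ⟨h1, h2⟩ := nz_gdp hg hQ hQ0
  have hγ0 : (γ : L) ≠ 0 := γ.ne_zero
  have hsγ0 : σ (γ : L) ≠ 0 := (map_ne_zero σ).2 hγ0
  have hp2 : ord (Fr.pl p) (2 : k) = 0 := Pool.Agent.H32.MQ.hb_two Fr p
  have hord : ∀ x : k, ord Q (algebraMap k L x) = ord (Fr.pl p) x := by
    intro x
    exact B.qe_ord_of_even h hQ hp2 (by rw [hd p]; exact Even.zero) x
  have htr := tr_sig h σ hσ (γ : L)
  obtain ⟨e1, e2⟩ := ord_add_eq Q hsγ0 (b := (γ : L)) (Or.inr (by omega))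
  rw [add_comm, ← htr] at e1 e2
  have htr0 : Algebra.trace k L (γ : L) ≠ 0 := by
    intro h0
    rw [h0, map_zero] at e1
    exact e1 rfl
  have htro : ord (Fr.pl p) (Algebra.trace k L (γ : L)) = 0 := by
    rw [← hord, e2, h2]
  have hn0 : Algebra.norm k (γ : L) ≠ 0 := Algebra.norm_ne_zero_iff.2 hγ0
  have hno : ord (Fr.pl p) (Algebra.norm k (γ : L)) = 1 := by
    obtain ⟨τ, t1, t2, t3, t4⟩ := B.qe_conj h
    have hστ : σ = τ := by
      rcases t3 σ with h5 | h5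
      · exfalso
        rw [h5] at hσ
        have h6 : δ = -δ := by simpa using hσ
        exact B.qe_ne_zero h (self_eq_neg.1 h6)
      · exact h5
    have h3 := t4 (γ : L)
    rw [← hστ] at h3
    rw [← hord, h3, ord_mul Q hγ0 hsγ0, h1, h2, add_zero]
  have hdn0 : (d : k) * Algebra.norm k (γ : L) ≠ 0 := mul_ne_zero d.ne_zero hn0
  have hdn : ord (Fr.pl p) (-((d : k) * Algebra.norm k (γ : L))) = 1 := by
    rw [ord_neg, ord_mul _ d.ne_zero hn0, hd p, hno, zero_add]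
  have h3 : hs (Fr.pl p) (Algebra.trace k L (γ : L)) (-((d : k) * Algebra.norm k (γ : L))) =
      hs (Fr.pl p) (2 : k) (d : k) := hl (Sum.inl (Fr.pl p))
  rw [hs_even hp2 htr0 (neg_ne_zero.2 hdn0) (by rw [htro]; exact Even.zero),
    hs_even hp2 two_ne_zero d.ne_zero (by rw [hp2]; exact Even.zero), hdn, hd p] at h3
  have h4 : LocSq (Fr.pl p) (Algebra.trace k L (γ : L)) := by
    rw [← qr_eq_zero]
    simpa using h3
  have h5 : Tq k (γ : L) (1 : L) = Algebra.trace k L (γ : L) := by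
    unfold Tq
    rw [one_pow, mul_one]
  refine ⟨?_, ⟨one_ne_zero, fun R _ => ord_one R⟩, ?_⟩
  · show LocSq (Fr.pl p) ((c : k) * Tq k (γ : L) (1 : L))
    rw [h5]
    exact hcl.mul h4
  · rw [h5, htro, hc]

end

end Pool.Agent.SK.TC
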