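import Pool.Agent.SK.TCDefs
import Pool.Agent.H98.MF.C.C3a
import Pool.Agent.H98.MF.C.C3b
import Pool.Agent.H98.MF.L.Odd

/-!
# Malle's conjecture for 8T8 over number fields, part TD: the symbols of the common trace (TC12)
-/

set_option autoImplicit false

open scoped BigOperators
open NumberField IsDedekindDomain

namespace Pool.Agent.SK.TC

open Pool.Agent.H98.MF

section

variable {k L : Type} [Field k] [NumberField k] [Field L] [NumberField L] [Algebra k L]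

/-- the norm as a product of conjugates -/
theorem sy_nm {d : kˣ} {δ : L} (h : QE d δ) (σ : L ≃ₐ[k] L) (hσ : σ δ = -δ) (z : L) :
    algebraMap k L (Algebra.norm k z) = z * σ z := by
  obtain ⟨τ, h1, h2, h3, h4⟩ := B.qe_conj h
  have hστ : σ = τ := by
    rcases h3 σ with h5 | h5
    · exfalso
      rw [h5] at hσ
      have h6 : δ = -δ := by simpa using hσ
      exact B.qe_ne_zero h (self_eq_neg.1 h6)
    · exact h5
  rw [hστ]
  exact h4 z

/-- the ramification index -/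
theorem sy_e {d : kˣ} {δ : L} (h : QE d δ) {P : HeightOneSpectrum (𝓞 k)}
    {Q : HeightOneSpectrum (𝓞 L)} (hQ : Over P Q) :
    1 ≤ P.asIdeal.ramificationIdx' Q.asIdeal ∧ P.asIdeal.ramificationIdx' Q.asIdeal ≤ 2 := by
  have hm := P.isMaximal
  have h1 := Ideal.sum_ramification_inertia (𝓞 L) k L P.ne_bot
  rw [h.deg] at h1
  have hlo := hQ.liesOver
  have hp := hQ.ram_pos
  have hf : 1 ≤ P.asIdeal.inertiaDeg' Q.asIdeal := Ideal.inertiaDeg'_pos P.asIdeal Q.asIdeal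
  refine ⟨hp, ?_⟩
  have hsub : ({Q.asIdeal} : Finset (Ideal (𝓞 L))) ⊆
      IsDedekindDomain.primesOverFinset P.asIdeal (𝓞 L) := by
    intro I hI
    rw [IsDedekindDomain.mem_primesOverFinset_iff P.ne_bot]
    rw [Finset.mem_singleton] at hI
    subst hI
    exact ⟨Q.isPrime, hQ.liesOver⟩
  have h2 := Finset.sum_le_sum_of_subset (f := fun I : Ideal (𝓞 L) =>
    P.asIdeal.ramificationIdx' I * P.asIdeal.inertiaDeg' I) hsub
  rw [Finset.sum_singleton, h1] at h2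
  nlinarith

/-- the norm of an element close to one -/
theorem sy_nrm {d : kˣ} {δ : L} (h : QE d δ) (σ : L ≃ₐ[k] L) (hσ : σ δ = -δ)
    (P : HeightOneSpectrum (𝓞 k)) (n : ℕ) (u : L)
    (hu : ∀ Q : HeightOneSpectrum (𝓞 L), Over P Q → Cl Q ((2 * n : ℕ) : ℤ) u 1) :
    Cl P (n : ℤ) (Algebra.norm k u) 1 := by
  obtain ⟨Q, hQ⟩ := exists_over (L := L) P
  have h1 : u - 1 = 0 ∨ ((2 * n : ℕ) : ℤ) ≤ ord Q (u - 1) :=
    (hu Q hQ).imp sub_eq_zero.2 id
  have h2 : σ (u - 1) = 0 ∨ ((2 * n : ℕ) : ℤ) ≤ ord Q (σ (u - 1)) := by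
    rcases hu _ (hQ.cj σ) with h3 | h3
    · left
      rw [h3, sub_self, map_zero]
    · right
      rw [← ord_cj]
      exact h3
  have h3 : (u - 1) * σ (u - 1) = 0 ∨ ((2 * n : ℕ) : ℤ) ≤ ord Q ((u - 1) * σ (u - 1)) := by
    by_cases h4 : u - 1 = 0
    · left
      rw [h4, zero_mul]
    · by_cases h5 : σ (u - 1) = 0
      · left
        rw [h5, mul_zero]
      · right
        rw [B.ord_mul Q h4 h5]
        have h6 := h1.resolve_left h4
        have h7 := h2.resolve_left h5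
        push_cast at h6 h7 ⊢
        omega
  have h4 := le_ord_add Q _ (le_ord_add Q _ h1 h2) h3
  have h5 : (u - 1) + σ (u - 1) + (u - 1) * σ (u - 1) =
      algebraMap k L (Algebra.norm k u - 1) := by
    rw [map_sub (algebraMap k L), sy_nm h σ hσ u, map_one, map_sub σ, map_one σ]
    ring
  rw [h5, hQ.ord_map] at h4
  rcases h4 with h4 | h4
  · left
    exact sub_eq_zero.1 ((map_eq_zero (algebraMap k L)).1 h4)
  · right
    obtain ⟨e1, e2⟩ := sy_e h hQ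
    obtain he | he : P.asIdeal.ramificationIdx' Q.asIdeal = 1 ∨
      P.asIdeal.ramificationIdx' Q.asIdeal = 2 := by omega
    · rw [he] at h4
      push_cast at h4
      omega
    · rw [he] at h4
      push_cast at h4
      omega

theorem sy_norm_ne (z : Lˣ) : Algebra.norm k (z : L) ≠ 0 :=
  Algebra.norm_ne_zero_iff.2 z.ne_zero

/-- the product of the norms is a local square -/
theorem sy_loc (hr : StRh k L) {d : kˣ} {δ : L} (h : QE d δ) (σ : L ≃ₐ[k] L) (hσ : σ δ = -δ)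
    (P : HeightOneSpectrum (𝓞 k)) (γ₁ γ₂ : Lˣ)
    (hS : ∀ Q : HeightOneSpectrum (𝓞 L), Over P Q → LocSq Q ((γ₁ : L) * γ₂)) :
    LocSq P (Algebra.norm k (γ₁ : L) * Algebra.norm k (γ₂ : L)) := by
  intro n
  obtain ⟨r, hr1⟩ := hr d δ h {P} γ₁ γ₂ (by
    intro p hp
    rw [Finset.mem_singleton] at hp
    rw [hp]
    exact hS) (2 * n)
  have h1 := sy_nrm h σ hσ P n ((γ₁ : L) * r ^ 2 / γ₂)
    (fun Q hQ => hr1 P (Finset.mem_singleton_self P) Q hQ)
  have hN2 := sy_norm_ne (k := k) γ₂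
  refine ⟨Algebra.norm k (r : L) / Algebra.norm k (γ₂ : L), ?_⟩
  have h3 : Algebra.norm k ((γ₁ : L) * r ^ 2 / γ₂) * Algebra.norm k (γ₂ : L) =
      Algebra.norm k (γ₁ : L) * Algebra.norm k (r : L) ^ 2 := by
    rw [← map_mul, div_mul_cancel₀ _ γ₂.ne_zero, map_mul, map_pow]
  have h2 : Algebra.norm k (γ₁ : L) * Algebra.norm k (γ₂ : L) *
      (Algebra.norm k (r : L) / Algebra.norm k (γ₂ : L)) ^ 2 =
      Algebra.norm k ((γ₁ : L) * r ^ 2 / γ₂) := by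
    refine mul_right_cancel₀ hN2 ?_
    rw [h3]
    field_simp
  rw [h2]
  exact h1

/-- the norm of an element positive at all real places -/
theorem sy_real {d : kˣ} {δ : L} (h : QE d δ) (σ : L ≃ₐ[k] L) (hσ : σ δ = -δ) (m : Lˣ)
    (hm : ∀ ψ : L →+* ℝ, 0 < ψ (m : L)) (φ : k →+* ℝ) : 0 < φ (Algebra.norm k (m : L)) := by
  have hN := (map_ne_zero φ).2 (sy_norm_ne (k := k) m)
  rcases lt_or_gt_of_ne ((map_ne_zero φ).2 d.ne_zero) with hd | hd
  · obtain ⟨x, y, hxy⟩ := B.qe_repr h (m : L)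
    rw [hxy, B.qe_norm_form h] at hN ⊢
    rw [map_sub, map_mul, map_pow, map_pow] at hN ⊢
    have h1 : 0 ≤ φ x ^ 2 - φ (d : k) * φ y ^ 2 := by
      nlinarith [sq_nonneg (φ x), mul_nonneg (neg_nonneg.2 hd.le) (sq_nonneg (φ y))]
    exact lt_of_le_of_ne h1 (Ne.symm hN)
  · have h1 := B.c3a_fib h φ
    rw [B.c3a_two hd] at h1
    have h2 : Nonempty {ψ : L →+* ℝ // ψ.comp (algebraMap k L) = φ} := by
      by_contra h2
      rw [not_nonempty_iff] at h2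
      rw [Nat.card_of_isEmpty] at h1
      exact absurd h1 (by norm_num)
    obtain ⟨ψ, hψ⟩ := h2
    have h3 : φ (Algebra.norm k (m : L)) = ψ (m : L) * ψ (σ (m : L)) := by
      rw [← hψ]
      show ψ (algebraMap k L (Algebra.norm k (m : L))) = _
      rw [sy_nm h σ hσ, map_mul]
    rw [h3]
    exact mul_pos (hm ψ) (hm (ψ.comp (RingHomClass.toRingHom σ)))

/-- elements of the same local class -/
theorem sy_hv (hL : LIn k) (v : Pl k) (a a' b : kˣ) (h : LocP v ((a * a' : kˣ) : k)) :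
    hv v (a : k) (b : k) = hv v (a' : k) (b : k) := by
  have h1 := (hL.nd v (a * a')).2 h b
  rw [hL.symm, hL.mulR, hL.symm v b a, hL.symm v b a'] at h1
  exact CharTwo.add_eq_zero.1 h1

/-- the product of the two elements -/
theorem sy_AA (hr : StRh k L) {d : kˣ} {δ : L} (h : QE d δ) (σ : L ≃ₐ[k] L) (hσ : σ δ = -δ)
    {Fr : Frm k} (γ₁ γ₂ : Lˣ) (hS : Sam Fr γ₁ γ₂) (v : Pl k) (hv1 : v ∈ pls Fr.S) :
    LocP v (-((d : k) * Algebra.norm k (γ₁ : L)) * -((d : k) * Algebra.norm k (γ₂ : L))) := by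
  have e : -((d : k) * Algebra.norm k (γ₁ : L)) * -((d : k) * Algebra.norm k (γ₂ : L)) =
      Algebra.norm k (γ₁ : L) * Algebra.norm k (γ₂ : L) * (d : k) ^ 2 := by ring
  rw [e]
  rcases v with P | φ
  · exact (locSq_mul_sq P d.ne_zero _).2
      (sy_loc hr h σ hσ P γ₁ γ₂ (hS.1 P (B.inl_mem_pls.1 hv1)))
  · show 0 < φ _
    rw [map_mul, map_pow, ← map_mul (Algebra.norm k)]
    have h1 := sy_real h σ hσ (γ₁ * γ₂) (fun ψ => by
      rw [Units.val_mul]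
      exact hS.2 ψ) φ
    rw [Units.val_mul] at h1
    exact mul_pos h1 (lt_of_le_of_ne (sq_nonneg _) (Ne.symm (pow_ne_zero 2 ((map_ne_zero φ).2 d.ne_zero))))

/-- the exponent of the norm of a unit -/
theorem sy_ord {d : kˣ} {δ : L} (h : QE d δ) (σ : L ≃ₐ[k] L) (hσ : σ δ = -δ) {Fr : Frm k}
    (hd : ∀ p, ord (Fr.pl p) (d : k) = 0) (γ : Lˣ) (p : Fr.sys.P) (hp : ¬ Sha Fr γ p) :
    ord (Fr.pl p) (-((d : k) * Algebra.norm k (γ : L))) = 0 := by
  have hall : ∀ Q : HeightOneSpectrum (𝓞 L), Over (Fr.pl p) Q → ord Q (γ : L) = 0 := by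
    intro Q hQ
    by_contra h1
    exact hp ⟨Q, hQ, h1⟩
  have h2 : ord (Fr.pl p) (2 : k) = 0 := Pool.Agent.H32.MQ.hb_two Fr p
  obtain ⟨Q, hQ⟩ := exists_over (L := L) (Fr.pl p)
  have h3 : ord (Fr.pl p) (Algebra.norm k (γ : L)) = 0 := by
    rw [← B.qe_ord_of_even h hQ h2 (by rw [hd p]; exact Even.zero), sy_nm h σ hσ,
      B.ord_mul Q γ.ne_zero ((map_ne_zero σ).2 γ.ne_zero), hall Q hQ, ← ord_cj,
      hall _ (hQ.cj σ), add_zero]
  rw [neg_eq_neg_one_mul, B.ord_mul _ (by norm_num) (mul_ne_zero d.ne_zero (sy_norm_ne γ)),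
    B.ord_mul _ d.ne_zero (sy_norm_ne γ), B.ord_neg_one, hd p, h3]
  rfl

/-- the symbols with the common trace -/
theorem sy_one (hL : LIn k) (hR : RecSt k) {Fr : Frm k} {d : kˣ}
    (hd : ∀ p, ord (Fr.pl p) (d : k) = 0) (A c : kˣ) (q : Fr.sys.P)
    (hq : ord (Fr.pl q) (c : k) = 1) (hc : ∀ p, p ≠ q → ord (Fr.pl p) (c : k) = 0)
    (hS : ∀ v ∈ pls Fr.S, hv v (A : k) (c : k) = hv v (2 : k) (d : k))
    (hA : ∀ p, ord (Fr.pl p) (A : k) = 0 ∨ LocSq (Fr.pl p) (c : k))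
    (hAq : ord (Fr.pl q) (A : k) = 0) :
    (∀ v : Pl k, hv v (A : k) (c : k) = hv v (2 : k) (d : k)) ∧ LocSq (Fr.pl q) (A : k) := by
  classical
  have h2 : ∀ p, ord (Fr.pl p) (2 : k) = 0 := Pool.Agent.H32.MQ.hb_two Fr
  have hne : (2 : k) ≠ 0 := two_ne_zero
  have a2 : ∀ p, hv (Sum.inl (Fr.pl p) : Pl k) (2 : k) (d : k) = 0 := by
    intro p
    have h3 := hL.unt (Fr.pl p) (h2 p) (Units.mk0 2 hne) d (h2 p)
    rw [hd p] at h3
    show hs (Fr.pl p) (2 : k) (d : k) = 0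
    rw [Units.val_mk0] at h3
    rw [h3]
    simp
  have aA : ∀ p, p ≠ q → hv (Sum.inl (Fr.pl p) : Pl k) (A : k) (c : k) = 0 := by
    intro p hp
    rcases hA p with h3 | h3
    · have h4 := hL.unt (Fr.pl p) (h2 p) A c h3
      rw [hc p hp] at h4
      show hs (Fr.pl p) (A : k) (c : k) = 0
      rw [h4]
      simp
    · rw [hL.symm]
      exact (hL.nd (Sum.inl (Fr.pl p)) c).2 h3 A
  have aAll : ∀ v : Pl k, v ≠ Sum.inl (Fr.pl q) → hv v (A : k) (c : k) = hv v (2 : k) (d : k) := by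
    intro v hvq
    rcases v with P | φ
    · by_cases hP : P ∈ Fr.S
      · exact hS _ (B.inl_mem_pls.2 hP)
      · obtain ⟨p, rfl⟩ := (Fr.pl_iff P).2 hP
        rw [a2 p, aA p fun h3 => hvq (by rw [h3])]
    · exact hS _ (B.inr_mem_pls _ φ)
  obtain ⟨S0, hS0⟩ := B.exists_mem_US ({A, c, Units.mk0 (2 : k) hne, d} : Finset kˣ)
  have hmono : US S0 ≤ US (S0 ∪ Fr.S) := B.US_mono Finset.subset_union_left
  have m1 : A ∈ US (S0 ∪ Fr.S) := hmono (hS0 A (by simp))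
  have m2 : c ∈ US (S0 ∪ Fr.S) := hmono (hS0 c (by simp))
  have m3 : Units.mk0 (2 : k) hne ∈ US (S0 ∪ Fr.S) := hmono (hS0 _ (by simp))
  have m4 : d ∈ US (S0 ∪ Fr.S) := hmono (hS0 d (by simp))
  have htwo : ∀ P : HeightOneSpectrum (𝓞 k), 0 < ord P (2 : k) → P ∈ S0 ∪ Fr.S := fun P hP =>
    Finset.mem_union_right _ (Fr.adm.two P hP)
  have s1 := hR (S0 ∪ Fr.S) htwo A m1 c m2
  have s2 := hR (S0 ∪ Fr.S) htwo _ m3 d m4
  rw [Units.val_mk0] at s2
  have hqm : (Sum.inl (Fr.pl q) : Pl k) ∈ pls (S0 ∪ Fr.S) := by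
    rw [B.inl_mem_pls]
    by_contra h3
    have h4 := B.mem_US.1 m2 _ h3
    rw [hq] at h4
    exact one_ne_zero h4
  have s3 : ∑ v ∈ pls (S0 ∪ Fr.S), (hv v (A : k) (c : k) + hv v (2 : k) (d : k)) = 0 := by
    rw [Finset.sum_add_distrib, s1, s2, add_zero]
  rw [Finset.sum_eq_single_of_mem _ hqm fun v _ hvq => by
    rw [aAll v hvq]
    exact CharTwo.add_self_eq_zero _] at s3
  have s4 := CharTwo.add_eq_zero.1 s3
  refine ⟨fun v => ?_, ?_⟩
  · by_cases hvq : v = Sum.inl (Fr.pl q)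
    · rw [hvq]
      exact s4
    · exact aAll v hvq
  · rw [a2 q] at s4
    have h4 := hL.unt (Fr.pl q) (h2 q) A c hAq
    have h5 : hs (Fr.pl q) (A : k) (c : k) = 0 := s4
    rw [h5, hq, Int.cast_one, one_mul] at h4
    exact (qr_eq_zero _).1 h4.symm

end

/-- TC12: the symbols of the common trace -/
theorem sy {k L : Type} [Field k] [NumberField k] [Field L] [NumberField L] [Algebra k L]
    (hL : LIn k) (hR : RecSt k) (hr : StRh k L) (hn : StNz k L) : StSy k L := by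
  intro Fr d δ h hd σ hσ γ₁ γ₂ g1 g2 f1 f2 hSam q c hq hc hct hcs n1 n2
  have t1 : Algebra.trace k L (γ₁ : L) ≠ 0 := by
    have := (hn Fr d δ h σ hσ γ₁ g1 1).1
    rwa [Units.val_one, one_pow, mul_one] at this
  have t2 : Algebra.trace k L (γ₂ : L) ≠ 0 := by
    have := (hn Fr d δ h σ hσ γ₂ g2 1).1
    rwa [Units.val_one, one_pow, mul_one] at this
  obtain ⟨A1, hA1⟩ : ∃ A : kˣ, (A : k) = -((d : k) * Algebra.norm k (γ₁ : L)) :=
    ⟨-(d * Units.mk0 _ (sy_norm_ne γ₁)), rfl⟩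
  obtain ⟨A2, hA2⟩ : ∃ A : kˣ, (A : k) = -((d : k) * Algebra.norm k (γ₂ : L)) :=
    ⟨-(d * Units.mk0 _ (sy_norm_ne γ₂)), rfl⟩
  obtain ⟨T1, hT1⟩ : ∃ T : kˣ, (T : k) = Algebra.trace k L (γ₁ : L) := ⟨Units.mk0 _ t1, rfl⟩
  obtain ⟨T2, hT2⟩ : ∃ T : kˣ, (T : k) = Algebra.trace k L (γ₂ : L) := ⟨Units.mk0 _ t2, rfl⟩
  have L1 : ∀ v, hv v (T1 : k) (A1 : k) = hv v (2 : k) (d : k) := fun v => by
    rw [hT1, hA1]
    exact f1 v
  have L2 : ∀ v, hv v (T2 : k) (A2 : k) = hv v (2 : k) (d : k) := fun v => by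
    rw [hT2, hA2]
    exact f2 v
  have S2 : ∀ v ∈ pls Fr.S, hv v (A2 : k) (c : k) = hv v (2 : k) (d : k) := by
    intro v hv1
    rw [hL.symm, sy_hv hL v c T2 A2 (by
      rw [Units.val_mul, hT2]
      exact hct v hv1)]
    exact L2 v
  have S1 : ∀ v ∈ pls Fr.S, hv v (A1 : k) (c : k) = hv v (2 : k) (d : k) := by
    intro v hv1
    rw [sy_hv hL v A1 A2 c (by
      rw [Units.val_mul, hA1, hA2]
      exact sy_AA hr h σ hσ γ₁ γ₂ hSam v hv1)]
    exact S2 v hv1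
  have O1 : ∀ p, ord (Fr.pl p) (A1 : k) = 0 ∨ LocSq (Fr.pl p) (c : k) := by
    intro p
    by_cases hp : Sha Fr γ₁ p
    · exact Or.inr (hcs p (Or.inl hp))
    · left
      rw [hA1]
      exact sy_ord h σ hσ hd γ₁ p hp
  have O2 : ∀ p, ord (Fr.pl p) (A2 : k) = 0 ∨ LocSq (Fr.pl p) (c : k) := by
    intro p
    by_cases hp : Sha Fr γ₂ p
    · exact Or.inr (hcs p (Or.inr hp))
    · left
      rw [hA2]
      exact sy_ord h σ hσ hd γ₂ p hp
  obtain ⟨r1, r2⟩ := sy_one hL hR hd A1 c q hq hc S1 O1 (by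
    rw [hA1]
    exact sy_ord h σ hσ hd γ₁ q n1)
  obtain ⟨r3, r4⟩ := sy_one hL hR hd A2 c q hq hc S2 O2 (by
    rw [hA2]
    exact sy_ord h σ hσ hd γ₂ q n2)
  rw [hA1] at r2
  rw [hA2] at r4
  refine ⟨fun v => ?_, fun v => ?_, r2, r4⟩
  · rw [← hA1, ← hT1, ← Units.val_mul, hL.mulR, r1 v, hL.symm v A1 T1, L1 v]
    exact CharTwo.add_self_eq_zero _
  · rw [← hA2, ← hT2, ← Units.val_mul, hL.mulR, r3 v, hL.symm v A2 T2, L2 v]
    exact CharTwo.add_self_eq_zero _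

end Pool.Agent.SK.TC
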