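import Pool.Agent.SK.TCb

/-!
# Malle's conjecture for 8T8 over number fields, part TD: the common trace, assembly
-/

set_option autoImplicit false

open scoped BigOperators
open NumberField IsDedekindDomain

namespace Pool.Agent.SK.TC

open Pool.Agent.H98.MF
open Pool.Agent.H32.MQ (hb_two hb_notMem)

theorem exists_bd {α : Type} (s : Finset α) (f : α → ℤ) : ∃ K : ℕ, ∀ a ∈ s, f a ≤ K := by
  refine ⟨s.sup fun a => (f a).toNat, fun a ha => ?_⟩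
  have h1 : (f a).toNat ≤ s.sup fun a => (f a).toNat := Finset.le_sup (f := fun a => (f a).toNat) ha
  exact (Int.self_le_toNat _).trans (by exact_mod_cast h1)

section

variable {k L : Type} [Field k] [NumberField k] [Field L] [NumberField L] [Algebra k L]

theorem ct_fin (Fr : Frm k) (γ : Lˣ) : {p : Fr.sys.P | Sha Fr γ p}.Finite := by
  refine (un_fin Fr γ.ne_zero).subset fun p hp h => ?_
  obtain ⟨Q, hQ, h1⟩ := hp
  exact h1 (h.2 Q hQ)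

omit [NumberField L] [Algebra k L] in
theorem ct_ext (Fr : Frm k) (w : Fr.sys.P → Lˣ) (g : Lˣ) :
    ∃ W : HeightOneSpectrum (𝓞 k) → Lˣ, (∀ p, W (Fr.pl p) = w p) ∧ ∀ P ∈ Fr.S, W P = g := by
  classical
  refine ⟨fun P => if h : ∃ p, Fr.pl p = P then w h.choose else g, fun p => ?_, fun P hP => ?_⟩
  · have h : ∃ p', Fr.pl p' = Fr.pl p := ⟨p, rfl⟩
    show dite _ _ _ = _
    rw [dif_pos h, Fr.pl_inj h.choose_spec]
  · have h : ¬ ∃ p, Fr.pl p = P := fun ⟨p, hp⟩ => hb_notMem Fr p (hp ▸ hP)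
    show dite _ _ _ = _
    rw [dif_neg h]

/-- local solutions at all primes of the frame -/
theorem ct_loc (hLU : StLU k L) (hLQ : StLQ k L) (hSh : StSh k L) {Fr : Frm k} {d : kˣ} {δ : L}
    (hQ : QE d δ) (hd : ∀ p, ord (Fr.pl p) (d : k) = 0) (h7 : ∀ p, 7 ≤ Fr.sys.N p)
    {σ : L ≃ₐ[k] L} (hσ : σ δ = -δ) {γ : Lˣ} (hG : Gdp Fr σ γ) (hl : Lft d γ) {q : Fr.sys.P}
    {c : kˣ} (hq1 : ord (Fr.pl q) (c : k) = 1) (hq0 : ∀ p, p ≠ q → ord (Fr.pl p) (c : k) = 0)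
    (hcs : ∀ p, Sha Fr γ p → LocSq (Fr.pl p) (c : k)) (hqs : ¬ Sha Fr γ q)
    (hsq : LocSq (Fr.pl q) (-((d : k) * Algebra.norm k (γ : L)))) (p : Fr.sys.P) :
    ∃ w : Lˣ, RU (Fr.pl p) (γ : L) (c : k) (w : L) := by
  by_cases hp : Sha Fr γ p
  · have hpq : p ≠ q := fun h => hqs (h ▸ hp)
    refine ⟨1, ?_⟩
    rw [Units.val_one]
    exact hSh Fr d δ hQ hd σ hσ γ hG hl p hp c (hq0 p hpq) (hcs p hp)
  · have hu : Un (Fr.pl p) (γ : L) := by
      refine ⟨γ.ne_zero, fun Q hQ' => ?_⟩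
      by_contra h
      exact hp ⟨Q, hQ', h⟩
    by_cases hpq : p = q
    · subst hpq
      exact hLQ d δ hQ (Fr.pl p) (hb_two Fr p) (hd p) γ hu hsq c hq1
    · exact hLU d δ hQ (Fr.pl p) (hb_two Fr p) (hd p) (by rw [← Fr.N_eq]; exact h7 p) γ hu c
        (hq0 p hpq)

omit [NumberField L] in
/-- the scaling factor is a unit -/
theorem ct_s {P : HeightOneSpectrum (𝓞 k)} {γ : L} {c s : kˣ} {w : L} (hr : Rp P γ (c : k) w)
    (ho : ord P (Tq k γ w) = ord P (c : k)) {N : ℤ} (hN : 1 ≤ N)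
    (hs : Cl P N ((s : k) ^ 2 * Tq k γ w / c) 1) : ord P (s : k) = 0 := by
  have h1 := (hs.unit hN).2
  have hT : Tq k γ w ≠ 0 := by
    intro h
    exact hr.ne_zero (by rw [h, mul_zero])
  rw [ord_div P (mul_ne_zero (pow_ne_zero 2 s.ne_zero) hT) c.ne_zero,
    ord_mul P (pow_ne_zero 2 s.ne_zero) hT, ord_pow, ho] at h1
  push_cast at h1
  omega

theorem ct_un {P : HeightOneSpectrum (𝓞 k)} {γ : L} {c s : kˣ} {w z : Lˣ}
    (hr : RU P γ (c : k) (w : L)) {N : ℤ} (hN : 1 ≤ N)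
    (hs : Cl P N ((s : k) ^ 2 * Tq k γ (w : L) / c) 1)
    (hz : Nr P N (z : L) (algebraMap k L (s : k) * w)) : Un P (z : L) := by
  refine ⟨z.ne_zero, fun Q hQ => ?_⟩
  have h0 := ct_s hr.1 hr.2.2 hN hs
  have hs0 : algebraMap k L (s : k) ≠ 0 := by
    rw [Ne, map_eq_zero]
    exact s.ne_zero
  rw [(hz.unit hN hQ (mul_ne_zero hs0 w.ne_zero)).2, ord_mul Q hs0 w.ne_zero, ord_map_zero hQ h0,
    hr.2.1.2 Q hQ, add_zero]

/-- TC14: the common trace -/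
theorem ct (hTr : StTr k L) (hLU : StLU k L) (hLQ : StLQ k L) (hWC : StWC k L) (hHN : StHN k L)
    (hRh : StRh k L) (hPr : StPr k) (hNz : StNz k L) (hSy : StSy k L) (hSh : StSh k L) :
    StCT k L := by
  classical
  intro Fr d δ hQ hd h7 σ hσ γ₁ γ₂ hG1 hG2 hl1 hl2 hS
  -- the finite set of primes
  obtain ⟨W, hW⟩ : ∃ W : Finset Fr.sys.P, ∀ p, p ∈ W ↔ (Sha Fr γ₁ p ∨ Sha Fr γ₂ p) := by
    refine ⟨((ct_fin Fr γ₁).union (ct_fin Fr γ₂)).toFinset, fun p => ?_⟩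
    rw [Set.Finite.mem_toFinset]
    rfl
  have ht1 : Algebra.trace k L (γ₁ : L) ≠ 0 := by
    have h := (hNz Fr d δ hQ σ hσ γ₁ hG1 1).1
    rwa [Units.val_one, one_pow, mul_one] at h
  have ht2 : Algebra.trace k L (γ₂ : L) ≠ 0 := by
    have h := (hNz Fr d δ hQ σ hσ γ₂ hG2 1).1
    rwa [Units.val_one, one_pow, mul_one] at h
  obtain ⟨q, c, hqW, hq1, hq0, hcl, hcW⟩ := hPr Fr (Units.mk0 _ ht2) W
  have hqs1 : ¬ Sha Fr γ₁ q := fun h => hqW ((hW q).2 (Or.inl h))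
  have hqs2 : ¬ Sha Fr γ₂ q := fun h => hqW ((hW q).2 (Or.inr h))
  obtain ⟨H1, H2, Q1, Q2⟩ := hSy Fr d δ hQ hd σ hσ γ₁ γ₂ hG1 hG2 hl1 hl2 hS q c hq1 hq0 hcl
    (fun p hp => hcW p ((hW p).2 hp)) hqs1 hqs2
  obtain ⟨y₁, hy₁⟩ := hHN d δ hQ γ₁ c ht1 H1
  obtain ⟨y₂, hy₂⟩ := hHN d δ hQ γ₂ c ht2 H2
  choose w₁ hw₁ using ct_loc hLU hLQ hSh hQ hd h7 hσ hG1 hl1 hq1 hq0
    (fun p hp => hcW p ((hW p).2 (Or.inl hp))) hqs1 Q1
  choose w₂ hw₂ using ct_loc hLU hLQ hSh hQ hd h7 hσ hG2 hl2 hq1 hq0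
    (fun p hp => hcW p ((hW p).2 (Or.inr hp))) hqs2 Q2
  have hqo : ∀ p : Fr.sys.P, ord (Fr.pl p) (c : k) = 0 ∨ p = q := fun p => by
    by_cases h : p = q
    · exact Or.inr h
    · exact Or.inl (hq0 p h)
  -- the second element
  obtain ⟨W₂, hW₂, -⟩ := ct_ext Fr w₂ 1
  obtain ⟨z₂, hz₂, hz₂'⟩ := hWC d δ hQ γ₂ c y₂ hy₂ ((insert q W).image Fr.pl) W₂
    (fun P hP => by
      obtain ⟨p, -, rfl⟩ := Finset.mem_image.1 hP
      rw [hW₂]
      exact (hw₂ p).1) 1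
  have hu₂ : ∀ p ∈ insert q W, Un (Fr.pl p) (z₂ : L) := by
    intro p hp
    obtain ⟨s, hs1, hs2⟩ := hz₂' _ (Finset.mem_image_of_mem _ hp)
    rw [hW₂] at hs1 hs2
    exact ct_un (hw₂ p) (by norm_num) hs1 hs2
  refine ⟨c, z₂, fun p => ?_, fun p hp => ?_, ⟨hz₂, fun p hp => ?_, fun p => ?_⟩, fun N => ?_⟩
  · rcases hqo p with h | rfl
    · exact Or.inl h
    · exact Or.inr hq1
  · have hpq : p ≠ q := fun h => hqW (h ▸ (hW p).2 hp)
    exact ⟨hq0 p hpq, hcW p ((hW p).2 hp)⟩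
  · exact hu₂ p (Finset.mem_insert_of_mem ((hW p).2 hp))
  · rcases hqo p with h | rfl
    · exact Or.inl h
    · exact Or.inr (hu₂ p (Finset.mem_insert_self _ _))
  -- the first element
  obtain ⟨S', hS'⟩ := Pool.Agent.H98.MF.B.ovr_exists (L := L) Fr.S
  obtain ⟨K, hK⟩ := exists_bd Fr.S fun P => ord P (c : k) + (N : ℤ) + 1 + (2 * ord P (2 : k) + 1)
  obtain ⟨M, hM⟩ := exists_bd S' fun Q => 2 * (K : ℤ) - ord Q ((γ₂ : L) * z₂ ^ 2)
  obtain ⟨r, hr⟩ := hRh d δ hQ Fr.S γ₁ γ₂ hS.1 (M + N + 1)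
  have hb0 : (γ₂ : L) * z₂ ^ 2 ≠ 0 := mul_ne_zero γ₂.ne_zero (pow_ne_zero 2 z₂.ne_zero)
  have e2 : ∀ P ∈ Fr.S, 0 ≤ ord P (2 : k) := fun P _ => by
    have h1 := ord_int_nonneg P (2 : 𝓞 k)
    have h2 : ((2 : 𝓞 k) : k) = 2 := map_ofNat (algebraMap (𝓞 k) k) 2
    rwa [h2] at h1
  have hT : ∀ P ∈ Fr.S, Cl P ((N : ℤ) + 1 + (2 * ord P (2 : k) + 1))
      (Tq k (γ₁ : L) ((z₂ * r : Lˣ) : L) / c) 1 := by
    intro P hP
    have h1 : ∀ Q : HeightOneSpectrum (𝓞 L), Over P Q →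
        Cl Q (2 * K) ((γ₁ : L) * ((z₂ * r : Lˣ) : L) ^ 2 - γ₂ * z₂ ^ 2) 0 := by
      intro Q hQP
      have h2 := hr P hP Q hQP
      rw [cl_iff] at h2 ⊢
      have h3 := le_ord_mul Q h2 (y := (γ₂ : L) * z₂ ^ 2) (Or.inr le_rfl)
      have h4 : ((γ₁ : L) * r ^ 2 / γ₂ - 1) * ((γ₂ : L) * z₂ ^ 2) =
          (γ₁ : L) * ((z₂ * r : Lˣ) : L) ^ 2 - γ₂ * z₂ ^ 2 - 0 := by
        have h5 := γ₂.ne_zero
        rw [Units.val_mul]
        field_simp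
        ring
      rw [h4] at h3
      refine h3.imp id fun h5 => ?_
      have h6 := hM Q ((hS' Q).2 ⟨P, hP, hQP⟩)
      simp only [Nat.cast_add, Nat.cast_one] at h5
      omega
    have h2 := hTr d δ hQ P K _ h1
    rw [cl_iff, sub_zero, map_sub] at h2
    have h3 : Algebra.trace k L ((γ₂ : L) * z₂ ^ 2) = c := hz₂
    rw [h3] at h2
    have h4 := hK P hP
    have h5 : (c : k)⁻¹ = 0 ∨ -ord P (c : k) ≤ ord P (c : k)⁻¹ := Or.inr (by rw [ord_inv])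
    have h6 := le_ord_mul P h2 h5
    have h7 : (Algebra.trace k L ((γ₁ : L) * ((z₂ * r : Lˣ) : L) ^ 2) - c) * (c : k)⁻¹ =
        Tq k (γ₁ : L) ((z₂ * r : Lˣ) : L) / c - 1 := by
      have h8 := c.ne_zero
      unfold Tq
      field_simp
    rw [h7] at h6
    rw [cl_iff]
    exact h6.imp id fun h8 => by linarith
  obtain ⟨W₁, hW₁, hW₁'⟩ := ct_ext Fr w₁ (z₂ * r)
  set B : Finset Fr.sys.P := (un_fin Fr z₂.ne_zero).toFinset with hB
  obtain ⟨z₁, hz₁, hz₁'⟩ := hWC d δ hQ γ₁ c y₁ hy₁ (Fr.S ∪ ((insert q W) ∪ B).image Fr.pl) W₁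
    (fun P hP => by
      rcases Finset.mem_union.1 hP with hP | hP
      · rw [hW₁' P hP]
        have h1 := hT P hP
        have h2 : LocSq P (1 + (Tq k (γ₁ : L) ((z₂ * r : Lˣ) : L) / c - 1)) := by
          refine locSq_one_add P ?_
          rw [cl_iff] at h1
          exact h1.imp id fun h3 => by linarith
        have h3 : (c : k) * Tq k (γ₁ : L) ((z₂ * r : Lˣ) : L) =
            (1 + (Tq k (γ₁ : L) ((z₂ * r : Lˣ) : L) / c - 1)) * (c : k) ^ 2 := by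
          have h8 := c.ne_zero
          field_simp
          ring
        show LocSq P _
        rw [h3, locSq_mul_sq P c.ne_zero]
        exact h2
      · obtain ⟨p, -, rfl⟩ := Finset.mem_image.1 hP
        rw [hW₁]
        exact (hw₁ p).1) (N + 1)
  have hu₁ : ∀ p ∈ (insert q W) ∪ B, Un (Fr.pl p) (z₁ : L) := by
    intro p hp
    obtain ⟨s, hs1, hs2⟩ := hz₁' _ (Finset.mem_union_right _ (Finset.mem_image_of_mem _ hp))
    rw [hW₁] at hs1 hs2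
    exact ct_un (hw₁ p) (by push_cast; omega) hs1 hs2
  refine ⟨z₁, ⟨hz₁, fun p hp => ?_, fun p => ?_⟩, fun p => ?_, fun P hP Q hQP => ?_⟩
  · exact hu₁ p (Finset.mem_union_left _ (Finset.mem_insert_of_mem ((hW p).2 hp)))
  · rcases hqo p with h | rfl
    · exact Or.inl h
    · exact Or.inr (hu₁ p (Finset.mem_union_left _ (Finset.mem_insert_self _ _)))
  · by_cases h : Un (Fr.pl p) (z₂ : L)
    · exact Or.inr h
    · refine Or.inl (hu₁ p (Finset.mem_union_right _ ?_))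
      rw [hB, Set.Finite.mem_toFinset]
      exact h
  · obtain ⟨s, hs1, hs2⟩ := hz₁' P (Finset.mem_union_left _ hP)
    rw [hW₁' P hP] at hs1 hs2
    have hN1 : (1 : ℤ) ≤ (N : ℤ) + 1 := by omega
    have c1 : Cl P ((N : ℤ) + 1) ((s : k) ^ 2 * Tq k (γ₁ : L) ((z₂ * r : Lˣ) : L) / c) 1 := by
      have h := hs1
      push_cast at h
      exact h
    have c2 : Cl P ((N : ℤ) + 1) (Tq k (γ₁ : L) ((z₂ * r : Lˣ) : L) / c) 1 := by
      refine (hT P hP).mono ?_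
      have h := e2 P hP
      omega
    have hTc : Tq k (γ₁ : L) ((z₂ * r : Lˣ) : L) / c ≠ 0 := (c2.unit hN1).1
    have c3 : Cl P ((N : ℤ) + 1) ((s : k) ^ 2) 1 := by
      have h := c1.mul hN1 (c2.inv hN1)
      have e : (s : k) ^ 2 * Tq k (γ₁ : L) ((z₂ * r : Lˣ) : L) / c *
          (Tq k (γ₁ : L) ((z₂ * r : Lˣ) : L) / c)⁻¹ = (s : k) ^ 2 := by
        rw [mul_div_assoc, mul_assoc, mul_inv_cancel₀ hTc, mul_one]
      rwa [e] at h
    have c4 : Cl Q ((N : ℤ) + 1) (algebraMap k L ((s : k) ^ 2)) 1 := by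
      have h := c3.map hQP (by omega)
      rwa [map_one] at h
    have c5 : Cl Q ((N : ℤ) + 1) ((z₁ : L) / (algebraMap k L (s : k) * ((z₂ * r : Lˣ) : L))) 1 := by
      have h := hs2 Q hQP
      push_cast at h ⊢
      exact h
    have c6 : Cl Q ((N : ℤ) + 1) ((γ₁ : L) * r ^ 2 / γ₂) 1 := by
      refine (hr P hP Q hQP).mono ?_
      push_cast
      omega
    have h := ((c5.sq hN1).mul hN1 c4).mul hN1 c6
    have hs0 : algebraMap k L (s : k) ≠ 0 := by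
      rw [Ne, map_eq_zero]
      exact s.ne_zero
    have e : ((z₁ : L) / (algebraMap k L (s : k) * ((z₂ * r : Lˣ) : L))) ^ 2 *
        algebraMap k L ((s : k) ^ 2) * ((γ₁ : L) * r ^ 2 / γ₂) =
        (γ₁ : L) * z₁ ^ 2 / ((γ₂ : L) * z₂ ^ 2) := by
      have h1 := γ₂.ne_zero
      have h2 := z₂.ne_zero
      have h3 := r.ne_zero
      rw [Units.val_mul, map_pow]
      field_simp
    rw [e] at h
    exact h.mono (by omega)

end

end Pool.Agent.SK.TC
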