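import Pool.Agent.SK.TCDefs
import Pool.Agent.H98.MF.C.C3b

/-!
# Malle's conjecture for 8T8 over number fields, part TD, row TC3: traces close to zero
-/

set_option autoImplicit false

open scoped BigOperators
open NumberField IsDedekindDomain

namespace Pool.Agent.SK.TC

open Pool.Agent.H98.MF

section

variable {k L : Type} [Field k] [NumberField k] [Field L] [NumberField L] [Algebra k L]

/-- the trace of a quadratic extension -/
theorem tr_sig {d : kˣ} {δ : L} (h : QE d δ) (σ : L ≃ₐ[k] L) (hσ : σ δ = -δ) (z : L) :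
    algebraMap k L (Algebra.trace k L z) = z + σ z := by
  classical
  have : Algebra.IsQuadraticExtension k L := { finrank_eq_two' := h.deg }
  have : FiniteDimensional k L := inferInstance
  rw [trace_eq_sum_automorphisms]
  obtain ⟨τ, h1, h2, h3, h4⟩ := B.qe_conj h
  have hστ : σ = τ := by
    rcases h3 σ with h5 | h5
    · exfalso
      rw [h5] at hσ
      have h6 : δ = -δ := by simpa using hσ
      exact B.qe_ne_zero h (self_eq_neg.1 h6)
    · exact h5
  have hne : (1 : L ≃ₐ[k] L) ≠ σ := by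
    intro h5
    rw [← h5] at hσ
    have h6 : δ = -δ := by simpa using hσ
    exact B.qe_ne_zero h (self_eq_neg.1 h6)
  have hu : (Finset.univ : Finset (L ≃ₐ[k] L)) = {1, σ} := by
    ext ρ
    rw [hστ]
    simpa using h3 ρ
  rw [hu, Finset.sum_pair hne]
  rfl

/-- the ramification index in a quadratic extension -/
theorem ram_le_two {P : HeightOneSpectrum (𝓞 k)} {Q : HeightOneSpectrum (𝓞 L)}
    (hL : Module.finrank k L = 2) (h : Over P Q) :
    P.asIdeal.ramificationIdx' Q.asIdeal ≤ 2 := by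
  have hm := P.isMaximal
  have h1 := Ideal.sum_ramification_inertia (𝓞 L) k L P.ne_bot
  rw [hL] at h1
  have := h.liesOver
  have hin : Q.asIdeal ∈ IsDedekindDomain.primesOverFinset P.asIdeal (𝓞 L) := by
    rw [IsDedekindDomain.mem_primesOverFinset_iff P.ne_bot]
    exact ⟨Q.isPrime, h.liesOver⟩
  have h2 := Finset.single_le_sum (f := fun I : Ideal (𝓞 L) =>
    P.asIdeal.ramificationIdx' I * P.asIdeal.inertiaDeg' I) (fun _ _ => Nat.zero_le _) hin
  have h3 : P.asIdeal.ramificationIdx' Q.asIdeal * P.asIdeal.inertiaDeg' Q.asIdeal ≤ 2 := by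
    rw [h1] at h2
    exact h2
  have h4 : 1 ≤ P.asIdeal.inertiaDeg' Q.asIdeal := Ideal.inertiaDeg'_pos P.asIdeal Q.asIdeal
  nlinarith

end

theorem trc (k L : Type) [Field k] [NumberField k] [Field L] [NumberField L] [Algebra k L] :
    StTr k L := by
  intro d δ h p N z hz
  by_cases h0 : Algebra.trace k L z = 0
  · exact Or.inl h0
  right
  rw [sub_zero]
  obtain ⟨σ, h1, h2, h3, h4⟩ := B.qe_conj h
  obtain ⟨Q, hQ⟩ := exists_over (L := L) p
  have hz' : ∀ Q : HeightOneSpectrum (𝓞 L), Over p Q → z = 0 ∨ (2 * N : ℤ) ≤ ord Q z := by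
    intro Q hQ
    rcases hz Q hQ with h5 | h5
    · exact Or.inl h5
    · right
      rw [sub_zero] at h5
      exact h5
  have e1 := hz' Q hQ
  have e2 : σ z = 0 ∨ (2 * N : ℤ) ≤ ord Q (σ z) := by
    rcases hz' (cj σ Q) (hQ.cj σ) with h5 | h5
    · exact Or.inl (by rw [h5, map_zero])
    · right
      rw [← ord_cj]
      exact h5
  have e3 := le_ord_add Q (2 * N : ℤ) e1 e2
  rw [← tr_sig h σ h1 z] at e3
  have e4 : (2 * N : ℤ) ≤ ord Q (algebraMap k L (Algebra.trace k L z)) := by
    rcases e3 with h5 | h5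
    · exact absurd ((map_eq_zero (algebraMap k L)).1 h5) h0
    · exact h5
  rw [hQ.ord_map] at e4
  have e5 := ram_le_two h.deg hQ
  have e6 := hQ.ram_pos
  have e7 : (p.asIdeal.ramificationIdx' Q.asIdeal : ℤ) ≤ 2 := by exact_mod_cast e5
  have e8 : (1 : ℤ) ≤ (p.asIdeal.ramificationIdx' Q.asIdeal : ℤ) := by exact_mod_cast e6
  by_contra hlt
  rw [not_le] at hlt
  by_cases h6 : 0 ≤ ord p (Algebra.trace k L z)
  · nlinarith
  · rw [not_le] at h6
    have h7 : (0 : ℤ) ≤ N := Int.natCast_nonneg N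
    nlinarith

end Pool.Agent.SK.TC
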