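import Pool.Agent.SK.TCb
import Pool.Agent.SK.TC3
import Pool.Agent.SKT.Defs
import Pool.Agent.H98.MF.LocData

/-!
# Malle's conjecture for 8T8 over number fields, part TD: the common trace in the form `STct`
-/

set_option autoImplicit false

open scoped BigOperators
open NumberField IsDedekindDomain

namespace Pool.Agent.SK.TC

open Pool.Agent.H98.MF
open Pool.Agent.H32.MQ
open Pool.Agent.SKT (TX STct)

section

variable {k : Type} [Field k] [NumberField k]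

/-- elements with the same unit coordinates and type have the same local classes -/
theorem rep_loc (hK : KIn k) (F : Frm k) (t : F.sys.T) {A B : Finset F.sys.P}
    (h : F.sys.tys A = F.sys.tys B) {v : Pl k} (hv : v ∈ pls F.S) :
    LocP v ((rep F (t, A) * rep F (t, B) : kˣ) : k) := by
  classical
  refine (hK.one v _).1 fun σ hσ => ?_
  have h1 : ∀ C : Finset F.sys.P, chi ((∏ p ∈ C, F.pi p : kˣ) : k) σ =
      ∑ j, F.sys.tys C j * chi (F.w j : k) σ := by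
    intro C
    rw [M6a.chi_prod]
    rw [Finset.sum_congr rfl fun p _ => F.m6a_chi_pi hK p hv hσ, Finset.sum_comm]
    refine Finset.sum_congr rfl fun j _ => ?_
    rw [← Finset.sum_mul]
    congr 1
    unfold Sys.tys
    rw [Finset.sum_apply]
  have h2 : ∀ C : Finset F.sys.P, chi (rep F (t, C) : k) σ =
      chi ((∏ j, F.u j ^ (t j).val : kˣ) : k) σ + ∑ j, F.sys.tys C j * chi (F.w j : k) σ := by
    intro C
    rw [← h1]
    exact M6a.chi_mul _ _ σ
  rw [M6a.chi_mul, h2, h2, h]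
  have key : ∀ s : ZMod 2, s + s = 0 := by decide
  exact key _

end

section

variable {k : Type} [Field k] [NumberField k] {Fr : Frm k} {L : Type} [Field L]
  [NumberField L] [Algebra k L] (tx : TX Fr L)

theorem gm_ord (t : tx.FL.sys.T) (g : Finset tx.X.PX) (P : tx.FL.sys.P) :
    ord (tx.FL.pl P) (tx.gm t g : L) = open Classical in
      (if P ∈ g.image (io tx.X tx.FL tx.hF) then 1 else 0) := by
  classical
  exact h_repO tx.FL (t, g.image (io tx.X tx.FL tx.hF)) P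

theorem gm_gdp {t : tx.FL.sys.T} {g : Finset tx.X.PX} (hg : tx.Gd g) (hne : g.Nonempty) :
    Gdp Fr tx.X.sig (tx.gm t g) := by
  classical
  constructor
  · intro p Q hQ
    obtain ⟨P, rfl⟩ := (tx.FL.pl_iff Q).2 (qf_notMem tx.FL tx.hF hQ)
    rw [gm_ord]
    by_cases hP : P ∈ g.image (io tx.X tx.FL tx.hF)
    · right
      obtain ⟨b, hb, rfl⟩ := Finset.mem_image.1 hP
      refine ⟨if_pos hP, ?_, ?_⟩
      · rw [pl_io]
        exact b.2.2
      · have h1 : cj tx.X.sig (tx.FL.pl (io tx.X tx.FL tx.hF b)) =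
            tx.FL.pl (io tx.X tx.FL tx.hF (tx.X.cjX b)) := by
          rw [pl_io, pl_io]
          rfl
        rw [h1, gm_ord, if_neg]
        intro h2
        obtain ⟨b', hb', h3⟩ := Finset.mem_image.1 h2
        have h4 : b' = tx.X.cjX b := io_inj tx.X tx.FL tx.hF h3
        have h5 : tx.X.shX b = tx.X.shX b' := by
          rw [h4]
          exact tx.X.shX_eq b ((tx.X.shX_over (tx.X.cjX b)).cj tx.X.sig |> fun h => by
            have h6 : cj tx.X.sig (tx.X.cjX b).1 = b.1 := tx.X.cj_cj' b.1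
            rwa [h6] at h)
        have h6 := hg b hb b' hb' h5
        rw [← h6] at h4
        exact b.2.2 (congrArg Subtype.val h4).symm
    · left
      exact if_neg hP
  · obtain ⟨b, hb⟩ := hne
    refine ⟨tx.X.shX b, b.1, tx.X.shX_over b, ?_⟩
    have h1 := gm_ord tx t g (io tx.X tx.FL tx.hF b)
    rw [if_pos (Finset.mem_image_of_mem _ hb), pl_io] at h1
    exact h1

theorem gm_sha (t : tx.FL.sys.T) {g : Finset tx.X.PX} {b : tx.X.PX} (hb : b ∈ g) :
    Sha Fr (tx.gm t g) (tx.X.shX b) := by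
  classical
  refine ⟨b.1, tx.X.shX_over b, ?_⟩
  have h1 := gm_ord tx t g (io tx.X tx.FL tx.hF b)
  rw [if_pos (Finset.mem_image_of_mem _ hb), pl_io] at h1
  rw [h1]
  exact one_ne_zero

/-- traces in coordinates -/
theorem tr_co {d : kˣ} {δ : L} (h : QE d δ) (x y : k) :
    Algebra.trace k L (algebraMap k L x + algebraMap k L y * δ) = 2 * x := by
  obtain ⟨σ, hσ, -⟩ := Pool.Agent.H98.MF.B.qe_conj h
  apply (algebraMap k L).injective
  rw [tr_sig h σ hσ]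
  simp only [map_add, map_mul, hσ, AlgEquiv.commutes, map_ofNat]
  ring

theorem tr_sq_ne {d : kˣ} {δ : L} (h : QE d δ) {b : L} (h1 : Algebra.trace k L b ≠ 0)
    (h2 : Algebra.trace k L (b * δ) ≠ 0) : Algebra.trace k L (b ^ 2 * δ) ≠ 0 := by
  obtain ⟨x, y, rfl⟩ := Pool.Agent.H98.MF.B.qe_repr h b
  rw [tr_co h] at h1
  have e1 : (algebraMap k L x + algebraMap k L y * δ) * δ =
      algebraMap k L (d * y) + algebraMap k L x * δ := by
    rw [map_mul]
    linear_combination (algebraMap k L y) * h.sq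
  have e2 : (algebraMap k L x + algebraMap k L y * δ) ^ 2 * δ =
      algebraMap k L (2 * d * x * y) + algebraMap k L (x ^ 2 + d * y ^ 2) * δ := by
    simp only [map_add, map_mul, map_pow, map_ofNat]
    linear_combination (2 * algebraMap k L x * algebraMap k L y +
      (algebraMap k L y) ^ 2 * δ) * h.sq
  rw [e1, tr_co h] at h2
  rw [e2, tr_co h]
  intro h3
  have h4 : (x : k) ≠ 0 := fun h5 => h1 (by rw [h5, mul_zero])
  have h5 : (d : k) * y ≠ 0 := fun h6 => h2 (by rw [h6, mul_zero])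
  have h6 : (2 : k) * (2 * d * x * y) = 4 * x * (d * y) := by ring
  rw [h6] at h3
  exact (mul_ne_zero (mul_ne_zero (by norm_num) h4) h5) h3

theorem cx_two (u : L) : 2 * tx.cx u = Algebra.trace k L u := by
  unfold TX.cx
  rw [← mul_assoc, mul_inv_cancel₀ two_ne_zero, one_mul]

theorem cx_ne {u : L} (h : Algebra.trace k L u ≠ 0) : tx.cx u ≠ 0 := by
  unfold TX.cx
  exact mul_ne_zero (inv_ne_zero two_ne_zero) h

theorem cy_ne {u : L} (h : Algebra.trace k L (u * tx.X.α) ≠ 0) : tx.cy u ≠ 0 := by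
  unfold TX.cy
  exact mul_ne_zero (inv_ne_zero (mul_ne_zero two_ne_zero tx.X.a.ne_zero)) h

theorem gm_lft (hNz : StNz k L) {t : tx.FL.sys.T} {g : Finset tx.X.PX} (hg : tx.Gd g)
    (hne : g.Nonempty) (hK : tx.Kap (tx.gm t g)) : Lft tx.X.a (tx.gm t g) := by
  intro v
  have h0 := (hNz Fr tx.X.a tx.X.α tx.X.qe tx.X.sig tx.X.sig_α _ (gm_gdp tx (t := t) hg hne) 1).1
  have e : ((tx.gm t g * 1 ^ 2 : Lˣ) : L) = (tx.gm t g : L) := by
    rw [one_pow, mul_one]
  rw [Units.val_one, one_pow, mul_one] at h0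
  have h1 := hK 1 (by
    rw [e]
    exact cx_ne tx h0) v
  rw [e, cx_two] at h1
  exact h1

theorem gm_sam (hK : KIn L) (t : tx.FL.sys.T) {g₁ g₂ : Finset tx.X.PX}
    (hty : tx.ty g₁ = tx.ty g₂) : Sam Fr (tx.gm t g₁) (tx.gm t g₂) := by
  constructor
  · intro P hP Q hQ
    have h1 : (Sum.inl Q : Pl L) ∈ pls tx.FL.S :=
      Pool.Agent.H98.MF.B.inl_mem_pls.2 ((tx.hF Q).2 ⟨P, hP, hQ⟩)
    have h2 := rep_loc hK tx.FL t hty h1
    rw [Units.val_mul] at h2
    exact h2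
  · intro ψ
    have h2 := rep_loc hK tx.FL t hty (Pool.Agent.H98.MF.B.inr_mem_pls tx.FL.S ψ)
    rw [Units.val_mul] at h2
    exact h2

/-- elements close to `b` above one prime have nonzero trace -/
theorem near_ne {d : kˣ} {δ : L} (hQE : QE d δ) (hTr : StTr k L) (P : HeightOneSpectrum (𝓞 k))
    {b : L} (h : Algebra.trace k L b ≠ 0) : ∃ M : ℕ, ∀ e : L,
      (∀ Q : HeightOneSpectrum (𝓞 L), Over P Q → Cl Q M e 1) → Algebra.trace k L (b * e) ≠ 0 := by
  obtain ⟨S', hS'⟩ := Pool.Agent.H98.MF.B.ovr_exists (L := L) ({P} : Finset _)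
  set K : ℕ := (ord P (Algebra.trace k L b) + 1).toNat with hK
  have hK1 : ord P (Algebra.trace k L b) + 1 ≤ K := Int.self_le_toNat _
  refine ⟨S'.sup fun Q => (2 * (K : ℤ) - ord Q b).toNat, fun e he h0 => ?_⟩
  have h1 : ∀ Q : HeightOneSpectrum (𝓞 L), Over P Q → Cl Q (2 * K) (b * (e - 1)) 0 := by
    intro Q hQ
    have h2 := he Q hQ
    have h3 : (2 * (K : ℤ) - ord Q b).toNat ≤ S'.sup fun Q => (2 * (K : ℤ) - ord Q b).toNat :=
      Finset.le_sup (f := fun Q => (2 * (K : ℤ) - ord Q b).toNat)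
        ((hS' Q).2 ⟨P, Finset.mem_singleton_self P, hQ⟩)
    have h4 : 2 * (K : ℤ) - ord Q b ≤ (S'.sup fun Q => (2 * (K : ℤ) - ord Q b).toNat : ℕ) :=
      (Int.self_le_toNat _).trans (by exact_mod_cast h3)
    rw [cl_iff] at h2 ⊢
    rw [sub_zero]
    have h5 := le_ord_mul Q (x := b) (Or.inr le_rfl) h2
    exact h5.imp id fun h6 => by linarith
  have h2 := hTr d δ hQE P K _ h1
  rw [cl_iff, sub_zero] at h2
  have h3 := ord_add_eq P h (b := Algebra.trace k L (b * (e - 1))) (h2.imp id fun h4 => by linarith)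
  rw [← map_add] at h3
  have h4 : b + b * (e - 1) = b * e := by ring
  rw [h4] at h3
  exact h3.1 h0

/-- the common trace in the form `STct` -/
theorem stct (hK : KIn L) (hTr : StTr k L) (hNz : StNz k L) (h : StCT k L)
    (hne : Fr.S.Nonempty) : STct tx := by
  classical
  intro t g₁ g₂ hg₁ hg₂ n₁ n₂ hty K₁ K₂ _ _
  have G₁ := gm_gdp tx (t := t) hg₁ n₁
  have G₂ := gm_gdp tx (t := t) hg₂ n₂
  obtain ⟨c, z₂, hc1, hc2, C₂, hN⟩ := h Fr tx.X.a tx.X.α tx.X.qe tx.au tx.big tx.X.sig tx.X.sig_α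
    (tx.gm t g₁) (tx.gm t g₂) G₁ G₂ (gm_lft tx hNz hg₁ n₁ K₁) (gm_lft tx hNz hg₂ n₂ K₂)
    (gm_sam tx hK t hty)
  have hsh : ∀ p ∈ g₁.image tx.X.shX ∪ g₂.image tx.X.shX,
      Sha Fr (tx.gm t g₁) p ∨ Sha Fr (tx.gm t g₂) p := by
    intro p hp
    rcases Finset.mem_union.1 hp with hp | hp
    · obtain ⟨b, hb, rfl⟩ := Finset.mem_image.1 hp
      exact Or.inl (gm_sha tx t hb)
    · obtain ⟨b, hb, rfl⟩ := Finset.mem_image.1 hp
      exact Or.inr (gm_sha tx t hb)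
  have hct : ∀ (g : Finset tx.X.PX) (z : Lˣ), Gdp Fr tx.X.sig (tx.gm t g) →
      CT1 Fr (tx.gm t g₁) (tx.gm t g₂) (tx.gm t g) c z →
      SKT.CT tx (g₁.image tx.X.shX ∪ g₂.image tx.X.shX) c (tx.gm t g) z := by
    intro g z hG hC
    refine ⟨?_, fun p hp => (hC.sha p (hsh p hp)).2, fun p hp => ?_, ?_⟩
    · have h1 := hC.tr
      unfold Tq at h1
      push_cast
      exact h1
    · exact ((hC.cun p).resolve_left hp).2
    · apply cy_ne
      have h1 := (hNz Fr tx.X.a tx.X.α tx.X.qe tx.X.sig tx.X.sig_α _ hG z).2.2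
      push_cast
      exact h1
  have nz := hNz Fr tx.X.a tx.X.α tx.X.qe tx.X.sig tx.X.sig_α _ G₂ z₂
  refine ⟨c, z₂, fun p hp => ?_, hct g₂ z₂ G₂ C₂, ?_, fun M => ?_⟩
  · exact ⟨(hc2 p (hsh p hp)).1, (qr_eq_zero _).2 (hc2 p (hsh p hp)).2⟩
  · apply cx_ne
    have h1 := nz.2.1
    push_cast
    exact h1
  -- the precision
  obtain ⟨P, hP⟩ := hne
  have hb0 : (tx.gm t g₂ : L) * z₂ ^ 2 ≠ 0 :=
    mul_ne_zero (tx.gm t g₂).ne_zero (pow_ne_zero 2 z₂.ne_zero)
  obtain ⟨M₁, hM₁⟩ := near_ne tx.X.qe hTr P nz.2.1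
  obtain ⟨M₂, hM₂⟩ := near_ne tx.X.qe hTr P (tr_sq_ne tx.X.qe nz.1 nz.2.2)
  obtain ⟨z₁, C₁, hal, hnr⟩ := hN (M + M₁ + M₂)
  have hq : ((((tx.gm t g₁ * z₁ ^ 2) / (tx.gm t g₂ * z₂ ^ 2) : Lˣ) : Lˣ) : L) =
      (tx.gm t g₁ : L) * z₁ ^ 2 / ((tx.gm t g₂ : L) * z₂ ^ 2) := by
    push_cast
    rfl
  refine ⟨z₁, hct g₁ z₁ G₁ C₁, fun p => ?_, fun Q hQ => ?_, fun ψ => ?_, ?_, ?_⟩
  · exact (hal p).imp (fun h1 => h1.2) fun h1 => h1.2
  · obtain ⟨P', hP', hQP⟩ := (tx.hF Q).1 hQ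
    have h1 := (hnr P' hP' Q hQP).mono (N := (M : ℤ)) (by push_cast; omega)
    rw [hq]
    exact h1
  · have h1 := (gm_sam tx hK t hty).2 ψ
    rw [hq]
    have h2 : (tx.gm t g₁ : L) * z₁ ^ 2 / ((tx.gm t g₂ : L) * z₂ ^ 2) =
        ((tx.gm t g₁ : L) * tx.gm t g₂) * ((z₁ : L) / ((tx.gm t g₂ : L) * z₂)) ^ 2 := by
      have e1 := (tx.gm t g₂).ne_zero
      have e2 := z₂.ne_zero
      field_simp
    rw [h2, map_mul, map_pow]
    have h3 : ψ ((z₁ : L) / ((tx.gm t g₂ : L) * z₂)) ≠ 0 := by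
      rw [Ne, map_eq_zero]
      exact div_ne_zero z₁.ne_zero (mul_ne_zero (tx.gm t g₂).ne_zero z₂.ne_zero)
    exact mul_pos h1 (by positivity)
  · apply cx_ne
    have h1 := hM₁ _ fun Q hQP => (hnr P hP Q hQP).mono (N := (M₁ : ℤ)) (by push_cast; omega)
    have e : ((tx.gm t g₂ : L) * z₂ ^ 2) ^ 2 * ((tx.gm t g₁ : L) * z₁ ^ 2 /
        ((tx.gm t g₂ : L) * z₂ ^ 2)) = (tx.gm t g₁ : L) * z₁ ^ 2 * ((tx.gm t g₂ : L) * z₂ ^ 2) := by
      field_simp
    rw [e] at h1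
    push_cast
    exact h1
  · apply cy_ne
    have h1 := hM₂ _ fun Q hQP => (hnr P hP Q hQP).mono (N := (M₂ : ℤ)) (by push_cast; omega)
    have e : ((tx.gm t g₂ : L) * z₂ ^ 2) ^ 2 * tx.X.α * ((tx.gm t g₁ : L) * z₁ ^ 2 /
        ((tx.gm t g₂ : L) * z₂ ^ 2)) =
        (tx.gm t g₁ : L) * z₁ ^ 2 * ((tx.gm t g₂ : L) * z₂ ^ 2) * tx.X.α := by
      field_simp
    rw [e] at h1
    push_cast
    exact h1

end

end Pool.Agent.SK.TC
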