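import Pool.Agent.SK.TCDefs
import Pool.Agent.H98.MF.C.C3b

/-!
# Malle's conjecture for 8T8 over number fields, the common trace, row TC4: local solutions in the
unit case
-/

set_option autoImplicit false

open scoped BigOperators
open NumberField IsDedekindDomain

namespace Pool.Agent.SK.TC

open Pool.Agent.H98.MF

/-! ### reduction modulo a prime of elements of the field -/

section

variable {k : Type} [Field k] [NumberField k] {P : HeightOneSpectrum (𝓞 k)} {F : Type} [Field F]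
  {f : 𝓞 k →+* F}

/-- `r` is the residue of `a` -/
def Rs4 (P : HeightOneSpectrum (𝓞 k)) (f : 𝓞 k →+* F) (a : k) (r : F) : Prop :=
  ∃ b : 𝓞 k, f b = r ∧ (a - (b : k) = 0 ∨ 1 ≤ ord P (a - (b : k)))

theorem tc4_int (b : 𝓞 k) : Rs4 P f (b : k) (f b) := ⟨b, rfl, Or.inl (sub_self _)⟩

theorem tc4_in {a : k} (h : 0 ≤ ord P a) : ∃ r, Rs4 P f a r := by
  obtain ⟨b, hb⟩ := ord_apx P h 1
  refine ⟨f b, b, rfl, ?_⟩
  rcases hb with hb | hb
  · exact Or.inl (sub_eq_zero.2 hb)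
  · exact Or.inr (by exact_mod_cast hb)

theorem tc4_add {a a' : k} {r r' : F} (h : Rs4 P f a r) (h' : Rs4 P f a' r') :
    Rs4 P f (a + a') (r + r') := by
  obtain ⟨b, rfl, hb⟩ := h
  obtain ⟨b', rfl, hb'⟩ := h'
  refine ⟨b + b', map_add f b b', ?_⟩
  have e : a + a' - ((b + b' : 𝓞 k) : k) = (a - (b : k)) + (a' - (b' : k)) := by
    have e1 : ((b + b' : 𝓞 k) : k) = (b : k) + (b' : k) := map_add (algebraMap (𝓞 k) k) b b'
    rw [e1]
    ring
  rw [e]
  exact le_ord_add P 1 hb hb'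

theorem tc4_inn {a : k} {r : F} (h : Rs4 P f a r) : a = 0 ∨ 0 ≤ ord P a := by
  obtain ⟨b, -, hb⟩ := h
  have h1 := le_ord_add P (a := a - (b : k)) (b := (b : k)) 0 (sqr_mono P (by norm_num) hb)
    (Or.inr (ord_int_nonneg P b))
  rw [sub_add_cancel] at h1
  exact h1

theorem tc4_mul {a a' : k} {r r' : F} (h : Rs4 P f a r) (h' : Rs4 P f a' r') :
    Rs4 P f (a * a') (r * r') := by
  have hi := tc4_inn h'
  obtain ⟨b, rfl, hb⟩ := h
  obtain ⟨b', rfl, hb'⟩ := h'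
  refine ⟨b * b', map_mul f b b', ?_⟩
  have e : a * a' - ((b * b' : 𝓞 k) : k) = (a - (b : k)) * a' + (b : k) * (a' - (b' : k)) := by
    have e1 : ((b * b' : 𝓞 k) : k) = (b : k) * (b' : k) := map_mul (algebraMap (𝓞 k) k) b b'
    rw [e1]
    ring
  rw [e]
  have h1 := sqr_prod P hb hi
  have h2 := sqr_prod P (x := (b : k)) (n := 0) (Or.inr (ord_int_nonneg P b)) hb'
  rw [add_zero] at h1
  rw [zero_add] at h2
  exact le_ord_add P 1 h1 h2

theorem tc4_neg {a : k} {r : F} (h : Rs4 P f a r) : Rs4 P f (-a) (-r) := by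
  have h1 := tc4_mul (tc4_int (P := P) (f := f) (-1)) h
  have e1 : ((-1 : 𝓞 k) : k) = -1 := by
    have e2 : ((-1 : 𝓞 k) : k) = -((1 : 𝓞 k) : k) := map_neg (algebraMap (𝓞 k) k) 1
    rw [e2]
    exact congrArg Neg.neg (map_one (algebraMap (𝓞 k) k))
  rw [e1, map_neg, map_one, neg_one_mul, neg_one_mul] at h1
  exact h1

theorem tc4_sub {a a' : k} {r r' : F} (h : Rs4 P f a r) (h' : Rs4 P f a' r') :
    Rs4 P f (a - a') (r - r') := by
  rw [sub_eq_add_neg, sub_eq_add_neg]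
  exact tc4_add h (tc4_neg h')

theorem tc4_two : Rs4 P f (2 : k) (2 : F) := by
  have h1 := tc4_int (P := P) (f := f) (2 : 𝓞 k)
  have e1 : ((2 : 𝓞 k) : k) = 2 := map_ofNat (algebraMap (𝓞 k) k) 2
  rw [e1, map_ofNat] at h1
  exact h1

theorem tc4_zero (hker : ∀ b, f b = 0 ↔ b ∈ P.asIdeal) {a : k} {r : F} (h : Rs4 P f a r) :
    r = 0 ↔ (a = 0 ∨ 1 ≤ ord P a) := by
  obtain ⟨b, rfl, hb⟩ := h
  have h1 : f b = 0 ↔ ((b : k) = 0 ∨ 1 ≤ ord P (b : k)) := by
    rw [hker]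
    have h2 := le_ord_iff P b 1
    rw [pow_one] at h2
    rw [← h2]
    have h3 : (b : k) = 0 ↔ b = 0 := by
      constructor
      · intro h
        exact RingOfIntegers.ext (by rw [h]; exact (map_zero (algebraMap (𝓞 k) k)).symm)
      · rintro rfl
        exact map_zero (algebraMap (𝓞 k) k)
    rw [h3]
    exact Iff.rfl
  rw [h1]
  constructor
  · intro h2
    have h3 := le_ord_add P 1 hb h2
    rwa [sub_add_cancel] at h3
  · intro h2
    have h4 : -(a - (b : k)) = 0 ∨ 1 ≤ ord P (-(a - (b : k))) := by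
      rw [neg_eq_zero, ord_neg]
      exact hb
    have h3 := le_ord_add P 1 h4 h2
    have e : -(a - (b : k)) + a = (b : k) := by ring
    rwa [e] at h3

theorem tc4_ne (hker : ∀ b, f b = 0 ↔ b ∈ P.asIdeal) {a : k} {r : F} (h : Rs4 P f a r)
    (ha : a ≠ 0) (ho : ord P a = 0) : r ≠ 0 := by
  intro h0
  rcases (tc4_zero hker h).1 h0 with h1 | h1
  · exact ha h1
  · omega

theorem tc4_unit (hker : ∀ b, f b = 0 ↔ b ∈ P.asIdeal) {a : k} {r : F} (h : Rs4 P f a r)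
    (hr : r ≠ 0) : a ≠ 0 ∧ ord P a = 0 := by
  have h1 : ¬ (a = 0 ∨ 1 ≤ ord P a) := fun h0 => hr ((tc4_zero hker h).2 h0)
  push Not at h1
  have h2 := (tc4_inn h).resolve_left h1.1
  exact ⟨h1.1, by omega⟩

/-- the residue field -/
theorem tc4_exists (P : HeightOneSpectrum (𝓞 k)) : ∃ (F : Type) (_ : Field F) (_ : Finite F)
    (f : 𝓞 k →+* F), (∀ b, f b = 0 ↔ b ∈ P.asIdeal) ∧ Function.Surjective f ∧
      Nat.card F = nrm P := by
  let _ : Field (𝓞 k ⧸ P.asIdeal) := @Ideal.Quotient.field _ _ P.asIdeal P.isMaximal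
  refine ⟨𝓞 k ⧸ P.asIdeal, inferInstance, Ideal.finiteQuotientOfFreeOfNeBot _ P.ne_bot,
    Ideal.Quotient.mk P.asIdeal, fun b => Ideal.Quotient.eq_zero_iff_mem,
    Ideal.Quotient.mk_surjective, ?_⟩
  unfold nrm
  rw [Ideal.absNorm_apply]
  rfl

end

/-! ### traces -/

section

variable {k L : Type} [Field k] [NumberField k] [Field L] [NumberField L] [Algebra k L]

private theorem tc4_tr {d : kˣ} {δ : L} (h : QE d δ) {σ : L ≃ₐ[k] L} (hσ : σ δ = -δ)
    (hall : ∀ τ : L ≃ₐ[k] L, τ = 1 ∨ τ = σ) (z : L) :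
    algebraMap k L (Algebra.trace k L z) = z + σ z := by
  classical
  have : Algebra.IsQuadraticExtension k L := { finrank_eq_two' := h.deg }
  have : FiniteDimensional k L := inferInstance
  rw [trace_eq_sum_automorphisms]
  have hne : (1 : L ≃ₐ[k] L) ≠ σ := by
    rintro rfl
    have h2 : δ = -δ := by simpa using hσ
    exact Pool.Agent.H98.MF.B.qe_ne_zero h (self_eq_neg.1 h2)
  have hu : (Finset.univ : Finset (L ≃ₐ[k] L)) = {1, σ} := by
    ext τ
    simpa using hall τ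
  rw [hu, Finset.sum_pair hne]
  rfl

/-- the form in coordinates -/
theorem tc4_form {d : kˣ} {δ : L} (h : QE d δ) (x y A B : k) :
    Tq k (algebraMap k L x + algebraMap k L y * δ) (algebraMap k L A + algebraMap k L B * δ) =
      2 * (x * A ^ 2 + 2 * d * y * A * B + d * x * B ^ 2) := by
  obtain ⟨σ, hσ, -, hall, -⟩ := Pool.Agent.H98.MF.B.qe_conj h
  apply (algebraMap k L).injective
  unfold Tq
  rw [tc4_tr h hσ hall]
  have h1 := h.sq
  have h2 : (algebraMap k L (d : k)) = δ ^ 2 := h1.symm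
  simp only [map_add, map_mul, map_pow, hσ, AlgEquiv.commutes, map_ofNat, h2]
  ring

theorem lu (h : StFF) : StLU k L := by
  intro d δ hQ p h2 hd h7 γ hγ c hc
  obtain ⟨σ, hσ, hσσ, hall, hnorm⟩ := Pool.Agent.H98.MF.B.qe_conj hQ
  obtain ⟨x, y, hxy⟩ := Pool.Agent.H98.MF.B.qe_repr hQ (γ : L)
  have oMap : ∀ Q : HeightOneSpectrum (𝓞 L), Over p Q → ∀ t : k,
      ord Q (algebraMap k L t) = ord p t := fun Q hQ' t =>
    Pool.Agent.H98.MF.B.qe_ord_of_even hQ hQ' h2 (by rw [hd]; exact ⟨0, rfl⟩) t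
  have hδ0 : δ ≠ 0 := Pool.Agent.H98.MF.B.qe_ne_zero hQ
  have h20 : (2 : k) ≠ 0 := two_ne_zero
  have oδ : ∀ Q : HeightOneSpectrum (𝓞 L), Over p Q → ord Q δ = 0 := by
    intro Q hQ'
    have h1 := ord_pow Q δ 2
    rw [hQ.sq, oMap Q hQ', hd] at h1
    push_cast at h1
    omega
  have hγ0 : (γ : L) ≠ 0 := γ.ne_zero
  have hσγ0 : σ (γ : L) ≠ 0 := by
    simp
  have hσγ : σ (γ : L) = algebraMap k L x - algebraMap k L y * δ := by
    rw [hxy]
    simp only [map_add, map_mul, hσ, AlgEquiv.commutes]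
    ring
  have oσ : ∀ Q : HeightOneSpectrum (𝓞 L), Over p Q → ord Q (σ (γ : L)) = 0 := by
    intro Q hQ'
    rw [← ord_cj]
    exact hγ.2 _ (hQ'.cj σ)
  obtain ⟨Q, hQp⟩ := exists_over (L := L) p
  -- the coordinates are integral
  have hx : 0 ≤ ord p x := by
    by_cases hx0 : x = 0
    · rw [hx0, ord_zero]
    have h3 := le_ord_add Q (a := (γ : L)) (b := σ (γ : L)) 0 (Or.inr (hγ.2 Q hQp).ge)
      (Or.inr (oσ Q hQp).ge)
    have e : (γ : L) + σ (γ : L) = algebraMap k L (2 * x) := by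
      rw [hσγ, map_mul, map_ofNat]
      rw [hxy]
      ring
    rw [e] at h3
    have h4 : algebraMap k L (2 * x) ≠ 0 := by
      simpa using hx0
    have h5 := h3.resolve_left h4
    rw [oMap Q hQp, ord_mul p h20 hx0, h2, zero_add] at h5
    exact h5
  have hy : 0 ≤ ord p y := by
    by_cases hy0 : y = 0
    · rw [hy0, ord_zero]
    have h3 := le_ord_add Q (a := (γ : L)) (b := -σ (γ : L)) 0 (Or.inr (hγ.2 Q hQp).ge)
      (Or.inr (by rw [ord_neg]; exact (oσ Q hQp).ge))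
    have e : (γ : L) + -σ (γ : L) = algebraMap k L (2 * y) * δ := by
      rw [hσγ, map_mul, map_ofNat]
      rw [hxy]
      ring
    rw [e] at h3
    have h4 : algebraMap k L (2 * y) ≠ 0 := by
      simpa using hy0
    have h5 := h3.resolve_left (mul_ne_zero h4 hδ0)
    rw [ord_mul Q h4 hδ0, oδ Q hQp, add_zero, oMap Q hQp, ord_mul p h20 hy0, h2, zero_add] at h5
    exact h5
  have hN : Algebra.norm k (γ : L) = x ^ 2 - d * y ^ 2 := by
    rw [hxy]
    exact Pool.Agent.H98.MF.B.qe_norm_form hQ x y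
  have hN0 : x ^ 2 - d * y ^ 2 ≠ 0 := by
    rw [← hN]
    intro h0
    have h1 := hnorm (γ : L)
    rw [h0, map_zero] at h1
    exact mul_ne_zero hγ0 hσγ0 h1.symm
  have hNo : ord p (x ^ 2 - d * y ^ 2) = 0 := by
    rw [← hN, ← oMap Q hQp, hnorm, ord_mul Q hγ0 hσγ0, hγ.2 Q hQp, oσ Q hQp, add_zero]
  -- residues
  obtain ⟨F, iF, fF, f, hker, hsurj, hcard⟩ := tc4_exists p
  obtain ⟨rx, hrx⟩ := tc4_in (P := p) (f := f) hx
  obtain ⟨ry, hry⟩ := tc4_in (P := p) (f := f) hy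
  obtain ⟨rd, hrd⟩ := tc4_in (P := p) (f := f) hd.ge
  obtain ⟨rc, hrc⟩ := tc4_in (P := p) (f := f) hc.ge
  have h2F : (2 : F) ≠ 0 := tc4_ne hker tc4_two h20 h2
  have hrd0 : rd ≠ 0 := tc4_ne hker hrd d.ne_zero hd
  have hrc0 : rc ≠ 0 := tc4_ne hker hrc c.ne_zero hc
  have sqR : ∀ {a : k} {r : F}, Rs4 p f a r → Rs4 p f (a ^ 2) (r ^ 2) := by
    intro a r h0
    rw [pow_two, pow_two]
    exact tc4_mul h0 h0
  have hrN : rx ^ 2 - rd * ry ^ 2 ≠ 0 :=
    tc4_ne hker (tc4_sub (sqR hrx) (tc4_mul hrd (sqR hry))) hN0 hNo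
  obtain ⟨A', B', Z', hAB, hZ, he⟩ := h F h2F (hcard ▸ h7) rd rx ry rc hrd0 hrN hrc0
  obtain ⟨A, rfl⟩ := hsurj A'
  obtain ⟨B, rfl⟩ := hsurj B'
  obtain ⟨Z, rfl⟩ := hsurj Z'
  have hA := tc4_int (P := p) (f := f) A
  have hB := tc4_int (P := p) (f := f) B
  have hZr := tc4_int (P := p) (f := f) Z
  obtain ⟨hZ0, hZo⟩ := tc4_unit hker hZr hZ
  obtain ⟨hM0, hMo⟩ := tc4_unit hker (tc4_sub (sqR hA) (tc4_mul hrd (sqR hB))) hAB
  -- the element
  set w : L := algebraMap k L (A : k) + algebraMap k L (B : k) * δ with hw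
  have hNw : Algebra.norm k w = (A : k) ^ 2 - d * (B : k) ^ 2 :=
    Pool.Agent.H98.MF.B.qe_norm_form hQ _ _
  have hw0 : w ≠ 0 := by
    intro h0
    rw [h0, Algebra.norm_zero] at hNw
    exact hM0 hNw.symm
  have hσw0 : σ w ≠ 0 := by
    simpa using hw0
  have hσw : σ w = algebraMap k L (A : k) - algebraMap k L (B : k) * δ := by
    rw [hw]
    simp only [map_add, map_mul, hσ, AlgEquiv.commutes]
    ring
  have hin : ∀ Q : HeightOneSpectrum (𝓞 L), Over p Q → ord Q w = 0 := by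
    intro Q hQ'
    have hA1 : algebraMap k L (A : k) = 0 ∨ 0 ≤ ord Q (algebraMap k L (A : k)) := by
      right
      rw [oMap Q hQ']
      exact ord_int_nonneg p A
    have hB1 : algebraMap k L (B : k) * δ = 0 ∨ 0 ≤ ord Q (algebraMap k L (B : k) * δ) := by
      have h3 := sqr_prod Q (x := algebraMap k L (B : k)) (y := δ) (n := 0) (m := 0)
        (Or.inr (by rw [oMap Q hQ']; exact ord_int_nonneg p B)) (Or.inr (oδ Q hQ').ge)
      rw [add_zero] at h3
      exact h3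
    have hB2 : -(algebraMap k L (B : k) * δ) = 0 ∨
        0 ≤ ord Q (-(algebraMap k L (B : k) * δ)) := by
      rw [neg_eq_zero, ord_neg]
      exact hB1
    have h3 := (le_ord_add Q 0 hA1 hB1).resolve_left hw0
    have h4 := le_ord_add Q 0 hA1 hB2
    rw [← sub_eq_add_neg, ← hσw] at h4
    have h5 := h4.resolve_left hσw0
    have h6 : ord Q (algebraMap k L (Algebra.norm k w)) = 0 := by
      rw [oMap Q hQ', hNw, hMo]
    rw [hnorm, ord_mul Q hw0 hσw0] at h6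
    have h7 : 0 ≤ ord Q w := h3
    omega
  have hT : Tq k (γ : L) w =
      2 * (x * (A : k) ^ 2 + 2 * d * y * A * B + d * x * (B : k) ^ 2) := by
    rw [hxy, hw]
    exact tc4_form hQ x y A B
  have hTr : Rs4 p f (Tq k (γ : L) w) (rc * f Z ^ 2) := by
    rw [hT, ← he]
    exact tc4_mul tc4_two (tc4_add (tc4_add (tc4_mul hrx (sqR hA))
      (tc4_mul (tc4_mul (tc4_mul (tc4_mul tc4_two hrd) hry) hA) hB))
      (tc4_mul (tc4_mul hrd hrx) (sqR hB)))
  have hcZ : Rs4 p f ((c : k) * (Z : k) ^ 2) (rc * f Z ^ 2) := tc4_mul hrc (sqR hZr)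
  obtain ⟨hT0, hTo⟩ := tc4_unit hker hTr (mul_ne_zero hrc0 (pow_ne_zero 2 hZ))
  have hD := (tc4_zero hker (tc4_sub hTr hcZ)).1 (sub_self _)
  have hc0 : (c : k) ≠ 0 := c.ne_zero
  have hcZ0 : (c : k) * (Z : k) ^ 2 ≠ 0 := mul_ne_zero hc0 (pow_ne_zero 2 hZ0)
  have hcZo : ord p ((c : k) * (Z : k) ^ 2) = 0 := by
    rw [ord_mul p hc0 (pow_ne_zero 2 hZ0), ord_pow, hc, hZo]
    norm_num
  refine ⟨Units.mk0 w hw0, ?_, ⟨hw0, hin⟩, ?_⟩
  · show LocSq p ((c : k) * Tq k (γ : L) w)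
    have h3 : LocSq p (1 + (Tq k (γ : L) w - c * (Z : k) ^ 2) / (c * (Z : k) ^ 2)) := by
      refine locSq_one_add p ?_
      rw [h2]
      rcases hD with h4 | h4
      · left
        rw [h4, zero_div]
      · by_cases h5 : Tq k (γ : L) w - c * (Z : k) ^ 2 = 0
        · left
          rw [h5, zero_div]
        · right
          rw [ord_div p h5 hcZ0, hcZo]
          omega
    have h4 := (locSq_mul_sq p (mul_ne_zero hc0 hZ0) _).2 h3
    have e : (1 + (Tq k (γ : L) w - c * (Z : k) ^ 2) / (c * (Z : k) ^ 2)) *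
        ((c : k) * (Z : k)) ^ 2 = (c : k) * Tq k (γ : L) w := by
      field_simp
      ring
    rw [e] at h4
    exact h4
  · show ord p (Tq k (γ : L) w) = ord p (c : k)
    rw [hTo, hc]

end

end Pool.Agent.SK.TC
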