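import Pool.Agent.SK.TCDefs
import Pool.Agent.H98.MF.L.Sqr
import Pool.Agent.H98.MF.C.C3b

/-!
# Malle's conjecture for 8T8 over number fields, part TD: row TC5, local solutions when the
element has order one
-/

set_option autoImplicit false

open scoped BigOperators
open NumberField IsDedekindDomain

namespace Pool.Agent.SK.TC

open Pool.Agent.H98.MF

/-! ### orders and the residue field -/

section

variable {k : Type} [Field k] [NumberField k]

theorem tc5_mul (P : HeightOneSpectrum (𝓞 k)) {a b : k} {m n : ℤ} (ha : a = 0 ∨ m ≤ ord P a)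
    (hb : b = 0 ∨ n ≤ ord P b) : a * b = 0 ∨ m + n ≤ ord P (a * b) := by
  by_cases h1 : a = 0
  · left
    rw [h1, zero_mul]
  by_cases h2 : b = 0
  · left
    rw [h2, mul_zero]
  right
  rw [ord_mul P h1 h2]
  have ha' := ha.resolve_left h1
  have hb' := hb.resolve_left h2
  omega

/-- the valuation ring -/
noncomputable abbrev tc5A (P : HeightOneSpectrum (𝓞 k)) : ValuationSubring k :=
  (P.valuation k).valuationSubring

theorem tc5_mem (P : HeightOneSpectrum (𝓞 k)) {a : k} :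
    a ∈ tc5A P ↔ (a = 0 ∨ 0 ≤ ord P a) := by
  rw [Valuation.mem_valuationSubring_iff]
  have h := le_ord_iff_valuation P a 0
  rw [neg_zero, WithZero.exp_zero] at h
  exact h.symm

theorem tc5_lt (P : HeightOneSpectrum (𝓞 k)) (a : k) :
    P.valuation k a < 1 ↔ (a = 0 ∨ 1 ≤ ord P a) := by
  by_cases h : a = 0
  · simp [h]
  · rw [valuation_eq P h, ← WithZero.exp_zero, WithZero.exp_lt_exp]
    constructor
    · intro h1
      right
      omega
    · rintro (h1 | h1)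
      · exact absurd h1 h
      · omega

theorem tc5_res (P : HeightOneSpectrum (𝓞 k)) (a : tc5A P) :
    IsLocalRing.residue (tc5A P) a = 0 ↔ ((a : k) = 0 ∨ 1 ≤ ord P (a : k)) := by
  rw [IsLocalRing.residue_eq_zero_iff, Valuation.mem_maximalIdeal_iff, tc5_lt]

theorem tc5_ne (P : HeightOneSpectrum (𝓞 k)) (a : tc5A P) (h0 : (a : k) ≠ 0)
    (h : ord P (a : k) = 0) : IsLocalRing.residue (tc5A P) a ≠ 0 := by
  rw [ne_eq, tc5_res, not_or]
  exact ⟨h0, by omega⟩

theorem tc5_of_ne (P : HeightOneSpectrum (𝓞 k)) (a : tc5A P)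
    (h : IsLocalRing.residue (tc5A P) a ≠ 0) : (a : k) ≠ 0 ∧ ord P (a : k) = 0 := by
  rw [ne_eq, tc5_res, not_or] at h
  have h1 := ((tc5_mem P).1 a.2).resolve_left h.1
  exact ⟨h.1, by omega⟩

/-- the local solution modulo the prime -/
theorem tc5_AB (h : StFQ) (P : HeightOneSpectrum (𝓞 k)) (h2 : ord P (2 : k) = 0) {d x y : k}
    (hd0 : d ≠ 0) (hd : ord P d = 0) (hx : x = 0 ∨ 0 ≤ ord P x) (hy : y = 0 ∨ 0 ≤ ord P y)
    (hn0 : x ^ 2 - d * y ^ 2 ≠ 0) (hn : ord P (x ^ 2 - d * y ^ 2) = 0)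
    (hl : LocSq P (-(d * (x ^ 2 - d * y ^ 2)))) :
    ∃ a b : k, (a = 0 ∨ 0 ≤ ord P a) ∧ (b = 0 ∨ 0 ≤ ord P b) ∧ a ^ 2 - d * b ^ 2 ≠ 0 ∧
      ord P (a ^ 2 - d * b ^ 2) = 0 ∧
      (x * a ^ 2 + 2 * d * y * a * b + d * x * b ^ 2 = 0 ∨
        1 ≤ ord P (x * a ^ 2 + 2 * d * y * a * b + d * x * b ^ 2)) := by
  obtain ⟨c, hc⟩ := hl 1
  obtain ⟨hc1, hc2⟩ := sqr_unit P (by norm_num) hc
  have haa0 : -(d * (x ^ 2 - d * y ^ 2)) ≠ 0 := neg_ne_zero.2 (mul_ne_zero hd0 hn0)
  have haa : ord P (-(d * (x ^ 2 - d * y ^ 2))) = 0 := by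
    rw [ord_neg, ord_mul P hd0 hn0, hd, hn, add_zero]
  have hc0 : c ≠ 0 := by
    rintro rfl
    apply hc1
    ring
  have hoc : ord P c = 0 := by
    rw [ord_mul P haa0 (pow_ne_zero 2 hc0), haa, ord_pow, zero_add] at hc2
    have h3 : ((2 : ℕ) : ℤ) * ord P c = 0 := hc2
    push_cast at h3
    omega
  let X : tc5A P := ⟨x, (tc5_mem P).2 hx⟩
  let Y : tc5A P := ⟨y, (tc5_mem P).2 hy⟩
  let D : tc5A P := ⟨d, (tc5_mem P).2 (Or.inr hd.ge)⟩
  let C : tc5A P := ⟨c, (tc5_mem P).2 (Or.inr hoc.ge)⟩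
  have r2 : (2 : IsLocalRing.ResidueField (tc5A P)) ≠ 0 := by
    have h3 := tc5_ne P (2 : tc5A P) (two_ne_zero : (2 : k) ≠ 0) h2
    rwa [map_ofNat] at h3
  have rD : IsLocalRing.residue (tc5A P) D ≠ 0 := tc5_ne P D hd0 hd
  have rC : IsLocalRing.residue (tc5A P) C ≠ 0 := tc5_ne P C hc0 hoc
  have rN : IsLocalRing.residue (tc5A P) (X ^ 2 - D * Y ^ 2) ≠ 0 :=
    tc5_ne P (X ^ 2 - D * Y ^ 2) hn0 hn
  have rE : IsLocalRing.residue (tc5A P) (-(D * (X ^ 2 - D * Y ^ 2)) * C ^ 2 - 1) = 0 := by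
    rw [tc5_res]
    show -(d * (x ^ 2 - d * y ^ 2)) * c ^ 2 - 1 = 0 ∨
      1 ≤ ord P (-(d * (x ^ 2 - d * y ^ 2)) * c ^ 2 - 1)
    rcases hc with hc | hc
    · left
      rw [hc, sub_self]
    · right
      exact_mod_cast hc
  rw [map_sub, map_mul, map_neg, map_mul, map_sub, map_pow, map_mul, map_pow, map_pow, map_one,
    sub_eq_zero] at rE
  rw [map_sub, map_pow, map_mul, map_pow] at rN
  obtain ⟨a', b', h4, h5⟩ := h _ r2 (IsLocalRing.residue (tc5A P) D)
    (IsLocalRing.residue (tc5A P) X) (IsLocalRing.residue (tc5A P) Y)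
    (IsLocalRing.residue (tc5A P) C)⁻¹ rD rN (by
      rw [inv_pow]
      exact eq_inv_of_mul_eq_one_left rE)
  obtain ⟨a, rfl⟩ := IsLocalRing.residue_surjective a'
  obtain ⟨b, rfl⟩ := IsLocalRing.residue_surjective b'
  have e4 : IsLocalRing.residue (tc5A P) (a ^ 2 - D * b ^ 2) ≠ 0 := by
    rw [map_sub, map_pow, map_mul, map_pow]
    exact h4
  have e5 : IsLocalRing.residue (tc5A P)
      (X * a ^ 2 + 2 * D * Y * a * b + D * X * b ^ 2) = 0 := by
    simp only [map_add, map_mul, map_pow, map_ofNat]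
    exact h5
  obtain ⟨f1, f2⟩ := tc5_of_ne P _ e4
  rw [tc5_res] at e5
  exact ⟨a, b, (tc5_mem P).1 a.2, (tc5_mem P).1 b.2, f1, f2, e5⟩

end

/-! ### traces -/

section

variable {k L : Type} [Field k] [NumberField k] [Field L] [NumberField L] [Algebra k L]

/-- the trace of a quadratic extension -/
theorem tc5_tr {d : kˣ} {δ : L} (h : QE d δ) (σ : L ≃ₐ[k] L) (hσ : σ δ = -δ)
    (hall : ∀ τ : L ≃ₐ[k] L, τ = 1 ∨ τ = σ) (z : L) :
    algebraMap k L (Algebra.trace k L z) = z + σ z := by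
  classical
  have : Algebra.IsQuadraticExtension k L := { finrank_eq_two' := h.deg }
  have : FiniteDimensional k L := inferInstance
  rw [trace_eq_sum_automorphisms]
  have hne : (1 : L ≃ₐ[k] L) ≠ σ := by
    rintro rfl
    have h2 : δ = -δ := by simpa using hσ
    have h3 : δ = 0 := self_eq_neg.1 h2
    exact qx_not_range h.sq (B.qe_ns h) 0 (by rw [h3, map_zero])
  have hu : (Finset.univ : Finset (L ≃ₐ[k] L)) = {1, σ} := by
    ext τ
    simpa using hall τ
  rw [hu, Finset.sum_pair hne]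
  rfl

/-- the trace in coordinates -/
theorem tc5_tr2 {d : kˣ} {δ : L} (h : QE d δ) (x y : k) :
    Algebra.trace k L (algebraMap k L x + algebraMap k L y * δ) = 2 * x := by
  obtain ⟨σ, h1, h2, h3, h4⟩ := B.qe_conj h
  apply (algebraMap k L).injective
  rw [tc5_tr h σ h1 h3]
  simp only [map_add, map_mul, h1, AlgEquiv.commutes, map_ofNat]
  ring

/-- traces of integral elements are integral -/
theorem tc5_int {d : kˣ} {δ : L} (h : QE d δ) {p : HeightOneSpectrum (𝓞 k)}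
    (h2 : ord p (2 : k) = 0) (hd : ord p (d : k) = 0) {z : L}
    (hz : ∀ Q : HeightOneSpectrum (𝓞 L), Over p Q → z = 0 ∨ 0 ≤ ord Q z) :
    Algebra.trace k L z = 0 ∨ 0 ≤ ord p (Algebra.trace k L z) := by
  obtain ⟨σ, h1, h2', h3, h4⟩ := B.qe_conj h
  obtain ⟨Q, hQ⟩ := exists_over (L := L) p
  have hev : Even (ord p (d : k)) := by
    rw [hd]
    exact ⟨0, rfl⟩
  have e1 := tc5_tr h σ h1 h3 z
  have e2 : σ z = 0 ∨ 0 ≤ ord Q (σ z) := by
    rcases hz (cj σ Q) (hQ.cj σ) with h5 | h5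
    · left
      rw [h5, map_zero]
    · right
      rwa [← ord_cj σ Q z]
  have e3 := le_ord_add Q 0 (hz Q hQ) e2
  rw [← e1] at e3
  rcases e3 with h5 | h5
  · left
    exact (map_eq_zero (algebraMap k L)).1 h5
  · right
    rwa [B.qe_ord_of_even h hQ h2 hev] at h5

end

/-! ### the theorem -/

/-- TC5: local solutions, the element has order one -/
theorem lq {k L : Type} [Field k] [NumberField k] [Field L] [NumberField L] [Algebra k L]
    (h : StFQ) : StLQ k L := by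
  intro d δ hE p h2 hd γ hγ hls c hc
  obtain ⟨σ, hσ, hσσ, hall, hnm⟩ := B.qe_conj hE
  have hev : Even (ord p (d : k)) := by
    rw [hd]
    exact ⟨0, rfl⟩
  have hord : ∀ Q : HeightOneSpectrum (𝓞 L), Over p Q → ∀ x : k,
      ord Q (algebraMap k L x) = ord p x := fun Q hQ x => B.qe_ord_of_even hE hQ h2 hev x
  have hd0 : (d : k) ≠ 0 := d.ne_zero
  have hγ0 : (γ : L) ≠ 0 := γ.ne_zero
  have hδ0 : δ ≠ 0 := by
    rintro rfl
    exact qx_not_range hE.sq (B.qe_ns hE) 0 (by rw [map_zero])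
  have hδ : ∀ Q : HeightOneSpectrum (𝓞 L), Over p Q → ord Q δ = 0 := by
    intro Q hQ
    have e1 := ord_pow Q δ 2
    rw [hE.sq, hord Q hQ, hd] at e1
    push_cast at e1
    omega
  -- coordinates of `γ`
  obtain ⟨x, y, hxy⟩ := B.qe_repr hE (γ : L)
  have hN : Algebra.norm k (γ : L) = x ^ 2 - (d : k) * y ^ 2 := by
    rw [hxy]
    exact B.qe_norm_form hE x y
  have h4 : ord p (4 : k) = 0 := by
    have e : (4 : k) = 2 ^ 2 := by norm_num
    rw [e, ord_pow, h2, mul_zero]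
  have hx : x = 0 ∨ 0 ≤ ord p x := by
    have e1 := tc5_int hE h2 hd (z := (γ : L)) fun Q hQ => Or.inr (hγ.2 Q hQ).ge
    rw [hxy, tc5_tr2 hE] at e1
    by_cases hx0 : x = 0
    · exact Or.inl hx0
    · rcases e1 with e1 | e1
      · exact absurd e1 (mul_ne_zero two_ne_zero hx0)
      · rw [ord_mul p two_ne_zero hx0, h2, zero_add] at e1
        exact Or.inr e1
  have hy : y = 0 ∨ 0 ≤ ord p y := by
    have e1 := tc5_int hE h2 hd (z := (γ : L) * δ) fun Q hQ => Or.inr (by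
      rw [ord_mul Q hγ0 hδ0, hγ.2 Q hQ, hδ Q hQ]
      exact le_rfl)
    have e2 : (γ : L) * δ = algebraMap k L ((d : k) * y) + algebraMap k L x * δ := by
      rw [hxy, map_mul, ← hE.sq]
      ring
    rw [e2, tc5_tr2 hE] at e1
    by_cases hy0 : y = 0
    · exact Or.inl hy0
    · rcases e1 with e1 | e1
      · exact absurd e1 (mul_ne_zero two_ne_zero (mul_ne_zero hd0 hy0))
      · rw [ord_mul p two_ne_zero (mul_ne_zero hd0 hy0), h2, zero_add, ord_mul p hd0 hy0, hd,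
          zero_add] at e1
        exact Or.inr e1
  have hn0 : x ^ 2 - (d : k) * y ^ 2 ≠ 0 := by
    rw [← hN]
    intro e
    have e1 := hnm (γ : L)
    rw [e, map_zero] at e1
    rcases mul_eq_zero.1 e1.symm with e2 | e2
    · exact hγ0 e2
    · exact hγ0 ((map_eq_zero σ).1 e2)
  have hn : ord p (x ^ 2 - (d : k) * y ^ 2) = 0 := by
    obtain ⟨Q, hQ⟩ := exists_over (L := L) p
    have hσ0 : σ (γ : L) ≠ 0 := fun e => hγ0 ((map_eq_zero σ).1 e)
    rw [← hN, ← hord Q hQ, hnm, ord_mul Q hγ0 hσ0, hγ.2 Q hQ, ← ord_cj σ Q,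
      hγ.2 _ (hQ.cj σ), add_zero]
  rw [hN] at hls
  obtain ⟨a, b, ha, hb, hab0, hab, hS⟩ := tc5_AB h p h2 hd0 hd hx hy hn0 hn hls
  -- the element `z₀`
  set z₀ : L := algebraMap k L a + algebraMap k L b * δ with hz₀
  have hNz : Algebra.norm k z₀ = a ^ 2 - (d : k) * b ^ 2 := B.qe_norm_form hE a b
  have hz0 : z₀ ≠ 0 := by
    intro e
    apply hab0
    have e1 := hnm z₀
    rw [hNz, e, zero_mul] at e1
    exact (map_eq_zero (algebraMap k L)).1 e1
  have hzi : ∀ Q : HeightOneSpectrum (𝓞 L), Over p Q → 0 ≤ ord Q z₀ := by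
    intro Q hQ
    have i1 : algebraMap k L a = 0 ∨ 0 ≤ ord Q (algebraMap k L a) := by
      rw [hord Q hQ]
      rcases ha with e | e
      · left
        rw [e, map_zero]
      · exact Or.inr e
    have i2 : algebraMap k L b = 0 ∨ 0 ≤ ord Q (algebraMap k L b) := by
      rw [hord Q hQ]
      rcases hb with e | e
      · left
        rw [e, map_zero]
      · exact Or.inr e
    have i3 := tc5_mul Q i2 (Or.inr (hδ Q hQ).ge : δ = 0 ∨ 0 ≤ ord Q δ)
    rw [add_zero] at i3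
    exact (le_ord_add Q 0 i1 i3).resolve_left hz0
  have hzu : ∀ Q : HeightOneSpectrum (𝓞 L), Over p Q → ord Q z₀ = 0 := by
    intro Q hQ
    have hσ0 : σ z₀ ≠ 0 := fun e => hz0 ((map_eq_zero σ).1 e)
    have e1 := hord Q hQ (Algebra.norm k z₀)
    rw [hnm, ord_mul Q hz0 hσ0, hNz, hab, ← ord_cj σ Q] at e1
    have e2 := hzi Q hQ
    have e3 := hzi _ (hQ.cj σ)
    omega
  -- its trace
  set S : k := x * a ^ 2 + 2 * (d : k) * y * a * b + (d : k) * x * b ^ 2 with hSd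
  have hT : Algebra.trace k L ((γ : L) * z₀ ^ 2) = 2 * S := by
    have e1 : (γ : L) * z₀ ^ 2 = algebraMap k L S +
        algebraMap k L (y * a ^ 2 + 2 * x * a * b + (d : k) * y * b ^ 2) * δ := by
      have e2 : δ ^ 2 = algebraMap k L (d : k) := hE.sq
      rw [hxy, hz₀, hSd]
      simp only [map_add, map_mul, map_pow, map_ofNat]
      linear_combination ((algebraMap k L x) * (algebraMap k L b) ^ 2 +
        2 * (algebraMap k L y) * (algebraMap k L a) * (algebraMap k L b) +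
        (algebraMap k L y) * (algebraMap k L b) ^ 2 * δ) * e2
    rw [e1, tc5_tr2 hE]
  -- the correction
  set u : k := ((c : k) - 2 * S) / 4 with hu
  have h40 : (4 : k) ≠ 0 := by norm_num
  have hu1 : u = 0 ∨ 1 ≤ ord p u := by
    have i1 : -(2 * S) = 0 ∨ 1 ≤ ord p (-(2 * S)) := by
      rw [ord_neg]
      have i2 := tc5_mul p (Or.inr h2.ge : (2 : k) = 0 ∨ 0 ≤ ord p (2 : k)) hS
      rw [zero_add] at i2
      rcases i2 with e | e
      · left
        rw [e, neg_zero]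
      · exact Or.inr e
    have i3 := le_ord_add p 1 (Or.inr hc.ge : (c : k) = 0 ∨ 1 ≤ ord p (c : k)) i1
    rw [← sub_eq_add_neg] at i3
    by_cases h0 : (c : k) - 2 * S = 0
    · left
      rw [hu, h0, zero_div]
    · right
      rw [hu, ord_div p h0 h40, h4, sub_zero]
      exact i3.resolve_left h0
  set R : k := Algebra.trace k L ((γ : L) * z₀ ^ 2)⁻¹ with hRd
  have hγz : (γ : L) * z₀ ^ 2 ≠ 0 := mul_ne_zero hγ0 (pow_ne_zero 2 hz0)
  have hR : R = 0 ∨ 0 ≤ ord p R := by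
    refine tc5_int hE h2 hd fun Q hQ => Or.inr ?_
    rw [ord_inv, ord_mul Q hγ0 (pow_ne_zero 2 hz0), ord_pow, hγ.2 Q hQ, hzu Q hQ]
    simp
  set w : L := z₀ + algebraMap k L u * ((γ : L) * z₀)⁻¹ with hw
  have hwu : ∀ Q : HeightOneSpectrum (𝓞 L), Over p Q → w ≠ 0 ∧ ord Q w = 0 := by
    intro Q hQ
    have i1 : algebraMap k L u = 0 ∨ 1 ≤ ord Q (algebraMap k L u) := by
      rw [hord Q hQ]
      rcases hu1 with e | e
      · left
        rw [e, map_zero]
      · exact Or.inr e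
    have i2 : ((γ : L) * z₀)⁻¹ = 0 ∨ 0 ≤ ord Q ((γ : L) * z₀)⁻¹ := by
      right
      rw [ord_inv, ord_mul Q hγ0 hz0, hγ.2 Q hQ, hzu Q hQ]
      simp
    have i3 := tc5_mul Q i1 i2
    rw [add_zero] at i3
    have i4 := ord_add_eq Q hz0 (b := algebraMap k L u * ((γ : L) * z₀)⁻¹) (by
      rcases i3 with e | e
      · exact Or.inl e
      · right
        rw [hzu Q hQ]
        omega)
    rw [hzu Q hQ] at i4
    exact i4
  have hw0 : w ≠ 0 := by
    obtain ⟨Q, hQ⟩ := exists_over (L := L) p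
    exact (hwu Q hQ).1
  have hTw : Tq k (γ : L) w = (c : k) + u ^ 2 * R := by
    unfold Tq
    have e1 : (γ : L) * w ^ 2 = (γ : L) * z₀ ^ 2 + algebraMap k L (2 * u) +
        algebraMap k L (u ^ 2) * ((γ : L) * z₀ ^ 2)⁻¹ := by
      rw [hw]
      simp only [map_mul, map_pow, map_ofNat]
      field_simp
      ring
    have e2 : Algebra.trace k L (algebraMap k L (2 * u)) = 4 * u := by
      have e3 := tc5_tr2 hE (2 * u) 0
      rw [map_zero, zero_mul, add_zero] at e3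
      rw [e3]
      ring
    have e3 : Algebra.trace k L (algebraMap k L (u ^ 2) * ((γ : L) * z₀ ^ 2)⁻¹) = u ^ 2 * R := by
      rw [← Algebra.smul_def, map_smul, smul_eq_mul]
    rw [e1, map_add, map_add, hT, e2, e3, hu]
    field_simp
    ring
  have hc0 : (c : k) ≠ 0 := c.ne_zero
  have huR : u ^ 2 * R = 0 ∨ 2 ≤ ord p (u ^ 2 * R) := by
    have i1 := tc5_mul p (tc5_mul p hu1 hu1) hR
    rw [← pow_two] at i1
    exact i1
  have hTo := ord_add_eq p hc0 (b := u ^ 2 * R) (by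
    rcases huR with e | e
    · exact Or.inl e
    · right
      rw [hc]
      omega)
  refine ⟨Units.mk0 w hw0, ?_, ⟨hw0, fun Q hQ => (hwu Q hQ).2⟩, ?_⟩
  · show LocSq p ((c : k) * Tq k (γ : L) w)
    rw [hTw]
    have e1 : (c : k) * ((c : k) + u ^ 2 * R) = (c : k) ^ 2 * (1 + u ^ 2 * R * (c : k)⁻¹) := by
      field_simp
    rw [e1]
    refine (locSq_sq p hc0).mul (locSq_one_add p ?_)
    have i1 := tc5_mul p huR (Or.inr (by rw [ord_inv, hc]) : (c : k)⁻¹ = 0 ∨ -1 ≤ ord p (c : k)⁻¹)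
    rw [h2]
    rcases i1 with e | e
    · exact Or.inl e
    · right
      omega
  · show ord p (Tq k (γ : L) w) = ord p (c : k)
    rw [hTw]
    exact hTo.2

end Pool.Agent.SK.TC
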