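import Pool.Agent.SK.TC6a

/-!
# Malle's conjecture for 8T8 over number fields, the common trace: local approximation through a
reflection (row TC6)
-/

set_option autoImplicit false

open scoped BigOperators
open NumberField IsDedekindDomain

namespace Pool.Agent.SK.TC

open Pool.Agent.H98.MF

section

variable {k L : Type} [Field k] [NumberField k] [Field L] [NumberField L] [Algebra k L]

theorem wl_two (p : HeightOneSpectrum (𝓞 k)) : 0 ≤ ord p (2 : k) := by
  have h := ord_int_nonneg p (2 : 𝓞 k)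
  have e : ((2 : 𝓞 k) : k) = 2 := map_ofNat (algebraMap (𝓞 k) k) 2
  rwa [e] at h

/-- the choice of the sign -/
theorem wl_sign (p : HeightOneSpectrum (𝓞 k)) {c ε A B : k} (hc : c ≠ 0)
    (hε : wGe p (ord p (2 : k) + 1) ε) (h : A + B = 4 * c + 2 * (c * ε)) :
    (A ≠ 0 ∧ ord p A ≤ ord p (4 * c)) ∨ (B ≠ 0 ∧ ord p B ≤ ord p (4 * c)) := by
  have h4 : (4 : k) * c ≠ 0 := mul_ne_zero (by norm_num) hc
  have h2 : (2 : k) ≠ 0 := two_ne_zero
  have h44 : (4 : k) = 2 * 2 := by norm_num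
  have ho4 : ord p (4 * c) = 2 * ord p (2 : k) + ord p c := by
    rw [h44, ord_mul p (mul_ne_zero h2 h2) hc, ord_mul p h2 h2]
    ring
  have h5 := ord_add_eq p (a := 4 * c) (b := 2 * (c * ε)) h4 (by
    rcases hε with hε | hε
    · left
      rw [hε]
      ring
    · by_cases h0 : ε = 0
      · left
        rw [h0]
        ring
      · right
        rw [ho4, ord_mul p h2 (mul_ne_zero hc h0), ord_mul p hc h0]
        omega)
  rw [← h] at h5
  by_contra hcon
  rw [not_or, not_and_or, not_and_or, not_not, not_not, not_le, not_le] at hcon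
  obtain ⟨hA, hB⟩ := hcon
  have hA' : wGe p (ord p (4 * c) + 1) A := by
    rcases hA with hA | hA
    · exact Or.inl hA
    · exact Or.inr (by omega)
  have hB' : wGe p (ord p (4 * c) + 1) B := by
    rcases hB with hB | hB
    · exact Or.inl hB
    · exact Or.inr (by omega)
  rcases hA'.add hB' with h6 | h6
  · exact h5.1 h6
  · rw [h5.2] at h6
    omega

variable (k L)

theorem wl (h : StTr k L) : StWL k L := by
  intro d δ hE p γ w c z₀ hz₀ hRp N
  have hTr : ∀ (N : ℕ) (z : L), (∀ Q : HeightOneSpectrum (𝓞 L), Over p Q → Cl Q (2 * N) z 0) →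
      Cl p N (Algebra.trace k L z) 0 := fun N z hz => h d δ hE p N z hz
  have hc0 : (c : k) ≠ 0 := c.ne_zero
  have hqw : Tq k (γ : L) (w : L) ≠ 0 := by
    have h1 : LocSq p ((c : k) * Tq k (γ : L) (w : L)) := hRp
    exact right_ne_zero_of_mul h1.ne_zero
  have he0 := wl_two (k := k) p
  obtain ⟨e2, he2⟩ := Int.eq_ofNat_of_zero_le he0
  obtain ⟨Bz, hBz⟩ := wl_bd z₀
  obtain ⟨Bw, hBw⟩ := wl_bd (w : L)
  obtain ⟨Bc, hBc⟩ := wl_bd (algebraMap k L ((c : k) / Tq k (γ : L) (w : L)))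
  obtain ⟨r, hr⟩ := hRp (N + 2 * (Bw + Bc) + Bz + 2 * e2 + 1)
  set ε : k := (c : k) * Tq k (γ : L) (w : L) * r ^ 2 - 1 with hε
  have hεK : wGe p ((N + 2 * (Bw + Bc) + Bz + 2 * e2 + 1 : ℕ) : ℤ) ε := by
    rcases hr with hr | hr
    · exact Or.inl (by rw [hε, hr, sub_self])
    · exact Or.inr hr
  push_cast at hεK
  have hu1 := sqr_unit p (x := (c : k) * Tq k (γ : L) (w : L) * r ^ 2)
    (n := ((N + 2 * (Bw + Bc) + Bz + 2 * e2 + 1 : ℕ) : ℤ)) (by positivity) hr
  have hr0 : r ≠ 0 := by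
    rintro rfl
    exact hu1.1 (by ring)
  have h1ε : (c : k) * Tq k (γ : L) (w : L) * r ^ 2 = 1 + ε := by rw [hε]; ring
  -- the two candidates
  have hq0 : ∀ s : k, s ^ 2 = ((c : k) * r) ^ 2 →
      Tq k (γ : L) (algebraMap k L s * w) = (c : k) * (1 + ε) := by
    intro s hs
    rw [wl_q_smul, hs, ← h1ε]
    ring
  have hsum : Tq k (γ : L) (z₀ + algebraMap k L (-((c : k) * r)) * w) +
      Tq k (γ : L) (z₀ + algebraMap k L ((c : k) * r) * w) =
      4 * (c : k) + 2 * ((c : k) * ε) := by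
    rw [wl_q_add, wl_q_add, hq0 _ (by ring), hq0 _ rfl, hz₀, map_neg]
    have h2 : (γ : L) * z₀ * (-(algebraMap k L ((c : k) * r)) * w) =
        -((γ : L) * z₀ * (algebraMap k L ((c : k) * r) * w)) := by ring
    rw [h2, map_neg]
    ring
  obtain ⟨s₁, hs₁, hne, hord⟩ : ∃ s : k, s ^ 2 = ((c : k) * r) ^ 2 ∧
      Tq k (γ : L) (z₀ + algebraMap k L (-s) * w) ≠ 0 ∧
      ord p (Tq k (γ : L) (z₀ + algebraMap k L (-s) * w)) ≤ ord p (4 * (c : k)) := by
    rcases wl_sign p hc0 (hεK.mono (by omega)) hsum with h2 | h2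
    · exact ⟨(c : k) * r, rfl, h2.1, h2.2⟩
    · refine ⟨-((c : k) * r), by ring, ?_⟩
      rw [neg_neg]
      exact h2
  have hs0 : s₁ ≠ 0 := by
    rintro rfl
    have h2 : ((c : k) * r) ^ 2 ≠ 0 := pow_ne_zero _ (mul_ne_zero hc0 hr0)
    exact h2 (by rw [← hs₁]; ring)
  set t : L := z₀ + algebraMap k L (-s₁) * w with ht
  -- orders of s w
  have hsw0 : algebraMap k L s₁ * (w : L) ≠ 0 := mul_ne_zero (by
    rw [Ne, map_eq_zero]
    exact hs0) w.ne_zero
  have hsB : ∀ Q : HeightOneSpectrum (𝓞 L), Over p Q →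
      -((Bw : ℤ) + Bc) ≤ ord Q (algebraMap k L s₁ * (w : L)) ∧
        ord Q (algebraMap k L s₁ * (w : L)) ≤ (Bw : ℤ) + Bc := by
    intro Q hQ
    have h2 : s₁ ^ 2 = ((c : k) / Tq k (γ : L) (w : L)) * (1 + ε) := by
      rw [hs₁, ← h1ε]
      field_simp
    have h3 : ord Q (algebraMap k L (1 + ε)) = 0 := by
      rw [hQ.ord_map, ← h1ε, hu1.2, mul_zero]
    have h4 : algebraMap k L (1 + ε) ≠ 0 := by
      rw [Ne, map_eq_zero, ← h1ε]
      exact hu1.1
    have h5 : algebraMap k L ((c : k) / Tq k (γ : L) (w : L)) ≠ 0 := by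
      rw [Ne, map_eq_zero]
      exact div_ne_zero hc0 hqw
    have h6 : 2 * ord Q (algebraMap k L s₁) =
        ord Q (algebraMap k L ((c : k) / Tq k (γ : L) (w : L))) := by
      have h7 := ord_pow Q (algebraMap k L s₁) 2
      rw [← map_pow, h2, map_mul, ord_mul Q h5 h4, h3, add_zero] at h7
      rw [h7]
      norm_num
    have h7 : ord Q (algebraMap k L s₁ * (w : L)) =
        ord Q (algebraMap k L s₁) + ord Q (w : L) := ord_mul Q (by
      rw [Ne, map_eq_zero]
      exact hs0) w.ne_zero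
    have h8 := hBc Q
    have h9 := hBw Q
    rw [h7]
    constructor <;> omega
  -- continuity
  have cid : Ct {Q : HeightOneSpectrum (𝓞 L) | Over p Q} p t (fun u => u) := Ct.id
  have cg : ∀ x : L, Ct {Q : HeightOneSpectrum (𝓞 L) | Over p Q} p t (fun _ => x) :=
    fun x => Ct.const x
  have cq : Ct {p} p t (fun u => Tq k (γ : L) u) := by
    have h2 := Ct.tr hTr ((cg (γ : L)).mul (cid.mul cid))
    have h3 : (fun u => Tq k (γ : L) u) = fun u => Algebra.trace k L ((γ : L) * (u * u)) := by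
      funext u
      unfold Tq
      rw [pow_two]
    rw [h3]
    exact h2
  have cb : Ct {p} p t (fun u => Algebra.trace k L ((γ : L) * z₀ * u)) :=
    Ct.tr hTr ((cg ((γ : L) * z₀)).mul cid)
  have c2 : Ct {p} p t (fun u => 2 * Algebra.trace k L ((γ : L) * z₀ * u) * (Tq k (γ : L) u)⁻¹) :=
    ((Ct.const (2 : k)).mul cb).mul (cq.inv hne)
  have cE : Ct {Q : HeightOneSpectrum (𝓞 L) | Over p Q} p t
      (fun u => z₀ - algebraMap k L (2 * Algebra.trace k L ((γ : L) * z₀ * u) *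
        (Tq k (γ : L) u)⁻¹) * u - algebraMap k L s₁ * (w : L)) :=
    ((cg z₀).sub (c2.map.mul cid)).sub (cg _)
  obtain ⟨B', M', hM'⟩ := cq.ne hne
  obtain ⟨M, hM⟩ := cE (N + (Bw + Bc))
  -- the value at t
  have hEt : z₀ - algebraMap k L (2 * Algebra.trace k L ((γ : L) * z₀ * t) *
        (Tq k (γ : L) t)⁻¹) * t - algebraMap k L s₁ * (w : L) =
      algebraMap k L ((c : k) * ε * (Tq k (γ : L) t)⁻¹) * t := by
    have h2 : 2 * Algebra.trace k L ((γ : L) * z₀ * t) = Tq k (γ : L) t - (c : k) * ε := by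
      have h3 : (γ : L) * z₀ * t = (γ : L) * z₀ ^ 2 +
          (γ : L) * z₀ * (algebraMap k L (-s₁) * w) := by
        rw [ht]
        ring
      have h4 : Tq k (γ : L) t = _ := wl_q_add (γ : L) z₀ (algebraMap k L (-s₁) * w)
      rw [hq0 (-s₁) (by rw [← hs₁]; ring), hz₀] at h4
      have h5 : Algebra.trace k L ((γ : L) * z₀ ^ 2) = (c : k) := hz₀
      rw [h3, map_add, h5, h4]
      ring
    rw [h2]
    have h3 : (Tq k (γ : L) t - (c : k) * ε) * (Tq k (γ : L) t)⁻¹ =
        1 - (c : k) * ε * (Tq k (γ : L) t)⁻¹ := by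
      rw [sub_mul, mul_inv_cancel₀ hne]
    rw [h3, map_sub, map_one]
    have h4 : t = z₀ + algebraMap k L (-s₁) * w := ht
    rw [map_neg] at h4
    linear_combination -h4
  have hEtB : ∀ Q : HeightOneSpectrum (𝓞 L), Over p Q → wGe Q ((N : ℤ) + (Bw + Bc))
      (algebraMap k L ((c : k) * ε * (Tq k (γ : L) t)⁻¹) * t) := by
    intro Q hQ
    have h2 : wGe p ((N : ℤ) + 2 * (Bw + Bc) + Bz + 1) ((c : k) * ε * (Tq k (γ : L) t)⁻¹) := by
      have h3 : wGe p (ord p (c : k)) (c : k) := Or.inr le_rfl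
      have h4 : wGe p (-(ord p (4 * (c : k)))) (Tq k (γ : L) t)⁻¹ := wGe.inv_of hord
      have h5 : ord p (4 * (c : k)) = 2 * ord p (2 : k) + ord p (c : k) := by
        have h44 : (4 : k) = 2 * 2 := by norm_num
        rw [h44, ord_mul p (mul_ne_zero two_ne_zero two_ne_zero) hc0,
          ord_mul p two_ne_zero two_ne_zero]
        ring
      refine ((h3.mul hεK).mul h4).mono ?_
      rw [h5, he2]
      push_cast
      omega
    have h3 : wGe Q (-((Bz : ℤ) + (Bw + Bc))) t := by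
      have h4 : t = z₀ - algebraMap k L s₁ * w := by
        rw [ht, map_neg]
        ring
      rw [h4]
      have h5 : wGe Q (-((Bz : ℤ) + (Bw + Bc))) z₀ := Or.inr (by
        have := (hBz Q).1
        omega)
      have h6 : wGe Q (-((Bz : ℤ) + (Bw + Bc))) (algebraMap k L s₁ * (w : L)) := Or.inr (by
        have := (hsB Q hQ).1
        omega)
      exact h5.sub h6
    exact ((wl_map (by positivity) h2 hQ).mul h3).mono (by omega)
  refine ⟨t, max M M', fun u hu => ?_⟩
  have hqu := (hM' u (wl_mono (le_max_right _ _) hu) p rfl).1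
  refine ⟨hqu, Units.mk0 s₁ hs0, ?_, ?_⟩
  · rw [wl_cl]
    have h2 : (Units.mk0 s₁ hs0 : k) ^ 2 * Tq k (γ : L) (w : L) / (c : k) - 1 = ε := by
      rw [Units.val_mk0, hs₁, hε]
      field_simp
    rw [h2]
    exact hεK.mono (by omega)
  · intro Q hQ
    rw [wl_cl]
    have h2 := hM u (wl_mono (le_max_left _ _) hu) Q hQ
    beta_reduce at h2
    rw [hEt, Nat.cast_add, Nat.cast_add] at h2
    have h3 := h2.add (hEtB Q hQ)
    rw [sub_add_cancel] at h3
    have h4 : wGe Q (-((Bw : ℤ) + Bc)) (algebraMap k L s₁ * (w : L))⁻¹ :=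
      wGe.inv_of (hsB Q hQ).2
    have h5 := (h3.mul h4).mono (m := (N : ℤ)) (by omega)
    have h6 : (z₀ - algebraMap k L (2 * Algebra.trace k L ((γ : L) * z₀ * u) /
        Tq k (γ : L) u) * u) / (algebraMap k L (Units.mk0 s₁ hs0 : k) * w) - 1 =
        (z₀ - algebraMap k L (2 * Algebra.trace k L ((γ : L) * z₀ * u) *
        (Tq k (γ : L) u)⁻¹) * u - algebraMap k L s₁ * (w : L)) *
          (algebraMap k L s₁ * (w : L))⁻¹ := by
      rw [Units.val_mk0, sub_mul _ (algebraMap k L s₁ * (w : L)), mul_inv_cancel₀ hsw0,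
        div_eq_mul_inv, div_eq_mul_inv]
    rw [h6]
    exact h5

end

end Pool.Agent.SK.TC
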