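import Pool.Agent.SK.TCDefs
import Pool.Agent.H98.MF.L.Sqr
import Pool.Agent.H98.MF.L.QuadX

/-!
# Malle's conjecture for 8T8 over number fields, the common trace: local approximation through a
reflection (row TC6), calculus
-/

set_option autoImplicit false

open scoped BigOperators
open NumberField IsDedekindDomain

namespace Pool.Agent.SK.TC

open Pool.Agent.H98.MF

section

variable {F : Type} [Field F] [NumberField F]

/-- the order is at least `n` -/
def wGe (P : HeightOneSpectrum (𝓞 F)) (n : ℤ) (x : F) : Prop := x = 0 ∨ n ≤ ord P x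

variable {P : HeightOneSpectrum (𝓞 F)} {x y : F} {n m : ℤ}

theorem wGe.add (hx : wGe P n x) (hy : wGe P n y) : wGe P n (x + y) := le_ord_add P n hx hy

theorem wGe.neg (hx : wGe P n x) : wGe P n (-x) := by
  rcases hx with hx | hx
  · exact Or.inl (by rw [hx, neg_zero])
  · exact Or.inr (by rwa [ord_neg])

theorem wGe.sub (hx : wGe P n x) (hy : wGe P n y) : wGe P n (x - y) := by
  rw [sub_eq_add_neg]
  exact hx.add hy.neg

theorem wGe.mul (hx : wGe P n x) (hy : wGe P m y) : wGe P (n + m) (x * y) := sqr_prod P hx hy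

theorem wGe.mono (h : m ≤ n) (hx : wGe P n x) : wGe P m x := sqr_mono P h hx

theorem wl_cl : Cl P n x y ↔ wGe P n (x - y) := by
  unfold Cl wGe
  rw [sub_eq_zero]

/-- the exponents of an element are bounded -/
theorem wl_bd (z : F) : ∃ B : ℕ, ∀ P : HeightOneSpectrum (𝓞 F),
    -(B : ℤ) ≤ ord P z ∧ ord P z ≤ B := by
  by_cases hz : z = 0
  · refine ⟨0, fun P => ?_⟩
    rw [hz, ord_zero]
    exact ⟨le_rfl, le_rfl⟩
  have hfin := ord_finite hz
  refine ⟨∑ P ∈ hfin.toFinset, (ord P z).natAbs, fun P => ?_⟩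
  have h1 : (ord P z).natAbs ≤ ∑ P ∈ hfin.toFinset, (ord P z).natAbs := by
    by_cases h0 : ord P z = 0
    · rw [h0]
      exact Nat.zero_le _
    · exact Finset.single_le_sum (f := fun P => (ord P z).natAbs) (fun _ _ => Nat.zero_le _)
        (hfin.mem_toFinset.2 h0)
  omega

theorem wGe.inv_of (hx : ord P x ≤ n) : wGe P (-n) x⁻¹ := by
  right
  rw [ord_inv]
  omega

end

section

variable {k L : Type} [Field k] [NumberField k] [Field L] [NumberField L] [Algebra k L]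
  {F : Type} [Field F] [NumberField F]

/-- continuity at `t` for the primes above `p` -/
def Ct (S : Set (HeightOneSpectrum (𝓞 F))) (p : HeightOneSpectrum (𝓞 k)) (t : L) (f : L → F) :
    Prop :=
  ∀ N : ℕ, ∃ M : ℕ, ∀ u : L, (∀ Q : HeightOneSpectrum (𝓞 L), Over p Q → Cl Q M u t) →
    ∀ P ∈ S, wGe P N (f u - f t)

variable {S : Set (HeightOneSpectrum (𝓞 F))} {p : HeightOneSpectrum (𝓞 k)} {t : L}
  {f g : L → F}

theorem wl_mono {M M' : ℕ} (h : M ≤ M') {u : L}
    (hu : ∀ Q : HeightOneSpectrum (𝓞 L), Over p Q → Cl Q M' u t) :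
    ∀ Q : HeightOneSpectrum (𝓞 L), Over p Q → Cl Q M u t := by
  intro Q hQ
  have h1 := hu Q hQ
  rw [wl_cl] at h1 ⊢
  exact h1.mono (by exact_mod_cast h)

theorem Ct.const (c : F) : Ct S p t (fun _ => c) := fun _ => ⟨0, fun _ _ _ _ => Or.inl (sub_self _)⟩

theorem Ct.id : Ct {Q : HeightOneSpectrum (𝓞 L) | Over p Q} p t (fun u => u) :=
  fun N => ⟨N, fun _ hu Q hQ => wl_cl.1 (hu Q hQ)⟩

theorem Ct.sub (hf : Ct S p t f) (hg : Ct S p t g) : Ct S p t (fun u => f u - g u) := by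
  intro N
  obtain ⟨M, hM⟩ := hf N
  obtain ⟨M', hM'⟩ := hg N
  refine ⟨max M M', fun u hu P hP => ?_⟩
  have h1 := hM u (wl_mono (le_max_left _ _) hu) P hP
  have h2 := hM' u (wl_mono (le_max_right _ _) hu) P hP
  have h3 : f u - g u - (f t - g t) = (f u - f t) - (g u - g t) := by ring
  rw [h3]
  exact h1.sub h2

theorem Ct.mul (hf : Ct S p t f) (hg : Ct S p t g) : Ct S p t (fun u => f u * g u) := by
  intro N
  obtain ⟨A, hA⟩ := wl_bd (f t)
  obtain ⟨B, hB⟩ := wl_bd (g t)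
  obtain ⟨M, hM⟩ := hf (N + B)
  obtain ⟨M', hM'⟩ := hg (N + A)
  refine ⟨max M M', fun u hu P hP => ?_⟩
  have h1 := hM u (wl_mono (le_max_left _ _) hu) P hP
  have h2 := hM' u (wl_mono (le_max_right _ _) hu) P hP
  have h3 : f u * g u - f t * g t =
      (f u - f t) * (g u - g t) + (f u - f t) * g t + f t * (g u - g t) := by ring
  rw [h3]
  have hf' : wGe P (-(A : ℤ)) (f t) := Or.inr (hA P).1
  have hg' : wGe P (-(B : ℤ)) (g t) := Or.inr (hB P).1
  push_cast at h1 h2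
  exact (((h1.mul h2).mono (by omega)).add ((h1.mul hg').mono (by omega))).add
    ((hf'.mul h2).mono (by omega))

theorem Ct.ne (hf : Ct S p t f) (h0 : f t ≠ 0) : ∃ (B M : ℕ), ∀ u : L,
    (∀ Q : HeightOneSpectrum (𝓞 L), Over p Q → Cl Q M u t) → ∀ P ∈ S,
      f u ≠ 0 ∧ ord P (f u) = ord P (f t) ∧ ord P (f t) ≤ B := by
  obtain ⟨B, hB⟩ := wl_bd (f t)
  obtain ⟨M, hM⟩ := hf (B + 1)
  refine ⟨B, M, fun u hu P hP => ?_⟩
  have h1 := hM u hu P hP
  have h2 := ord_add_eq P (a := f t) (b := f u - f t) h0 (by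
    rcases h1 with h1 | h1
    · exact Or.inl h1
    · right
      have := (hB P).2
      push_cast at h1
      omega)
  rw [add_sub_cancel] at h2
  exact ⟨h2.1, h2.2, (hB P).2⟩

theorem Ct.inv (hf : Ct S p t f) (h0 : f t ≠ 0) : Ct S p t (fun u => (f u)⁻¹) := by
  intro N
  obtain ⟨B, M, hM⟩ := hf.ne h0
  obtain ⟨M', hM'⟩ := hf (N + 2 * B)
  refine ⟨max M M', fun u hu P hP => ?_⟩
  obtain ⟨h1, h2, h3⟩ := hM u (wl_mono (le_max_left _ _) hu) P hP
  have h4 := hM' u (wl_mono (le_max_right _ _) hu) P hP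
  have h5 : (f u)⁻¹ - (f t)⁻¹ = -((f u - f t) * ((f u)⁻¹ * (f t)⁻¹)) := by
    field_simp
    ring
  have h6 : wGe P (-(B : ℤ)) (f u)⁻¹ := wGe.inv_of (h2.le.trans h3)
  have h7 : wGe P (-(B : ℤ)) (f t)⁻¹ := wGe.inv_of h3
  rw [h5]
  push_cast at h4
  exact ((h4.mul (h6.mul h7)).mono (by omega)).neg

theorem wl_map {n : ℤ} (hn : 0 ≤ n) {x : k} (hx : wGe p n x) {Q : HeightOneSpectrum (𝓞 L)}
    (hQ : Over p Q) : wGe Q n (algebraMap k L x) := by
  rcases hx with hx | hx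
  · exact Or.inl (by rw [hx, map_zero])
  · right
    have h1 := hQ.ord_map x
    have h2 : (1 : ℤ) ≤ (p.asIdeal.ramificationIdx' Q.asIdeal : ℤ) := by
      exact_mod_cast hQ.ram_pos
    rw [h1]
    nlinarith

theorem Ct.map {f : L → k} (hf : Ct {p} p t f) :
    Ct {Q : HeightOneSpectrum (𝓞 L) | Over p Q} p t (fun u => algebraMap k L (f u)) := by
  intro N
  obtain ⟨M, hM⟩ := hf N
  refine ⟨M, fun u hu Q hQ => ?_⟩
  have h1 := hM u hu p rfl
  have h2 := wl_map (L := L) (by positivity) h1 hQ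
  rwa [map_sub] at h2

theorem Ct.tr (hT : ∀ (N : ℕ) (z : L), (∀ Q : HeightOneSpectrum (𝓞 L), Over p Q →
    Cl Q (2 * N) z 0) → Cl p N (Algebra.trace k L z) 0) {f : L → L}
    (hf : Ct {Q : HeightOneSpectrum (𝓞 L) | Over p Q} p t f) :
    Ct {p} p t (fun u => Algebra.trace k L (f u)) := by
  intro N
  obtain ⟨M, hM⟩ := hf (2 * N)
  refine ⟨M, fun u hu P hP => ?_⟩
  rw [Set.mem_singleton_iff] at hP
  subst hP
  have h1 := hT N (f u - f t) (fun Q hQ => by
    rw [wl_cl, sub_zero]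
    have := hM u hu Q hQ
    push_cast at this
    exact this)
  rw [wl_cl, sub_zero, map_sub] at h1
  exact h1

/-! ### the quadratic form -/

theorem wl_q_add (γ z z' : L) : Tq k γ (z + z') =
    Tq k γ z + 2 * Algebra.trace k L (γ * z * z') + Tq k γ z' := by
  unfold Tq
  have h : γ * (z + z') ^ 2 = γ * z ^ 2 + (γ * z * z' + γ * z * z') + γ * z' ^ 2 := by ring
  rw [h, map_add, map_add, map_add]
  ring

theorem wl_q_smul (γ w : L) (s : k) : Tq k γ (algebraMap k L s * w) = s ^ 2 * Tq k γ w := by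
  unfold Tq
  have h : γ * (algebraMap k L s * w) ^ 2 = (s ^ 2) • (γ * w ^ 2) := by
    rw [Algebra.smul_def, map_pow]
    ring
  rw [h, map_smul, smul_eq_mul]

end

end Pool.Agent.SK.TC
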