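import Pool.Agent.SK.TCDefs
import Pool.Agent.H98.MF.L.WApx
import Pool.Agent.H98.MF.L.QuadX
import Pool.Agent.H98.MF.C.C3c

/-!
# Malle's conjecture for 8T8 over number fields, the common trace: weak approximation for the
conic (row TC7)
-/

set_option autoImplicit false

open scoped BigOperators
open NumberField IsDedekindDomain

namespace Pool.Agent.SK.TC

open Pool.Agent.H98.MF

section

variable {k L : Type} [Field k] [NumberField k] [Field L] [NumberField L] [Algebra k L]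

/-- the reflection preserves the form -/
theorem wc_refl {γ z₀ u : L} (hu : Tq k γ u ≠ 0) :
    Tq k γ (z₀ - algebraMap k L (2 * Algebra.trace k L (γ * z₀ * u) / Tq k γ u) * u) =
      Tq k γ z₀ := by
  set l : k := 2 * Algebra.trace k L (γ * z₀ * u) / Tq k γ u with hl
  have h1 : Tq k γ (z₀ - algebraMap k L l * u) =
      Tq k γ z₀ - 2 * (l * Algebra.trace k L (γ * z₀ * u)) + l ^ 2 * Tq k γ u := by
    unfold Tq
    have h2 : γ * (z₀ - algebraMap k L l * u) ^ 2 =
        γ * z₀ ^ 2 - ((2 : k) * l) • (γ * z₀ * u) + (l ^ 2) • (γ * u ^ 2) := by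
      rw [Algebra.smul_def, Algebra.smul_def, map_mul, map_pow, map_ofNat]
      ring
    rw [h2, map_add, map_sub, map_smul, map_smul, smul_eq_mul, smul_eq_mul]
    ring
  rw [h1, hl]
  field_simp
  ring

variable (k L)

theorem wc (h : StWL k L) : StWC k L := by
  intro d δ hE γ c z₀ hz₀ T w hw N
  classical
  have hc0 : (c : k) ≠ 0 := c.ne_zero
  have hne : ∀ z : L, Tq k (γ : L) z = c → z ≠ 0 := by
    rintro z hz rfl
    apply hc0
    rw [← hz]
    unfold Tq
    rw [zero_pow two_ne_zero, mul_zero, map_zero]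
  by_cases hT : T.Nonempty
  swap
  · rw [Finset.not_nonempty_iff_eq_empty] at hT
    subst hT
    refine ⟨Units.mk0 z₀ (hne z₀ hz₀), hz₀, fun p hp => absurd hp (Finset.notMem_empty p)⟩
  have hex : ∀ p : HeightOneSpectrum (𝓞 k), ∃ (t : L) (M : ℕ), p ∈ T → ∀ u : L,
      (∀ Q : HeightOneSpectrum (𝓞 L), Over p Q → Cl Q M u t) →
      Tq k (γ : L) u ≠ 0 ∧ ∃ s : kˣ, Cl p N ((s : k) ^ 2 * Tq k (γ : L) (w p : L) / c) 1 ∧
        Nr p N (z₀ - algebraMap k L (2 * Algebra.trace k L ((γ : L) * z₀ * u) /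
          Tq k (γ : L) u) * u) (algebraMap k L (s : k) * w p) := by
    intro p
    by_cases hp : p ∈ T
    · obtain ⟨t, M, hM⟩ := h d δ hE p γ (w p) c z₀ hz₀ (hw p hp) N
      exact ⟨t, M, fun _ => hM⟩
    · exact ⟨0, 0, fun hp' => absurd hp' hp⟩
  choose t M hM using hex
  obtain ⟨S, hS⟩ := B.ovr_exists (L := L) T
  obtain ⟨u, hu, -⟩ := weak_apx S (fun Q => t (HeightOneSpectrum.under (𝓞 k) Q)) (T.sup M)
    (fun _ => True)
  have hT' : ∀ p ∈ T, ∀ Q : HeightOneSpectrum (𝓞 L), Over p Q → Cl Q (M p) u (t p) := by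
    intro p hp Q hQ
    have h1 : HeightOneSpectrum.under (𝓞 k) Q = p := HeightOneSpectrum.ext hQ
    have h2 := hu Q ((hS Q).2 ⟨p, hp, hQ⟩)
    beta_reduce at h2
    rw [h1] at h2
    have h3 : M p ≤ T.sup M := Finset.le_sup hp
    rcases h2 with h2 | h2
    · exact Or.inl h2
    · exact Or.inr (le_trans (by exact_mod_cast h3) h2)
  obtain ⟨p₀, hp₀⟩ := hT
  have hqu : Tq k (γ : L) u ≠ 0 := (hM p₀ hp₀ u (hT' p₀ hp₀)).1
  have hqz := wc_refl (z₀ := z₀) hqu
  rw [hz₀] at hqz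
  refine ⟨Units.mk0 _ (hne _ hqz), hqz, fun p hp => ?_⟩
  exact (hM p hp u (hT' p hp)).2

end

end Pool.Agent.SK.TC
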