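import Pool.Agent.SK.TCDefs
import Pool.Agent.H98.MF.L.WApx
import Pool.Agent.H98.MF.C.C3b
import Pool.Agent.H98.MF.C.C3c

/-!
# Malle's conjecture for 8T8 over number fields, part TD: a global point of the conic, and
approximation by squares (row TC8)
-/

set_option autoImplicit false

open scoped BigOperators
open NumberField IsDedekindDomain

namespace Pool.Agent.SK.TC

open Pool.Agent.H98.MF

section

variable {k L : Type} [Field k] [NumberField k] [Field L] [NumberField L] [Algebra k L]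

/-- the trace in coordinates -/
theorem tc8_tr {d : kˣ} {δ : L} (h : QE d δ) (x y : k) :
    Algebra.trace k L (algebraMap k L x + algebraMap k L y * δ) = 2 * x := by
  obtain ⟨σ, hσ, -, -, -⟩ := B.qe_conj h
  have h1 : Algebra.trace k L (σ δ) = Algebra.trace k L δ :=
    Algebra.trace_eq_of_algEquiv σ δ
  rw [hσ, map_neg] at h1
  have h2 : Algebra.trace k L δ = 0 := by
    have h3 : (2 : k) * Algebra.trace k L δ = 0 := by linear_combination -h1
    rcases mul_eq_zero.1 h3 with h4 | h4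
    · exact absurd h4 two_ne_zero
    · exact h4
  rw [map_add, Algebra.trace_algebraMap, h.deg, ← Algebra.smul_def, map_smul, h2, smul_zero,
    add_zero, nsmul_eq_mul, Nat.cast_ofNat]

/-- the quadratic form in coordinates -/
theorem tc8_tq {d : kˣ} {δ : L} (h : QE d δ) (x y A B : k) :
    Tq k (algebraMap k L x + algebraMap k L y * δ)
      (algebraMap k L A + algebraMap k L B * δ) =
      2 * (x * (A ^ 2 + d * B ^ 2) + 2 * d * y * A * B) := by
  unfold Tq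
  rw [← tc8_tr h (x * (A ^ 2 + d * B ^ 2) + 2 * d * y * A * B)
    (y * (A ^ 2 + d * B ^ 2) + 2 * x * A * B)]
  congr 1
  have hs := h.sq
  simp only [map_add, map_mul, map_pow, map_ofNat]
  linear_combination (algebraMap k L x * algebraMap k L B ^ 2 +
    2 * algebraMap k L y * algebraMap k L A * algebraMap k L B +
    algebraMap k L y * algebraMap k L B ^ 2 * δ) * hs

theorem hn (hHN : HNSt k) : StHN k L := by
  intro d δ h γ c htr hv0
  obtain ⟨x, y, hxy⟩ := B.qe_repr h (γ : L)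
  have hx2 : Algebra.trace k L (γ : L) = 2 * x := by rw [hxy, tc8_tr h]
  have hx : x ≠ 0 := by
    intro h0
    apply htr
    rw [hx2, h0, mul_zero]
  have hn1 : Algebra.norm k (γ : L) = x ^ 2 - d * y ^ 2 := by rw [hxy, B.qe_norm_form h]
  have hn0 : Algebra.norm k (γ : L) ≠ 0 := by
    rw [Ne, Algebra.norm_eq_zero_iff]
    exact γ.ne_zero
  have ha : -((d : k) * Algebra.norm k (γ : L)) ≠ 0 :=
    neg_ne_zero.2 (mul_ne_zero d.ne_zero hn0)
  have hb : (c : k) * Algebra.trace k L (γ : L) ≠ 0 := mul_ne_zero c.ne_zero htr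
  obtain ⟨X, Y, hXY⟩ := hHN (Units.mk0 _ ha) (Units.mk0 _ hb) hv0
  have hXY' : (c : k) * (2 * x) = X ^ 2 + d * (x ^ 2 - d * y ^ 2) * Y ^ 2 := by
    have h1 : (c : k) * Algebra.trace k L (γ : L) =
      X ^ 2 - -((d : k) * Algebra.norm k (γ : L)) * Y ^ 2 := hXY
    rw [hx2, hn1] at h1
    linear_combination h1
  refine ⟨algebraMap k L ((X / 2 - d * y * (Y / 2)) / x) + algebraMap k L (Y / 2) * δ, ?_⟩
  rw [hxy, tc8_tq h]
  field_simp
  linear_combination -hXY'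

/-- products of elements close to one -/
theorem tc8_mul {K : Type} [Field K] [NumberField K] (Q : HeightOneSpectrum (𝓞 K)) {x y : K}
    {n : ℤ} (hn : 0 < n) (hx : x = 1 ∨ n ≤ ord Q (x - 1)) (hy : y = 1 ∨ n ≤ ord Q (y - 1)) :
    x * y = 1 ∨ n ≤ ord Q (x * y - 1) := by
  rw [sqr_iff] at hx hy ⊢
  have hy1 := sqr_unit Q hn ((sqr_iff Q y n).2 hy)
  have h1 : (x - 1) * y = 0 ∨ n + 0 ≤ ord Q ((x - 1) * y) :=
    sqr_prod Q hx (Or.inr hy1.2.ge)
  rw [add_zero] at h1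
  have h2 := le_ord_add Q n h1 hy
  have h3 : (x - 1) * y + (y - 1) = x * y - 1 := by ring
  rwa [h3] at h2

theorem rh : StRh k L := by
  classical
  intro d δ h T γ₁ γ₂ hT N
  obtain ⟨S', hS'⟩ := B.ovr_exists (L := L) T
  by_cases hemp : S' = ∅
  · refine ⟨1, fun p hp Q hQ => ?_⟩
    have h1 : Q ∈ S' := (hS' Q).2 ⟨p, hp, hQ⟩
    rw [hemp] at h1
    exact absurd h1 (Finset.notMem_empty _)
  have hc : ∀ Q ∈ S', ∃ c : L, (γ₁ : L) * γ₂ * c ^ 2 = 1 ∨
      ((N + 1 : ℕ) : ℤ) ≤ ord Q ((γ₁ : L) * γ₂ * c ^ 2 - 1) := by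
    intro Q hQ
    obtain ⟨p, hp, hpQ⟩ := (hS' Q).1 hQ
    exact hT p hp Q hpQ (N + 1)
  choose! c hc using hc
  have hc0 : ∀ Q ∈ S', c Q ≠ 0 := by
    intro Q hQ h0
    have h1 := sqr_unit Q (by positivity : (0 : ℤ) < ((N + 1 : ℕ) : ℤ)) (hc Q hQ)
    apply h1.1
    rw [h0]
    ring
  let r : HeightOneSpectrum (𝓞 L) → L := fun Q => γ₂ * c Q
  have hr0 : ∀ Q ∈ S', r Q ≠ 0 := fun Q hQ => mul_ne_zero γ₂.ne_zero (hc0 Q hQ)
  set M : ℕ := N + 1 + ∑ Q ∈ S', (ord Q (r Q)).natAbs with hM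
  have hMQ : ∀ Q ∈ S', (N : ℤ) + 1 + ord Q (r Q) ≤ (M : ℤ) := by
    intro Q hQ
    have h1 : (ord Q (r Q)).natAbs ≤ ∑ Q ∈ S', (ord Q (r Q)).natAbs :=
      Finset.single_le_sum (f := fun Q => (ord Q (r Q)).natAbs) (fun _ _ => Nat.zero_le _) hQ
    have h2 : ord Q (r Q) ≤ |ord Q (r Q)| := le_abs_self _
    rw [hM]
    push_cast
    have h3 : ((ord Q (r Q)).natAbs : ℤ) ≤ ((∑ Q ∈ S', (ord Q (r Q)).natAbs : ℕ) : ℤ) := by
      exact_mod_cast h1
    push_cast at h3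
    linarith
  obtain ⟨a, ha, -⟩ := weak_apx S' r M (fun _ => True)
  have hu : ∀ Q ∈ S', a / r Q = 1 ∨ ((N + 1 : ℕ) : ℤ) ≤ ord Q (a / r Q - 1) := by
    intro Q hQ
    rcases ha Q hQ with h1 | h1
    · left
      rw [h1, div_self (hr0 Q hQ)]
    · by_cases h2 : a - r Q = 0
      · left
        rw [sub_eq_zero.1 h2, div_self (hr0 Q hQ)]
      right
      have h3 : a / r Q - 1 = (a - r Q) / r Q := by
        rw [sub_div, div_self (hr0 Q hQ)]
      rw [h3, ord_div Q h2 (hr0 Q hQ)]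
      have := hMQ Q hQ
      push_cast
      linarith
  have ha0 : a ≠ 0 := by
    obtain ⟨Q, hQ⟩ := Finset.nonempty_iff_ne_empty.2 hemp
    intro h0
    have h1 := sqr_unit Q (by positivity : (0 : ℤ) < ((N + 1 : ℕ) : ℤ)) (hu Q hQ)
    apply h1.1
    rw [h0, zero_div]
  refine ⟨Units.mk0 a ha0, fun p hp Q hQ => ?_⟩
  have hQS : Q ∈ S' := (hS' Q).2 ⟨p, hp, hQ⟩
  have hpos : (0 : ℤ) < ((N + 1 : ℕ) : ℤ) := by positivity
  have h1 := tc8_mul Q hpos (hc Q hQS) (tc8_mul Q hpos (hu Q hQS) (hu Q hQS))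
  have h2 : (γ₁ : L) * γ₂ * c Q ^ 2 * (a / r Q * (a / r Q)) = (γ₁ : L) * a ^ 2 / γ₂ := by
    show (γ₁ : L) * γ₂ * c Q ^ 2 * (a / (γ₂ * c Q) * (a / (γ₂ * c Q))) = _
    have h3 := hc0 Q hQS
    have h4 := γ₂.ne_zero
    field_simp
  rw [h2] at h1
  rcases h1 with h1 | h1
  · exact Or.inl h1
  · right
    have h5 : (N : ℤ) ≤ ((N + 1 : ℕ) : ℤ) := by push_cast; linarith
    exact h5.trans h1

end

end Pool.Agent.SK.TC
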