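import Pool.Agent.H32.MQ.HBase
import Pool.Agent.H98.MF.C.Stm

/-!
# Malle's conjecture for 8T8 over number fields, part TD: the common trace
(definitions and statements)

`L = k(δ)`, `δ ^ 2 = d`. Two elements `γ₁`, `γ₂` of `L` with the same local classes above the
primes of the frame and with solvable embedding problems have multiples by squares with the same
trace `c`, the trace having exactly one prime with odd exponent outside the frame.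
-/

set_option autoImplicit false

open scoped BigOperators
open NumberField IsDedekindDomain

namespace Pool.Agent.SK.TC

open Pool.Agent.H98.MF

/-! ### finite fields -/

/-- TC1: a form of norm type over a finite field represents the class of every nonzero element
by an invertible vector -/
def StFF : Prop := ∀ (F : Type) [Field F] [Finite F], (2 : F) ≠ 0 → 7 ≤ Nat.card F →
  ∀ d x y c : F, d ≠ 0 → x ^ 2 - d * y ^ 2 ≠ 0 → c ≠ 0 → ∃ A B Z : F, A ^ 2 - d * B ^ 2 ≠ 0 ∧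
    Z ≠ 0 ∧ 2 * (x * A ^ 2 + 2 * d * y * A * B + d * x * B ^ 2) = c * Z ^ 2

/-- TC2: if `-d n` is a square the form has an invertible isotropic vector -/
def StFQ : Prop := ∀ (F : Type) [Field F], (2 : F) ≠ 0 → ∀ d x y e : F, d ≠ 0 →
  x ^ 2 - d * y ^ 2 ≠ 0 → -(d * (x ^ 2 - d * y ^ 2)) = e ^ 2 → ∃ A B : F,
    A ^ 2 - d * B ^ 2 ≠ 0 ∧ x * A ^ 2 + 2 * d * y * A * B + d * x * B ^ 2 = 0

section

variable {k : Type} [Field k] [NumberField k]

/-- `x` and `y` agree at `P` with precision `N` -/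
def Cl (P : HeightOneSpectrum (𝓞 k)) (N : ℤ) (x y : k) : Prop := x = y ∨ N ≤ ord P (x - y)

end

section

variable {k L : Type} [Field k] [NumberField k] [Field L] [NumberField L] [Algebra k L]

/-- the quadratic form `Tr (γ z ^ 2)` -/
noncomputable def Tq (k : Type) {L : Type} [Field k] [Field L] [Algebra k L] (γ z : L) : k :=
  Algebra.trace k L (γ * z ^ 2)

/-- `z` is a unit at the primes above `p` -/
def Un (p : HeightOneSpectrum (𝓞 k)) (z : L) : Prop :=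
  z ≠ 0 ∧ ∀ Q : HeightOneSpectrum (𝓞 L), Over p Q → ord Q z = 0

/-- `z` and `w` agree at the primes above `p` with relative precision `N` -/
def Nr (p : HeightOneSpectrum (𝓞 k)) (N : ℤ) (z w : L) : Prop :=
  ∀ Q : HeightOneSpectrum (𝓞 L), Over p Q → Cl Q N (z / w) 1

/-- `w` represents `c` at `p`, up to a square -/
def Rp (p : HeightOneSpectrum (𝓞 k)) (γ : L) (c : k) (w : L) : Prop :=
  LocSq p (c * Tq k γ w)

/-- the same with a unit, up to the square of a unit -/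
def RU (p : HeightOneSpectrum (𝓞 k)) (γ : L) (c : k) (w : L) : Prop :=
  Rp p γ c w ∧ Un p w ∧ ord p (Tq k γ w) = ord p c

end

section

variable (k L : Type) [Field k] [NumberField k] [Field L] [NumberField L] [Algebra k L]

/-- TC3: traces of elements close to zero -/
def StTr : Prop := ∀ (d : kˣ) (δ : L), QE d δ → ∀ (p : HeightOneSpectrum (𝓞 k)) (N : ℕ) (z : L),
  (∀ Q : HeightOneSpectrum (𝓞 L), Over p Q → Cl Q (2 * N) z 0) →
    Cl p N (Algebra.trace k L z) 0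

/-- TC4: local solutions, unit case -/
def StLU : Prop := ∀ (d : kˣ) (δ : L), QE d δ → ∀ p : HeightOneSpectrum (𝓞 k),
  ord p (2 : k) = 0 → ord p (d : k) = 0 → 7 ≤ nrm p → ∀ γ : Lˣ, Un p (γ : L) →
    ∀ c : kˣ, ord p (c : k) = 0 → ∃ w : Lˣ, RU p (γ : L) (c : k) (w : L)

/-- TC5: local solutions, the element has order one -/
def StLQ : Prop := ∀ (d : kˣ) (δ : L), QE d δ → ∀ p : HeightOneSpectrum (𝓞 k),
  ord p (2 : k) = 0 → ord p (d : k) = 0 → ∀ γ : Lˣ, Un p (γ : L) →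
    LocSq p (-((d : k) * Algebra.norm k (γ : L))) →
    ∀ c : kˣ, ord p (c : k) = 1 → ∃ w : Lˣ, RU p (γ : L) (c : k) (w : L)

/-- TC6: a local approximation of a point of the conic through a reflection -/
def StWL : Prop := ∀ (d : kˣ) (δ : L), QE d δ → ∀ (p : HeightOneSpectrum (𝓞 k)) (γ w : Lˣ)
  (c : kˣ) (z₀ : L), Tq k (γ : L) z₀ = c → Rp p (γ : L) (c : k) (w : L) → ∀ N : ℕ,
    ∃ (t : L) (M : ℕ), ∀ u : L, (∀ Q : HeightOneSpectrum (𝓞 L), Over p Q → Cl Q M u t) →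
      Tq k (γ : L) u ≠ 0 ∧ ∃ s : kˣ, Cl p N ((s : k) ^ 2 * Tq k (γ : L) (w : L) / c) 1 ∧
        Nr p N (z₀ - algebraMap k L (2 * Algebra.trace k L ((γ : L) * z₀ * u) /
          Tq k (γ : L) u) * u) (algebraMap k L (s : k) * w)

/-- TC7: weak approximation for the conic -/
def StWC : Prop := ∀ (d : kˣ) (δ : L), QE d δ → ∀ (γ : Lˣ) (c : kˣ) (z₀ : L),
  Tq k (γ : L) z₀ = c → ∀ (T : Finset (HeightOneSpectrum (𝓞 k)))
  (w : HeightOneSpectrum (𝓞 k) → Lˣ), (∀ p ∈ T, Rp p (γ : L) (c : k) (w p : L)) → ∀ N : ℕ,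
    ∃ z : Lˣ, Tq k (γ : L) (z : L) = c ∧ ∀ p ∈ T, ∃ s : kˣ,
      Cl p N ((s : k) ^ 2 * Tq k (γ : L) (w p : L) / c) 1 ∧
        Nr p N (z : L) (algebraMap k L (s : k) * w p)

/-- TC8: a global point of the conic -/
def StHN : Prop := ∀ (d : kˣ) (δ : L), QE d δ → ∀ (γ : Lˣ) (c : kˣ),
  Algebra.trace k L (γ : L) ≠ 0 →
  (∀ v : Pl k, hv v (-((d : k) * Algebra.norm k (γ : L)))
    ((c : k) * Algebra.trace k L (γ : L)) = 0) → ∃ z₀ : L, Tq k (γ : L) z₀ = c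

/-- TC9: approximation of the quotient of two elements with the same local classes by a square -/
def StRh : Prop := ∀ (d : kˣ) (δ : L), QE d δ → ∀ (T : Finset (HeightOneSpectrum (𝓞 k)))
  (γ₁ γ₂ : Lˣ), (∀ p ∈ T, ∀ Q : HeightOneSpectrum (𝓞 L), Over p Q →
    LocSq Q ((γ₁ : L) * γ₂)) → ∀ N : ℕ, ∃ r : Lˣ, ∀ p ∈ T, Nr p N ((γ₁ : L) * r ^ 2) (γ₂ : L)

end

section

variable (k : Type) [Field k] [NumberField k]

/-- TC10: an element with given classes at the places of the frame, squares at a finite set of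
primes, and exactly one prime outside the frame -/
def StPr : Prop := ∀ (Fr : Frm k) (c₀ : kˣ) (W : Finset Fr.sys.P), ∃ (q : Fr.sys.P) (c : kˣ),
  q ∉ W ∧ ord (Fr.pl q) (c : k) = 1 ∧ (∀ p, p ≠ q → ord (Fr.pl p) (c : k) = 0) ∧
    (∀ v ∈ pls Fr.S, LocP v ((c : k) * c₀)) ∧ ∀ p ∈ W, LocSq (Fr.pl p) (c : k)

end

/-! ### the elements -/

section

variable {k L : Type} [Field k] [NumberField k] [Field L] [NumberField L] [Algebra k L]

/-- outside the frame `γ` is a unit or a prime element at one of two conjugate primes; it is not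
a unit outside the frame -/
structure Gdp (Fr : Frm k) (σ : L ≃ₐ[k] L) (γ : Lˣ) : Prop where
  val : ∀ (p : Fr.sys.P) (Q : HeightOneSpectrum (𝓞 L)), Over (Fr.pl p) Q →
    ord Q (γ : L) = 0 ∨ ord Q (γ : L) = 1 ∧ cj σ Q ≠ Q ∧ ord (cj σ Q) (γ : L) = 0
  ex : ∃ (p : Fr.sys.P) (Q : HeightOneSpectrum (𝓞 L)), Over (Fr.pl p) Q ∧ ord Q (γ : L) = 1

/-- the embedding problem of `γ` is solvable at all places -/
def Lft (d : kˣ) (γ : Lˣ) : Prop := ∀ v : Pl k,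
  hv v (Algebra.trace k L (γ : L)) (-((d : k) * Algebra.norm k (γ : L))) = hv v (2 : k) (d : k)

/-- the two elements have the same local classes above the frame -/
def Sam (Fr : Frm k) (γ₁ γ₂ : Lˣ) : Prop :=
  (∀ P ∈ Fr.S, ∀ Q : HeightOneSpectrum (𝓞 L), Over P Q → LocSq Q ((γ₁ : L) * γ₂)) ∧
    ∀ φ : L →+* ℝ, 0 < φ ((γ₁ : L) * γ₂)

/-- `p` is below a prime of `γ` -/
def Sha (Fr : Frm k) (γ : Lˣ) (p : Fr.sys.P) : Prop :=
  ∃ Q : HeightOneSpectrum (𝓞 L), Over (Fr.pl p) Q ∧ ord Q (γ : L) ≠ 0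

/-- the trace of `γ z ^ 2` is `c`, and `z` is a unit above the primes of `γ₁`, `γ₂` and above the
primes of `c` outside the frame -/
structure CT1 (Fr : Frm k) (γ₁ γ₂ γ : Lˣ) (c : kˣ) (z : Lˣ) : Prop where
  tr : Tq k (γ : L) (z : L) = c
  sha : ∀ p : Fr.sys.P, Sha Fr γ₁ p ∨ Sha Fr γ₂ p → Un (Fr.pl p) (z : L)
  cun : ∀ p : Fr.sys.P, ord (Fr.pl p) (c : k) = 0 ∨ Un (Fr.pl p) (z : L)

end

section

variable (k L : Type) [Field k] [NumberField k] [Field L] [NumberField L] [Algebra k L]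

/-- TC11: the trace of an element with a prime outside the frame, its square and its multiple by
`δ` do not vanish -/
def StNz : Prop := ∀ (Fr : Frm k) (d : kˣ) (δ : L), QE d δ → ∀ σ : L ≃ₐ[k] L, σ δ = -δ →
  ∀ γ : Lˣ, Gdp Fr σ γ → ∀ z : Lˣ, Algebra.trace k L ((γ : L) * z ^ 2) ≠ 0 ∧
    Algebra.trace k L (((γ : L) * z ^ 2) ^ 2) ≠ 0 ∧
    Algebra.trace k L ((γ : L) * z ^ 2 * δ) ≠ 0

/-- TC12: the symbols of the common trace -/
def StSy : Prop := ∀ (Fr : Frm k) (d : kˣ) (δ : L), QE d δ → (∀ p, ord (Fr.pl p) (d : k) = 0) →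
  ∀ σ : L ≃ₐ[k] L, σ δ = -δ → ∀ γ₁ γ₂ : Lˣ, Gdp Fr σ γ₁ → Gdp Fr σ γ₂ → Lft d γ₁ → Lft d γ₂ →
    Sam Fr γ₁ γ₂ → ∀ (q : Fr.sys.P) (c : kˣ), ord (Fr.pl q) (c : k) = 1 →
      (∀ p, p ≠ q → ord (Fr.pl p) (c : k) = 0) →
      (∀ v ∈ pls Fr.S, LocP v ((c : k) * Algebra.trace k L (γ₂ : L))) →
      (∀ p : Fr.sys.P, Sha Fr γ₁ p ∨ Sha Fr γ₂ p → LocSq (Fr.pl p) (c : k)) →
      ¬ Sha Fr γ₁ q → ¬ Sha Fr γ₂ q →
      (∀ v : Pl k, hv v (-((d : k) * Algebra.norm k (γ₁ : L)))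
        ((c : k) * Algebra.trace k L (γ₁ : L)) = 0) ∧
      (∀ v : Pl k, hv v (-((d : k) * Algebra.norm k (γ₂ : L)))
        ((c : k) * Algebra.trace k L (γ₂ : L)) = 0) ∧
      LocSq (Fr.pl q) (-((d : k) * Algebra.norm k (γ₁ : L))) ∧
      LocSq (Fr.pl q) (-((d : k) * Algebra.norm k (γ₂ : L)))

/-- TC13: at a prime of `γ` the element `1` is a local solution -/
def StSh : Prop := ∀ (Fr : Frm k) (d : kˣ) (δ : L), QE d δ → (∀ p, ord (Fr.pl p) (d : k) = 0) →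
  ∀ σ : L ≃ₐ[k] L, σ δ = -δ → ∀ γ : Lˣ, Gdp Fr σ γ → Lft d γ → ∀ p : Fr.sys.P, Sha Fr γ p →
    ∀ c : kˣ, ord (Fr.pl p) (c : k) = 0 → LocSq (Fr.pl p) (c : k) →
      RU (Fr.pl p) (γ : L) (c : k) 1

/-- TC14: the common trace; `z₂` is chosen first, then `z₁` with any precision -/
def StCT : Prop := ∀ (Fr : Frm k) (d : kˣ) (δ : L), QE d δ → (∀ p, ord (Fr.pl p) (d : k) = 0) →
  (∀ p, 7 ≤ Fr.sys.N p) → ∀ σ : L ≃ₐ[k] L, σ δ = -δ → ∀ γ₁ γ₂ : Lˣ, Gdp Fr σ γ₁ →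
    Gdp Fr σ γ₂ → Lft d γ₁ → Lft d γ₂ → Sam Fr γ₁ γ₂ → ∃ (c : kˣ) (z₂ : Lˣ),
      (∀ p : Fr.sys.P, ord (Fr.pl p) (c : k) = 0 ∨ ord (Fr.pl p) (c : k) = 1) ∧
      (∀ p : Fr.sys.P, Sha Fr γ₁ p ∨ Sha Fr γ₂ p → ord (Fr.pl p) (c : k) = 0 ∧
        LocSq (Fr.pl p) (c : k)) ∧
      CT1 Fr γ₁ γ₂ γ₂ c z₂ ∧ ∀ N : ℕ, ∃ z₁ : Lˣ, CT1 Fr γ₁ γ₂ γ₁ c z₁ ∧
        (∀ p : Fr.sys.P, Un (Fr.pl p) (z₁ : L) ∨ Un (Fr.pl p) (z₂ : L)) ∧
        ∀ P ∈ Fr.S, Nr P N ((γ₁ : L) * z₁ ^ 2) ((γ₂ : L) * z₂ ^ 2)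

end

end Pool.Agent.SK.TC
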