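import Pool.Agent.SK.TC1
import Pool.Agent.SK.TC3
import Pool.Agent.SK.TC4
import Pool.Agent.SK.TC5
import Pool.Agent.SK.TC7
import Pool.Agent.SK.TC6
import Pool.Agent.SK.TC8
import Pool.Agent.SK.TC10
import Pool.Agent.SK.TC11
import Pool.Agent.SK.TC12
import Pool.Agent.SK.TC14
import Pool.Agent.SK.TC15
import Pool.Agent.H98.MF.C.Main
import Pool.Agent.H98.MF.L.KIn
import Pool.Agent.H98.MF.NNin

/-!
# Malle's conjecture for 8T8 over number fields, part TD: the common trace, final form
-/

set_option autoImplicit false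

open scoped BigOperators
open NumberField IsDedekindDomain

namespace Pool.Agent.SK.TC

open Pool.Agent.H98.MF
open Pool.Agent.SKT (TX STct)

section

variable (k : Type) [Field k] [NumberField k]

/-- there is a prime above two -/
theorem ex_two : ∃ P : HeightOneSpectrum (𝓞 k), 0 < ord P (2 : k) := by
  by_contra hno
  push Not at hno
  have h1 : ∀ P : HeightOneSpectrum (𝓞 k), (2 : 𝓞 k) ∉ P.asIdeal := by
    intro P hP
    have h2 := (le_ord_iff P (2 : 𝓞 k) 1).2 (by rwa [pow_one])
    have h3 : ((2 : 𝓞 k) : k) = 2 := map_ofNat (algebraMap (𝓞 k) k) 2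
    rw [h3] at h2
    rcases h2 with h2 | h2
    · exact two_ne_zero h2
    · have := hno P
      push_cast at h2
      omega
  have h2 : ¬ IsUnit (2 : 𝓞 k) := by
    intro h
    have h3 := (NumberField.isUnit_iff_norm (K := k) (x := (2 : 𝓞 k))).1 h
    have h4 : ((RingOfIntegers.norm ℚ (2 : 𝓞 k) : 𝓞 ℚ) : ℚ) = Algebra.norm ℚ (2 : k) := by
      rw [RingOfIntegers.coe_norm]
      rfl
    rw [h4] at h3
    have h5 : (2 : k) = algebraMap ℚ k 2 := (map_ofNat (algebraMap ℚ k) 2).symm
    rw [h5, Algebra.norm_algebraMap] at h3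
    have h6 : 0 < Module.finrank ℚ k := Module.finrank_pos
    rw [abs_of_pos (by positivity)] at h3
    have h7 : (1 : ℚ) < 2 ^ Module.finrank ℚ k := one_lt_pow₀ (by norm_num) h6.ne'
    exact h7.ne' h3
  obtain ⟨M, hM, h3⟩ := exists_max_ideal_of_mem_nonunits h2
  have hM0 : M ≠ ⊥ := by
    rintro rfl
    rw [Ideal.mem_bot] at h3
    exact two_ne_zero h3
  exact h1 ⟨M, hM.isPrime, hM0⟩ h3

end

section

variable (k L : Type) [Field k] [NumberField k] [Field L] [NumberField L] [Algebra k L]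

/-- the common trace -/
theorem ctAll : StCT k L :=
  ct (trc k L) (lu ff) (lq fq) (wc k L (wl k L (trc k L))) (hn (Pool.Agent.H98.MF.B.hnSt (nin k))) rh
    (prc (Pool.Agent.H98.MF.B.lin k) (Pool.Agent.H98.MF.B.g2St (nin k))) nz
    (sy (Pool.Agent.H98.MF.B.lin k) (Pool.Agent.H98.MF.B.recSt (nin k)) rh nz)
    (sh (Pool.Agent.H98.MF.B.lin k))

end

section

variable {k : Type} [Field k] [NumberField k] {Fr : Frm k} {L : Type} [Field L]
  [NumberField L] [Algebra k L] (tx : TX Fr L)

/-- the common trace in the form `STct` -/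
theorem stctAll : STct tx := by
  obtain ⟨P, hP⟩ := ex_two k
  exact stct tx (kin L) (trc k L) nz (ctAll k L) ⟨P, Fr.adm.two P hP⟩

end

end Pool.Agent.SK.TC
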