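import Pool.Agent.SK.TCDefs
import Pool.Agent.H98.MF.L.WApx

/-!
# Malle's conjecture for 8T8 over number fields, part TD: the common trace, calculus of closeness
-/

set_option autoImplicit false

open scoped BigOperators
open NumberField IsDedekindDomain

namespace Pool.Agent.SK.TC

open Pool.Agent.H98.MF

section

variable {k : Type} [Field k] [NumberField k] {P : HeightOneSpectrum (𝓞 k)}

theorem Cl.mono {N M : ℤ} (h : N ≤ M) {x y : k} (hx : Cl P M x y) : Cl P N x y :=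
  hx.imp id fun h1 => h.trans h1

theorem Cl.refl (N : ℤ) (x : k) : Cl P N x x := Or.inl rfl

theorem cl_iff {N : ℤ} {x y : k} : Cl P N x y ↔ (x - y = 0 ∨ N ≤ ord P (x - y)) := by
  unfold Cl
  rw [sub_eq_zero]

theorem Cl.symm {N : ℤ} {x y : k} (h : Cl P N x y) : Cl P N y x := by
  rcases h with h | h
  · exact Or.inl h.symm
  · right
    rw [← neg_sub, ord_neg]
    exact h

theorem Cl.trans {N : ℤ} {x y z : k} (h : Cl P N x y) (h' : Cl P N y z) : Cl P N x z := by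
  rw [cl_iff] at h h' ⊢
  have h1 := le_ord_add P N h h'
  rwa [sub_add_sub_cancel] at h1

/-- an element close to one is a unit -/
theorem Cl.unit {N : ℤ} (hN : 1 ≤ N) {x : k} (h : Cl P N x 1) : x ≠ 0 ∧ ord P x = 0 := by
  rw [cl_iff] at h
  have h1 := ord_add_eq P (a := (1 : k)) (b := x - 1) one_ne_zero
    (h.imp id fun h2 => by
      rw [ord_one]
      omega)
  rw [add_sub_cancel, ord_one] at h1
  exact h1

theorem le_ord_mul (P : HeightOneSpectrum (𝓞 k)) {x y : k} {n m : ℤ} (hx : x = 0 ∨ n ≤ ord P x)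
    (hy : y = 0 ∨ m ≤ ord P y) : x * y = 0 ∨ n + m ≤ ord P (x * y) := by
  by_cases hx0 : x = 0
  · left
    rw [hx0, zero_mul]
  by_cases hy0 : y = 0
  · left
    rw [hy0, mul_zero]
  right
  rw [ord_mul P hx0 hy0]
  have h1 := hx.resolve_left hx0
  have h2 := hy.resolve_left hy0
  omega

theorem Cl.mul {N : ℤ} (hN : 1 ≤ N) {x y : k} (hx : Cl P N x 1) (hy : Cl P N y 1) :
    Cl P N (x * y) 1 := by
  have h1 := hy.unit hN
  rw [cl_iff] at hx hy ⊢
  have h2 := le_ord_mul P (n := N) (m := 0) hx (Or.inr h1.2.ge)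
  rw [add_zero] at h2
  have h3 := le_ord_add P N h2 hy
  have e : (x - 1) * y + (y - 1) = x * y - 1 := by ring
  rwa [e] at h3

theorem Cl.inv {N : ℤ} (hN : 1 ≤ N) {x : k} (hx : Cl P N x 1) : Cl P N x⁻¹ 1 := by
  have h1 := hx.unit hN
  have h4 := hx.symm
  rw [cl_iff] at h4 ⊢
  have h5 : x⁻¹ = 0 ∨ (0 : ℤ) ≤ ord P x⁻¹ := Or.inr (by rw [ord_inv, h1.2, neg_zero])
  have h2 := le_ord_mul P h4 h5
  rw [add_zero] at h2
  have e : (1 - x) * x⁻¹ = x⁻¹ - 1 := by
    rw [sub_mul, one_mul, mul_inv_cancel₀ h1.1]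
  rwa [e] at h2

theorem Cl.sq {N : ℤ} (hN : 1 ≤ N) {x : k} (hx : Cl P N x 1) : Cl P N (x ^ 2) 1 := by
  rw [pow_two]
  exact hx.mul hN hx

end

section

variable {k L : Type} [Field k] [NumberField k] [Field L] [NumberField L] [Algebra k L]
  {P : HeightOneSpectrum (𝓞 k)} {Q : HeightOneSpectrum (𝓞 L)}

theorem le_ord_map (h : Over P Q) {N : ℤ} (hN : 0 ≤ N) {x : k} (hx : x = 0 ∨ N ≤ ord P x) :
    algebraMap k L x = 0 ∨ N ≤ ord Q (algebraMap k L x) := by
  rcases hx with hx | hx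
  · left
    rw [hx, map_zero]
  · right
    rw [h.ord_map]
    have h1 : (1 : ℤ) ≤ (P.asIdeal.ramificationIdx' Q.asIdeal : ℤ) := by exact_mod_cast h.ram_pos
    nlinarith

theorem Cl.map (h : Over P Q) {N : ℤ} (hN : 0 ≤ N) {x y : k} (hx : Cl P N x y) :
    Cl Q N (algebraMap k L x) (algebraMap k L y) := by
  rw [cl_iff] at hx ⊢
  rw [← map_sub]
  exact le_ord_map h hN hx

theorem ord_map_zero (h : Over P Q) {x : k} (hx : ord P x = 0) :
    ord Q (algebraMap k L x) = 0 := by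
  rw [h.ord_map, hx, mul_zero]

/-- finitely many primes of the frame below the primes where `z` is not a unit -/
theorem un_fin (Fr : Frm k) {z : L} (hz : z ≠ 0) :
    {p : Fr.sys.P | ¬ Un (Fr.pl p) z}.Finite := by
  have h0 := Pool.Agent.H98.MF.ord_finite hz
  have h1 : ∀ p : Fr.sys.P, ¬ Un (Fr.pl p) z →
      ∃ Q : HeightOneSpectrum (𝓞 L), Over (Fr.pl p) Q ∧ ord Q z ≠ 0 := by
    intro p hp
    by_contra h2
    push Not at h2
    exact hp ⟨hz, h2⟩
  rcases Set.eq_empty_or_nonempty {p : Fr.sys.P | ¬ Un (Fr.pl p) z} with h3 | ⟨p₀, hp₀⟩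
  · rw [h3]
    exact Set.finite_empty
  haveI : Nonempty (HeightOneSpectrum (𝓞 L)) := ⟨(h1 p₀ hp₀).choose⟩
  choose! f hf using h1
  refine Set.Finite.of_finite_image (f := f) (h0.subset ?_) ?_
  · rintro _ ⟨p, hp, rfl⟩
    exact (hf p hp).2
  · intro p hp q hq hpq
    have e1 : Over (Fr.pl p) (f p) := (hf p hp).1
    have e2 : Over (Fr.pl q) (f p) := by
      rw [hpq]
      exact (hf q hq).1
    apply Fr.pl_inj
    apply HeightOneSpectrum.ext
    rw [← e1, ← e2]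

omit [NumberField k] in
theorem Nr.unit {N : ℤ} (hN : 1 ≤ N) {z w : L} (h : Nr P N z w) (hQ : Over P Q) (hw : w ≠ 0) :
    z ≠ 0 ∧ ord Q z = ord Q w := by
  have h1 := (h Q hQ).unit hN
  have hz : z ≠ 0 := by
    rintro rfl
    exact h1.1 (zero_div _)
  refine ⟨hz, ?_⟩
  have h2 := h1.2
  rw [ord_div Q hz hw] at h2
  omega

end

end Pool.Agent.SK.TC
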