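import Pool.Agent.D8.ACocA
import Pool.Agent.SK.AStm
import Pool.Agent.H98.MF.L.Defs

/-!
# Malle's conjecture for 8T8 over number fields, the sum with the oscillating character: the
comparison of two homomorphisms with the same trace

Two elements `c / 2 + y √d` with the same trace `c`, the homomorphisms to the semidihedral group
of order 16 attached to them, their comparison at the places of `S`, the polarised obstruction,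
and the tame generators.
-/

set_option autoImplicit false

open scoped BigOperators
open NumberField IsDedekindDomain

namespace Pool.Agent.SK.TP

open Pool.Agent.H98.MF
open Pool.Agent.H32.MA (SD)
open Pool.Agent.D8 (pm p5 bit3 so IsTh IsF ob RxF)

section

variable {k : Type} [Field k] [NumberField k]

/-! ### explicit homomorphisms -/

/-- the powers of an eighth root of unity -/
noncomputable def zp (w : Om k) (x : ZMod 8) : Om k := w ^ x.val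

/-- `e` or its inverse -/
noncomputable def ep (y : ZMod 2) (e : Om k) : Om k := if y = 0 then e else e⁻¹

/-- a homomorphism attached to `c / 2 + y √d` -/
structure Att (d c n : kˣ) (y : k) (ρ : Gm k →* SD) : Prop where
  lc : IsLocallyConstant ρ
  nm : (n : k) = ((c : k) / 2) ^ 2 - d * y ^ 2
  pd : ∀ σ, (ρ σ).pd = chi (d : k) σ
  pa : ∀ σ, (ρ σ).a = chi (d : k) σ + chi (n : k) σ
  pf : IsTh d ((c : k) / 2) y (fun σ => (ρ σ).pf)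

/-- the character giving the exponent -/
noncomputable def un (d n : kˣ) (σ : Gm k) : ZMod 2 :=
  chi (-1 : k) σ + chi (n : k) σ + chi (d : k) σ

/-- the cochain modulo eight -/
noncomputable def Kf (c : kˣ) (ρ : Gm k →* SD) (g : Gm k → ZMod 2) (σ : Gm k) : ZMod 8 :=
  (ρ σ).b - bit3 0 (chi (c : k) σ) (g σ)

/-- the explicit data of a homomorphism attached to `c / 2 + y √d` -/
structure Ex (w r : Om k) (d c n : kˣ) (y : k) (ρ : Gm k →* SD) (θ θ' ε : Om k)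
    (g : Gm k → ZMod 2) : Prop where
  lc : IsLocallyConstant ρ
  lg : IsLocallyConstant g
  w4 : w ^ 4 = -1
  r2 : r ^ 2 = algebraMap k (Om k) (c : k)
  nm : (n : k) = ((c : k) / 2) ^ 2 - d * y ^ 2
  th : θ ^ 2 =
    algebraMap k (Om k) ((c : k) / 2) + algebraMap k (Om k) y * Pool.Agent.H98.MF.sq (d : k)
  th' : θ' ^ 2 =
    algebraMap k (Om k) ((c : k) / 2) - algebraMap k (Om k) y * Pool.Agent.H98.MF.sq (d : k)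
  eps : ε ^ 2 * r = θ + w ^ 2 * θ'
  pd : ∀ σ, (ρ σ).pd = chi (d : k) σ
  pa : ∀ σ, (ρ σ).a = chi (d : k) σ + chi (n : k) σ
  f0 : ∀ σ, chi (d : k) σ = 0 → σ θ = so (ρ σ).pf * θ
  f1 : ∀ σ, chi (d : k) σ = 1 → σ θ = so (ρ σ).pf * θ'
  act : ∀ σ, σ ε = zp w (-(pm (un d n σ) * Kf c ρ g σ)) * ep (un d n σ) ε

/-- the polarised obstruction -/
noncomputable def pol (v : Pl k) (m d c : kˣ) (f T : Gm k → ZMod 2) : ZMod 2 :=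
  ob v m (d * c) (fun σ => f σ + T σ) + ob v m d f + ob v m c T

/-- the sum of the second bits -/
noncomputable def fS (ρ₁ ρ₂ : Gm k →* SD) (σ : Gm k) : ZMod 2 := (ρ₁ σ).pf + (ρ₂ σ).pf

/-- the sum of the third bits and the second bits -/
noncomputable def TS (ρ₁ ρ₂ : Gm k →* SD) (g₁ g₂ : Gm k → ZMod 2) (σ : Gm k) : ZMod 2 :=
  g₁ σ + g₂ σ + fS ρ₁ ρ₂ σ

/-- the tame symbol of `x + y √d` at a prime -/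
noncomputable def tp (P : HeightOneSpectrum (𝓞 k)) (d : kˣ) (x y : k) : ZMod 2 :=
  ((min (ord P x) (ord P y) / 2 : ℤ) : ZMod 2) * qr (d : k) P +
    (if ord P y < ord P x then ((ord P x - ord P y : ℤ) : ZMod 2) * qr y P else 0)

/-- the maximal ideal at the chosen prime above `P` -/
def InM (P : HeightOneSpectrum (𝓞 k)) (x : Om k) : Prop :=
  ∃ a b : 𝓞 (Om k), a ∈ top P ∧ b ∉ top P ∧ x * (b : Om k) = (a : Om k)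

/-- the elements near `1` at the chosen prime above `P`, at the scale `z` -/
def Un (P : HeightOneSpectrum (𝓞 k)) (z : k) (κ : Om k) : Prop :=
  InM P ((κ - 1) / algebraMap k (Om k) z)

/-- equal or close at a prime -/
def Clo (P : HeightOneSpectrum (𝓞 k)) (B : ℤ) (y₁ y₂ : k) : Prop :=
  y₁ = y₂ ∨ B ≤ ord P (y₁ - y₂)

/-- the data of two homomorphisms close to each other at a prime -/
def Near (P : HeightOneSpectrum (𝓞 k)) (w θ₁ θ₁' ε₁ θ₂ θ₂' ε₂ : Om k) (e E : ZMod 2) : Prop :=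
  ∃ (j : ZMod 8) (κ κ' κ'' : Om k), Un P 2 κ ∧ Un P 2 κ' ∧ Un P 2 κ'' ∧
    θ₁ = so e * κ * θ₂ ∧ θ₁' = so (e + E) * κ' * θ₂' ∧ 2 * j = bit3 0 0 e ∧
    ε₁ = zp w j * ep E ε₂ * κ''

end

section

variable (k : Type) [Field k] [NumberField k]

/-! ### the explicit cochain -/

/-- TP1: the explicit data exist -/
def SpEx : Prop := ∀ (w r : Om k) (d c n : kˣ) (y : k) (ρ : Gm k →* SD), w ^ 4 = -1 →
  r ^ 2 = algebraMap k (Om k) (c : k) → Att d c n y ρ → ∃ θ θ' ε g, Ex w r d c n y ρ θ θ' ε g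

/-- TP2: the second bits of the pair -/
def SpIsF : Prop := ∀ (w r : Om k) (d c n₁ n₂ : kˣ) (y₁ y₂ : k) (ρ₁ ρ₂ : Gm k →* SD)
  (θ₁ θ₁' ε₁ θ₂ θ₂' ε₂ : Om k) (g₁ g₂ : Gm k → ZMod 2), Ex w r d c n₁ y₁ ρ₁ θ₁ θ₁' ε₁ g₁ →
  Ex w r d c n₂ y₂ ρ₂ θ₂ θ₂' ε₂ g₂ →
  IsF (n₁ * n₂) d (fS ρ₁ ρ₂) ∧ IsF (n₁ * n₂) c (TS ρ₁ ρ₂ g₁ g₂)

/-! ### the polarised obstruction -/

/-- TP3: local squares, first case -/
def SpPa : Prop := ∀ (v : Pl k) (m d c φ t : kˣ) (f T : Gm k → ZMod 2), IsF m d f → IsF m c T →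
  LocP v (m : k) → (∀ σ ∈ DecP v, f σ = chi (φ : k) σ) → (∀ σ ∈ DecP v, T σ = chi (t : k) σ) →
    pol v m d c f T = hv v (φ : k) (c : k) + hv v (t : k) (d : k)

/-- TP3: local squares, second case -/
def SpPb : Prop := ∀ (v : Pl k) (m d c : kˣ) (f T : Gm k → ZMod 2), IsF m d f → IsF m c T →
  LocP v (d : k) → LocP v (c : k) → pol v m d c f T = 0

/-- TP4: even exponents -/
def SpPc : Prop := ∀ (Fr : Frm k) (Rk : RxF k) (m d c : kˣ) (f T : Gm k → ZMod 2), IsF m d f →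
  IsF m c T → ∀ p, Even (ord (Fr.pl p) (m : k)) → Even (ord (Fr.pl p) (d : k)) →
    Even (ord (Fr.pl p) (c : k)) → f (Rk.tau (Fr.pl p)) = 0 →
      pol (Sum.inl (Fr.pl p)) m d c f T = qr (d : k) (Fr.pl p) * T (Rk.tau (Fr.pl p))

/-- TP5: the product formula -/
def SpPf : Prop := ∀ (Fr : Frm k) (m d c : kˣ) (f T : Gm k → ZMod 2), IsF m d f →
  IsF m c T → {p | pol (Sum.inl (Fr.pl p)) m d c f T ≠ 0}.Finite ∧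
    ∑ v ∈ pls Fr.S, pol v m d c f T = ∑ᶠ p, pol (Sum.inl (Fr.pl p)) m d c f T

/-! ### the primes outside `S` -/

/-- TP6: the value at the tame generator, unit trace -/
def SpOb : Prop := ∀ (Fr : Frm k) (Rk : RxF k) (w r : Om k) (d c n : kˣ) (y : k)
  (ρ : Gm k →* SD) (θ θ' ε : Om k) (g : Gm k → ZMod 2), Ex w r d c n y ρ θ θ' ε g → y ≠ 0 →
  ∀ p, ord (Fr.pl p) (d : k) = 0 → ord (Fr.pl p) (c : k) = 0 → ρ (Rk.tau (Fr.pl p)) = 1 →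
    tp (Fr.pl p) d ((c : k) / 2) y = qr (d : k) (Fr.pl p) * g (Rk.tau (Fr.pl p))

/-- TP7: the value at the tame generator, even positive exponent of the trace -/
def SpOc : Prop := ∀ (Fr : Frm k) (Rk : RxF k) (w r : Om k) (d c n : kˣ) (y : k)
  (ρ : Gm k →* SD) (θ θ' ε : Om k) (g : Gm k → ZMod 2), Ex w r d c n y ρ θ θ' ε g → y ≠ 0 →
  ∀ p, ord (Fr.pl p) (d : k) = 0 → 0 < ord (Fr.pl p) (c : k) → Even (ord (Fr.pl p) (c : k)) →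
    ord (Fr.pl p) y = 0 → ρ (Rk.tau (Fr.pl p)) = 1 →
      g (Rk.tau (Fr.pl p)) = ((ord (Fr.pl p) (c : k) / 2 : ℤ) : ZMod 2)

/-- TP8: the values at the tame generator and the Frobenius element, odd positive exponent of
the trace -/
def SpOd : Prop := ∀ (Fr : Frm k) (Rk : RxF k) (w r : Om k) (d c n₁ n₂ : kˣ) (y₁ y₂ : k)
  (ρ₁ ρ₂ : Gm k →* SD) (θ₁ θ₁' ε₁ θ₂ θ₂' ε₂ : Om k) (g₁ g₂ : Gm k → ZMod 2),
  Ex w r d c n₁ y₁ ρ₁ θ₁ θ₁' ε₁ g₁ → Ex w r d c n₂ y₂ ρ₂ θ₂ θ₂' ε₂ g₂ → y₁ ≠ 0 → y₂ ≠ 0 →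
  ∀ p, ord (Fr.pl p) (d : k) = 0 → 0 < ord (Fr.pl p) (c : k) → Odd (ord (Fr.pl p) (c : k)) →
    ord (Fr.pl p) y₁ = 0 → ord (Fr.pl p) y₂ = 0 → ρ₁ (Rk.tau (Fr.pl p)) = 1 →
    ρ₂ (Rk.tau (Fr.pl p)) = 1 →
      fS ρ₁ ρ₂ (Rk.phi (Fr.pl p)) + qr (d : k) (Fr.pl p) *
        (g₁ (Rk.tau (Fr.pl p)) + g₂ (Rk.tau (Fr.pl p))) = qr y₁ (Fr.pl p) + qr y₂ (Fr.pl p)

variable {k} in
/-- the conditions at a prime outside `S` -/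
def OutC (P : HeightOneSpectrum (𝓞 k)) (τ : Gm k) (d c : kˣ) (y₁ y₂ : k)
    (ρ₁ ρ₂ : Gm k →* SD) : Prop :=
  (LocSq P (d : k) ∧ LocSq P (c : k) ∧ ord P (c : k) = 0 ∧ 0 ≤ ord P y₁ ∧ 0 ≤ ord P y₂) ∨
  (ρ₁ τ = 1 ∧ ρ₂ τ = 1 ∧ (ord P (c : k) = 0 ∨
    (0 < ord P (c : k) ∧ ord P y₁ = 0 ∧ ord P y₂ = 0)))

/-- TP9: the polarised obstruction outside `S` -/
def SpOut : Prop := ∀ (Fr : Frm k) (Rk : RxF k) (w r : Om k) (d c n₁ n₂ : kˣ) (y₁ y₂ : k)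
  (ρ₁ ρ₂ : Gm k →* SD) (θ₁ θ₁' ε₁ θ₂ θ₂' ε₂ : Om k) (g₁ g₂ : Gm k → ZMod 2),
  Ex w r d c n₁ y₁ ρ₁ θ₁ θ₁' ε₁ g₁ → Ex w r d c n₂ y₂ ρ₂ θ₂ θ₂' ε₂ g₂ → y₁ ≠ 0 → y₂ ≠ 0 →
  ∀ p, ord (Fr.pl p) (d : k) = 0 → OutC (Fr.pl p) (Rk.tau (Fr.pl p)) d c y₁ y₂ ρ₁ ρ₂ →
    pol (Sum.inl (Fr.pl p)) (n₁ * n₂) d c (fS ρ₁ ρ₂) (TS ρ₁ ρ₂ g₁ g₂) =
      tp (Fr.pl p) d ((c : k) / 2) y₁ + tp (Fr.pl p) d ((c : k) / 2) y₂

/-! ### the places of `S` -/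

/-- TP10: elements of `k` close to zero -/
def SpVa : Prop := ∀ (P : HeightOneSpectrum (𝓞 k)) (l : Om k), ∃ B : ℤ, ∀ z : k,
  (z = 0 ∨ B ≤ ord P z) → InM P (algebraMap k (Om k) z * l)

/-- TP10: the elements near `1` -/
def SpUn : Prop := ∀ (P : HeightOneSpectrum (𝓞 k)) (z : k), z ≠ 0 → ord P (2 : k) ≤ ord P z →
  (Un P z (1 : Om k)) ∧
  (∀ κ κ' : Om k, Un P z κ → Un P z κ' → Un P z (κ * κ')) ∧
  (∀ κ : Om k, Un P z κ → κ ≠ 0 ∧ Un P z κ⁻¹) ∧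
  (∀ σ ∈ Dec P, ∀ κ : Om k, Un P z κ → Un P z (σ κ)) ∧
  (∀ (z' : k) (κ : Om k), z' ≠ 0 → ord P z ≤ ord P z' → Un P z' κ → Un P z κ) ∧
  (∀ κ : Om k, Un P (2 * z) (κ ^ 2) → Un P z κ ∨ Un P z (-κ)) ∧
  (∀ w : Om k, w ^ 4 = -1 → ∀ j : ZMod 8, Un P z (zp w j) → j = 0)

/-- TP11: the norms are locally equal up to squares -/
def SpSq : Prop := ∀ (P : HeightOneSpectrum (𝓞 k)) (d c n₂ : kˣ) (y₂ : k),
  (n₂ : k) = ((c : k) / 2) ^ 2 - d * y₂ ^ 2 → ∃ B : ℤ, ∀ (n₁ : kˣ) (y₁ : k),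
    (n₁ : k) = ((c : k) / 2) ^ 2 - d * y₁ ^ 2 → Clo P B y₁ y₂ → LocSq P ((n₁ * n₂ : kˣ) : k)

/-- TP12: close elements have close data -/
def SpNear : Prop := ∀ (P : HeightOneSpectrum (𝓞 k)) (d c n₂ : kˣ) (y₂ : k), ∃ B : ℤ,
  ∀ (w r : Om k) (n₁ : kˣ) (y₁ : k) (ρ₁ ρ₂ : Gm k →* SD) (θ₁ θ₁' ε₁ θ₂ θ₂' ε₂ : Om k)
    (g₁ g₂ : Gm k → ZMod 2), Ex w r d c n₁ y₁ ρ₁ θ₁ θ₁' ε₁ g₁ →
    Ex w r d c n₂ y₂ ρ₂ θ₂ θ₂' ε₂ g₂ → Clo P B y₁ y₂ →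
      ∃ e E : ZMod 2, Near P w θ₁ θ₁' ε₁ θ₂ θ₂' ε₂ e E

/-- TP13: the comparison on the decomposition group -/
def SpCmp : Prop := ∀ (P : HeightOneSpectrum (𝓞 k)) (w r : Om k) (d c n₁ n₂ : kˣ) (y₁ y₂ : k)
  (ρ₁ ρ₂ : Gm k →* SD) (θ₁ θ₁' ε₁ θ₂ θ₂' ε₂ : Om k) (g₁ g₂ : Gm k → ZMod 2) (e E : ZMod 2),
  Ex w r d c n₁ y₁ ρ₁ θ₁ θ₁' ε₁ g₁ → Ex w r d c n₂ y₂ ρ₂ θ₂ θ₂' ε₂ g₂ →
  LocSq P ((n₁ * n₂ : kˣ) : k) → Near P w θ₁ θ₁' ε₁ θ₂ θ₂' ε₂ e E → ∀ σ ∈ Dec P,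
    (ρ₁ σ).pf = (ρ₂ σ).pf + E * chi (d : k) σ ∧ ρ₁ σ = au (Pool.Agent.H32.MA.pw E) (ρ₂ σ *
      SD.zz (g₁ σ + g₂ σ + e * (chi (d : k) σ + chi (n₂ : k) σ) +
        E * (chi (d : k) σ + chi (c : k) σ)))

/-- TP14: the polarised obstruction at a prime where the data are close -/
def SpFin : Prop := ∀ (P : HeightOneSpectrum (𝓞 k)) (w r : Om k) (d c n₁ n₂ cc : kˣ)
  (y₁ y₂ : k) (ρ₁ ρ₂ : Gm k →* SD) (θ₁ θ₁' ε₁ θ₂ θ₂' ε₂ : Om k) (g₁ g₂ : Gm k → ZMod 2)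
  (e E : ZMod 2) (u : ZMod 8), Ex w r d c n₁ y₁ ρ₁ θ₁ θ₁' ε₁ g₁ → Ex w r d c n₂ y₂ ρ₂ θ₂ θ₂' ε₂ g₂ →
  LocSq P ((n₁ * n₂ : kˣ) : k) → Near P w θ₁ θ₁' ε₁ θ₂ θ₂' ε₂ e E → hs P (d : k) (-1) = 0 →
  u * u = 1 → (∀ σ ∈ Dec P, ρ₁ σ = au u (twS ρ₂ cc σ)) →
    pol (Sum.inl P) (n₁ * n₂) d c (fS ρ₁ ρ₂) (TS ρ₁ ρ₂ g₁ g₂) = hs P (d : k) (cc : k)

/-- TP15: the polarised obstruction at a real place -/
def SpRe : Prop := ∀ (ψ : k →+* ℝ) (w r : Om k) (d c n₁ n₂ cc : kˣ) (y₁ y₂ : k)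
  (ρ₁ ρ₂ : Gm k →* SD) (θ₁ θ₁' ε₁ θ₂ θ₂' ε₂ : Om k) (g₁ g₂ : Gm k → ZMod 2),
  Ex w r d c n₁ y₁ ρ₁ θ₁ θ₁' ε₁ g₁ → Ex w r d c n₂ y₂ ρ₂ θ₂ θ₂' ε₂ g₂ →
  hsR ψ (d : k) (-1) = 0 → (∀ s : ℝ, s ^ 2 = ψ (d : k) →
    0 < (ψ ((c : k) / 2) + ψ y₁ * s) * (ψ ((c : k) / 2) + ψ y₂ * s)) →
    hsR ψ (d : k) (cc : k) = 0 ∧
    pol (Sum.inr ψ) (n₁ * n₂) d c (fS ρ₁ ρ₂) (TS ρ₁ ρ₂ g₁ g₂) = 0

/-! ### the result -/

/-- TP16: the comparison of two homomorphisms with the same trace -/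
def SpD : Prop := ∀ (Fr : Frm k) (Rk : RxF k) (d c n₂ : kˣ) (y₂ : k), ∃ B : ℤ,
  ∀ (n₁ : kˣ) (y₁ : k) (ρ₁ ρ₂ : Gm k →* SD) (cv : Pl k → kˣ),
  Att d c n₁ y₁ ρ₁ → Att d c n₂ y₂ ρ₂ →
  (∀ v : Pl k, hv v (d : k) (-1) = 0) → (∀ p, ord (Fr.pl p) (d : k) = 0) → y₁ ≠ 0 → y₂ ≠ 0 →
  (∀ P ∈ Fr.S, Clo P B y₁ y₂) →
  (∀ (ψ : k →+* ℝ) (s : ℝ), s ^ 2 = ψ (d : k) →
    0 < (ψ ((c : k) / 2) + ψ y₁ * s) * (ψ ((c : k) / 2) + ψ y₂ * s)) →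
  (∀ p, OutC (Fr.pl p) (Rk.tau (Fr.pl p)) d c y₁ y₂ ρ₁ ρ₂) →
  (∀ v ∈ pls Fr.S, ∃ u : ZMod 8, u * u = 1 ∧ ∀ σ ∈ DecP v, ρ₁ σ = au u (twS ρ₂ (cv v) σ)) →
    ∑ v ∈ pls Fr.S, hv v (d : k) (cv v : k) =
      ∑ᶠ p, (tp (Fr.pl p) d ((c : k) / 2) y₁ + tp (Fr.pl p) d ((c : k) / 2) y₂)

end

end Pool.Agent.SK.TP
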