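import Pool.Agent.SK.TP
import Pool.Agent.D8.AObF

/-!
# 8T8-TP14: the polarised obstruction at a prime where the data are close
-/

set_option autoImplicit false

open scoped BigOperators
open NumberField IsDedekindDomain

namespace Pool.Agent.SK.TP

open Pool.Agent.H98.MF
open Pool.Agent.H32.MA (SD pw)
open Pool.Agent.D8 (pm p5 bit3 so IsTh IsF ob RxF)

/-! ### the group -/

theorem fin14_a (E x h : ZMod 2) (g : SD) (u : ZMod 8) (hu : u = pw E)
    (H : au u (g * SD.zz x) = au (pw E) (g * SD.zz h)) : x = h := by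
  subst hu
  revert E x h g
  decide

theorem fin14_b (E x h : ZMod 2) (g : SD) (u : ZMod 8) (hu : u = 5 * pw E)
    (H : au u (g * SD.zz x) = au (pw E) (g * SD.zz h)) : x = h + g.pd := by
  subst hu
  revert E x h g
  decide

theorem fin14_c (E x h : ZMod 2) (g : SD) (u : ZMod 8) (hu : u * u = 1) (h1 : u ≠ pw E)
    (h2 : u ≠ 5 * pw E) (H : au u (g * SD.zz x) = au (pw E) (g * SD.zz h)) : g.pd = 0 := by
  revert E x h g u
  decide

section

variable {k : Type} [Field k] [NumberField k]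

theorem fin14_one (σ : Gm k) : chi ((1 : kˣ) : k) σ = 0 := by
  have h := D8.aob_chi_mul (1 : kˣ) 1 σ
  rw [mul_one] at h
  revert h
  generalize chi ((1 : kˣ) : k) σ = z
  revert z
  decide

theorem fin14_chi (y : kˣ) (e : ZMod 2) (σ : Gm k) :
    chi ((y ^ e.val : kˣ) : k) σ = e * chi (y : k) σ := by
  rcases (by revert e; decide : e = 0 ∨ e = 1) with rfl | rfl
  · rw [ZMod.val_zero, pow_zero, zero_mul]
    exact fin14_one σ
  · rw [show (1 : ZMod 2).val = 1 from rfl, pow_one, one_mul]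

theorem fin14_hv1 (v : Pl k) (d : kˣ) : hv v (d : k) ((1 : kˣ) : k) = 0 := by
  have h := (B.lin k).mulR v d 1 1
  rw [mul_one] at h
  revert h
  generalize hv v (d : k) ((1 : kˣ) : k) = z
  revert z
  decide

theorem fin14_hv (v : Pl k) (d y : kˣ) (e : ZMod 2) :
    hv v (d : k) ((y ^ e.val : kˣ) : k) = e * hv v (d : k) (y : k) := by
  rcases (by revert e; decide : e = 0 ∨ e = 1) with rfl | rfl
  · rw [ZMod.val_zero, pow_zero, zero_mul]
    exact fin14_hv1 v d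
  · rw [show (1 : ZMod 2).val = 1 from rfl, pow_one, one_mul]

theorem fin14_id (D N C a b e E s : ZMod 2) : a + b + e * (D + N) + E * (D + C) + s * D +
    (a + b + E * D + e * (D + N) + E * C + s * D) = 0 := by
  revert D N C a b e E s
  decide

theorem fin14_z2 (a b : ZMod 2) (h : a + b = 0) : a = b := by
  revert a b
  decide

variable (k) in
theorem spFin (hC : SpCmp k) (hF : SpIsF k) (ha : SpPa k) (hCh : D8.SaChr k) : SpFin k := by
  intro P w r d c n₁ n₂ cc y₁ y₂ ρ₁ ρ₂ θ₁ θ₁' ε₁ θ₂ θ₂' ε₂ g₁ g₂ e E u h1 h2 hsq hN hd1 hu hloc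
  have hK := kin k
  have hL := B.lin k
  obtain ⟨hf, hT⟩ := hF w r d c n₁ n₂ y₁ y₂ ρ₁ ρ₂ θ₁ θ₁' ε₁ θ₂ θ₂' ε₂ g₁ g₂ h1 h2
  have hcmp := hC P w r d c n₁ n₂ y₁ y₂ ρ₁ ρ₂ θ₁ θ₁' ε₁ θ₂ θ₂' ε₂ g₁ g₂ e E h1 h2 hsq hN
  set v : Pl k := Sum.inl P with hv0
  have hm : LocP v ((n₁ * n₂ : kˣ) : k) := hsq
  obtain ⟨t, ht⟩ := hCh (n₁ * n₂) c v _ hT (Or.inl hm)
  have hfφ : ∀ σ ∈ DecP v, fS ρ₁ ρ₂ σ = chi ((d ^ E.val : kˣ) : k) σ := by
    intro σ hσ
    rw [fin14_chi]
    unfold fS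
    rw [(hcmp σ hσ).1]
    have h3 : ∀ a b : ZMod 2, a + b + a = b := by decide
    exact h3 _ _
  have hpol := ha v (n₁ * n₂) d c (d ^ E.val) t _ _ hf hT hm hfφ ht
  rw [hpol]
  have e1 : hv v ((d ^ E.val : kˣ) : k) (c : k) = E * hv v (d : k) (c : k) := by
    rw [hL.symm, fin14_hv, hL.symm]
  rw [e1]
  show E * hv v (d : k) (c : k) + hv v (t : k) (d : k) = hv v (d : k) (cc : k)
  have hdd : hv v (d : k) (d : k) = 0 := by
    rw [D8.aob_self, Units.val_neg, Units.val_one]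
    exact hd1
  have hdn : hv v (d : k) (n₂ : k) = 0 := hL.nm v d n₂ ((c : k) / 2) y₂ h2.nm
  -- the comparison of the two descriptions
  have hg : ∀ σ ∈ DecP v, au u (ρ₂ σ * SD.zz (chi (cc : k) σ)) = au (pw E) (ρ₂ σ *
      SD.zz (g₁ σ + g₂ σ + e * (chi (d : k) σ + chi (n₂ : k) σ) +
        E * (chi (d : k) σ + chi (c : k) σ))) := by
    intro σ hσ
    rw [← (hcmp σ hσ).2, hloc σ hσ, twS_apply]
  -- the main case
  have main : ∀ s : ZMod 2, (∀ σ ∈ DecP v, chi (cc : k) σ = g₁ σ + g₂ σ +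
      e * (chi (d : k) σ + chi (n₂ : k) σ) + E * (chi (d : k) σ + chi (c : k) σ) +
        s * chi (d : k) σ) →
      E * hv v (d : k) (c : k) + hv v (t : k) (d : k) = hv v (d : k) (cc : k) := by
    intro s hs
    have h3 : LocP v ((cc * (t * (d * n₂) ^ e.val * c ^ E.val * d ^ s.val) : kˣ) : k) := by
      rw [← hK.one v]
      intro σ hσ
      have h4 := ht σ hσ
      unfold TS at h4
      rw [hfφ σ hσ, fin14_chi] at h4
      rw [D8.aob_chi_mul, D8.aob_chi_mul, D8.aob_chi_mul, D8.aob_chi_mul, fin14_chi, fin14_chi,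
        fin14_chi, D8.aob_chi_mul, hs σ hσ, ← h4]
      exact fin14_id _ _ _ _ _ _ _ _
    have h4 : hv v (d : k) ((cc * (t * (d * n₂) ^ e.val * c ^ E.val * d ^ s.val) : kˣ) : k) = 0 := by
      rw [hL.symm]
      exact (hL.nd v _).2 h3 d
    rw [hL.mulR, hL.mulR, hL.mulR, hL.mulR, fin14_hv, fin14_hv, fin14_hv, hL.mulR, hdd, hdn] at h4
    have h5 := fin14_z2 _ _ h4
    rw [h5, hL.symm v t d]
    ring
  by_cases hu1 : u = pw E
  · refine main 0 fun σ hσ => ?_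
    rw [zero_mul, add_zero]
    exact fin14_a E _ _ _ u hu1 (hg σ hσ)
  by_cases hu2 : u = 5 * pw E
  · refine main 1 fun σ hσ => ?_
    have h3 := fin14_b E _ _ _ u hu2 (hg σ hσ)
    rw [h2.pd σ] at h3
    rw [one_mul]
    exact h3
  · have h3 : LocP v (d : k) := by
      rw [← hK.one v]
      intro σ hσ
      rw [← h2.pd σ]
      exact fin14_c E _ _ _ u hu hu1 hu2 (hg σ hσ)
    have h4 := (hL.nd v d).2 h3
    rw [h4 c, h4 cc, hL.symm v t d, h4 t, mul_zero, add_zero]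

end

end Pool.Agent.SK.TP
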