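import Pool.Agent.SK.TP

/-!
# Malle's conjecture for 8T8 over number fields, the sum with the oscillating character: the
comparison exists
-/

set_option autoImplicit false

open scoped BigOperators
open NumberField IsDedekindDomain

namespace Pool.Agent.SK.TP

open Pool.Agent.H98.MF
open Pool.Agent.H32.MA (SD)
open Pool.Agent.D8 (pm p5 bit3 so IsTh IsF ob RxF)

section

variable (k : Type) [Field k] [NumberField k]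

/-- TP22: the second bits at a real place -/
def SpRf : Prop := ∀ (ψ : k →+* ℝ) (w r : Om k) (d c n₁ n₂ : kˣ) (y₁ y₂ : k)
  (ρ₁ ρ₂ : Gm k →* SD) (θ₁ θ₁' ε₁ θ₂ θ₂' ε₂ : Om k) (g₁ g₂ : Gm k → ZMod 2),
  Ex w r d c n₁ y₁ ρ₁ θ₁ θ₁' ε₁ g₁ → Ex w r d c n₂ y₂ ρ₂ θ₂ θ₂' ε₂ g₂ →
  hsR ψ (d : k) (-1) = 0 → (∀ s : ℝ, s ^ 2 = ψ (d : k) →
    0 < (ψ ((c : k) / 2) + ψ y₁ * s) * (ψ ((c : k) / 2) + ψ y₂ * s)) →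
    0 < ψ (d : k) ∧ 0 < ψ ((n₁ * n₂ : kˣ) : k) ∧ ∀ σ ∈ DecR ψ, fS ρ₁ ρ₂ σ = 0

/-- TP22: the comparison exists -/
def SpDx : Prop := ∀ (Fr : Frm k) (d c n₂ : kˣ) (y₂ : k), ∃ B : ℤ,
  ∀ (n₁ : kˣ) (y₁ : k) (ρ₁ ρ₂ : Gm k →* SD), Att d c n₁ y₁ ρ₁ → Att d c n₂ y₂ ρ₂ →
  (∀ v : Pl k, hv v (d : k) (-1) = 0) → (∀ P ∈ Fr.S, Clo P B y₁ y₂) →
  (∀ (ψ : k →+* ℝ) (s : ℝ), s ^ 2 = ψ (d : k) →
    0 < (ψ ((c : k) / 2) + ψ y₁ * s) * (ψ ((c : k) / 2) + ψ y₂ * s)) →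
    ∃ (e : Pl k → ZMod 2) (cv : Pl k → kˣ), ∀ v ∈ pls Fr.S, ∀ σ ∈ DecP v,
      ρ₁ σ = (if e v = 0 then ρ₂ σ else SD.ss * ρ₂ σ * SD.ss⁻¹) * SD.zz (chi (cv v : k) σ)

end

end Pool.Agent.SK.TP
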