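import Pool.Agent.SK.TP
import Pool.Agent.D8.ACocA

/-!
# Malle's conjecture for 8T8 over number fields, row TP1: the explicit data exist
(helper30)
-/

set_option autoImplicit false

open scoped BigOperators
open NumberField IsDedekindDomain

namespace Pool.Agent.SK.TP

open Pool.Agent.H98.MF
open Pool.Agent.H32.MA (SD)
open Pool.Agent.D8 (pm p5 bit3 so IsTh ac2_z2 ac2_one_ne ac2_so_zero ac2_so_one ac2_so_add
  ac2_so_sq ac2_so_ne ac2_root ac2_zp ac2_ep ac2_m ac2_B ac2_bits ac2_pm_sq ac2_zm0 ac2_zm1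
  ac2_aux ac2_zp_add ac2_zp_four ac2_zp_inj ac2_ep_ne ac2_ep_mul ac2_ep_zero ac2_ep_one)

private theorem tpa_bits : ∀ (g : SD) (X h : ZMod 2),
    bit3 0 X (ac2_B (g.b - bit3 g.pd (g.pf + X) h)) = g.b - bit3 g.pd (g.pf + X) h := by
  decide

private theorem tpa_pm (u : ZMod 2) (q : ZMod 8) : -(pm u * -(pm u * q)) = q := by
  revert u q; decide

section

variable {k : Type} [Field k] [NumberField k]

private theorem tpa_key (w r : Om k) (d c n : kˣ) (y : k) (f : Gm k → ZMod 2) (θ θ' : Om k)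
    (hw : w ^ 4 = -1) (hr2 : r ^ 2 = algebraMap k (Om k) (c : k))
    (hab : (n : k) = ((c : k) / 2) ^ 2 - d * y ^ 2)
    (hθ : θ ^ 2 =
      algebraMap k (Om k) ((c : k) / 2) + algebraMap k (Om k) y * Pool.Agent.H98.MF.sq (d : k))
    (hθ' : θ' ^ 2 =
      algebraMap k (Om k) ((c : k) / 2) - algebraMap k (Om k) y * Pool.Agent.H98.MF.sq (d : k))
    (h0 : ∀ σ, chi (d : k) σ = 0 → σ θ = so (f σ) * θ)
    (h1 : ∀ σ, chi (d : k) σ = 1 → σ θ = so (f σ) * θ') :
    ∃ ε : Om k, ε ≠ 0 ∧ ε ^ 2 * r = θ + w ^ 2 * θ' ∧ ∀ σ : Gm k, ∃ q : ZMod 8,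
      σ ε = ac2_zp w q * ac2_ep (chi (-1 : k) σ + chi (n : k) σ + chi (d : k) σ) ε ∧
      (q = ac2_m (chi (d : k) σ) (f σ + chi (c : k) σ) (chi (-1 : k) σ + chi (n : k) σ) ∨
       q = ac2_m (chi (d : k) σ) (f σ + chi (c : k) σ) (chi (-1 : k) σ + chi (n : k) σ) + 4) := by
  have hi2 : (w ^ 2) ^ 2 = algebraMap k (Om k) (-1) := by
    rw [map_neg, map_one, ← pow_mul]
    exact hw
  have hT : (c : k) ≠ 0 := c.ne_zero
  set i : Om k := w ^ 2 with hi
  have hii : i * i = -1 := by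
    have := hi2
    rw [map_neg, map_one] at this
    linear_combination this
  have hTO : algebraMap k (Om k) (c : k) ≠ 0 := by
    rw [Ne, map_eq_zero]
    exact hT
  have hr0 : r ≠ 0 := by
    intro h
    rw [h] at hr2
    apply hTO
    rw [← hr2]
    ring
  have hprod0 : (algebraMap k (Om k) ((c : k) / 2) +
      algebraMap k (Om k) y * Pool.Agent.H98.MF.sq (d : k)) *
      (algebraMap k (Om k) ((c : k) / 2) -
        algebraMap k (Om k) y * Pool.Agent.H98.MF.sq (d : k)) =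
      algebraMap k (Om k) n := by
    rw [hab, map_sub, map_mul, map_pow, map_pow]
    linear_combination (-(algebraMap k (Om k) y) ^ 2) * sq_sq (d : k)
  have ha0 : algebraMap k (Om k) n ≠ 0 := by
    rw [Ne, map_eq_zero]
    exact n.ne_zero
  have hjb : algebraMap k (Om k) ((c : k) / 2) +
      algebraMap k (Om k) y * Pool.Agent.H98.MF.sq (d : k) ≠ 0 := by
    intro h
    rw [h, zero_mul] at hprod0
    exact ha0 hprod0.symm
  have hjb' : algebraMap k (Om k) ((c : k) / 2) -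
      algebraMap k (Om k) y * Pool.Agent.H98.MF.sq (d : k) ≠ 0 := by
    intro h
    rw [h, mul_zero] at hprod0
    exact ha0 hprod0.symm
  have hθ0 : θ ≠ 0 := by
    intro h
    rw [h] at hθ
    apply hjb
    rw [← hθ]
    ring
  have hθ'0 : θ' ≠ 0 := by
    intro h
    rw [h] at hθ'
    apply hjb'
    rw [← hθ']
    ring
  have hc2 : algebraMap k (Om k) ((c : k) / 2) + algebraMap k (Om k) ((c : k) / 2) =
      algebraMap k (Om k) (c : k) := by
    rw [← map_add, add_halves]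
  have hsum : θ ^ 2 + θ' ^ 2 = r ^ 2 := by
    rw [hθ, hθ', hr2]
    linear_combination hc2
  have hprod : (θ * θ') ^ 2 = algebraMap k (Om k) n := by
    rw [mul_pow, hθ, hθ', hprod0]
  have hmul : (θ + i * θ') * (θ - i * θ') = r ^ 2 := by
    linear_combination hsum - θ' ^ 2 * hii
  have hnum : θ + i * θ' ≠ 0 := by
    intro h
    rw [h, zero_mul] at hmul
    exact (pow_ne_zero 2 hr0) hmul.symm
  have hζ0 : (θ + i * θ') / r ≠ 0 := div_ne_zero hnum hr0
  have hζi : ((θ + i * θ') / r)⁻¹ = (θ - i * θ') / r := by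
    apply inv_eq_of_mul_eq_one_right
    rw [div_mul_div_comm, hmul, pow_two, div_self (mul_ne_zero hr0 hr0)]
  have hep : ∀ y : ZMod 2, ac2_ep y ((θ + i * θ') / r) = (θ + so y * (i * θ')) / r := by
    intro y
    rcases ac2_z2 y with rfl | rfl
    · rw [ac2_ep_zero, ac2_so_zero, one_mul]
    · rw [ac2_ep_one, hζi, ac2_so_one]
      ring
  obtain ⟨ε, hε⟩ := IsAlgClosed.exists_pow_nat_eq ((θ + i * θ') / r) (n := 2) two_pos
  have hε0 : ε ≠ 0 := by
    intro h
    rw [h] at hε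
    apply hζ0
    rw [← hε]
    ring
  refine ⟨ε, hε0, by rw [hε, div_mul_cancel₀ _ hr0], ?_⟩
  intro σ
  have hσi := ac2_root (-1) (neg_ne_zero.2 one_ne_zero) i hi2 σ
  have hσr := ac2_root (c : k) hT r hr2 σ
  have hσp := ac2_root (n : k) n.ne_zero (θ * θ') hprod σ
  rw [map_mul] at hσp
  have hF := ac2_so_sq (k := k) (f σ)
  have hA1 := ac2_so_sq (k := k) (chi (-1 : k) σ)
  have hN1 := ac2_so_sq (k := k) (chi (n : k) σ)
  have hT1 := ac2_so_sq (k := k) (chi (c : k) σ)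
  have hF0 := ac2_so_ne (k := k) (f σ)
  have hT0 := ac2_so_ne (k := k) (chi (c : k) σ)
  have key : σ ((θ + i * θ') / r) =
      ac2_zp w (2 * ac2_m (chi (d : k) σ) (f σ + chi (c : k) σ)
        (chi (-1 : k) σ + chi (n : k) σ)) *
      ac2_ep (chi (-1 : k) σ + chi (n : k) σ + chi (d : k) σ) ((θ + i * θ') / r) := by
    rw [map_div₀, map_add, map_mul, hσi, hσr, hep]
    rcases ac2_z2 (chi (d : k) σ) with hd | hd
    · have h2 := h0 σ hd
      have h3 : σ θ' = so (f σ) * so (chi (n : k) σ) * θ' := by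
        rw [h2] at hσp
        apply mul_left_cancel₀ (mul_ne_zero hF0 hθ0)
        rw [hσp]
        linear_combination (-(so (chi (n : k) σ) * θ * θ')) * hF
      rw [h2, h3, hd, ac2_zm0 hw, add_zero, ac2_so_add, ac2_so_add]
      rw [div_eq_iff (mul_ne_zero hT0 hr0), ac2_aux _ _ _ _ hr0]
      linear_combination (-(so (f σ) * (θ + so (chi (-1 : k) σ) * so (chi (n : k) σ) *
        (i * θ')))) * hT1
    · have h2 := h1 σ hd
      have h3 : σ θ' = so (f σ) * so (chi (n : k) σ) * θ := by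
        rw [h2] at hσp
        apply mul_left_cancel₀ (mul_ne_zero hF0 hθ'0)
        rw [hσp]
        linear_combination (-(so (chi (n : k) σ) * θ * θ')) * hF
      rw [h2, h3, hd, ac2_zm1 hw]
      simp only [ac2_so_add, ac2_so_one]
      rw [div_eq_iff (mul_ne_zero hT0 hr0), ← hi, ac2_aux _ _ _ _ hr0]
      linear_combination (-(so (f σ) * (so (chi (-1 : k) σ) * so (chi (n : k) σ) * i * θ -
        (so (chi (-1 : k) σ) * so (chi (n : k) σ)) ^ 2 * i ^ 2 * θ'))) * hT1 +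
        so (f σ) * θ' * so (chi (n : k) σ) ^ 2 * i ^ 2 * hA1 + so (f σ) * θ' * i ^ 2 * hN1 +
        so (f σ) * θ' * hii
  set m : ZMod 8 := ac2_m (chi (d : k) σ) (f σ + chi (c : k) σ)
    (chi (-1 : k) σ + chi (n : k) σ) with hm
  set u : ZMod 2 := chi (-1 : k) σ + chi (n : k) σ + chi (d : k) σ with hu
  have hsq : (σ ε) ^ 2 = (ac2_zp w m * ac2_ep u ε) ^ 2 := by
    rw [← map_pow, hε, key, two_mul, ac2_zp_add hw, ← hε, pow_two ε, ac2_ep_mul]
    ring
  rcases sq_eq_sq_iff_eq_or_eq_neg.1 hsq with h | h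
  · exact ⟨m, h, Or.inl rfl⟩
  · refine ⟨m + 4, ?_, Or.inr rfl⟩
    rw [h, ac2_zp_add hw, ac2_zp_four hw]
    ring

end

/-- **Row TP1**: the explicit data exist. -/
theorem spEx (k : Type) [Field k] [NumberField k] : SpEx k := by
  intro w r d c n y ρ hw hr2 hA
  obtain ⟨θ, θ', hθ, hθ', h0, h1⟩ := hA.pf
  obtain ⟨ε, hε0, hε, hk⟩ := tpa_key w r d c n y (fun σ => (ρ σ).pf) θ θ' hw hr2 hA.nm hθ hθ'
    h0 h1
  choose q hk1 hk2 using hk
  have hKl : IsLocallyConstant
      (fun σ : Gm k => -(pm (chi (-1 : k) σ + chi (n : k) σ + chi (d : k) σ) * q σ)) := by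
    classical
    apply B.loc_of_values {ε, Pool.Agent.H98.MF.sq (-1 : k), Pool.Agent.H98.MF.sq (n : k),
      Pool.Agent.H98.MF.sq (d : k)}
    intro σ τ h
    have h1 : σ ε = τ ε := h _ (by simp)
    have h2 : chi (-1 : k) σ = chi (-1 : k) τ := by
      unfold chi
      rw [h (Pool.Agent.H98.MF.sq (-1 : k)) (by simp)]
    have h3 : chi (n : k) σ = chi (n : k) τ := by
      unfold chi
      rw [h (Pool.Agent.H98.MF.sq (n : k)) (by simp)]
    have h4 : chi (d : k) σ = chi (d : k) τ := by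
      unfold chi
      rw [h (Pool.Agent.H98.MF.sq (d : k)) (by simp)]
    rw [hk1 σ, hk1 τ, h2, h3, h4] at h1
    have h5 := ac2_zp_inj hw (mul_right_cancel₀ (ac2_ep_ne _ hε0) h1)
    rw [h2, h3, h4, h5]
  have hbit : ∀ σ : Gm k,
      bit3 (chi (d : k) σ) ((ρ σ).pf + chi (c : k) σ)
        (ac2_B (-(pm (chi (-1 : k) σ + chi (n : k) σ + chi (d : k) σ) * q σ))) =
      -(pm (chi (-1 : k) σ + chi (n : k) σ + chi (d : k) σ) * q σ) :=
    fun σ => ac2_bits _ _ _ _ (hk2 σ)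
  have hg : ∀ σ : Gm k, bit3 0 (chi (c : k) σ) (ac2_B ((ρ σ).b -
      -(pm (chi (-1 : k) σ + chi (n : k) σ + chi (d : k) σ) * q σ))) = (ρ σ).b -
      -(pm (chi (-1 : k) σ + chi (n : k) σ + chi (d : k) σ) * q σ) := by
    intro σ
    have h2 := tpa_bits (ρ σ) (chi (c : k) σ)
      (ac2_B (-(pm (chi (-1 : k) σ + chi (n : k) σ + chi (d : k) σ) * q σ)))
    rw [hA.pd σ, hbit σ] at h2
    exact h2
  refine ⟨θ, θ', ε, fun σ => ac2_B ((ρ σ).b -
      -(pm (chi (-1 : k) σ + chi (n : k) σ + chi (d : k) σ) * q σ)), ?_⟩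
  have hKf : ∀ σ, Kf c ρ (fun σ => ac2_B ((ρ σ).b -
      -(pm (chi (-1 : k) σ + chi (n : k) σ + chi (d : k) σ) * q σ))) σ =
      -(pm (chi (-1 : k) σ + chi (n : k) σ + chi (d : k) σ) * q σ) := by
    intro σ
    show (ρ σ).b - bit3 0 (chi (c : k) σ) (ac2_B ((ρ σ).b -
      -(pm (chi (-1 : k) σ + chi (n : k) σ + chi (d : k) σ) * q σ))) = _
    rw [hg σ, sub_sub_cancel]
  exact
    { lc := hA.lc
      lg := (hA.lc.prodMk hKl).comp (fun p : SD × ZMod 8 => ac2_B (p.1.b - p.2))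
      w4 := hw
      r2 := hr2
      nm := hA.nm
      th := hθ
      th' := hθ'
      eps := hε
      pd := hA.pd
      pa := hA.pa
      f0 := h0
      f1 := h1
      act := by
        intro σ
        rw [hKf σ]
        show σ ε = zp w (-(pm (chi (-1 : k) σ + chi (n : k) σ + chi (d : k) σ) *
          -(pm (chi (-1 : k) σ + chi (n : k) σ + chi (d : k) σ) * q σ))) * _
        rw [tpa_pm]
        exact hk1 σ }

end Pool.Agent.SK.TP
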