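import Pool.Agent.SK.TP

/-!
# Malle's conjecture for 8T8 over number fields, TP2: the second bits of the pair
-/

set_option autoImplicit false

open scoped BigOperators
open NumberField IsDedekindDomain

namespace Pool.Agent.SK.TP

open Pool.Agent.H98.MF
open Pool.Agent.H32.MA (SD)
open Pool.Agent.D8 (pm p5 bit3 so IsTh IsF ob RxF)

section

variable {k : Type} [Field k] [NumberField k]

theorem tpb_bit : ∀ (B : ZMod 8) (a s X Y g h G : ZMod 2),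
    bit3 0 (X + Y) G = Pool.Agent.H32.MA.pw a * B - pm a * p5 s * (B - bit3 0 Y h) + bit3 0 X g →
    G = g + h + a * Y + X * Y + (s + a) *
      (if B = 1 ∨ B = 3 ∨ B = 5 ∨ B = 7 then 1 else 0) := by
  decide +kernel

theorem tpb_ne {w r : Om k} {d c n : kˣ} {y : k} {ρ : Gm k →* SD} {θ θ' ε : Om k}
    {g : Gm k → ZMod 2} (E : Ex w r d c n y ρ θ θ' ε g) : ε ≠ 0 := by
  intro h0
  have h1 := E.eps
  rw [h0] at h1
  have h2 : θ + w ^ 2 * θ' = 0 := by rw [← h1]; ring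
  have h3 : θ ^ 2 + θ' ^ 2 = 0 := by
    linear_combination (θ - w ^ 2 * θ') * h2 + θ' ^ 2 * E.w4
  rw [E.th, E.th'] at h3
  have h4 : algebraMap k (Om k) (c : k) = 0 := by
    have h5 : algebraMap k (Om k) ((c : k) / 2) + algebraMap k (Om k) ((c : k) / 2) = 0 := by
      linear_combination h3
    rw [← map_add, add_halves] at h5
    exact h5
  rw [map_eq_zero] at h4
  exact c.ne_zero h4

/-- the cocycle relation of the cochain modulo eight -/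
theorem tpb_K {w r : Om k} {d c n : kˣ} {y : k} {ρ : Gm k →* SD} {θ θ' ε : Om k}
    {g : Gm k → ZMod 2} (E : Ex w r d c n y ρ θ θ' ε g) (σ τ : Gm k) :
    Kf c ρ g (σ * τ) = pm (chi (d : k) σ + chi (n : k) σ) * p5 (chi (2 : k) σ) * Kf c ρ g τ +
      Kf c ρ g σ := by
  have hw := E.w4
  have hε0 := tpb_ne E
  have hk1 : ∀ σ : Gm k, σ ε = Pool.Agent.D8.ac2_zp w (-(pm (un d n σ) * Kf c ρ g σ)) *
      Pool.Agent.D8.ac2_ep (un d n σ) ε := E.act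
  have h1 := hk1 (σ * τ)
  rw [AlgEquiv.mul_apply, hk1 τ, map_mul, Pool.Agent.D8.ac2_map_zp hw, Pool.Agent.D8.ac2_map_ep,
    hk1 σ, Pool.Agent.D8.ac2_ep_mul, Pool.Agent.D8.ac2_ep_zp hw, Pool.Agent.D8.ac2_ep_ep,
    ← mul_assoc, ← Pool.Agent.D8.ac2_zp_add hw] at h1
  have h2 : un d n (σ * τ) = un d n τ + un d n σ := by
    unfold un
    rw [B.chi_hom, B.chi_hom, B.chi_hom]
    ring
  rw [h2] at h1
  have h3 := (Pool.Agent.D8.ac2_zp_inj hw
    (mul_right_cancel₀ (Pool.Agent.D8.ac2_ep_ne _ hε0) h1)).symm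
  rw [Pool.Agent.D8.ac2_pm_add] at h3
  have e1 := Pool.Agent.D8.ac2_pm_sq (un d n σ)
  have e2 := Pool.Agent.D8.ac2_pm_sq (un d n τ)
  have e3 : pm (chi (d : k) σ + chi (n : k) σ) = pm (un d n σ) * pm (chi (-1 : k) σ) := by
    unfold un
    rw [← Pool.Agent.D8.ac2_pm_add]
    congr 1
    have hz : ∀ x y z : ZMod 2, x + y = z + y + x + z := by decide
    exact hz _ _ _
  rw [e3]
  linear_combination (-(pm (un d n σ) * pm (un d n τ))) * h3 -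
    (Kf c ρ g (σ * τ) * pm (un d n τ) * pm (un d n τ)) * e1 - Kf c ρ g (σ * τ) * e2 +
    (pm (un d n σ) * pm (chi (-1 : k) σ) * p5 (chi (2 : k) σ) * Kf c ρ g τ +
      pm (un d n σ) * pm (un d n σ) * Kf c ρ g σ) * e2 + Kf c ρ g σ * e1

/-- the relation of the third bits -/
theorem tpb_g {w r : Om k} {d c n : kˣ} {y : k} {ρ : Gm k →* SD} {θ θ' ε : Om k}
    {g : Gm k → ZMod 2} (E : Ex w r d c n y ρ θ θ' ε g) (σ τ : Gm k) :
    g (σ * τ) = g σ + g τ + (chi (d : k) σ + chi (n : k) σ) * chi (c : k) τ +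
      chi (c : k) σ * chi (c : k) τ +
      (chi (2 : k) σ + (chi (d : k) σ + chi (n : k) σ)) * chi (d : k) τ := by
  have h1 := tpb_K E σ τ
  unfold Kf at h1
  rw [map_mul, SD.mul_b, E.pa σ, B.chi_hom (c : k) σ τ] at h1
  have h2 := tpb_bit (ρ τ).b (chi (d : k) σ + chi (n : k) σ) (chi (2 : k) σ) (chi (c : k) σ)
    (chi (c : k) τ) (g σ) (g τ) (g (σ * τ)) (by linear_combination -h1)
  have h3 : (if (ρ τ).b = 1 ∨ (ρ τ).b = 3 ∨ (ρ τ).b = 5 ∨ (ρ τ).b = 7 then (1 : ZMod 2) else 0) =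
      chi (d : k) τ := E.pd τ
  rw [h3] at h2
  exact h2

/-- the relation of the second bits -/
theorem tpb_f {w r : Om k} {d c n : kˣ} {y : k} {ρ : Gm k →* SD} {θ θ' ε : Om k}
    {g : Gm k → ZMod 2} (E : Ex w r d c n y ρ θ θ' ε g) (σ τ : Gm k) :
    (ρ (σ * τ)).pf = (ρ σ).pf + (ρ τ).pf + chi (n : k) σ * chi (d : k) τ := by
  rw [map_mul, SD.pf_mul, E.pa, E.pd, E.pd]
  have hz : ∀ x y z : ZMod 2, (x + y + x) * z = y * z := by decide
  rw [hz]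

end

/-- TP2 -/
theorem spIsF (k : Type) [Field k] [NumberField k] : SpIsF k := by
  intro w r d c n₁ n₂ y₁ y₂ ρ₁ ρ₂ θ₁ θ₁' ε₁ θ₂ θ₂' ε₂ g₁ g₂ E₁ E₂
  have hlf : IsLocallyConstant (fS ρ₁ ρ₂) := by
    have h1 : IsLocallyConstant fun σ => (ρ₁ σ).pf := E₁.lc.comp SD.pf
    have h2 : IsLocallyConstant fun σ => (ρ₂ σ).pf := E₂.lc.comp SD.pf
    exact h1.add h2
  have hf : ∀ σ τ : Gm k, fS ρ₁ ρ₂ (σ * τ) = fS ρ₁ ρ₂ σ + fS ρ₁ ρ₂ τ +
      chi ((n₁ * n₂ : kˣ) : k) σ * chi (d : k) τ := by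
    intro σ τ
    unfold fS
    rw [tpb_f E₁, tpb_f E₂, B.chi_mul_units]
    ring
  refine ⟨⟨hlf, hf⟩, ⟨(E₁.lg.add E₂.lg).add hlf, ?_⟩⟩
  intro σ τ
  have h0 := hf σ τ
  unfold TS
  rw [h0, tpb_g E₁ σ τ, tpb_g E₂ σ τ, B.chi_mul_units]
  have h2 : (2 : ZMod 2) = 0 := by decide
  linear_combination (chi (d : k) σ * chi (c : k) τ + chi (c : k) σ * chi (c : k) τ +
    (chi (2 : k) σ + chi (d : k) σ + chi (n₁ : k) σ + chi (n₂ : k) σ) * chi (d : k) τ) * h2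

end Pool.Agent.SK.TP
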