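import Pool.Agent.SK.TP
import Pool.Agent.H98.MF.C.Main
import Pool.Agent.H98.MF.NNin
import Pool.Agent.H98.MF.ChiM

/-!
# Malle's conjecture for 8T8 over number fields: the polarised obstruction at local squares
-/

set_option autoImplicit false

open scoped BigOperators
open NumberField IsDedekindDomain

namespace Pool.Agent.SK.TP

open Pool.Agent.H98.MF
open Pool.Agent.D8 (IsF ob)

section

variable {k : Type} [Field k] [NumberField k]

theorem tpc_two (x : ZMod 2) : x + x = 0 := CharTwo.add_self_eq_zero x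

theorem tpc_chi_mul (a b : kˣ) (σ : Gm k) :
    chi ((a * b : kˣ) : k) σ = chi (a : k) σ + chi (b : k) σ :=
  Pool.Agent.H98.MF.M6a.chi_mul a b σ

theorem tpc_mulR (v : Pl k) (a b c : kˣ) :
    hv v (a : k) ((b * c : kˣ) : k) = hv v (a : k) (b : k) + hv v (a : k) (c : k) :=
  (B.lin k).mulR v a b c

theorem tpc_mulL (v : Pl k) (a b c : kˣ) :
    hv v ((a * b : kˣ) : k) (c : k) = hv v (a : k) (c : k) + hv v (b : k) (c : k) := by
  rw [(B.lin k).symm v (a * b) c, (B.lin k).mulR v c a b, (B.lin k).symm v c a,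
    (B.lin k).symm v c b]

theorem tpc_sq (v : Pl k) (a b c : kˣ) :
    hv v (a : k) ((b * c ^ 2 : kˣ) : k) = hv v (a : k) (b : k) := by
  rw [tpc_mulR, pow_two, tpc_mulR, tpc_two, add_zero]

/-- the sum of two second bits -/
theorem tpc_isF {m d c : kˣ} {f T : Gm k → ZMod 2} (hf : IsF m d f) (hT : IsF m c T) :
    IsF m (d * c) (fun σ => f σ + T σ) := by
  refine ⟨hf.lc.comp₂ hT.lc (fun x y => x + y), fun σ τ => ?_⟩
  show f (σ * τ) + T (σ * τ) = f σ + T σ + (f τ + T τ) + _
  rw [hf.hom, hT.hom, tpc_chi_mul]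
  ring

theorem tpc_add (v : Pl k) (φ m d c : kˣ) :
    hv v (φ : k) (-((m : k) * ((d * c : kˣ) : k))) + hv v (φ : k) (-((m : k) * (d : k))) =
      hv v (φ : k) (c : k) := by
  have e1 : -((m : k) * ((d * c : kˣ) : k)) = ((-(m * (d * c)) : kˣ) : k) := by push_cast; ring
  have e2 : -((m : k) * (d : k)) = ((-(m * d) : kˣ) : k) := by push_cast; ring
  have e3 : (-(m * (d * c)) * -(m * d) : kˣ) = c * (m * d) ^ 2 := by
    apply Units.ext
    push_cast
    ring
  rw [e1, e2, ← tpc_mulR, e3, tpc_sq]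

theorem tpc_add' (v : Pl k) (t m d c : kˣ) :
    hv v (t : k) (-((m : k) * ((d * c : kˣ) : k))) + hv v (t : k) (-((m : k) * (c : k))) =
      hv v (t : k) (d : k) := by
  rw [mul_comm d c]
  exact tpc_add v t m c d

/-- the value of the polarised obstruction when all three second bits are characters -/
theorem tpc_val (v : Pl k) {m d c φ t : kˣ} {f T : Gm k → ZMod 2}
    (h1 : ob v m (d * c) (fun σ => f σ + T σ) =
      hv v ((φ * t : kˣ) : k) (-((m : k) * ((d * c : kˣ) : k))))
    (h2 : ob v m d f = hv v (φ : k) (-((m : k) * (d : k))))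
    (h3 : ob v m c T = hv v (t : k) (-((m : k) * (c : k)))) :
    pol v m d c f T = hv v (φ : k) (c : k) + hv v (t : k) (d : k) := by
  unfold pol
  have e1 : -((m : k) * ((d * c : kˣ) : k)) = ((-(m * (d * c)) : kˣ) : k) := by push_cast; ring
  rw [h1, h2, h3, ← tpc_add v φ m d c, ← tpc_add' v t m d c, e1, tpc_mulL]
  ring

/-- TP3: local squares, first case -/
theorem spPa (h : Pool.Agent.D8.SaObH k) : SpPa k := by
  intro v m d c φ t f T hf hT hm hφ ht
  refine tpc_val v ?_ ?_ ?_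
  · exact h m (d * c) (φ * t) v _ (tpc_isF hf hT) (Or.inl hm) fun σ hσ => by
      show f σ + T σ = _
      rw [hφ σ hσ, ht σ hσ, tpc_chi_mul]
  · exact h m d φ v f hf (Or.inl hm) hφ
  · exact h m c t v T hT (Or.inl hm) ht

theorem tpc_locP_mul {v : Pl k} {a b : kˣ} (ha : LocP v (a : k)) (hb : LocP v (b : k)) :
    LocP v ((a * b : kˣ) : k) := by
  rw [← (B.lin k).memLS] at ha hb ⊢
  exact mul_mem ha hb

/-- TP3: local squares, second case -/
theorem spPb (h : Pool.Agent.D8.SaObH k) (hC : Pool.Agent.D8.SaChr k) : SpPb k := by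
  intro v m d c f T hf hT hd hc
  obtain ⟨φ, hφ⟩ := hC m d v f hf (Or.inr hd)
  obtain ⟨t, ht⟩ := hC m c v T hT (Or.inr hc)
  have h1 : pol v m d c f T = hv v (φ : k) (c : k) + hv v (t : k) (d : k) := by
    refine tpc_val v ?_ ?_ ?_
    · exact h m (d * c) (φ * t) v _ (tpc_isF hf hT) (Or.inr (tpc_locP_mul hd hc)) fun σ hσ => by
        show f σ + T σ = _
        rw [hφ σ hσ, ht σ hσ, tpc_chi_mul]
    · exact h m d φ v f hf (Or.inr hd) hφ
    · exact h m c t v T hT (Or.inr hc) ht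
  rw [h1, (B.lin k).symm v φ c, (B.lin k).symm v t d, ((B.lin k).nd v c).2 hc φ,
    ((B.lin k).nd v d).2 hd t, add_zero]

end

end Pool.Agent.SK.TP
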