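import Pool.Agent.SK.TPc
import Pool.Agent.H32.MQ.HBase

/-!
# Malle's conjecture for 8T8 over number fields: the polarised obstruction at primes with even
exponents
-/

set_option autoImplicit false

open scoped BigOperators
open NumberField IsDedekindDomain

namespace Pool.Agent.SK.TP

open Pool.Agent.H98.MF
open Pool.Agent.D8 (IsF ob RxF)
open Pool.Agent.H32.MQ (hb_two hb_qr_sq)

section

variable {k : Type} [Field k] [NumberField k]

/-- the symbol with a prime element is the residue symbol for even exponents -/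
theorem tpd_hv (Fr : Frm k) (p : Fr.sys.P) (d : kˣ) (hd : Even (ord (Fr.pl p) (d : k))) :
    hv (Sum.inl (Fr.pl p)) (Fr.pi p : k) (d : k) = qr (d : k) (Fr.pl p) := by
  obtain ⟨j, hj⟩ := hd
  have h0 : ord (Fr.pl p) (((d * (Fr.pi p ^ (-j)) ^ 2 : kˣ)) : k) = 0 := by
    rw [Units.val_mul, Pool.Agent.H98.MF.B.ord_mul _ (Units.ne_zero _) (Units.ne_zero _), hj,
      Units.val_pow_eq_pow_val, Pool.Agent.H98.MF.B.ord_pow, Units.val_zpow_eq_zpow_val,
      Pool.Agent.H98.MF.B.ord_zpow, Fr.pi_self]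
    push_cast
    ring
  have h1 : hv (Sum.inl (Fr.pl p)) (Fr.pi p : k) (d : k) =
      hv (Sum.inl (Fr.pl p)) (Fr.pi p : k) ((d * (Fr.pi p ^ (-j)) ^ 2 : kˣ) : k) :=
    (tpc_sq _ _ _ _).symm
  have h2 : hs (Fr.pl p) ((d * (Fr.pi p ^ (-j)) ^ 2 : kˣ) : k) (Fr.pi p : k) =
      (ord (Fr.pl p) (Fr.pi p : k) : ZMod 2) * qr ((d * (Fr.pi p ^ (-j)) ^ 2 : kˣ) : k) (Fr.pl p) :=
    (B.lin k).unt (Fr.pl p) (hb_two Fr p) _ _ h0
  rw [h1, (B.lin k).symm]
  show hs (Fr.pl p) ((d * (Fr.pi p ^ (-j)) ^ 2 : kˣ) : k) (Fr.pi p : k) = _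
  rw [h2, Fr.pi_self, Int.cast_one, one_mul]
  apply hb_qr_sq
  refine ⟨d * Fr.pi p ^ (-j), ?_⟩
  rw [pow_two, mul_assoc, mul_assoc, mul_assoc, mul_comm _ d, mul_left_comm _ d, mul_left_comm _ d]

/-- TP4: even exponents -/
theorem spPc (hN : Pool.Agent.D8.SaObN k) (hT : Pool.Agent.D8.SaObT k) : SpPc k := by
  intro Fr Rk m d c f T hf hTF p hm hd hc hft
  have hdc : Even (ord (Fr.pl p) ((d * c : kˣ) : k)) := by
    rw [Units.val_mul, Pool.Agent.H98.MF.B.ord_mul _ (Units.ne_zero _) (Units.ne_zero _)]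
    exact hd.add hc
  have hz : ∀ x : ZMod 2, x = 0 ∨ x = 1 := by decide
  have hd0 : ob (Sum.inl (Fr.pl p)) m d f = 0 := hN Fr Rk m d f hf p hm hd hft
  rcases hz (T (Rk.tau (Fr.pl p))) with ht | ht
  · unfold pol
    rw [hN Fr Rk m (d * c) _ (tpc_isF hf hTF) p hm hdc (by rw [hft, ht, add_zero]), hd0,
      hN Fr Rk m c T hTF p hm hc ht, ht, mul_zero, add_zero, add_zero]
  · have hchi : chi (Fr.pi p : k) (Rk.tau (Fr.pl p)) = 1 := by
      rw [Rk.chi (Fr.pl p) (hb_two Fr p) (Fr.pi p), Fr.pi_self, Int.cast_one]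
    have hT0 : IsF m c (fun σ => T σ + chi (Fr.pi p : k) σ) := by
      refine ⟨hTF.lc.comp₂ (chiM_lc _) (fun x y => x + y), fun σ τ => ?_⟩
      show T (σ * τ) + chi (Fr.pi p : k) (σ * τ) = _
      rw [hTF.hom, chiM_hom]
      ring
    have hT0t : (fun σ => T σ + chi (Fr.pi p : k) σ) (Rk.tau (Fr.pl p)) = 0 := by
      show T (Rk.tau (Fr.pl p)) + chi (Fr.pi p : k) (Rk.tau (Fr.pl p)) = 0
      rw [ht, hchi]
      exact tpc_two 1
    have e1 : T = fun σ => (fun σ => T σ + chi (Fr.pi p : k) σ) σ + chi (Fr.pi p : k) σ := by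
      funext σ
      show T σ = T σ + chi (Fr.pi p : k) σ + chi (Fr.pi p : k) σ
      rw [add_assoc, tpc_two, add_zero]
    have e2 : (fun σ => f σ + T σ) =
        fun σ => (fun σ => f σ + (fun σ => T σ + chi (Fr.pi p : k) σ) σ) σ +
          chi (Fr.pi p : k) σ := by
      funext σ
      show f σ + T σ = f σ + (T σ + chi (Fr.pi p : k) σ) + chi (Fr.pi p : k) σ
      rw [add_assoc, add_assoc, tpc_two, add_zero]
    have h1 : ob (Sum.inl (Fr.pl p)) m c T =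
        hv (Sum.inl (Fr.pl p)) (Fr.pi p : k) (-((m : k) * (c : k))) := by
      rw [e1, hT m c (Fr.pi p) _ hT0 (Sum.inl (Fr.pl p)),
        hN Fr Rk m c _ hT0 p hm hc hT0t, zero_add]
    have h2 : ob (Sum.inl (Fr.pl p)) m (d * c) (fun σ => f σ + T σ) =
        hv (Sum.inl (Fr.pl p)) (Fr.pi p : k) (-((m : k) * ((d * c : kˣ) : k))) := by
      rw [e2, hT m (d * c) (Fr.pi p) _ (tpc_isF hf hT0) (Sum.inl (Fr.pl p)),
        hN Fr Rk m (d * c) _ (tpc_isF hf hT0) p hm hdc ?_, zero_add]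
      show f (Rk.tau (Fr.pl p)) + (T (Rk.tau (Fr.pl p)) +
        chi (Fr.pi p : k) (Rk.tau (Fr.pl p))) = 0
      rw [hft, ht, hchi, zero_add]
      exact tpc_two 1
    unfold pol
    rw [h1, h2, hd0, add_zero, tpc_add', ht, mul_one]
    exact tpd_hv Fr p d hd

end

end Pool.Agent.SK.TP
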