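import Pool.Agent.SK.TP
import Pool.Agent.D8.ANor

/-!
# Malle's conjecture for 8T8 over number fields, the sum with the oscillating character: the
product formula for the polarised obstruction (row TP5)
-/

set_option autoImplicit false

open scoped BigOperators
open NumberField IsDedekindDomain

namespace Pool.Agent.SK.TP

open Pool.Agent.H98.MF
open Pool.Agent.H32.MA (SD)
open Pool.Agent.D8 (pm p5 bit3 so IsTh IsF ob RxF)

section

variable {k : Type} [Field k] [NumberField k]

/-- finitely many obstructions, and the product formula, for a frame -/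
theorem pfe_ob (hS : Pool.Agent.D8.SaObS k) (hN : Pool.Agent.D8.SaObN k)
    (hR : Pool.Agent.D8.SaRx k) (Fr : Frm k) (a b : kˣ) (f : Gm k → ZMod 2) (hf : IsF a b f) :
    {p : Fr.sys.P | ob (Sum.inl (Fr.pl p)) a b f ≠ 0}.Finite ∧
      ∑ v ∈ pls Fr.S, ob v a b f = ∑ᶠ p, ob (Sum.inl (Fr.pl p)) a b f := by
  classical
  obtain ⟨Rk⟩ := hR
  have hfin : {p : Fr.sys.P | ob (Sum.inl (Fr.pl p)) a b f ≠ 0}.Finite := by
    refine Set.Finite.subset (((Pool.Agent.H32.MQ.odp Fr a).finite_toSet.union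
      (Pool.Agent.H32.MQ.odp Fr b).finite_toSet).union
        (Pool.Agent.D8.an_fin Fr Rk hf)) ?_
    intro p hp
    by_contra hc
    apply hp
    rw [Set.mem_union, Set.mem_union, not_or, not_or] at hc
    obtain ⟨⟨h1, h2⟩, h3⟩ := hc
    refine hN Fr Rk a b f hf p ?_ ?_ ?_
    · rw [← Int.not_odd_iff_even]
      intro h
      exact h1 ((Pool.Agent.H32.MQ.mem_odp Fr).2 h)
    · rw [← Int.not_odd_iff_even]
      intro h
      exact h2 ((Pool.Agent.H32.MQ.mem_odp Fr).2 h)
    · by_contra h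
      exact h3 h
  refine ⟨hfin, ?_⟩
  have hfs : ∑ᶠ p, ob (Sum.inl (Fr.pl p)) a b f =
      ∑ p ∈ hfin.toFinset, ob (Sum.inl (Fr.pl p)) a b f := by
    refine finsum_eq_sum_of_support_subset _ ?_
    intro p hp
    rw [Set.Finite.coe_toFinset]
    exact hp
  rw [hfs]
  have h1 := hS a b f hf (Fr.S ∪ hfin.toFinset.image Fr.pl) (by
    intro P hP
    rw [Finset.mem_union, not_or] at hP
    obtain ⟨p, rfl⟩ := (Fr.pl_iff P).2 hP.1
    by_contra hc
    refine hP.2 (Finset.mem_image_of_mem _ ?_)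
    rw [Set.Finite.mem_toFinset]
    exact hc)
  unfold pls at h1 ⊢
  rw [Finset.sum_disjSum] at h1 ⊢
  rw [Finset.sum_union (by
    rw [Finset.disjoint_left]
    intro P hP hP'
    obtain ⟨p, -, rfl⟩ := Finset.mem_image.1 hP'
    exact Pool.Agent.H32.MQ.hb_notMem Fr p hP),
    Finset.sum_image (fun p _ p' _ h => Fr.pl_inj h)] at h1
  have key : ∀ x y z : ZMod 2, x + y + z = 0 → x + z = y := by decide
  exact key _ _ _ h1

/-- the sum of two second bits -/
theorem pfe_isF {m d c : kˣ} {f T : Gm k → ZMod 2} (hf : IsF m d f) (hT : IsF m c T) :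
    IsF m (d * c) (fun σ => f σ + T σ) where
  lc := by
    have h1 : IsLocallyConstant fun σ : Gm k => (f σ, T σ) := hf.lc.prodMk hT.lc
    exact h1.comp fun t : ZMod 2 × ZMod 2 => t.1 + t.2
  hom σ τ := by
    have h1 := Pool.Agent.H98.MF.B.chi_mul_units d c τ
    have h2 : chi ((d * c : kˣ) : k) τ = chi (d : k) τ + chi (c : k) τ := h1
    rw [hf.hom, hT.hom, h2]
    ring

/-- Row TP5: the product formula -/
theorem spPf (hS : Pool.Agent.D8.SaObS k) (hN : Pool.Agent.D8.SaObN k)
    (hR : Pool.Agent.D8.SaRx k) : SpPf k := by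
  classical
  intro Fr m d c f T hf hT
  obtain ⟨h1, e1⟩ := pfe_ob hS hN hR Fr m (d * c) _ (pfe_isF hf hT)
  obtain ⟨h2, e2⟩ := pfe_ob hS hN hR Fr m d f hf
  obtain ⟨h3, e3⟩ := pfe_ob hS hN hR Fr m c T hT
  have hfin : {p | pol (Sum.inl (Fr.pl p)) m d c f T ≠ 0}.Finite := by
    refine Set.Finite.subset ((h1.union h2).union h3) ?_
    intro p hp
    by_contra hc
    apply hp
    rw [Set.mem_union, Set.mem_union, not_or, not_or] at hc
    obtain ⟨⟨g1, g2⟩, g3⟩ := hc
    have g1' := not_not.1 g1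
    have g2' := not_not.1 g2
    have g3' := not_not.1 g3
    unfold pol
    rw [g1', g2', g3']
    rfl
  refine ⟨hfin, ?_⟩
  unfold pol
  rw [Finset.sum_add_distrib, Finset.sum_add_distrib, e1, e2, e3]
  have h12 : (Function.support fun p => ob (Sum.inl (Fr.pl p)) m (d * c)
      (fun σ => f σ + T σ) + ob (Sum.inl (Fr.pl p)) m d f).Finite := by
    refine (h1.union h2).subset ?_
    intro p hp
    by_contra hc
    apply hp
    rw [Set.mem_union, not_or] at hc
    have g1' := not_not.1 hc.1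
    have g2' := not_not.1 hc.2
    show ob (Sum.inl (Fr.pl p)) m (d * c) (fun σ => f σ + T σ) +
      ob (Sum.inl (Fr.pl p)) m d f = 0
    rw [g1', g2', add_zero]
  rw [finsum_add_distrib h12 h3, finsum_add_distrib h1 h2]

end

end Pool.Agent.SK.TP
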