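import Pool.Agent.SK.TPu

/-!
# Malle's conjecture for 8T8 over number fields, comparison of two homomorphisms: the value at
the tame generator for unit trace (row TP6)
-/

set_option autoImplicit false
set_option linter.unusedSectionVars false

open scoped BigOperators
open NumberField IsDedekindDomain

namespace Pool.Agent.SK.TP

open Pool.Agent.H98.MF
open Pool.Agent.H32.MA (SD)
open Pool.Agent.D8 (pm p5 bit3 so IsTh IsF ob RxF TF Two2 obn_so_mul obn_so_sq obn_chi_act
  obn_two_notMem)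

section

variable {k : Type} [Field k] [NumberField k]

theorem tpf_bit (g : ZMod 2) : (-(pm 0 * (0 - bit3 0 0 g)) : ZMod 8) = bit3 0 0 g := by
  revert g; decide

theorem tpf_zp {w : Om k} (hw : w ^ 4 = -1) (g : ZMod 2) : zp w (bit3 0 0 g) = so g := by
  have h : g = 0 ∨ g = 1 := by revert g; decide
  rcases h with rfl | rfl
  · have e : (bit3 0 0 0 : ZMod 8).val = 0 := by decide
    unfold zp so
    rw [e, pow_zero, if_pos rfl]
  · have e : (bit3 0 0 1 : ZMod 8).val = 4 := by decide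
    unfold zp so
    rw [e, hw, if_neg one_ne_zero]

/-- the elements of the explicit data lie in a two-power extension -/
theorem tpf_T2 {w r : Om k} {d c n : kˣ} {y : k} {ρ : Gm k →* SD} {θ θ' ε : Om k}
    {g : Gm k → ZMod 2} (hE : Ex w r d c n y ρ θ θ' ε g) :
    T2 w ∧ T2 r ∧ T2 θ ∧ T2 θ' ∧ T2 ε := by
  have hr0 : r ≠ 0 := by
    intro h
    have h1 := hE.r2
    rw [h, zero_pow two_ne_zero] at h1
    exact ((map_ne_zero _).2 c.ne_zero) h1.symm
  have hm1 : T2 (-1 : Om k) := by
    have h := T2.base (-1 : k)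
    rwa [map_neg, map_one] at h
  have hw2 : T2 (w ^ 2) := hm1.root (by rw [← pow_mul]; exact hE.w4)
  have hw : T2 w := hw2.root rfl
  have hr : T2 r := (T2.base (c : k)).root hE.r2
  have hθ : T2 θ := ((T2.base _).add ((T2.base y).mul (T2.sq (d : k)))).root hE.th
  have hθ' : T2 θ' := ((T2.base _).sub ((T2.base y).mul (T2.sq (d : k)))).root hE.th'
  have hε : T2 ε := by
    refine (((hθ.add (hw2.mul hθ')).div hr)).root ?_
    rw [← hE.eps, mul_div_cancel_right₀ _ hr0]
  exact ⟨hw, hr, hθ, hθ', hε⟩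

/-- the action of the tame generator if the homomorphism is trivial -/
theorem tpf_act {w r : Om k} {d c n : kˣ} {y : k} {ρ : Gm k →* SD} {θ θ' ε : Om k}
    {g : Gm k → ZMod 2} (hE : Ex w r d c n y ρ θ θ' ε g) {τ φ : Gm k}
    {P : HeightOneSpectrum (𝓞 k)} (hT : TF P τ φ) (hρ : ρ τ = 1)
    (hc : Even (ord P (c : k))) : τ θ = θ ∧ τ ε = so (g τ) * ε := by
  have hd : chi (d : k) τ = 0 := by
    rw [← hE.pd, hρ]
    rfl
  have hn : chi (n : k) τ = 0 := by
    have h := hE.pa τ
    rw [hρ, hd, zero_add] at h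
    exact h.symm
  have h1 : chi (-1 : k) τ = 0 := (hT.chi0 (-1 : k) (neg_ne_zero.2 one_ne_zero) (by
    rw [ord_neg, ord_one]
    exact Even.zero)).1
  have hcc : chi (c : k) τ = 0 := (hT.chi0 (c : k) c.ne_zero hc).1
  have hun : un d n τ = 0 := by
    unfold un
    rw [h1, hn, hd]
    rfl
  constructor
  · have h := hE.f0 τ hd
    rw [hρ] at h
    have h2 : (1 : SD).pf = 0 := by decide
    rw [h2] at h
    rw [h]
    have h3 : (so 0 : Om k) = 1 := if_pos rfl
    rw [h3, one_mul]
  · have h := hE.act τ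
    have hK : Kf c ρ g τ = 0 - bit3 0 0 (g τ) := by
      unfold Kf
      rw [hρ, hcc]
      rfl
    rw [hun, hK, tpf_bit, tpf_zp hE.w4] at h
    rw [h]
    unfold ep
    rw [if_pos rfl]

/-- the two conjugate factors -/
theorem tpf_prod {w r : Om k} {d c n : kˣ} {y : k} {ρ : Gm k →* SD} {θ θ' ε : Om k}
    {g : Gm k → ZMod 2} (hE : Ex w r d c n y ρ θ θ' ε g) :
    (θ + w ^ 2 * θ') * (θ - w ^ 2 * θ') = algebraMap k (Om k) (c : k) := by
  have h1 : (θ + w ^ 2 * θ') * (θ - w ^ 2 * θ') = θ ^ 2 - w ^ 4 * θ' ^ 2 := by ring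
  rw [h1, hE.w4, hE.th, hE.th', map_div₀, map_ofNat]
  ring

theorem tpf_unit_w {P : HeightOneSpectrum (𝓞 k)} {w : Om k} (hw : w ^ 4 = -1) :
    UV P w := by
  refine UV.of_pow (n := 4) (by norm_num) ?_
  rw [hw]
  have h := UV.base (P := P) (a := (-1 : k)) (neg_ne_zero.2 one_ne_zero) (by
    rw [ord_neg, ord_one])
  rwa [map_neg, map_one] at h

theorem tpf_unit_two {P : HeightOneSpectrum (𝓞 k)} (h2 : ord P (2 : k) = 0) :
    UV P (2 : Om k) := by
  have h := UV.base (P := P) (a := (2 : k)) two_ne_zero h2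
  rwa [map_ofNat] at h

/-- TP6: the value at the tame generator, unit trace -/
theorem spOb (k : Type) [Field k] [NumberField k] : SpOb k := by
  intro Fr Rk w r d c n y ρ θ θ' ε g hE hy p hd hc hρ
  set P := Fr.pl p with hP
  have hP2 : ord P (2 : k) = 0 := Fr.ord_pl_two p
  have hT : TF P (Rk.tau P) (Rk.phi P) := Rk.tf _ hP2
  set τ := Rk.tau P with hτ
  obtain ⟨hTw, hTr, hTθ, hTθ', hTε⟩ := tpf_T2 hE
  obtain ⟨hθτ, hετ⟩ := tpf_act hE hT hρ (by rw [hc]; exact Even.zero)
  have hx0 : (c : k) / 2 ≠ 0 := div_ne_zero c.ne_zero two_ne_zero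
  have hx : ord P ((c : k) / 2) = 0 := by
    rw [ord_div P c.ne_zero two_ne_zero, hc, hP2, sub_zero]
  have hw : UV P w := tpf_unit_w hE.w4
  have h2u : UV P (2 : Om k) := tpf_unit_two hP2
  have hcu : UV P (algebraMap k (Om k) (c : k)) := UV.base c.ne_zero hc
  have hru : UV P r := UV.of_pow two_ne_zero (by rw [hE.r2]; exact hcu)
  have hdu : UV P (Pool.Agent.H98.MF.sq (d : k)) :=
    UV.of_pow two_ne_zero (by rw [sq_sq]; exact UV.base d.ne_zero hd)
  set A : Om k := θ + w ^ 2 * θ' with hA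
  set B : Om k := θ - w ^ 2 * θ' with hB
  have hAB : A * B = algebraMap k (Om k) (c : k) := tpf_prod hE
  have hA0 : A ≠ 0 := fun h => hcu.ne (by rw [← hAB, h, zero_mul])
  have hB0 : B ≠ 0 := fun h => hcu.ne (by rw [← hAB, h, mul_zero])
  have hsum : A + B = 2 * θ := by rw [hA, hB]; ring
  have hε2 : ε ^ 2 = A / r := by
    rw [hA, ← hE.eps, mul_div_cancel_right₀ _ hru.ne]
  -- the uniformizer
  set s : Om k := Pool.Agent.H98.MF.sq ((Fr.pi p : kˣ) : k) with hs
  set π : Om k := algebraMap k (Om k) ((Fr.pi p : kˣ) : k) with hπ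
  have hs2 : s ^ 2 = π := sq_sq _
  have hπ0 : π ≠ 0 := (map_ne_zero _).2 (Fr.pi p).ne_zero
  have hsτ : τ s = -s := by
    have h := obn_chi_act (Fr.pi p) τ
    have h1 : chi ((Fr.pi p : kˣ) : k) τ = 1 := hT.chi1 _ (by
      rw [hP, Fr.pi_self]
      exact odd_one)
    rw [h1] at h
    have h3 : (so 1 : Om k) = -1 := if_neg one_ne_zero
    rw [h3, neg_one_mul] at h
    exact h
  by_cases hy1 : 0 ≤ ord P y
  · -- integral case
    have hI : ∀ z : Om k, InV P (z ^ 2) → InV P z := fun z h => inV_pow two_ne_zero h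
    have hiθ : InV P θ := by
      refine hI θ ?_
      rw [hE.th]
      exact (inV_base.2 hx.ge).add ((inV_base.2 hy1).mul hdu.i)
    have hiθ' : InV P θ' := by
      refine hI θ' ?_
      rw [hE.th']
      exact (inV_base.2 hx.ge).sub ((inV_base.2 hy1).mul hdu.i)
    have hiA : InV P A := hiθ.add ((hw.pow 2).i.mul hiθ')
    have hiB : InV P B := hiθ.sub ((hw.pow 2).i.mul hiθ')
    have hAu : UV P A := by
      refine ⟨hA0, hiA, ?_⟩
      have h3 : A⁻¹ = B * (algebraMap k (Om k) (c : k))⁻¹ := by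
        rw [← hAB]
        field_simp
      rw [h3]
      exact hiB.mul hcu.j
    have hg : g τ = ((0 : ℕ) : ZMod 2) := by
      refine tpu_fin hT hP2 0 hTε (T2.sq ((Fr.pi p : kˣ) : k)) hετ hsτ (Or.inl ?_)
      rw [pow_zero, mul_one, hε2]
      exact hAu.div hru
    have hg0 : g τ = 0 := by rw [hg]; exact Nat.cast_zero
    unfold tp
    rw [hx, min_eq_left hy1, if_neg (not_lt.2 hy1), hg0]
    norm_num
  · -- negative exponent
    rw [not_le] at hy1
    have hx2 : ord P ((c : k) / 2 / y) = -ord P y := by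
      rw [ord_div P hx0 hy, hx, zero_sub]
    have hyO : algebraMap k (Om k) y ≠ 0 := (map_ne_zero _).2 hy
    have hu1 : UV P (θ ^ 2 / algebraMap k (Om k) y) := by
      have h3 := tpu_add hdu (t := (c : k) / 2 / y) (Or.inr (by omega))
      have h4 : θ ^ 2 / algebraMap k (Om k) y =
          algebraMap k (Om k) ((c : k) / 2 / y) + Pool.Agent.H98.MF.sq (d : k) := by
        rw [hE.th, map_div₀ _ ((c : k) / 2) y]
        field_simp
      rw [h4]
      exact h3
    have hu2 : UV P (θ' ^ 2 / algebraMap k (Om k) y) := by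
      have h3 := tpu_add hdu.neg (t := (c : k) / 2 / y) (Or.inr (by omega))
      have h4 : θ' ^ 2 / algebraMap k (Om k) y =
          algebraMap k (Om k) ((c : k) / 2 / y) + -Pool.Agent.H98.MF.sq (d : k) := by
        rw [hE.th', map_div₀ _ ((c : k) / 2) y]
        field_simp
        ring
      rw [h4]
      exact h3
    -- the exponent is even
    have hev : Even (ord P y) := by
      by_contra hodd
      rw [Int.not_even_iff_odd] at hodd
      have h3 : chi ((Units.mk0 y hy : kˣ) : k) τ = 1 := hT.chi1 _ hodd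
      have h4 := obn_chi_act (Units.mk0 y hy) τ
      rw [h3] at h4
      have h5 : (so 1 : Om k) = -1 := if_neg one_ne_zero
      rw [h5, neg_one_mul, Units.val_mk0] at h4
      have h6 : UV P (θ / Pool.Agent.H98.MF.sq y) := by
        refine UV.of_pow two_ne_zero ?_
        rw [div_pow, sq_sq]
        exact hu1
      refine tpu_unit hT hP2 (hTθ.div (T2.sq y)) h6 ?_
      rw [map_div₀, hθτ, h4, div_neg]
    obtain ⟨e, he⟩ := hev
    obtain ⟨m, hm⟩ : ∃ m : ℕ, e = -(m : ℤ) := ⟨(-e).toNat, by omega⟩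
    have hym : ord P (y * ((Fr.pi p : kˣ) : k) ^ (2 * m)) = 0 := by
      rw [ord_mul P hy (pow_ne_zero _ (Fr.pi p).ne_zero), ord_pow, he, hm]
      have h3 : ord P ((Fr.pi p : kˣ) : k) = 1 := Fr.pi_self p
      rw [h3]
      push_cast
      ring
    have hyu : UV P (algebraMap k (Om k) y * π ^ (2 * m)) := by
      have h3 := UV.base (P := P) (mul_ne_zero hy (pow_ne_zero (2 * m) (Fr.pi p).ne_zero)) hym
      rwa [map_mul, map_pow] at h3
    have hθm : UV P (θ * π ^ m) := by
      refine UV.of_pow two_ne_zero ?_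
      have h3 : (θ * π ^ m) ^ 2 = (θ ^ 2 / algebraMap k (Om k) y) *
          (algebraMap k (Om k) y * π ^ (2 * m)) := by
        rw [mul_pow, ← pow_mul, mul_comm m 2]
        field_simp
      rw [h3]
      exact hu1.mul hyu
    have hθm' : UV P (θ' * π ^ m) := by
      refine UV.of_pow two_ne_zero ?_
      have h3 : (θ' * π ^ m) ^ 2 = (θ' ^ 2 / algebraMap k (Om k) y) *
          (algebraMap k (Om k) y * π ^ (2 * m)) := by
        rw [mul_pow, ← pow_mul, mul_comm m 2]
        field_simp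
      rw [h3]
      exact hu2.mul hyu
    have hAi : InV P (A * π ^ m) := by
      have h3 : A * π ^ m = θ * π ^ m + w ^ 2 * (θ' * π ^ m) := by rw [hA]; ring
      rw [h3]
      exact hθm.i.add ((hw.pow 2).i.mul hθm'.i)
    have hBi : InV P (B * π ^ m) := by
      have h3 : B * π ^ m = θ * π ^ m - w ^ 2 * (θ' * π ^ m) := by rw [hB]; ring
      rw [h3]
      exact hθm.i.sub ((hw.pow 2).i.mul hθm'.i)
    have hSu : UV P (A * π ^ m + B * π ^ m) := by
      have h3 : A * π ^ m + B * π ^ m = 2 * (θ * π ^ m) := by rw [← add_mul, hsum]; ring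
      rw [h3]
      exact h2u.mul hθm
    have hg : g τ = (m : ZMod 2) := by
      refine tpu_fin hT hP2 m hTε (T2.sq ((Fr.pi p : kˣ) : k)) hετ hsτ ?_
      rw [hs2, hε2]
      rcases tpu_or hAi hBi hSu with h3 | h3
      · left
        have h4 : A / r * π ^ m = A * π ^ m / r := by ring
        rw [h4]
        exact h3.div hru
      · right
        have hr0 := hru.ne
        have h4 : A / r / π ^ m = algebraMap k (Om k) (c : k) / (B * π ^ m * r) := by
          rw [← hAB]
          field_simp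
        rw [h4]
        exact hcu.div (h3.mul hru)
    have hmz : ((m : ℤ) : ZMod 2) = (m : ZMod 2) := Int.cast_natCast m
    have e1 : ord P y = -(2 * (m : ℤ)) := by rw [he, hm]; ring
    have e2 : (-(2 * (m : ℤ))) / 2 = -(m : ℤ) := by omega
    have hneg : ∀ z : ZMod 2, -z = z := by decide
    have htwo : ((0 - -(2 * (m : ℤ)) : ℤ) : ZMod 2) = 0 := by
      have h3 : (0 - -(2 * (m : ℤ)) : ℤ) = 2 * m := by ring
      rw [h3]
      exact (ZMod.intCast_zmod_eq_zero_iff_dvd _ 2).2 (by exact_mod_cast dvd_mul_right 2 (m : ℤ))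
    unfold tp
    rw [hx, min_eq_right hy1.le, if_pos hy1, e1, e2, htwo, hg, zero_mul, add_zero, Int.cast_neg,
      hmz, hneg, mul_comm]

end

end Pool.Agent.SK.TP
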