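import Pool.Agent.SK.TPf

/-!
# Malle's conjecture for 8T8 over number fields, comparison of two homomorphisms: the value at
the tame generator for even positive exponent of the trace (row TP7)
-/

set_option autoImplicit false
set_option linter.unusedSectionVars false

open scoped BigOperators
open NumberField IsDedekindDomain

namespace Pool.Agent.SK.TP

open Pool.Agent.H98.MF
open Pool.Agent.H32.MA (SD)
open Pool.Agent.D8 (pm p5 bit3 so IsTh IsF ob RxF TF Two2 obn_so_mul obn_so_sq obn_chi_act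
  obn_two_notMem)

/-- TP7: the value at the tame generator, even positive exponent of the trace -/
theorem spOc (k : Type) [Field k] [NumberField k] : SpOc k := by
  intro Fr Rk w r d c n y ρ θ θ' ε g hE hy p hd hc hcev hy0 hρ
  set P := Fr.pl p with hP
  have hP2 : ord P (2 : k) = 0 := Fr.ord_pl_two p
  have hT : TF P (Rk.tau P) (Rk.phi P) := Rk.tf _ hP2
  set τ := Rk.tau P with hτ
  obtain ⟨hTw, hTr, hTθ, hTθ', hTε⟩ := tpf_T2 hE
  obtain ⟨hθτ, hετ⟩ := tpf_act hE hT hρ hcev
  have hx0 : (c : k) / 2 ≠ 0 := div_ne_zero c.ne_zero two_ne_zero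
  have hx : 0 < ord P ((c : k) / 2) := by
    rw [ord_div P c.ne_zero two_ne_zero, hP2, sub_zero]
    exact hc
  have hw : UV P w := tpf_unit_w hE.w4
  have h2u : UV P (2 : Om k) := tpf_unit_two hP2
  have hyu : UV P (algebraMap k (Om k) y) := UV.base hy hy0
  have hdu : UV P (Pool.Agent.H98.MF.sq (d : k)) :=
    UV.of_pow two_ne_zero (by rw [sq_sq]; exact UV.base d.ne_zero hd)
  have hcO : algebraMap k (Om k) (c : k) ≠ 0 := (map_ne_zero _).2 c.ne_zero
  have hr0 : r ≠ 0 := by
    intro h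
    have h1 := hE.r2
    rw [h, zero_pow two_ne_zero] at h1
    exact hcO h1.symm
  set A : Om k := θ + w ^ 2 * θ' with hA
  set B : Om k := θ - w ^ 2 * θ' with hB
  have hAB : A * B = algebraMap k (Om k) (c : k) := tpf_prod hE
  have hA0 : A ≠ 0 := fun h => hcO (by rw [← hAB, h, zero_mul])
  have hB0 : B ≠ 0 := fun h => hcO (by rw [← hAB, h, mul_zero])
  have hsum : A + B = 2 * θ := by rw [hA, hB]; ring
  have hε2 : ε ^ 2 = A / r := by
    rw [hA, ← hE.eps, mul_div_cancel_right₀ _ hr0]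
  -- the uniformizer
  set s : Om k := Pool.Agent.H98.MF.sq ((Fr.pi p : kˣ) : k) with hs
  set π : Om k := algebraMap k (Om k) ((Fr.pi p : kˣ) : k) with hπ
  have hs2 : s ^ 2 = π := sq_sq _
  have hπ0 : π ≠ 0 := (map_ne_zero _).2 (Fr.pi p).ne_zero
  have hsτ : τ s = -s := by
    have h := obn_chi_act (Fr.pi p) τ
    have h1 : chi ((Fr.pi p : kˣ) : k) τ = 1 := hT.chi1 _ (by
      rw [hP, Fr.pi_self]
      exact odd_one)
    rw [h1] at h
    have h3 : (so 1 : Om k) = -1 := if_neg one_ne_zero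
    rw [h3, neg_one_mul] at h
    exact h
  have hθu : UV P θ := by
    refine UV.of_pow two_ne_zero ?_
    rw [hE.th]
    exact tpu_add (hyu.mul hdu) (Or.inr hx)
  have hθu' : UV P θ' := by
    refine UV.of_pow two_ne_zero ?_
    rw [hE.th', sub_eq_add_neg]
    exact tpu_add (hyu.mul hdu).neg (Or.inr hx)
  have hAi : InV P A := hθu.i.add ((hw.pow 2).i.mul hθu'.i)
  have hBi : InV P B := hθu.i.sub ((hw.pow 2).i.mul hθu'.i)
  have hSu : UV P (A + B) := by
    rw [hsum]
    exact h2u.mul hθu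
  obtain ⟨e, he⟩ := hcev
  obtain ⟨m, rfl⟩ : ∃ m : ℕ, e = (m : ℤ) := ⟨e.toNat, by omega⟩
  have hru : UV P (r / π ^ m) := by
    refine UV.of_pow two_ne_zero ?_
    have h3 : ord P ((c : k) / ((Fr.pi p : kˣ) : k) ^ (2 * m)) = 0 := by
      rw [ord_div P c.ne_zero (pow_ne_zero _ (Fr.pi p).ne_zero), ord_pow, he]
      have h3 : ord P ((Fr.pi p : kˣ) : k) = 1 := Fr.pi_self p
      rw [h3]
      push_cast
      ring
    have h4 := UV.base (P := P) (div_ne_zero c.ne_zero
      (pow_ne_zero (2 * m) (Fr.pi p).ne_zero)) h3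
    rw [map_div₀, map_pow] at h4
    rw [div_pow, hE.r2, ← pow_mul, mul_comm m 2]
    exact h4
  have hg : g τ = (m : ZMod 2) := by
    refine tpu_fin hT hP2 m hTε (T2.sq ((Fr.pi p : kˣ) : k)) hετ hsτ ?_
    rw [hs2, hε2]
    rcases tpu_or hAi hBi hSu with h3 | h3
    · left
      have h4 : A / r * π ^ m = A / (r / π ^ m) := by
        field_simp
      rw [h4]
      exact h3.div hru
    · right
      have h4 : A / r / π ^ m = (r / π ^ m) / B := by
        have h5 : A = r ^ 2 / B := by
          rw [hE.r2, ← hAB, mul_div_cancel_right₀ _ hB0]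
        rw [h5]
        field_simp
      rw [h4]
      exact hru.div h3
  rw [hg, he]
  have h3 : ((m : ℤ) + (m : ℤ)) / 2 = (m : ℤ) := by omega
  rw [h3, Int.cast_natCast]

end Pool.Agent.SK.TP
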