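import Pool.Agent.SK.TP
import Pool.Agent.H98.MF.L.Odd

/-!
# Malle's conjecture for 8T8 over number fields, TP9: the polarised obstruction outside `S`
-/

set_option autoImplicit false

open scoped BigOperators
open NumberField IsDedekindDomain

namespace Pool.Agent.SK.TP

open Pool.Agent.H98.MF
open Pool.Agent.H32.MA (SD)
open Pool.Agent.D8 (pm p5 bit3 so IsTh IsF ob RxF)

section

variable {k : Type} [Field k] [NumberField k]

private theorem so9_sq {P : HeightOneSpectrum (𝓞 k)} (h2 : ord P (2 : k) = 0) {a c : k}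
    (hc : c ≠ 0) (h : a = c ^ 2 ∨ 2 * ord P c + 1 ≤ ord P (a - c ^ 2)) : LocSq P a := by
  by_cases h0 : a = c ^ 2
  · rw [h0]
    exact locSq_sq P hc
  · have h1 := h.resolve_left h0
    apply locSq_of_prec P c⁻¹
    right
    rw [h2]
    have h3 : a * c⁻¹ ^ 2 - 1 = (a - c ^ 2) * (c⁻¹) ^ 2 := by field_simp
    rw [h3, ord_mul P (sub_ne_zero.2 h0) (pow_ne_zero 2 (inv_ne_zero hc)), ord_pow, ord_inv]
    push_cast
    omega

/-- `-d n` is a local square -/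
private theorem so9_norm {P : HeightOneSpectrum (𝓞 k)} (h2 : ord P (2 : k) = 0) {d x y n : k}
    (hd0 : d ≠ 0) (hx0 : x ≠ 0) (hy0 : y ≠ 0) (hd : ord P d = 0) (hx : 0 < ord P x)
    (hy : ord P y = 0) (hn : n = x ^ 2 - d * y ^ 2) : LocSq P (-(d * n)) := by
  refine so9_sq h2 (c := d * y) (mul_ne_zero hd0 hy0) (Or.inr ?_)
  have h3 : -(d * n) - (d * y) ^ 2 = -(d * x ^ 2) := by
    rw [hn]
    ring
  rw [h3, ord_neg, ord_mul P hd0 (pow_ne_zero 2 hx0), ord_pow, ord_mul P hd0 hy0, hd, hy]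
  push_cast
  omega

private theorem so9_norm2 {P : HeightOneSpectrum (𝓞 k)} {d n₁ n₂ : k} (hd0 : d ≠ 0)
    (h1 : LocSq P (-(d * n₁))) (h2 : LocSq P (-(d * n₂))) : LocSq P (n₁ * n₂) := by
  have h3 := h1.mul h2
  have h4 : -(d * n₁) * -(d * n₂) = n₁ * n₂ * d ^ 2 := by ring
  rwa [h4, locSq_mul_sq P hd0] at h3

private theorem so9_even {x : ℤ} (h : Even x) : (x : ZMod 2) = 0 := by
  rw [ZMod.intCast_zmod_eq_zero_iff_dvd]
  exact h.two_dvd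

private theorem so9_odd {x : ℤ} (h : Odd x) : (x : ZMod 2) = 1 := by
  obtain ⟨y, rfl⟩ := h
  have h2 : (2 : ZMod 2) = 0 := by decide
  push_cast
  rw [h2, zero_mul, zero_add]

end

theorem spOut {k : Type} [Field k] [NumberField k] (hF : SpIsF k) (ha : SpPa k) (hb : SpPb k)
    (hc : SpPc k) (h6 : SpOb k) (h7 : SpOc k) (h8 : SpOd k) (hCh : D8.SaChr k) : SpOut k := by
  intro Fr Rk w r d c n₁ n₂ y₁ y₂ ρ₁ ρ₂ θ₁ θ₁' ε₁ θ₂ θ₂' ε₂ g₁ g₂ E1 E2 hy1 hy2 p hd hO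
  obtain ⟨hf, hT⟩ := hF w r d c n₁ n₂ y₁ y₂ ρ₁ ρ₂ θ₁ θ₁' ε₁ θ₂ θ₂' ε₂ g₁ g₂ E1 E2
  have h2 : ord (Fr.pl p) (2 : k) = 0 := by
    have h3 : Fr.pl p ∉ Fr.S := (Fr.pl_iff _).1 ⟨p, rfl⟩
    have h4 : 0 ≤ ord (Fr.pl p) (2 : k) := by
      have h5 := ord_int_nonneg (Fr.pl p) (2 : 𝓞 k)
      exact_mod_cast h5
    by_contra h5
    exact h3 (Fr.adm.two _ (lt_of_le_of_ne h4 (Ne.symm h5)))
  have hc0 : (c : k) ≠ 0 := c.ne_zero
  have hd0 : (d : k) ≠ 0 := d.ne_zero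
  have h20 : (2 : k) ≠ 0 := two_ne_zero
  have hx0 : (c : k) / 2 ≠ 0 := div_ne_zero hc0 h20
  have hx : ord (Fr.pl p) ((c : k) / 2) = ord (Fr.pl p) (c : k) := by
    rw [div_eq_mul_inv, ord_mul _ hc0 (inv_ne_zero h20), ord_inv, h2, neg_zero, add_zero]
  have hsum : ∀ x : ZMod 2, x + x = 0 := fun x => CharTwo.add_self_eq_zero x
  -- the tame symbols
  have htp0 : ∀ y : k, ord (Fr.pl p) (c : k) = 0 → 0 ≤ ord (Fr.pl p) y →
      tp (Fr.pl p) d ((c : k) / 2) y = 0 := by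
    intro y h3 h4
    unfold tp
    rw [hx, h3, min_eq_left h4, if_neg (by omega)]
    simp
  have htp1 : ∀ y : k, 0 < ord (Fr.pl p) (c : k) → ord (Fr.pl p) y = 0 →
      tp (Fr.pl p) d ((c : k) / 2) y = ((ord (Fr.pl p) (c : k) : ℤ) : ZMod 2) * qr y (Fr.pl p) := by
    intro y h3 h4
    unfold tp
    rw [hx, h4, min_eq_right h3.le, if_pos h3, sub_zero]
    simp
  rcases hO with ⟨hds, hcs, hc1, hy1', hy2'⟩ | ⟨hρ1, hρ2, hO⟩
  · rw [hb (Sum.inl (Fr.pl p)) (n₁ * n₂) d c _ _ hf hT hds hcs, htp0 y₁ hc1 hy1',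
      htp0 y₂ hc1 hy2', add_zero]
  · have hTF := Rk.tf (Fr.pl p) h2
    have hev : ∀ a : kˣ, chi (a : k) (Rk.tau (Fr.pl p)) = 0 → Even (ord (Fr.pl p) (a : k)) := by
      intro a h3
      by_contra h4
      rw [Int.not_even_iff_odd] at h4
      rw [hTF.chi1 (a : k) h4] at h3
      exact one_ne_zero h3
    have hcd : chi (d : k) (Rk.tau (Fr.pl p)) = 0 := by
      rw [← E1.pd, hρ1]
      decide
    have hn1 : chi (n₁ : k) (Rk.tau (Fr.pl p)) = 0 := by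
      have h3 := E1.pa (Rk.tau (Fr.pl p))
      rw [hρ1, hcd, zero_add] at h3
      rw [← h3]
      decide
    have hn2 : chi (n₂ : k) (Rk.tau (Fr.pl p)) = 0 := by
      have h3 := E2.pa (Rk.tau (Fr.pl p))
      rw [hρ2, hcd, zero_add] at h3
      rw [← h3]
      decide
    have hne1 := hev n₁ hn1
    have hne2 := hev n₂ hn2
    have hm : Even (ord (Fr.pl p) ((n₁ * n₂ : kˣ) : k)) := by
      rw [Units.val_mul, ord_mul _ n₁.ne_zero n₂.ne_zero]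
      exact hne1.add hne2
    have hde : Even (ord (Fr.pl p) (d : k)) := by rw [hd]; exact Even.zero
    have hfτ : fS ρ₁ ρ₂ (Rk.tau (Fr.pl p)) = 0 := by
      unfold fS
      rw [hρ1, hρ2]
      decide
    have hTτ : TS ρ₁ ρ₂ g₁ g₂ (Rk.tau (Fr.pl p)) =
        g₁ (Rk.tau (Fr.pl p)) + g₂ (Rk.tau (Fr.pl p)) := by
      unfold TS
      rw [hfτ, add_zero]
    rcases hO with hc1 | ⟨hc1, hy1', hy2'⟩
    · have hce : Even (ord (Fr.pl p) (c : k)) := by rw [hc1]; exact Even.zero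
      rw [hc Fr Rk (n₁ * n₂) d c _ _ hf hT p hm hde hce hfτ, hTτ,
        h6 Fr Rk w r d c n₁ y₁ ρ₁ θ₁ θ₁' ε₁ g₁ E1 hy1 p hd hc1 hρ1,
        h6 Fr Rk w r d c n₂ y₂ ρ₂ θ₂ θ₂' ε₂ g₂ E2 hy2 p hd hc1 hρ2, mul_add]
    · rw [htp1 y₁ hc1 hy1', htp1 y₂ hc1 hy2']
      rcases Int.even_or_odd (ord (Fr.pl p) (c : k)) with hce | hco
      · rw [hc Fr Rk (n₁ * n₂) d c _ _ hf hT p hm hde hce hfτ, hTτ,
          h7 Fr Rk w r d c n₁ y₁ ρ₁ θ₁ θ₁' ε₁ g₁ E1 hy1 p hd hc1 hce hy1' hρ1,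
          h7 Fr Rk w r d c n₂ y₂ ρ₂ θ₂ θ₂' ε₂ g₂ E2 hy2 p hd hc1 hce hy2' hρ2, hsum, mul_zero,
          so9_even hce, zero_mul, zero_mul, add_zero]
      · have hx' : 0 < ord (Fr.pl p) ((c : k) / 2) := by rw [hx]; exact hc1
        have hl : LocP (Sum.inl (Fr.pl p)) ((n₁ * n₂ : kˣ) : k) := by
          show LocSq (Fr.pl p) ((n₁ * n₂ : kˣ) : k)
          rw [Units.val_mul]
          exact so9_norm2 hd0 (so9_norm h2 hd0 hx0 hy1 hd hx' hy1' E1.nm)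
            (so9_norm h2 hd0 hx0 hy2 hd hx' hy2' E2.nm)
        obtain ⟨φ, hφ⟩ := hCh (n₁ * n₂) d (Sum.inl (Fr.pl p)) _ hf (Or.inl hl)
        obtain ⟨t, ht⟩ := hCh (n₁ * n₂) c (Sum.inl (Fr.pl p)) _ hT (Or.inl hl)
        have hφe : Even (ord (Fr.pl p) (φ : k)) := by
          refine hev φ ?_
          rw [← hφ _ hTF.decτ, hfτ]
        have h9 : hv (Sum.inl (Fr.pl p)) (φ : k) (c : k) = fS ρ₁ ρ₂ (Rk.phi (Fr.pl p)) := by
          show hs (Fr.pl p) (φ : k) (c : k) = _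
          rw [hs_even h2 φ.ne_zero hc0 hφe, so9_odd hco, one_mul, hφ _ hTF.decφ,
            (hTF.chi0 (φ : k) φ.ne_zero hφe).2]
        have h10 : hv (Sum.inl (Fr.pl p)) (t : k) (d : k) =
            qr (d : k) (Fr.pl p) * (g₁ (Rk.tau (Fr.pl p)) + g₂ (Rk.tau (Fr.pl p))) := by
          show hs (Fr.pl p) (t : k) (d : k) = _
          rw [hs_symm _ t.ne_zero hd0, hs_even h2 hd0 t.ne_zero hde, ← hTτ, ht _ hTF.decτ,
            mul_comm]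
          congr 1
          rcases Int.even_or_odd (ord (Fr.pl p) (t : k)) with hte | hto
          · rw [so9_even hte, (hTF.chi0 (t : k) t.ne_zero hte).1]
          · rw [so9_odd hto, hTF.chi1 (t : k) hto]
        rw [ha (Sum.inl (Fr.pl p)) (n₁ * n₂) d c φ t _ _ hf hT hl hφ ht, h9, h10,
          h8 Fr Rk w r d c n₁ n₂ y₁ y₂ ρ₁ ρ₂ θ₁ θ₁' ε₁ θ₂ θ₂' ε₂ g₁ g₂ E1 E2 hy1 hy2 p hd hc1
            hco hy1' hy2' hρ1 hρ2, so9_odd hco, one_mul, one_mul]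

end Pool.Agent.SK.TP
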