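import Pool.Agent.SK.TP
import Pool.Agent.H98.MF.L.Sqr

/-!
# Malle's conjecture for 8T8 over number fields, the comparison of two homomorphisms with the
same trace: the norms are locally equal up to squares (row TP11)
-/

set_option autoImplicit false

open scoped BigOperators
open NumberField IsDedekindDomain

namespace Pool.Agent.SK.TP

open Pool.Agent.H98.MF

theorem spq_prod {k : Type} [Field k] [NumberField k] (P : HeightOneSpectrum (𝓞 k)) {a b : k}
    {m n : ℤ} (ha : a = 0 ∨ m ≤ ord P a) (hb : b = 0 ∨ n ≤ ord P b) :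
    a * b = 0 ∨ m + n ≤ ord P (a * b) := by
  by_cases h1 : a = 0
  · left
    rw [h1, zero_mul]
  · by_cases h2 : b = 0
    · left
      rw [h2, mul_zero]
    · right
      rw [ord_mul P h1 h2]
      exact add_le_add (ha.resolve_left h1) (hb.resolve_left h2)

/-- TP11: the norms are locally equal up to squares -/
theorem spSq {k : Type} [Field k] [NumberField k] : SpSq k := by
  intro P d c n₂ y₂ hn2
  refine ⟨max 0 (2 * ord P (2 : k) + 1 - ord P (d : k) - min 0 (ord P (2 * y₂)) +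
    ord P (n₂ : k)), fun n₁ y₁ hn1 hclo => ?_⟩
  have hz : y₁ - y₂ = 0 ∨ max 0 (2 * ord P (2 : k) + 1 - ord P (d : k) -
      min 0 (ord P (2 * y₂)) + ord P (n₂ : k)) ≤ ord P (y₁ - y₂) :=
    hclo.imp sub_eq_zero.2 id
  have h0 : y₁ - y₂ = 0 ∨ min 0 (ord P (2 * y₂)) ≤ ord P (y₁ - y₂) :=
    hz.imp id fun h => (min_le_left _ _).trans ((le_max_left _ _).trans h)
  have h1 := le_ord_add P (min 0 (ord P (2 * y₂))) h0 (Or.inr (min_le_right _ _))
  have h2 := spq_prod P (spq_prod P (spq_prod P (a := -(d : k)) (m := ord P (d : k))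
    (Or.inr (by rw [ord_neg])) hz) h1) (b := (n₂ : k)⁻¹) (n := -ord P (n₂ : k))
    (Or.inr (by rw [ord_inv]))
  have h3 : -(d : k) * (y₁ - y₂) * (y₁ - y₂ + 2 * y₂) * (n₂ : k)⁻¹ = 0 ∨
      2 * ord P (2 : k) + 1 ≤
        ord P (-(d : k) * (y₁ - y₂) * (y₁ - y₂ + 2 * y₂) * (n₂ : k)⁻¹) := by
    refine h2.imp id fun h => le_trans ?_ h
    have := le_max_right 0 (2 * ord P (2 : k) + 1 - ord P (d : k) -
      min 0 (ord P (2 * y₂)) + ord P (n₂ : k))
    linarith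
  have h4 := locSq_one_add P h3
  have h5 : ((n₁ * n₂ : kˣ) : k) =
      (1 + -(d : k) * (y₁ - y₂) * (y₁ - y₂ + 2 * y₂) * (n₂ : k)⁻¹) * (n₂ : k) ^ 2 := by
    have h6 : (1 + -(d : k) * (y₁ - y₂) * (y₁ - y₂ + 2 * y₂) * (n₂ : k)⁻¹) * (n₂ : k) ^ 2 =
        ((n₂ : k) - (d : k) * (y₁ - y₂) * (y₁ - y₂ + 2 * y₂)) * (n₂ : k) := by
      have h7 : (n₂ : k)⁻¹ * (n₂ : k) = 1 := inv_mul_cancel₀ n₂.ne_zero
      linear_combination (-(d : k) * (y₁ - y₂) * (y₁ - y₂ + 2 * y₂) * (n₂ : k)) * h7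
    rw [h6, Units.val_mul, hn1]
    congr 1
    rw [hn2]
    ring
  rw [h5]
  exact (locSq_mul_sq P n₂.ne_zero _).2 h4

end Pool.Agent.SK.TP
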