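import Pool.Agent.SK.TP
import Pool.Agent.H98.MF.L.InV

/-!
# Malle's conjecture for 8T8 over number fields: close elements have close data (row TP12)
-/

set_option autoImplicit false

open scoped BigOperators
open NumberField IsDedekindDomain

namespace Pool.Agent.SK.TP

open Pool.Agent.H98.MF
open Pool.Agent.H32.MA (SD)
open Pool.Agent.D8 (pm p5 bit3 so IsTh IsF ob RxF)

section

variable {k : Type} [Field k] [NumberField k] {P : HeightOneSpectrum (𝓞 k)}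

theorem tpl_add {x y : Om k} (hx : InM P x) (hy : InM P y) : InM P (x + y) := by
  obtain ⟨a, b, ha, hb, h1⟩ := hx
  obtain ⟨c, d, hc, hd, h2⟩ := hy
  refine ⟨a * d + c * b, b * d, ?_, iv_mul_notMem hb hd, ?_⟩
  · exact (top P).add_mem ((top P).mul_mem_right _ ha) ((top P).mul_mem_right _ hc)
  · rw [iv_cmul, iv_cadd, iv_cmul, iv_cmul, ← h1, ← h2]
    ring

theorem tpl_mul {x y : Om k} (hx : InM P x) (hy : InM P y) : InM P (x * y) := by
  obtain ⟨a, b, ha, hb, h1⟩ := hx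
  obtain ⟨c, d, hc, hd, h2⟩ := hy
  refine ⟨a * c, b * d, (top P).mul_mem_right _ ha, iv_mul_notMem hb hd, ?_⟩
  rw [iv_cmul, iv_cmul, ← h1, ← h2]
  ring

theorem tpl_so (x : ZMod 2) : (so x : Om k) * so x = 1 := by
  unfold so
  split_ifs <;> norm_num

theorem tpl_so0 : (so 0 : Om k) = 1 := if_pos rfl

theorem tpl_so1 : (so 1 : Om k) = -1 := if_neg (by decide)

theorem tpl_soa (x y : ZMod 2) : (so (x + y) : Om k) = so x * so y := by
  have h : ∀ x : ZMod 2, x = 0 ∨ x = 1 := by decide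
  have h11 : (1 : ZMod 2) + 1 = 0 := by decide
  rcases h x with rfl | rfl <;> rcases h y with rfl | rfl
  · rw [add_zero, tpl_so0, one_mul]
  · rw [zero_add, tpl_so0, one_mul]
  · rw [add_zero, tpl_so0, mul_one]
  · rw [h11, tpl_so0, tpl_so1]
    ring

/-- a large power of a prime element -/
theorem tpl_big (P : HeightOneSpectrum (𝓞 k)) (B : ℤ) : ∃ z : k, z ≠ 0 ∧ B ≤ ord P z := by
  obtain ⟨p, hp⟩ := exists_unif P
  have hp0 : (p : k) ≠ 0 := by
    intro h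
    rw [h, ord_zero] at hp
    exact zero_ne_one hp
  refine ⟨(p : k) ^ B.toNat, pow_ne_zero _ hp0, ?_⟩
  rw [ord_pow, hp, mul_one]
  exact Int.self_le_toNat B

/-- square roots near `1` up to sign -/
theorem tpl_root (hU : SpUn k) {z : k} (hz0 : z ≠ 0) (hz2 : ord P (2 : k) ≤ ord P z) {x y : Om k}
    (hy : y ≠ 0) (h : Un P (2 * z) ((x / y) ^ 2)) :
    ∃ (e : ZMod 2) (κ : Om k), Un P z κ ∧ x = so e * κ * y := by
  rcases (hU P z hz0 hz2).2.2.2.2.2.1 _ h with h1 | h1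
  · refine ⟨0, x / y, h1, ?_⟩
    rw [tpl_so0, one_mul, div_mul_cancel₀ _ hy]
  · refine ⟨1, -(x / y), h1, ?_⟩
    rw [tpl_so1, neg_mul_neg, one_mul, div_mul_cancel₀ _ hy]

end

section

variable (k : Type) [Field k] [NumberField k]

/-- TP12 -/
theorem spNear (hV : SpVa k) (hU : SpUn k) : SpNear k := by
  intro P d c n₂ y₂
  set s : Om k := Pool.Agent.H98.MF.sq (d : k) with hs
  set A : Om k := algebraMap k (Om k) ((c : k) / 2) + algebraMap k (Om k) y₂ * s with hA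
  set A' : Om k := algebraMap k (Om k) ((c : k) / 2) - algebraMap k (Om k) y₂ * s with hA'
  set cc : Om k := algebraMap k (Om k) (c : k) with hcc
  have hs2 : s ^ 2 = algebraMap k (Om k) (d : k) := sq_sq _
  have hcc0 : cc ≠ 0 := (map_ne_zero _).2 c.ne_zero
  obtain ⟨m0, hm0⟩ := IsAlgClosed.exists_pow_nat_eq (algebraMap k (Om k) (-(n₂ : k)))
    (n := 2) two_pos
  obtain ⟨b1, hb1⟩ := hV P (((A - m0) / cc) / 4)
  obtain ⟨b2, hb2⟩ := hV P ((1 - (A - m0) / cc) / 4)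
  obtain ⟨b3, hb3⟩ := hV P (((A + m0) / cc) / 4)
  obtain ⟨b4, hb4⟩ := hV P ((1 - (A + m0) / cc) / 4)
  obtain ⟨z, hz0, hz⟩ := tpl_big P (max (max b1 b2) (max (max b3 b4) (ord P (2 : k))))
  have hz1 : b1 ≤ ord P z := ((le_max_left _ _).trans (le_max_left _ _)).trans hz
  have hz2 : b2 ≤ ord P z := ((le_max_right _ _).trans (le_max_left _ _)).trans hz
  have hz3 : b3 ≤ ord P z :=
    (((le_max_left _ _).trans (le_max_left _ _)).trans (le_max_right _ _)).trans hz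
  have hz4 : b4 ≤ ord P z :=
    (((le_max_right _ _).trans (le_max_left _ _)).trans (le_max_right _ _)).trans hz
  have hz5 : ord P (2 : k) ≤ ord P z := ((le_max_right _ _).trans (le_max_right _ _)).trans hz
  have hzz : algebraMap k (Om k) z ≠ 0 := (map_ne_zero _).2 hz0
  obtain ⟨b5, hb5⟩ := hV P (s / (algebraMap k (Om k) (2 * z) * A))
  obtain ⟨b6, hb6⟩ := hV P (-s / (algebraMap k (Om k) (2 * z) * A'))
  refine ⟨max b5 b6, ?_⟩
  intro w r n₁ y₁ ρ₁ ρ₂ θ₁ θ₁' ε₁ θ₂ θ₂' ε₂ g₁ g₂ E1 E2 hclo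
  have hy : y₁ - y₂ = 0 ∨ max b5 b6 ≤ ord P (y₁ - y₂) := hclo.imp sub_eq_zero.2 id
  have h2z : algebraMap k (Om k) (2 * z) ≠ 0 :=
    (map_ne_zero _).2 (mul_ne_zero two_ne_zero hz0)
  have t1 : θ₂ ^ 2 = A := E2.th
  have t2 : θ₂' ^ 2 = A' := E2.th'
  have hAA : A * A' = algebraMap k (Om k) (n₂ : k) := by
    rw [E2.nm, hA, hA']
    simp only [map_mul, map_sub, map_pow]
    rw [← hs2]
    ring
  have hn0 : algebraMap k (Om k) (n₂ : k) ≠ 0 := (map_ne_zero _).2 n₂.ne_zero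
  have hA0 : A ≠ 0 := by
    intro h
    rw [h, zero_mul] at hAA
    exact hn0 hAA.symm
  have hA'0 : A' ≠ 0 := by
    intro h
    rw [h, mul_zero] at hAA
    exact hn0 hAA.symm
  have hθ0 : θ₂ ≠ 0 := by
    rintro rfl
    rw [zero_pow two_ne_zero] at t1
    exact hA0 t1.symm
  have hθ'0 : θ₂' ≠ 0 := by
    rintro rfl
    rw [zero_pow two_ne_zero] at t2
    exact hA'0 t2.symm
  obtain ⟨e, κ, hκ, hθ⟩ := tpl_root (P := P) hU hz0 hz5 (x := θ₁) hθ0 (by
    unfold Un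
    have h1 : ((θ₁ / θ₂) ^ 2 - 1) / algebraMap k (Om k) (2 * z) =
        algebraMap k (Om k) (y₁ - y₂) * (s / (algebraMap k (Om k) (2 * z) * A)) := by
      rw [div_pow, t1, E1.th, map_sub]
      field_simp
      rw [hA]
      ring
    rw [h1]
    exact hb5 _ (hy.imp id (le_trans (le_max_left _ _))))
  obtain ⟨e', κ', hκ', hθ'⟩ := tpl_root (P := P) hU hz0 hz5 (x := θ₁') hθ'0 (by
    unfold Un
    have h1 : ((θ₁' / θ₂') ^ 2 - 1) / algebraMap k (Om k) (2 * z) =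
        algebraMap k (Om k) (y₁ - y₂) * (-s / (algebraMap k (Om k) (2 * z) * A')) := by
      rw [div_pow, t2, E1.th', map_sub]
      field_simp
      rw [hA']
      ring
    rw [h1]
    exact hb6 _ (hy.imp id (le_trans (le_max_right _ _))))
  set E := e + e' with hE
  have hee : e + E = e' := by
    rw [hE]
    have : ∀ a b : ZMod 2, a + (a + b) = b := by decide
    exact this e e'
  set q : Om k := so E with hq
  have hqq : q * q = 1 := tpl_so E
  set D : Om k := θ₂ + q * (w ^ 2 * θ₂') with hD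
  have hw4 : w ^ 4 = -1 := E2.w4
  have hAc : A + A' = cc := by
    have h1 : (c : k) / 2 + (c : k) / 2 = c := by ring
    rw [hA, hA', hcc]
    calc _ = algebraMap k (Om k) ((c : k) / 2) + algebraMap k (Om k) ((c : k) / 2) := by ring
      _ = _ := by rw [← map_add, h1]
  have hDD : D * (θ₂ - q * (w ^ 2 * θ₂')) = cc := by
    rw [hD, ← hAc, ← t1, ← t2]
    linear_combination (-(w ^ 4 * θ₂' ^ 2)) * hqq - θ₂' ^ 2 * hw4
  have hD0 : D ≠ 0 := by
    intro h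
    rw [h, zero_mul] at hDD
    exact hcc0 hDD.symm
  have hm : (q * (w ^ 2 * θ₂ * θ₂')) ^ 2 = m0 ^ 2 := by
    rw [hm0, map_neg, ← hAA, ← t1, ← t2]
    linear_combination (w ^ 4 * θ₂ ^ 2 * θ₂' ^ 2) * hqq + (θ₂ ^ 2 * θ₂' ^ 2) * hw4
  have hx : θ₂ / D = (A - q * (w ^ 2 * θ₂ * θ₂')) / cc := by
    rw [div_eq_div_iff hD0 hcc0, ← hDD, ← t1]
    ring
  obtain ⟨hx1, hx2⟩ : InM P (algebraMap k (Om k) z * ((θ₂ / D) / 4)) ∧
      InM P (algebraMap k (Om k) z * ((1 - θ₂ / D) / 4)) := by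
    rw [hx]
    rcases sq_eq_sq_iff_eq_or_eq_neg.1 hm with h | h
    · rw [h]
      exact ⟨hb1 z (Or.inr hz1), hb2 z (Or.inr hz2)⟩
    · rw [h, sub_neg_eq_add]
      exact ⟨hb3 z (Or.inr hz3), hb4 z (Or.inr hz4)⟩
  set κ3 : Om k := (κ * θ₂ + q * (κ' * (w ^ 2 * θ₂'))) / D with hκ3
  have hU3 : Un P (2 * 2) κ3 := by
    unfold Un
    have h1 : (κ3 - 1) / algebraMap k (Om k) (2 * 2) =
        ((κ - 1) / algebraMap k (Om k) z) * (algebraMap k (Om k) z * ((θ₂ / D) / 4)) +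
        ((κ' - 1) / algebraMap k (Om k) z) *
          (algebraMap k (Om k) z * ((1 - θ₂ / D) / 4)) := by
      have h2 : algebraMap k (Om k) (2 * 2) = 4 := by
        rw [map_mul, map_ofNat]
        norm_num
      have h3 : 1 - θ₂ / D = q * (w ^ 2 * θ₂') / D := by
        rw [eq_div_iff hD0, sub_mul, div_mul_cancel₀ _ hD0, hD]
        ring
      have h4 : κ3 - 1 = (κ - 1) * (θ₂ / D) + (κ' - 1) * (1 - θ₂ / D) := by
        rw [h3, hκ3]
        field_simp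
        rw [hD]
        ring
      rw [h2, h4]
      field_simp
    rw [h1]
    exact tpl_add (tpl_mul hκ hx1) (tpl_mul hκ' hx2)
  have h20 : (2 : k) ≠ 0 := two_ne_zero
  have hU2 := hU P 2 h20 le_rfl
  have hr0 : r ≠ 0 := by
    intro h
    have h1 := E2.r2
    rw [h, zero_pow two_ne_zero] at h1
    exact hcc0 h1.symm
  have hprod : (θ₂ + w ^ 2 * θ₂') * (θ₂ - w ^ 2 * θ₂') = r ^ 2 := by
    rw [E2.r2, ← hcc, ← hAc, ← t1, ← t2]
    linear_combination (-(θ₂' ^ 2)) * hw4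
  have hε0 : ε₂ ≠ 0 := by
    intro h
    have h1 := E2.eps
    rw [h, zero_pow two_ne_zero, zero_mul] at h1
    rw [← h1, zero_mul] at hprod
    exact (pow_ne_zero 2 hr0) hprod.symm
  have hep0 : ep E ε₂ ≠ 0 := by
    unfold ep
    split_ifs
    · exact hε0
    · exact inv_ne_zero hε0
  have hDr : D = (ep E ε₂) ^ 2 * r := by
    have h2 : ∀ x : ZMod 2, x = 0 ∨ x = 1 := by decide
    rcases h2 E with h | h
    · have h3 : ep E ε₂ = ε₂ := by rw [h]; exact if_pos rfl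
      rw [h3, E2.eps, hD, hq, h, tpl_so0, one_mul]
    · have h3 : ep E ε₂ = ε₂⁻¹ := by rw [h]; exact if_neg (by decide)
      rw [h3, hD, hq, h, tpl_so1]
      have h4 : ε₂ ^ 2 * r * (θ₂ - w ^ 2 * θ₂') = r ^ 2 := by rw [E2.eps, hprod]
      have h5 : ε₂ ^ 2 * (θ₂ - w ^ 2 * θ₂') = r := by
        apply mul_left_cancel₀ hr0
        rw [← pow_two, ← h4]
        ring
      rw [inv_pow, eq_comm, inv_mul_eq_iff_eq_mul₀ (pow_ne_zero 2 hε0)]
      rw [← h5]
      ring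
  have hε1 : ε₁ ^ 2 = so e * κ3 * (ep E ε₂) ^ 2 := by
    have hκD : κ3 * D = κ * θ₂ + q * (κ' * (w ^ 2 * θ₂')) := div_mul_cancel₀ _ hD0
    apply mul_right_cancel₀ hr0
    rw [E1.eps, mul_assoc, ← hDr, mul_assoc, hκD, hθ, hθ', ← hee, tpl_soa, ← hq]
    ring
  have fin : ∀ (j0 : ZMod 8), (zp w j0) ^ 2 = so e → zp w (j0 + 4) = -zp w j0 →
      2 * j0 = bit3 0 0 e → zp w j0 ≠ 0 →
      ∃ (j : ZMod 8) (κ'' : Om k), Un P 2 κ'' ∧ 2 * j = bit3 0 0 e ∧
        ε₁ = zp w j * ep E ε₂ * κ'' := by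
    intro j0 h1 h2 h3 h4
    have h5 : (ε₁ / (zp w j0 * ep E ε₂)) ^ 2 = κ3 := by
      rw [div_pow, mul_pow, h1, hε1, div_eq_iff]
      · ring
      · refine mul_ne_zero ?_ (pow_ne_zero 2 hep0)
        rw [← h1]
        exact pow_ne_zero 2 h4
    have h6 : zp w j0 * ep E ε₂ ≠ 0 := mul_ne_zero h4 hep0
    rcases hU2.2.2.2.2.2.1 (ε₁ / (zp w j0 * ep E ε₂)) (by rw [h5]; exact hU3) with h7 | h7
    · refine ⟨j0, _, h7, h3, ?_⟩
      rw [mul_div_cancel₀ _ h6]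
    · refine ⟨j0 + 4, _, h7, ?_, ?_⟩
      · rw [← h3, mul_add]
        have : (2 : ZMod 8) * 4 = 0 := by decide
        rw [this, add_zero]
      · rw [h2, neg_mul, neg_mul_neg, mul_div_cancel₀ _ h6]
  have hw0 : w ≠ 0 := by
    rintro rfl
    rw [zero_pow (by norm_num)] at hw4
    exact (neg_ne_zero.2 one_ne_zero) hw4.symm
  obtain ⟨j, κ'', g1, g2, g3⟩ : ∃ (j : ZMod 8) (κ'' : Om k), Un P 2 κ'' ∧
      2 * j = bit3 0 0 e ∧ ε₁ = zp w j * ep E ε₂ * κ'' := by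
    have h2 : ∀ x : ZMod 2, x = 0 ∨ x = 1 := by decide
    have z0 : zp w 0 = 1 := by
      unfold zp
      exact pow_zero w
    have z2 : zp w 2 = w ^ 2 := rfl
    have z4 : zp w 4 = w ^ 4 := rfl
    have z6 : zp w 6 = w ^ 6 := rfl
    rcases h2 e with h | h
    · refine fin 0 ?_ ?_ ?_ ?_
      · rw [z0, one_pow, h, tpl_so0]
      · rw [zero_add, z4, z0, hw4]
      · rw [h]
        decide
      · rw [z0]
        exact one_ne_zero
    · refine fin 2 ?_ ?_ ?_ ?_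
      · rw [z2, h, tpl_so1, ← hw4]
        ring
      · have h24 : (2 : ZMod 8) + 4 = 6 := by decide
        rw [h24, z6, z2]
        linear_combination (w ^ 2) * hw4
      · rw [h]
        decide
      · rw [z2]
        exact pow_ne_zero 2 hw0
  refine ⟨e, E, j, κ, κ', κ'', hU2.2.2.2.2.1 z κ hz0 hz5 hκ, hU2.2.2.2.2.1 z κ' hz0 hz5 hκ',
    g1, hθ, ?_, g2, g3⟩
  rw [hee]
  exact hθ'

end

end Pool.Agent.SK.TP
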