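import Pool.Agent.SK.TP
import Pool.Agent.H98.MF.L.SqD

/-!
# Malle's conjecture for 8T8 over number fields, the oscillating sum: the comparison on the
decomposition group (row TP13)
-/

set_option autoImplicit false

open scoped BigOperators
open NumberField IsDedekindDomain

namespace Pool.Agent.SK.TP

open Pool.Agent.H98.MF
open Pool.Agent.H32.MA (SD)
open Pool.Agent.D8 (pm p5 bit3 so IsTh IsF ob RxF)

section

variable {k : Type} [Field k] [NumberField k]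

/-! ### calculus -/

theorem tpm_zp_add {w : Om k} (hw : w ^ 4 = -1) (x y : ZMod 8) :
    zp w (x + y) = zp w x * zp w y := Pool.Agent.D8.ac2_zp_add hw x y

theorem tpm_zp_neg {w : Om k} (hw : w ^ 4 = -1) (x : ZMod 8) :
    zp w (-x) = (zp w x)⁻¹ := Pool.Agent.D8.ac2_zp_neg hw x

theorem tpm_zp_ne {w : Om k} (hw : w ^ 4 = -1) (x : ZMod 8) : zp w x ≠ 0 :=
  Pool.Agent.D8.ac2_zp_ne hw x

theorem tpm_map_zp {w : Om k} (hw : w ^ 4 = -1) (σ : Gm k) (x : ZMod 8) :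
    σ (zp w x) = zp w (pm (chi (-1 : k) σ) * p5 (chi (2 : k) σ) * x) :=
  Pool.Agent.D8.ac2_map_zp hw σ x

theorem tpm_ep_mul (y : ZMod 2) (e e' : Om k) : ep y (e * e') = ep y e * ep y e' :=
  Pool.Agent.D8.ac2_ep_mul y e e'

theorem tpm_ep_zp {w : Om k} (hw : w ^ 4 = -1) (y : ZMod 2) (x : ZMod 8) :
    ep y (zp w x) = zp w (pm y * x) := Pool.Agent.D8.ac2_ep_zp hw y x

theorem tpm_ep_ep (y y' : ZMod 2) (e : Om k) : ep y (ep y' e) = ep (y + y') e :=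
  Pool.Agent.D8.ac2_ep_ep y y' e

theorem tpm_map_ep (σ : Gm k) (y : ZMod 2) (e : Om k) : σ (ep y e) = ep y (σ e) :=
  Pool.Agent.D8.ac2_map_ep σ y e

theorem tpm_ep_ne (y : ZMod 2) {e : Om k} (he : e ≠ 0) : ep y e ≠ 0 :=
  Pool.Agent.D8.ac2_ep_ne y he

theorem tpm_so {w : Om k} (hw : w ^ 4 = -1) (x : ZMod 2) : (so x : Om k) = zp w (bit3 0 0 x) := by
  have h0 : bit3 0 0 0 = 0 := by decide
  have h1 : bit3 0 0 1 = 4 := by decide
  rcases Pool.Agent.D8.ac2_z2 x with rfl | rfl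
  · rw [h0, Pool.Agent.D8.ac2_so_zero]
    exact (Pool.Agent.D8.ac2_zp_zero w).symm
  · rw [h1, Pool.Agent.D8.ac2_so_one]
    exact (Pool.Agent.D8.ac2_zp_four hw).symm

theorem tpm_map_so (σ : Gm k) (x : ZMod 2) : σ (so x : Om k) = so x := by
  rcases Pool.Agent.D8.ac2_z2 x with rfl | rfl
  · rw [Pool.Agent.D8.ac2_so_zero, map_one]
  · rw [Pool.Agent.D8.ac2_so_one, map_neg, map_one]

/-! ### finite computations -/

theorem tpm_f1 : ∀ (x1 x2 U e : ZMod 2) (j : ZMod 8), 2 * j = bit3 0 0 e →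
    pm x1 * p5 x2 * j - pm U * j = bit3 0 0 (e * (x1 + U)) := by decide

theorem tpm_f2 : ∀ (U t : ZMod 2), pm U * bit3 0 0 t = bit3 0 0 t := by decide

theorem tpm_f3 : ∀ (s : SD) (X g₁ g₂ E t : ZMod 2),
    bit3 0 X g₁ + (pm E * (s.b - bit3 0 X g₂) - bit3 0 0 t) =
      (au (Pool.Agent.H32.MA.pw E) (s * SD.zz (g₁ + g₂ + t + E * (s.pd + X)))).b := by
  decide

theorem tpm_bit : ∀ x : ZMod 2, bit3 0 0 x = 0 → x = 0 := by decide

/-! ### the elements do not vanish -/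

theorem tpm_ne {w r : Om k} {d c n : kˣ} {y : k} {ρ : Gm k →* SD} {θ θ' ε : Om k}
    {g : Gm k → ZMod 2} (h : Ex w r d c n y ρ θ θ' ε g) : θ ≠ 0 ∧ θ' ≠ 0 ∧ ε ≠ 0 := by
  have hs := sq_sq (d : k)
  have h1 : θ ^ 2 * θ' ^ 2 = algebraMap k (Om k) (n : k) := by
    rw [h.th, h.th', h.nm, map_sub, map_mul, map_pow, map_pow, ← hs]
    ring
  have hn : algebraMap k (Om k) (n : k) ≠ 0 := sqd_map_ne n.ne_zero
  have hθ : θ ≠ 0 := by
    rintro rfl
    exact hn (by rw [← h1]; ring)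
  have hθ' : θ' ≠ 0 := by
    rintro rfl
    exact hn (by rw [← h1]; ring)
  refine ⟨hθ, hθ', ?_⟩
  rintro rfl
  have h2 := h.eps
  have h3 : θ = -(w ^ 2 * θ') := by linear_combination -h2
  have h4 : θ ^ 2 + θ' ^ 2 = 0 := by
    have h5 : θ ^ 2 = w ^ 4 * θ' ^ 2 := by
      rw [h3]
      ring
    rw [h5, h.w4]
    ring
  rw [h.th, h.th'] at h4
  have h5 : algebraMap k (Om k) (c : k) = 0 := by
    have h6 : algebraMap k (Om k) (c : k) =
        algebraMap k (Om k) ((c : k) / 2) + algebraMap k (Om k) ((c : k) / 2) := by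
      rw [← map_add, add_halves]
    rw [h6]
    linear_combination h4
  exact sqd_map_ne c.ne_zero h5

end

section

variable (k : Type) [Field k] [NumberField k]

theorem spCmp (hU : SpUn k) : SpCmp k := by
  intro P w r d c n₁ n₂ y₁ y₂ ρ₁ ρ₂ θ₁ θ₁' ε₁ θ₂ θ₂' ε₂ g₁ g₂ e E h1 h2 hL hN σ hσ
  obtain ⟨j, κ, κ', κ'', hκ, hκ', hκ'', e1, e2, hj, e3⟩ := hN
  obtain ⟨-, um, ui, us, -, -, uz⟩ := hU P 2 two_ne_zero le_rfl
  have hw := h1.w4
  obtain ⟨hθ₁, hθ₁', hε₁⟩ := tpm_ne h1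
  obtain ⟨hθ₂, hθ₂', hε₂⟩ := tpm_ne h2
  have hκ0 := (ui κ hκ).1
  have hκ0' := (ui κ' hκ').1
  have hκ0'' := (ui κ'' hκ'').1
  have hso : ∀ (x : ZMod 2) (a : Om k), (so x : Om k) = a → Un P 2 a → x = 0 := by
    intro x a ha hUa
    rw [← ha, tpm_so hw] at hUa
    exact tpm_bit x (uz w hw _ hUa)
  have hsq : ∀ x : ZMod 2, (so x * so x : Om k) = 1 := Pool.Agent.D8.ac2_so_sq
  have hsn : ∀ x : ZMod 2, (so x : Om k) ≠ 0 := Pool.Agent.D8.ac2_so_ne
  -- the second bits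
  have hpf : (ρ₁ σ).pf = (ρ₂ σ).pf + E * chi (d : k) σ := by
    have hz : ∀ x y z : ZMod 2, x + y + z = 0 → x = y + z := by decide
    rcases Pool.Agent.D8.ac2_z2 (chi (d : k) σ) with hd | hd
    · have a1 := h1.f0 σ hd
      have a2 := h2.f0 σ hd
      have a3 : σ θ₁ = so e * σ κ * (so (ρ₂ σ).pf * θ₂) := by
        rw [e1, map_mul, map_mul, tpm_map_so, a2]
      rw [a1, e1] at a3
      have a4 : (so ((ρ₁ σ).pf + (ρ₂ σ).pf) : Om k) = σ κ * κ⁻¹ := by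
        rw [Pool.Agent.D8.ac2_so_add, eq_mul_inv_iff_mul_eq₀ hκ0]
        apply mul_left_cancel₀ (mul_ne_zero (hsn e) hθ₂)
        have b1 := hsq (ρ₂ σ).pf
        linear_combination (so (ρ₂ σ).pf : Om k) * a3 + so e * θ₂ * σ κ * b1
      have a5 := hso _ _ a4 (um _ _ (us σ hσ κ hκ) (ui κ hκ).2)
      rw [hd, mul_zero]
      exact hz _ _ _ (by rw [add_zero]; exact a5)
    · have a1 := h1.f1 σ hd
      have a2 := h2.f1 σ hd
      have a3 : σ θ₁ = so e * σ κ * (so (ρ₂ σ).pf * θ₂') := by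
        rw [e1, map_mul, map_mul, tpm_map_so, a2]
      rw [a1, e2, Pool.Agent.D8.ac2_so_add] at a3
      have a4 : (so ((ρ₁ σ).pf + (ρ₂ σ).pf + E) : Om k) = σ κ * κ'⁻¹ := by
        rw [Pool.Agent.D8.ac2_so_add, Pool.Agent.D8.ac2_so_add, eq_mul_inv_iff_mul_eq₀ hκ0']
        apply mul_left_cancel₀ (mul_ne_zero (hsn e) hθ₂')
        have b1 := hsq (ρ₂ σ).pf
        linear_combination (so (ρ₂ σ).pf : Om k) * a3 + so e * θ₂' * σ κ * b1
      have a5 := hso _ _ a4 (um _ _ (us σ hσ κ hκ) (ui κ' hκ').2)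
      rw [hd, mul_one]
      exact hz _ _ _ a5
  refine ⟨hpf, ?_⟩
  -- the characters of the norms
  have hchi : chi (n₁ : k) σ = chi (n₂ : k) σ := by
    have a1 := (dec_chi P (n₁ * n₂).ne_zero).2 hL σ hσ
    rw [Units.val_mul, chi_mul n₁.ne_zero n₂.ne_zero] at a1
    have hz : ∀ x y : ZMod 2, x + y = 0 → x = y := by decide
    exact hz _ _ a1
  have hun : un d n₁ σ = un d n₂ σ := by
    unfold un
    rw [hchi]
  set U := un d n₂ σ with hUdef
  have act1 := h1.act σ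
  have act2 := h2.act σ
  rw [hun] at act1
  rw [← hUdef] at act2
  set K₁ := Kf c ρ₁ g₁ σ with hK₁
  set K₂ := Kf c ρ₂ g₂ σ with hK₂
  set m : ZMod 8 := pm (chi (-1 : k) σ) * p5 (chi (2 : k) σ) with hm
  have key : zp w (m * j + pm E * (-(pm U * K₂)) + (pm U * K₁ - pm U * j)) =
      ep U κ'' * (σ κ'')⁻¹ := by
    have a1 : σ ε₁ = zp w (m * j) * (zp w (pm E * (-(pm U * K₂))) * ep (E + U) ε₂) * σ κ'' := by
      rw [e3, map_mul, map_mul, tpm_map_zp hw, tpm_map_ep, act2, tpm_ep_mul, tpm_ep_zp hw,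
        tpm_ep_ep]
    have a2 : ep U ε₁ = zp w (pm U * j) * ep (E + U) ε₂ * ep U κ'' := by
      rw [e3, tpm_ep_mul, tpm_ep_mul, tpm_ep_zp hw, tpm_ep_ep, add_comm U E]
    rw [act1, a2] at a1
    have hn1 : ep (E + U) ε₂ ≠ 0 := tpm_ep_ne _ hε₂
    have hn2 : σ κ'' ≠ 0 := (ui _ (us σ hσ κ'' hκ'')).1
    rw [eq_mul_inv_iff_mul_eq₀ hn2]
    apply mul_left_cancel₀ hn1
    have b1 : zp w (pm U * K₁ - pm U * j) * (zp w (-(pm U * K₁)) * zp w (pm U * j)) = 1 := by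
      rw [← tpm_zp_add hw, ← tpm_zp_add hw]
      have b2 : pm U * K₁ - pm U * j + (-(pm U * K₁) + pm U * j) = 0 := by ring
      rw [b2]
      exact Pool.Agent.D8.ac2_zp_zero w
    rw [tpm_zp_add hw, tpm_zp_add hw]
    linear_combination (-(zp w (pm U * K₁ - pm U * j))) * a1 + ep (E + U) ε₂ * ep U κ'' * b1
  have hUe : Un P 2 (ep U κ'') := by
    unfold ep
    split_ifs
    · exact hκ''
    · exact (ui κ'' hκ'').2
  have hexp := uz w hw _ (by
    rw [key]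
    exact um _ _ hUe (ui _ (us σ hσ κ'' hκ'')).2)
  have hf1 := tpm_f1 (chi (-1 : k) σ) (chi (2 : k) σ) U e j hj
  rw [← hm] at hf1
  have hxU : chi (-1 : k) σ + U = chi (d : k) σ + chi (n₂ : k) σ := by
    rw [hUdef]
    unfold un
    have hz : ∀ x y z : ZMod 2, x + (x + y + z) = z + y := by decide
    exact hz _ _ _
  rw [hxU] at hf1
  set t : ZMod 2 := e * (chi (d : k) σ + chi (n₂ : k) σ) with ht
  have hK : K₁ = pm E * K₂ - bit3 0 0 t := by
    have hpU : pm U * pm U = 1 := Pool.Agent.D8.ac2_pm_sq U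
    have b1 := tpm_f2 U t
    linear_combination pm U * hexp - (pm U) * hf1 - (K₁ - pm E * K₂) * hpU - b1
  apply SD.ext
  · have b2 := tpm_f3 (ρ₂ σ) (chi (c : k) σ) (g₁ σ) (g₂ σ) E t
    rw [h2.pd σ] at b2
    rw [← b2, ← (show K₂ = (ρ₂ σ).b - bit3 0 (chi (c : k) σ) (g₂ σ) from rfl), ← hK, hK₁]
    unfold Kf
    ring
  · rw [au_a, Pool.Agent.H32.MA.SD.mul_zz_a, h1.pa, h2.pa, hchi]

end

end Pool.Agent.SK.TP
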