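import Pool.Agent.SK.TP2
import Pool.Agent.D8.AObF
import Pool.Agent.H98.MF.L.Real

/-!
# Malle's conjecture for 8T8 over number fields: the real places (row TP15)
-/

set_option autoImplicit false

open scoped BigOperators
open NumberField IsDedekindDomain

namespace Pool.Agent.SK.TP

open Pool.Agent.H98.MF
open Pool.Agent.H32.MA (SD)
open Pool.Agent.D8 (pm p5 bit3 so IsTh IsF ob RxF)

section

variable {k : Type} [Field k] [NumberField k]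

/-- square roots of totally positive elements are fixed by the complex conjugation -/
theorem tpo_core (φ : k →+* ℝ) {T n : k} (hT0 : 0 < φ T) (hn0 : 0 < φ n) {θ θ2 : Om k}
    (hT' : θ ^ 2 + θ2 ^ 2 = algebraMap k (Om k) T) (hn' : (θ * θ2) ^ 2 = algebraMap k (Om k) n)
    (hfix : cconj φ (θ ^ 2) = θ ^ 2) : cconj φ θ = θ := by
  set c := cconj φ with hc
  have hcc : ∀ z : Om k, c (c z) = z := by
    intro z
    have h1 := cconj_mul φ
    rw [← AlgEquiv.mul_apply, h1, AlgEquiv.one_apply]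
  have hchi : ∀ t : k, 0 < φ t → chi t c = 0 := by
    intro t ht
    have ht0 : t ≠ 0 := by
      rintro rfl
      rw [map_zero] at ht
      exact lt_irrefl _ ht
    rw [chi_cconj φ ht0, if_neg (not_lt.2 ht.le)]
  have hchi1 : chi (-1 : k) c = 1 := by
    rw [chi_cconj φ (neg_ne_zero.2 one_ne_zero), map_neg, map_one, if_pos (by norm_num)]
  obtain ⟨u, hi2, hi⟩ : ∃ u : Om k, u ^ 2 = (-1 : Om k) ∧ c u = -u := by
    refine ⟨Pool.Agent.H98.MF.sq (-1 : k), ?_,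
      (chi_eq_one_iff (neg_ne_zero.2 one_ne_zero) (sq_sq (-1 : k)) c).1 hchi1⟩
    rw [sq_sq, map_neg, map_one]
  have hi0 : u ≠ 0 := by
    intro h
    rw [h, zero_pow two_ne_zero] at hi2
    exact (neg_ne_zero.2 one_ne_zero) hi2.symm
  obtain ⟨r, hr2, hr⟩ : ∃ r : Om k, r ^ 2 = algebraMap k (Om k) T ∧ c r = r :=
    ⟨Pool.Agent.H98.MF.sq T, sq_sq _, (chi_eq_zero_iff (sq_sq _) c).1 (hchi _ hT0)⟩
  have hr0 : r ≠ 0 := by
    intro h
    have h1 := hr2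
    rw [h, zero_pow two_ne_zero] at h1
    have h2 : T = 0 := (algebraMap k (Om k)).injective (by rw [← h1, map_zero])
    rw [h2, map_zero] at hT0
    exact lt_irrefl _ hT0
  have hθ0 : θ ≠ 0 := by
    rintro rfl
    rw [zero_mul, zero_pow two_ne_zero] at hn'
    have h2 : n = 0 := (algebraMap k (Om k)).injective (by rw [← hn', map_zero])
    rw [h2, map_zero] at hn0
    exact lt_irrefl _ hn0
  rcases sq_eq_sq_iff_eq_or_eq_neg.1 (show (c θ) ^ 2 = θ ^ 2 by rw [← map_pow, hfix]) with h1 | h1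
  · exact h1
  exfalso
  have h2 : c (θ * θ2) = θ * θ2 := (chi_eq_zero_iff (a := n) hn' c).1 (hchi _ hn0)
  have h3 : c θ2 = -θ2 := by
    rw [map_mul, h1] at h2
    apply mul_left_cancel₀ hθ0
    rw [mul_neg, ← h2]
    ring
  obtain ⟨z, hz⟩ := IsAlgClosed.exists_pow_nat_eq (u * θ + u * (u * θ2)) (n := 2) two_pos
  have hcz : (c z) ^ 2 = u * θ - u * (u * θ2) := by
    rw [← map_pow, hz, map_add, map_mul, map_mul, map_mul, hi, h1, h3]
    ring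
  have hm : (z * c z) ^ 2 = (u * r) ^ 2 := by
    rw [mul_pow, hz, hcz, mul_pow, hr2, ← hT']
    linear_combination (-(u) ^ 2 * θ2 ^ 2) * hi2
  have hcm : c (z * c z) = z * c z := by
    rw [map_mul, hcc, mul_comm]
  have hcr : c (u * r) = -(u * r) := by
    rw [map_mul, hi, hr, neg_mul]
  have hne : u * r ≠ 0 := mul_ne_zero hi0 hr0
  rcases sq_eq_sq_iff_eq_or_eq_neg.1 hm with h4 | h4
  · rw [h4, hcr] at hcm
    exact hne (self_eq_neg.1 hcm.symm)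
  · rw [h4, map_neg, hcr, neg_neg] at hcm
    exact hne (self_eq_neg.1 hcm)

private theorem tpo_so (x y : ZMod 2) : (so (x + y) : Om k) = so x * so y := by
  have h : ∀ x y : ZMod 2, (x = 0 ∧ y = 0 ∧ x + y = 0) ∨ (x = 0 ∧ y ≠ 0 ∧ x + y ≠ 0) ∨
      (x ≠ 0 ∧ y = 0 ∧ x + y ≠ 0) ∨ (x ≠ 0 ∧ y ≠ 0 ∧ x + y = 0) := by decide
  unfold so
  rcases h x y with ⟨h1, h2, h3⟩ | ⟨h1, h2, h3⟩ | ⟨h1, h2, h3⟩ | ⟨h1, h2, h3⟩
  · rw [if_pos h1, if_pos h2, if_pos h3, one_mul]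
  · rw [if_pos h1, if_neg h2, if_neg h3, one_mul]
  · rw [if_neg h1, if_pos h2, if_neg h3, mul_one]
  · rw [if_neg h1, if_neg h2, if_pos h3]
    ring

end

section

variable (k : Type) [Field k] [NumberField k]

/-- the second bits at a real place -/
theorem spRf (hF : SpIsF k) : SpRf k := by
  intro ψ w r d c n₁ n₂ y₁ y₂ ρ₁ ρ₂ θ₁ θ₁' ε₁ θ₂ θ₂' ε₂ g₁ g₂ E1 E2 hd hs
  have hd0 : 0 < ψ (d : k) := by
    have h1 : ¬ ψ (d : k) < 0 := by
      intro h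
      unfold hsR at hd
      rw [if_pos ⟨h, by rw [map_neg, map_one]; norm_num⟩] at hd
      exact one_ne_zero hd
    exact lt_of_le_of_ne (not_lt.1 h1) ((map_ne_zero ψ).2 d.ne_zero).symm
  obtain ⟨F1, -⟩ := hF w r d c n₁ n₂ y₁ y₂ ρ₁ ρ₂ θ₁ θ₁' ε₁ θ₂ θ₂' ε₂ g₁ g₂ E1 E2
  have hsd : Real.sqrt (ψ (d : k)) ^ 2 = ψ (d : k) := Real.sq_sqrt hd0.le
  have hs1 := hs (Real.sqrt (ψ (d : k))) hsd
  have hs2 := hs (-Real.sqrt (ψ (d : k))) (by rw [neg_sq, hsd])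
  have hn0 : 0 < ψ ((n₁ * n₂ : kˣ) : k) := by
    have h1 : ψ ((n₁ * n₂ : kˣ) : k) =
        ((ψ ((c : k) / 2) + ψ y₁ * Real.sqrt (ψ (d : k))) *
          (ψ ((c : k) / 2) + ψ y₂ * Real.sqrt (ψ (d : k)))) *
        ((ψ ((c : k) / 2) + ψ y₁ * -Real.sqrt (ψ (d : k))) *
          (ψ ((c : k) / 2) + ψ y₂ * -Real.sqrt (ψ (d : k)))) := by
      rw [Units.val_mul, E1.nm, E2.nm]
      simp only [map_mul, map_sub, map_pow]
      linear_combination (ψ ((c : k) / 2) ^ 2 * (ψ y₁ ^ 2 + ψ y₂ ^ 2) -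
        ψ y₁ ^ 2 * ψ y₂ ^ 2 * (ψ (d : k) + Real.sqrt (ψ (d : k)) ^ 2)) * hsd
    rw [h1]
    exact mul_pos hs1 hs2
  have hT0 : 0 < ψ (2 * (((c : k) / 2) ^ 2 + d * y₁ * y₂)) := by
    have h1 : ψ (2 * (((c : k) / 2) ^ 2 + d * y₁ * y₂)) =
        ((ψ ((c : k) / 2) + ψ y₁ * Real.sqrt (ψ (d : k))) *
          (ψ ((c : k) / 2) + ψ y₂ * Real.sqrt (ψ (d : k)))) +
        ((ψ ((c : k) / 2) + ψ y₁ * -Real.sqrt (ψ (d : k))) *
          (ψ ((c : k) / 2) + ψ y₂ * -Real.sqrt (ψ (d : k)))) := by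
      simp only [map_mul, map_add, map_pow, map_ofNat]
      linear_combination (-2 * ψ y₁ * ψ y₂) * hsd
    rw [h1]
    exact add_pos hs1 hs2
  have hsq : (Pool.Agent.H98.MF.sq (d : k)) ^ 2 = algebraMap k (Om k) (d : k) := sq_sq _
  have hchid : chi (d : k) (cconj ψ) = 0 := by
    rw [chi_cconj ψ d.ne_zero, if_neg (not_lt.2 hd0.le)]
  have hcd : cconj ψ (Pool.Agent.H98.MF.sq (d : k)) = Pool.Agent.H98.MF.sq (d : k) :=
    (chi_eq_zero_iff hsq _).1 hchid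
  have hu : (θ₁ * θ₂) ^ 2 = (algebraMap k (Om k) ((c : k) / 2) +
      algebraMap k (Om k) y₁ * Pool.Agent.H98.MF.sq (d : k)) * (algebraMap k (Om k) ((c : k) / 2) +
      algebraMap k (Om k) y₂ * Pool.Agent.H98.MF.sq (d : k)) := by
    rw [mul_pow, E1.th, E2.th]
  have hu' : (θ₁' * θ₂') ^ 2 = (algebraMap k (Om k) ((c : k) / 2) -
      algebraMap k (Om k) y₁ * Pool.Agent.H98.MF.sq (d : k)) * (algebraMap k (Om k) ((c : k) / 2) -
      algebraMap k (Om k) y₂ * Pool.Agent.H98.MF.sq (d : k)) := by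
    rw [mul_pow, E1.th', E2.th']
  have hcore : cconj ψ (θ₁ * θ₂) = θ₁ * θ₂ := by
    refine tpo_core ψ hT0 hn0 (θ2 := θ₁' * θ₂') ?_ ?_ ?_
    · rw [hu, hu']
      simp only [map_mul, map_add, map_pow, map_ofNat]
      rw [← hsq]
      ring
    · rw [mul_pow, hu, hu', Units.val_mul, E1.nm, E2.nm]
      simp only [map_mul, map_sub, map_pow]
      rw [← hsq]
      ring
    · rw [hu, map_mul, map_add, map_add, map_mul, map_mul, hcd, AlgEquiv.commutes,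
        AlgEquiv.commutes, AlgEquiv.commutes]
  have hθ0 : θ₁ * θ₂ ≠ 0 := by
    intro h0
    have h1 : (θ₁ * θ₂) ^ 2 * (θ₁' * θ₂') ^ 2 = algebraMap k (Om k) ((n₁ * n₂ : kˣ) : k) := by
      rw [hu, hu', Units.val_mul, E1.nm, E2.nm]
      simp only [map_mul, map_sub, map_pow]
      rw [← hsq]
      ring
    rw [h0, zero_pow two_ne_zero, zero_mul] at h1
    have h2 := (algebraMap k (Om k)).injective (h1.symm.trans (map_zero _).symm)
    exact (n₁ * n₂).ne_zero h2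
  have hf : fS ρ₁ ρ₂ (cconj ψ) = 0 := by
    by_contra hne
    have h1 := hcore
    rw [map_mul, E1.f0 _ hchid, E2.f0 _ hchid] at h1
    have h2 : (so ((ρ₁ (cconj ψ)).pf + (ρ₂ (cconj ψ)).pf) : Om k) * (θ₁ * θ₂) = θ₁ * θ₂ := by
      rw [tpo_so]
      linear_combination h1
    have h3 : (so ((ρ₁ (cconj ψ)).pf + (ρ₂ (cconj ψ)).pf) : Om k) = -1 := if_neg hne
    rw [h3, neg_one_mul] at h2
    exact hθ0 (self_eq_neg.1 h2.symm)
  have hf1 : fS ρ₁ ρ₂ 1 = 0 := by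
    have h1 := F1.hom 1 1
    rw [mul_one, chi_one, zero_mul, add_zero] at h1
    have h2 : ∀ x : ZMod 2, x = x + x → x = 0 := by decide
    exact h2 _ h1
  refine ⟨hd0, hn0, fun σ hσ => ?_⟩
  rcases (mem_decR ψ σ).1 hσ with rfl | rfl
  · exact hf1
  · exact hf

/-- TP15 -/
theorem spRe (hF : SpIsF k) (ha : SpPa k) : SpRe k := by
  intro ψ w r d c n₁ n₂ cc y₁ y₂ ρ₁ ρ₂ θ₁ θ₁' ε₁ θ₂ θ₂' ε₂ g₁ g₂ E1 E2 hd hs
  obtain ⟨hd0, hn0, hf⟩ := spRf k hF ψ w r d c n₁ n₂ y₁ y₂ ρ₁ ρ₂ θ₁ θ₁' ε₁ θ₂ θ₂' ε₂ g₁ g₂ E1 E2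
    hd hs
  obtain ⟨F1, F2⟩ := hF w r d c n₁ n₂ y₁ y₂ ρ₁ ρ₂ θ₁ θ₁' ε₁ θ₂ θ₂' ε₂ g₁ g₂ E1 E2
  refine ⟨?_, ?_⟩
  · unfold hsR
    rw [if_neg (fun h => not_lt.2 hd0.le h.1)]
  have hL : LocP (Sum.inr ψ : Pl k) ((n₁ * n₂ : kˣ) : k) := hn0
  obtain ⟨t, ht⟩ := Pool.Agent.D8.achr k (n₁ * n₂) c (Sum.inr ψ) _ F2 (Or.inl hL)
  rw [ha (Sum.inr ψ) (n₁ * n₂) d c 1 t (fS ρ₁ ρ₂) (TS ρ₁ ρ₂ g₁ g₂) F1 F2 hL ?_ ht]
  · show hsR ψ ((1 : kˣ) : k) (c : k) + hsR ψ (t : k) (d : k) = 0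
    unfold hsR
    have h1 : ¬ (ψ ((1 : kˣ) : k) < 0 ∧ ψ (c : k) < 0) := by
      rintro ⟨h, -⟩
      rw [Units.val_one, map_one] at h
      exact absurd h (by norm_num)
    rw [if_neg h1, if_neg (fun h => not_lt.2 hd0.le h.2), add_zero]
  · intro σ hσ
    have h1 : chi ((1 : kˣ) : k) σ = 0 := by
      rw [Units.val_one]
      have h2 := chi_sq (1 : k) σ
      rwa [one_pow] at h2
    rw [h1]
    exact hf σ hσ

end

end Pool.Agent.SK.TP
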