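import Pool.Agent.SK.TP

/-!
# Malle's conjecture for 8T8 over number fields, the comparison of two homomorphisms with the
same trace: assembly (row TP16)
-/

set_option autoImplicit false

open scoped BigOperators
open NumberField IsDedekindDomain

namespace Pool.Agent.SK.TP

open Pool.Agent.H98.MF
open Pool.Agent.H32.MA (SD)
open Pool.Agent.D8 (pm p5 bit3 so IsTh IsF ob RxF)

section

variable {k : Type} [Field k] [NumberField k]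

theorem spd_clo {P : HeightOneSpectrum (𝓞 k)} {B B' : ℤ} {y₁ y₂ : k} (h : B' ≤ B)
    (hc : Clo P B y₁ y₂) : Clo P B' y₁ y₂ :=
  hc.imp id fun h1 => h.trans h1

theorem spd_le {ι : Type} (S : Finset ι) (f : ι → ℤ) (i : ι) (hi : i ∈ S) :
    f i ≤ ∑ j ∈ S, |f j| :=
  (le_abs_self _).trans (Finset.single_le_sum (f := fun j => |f j|)
    (fun j _ => abs_nonneg _) hi)

end

/-- TP16: the comparison of two homomorphisms with the same trace -/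
theorem spD {k : Type} [Field k] [NumberField k] (h1 : SpEx k) (h2 : SpIsF k) (h5 : SpPf k)
    (h9 : SpOut k) (h11 : SpSq k) (h12 : SpNear k) (h14 : SpFin k) (h15 : SpRe k) :
    SpD k := by
  classical
  intro Fr Rk d c n₂ y₂
  by_cases hn : (n₂ : k) = ((c : k) / 2) ^ 2 - d * y₂ ^ 2
  · choose B1 hB1 using fun P => h11 P d c n₂ y₂ hn
    choose B2 hB2 using fun P => h12 P d c n₂ y₂
    refine ⟨∑ P ∈ Fr.S, |B1 P| + ∑ P ∈ Fr.S, |B2 P|, ?_⟩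
    intro n₁ y₁ ρ₁ ρ₂ cv a1 a2 hd1 hd y1 y2 hClo hpos hOut hact
    have hs1 : 0 ≤ ∑ P ∈ Fr.S, |B1 P| := Finset.sum_nonneg fun _ _ => abs_nonneg _
    have hs2 : 0 ≤ ∑ P ∈ Fr.S, |B2 P| := Finset.sum_nonneg fun _ _ => abs_nonneg _
    obtain ⟨w, hw⟩ := IsAlgClosed.exists_pow_nat_eq (-1 : Om k) (n := 4) (by norm_num)
    obtain ⟨r, hr⟩ := IsAlgClosed.exists_pow_nat_eq (algebraMap k (Om k) (c : k)) (n := 2)
      (by norm_num)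
    obtain ⟨θ₁, θ₁', ε₁, g₁, e1⟩ := h1 w r d c n₁ y₁ ρ₁ hw hr a1
    obtain ⟨θ₂, θ₂', ε₂, g₂, e2⟩ := h1 w r d c n₂ y₂ ρ₂ hw hr a2
    obtain ⟨f1, f2⟩ := h2 w r d c n₁ n₂ y₁ y₂ ρ₁ ρ₂ θ₁ θ₁' ε₁ θ₂ θ₂' ε₂ g₁ g₂ e1 e2
    obtain ⟨_, hsum⟩ := h5 Fr (n₁ * n₂) d c (fS ρ₁ ρ₂) (TS ρ₁ ρ₂ g₁ g₂) f1 f2
    have hloc : ∀ v ∈ pls Fr.S, hv v (d : k) (cv v : k) =
        pol v (n₁ * n₂) d c (fS ρ₁ ρ₂) (TS ρ₁ ρ₂ g₁ g₂) := by
      intro v hv1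
      obtain ⟨u, hu, hau⟩ := hact v hv1
      rcases v with P | ψ
      · have hP : P ∈ Fr.S := by
          unfold pls at hv1
          simpa using hv1
        have l1 : B1 P ≤ ∑ P ∈ Fr.S, |B1 P| + ∑ P ∈ Fr.S, |B2 P| := by
          have := spd_le Fr.S B1 P hP
          linarith
        have l2 : B2 P ≤ ∑ P ∈ Fr.S, |B1 P| + ∑ P ∈ Fr.S, |B2 P| := by
          have := spd_le Fr.S B2 P hP
          linarith
        have q1 := hB1 P n₁ y₁ e1.nm (spd_clo l1 (hClo P hP))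
        obtain ⟨e, E, q2⟩ := hB2 P w r n₁ y₁ ρ₁ ρ₂ θ₁ θ₁' ε₁ θ₂ θ₂' ε₂ g₁ g₂ e1 e2
          (spd_clo l2 (hClo P hP))
        exact (h14 P w r d c n₁ n₂ (cv (Sum.inl P)) y₁ y₂ ρ₁ ρ₂ θ₁ θ₁' ε₁ θ₂ θ₂' ε₂ g₁ g₂
          e E u e1 e2 q1 q2 (hd1 (Sum.inl P)) hu hau).symm
      · obtain ⟨q1, q2⟩ := h15 ψ w r d c n₁ n₂ (cv (Sum.inr ψ)) y₁ y₂ ρ₁ ρ₂ θ₁ θ₁' ε₁
          θ₂ θ₂' ε₂ g₁ g₂ e1 e2 (hd1 (Sum.inr ψ)) (hpos ψ)
        rw [q2]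
        exact q1
    rw [Finset.sum_congr rfl hloc, hsum]
    refine finsum_congr fun p => ?_
    exact h9 Fr Rk w r d c n₁ n₂ y₁ y₂ ρ₁ ρ₂ θ₁ θ₁' ε₁ θ₂ θ₂' ε₂ g₁ g₂ e1 e2 y1 y2 p (hd p)
      (hOut p)
  · exact ⟨0, fun n₁ y₁ ρ₁ ρ₂ cv a1 a2 => absurd a2.nm hn⟩

end Pool.Agent.SK.TP
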