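import Pool.Agent.SK.TP2

/-!
# Malle's conjecture for 8T8 over number fields, the sum with the oscillating character, row
TP22: the comparison exists
-/

set_option autoImplicit false

open scoped BigOperators
open NumberField IsDedekindDomain

namespace Pool.Agent.SK.TP

open Pool.Agent.H98.MF
open Pool.Agent.H32.MA (SD)
open Pool.Agent.D8 (pm p5 bit3 so IsTh IsF ob RxF)

/-- `g` or its conjugate -/
private def tpqG (e : ZMod 2) (g : SD) : SD := if e = 0 then g else SD.ss * g * SD.ss⁻¹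

private theorem tpqG_mul (e : ZMod 2) (g h : SD) : tpqG e (g * h) = tpqG e g * tpqG e h := by
  revert e g h; decide

private theorem tpq_au (e x : ZMod 2) (g : SD) :
    au (Pool.Agent.H32.MA.pw e) (g * SD.zz x) = tpqG e g * SD.zz x := by
  revert e x g; decide

private theorem tpq_zz (x y : ZMod 2) (h : SD.zz x = SD.zz y) : x = y := by
  revert x y; decide

section

variable {k : Type} [Field k] [NumberField k]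

/-- from locally constant functions to characters -/
private theorem tpq_two (hk : KIn k) (v : Pl k) (ρ₁ ρ₂ : Gm k →* SD) (e : ZMod 2)
    (h : Gm k → ZMod 2) (hl : IsLocallyConstant h)
    (hh : ∀ σ ∈ DecP v, ρ₁ σ = tpqG e (ρ₂ σ) * SD.zz (h σ)) :
    ∃ c : kˣ, ∀ σ ∈ DecP v, ρ₁ σ = (if e = 0 then ρ₂ σ else SD.ss * ρ₂ σ * SD.ss⁻¹) *
      SD.zz (chi (c : k) σ) := by
  obtain ⟨c, hc⟩ := hk.two v h hl (fun σ hσ τ hτ => by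
    apply tpq_zz
    have h1 : ρ₁ (σ * τ) = tpqG e (ρ₂ (σ * τ)) * SD.zz (h (σ * τ)) :=
      hh _ ((DecP v).mul_mem hσ hτ)
    rw [map_mul, map_mul, hh σ hσ, hh τ hτ, tpqG_mul] at h1
    have h2 : tpqG e (ρ₂ σ) * SD.zz (h σ) * (tpqG e (ρ₂ τ) * SD.zz (h τ)) =
        tpqG e (ρ₂ σ) * tpqG e (ρ₂ τ) * (SD.zz (h σ) * SD.zz (h τ)) := by
      calc tpqG e (ρ₂ σ) * SD.zz (h σ) * (tpqG e (ρ₂ τ) * SD.zz (h τ))
          = tpqG e (ρ₂ σ) * (SD.zz (h σ) * tpqG e (ρ₂ τ)) * SD.zz (h τ) := by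
            simp only [mul_assoc]
        _ = tpqG e (ρ₂ σ) * (tpqG e (ρ₂ τ) * SD.zz (h σ)) * SD.zz (h τ) := by
            rw [SD.zz_comm]
        _ = tpqG e (ρ₂ σ) * tpqG e (ρ₂ τ) * (SD.zz (h σ) * SD.zz (h τ)) := by
            simp only [mul_assoc]
    rw [h2, ← SD.zz_add] at h1
    exact (mul_left_cancel h1).symm)
  exact ⟨c, fun σ hσ => by rw [← hc σ hσ]; exact hh σ hσ⟩

/-- the comparison at a finite place -/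
private theorem tpq_fin (hk : KIn k) (h13 : SpCmp k) (P : HeightOneSpectrum (𝓞 k)) (w r : Om k) (d c n₁ n₂ : kˣ) (y₁ y₂ : k)
    (ρ₁ ρ₂ : Gm k →* SD) (θ₁ θ₁' ε₁ θ₂ θ₂' ε₂ : Om k) (g₁ g₂ : Gm k → ZMod 2) (e E : ZMod 2)
    (h1 : Ex w r d c n₁ y₁ ρ₁ θ₁ θ₁' ε₁ g₁) (h2 : Ex w r d c n₂ y₂ ρ₂ θ₂ θ₂' ε₂ g₂)
    (h3 : LocSq P ((n₁ * n₂ : kˣ) : k)) (h4 : Near P w θ₁ θ₁' ε₁ θ₂ θ₂' ε₂ e E) :
    ∃ (e' : ZMod 2) (c' : kˣ), ∀ σ ∈ DecP (Sum.inl P : Pl k), ρ₁ σ =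
      (if e' = 0 then ρ₂ σ else SD.ss * ρ₂ σ * SD.ss⁻¹) * SD.zz (chi (c' : k) σ) := by
  refine ⟨E, tpq_two hk (Sum.inl P) ρ₁ ρ₂ E (fun σ => g₁ σ + g₂ σ +
    e * (chi (d : k) σ + chi (n₂ : k) σ) + E * (chi (d : k) σ + chi (c : k) σ)) ?_ ?_⟩
  · have l1 : IsLocallyConstant (fun σ : Gm k => ((g₁ σ, g₂ σ),
        ((chi (d : k) σ, chi (n₂ : k) σ), chi (c : k) σ))) :=
      (h1.lg.prodMk h2.lg).prodMk (((chi_lc _).prodMk (chi_lc _)).prodMk (chi_lc _))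
    exact l1.comp (fun t : (ZMod 2 × ZMod 2) × (ZMod 2 × ZMod 2) × ZMod 2 =>
      t.1.1 + t.1.2 + e * (t.2.1.1 + t.2.1.2) + E * (t.2.1.1 + t.2.2))
  · intro σ hσ
    rw [(h13 P w r d c n₁ n₂ y₁ y₂ ρ₁ ρ₂ θ₁ θ₁' ε₁ θ₂ θ₂' ε₂ g₁ g₂ e E h1 h2 h3 h4 σ hσ).2,
      tpq_au]

/-- the comparison at a real place -/
private theorem tpq_real (hk : KIn k) (ψ : k →+* ℝ) (d n₁ n₂ : kˣ) (ρ₁ ρ₂ : Gm k →* SD)
    (l₁ : IsLocallyConstant ρ₁) (l₂ : IsLocallyConstant ρ₂)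
    (hd₁ : ∀ σ, (ρ₁ σ).pd = chi (d : k) σ) (hd₂ : ∀ σ, (ρ₂ σ).pd = chi (d : k) σ)
    (ha₁ : ∀ σ, (ρ₁ σ).a = chi (d : k) σ + chi (n₁ : k) σ)
    (ha₂ : ∀ σ, (ρ₂ σ).a = chi (d : k) σ + chi (n₂ : k) σ)
    (hn : 0 < ψ ((n₁ * n₂ : kˣ) : k)) (hf : ∀ σ ∈ DecR ψ, fS ρ₁ ρ₂ σ = 0) :
    ∃ (e' : ZMod 2) (c' : kˣ), ∀ σ ∈ DecP (Sum.inr ψ : Pl k), ρ₁ σ =
      (if e' = 0 then ρ₂ σ else SD.ss * ρ₂ σ * SD.ss⁻¹) * SD.zz (chi (c' : k) σ) := by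
  refine ⟨0, tpq_two hk (Sum.inr ψ) ρ₁ ρ₂ 0 (fun σ => (ρ₂ σ).ph + (ρ₁ σ).ph) ?_ ?_⟩
  · exact (l₂.prodMk l₁).comp (fun t : SD × SD => t.1.ph + t.2.ph)
  · intro σ hσ
    have hz : ∀ x y : ZMod 2, x + y = 0 → x = y := by decide
    have h1 : chi ((n₁ * n₂ : kˣ) : k) σ = 0 := (hk.one (Sum.inr ψ) (n₁ * n₂)).2 hn σ hσ
    rw [Units.val_mul, chi_mul n₁.ne_zero n₂.ne_zero] at h1
    have h2 : (ρ₂ σ).a = (ρ₁ σ).a := by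
      rw [ha₁, ha₂, hz _ _ h1]
    have h3 : (ρ₂ σ).pd = (ρ₁ σ).pd := by rw [hd₁, hd₂]
    have h4 : (ρ₂ σ).pf = (ρ₁ σ).pf := (hz _ _ (hf σ hσ)).symm
    exact SD.eq_mul_zz (ρ₂ σ) (ρ₁ σ) h2 h3 h4

private theorem tpq_clo {P : HeightOneSpectrum (𝓞 k)} {B B' : ℤ} {y₁ y₂ : k} (h : Clo P B y₁ y₂)
    (hB : B' ≤ B) : Clo P B' y₁ y₂ := by
  rcases h with h | h
  · exact Or.inl h
  · exact Or.inr (hB.trans h)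

/-- TP22: the comparison exists -/
theorem spDx (h1 : SpEx k) (hF : SpIsF k) (h11 : SpSq k) (h12 : SpNear k) (h13 : SpCmp k)
    (hr : SpRf k) (hk : KIn k) : SpDx k := by
  classical
  intro Fr d c n₂ y₂
  have hB1 : ∀ P : HeightOneSpectrum (𝓞 k), ∃ B : ℤ,
      (n₂ : k) = ((c : k) / 2) ^ 2 - d * y₂ ^ 2 → ∀ (n₁ : kˣ) (y₁ : k),
        (n₁ : k) = ((c : k) / 2) ^ 2 - d * y₁ ^ 2 → Clo P B y₁ y₂ →
          LocSq P ((n₁ * n₂ : kˣ) : k) := by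
    intro P
    by_cases hn : (n₂ : k) = ((c : k) / 2) ^ 2 - d * y₂ ^ 2
    · obtain ⟨B, hB⟩ := h11 P d c n₂ y₂ hn
      exact ⟨B, fun _ => hB⟩
    · exact ⟨0, fun h => absurd h hn⟩
  choose B1 hB1 using hB1
  choose B2 hB2 using fun P => h12 P d c n₂ y₂
  obtain ⟨B, hB⟩ := Finset.exists_le (Fr.S.image B1 ∪ Fr.S.image B2)
  refine ⟨B, ?_⟩
  intro n₁ y₁ ρ₁ ρ₂ hA₁ hA₂ hneg hclo hreal
  obtain ⟨w, hw⟩ := IsAlgClosed.exists_pow_nat_eq (-1 : Om k) (n := 4) (by norm_num)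
  obtain ⟨r, hr2⟩ := IsAlgClosed.exists_pow_nat_eq (algebraMap k (Om k) (c : k)) (n := 2) two_pos
  obtain ⟨θ₁, θ₁', ε₁, g₁, e₁⟩ := h1 w r d c n₁ y₁ ρ₁ hw hr2 hA₁
  obtain ⟨θ₂, θ₂', ε₂, g₂, e₂⟩ := h1 w r d c n₂ y₂ ρ₂ hw hr2 hA₂
  have key : ∀ v : Pl k, ∃ (e' : ZMod 2) (c' : kˣ), v ∈ pls Fr.S → ∀ σ ∈ DecP v, ρ₁ σ =
      (if e' = 0 then ρ₂ σ else SD.ss * ρ₂ σ * SD.ss⁻¹) * SD.zz (chi (c' : k) σ) := by
    intro v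
    by_cases hv : v ∈ pls Fr.S
    · rcases v with P | ψ
      · have hP : P ∈ Fr.S := by
          unfold pls at hv
          exact Finset.inl_mem_disjSum.1 hv
        have hc1 : Clo P (B1 P) y₁ y₂ := tpq_clo (hclo P hP)
          (hB _ (Finset.mem_union_left _ (Finset.mem_image_of_mem _ hP)))
        have hc2 : Clo P (B2 P) y₁ y₂ := tpq_clo (hclo P hP)
          (hB _ (Finset.mem_union_right _ (Finset.mem_image_of_mem _ hP)))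
        have hs := hB1 P hA₂.nm n₁ y₁ hA₁.nm hc1
        obtain ⟨e, E, hN⟩ := hB2 P w r n₁ y₁ ρ₁ ρ₂ θ₁ θ₁' ε₁ θ₂ θ₂' ε₂ g₁ g₂ e₁ e₂ hc2
        obtain ⟨e', c', h⟩ := tpq_fin hk h13 P w r d c n₁ n₂ y₁ y₂ ρ₁ ρ₂ θ₁ θ₁' ε₁ θ₂ θ₂' ε₂ g₁ g₂ e E e₁ e₂ hs hN
        exact ⟨e', c', fun _ => h⟩
      · obtain ⟨-, hn, hf⟩ := hr ψ w r d c n₁ n₂ y₁ y₂ ρ₁ ρ₂ θ₁ θ₁' ε₁ θ₂ θ₂' ε₂ g₁ g₂ e₁ e₂
          (hneg (Sum.inr ψ)) (hreal ψ)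
        obtain ⟨e', c', h⟩ := tpq_real hk ψ d n₁ n₂ ρ₁ ρ₂ hA₁.lc hA₂.lc hA₁.pd hA₂.pd hA₁.pa
          hA₂.pa hn hf
        exact ⟨e', c', fun _ => h⟩
    · exact ⟨0, 1, fun h => absurd h hv⟩
  choose e' c' h using key
  exact ⟨e', c', h⟩

end

end Pool.Agent.SK.TP
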