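import Pool.Agent.SK.TP
import Pool.Agent.D8.AObN
import Pool.Agent.H98.MF.L.InV
import Pool.Agent.H98.MF.L.Fld

/-!
# Malle's conjecture for 8T8 over number fields, comparison of two homomorphisms: elements of
two-power extensions, units at the chosen prime, and the tame generator
-/

set_option autoImplicit false
set_option linter.unusedSectionVars false

open scoped BigOperators
open NumberField IsDedekindDomain

namespace Pool.Agent.SK.TP

open Pool.Agent.H98.MF
open Pool.Agent.H32.MA (SD)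
open Pool.Agent.D8 (pm p5 bit3 so IsTh IsF ob RxF TF Two2 obn_so_mul obn_so_sq obn_chi_act
  obn_two_notMem)

section

variable {k : Type} [Field k] [NumberField k]

/-! ### elements of two-power extensions -/

/-- elements fixed by a normal open subgroup with a two-group as quotient -/
def T2 (x : Om k) : Prop := ∃ U : Subgroup (Gm k), U.Normal ∧ IsOpen (U : Set (Gm k)) ∧
  (∀ g : Gm k, ∃ n : ℕ, g ^ (2 ^ n) ∈ U) ∧ ∀ σ ∈ U, σ x = x

theorem T2.base (a : k) : T2 (algebraMap k (Om k) a) :=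
  ⟨⊤, inferInstance, isOpen_univ, fun _ => ⟨0, Subgroup.mem_top _⟩, fun σ _ => σ.commutes a⟩

theorem T2.both {x y : Om k} (hx : T2 x) (hy : T2 y) : ∃ U : Subgroup (Gm k), U.Normal ∧
    IsOpen (U : Set (Gm k)) ∧ (∀ g : Gm k, ∃ n : ℕ, g ^ (2 ^ n) ∈ U) ∧
      ∀ σ ∈ U, σ x = x ∧ σ y = y := by
  obtain ⟨U, hU, hUo, hUn, hUx⟩ := hx
  obtain ⟨V, hV, hVo, hVn, hVy⟩ := hy
  refine ⟨U ⊓ V, inferInstance, hUo.inter hVo, fun g => ?_, fun σ hσ =>
    ⟨hUx σ hσ.1, hVy σ hσ.2⟩⟩
  obtain ⟨n, hn⟩ := hUn g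
  obtain ⟨m, hm⟩ := hVn g
  refine ⟨n + m, ?_, ?_⟩
  · rw [pow_add, pow_mul]
    exact pow_mem hn _
  · rw [pow_add, mul_comm, pow_mul]
    exact pow_mem hm _

theorem T2.add {x y : Om k} (hx : T2 x) (hy : T2 y) : T2 (x + y) := by
  obtain ⟨U, h1, h2, h3, h4⟩ := hx.both hy
  exact ⟨U, h1, h2, h3, fun σ hσ => by rw [map_add, (h4 σ hσ).1, (h4 σ hσ).2]⟩

theorem T2.sub {x y : Om k} (hx : T2 x) (hy : T2 y) : T2 (x - y) := by
  obtain ⟨U, h1, h2, h3, h4⟩ := hx.both hy
  exact ⟨U, h1, h2, h3, fun σ hσ => by rw [map_sub, (h4 σ hσ).1, (h4 σ hσ).2]⟩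

theorem T2.mul {x y : Om k} (hx : T2 x) (hy : T2 y) : T2 (x * y) := by
  obtain ⟨U, h1, h2, h3, h4⟩ := hx.both hy
  exact ⟨U, h1, h2, h3, fun σ hσ => by rw [map_mul, (h4 σ hσ).1, (h4 σ hσ).2]⟩

theorem T2.div {x y : Om k} (hx : T2 x) (hy : T2 y) : T2 (x / y) := by
  obtain ⟨U, h1, h2, h3, h4⟩ := hx.both hy
  exact ⟨U, h1, h2, h3, fun σ hσ => by rw [map_div₀, (h4 σ hσ).1, (h4 σ hσ).2]⟩

theorem T2.pow {x : Om k} (hx : T2 x) (n : ℕ) : T2 (x ^ n) := by
  obtain ⟨U, h1, h2, h3, h4⟩ := hx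
  exact ⟨U, h1, h2, h3, fun σ hσ => by rw [map_pow, h4 σ hσ]⟩

/-- square roots -/
theorem T2.root {x y : Om k} (hx : T2 x) (h : y ^ 2 = x) : T2 y := by
  obtain ⟨U, hU, hUo, hUn, hUx⟩ := hx
  have hUt : ∀ σ ∈ U, ∀ τ : Gm k, σ (τ x) = τ x := by
    intro σ hσ τ
    have h1 : τ⁻¹ * σ * τ ∈ U := by
      have := hU.conj_mem σ hσ τ⁻¹
      rwa [inv_inv] at this
    have h2 := hUx _ h1
    have h3 : τ ((τ⁻¹ * σ * τ) x) = σ (τ x) := by
      rw [← AlgEquiv.mul_apply, ← AlgEquiv.mul_apply]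
      congr 1
      group
    rw [← h3, h2]
  let V : Subgroup (Gm k) :=
    { carrier := {σ | σ ∈ U ∧ ∀ τ : Gm k, σ (τ y) = τ y}
      mul_mem' := by
        rintro a b ⟨ha, ha'⟩ ⟨hb, hb'⟩
        refine ⟨mul_mem ha hb, fun τ => ?_⟩
        rw [AlgEquiv.mul_apply, hb', ha']
      one_mem' := ⟨one_mem _, fun τ => rfl⟩
      inv_mem' := by
        rintro a ⟨ha, ha'⟩
        refine ⟨inv_mem ha, fun τ => ?_⟩
        have h1 := ha' τ
        have h2 : (a⁻¹ * a) (τ y) = τ y := by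
          rw [inv_mul_cancel]
          rfl
        rw [AlgEquiv.mul_apply, h1] at h2
        exact h2 }
  have hVmem : ∀ σ, σ ∈ V ↔ σ ∈ U ∧ ∀ τ : Gm k, σ (τ y) = τ y := fun σ => Iff.rfl
  -- an open normal subgroup fixing the element
  have hN : ∃ N : OpenNormalSubgroup (Gm k), ∀ u ∈ N, u y = y := by
    have hint : IsIntegral k y := Algebra.IsIntegral.isIntegral y
    have hfd : FiniteDimensional k (IntermediateField.adjoin k {y}) :=
      IntermediateField.adjoin.finiteDimensional hint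
    have ho : IsOpen (((IntermediateField.adjoin k {y}).fixingSubgroup : Subgroup (Gm k)) :
        Set (Gm k)) := IntermediateField.fixingSubgroup_isOpen _
    have hcomp := gm_compact (k := k)
    obtain ⟨N, hN⟩ := ProfiniteGrp.exist_openNormalSubgroup_sub_open_nhds_of_one ho (one_mem _)
    refine ⟨N, fun u hu => ?_⟩
    have h1 := hN hu
    rw [SetLike.mem_coe, IntermediateField.mem_fixingSubgroup_iff] at h1
    exact h1 y (IntermediateField.mem_adjoin_simple_self k y)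
  obtain ⟨N, hN⟩ := hN
  have hNn : N.toSubgroup.Normal := N.isNormal'
  have hle : U ⊓ N.toSubgroup ≤ V := by
    intro σ hσ
    refine ⟨hσ.1, fun τ => ?_⟩
    have h1 : τ⁻¹ * σ * τ ∈ N.toSubgroup := by
      have := hNn.conj_mem σ hσ.2 τ⁻¹
      rwa [inv_inv] at this
    have h2 := hN _ h1
    have h3 : τ ((τ⁻¹ * σ * τ) y) = σ (τ y) := by
      rw [← AlgEquiv.mul_apply, ← AlgEquiv.mul_apply]
      congr 1
      group
    rw [← h3, h2]
  refine ⟨V, ⟨?_⟩, ?_, ?_, fun σ hσ => by simpa using hσ.2 1⟩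
  · intro σ hσ g
    refine ⟨hU.conj_mem σ hσ.1 g, fun τ => ?_⟩
    have h1 := hσ.2 (g⁻¹ * τ)
    have h2 : (g * σ * g⁻¹) (τ y) = g (σ ((g⁻¹ * τ) y)) := by
      rw [AlgEquiv.mul_apply, AlgEquiv.mul_apply, AlgEquiv.mul_apply]
    rw [h2, h1, ← AlgEquiv.mul_apply, mul_inv_cancel_left]
  · have h1 : IsOpen ((U ⊓ N.toSubgroup : Subgroup (Gm k)) : Set (Gm k)) :=
      hUo.inter N.isOpen'
    exact Subgroup.isOpen_mono hle h1
  · intro g
    obtain ⟨n, hn⟩ := hUn g
    refine ⟨n + 1, ?_⟩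
    rw [pow_succ, pow_mul, pow_two]
    refine ⟨mul_mem hn hn, fun τ => ?_⟩
    set s := g ^ 2 ^ n with hs
    have h1 : (s (τ y)) ^ 2 = (τ y) ^ 2 := by
      rw [← map_pow, ← map_pow, h, hUt s hn τ]
    rw [AlgEquiv.mul_apply]
    rcases sq_eq_sq_iff_eq_or_eq_neg.1 h1 with h2 | h2
    · rw [h2, h2]
    · rw [h2, map_neg, h2, neg_neg]

theorem T2.sq (a : k) : T2 (Pool.Agent.H98.MF.sq a) := (T2.base a).root (sq_sq a)

/-- two-power index -/
theorem tpu_index (U : Subgroup (Gm k)) [U.Normal] (ho : IsOpen (U : Set (Gm k)))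
    (h : ∀ g : Gm k, ∃ n : ℕ, g ^ (2 ^ n) ∈ U) : ∃ j, U.index = 2 ^ j := by
  have hcomp := gm_compact (k := k)
  have hfin : Finite (Gm k ⧸ U) := Subgroup.quotient_finite_of_isOpen U ho
  have hp : IsPGroup 2 (Gm k ⧸ U) := by
    intro q
    obtain ⟨g, rfl⟩ := QuotientGroup.mk_surjective q
    obtain ⟨n, hn⟩ := h g
    exact ⟨n, by rw [← QuotientGroup.mk_pow, QuotientGroup.eq_one_iff]; exact hn⟩
  obtain ⟨j, hj⟩ := IsPGroup.iff_card.1 hp
  exact ⟨j, hj⟩

/-! ### units at the chosen prime -/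

variable {P : HeightOneSpectrum (𝓞 k)}

/-- units at the chosen prime -/
structure UV (P : HeightOneSpectrum (𝓞 k)) (x : Om k) : Prop where
  ne : x ≠ 0
  i : InV P x
  j : InV P x⁻¹

theorem UV.mul {x y : Om k} (hx : UV P x) (hy : UV P y) : UV P (x * y) :=
  ⟨mul_ne_zero hx.ne hy.ne, hx.i.mul hy.i, by rw [mul_inv]; exact hx.j.mul hy.j⟩

theorem UV.inv {x : Om k} (hx : UV P x) : UV P x⁻¹ :=
  ⟨inv_ne_zero hx.ne, hx.j, by rw [inv_inv]; exact hx.i⟩

theorem UV.div {x y : Om k} (hx : UV P x) (hy : UV P y) : UV P (x / y) := by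
  rw [div_eq_mul_inv]
  exact hx.mul hy.inv

theorem UV.neg {x : Om k} (hx : UV P x) : UV P (-x) :=
  ⟨neg_ne_zero.2 hx.ne, hx.i.neg, by rw [inv_neg]; exact hx.j.neg⟩

theorem UV.pow {x : Om k} (hx : UV P x) (n : ℕ) : UV P (x ^ n) := by
  induction n with
  | zero => rw [pow_zero]; exact ⟨one_ne_zero, InV.one P, by rw [inv_one]; exact InV.one P⟩
  | succ n ih => rw [pow_succ]; exact ih.mul hx

theorem UV.of_pow {x : Om k} {n : ℕ} (hn : n ≠ 0) (hx : UV P (x ^ n)) : UV P x := by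
  refine ⟨fun h => hx.ne (by rw [h, zero_pow hn]), inV_pow hn hx.i, inV_pow hn ?_⟩
  rw [inv_pow]
  exact hx.j

theorem UV.base {a : k} (ha : a ≠ 0) (h : ord P a = 0) : UV P (algebraMap k (Om k) a) := by
  refine ⟨(map_ne_zero _).2 ha, inV_base.2 h.ge, ?_⟩
  rw [← map_inv₀]
  refine inV_base.2 ?_
  rw [ord_inv, h, neg_zero]

/-- one of two elements with a unit as sum is a unit -/
theorem tpu_or {x y : Om k} (hx : InV P x) (hy : InV P y) (h : UV P (x + y)) :
    UV P x ∨ UV P y := by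
  by_cases hx0 : x = 0
  · right
    rwa [hx0, zero_add] at h
  by_cases hy0 : y = 0
  · left
    rwa [hy0, add_zero] at h
  rcases InV.total P (div_ne_zero hx0 hy0) with h1 | h1
  · right
    refine ⟨hy0, hy, ?_⟩
    have h2 : y⁻¹ = (x / y + 1) * (x + y)⁻¹ := by
      have := h.ne
      field_simp
    rw [h2]
    exact (h1.add (InV.one P)).mul h.j
  · left
    refine ⟨hx0, hx, ?_⟩
    rw [inv_div] at h1
    have h2 : x⁻¹ = (y / x + 1) * (x + y)⁻¹ := by
      have := h.ne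
      field_simp
      ring
    rw [h2]
    exact (h1.add (InV.one P)).mul h.j

/-- adding an element of the maximal ideal of the base to a unit -/
theorem tpu_add {x : Om k} {t : k} (hx : UV P x) (ht : t = 0 ∨ 0 < ord P t) :
    UV P (algebraMap k (Om k) t + x) := by
  have ht' : InV P (algebraMap k (Om k) t) := by
    rcases ht with rfl | ht
    · rw [map_zero]; exact InV.zero P
    · exact inV_base.2 ht.le
  have h1 : UV P ((algebraMap k (Om k) t + x) + -(algebraMap k (Om k) t)) := by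
    rw [add_comm (algebraMap k (Om k) t) x, add_neg_cancel_right]
    exact hx
  rcases tpu_or (ht'.add hx.i) ht'.neg h1 with h2 | h2
  · exact h2
  · exfalso
    rcases ht with rfl | ht
    · exact h2.ne (by rw [map_zero, neg_zero])
    · have h3 := h2.neg.j
      rw [neg_neg, ← map_inv₀] at h3
      have h4 := inV_base.1 h3
      rw [ord_inv] at h4
      omega

/-- units of two-power extensions under the tame generator -/
theorem tpu_unit {τ φ : Gm k} (hT : TF P τ φ) (h2 : ord P (2 : k) = 0) {x : Om k} (hx : T2 x)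
    (hu : UV P x) (h : τ x = -x) : False := by
  obtain ⟨U, hUn, hUo, hU2, hUx⟩ := hx
  have hfd : FiniteDimensional k (fld k U) := fldK_finite U hUo
  have hxK : x ∈ fld k U := by
    rw [IntermediateField.mem_fixedField_iff]
    exact hUx
  obtain ⟨a, b, hb, hab⟩ := (inV_low (fld k U) ⟨x, hxK⟩).1 hu.i
  obtain ⟨j, hj⟩ := tpu_index U hUo hU2
  set a' : 𝓞 (Om k) := algebraMap (𝓞 (fld k U)) (𝓞 (Om k)) a with ha'
  set b' : 𝓞 (Om k) := algebraMap (𝓞 (fld k U)) (𝓞 (Om k)) b with hb'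
  have hfix : ∀ c : 𝓞 (fld k U), Two2 (algebraMap (𝓞 (fld k U)) (𝓞 (Om k)) c) := by
    intro c
    refine ⟨U, hUn, hUo, ⟨j, hj⟩, fun σ hσ => ?_⟩
    apply RingOfIntegers.coe_injective
    have h3 : ((c : fld k U) : Om k) ∈ fld k U := (c : fld k U).2
    rw [IntermediateField.mem_fixedField_iff] at h3
    exact h3 σ hσ
  have hab' : x * (b' : Om k) = (a' : Om k) := by
    have h3 := congrArg (fun z : fld k U => (z : Om k)) hab
    exact h3
  have hb'' : b' ∉ top P := hb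
  have h3 := hT.ine a' (hfix a)
  have h4 := hT.ine b' (hfix b)
  have h5 : (τ • a') * b' + a' * (τ • b') = 0 := by
    apply RingOfIntegers.coe_injective
    have e1 : (((τ • a') * b' + a' * (τ • b') : 𝓞 (Om k)) : Om k) =
        τ (a' : Om k) * (b' : Om k) + (a' : Om k) * τ (b' : Om k) := rfl
    have e2 : (((0 : 𝓞 (Om k))) : Om k) = 0 := rfl
    refine Eq.trans e1 (Eq.trans ?_ e2.symm)
    rw [← hab', map_mul, h]
    ring
  have h6 : 2 * (a' * b') ∈ top P := by
    have e : 2 * (a' * b') = -((τ • a' - a') * b' + a' * (τ • b' - b')) := by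
      linear_combination h5
    rw [e]
    exact (top P).neg_mem ((top P).add_mem ((top P).mul_mem_right _ h3)
      ((top P).mul_mem_left _ h4))
  have h7 : a' ∈ top P := by
    rcases (top_prime P).mem_or_mem h6 with h7 | h7
    · exact absurd h7 (obn_two_notMem h2)
    · rcases (top_prime P).mem_or_mem h7 with h8 | h8
      · exact h8
      · exact absurd h8 hb''
  obtain ⟨c, d, hd, hcd⟩ := hu.j
  have h8 : d * b' = c * a' := by
    apply RingOfIntegers.coe_injective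
    show (d : Om k) * (b' : Om k) = (c : Om k) * (a' : Om k)
    rw [← hcd, ← hab']
    have := hu.ne
    field_simp
  have h9 : d * b' ∈ top P := by
    rw [h8]
    exact (top P).mul_mem_left _ h7
  rcases (top_prime P).mem_or_mem h9 with h10 | h10
  · exact hd h10
  · exact hb'' h10

/-- the sign under the tame generator of an element with exponent `± m / 2` -/
theorem tpu_fin {τ φ : Gm k} (hT : TF P τ φ) (h2 : ord P (2 : k) = 0) {ε s : Om k} {g : ZMod 2}
    (m : ℕ) (he : T2 ε) (hs : T2 s) (hε : τ ε = so g * ε) (hs1 : τ s = -s)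
    (h : UV P (ε ^ 2 * (s ^ 2) ^ m) ∨ UV P (ε ^ 2 / (s ^ 2) ^ m)) : g = (m : ZMod 2) := by
  have hso : (so (m : ZMod 2) : Om k) = (-1) ^ m := by
    have h3 : (m : ZMod 2) = 0 ∨ (m : ZMod 2) = 1 := by
      generalize (m : ZMod 2) = z
      revert z
      decide
    rcases Nat.even_or_odd m with h4 | h4
    · have h5 : (m : ZMod 2) = 0 := (ZMod.natCast_eq_zero_iff_even).2 h4
      rw [h5, h4.neg_one_pow]
      exact if_pos rfl
    · have h5 : (m : ZMod 2) = 1 := (ZMod.natCast_eq_one_iff_odd).2 h4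
      rw [h5, h4.neg_one_pow]
      exact if_neg one_ne_zero
  by_contra hne
  have h3 : g + (m : ZMod 2) = 1 := by
    have h4 : ∀ u v : ZMod 2, u ≠ v → u + v = 1 := by decide
    exact h4 _ _ hne
  have h4 : (so g * (-1) ^ m : Om k) = -1 := by
    rw [← hso, ← obn_so_mul, h3]
    exact if_neg one_ne_zero
  have hpm : ((-1 : Om k) ^ m) * (-1) ^ m = 1 := by
    rw [← mul_pow]
    norm_num
  rcases h with h | h
  · have h5 : UV P (ε * s ^ m) := by
      refine UV.of_pow two_ne_zero ?_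
      have e : (ε * s ^ m) ^ 2 = ε ^ 2 * (s ^ 2) ^ m := by
        rw [mul_pow, ← pow_mul, ← pow_mul, mul_comm m 2]
      rw [e]
      exact h
    refine tpu_unit hT h2 (he.mul (hs.pow m)) h5 ?_
    rw [map_mul, map_pow, hε, hs1, neg_pow s m]
    calc so g * ε * ((-1) ^ m * s ^ m) = (so g * (-1) ^ m) * (ε * s ^ m) := by ring
      _ = -(ε * s ^ m) := by rw [h4]; ring
  · have h5 : UV P (ε / s ^ m) := by
      refine UV.of_pow two_ne_zero ?_
      have e : (ε / s ^ m) ^ 2 = ε ^ 2 / (s ^ 2) ^ m := by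
        rw [div_pow, ← pow_mul, ← pow_mul, mul_comm m 2]
      rw [e]
      exact h
    refine tpu_unit hT h2 (he.div (hs.pow m)) h5 ?_
    rw [map_div₀, map_pow, hε, hs1, neg_pow s m]
    have h6 : ((-1 : Om k) ^ m)⁻¹ = (-1) ^ m := inv_eq_of_mul_eq_one_left hpm
    calc so g * ε / ((-1) ^ m * s ^ m) = (so g * ((-1) ^ m)⁻¹) * (ε / s ^ m) := by
          rw [div_eq_mul_inv, mul_inv]
          ring
      _ = -(ε / s ^ m) := by rw [h6, h4]; ring

end

end Pool.Agent.SK.TP
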