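import Pool.Agent.SK.VDefs
import Pool.Agent.H32.MA.AHind
import Pool.Agent.H32.MQ.XFrm

/-!
# Malle's conjecture for 8T8 over number fields, row V6: the homomorphisms over a quadratic
extension in a bigger frame
-/

set_option autoImplicit false

open scoped BigOperators Topology
open Filter NumberField IsDedekindDomain

namespace Pool.Agent.SK

open Pool.Agent.H98.MF
open Pool.Agent.H98.MK (sg)
open Pool.Agent.H98.ML (norb hind)
open Pool.Agent.H32.MA (SD)
open Pool.Agent.H32.MQ

/-- the indices of the classes `1` and `C` -/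
theorem v6_hind (g : SD) : (hind SD.H0 g = 0 ∨ hind SD.H0 g = 3) ↔ (g = 1 ∨ SD.clC g) := by
  rw [Pool.Agent.H32.MA.saHind g]
  by_cases h1 : g = 1
  · rw [if_pos h1]
    exact ⟨fun _ => Or.inl h1, fun _ => Or.inl rfl⟩
  · rw [if_neg h1]
    by_cases h2 : SD.clC g
    · rw [if_pos h2]
      exact ⟨fun _ => Or.inr h2, fun _ => Or.inr rfl⟩
    · rw [if_neg h2]
      constructor
      · intro h
        exfalso
        revert h
        by_cases h3 : SD.clZ g
        · rw [if_pos h3]
          decide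
        · rw [if_neg h3]
          by_cases h4 : SD.clR g
          · rw [if_pos h4]
            decide
          · rw [if_neg h4]
            decide
      · rintro (h | h)
        · exact absurd h h1
        · exact absurd h h2

theorem v6_tC {k : Type} [Field k] [NumberField k] (R0 : Rx k) (hx : ARex R0)
    (ρ : Gm k →* SD) (hρ : ρ ∈ Hs k) (P : HeightOneSpectrum (𝓞 k)) (hP : ord P (2 : k) = 0) :
    tC R0 ρ P ↔ (R0.rex P (SD.H0.comap ρ) = 0 ∨ R0.rex P (SD.H0.comap ρ) = 3) := by
  rw [hx ρ hρ P hP, v6_hind]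
  rfl

/-- Row V6. -/
theorem v6 {k : Type} [Field k] [NumberField k] (Fr : Frm k) (R0 : Rx k) (hA : AExX Fr)
    (hx : ARex R0) (hR : ∀ Fr' : Frm k, ARexL R0 Fr') : StV6 Fr R0 := by
  classical
  intro R c hc hcR
  have hsq : ¬ IsSquare (rep Fr c) := by
    intro h
    apply hc
    refine h_coU Fr c (0, ∅) ?_
    have h1 : rep Fr (0, ∅) = 1 := by
      unfold rep
      simp
    rw [h1, mul_one]
    exact h
  obtain ⟨L, _, _, _, X0, j, hXa, hXM, hXd⟩ := hA (rep Fr c) R hsq (fun p hp => by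
    rw [h_repO Fr c p, if_neg (fun h => hp (hcR h))]
    exact Even.zero)
  obtain ⟨F, hF⟩ := stFrE k L (Fr.S ∪ R.image Fr.pl)
  have hS : ∀ p : F.Fr.sys.P, ∃ q : Fr.sys.P, q ∉ R ∧ Fr.pl q = F.Fr.pl p := by
    intro p
    have h1 := hb_notMem F.Fr p
    have h2 : F.Fr.pl p ∉ Fr.S := fun h => h1 (hF (Finset.mem_union_left _ h))
    obtain ⟨q, hq⟩ := (Fr.pl_iff _).2 h2
    exact ⟨q, fun h => h1 (hF (Finset.mem_union_right _ (Finset.mem_image.2 ⟨q, h, hq⟩))), hq⟩
  let X : HX F.Fr L := ⟨X0.a, X0.α, X0.qe, 1, ∅, fun p _ => by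
      obtain ⟨q, hq, hqp⟩ := hS p
      rw [← hqp]
      exact X0.unr q (by rw [hXM]; exact hq), fun p _ Q _ => by
      rw [Units.val_one, Pool.Agent.H98.MF.B.ord_one]
      exact Even.zero⟩
  have hXa' : X.a = rep Fr c := hXa
  let W : (Gm k →* SD) → Prop := fun ρ => ∀ P ∈ F.Fr.S, P ∉ Fr.S →
    (P ∈ R.image Fr.pl ↔
      ¬ (R0.rex P (SD.H0.comap ρ) = 0 ∨ R0.rex P (SD.H0.comap ρ) = 3))
  refine ⟨L, _, _, _, F, X, j, fun ρ => if W ρ then 1 else 0, rfl, ?_, ?_, ?_⟩
  · intro ρ hρ ρ' hρ' he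
    refine if_congr ?_ rfl rfl
    refine forall_congr' fun P => forall_congr' fun hP => forall_congr' fun _ => ?_
    rw [hR F.Fr ρ hρ ρ' hρ' he P hP]
  · intro ρ
    by_cases h : W ρ
    · exact Or.inr (if_pos h)
    · exact Or.inl (if_neg h)
  · intro ρ
    constructor
    · rintro ⟨⟨hρ, hT⟩, hpd⟩
      refine ⟨⟨hρ, fun σ => ?_, fun p _ => ?_⟩, if_pos ?_⟩
      · rw [hpd σ, hXa']
      · obtain ⟨q, hq, hqp⟩ := hS p
        rw [← hqp]
        by_contra h
        exact hq ((hT q).2 h)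
      · intro P hP hPn
        obtain ⟨q, rfl⟩ := (Fr.pl_iff P).2 hPn
        rw [← v6_tC R0 hx ρ hρ _ (hb_two Fr q), ← hT q, Finset.mem_image]
        constructor
        · rintro ⟨q', hq', hqq⟩
          rwa [← Fr.pl_inj hqq]
        · intro h
          exact ⟨q, h, rfl⟩
    · rintro ⟨⟨hρ, hpd, hC⟩, hw⟩
      have hW : W ρ := by
        by_contra h
        have hw' : (if W ρ then (1 : ℝ) else 0) = 1 := hw
        rw [if_neg h] at hw'
        exact zero_ne_one hw'
      refine ⟨⟨hρ, fun p => ?_⟩, fun σ => ?_⟩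
      · by_cases hp : Fr.pl p ∈ F.Fr.S
        · have h1 := hW _ hp (hb_notMem Fr p)
          rw [← v6_tC R0 hx ρ hρ _ (hb_two Fr p)] at h1
          rw [← h1, Finset.mem_image]
          constructor
          · intro h
            exact ⟨p, h, rfl⟩
          · rintro ⟨q', hq', hqq⟩
            rwa [← Fr.pl_inj hqq]
        · obtain ⟨p', hp'⟩ := (F.Fr.pl_iff _).2 hp
          have h1 := hC p' (Finset.notMem_empty _)
          rw [hp'] at h1
          constructor
          · intro h
            exact absurd (hF (Finset.mem_union_right _ (Finset.mem_image.2 ⟨p, h, rfl⟩))) hp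
          · intro h
            exact absurd h1 h
      · rw [hpd σ, hXa']

end Pool.Agent.SK
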