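import Pool.Agent.SK.BDefs
import Pool.Agent.SK.AStm
import Pool.Agent.SK.NDefs

/-!
# Malle's conjecture for 8T8 over number fields: the limit for a fixed quadratic extension,
definitions and statements
-/

set_option autoImplicit false

open scoped BigOperators Topology
open Filter NumberField IsDedekindDomain

namespace Pool.Agent.SK

open Pool.Agent.H98.MF
open Pool.Agent.H98.MK (sg)
open Pool.Agent.H98.ML (norb hind)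
open Pool.Agent.H32.MA (SD)
open Pool.Agent.H32.MQ

section

variable {k L : Type} [Field k] [NumberField k] [Field L] [NumberField L] [Algebra k L]
  (F : FrP k L) (R0 : Rx k) (X : HX F.Fr L) (hM : X.M = ∅) (j : L →ₐ[k] Om k)

/-- the sum over the homomorphisms over `L`, with a weight -/
noncomputable def LW (w : (Gm k →* SD) → ℝ) (x : ℝ) : ℝ :=
  ∑' ρ : Hd R0 X, w ρ.1 * Real.exp (-(sz ρ.1 / x))

/-- the sum of the coefficients `tauW` -/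
noncomputable def TDs (w : (Gm k →* SD) → ℝ) (b : F.Fr.sys.T) (x : ℝ) : ℝ :=
  ∑' g : (gdN (Qof X)).I, (2 ^ g.1.card * ∑ γ ∈ (Qof X).B g.1, tauW R0 X j w b γ) *
    Real.exp (-(((Qof X).nq g.1 : ℝ) / x))

/-- the part of a character `b` -/
noncomputable def Ab (w : (Gm k →* SD) → ℝ) (b : F.Fr.sys.T) (x : ℝ) : ℝ :=
  ∑' g : (gdN (Qof X)).I, (∑ γ ∈ (Qof X).B g.1, tauW R0 X j w b γ *
      ∏ p ∈ (Qof X).shd g.1, (1 + ((sg (b ⬝ᵥ F.Fr.sys.ty p) : ℤ) : ℝ))) *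
    Real.exp (-(((Qof X).nq g.1 : ℝ) / x))

/-- TD: the theorem for the classes which become squares in `L` -/
def StTD : Prop := ∀ (w : (Gm k →* SD) → ℝ) (A : ℝ), (∀ ρ, |w ρ| ≤ A) → SLoc F.Fr w →
  ∀ b : F.Fr.sys.T, IsSquare (X.a * lrp F.Fr b 0) →
    (∀ v : Pl k, hv v (X.a : k) ((-1 : kˣ) : k) = 0) →
      Tendsto (fun x => TDs F R0 X j w b x / x) atTop (𝓝 0)

/-- TDa: the slices (parts 1 and 2 of TD) -/
def StSlc : Prop := ∀ (w : (Gm k →* SD) → ℝ) (A : ℝ), (∀ ρ, |w ρ| ≤ A) → SLoc F.Fr w →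
  ∀ b : F.Fr.sys.T, IsSquare (X.a * lrp F.Fr b 0) →
    (∀ v : Pl k, hv v (X.a : k) ((-1 : kˣ) : k) = 0) →
      ∃ (Pp : Set X.PX) (D : ℝ), 0 ≤ D ∧
        Slc (Qcof X F.FL F.ov hM) Pp (tauW R0 X j w b) D ∧
        Slc (Qcof X F.FL F.ov hM) Ppᶜ (tauW R0 X j w b) D

/-- TDb: the conjugates of the generators -/
def StCjs : Prop := Cjs (Qcof X F.FL F.ov hM)

/-- V1: the classes which become squares in `L` -/
def StV1 : Prop := ∀ b : F.Fr.sys.T, (Qcof X F.FL F.ov hM).em (b, ∅) = 0 → b = 0 ∨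
  IsSquare (X.a * lrp F.Fr b 0)

/-- V2: the part of the trivial character -/
def StV2 : Prop := ∀ (w : (Gm k →* SD) → ℝ) (A : ℝ), (∀ ρ, 0 ≤ w ρ ∧ w ρ ≤ A) → SLoc F.Fr w →
  ∃ l : ℝ, 0 ≤ l ∧ Tendsto (fun x => Ab F R0 X j w 0 x / x) atTop (𝓝 l) ∧
    ((∃ ρ ∈ Hd R0 X, 0 < w ρ) → 0 < l)

/-- V3: the parts of the other characters -/
def StV3 : Prop := ∀ (w : (Gm k →* SD) → ℝ) (A : ℝ), (∀ ρ, |w ρ| ≤ A) → SLoc F.Fr w →
  ∀ b : F.Fr.sys.T, b ≠ 0 → Tendsto (fun x => Ab F R0 X j w b x / x) atTop (𝓝 0)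

/-- V4: the limit for a weight with constant `qS` -/
def StV4 : Prop := ∀ (w : (Gm k →* SD) → ℝ) (A : ℝ) (q : ℕ), (∀ ρ, 0 ≤ w ρ ∧ w ρ ≤ A) →
  SLoc F.Fr w → 1 ≤ q → (∀ ρ, w ρ ≠ 0 → qS R0 F.Fr ρ = q) →
    (∀ x : ℝ, 0 < x → Summable fun ρ : Hd R0 X => w ρ.1 * Real.exp (-(sz ρ.1 / x))) ∧
    ∃ l : ℝ, 0 ≤ l ∧ Tendsto (fun x => LW F R0 X w x / x) atTop (𝓝 l) ∧
      ((∃ ρ ∈ Hd R0 X, 0 < w ρ) → 0 < l)

/-- V5: the limit for a weight -/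
def StV5 : Prop := ∀ (w : (Gm k →* SD) → ℝ) (A : ℝ), (∀ ρ, 0 ≤ w ρ ∧ w ρ ≤ A) →
  SLoc F.Fr w →
    (∀ x : ℝ, 0 < x → Summable fun ρ : Hd R0 X => w ρ.1 * Real.exp (-(sz ρ.1 / x))) ∧
    ∃ l : ℝ, 0 ≤ l ∧ Tendsto (fun x => LW F R0 X w x / x) atTop (𝓝 l) ∧
      ((∃ ρ ∈ Hd R0 X, 0 < w ρ) → 0 < l)

end

/-- V6: the homomorphisms over a quadratic extension in a bigger frame -/
def StV6 {k : Type} [Field k] [NumberField k] (Fr : Frm k) (R0 : Rx k) : Prop :=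
  ∀ (R : Finset Fr.sys.P) (c : El Fr.sys), c ≠ (0, ∅) → c.2 ⊆ R →
    ∃ (L : Type) (_ : Field L) (_ : NumberField L) (_ : Algebra k L) (F : FrP k L)
      (X : HX F.Fr L) (_ : L →ₐ[k] Om k) (w : (Gm k →* SD) → ℝ), X.M = ∅ ∧ SLoc F.Fr w ∧
      (∀ ρ, w ρ = 0 ∨ w ρ = 1) ∧ ∀ ρ, ρ ∈ HRc Fr R0 R c ↔ ρ ∈ Hd R0 X ∧ w ρ = 1

end Pool.Agent.SK
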